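import Pool.Agent.H70.GrigJac

set_option autoImplicit false

namespace Pool.Agent.H70.GrigTor

open Pool.Agent.H70.GrigDefs

abbrev V := Bool × Bool

def sh (v : V) : V := (v.2, xor v.1 v.2)
def ad (v w : V) : V := (xor v.1 w.1, xor v.2 w.2)

def g : V → List Bool → List Bool
  | _, [] => []
  | v, false :: w => false :: (if v.1 then fa w else w)
  | v, true :: w => true :: g (sh v) w

theorem g_ad (v v' : V) (w : List Bool) : g v (g v' w) = g (ad v v') w := by
  induction w generalizing v v' with
  | nil => rfl
  | cons x w ih =>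
    cases x
    · obtain ⟨_ | _, _⟩ := v <;> obtain ⟨_ | _, _⟩ := v' <;> simp [g, ad, fa_inv w]
    · simp only [g, ih]
      congr 2
      revert v v'; decide

theorem g_zero (w : List Bool) : g (false, false) w = w := by
  induction w with
  | nil => rfl
  | cons x w ih => cases x <;> simp [g, sh, ih]

theorem g_inv (v : V) : Function.Involutive (g v) := fun w => by
  rw [g_ad]; simp [ad, g_zero]

def lp : Option V → Equiv.Perm (List Bool)
  | none => fa_inv.toPerm fa
  | some v => (g_inv v).toPerm (g v)

def ev (W : List (Option V)) : Equiv.Perm (List Bool) := (W.map lp).prod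

theorem ev_cons (l : Option V) (W : List (Option V)) : ev (l :: W) = lp l * ev W := by simp [ev]
theorem ev_append (W W' : List (Option V)) : ev (W ++ W') = ev W * ev W' := by simp [ev]
theorem lp_ad (v v' : V) : lp (some v) * lp (some v') = lp (some (ad v v')) := by
  ext1 w; exact g_ad v v' w
theorem lp_zero : lp (some (false, false)) = 1 := by ext1 w; exact g_zero w

def wv : V → ℕ
  | (false, false) => 0
  | (true, true) => 5
  | (true, false) => 4
  | (false, true) => 3

def wl : Option V → ℕ
  | none => 3
  | some v => wv v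

def wt (W : List (Option V)) : ℕ := (W.map wl).sum

theorem wv_ad : ∀ v v' : V, wv (ad v v') ≤ wv v + wv v' := by decide

def par : List (Option V) → Bool
  | [] => false
  | none :: W => !par W
  | some _ :: W => par W

def s1 (v : V) : Bool → List (Option V)
  | false => if v.1 then [none] else []
  | true => [some (sh v)]

def sec : List (Option V) → Bool → List (Option V)
  | [], _ => []
  | none :: W, x => sec W x
  | some v :: W, x => s1 v (xor x (par W)) ++ sec W x

theorem ev_sec (W : List (Option V)) (x : Bool) (w : List Bool) :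
    ev W (x :: w) = xor x (par W) :: ev (sec W x) w := by
  induction W with
  | nil => simp [ev, par, sec]
  | cons l W ih =>
    rw [ev_cons, Equiv.Perm.mul_apply, ih]
    cases l with
    | none => simp [lp, fa, par, sec]
    | some v =>
      simp only [par, sec, ev_append, Equiv.Perm.mul_apply]
      generalize xor x (par W) = y
      cases y
      · obtain ⟨_ | _, _⟩ := v <;> simp [lp, g, s1, ev]
      · simp [lp, g, s1, ev]

theorem ev_nil (W : List (Option V)) : ev W [] = [] := by
  induction W with
  | nil => rfl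
  | cons l W ih => rw [ev_cons, Equiv.Perm.mul_apply, ih]; cases l <;> rfl

def E (ys : List V) : List (Option V) := ys.flatMap fun y => [none, some y]

theorem wt_append (W W' : List (Option V)) : wt (W ++ W') = wt W + wt W' := by simp [wt]

theorem wt_s1 : ∀ (v : V) (y : Bool), wt (s1 v y) + wt (s1 v (!y)) ≤ wv v + 2 := by decide

theorem wt_sec (ys : List V) :
    wt (sec (E ys) false) + wt (sec (E ys) true) + ys.length ≤ wt (E ys) := by
  induction ys with
  | nil => simp [E, sec, wt]
  | cons y ys ih =>
    have e : E (y :: ys) = none :: some y :: E ys := rfl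
    have := wt_s1 y (par (E ys))
    rw [e]
    simp only [sec, wt_append, Bool.false_xor, Bool.true_xor, List.length_cons]
    have e2 : wt (none :: some y :: E ys) = 3 + (wv y + wt (E ys)) := by simp [wt, wl]
    omega

theorem nf (W : List (Option V)) : ∃ x ys, ev W = lp (some x) * ev (E ys) ∧
    wv x + wt (E ys) ≤ wt W := by
  induction W with
  | nil => exact ⟨(false, false), [], by simp [lp_zero, ev, E], by simp [wv, wt, E]⟩
  | cons l W ih =>
    obtain ⟨x, ys, h1, h2⟩ := ih
    cases l with
    | none =>
      refine ⟨(false, false), x :: ys, ?_, ?_⟩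
      · rw [ev_cons, h1, lp_zero, one_mul]
        exact ((ev_cons _ _).trans (congrArg _ (ev_cons _ _))).symm
      · have e2 : wt (E (x :: ys)) = 3 + (wv x + wt (E ys)) := by simp [wt, wl, E]
        have e3 : wt (none :: W) = 3 + wt W := by simp [wt, wl]
        simp only [wv] at *
        omega
    | some v =>
      refine ⟨ad v x, ys, by rw [ev_cons, h1, ← mul_assoc, lp_ad], ?_⟩
      have e3 : wt (some v :: W) = wv v + wt W := by simp [wt, wl]
      have := wv_ad v x
      omega

theorem pow_sec (f : Equiv.Perm (List Bool)) (k : Equiv.Perm (List Bool)) (x : Bool)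
    (h : ∀ w, f (x :: w) = x :: k w) (n : ℕ) (w : List Bool) :
    (f ^ n) (x :: w) = x :: (k ^ n) w := by
  induction n with
  | zero => rfl
  | succ n ih => rw [pow_succ', pow_succ', Equiv.Perm.mul_apply, ih, h]; rfl

theorem fin_of_sec (f : Equiv.Perm (List Bool)) (k : Bool → Equiv.Perm (List Bool))
    (h0 : f [] = []) (h : ∀ x w, f (x :: w) = x :: k x w) (hk : ∀ x, IsOfFinOrder (k x)) :
    IsOfFinOrder f := by
  obtain ⟨n, hn, e⟩ := isOfFinOrder_iff_pow_eq_one.1 (hk false)
  obtain ⟨m, hm, e'⟩ := isOfFinOrder_iff_pow_eq_one.1 (hk true)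
  refine isOfFinOrder_iff_pow_eq_one.2 ⟨n * m, Nat.mul_pos hn hm, ?_⟩
  ext1 w
  rcases w with _ | ⟨x, w⟩
  · exact Equiv.Perm.pow_apply_eq_self_of_apply_eq_self h0 _
  · rw [pow_sec f (k x) x (h x)]
    cases x
    · rw [pow_mul, e, one_pow]; rfl
    · rw [mul_comm, pow_mul, e', one_pow]; rfl

theorem torsion_ev (n : ℕ) : ∀ W, wt W < n → IsOfFinOrder (ev W) := by
  induction n with
  | zero => intro W h; omega
  | succ n ih =>
    have key : ∀ ys : List V, ys ≠ [] → wt (E ys) ≤ n → IsOfFinOrder (ev (E ys)) := by
      intro ys hne hw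
      have h1 := wt_sec ys
      have h2 : 0 < ys.length := List.length_pos_iff.2 hne
      cases hp : par (E ys)
      · refine fin_of_sec _ (fun x => ev (sec (E ys) x)) (ev_nil _)
          (fun x w => by rw [ev_sec, hp]; simp) fun x => ih _ (by cases x <;> omega)
      · refine IsOfFinOrder.of_pow (n := 2) ?_ two_ne_zero
        refine fin_of_sec _ (fun x => ev (sec (E ys) (!x) ++ sec (E ys) x)) ?_ (fun x w => ?_)
          fun x => ih _ (by rw [wt_append]; cases x <;> simp <;> omega)
        · rw [sq, Equiv.Perm.mul_apply, ev_nil, ev_nil]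
        · rw [sq, Equiv.Perm.mul_apply, ev_sec, ev_sec, hp, ev_append]; simp
    intro W hW
    obtain ⟨x, ys, h1, h2⟩ := nf W
    rw [h1]
    rcases List.eq_nil_or_concat' ys with rfl | ⟨zs, z, rfl⟩
    · refine isOfFinOrder_iff_pow_eq_one.2 ⟨2, two_pos, ?_⟩
      have : ev (E []) = 1 := rfl
      rw [this, mul_one, sq, lp_ad]
      simp [ad, lp_zero]
    · have e : ∀ z, E (zs ++ [z]) = E zs ++ [none, some z] := fun z => by simp [E]
      have := key (zs ++ [ad z x]) (by simp) (by
        rw [e, wt_append] at h2 ⊢
        have := wv_ad z x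
        simp only [wt, List.map_cons, wl, List.map_nil, List.sum_cons, List.sum_nil] at h2 hW ⊢
        omega)
      have e2 : ev (E (zs ++ [ad z x])) = ev (E (zs ++ [z])) * lp (some x) := by
        rw [e, e, ev_append, ev_append]
        simp [ev, mul_assoc, lp_ad]
      rw [e2] at this
      have h3 := (MulAut.conj (lp (some x))).toMonoidHom.isOfFinOrder this
      simpa [mul_assoc] using h3

theorem ft_g (w : List Bool) : ft 0 w = g (true, true) w ∧ ft 1 w = g (true, false) w ∧
    ft 2 w = g (false, true) w := by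
  induction w with
  | nil => exact ⟨rfl, rfl, rfl⟩
  | cons x w ih =>
    cases x
    · exact ⟨rfl, rfl, rfl⟩
    · exact ⟨congrArg _ ih.2.1, congrArg _ ih.2.2, congrArg _ ih.1⟩

theorem torsion : Monoid.IsTorsion Grig := by
  rintro ⟨x, hx⟩
  have : ∃ W, x = ev W := by
    have gen : ∀ y ∈ ({fa_inv.toPerm fa, (ft_inv 0).toPerm (ft 0), (ft_inv 1).toPerm (ft 1),
        (ft_inv 2).toPerm (ft 2)} : Set (Equiv.Perm (List Bool))), ∃ l, y = lp l := by
      rintro _ (rfl | rfl | rfl | rfl)
      · exact ⟨none, rfl⟩
      · exact ⟨some _, Equiv.ext fun w => (ft_g w).1⟩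
      · exact ⟨some _, Equiv.ext fun w => (ft_g w).2.1⟩
      · exact ⟨some _, Equiv.ext fun w => (ft_g w).2.2⟩
    induction hx using Subgroup.closure_induction'' with
    | mem y hy =>
      obtain ⟨l, rfl⟩ := gen y hy
      exact ⟨[l], by simp [ev]⟩
    | inv_mem y hy =>
      obtain ⟨l, rfl⟩ := gen y hy
      exact ⟨[l], by cases l <;> rfl⟩
    | one => exact ⟨[], rfl⟩
    | mul a b _ _ ha hb =>
      obtain ⟨W, rfl⟩ := ha
      obtain ⟨W', rfl⟩ := hb
      exact ⟨W ++ W', (ev_append _ _).symm⟩
  obtain ⟨W, rfl⟩ := this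
  exact (Subgroup.subtype_injective Grig).isOfFinOrder_iff.1 (torsion_ev _ W (Nat.lt_succ_self _))

end Pool.Agent.H70.GrigTor
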