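import Mathlib

namespace Pool.Agent.H70.Aff

@[ext] structure G (K : Type) [Field K] where
  b : K
  a : Kˣ

variable {K : Type} [Field K]

instance : Group (G K) where
  mul x y := ⟨x.b + x.a * y.b, x.a * y.a⟩
  one := ⟨0, 1⟩
  inv x := ⟨-(↑x.a⁻¹ * x.b), x.a⁻¹⟩
  mul_assoc x y z := G.ext (by
    change x.b + x.a * y.b + ↑(x.a * y.a) * z.b = x.b + x.a * (y.b + y.a * z.b)
    simp; ring) (mul_assoc _ _ _)
  one_mul x := G.ext (by change 0 + ((1 : Kˣ) : K) * x.b = _; simp) (one_mul _)
  mul_one x := G.ext (by change x.b + x.a * 0 = _; simp) (mul_one _)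
  inv_mul_cancel x := G.ext (neg_add_cancel _) (inv_mul_cancel _)

@[simp] theorem mul_b (x y : G K) : (x * y).b = x.b + x.a * y.b := rfl
@[simp] theorem mul_a (x y : G K) : (x * y).a = x.a * y.a := rfl
@[simp] theorem one_b : (1 : G K).b = 0 := rfl
@[simp] theorem one_a : (1 : G K).a = 1 := rfl

def e : G K ≃ K × Kˣ := ⟨fun x => (x.b, x.a), fun p => ⟨p.1, p.2⟩, fun _ => rfl, fun _ => rfl⟩

instance [Finite K] : Finite (G K) := .of_equiv _ e.symm

theorem card [Finite K] : Nat.card (G K) = Nat.card K * (Nat.card K - 1) := by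
  rw [Nat.card_congr e, Nat.card_prod, Nat.card_units]

theorem cent [Finite K] {x : G K} (hx : x ≠ 1) : Nat.card {y // x * y = y * x} ≤ Nat.card K := by
  by_cases h : x.a = 1
  · have h1 : x.b ≠ 0 := fun h' => hx (G.ext h' h)
    have h2 : ∀ y : {y // x * y = y * x}, y.1.a = 1 := fun y => Units.ext (mul_right_cancel₀ h1 (by
      have := congrArg G.b y.2
      simp only [mul_b, h, Units.val_one] at this ⊢
      linear_combination -this))
    exact Nat.card_le_card_of_injective (fun y => y.1.b) fun y z h =>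
      Subtype.ext (G.ext h ((h2 y).trans (h2 z).symm))
  · refine Nat.card_le_card_of_injective (fun y => (y.1.a : K)) fun y z h' =>
      Subtype.ext (G.ext (mul_left_cancel₀ (sub_ne_zero.2 fun h1 => h (Units.val_eq_one.1 h1)) ?_)
        (Units.ext h'))
    have h1 := congrArg G.b y.2
    have h2 := congrArg G.b z.2
    simp only [mul_b] at h1 h2 h'
    linear_combination h1 - h2 + x.b * h'

theorem cp [Finite K] : commProb (G K) * (Nat.card K - 1) ≤ 2 := by
  classical
  have := Fintype.ofFinite (G K)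
  have h2 : 2 ≤ Nat.card K := Finite.one_lt_card
  have h1 : Nat.card {p : G K × G K // Commute p.1 p.2} ≤ Nat.card (G K) * (2 * Nat.card K) := by
    rw [Nat.card_congr (Equiv.subtypeProdEquivSigmaSubtype fun x y : G K => Commute x y), Nat.card_sigma,
      ← Finset.add_sum_erase _ _ (Finset.mem_univ 1)]
    have h3 := Finset.sum_le_card_nsmul (Finset.univ.erase (1 : G K))
      (fun x => Nat.card {y // Commute x y}) _ fun x hx => cent (Finset.ne_of_mem_erase hx)
    have h4 : (Finset.univ.erase (1 : G K)).card ≤ Nat.card (G K) := by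
      simpa using Finset.card_le_univ (Finset.univ.erase (1 : G K))
    have h5 : Nat.card {y // Commute (1 : G K) y} ≤ Nat.card (G K) := Finite.card_subtype_le _
    rw [smul_eq_mul] at h3
    nlinarith
  have h3 : (Nat.card (G K) : ℚ) = Nat.card K * (Nat.card K - 1) := by
    rw [card]; push_cast [show 1 ≤ Nat.card K by omega]; rfl
  have h4 : (0 : ℚ) < Nat.card (G K) := by exact_mod_cast Nat.card_pos
  have h5 : (_ : ℚ) ≤ _ := Nat.cast_le.2 h1
  have h6 : (2 : ℚ) ≤ Nat.card K := by exact_mod_cast h2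
  rw [commProb_def, div_mul_eq_mul_div, div_le_iff₀ (by positivity)]
  push_cast at h5
  calc _ ≤ Nat.card (G K) * (2 * Nat.card K) * ((Nat.card K : ℚ) - 1) := by gcongr; linarith
    _ = _ := by rw [sq]; nth_rw 3 [h3]; ring

theorem ord (p : ℕ) [Fact p.Prime] : ∃ (α : MulAut (G (ZMod p))) (g : G (ZMod p))
    (A : Equiv.Perm (G (ZMod p))), (∀ x, A x = g * α x) ∧ orderOf A = Nat.card (G (ZMod p)) := by
  obtain ⟨u, hu⟩ := IsCyclic.exists_ofOrder_eq_natCard (α := (ZMod p)ˣ)
  let s : G (ZMod p) := ⟨1, 1⟩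
  let t : G (ZMod p) := ⟨0, u⟩
  have hs : ∀ n : ℕ, s ^ n = ⟨n, 1⟩ := fun n => by
    induction n with
    | zero => ext <;> simp
    | succ n ih => rw [pow_succ, ih]; ext <;> simp [s]
  have ht : ∀ n : ℕ, t ^ n = ⟨0, u ^ n⟩ := fun n => by
    induction n with
    | zero => ext <;> simp
    | succ n ih => rw [pow_succ, ih]; ext <;> simp [t, pow_succ]
  refine ⟨MulAut.conj t⁻¹, s * t, (Equiv.mulRight t).trans (Equiv.mulLeft s),
    fun x => by simp [mul_assoc], ?_⟩
  have hA : ∀ (n : ℕ) x, (((Equiv.mulRight t).trans (Equiv.mulLeft s) : Equiv.Perm _) ^ n) x =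
      s ^ n * x * t ^ n := fun n => by
    induction n with
    | zero => simp
    | succ n ih =>
      intro x
      rw [pow_succ', Equiv.Perm.mul_apply, ih, pow_succ', pow_succ t]
      simp [mul_assoc]
  rw [Nat.card_units, Nat.card_zmod] at hu
  rw [card, Nat.card_zmod]
  refine Nat.dvd_antisymm (orderOf_dvd_of_pow_eq_one (Equiv.ext fun x => ?_)) ?_
  · rw [hA, hs, ht, ← hu, mul_comm p, pow_mul, pow_orderOf_eq_one]
    ext <;> simp
  · have h := hA (orderOf ((Equiv.mulRight t).trans (Equiv.mulLeft s) : Equiv.Perm _)) 1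
    rw [pow_orderOf_eq_one, hs, ht] at h
    refine Nat.Coprime.mul_dvd_of_dvd_of_dvd
      ((Nat.coprime_self_sub_right (Fact.out : p.Prime).one_le).2 (by simp)) ?_ ?_
    · exact (ZMod.natCast_eq_zero_iff _ _).1 (by simpa using (congrArg G.b h).symm)
    · rw [← hu]; exact orderOf_dvd_of_pow_eq_one (by simpa [eq_comm] using congrArg G.a h)

theorem main (ε : ℝ) (hε : 0 < ε) : ∃ (H : Type) (_ : Group H) (_ : Finite H) (α : MulAut H) (g : H)
    (A : Equiv.Perm H), (∀ x, A x = g * α x) ∧ orderOf A = Nat.card H ∧ (commProb H : ℝ) < ε := by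
  obtain ⟨n, hn⟩ := exists_nat_gt (2 / ε)
  obtain ⟨p, h1, h2⟩ := Nat.exists_infinite_primes (n + 1)
  have := Fact.mk h2
  obtain ⟨α, g, A, h3, h4⟩ := ord p
  refine ⟨_, _, inferInstance, α, g, A, h3, h4, ?_⟩
  have h5 : (commProb (G (ZMod p)) : ℝ) * (p - 1) ≤ 2 := by
    have := cp (K := ZMod p)
    rw [Nat.card_zmod] at this
    exact_mod_cast this
  have h6 : (n : ℝ) + 1 ≤ p := by exact_mod_cast h1
  rw [div_lt_iff₀ hε] at hn
  by_contra hc
  nlinarith [not_lt.1 hc]

end Pool.Agent.H70.Aff
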