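import Mathlib

set_option autoImplicit false

namespace Pool.Agent.H70.AutF

open FreeGroup Cardinal

variable {X : Type}

def In (S : Set X) : Subgroup (FreeGroup X) := Subgroup.closure (of '' S)

theorem of_mem {S : Set X} {x : X} (h : x ∈ S) : of x ∈ In S :=
  Subgroup.subset_closure ⟨x, h, rfl⟩

theorem In_mono {S T : Set X} (h : S ⊆ T) : In S ≤ In T :=
  Subgroup.closure_mono (Set.image_mono h)

theorem In_le {S : Set X} {K : Subgroup (FreeGroup X)} (h : ∀ x ∈ S, of x ∈ K) : In S ≤ K := by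
  rw [In, Subgroup.closure_le]
  rintro _ ⟨x, hx, rfl⟩
  exact h x hx

theorem eq_on {G : Type} [Group G] {S : Set X} (f g : FreeGroup X →* G)
    (h : ∀ x ∈ S, f (of x) = g (of x)) {w : FreeGroup X} (hw : w ∈ In S) : f w = g w :=
  MonoidHom.eqOn_closure (by rintro _ ⟨x, hx, rfl⟩; exact h x hx) hw

theorem exists_supp (w : FreeGroup X) : ∃ S : Set X, S.Finite ∧ w ∈ In S := by
  induction w using FreeGroup.induction_on with
  | C1 => exact ⟨∅, Set.finite_empty, Subgroup.one_mem _⟩
  | of x => exact ⟨{x}, Set.finite_singleton x, of_mem rfl⟩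
  | inv_of x _ => exact ⟨{x}, Set.finite_singleton x, Subgroup.inv_mem _ (of_mem rfl)⟩
  | mul v w hv hw =>
    obtain ⟨S, hS, hv⟩ := hv
    obtain ⟨T, hT, hw⟩ := hw
    exact ⟨S ∪ T, hS.union hT, Subgroup.mul_mem _ (In_mono Set.subset_union_left hv)
      (In_mono Set.subset_union_right hw)⟩

noncomputable def supp (w : FreeGroup X) : Set X := (exists_supp w).choose
theorem supp_fin (w : FreeGroup X) : (supp w).Finite := (exists_supp w).choose_spec.1
theorem mem_supp (w : FreeGroup X) : w ∈ In (supp w) := (exists_supp w).choose_spec.2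

theorem surj_of {G : Type} [Group G] (f : G →* FreeGroup X) (h : ∀ x, of x ∈ f.range) :
    Function.Surjective f := fun w =>
  (In_le (K := f.range) fun x _ => h x) (mem_supp w)

def P : Equiv.Perm X →* MulAut (FreeGroup X) where
  toFun e := freeGroupCongr e
  map_one' := freeGroupCongr_refl
  map_mul' e f := (freeGroupCongr_trans f e).symm

theorem P_of (e : Equiv.Perm X) (x : X) : P e (of x) = of (e x) := by
  simp [P]

theorem aut_ext {a b : MulAut (FreeGroup X)} (h : ∀ x, a (of x) = b (of x)) : a = b := by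
  apply MulEquiv.toMonoidHom_injective
  ext x
  exact h x

def shift {W : Type} (p : W × ℤ ≃ X) : Equiv.Perm X :=
  p.permCongr (Equiv.prodCongr (Equiv.refl W) (Equiv.addRight 1))

theorem shift_apply {W : Type} (p : W × ℤ ≃ X) (w : W) (n : ℤ) :
    shift p (p (w, n)) = p (w, n + 1) := by
  simp [shift]

theorem semiconj_zpow {G : Type} [Group G] (f : G → G) (a b : MulAut G)
    (h : ∀ g, f (a g) = b (f g)) (n : ℤ) (g : G) : f ((a ^ n) g) = (b ^ n) (f g) := by
  have h' : ∀ g, f (a⁻¹ g) = b⁻¹ (f g) := by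
    intro g
    have := h (a⁻¹ g)
    rw [MulAut.apply_inv_self] at this
    rw [this, MulAut.inv_apply_self]
  induction n using Int.induction_on generalizing g with
  | zero => rfl
  | succ n ih => rw [zpow_add_one, zpow_add_one, MulAut.mul_apply, ih, h]; rfl
  | pred n ih => rw [zpow_sub_one, zpow_sub_one, MulAut.mul_apply, ih, h']; rfl

theorem lemmaT {W : Type} (p : W × ℤ ≃ X) (r : W → W → Prop) (hr : WellFounded r)
    (u : MulAut (FreeGroup X)) (h1 : ∀ w n, n ≠ 0 → u (of (p (w, n))) = of (p (w, n)))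
    (h2 : ∀ w, u (of (p (w, 0))) ∈ In {x | (p.symm x).2 = 0 ∨ r (p.symm x).1 w}) :
    ∃ θ : MulAut (FreeGroup X), u * P (shift p) = θ * P (shift p) * θ⁻¹ := by
  classical
  set μ : MulAut (FreeGroup X) := P (shift p) with hμ
  set ψ := u * μ with hψ
  have μof : ∀ w n, μ (of (p (w, n))) = of (p (w, n + 1)) := fun w n => by
    rw [hμ, P_of, shift_apply]
  have ψof : ∀ w n, ψ (of (p (w, n))) = u (of (p (w, n + 1))) := fun w n => by
    rw [hψ, MulAut.mul_apply, μof]
  let c : W → FreeGroup X := hr.fix fun w c' => μ⁻¹ (FreeGroup.lift (fun x =>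
    if 0 ≤ (p.symm x).2 then of x else
      if h : r (p.symm x).1 w then (μ ^ ((p.symm x).2 + 1)) (c' _ h) else 1) (u (of (p (w, 0)))))
  let η : FreeGroup X →* FreeGroup X := FreeGroup.lift fun x =>
    if 0 ≤ (p.symm x).2 then of x else (μ ^ ((p.symm x).2 + 1)) (c (p.symm x).1)
  have ηof : ∀ w n, η (of (p (w, n))) =
      if 0 ≤ n then of (p (w, n)) else (μ ^ (n + 1)) (c w) := fun w n => by
    simp [η]
  have hc : ∀ w, η (u (of (p (w, 0)))) = μ (c w) := by
    intro w
    have e : c w = _ := hr.fix_eq _ w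
    rw [e, MulAut.apply_inv_self]
    refine eq_on _ _ ?_ (h2 w)
    intro x hx
    simp only [η, lift_apply_of]
    rcases hx with hx | hx
    · simp [hx]
    · simp only [dif_pos hx]
      rfl
  have hη : ∀ g, η (ψ g) = μ (η g) := by
    intro g
    refine DFunLike.congr_fun (F := FreeGroup X →* FreeGroup X)
      (f := η.comp ψ.toMonoidHom) (g := μ.toMonoidHom.comp η) ?_ g
    ext x
    obtain ⟨⟨w, n⟩, rfl⟩ := p.surjective x
    show η (ψ _) = μ (η _)
    rw [ψof]
    rcases lt_trichotomy n (-1) with h | rfl | h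
    · rw [h1 _ _ (by omega), ηof, ηof, if_neg (by omega), if_neg (by omega), add_comm (n + 1),
        zpow_one_add]
      rfl
    · rw [ηof, if_neg (by omega), neg_add_cancel, hc]
      rfl
    · rw [h1 _ _ (by omega), ηof, ηof, if_pos (by omega), if_pos (by omega), μof]
  let θ : FreeGroup X →* FreeGroup X := FreeGroup.lift fun x =>
    (ψ ^ (p.symm x).2) (of (p ((p.symm x).1, 0)))
  have θof : ∀ w n, θ (of (p (w, n))) = (ψ ^ n) (of (p (w, 0))) := fun w n => by
    simp [θ]
  have μpow : ∀ w (n : ℤ), (μ ^ n) (of (p (w, 0))) = of (p (w, n)) := by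
    intro w n
    induction n using Int.induction_on with
    | zero => rfl
    | succ n ih => rw [add_comm, zpow_one_add, MulAut.mul_apply, ih, μof, add_comm]
    | pred n ih =>
      rw [sub_eq_neg_add, zpow_add, MulAut.mul_apply, ih, zpow_neg_one, MulAut.inv_def,
        MulEquiv.symm_apply_eq, μof]
      congr 3; ring
  have hθ : ∀ g, θ (μ g) = ψ (θ g) := by
    intro g
    refine DFunLike.congr_fun (F := FreeGroup X →* FreeGroup X)
      (f := θ.comp μ.toMonoidHom) (g := ψ.toMonoidHom.comp θ) ?_ g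
    ext x
    obtain ⟨⟨w, n⟩, rfl⟩ := p.surjective x
    show θ (μ (of (p (w, n)))) = ψ (θ (of (p (w, n))))
    rw [μof, θof, θof, add_comm, zpow_one_add]
    rfl
  have hinj : Function.Injective θ := by
    refine Function.LeftInverse.injective (g := η) fun g => ?_
    refine DFunLike.congr_fun (F := FreeGroup X →* FreeGroup X)
      (f := η.comp θ) (g := MonoidHom.id _) ?_ g
    ext x
    obtain ⟨⟨w, n⟩, rfl⟩ := p.surjective x
    show η (θ _) = of _
    rw [θof, semiconj_zpow η ψ μ hη, ηof, if_pos le_rfl, μpow]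
  have hinv : ∀ (n : ℤ) g, g ∈ θ.range → (ψ ^ n) g ∈ θ.range := by
    rintro n _ ⟨g, rfl⟩
    exact ⟨_, semiconj_zpow θ μ ψ hθ n g⟩
  have hsurj : ∀ w n, of (p (w, n)) ∈ θ.range := by
    intro w
    induction w using hr.induction with
    | _ w ih =>
    have z : ∀ w, of (p (w, 0)) ∈ θ.range := fun w => ⟨_, θof w 0⟩
    have hu : u (of (p (w, 0))) ∈ θ.range := by
      refine In_le ?_ (h2 w)
      intro x hx
      obtain ⟨⟨w', n⟩, rfl⟩ := p.surjective x
      simp only [Set.mem_ofPred_eq, Equiv.symm_apply_apply] at hx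
      rcases hx with rfl | hx
      · exact z w'
      · exact ih w' hx n
    intro n
    induction n using Int.induction_on with
    | zero => exact z w
    | succ n ihn =>
      have := hinv 1 _ ihn
      rwa [zpow_one, ψof, h1 _ _ (by omega)] at this
    | pred n ihn =>
      have e : of (p (w, -(n : ℤ) - 1)) = (ψ ^ (-1 : ℤ)) (u (of (p (w, -(n : ℤ))))) := by
        rw [zpow_neg_one, MulAut.inv_def, eq_comm, MulEquiv.symm_apply_eq, ψof]
        simp
      rw [e]
      apply hinv
      rcases Nat.eq_zero_or_pos n with rfl | h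
      · simpa using hu
      · rwa [h1 _ _ (by omega)]
  let θ' : MulAut (FreeGroup X) := MulEquiv.ofBijective θ ⟨hinj, surj_of θ fun x => by
    obtain ⟨⟨w, n⟩, rfl⟩ := p.surjective x
    exact hsurj w n⟩
  refine ⟨θ', ?_⟩
  rw [eq_mul_inv_iff_mul_eq]
  ext g
  exact (hθ g).symm

def sg : Equiv.Perm ((X × Bool) × ℤ) :=
  Function.Involutive.toPerm (fun w => (w.1, if w.1.2 then 1 - w.2 else -w.2)) (by
    rintro ⟨⟨x, b⟩, n⟩; cases b <;> simp)

def tau : Equiv.Perm ((X × Bool) × ℤ) where
  toFun w := ((w.1.1, !w.1.2), if w.1.2 then w.2 else w.2 + 1)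
  invFun w := ((w.1.1, !w.1.2), if w.1.2 then w.2 - 1 else w.2)
  left_inv := by rintro ⟨⟨x, b⟩, n⟩; cases b <;> simp
  right_inv := by rintro ⟨⟨x, b⟩, n⟩; cases b <;> simp

theorem exists_sigma [Infinite X] : ∃ σ : MulAut (FreeGroup X), σ ≠ 1 ∧ σ * σ = 1 ∧
    ∀ (W : Type) (p : W × ℤ ≃ X), #W = #X →
      P (shift p) ∈ Subgroup.normalClosure ({σ} : Set (MulAut (FreeGroup X))) := by
  have hX : ℵ₀ ≤ #X := aleph0_le_mk X
  have hb : #(X × Bool) = #X := by
    rw [mk_prod, lift_id, lift_id]
    exact mul_eq_left hX ((lt_aleph0_of_finite Bool).le.trans hX) (mk_ne_zero _)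
  obtain ⟨p0⟩ : Nonempty ((X × Bool) × ℤ ≃ X) := by
    rw [← Cardinal.eq, mk_prod, lift_id, lift_id, hb, mk_int, mul_eq_left hX hX aleph0_ne_zero]
  refine ⟨P (p0.permCongr sg), ?_, ?_, ?_⟩
  · intro h
    obtain ⟨x⟩ : Nonempty X := inferInstance
    have := P_of (p0.permCongr sg) (p0 ((x, true), 0))
    rw [h] at this
    have := of_injective this
    simp [sg] at this
  · rw [← _root_.map_mul, ← _root_.map_one P]
    congr 1
    ext x
    obtain ⟨⟨⟨x, b⟩, n⟩, rfl⟩ := p0.surjective x
    cases b <;> simp [sg]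
  · intro W p hW
    set N := Subgroup.normalClosure ({P (p0.permCongr sg)} : Set (MulAut (FreeGroup X)))
    have hs : P (p0.permCongr sg) ∈ N := Subgroup.subset_normalClosure rfl
    have h0 : P (shift p0) ∈ N := by
      have : shift p0 = p0.permCongr tau * p0.permCongr sg * (p0.permCongr tau)⁻¹ *
          p0.permCongr sg := by
        ext x
        obtain ⟨⟨⟨x, b⟩, n⟩, rfl⟩ := p0.surjective x
        have e : (p0.permCongr tau)⁻¹ = p0.permCongr tau.symm := rfl
        rw [shift_apply, e]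
        cases b <;> simp [sg, tau] <;> ring
      rw [this, _root_.map_mul, _root_.map_mul, _root_.map_mul, _root_.map_inv]
      exact N.mul_mem (Subgroup.normalClosure_normal.conj_mem _ hs _) hs
    obtain ⟨e⟩ : Nonempty (X × Bool ≃ W) := by rw [← Cardinal.eq, hb, hW]
    let π : Equiv.Perm X := p0.symm.trans ((Equiv.prodCongr e (Equiv.refl ℤ)).trans p)
    have : shift p = π * shift p0 * π⁻¹ := by
      rw [eq_mul_inv_iff_mul_eq]
      ext x
      obtain ⟨⟨w, n⟩, rfl⟩ := p0.surjective x
      simp [π, shift_apply]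
    rw [this, _root_.map_mul, _root_.map_mul, _root_.map_inv]
    exact Subgroup.normalClosure_normal.conj_mem _ h0 _

end Pool.Agent.H70.AutF
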