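import Pool.Agent.H70.AutF1

set_option autoImplicit false

namespace Pool.Agent.H70.AutF

open FreeGroup Cardinal

variable {X : Type}

theorem exists_not_mem {Y Z : Set X} (h : #Z < #Y) : ∃ y ∈ Y, y ∉ Z := by
  by_contra hc
  push Not at hc
  exact absurd (mk_le_mk_of_subset hc) (not_le.2 h)

theorem sdr {A : Type} [Infinite X] (Y : Set X) (hY : #Y = #X) (hA : #A = #X)
    (Z : A → Set X) (hZ : ∀ a, #(Z a) < #X) :
    ∃ c : A → X, Function.Injective c ∧ ∀ a, c a ∈ Y ∧ c a ∉ Z a := by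
  obtain ⟨_, _, hr⟩ := exists_ord_eq_type_lt A
  obtain ⟨x0⟩ : Nonempty X := inferInstance
  have : Nonempty X := ⟨x0⟩
  let c : A → X := (wellFounded_lt (α := A)).fix fun a c' =>
    Classical.epsilon fun y => y ∈ Y ∧ y ∉ Z a ∧ ∀ b (h : b < a), y ≠ c' b h
  have hc : ∀ a, c a ∈ Y ∧ c a ∉ Z a ∧ ∀ b, b < a → c a ≠ c b := by
    intro a
    have e : c a = Classical.epsilon fun y => y ∈ Y ∧ y ∉ Z a ∧ ∀ b (_ : b < a), y ≠ c b :=
      (wellFounded_lt (α := A)).fix_eq _ a
    rw [e]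
    apply Classical.epsilon_spec (p := fun y => y ∈ Y ∧ y ∉ Z a ∧ ∀ b (_ : b < a), y ≠ c b)
    obtain ⟨y, hy, hy'⟩ := exists_not_mem (Y := Y) (Z := Z a ∪ c '' Set.Iio a) (by
      rw [hY]
      exact (mk_union_le _ _).trans_lt (add_lt_of_lt (aleph0_le_mk X) (hZ a)
        (mk_image_le.trans_lt (hA ▸ mk_Iio_lt a hr))))
    exact ⟨y, hy, fun h => hy' (Or.inl h), fun b hb e => hy' (Or.inr ⟨b, hb, e.symm⟩)⟩
  refine ⟨c, fun a b e => ?_, fun a => ⟨(hc a).1, (hc a).2.1⟩⟩
  rcases lt_trichotomy a b with h | h | h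
  · exact absurd e.symm ((hc b).2.2 a h)
  · exact h
  · exact absurd e ((hc a).2.2 b h)

theorem union_lt [Infinite X] (s : Set X) (hs : #s < #X) (f : X → Set X) (hf : ∀ a, (f a).Finite) :
    #(⋃ a ∈ s, f a) < #X := by
  by_cases h : s.Finite
  · exact (h.biUnion fun a _ => hf a).lt_aleph0.trans_le (aleph0_le_mk X)
  · have h2 : ℵ₀ ≤ #s := by rwa [← not_lt, lt_aleph0_iff_set_finite]
    refine lt_of_le_of_lt ((mk_biUnion_le _ _).trans (mul_le_of_le h2 le_rfl
      (ciSup_le' fun a => (hf a).lt_aleph0.le.trans h2))) hs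

theorem fix_mem [Infinite X] (N : Subgroup (MulAut (FreeGroup X))) [hN : N.Normal]
    (hs : ∀ (W : Type) (p : W × ℤ ≃ X), #W = #X → P (shift p) ∈ N)
    (u : MulAut (FreeGroup X)) (Y : Set X) (hY : #Y = #X) (hu : ∀ y ∈ Y, u (of y) = of y) :
    u ∈ N := by
  classical
  have hX : ℵ₀ ≤ #X := aleph0_le_mk X
  have hXZ : #(X × ℤ) = #X := by
    rw [mk_prod, lift_id, lift_id, mk_int, mul_eq_left hX hX aleph0_ne_zero]
  obtain ⟨_, _, hr⟩ := exists_ord_eq_type_lt X
  obtain ⟨c, ci, hc⟩ := sdr Y hY hXZ (fun a => ⋃ x ∈ Set.Iic a.1, supp (u (of x)))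
    (fun a => union_lt _ (mk_Iic_lt _ hr hX) _ fun _ => supp_fin _)
  let L : Set X := {y | y ∈ Y ∧ ∀ w n, w ∉ Y → n ≠ 0 → y ≠ c (w, n)}
  obtain ⟨l⟩ : Nonempty (X × ℤ ≃ L) := by
    rw [← Cardinal.eq, hXZ]
    refine le_antisymm (mk_le_of_injective (f := fun x => ⟨c (x, 0), (hc _).1, ?_⟩) ?_)
      (mk_set_le _)
    · intro w n _ hn e
      exact hn (Prod.ext_iff.1 (ci e)).2.symm
    · intro x y e
      exact (Prod.ext_iff.1 (ci (congrArg Subtype.val e))).1
  let f : (X ⊕ (Yᶜ : Set X)) × ℤ → X := fun a => a.1.elim (fun x => (l (x, a.2)).1)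
    (fun w => if a.2 = 0 then w.1 else c (w.1, a.2))
  have fb : Function.Bijective f := by
    constructor
    · rintro ⟨x | w, n⟩ ⟨y | v, m⟩ e
      · have := l.injective (Subtype.ext e)
        simp only [Prod.mk.injEq] at this
        rw [this.1, this.2]
      · exfalso
        simp only [f, Sum.elim_inl, Sum.elim_inr] at e
        split_ifs at e with h
        · exact v.2 (e ▸ (l (x, n)).2.1)
        · exact (l (x, n)).2.2 _ _ v.2 h e
      · exfalso
        simp only [f, Sum.elim_inl, Sum.elim_inr] at e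
        split_ifs at e with h
        · exact w.2 (e ▸ (l (y, m)).2.1)
        · exact (l (y, m)).2.2 _ _ w.2 h e.symm
      · simp only [f, Sum.elim_inr] at e
        split_ifs at e with h1 h2 h2
        · rw [h1, h2, Subtype.ext e]
        · exact absurd (e ▸ (hc _).1) w.2
        · exact absurd (e ▸ (hc _).1) v.2
        · have := ci e
          simp only [Prod.mk.injEq] at this
          rw [this.2, Subtype.ext this.1]
    · intro x
      by_cases h1 : x ∈ Y
      · by_cases h2 : x ∈ L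
        · obtain ⟨⟨y, n⟩, e⟩ := l.surjective ⟨x, h2⟩
          exact ⟨(Sum.inl y, n), congrArg Subtype.val e⟩
        · simp only [L, Set.mem_ofPred_eq, h1, true_and, not_forall, not_not] at h2
          obtain ⟨w, n, hw, hn, e⟩ := h2
          exact ⟨(Sum.inr ⟨w, hw⟩, n), by simp [f, hn, e]⟩
      · exact ⟨(Sum.inr ⟨x, h1⟩, 0), by simp [f]⟩
  let p := Equiv.ofBijective f fb
  obtain ⟨θ, hθ⟩ := lemmaT p (Sum.Lex emptyRelation fun a b => a.1 < b.1)
    (Sum.lex_wf emptyWf.wf (InvImage.wf _ wellFounded_lt)) u (by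
      rintro (x | w) n hn
      · exact hu _ (l (x, n)).2.1
      · apply hu
        simp only [p, Equiv.ofBijective_apply, f, Sum.elim_inr, if_neg hn]
        exact (hc _).1) (by
      rintro (x | w)
      · rw [hu (p (Sum.inl x, 0)) (l (x, 0)).2.1]
        exact of_mem (Or.inl (by simp))
      · have e : p (Sum.inr w, 0) = w.1 := by simp [p, f]
        rw [e]
        refine In_mono ?_ (mem_supp _)
        intro y hy
        obtain ⟨⟨x | v, n⟩, rfl⟩ := p.surjective y
        · right; simp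
        · simp only [Set.mem_ofPred_eq, Equiv.symm_apply_apply, Sum.lex_inr_inr]
          by_contra h
          push Not at h
          have e2 : p (Sum.inr v, n) = c (v.1, n) := by simp [p, f, h.1]
          rw [e2] at hy
          exact (hc (v.1, n)).2 (Set.mem_biUnion h.2 hy))
  have hm := hs _ p (by
    rw [mk_sum, lift_id, lift_id]
    exact add_eq_left hX (mk_set_le _))
  have := N.mul_mem (hN.conj_mem _ hm θ) (N.inv_mem hm)
  rw [← hθ] at this
  simpa using this

theorem step [Infinite X] (γ : MulAut (FreeGroup X)) (D : Set X) (hD : D.Finite) :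
    ∃ y, y ∉ D ∧ ∃ β : MulAut (FreeGroup X), (∀ x ∈ D, β (of x) = γ (of x)) ∧ β (of y) = of y := by
  let R : Set X := D ∪ ⋃ x ∈ D, supp (γ (of x))
  have hR : R.Finite := hD.union (hD.biUnion fun _ _ => supp_fin _)
  obtain ⟨g, hg⟩ := extend_function_of_lt (α := X) (β := Option X) (s := R)
    ⟨fun x => some x.1, fun x y e => Subtype.ext (Option.some_injective _ e)⟩
    (hR.lt_aleph0.trans_le (aleph0_le_mk X)) (by
      rw [← Cardinal.eq, mk_option, add_one_eq (aleph0_le_mk X)])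
  have hg' : ∀ x ∈ R, g x = some x := fun x hx => hg ⟨x, hx⟩
  let j : X → X := fun x => g.symm (some x)
  let B : MulAut (FreeGroup X) → FreeGroup X →* FreeGroup X := fun a =>
    FreeGroup.lift fun x => (g x).elim (of x) fun z => FreeGroup.map j (a (of z))
  have Bj : ∀ a w, B a (FreeGroup.map j w) = FreeGroup.map j (a w) := by
    intro a w
    refine DFunLike.congr_fun (F := FreeGroup X →* FreeGroup X)
      (f := (B a).comp (FreeGroup.map j)) (g := (FreeGroup.map j).comp a.toMonoidHom) ?_ w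
    ext x
    simp [B, j]
  have By : ∀ a, B a (of (g.symm none)) = of (g.symm none) := by
    intro a; simp [B]
  have BB : ∀ a b : MulAut (FreeGroup X), a * b = 1 → (B a).comp (B b) = MonoidHom.id _ := by
    intro a b hab
    ext x
    obtain ⟨z | z, rfl⟩ := g.symm.surjective x
    · simp [By]
    · have : of (g.symm (some z)) = FreeGroup.map j (of z) := rfl
      rw [MonoidHom.comp_apply, this, Bj, Bj, ← MulAut.mul_apply, hab]
      rfl
  refine ⟨g.symm none, fun h => ?_, MonoidHom.toMulEquiv (B γ) (B γ⁻¹) (BB _ _ (by simp))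
    (BB _ _ (by simp)), fun x hx => ?_, By γ⟩
  · have := hg' _ (Or.inl h)
    simp at this
  · have jR : ∀ x ∈ R, j x = x := fun x hx => by
      simp only [j]; rw [← hg' x hx]; simp
    have : of x = FreeGroup.map j (of x) := by rw [FreeGroup.map.of, jR x (Or.inl hx)]
    show B γ (of x) = _
    rw [this, Bj, ← this]
    refine eq_on _ (MonoidHom.id _) (fun y hy => ?_) (mem_supp _)
    rw [FreeGroup.map.of, jR y (Or.inr (Set.mem_biUnion hx hy))]
    rfl

theorem split_countable [Infinite X] [Countable X] (φ : MulAut (FreeGroup X)) :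
    ∃ (b : MulAut (FreeGroup X)) (Y Z : Set X), #Y = #X ∧ #Z = #X ∧
      (∀ y ∈ Y, b (of y) = of y) ∧ ∀ z ∈ Z, b (of z) = φ (of z) := by
  classical
  obtain ⟨e, he⟩ := exists_surjective_nat X
  have key : ∀ (n : ℕ) (s : MulAut (FreeGroup X) × Finset X),
      ∃ t : MulAut (FreeGroup X) × Finset X, s.2 ⊆ t.2 ∧ (∀ x ∈ s.2, t.1 (of x) = s.1 (of x)) ∧
        e n ∈ t.2 ∧ (∃ w ∈ In (t.2 : Set X), t.1 w = of (e n)) ∧
        (∃ y ∈ t.2, y ∉ s.2 ∧ t.1 (of y) = of y) ∧
        (∃ z ∈ t.2, z ∉ s.2 ∧ t.1 (of z) = φ (of z)) := by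
    rintro n ⟨b, D⟩
    obtain ⟨y, hy, b1, h1, hb1⟩ := step b D D.finite_toSet
    obtain ⟨z, hz, b2, h2, hb2⟩ := step (φ⁻¹ * b1) (insert y (D : Set X))
      (D.finite_toSet.insert y)
    have h3 : ∀ x ∈ insert y (D : Set X), (φ * b2) (of x) = b1 (of x) := by
      intro x hx
      rw [MulAut.mul_apply, h2 x hx]; simp
    refine ⟨(φ * b2, insert (e n) (insert z (insert y D)) ∪
      (supp_fin ((φ * b2)⁻¹ (of (e n)))).toFinset), ?_, ?_, by simp, ?_, ?_, ?_⟩
    · intro x hx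
      simp only [Finset.mem_union, Finset.mem_insert]
      tauto
    · intro x hx
      exact (h3 x (Or.inr hx)).trans (h1 x hx)
    · refine ⟨(φ * b2)⁻¹ (of (e n)), In_mono ?_ (mem_supp _), by simp⟩
      intro x hx
      simp only [Finset.coe_union, Set.Finite.coe_toFinset]
      exact Or.inr hx
    · exact ⟨y, by simp, hy, (h3 y (Or.inl rfl)).trans hb1⟩
    · exact ⟨z, by simp, fun h => hz (Or.inr h), by simp [hb2]⟩
  choose nx hnx0 using key
  obtain ⟨s, hs⟩ : ∃ s : ℕ → MulAut (FreeGroup X) × Finset X, ∀ n, s (n + 1) = nx n (s n) :=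
    ⟨fun n => Nat.rec (1, ∅) nx n, fun _ => rfl⟩
  have hnx := fun n => hnx0 n (s n)
  simp only [← hs] at hnx
  clear hnx0 hs
  have mono : ∀ n m, n ≤ m → (s n).2 ⊆ (s m).2 ∧ ∀ x ∈ (s n).2, (s m).1 (of x) = (s n).1 (of x) := by
    intro n m h
    induction h with
    | refl => exact ⟨subset_rfl, fun _ _ => rfl⟩
    | step _ ih =>
      refine ⟨ih.1.trans (hnx _).1, fun x hx => ?_⟩
      rw [(hnx _).2.1 x (ih.1 hx), ih.2 x hx]
  choose k hk using he
  have hk' : ∀ x, x ∈ (s (k x + 1)).2 := fun x => by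
    have := (hnx (k x)).2.2.1
    rwa [hk] at this
  obtain ⟨b, hb0⟩ : ∃ b : FreeGroup X →* FreeGroup X, ∀ x, b (of x) = (s (k x + 1)).1 (of x) :=
    ⟨FreeGroup.lift fun x => (s (k x + 1)).1 (of x), fun x => lift_apply_of⟩
  have hb : ∀ n, ∀ x ∈ (s n).2, b (of x) = (s n).1 (of x) := by
    intro n x hx
    rw [hb0]
    rcases le_total n (k x + 1) with h | h
    · exact (mono _ _ h).2 x hx
    · exact ((mono _ _ h).2 x (hk' x)).symm
  have hb' : ∀ n, ∀ w ∈ In ((s n).2 : Set X), b w = (s n).1 w := fun n w hw =>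
    eq_on b (s n).1.toMonoidHom (hb n) hw
  have bij : Function.Bijective b := by
    constructor
    · rw [injective_iff_map_eq_one]
      intro w hw
      obtain ⟨n, hn⟩ := ((supp_fin w).image k).bddAbove
      have : w ∈ In ((s (n + 1)).2 : Set X) := In_mono (fun x hx =>
        (mono _ _ (Nat.succ_le_succ (hn ⟨x, hx, rfl⟩))).1 (hk' x)) (mem_supp w)
      rw [hb' _ _ this] at hw
      simpa using hw
    · refine surj_of b fun x => ?_
      obtain ⟨w, hw, e⟩ := (hnx (k x)).2.2.2.1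
      exact ⟨w, by rw [hb' (k x + 1) w hw, e, hk]⟩
  have inf : ∀ Q : X → Prop, (∀ n, ∃ y, y ∉ (s n).2 ∧ Q y) → #{y | Q y} = #X := by
    intro Q hQ
    have : Infinite {y | Q y} := by
      refine Set.infinite_coe_iff.2 fun hf => ?_
      obtain ⟨n, hn⟩ := (hf.image k).bddAbove
      obtain ⟨y, hy, hq⟩ := hQ (n + 1)
      exact hy ((mono _ _ (Nat.succ_le_succ (hn ⟨y, hq, rfl⟩))).1 (hk' y))
    rw [mk_eq_aleph0, mk_eq_aleph0]
  refine ⟨MulEquiv.ofBijective b bij, {y | b (of y) = of y}, {z | b (of z) = φ (of z)},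
    inf _ fun n => ?_, inf _ fun n => ?_, fun _ h => h, fun _ h => h⟩
  · obtain ⟨y, h1, h2, h3⟩ := (hnx n).2.2.2.2.1
    exact ⟨y, h2, (hb (n + 1) y h1).trans h3⟩
  · obtain ⟨y, h1, h2, h3⟩ := (hnx n).2.2.2.2.2
    exact ⟨y, h2, (hb (n + 1) y h1).trans h3⟩

end Pool.Agent.H70.AutF
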