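import Pool.Agent.H70.AutF2

set_option autoImplicit false

namespace Pool.Agent.H70.AutF

open FreeGroup Cardinal

variable {X : Type}

theorem fin_sub {S : Set X} {w : FreeGroup X} (h : w ∈ In S) :
    ∃ T : Set X, T.Finite ∧ T ⊆ S ∧ w ∈ In T := by
  induction h using Subgroup.closure_induction with
  | mem x hx =>
    obtain ⟨y, hy, rfl⟩ := hx
    exact ⟨{y}, Set.finite_singleton y, by simpa using hy, of_mem rfl⟩
  | one => exact ⟨∅, Set.finite_empty, by simp, Subgroup.one_mem _⟩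
  | mul v w _ _ hv hw =>
    obtain ⟨S, hS, s1, hv⟩ := hv
    obtain ⟨T, hT, s2, hw⟩ := hw
    exact ⟨S ∪ T, hS.union hT, Set.union_subset s1 s2,
      Subgroup.mul_mem _ (In_mono Set.subset_union_left hv) (In_mono Set.subset_union_right hw)⟩
  | inv v _ hv =>
    obtain ⟨S, hS, s1, hv⟩ := hv
    exact ⟨S, hS, s1, Subgroup.inv_mem _ hv⟩

theorem triang [LinearOrder X] [WellFoundedLT X] (ρ : X → X) (Φ : X → MulAut (FreeGroup X))
    (h1 : ∀ l x, Φ l (of x) ∈ In {y | ρ y ≤ ρ x})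
    (h2 : ∀ l x, (Φ l)⁻¹ (of x) ∈ In {y | ρ y ≤ ρ x})
    (b : FreeGroup X →* FreeGroup X) (hb : ∀ x, b (of x) = Φ (ρ x) (of x)) :
    Function.Bijective b := by
  classical
  have pres : ∀ (f : FreeGroup X →* FreeGroup X), (∀ x, f (of x) ∈ In {y | ρ y ≤ ρ x}) →
      ∀ l, ∀ w ∈ In {y | ρ y < l}, f w ∈ In {y | ρ y < l} := by
    intro f hf l w hw
    refine In_le (K := (In {y | ρ y < l}).comap f) (fun x hx => ?_) hw
    rw [Subgroup.mem_comap]
    exact In_mono (S := {y | ρ y ≤ ρ x}) (fun y hy => lt_of_le_of_lt hy hx) (hf x)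
  have key : ∀ l, (∀ w ∈ In {y | ρ y ≤ l}, b w = 1 → w = 1) ∧
      ∀ y, ρ y = l → ∃ w ∈ In {y | ρ y ≤ l}, b w = of y := by
    refine fun l => (wellFounded_lt (α := X)).induction (C := fun l =>
      (∀ w ∈ In {y | ρ y ≤ l}, b w = 1 → w = 1) ∧
      ∀ y, ρ y = l → ∃ w ∈ In {y | ρ y ≤ l}, b w = of y) l fun l ih => ?_
    have injA : ∀ w ∈ In {y | ρ y < l}, b w = 1 → w = 1 := by
      intro w hw
      obtain ⟨T, hT, hs, hw⟩ := fin_sub hw
      rcases T.eq_empty_or_nonempty with rfl | hne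
      · intro _
        simpa [In] using hw
      · obtain ⟨m, hm, hmax⟩ := Set.exists_max_image T ρ hT hne
        exact (ih _ (hs hm)).1 w (In_mono hmax hw)
    have surA : ∀ y, ∃ w, ρ y < l → (w ∈ In {y | ρ y < l} ∧ b w = of y) := by
      intro y
      by_cases hy : ρ y < l
      · obtain ⟨w, hw, e⟩ := (ih _ hy).2 y rfl
        exact ⟨w, fun _ => ⟨In_mono (fun z hz => lt_of_le_of_lt hz hy) hw, e⟩⟩
      · exact ⟨1, fun h => absurd h hy⟩
    choose c hc using surA
    obtain ⟨η0, hη0⟩ : ∃ η0 : FreeGroup X →* FreeGroup X, ∀ x, η0 (of x) = c x :=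
      ⟨FreeGroup.lift c, fun x => lift_apply_of⟩
    have e1 : ∀ w ∈ In {y | ρ y < l}, b (η0 w) = w := fun w hw =>
      eq_on (b.comp η0) (MonoidHom.id _) (fun x hx => by simpa [hη0] using (hc x hx).2) hw
    have e2 : ∀ w ∈ In {y | ρ y < l}, η0 w ∈ In {y | ρ y < l} := fun w hw =>
      In_le (K := (In {y | ρ y < l}).comap η0) (fun x hx => by simpa [hη0] using (hc x hx).1) hw
    have bA := pres b (fun x => by rw [hb]; exact h1 _ x) l
    have e3 : ∀ w ∈ In {y | ρ y < l}, η0 (b w) = w := by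
      intro w hw
      have := injA (η0 (b w) * w⁻¹) (Subgroup.mul_mem _ (e2 _ (bA w hw)) (Subgroup.inv_mem _ hw))
        (by rw [_root_.map_mul, e1 _ (bA w hw)]; simp)
      exact mul_inv_eq_one.1 this
    obtain ⟨η1, hη1⟩ : ∃ η1 : FreeGroup X →* FreeGroup X, ∀ y, η1 (of y) =
      if ρ y < l then η0 (Φ l (of y)) else of y := ⟨FreeGroup.lift _, fun x => lift_apply_of⟩
    have e4 : ∀ w ∈ In {y | ρ y < l}, η1 w = η0 (Φ l w) := fun w hw =>
      eq_on η1 (η0.comp (Φ l).toMonoidHom) (fun x hx => by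
        rw [hη1, if_pos (show ρ x < l from hx)]; rfl) hw
    constructor
    · intro w hw e
      have : η1 ((Φ l)⁻¹ (b w)) = w := by
        refine eq_on ((η1.comp (Φ l)⁻¹.toMonoidHom).comp b) (MonoidHom.id _) ?_ hw
        intro x hx
        show η1 ((Φ l)⁻¹ (b (of x))) = of x
        rcases lt_or_eq_of_le (show ρ x ≤ l from hx) with h | h
        · have := pres (Φ l)⁻¹.toMonoidHom (h2 l) l _ (bA _ (of_mem h))
          rw [e4 ((Φ l)⁻¹ (b (of x))) this, MulAut.apply_inv_self, e3 _ (of_mem h)]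
        · rw [hb, h, MulAut.inv_apply_self]
          simp [hη1, h]
      rw [← this, e]; simp
    · intro y hy
      have hle : In {y | ρ y < l} ≤ In {y | ρ y ≤ l} := In_mono fun z hz => le_of_lt hz
      have : In {y | ρ y ≤ l} ≤ ((In {y | ρ y ≤ l}).map b).comap (Φ l).toMonoidHom := by
        refine In_le fun x hx => ?_
        rcases lt_or_eq_of_le (show ρ x ≤ l from hx) with h | h
        · have := pres (Φ l).toMonoidHom (h1 l) l _ (of_mem h)
          exact ⟨_, hle (e2 _ this), e1 _ this⟩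
        · exact ⟨of x, of_mem hx, by rw [hb, h]; rfl⟩
      have h3 := h2 l y
      rw [hy] at h3
      obtain ⟨w, hw, e⟩ := this h3
      exact ⟨w, hw, e.trans (MulAut.apply_inv_self _ _ _)⟩
  constructor
  · rw [injective_iff_map_eq_one]
    intro w
    rcases (supp w).eq_empty_or_nonempty with h | hne
    · intro _
      simpa [In, h] using mem_supp w
    · obtain ⟨m, hm, hmax⟩ := Set.exists_max_image _ ρ (supp_fin w) hne
      exact (key _).1 w (In_mono hmax (mem_supp w))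
  · refine surj_of b fun x => ?_
    obtain ⟨w, _, e⟩ := (key _).2 x rfl
    exact ⟨w, e⟩

theorem split_unc (hX : ℵ₀ < #X) (φ : MulAut (FreeGroup X)) :
    ∃ (b : MulAut (FreeGroup X)) (Y Z : Set X), #Y = #X ∧ #Z = #X ∧
      (∀ y ∈ Y, b (of y) = of y) ∧ ∀ z ∈ Z, b (of z) = φ (of z) := by
  classical
  obtain ⟨_, _⟩ := exists_wellOrder X
  let nb : X → Set X := fun x => supp (φ (of x)) ∪ supp (φ⁻¹ (of x))
  let S : X → ℕ → Set X := fun x n => Nat.rec {x} (fun _ T => ⋃ y ∈ T, nb y) n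
  have Sc : ∀ x n, (S x n).Countable := by
    intro x n
    induction n with
    | zero => exact Set.countable_singleton x
    | succ n ih => exact ih.biUnion fun y _ => ((supp_fin _).union (supp_fin _)).countable
  let ρ : X → X := fun x => (wellFounded_lt (α := X)).min {l | x ∈ ⋃ n, S l n}
    ⟨x, Set.mem_iUnion.2 ⟨0, rfl⟩⟩
  have ρ1 : ∀ x, x ∈ ⋃ n, S (ρ x) n := fun x =>
    (wellFounded_lt (α := X)).min_mem {l | x ∈ ⋃ n, S l n} _
  have ρ2 : ∀ x, ∀ y ∈ nb x, ρ y ≤ ρ x := by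
    intro x y hy
    obtain ⟨n, hn⟩ := Set.mem_iUnion.1 (ρ1 x)
    exact (wellFounded_lt (α := X)).min_le (s := {l | y ∈ ⋃ n, S l n})
      (Set.mem_iUnion.2 ⟨n + 1, (Set.mem_biUnion hn hy : y ∈ ⋃ z ∈ S (ρ x) n, nb z)⟩)
  have hR : #(Set.range ρ) = #X := by
    refine le_antisymm (mk_set_le _) ?_
    by_contra h
    push Not at h
    have : #X ≤ #(⋃ l ∈ Set.range ρ, ⋃ n, S l n) := by
      rw [← mk_univ]
      exact mk_le_mk_of_subset fun x _ => Set.mem_biUnion ⟨x, rfl⟩ (ρ1 x)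
    refine absurd (this.trans (mk_biUnion_le _ _)) (not_le.2 (mul_lt_of_lt hX.le h ?_))
    exact lt_of_le_of_lt (ciSup_le' fun l => (Set.countable_iUnion (Sc l.1)).le_aleph0) hX
  obtain ⟨e⟩ : Nonempty (X × Bool ≃ Set.range ρ) := by
    rw [← Cardinal.eq, hR, mk_prod, lift_id, lift_id]
    exact mul_eq_left hX.le ((lt_aleph0_of_finite Bool).le.trans hX.le) (mk_ne_zero _)
  let Φ : X → MulAut (FreeGroup X) := fun l => if ∃ x, (e (x, true)).1 = l then φ else 1
  have bij := triang ρ Φ (by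
    intro l x
    simp only [Φ]
    split_ifs
    · exact In_mono (fun y hy => ρ2 x y (Or.inl hy)) (mem_supp _)
    · exact of_mem le_rfl) (by
    intro l x
    simp only [Φ]
    split_ifs
    · exact In_mono (fun y hy => ρ2 x y (Or.inr hy)) (mem_supp _)
    · exact of_mem le_rfl) (FreeGroup.lift fun x => Φ (ρ x) (of x)) (fun x => lift_apply_of)
  have big : ∀ (t : Bool) (Q : X → Prop), (∀ x y, ρ y = (e (x, t)).1 → Q y) → #{y | Q y} = #X := by
    intro t Q hQ
    refine le_antisymm (mk_set_le _) (mk_le_of_injective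
      (f := fun x => ⟨(e (x, t)).2.choose, hQ x _ (e (x, t)).2.choose_spec⟩) ?_)
    intro x y h
    have := congrArg (fun z => ρ z.1) h
    simp only [(e (_, t)).2.choose_spec] at this
    exact (Prod.ext_iff.1 (e.injective (Subtype.ext this))).1
  refine ⟨MulEquiv.ofBijective _ bij, {y | Φ (ρ y) = 1}, {z | Φ (ρ z) = φ},
    big false _ fun x y h => ?_, big true _ fun x y h => ?_, fun y h => ?_, fun y h => ?_⟩
  · refine if_neg ?_
    rintro ⟨z, hz⟩
    have := e.injective (Subtype.ext (hz.trans h))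
    simp at this
  · exact if_pos ⟨x, h.symm⟩
  · rw [MulEquiv.ofBijective_apply, lift_apply_of, h]; rfl
  · rw [MulEquiv.ofBijective_apply, lift_apply_of, h]

theorem main [Infinite X] : ∃ σ : MulAut (FreeGroup X), σ ≠ 1 ∧ σ * σ = 1 ∧
    Subgroup.normalClosure ({σ} : Set (MulAut (FreeGroup X))) = ⊤ := by
  obtain ⟨σ, h1, h2, h3⟩ := exists_sigma (X := X)
  refine ⟨σ, h1, h2, ?_⟩
  rw [eq_top_iff]
  intro φ _
  obtain ⟨b, Y, Z, hY, hZ, hb, hb'⟩ : ∃ (b : MulAut (FreeGroup X)) (Y Z : Set X), #Y = #X ∧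
      #Z = #X ∧ (∀ y ∈ Y, b (of y) = of y) ∧ ∀ z ∈ Z, b (of z) = φ (of z) := by
    rcases (aleph0_le_mk X).eq_or_lt with h | h
    · have : Countable X := mk_le_aleph0_iff.1 h.ge
      exact split_countable φ
    · exact split_unc h φ
  have m1 := fix_mem _ h3 b Y hY hb
  have m2 := fix_mem _ h3 (b⁻¹ * φ) Z hZ (fun z hz => by
    rw [MulAut.mul_apply, ← hb' z hz, MulAut.inv_apply_self])
  simpa using Subgroup.mul_mem _ m1 m2

end Pool.Agent.H70.AutF
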