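import Pool.Agent.H70.AutF3

set_option autoImplicit false

namespace Pool.Agent.H70.AutF

open FreeGroup Cardinal

variable {X : Type}

abbrev Gm := FreeGroup ℤ

def lst (γ : Gm) : Option (ℤ × Bool) := γ.toWord.getLast?

theorem lst_mul (n : ℤ) (γ : Gm) (h1 : γ ≠ 1) (h2 : of n * γ ≠ 1) : lst (of n * γ) = lst γ := by
  rw [Ne, ← toWord_eq_nil_iff] at h1 h2
  unfold lst
  rw [toWord_mul, toWord_of, List.singleton_append, reduce.cons, reduce_toWord] at h2 ⊢
  generalize γ.toWord = L at h1 h2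
  rcases L with _ | ⟨a, L⟩
  · exact absurd rfl h1
  · simp only at h2 ⊢
    split_ifs at h2 ⊢ with h
    · rcases L with _ | ⟨b, L⟩
      · exact absurd rfl h2
      · simp [List.getLast?_cons_cons]
    · simp [List.getLast?_cons_cons]

def M {W : Type} (p : W × Gm ≃ X) : Gm →* MulAut (FreeGroup X) :=
  P.comp (p.permCongrHom.toMonoidHom.comp
    { toFun := fun γ => Equiv.prodCongr (Equiv.refl W) (Equiv.mulLeft γ)
      map_one' := by ext <;> simp
      map_mul' := fun g h => by ext <;> simp [mul_assoc] })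

theorem M_of {W : Type} (p : W × Gm ≃ X) (γ : Gm) (w : W) (δ : Gm) :
    M p γ (of (p (w, δ))) = of (p (w, γ * δ)) := by
  simp [M, P_of, Equiv.permCongrHom]

theorem semi {G : Type} [Group G] (f : G → G) (a b : Gm →* MulAut G)
    (h : ∀ n g, f (a (of n) g) = b (of n) (f g)) (γ : Gm) : ∀ g, f (a γ g) = b γ (f g) := by
  induction γ using FreeGroup.induction_on with
  | C1 => simp
  | of n => exact h n
  | inv_of n _ =>
    intro g
    have := h n ((a (of n))⁻¹ g)
    rw [MulAut.apply_inv_self] at this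
    rw [_root_.map_inv, _root_.map_inv, this, MulAut.inv_apply_self]
  | mul x y hx hy =>
    intro g
    rw [_root_.map_mul, _root_.map_mul, MulAut.mul_apply, MulAut.mul_apply, hx, hy]

def Cond {W : Type} (p : W × Gm ≃ X) (r : W → W → Prop) (u : MulAut (FreeGroup X)) : Prop :=
  (∀ w γ, γ ≠ 1 → u (of (p (w, γ))) = of (p (w, γ))) ∧
    ∀ w, u (of (p (w, 1))) ∈ In {x | (p.symm x).2 = 1 ∨ r (p.symm x).1 w}

theorem lemmaG {W : Type} (p : W × Gm ≃ X) (r : W → W → Prop) (hr : WellFounded r)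
    (u : ℤ → MulAut (FreeGroup X)) (hu : ∀ n, Cond p r (u n)) :
    ∃ θ : MulAut (FreeGroup X), ∀ n, u n * M p (of n) = θ * M p (of n) * θ⁻¹ := by
  classical
  obtain ⟨Ψ, hΨ⟩ : ∃ Ψ : Gm →* MulAut (FreeGroup X), ∀ n, Ψ (of n) = u n * M p (of n) :=
    ⟨FreeGroup.lift _, fun n => lift_apply_of⟩
  have ψof : ∀ n w γ, Ψ (of n) (of (p (w, γ))) = u n (of (p (w, of n * γ))) := fun n w γ => by
    rw [hΨ, MulAut.mul_apply, M_of]
  let F : (w : W) → ((w' : W) → r w' w → ℤ → FreeGroup X) → ℤ → FreeGroup X := fun w c' n =>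
    (M p (of n))⁻¹ (FreeGroup.lift (fun x =>
      if h : ∃ m, lst (p.symm x).2 = some (m, false) then
        (if h' : r (p.symm x).1 w then M p ((p.symm x).2 * of h.choose) (c' _ h' h.choose) else 1)
      else of x) (u n (of (p (w, 1)))))
  obtain ⟨c, hc0⟩ : ∃ c : W → ℤ → FreeGroup X, ∀ w, c w = F w fun w' _ => c w' :=
    ⟨hr.fix F, fun w => hr.fix_eq F w⟩
  obtain ⟨η, hη0⟩ : ∃ η : FreeGroup X →* FreeGroup X, ∀ x, η (of x) =
      if h : ∃ m, lst (p.symm x).2 = some (m, false) then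
        M p ((p.symm x).2 * of h.choose) (c (p.symm x).1 h.choose) else of x :=
    ⟨FreeGroup.lift _, fun n => lift_apply_of⟩
  have η1 : ∀ w γ m, lst γ = some (m, false) → η (of (p (w, γ))) = M p (γ * of m) (c w m) := by
    intro w γ m h
    have h' : ∃ m, lst (p.symm (p (w, γ))).2 = some (m, false) := ⟨m, by simpa using h⟩
    have e : h'.choose = m := by
      have := h'.choose_spec
      simp only [Equiv.symm_apply_apply, h, Option.some.injEq, Prod.mk.injEq, and_true] at this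
      simpa [h] using this.symm
    rw [hη0, dif_pos h', e]
    simp
  have η2 : ∀ w γ, (¬ ∃ m, lst γ = some (m, false)) → η (of (p (w, γ))) = of (p (w, γ)) := by
    intro w γ h
    rw [hη0, dif_neg (by simpa using h)]
  have l1 : ¬ ∃ m, lst 1 = some (m, false) := by simp [lst]
  have hc : ∀ w n, η (u n (of (p (w, 1)))) = M p (of n) (c w n) := by
    intro w n
    rw [hc0 w]
    simp only [F]
    rw [MulAut.apply_inv_self]
    refine eq_on _ _ ?_ ((hu n).2 w)
    intro x hx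
    rw [hη0, lift_apply_of]
    rcases hx with hx | hx
    · rw [dif_neg (by rw [hx]; exact l1), dif_neg (by rw [hx]; exact l1)]
    · simp only [dif_pos hx]
  have hη : ∀ n g, η (Ψ (of n) g) = M p (of n) (η g) := by
    intro n g
    refine DFunLike.congr_fun (F := FreeGroup X →* FreeGroup X)
      (f := η.comp (Ψ (of n)).toMonoidHom) (g := (M p (of n)).toMonoidHom.comp η) ?_ g
    ext x
    obtain ⟨⟨w, γ⟩, rfl⟩ := p.surjective x
    show η (Ψ (of n) (of (p (w, γ)))) = M p (of n) (η (of (p (w, γ))))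
    rw [ψof]
    by_cases h2 : of n * γ = 1
    · rw [h2, hc, eq_inv_of_mul_eq_one_right h2, η1 w _ n rfl]
      simp
    · rw [(hu n).1 _ _ h2]
      by_cases h1 : γ = 1
      · subst h1
        rw [η2 _ _ l1, η2 _ _ (by simp [lst]), M_of]
      · by_cases h3 : ∃ m, lst γ = some (m, false)
        · obtain ⟨m, hm⟩ := h3
          rw [η1 _ _ m hm, η1 _ _ m (by rw [lst_mul n γ h1 h2, hm]), mul_assoc, _root_.map_mul]
          rfl
        · rw [η2 _ _ h3, η2 _ _ (by rwa [lst_mul n γ h1 h2]), M_of]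
  obtain ⟨θ, hθ0⟩ : ∃ θ : FreeGroup X →* FreeGroup X, ∀ x, θ (of x) =
      Ψ (p.symm x).2 (of (p ((p.symm x).1, 1))) := ⟨FreeGroup.lift _, fun n => lift_apply_of⟩
  have θof : ∀ w γ, θ (of (p (w, γ))) = Ψ γ (of (p (w, 1))) := fun w n => by
    simp [hθ0]
  have hθ : ∀ γ g, θ (M p γ g) = Ψ γ (θ g) := by
    intro γ g
    refine DFunLike.congr_fun (F := FreeGroup X →* FreeGroup X)
      (f := θ.comp (M p γ).toMonoidHom) (g := (Ψ γ).toMonoidHom.comp θ) ?_ g
    ext x
    obtain ⟨⟨w, δ⟩, rfl⟩ := p.surjective x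
    show θ (M p γ (of (p (w, δ)))) = Ψ γ (θ (of (p (w, δ))))
    rw [M_of, θof, θof, _root_.map_mul]
    rfl
  have hinj : Function.Injective θ := by
    refine Function.LeftInverse.injective (g := η) fun g => ?_
    refine DFunLike.congr_fun (F := FreeGroup X →* FreeGroup X)
      (f := η.comp θ) (g := MonoidHom.id _) ?_ g
    ext x
    obtain ⟨⟨w, γ⟩, rfl⟩ := p.surjective x
    show η (θ (of (p (w, γ)))) = of _
    rw [θof, semi η Ψ (M p) hη, η2 _ _ l1, M_of, mul_one]
  have hinv : ∀ γ g, g ∈ θ.range → Ψ γ g ∈ θ.range := by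
    rintro n _ ⟨g, rfl⟩
    exact ⟨_, hθ n g⟩
  have hsurj : ∀ w γ, of (p (w, γ)) ∈ θ.range := by
    intro w
    refine hr.induction (C := fun w => ∀ γ, of (p (w, γ)) ∈ θ.range) w fun w ih => ?_
    have z : ∀ w, of (p (w, 1)) ∈ θ.range := fun w => ⟨_, by rw [θof w 1]; simp⟩
    have hu' : ∀ n, u n (of (p (w, 1))) ∈ θ.range := by
      intro n
      refine In_le ?_ ((hu n).2 w)
      intro x hx
      obtain ⟨⟨w', γ⟩, rfl⟩ := p.surjective x
      simp only [Set.mem_ofPred_eq, Equiv.symm_apply_apply] at hx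
      rcases hx with rfl | hx
      · exact z w'
      · exact ih w' hx γ
    intro γ
    have hγ : γ ∈ Subgroup.closure (Set.range (of : ℤ → Gm)) := by
      rw [FreeGroup.closure_range_of]; trivial
    induction hγ using Subgroup.closure_induction_left with
    | one => exact z w
    | mul_left x hx γ _ ihn =>
      obtain ⟨n, rfl⟩ := hx
      by_cases h : of n * γ = 1
      · rw [h]; exact z w
      · have := hinv (of n) _ ihn
        rwa [ψof, (hu n).1 _ _ h] at this
    | inv_mul_cancel x hx γ _ ihn =>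
      obtain ⟨n, rfl⟩ := hx
      have e : of (p (w, (of n)⁻¹ * γ)) = Ψ (of n)⁻¹ (u n (of (p (w, γ)))) := by
        rw [_root_.map_inv, MulAut.inv_def, eq_comm, MulEquiv.symm_apply_eq, ψof]
        simp
      rw [e]
      apply hinv
      by_cases h : γ = 1
      · rw [h]; exact hu' n
      · rwa [(hu n).1 _ _ h]
  refine ⟨MulEquiv.ofBijective θ ⟨hinj, surj_of θ fun x => by
    obtain ⟨⟨w, n⟩, rfl⟩ := p.surjective x
    exact hsurj w n⟩, fun n => ?_⟩
  rw [eq_mul_inv_iff_mul_eq, ← hΨ]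
  ext g
  exact (hθ _ g).symm

section Bd
variable {G : Type} [Group G] (S : Set G)

def Bd (n : ℕ) (g : G) : Prop :=
  ∃ l : List G, l.length ≤ n ∧ (∀ x ∈ l, x ∈ S ∨ x⁻¹ ∈ S) ∧ l.prod = g

variable {S}

theorem Bd.mono {n m : ℕ} {g : G} (h : Bd S n g) (hn : n ≤ m) : Bd S m g := by
  obtain ⟨l, h1, h2⟩ := h
  exact ⟨l, h1.trans hn, h2⟩

theorem Bd.mul {n m : ℕ} {g k : G} (h : Bd S n g) (h' : Bd S m k) : Bd S (n + m) (g * k) := by
  obtain ⟨l, h1, h2, rfl⟩ := h
  obtain ⟨l', h1', h2', rfl⟩ := h'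
  refine ⟨l ++ l', by simp; omega, fun x hx => ?_, by simp⟩
  rcases List.mem_append.1 hx with hx | hx
  exacts [h2 x hx, h2' x hx]

theorem Bd.inv {n : ℕ} {g : G} (h : Bd S n g) : Bd S n g⁻¹ := by
  obtain ⟨l, h1, h2, rfl⟩ := h
  refine ⟨(l.map (·⁻¹)).reverse, by simpa using h1, fun x hx => ?_, (List.prod_inv_reverse l).symm⟩
  simp only [List.mem_reverse, List.mem_map] at hx
  obtain ⟨y, hy, rfl⟩ := hx
  simpa [or_comm] using h2 y hy

theorem bd_one : Bd S 0 1 := ⟨[], le_rfl, by simp, rfl⟩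

theorem exists_bd (hS : Subgroup.closure S = ⊤) (g : G) : ∃ n, Bd S n g := by
  have : g ∈ Subgroup.closure S := by rw [hS]; trivial
  induction this using Subgroup.closure_induction with
  | mem x hx => exact ⟨1, [x], le_rfl, by simp [hx], by simp⟩
  | one => exact ⟨0, bd_one⟩
  | mul x y _ _ hx hy =>
    obtain ⟨n, hn⟩ := hx
    obtain ⟨m, hm⟩ := hy
    exact ⟨_, hn.mul hm⟩
  | inv x _ hx =>
    obtain ⟨n, hn⟩ := hx
    exact ⟨n, hn.inv⟩

theorem bd_of_seq (T : G → Prop)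
    (h : ∀ u : ℕ → G, (∀ n, T (u n)) → ∃ c, ∀ n, Bd S (c * (n + 1)) (u n)) :
    ∃ N, ∀ g, T g → Bd S N g := by
  by_contra hc
  push Not at hc
  choose u hu hu' using fun n => hc (n * (n + 1))
  obtain ⟨c, hc⟩ := h u hu
  exact hu' c (hc c)

end Bd

theorem cond_bd {W : Type} (p : W × Gm ≃ X) (r : W → W → Prop) (hr : WellFounded r)
    {S : Set (MulAut (FreeGroup X))} (hS : Subgroup.closure S = ⊤) :
    ∃ N, ∀ u, Cond p r u → Bd S N u := by
  refine bd_of_seq _ fun u hu => ?_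
  obtain ⟨θ, hθ⟩ := lemmaG p r hr (fun n => u n.toNat) fun n => hu _
  let ρ : MulAut (FreeGroup X) := P (p.permCongr (Equiv.prodCongr (Equiv.refl W)
    (freeGroupCongr (Equiv.addRight (1 : ℤ))).toEquiv))
  have hρ : ∀ n : ℤ, M p (of (n + 1)) = ρ * M p (of n) * ρ⁻¹ := by
    intro n
    rw [eq_mul_inv_iff_mul_eq]
    refine aut_ext fun x => ?_
    obtain ⟨⟨w, γ⟩, rfl⟩ := p.surjective x
    simp [ρ, P_of, M_of]
  obtain ⟨a, ha⟩ := exists_bd hS θ
  obtain ⟨b, hb⟩ := exists_bd hS ρ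
  obtain ⟨d, hd⟩ := exists_bd hS (M p (of 0))
  have hM : ∀ n : ℕ, Bd S (d + 2 * b * n) (M p (of n)) := by
    intro n
    induction n with
    | zero => simpa using hd
    | succ n ih =>
      push_cast
      rw [hρ]
      exact ((hb.mul ih).mul hb.inv).mono (by ring_nf; omega)
  refine ⟨2 * a + 2 * d + 4 * b, fun n => ?_⟩
  have := hθ n
  rw [← eq_mul_inv_iff_mul_eq, Int.toNat_natCast] at this
  rw [this]
  exact (((ha.mul (hM n)).mul ha.inv).mul (hM n).inv).mono (by nlinarith)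

end Pool.Agent.H70.AutF
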