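import Pool.Agent.H70.AutW1

set_option autoImplicit false

namespace Pool.Agent.H70.AutF

open FreeGroup Cardinal

variable {X : Type}

theorem ext_perm (s : Set X) (f : X → X) (hf : Set.InjOn f s) (h1 : #(sᶜ : Set X) = #X)
    (h2 : #((f '' s)ᶜ : Set X) = #X) : ∃ g : Equiv.Perm X, ∀ x ∈ s, g x = f x := by
  obtain ⟨g, hg⟩ := extend_function (s := s) ⟨fun x => f x, fun x y e => Subtype.ext
    (hf x.2 y.2 e)⟩ (by
      rw [← Cardinal.eq, h1, ← h2]
      congr 2
      ext x; simp)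
  exact ⟨g, fun x hx => hg ⟨x, hx⟩⟩

theorem big_of_sub {s t : Set X} (h : #s = #X) (hs : s ⊆ t) : #t = #X :=
  le_antisymm (mk_set_le _) (h ▸ mk_le_mk_of_subset hs)

theorem exists_inj [Infinite X] (Y : Set X) (hY : #Y = #X) :
    ∃ j : X → X, Function.Injective j ∧ (∀ x, j x ∈ Y) ∧ #(Y \ Set.range j : Set X) = #X := by
  obtain ⟨e⟩ : Nonempty (X × Bool ≃ Y) := by
    rw [← Cardinal.eq, hY, mk_prod, lift_id, lift_id]
    exact mul_eq_left (aleph0_le_mk X) ((lt_aleph0_of_finite Bool).le.trans (aleph0_le_mk X))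
      (mk_ne_zero _)
  refine ⟨fun x => e (x, true), fun x y h => (Prod.ext_iff.1 (e.injective (Subtype.ext h))).1,
    fun x => (e _).2, le_antisymm (mk_set_le _) (mk_le_of_injective
      (f := fun x => ⟨e (x, false), (e _).2, ?_⟩) ?_)⟩
  · rintro ⟨y, hy⟩
    have := e.injective (Subtype.ext hy)
    simp at this
  · intro x y h
    have : (e (x, false)).1 = (e (y, false)).1 := congrArg (fun z => z.1) h
    exact (Prod.ext_iff.1 (e.injective (Subtype.ext this))).1

theorem bergman [Infinite X] (A B : Set X) (hAB : Disjoint A B) (hI : #((A ∪ B)ᶜ : Set X) = #X)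
    (π : Equiv.Perm X) (h : #((A ∪ B)ᶜ \ π '' A : Set X) = #X) :
    ∃ a b : Equiv.Perm X, (∀ x ∈ A, a x = x) ∧ (∀ x ∈ B, b x = x) ∧ ∀ x ∈ A, (b * a * π) x = x := by
  classical
  obtain ⟨j, ji, jm, jb⟩ := exists_inj _ h
  obtain ⟨a, ha⟩ := ext_perm (A ∪ π '' A) (fun x => if x ∈ B then j x else x) (by
    intro x hx y hy e
    simp only at e
    split_ifs at e with h1 h2 h2
    · exact ji e
    · exfalso
      rcases hy with hy | hy
      · exact (jm x).1 (Or.inl (e ▸ hy))
      · exact (jm x).2 (e ▸ hy)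
    · exfalso
      rcases hx with hx | hx
      · exact (jm y).1 (Or.inl (e ▸ hx))
      · exact (jm y).2 (e ▸ hx)
    · exact e) (big_of_sub h (by
      rintro x ⟨h1, h2⟩ (h3 | h3)
      · exact h1 (Or.inl h3)
      · exact h2 h3)) (big_of_sub jb (by
      rintro x ⟨⟨h1, h2⟩, h3⟩ ⟨y, hy, rfl⟩
      simp only at h1 h2 h3
      split_ifs at h1 h2 h3
      · exact h3 ⟨y, rfl⟩
      · rcases hy with hy | hy
        · exact h1 (Or.inl hy)
        · exact h2 hy))
  have haA : ∀ x ∈ A, a x = x := fun x hx => by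
    rw [ha x (Or.inl hx), if_neg (Set.disjoint_left.1 hAB hx)]
  have haB : ∀ x ∈ A, a (π x) ∉ B := fun x hx => by
    rw [ha _ (Or.inr ⟨x, hx, rfl⟩)]
    split_ifs with h1
    · exact fun h => (jm _).1 (Or.inr h)
    · exact h1
  obtain ⟨b, hb⟩ := ext_perm (B ∪ (a * π) '' A) (fun x => if x ∈ B then x else (a * π)⁻¹ x) (by
    intro x hx y hy e
    simp only at e
    split_ifs at e with h1 h2 h2
    · exact e
    · exfalso
      obtain ⟨z, hz, rfl⟩ := hy.resolve_left h2
      exact Set.disjoint_left.1 hAB hz (by simpa [e] using h1)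
    · exfalso
      obtain ⟨z, hz, rfl⟩ := hx.resolve_left h1
      exact Set.disjoint_left.1 hAB hz (by simpa [← e] using h2)
    · exact (a * π)⁻¹.injective e) (big_of_sub jb (by
      rintro x ⟨⟨h1, h2⟩, h3⟩ (h4 | ⟨y, hy, rfl⟩)
      · exact h1 (Or.inr h4)
      · rw [Equiv.Perm.mul_apply, ha _ (Or.inr ⟨y, hy, rfl⟩)] at h2 h3
        split_ifs at h2 h3
        · exact h3 ⟨_, rfl⟩
        · exact h2 ⟨y, hy, rfl⟩)) (big_of_sub hI (by
      rintro x h1 ⟨y, hy, rfl⟩
      simp only at h1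
      split_ifs at h1 with h2
      · exact h1 (Or.inr h2)
      · obtain ⟨z, hz, rfl⟩ := hy.resolve_left h2
        exact h1 (Or.inl (by simpa using hz))))
  refine ⟨a, b, haA, fun x hx => by rw [hb x (Or.inl hx), if_pos hx], fun x hx => ?_⟩
  rw [mul_assoc, Equiv.Perm.mul_apply, hb _ (Or.inr ⟨x, hx, rfl⟩), if_neg (show (a * π) x ∉ B from haB x hx)]
  simp

theorem P_In (π : Equiv.Perm X) {S T : Set X} (h : ∀ x ∈ S, π x ∈ T) {w : FreeGroup X}
    (hw : w ∈ In S) : P π w ∈ In T := by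
  refine In_le (K := (In T).comap (P π).toMonoidHom) (fun x hx => ?_) hw
  rw [Subgroup.mem_comap]
  show P π (of x) ∈ _
  rw [P_of]
  exact of_mem (h x hx)

theorem cond_conj {W : Type} (p q : W × Gm ≃ X) (r : W → W → Prop) (u : MulAut (FreeGroup X))
    (h : Cond p r u) : Cond q r (P (p.symm.trans q) * u * (P (p.symm.trans q))⁻¹) := by
  have e : ∀ a, (P (p.symm.trans q))⁻¹ (of (q a)) = of (p a) := fun a => by
    rw [← _root_.map_inv, P_of]; simp [Equiv.Perm.inv_def]
  refine ⟨fun w γ hγ => ?_, fun w => ?_⟩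
  · rw [MulAut.mul_apply, MulAut.mul_apply, e, h.1 w γ hγ, P_of]; simp
  · rw [MulAut.mul_apply, MulAut.mul_apply, e]
    exact P_In _ (fun x hx => by simpa using hx) (h.2 w)

theorem exists_cond [Infinite X] [LinearOrder X] [WellFoundedLT X]
    (hr : ord #X = Ordinal.type (α := X) (· < ·))
    (u : MulAut (FreeGroup X)) (Y0 : Set X) (hY0 : #Y0 = #X) (hu : ∀ y ∈ Y0, u (of y) = of y) :
    ∃ p : (X ⊕ X) × Gm ≃ X, Cond p (Sum.Lex emptyRelation (· < ·)) u := by
  classical
  have hX : ℵ₀ ≤ #X := aleph0_le_mk X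
  have hXZ : #(X × Gm) = #X := by
    rw [mk_prod, lift_id, lift_id, mul_eq_left hX (mk_le_aleph0.trans hX) (mk_ne_zero _)]
  obtain ⟨j, ji, jm, jb⟩ := exists_inj Y0 hY0
  set Y := Set.range j
  have hY : #Y = #X := mk_range_eq j ji
  replace hu : ∀ y ∈ Y, u (of y) = of y := by
    rintro _ ⟨x, rfl⟩; exact hu _ (jm x)
  obtain ⟨e⟩ : Nonempty (X ≃ (Yᶜ : Set X)) := by
    rw [← Cardinal.eq, big_of_sub (t := Yᶜ) jb fun x hx => hx.2]
  obtain ⟨c, ci, hc⟩ := sdr Y hY hXZ (fun a => ⋃ x ∈ Set.Iic a.1, supp (u (of (e x).1)))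
    (fun a => union_lt _ (mk_Iic_lt _ hr hX) _ fun _ => supp_fin _)
  let L : Set X := {y | y ∈ Y ∧ ∀ w n, n ≠ 1 → y ≠ c (w, n)}
  obtain ⟨l⟩ : Nonempty (X × Gm ≃ L) := by
    rw [← Cardinal.eq, hXZ]
    refine le_antisymm (mk_le_of_injective (f := fun x => ⟨c (x, 1), (hc _).1, ?_⟩) ?_)
      (mk_set_le _)
    · intro w n hn e
      exact hn (Prod.ext_iff.1 (ci e)).2.symm
    · intro x y e
      exact (Prod.ext_iff.1 (ci (congrArg Subtype.val e))).1
  let f : (X ⊕ X) × Gm → X := fun a => a.1.elim (fun x => (l (x, a.2)).1)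
    (fun w => if a.2 = 1 then (e w).1 else c (w, a.2))
  have fb : Function.Bijective f := by
    constructor
    · rintro ⟨x | w, n⟩ ⟨y | v, m⟩ h
      · have := l.injective (Subtype.ext h)
        simp only [Prod.mk.injEq] at this
        rw [this.1, this.2]
      · exfalso
        simp only [f, Sum.elim_inl, Sum.elim_inr] at h
        split_ifs at h with h1
        · exact (e v).2 (h ▸ (l (x, n)).2.1)
        · exact (l (x, n)).2.2 _ _ h1 h
      · exfalso
        simp only [f, Sum.elim_inl, Sum.elim_inr] at h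
        split_ifs at h with h1
        · exact (e w).2 (h ▸ (l (y, m)).2.1)
        · exact (l (y, m)).2.2 _ _ h1 h.symm
      · simp only [f, Sum.elim_inr] at h
        split_ifs at h with h1 h2 h2
        · rw [h1, h2, e.injective (Subtype.ext h)]
        · exact absurd (h ▸ (hc _).1) (e w).2
        · exact absurd (h ▸ (hc _).1) (e v).2
        · have := ci h
          simp only [Prod.mk.injEq] at this
          rw [this.2, this.1]
    · intro x
      by_cases h1 : x ∈ Y
      · by_cases h2 : x ∈ L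
        · obtain ⟨⟨y, n⟩, e⟩ := l.surjective ⟨x, h2⟩
          exact ⟨(Sum.inl y, n), congrArg Subtype.val e⟩
        · simp only [L, Set.mem_ofPred_eq, h1, true_and, not_forall, not_not] at h2
          obtain ⟨w, n, hn, e⟩ := h2
          exact ⟨(Sum.inr w, n), by simp [f, hn, e]⟩
      · exact ⟨(Sum.inr (e.symm ⟨x, h1⟩), 1), by simp [f]⟩
  let p := Equiv.ofBijective f fb
  refine ⟨p, ?_, ?_⟩
  · rintro (x | w) n hn
    · exact hu _ (l (x, n)).2.1
    · apply hu
      simp only [p, Equiv.ofBijective_apply, f, Sum.elim_inr, if_neg hn]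
      exact (hc _).1
  · rintro (x | w)
    · rw [hu (p (Sum.inl x, 1)) (l (x, 1)).2.1]
      exact of_mem (Or.inl (by simp))
    · have e1 : p (Sum.inr w, 1) = (e w).1 := by simp [p, f]
      rw [e1]
      refine In_mono ?_ (mem_supp _)
      intro y hy
      obtain ⟨⟨x | v, n⟩, rfl⟩ := p.surjective y
      · right; simp
      · simp only [Set.mem_ofPred_eq, Equiv.symm_apply_apply, Sum.lex_inr_inr]
        by_contra h
        push Not at h
        have e2 : p (Sum.inr v, n) = c (v, n) := by simp [p, f, h.1]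
        rw [e2] at hy
        exact (hc (v, n)).2 (Set.mem_biUnion h.2 hy)

theorem width [Infinite X] (S : Set (MulAut (FreeGroup X))) (hS : Subgroup.closure S = ⊤) :
    ∃ N, ∀ g, Bd S N g := by
  have hX : ℵ₀ ≤ #X := aleph0_le_mk X
  obtain ⟨_, _, hr⟩ := exists_ord_eq_type_lt X
  obtain ⟨q, -⟩ := exists_cond hr 1 Set.univ mk_univ fun _ _ => rfl
  obtain ⟨N, hN⟩ := cond_bd q (Sum.Lex emptyRelation (· < ·))
    (Sum.lex_wf emptyWf.wf wellFounded_lt) hS
  let A0 : Set X := {x | (q.symm x).2 ≠ 1}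
  have a1 : #A0 = #X := le_antisymm (mk_set_le _) (mk_le_of_injective
    (f := fun x => ⟨q (Sum.inl x, of 0), by simp [A0]⟩) fun x y h => by simpa using h)
  have a2 : #(A0ᶜ : Set X) = #X := le_antisymm (mk_set_le _) (mk_le_of_injective
    (f := fun x => ⟨q (Sum.inl x, 1), by simp [A0]⟩) fun x y h => by simpa using h)
  have fix0 : ∀ π : Equiv.Perm X, (∀ x ∈ A0, π x = x) → Bd S N (P π) := by
    intro π hπ
    refine hN _ ⟨fun w γ h => by rw [P_of, hπ _ (by simpa [A0] using h)], fun w => ?_⟩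
    rw [P_of]
    refine of_mem (Or.inl ?_)
    by_contra h
    have := π.injective (hπ _ h)
    rw [this] at h
    simp at h
  have fix : ∀ A : Set X, #A = #X → #(Aᶜ : Set X) = #X →
      ∃ N, ∀ π : Equiv.Perm X, (∀ x ∈ A, π x = x) → Bd S N (P π) := by
    intro A h1 h2
    obtain ⟨e⟩ : Nonempty (A0 ≃ A) := by rw [← Cardinal.eq, a1, h1]
    obtain ⟨g, hg⟩ := extend_function (s := A0) (e.toEmbedding.trans (Function.Embedding.subtype _))
      (by
        rw [← Cardinal.eq, a2, ← h2]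
        congr 3
        ext x
        constructor
        · intro hx; exact ⟨e.symm ⟨x, hx⟩, by simp⟩
        · rintro ⟨y, rfl⟩; exact (e y).2)
    obtain ⟨b, hb⟩ := exists_bd hS (P g)
    refine ⟨b + N + b, fun π hπ => ?_⟩
    have := (hb.mul (fix0 (g⁻¹ * π * g) fun x hx => by
      have h3 : g x ∈ A := by rw [hg ⟨x, hx⟩]; exact (e _).2
      simp [hπ _ h3])).mul hb.inv
    simpa [mul_assoc] using this
  obtain ⟨j, ji, jm, jb⟩ := exists_inj A0 a1
  have hI : #((A0ᶜ ∪ Set.range j)ᶜ : Set X) = #X := big_of_sub jb (by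
    rintro x ⟨h1, h2⟩ (h | h)
    exacts [h h1, h2 h])
  have hd : Disjoint A0ᶜ (Set.range j) := by
    rw [Set.disjoint_right]
    rintro _ ⟨x, rfl⟩ h
    exact h (jm x)
  obtain ⟨N1, h1⟩ := fix A0ᶜ a2 (by rw [compl_compl, a1])
  obtain ⟨N2, h2⟩ := fix (Set.range j) (mk_range_eq j ji) (big_of_sub jb fun x hx => hx.2)
  have perm : ∀ π : Equiv.Perm X, Bd S (2 * N1 + 2 * N2) (P π) := by
    intro π
    by_cases h : #((A0ᶜ ∪ Set.range j)ᶜ \ π '' A0ᶜ : Set X) = #X
    · obtain ⟨a, b, ha, hb, hc⟩ := bergman _ _ hd hI π h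
      have := ((h1 a ha).inv.mul (h2 b hb).inv).mul (h1 _ hc)
      refine Bd.mono (by simpa [mul_assoc] using this) (by omega)
    · have h' : #((Set.range j ∪ A0ᶜ)ᶜ \ π '' Set.range j : Set X) = #X := by
        by_contra h'
        have := add_lt_of_lt hX (lt_of_le_of_ne (mk_set_le _) h) (lt_of_le_of_ne (mk_set_le _) h')
        refine absurd ((mk_union_le _ _).trans_lt this) (not_lt.2 (big_of_sub hI ?_).ge)
        intro x hx
        by_cases h3 : x ∈ π '' A0ᶜ
        · refine Or.inr ⟨by rwa [Set.union_comm], ?_⟩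
          obtain ⟨y, hy, rfl⟩ := h3
          rintro ⟨z, hz, e⟩
          exact Set.disjoint_left.1 hd hy (π.injective e ▸ hz)
        · exact Or.inl ⟨hx, h3⟩
      obtain ⟨a, b, ha, hb, hc⟩ := bergman _ _ hd.symm (by rwa [Set.union_comm]) π h'
      have := ((h2 a ha).inv.mul (h1 b hb).inv).mul (h2 _ hc)
      refine Bd.mono (by simpa [mul_assoc] using this) (by omega)
  have fx : ∀ (u : MulAut (FreeGroup X)) (Y : Set X), #Y = #X → (∀ y ∈ Y, u (of y) = of y) →
      Bd S (2 * N1 + 2 * N2 + N + (2 * N1 + 2 * N2)) u := by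
    intro u Y hY hu
    obtain ⟨p, hp⟩ := exists_cond hr u Y hY hu
    have := ((perm (p.symm.trans q)).inv.mul (hN _ (cond_conj p q _ u hp))).mul
      (perm (p.symm.trans q))
    simpa [mul_assoc] using this
  refine ⟨2 * N1 + 2 * N2 + N + (2 * N1 + 2 * N2) + (2 * N1 + 2 * N2 + N + (2 * N1 + 2 * N2)),
    fun φ => ?_⟩
  obtain ⟨b, Y, Z, hY, hZ, hb, hb'⟩ : ∃ (b : MulAut (FreeGroup X)) (Y Z : Set X), #Y = #X ∧
      #Z = #X ∧ (∀ y ∈ Y, b (of y) = of y) ∧ ∀ z ∈ Z, b (of z) = φ (of z) := by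
    rcases (aleph0_le_mk X).eq_or_lt with h | h
    · have : Countable X := mk_le_aleph0_iff.1 h.ge
      exact split_countable φ
    · exact split_unc h φ
  have := (fx b Y hY hb).mul (fx (b⁻¹ * φ) Z hZ (fun z hz => by
    rw [MulAut.mul_apply, ← hb' z hz, MulAut.inv_apply_self]))
  rw [mul_inv_cancel_left] at this
  exact this

end Pool.Agent.H70.AutF
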