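import Mathlib

namespace Pool.Agent.H70.Bid

open Set Cardinal

universe u

theorem dbl {t : UnitAddCircle} (h : ‖t‖ ≤ 1 / 4) : ‖t + t‖ = 2 * ‖t‖ := by
  obtain ⟨s, rfl⟩ := QuotientAddGroup.mk_surjective t
  have e : ((s - round s : ℝ) : UnitAddCircle) = s := by
    rw [AddCircle.coe_sub, sub_eq_self]
    exact (AddCircle.coe_eq_zero_iff _).2 ⟨round s, by simp⟩
  have h2 := UnitAddCircle.norm_eq (x := s)
  generalize s - round s = r at e h2
  rw [h2] at h ⊢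
  rw [← e, ← AddCircle.coe_add, (AddCircle.norm_coe_eq_abs_iff _ one_ne_zero).2, ← two_mul, abs_mul] <;>
    simp [← two_mul, abs_mul]
  linarith

variable {G : Type u} [NormedAddCommGroup G]

theorem scale (θ : G →+ UnitAddCircle) {δ : ℝ} (hδ : 0 < δ) (h : ∀ x, ‖x‖ ≤ δ → ‖θ x‖ ≤ 1 / 4) (x : G) :
    ‖θ x‖ ≤ 1 / (2 * δ) * ‖x‖ := by
  have h1 : ∀ (j : ℕ) x, ‖x‖ ≤ δ * (1 / 2) ^ j → ‖θ x‖ ≤ 1 / 4 * (1 / 2) ^ j := fun j => by
    induction j with
    | zero => simpa using h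
    | succ j ih =>
      intro x hx
      have h0 : (1 / 2 : ℝ) ^ (j + 1) ≤ 1 := pow_le_one₀ (by norm_num) (by norm_num)
      have h2 := ih (x + x) (by rw [pow_succ] at hx; linarith [norm_add_le x x])
      rw [map_add, dbl (h x (by nlinarith))] at h2
      rw [pow_succ]; linarith
  rw [div_mul_eq_mul_div, le_div_iff₀ (by positivity), one_mul]
  rcases eq_or_ne x 0 with rfl | h0
  · simp
  rcases le_total δ ‖x‖ with h2 | h2
  · have := AddCircle.norm_le_half_period (1 : ℝ) (x := θ x) one_ne_zero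
    simp at this
    nlinarith
  · obtain ⟨j, h3, h4⟩ := exists_nat_pow_near_of_lt_one (div_pos (norm_pos_iff.2 h0) hδ)
      ((div_le_one hδ).2 h2) (by norm_num : (0 : ℝ) < 1 / 2) (by norm_num)
    have h5 := h1 j x (by rwa [div_le_iff₀' hδ] at h4)
    rw [lt_div_iff₀ hδ, pow_succ] at h3
    nlinarith

theorem bdd (θ : G →+ UnitAddCircle) (h : Continuous θ) : ∃ C, ∀ x, ‖θ x‖ ≤ C * ‖x‖ := by
  obtain ⟨δ, h1, h2⟩ := Metric.continuous_iff.1 h 0 (1 / 4) (by norm_num)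
  exact ⟨_, scale θ (half_pos h1) fun x hx => by
    simpa using (h2 x (by rw [dist_zero_right]; linarith)).le⟩

abbrev Du (G : Type u) [NormedAddCommGroup G] := NormedAddGroupHom G UnitAddCircle

noncomputable def ev (x : G) : Du (Du G) := ⟨fun χ => χ x, fun _ _ => rfl, ‖x‖, fun χ => by
  rw [mul_comm]; exact χ.le_opNorm x⟩

theorem step1 {H : Type u} [NormedAddCommGroup H] {D : Set (Du H)} (hD : Dense D) {n : ℝ} (hn : 0 < n) :
    ∃ c : D → H, ∀ χ : H, ‖χ‖ ≤ n → ∀ r : ℝ, ∃ F : Finset D, ∀ θ : H → UnitAddCircle,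
      (∀ a b, θ (a + b) = θ a + θ b) → (∀ a, ‖θ a‖ ≤ r * ‖a‖) → (∀ d ∈ F, ‖θ (c d)‖ ≤ 1 / 24) →
        ‖θ χ‖ < 1 / 12 := by
  have : ∀ d : D, ∃ c : H, ‖c‖ ≤ n ∧ ∀ χ : H, ‖χ‖ ≤ n → 1 / 16 < ‖d.1 χ‖ → 1 / 16 < ‖d.1 c‖ := fun d => by
    by_cases h : ∃ χ : H, ‖χ‖ ≤ n ∧ 1 / 16 < ‖d.1 χ‖
    · obtain ⟨χ, a, b⟩ := h
      exact ⟨χ, a, fun _ _ _ => b⟩
    · exact ⟨0, by simpa using hn.le, fun χ a b => absurd ⟨χ, a, b⟩ h⟩
  choose c hc hc' using this
  refine ⟨c, fun χ hχ r => ?_⟩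
  have hZ : IsClosed {θ : H → UnitAddCircle | (∀ a b, θ (a + b) = θ a + θ b) ∧ (∀ a, ‖θ a‖ ≤ r * ‖a‖) ∧
      1 / 12 ≤ ‖θ χ‖} := by
    simp only [setOf_and, setOf_forall]
    exact (isClosed_iInter fun a => isClosed_iInter fun b => isClosed_eq (by fun_prop) (by fun_prop)).inter
      ((isClosed_iInter fun a => isClosed_le (by fun_prop) (by fun_prop)).inter
        (isClosed_le (by fun_prop) (by fun_prop)))
  obtain ⟨F, hF⟩ := hZ.isCompact.elim_finite_subcover (fun d : D => {θ | 1 / 24 < ‖θ (c d)‖})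
    (fun d => isOpen_lt (by fun_prop) (by fun_prop)) fun θ ⟨h1, h2, h3⟩ => by
      let φ : Du H := ⟨θ, h1, r, h2⟩
      obtain ⟨d, hd, h4⟩ := hD.exists_dist_lt φ (by positivity : 0 < 1 / 48 / n)
      have h5 : ∀ a, ‖a‖ ≤ n → ‖θ a - d a‖ < 1 / 48 := fun a ha => by
        rw [dist_eq_norm, lt_div_iff₀ hn] at h4
        exact ((φ - d).le_opNorm_of_le ha).trans_lt h4
      have h6 := hc' ⟨d, hd⟩ χ hχ (by linarith [norm_sub_norm_le (θ χ) (d χ), h5 χ hχ])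
      refine mem_iUnion.2 ⟨⟨d, hd⟩, ?_⟩
      have h7 := h5 _ (hc ⟨d, hd⟩)
      rw [norm_sub_rev] at h7
      rw [mem_setOf_eq]
      linarith [norm_sub_norm_le (d (c ⟨d, hd⟩)) (θ (c ⟨d, hd⟩))]
  refine ⟨F, fun θ h1 h2 h3 => not_le.1 fun h4 => ?_⟩
  obtain ⟨d, hd, h5⟩ := mem_iUnion₂.1 (hF ⟨h1, h2, h4⟩)
  exact absurd (h3 d hd) (not_le.2 h5)

theorem exq : ∃ (Q : Type) (_ : Finite Q) (q : UnitAddCircle → Q), ∀ a b, q a = q b → ‖a - b‖ ≤ 1 / 24 := by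
  obtain ⟨t, -, h1, h2⟩ := finite_cover_balls_of_compact (isCompact_univ (X := UnitAddCircle))
    (by norm_num : (0 : ℝ) < 1 / 48)
  choose q h3 h4 using fun a => mem_iUnion₂.1 (h2 (mem_univ a))
  refine ⟨t, h1, fun a => ⟨q a, h3 a⟩, fun a b h => ?_⟩
  have h5 := h4 a
  have h6 := h4 b
  rw [Subtype.mk.inj h, Metric.mem_ball] at h5
  rw [← dist_eq_norm]
  linarith [dist_triangle_right a b (q b), Metric.mem_ball.1 h6]

theorem rep {X C : Type*} [Nonempty X] (P : X → Prop) (f : X → C) :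
    ∃ g : C → X, ∀ x, P x → P (g (f x)) ∧ f (g (f x)) = f x := by
  have : ∀ c, ∃ y, ∀ x, P x → f x = c → P y ∧ f y = c := fun c => by
    by_cases h : ∃ x, P x ∧ f x = c
    · exact ⟨h.choose, fun _ _ _ => h.choose_spec⟩
    · exact ⟨Classical.arbitrary X, fun x a b => absurd ⟨x, a, b⟩ h⟩
  choose g hg using this
  exact ⟨g, fun x hx => hg _ x hx rfl⟩

theorem step2 {D : Set (Du (Du G))} (hD : Dense D) {n : ℝ} (hn : 0 < n) :
    ∃ g : Finset D × ℕ → Du G, ∀ χ : Du G, ‖χ‖ ≤ n → ∃ i, ‖χ - g i‖ ≤ 1 / (2 * n) := by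
  obtain ⟨c, hc⟩ := step1 hD hn
  obtain ⟨Q, _, q, hq⟩ := exq
  have : ∀ F : Finset D, ∃ g : ℕ → Du G, ∀ χ : Du G,
      (∀ x : G, ‖x‖ ≤ 2 * n → (∀ d ∈ F, ‖c d x‖ ≤ 1 / 24) → ‖χ x‖ < 1 / 12) →
      ∃ i, ‖χ - g i‖ ≤ 1 / (2 * n) := fun F => by
    obtain ⟨r, hr⟩ := rep (fun x : G => ‖x‖ ≤ n) fun x (d : F) => q (c d x)
    obtain ⟨e, he⟩ := Countable.exists_injective_nat ((F → Q) → Q)
    obtain ⟨g, hg⟩ := rep (fun χ : Du G => ∀ x : G, ‖x‖ ≤ 2 * n → (∀ d ∈ F, ‖c d x‖ ≤ 1 / 24) →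
      ‖χ x‖ < 1 / 12) fun χ => e fun τ => q (χ (r τ))
    refine ⟨g, fun χ hχ => ?_⟩
    obtain ⟨h1, h2⟩ := hg χ hχ
    refine ⟨_, NormedAddGroupHom.opNorm_le_bound _ (by positivity)
      (scale (χ - g (e fun τ => q (χ (r τ)))).toAddMonoidHom hn fun x hx => ?_)⟩
    generalize g _ = ψ at h1 h2
    obtain ⟨h3, h4⟩ := hr x hx
    have h5 := hq _ _ (congrFun (he h2) fun d => q (c d x))
    generalize r _ = y at h3 h4 h5
    have h6 : ‖x - y‖ ≤ 2 * n := by linarith [norm_sub_le x y]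
    have h7 : ∀ d ∈ F, ‖c d (x - y)‖ ≤ 1 / 24 := fun d hd => by
      rw [map_sub]; exact hq _ _ (congrFun h4 ⟨d, hd⟩).symm
    have h8 := hχ _ h6 h7
    have h9 := h1 _ h6 h7
    rw [map_sub] at h8 h9
    show ‖χ x - ψ x‖ ≤ _
    rw [show χ x - ψ x = χ x - χ y - (ψ y - χ y) - (ψ x - ψ y) by abel]
    linarith [norm_sub_le (χ x - χ y - (ψ y - χ y)) (ψ x - ψ y), norm_sub_le (χ x - χ y) (ψ y - χ y)]
  choose g hg using this
  refine ⟨fun i => g i.1 i.2, fun χ hχ => ?_⟩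
  obtain ⟨F, hF⟩ := hc χ hχ (2 * n)
  obtain ⟨i, hi⟩ := hg F χ fun x hx h => hF (fun a => a x) (fun _ _ => rfl) (fun a => by
    rw [mul_comm]; exact a.le_opNorm_of_le hx) h
  exact ⟨(F, i), hi⟩

theorem step3 {D : Set (Du (Du G))} (hD : Dense D) :
    ∃ g : Finset D × ℕ × ℕ → Du G, DenseRange g := by
  choose g hg using fun n : ℕ => step2 hD (n := n + 1) (by positivity)
  refine ⟨fun i => g i.2.2 (i.1, i.2.1), Metric.denseRange_iff.2 fun χ ε hε => ?_⟩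
  obtain ⟨n, hn⟩ := exists_nat_gt (max ‖χ‖ (1 / ε))
  rw [max_lt_iff, div_lt_iff₀ hε] at hn
  obtain ⟨i, hi⟩ := hg n χ (by linarith)
  refine ⟨(i.1, i.2, n), ?_⟩
  rw [dist_eq_norm]
  refine hi.trans_lt ?_
  rw [div_lt_iff₀ (by positivity)]
  nlinarith

theorem fin_case {D : Set (Du (Du G))} (hD : Dense D) (hf : D.Finite) : #(Du G) ≤ #D := by
  obtain rfl : D = Set.univ := by rw [← hf.isClosed.closure_eq, hD.closure_eq]
  have := Set.finite_univ_iff.1 hf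
  have := Fintype.ofFinite (Du (Du G))
  let f : Du G → AddChar (Du (Du G)) ℂ := fun χ =>
    ⟨fun φ => (φ χ).toCircle, by simp, fun a b => by simp [AddCircle.toCircle_add]⟩
  have hf : Function.Injective f := fun a b h => by
    ext x
    exact AddCircle.injective_toCircle one_ne_zero (Circle.ext (DFunLike.congr_fun h (ev x)))
  refine (mk_le_of_injective hf).trans_eq ?_
  simp

theorem dens {D : Set (Du (Du G))} (hD : Dense D) : ∃ E : Set (Du G), Dense E ∧ #E ≤ #D := by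
  rcases D.finite_or_infinite with h | h
  · exact ⟨Set.univ, dense_univ, by simpa using fin_case hD h⟩
  · obtain ⟨g, hg⟩ := step3 hD
    have := h.to_subtype
    exact ⟨_, hg, mk_range_le.trans (by simp)⟩

open TopologicalSpace in
theorem base {B : Set (Set (Du (Du G)))} (hB : IsTopologicalBasis B) :
    ∃ B' : Set (Set (Du G)), IsTopologicalBasis B' ∧ #B' ≤ #B := by
  have : ∀ s : B, ∃ x, s.1.Nonempty → x ∈ s.1 := fun s => by
    by_cases h : s.1.Nonempty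
    exacts [⟨h.some, fun _ => h.some_mem⟩, ⟨0, fun a => absurd a h⟩]
  choose p hp using this
  have hD : Dense (range p) := hB.dense_iff.2 fun s hs h => ⟨_, hp ⟨s, hs⟩ h, mem_range_self _⟩
  rcases B.finite_or_infinite with h | h
  · have := h.to_subtype
    have h1 := (fin_case hD (finite_range p)).trans mk_range_le
    have := lt_aleph0_iff_finite.1 (h1.trans_lt (lt_aleph0_of_finite _))
    exact ⟨_, isTopologicalBasis_singletons _, (mk_le_mk_of_subset (t := range fun x : Du G => {x})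
      (by rintro s ⟨x, hx⟩; exact ⟨x, hx.symm⟩)).trans (mk_range_le.trans h1)⟩
  · obtain ⟨E, h1, h2⟩ := dens hD
    have := h.to_subtype
    refine ⟨range fun i : E × ℕ => Metric.ball i.1.1 (1 / (i.2 + 1)),
      isTopologicalBasis_of_isOpen_of_nhds ?_ fun a u ha hu => ?_, mk_range_le.trans ?_⟩
    · rintro _ ⟨i, rfl⟩
      exact Metric.isOpen_ball
    · obtain ⟨ε, h3, h4⟩ := Metric.isOpen_iff.1 hu a ha
      obtain ⟨n, hn⟩ := exists_nat_one_div_lt (half_pos h3)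
      obtain ⟨e, he, h5⟩ := h1.exists_dist_lt a (by positivity : (0 : ℝ) < 1 / (n + 1))
      exact ⟨_, ⟨(⟨e, he⟩, n), rfl⟩, h5, fun b hb => h4 (by
        have := dist_triangle_right b a e
        simp only [Metric.mem_ball] at hb ⊢
        linarith)⟩
    · simp only [mk_prod, lift_uzero, mk_nat, lift_aleph0]
      exact (mul_le_mul' (h2.trans mk_range_le) (aleph0_le_mk B)).trans_eq (mul_mk_eq_max.trans (max_self _))

end Pool.Agent.H70.Bid
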