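import Mathlib

set_option autoImplicit false

namespace Pool.Agent.H70.Branch

abbrev W := List (ZMod 2)

def act (p : W → ZMod 2) : W → W
  | [] => []
  | x :: l => (x + p l) :: act p l

theorem act_bij (p : W → ZMod 2) : Function.Bijective (act p) := by
  constructor
  · intro a
    induction a with
    | nil => intro b h; cases b with
      | nil => rfl
      | cons y b => simp [act] at h
    | cons x a ih => intro b h; cases b with
      | nil => simp [act] at h
      | cons y b =>
        simp only [act, List.cons.injEq] at h
        have hab := ih h.2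
        subst hab
        have := add_right_cancel h.1
        rw [this]
  · intro b
    induction b with
    | nil => exact ⟨[], rfl⟩
    | cons y b ih =>
      obtain ⟨a, rfl⟩ := ih
      exact ⟨(y - p a) :: a, by simp [act]⟩

noncomputable def ofP (p : W → ZMod 2) : Equiv.Perm W := Equiv.ofBijective (act p) (act_bij p)

theorem ofP_apply (p : W → ZMod 2) (w : W) : ofP p w = act p w := rfl

def G : Subgroup (Equiv.Perm W) where
  carrier := {g | g [] = [] ∧ ∃ p : W → ZMod 2, (Function.support p).Finite ∧
    ∀ l x, g (x :: l) = (x + p l) :: g l}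
  one_mem' := ⟨rfl, 0, by simp, by simp⟩
  mul_mem' := by
    rintro g h ⟨g0, p, hp, hg⟩ ⟨h0, q, hq, hh⟩
    refine ⟨by simp [g0, h0], fun l => q l + p (h l), ?_, ?_⟩
    · refine (hq.union (hp.preimage h.injective.injOn)).subset ?_
      intro l hl
      by_contra hc
      simp only [Set.mem_union, Function.mem_support, Set.mem_preimage, not_or, not_not] at hc
      simp [hc.1, hc.2] at hl
    · intro l x
      simp [hh, hg, add_assoc]
  inv_mem' := by
    rintro g ⟨g0, p, hp, hg⟩
    refine ⟨by rw [Equiv.Perm.inv_eq_iff_eq]; exact g0.symm, fun l => - p (g⁻¹ l), ?_, ?_⟩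
    · refine (hp.preimage (g⁻¹).injective.injOn).subset ?_
      intro l hl
      simpa using hl
    · intro l x
      rw [Equiv.Perm.inv_eq_iff_eq, hg, neg_add_cancel_right]
      simp

def P (g : Equiv.Perm W) (l : W) : ZMod 2 := (g (0 :: l)).headI

theorem P_spec (g : G) (l : W) (x : ZMod 2) : g.1 (x :: l) = (x + P g.1 l) :: g.1 l := by
  obtain ⟨_, p, _, hg⟩ := g.2
  simp [P, hg]

theorem P_fin (g : G) : (Function.support (P g.1)).Finite := by
  obtain ⟨_, p, hp, hg⟩ := g.2
  have : P g.1 = p := by funext l; simp [P, hg]
  rwa [this]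

theorem nil_fix (g : G) : g.1 [] = [] := g.2.1

theorem len (g : G) (l : W) : (g.1 l).length = l.length := by
  induction l with
  | nil => rw [nil_fix]
  | cons x l ih => rw [P_spec]; simp [ih]

theorem P_mul (g h : G) (l : W) : P (g * h).1 l = P h.1 l + P g.1 (h.1 l) := by
  have h1 := P_spec (g * h) l 0
  have h2 : (g * h).1 (0 :: l) = g.1 (h.1 (0 :: l)) := rfl
  rw [h2, P_spec h, P_spec g] at h1
  simp only [zero_add, List.cons.injEq] at h1
  exact h1.1.symm

noncomputable def mk (p : W → ZMod 2) (hp : (Function.support p).Finite) : G :=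
  ⟨ofP p, rfl, p, hp, fun _ _ => rfl⟩

theorem mk_apply (p : W → ZMod 2) (hp : (Function.support p).Finite) (w : W) :
    (mk p hp).1 w = act p w := rfl

theorem P_mk (p : W → ZMod 2) (hp : (Function.support p).Finite) (w : W) :
    P (mk p hp).1 w = p w := by simp [P, mk_apply, act]

noncomputable def sw (v : W) (c : ZMod 2) : G :=
  mk (Pi.single v c) ((Set.finite_singleton v).subset (Pi.support_single_subset))

theorem sw_fix (v : W) (c : ZMod 2) (w : W) (h : w.length ≤ v.length) : (sw v c).1 w = w := by
  induction w with
  | nil => rfl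
  | cons x w ih =>
    have hw : w ≠ v := by rintro rfl; simp at h
    have := ih (by simp at h; omega)
    rw [P_spec, this, sw, P_mk]
    simp [hw]

theorem trans (v w : W) (h : v.length = w.length) : ∃ g : G, g.1 v = w := by
  induction v generalizing w with
  | nil => cases w with
    | nil => exact ⟨1, rfl⟩
    | cons y w => simp at h
  | cons x v ih => cases w with
    | nil => simp at h
    | cons y w =>
      obtain ⟨g, hg⟩ := ih w (by simpa using h)
      refine ⟨sw w (y - x - P g.1 v) * g, ?_⟩
      show (sw w (y - x - P g.1 v)).1 (g.1 (x :: v)) = _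
      rw [P_spec g, hg, P_spec, sw_fix _ _ _ le_rfl, sw, P_mk]
      simp

/-- level stabiliser -/
def St (n : ℕ) : Subgroup G where
  carrier := {g | ∀ l : W, l.length ≤ n → g.1 l = l}
  one_mem' := fun _ _ => rfl
  mul_mem' := by
    intro g h hg hh l hl
    show g.1 (h.1 l) = l
    rw [hh l hl, hg l hl]
  inv_mem' := by
    intro g hg l hl
    show g.1⁻¹ l = l
    rw [Equiv.Perm.inv_eq_iff_eq]
    exact (hg l hl).symm

theorem St_normal (n : ℕ) : (St n).Normal := by
  refine ⟨fun g hg h l hl => ?_⟩
  show h.1 (g.1 (h⁻¹.1 l)) = l
  rw [hg _ (by rw [len]; exact hl)]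
  simp

theorem St_fi (n : ℕ) : (St n).FiniteIndex := by
  have hfin : Finite {l : W // l.length ≤ n} := (List.finite_length_le (ZMod 2) n).to_subtype
  let f : G →* Equiv.Perm {l : W // l.length ≤ n} :=
    { toFun := fun g => g.1.subtypePerm (fun l => by rw [len])
      map_one' := by ext; rfl
      map_mul' := by intro a b; ext; rfl }
  have : f.ker ≤ St n := by
    intro g hg l hl
    have := congrArg (fun e : Equiv.Perm {l : W // l.length ≤ n} => (e ⟨l, hl⟩).1)
      (MonoidHom.mem_ker.1 hg)
    exact this
  exact Subgroup.finiteIndex_of_le this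

theorem iter_tail (k : ℕ) (w : W) : List.tail^[k] w = w.drop k := by
  induction k generalizing w with
  | zero => rfl
  | succ k ih => rw [Function.iterate_succ_apply, ih]; simp

theorem suffix_of (v w : W) (h : v <:+ w) : ∃ k, List.tail^[k] w = v := by
  obtain ⟨t, rfl⟩ := h
  exact ⟨t.length, by rw [iter_tail]; simp⟩

noncomputable def piece (g : G) (v : W) : G :=
  mk (fun l => if v <:+ l then P g.1 l else 0) ((P_fin g).subset (by
    intro l hl
    by_contra hc
    simp only [Function.mem_support, not_not] at hc
    simp [hc] at hl))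

theorem piece_apply (g : G) (v : W) (hv : g.1 v = v) (w : W) :
    (piece g v).1 w = if v <:+ w then g.1 w else w := by
  induction w with
  | nil => rw [nil_fix, nil_fix]; simp
  | cons x w ih =>
    rw [P_spec, ih, piece, P_mk]
    by_cases h : v <:+ w
    · have : v <:+ x :: w := h.trans (List.suffix_cons x w)
      simp [h, this, P_spec]
    · by_cases h2 : v <:+ x :: w
      · rcases List.suffix_cons_iff.1 h2 with h3 | h3
        · subst h3
          simp [h, hv]
        · exact absurd h3 h
      · simp [h, h2]

theorem suffix_map (g : G) (v w : W) (hv : g.1 v = v) (h : v <:+ w) : v <:+ g.1 w := by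
  obtain ⟨t, rfl⟩ := h
  induction t with
  | nil => simp [hv]
  | cons x t ih =>
    rw [List.cons_append, P_spec]
    exact ih.trans (List.suffix_cons _ _)

theorem St_le (n : ℕ) (K : Subgroup G)
    (hK : ∀ g : G, (∃ v : W, v.length = n ∧ ∀ w : W, ¬ v <:+ w → g.1 w = w) → g ∈ K) :
    St n ≤ K := by
  have key : ∀ s : Finset W, (∀ v ∈ s, v.length = n) → ∀ g ∈ St n,
      (∀ w : W, (∀ v ∈ s, ¬ v <:+ w) → g.1 w = w) → g ∈ K := by
    intro s
    induction s using Finset.induction_on with
    | empty =>
      intro _ g _ hg
      have : g = 1 := by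
        apply Subtype.ext
        ext1 w
        exact hg w (by simp)
      rw [this]; exact K.one_mem
    | insert v s hvs ih =>
      intro hs g hg hfix
      have hvn : v.length = n := hs v (by simp)
      have hv : g.1 v = v := hg v hvn.le
      have hpK : piece g v ∈ K := hK _ ⟨v, hvn, fun w hw => by rw [piece_apply g v hv]; simp [hw]⟩
      have hpS : piece g v ∈ St n := by
        intro l hl
        rw [piece_apply g v hv]
        split_ifs
        · exact hg l hl
        · rfl
      have := ih (fun u hu => hs u (by simp [hu])) ((piece g v)⁻¹ * g)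
        ((St n).mul_mem ((St n).inv_mem hpS) hg) (by
          intro w hw
          show (piece g v).1⁻¹ (g.1 w) = w
          rw [Equiv.Perm.inv_eq_iff_eq, piece_apply g v hv]
          split_ifs with h
          · rfl
          · exact hfix w (by
              intro u hu
              rcases Finset.mem_insert.1 hu with rfl | hu
              · exact h
              · exact hw u hu))
      have h2 := K.mul_mem hpK this
      simpa using h2
  intro g hg
  refine key (List.finite_length_eq (ZMod 2) n).toFinset (by simp) g hg ?_
  intro w hw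
  by_cases h : w.length ≤ n
  · exact hg w h
  · exfalso
    refine hw (w.drop (w.length - n)) ?_ (List.drop_suffix _ _)
    simp; omega

noncomputable def chi (a : ℕ) : G →* Multiplicative (ZMod 2) :=
  MonoidHom.mk' (fun g => Multiplicative.ofAdd
    (∑ᶠ l : W, if (Nat.unpair l.length).1 = a then P g.1 l else 0)) (by
    intro g h
    rw [← ofAdd_add]
    congr 1
    have hs : ∀ g : G, (Function.support
        (fun l : W => if (Nat.unpair l.length).1 = a then P g.1 l else 0)).Finite := by
      intro g
      refine (P_fin g).subset ?_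
      intro l hl
      by_contra hc
      simp only [Function.mem_support, not_not] at hc
      simp [hc] at hl
    have e1 := finsum_comp_equiv (h.1 : W ≃ W)
      (f := fun l : W => if (Nat.unpair l.length).1 = a then P g.1 l else 0)
    rw [← e1, ← finsum_add_distrib]
    · congr 1
      funext l
      rw [P_mul, len]
      split_ifs <;> simp [add_comm]
    · exact (hs g).preimage h.1.injective.injOn
    · exact hs h)

theorem chi_sw (a : ℕ) (v : W) : chi a (sw v 1) =
    Multiplicative.ofAdd (if (Nat.unpair v.length).1 = a then 1 else 0) := by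
  show Multiplicative.ofAdd _ = _
  congr 1
  rw [finsum_eq_single _ v]
  · rw [sw, P_mk]; simp
  · intro w hw
    rw [sw, P_mk]; simp [hw]

noncomputable def M (a i : ℕ) : Subgroup G := St i ⊓ (chi a).ker

theorem M_ineq (a b : ℕ) (hab : a ≠ b) (j : ℕ) : ¬ M b j ≤ M a 0 := by
  intro h
  let v : W := List.replicate (Nat.pair a j) 0
  have hv : v.length = Nat.pair a j := by simp [v]
  have h1 : sw v 1 ∈ M b j := by
    refine ⟨fun l hl => sw_fix _ _ _ ?_, ?_⟩
    · rw [hv]; exact hl.trans (Nat.right_le_pair a j)
    · show chi b _ = 1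
      rw [chi_sw, hv]; simp [hab]
  have h2 : chi a (sw v 1) = 1 := (h h1).2
  rw [chi_sw, hv] at h2
  simp at h2

end Pool.Agent.H70.Branch
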