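import Pool.Agent.H70.BrkDefs

namespace Pool.Agent.H70.Brk

open Filter FreeGroup Topology

variable {X : Type} [DecidableEq X]

theorem occ_nil {w : List (X × Bool)} (hw : w ≠ []) : occ w [] = 0 := by simp [occ, hw]

theorem occ_cons (w : List (X × Bool)) (c : X × Bool) (l : List (X × Bool)) :
    occ w (c :: l) = occ w l + if w <+: c :: l then 1 else 0 := by
  simp [occ, List.countP_cons]

theorem occ_app {w : List (X × Bool)} (hw : w ≠ []) (l l' : List (X × Bool)) :
    occ w l + occ w l' ≤ occ w (l ++ l') ∧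
      occ w (l ++ l') ≤ occ w l + occ w l' + min l.length w.length := by
  induction l with
  | nil => simp [occ_nil hw]
  | cons c l ih =>
    rw [List.cons_append, occ_cons, occ_cons, List.length_cons]
    by_cases h1 : w <+: c :: l
    · rw [if_pos h1, if_pos (show w <+: c :: (l ++ l') from h1.trans (List.prefix_append (c :: l) l'))]
      omega
    · rw [if_neg h1]
      split_ifs with h2
      · have : l.length + 1 ≤ w.length := by
          by_contra h3
          exact h1 (List.prefix_of_prefix_length_le h2 (List.prefix_append (c :: l) l')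
            (by simp; omega))
        omega
      · omega

theorem conv {w : List (X × Bool)} (hw : w ≠ []) (g : FreeGroup X) :
    ∃ r : ℝ, Tendsto (fun n : ℕ => (occ w (g ^ n).toWord : ℝ) / n) atTop (𝓝 r) := by
  obtain ⟨u, c, v, e⟩ : ∃ u c v : List (X × Bool), ∀ n, n ≠ 0 →
      (g ^ n).toWord = u ++ (List.replicate n c).flatten ++ v := ⟨_, _, _, fun n hn => by
    rw [toWord_pow, reduceCyclically.reduce_flatten_replicate isReduced_toWord, if_neg hn]⟩
  have hs : Subadditive fun n => (occ w (List.replicate n c).flatten : ℝ) + w.length := fun m n => by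
    have := (occ_app hw (List.replicate m c).flatten (List.replicate n c).flatten).2
    rw [← List.flatten_append, ← List.replicate_add] at this
    have h2 : occ w (List.replicate (m + n) c).flatten ≤ occ w (List.replicate m c).flatten +
      occ w (List.replicate n c).flatten + w.length := by omega
    have h3 : (occ w (List.replicate (m + n) c).flatten : ℝ) ≤ occ w (List.replicate m c).flatten +
      occ w (List.replicate n c).flatten + w.length := by exact_mod_cast h2
    linarith
  have h1 := hs.tendsto_lim ⟨0, by rintro _ ⟨n, rfl⟩; positivity⟩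
  refine ⟨hs.lim, h1.congr_dist (squeeze_zero' (.of_forall fun _ => dist_nonneg) ?_
    (tendsto_const_div_atTop_nhds_zero_nat ((occ w u + occ w v + w.length : ℕ) : ℝ)))⟩
  filter_upwards [eventually_ne_atTop 0] with n hn
  rw [Real.dist_eq, ← sub_div, abs_div, Nat.abs_cast, e n hn]
  gcongr
  have h2 := occ_app hw u (List.replicate n c).flatten
  have h3 := occ_app hw (u ++ (List.replicate n c).flatten) v
  rw [abs_le]
  constructor
  · have : occ w (u ++ (List.replicate n c).flatten ++ v) ≤ occ w (List.replicate n c).flatten +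
      w.length + (occ w u + occ w v + w.length) := by omega
    have h4 := (Nat.cast_le (α := ℝ)).2 this
    push_cast at h4 ⊢
    linarith
  · have : occ w (List.replicate n c).flatten + w.length ≤
      occ w (u ++ (List.replicate n c).flatten ++ v) + (occ w u + occ w v + w.length) := by omega
    have h4 := (Nat.cast_le (α := ℝ)).2 this
    push_cast at h4 ⊢
    linarith

theorem tend {w : FreeGroup X} (hw : w ≠ 1) (g : FreeGroup X) :
    Tendsto (fun n : ℕ => h w (g ^ n) / n) atTop (𝓝 (hbar w g)) := by
  obtain ⟨r, h1⟩ := conv (mt toWord_eq_nil_iff.1 hw) g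
  obtain ⟨r', h2⟩ := conv (mt toWord_eq_nil_iff.1 (inv_ne_one.2 hw)) g
  exact tendsto_nhds_limUnder ⟨r - r', by simpa only [h, sub_div] using h1.sub h2⟩

theorem h_inv (w g : FreeGroup X) : h w⁻¹ g = - h w g := by simp [h]

theorem hbar_inv {w : FreeGroup X} (hw : w ≠ 1) (g : FreeGroup X) : hbar w⁻¹ g = - hbar w g :=
  tendsto_nhds_unique (tend (inv_ne_one.2 hw) g) (by
    simpa only [h_inv, neg_div] using (tend hw g).neg)

variable [Fintype X]

theorem occ_left {x : List (X × Bool)} (l : List (X × Bool)) :
    occ x l = (if x <+: l then 1 else 0) + ∑ s, occ (s :: x) l := by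
  induction l with
  | nil => simp [occ]
  | cons c l ih =>
    simp only [occ_cons, Finset.sum_add_distrib, List.cons_prefix_cons, ite_and, Finset.sum_ite_eq',
      Finset.mem_univ, if_true]
    omega

theorem occ_right {x : List (X × Bool)} (l : List (X × Bool)) :
    occ x l = (if x <:+ l then 1 else 0) + ∑ s, occ (x ++ [s]) l := by
  have key : ∀ l : List (X × Bool), (if x <+: l then 1 else 0) =
      (if x = l then 1 else 0) + ∑ s, if x ++ [s] <+: l then 1 else 0 := fun l => by
    by_cases h : x <+: l
    · obtain ⟨t, rfl⟩ := h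
      cases t with
      | nil =>
        have h1 : ∀ s, ¬ x ++ [s] <+: x := fun s e => by simpa using e.length_le
        simp [h1]
      | cons c t => simp [List.prefix_append_right_inj, List.cons_prefix_cons]
    · have h1 : ∀ s, ¬ x ++ [s] <+: l := fun s e => h ((List.prefix_append _ _).trans e)
      have h2 : x ≠ l := fun e => h (e ▸ List.prefix_rfl)
      simp [h, h1, h2]
  induction l with
  | nil => simp [occ]
  | cons c l ih =>
    simp only [occ_cons, Finset.sum_add_distrib, List.suffix_cons_iff, key (c :: l)]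
    by_cases h1 : x = c :: l
    · have : ¬ x <:+ l := fun e => by simpa [h1] using e.length_le
      simp only [h1, true_or, if_true] at *
      rw [if_neg this] at ih
      omega
    · simp only [h1, false_or, if_false]
      omega

omit [Fintype X] [DecidableEq X] in
theorem red_mid {w l : List (X × Bool)} (hl : IsReduced l) (h : w <:+: l) : IsReduced w := by
  obtain ⟨u, v, rfl⟩ := h
  exact (List.IsChain.left_of_append hl).right_of_append

omit [Fintype X] in
theorem occ_zero {w l : List (X × Bool)} (hl : IsReduced l) (hw : ¬ IsReduced w) : occ w l = 0 := by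
  refine List.countP_eq_zero.2 fun t ht h => hw (red_mid hl ?_)
  exact (of_decide_eq_true h).isInfix.trans ((List.mem_tails _ _).1 ht).isInfix

variable (a : X)

def P (n : ℕ) (ε : Bool) (s : X × Bool) : List (X × Bool) := List.replicate (n + 1) (a, ε) ++ [s]
def Q (n : ℕ) (ε : Bool) (s : X × Bool) : List (X × Bool) := s :: List.replicate (n + 1) (a, ε)

theorem diff {l : List (X × Bool)} (hl : IsReduced l) (n : ℕ) (ε : Bool) :
    ∑ s with s.1 ≠ a, ((occ (P a n ε s) l : ℝ) - occ (Q a n ε s) l) =
      (if List.replicate (n + 1) (a, ε) <+: l then 1 else 0) -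
        if List.replicate (n + 1) (a, ε) <:+ l then 1 else 0 := by
  have h1 := occ_left (x := List.replicate (n + 1) (a, ε)) l
  rw [occ_right] at h1
  have h2 : ∑ s with ¬ s.1 ≠ a, ((occ (P a n ε s) l : ℝ) - occ (Q a n ε s) l) = 0 := by
    refine Finset.sum_eq_zero fun ⟨x, δ⟩ hs => ?_
    obtain rfl : x = a := by simpa using hs
    by_cases e : δ = ε
    · rw [e, P, Q, ← List.replicate_succ', ← List.replicate_succ, sub_self]
    · rw [occ_zero hl, occ_zero hl, sub_self]
      · simp [Q, List.replicate_succ, e]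
      · intro h
        have := red_mid h (w := [(x, ε), (x, δ)]) ⟨List.replicate n (x, ε), [], by
          simp [P, List.replicate_succ']⟩
        simp [Ne.symm e] at this
  have h4 := Finset.sum_filter_add_sum_filter_not Finset.univ (fun s : X × Bool => s.1 ≠ a)
    fun s => ((occ (P a n ε s) l : ℝ) - occ (Q a n ε s) l)
  rw [h2, add_zero] at h4
  rw [h4, Finset.sum_sub_distrib]
  have h3 := congrArg (Nat.cast : ℕ → ℝ) h1
  push_cast at h3
  simp only [P, Q]
  linarith

omit [Fintype X] in
theorem redP {n : ℕ} {ε : Bool} {s : X × Bool} (hs : s.1 ≠ a) :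
    (mk (P a n ε s)).toWord = P a n ε s ∧ (mk (P a n ε s))⁻¹.toWord = Q a n (!ε) (s.1, !s.2) := by
  have : IsReduced (P a n ε s) := by
    induction n with
    | zero => simp [P, hs.symm]
    | succ n ih => simpa [P, List.replicate_succ] using ih
  rw [toWord_inv, toWord_mk, this.reduce_eq]
  simp [P, Q, invRev]

open Classical in
noncomputable def α (w : FreeGroup X) : ℝ :=
  (if ∃ n ε s, s.1 ≠ a ∧ w = mk (P a n ε s) then 1 else 0) -
    if ∃ n ε s, s.1 ≠ a ∧ w⁻¹ = mk (P a n ε s) then 1 else 0

omit [Fintype X] in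
theorem P_ne {n n' : ℕ} {ε ε' : Bool} {s s' : X × Bool} (hs : s.1 ≠ a) (hs' : s'.1 ≠ a) :
    (mk (P a n ε s))⁻¹ ≠ mk (P a n' ε' s') := fun e => by
  have := congrArg toWord e
  rw [(redP a hs).2, (redP a hs').1] at this
  simp [P, Q, List.replicate_succ, hs] at this

omit [Fintype X] in
theorem α_P {n : ℕ} {ε : Bool} {s : X × Bool} (hs : s.1 ≠ a) : α a (mk (P a n ε s)) = 1 := by
  rw [α, if_pos ⟨n, ε, s, hs, rfl⟩, if_neg fun ⟨_, _, _, h, e⟩ => P_ne a hs h e, sub_zero]

omit [Fintype X] [DecidableEq X] in
theorem α_inv (w : FreeGroup X) : α a w⁻¹ = - α a w := by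
  rw [α, α, _root_.inv_inv w, neg_sub]

omit [Fintype X] [DecidableEq X] in
theorem α_ne {w : FreeGroup X} (h : α a w ≠ 0) :
    ∃ n ε s, s.1 ≠ a ∧ (w = mk (P a n ε s) ∨ w = (mk (P a n ε s))⁻¹) := by
  by_contra hc
  push Not at hc
  exact h (by
    rw [α, if_neg fun ⟨n, ε, s, h, e⟩ => (hc n ε s h).1 e,
      if_neg fun ⟨n, ε, s, h, e⟩ => (hc n ε s h).2 (inv_eq_iff_eq_inv.1 e), sub_self])

omit [Fintype X] in
theorem nso {n : ℕ} {ε : Bool} {s : X × Bool} (hs : s.1 ≠ a) :
    NSO (mk (P a n ε s)) ∧ NSO (mk (P a n ε s))⁻¹ := by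
  have h0 : mk (P a n ε s) ≠ 1 := fun e => by
    have := (redP a (n := n) (ε := ε) hs).1
    rw [e] at this
    simp [P] at this
  refine ⟨⟨h0, fun p hp h1 h2 => ?_⟩, inv_ne_one.2 h0, fun p hp h1 h2 => ?_⟩
  · rw [(redP a hs).1] at *
    rcases List.prefix_concat_iff.1 h1 with h | h
    · exact h
    · have h3 := h2.getLast hp
      have h4 := List.eq_of_mem_replicate (h.subset (List.getLast_mem hp))
      simp only [P, List.getLast_concat] at h3
      exact absurd (congrArg Prod.fst (h3.symm.trans h4)) hs
  · rw [(redP a hs).2] at *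
    rcases List.suffix_cons_iff.1 h2 with h | h
    · exact h
    · have h3 := h1.head hp
      have h4 := List.eq_of_mem_replicate (h.subset (List.head_mem hp))
      simp only [Q, List.head_cons] at h3
      exact absurd (congrArg Prod.fst (h3.symm.trans h4)) hs

theorem series_eq {N : Set (FreeGroup X)} (hN : ∀ w, NSO w → (w ∈ N ↔ w⁻¹ ∉ N))
    {H : FreeGroup X → FreeGroup X → ℝ} (g : FreeGroup X) (hH : ∀ w ≠ 1, H w⁻¹ g = - H w g) :
    series N (α a) H g = ∑ n ∈ Finset.range (g.norm - 1), ∑ ε, ∑ s with s.1 ≠ a,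
      H (mk (P a n ε s)) g := by
  classical
  let r : FreeGroup X → FreeGroup X := fun w => if w ∈ N then w else w⁻¹
  have hn : ∀ {n ε s}, s.1 ≠ a → (mk (P a n ε s)).norm = n + 2 := fun hs => by
    rw [FreeGroup.norm, (redP a hs).1]; simp [P]
  rw [← Finset.sum_product', ← Finset.sum_product', series, finsum_mem_eq_sum_of_inter_support_eq _
    (t := ((Finset.range (g.norm - 1) ×ˢ Finset.univ) ×ˢ Finset.univ.filter fun s => s.1 ≠ a).image
      fun i => r (mk (P a i.1.1 i.1.2 i.2))), Finset.sum_image]
  · refine Finset.sum_congr rfl fun i hi => ?_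
    have hs : i.2.1 ≠ a := by simpa using (Finset.mem_product.1 hi).2
    simp only [r]
    split_ifs
    · rw [α_P a hs, one_mul]
    · rw [α_inv, α_P a hs, hH _ (nso a hs).1.1]; ring
  · rintro ⟨⟨n, ε⟩, s⟩ hi ⟨⟨n', ε'⟩, s'⟩ hi' e
    have hs : s.1 ≠ a := by simpa using (Finset.mem_product.1 hi).2
    have hs' : s'.1 ≠ a := by simpa using (Finset.mem_product.1 hi').2
    have e' : mk (P a n ε s) = mk (P a n' ε' s') := by
      simp only [r] at e
      split_ifs at e
      exacts [e, absurd e.symm (P_ne a hs' hs), absurd e (P_ne a hs hs'), inv_injective e]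
    have h1 := congrArg FreeGroup.norm e'
    have h2 := congrArg toWord e'
    rw [hn hs, hn hs'] at h1
    obtain rfl : n = n' := by omega
    rw [(redP a hs).1, (redP a hs').1] at h2
    obtain ⟨h3, h4⟩ := List.append_inj' h2 rfl
    simp_all
  · ext w
    refine and_congr_left fun hw => ?_
    obtain ⟨n, ε, s, hs, e⟩ := α_ne a (left_ne_zero_of_mul hw)
    simp only [Set.mem_setOf_eq, Finset.coe_image, Set.mem_image, Finset.mem_coe, Finset.mem_product,
      Finset.mem_range, Finset.mem_univ, and_true, Finset.mem_filter, true_and]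
    constructor
    · rintro ⟨h1, h2⟩
      refine ⟨((n, ε), s), ⟨?_, hs⟩, ?_⟩
      · have : w.norm = n + 2 := by rcases e with rfl | rfl <;> simp only [norm_inv_eq, hn hs]
        simp only
        omega
      · rcases e with rfl | rfl
        · exact if_pos h1
        · exact if_neg fun h => (hN _ (nso a hs).1).1 h h1
    · rintro ⟨⟨⟨n, ε⟩, s⟩, ⟨h1, hs⟩, rfl⟩
      have : (mk (P a n ε s)).norm = n + 2 := hn hs
      simp only [r] at h1 ⊢
      split_ifs with h2
      · exact ⟨h2, by omega⟩
      · exact ⟨by_contra fun h => h2 ((hN _ (nso a hs).1).2 h), by rw [norm_inv_eq]; omega⟩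

theorem block (n : ℕ) (g : FreeGroup X) : ∑ ε, ∑ s with s.1 ≠ a, h (mk (P a n ε s)) g =
    ∑ ε, ((if List.replicate (n + 1) (a, ε) <+: g.toWord then (1 : ℝ) else 0) -
        if List.replicate (n + 1) (a, ε) <:+ g.toWord then 1 else 0) := by
  simp only [← diff a isReduced_toWord, Finset.sum_sub_distrib]
  have h1 : ∀ ε, ∑ s with s.1 ≠ a, h (mk (P a n ε s)) g = ∑ s with s.1 ≠ a,
      (occ (P a n ε s) g.toWord : ℝ) - ∑ s with s.1 ≠ a, (occ (Q a n (!ε) s) g.toWord : ℝ) := by
    intro ε
    rw [Finset.sum_congr rfl fun s hs => by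
      rw [h, (redP a (Finset.mem_filter.1 hs).2).1, (redP a (Finset.mem_filter.1 hs).2).2],
      Finset.sum_sub_distrib]
    congr 1
    exact Finset.sum_nbij' (fun s => (s.1, !s.2)) (fun s => (s.1, !s.2)) (by simp) (by simp)
      (by simp) (by simp) (by simp)
  simp only [h1, Finset.sum_sub_distrib, Fintype.sum_bool, Bool.not_true, Bool.not_false]
  ring

theorem main {b : X} (hb : b ≠ a) {N : Set (FreeGroup X)} (hN : ∀ w, NSO w → (w ∈ N ↔ w⁻¹ ∉ N)) :
    (∀ g, series N (α a) hbar g = 0) ∧ ¬ IsQM (series N (α a) h) := by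
  refine ⟨fun g => ?_, fun ⟨C, hC⟩ => ?_⟩
  · rw [series_eq a hN g fun w hw => hbar_inv hw g]
    refine Finset.sum_eq_zero fun n _ => tendsto_nhds_unique (tendsto_finset_sum _ fun ε _ =>
      tendsto_finset_sum _ fun s hs => tend (nso a (Finset.mem_filter.1 hs).2).1.1 g) ?_
    simp only [← Finset.sum_div, block]
    refine squeeze_zero_norm (fun k => ?_) (tendsto_const_div_atTop_nhds_zero_nat 2)
    rw [norm_div, Real.norm_natCast, Fintype.sum_bool, Real.norm_eq_abs]
    gcongr
    split_ifs <;> norm_num
  · obtain ⟨m, hm⟩ := exists_nat_gt C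
    have h1 := hC (of a ^ (m + 1)) (of b)
    have e : of a ^ (m + 1) * of b = mk (P a m true (b, true)) := by
      rw [P, ← mul_mk, ← toWord_of_pow, mk_toWord]; rfl
    have e' := (redP a (n := m) (ε := true) (s := (b, true)) hb).1
    simp only [series_eq a hN _ fun w _ => h_inv w _, block, e, FreeGroup.norm, e', toWord_of_pow, toWord_of,
      List.prefix_replicate_iff, List.suffix_replicate_iff, sub_self, Finset.sum_const_zero,
      List.length_singleton, Nat.sub_self, Finset.range_zero, Finset.sum_empty, add_zero, zero_sub, abs_neg] at h1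
    rw [Finset.sum_congr rfl (g := fun _ => (1 : ℝ)) fun n hn => by
      have h2 : n + 1 ≤ m + 1 := by simpa [P] using hn
      have h3 : ∀ ε, ¬ List.replicate (n + 1) (a, ε) <:+ P a m true (b, true) := fun ε h => by
        simpa [P, hb.symm] using h.getLast (by simp)
      have h4 : List.replicate (n + 1) (a, true) <+: P a m true (b, true) :=
        List.IsPrefix.trans (by simp [List.prefix_replicate_iff, h2]) (List.prefix_append _ _)
      have h5 : ¬ List.replicate (n + 1) (a, false) <+: P a m true (b, true) := by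
        simp [P, List.replicate_succ]
      simp only [Fintype.sum_bool, h3, h4, h5, if_true, if_false]
      norm_num] at h1
    simp [P] at h1
    linarith [le_abs_self ((m : ℝ) + 1)]

end Pool.Agent.H70.Brk
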