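import Mathlib

/-! Infinite sums of Brooks quasimorphisms on a free group. -/

namespace Pool.Agent.H70.Brk

variable {X : Type} [DecidableEq X]

/-- The number of occurrences of `w` as a subword of `l`. -/
def occ (w l : List (X × Bool)) : ℕ := l.tails.countP fun t => decide (w <+: t)

/-- The Brooks counting function: occurrences of `w` minus occurrences of `w⁻¹`. -/
def h (w g : FreeGroup X) : ℝ := (occ w.toWord g.toWord : ℝ) - occ w⁻¹.toWord g.toWord

/-- Its homogenization. -/
noncomputable def hbar (w g : FreeGroup X) : ℝ :=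
  Filter.limUnder Filter.atTop fun n : ℕ => h w (g ^ n) / n

/-- Non-self-overlapping: no nonempty proper initial segment of `w` is a final segment of `w`. -/
def NSO (w : FreeGroup X) : Prop :=
  w ≠ 1 ∧ ∀ p : List (X × Bool), p ≠ [] → p <+: w.toWord → p <:+ w.toWord → p = w.toWord

/-- The sum of `α w * H w g` over the words `w ∈ N` with `|w| ≤ |g|`. -/
noncomputable def series (N : Set (FreeGroup X)) (α : FreeGroup X → ℝ)
    (H : FreeGroup X → FreeGroup X → ℝ) (g : FreeGroup X) : ℝ :=
  ∑ᶠ w ∈ {w ∈ N | w.norm ≤ g.norm}, α w * H w g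

/-- Quasimorphisms: functions of bounded defect. -/
def IsQM (φ : FreeGroup X → ℝ) : Prop := ∃ C, ∀ g g', |φ g + φ g' - φ (g * g')| ≤ C

end Pool.Agent.H70.Brk
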