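import Pool.Agent.H70.BurnDefs

set_option autoImplicit false

namespace Pool.Agent.H70.Burn

open Pool.Agent.H70.BurnDefs

theorem pow_n {α : Type} (n : ℕ) (g : B α n) : g ^ n = 1 := by
  obtain ⟨w, rfl⟩ := QuotientGroup.mk_surjective g
  rw [← QuotientGroup.mk_pow, QuotientGroup.eq_one_iff]
  exact Subgroup.subset_normalClosure ⟨w, rfl⟩

def lift {α A : Type} [Group A] (n : ℕ) (hA : ∀ y : A, y ^ n = 1) (f : α → A) : B α n →* A :=
  QuotientGroup.lift _ (FreeGroup.lift f) (by
    intro x hx
    refine (Subgroup.normalClosure_le_normal (N := (FreeGroup.lift f).ker) ?_) hx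
    rintro _ ⟨w, rfl⟩
    simp [hA])

theorem lift_gen {α A : Type} [Group A] (n : ℕ) (hA : ∀ y : A, y ^ n = 1) (f : α → A) (i : α) :
    lift n hA f (gen n i) = f i := by
  simp [lift, gen]

theorem hom_ext {α A : Type} [Group A] {n : ℕ} {f g : B α n →* A}
    (h : ∀ i, f (gen n i) = g (gen n i)) : f = g := by
  ext i
  exact h i

def homEquiv {α A : Type} [Group A] (n : ℕ) (hA : ∀ y : A, y ^ n = 1) :
    (B α n →* A) ≃ (α → A) where
  toFun φ i := φ (gen n i)
  invFun := lift n hA
  left_inv φ := hom_ext fun i => lift_gen n hA _ i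
  right_inv f := funext fun i => lift_gen n hA f i

theorem card_supp {α A : Type} [One A] (t : Finset α) :
    Nat.card {f : α → A // ∀ i, i ∉ t → f i = 1} = Nat.card A ^ t.card := by
  classical
  have e : {f : α → A // ∀ i, i ∉ t → f i = 1} ≃ (t → A) :=
    { toFun := fun f i => f.1 i
      invFun := fun g => ⟨fun i => if h : i ∈ t then g ⟨i, h⟩ else 1, fun i hi => by simp [hi]⟩
      left_inv := fun f => by
        ext i
        by_cases h : i ∈ t
        · simp [h]
        · simp [h, f.2 i h]
      right_inv := fun g => by ext i; simp }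
  rw [Nat.card_congr e, Nat.card_fun]
  simp

theorem main (a b : ℕ) (ha : 1 < a) (hb : 1 < b) (hab : a.Coprime b) (α : Type) (x : α)
    (s : Finset α) (hx : x ∉ s) :
    IsRetract (Subgroup.closure (insert (gen (a * b) x ^ a) (gen (a * b) '' s))) ∧
    ∀ β : Type, IsEmpty
      (Subgroup.closure (insert (gen (a * b) x ^ a) (gen (a * b) '' s)) ≃* B β (a * b)) := by
  classical
  obtain ⟨u, hu⟩ : ∃ u : ℕ, a * u % b = 1 := Nat.exists_mul_mod_eq_one_of_coprime hab hb |>.imp
    fun u h => h.2
  set n := a * b with hn
  set H := Subgroup.closure (insert (gen n x ^ a) (gen n '' s)) with hH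
  have hu' : a * u ≡ 1 [MOD b] := by
    unfold Nat.ModEq; rw [hu, Nat.mod_eq_of_lt hb]
  let r : B α n →* B α n := lift n (pow_n n)
    (fun i => if i = x then gen n x ^ (a * u) else if i ∈ s then gen n i else 1)
  have rx : r (gen n x) = gen n x ^ (a * u) := by simp [r, lift_gen]
  have rs : ∀ i ∈ s, r (gen n i) = gen n i := by
    intro i hi
    have : i ≠ x := by rintro rfl; exact hx hi
    simp [r, lift_gen, this, hi]
  have ro : ∀ i, i ≠ x → i ∉ s → r (gen n i) = 1 := by
    intro i h1 h2
    simp [r, lift_gen, h1, h2]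
  have hmem : ∀ g, r g ∈ H := by
    intro g
    obtain ⟨w, rfl⟩ := QuotientGroup.mk_surjective g
    induction w using FreeGroup.induction_on with
    | C1 => simpa using H.one_mem
    | of i =>
      show r (gen n i) ∈ H
      by_cases h1 : i = x
      · rw [h1, rx, pow_mul]
        exact H.pow_mem (Subgroup.subset_closure (by simp)) _
      · by_cases h2 : i ∈ s
        · rw [rs i h2]
          exact Subgroup.subset_closure (Or.inr ⟨i, h2, rfl⟩)
        · rw [ro i h1 h2]; exact H.one_mem
    | inv_of i h => rw [QuotientGroup.mk_inv, map_inv]; exact H.inv_mem h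
    | mul v w hv hw => rw [QuotientGroup.mk_mul, map_mul]; exact H.mul_mem hv hw
  have hfix : ∀ h ∈ H, r h = h := by
    intro h hh
    refine MonoidHom.eqOn_closure (f := r) (g := MonoidHom.id _) ?_ hh
    rintro y (rfl | ⟨i, hi, rfl⟩)
    · show r _ = _
      rw [map_pow, rx, ← pow_mul, MonoidHom.id_apply]
      apply pow_eq_pow_iff_modEq.2
      refine Nat.ModEq.of_dvd (orderOf_dvd_of_pow_eq_one (pow_n n _)) ?_
      have := Nat.ModEq.mul_left' (c := a) hu'
      simpa [mul_comm, mul_assoc, mul_left_comm, hn] using this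
    · exact rs i hi
  let ρ : B α n →* H := r.codRestrict H hmem
  have hρ : ∀ h : H, ρ h = h := fun h => Subtype.ext (hfix h h.2)
  refine ⟨⟨ρ, hρ⟩, fun β => ⟨fun e => ?_⟩⟩
  have key : ∀ (c : ℕ) (t : Finset α), c ∣ n →
      (∀ f : α → Multiplicative (ZMod c), (∀ i, i ∉ t → f i = 1) ↔
        (f x ^ (a * u) = f x ∧ ∀ i, i ≠ x → i ∉ s → f i = 1)) →
      Nat.card (β → Multiplicative (ZMod c)) = c ^ t.card := by
    intro c t hc ht
    have hA : ∀ y : Multiplicative (ZMod c), y ^ n = 1 := by
      intro y
      obtain ⟨d, hd⟩ := hc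
      rw [hd, pow_mul]
      have : y ^ c = 1 := by
        apply Multiplicative.toAdd.injective
        simp
      rw [this, one_pow]
    have e1 : (H →* Multiplicative (ZMod c)) ≃ {f : α → Multiplicative (ZMod c) //
        ∀ i, i ∉ t → f i = 1} :=
      { toFun := fun φ => ⟨fun i => φ (ρ (gen n i)), (ht _).2 ⟨by
            rw [← map_pow, ← map_pow, ← rx]
            exact congrArg φ (hρ (ρ (gen n x))), fun i h1 h2 => by
            have : ρ (gen n i) = 1 := Subtype.ext (ro i h1 h2)
            simp [this]⟩⟩
        invFun := fun f => (lift n hA f.1).comp H.subtype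
        left_inv := fun φ => by
          have : lift n hA (fun i => φ (ρ (gen n i))) = φ.comp ρ :=
            hom_ext fun i => by rw [lift_gen]; rfl
          ext h
          simp [this, hρ]
        right_inv := fun f => by
          have hf := (ht f.1).1 f.2
          ext1
          funext i
          show lift n hA f.1 (r (gen n i)) = f.1 i
          by_cases h1 : i = x
          · rw [h1, rx, map_pow, lift_gen, hf.1]
          · by_cases h2 : i ∈ s
            · rw [rs i h2, lift_gen]
            · rw [ro i h1 h2, map_one, hf.2 i h1 h2] }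
    have e2 : (H →* Multiplicative (ZMod c)) ≃ (B β n →* Multiplicative (ZMod c)) :=
      { toFun := fun φ => φ.comp e.symm.toMonoidHom
        invFun := fun φ => φ.comp e.toMonoidHom
        left_inv := fun φ => by ext; simp
        right_inv := fun φ => by ext; simp }
    rw [← Nat.card_congr (homEquiv n hA), ← Nat.card_congr e2, Nat.card_congr e1, card_supp,
      Nat.card_congr (Multiplicative.toAdd (α := ZMod c)), Nat.card_zmod]
  have k1 := key a s (Dvd.intro _ rfl) (by
    intro f
    have hy : f x ^ (a * u) = 1 := by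
      rw [pow_mul]
      have : f x ^ a = 1 := by
        apply Multiplicative.toAdd.injective
        simp
      rw [this, one_pow]
    rw [hy]
    constructor
    · intro h
      exact ⟨(h x hx).symm, fun i _ h2 => h i h2⟩
    · rintro ⟨h1, h2⟩ i hi
      by_cases h : i = x
      · rw [h, ← h1]
      · exact h2 i h hi)
  have k2 := key b (insert x s) (Dvd.intro_left _ rfl) (by
    intro f
    have hy : f x ^ (a * u) = f x := by
      have : f x ^ b = 1 := by
        apply Multiplicative.toAdd.injective
        simp
      conv_rhs => rw [← pow_one (f x)]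
      exact pow_eq_pow_iff_modEq.2 (Nat.ModEq.of_dvd (orderOf_dvd_of_pow_eq_one this) hu')
    simp [hy])
  rw [Finset.card_insert_of_notMem hx] at k2
  by_cases hβ : Finite β
  · rw [Nat.card_fun] at k1 k2
    rw [Nat.card_congr (Multiplicative.toAdd (α := ZMod _)), Nat.card_zmod] at k1 k2
    have := Nat.pow_right_injective ha k1
    have := Nat.pow_right_injective hb k2
    omega
  · rw [not_finite_iff_infinite] at hβ
    have : Fact (1 < a) := ⟨ha⟩
    have : Infinite (β → Multiplicative (ZMod a)) := Pi.infinite_of_left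
    rw [Nat.card_eq_zero_of_infinite] at k1
    exact absurd k1.symm (pow_ne_zero _ (by omega))

end Pool.Agent.H70.Burn
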