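import Mathlib

set_option autoImplicit false

namespace Pool.Agent.H70.BurnDefs

/-- The free Burnside group of exponent `n` on the generating set `α`. -/
abbrev B (α : Type) (n : ℕ) : Type :=
  FreeGroup α ⧸ Subgroup.normalClosure (Set.range fun w : FreeGroup α => w ^ n)

/-- The free generator of `B α n` with index `i`. -/
def gen {α : Type} (n : ℕ) (i : α) : B α n := QuotientGroup.mk (FreeGroup.of i)

/-- `H` is a retract of `G`. -/
def IsRetract {G : Type} [Group G] (H : Subgroup G) : Prop :=
  ∃ ρ : G →* H, ∀ h : H, ρ h = h

end Pool.Agent.H70.BurnDefs
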