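import Mathlib

open FirstOrder FirstOrder.Language

namespace Pool.Agent.H70.CP

/-- function symbols of arithmetic -/
inductive AF : ℕ → Type
  | zero : AF 0
  | one : AF 0
  | add : AF 2
  | mul : AF 2

/-- relation symbols of arithmetic -/
inductive AR : ℕ → Type
  | lt : AR 2

/-- one unary predicate -/
inductive UR : ℕ → Type
  | U : UR 1

/-- the language of arithmetic `0, 1, +, *, <` -/
def LPA : Language := ⟨AF, AR⟩

/-- the language with one unary predicate `U` -/
def LU : Language := ⟨fun _ => Empty, UR⟩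

/-- the structure of arithmetic on an ordered semiring -/
@[reducible] def arith (M : Type) [CommSemiring M] [LinearOrder M] : LPA.Structure M where
  funMap := fun {n} f v => match n, f, v with
    | _, AF.zero, _ => 0
    | _, AF.one, _ => 1
    | _, AF.add, v => v 0 + v 1
    | _, AF.mul, v => v 0 * v 1
  RelMap := fun {n} r v => match n, r, v with
    | _, AR.lt, v => v 0 < v 1

/-- `U` interpreted by `X` -/
@[reducible] def uStr {M : Type} (X : Set M) : LU.Structure M where
  funMap := fun e _ => Empty.elim e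
  RelMap := fun {n} r v => match n, r, v with
    | _, UR.U, v => v 0 ∈ X

/-- the expansion `(M, X)` of an arithmetic structure -/
@[reducible] def expand {M : Type} (S : LPA.Structure M) (X : Set M) : (LPA.sum LU).Structure M :=
  @Language.sumStructure LPA LU M S (uStr X)

/-- spread sets of tuples -/
def Spread {M : Type} {n : ℕ} (B : Set (Fin n → M)) : Prop :=
  B.Infinite ∧ (∀ b ∈ B, Function.Injective b) ∧
    ∀ b ∈ B, ∀ c ∈ B, b ≠ c → Disjoint (Set.range b) (Set.range c)

/-- strongly CP-generic subsets -/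
def SG {M : Type} (S : LPA.Structure M) (X : Set M) : Prop :=
  ∀ n : ℕ, 1 ≤ n → ∀ D : Set (Fin n → M), @Set.Definable M Set.univ LPA S (Fin n) D →
    (∃ B ⊆ D, Spread B) → ∀ I : Set (Fin n), ∃ b ∈ D, ∀ i, b i ∈ X ↔ i ∈ I

/-- models of Peano arithmetic: discretely ordered semirings with subtraction (the axioms
`PA⁻`) and induction for all sets definable with parameters -/
structure IsPA (M : Type) [CommSemiring M] [LinearOrder M] [IsStrictOrderedRing M] : Prop where
  nonneg : ∀ x : M, 0 ≤ x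
  discrete : ∀ x : M, 0 < x → 1 ≤ x
  sub : ∀ x y : M, x < y → ∃ z, x + z = y
  ind : ∀ E : Set M, @Set.Definable₁ M Set.univ LPA (arith M) E → 0 ∈ E →
    (∀ x ∈ E, x + 1 ∈ E) → ∀ x, x ∈ E

section sem
variable {N : Type} [S : LPA.Structure N]

def zr : N := Structure.funMap (L := LPA) AF.zero ![]
def on : N := Structure.funMap (L := LPA) AF.one ![]
def ad (x y : N) : N := Structure.funMap (L := LPA) AF.add ![x, y]
def ml (x y : N) : N := Structure.funMap (L := LPA) AF.mul ![x, y]
def lt (x y : N) : Prop := Structure.RelMap (L := LPA) AR.lt ![x, y]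
def th (i d e : N) : Prop := ∃ q, ml q (ad (ml (ad i on) e) on) = d
def pr (n k : N) : N := ad (ml (ad n k) (ad n k)) k
def Coded (Y : Set N) (c : N) : Prop := ∃ d e, ∀ i, lt i c → (i ∈ Y ↔ th i d e)
def Col (Y : Set N) (a n m : N) : Prop :=
  ∀ k, Coded Y k → (pr n k ∈ Y ↔ ad (ad a m) k ∈ Y)
end sem

section syn
variable {α : Type}

def tz : LPA.Term α := Term.func AF.zero ![]
def t1 : LPA.Term α := Term.func AF.one ![]
def ta (s t : LPA.Term α) : LPA.Term α := Term.func AF.add ![s, t]
def tm (s t : LPA.Term α) : LPA.Term α := Term.func AF.mul ![s, t]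
def fl (s t : LPA.Term α) : LPA.Formula α := Relations.formula₂ (L := LPA) AR.lt s t
def up (s : LPA.Term α) : LPA.Term (α ⊕ Unit) := s.relabel Sum.inl
def vn : LPA.Term (α ⊕ Unit) := Term.var (Sum.inr ())
noncomputable def fth (i d e : LPA.Term α) : LPA.Formula α :=
  Formula.iExs Unit (Term.equal (tm vn (ta (tm (ta (up i) t1) (up e)) t1)) (up d))
def lf (φ : LPA.Formula α) : (LPA.sum LU).Formula α := (LHom.sumInl : LPA →ᴸ LPA.sum LU).onFormula φ
def fU (t : LPA.Term α) : (LPA.sum LU).Formula α :=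
  Relations.formula₁ (L := LPA.sum LU) (Sum.inr UR.U) ((LHom.sumInl : LPA →ᴸ LPA.sum LU).onTerm t)
noncomputable def fcod (c : LPA.Term α) : (LPA.sum LU).Formula α :=
  Formula.iExs Unit (Formula.iExs Unit (Formula.iAlls Unit
    ((lf (fl vn (up (up (up c))))).imp ((fU vn).iff (lf (fth vn (up (up vn)) (up vn)))))))
noncomputable def fcol (a n m : LPA.Term α) : (LPA.sum LU).Formula α :=
  Formula.iAlls Unit ((fcod vn).imp
    ((fU (ta (tm (ta (up n) vn) (ta (up n) vn)) vn)).iff (fU (ta (ta (up a) (up m)) vn))))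

variable {N : Type} [S : LPA.Structure N] (v : α → N)

lemma r_tz : (tz : LPA.Term α).realize v = zr := by
  simp only [tz, Term.realize, zr]; congr 1; ext i; exact i.elim0
lemma r_t1 : (t1 : LPA.Term α).realize v = on := by
  simp only [t1, Term.realize, on]; congr 1; ext i; exact i.elim0
lemma r_ta (s t : LPA.Term α) : (ta s t).realize v = ad (s.realize v) (t.realize v) := by
  simp only [ta, Term.realize, ad]; congr 1; ext i; fin_cases i <;> rfl
lemma r_tm (s t : LPA.Term α) : (tm s t).realize v = ml (s.realize v) (t.realize v) := by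
  simp only [tm, Term.realize, ml]; congr 1; ext i; fin_cases i <;> rfl
lemma r_fl (s t : LPA.Term α) : (fl s t).Realize v ↔ lt (s.realize v) (t.realize v) := by
  simp only [fl, Formula.realize_rel₂, lt]
lemma r_up (s : LPA.Term α) (i : Unit → N) :
    (up s).realize (fun a => Sum.elim v i a) = s.realize v := by
  simp only [up, Term.realize_relabel]; rfl
lemma r_vn (i : Unit → N) : (vn : LPA.Term (α ⊕ Unit)).realize (fun a => Sum.elim v i a) = i () := rfl
lemma exU {P : N → Prop} : (∃ i : Unit → N, P (i ())) ↔ ∃ x, P x :=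
  ⟨fun ⟨i, h⟩ => ⟨_, h⟩, fun ⟨x, h⟩ => ⟨fun _ => x, h⟩⟩
lemma alU {P : N → Prop} : (∀ i : Unit → N, P (i ())) ↔ ∀ x, P x :=
  ⟨fun h x => h (fun _ => x), fun h i => h _⟩
lemma r_fth (i d e : LPA.Term α) :
    (fth i d e).Realize v ↔ th (i.realize v) (d.realize v) (e.realize v) := by
  simp only [fth, Formula.realize_iExs, Formula.realize_equal, r_tm, r_ta, r_up, r_vn, r_t1, th]
  exact exU (P := fun q => ml q (ad (ml (ad (i.realize v) on) (e.realize v)) on) = d.realize v)

variable (Y : Set N)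

lemma r_lf (φ : LPA.Formula α) :
    @Formula.Realize _ N (expand S Y) _ (lf φ) v ↔ φ.Realize v := by
  letI := uStr Y
  exact LHom.realize_onFormula _ _
lemma r_fU (t : LPA.Term α) :
    @Formula.Realize _ N (expand S Y) _ (fU t) v ↔ t.realize v ∈ Y := by
  letI := uStr Y
  simp only [fU, Formula.realize_rel₁, LHom.realize_onTerm]
  rfl
lemma r_fcod (c : LPA.Term α) :
    @Formula.Realize _ N (expand S Y) _ (fcod c) v ↔ Coded Y (c.realize v) := by
  letI := uStr Y
  simp only [fcod, Formula.realize_iExs, Formula.realize_iAlls, Formula.realize_imp,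
    Formula.realize_iff, r_lf, r_fU, r_fl, r_fth, r_up, r_vn, Coded]
  constructor
  · rintro ⟨d, e, h⟩
    exact ⟨d (), e (), fun i => h (fun _ => i)⟩
  · rintro ⟨d, e, h⟩
    exact ⟨fun _ => d, fun _ => e, fun i => h (i ())⟩
lemma r_fcol (a n m : LPA.Term α) :
    @Formula.Realize _ N (expand S Y) _ (fcol a n m) v ↔
      Col Y (a.realize v) (n.realize v) (m.realize v) := by
  letI := uStr Y
  simp only [fcol, Formula.realize_iAlls, Formula.realize_imp,
    Formula.realize_iff, r_fcod, r_fU, r_ta, r_tm, r_up, r_vn, Col, pr]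
  exact ⟨fun h k => h (fun _ => k), fun h i => h _⟩
end syn

/-- a coded initial segment of a strongly generic set is finite -/
lemma coded_finite {N : Type} [S : LPA.Structure N] {Y : Set N} (hY : SG S Y) {c : N}
    (hc : Coded Y c) : {i | lt i c}.Finite := by
  obtain ⟨d, e, h⟩ := hc
  have key : ∀ P : Set N, P.Infinite → Set.univ.Definable LPA {v : Fin 1 → N | v 0 ∈ P} →
      (∃ x ∈ P, x ∈ Y) ∧ ∃ x ∈ P, x ∉ Y := by
    intro P hP hD
    have hS : Spread {v : Fin 1 → N | v 0 ∈ P} := by
      refine ⟨?_, fun b _ i j _ => Subsingleton.elim i j, ?_⟩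
      · have : Function.Injective (fun (x : N) (_ : Fin 1) => x) := fun x y hxy => congrFun hxy 0
        refine (hP.image this.injOn).mono ?_
        rintro _ ⟨x, hx, rfl⟩; exact hx
      · intro b _ c _ hbc
        rw [Set.disjoint_left]
        rintro _ ⟨i, rfl⟩ ⟨j, hj⟩
        apply hbc
        ext k
        rw [Subsingleton.elim k i, ← hj, Subsingleton.elim j i]
    obtain ⟨b, hb, h1⟩ := hY 1 le_rfl _ hD ⟨_, subset_rfl, hS⟩ Set.univ
    obtain ⟨b', hb', h2⟩ := hY 1 le_rfl _ hD ⟨_, subset_rfl, hS⟩ ∅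
    exact ⟨⟨b 0, hb, (h1 0).2 trivial⟩, ⟨b' 0, hb', fun hh => (h2 0).1 hh⟩⟩
  let p : N → LPA.Term ((Set.univ : Set N) ⊕ Fin 1) := fun x => Term.var (Sum.inl ⟨x, trivial⟩)
  let x0 : LPA.Term ((Set.univ : Set N) ⊕ Fin 1) := Term.var (Sum.inr 0)
  have h1 : {i | lt i c ∧ th i d e}.Finite := by
    by_contra hinf
    obtain ⟨x, hx, hxY⟩ := (key _ hinf (by
      rw [Set.definable_iff_exists_formula_sum]
      refine ⟨fl x0 (p c) ⊓ fth x0 (p d) (p e), ?_⟩
      ext v
      simp only [Set.mem_setOf_eq, Formula.realize_inf, r_fl, r_fth]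
      rfl)).2
    exact hxY ((h x hx.1).2 hx.2)
  have h2 : {i | lt i c ∧ ¬ th i d e}.Finite := by
    by_contra hinf
    obtain ⟨x, hx, hxY⟩ := (key _ hinf (by
      rw [Set.definable_iff_exists_formula_sum]
      refine ⟨fl x0 (p c) ⊓ (fth x0 (p d) (p e)).not, ?_⟩
      ext v
      simp only [Set.mem_setOf_eq, Formula.realize_inf, Formula.realize_not, r_fl, r_fth]
      rfl)).1
    exact hx.2 ((h x hx.1).1 hxY)
  refine (h1.union h2).subset ?_
  intro i hi
  by_cases ht : th i d e
  · exact Or.inl ⟨hi, ht⟩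
  · exact Or.inr ⟨hi, ht⟩

/-- meeting countably many finite requirements -/
lemma meet {M R : Type} [Countable R] (G : R → Set M → Set M → Prop)
    (hG : ∀ r, ∀ F : Set M, F.Finite → ∃ P Q : Set M, P.Finite ∧ Q.Finite ∧ Disjoint P F ∧
      Disjoint Q F ∧ Disjoint P Q ∧ G r P Q) :
    ∃ X : Set M, ∀ r, ∃ P Q, G r P Q ∧ P ⊆ X ∧ Disjoint Q X := by
  rcases isEmpty_or_nonempty R with hR | hR
  · exact ⟨∅, fun r => hR.elim r⟩
  obtain ⟨e, he⟩ := exists_surjective_nat R
  choose P Q hP hQ hPF hQF hPQ hGG using hG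
  let F : ℕ → {F : Set M // F.Finite} := fun n => Nat.rec ⟨∅, Set.finite_empty⟩
    (fun k F => ⟨F.1 ∪ (P (e k) F.1 F.2 ∪ Q (e k) F.1 F.2),
      F.2.union ((hP _ _ _).union (hQ _ _ _))⟩) n
  have hF : ∀ k, (F (k+1)).1 = (F k).1 ∪ (P (e k) (F k).1 (F k).2 ∪ Q (e k) (F k).1 (F k).2) :=
    fun k => rfl
  have mono : Monotone fun k => (F k).1 :=
    monotone_nat_of_le_succ fun k => by rw [hF]; exact Set.subset_union_left
  refine ⟨⋃ k, P (e k) (F k).1 (F k).2, fun r => ?_⟩
  obtain ⟨k, rfl⟩ := he r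
  refine ⟨_, _, hGG (e k) (F k).1 (F k).2,
    Set.subset_iUnion (fun k => P (e k) (F k).1 (F k).2) k, ?_⟩
  rw [Set.disjoint_iUnion_right]
  intro j
  rcases lt_trichotomy j k with h | rfl | h
  · refine (hQF (e k) (F k).1 (F k).2).mono_right ?_
    refine subset_trans ?_ (mono (Nat.succ_le_of_lt h))
    show _ ⊆ (F (j+1)).1
    rw [hF]; exact Set.subset_union_left.trans Set.subset_union_right
  · exact (hPQ _ _ _).symm
  · refine ((hPF (e j) (F j).1 (F j).2).mono_right ?_).symm
    refine subset_trans ?_ (mono (Nat.succ_le_of_lt h))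
    show _ ⊆ (F (k+1)).1
    rw [hF]; exact Set.subset_union_right.trans Set.subset_union_right

end Pool.Agent.H70.CP
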