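import Mathlib

/-! Alternating counts of chains of `p`-subgroups with prescribed orders. -/

namespace Pool.Agent.H70.Chain

open Classical Finset

variable {G : Type*} [Group G] [Fintype (Subgroup G)] (p : ℕ)

noncomputable def ind (U W : Subgroup G) (j : ℕ) (V : Subgroup G) : ℤ :=
  if U ≤ V ∧ V ≤ W ∧ Nat.card V = p ^ j then 1 else 0

noncomputable def F (W : Subgroup G) : List ℕ → Subgroup G → ℤ
  | [], _ => 1
  | j :: T, U => F W T U - ∑ V, ind p U W j V * F W T V

omit [Fintype (Subgroup G)] in
theorem ind_mul (U W A V : Subgroup G) (i j : ℕ) :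
    ind p U W i A * ind p A W j V = ind p U W j V * ind p U V i A := by
  unfold ind
  by_cases h : (U ≤ A ∧ A ≤ W ∧ Nat.card A = p ^ i) ∧ (A ≤ V ∧ V ≤ W ∧ Nat.card V = p ^ j)
  · rw [if_pos h.1, if_pos h.2, if_pos ⟨h.1.1.trans h.2.1, h.2.2⟩, if_pos ⟨h.1.1, h.2.1, h.1.2.2⟩]
  · have h' : ¬ ((U ≤ V ∧ V ≤ W ∧ Nat.card V = p ^ j) ∧ (U ≤ A ∧ A ≤ V ∧ Nat.card A = p ^ i)) :=
      fun h' => h ⟨⟨h'.2.1, h'.2.2.1.trans h'.1.2.1, h'.2.2.2⟩, h'.2.2.1, h'.1.2⟩
    split_ifs <;> simp_all

theorem F_ins (W : Subgroup G) (L : List ℕ) (j : ℕ) (H : List ℕ) (U : Subgroup G) :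
    F p W (L ++ j :: H) U = F p W (L ++ H) U - ∑ V, ind p U W j V * (F p V L U * F p W H V) := by
  induction L generalizing U with
  | nil => simp [F]
  | cons i L ih =>
    simp only [List.cons_append, F, ih, mul_sub, sub_mul, sum_sub_distrib, mul_sum, sum_mul]
    rw [sum_comm (f := fun A V => ind p U W i A * (ind p A W j V * (F p V L A * F p W H V)))]
    have : ∀ V A, ind p U W i A * (ind p A W j V * (F p V L A * F p W H V)) =
        ind p U W j V * (ind p U V i A * F p V L A * F p W H V) := fun V A => by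
      rw [← mul_assoc, ind_mul]; ring
    simp only [this]
    ring

noncomputable def Φ (W : Subgroup G) (u : ℕ) (T : List ℕ) (w : Subgroup G → ℤ) : ℤ :=
  ∑ U, ind p ⊥ W u U * (w U * F p W T U)

theorem Φ_ins (W : Subgroup G) (u : ℕ) (L : List ℕ) (j : ℕ) (H : List ℕ) (w : Subgroup G → ℤ) :
    Φ p W u (L ++ j :: H) w = Φ p W u (L ++ H) w - Φ p W j H fun V => Φ p V u L w := by
  simp only [Φ, F_ins, mul_sub, sum_sub_distrib, mul_sum, sum_mul]
  rw [sum_comm]
  congr 1
  refine sum_congr rfl fun V _ => sum_congr rfl fun U _ => ?_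
  have := ind_mul p ⊥ W U V u j
  linear_combination (w U * F p V L U * F p W H V) * this

theorem Φ_exp (W : Subgroup G) (u a : ℕ) (w : Subgroup G → ℤ) :
    Φ p W u (List.range' (u + 1) a) w = Φ p W u [] w -
      ∑ i ∈ range a, Φ p W (u + 1 + i) [] fun V => Φ p V u (List.range' (u + 1) i) w := by
  induction a with
  | zero => simp
  | succ a ih =>
    rw [List.range'_concat, Φ_ins, List.append_nil, ih, sum_range_succ, one_mul]
    ring

variable [Finite G] [hp : Fact p.Prime]

theorem Φ_top {S : Subgroup G} {s : ℕ} (hS : Nat.card S = p ^ s) {j : ℕ} (hj : s ≤ j)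
    (h : Subgroup G → ℤ) : Φ p S j [] h = if s = j then h S else 0 := by
  have h1 : ∀ V, V ≤ S → Nat.card V = p ^ j → V = S ∧ s = j := fun V hV e => by
    have h2 : p ^ s ≤ p ^ j := Nat.pow_le_pow_right hp.out.pos hj
    have h3 := Subgroup.eq_of_le_of_card_ge hV (by omega)
    subst h3
    exact ⟨rfl, Nat.pow_right_injective hp.out.two_le (hS.symm.trans e)⟩
  simp only [Φ, F, mul_one]
  rw [sum_eq_single S]
  · split_ifs with e
    · simp [ind, hS, e]
    · rw [ind, if_neg fun h' => e (h1 S le_rfl h'.2.2).2, zero_mul]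
  · intro V _ hV
    rw [ind, if_neg fun h' => hV (h1 V h'.2.1 h'.2.2).1, zero_mul]
  · simp

theorem Φ_cone {S : Subgroup G} {s : ℕ} (hS : Nat.card S = p ^ s) (u a : ℕ) (h : s ≤ u + a)
    (w : Subgroup G → ℤ) : Φ p S u (List.range' (u + 1) a) w = if s = u then w S else 0 := by
  induction a with
  | zero => exact Φ_top p hS h w
  | succ a ih =>
    rw [List.range'_concat, Φ_ins, List.append_nil, one_mul, Φ_top p hS (by omega)]
    split_ifs with e1 e2 e2
    · omega
    · simp
    · rw [ih (by omega), if_pos e2, sub_zero]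
    · rw [ih (by omega), if_neg e2, sub_zero]

omit [Finite G] hp in
theorem F_map (φ : MulAut G) (W : Subgroup G) (T : List ℕ) (U : Subgroup G) :
    F p (φ.mapSubgroup W) T (φ.mapSubgroup U) = F p W T U ∧ ∀ j V,
      ind p (φ.mapSubgroup U) (φ.mapSubgroup W) j (φ.mapSubgroup V) = ind p U W j V := by
  have h : ∀ U j V, ind p (φ.mapSubgroup U) (φ.mapSubgroup W) j (φ.mapSubgroup V) = ind p U W j V :=
    fun U j V => by
      have : Nat.card (φ.mapSubgroup V) = Nat.card V :=
        Subgroup.card_map_of_injective (f := φ.toMonoidHom) φ.injective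
      simp only [ind, OrderIso.le_iff_le, this]
  refine ⟨?_, h U⟩
  induction T generalizing U with
  | nil => rfl
  | cons j T ih =>
    simp only [F]
    rw [ih, ← φ.mapSubgroup.toEquiv.sum_comp]
    congr 1
    exact sum_congr rfl fun V _ => by
      change ind p _ _ j (φ.mapSubgroup V) * F p _ T (φ.mapSubgroup V) = _
      rw [h, ih]

/-- invariance under conjugation -/
def Inv (W : Subgroup G) (w : Subgroup G → ℤ) : Prop :=
  ∀ g ∈ W, ∀ V, w ((MulAut.conj g).mapSubgroup V) = w V

omit [Finite G] hp in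
theorem Inv.phi {W : Subgroup G} {w : Subgroup G → ℤ} (h : Inv W w) (u : ℕ) (T : List ℕ) :
    Inv W fun V => Φ p V u T w := fun g hg V => by
  simp only [Φ]
  rw [← (MulAut.conj g).mapSubgroup.toEquiv.sum_comp]
  refine sum_congr rfl fun U _ => ?_
  change ind p _ _ u ((MulAut.conj g).mapSubgroup U) * (w ((MulAut.conj g).mapSubgroup U) *
    F p _ T ((MulAut.conj g).mapSubgroup U)) = _
  rw [h g hg, (F_map p _ V T U).1, ← (F_map p (MulAut.conj g) V T ⊥).2 u U, map_bot]

theorem orb {K Y : Type*} [Group K] [MulAction K Y] [Fintype Y] (h : Y → ℤ)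
    (hi : ∀ (k : K) y, h (k • y) = h y) (d : ℕ)
    (hd : ∀ y, h y ≠ 0 → d ∣ (MulAction.stabilizer K y).index) : (d : ℤ) ∣ ∑ y, h y := by
  rw [← sum_fiberwise univ (fun y => (Quotient.mk'' y : MulAction.orbitRel.Quotient K Y))]
  refine dvd_sum fun q _ => ?_
  induction q using Quotient.inductionOn' with
  | h y =>
    have h1 : ∀ z ∈ univ.filter fun z => (Quotient.mk'' z : MulAction.orbitRel.Quotient K Y) =
        Quotient.mk'' y, h z = h y := fun z hz => by
      obtain ⟨k, rfl⟩ : z ∈ MulAction.orbit K y := by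
        simpa [MulAction.orbitRel_apply] using Quotient.exact' (mem_filter.1 hz).2
      exact hi k y
    rw [sum_congr rfl h1, sum_const, nsmul_eq_mul]
    by_cases h0 : h y = 0
    · simp [h0]
    · refine Dvd.dvd.mul_right (Int.natCast_dvd_natCast.2 ?_) _
      have := hd y h0
      rw [MulAction.index_stabilizer, Set.ncard_eq_toFinset_card'] at this
      convert this using 2
      ext z
      simp [Quotient.eq'', MulAction.orbitRel_apply]

/-- Moebius inversion over the point stabilisers of an action -/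
theorem moeb (W : Subgroup G) {Y : Type*} [MulAction W Y] [Fintype Y] (u a : ℕ)
    (hY : ∀ y : Y, ∃ s ≤ u + a, Nat.card (MulAction.stabilizer W y) = p ^ s)
    (hW : p ^ (u + a) ∣ Nat.card W) {w : Subgroup G → ℤ} (hw : Inv W w) (c : Subgroup G → ℤ)
    (hc : ∀ V, V ≤ W → c V = Nat.card (MulAction.fixedPoints (V.subgroupOf W) Y)) :
    (p : ℤ) ^ a ∣ Φ p W u [] (fun V => c V * w V) - ∑ i ∈ range a, Φ p W (u + 1 + i) []
      fun V => c V * Φ p V u (List.range' (u + 1) i) w := by
  let S : Y → Subgroup G := fun y => (MulAction.stabilizer W y).map W.subtype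
  have hS : ∀ y, Nat.card (S y) = Nat.card (MulAction.stabilizer W y) := fun y =>
    Subgroup.card_map_of_injective W.subtype_injective
  have key : ∀ j h, ∑ y, Φ p (S y) j [] h = Φ p W j [] fun V => c V * h V := fun j h => by
    simp only [Φ, F, mul_one]
    rw [sum_comm]
    refine sum_congr rfl fun V _ => ?_
    rw [← sum_mul, ← mul_assoc]
    congr 1
    by_cases hV : V ≤ W ∧ Nat.card V = p ^ j
    · rw [hc V hV.1, Nat.card_eq_fintype_card, Fintype.card_subtype, card_filter]
      simp only [ind, bot_le, hV, true_and, and_true, if_true, one_mul]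
      push_cast
      refine sum_congr rfl fun y _ => if_congr ?_ rfl rfl
      rw [MulAction.mem_fixedPoints]
      constructor
      · intro h' ⟨g, hg⟩
        obtain ⟨x, hx, e⟩ := h' (Subgroup.mem_subgroupOf.1 hg)
        obtain rfl : x = g := Subtype.ext e
        exact hx
      · intro h' g hg
        exact ⟨⟨g, hV.1 hg⟩, h' ⟨⟨g, hV.1 hg⟩, hg⟩, rfl⟩
    · have : ∀ y, ind p ⊥ (S y) j V = 0 := fun y =>
        if_neg fun h' => hV ⟨h'.2.1.trans (Subgroup.map_subtype_le _), h'.2.2⟩
      rw [ind, if_neg fun h' => hV h'.2]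
      simp [this]
  simp only [← key]
  rw [sum_comm, ← sum_sub_distrib]
  simp only [← Φ_exp]
  have h2 : ∀ y, Φ p (S y) u (List.range' (u + 1) a) w =
      if Nat.card (S y) = p ^ u then w (S y) else 0 := fun y => by
    obtain ⟨s, h1, h2⟩ := hY y
    rw [Φ_cone p ((hS y).trans h2) u a h1, hS, h2]
    exact if_congr (Nat.pow_right_injective hp.out.two_le).eq_iff.symm rfl rfl
  simp only [h2]
  have := orb (K := W) (fun y => if Nat.card (S y) = p ^ u then w (S y) else 0) (fun k y => by
    have e : S (k • y) = (MulAut.conj (k : G)).mapSubgroup (S y) := by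
      simp only [S, MulAction.stabilizer_smul_eq_stabilizer_map_conj]
      change _ = Subgroup.map _ _
      rw [Subgroup.map_map, Subgroup.map_map]
      rfl
    have e' : Nat.card (S (k • y)) = Nat.card (S y) := by
      rw [e]
      exact Subgroup.card_map_of_injective (f := (MulAut.conj (k : G)).toMonoidHom)
        (MulAut.conj (k : G)).injective
    simp only [e']
    rw [e, hw _ k.2]) (p ^ a) fun y hy => by
      have h3 : Nat.card (S y) = p ^ u := by
        by_contra h3
        exact hy (if_neg h3)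
      rw [← (MulAction.stabilizer W y).card_mul_index, ← hS, h3, pow_add] at hW
      exact Nat.dvd_of_mul_dvd_mul_left (pow_pos hp.out.pos _) hW
  exact_mod_cast this

omit [Finite G] hp in
theorem dvd_Φ {d : ℤ} {W : Subgroup G} {j : ℕ} {h : Subgroup G → ℤ}
    (H : ∀ V, V ≤ W → Nat.card V = p ^ j → d ∣ h V) : d ∣ Φ p W j [] h := by
  refine dvd_sum fun V _ => ?_
  rw [ind]
  split_ifs with h'
  · simpa [F] using H V h'.2.1 h'.2.2
  · simp

omit [Finite G] hp in
theorem Φ_sub (W : Subgroup G) (j : ℕ) (T : List ℕ) (h h' : Subgroup G → ℤ) :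
    Φ p W j T h - Φ p W j T h' = Φ p W j T fun V => h V - h' V := by
  simp only [Φ, ← sum_sub_distrib]
  exact sum_congr rfl fun V _ => by ring

theorem brown (W : Subgroup G) (u a : ℕ) (ht : (Nat.card W).factorization p = u + a)
    {w : Subgroup G → ℤ} (hw : Inv W w) : (p : ℤ) ^ a ∣ Φ p W u (List.range' (u + 1) a) w := by
  obtain ⟨P⟩ : Nonempty (Sylow p W) := inferInstance
  have hP : Nat.card P = p ^ (u + a) := by rw [P.card_eq_multiplicity, ht]
  obtain ⟨n, hn, hn0⟩ : ∃ n, n = Nat.totient (p ^ a) ∧ 0 < n :=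
    ⟨_, rfl, Nat.totient_pos.2 (pow_pos hp.out.pos _)⟩
  letI := Fintype.ofFinite (Fin n → W ⧸ (P : Subgroup W))
  have h1 := moeb p W (Y := Fin n → W ⧸ (P : Subgroup W)) u a (fun y => by
    obtain ⟨g, hg⟩ := QuotientGroup.mk_surjective (y ⟨0, hn0⟩)
    have h2 : MulAction.stabilizer W y ≤ MulAction.stabilizer W (g • ((1 : W) : W ⧸ (P : Subgroup W))) :=
      fun k hk => by
        have := congrFun (MulAction.mem_stabilizer_iff.1 hk) ⟨0, hn0⟩
        rw [Pi.smul_apply, ← hg] at this
        simpa [MulAction.mem_stabilizer_iff] using this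
    have h3 := Subgroup.card_dvd_of_le h2
    rw [MulAction.stabilizer_smul_eq_stabilizer_map_conj, MulAction.stabilizer_quotient,
      Subgroup.card_map_of_injective (MulAut.conj g).injective, hP] at h3
    exact (Nat.dvd_prime_pow hp.out).1 h3) (hP ▸ Subgroup.card_subgroup_dvd_card _) hw _
    fun V _ => rfl
  have h2 : ∀ j (V : Subgroup G), V ≤ W → Nat.card V = p ^ j → (p : ℤ) ^ a ∣
      (Nat.card (MulAction.fixedPoints (V.subgroupOf W) (Fin n → W ⧸ (P : Subgroup W))) : ℤ) - 1 := by
    intro j V hV e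
    have h3 : IsPGroup p (V.subgroupOf W) :=
      .of_card ((Nat.card_congr (Subgroup.subgroupOfEquivOfLe hV).toEquiv).trans e)
    have h4 := h3.card_modEq_card_fixedPoints (W ⧸ (P : Subgroup W))
    have h5 : Nat.Coprime (Nat.card (MulAction.fixedPoints (V.subgroupOf W) (W ⧸ (P : Subgroup W))))
        (p ^ a) := by
      refine Nat.Coprime.pow_right _ ((Nat.Prime.coprime_iff_not_dvd hp.out).2 fun h => ?_).symm
      exact P.not_dvd_index ((h4.dvd_iff dvd_rfl).2 h)
    have h6 : Nat.card (MulAction.fixedPoints (V.subgroupOf W) (Fin n → W ⧸ (P : Subgroup W))) =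
        Nat.card (MulAction.fixedPoints (V.subgroupOf W) (W ⧸ (P : Subgroup W))) ^ n := by
      rw [← Nat.card_fin n, ← Nat.card_fun, Nat.card_fin]
      exact Nat.card_congr
        { toFun := fun f i => ⟨f.1 i, fun k => congrFun (f.2 k) i⟩
          invFun := fun f => ⟨fun i => (f i).1, fun k => funext fun i => (f i).2 k⟩
          left_inv := fun _ => rfl
          right_inv := fun _ => rfl }
    have h7 := (Nat.ModEq.pow_totient h5).symm.dvd
    rw [h6, hn]
    exact_mod_cast h7
  obtain ⟨c, hc⟩ : ∃ c : Subgroup G → ℤ, ∀ V : Subgroup G,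
      (Nat.card (MulAction.fixedPoints (V.subgroupOf W) (Fin n → W ⧸ (P : Subgroup W))) : ℤ) = c V :=
    ⟨_, fun _ => rfl⟩
  simp only [hc] at h1 h2
  have h3 : ∀ j h, (p : ℤ) ^ a ∣ Φ p W j [] (fun V => c V * h V) - Φ p W j [] h := fun j h => by
    rw [Φ_sub]
    refine dvd_Φ p fun V hV e => ?_
    rw [← sub_one_mul]
    exact (h2 j V hV e).mul_right _
  have h4 := dvd_sub (dvd_sub h1 (h3 u w)) (dvd_neg.2 (dvd_sum fun i (_ : i ∈ range a) =>
    h3 (u + 1 + i) fun V => Φ p V u (List.range' (u + 1) i) w))
  rw [Φ_exp]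
  rw [sum_sub_distrib] at h4
  exact h4.trans (dvd_of_eq (by ring))

theorem mu (u a : ℕ) : ∀ (W : Subgroup G), Nat.card W = p ^ (u + 1 + a) → ∀ {w : Subgroup G → ℤ},
    Inv W w → (p : ℤ) ^ a ∣ Φ p W u (List.range' (u + 1) a) w := by
  induction a using Nat.strong_induction_on with
  | _ a ih =>
    intro W hW w hw
    letI : MulAction W (W → Fin p) := arrowAction
    letI := Fintype.ofFinite (W → Fin p)
    have h1 := moeb p W (Y := W → Fin p) u (a + 1) (fun y => by
      have := Subgroup.card_subgroup_dvd_card (MulAction.stabilizer W y)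
      rw [hW, show u + 1 + a = u + (a + 1) by ring] at this
      exact (Nat.dvd_prime_pow hp.out).1 this) (by rw [hW]; exact pow_dvd_pow _ (by omega)) hw
      (fun V => p ^ (V.subgroupOf W).index) fun V _ => by
        have : Nat.card (MulAction.fixedPoints (V.subgroupOf W) (W → Fin p)) =
            Nat.card (W ⧸ V.subgroupOf W → Fin p) := Nat.card_congr
          { toFun := fun f => Quotient.lift (fun x => f.1 x⁻¹) fun x y h => by
              have h' := QuotientGroup.leftRel_apply.1 h
              have := congrFun (f.2 ⟨_, h'⟩) x⁻¹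
              rw [← this]
              change f.1 ((x⁻¹ * y)⁻¹ * x⁻¹) = _
              simp
            invFun := fun f => ⟨fun x => f (x⁻¹ : W), fun k => funext fun x => by
              change f (((k : W)⁻¹ * x)⁻¹ : W) = f (x⁻¹ : W)
              congr 1
              rw [QuotientGroup.eq]
              simpa using k.2⟩
            left_inv := fun f => Subtype.ext (funext fun x => by simp)
            right_inv := fun f => funext fun q => by
              induction q using Quotient.inductionOn' with
              | h x => simp }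
        rw [this, Nat.card_fun, Nat.card_fin]
        norm_cast
    have hi : ∀ j k (V : Subgroup G), V ≤ W → Nat.card V = p ^ j → j + k = u + 1 + a →
        (V.subgroupOf W).index = p ^ k := fun j k V hV e h => by
      have h2 := (V.subgroupOf W).card_mul_index
      rw [Nat.card_congr (Subgroup.subgroupOfEquivOfLe hV).toEquiv, e, hW, ← h, pow_add] at h2
      exact Nat.eq_of_mul_eq_mul_left (pow_pos hp.out.pos _) h2
    rw [sum_range_succ, Φ_top p hW le_rfl, if_pos rfl, Subgroup.subgroupOf_self, Subgroup.index_top,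
      pow_one, ← sub_sub] at h1
    have h2 : (p : ℤ) ^ (a + 1) ∣ Φ p W u [] fun V => p ^ (V.subgroupOf W).index * w V :=
      dvd_Φ p fun V hV e => by
        rw [hi u (a + 1) V hV e (by ring)]
        exact (pow_dvd_pow _ (Nat.lt_pow_self hp.out.one_lt).le).mul_right _
    have h3 := dvd_sum fun i (hi' : i ∈ range a) => (dvd_Φ p (d := (p : ℤ) ^ (a + 1)) (W := W)
      (j := u + 1 + i) (h := fun V => p ^ (V.subgroupOf W).index * Φ p V u (List.range' (u + 1) i) w)
      fun V hV e => by
        have h4 := mem_range.1 hi'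
        rw [hi _ (a - i) V hV e (by omega), show a + 1 = (a - i + 1) + i by omega, pow_add]
        exact mul_dvd_mul (pow_dvd_pow _ (Nat.lt_pow_self hp.out.one_lt))
          (ih i h4 V e fun g hg => hw g (hV hg)))
    have h4 := (dvd_sub_right (dvd_sub h2 h3)).1 h1
    rw [pow_succ'] at h4
    exact (mul_dvd_mul_iff_left (by exact_mod_cast hp.out.ne_zero)).1 h4

theorem main (W : Subgroup G) (k : ℕ) : ∀ (u a : ℕ) (H : List ℕ) {w : Subgroup G → ℤ},
    (Nat.card W).factorization p = u + a + k → H.Pairwise (· < ·) →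
    (∀ j ∈ H, u + a < j ∧ j ≤ u + a + k) → Inv W w →
    (p : ℤ) ^ (a + H.length) ∣ Φ p W u (List.range' (u + 1) a ++ H) w := by
  induction k using Nat.strong_induction_on with
  | _ k ih =>
    intro u a H w ht hs hH hw
    cases k with
    | zero =>
      cases H with
      | nil => simpa using brown p W u a ht hw
      | cons j H => have := hH j (by simp); omega
    | succ k =>
      have h1 : ∀ H' : List ℕ, H'.Pairwise (· < ·) → (∀ j ∈ H', u + a + 1 < j ∧ j ≤ u + a + (k + 1)) →
          (p : ℤ) ^ (a + 1 + H'.length) ∣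
            Φ p W u (List.range' (u + 1) a ++ (u + 1 + a) :: H') w := fun H' h1 h2 => by
        have := ih k (by omega) u (a + 1) H' (by omega) h1 (fun j hj => by have := h2 j hj; omega) hw
        simpa [List.range'_concat] using this
      by_cases hm : ∀ j ∈ H, u + a + 1 < j
      · have h2 := h1 H hs fun j hj => ⟨hm j hj, (hH j hj).2⟩
        rw [Φ_ins] at h2
        have h3 := ih k (by omega) (u + 1 + a) 0 H (w := fun V =>
          Φ p V u (List.range' (u + 1) a) w / p ^ a) (by omega) hs
          (fun j hj => by have := hm j hj; have := hH j hj; omega)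
          fun g hg V => congrArg (· / (p : ℤ) ^ a) (hw.phi p u _ g hg V)
        have h4 : (Φ p W (u + 1 + a) H fun V => Φ p V u (List.range' (u + 1) a) w) =
            p ^ a * Φ p W (u + 1 + a) H fun V => Φ p V u (List.range' (u + 1) a) w / p ^ a := by
          rw [Φ, Φ, mul_sum]
          refine sum_congr rfl fun V _ => ?_
          rw [ind]
          split_ifs with h'
          · have := Int.mul_ediv_cancel' (mu p u a V h'.2.2 fun g hg => hw g (h'.2.1 hg))
            rw [one_mul, one_mul, ← mul_assoc, this]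
          · simp
        rw [h4] at h2
        refine (dvd_sub_left ?_).1 ((pow_dvd_pow _ (by omega)).trans h2)
        rw [pow_add]
        exact mul_dvd_mul_left _ (by simpa using h3)
      · push Not at hm
        obtain ⟨j, hj, hj'⟩ := hm
        cases H with
        | nil => simp at hj
        | cons i H =>
          rw [List.pairwise_cons] at hs
          have h2 := hH i (by simp)
          obtain rfl : i = u + 1 + a := by
            rcases List.mem_cons.1 hj with rfl | hj
            · omega
            · have := hs.1 j hj; omega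
          have := h1 H hs.2 fun j hj => ⟨by have := hs.1 j hj; omega, (hH j (by simp [hj])).2⟩
          rwa [List.length_cons, ← add_assoc, add_right_comm]

theorem F_bot (T : List ℕ) (hs : T.Pairwise (· < ·))
    (hT : ∀ j ∈ T, j ≤ (Nat.card G).factorization p) : (p : ℤ) ^ T.length ∣ F p ⊤ T (⊥ : Subgroup G) := by
  have h0 : ∀ h : Subgroup G → ℤ, ∑ V, ind p ⊥ ⊤ 0 V * h V = h ⊥ := fun h => by
    rw [sum_eq_single ⊥]
    · simp [ind]
    · intro V _ hV
      simp [ind, hV]
    · simp
  by_cases h : 0 ∈ T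
  · cases T with
    | nil => simp
    | cons i T =>
      obtain rfl : i = 0 := by
        rcases List.mem_cons.1 h with rfl | h
        · rfl
        · have := (List.pairwise_cons.1 hs).1 0 h; omega
      simp [F, h0]
  · have := main p (⊤ : Subgroup G) ((Nat.card G).factorization p) 0 0 T (w := fun _ => 1) (by simp) hs
      (fun j hj => ⟨Nat.pos_of_ne_zero fun e => h (e ▸ hj), by simpa using hT j hj⟩) fun _ _ _ => rfl
    simpa [Φ, h0] using this

end Pool.Agent.H70.Chain
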