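import Mathlib

/-! Counting chains of subgroups with prescribed prime power orders. -/

namespace Pool.Agent.H70.Chain

/-- `N(s - I)`: the number of families `(U c)` of subgroups indexed by `c ∈ I`, with
`|U c| = p ^ (s - c)` and `U c ≤ U d` whenever `d ≤ c`. -/
noncomputable def N (G : Type*) [Group G] (p s : ℕ) (I : Finset ℕ) : ℕ :=
  Nat.card {U : I → Subgroup G //
    (∀ c d : I, d ≤ c → U c ≤ U d) ∧ ∀ c : I, Nat.card (U c) = p ^ (s - c)}

/-- `S_J(G)`: the alternating sum of `N(s - I)` over the nonempty subsets `I` of `J`. -/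
noncomputable def S (G : Type*) [Group G] (p s : ℕ) (J : Finset ℕ) : ℤ :=
  ∑ I ∈ J.powerset.erase ∅, (-1) ^ (I.card + 1) * (N G p s I : ℤ)

end Pool.Agent.H70.Chain
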