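import Pool.Agent.H70.Chain1
import Pool.Agent.H70.ChainDefs

namespace Pool.Agent.H70.Chain

open Classical Finset

variable {G : Type*} [Group G] [Fintype (Subgroup G)] (p s : ℕ)

/-- chains above `A` -/
abbrev Ch (A : Subgroup G) (I : Finset ℕ) := {U : I → Subgroup G // (∀ c, A ≤ U c) ∧
    (∀ c d : I, d ≤ c → U c ≤ U d) ∧ ∀ c : I, Nat.card (U c) = p ^ (s - c)}

omit [Fintype (Subgroup G)] in
theorem ch_empty (A : Subgroup G) : Nat.card (Ch p s A ∅) = 1 :=
  Nat.card_eq_one_iff_unique.2 ⟨⟨fun _ _ => Subtype.ext (funext fun d => absurd d.2 (notMem_empty _))⟩,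
    ⟨⟨fun _ => ⊥, by simp⟩⟩⟩

theorem ch_insert (A : Subgroup G) (I : Finset ℕ) (c : ℕ) (hc : ∀ x ∈ I, x < c) :
    (Nat.card (Ch p s A (insert c I)) : ℤ) = ∑ V, ind p A ⊤ (s - c) V * Nat.card (Ch p s V I) := by
  have hn : c ∉ I := fun h => lt_irrefl _ (hc c h)
  have e : Ch p s A (insert c I) ≃
      Σ V : {V : Subgroup G // A ≤ V ∧ V ≤ ⊤ ∧ Nat.card V = p ^ (s - c)}, Ch p s V.1 I :=
    { toFun := fun U => ⟨⟨U.1 ⟨c, mem_insert_self _ _⟩, U.2.1 _, le_top, U.2.2.2 _⟩,
        fun d => U.1 ⟨d, mem_insert_of_mem d.2⟩, fun d => U.2.2.1 _ _ (hc d d.2).le,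
        fun d d' h => U.2.2.1 _ _ h, fun d => U.2.2.2 _⟩
      invFun := fun V => ⟨fun d => if h : d.1 ∈ I then V.2.1 ⟨d, h⟩ else V.1.1, fun d => by
          dsimp only
          split_ifs
          exacts [V.1.2.1.trans (V.2.2.1 _), V.1.2.1], fun d d' h => by
          dsimp only
          split_ifs with h1 h2 h2
          · exact V.2.2.2.1 _ _ h
          · have := (mem_insert.1 d'.2).resolve_right h2
            have := hc _ h1
            have : d'.1 ≤ d.1 := h
            omega
          · exact V.2.2.1 _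
          · exact le_rfl, fun d => by
          dsimp only
          split_ifs with h1
          · exact V.2.2.2.2 _
          · rw [(mem_insert.1 d.2).resolve_right h1]
            exact V.1.2.2.2⟩
      left_inv := fun U => Subtype.ext (funext fun d => by
        dsimp only
        split_ifs with h1
        · rfl
        · exact congrArg U.1 (Subtype.ext ((mem_insert.1 d.2).resolve_right h1).symm))
      right_inv := fun ⟨⟨V, hV⟩, U, hU⟩ => by
        have h1 : (⟨if h : c ∈ I then U ⟨c, h⟩ else V, by rwa [dif_neg hn]⟩ :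
            {V : Subgroup G // A ≤ V ∧ V ≤ ⊤ ∧ Nat.card V = p ^ (s - c)}) = ⟨V, hV⟩ :=
          Subtype.ext (dif_neg hn)
        refine Sigma.ext h1 ?_
        refine (Subtype.heq_iff_coe_eq fun x => by simp [hn]).2 ?_
        funext d
        simp }
  rw [Nat.card_congr e, Nat.card_sigma, Nat.cast_sum]
  simp only [ind, ite_mul, one_mul, zero_mul]
  rw [← sum_filter]
  exact (sum_subtype _ (by simp) fun V => (Nat.card (Ch p s V I) : ℤ)).symm

theorem ex_list (J : Finset ℕ) (hJ : ∀ c ∈ J, c ≤ s) : ∃ T : List ℕ, T.length = J.card ∧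
    T.Pairwise (· < ·) ∧ (∀ j ∈ T, ∃ c ∈ J, j = s - c) ∧ ∀ A : Subgroup G,
    ∑ I ∈ J.powerset, (-1) ^ I.card * (Nat.card (Ch p s A I) : ℤ) = F p ⊤ T A := by
  induction J using Finset.induction_on_max with
  | empty => exact ⟨[], rfl, .nil, by simp, fun A => by rw [powerset_empty, sum_singleton, ch_empty]; simp [F]⟩
  | insert c J hc ih =>
    have hn : c ∉ J := fun h => lt_irrefl _ (hc c h)
    obtain ⟨T, h1, h2, h3, h4⟩ := ih fun d hd => hJ d (mem_insert_of_mem hd)
    refine ⟨(s - c) :: T, by simp [h1, hn], List.pairwise_cons.2 ⟨fun j hj => ?_, h2⟩,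
      fun j hj => ?_, fun A => ?_⟩
    · obtain ⟨d, hd, rfl⟩ := h3 j hj
      have := hc d hd
      have := hJ c (mem_insert_self _ _)
      omega
    · rcases List.mem_cons.1 hj with rfl | hj
      · exact ⟨c, mem_insert_self _ _, rfl⟩
      · obtain ⟨d, hd, e⟩ := h3 j hj
        exact ⟨d, mem_insert_of_mem hd, e⟩
    · rw [sum_powerset_insert hn, h4, F, sub_eq_add_neg]
      congr 1
      simp only [← h4, mul_sum]
      rw [sum_comm, ← sum_neg_distrib]
      refine sum_congr rfl fun I hI => ?_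
      have hI' := mem_powerset.1 hI
      rw [card_insert_of_notMem fun h => hn (hI' h), ch_insert p s A I c fun x hx => hc x (hI' hx),
        mul_sum, ← sum_neg_distrib]
      exact sum_congr rfl fun V _ => by ring

omit [Fintype (Subgroup G)] in
theorem final [Finite G] (hp : p.Prime) (hs : s ≤ (Nat.card G).factorization p) (J : Finset ℕ)
    (hJ : ∀ c ∈ J, c ≤ s) : S G p s J ≡ 1 [ZMOD (p : ℤ) ^ J.card] := by
  haveI := Fact.mk hp
  letI := Fintype.ofFinite (Subgroup G)
  obtain ⟨T, h1, h2, h3, h4⟩ := ex_list (G := G) p s J hJ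
  have h5 := F_bot (G := G) p T h2 fun j hj => by
    obtain ⟨c, -, rfl⟩ := h3 j hj
    omega
  rw [← h4, h1, ← add_sum_erase _ _ (empty_mem_powerset J)] at h5
  refine Int.modEq_iff_dvd.2 (h5.trans (dvd_of_eq ?_))
  rw [S, sub_eq_add_neg, ← sum_neg_distrib]
  congr 1
  · rw [ch_empty]; simp
  · refine sum_congr rfl fun I _ => ?_
    have : Nat.card (Ch p s (⊥ : Subgroup G) I) = N G p s I :=
      Nat.card_congr (Equiv.subtypeEquivRight fun U => by simp)
    rw [this]
    ring

end Pool.Agent.H70.Chain
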