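import Mathlib

set_option autoImplicit false

namespace Pool.Agent.H70.CommDefs

/-- The commuting graph of `G`: vertices are the non-central elements, two distinct vertices being
adjacent when they commute. -/
def commGraph (G : Type) [Group G] : SimpleGraph {x : G // x ∉ Subgroup.center G} where
  Adj x y := x ≠ y ∧ x.1 * y.1 = y.1 * x.1
  symm := ⟨fun _ _ h => ⟨h.1.symm, h.2.symm⟩⟩
  loopless := ⟨fun _ h => h.1 rfl⟩

end Pool.Agent.H70.CommDefs
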