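import Pool.Agent.H70.CommDefs

set_option autoImplicit false

namespace Pool.Agent.H70.CommPGL

open Pool.Agent.H70.CommDefs Matrix

variable {p : ℕ} [Fact p.Prime]

def sh (a l : ZMod p) : ZMod p := if Even l.val then a else a - 1

def col (t x b c : ZMod p) : ZMod p :=
  if b ≠ 0 then t / b + sh (x / b) ((x / b) ^ 2 + c / b)
  else if x ≠ 0 then t / x + (1 - c / x / 2) else t / c

theorem col_smul {u : ZMod p} (hu : u ≠ 0) (t x b c : ZMod p) :
    col (u * t) (u * x) (u * b) (u * c) = col t x b c := by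
  simp [col, hu, mul_div_mul_left _ _ hu]

theorem col_inj {t t' x b c : ZMod p} (h0 : ¬ (x = 0 ∧ b = 0 ∧ c = 0))
    (h : col t x b c = col t' x b c) : t = t' := by
  unfold col at h
  split_ifs at h with h1 h2
  · simpa [h1] using h
  · simpa [h2] using h
  · have : c ≠ 0 := fun hc => h0 ⟨by simpa using h2, by simpa using h1, hc⟩
    simpa [this] using h

theorem sh_ne (hp : Odd p) {a a' l l' : ZMod p} (hl : l ≠ 0) (hl' : l' ≠ 0)
    (h : l + l' = (a - a') ^ 2) : sh a l ≠ sh a' l' := by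
  have h1 := ZMod.val_lt l
  have h2 := ZMod.val_lt l'
  have h3 : 0 < l.val := ZMod.val_pos.2 hl
  have h4 : 0 < l'.val := ZMod.val_pos.2 hl'
  have hv := ZMod.val_add l l'
  have hp1 : 1 < p := (Fact.out : p.Prime).one_lt
  have hm : (l.val + l'.val) % p = l.val + l'.val ∨ (l.val + l'.val) % p + p = l.val + l'.val := by
    by_cases hh : l.val + l'.val < p
    · exact Or.inl (Nat.mod_eq_of_lt hh)
    · right
      rw [Nat.mod_eq_sub_mod (by omega), Nat.mod_eq_of_lt (by omega)]
      omega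
  obtain ⟨k, hk⟩ := hp
  intro e
  unfold sh at e
  split_ifs at e with e1 e2 e2
  · rw [h, e, sub_self, zero_pow two_ne_zero, ZMod.val_zero] at hv
    rw [Nat.even_iff] at e1 e2; omega
  · rw [h, e, show (a' - 1 - a') ^ 2 = 1 by ring, ZMod.val_one] at hv
    rw [Nat.even_iff] at e1 e2; omega
  · rw [h, ← e, show (a - (a - 1)) ^ 2 = 1 by ring, ZMod.val_one] at hv
    rw [Nat.even_iff] at e1 e2; omega
  · rw [h, sub_left_inj.1 e, sub_self, zero_pow two_ne_zero, ZMod.val_zero] at hv
    rw [Nat.even_iff] at e1 e2; omega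

theorem two_ne (hp : Odd p) : (2 : ZMod p) ≠ 0 := by
  intro h
  have : p ∣ 2 := (ZMod.natCast_eq_zero_iff 2 p).1 (by exact_mod_cast h)
  have h2 := (Nat.prime_dvd_prime_iff_eq Fact.out Nat.prime_two).1 this
  rw [h2] at hp
  exact absurd hp (by decide)

theorem orth_aux (hp : Odd p) {x b c x' c' : ZMod p} (hb : b ≠ 0) (hx : x' ≠ 0)
    (h : 2 * x * x' + b * c' = 0) : col 0 x b c ≠ col 0 x' 0 c' := by
  have h2 := two_ne hp
  have e : c' / x' / 2 = -(x / b) := by
    field_simp
    linear_combination h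
  simp only [col, hb, hx, ne_eq, not_false_eq_true, if_true, not_true_eq_false, if_false,
    zero_div, zero_add, e, sh]
  split_ifs
  · intro h'
    exact one_ne_zero (by linear_combination -h')
  · intro h'
    exact h2 (by linear_combination -h')

theorem orth (hp : Odd p) {x b c x' b' c' : ZMod p} (h1 : x ^ 2 + b * c ≠ 0)
    (h2 : x' ^ 2 + b' * c' ≠ 0) (h : 2 * x * x' + b * c' + b' * c = 0) :
    col 0 x b c ≠ col 0 x' b' c' := by
  by_cases hb : b = 0 <;> by_cases hb' : b' = 0
  · subst hb hb'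
    have := two_ne hp
    simp_all
  · subst hb
    exact (orth_aux hp hb' (by simpa using h1) (by linear_combination h)).symm
  · subst hb'
    exact orth_aux hp hb (by simpa using h2) (by linear_combination h)
  · simp only [col, hb, hb', ne_eq, not_false_eq_true, if_true, zero_div, zero_add]
    refine sh_ne hp (fun e => h1 ?_) (fun e => h2 ?_) ?_
    · field_simp at e; linear_combination e
    · field_simp at e; linear_combination e
    · field_simp; linear_combination b * b' * h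

theorem par {x b c x' b' c' : ZMod p} (h0 : ¬ (x = 0 ∧ b = 0 ∧ c = 0))
    (h0' : ¬ (x' = 0 ∧ b' = 0 ∧ c' = 0)) (h1 : x * b' = x' * b) (h2 : x * c' = x' * c)
    (h3 : b * c' = b' * c) : ∃ u : ZMod p, u ≠ 0 ∧ x' = u * x ∧ b' = u * b ∧ c' = u * c := by
  have : ∃ u : ZMod p, x' = u * x ∧ b' = u * b ∧ c' = u * c := by
    by_cases hx : x = 0
    · by_cases hb : b = 0
      · have hc : c ≠ 0 := fun hc => h0 ⟨hx, hb, hc⟩
        refine ⟨c' / c, ?_, ?_, ?_⟩ <;> field_simp
        · linear_combination -h2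
        · linear_combination -h3
      · refine ⟨b' / b, ?_, ?_, ?_⟩ <;> field_simp
        · linear_combination -h1
        · linear_combination h3
    · refine ⟨x' / x, ?_, ?_, ?_⟩ <;> field_simp
      · linear_combination h1
      · linear_combination h2
  obtain ⟨u, e1, e2, e3⟩ := this
  exact ⟨u, fun hu => h0' (by simp [e1, e2, e3, hu]), e1, e2, e3⟩

theorem core (hp : Odd p) {t x b c t' x' b' c' u : ZMod p} (h0 : ¬ (x = 0 ∧ b = 0 ∧ c = 0))
    (h0' : ¬ (x' = 0 ∧ b' = 0 ∧ c' = 0)) (hd : t ^ 2 - (x ^ 2 + b * c) ≠ 0)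
    (hd' : t' ^ 2 - (x' ^ 2 + b' * c') ≠ 0)
    (e1 : ((t + x) * (t' + x') + b * c') * u = (t' + x') * (t + x) + b' * c)
    (e2 : ((t + x) * b' + b * (t' - x')) * u = (t' + x') * b + b' * (t - x))
    (e3 : (c * (t' + x') + (t - x) * c') * u = c' * (t + x) + (t' - x') * c)
    (e4 : (c * b' + (t - x) * (t' - x')) * u = c' * b + (t' - x') * (t - x))
    (h : col t x b c = col t' x' b' c') :
    ∃ v : ZMod p, v ≠ 0 ∧ t' = v * t ∧ x' = v * x ∧ b' = v * b ∧ c' = v * c := by
  have h2 := two_ne hp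
  have hu : (u - 1) * (u + 1) = 0 := by
    refine mul_left_cancel₀ (mul_ne_zero hd hd') ?_
    linear_combination ((c * b' + (t - x) * (t' - x')) * u) * e1 +
      ((t' + x') * (t + x) + b' * c) * e4 - ((c * (t' + x') + (t - x) * c') * u) * e2 -
      ((t' + x') * b + b' * (t - x)) * e3
  rcases mul_eq_zero.1 hu with hu | hu
  · obtain rfl : u = 1 := by linear_combination hu
    obtain ⟨v, hv, rfl, rfl, rfl⟩ := par h0 h0' (mul_left_cancel₀ h2 (by linear_combination e2))
      (mul_left_cancel₀ h2 (by linear_combination -e3)) (by linear_combination e1)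
    rw [← col_smul hv] at h
    exact ⟨v, hv, (col_inj h0' h).symm, rfl, rfl, rfl⟩
  · obtain rfl : u = -1 := by linear_combination hu
    have ht : t = 0 := by
      refine mul_left_cancel₀ (mul_ne_zero (mul_ne_zero h2 h2) hd') ?_
      linear_combination -(t' - x') * e1 + c' * e2 + b' * e3 - (t' + x') * e4
    have ht' : t' = 0 := by
      refine mul_left_cancel₀ (mul_ne_zero (mul_ne_zero h2 h2) hd) ?_
      linear_combination -(t - x) * e1 + c * e2 + b * e3 - (t + x) * e4
    subst ht ht'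
    exact absurd h (orth hp (fun e => hd (by linear_combination -e))
      (fun e => hd' (by linear_combination -e)) (by linear_combination -e1))

abbrev P (p : ℕ) := ProjGenLinGroup (Fin 2) (ZMod p)

theorem coords (hp : Odd p) (A : GL (Fin 2) (ZMod p)) : ∃ t x b c : ZMod p,
    A.1 = !![t + x, b; c, t - x] := by
  have h2 := two_ne hp
  refine ⟨(A.1 0 0 + A.1 1 1) / 2, (A.1 0 0 - A.1 1 1) / 2, A.1 0 1, A.1 1 0, ?_⟩
  ext i j
  fin_cases i <;> fin_cases j <;> simp <;> field_simp <;> ring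

theorem comm_iff (A B : GL (Fin 2) (ZMod p))
    (h : ProjGenLinGroup.mk A * ProjGenLinGroup.mk B =
      ProjGenLinGroup.mk B * ProjGenLinGroup.mk A) :
    ∃ u : ZMod p, ∀ i j, (A.1 * B.1) i j * u = (B.1 * A.1) i j := by
  rw [← map_mul, ← map_mul, ProjGenLinGroup.mk_eq_mk_iff] at h
  obtain ⟨u, hu⟩ := h
  refine ⟨u, fun i j => ?_⟩
  have := congrArg (fun g : GL (Fin 2) (ZMod p) => g.1 i j) hu
  simpa using this

theorem ex_col (hp : Odd p) : ∃ f : P p → ZMod p,
    ∀ g h : P p, g ≠ 1 → h ≠ 1 → g * h = h * g → f g = f h → g = h := by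
  choose r hr using ProjGenLinGroup.mk_surjective (n := Fin 2) (R := ZMod p)
  choose t x b c hA using coords hp
  have ns : ∀ g : P p, g ≠ 1 → ¬ (x (r g) = 0 ∧ b (r g) = 0 ∧ c (r g) = 0) := by
    rintro g hg ⟨h1, h2, h3⟩
    apply hg
    rw [← hr g, ProjGenLinGroup.mk_eq_one, GeneralLinearGroup.mem_center_iff_val_mem_range_scalar]
    refine ⟨t (r g), ?_⟩
    rw [hA, h1, h2, h3]
    ext i j
    fin_cases i <;> fin_cases j <;> simp
  have nd : ∀ A, t A ^ 2 - (x A ^ 2 + b A * c A) ≠ 0 := by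
    intro A e
    apply A.det_ne_zero
    rw [hA, Matrix.det_fin_two_of]
    linear_combination e
  refine ⟨fun g => col (t (r g)) (x (r g)) (b (r g)) (c (r g)), fun g h hg hh e e' => ?_⟩
  obtain ⟨u, hu⟩ := comm_iff (r g) (r h) (by rw [hr, hr, e])
  rw [hA (r g), hA (r h)] at hu
  obtain ⟨v, hv, e1, e2, e3, e4⟩ := core hp (u := u) (ns g hg) (ns h hh) (nd _) (nd _)
    (by simpa using hu 0 0) (by simpa using hu 0 1) (by simpa using hu 1 0)
    (by simpa using hu 1 1) e'
  rw [← hr g, ← hr h, ProjGenLinGroup.mk_eq_mk_iff]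
  refine ⟨Units.mk0 v hv, Units.ext ?_⟩
  rw [Units.val_mul, hA (r g), hA (r h), e1, e2, e3, e4]
  ext i j
  fin_cases i <;> fin_cases j <;> simp <;> ring

theorem ex_clique (hp : Odd p) : ∃ f : ZMod p → P p, Function.Injective f ∧
    (∀ s t, f s * f t = f t * f s) ∧ ∀ t, ∃ g, g * f t ≠ f t * g := by
  obtain ⟨δ, hδ⟩ := FiniteField.exists_nonsquare (F := ZMod p) (by
    rw [ZMod.ringChar_zmod_n]; rintro rfl; exact absurd hp (by decide))
  have h0 : δ ≠ 0 := fun e => hδ (e ▸ IsSquare.zero)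
  have hd : ∀ t : ZMod p, (!![t, 1; δ, t]).det ≠ 0 := by
    intro t e
    rw [Matrix.det_fin_two_of] at e
    exact hδ ⟨t, by linear_combination -e⟩
  refine ⟨fun t => ProjGenLinGroup.mk (GeneralLinearGroup.mkOfDetNeZero _ (hd t)), ?_, ?_, ?_⟩
  · intro s t e
    obtain ⟨u, hu⟩ := ProjGenLinGroup.mk_eq_mk_iff.1 e
    have e1 := congrArg (fun g : GL (Fin 2) (ZMod p) => g.1 0 0) hu
    have e2 := congrArg (fun g : GL (Fin 2) (ZMod p) => g.1 0 1) hu
    simp at e1 e2
    simpa [e2] using e1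
  · intro s t
    rw [← map_mul, ← map_mul]
    congr 1
    ext i j
    fin_cases i <;> fin_cases j <;> simp [Matrix.mul_apply, Fin.sum_univ_two] <;> ring
  · intro t
    refine ⟨ProjGenLinGroup.mk (GeneralLinearGroup.mkOfDetNeZero !![1, 1; 0, 1] (by simp)),
      fun e => ?_⟩
    obtain ⟨u, hu⟩ := comm_iff _ _ e
    have e1 := hu 0 0
    have e2 := hu 1 0
    simp [Matrix.mul_apply, Fin.sum_univ_two, h0] at e1 e2
    simp [e2, h0] at e1

theorem main (n : ℕ) (hn : 0 < n) : ∃ (G : Type) (_ : Group G), Finite G ∧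
    (∃ x y : G, x * y ≠ y * x) ∧ (commGraph G).cliqueNum = 2 * n + 1 ∧
    (commGraph G).chromaticNumber = (2 * n + 1 : ℕ) := by
  obtain ⟨p, hp, z, hz⟩ := Nat.exists_prime_and_dvd (n := 2 * n + 1) (by omega)
  haveI := Fact.mk hp
  have ho : Odd p := Odd.of_dvd_nat ⟨n, rfl⟩ ⟨z, hz⟩
  haveI : NeZero z := ⟨by rintro rfl; omega⟩
  haveI : Finite (P p) := Finite.of_surjective _ ProjGenLinGroup.mk_surjective
  obtain ⟨f, hf⟩ := ex_col ho
  obtain ⟨q, hq1, hq2, hq3⟩ := ex_clique ho
  have hc : (commGraph (P p × Multiplicative (ZMod z))).Colorable (2 * n + 1) := by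
    have C : (commGraph (P p × Multiplicative (ZMod z))).Coloring
        (ZMod p × Multiplicative (ZMod z)) := by
      refine SimpleGraph.Coloring.mk (fun v => (f v.1.1, v.1.2)) ?_
      have n1 : ∀ v : {x // x ∉ Subgroup.center (P p × Multiplicative (ZMod z))}, v.1.1 ≠ 1 := by
        intro v e
        apply v.2
        rw [Subgroup.mem_center_iff]
        intro g
        ext
        · simp [e]
        · simp [mul_comm]
      intro v w h e
      exact h.1 (Subtype.ext (Prod.ext (hf _ _ (n1 v) (n1 w) (congrArg Prod.fst h.2)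
        (Prod.ext_iff.1 e).1) (Prod.ext_iff.1 e).2))
    simpa [hz] using C.colorable
  obtain ⟨F, hF⟩ : ∃ F : ZMod p × Multiplicative (ZMod z) →
      {x // x ∉ Subgroup.center (P p × Multiplicative (ZMod z))}, ∀ a, (F a).1 = (q a.1, a.2) := by
    refine ⟨fun a => ⟨(q a.1, a.2), fun h => ?_⟩, fun _ => rfl⟩
    obtain ⟨g, hg⟩ := hq3 a.1
    exact hg (congrArg Prod.fst (Subgroup.mem_center_iff.1 h (g, 1)))
  have Fi : Function.Injective F := by
    intro a b e
    have := congrArg Subtype.val e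
    rw [hF, hF, Prod.mk.injEq] at this
    exact Prod.ext (hq1 this.1) this.2
  have hk : (commGraph (P p × Multiplicative (ZMod z))).IsClique
      (Finset.univ.map ⟨F, Fi⟩ : Finset _) := by
    intro v hv w hw hne
    obtain ⟨a, -, rfl⟩ := Finset.mem_map.1 hv
    obtain ⟨b, -, rfl⟩ := Finset.mem_map.1 hw
    refine ⟨hne, ?_⟩
    show (F a).1 * (F b).1 = (F b).1 * (F a).1
    rw [hF, hF]
    exact Prod.ext (hq2 _ _) (mul_comm _ _)
  have h1 := hk.card_le_cliqueNum
  have h2 := (commGraph (P p × Multiplicative (ZMod z))).cliqueNum_le_chromaticNumber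
  have h3 := hc.chromaticNumber_le
  simp only [Finset.card_map, Finset.card_univ, Fintype.card_prod, ZMod.card,
    Fintype.card_multiplicative, ← hz] at h1
  obtain ⟨g, hg⟩ := hq3 0
  refine ⟨P p × Multiplicative (ZMod z), inferInstance, inferInstance,
    ⟨(g, 1), (q 0, 1), fun e => hg (congrArg Prod.fst e)⟩,
    le_antisymm (by exact_mod_cast h2.trans h3) h1,
    le_antisymm h3 (le_trans (by exact_mod_cast h1) h2)⟩

end Pool.Agent.H70.CommPGL
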