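import Mathlib

set_option autoImplicit false

namespace Pool.Agent.H70.Cryst

open MvPolynomial

variable {k : Type} [Field k] {σ : Type} [Fintype σ]

theorem taylor (a : σ → k) (f : MvPolynomial σ k) :
    f - C (eval a f) - ∑ s, C (eval a (pderiv s f)) * (X s - C (a s)) ∈
      RingHom.ker (eval a) * RingHom.ker (eval a) := by
  classical
  induction f using MvPolynomial.induction_on with
  | C c => simp
  | add p q hp hq =>
    convert add_mem hp hq using 1
    simp only [map_add, add_mul, Finset.sum_add_distrib]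
    ring
  | mul_X p i hp =>
    have h1 : X i - C (a i) ∈ RingHom.ker (eval a) := by simp [RingHom.mem_ker]
    have h2 : p - C (eval a p) ∈ RingHom.ker (eval a) := by simp [RingHom.mem_ker]
    have h3 := add_mem (Ideal.mul_mem_left _ (C (a i)) hp) (Ideal.mul_mem_mul h2 h1)
    convert h3 using 1
    have : ∀ s, C (eval a (pderiv s (p * X i))) * (X s - C (a s)) =
        C (a i) * (C (eval a (pderiv s p)) * (X s - C (a s))) +
          if i = s then C (eval a p) * (X s - C (a s)) else (0 : MvPolynomial σ k) := by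
      intro s
      by_cases h : i = s
      · subst h; simp; ring
      · simp [h, pderiv_X_of_ne h]; ring
    simp only [this, Finset.sum_add_distrib, Finset.sum_ite_eq, Finset.mem_univ, if_true,
      ← Finset.mul_sum, map_mul, eval_X]
    ring

theorem finite_rigid (F : Set (MvPolynomial σ k)) :
    {a : σ → k | (∀ f ∈ F, eval a f = 0) ∧
      ∀ t : σ → k, (∀ f ∈ F, ∑ s, eval a (pderiv s f) * t s = 0) → t = 0}.Finite := by
  classical
  refine Set.Finite.of_finite_image (f := fun a => RingHom.ker (eval a))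
    ((Ideal.span F).finite_minimalPrimes_of_isNoetherianRing.subset ?_) ?_
  · rintro _ ⟨a, ⟨h1, h2⟩, rfl⟩
    obtain ⟨m, hm⟩ : ∃ m, m = RingHom.ker (eval a) := ⟨_, rfl⟩
    have hI : Ideal.span F ≤ m := hm ▸ Ideal.span_le.2 h1
    obtain ⟨P, hP⟩ : ∃ P : (σ → k) →ₗ[k] MvPolynomial σ k,
        ∀ t, P t = ∑ s, C (t s) * (X s - C (a s)) :=
      ⟨Fintype.linearCombination k fun s => X s - C (a s), fun t => by
        simp only [Fintype.linearCombination_apply, smul_eq_C_mul]⟩
    have hT : ((Ideal.span F ⊔ m * m).restrictScalars k).comap P = ⊤ := by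
      by_contra hne
      obtain ⟨φ, hφ0, hφ⟩ := Submodule.exists_le_ker_of_lt_top _ (lt_top_iff_ne_top.2 hne)
      apply hφ0
      have ht := h2 (fun s => φ (Pi.single s 1)) fun f hf => by
        have h3 : (fun s => eval a (pderiv s f)) ∈
            ((Ideal.span F ⊔ m * m).restrictScalars k).comap P := by
          have h4 := taylor a f
          rw [h1 f hf, map_zero, sub_zero, ← hP, ← hm] at h4
          have h5 := sub_mem (Ideal.mem_sup_left (T := m * m) (Ideal.subset_span hf))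
            (Ideal.mem_sup_right (S := Ideal.span F) h4)
          rw [sub_sub_cancel] at h5
          exact h5
        have h6 := hφ h3
        rw [LinearMap.mem_ker, pi_eq_sum_univ' (fun s => eval a (pderiv s f)), map_sum] at h6
        simpa using h6
      exact LinearMap.pi_ext' fun s => LinearMap.ext_ring (by simpa using congrFun ht s)
    have hle : m ≤ Ideal.span F ⊔ m * m := by
      intro f hf
      have h4 := taylor a f
      rw [hm, RingHom.mem_ker] at hf
      rw [hf, map_zero, sub_zero, ← hP, ← hm] at h4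
      have h5 : (fun s => eval a (pderiv s f)) ∈
            ((Ideal.span F ⊔ m * m).restrictScalars k).comap P := by rw [hT]; trivial
      simpa using add_mem (Ideal.mem_sup_right (S := Ideal.span F) h4) h5
    obtain ⟨r, hr1, hr2⟩ := Submodule.exists_sub_one_mem_and_smul_eq_zero_of_fg_of_le_smul m
      (Submodule.map (Ideal.span F).mkQ m) (Submodule.FG.map _ (IsNoetherian.noetherian _)) (by
        rw [← Submodule.map_smul'', LinearMap.map_le_map_iff, Submodule.ker_mkQ, sup_comm]
        exact hle)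
    have hp : m.IsPrime := hm ▸ RingHom.ker_isPrime _
    show RingHom.ker (eval a) ∈ _
    rw [← hm]
    refine ⟨⟨hp, hI⟩, fun p hp' hpm x hx => ?_⟩
    have h7 := hr2 _ (Submodule.mem_map_of_mem hx)
    rw [← map_smul, Submodule.mkQ_apply, Submodule.Quotient.mk_eq_zero] at h7
    rcases hp'.1.mem_or_mem (hp'.2 h7) with h | h
    · exact absurd ((Ideal.eq_top_iff_one _).2 (by simpa using sub_mem (hpm h) hr1)) hp.ne_top
    · exact h
  · intro a _ b _ e
    funext s
    have : X s - C (a s) ∈ RingHom.ker (eval a) := by simp [RingHom.mem_ker]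
    simp only at e
    rw [e, RingHom.mem_ker] at this
    simpa [sub_eq_zero, eq_comm] using this

theorem coord_compl {J : Type} [Fintype J] [DecidableEq J] (W : Submodule k (J → k)) :
    ∃ S : Set J, IsCompl W (Submodule.span k ((fun j => Pi.single j 1) '' S)) := by
  obtain ⟨S, -, -, h1, h2⟩ := exists_linearIndepOn_extension (K := k)
    (v := fun j : J => W.mkQ (Pi.single j 1)) (s := ∅) (t := Set.univ)
    (linearIndepOn_empty _ _) (Set.empty_subset _)
  refine ⟨S, ?_, ?_⟩
  · rw [Submodule.disjoint_def]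
    intro x hx hx'
    obtain ⟨l, hl, rfl⟩ := (Finsupp.mem_span_image_iff_linearCombination k).1 hx'
    have := linearIndepOn_iff.1 h2 l hl (by
      have := (Submodule.Quotient.mk_eq_zero W).2 hx
      rw [← Submodule.mkQ_apply, Finsupp.apply_linearCombination] at this
      exact this)
    simp [this]
  · rw [codisjoint_iff, ← Submodule.map_mkQ_eq_top, Submodule.map_span, ← Set.image_comp,
      eq_top_iff, ← Submodule.range_mkQ W, LinearMap.range_eq_map, ← (Pi.basisFun k J).span_eq,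
      Submodule.map_span, Submodule.span_le]
    rintro _ ⟨_, ⟨j, rfl⟩, rfl⟩
    exact h1 ⟨j, trivial, by simp⟩

section
variable {J J' : Type} [Fintype J] [DecidableEq J]

theorem hβ (β : (J → k) →ₗ[k] (J → k) →ₗ[k] (J' → k)) (x y : J → k) (l : J') : β x y l =
    ∑ i, ∑ i', β (Pi.single i 1) (Pi.single i' 1) l * (x i * y i') := by
  conv_lhs => rw [pi_eq_sum_univ' x, pi_eq_sum_univ' y]
  simp only [map_sum, map_smul, LinearMap.sum_apply, LinearMap.smul_apply, Finset.sum_apply,
    Pi.smul_apply, smul_eq_mul, Finset.mul_sum]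
  rw [Finset.sum_comm]
  exact Finset.sum_congr rfl fun _ _ => Finset.sum_congr rfl fun _ _ => by ring

theorem hS (S : Set J) (x : J → k) :
    x ∈ Submodule.span k ((fun j => Pi.single j 1) '' S) ↔ ∀ i, i ∉ S → x i = 0 := by
  have := (Pi.basisFun k J).mem_span_image (m := x) (s := S)
  have e : ⇑(Pi.basisFun k J) = fun j => Pi.single j 1 := by ext; simp
  rw [← e, this]
  simp [Set.subset_def, not_imp_comm]

theorem grad (c : J → J → k) (j j' : J) (a t : J × J → k) :
    ∑ s, eval a (pderiv s (∑ i, ∑ i', C (c i i') * (X (i, j) * X (i', j')))) * t s =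
      ∑ i, ∑ i', c i i' * (t (i, j) * a (i', j')) + ∑ i, ∑ i', c i i' * (a (i, j) * t (i', j')) := by
  simp only [map_sum, Finset.sum_mul]
  rw [Finset.sum_comm, ← Finset.sum_add_distrib]
  refine Finset.sum_congr rfl fun i _ => ?_
  rw [Finset.sum_comm, ← Finset.sum_add_distrib]
  refine Finset.sum_congr rfl fun i' _ => ?_
  simp only [pderiv_C, pderiv_mul, pderiv_X, zero_add, map_mul, eval_C, map_add, eval_X,
    Pi.single_apply, apply_ite (eval a), map_one, map_zero, mul_add, add_mul,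
    ite_mul, mul_ite, one_mul, zero_mul, mul_zero, mul_one, Finset.sum_add_distrib,
    Finset.sum_ite_eq, Finset.mem_univ, if_true]
  ring

noncomputable def eqs (β : (J → k) →ₗ[k] (J → k) →ₗ[k] (J' → k)) (S : Set J) :
    Set (MvPolynomial (J × J) k) :=
  {f | ∃ j ∈ S, ∃ i, f = X (i, j)} ∪
  {f | ∃ i, i ∉ S ∧ ∃ j, f = X (i, j) - C (if i = j then 1 else 0)} ∪
  {f | ∃ l j j', f = ∑ i, ∑ i', C (β (Pi.single i 1) (Pi.single i' 1) l) *
    (X (i, j) * X (i', j'))}

theorem ex_proj {E : Type} [AddCommGroup E] [Module k E] (W C : Submodule k E) (hc : IsCompl W C) :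
    ∃ P : E →ₗ[k] E, (∀ x, P x ∈ W) ∧ (∀ x ∈ W, P x = x) ∧ ∀ x ∈ C, P x = 0 :=
  ⟨W.subtype ∘ₗ W.projectionOnto _ hc, fun x => by simp, fun x hx =>
    congrArg Subtype.val (Submodule.projectionOnto_apply_left hc ⟨x, hx⟩),
    fun x hx => congrArg Subtype.val (Submodule.projectionOnto_apply_right hc ⟨x, hx⟩)⟩

theorem finite_pi (β : (J → k) →ₗ[k] (J → k) →ₗ[k] (J' → k)) :
    {W : Submodule k (J → k) | (∀ x ∈ W, ∀ y ∈ W, β x y = 0) ∧
      ∀ φ : (J → k) →ₗ[k] (J → k), (∀ x ∈ W, ∀ y ∈ W, β (φ x) y + β x (φ y) = 0) →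
        ∀ x ∈ W, φ x ∈ W}.Finite := by
  obtain ⟨R, hR⟩ : ∃ R : (J × J → k) → Submodule k (J → k),
    ∀ a, R a = LinearMap.range (Matrix.toLin' (Matrix.of fun i j => a (i, j))) :=
    ⟨_, fun _ => rfl⟩
  refine Set.Finite.subset (Set.finite_iUnion fun S : Set J => (finite_rigid (eqs β S)).image R) ?_
  rintro W ⟨h1, h2⟩
  obtain ⟨S, hc⟩ := coord_compl W
  obtain ⟨P, hP1, hP2, hP3⟩ : ∃ P : (J → k) →ₗ[k] (J → k), (∀ x, P x ∈ W) ∧ (∀ x ∈ W, P x = x) ∧
      ∀ x ∈ Submodule.span k ((fun j => Pi.single j 1) '' S), P x = 0 :=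
    ex_proj W _ hc
  have hP4 : ∀ x, P x - x ∈ Submodule.span k ((fun j => Pi.single j 1) '' S) := by
    intro x
    obtain ⟨w, c, hw, hc', rfl⟩ := Submodule.codisjoint_iff_exists_add_eq.1 hc.codisjoint x
    simpa [hP2 w hw, hP3 c hc'] using hc'
  obtain ⟨a, ha⟩ : ∃ a : J × J → k, ∀ i j, P (Pi.single j 1) i = a (i, j) :=
    ⟨fun p => P (Pi.single p.2 1) p.1, fun _ _ => rfl⟩
  refine Set.mem_iUnion.2 ⟨S, a, ⟨?_, ?_⟩, ?_⟩
  · rintro f ((⟨j, hj, i, rfl⟩ | ⟨i, hi, j, rfl⟩) | ⟨l, j, j', rfl⟩)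
    · rw [eval_X, ← ha, hP3 _ (Submodule.subset_span ⟨j, hj, rfl⟩)]; rfl
    · simpa [Pi.single_apply, ha] using (hS _ _).1 (hP4 (Pi.single j 1)) i hi
    · have := congrFun (h1 _ (hP1 (Pi.single j 1)) _ (hP1 (Pi.single j' 1))) l
      rw [hβ] at this
      simpa only [ha, map_sum, map_mul, eval_C, eval_X, Pi.zero_apply] using this
  · intro t ht
    obtain ⟨φ, hφ⟩ : ∃ φ : (J → k) →ₗ[k] (J → k), ∀ i j, φ (Pi.single j 1) i = t (i, j) :=
      ⟨Matrix.toLin' (Matrix.of fun i j => t (i, j)), by simp⟩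
    have a1 : ∀ x ∈ Submodule.span k ((fun j => Pi.single j 1) '' S), φ x = 0 := by
      intro x hx
      refine (Submodule.span_le (p := LinearMap.ker φ)).2 ?_ hx
      rintro _ ⟨j, hj, rfl⟩
      funext i
      simpa [pderiv_X, Pi.single_apply, hφ] using ht _ (Or.inl (Or.inl ⟨j, hj, i, rfl⟩))
    have a2 : ∀ x, φ x ∈ Submodule.span k ((fun j => Pi.single j 1) '' S) := by
      intro x
      rw [pi_eq_sum_univ' x, map_sum]
      refine Submodule.sum_mem _ fun j _ => ?_
      rw [map_smul]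
      refine Submodule.smul_mem _ _ ((hS _ _).2 fun i hi => ?_)
      have := ht _ (Or.inl (Or.inr ⟨i, hi, j, rfl⟩))
      simp only [map_sub, pderiv_C, sub_zero] at this
      simpa [pderiv_X, Pi.single_apply, hφ] using this
    have a3 : (β ∘ₗ φ).compl₂ P + (β ∘ₗ P).compl₂ φ = 0 := by
      refine LinearMap.pi_ext' fun j => LinearMap.ext_ring (LinearMap.pi_ext' fun j' =>
        LinearMap.ext_ring (funext fun l => ?_))
      have := ht _ (Or.inr ⟨l, j, j', rfl⟩)
      rw [grad] at this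
      show β (φ (Pi.single j 1)) (P (Pi.single j' 1)) l +
        β (P (Pi.single j 1)) (φ (Pi.single j' 1)) l = 0
      rw [hβ, hβ β (P _)]
      simpa only [ha, hφ] using this
    have a4 := h2 φ fun x hx y hy => by
      simpa [hP2 x hx, hP2 y hy] using LinearMap.congr_fun₂ a3 x y
    have a5 : ∀ x, φ x = 0 := by
      intro x
      obtain ⟨w, c, hw, hc', rfl⟩ := Submodule.codisjoint_iff_exists_add_eq.1 hc.codisjoint x
      rw [map_add, a1 c hc', add_zero]
      exact Submodule.disjoint_def.1 hc.disjoint _ (a4 w hw) (a2 w)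
    funext p
    rw [← hφ, a5]; rfl
  · have : Matrix.toLin' (Matrix.of fun i j => a (i, j)) = P :=
      LinearMap.pi_ext' fun j => LinearMap.ext_ring (funext fun i => by simp [ha])
    rw [hR, this]
    exact le_antisymm (by rintro _ ⟨x, rfl⟩; exact hP1 x) fun x hx => ⟨x, hP2 x hx⟩

end

theorem finite_sub {E : Type} [AddCommGroup E] [Module k E] [Module.Finite k E]
    (β : E →ₗ[k] E →ₗ[k] E) (U : Submodule k E) :
    {W : Submodule k E | W ≤ U ∧ (∀ x ∈ W, ∀ y ∈ W, β x y = 0) ∧
      ∀ φ : E →ₗ[k] E, (∀ x, φ x ∈ U) → (∀ x ∈ W, ∀ y ∈ W, β (φ x) y + β x (φ y) = 0) →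
        ∀ x ∈ W, φ x ∈ W}.Finite := by
  obtain ⟨n, i, hi1, hi2⟩ : ∃ (n : ℕ) (i : (Fin n → k) →ₗ[k] E),
      Function.Injective i ∧ LinearMap.range i = U :=
    ⟨_, U.subtype ∘ₗ (Module.finBasis k U).equivFun.symm.toLinearMap,
      U.injective_subtype.comp (LinearEquiv.injective _), by simp [LinearMap.range_comp]⟩
  subst hi2
  obtain ⟨r, hr⟩ := i.exists_leftInverse_of_injective (LinearMap.ker_eq_bot.2 hi1)
  have hr' : ∀ x, r (i x) = x := LinearMap.congr_fun hr
  obtain ⟨e⟩ : Nonempty (E ≃ₗ[k] (Fin (Module.finrank k E) → k)) := ⟨(Module.finBasis k E).equivFun⟩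
  refine ((finite_pi ((β.compl₁₂ i i).compr₂ e.toLinearMap)).image (Submodule.map i)).subset ?_
  rintro W ⟨h0, h1, h2⟩
  refine ⟨W.comap i, ⟨fun x hx y hy => by simp [h1 _ hx _ hy], fun φ hφ x hx => ?_⟩,
    Submodule.map_comap_eq_of_le h0⟩
  have := h2 (i ∘ₗ φ ∘ₗ r) (fun x => ⟨_, rfl⟩) (fun x hx y hy => by
    obtain ⟨x, rfl⟩ := h0 hx
    obtain ⟨y, rfl⟩ := h0 hy
    have := hφ x hx y hy
    simp only [LinearMap.compr₂_apply, LinearMap.compl₁₂_apply, LinearEquiv.coe_coe, ← map_add,
      LinearEquiv.map_eq_zero_iff] at this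
    simpa [hr'] using this) _ hx
  simpa [hr'] using this

end Pool.Agent.H70.Cryst
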