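import Pool.Agent.H70.Cryst1

set_option autoImplicit false

namespace Pool.Agent.H70.Cryst

structure Lat (Γ ι : Type) [Group Γ] where
  A : Γ →* Module.End ℚ (ι → ℚ)
  τ : Γ → ι → ℚ
  τ_mul : ∀ g h, τ (g * h) = τ g + A g (τ h)
  t : (ι → ℤ) → Γ
  A_t : ∀ x, A (t x) = 1
  τ_t : ∀ x, τ (t x) = fun i => (x i : ℚ)
  surj : ∀ g, A g = 1 → ∃ x, t x = g
  B : (ι → ℚ) →ₗ[ℚ] (ι → ℚ) →ₗ[ℚ] ℝ
  B_symm : ∀ x y, B x y = B y x
  B_nd : ∀ x, (∀ y, B x y = 0) → x = 0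
  B_inv : ∀ g x y, B (A g x) (A g y) = B x y

theorem braid {α : Type} (T : α → α → α → ℝ) (s : Set α)
    (h1 : ∀ a ∈ s, ∀ b ∈ s, ∀ c ∈ s, T a b c = T b a c)
    (h2 : ∀ a ∈ s, ∀ b ∈ s, ∀ c ∈ s, T a b c = -T a c b) :
    ∀ a ∈ s, ∀ b ∈ s, ∀ c ∈ s, T a b c = 0 := by
  intro a ha b hb c hc
  linarith [h1 a ha b hb c hc, h1 a ha c hc b hb, h1 b hb c hc a ha, h2 a ha b hb c hc,
    h2 b hb a ha c hc, h2 c hc a ha b hb]

namespace Lat

variable {Γ ι : Type} [Group Γ] [Fintype ι] [DecidableEq ι] (P Q R : Lat Γ ι)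

omit [Fintype ι] [DecidableEq ι]
theorem τ_one : P.τ 1 = 0 := by simpa using P.τ_mul 1 1

theorem inj {g h : Γ} (hg : P.A g = 1) (hh : P.A h = 1) (e : P.τ g = P.τ h) : g = h := by
  obtain ⟨x, rfl⟩ := P.surj g hg
  obtain ⟨y, rfl⟩ := P.surj h hh
  rw [P.τ_t, P.τ_t] at e
  congr 1
  funext i
  exact_mod_cast congrFun e i

theorem A_inv {d : Γ} (hd : P.A d = 1) : P.A d⁻¹ = 1 := P.A.ker.inv_mem hd

theorem A_comm {g d : Γ} (hd : P.A d = 1) : P.A (g * d * g⁻¹ * d⁻¹) = 1 :=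
  P.A.ker.mul_mem (P.A.normal_ker.conj_mem d hd g) (P.A.ker.inv_mem hd)

theorem A_comm' {g d : Γ} (hd : P.A g = 1) : P.A (g * d * g⁻¹ * d⁻¹) = 1 := by
  have := P.A_inv (P.A_comm (g := d) hd)
  simpa [mul_assoc] using this

theorem τ_inv {d : Γ} (hd : P.A d = 1) : P.τ d⁻¹ = -P.τ d := by
  have := P.τ_mul d d⁻¹
  rw [mul_inv_cancel, τ_one, hd] at this
  exact eq_neg_of_add_eq_zero_right this.symm

theorem τ_comm (g : Γ) {d : Γ} (hd : P.A d = 1) :
    P.τ (g * d * g⁻¹ * d⁻¹) = (P.A g - 1) (P.τ d) := by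
  have h1 := P.τ_mul (g * d * g⁻¹ * d⁻¹) (d * g)
  rw [P.A_comm hd, show g * d * g⁻¹ * d⁻¹ * (d * g) = g * d by group, τ_mul, P.τ_mul d, hd] at h1
  simp only [Module.End.one_apply, LinearMap.sub_apply] at h1 ⊢
  linear_combination (norm := abel) -h1

theorem τ_comm' {g : Γ} (d : Γ) (hg : P.A g = 1) :
    P.τ (g * d * g⁻¹ * d⁻¹) = -(P.A d - 1) (P.τ g) := by
  rw [← τ_comm _ _ hg, ← τ_inv _ (P.A_comm hg)]
  congr 1; group

theorem comm {d e : Γ} (hd : P.A d = 1) (he : P.A e = 1) : d * e = e * d :=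
  P.inj (by simp [hd, he]) (by simp [hd, he]) (by simp [τ_mul, hd, he, add_comm])

include P in
theorem ext [Fintype ι] [DecidableEq ι] {E : Type} [AddCommGroup E] [Module ℚ E]
    {f g : (ι → ℚ) →ₗ[ℚ] E} (h : ∀ d, P.A d = 1 → f (P.τ d) = g (P.τ d)) : f = g := by
  refine LinearMap.pi_ext' fun i => LinearMap.ext_ring ?_
  have := h _ (P.A_t (Pi.single i 1))
  rw [P.τ_t] at this
  have e : (fun j => ((Pi.single i 1 : ι → ℤ) j : ℚ)) = Pi.single i 1 := by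
    funext j; simp [Pi.single_apply]
  rw [e] at this
  exact this

theorem cent [Fintype ι] [DecidableEq ι] {g : Γ} (h : ∀ d, P.A d = 1 → g * d * g⁻¹ * d⁻¹ = 1) :
    P.A g = 1 := by
  rw [← sub_eq_zero]
  exact P.ext fun d hd => by rw [← τ_comm _ _ hd, h d hd, τ_one]; rfl

theorem NN [Fintype ι] [DecidableEq ι] {a b : Γ} (ha : Q.A a = 1) (hb : Q.A b = 1) :
    (P.A a - 1) * (P.A b - 1) = 0 := by
  refine P.ext fun d hd => ?_
  rw [Module.End.mul_apply, ← τ_comm _ _ hd, ← τ_comm _ _ (P.A_comm hd),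
    Q.comm ha (Q.A_comm' hb), mul_inv_cancel_right, mul_inv_cancel, τ_one]
  rfl

theorem skew [Fintype ι] [DecidableEq ι] {a : Γ} (ha : Q.A a = 1) (x y : ι → ℚ) :
    P.B ((P.A a - 1) x) y = -P.B x ((P.A a - 1) y) := by
  have h0 := LinearMap.congr_fun (P.NN Q ha ha) y
  have h1 := P.B_inv a x y
  have h2 := P.B_inv a x ((P.A a - 1) y)
  simp only [Module.End.mul_apply, LinearMap.zero_apply] at h0
  rw [LinearMap.sub_apply, sub_eq_zero, Module.End.one_apply] at h0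
  rw [h0] at h2
  simp only [LinearMap.sub_apply, Module.End.one_apply, map_sub] at h2 ⊢
  linarith

theorem den [Fintype ι] {s : Set (ι → ℚ)} (hs : s.Finite) :
    ∃ k : ℚ, k ≠ 0 ∧ ∀ v ∈ s, ∃ d, P.A d = 1 ∧ P.τ d = k • v := by
  haveI := hs.to_subtype
  obtain ⟨b, hb⟩ := IsLocalization.exist_integer_multiples_of_finite (nonZeroDivisors ℤ)
    (fun p : s × ι => p.1.1 p.2)
  refine ⟨(b : ℤ), by exact_mod_cast nonZeroDivisors.coe_ne_zero b, fun v hv => ?_⟩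
  choose x hx using fun i => hb (⟨v, hv⟩, i)
  refine ⟨P.t x, P.A_t x, ?_⟩
  rw [P.τ_t]
  funext i
  simpa using hx i

theorem Nτ [Fintype ι] [DecidableEq ι] {a b : Γ} (ha : Q.A a = 1) (hb : Q.A b = 1) :
    (P.A a - 1) (P.τ b) = 0 := by
  obtain ⟨s, hs, hs1, hsa, hsb, hse⟩ : ∃ s : Set Γ, s.Finite ∧ (∀ x ∈ s, Q.A x = 1) ∧ a ∈ s ∧
      b ∈ s ∧ ∀ i, Q.t (Pi.single i 1) ∈ s := by
    refine ⟨insert a (insert b (Set.range fun i => Q.t (Pi.single i 1))), Set.toFinite _, ?_,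
      by simp, by simp, fun i => Or.inr (Or.inr ⟨i, rfl⟩)⟩
    rintro x (rfl | rfl | ⟨i, rfl⟩)
    exacts [ha, hb, Q.A_t _]
  obtain ⟨k, hk, hu⟩ := P.den (hs.image P.τ)
  choose! u hu1 hu2 using fun x (hx : x ∈ s) => hu _ ⟨x, hx, rfl⟩
  have sy : ∀ x ∈ s, ∀ y ∈ s, y * u x * y⁻¹ * (u x)⁻¹ = x * u y * x⁻¹ * (u y)⁻¹ := by
    intro x hx y hy
    refine P.inj (P.A_comm (hu1 x hx)) (P.A_comm (hu1 y hy)) ?_
    rw [τ_comm _ _ (hu1 x hx), τ_comm _ _ (hu1 y hy), hu2 x hx, hu2 y hy, map_smul, map_smul]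
    congr 1
    have := congrArg P.τ (Q.comm (hs1 x hx) (hs1 y hy))
    simp only [τ_mul, LinearMap.sub_apply, Module.End.one_apply] at this ⊢
    linear_combination (norm := abel) -this
  have hT := braid (fun x y z => Q.B ((Q.A (u x) - 1) (Q.τ y)) (Q.τ z)) s
    (fun x hx y hy z _ => by
      have := congrArg Q.τ (sy x hx y hy)
      rw [τ_comm' _ _ (hs1 x hx), τ_comm' _ _ (hs1 y hy), neg_inj] at this
      simp only [this])
    (fun x hx y _ z _ => by simp only [Q.skew P (hu1 x hx), Q.B_symm (Q.τ y)])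
  have h0 : (Q.A (u b) - 1) (Q.τ a) = 0 := by
    refine Q.B_nd _ (LinearMap.congr_fun (g := 0) (LinearMap.pi_ext' fun i =>
      LinearMap.ext_ring ?_))
    have := hT b hsb a hsa _ (hse i)
    simp only [Q.τ_t] at this
    have e : (fun j => ((Pi.single i 1 : ι → ℤ) j : ℚ)) = Pi.single i 1 := by
      funext j; simp [Pi.single_apply]
    rw [e] at this
    exact this
  have h1 : a * u b * a⁻¹ * (u b)⁻¹ = 1 :=
    Q.inj (Q.A_comm' ha) (map_one _) (by rw [τ_comm' _ _ ha, h0, τ_one, neg_zero])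
  have h2 := P.τ_comm a (hu1 b hsb)
  rw [h1, τ_one, hu2 b hsb, map_smul] at h2
  exact (smul_eq_zero.1 h2.symm).resolve_left hk

end Lat

noncomputable def Ψ (ι : Type) :
    (Module.End ℚ (ι → ℚ) × (ι → ℚ)) →ₗ[ℚ] Module.End ℚ ((ι → ℚ) × ℚ) where
  toFun p := LinearMap.inl ℚ _ ℚ ∘ₗ p.1.coprod (LinearMap.toSpanSingleton ℚ _ p.2)
  map_add' p q := LinearMap.ext fun v => by simp; abel
  map_smul' c p := LinearMap.ext fun v => by simp [smul_smul, mul_comm]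

theorem Ψ_apply {ι : Type} (N : Module.End ℚ (ι → ℚ)) (τ : ι → ℚ) (v : (ι → ℚ) × ℚ) :
    Ψ ι (N, τ) v = (N v.1 + v.2 • τ, 0) := by simp [Ψ]

theorem rn {E F : Type} [AddCommGroup E] [Module ℚ E] [Module.Finite ℚ E] [AddCommGroup F]
    [Module ℚ F] (μ : E →ₗ[ℚ] F) (U : Submodule ℚ E) : Module.finrank ℚ U =
      Module.finrank ℚ (U.map μ) + Module.finrank ℚ (U ⊓ LinearMap.ker μ : Submodule ℚ _) := by
  have h5 := LinearMap.finrank_range_add_finrank_ker (μ.domRestrict U)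
  rw [LinearMap.range_domRestrict, LinearMap.ker_domRestrict] at h5
  rw [← h5, ← Submodule.finrank_map_subtype_eq U (Submodule.comap _ _),
    Submodule.map_comap_subtype]

theorem fp {E F : Type} [AddCommGroup E] [Module ℚ E] [Module.Finite ℚ E] [AddCommGroup F]
    [Module ℚ F] [Module.Finite ℚ F] (U : Submodule ℚ E) :
    Module.finrank ℚ (U × F) = Module.finrank ℚ U + Module.finrank ℚ F := Module.finrank_prod

noncomputable def br (E : Type) [Ring E] [Algebra ℚ E] : E →ₗ[ℚ] E →ₗ[ℚ] E :=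
  LinearMap.mul ℚ E - (LinearMap.mul ℚ E).flip

namespace Lat

variable {Γ ι : Type} [Group Γ] (P Q R : Lat Γ ι)

noncomputable def X (g : Γ) : Module.End ℚ ((ι → ℚ) × ℚ) := Ψ ι (P.A g - 1, P.τ g)

theorem X_mul (g h : Γ) : P.X (g * h) = P.X g + P.X h + P.X g * P.X h :=
  LinearMap.ext fun v => by
    simp [X, Ψ_apply, τ_mul]
    abel

theorem X_inj {g : Γ} (h : P.X g = 0) : g = 1 := by
  have h1 : P.A g = 1 := LinearMap.ext fun v => by
    simpa [X, Ψ_apply, sub_eq_zero] using LinearMap.congr_fun h (v, 0)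
  refine P.inj h1 (map_one _) ?_
  simpa [X, Ψ_apply, τ_one] using LinearMap.congr_fun h (0, 1)

variable [Fintype ι] [DecidableEq ι]

theorem XX {a b : Γ} (ha : Q.A a = 1) (hb : Q.A b = 1) : P.X a * P.X b = 0 :=
  LinearMap.ext fun v => by
    have h1 := LinearMap.congr_fun (P.NN Q ha hb) v.1
    rw [Module.End.mul_apply] at h1
    simp only [X, Module.End.mul_apply, Ψ_apply, map_add, map_smul, P.Nτ Q ha hb, h1]
    simp

theorem X_br {g a : Γ} (hg : R.A g = 1) (ha : Q.A a = 1) :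
    P.X g * P.X a - P.X a * P.X g = P.X (g * a * g⁻¹ * a⁻¹) := by
  have h1 := P.X_mul (g * a * g⁻¹ * a⁻¹) (a * g)
  rw [show g * a * g⁻¹ * a⁻¹ * (a * g) = g * a by group, X_mul, P.X_mul a, mul_add, mul_add,
    ← mul_assoc (P.X _), P.XX Q (Q.A_comm ha) ha, P.XX R (R.A_comm' hg) hg] at h1
  linear_combination (norm := noncomm_ring) h1

theorem ex_c : ∃ c : (ι → ℚ) →ₗ[ℚ] Module.End ℚ ((ι → ℚ) × ℚ), Function.Injective c ∧
    ∀ a, Q.A a = 1 → c (Q.τ a) = P.X a := by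
  obtain ⟨c, hc⟩ : ∃ c : (ι → ℚ) →ₗ[ℚ] Module.End ℚ ((ι → ℚ) × ℚ),
      ∀ i, c (Pi.single i 1) = P.X (Q.t (Pi.single i 1)) :=
    ⟨Fintype.linearCombination ℚ fun i => P.X (Q.t (Pi.single i 1)), fun i => by simp⟩
  have h1 : AddMonoidHom.mk' (fun x : ι → ℤ => c fun i => (x i : ℚ)) (fun x y => by
        rw [← map_add]; congr 1; funext i; simp) =
      AddMonoidHom.mk' (fun x : ι → ℤ => P.X (Q.t x)) (fun x y => by
        have : Q.t (x + y) = Q.t x * Q.t y := Q.inj (Q.A_t _) (by simp [Q.A_t])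
          (by rw [τ_mul, A_t, τ_t, τ_t, τ_t]; funext i; simp)
        simp only [this, X_mul, P.XX Q (Q.A_t _) (Q.A_t _), add_zero]) := by
    refine AddMonoidHom.functions_ext' _ _ _ fun i => AddMonoidHom.ext_int ?_
    have e : (fun j => ((Pi.single i 1 : ι → ℤ) j : ℚ)) = Pi.single i 1 := by
      funext j; simp [Pi.single_apply]
    simpa [e] using hc i
  have h2 : ∀ a, Q.A a = 1 → c (Q.τ a) = P.X a := by
    intro a ha
    obtain ⟨x, rfl⟩ := Q.surj a ha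
    rw [τ_t]
    exact DFunLike.congr_fun h1 x
  refine ⟨c, (injective_iff_map_eq_zero c).2 fun v hv => ?_, h2⟩
  obtain ⟨k, hk, h⟩ := Q.den (Set.finite_singleton v)
  obtain ⟨d, hd, e⟩ := h v rfl
  have := h2 d hd
  rw [e, map_smul, hv, smul_zero] at this
  rw [P.X_inj this.symm, τ_one] at e
  exact (smul_eq_zero.1 e.symm).resolve_left hk

def SS (Γ ι : Type) [Group Γ] : Set Γ := {g | ∃ R : Lat Γ ι, R.A g = 1}

noncomputable def U : Submodule ℚ (Module.End ℚ ((ι → ℚ) × ℚ)) := Submodule.span ℚ (P.X '' SS Γ ι)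

noncomputable def D : Submodule ℚ (Module.End ℚ (ι → ℚ)) :=
  Submodule.span ℚ ((fun g => P.A g - 1) '' SS Γ ι)

theorem rk_le : Module.finrank ℚ P.U ≤ Module.finrank ℚ P.D + Fintype.card ι := by
  have : P.U ≤ LinearMap.range (Ψ ι ∘ₗ P.D.subtype.prodMap LinearMap.id) := by
    rw [U, Submodule.span_le]
    rintro _ ⟨g, hg, rfl⟩
    exact ⟨(⟨P.A g - 1, Submodule.subset_span ⟨g, hg, rfl⟩⟩, P.τ g), rfl⟩
  refine (Submodule.finrank_mono this).trans ((LinearMap.finrank_range_le _).trans ?_)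
  exact (fp P.D).le.trans (by rw [Module.finrank_fintype_fun_eq_card])

theorem ex_μ : ∃ (c : (ι → ℚ) →ₗ[ℚ] Module.End ℚ ((ι → ℚ) × ℚ))
    (μ : Module.End ℚ ((ι → ℚ) × ℚ) →ₗ[ℚ] Module.End ℚ (ι → ℚ)), Function.Injective c ∧
    LinearMap.range c = Submodule.span ℚ (P.X '' Q.A.ker) ∧
    (∀ x ∈ P.U, (∀ v, x * c v - c v * x = c (μ x v)) ∧
      ∀ v w, Q.B (μ x v) w = -Q.B v (μ x w)) ∧
    LinearMap.range c ≤ P.U ⊓ LinearMap.ker μ ∧
    Module.finrank ℚ P.U = Module.finrank ℚ Q.D +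
      Module.finrank ℚ (P.U ⊓ LinearMap.ker μ : Submodule ℚ _) := by
  obtain ⟨c, hc, hc'⟩ := P.ex_c Q
  obtain ⟨r, hr⟩ := c.exists_leftInverse_of_injective (LinearMap.ker_eq_bot.2 hc)
  have hr' : ∀ x, r (c x) = x := LinearMap.congr_fun hr
  obtain ⟨μ, hμ⟩ : ∃ μ : Module.End ℚ ((ι → ℚ) × ℚ) →ₗ[ℚ] Module.End ℚ (ι → ℚ),
      ∀ x v, μ x v = r (x * c v - c v * x) :=
    ⟨((br _).compl₂ c).compr₂ r, fun _ _ => rfl⟩
  have h1 : ∀ g ∈ SS Γ ι, ∀ v, P.X g * c v - c v * P.X g = c ((Q.A g - 1) v) := by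
    rintro g ⟨R, hg⟩
    refine LinearMap.congr_fun (f := br _ (P.X g) ∘ₗ c) (g := c ∘ₗ (Q.A g - 1)) (Q.ext fun a ha => ?_)
    show P.X g * c (Q.τ a) - c (Q.τ a) * P.X g = c ((Q.A g - 1) (Q.τ a))
    rw [hc' a ha, P.X_br Q R hg ha, ← τ_comm _ _ ha, hc' _ (Q.A_comm ha)]
  have h2 : ∀ g ∈ SS Γ ι, μ (P.X g) = Q.A g - 1 := fun g hg =>
    LinearMap.ext fun v => by rw [hμ, h1 g hg, hr']
  have h3 : LinearMap.range c = Submodule.span ℚ (P.X '' Q.A.ker) := by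
    apply le_antisymm
    · rw [← Submodule.ker_mkQ (Submodule.span ℚ (P.X '' Q.A.ker)), LinearMap.range_le_ker_iff]
      refine Q.ext fun a ha => ?_
      rw [LinearMap.comp_apply, hc' a ha]
      exact (Submodule.Quotient.mk_eq_zero _).2 (Submodule.subset_span ⟨a, ha, rfl⟩)
    · rw [Submodule.span_le]
      rintro _ ⟨a, ha, rfl⟩
      exact ⟨_, hc' a ha⟩
  refine ⟨c, μ, hc, h3, fun x hx => ?_, ?_, ?_⟩
  · induction hx using Submodule.span_induction with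
    | mem x hx =>
      obtain ⟨g, hg, rfl⟩ := hx
      rw [h2 g hg]
      obtain ⟨R, hR⟩ := id hg
      exact ⟨h1 g hg, Q.skew R hR⟩
    | zero => simp
    | add x y _ _ hx hy =>
      refine ⟨fun v => ?_, fun v w => ?_⟩
      · rw [map_add, LinearMap.add_apply, map_add, ← hx.1, ← hy.1]; noncomm_ring
      · simp only [map_add, LinearMap.add_apply, hx.2, hy.2]; ring
    | smul a x _ hx =>
      refine ⟨fun v => ?_, fun v w => ?_⟩
      · rw [map_smul, LinearMap.smul_apply, map_smul, ← hx.1, smul_sub, smul_mul_assoc,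
          mul_smul_comm]
      · simp only [map_smul, LinearMap.smul_apply, hx.2, smul_neg]
  · rw [h3, Submodule.span_le]
    rintro _ ⟨a, ha, rfl⟩
    refine ⟨Submodule.subset_span ⟨a, ⟨Q, ha⟩, rfl⟩, ?_⟩
    show μ _ = 0
    rw [h2 a ⟨Q, ha⟩, show Q.A a = 1 from ha, sub_self]
  · have h4 : P.U.map μ = Q.D := by
      rw [U, Submodule.map_span, ← Set.image_comp]
      exact congrArg _ (Set.image_congr fun g hg => h2 g hg)
    rw [← h4]
    exact rn μ P.U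

theorem d_le : Module.finrank ℚ Q.D ≤ Module.finrank ℚ P.D := by
  obtain ⟨c, μ, hc, -, -, h1, h2⟩ := P.ex_μ Q
  have h3 := Submodule.finrank_mono h1
  rw [LinearMap.finrank_range_of_inj hc, Module.finrank_fintype_fun_eq_card] at h3
  have := P.rk_le
  omega

theorem finite : {L : Subgroup Γ | ∃ Q : Lat Γ ι, Q.A.ker = L}.Finite := by
  rcases isEmpty_or_nonempty (Lat Γ ι) with h | ⟨⟨P⟩⟩
  · simp
  refine Set.Finite.of_finite_image (f := fun L => Submodule.span ℚ (P.X '' L))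
    ((finite_sub (br _) P.U).subset ?_) ?_
  · rintro _ ⟨_, ⟨Q, rfl⟩, rfl⟩
    obtain ⟨c, μ, hc, h0, h1, h2, h3⟩ := P.ex_μ Q
    have hK : LinearMap.range c = P.U ⊓ LinearMap.ker μ := by
      refine Submodule.eq_of_le_of_finrank_le h2 ?_
      rw [LinearMap.finrank_range_of_inj hc, Module.finrank_fintype_fun_eq_card]
      have := P.rk_le
      have := Q.d_le P
      omega
    simp only [← h0]
    refine ⟨h2.trans inf_le_left, ?_, fun φ hφ hφ' => ?_⟩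
    · rintro x hx _ ⟨v, rfl⟩
      show x * c v - c v * x = 0
      rw [(h1 x (h2 hx).1).1, show μ x = 0 from (h2 hx).2]
      simp
    · rintro _ ⟨v, rfl⟩
      have hT := braid (fun x y z => Q.B (μ (φ (c x)) y) z) Set.univ
        (fun x _ y _ z _ => by
          have : φ (c x) * c y - c y * φ (c x) + (c x * φ (c y) - φ (c y) * c x) = 0 :=
            hφ' _ ⟨x, rfl⟩ _ ⟨y, rfl⟩
          rw [← neg_sub (φ (c y) * c x), (h1 _ (hφ _)).1, (h1 _ (hφ _)).1, add_neg_eq_zero] at this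
          simp only [hc this])
        (fun x _ y _ z _ => by simp only [(h1 _ (hφ _)).2, Q.B_symm y])
      rw [hK]
      exact ⟨hφ _, LinearMap.ext fun w => Q.B_nd _ fun z => hT v trivial w trivial z trivial⟩
  · have key : ∀ Q R : Lat Γ ι, Submodule.span ℚ (P.X '' R.A.ker) ≤
        Submodule.span ℚ (P.X '' Q.A.ker) → R.A.ker ≤ Q.A.ker := by
      intro Q R h g hg
      obtain ⟨c, μ, hc, h0, h1, h2, -⟩ := P.ex_μ Q
      refine Q.cent fun d hd => P.X_inj ?_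
      rw [← P.X_br Q R hg hd]
      have hx := h (Submodule.subset_span ⟨g, hg, rfl⟩)
      have hy : P.X d ∈ Submodule.span ℚ (P.X '' Q.A.ker) := Submodule.subset_span ⟨d, hd, rfl⟩
      rw [← h0] at hx hy
      obtain ⟨v, hv⟩ := hy
      rw [← hv, (h1 _ (h2 hx).1).1, show μ _ = 0 from (h2 hx).2]
      simp
    rintro _ ⟨Q, rfl⟩ _ ⟨R, rfl⟩ e
    exact le_antisymm (key R Q e.le) (key Q R e.ge)

end Lat

end Pool.Agent.H70.Cryst
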