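import Pool.Agent.H70.Cryst2

set_option autoImplicit false

namespace Pool.Agent.H70.Cryst

theorem mkLat {Γ ι E : Type} [Group Γ] [Fintype ι] [DecidableEq ι] [AddCommGroup E] [Module ℝ E]
    (b : Module.Basis ι ℝ E) (φ : Γ →* (E ≃ᵃ[ℝ] E)) (hφ : Function.Injective φ)
    (β : E →ₗ[ℝ] E →ₗ[ℝ] ℝ) (hs : ∀ v w, β v w = β w v) (hn : ∀ v, β v = 0 → v = 0)
    (hi : ∀ g v, β ((φ g).linear v) ((φ g).linear v) = β v v)
    (hb : {w : E | ∃ g : Γ, (φ g).linear = LinearEquiv.refl ℝ E ∧ φ g 0 = w} =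
      (Submodule.span ℤ (Set.range b) : Set E)) :
    ∃ Q : Lat Γ ι, ∀ g, Q.A g = 1 ↔ (φ g).linear = LinearEquiv.refl ℝ E := by
  letI : Module ℚ E := Module.compHom E (algebraMap ℚ ℝ)
  haveI : IsScalarTower ℚ ℝ E := IsScalarTower.of_algebraMap_smul fun _ _ => rfl
  obtain ⟨θ, hθ⟩ := (Algebra.linearMap ℚ ℝ).exists_leftInverse_of_injective
    (LinearMap.ker_eq_bot.2 (algebraMap ℚ ℝ).injective)
  have hθ' : ∀ x : ℚ, θ x = x := LinearMap.congr_fun hθ
  obtain ⟨j, hj⟩ : ∃ j : (ι → ℚ) →ₗ[ℚ] E, ∀ x, j x = ∑ i, (x i : ℝ) • b i :=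
    ⟨Fintype.linearCombination ℚ b, fun x => rfl⟩
  obtain ⟨π, hπ⟩ : ∃ π : E →ₗ[ℚ] (ι → ℚ), ∀ v i, π v i = θ (b.repr v i) :=
    ⟨LinearMap.pi fun i => θ ∘ₗ (b.coord i).restrictScalars ℚ, fun _ _ => rfl⟩
  have jr : ∀ x i, b.repr (j x) i = x i := by
    intro x i
    rw [hj, b.repr_sum_self]
  have πj' : ∀ (r : ℝ) x, π (r • j x) = θ r • x := by
    intro r x
    funext i
    rw [hπ, map_smul, Finsupp.smul_apply, jr, smul_eq_mul, mul_comm, ← Rat.smul_def, map_smul,
      Pi.smul_apply, smul_eq_mul, smul_eq_mul, mul_comm]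
  have πj : ∀ x, π (j x) = x := fun x => by
    have := πj' 1 x
    rwa [one_smul, ← Rat.cast_one, hθ', one_smul] at this
  have jb : ∀ i, j (Pi.single i 1) = b i := by
    intro i
    rw [hj, Finset.sum_eq_single i] <;> simp +contextual [Pi.single_apply]
  have hd : ∀ g v, φ g v = (φ g).linear v + φ g 0 := fun g v => by
    simpa using (φ g).map_vadd 0 v
  have hm : ∀ g h, (φ (g * h)).linear = (φ h).linear.trans (φ g).linear := fun g h => by
    rw [map_mul]; rfl
  have hm' : ∀ g h v, φ (g * h) v = φ g (φ h v) := fun g h v => by rw [map_mul]; rfl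
  have hL : ∀ w, (∃ g : Γ, (φ g).linear = LinearEquiv.refl ℝ E ∧ φ g 0 = w) ↔
      ∃ x : ι → ℤ, j (fun i => (x i : ℚ)) = w := by
    intro w
    have := Set.ext_iff.1 hb w
    rw [Set.mem_setOf_eq, SetLike.mem_coe, Submodule.mem_span_range_iff_exists_fun] at this
    simp only [this, hj, Rat.cast_intCast, Int.cast_smul_eq_zsmul]
  choose t ht1 ht2 using fun x : ι → ℤ => (hL _).2 ⟨x, rfl⟩
  have hlin : ∀ g i, ∃ x, (φ g).linear (b i) = j x := by
    intro g i
    have e : (fun k => ((Pi.single i 1 : ι → ℤ) k : ℚ)) = Pi.single i 1 := by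
      funext k; simp [Pi.single_apply]
    obtain ⟨x, hx⟩ := (hL ((φ g).linear (b i))).1 ⟨g * t (Pi.single i 1) * g⁻¹, by
      rw [hm, hm, ht1, LinearEquiv.refl_trans, ← hm, mul_inv_cancel, map_one]; rfl, by
      rw [hm', hm', hd (t _), ht1, ht2, e, jb, hd g, map_add, LinearEquiv.refl_apply, add_assoc,
        add_comm ((φ g).linear (b i)), ← add_assoc, ← hd g, ← hm', mul_inv_cancel, map_one]
      simp⟩
    exact ⟨_, hx.symm⟩
  obtain ⟨A, hA⟩ : ∃ A : Γ → Module.End ℚ (ι → ℚ), ∀ g x, A g x = π ((φ g).linear (j x)) :=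
    ⟨fun g => π ∘ₗ (φ g).linear.toLinearMap.restrictScalars ℚ ∘ₗ j, fun _ _ => rfl⟩
  have h1 : ∀ g x, (φ g).linear (j x) = j (A g x) := by
    intro g
    refine LinearMap.congr_fun (f := (φ g).linear.toLinearMap.restrictScalars ℚ ∘ₗ j)
      (g := j ∘ₗ A g) (LinearMap.pi_ext' fun i => LinearMap.ext_ring ?_)
    obtain ⟨x, hx⟩ := hlin g i
    show (φ g).linear (j (Pi.single i 1)) = j (A g (Pi.single i 1))
    rw [hA, jb, hx, πj]
  have h2 : ∀ g v, π ((φ g).linear v) = A g (π v) := by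
    intro g v
    rw [← b.sum_repr v]
    simp only [map_sum, map_smul, ← jb, h1, πj']
  have h3 : ∀ g, A g = 1 ↔ (φ g).linear = LinearEquiv.refl ℝ E := by
    intro g
    constructor
    · intro h
      refine b.ext' fun i => ?_
      rw [← jb, h1, h]; rfl
    · intro h
      exact LinearMap.ext fun x => by rw [hA, h, LinearEquiv.refl_apply, πj]; rfl
  refine ⟨{
    A := ⟨⟨A, (h3 1).2 (by rw [map_one]; rfl)⟩, fun g h => LinearMap.ext fun x => by
      rw [Module.End.mul_apply, hA, hm, LinearEquiv.trans_apply, h1, h2, πj]⟩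
    τ := fun g => π (φ g 0)
    τ_mul := fun g h => by rw [hm', hd g, map_add, h2, add_comm]; rfl
    t := t
    A_t := fun x => (h3 _).2 (ht1 x)
    τ_t := fun x => by rw [ht2, πj]
    surj := fun g hg => ?_
    B := LinearMap.mk₂ ℚ (fun x y => β (j x) (j y)) (by simp) (fun c x y => by
      rw [map_smul, β.map_smul_of_tower]; rfl) (by simp) (fun c x y => by
      rw [map_smul, (β _).map_smul_of_tower])
    B_symm := fun x y => hs _ _
    B_nd := fun x hx => ?_
    B_inv := fun g x y => ?_ }, h3⟩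
  · have hg' := (h3 g).1 hg
    obtain ⟨x, hx⟩ := (hL _).1 ⟨g, hg', rfl⟩
    exact ⟨x, hφ (AffineEquiv.ext fun v => by rw [hd g, hd (t x), ht1, ht2, hg', hx])⟩
  · rw [← πj x, hn (j x) (b.ext fun i => by rw [← jb]; exact hx _), map_zero]
  · show β (j (A g x)) (j (A g y)) = β (j x) (j y)
    rw [← h1, ← h1]
    have a1 := hi g (j x + j y)
    simp only [map_add, LinearMap.add_apply, hi] at a1
    linarith [hs (j x) (j y), hs ((φ g).linear (j x)) ((φ g).linear (j y))]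

end Pool.Agent.H70.Cryst
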