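import Mathlib

namespace Pool.Agent.H70.Cz

open Polynomial Matrix

abbrev D : Type := ℚ[X][X][X]

noncomputable instance : CommRing D := Polynomial.commRing

noncomputable def γ : D →+* ℚ[X] := constantCoeff.comp constantCoeff

noncomputable def κ : ℚ[X] →+* D := C.comp C

@[simp] theorem γκ (b : ℚ[X]) : γ (κ b) = b := by simp [γ, κ]

@[simp] theorem γ1 : γ (C X) = 0 := by simp [γ]

@[simp] theorem γ2 : γ X = 0 := by simp [γ]

theorem alg (c : ℚ) : algebraMap ℚ D c = κ (C c) := rfl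

noncomputable def A : Subalgebra ℚ (Matrix (Fin 2) (Fin 2) D) where
  carrier := {a | a 1 0 = 0 ∧ a 1 1 = κ (γ (a 0 0)) ∧ γ (a 0 1) = derivative (γ (a 0 0))}
  mul_mem' := fun ⟨a, b, c⟩ ⟨a', b', c'⟩ => by simp [mul_apply, *]; ring
  add_mem' := fun ⟨a, b, c⟩ ⟨a', b', c'⟩ => by simp [*]
  algebraMap_mem' c := by simp [algebraMap_matrix_apply, γ, κ]

theorem top {p q : D} (hp : γ p = 0) (hq : γ q = 0) : !![p, q; 0, 0] ∈ A := by
  refine ⟨?_, ?_, ?_⟩ <;> simp [*]

theorem comm_iff (a b : A) :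
    a * b = b * a ↔ (a.1 0 0 - a.1 1 1) * b.1 0 1 = (b.1 0 0 - b.1 1 1) * a.1 0 1 := by
  rw [Subtype.ext_iff, ← Matrix.ext_iff]
  simp only [Fin.forall_fin_two, MulMemClass.coe_mul, mul_apply, Fin.sum_univ_two, a.2.1, b.2.1]
  constructor
  · rintro ⟨⟨-, h⟩, -⟩
    linear_combination h
  · exact fun h => ⟨⟨by ring, by linear_combination h⟩, by ring, by ring⟩

noncomputable def α : A →ₐ[ℚ] D where
  toFun a := a.1 0 0
  map_one' := rfl
  map_zero' := rfl
  map_add' _ _ := rfl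
  map_mul' a b := by simp [mul_apply, b.2.1]
  commutes' c := by simp [algebraMap_matrix_apply]

theorem fg : Algebra.FiniteType ℚ A := by
  let a : A := ⟨_, top γ1 (map_zero γ)⟩
  let b : A := ⟨_, top γ2 (map_zero γ)⟩
  let y : A := ⟨!![κ X, 1; 0, κ X], by refine ⟨?_, ?_, ?_⟩ <;> simp⟩
  classical
  refine ⟨⟨{a, b, y}, top_unique fun s _ => ?_⟩⟩
  generalize hT : Algebra.adjoin ℚ (↑({a, b, y} : Finset A) : Set A) = T
  have ha : a ∈ T := hT ▸ Algebra.subset_adjoin (by simp)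
  have hb : b ∈ T := hT ▸ Algebra.subset_adjoin (by simp)
  have hy : y ∈ T := hT ▸ Algebra.subset_adjoin (by simp)
  have h1 : ∀ f : D, f ∈ T.map α := fun f => by
    induction f using Polynomial.induction_on' with
    | add p q hp hq => exact add_mem hp hq
    | monomial n f =>
      rw [← C_mul_X_pow_eq_monomial]
      refine mul_mem ?_ (pow_mem (Subalgebra.mem_map.2 ⟨b, hb, rfl⟩) _)
      induction f using Polynomial.induction_on' with
      | add p q hp hq => rw [map_add]; exact add_mem hp hq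
      | monomial n f =>
        rw [← C_mul_X_pow_eq_monomial, map_mul, map_pow]
        refine mul_mem ?_ (pow_mem (Subalgebra.mem_map.2 ⟨a, ha, rfl⟩) _)
        induction f using Polynomial.induction_on' with
        | add p q hp hq => rw [map_add, map_add]; exact add_mem hp hq
        | monomial n f =>
          rw [← C_mul_X_pow_eq_monomial, map_mul, map_pow, map_mul, map_pow]
          exact mul_mem (algebraMap_mem _ f) (pow_mem (Subalgebra.mem_map.2 ⟨y, hy, rfl⟩) _)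
  obtain ⟨t, ht, h2⟩ := h1 (s.1 0 0)
  change t.1 0 0 = _ at h2
  have h3 : γ (s.1 0 1 - t.1 0 1) = 0 := by rw [map_sub, s.2.2.2, t.2.2.2, h2, sub_self]
  obtain ⟨p, hp⟩ := (X_dvd_iff (f := (s.1 0 1 - t.1 0 1).coeff 0)).2 (by simpa [γ] using h3)
  obtain ⟨u, hu, h4⟩ := h1 (C p)
  obtain ⟨v, hv, h5⟩ := h1 (s.1 0 1 - t.1 0 1).divX
  change u.1 0 0 = _ at h4
  change v.1 0 0 = _ at h5
  have h6 := X_mul_divX_add (s.1 0 1 - t.1 0 1)
  rw [show (s.1 0 1 - t.1 0 1).coeff 0 = X * p from hp, ← h5, map_mul, ← h4] at h6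
  suffices s = t + (u * (a * y - y * a) + v * (b * y - y * b)) from this ▸
    T.add_mem ht (add_mem (T.mul_mem hu (sub_mem (mul_mem ha hy) (mul_mem hy ha)))
      (T.mul_mem hv (sub_mem (mul_mem hb hy) (mul_mem hy hb))))
  ext i j : 2
  fin_cases i <;> fin_cases j <;>
    simp [a, b, y, mul_apply, h2, s.2.1, t.2.1, u.2.1, v.2.1, s.2.2.1, t.2.2.1, mul_comm]
  linear_combination -h6

theorem central : Algebra.IsCentral ℚ A := ⟨fun a ha => by
  rw [Subalgebra.mem_center_iff] at ha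
  have h1 := (comm_iff _ _).1 (ha ⟨_, top γ2 (map_zero γ)⟩)
  have h2 := (comm_iff _ _).1 (ha ⟨_, top (map_zero γ) γ2⟩)
  simp [sub_eq_zero] at h1 h2
  have h3 := a.2.2.2
  rw [h1, map_zero] at h3
  have h4 := a.2.2.1
  rw [eq_C_of_derivative_eq_zero h3.symm] at h4
  refine ⟨(γ (a.1 0 0)).coeff 0, ?_⟩
  generalize (γ (a.1 0 0)).coeff 0 = c at *
  ext i j : 2
  fin_cases i <;> fin_cases j <;> simp [algebraMap_matrix_apply, h1, a.2.1, h4, h2, κ]⟩

theorem nc {a : A} (ha : a ∉ Subalgebra.center ℚ A) : a.1 0 0 - a.1 1 1 ≠ 0 ∨ a.1 0 1 ≠ 0 := by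
  by_contra h
  push Not at h
  exact ha (Subalgebra.mem_center_iff.2 fun b => (comm_iff _ _).2 (by simp [h]))

theorem mem {a s : A} : s ∈ Subalgebra.centralizer ℚ {a} ↔
    (a.1 0 0 - a.1 1 1) * s.1 0 1 = (s.1 0 0 - s.1 1 1) * a.1 0 1 := by
  simp [Subalgebra.mem_centralizer_iff, comm_iff]

theorem cm {a : A} (ha : a ∉ Subalgebra.center ℚ A) : ∀ x ∈ Subalgebra.centralizer ℚ {a},
    ∀ y ∈ Subalgebra.centralizer ℚ {a}, x * y = y * x := fun x hx y hy => by
  rw [mem] at hx hy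
  rw [comm_iff]
  rcases nc ha with h | h <;> apply mul_left_cancel₀ h
  · linear_combination (x.1 0 0 - x.1 1 1) * hy - (y.1 0 0 - y.1 1 1) * hx
  · linear_combination x.1 0 1 * hy - y.1 0 1 * hx

theorem notN {a : A} (ha : a ∉ Subalgebra.center ℚ A) :
    ¬ IsNoetherianRing (Subalgebra.centralizer ℚ {a}) := fun hN => by
  let S := Subalgebra.centralizer ℚ {a}
  letI : CommRing S := { (inferInstance : Ring S) with
    mul_comm := fun x y => Subtype.ext (cm ha _ x.2 _ y.2) }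
  let φ : S →+* D := (α.comp S.val).toRingHom
  have hφ : ∀ s, φ s = s.1.1 0 0 := fun _ => rfl
  have hδ : ∀ s : A, γ (s.1 0 0 - s.1 1 1) = 0 := fun s => by simp [s.2.2.1]
  have int : ∀ t : D, ∃ p : S[X], p.Monic ∧ eval₂ φ t p = 0 := fun t => by
    letI := φ.toAlgebra
    let z : D →ₗ[S] S :=
      { toFun := fun g => ⟨⟨!![(a.1 0 0 - a.1 1 1) * X * g, a.1 0 1 * X * g; 0, 0],
          top (by simp) (by simp)⟩, mem.2 (by simp; ring)⟩
        map_add' := fun g h => by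
          ext i j : 4
          fin_cases i <;> fin_cases j <;> simp [mul_add]
        map_smul' := fun s g => by
          ext i j : 4
          fin_cases i <;> fin_cases j <;>
            simp [Algebra.smul_def, RingHom.algebraMap_toAlgebra, hφ, mul_apply, s.1.2.1] <;> ring }
    have := isNoetherian_of_injective z ((injective_iff_map_eq_zero _).2 fun g hg => by
      have h1 := congrArg (fun s : S => s.1.1 0 0) hg
      have h2 := congrArg (fun s : S => s.1.1 0 1) hg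
      simp [z] at h1 h2
      rcases nc ha with h | h
      exacts [h1.resolve_left h, h2.resolve_left h])
    exact isIntegral_of_noetherian this t
  obtain ⟨v, h1, h2⟩ : ∃ v : D, (∀ s : S, v ∣ s.1.1 0 0 - s.1.1 1 1) ∧
      (IsUnit v → ∀ s : S, γ (s.1.1 0 1) = 0) := by
    by_cases h : a.1 0 0 - a.1 1 1 = 0
    · refine ⟨0, fun s => ?_, by simp⟩
      simpa [h, (nc ha).resolve_left (not_not.2 h)] using (mem.1 s.2).symm
    · obtain ⟨v, u, c, h1, h2, h3⟩ := UniqueFactorizationMonoid.exists_reduced_factors _ h (a.1 0 1)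
      have h4 : ∀ s : S, v * s.1.1 0 1 = (s.1.1 0 0 - s.1.1 1 1) * u := fun s => by
        apply mul_left_cancel₀ (left_ne_zero_of_mul (h2 ▸ h))
        linear_combination mem.1 s.2 + s.1.1 0 1 * h2 - (s.1.1 0 0 - s.1.1 1 1) * h3
      refine ⟨v, fun s => h1.dvd_of_dvd_mul_right ⟨_, (h4 s).symm⟩, fun hv s => ?_⟩
      simpa [hδ, (hv.map γ).ne_zero, -map_sub] using congrArg γ (h4 s)
  by_cases hv : IsUnit v
  · obtain ⟨p, h3, h4⟩ := int (κ X)
    have h5 : γ.comp φ = C.comp (constantCoeff.comp (γ.comp φ)) := RingHom.ext fun s =>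
      eq_C_of_derivative_eq_zero (s.1.2.2.2.symm.trans (h2 hv s))
    have h6 := congrArg γ h4
    rw [hom_eval₂, h5, γκ, ← eval₂_map, eval₂_C_X, map_zero] at h6
    exact (h3.map _).ne_zero h6
  · have h5 : (Ideal.Quotient.mk (Ideal.span {v})).comp φ =
        (Ideal.Quotient.mk (Ideal.span {v})).comp (κ.comp (γ.comp φ)) := RingHom.ext fun s =>
      Ideal.Quotient.eq.2 (Ideal.mem_span_singleton.2 (by simpa [s.1.2.2.1, hφ] using h1 s))
    have h6 : ∀ t, ∃ p : ℚ[X][X], p.Monic ∧ v ∣ eval₂ κ t p := fun t => by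
      obtain ⟨p, h3, h4⟩ := int t
      refine ⟨p.map (γ.comp φ), h3.map _, Ideal.mem_span_singleton.1 (Ideal.Quotient.eq_zero_iff_mem.1 ?_)⟩
      rw [eval₂_map, hom_eval₂, ← h5, ← hom_eval₂, h4, map_zero]
    obtain ⟨p, h3, h4⟩ := h6 (C X)
    obtain ⟨q, h7, h8⟩ := h6 X
    rw [κ, ← hom_eval₂, eval₂_C_X] at h4
    rw [κ, ← eval₂_map, eval₂_C_X] at h8
    rw [eq_C_of_natDegree_eq_zero (show v.natDegree = 0 by simpa using natDegree_le_of_dvd h4 (C_ne_zero.2 h3.ne_zero))] at h8 hv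
    exact hv ((isUnit_of_dvd_one ((h7.map C).coeff_natDegree ▸ (C_dvd_iff_dvd_coeff _ _).1 h8 _)).map C)

theorem ne : (⊥ : Subalgebra ℚ A) ≠ ⊤ := fun h => by
  obtain ⟨c, hc⟩ : (⟨_, top (map_zero γ) γ2⟩ : A) ∈ (⊥ : Subalgebra ℚ A) := h ▸ trivial
  have := congrArg (fun a : A => a.1 0 1) hc
  simp [algebraMap_matrix_apply] at this
  exact X_ne_zero this.symm

end Pool.Agent.H70.Cz
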