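import Mathlib

set_option autoImplicit false

namespace Pool.Agent.H70.Dag

open MvPolynomial Relation

section bin
variable {ι K : Type} [Field K]

def Bin (I : Ideal (MvPolynomial ι K)) : Prop := ∃ S : Set (MvPolynomial ι K),
  (∀ b ∈ S, ∃ (m m' : ι →₀ ℕ) (c c' : K), b = monomial m c + monomial m' c') ∧ Ideal.span S = I

theorem Bin.matching {I : Ideal (MvPolynomial ι K)} (h : Bin I) {f : MvPolynomial ι K} (hf : f ∈ I)
    {m0 : ι →₀ ℕ} (h0 : coeff m0 f ≠ 0) : monomial m0 1 ∈ I ∨
      ∃ m1 ≠ m0, coeff m1 f ≠ 0 ∧ ∃ c, monomial m0 1 - monomial m1 c ∈ I := by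
  classical
  by_contra! hc
  obtain ⟨S, hS, rfl⟩ := h
  let rel : (ι →₀ ℕ) → Prop := fun m => ∃ c, monomial m0 1 - monomial m c ∈ Ideal.span S
  let π : MvPolynomial ι K →ₗ[K] MvPolynomial ι K :=
    (basisMonomials ι K).constr K fun m => if rel m then monomial m 1 else 0
  have π1 : ∀ m c, π (monomial m c) = if rel m then monomial m c else 0 := fun m c => by
    have := (basisMonomials ι K).constr_basis K (fun m => if rel m then monomial m (1 : K) else 0) m
    rw [coe_basisMonomials] at this
    rw [← mul_one c, ← smul_eq_mul, ← smul_monomial, map_smul, this]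
    split_ifs <;> simp
  have k1 : ∀ m m' c c', monomial m c + monomial m' c' ∈ Ideal.span S → rel m → ¬rel m' → c = 0 := by
    rintro m m' c c' h ⟨e, he⟩ h2
    by_contra c0
    refine h2 ⟨-(e / c * c'), ?_⟩
    convert add_mem he (Submodule.smul_of_tower_mem _ (e / c) h) using 1
    simp [smul_monomial, c0]
    abel
  have k2 : ∀ m m' c c', monomial m c + monomial m' c' ∈ Ideal.span S →
      π (monomial m c + monomial m' c') ∈ Ideal.span S := fun m m' c c' h => by
    rw [map_add, π1, π1]
    split_ifs with a b b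
    · exact h
    · simp [k1 _ _ _ _ h a b]
    · simp [k1 _ _ _ _ (add_comm (monomial m c) _ ▸ h) b a]
    · simp
  have k3 : ∀ g ∈ Ideal.span S, ∀ q, π (q * g) ∈ Ideal.span S := fun g hg => by
    induction hg using Submodule.span_induction with
    | mem b hb =>
      intro q
      induction q using MvPolynomial.induction_on' with
      | monomial u d =>
        have := Ideal.mul_mem_left _ (monomial u d) (Ideal.subset_span hb)
        obtain ⟨m, m', c, c', rfl⟩ := hS b hb
        rw [mul_add, monomial_mul, monomial_mul] at this ⊢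
        exact k2 _ _ _ _ this
      | add p q hp hq => rw [add_mul, map_add]; exact add_mem hp hq
    | zero => simp
    | add a b _ _ ha hb => intro q; rw [mul_add, map_add]; exact add_mem (ha q) (hb q)
    | smul c a _ ha => intro q; rw [smul_eq_mul, ← mul_assoc]; exact ha _
  have k4 := k3 f hf 1
  rw [one_mul, f.as_sum, map_sum, Finset.sum_eq_single m0, π1, if_pos ⟨1, by simp⟩] at k4
  · refine hc.1 ?_
    simpa [smul_monomial, h0] using Submodule.smul_of_tower_mem _ (coeff m0 f)⁻¹ k4
  · intro m hm hne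
    rw [π1, if_neg]
    rintro ⟨c, hc'⟩
    exact hc.2 m hne (mem_support_iff.1 hm) c hc'
  · simp [h0]

theorem ker_le {σ : Type} (χ : ι → MvPolynomial σ K) (h : ∀ e, χ e = 0 ∨ ∃ d, χ e = monomial d 1)
    (J : Ideal (MvPolynomial ι K)) (h1 : ∀ m, aeval χ (monomial m (1 : K)) = 0 → monomial m 1 ∈ J)
    (h2 : ∀ m m', aeval χ (monomial m (1 : K)) = aeval χ (monomial m' (1 : K)) →
      monomial m 1 - monomial m' 1 ∈ J) : RingHom.ker (aeval χ : _ →ₐ[K] _) ≤ J := by
  classical
  have k : ∀ m : ι →₀ ℕ, aeval χ (monomial m (1 : K)) = 0 ∨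
      ∃ d, aeval χ (monomial m (1 : K)) = monomial d 1 := fun m => by
    induction m using Finsupp.induction_linear with
    | zero => exact Or.inr ⟨0, by simp⟩
    | add a b ha hb =>
      rw [← one_mul (1 : K), ← monomial_mul, map_mul]
      rcases ha with ha | ⟨d, ha⟩
      · exact Or.inl (by rw [ha, zero_mul])
      rcases hb with hb | ⟨d', hb⟩
      · exact Or.inl (by rw [hb, mul_zero])
      exact Or.inr ⟨d + d', by rw [ha, hb, monomial_mul]⟩
    | single e n =>
      rw [← X_pow_eq_monomial, map_pow, aeval_X]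
      rcases h e with he | ⟨d, he⟩
      · cases n
        · exact Or.inr ⟨0, by simp⟩
        · simp [he]
      · exact Or.inr ⟨n • d, by simp [he, monomial_pow]⟩
  let τ : MvPolynomial σ K →ₗ[K] MvPolynomial ι K ⧸ J :=
    (basisMonomials σ K).constr K fun d =>
      if h : ∃ m, aeval χ (monomial m (1 : K)) = monomial d 1 then
        Ideal.Quotient.mk J (monomial h.choose 1) else 0
  have k2 : ∀ f, τ (aeval χ f) = Ideal.Quotient.mkₐ K J f := fun f => by
    induction f using MvPolynomial.induction_on' with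
    | add p q hp hq => simp only [map_add, hp, hq]
    | monomial m c =>
      rw [← mul_one c, ← smul_eq_mul, ← smul_monomial, map_smul, map_smul, map_smul]
      congr 1
      rcases k m with a | ⟨d, a⟩
      · rw [a, map_zero]; exact (Ideal.Quotient.eq_zero_iff_mem.2 (h1 m a)).symm
      · have e : ∃ m, aeval χ (monomial m (1 : K)) = monomial d 1 := ⟨m, a⟩
        rw [a, ← congrFun (coe_basisMonomials σ K) d, Module.Basis.constr_basis, dif_pos e]
        exact Ideal.Quotient.eq.2 (h2 _ _ (e.choose_spec.trans a.symm))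
  intro f hf
  have := k2 f
  rw [RingHom.mem_ker.1 hf, map_zero] at this
  exact Ideal.Quotient.eq_zero_iff_mem.1 this.symm

theorem bin_ker {σ : Type} (χ : ι → MvPolynomial σ K)
    (h : ∀ e, χ e = 0 ∨ ∃ d, χ e = monomial d 1) : Bin (RingHom.ker (aeval χ : _ →ₐ[K] _)) := by
  refine ⟨{b | (∃ (m m' : ι →₀ ℕ) (c c' : K), b = monomial m c + monomial m' c') ∧
    aeval χ b = 0}, fun b hb => hb.1, le_antisymm (Ideal.span_le.2 fun b hb => hb.2)
    (ker_le χ h _ (fun m hm => Ideal.subset_span ⟨⟨m, m, 1, 0, by simp⟩, hm⟩)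
      fun m m' hm => Ideal.subset_span ⟨⟨m, m', 1, -1, by simp [sub_eq_add_neg]⟩, ?_⟩)⟩
  rw [map_sub, hm, sub_self]

end bin

variable {V : Type} [Fintype V] {E : V → V → Prop} [DecidableRel E] {r : V → ℕ}

structure Sys (E : V → V → Prop) [DecidableRel E] (r : V → ℕ) {S : Type} [CommSemiring S]
    (a : V → S) (lam : V → V → S) (s : V → V → S) : Prop where
  symm : ∀ k l, s k l = s l k
  diag : ∀ c, s c c = a c
  recu : ∀ i j, r i < r j → s i j = ∑ c with E c j, s i c * lam c j

structure Rk (E : V → V → Prop) (r : V → ℕ) : Prop where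
  inj : Function.Injective r
  mono : ∀ k l, E k l → r k < r l

omit [Fintype V] [DecidableRel E] in
theorem Rk.ind (R : Rk E r) {Q : V → V → Prop} (h0 : ∀ k, Q k k)
    (h1 : ∀ k l, r k < r l → (∀ c, E c l → Q k c) → Q k l)
    (h2 : ∀ k l, r l < r k → (∀ c, E c k → Q c l) → Q k l) (k l : V) : Q k l := by
  induction h : r k + r l using Nat.strong_induction_on generalizing k l with
  | _ n ih =>
    rcases lt_trichotomy (r k) (r l) with e | e | e
    · exact h1 k l e fun c hc => ih _ (by have := R.mono _ _ hc; omega) _ _ rfl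
    · exact R.inj e ▸ h0 k
    · exact h2 k l e fun c hc => ih _ (by have := R.mono _ _ hc; omega) _ _ rfl

omit [Fintype V] [DecidableRel E] in
theorem Rk.le (R : Rk E r) {L : V → V → Prop} (hL : ∀ k l, L k l → E k l) {k l : V}
    (h : ReflTransGen L k l) : r k ≤ r l := by
  induction h with
  | refl => rfl
  | tail _ h ih => exact ih.trans (R.mono _ _ (hL _ _ h)).le

section gen
variable {S : Type} [CommSemiring S] {a : V → S} {lam s : V → V → S}

theorem Sys.recu' (h : Sys E r a lam s) (i j : V) (e : r j < r i) :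
    s i j = ∑ c with E c i, s c j * lam c i := by
  rw [h.symm, h.recu _ _ e]; simp only [h.symm j]

theorem Sys.map (h : Sys E r a lam s) {T F : Type} [CommSemiring T] [FunLike F S T]
    [RingHomClass F S T] (f : F) :
    Sys E r (fun c => f (a c)) (fun k l => f (lam k l)) fun k l => f (s k l) :=
  ⟨fun k l => by rw [h.symm], fun c => by rw [h.diag],
    fun i j e => by rw [h.recu i j e, map_sum]; simp only [map_mul]⟩

theorem Sys.add (h : Sys E r a lam s) {a' : V → S} {s' : V → V → S} (h' : Sys E r a' lam s') :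
    Sys E r (fun c => a c + a' c) lam fun k l => s k l + s' k l :=
  ⟨fun k l => by rw [h.symm, h'.symm], fun c => by rw [h.diag, h'.diag], fun i j e => by
    rw [h.recu i j e, h'.recu i j e, ← Finset.sum_add_distrib]; simp only [add_mul]⟩

theorem Sys.uniq (R : Rk E r) (h : Sys E r a lam s) {s' : V → V → S} (h' : Sys E r a lam s') :
    ∀ k l, s k l = s' k l :=
  R.ind (fun k => by rw [h.diag, h'.diag])
    (fun k l e ih => by
      rw [h.recu _ _ e, h'.recu _ _ e]
      exact Finset.sum_congr rfl fun c hc => by rw [ih c (by simpa using hc)])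
    fun k l e ih => by
      rw [h.recu' _ _ e, h'.recu' _ _ e]
      exact Finset.sum_congr rfl fun c hc => by rw [ih c (by simpa using hc)]

def sol (E : V → V → Prop) [DecidableRel E] (r : V → ℕ) (a : V → S) (lam : V → V → S) (k l : V) :
    S :=
  if r k < r l then ∑ c, if _h : E c l ∧ r c < r l then sol E r a lam k c * lam c l else 0
  else if r l < r k then ∑ c, if _h : E c k ∧ r c < r k then sol E r a lam c l * lam c k else 0
  else a k
termination_by r k + r l
decreasing_by all_goals omega

theorem sol_sys (R : Rk E r) (a : V → S) (lam : V → V → S) : Sys E r a lam (sol E r a lam) := by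
  have e : ∀ c l, E c l ∧ r c < r l ↔ E c l := fun c l => and_iff_left_of_imp (R.mono c l)
  refine ⟨R.ind (fun _ => rfl) (fun k l h ih => ?_) fun k l h ih => ?_, fun c => ?_,
    fun i j h => ?_⟩
  · rw [sol, sol.eq_1 _ _ _ _ l, if_pos h, if_neg h.not_gt, if_pos h]
    refine Finset.sum_congr rfl fun c _ => ?_
    split_ifs with h'
    exacts [by rw [ih c h'.1], rfl]
  · rw [sol, sol.eq_1 _ _ _ _ l, if_pos h, if_neg h.not_gt, if_pos h]
    refine Finset.sum_congr rfl fun c _ => ?_
    split_ifs with h'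
    exacts [by rw [ih c h'.1], rfl]
  · rw [sol]; simp
  · rw [sol, if_pos h, Finset.sum_filter]; simp [e]

omit [Fintype V] in
theorem rmono {L L' : V → V → Prop} {k l : V} (h : ReflTransGen L k l)
    (e : ∀ k l, L k l → L' k l) : ReflTransGen L' k l := by
  induction h with
  | refl => rfl
  | tail _ h ih => exact ih.tail (e _ _ h)

def CA (L : V → V → Prop) (k l : V) : Prop := ∃ a, ReflTransGen L a k ∧ ReflTransGen L a l

omit [Fintype V] in
theorem CA.symm {L : V → V → Prop} {k l : V} (h : CA L k l) : CA L l k := h.imp fun _ => .symm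

omit [Fintype V] in
theorem CA.right {L : V → V → Prop} {k l c : V} (h : CA L k c) (e : L c l) : CA L k l :=
  h.imp fun _ h => ⟨h.1, h.2.tail e⟩

theorem Sys.zero (R : Rk E r) (h : Sys E r a lam s) {L : V → V → Prop}
    (hL : ∀ k l, E k l → ¬L k l → lam k l = 0) : ∀ k l, ¬CA L k l → s k l = 0 :=
  R.ind (fun k h => (h ⟨k, .refl, .refl⟩).elim)
    (fun k l e ih hn => by
      rw [h.recu _ _ e]
      refine Finset.sum_eq_zero fun c hc => ?_
      by_cases b : L c l
      · rw [ih c (by simpa using hc) fun x => hn (x.right b), zero_mul]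
      · rw [hL c l (by simpa using hc) b, mul_zero])
    fun k l e ih hn => by
      rw [h.recu' _ _ e]
      refine Finset.sum_eq_zero fun c hc => ?_
      by_cases b : L c k
      · rw [ih c (by simpa using hc) fun x => hn (x.symm.right b).symm, zero_mul]
      · rw [hL c k (by simpa using hc) b, mul_zero]

def Lc (E : V → V → Prop) (c : V) (k l : V) : Prop := E k l ∧ k ≠ c

omit [Fintype V] [DecidableRel E] in
theorem Rk.stop (R : Rk E r) {a k c : V} (h : ReflTransGen E a k) (hk : r k ≤ r c) :
    ReflTransGen (Lc E c) a k := by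
  induction h with
  | refl => rfl
  | tail _ h ih =>
    have := R.mono _ _ h
    exact (ih (by omega)).tail ⟨h, by rintro rfl; omega⟩

theorem Sys.ci (R : Rk E r) (h : Sys E r a lam s) (c : V) : ∀ k l, (l = c ∨ ¬CA (Lc E c) c l) →
    (k = c ∨ l = c ∨ ¬CA (Lc E c) k l) → s k l * a c = s k c * s c l := by
  have z : ∀ l, r l < r c → ¬CA (Lc E c) c l → ¬CA E c l := fun l e h1 ⟨x, h2, h3⟩ =>
    h1 ⟨x, R.stop h2 le_rfl, R.stop h3 e.le⟩
  have z0 := h.zero R (L := E) (fun _ _ a b => (b a).elim)
  have b1 : ∀ k, s k c * a c = s k c * s c c := fun k => by rw [h.diag]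
  have b2 : ∀ l, s c l * a c = s c c * s c l := fun k => by rw [h.diag, mul_comm]
  refine R.ind (fun k h1 h2 => ?_) (fun k l e ih h1 h2 => ?_) fun k l e ih h1 h2 => ?_
  · rcases h2 with rfl | rfl | h2
    exacts [b1 _, b1 _, (h2 ⟨k, .refl, .refl⟩).elim]
  · by_cases lc : l = c
    · rw [lc]; exact b1 _
    by_cases kc : k = c
    · rw [kc]; exact b2 _
    have h1 := h1.resolve_left lc
    have h2 := (h2.resolve_left kc).resolve_left lc
    have : s c l = ∑ x with E x l, s c x * lam x l := by
      rcases lt_trichotomy (r c) (r l) with e | e | e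
      · exact h.recu _ _ e
      · exact (lc (R.inj e).symm).elim
      · rw [z0 _ _ (z l e h1)]
        exact (Finset.sum_eq_zero fun x hx => by
          rw [z0 _ _ fun y => z l e h1 (y.right (by simpa using hx)), zero_mul]).symm
    rw [h.recu _ _ e, this, Finset.sum_mul, Finset.mul_sum]
    refine Finset.sum_congr rfl fun x hx => ?_
    have hx : E x l := by simpa using hx
    rw [mul_right_comm, ih x hx ((em (x = c)).imp_right fun xc y => h1 (y.right ⟨hx, xc⟩))
      (Or.inr ((em (x = c)).imp_right fun xc y => h2 (y.right ⟨hx, xc⟩))), mul_assoc]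
  · by_cases lc : l = c
    · rw [lc]; exact b1 _
    by_cases kc : k = c
    · rw [kc]; exact b2 _
    have h2 := (h2.resolve_left kc).resolve_left lc
    have : s k c * s c l = (∑ x with E x k, s x c * lam x k) * s c l := by
      rcases lt_trichotomy (r c) (r k) with e' | e' | e'
      · rw [h.recu' _ _ e']
      · exact (kc (R.inj e').symm).elim
      · rw [z0 _ _ (z l (e.trans e') (h1.resolve_left lc)), mul_zero, mul_zero]
    rw [h.recu' _ _ e, this, Finset.sum_mul, Finset.sum_mul]
    refine Finset.sum_congr rfl fun x hx => ?_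
    have hx : E x k := by simpa using hx
    rw [mul_right_comm, ih x hx h1 ((em (x = c)).imp_right fun xc =>
      Or.inr fun y => h2 (y.symm.right ⟨hx, xc⟩).symm), mul_right_comm]

end gen

theorem Sys.pos (R : Rk E r) {a : V → ℕ} {lam s : V → V → ℕ} (h : Sys E r a lam s)
    {L : V → V → Prop} (hL : ∀ k l, L k l → E k l ∧ 0 < lam k l) {x : V} (hx : 0 < a x) :
    ∀ k l, ReflTransGen (fun u v => L u v ∧ 0 < a v) x k → ReflTransGen L x l → 0 < s k l := by
  refine R.ind (fun k h1 _ => ?_) (fun k l e ih h1 h2 => ?_) fun k l e ih h1 h2 => ?_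
  · rw [h.diag]
    rcases h1.cases_tail with rfl | ⟨_, _, h1⟩
    exacts [hx, h1.2]
  · rcases h2.cases_tail with rfl | ⟨c, h2, h3⟩
    · exact (e.not_ge (R.le (fun _ _ h => (hL _ _ h.1).1) h1)).elim
    rw [h.recu _ _ e]
    exact Finset.sum_pos' (fun _ _ => Nat.zero_le _) ⟨c, by simpa using (hL _ _ h3).1,
      mul_pos (ih c (hL _ _ h3).1 h1 h2) (hL _ _ h3).2⟩
  · rcases h1.cases_tail with rfl | ⟨c, h1, h3⟩
    · exact (e.not_ge (R.le (fun _ _ h => (hL _ _ h).1) h2)).elim
    rw [h.recu' _ _ e]
    exact Finset.sum_pos' (fun _ _ => Nat.zero_le _) ⟨c, by simpa using (hL _ _ h3.1).1,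
      mul_pos (ih c (hL _ _ h3.1).1 h1 h2) (hL _ _ h3.1).2⟩

section core
variable [DecidableEq V] {K : Type} [Field K] [CharZero K]
  {s : V → V → MvPolynomial (V ⊕ V × V) K}

open Classical in
noncomputable def ev (K : Type) [Field K] (A : V → Prop) (L : V → V → Prop) :
    MvPolynomial (V ⊕ V × V) K →ₐ[K] K :=
  aeval (Sum.elim (fun c => if A c then 1 else 0) fun p => if L p.1 p.2 then 1 else 0)

abbrev PSys (E : V → V → Prop) [DecidableRel E] (r : V → ℕ)
  (s : V → V → MvPolynomial (V ⊕ V × V) K) :=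
  Sys E r (fun c => X (.inl c)) (fun k l => X (.inr (k, l))) s

open Classical in
omit [DecidableEq V] [CharZero K] in
theorem ev_nat (R : Rk E r) (h : PSys E r s) (A : V → Prop) (L : V → V → Prop) (k l : V) :
    ev K A L (s k l) = ((sol E r (fun c => if A c then 1 else 0)
      (fun k l => if L k l then 1 else 0) k l : ℕ) : K) := by
  have h1 := h.map (ev K A L)
  have h2 := (sol_sys R (fun c => if A c then 1 else 0) (fun k l => if L k l then 1 else 0)).map
    (Nat.castRingHom K)
  simp only [ev, aeval_X, Sum.elim_inl, Sum.elim_inr, apply_ite (Nat.castRingHom K), map_one,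
    map_zero] at h1 h2
  exact h1.uniq R h2 k l

omit [DecidableEq V] in
theorem ev_pos (R : Rk E r) (h : PSys E r s) {A : V → Prop} {L : V → V → Prop}
    (hL : ∀ k l, L k l → E k l) {x k l : V} (hx : A x)
    (h1 : ReflTransGen (fun u v => L u v ∧ A v) x k) (h2 : ReflTransGen L x l) :
    ev K A L (s k l) ≠ 0 := by
  rw [ev_nat R h, Nat.cast_ne_zero]
  exact ((sol_sys R _ _).pos R (L := L) (fun k l e => ⟨hL k l e, by simp [e]⟩) (by simp [hx]) k l
    (rmono h1 fun _ _ e => ⟨e.1, by simp [e.2]⟩) h2).ne'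

omit [DecidableEq V] in
theorem ev_pos' (R : Rk E r) (h : PSys E r s) {L : V → V → Prop}
    (hL : ∀ k l, L k l → E k l) {k l : V} (h1 : CA L k l) : ev K (fun _ => True) L (s k l) ≠ 0 := by
  obtain ⟨x, h1, h2⟩ := h1
  exact ev_pos R h hL trivial (rmono h1 fun _ _ e => ⟨e, trivial⟩) h2

omit [DecidableEq V] [CharZero K] in
theorem ev_zero (R : Rk E r) (h : PSys E r s) (A : V → Prop) {L : V → V → Prop} {k l : V}
    (h1 : ¬CA L k l) : ev K A L (s k l) = 0 :=
  (h.map (ev K A L)).zero R (fun k l _ e => by simp [ev, e]) k l h1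

omit [Fintype V] [DecidableEq V] [CharZero K] in
theorem ev_dvd {c : V} {f : MvPolynomial (V ⊕ V × V) K} (h : X (.inl c) ∣ f) (L : V → V → Prop) :
    ev K (· ≠ c) L f = 0 := by
  obtain ⟨g, rfl⟩ := h
  simp [ev]

omit [DecidableEq V] in
theorem two (R : Rk E r) (h : PSys E r s) {k l c c' : V} (hc : c ≠ c') (h1 : X (.inl c) ∣ s k l)
    (h2 : X (.inl c') ∣ s k l) : ¬CA E k l := by
  classical
  rintro ⟨x, a1, a2⟩
  have b1 := ev_dvd h1 E
  have b2 := ev_dvd h2 E
  rw [ev_nat R h, Nat.cast_eq_zero] at b1 b2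
  have p : ∀ v, 0 < (if v ≠ c then 1 else 0) + (if v ≠ c' then 1 else 0) := fun v => by
    by_cases e : v = c <;> simp [e, hc]
  have := ((sol_sys R (fun v => if v ≠ c then 1 else 0) fun k l => if E k l then 1 else 0).add
    (sol_sys R (fun v => if v ≠ c' then 1 else 0) _)).pos R (L := E)
    (fun k l e => ⟨e, by simp [e]⟩) (p x) k l (rmono a1 fun _ v e => ⟨e, p v⟩) a2
  refine this.ne' ?_
  convert congrArg₂ (· + ·) b1 b2

omit [DecidableEq V] in
theorem bot (R : Rk E r) (h : PSys E r s) {k l c : V} (hk : k ≠ c) (h1 : X (.inl c) ∣ s k l)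
    (h2 : CA E k l) : ¬CA (Lc E c) k l ∧ ¬CA (Lc E c) k c := by
  have av : ∀ x y, ReflTransGen (Lc E c) x y → y ≠ c →
      x ≠ c ∧ ReflTransGen (fun u v => E u v ∧ v ≠ c) x y := fun x y h hy => by
    induction h using ReflTransGen.head_induction_on with
    | refl => exact ⟨hy, .refl⟩
    | head e _ ih => exact ⟨e.2, .head ⟨e.1, ih.1⟩ ih.2⟩
  have H : ∀ x, ReflTransGen (Lc E c) x k → ¬ReflTransGen E x l := fun x a b =>
    ev_pos R h (A := (· ≠ c)) (fun _ _ e => e) (av x k a hk).1 (av x k a hk).2 b (ev_dvd h1 E)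
  refine ⟨fun ⟨x, a, b⟩ => H x a (rmono b fun _ _ e => e.1), fun ⟨x, a, b⟩ => ?_⟩
  refine H x a ((rmono b fun _ _ e => e.1).trans ?_)
  obtain ⟨y, a1, a2⟩ := h2
  by_contra hc
  have : y ≠ c ∧ ReflTransGen (fun u v => E u v ∧ v ≠ c) y l := by
    clear a1
    induction a2 using ReflTransGen.head_induction_on with
    | refl => exact ⟨fun e => hc (e ▸ .refl), .refl⟩
    | head e b ih => exact ⟨fun e' => hc (e' ▸ .head e b), .head ⟨e, ih.1⟩ ih.2⟩
  exact ev_pos R h (A := (· ≠ c)) (fun _ _ e => e) this.1 this.2 a1 (h.symm k l ▸ ev_dvd h1 E)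

theorem core (R : Rk E r) (h : PSys E r s) {ι : Type} (x : V → V → ι)
    (hx : ∀ k l c, x k l = x c c → k = c ∧ l = c) (φ : MvPolynomial ι K →ₐ[K] _)
    (hφ : ∀ k l, φ (X (x k l)) = s k l) (hb : Bin (RingHom.ker φ)) {i j : V} (hij : r i < r j)
    (hE : ¬E i j) (hCA : CA E i j) :
    ∃ c, E c j ∧ ¬CA (Lc E c) i j ∧ (¬CA (Lc E c) i c ∨ ¬CA (Lc E c) j c) := by
  classical
  let row : Option {c // E c j} → V := fun o => o.elim i (↑)
  let col : Option {c // E c j} → V := fun o => o.elim j (↑)
  let mon : Equiv.Perm (Option {c // E c j}) → ι →₀ ℕ := fun σ =>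
    ∑ b, Finsupp.single (x (row (σ b)) (col b)) 1
  have mon1 : ∀ σ, monomial (mon σ) (1 : K) = ∏ b, X (x (row (σ b)) (col b)) := fun σ => by
    simp only [mon, monomial_sum_index, C_1, one_mul]; rfl
  let M : Matrix (Option {c // E c j}) (Option {c // E c j}) (MvPolynomial ι K) :=
    Matrix.of fun a b => X (x (row a) (col b))
  have d0 : M.det ∈ RingHom.ker φ := by
    rw [RingHom.mem_ker, AlgHom.map_det, ← Matrix.exists_mulVec_eq_zero_iff]
    refine ⟨fun o => o.elim 1 fun c => -X (.inr (c, j)), fun e => one_ne_zero (congrFun e none), ?_⟩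
    ext1 a
    have : r (row a) < r j := by
      cases a with
      | none => exact hij
      | some c => exact R.mono _ _ c.2
    simp only [Matrix.mulVec, dotProduct, Fintype.sum_option, AlgHom.mapMatrix_apply,
      Matrix.map_apply, M, Matrix.of_apply, hφ, col, Option.elim, h.recu _ _ this]
    rw [Finset.sum_subtype (p := fun c => E c j) (F := inferInstance) _ (by simp)]
    simp
  have cf : ∀ m, coeff m M.det = ∑ σ, Equiv.Perm.sign σ • if mon σ = m then (1 : K) else 0 :=
    fun m => by
      simp only [Matrix.det_apply, coeff_sum, coeff_smul, M, Matrix.of_apply, ← mon1,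
        coeff_monomial]
  have inj : ∀ σ, mon σ = mon 1 → σ = 1 := fun σ e => by
    have a : ∀ c, σ (some c) = some c := fun c => by
      have : mon σ (x c c) ≠ 0 := by
        rw [e]
        simp only [mon, Finsupp.finsetSum_apply, ne_eq, Finset.sum_eq_zero_iff, not_forall]
        exact ⟨some c, by simp [row, col]⟩
      simp only [mon, Finsupp.finsetSum_apply] at this
      obtain ⟨b, -, hb⟩ := Finset.exists_ne_zero_of_sum_ne_zero this
      obtain ⟨h1, h2⟩ := hx _ _ _ (Finsupp.single_apply_ne_zero.1 hb).1.symm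
      cases b with
      | none => exact ((R.mono _ _ c.2).ne (congrArg r h2.symm)).elim
      | some b =>
        obtain rfl : b = c := Subtype.ext h2
        cases e : σ (some b) with
        | none => rw [e] at h1; exact (hE ((show i = b from h1) ▸ b.2)).elim
        | some b' => rw [e] at h1; exact congrArg _ (Subtype.ext h1)
    ext1 b
    cases b with
    | some c => exact a c
    | none =>
      cases e : σ none with
      | none => rfl
      | some c => cases σ.injective (e.trans (a c).symm)
  have sne := ev_pos' R h (fun _ _ e => e) hCA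
  have φ1 : φ (monomial (mon 1) 1) = s i j * ∏ c : {c // E c j}, X (.inl c.1) := by
    simp [mon1, hφ, Fintype.prod_option, row, col, h.diag]
  have evX : ∀ L, ev K (fun _ => True) L (∏ c : {c // E c j}, X (.inl c.1)) = 1 := fun L => by
    simp [ev]
  rcases hb.matching d0 (m0 := mon 1) (by
    rw [cf, Finset.sum_eq_single 1] <;> simp +contextual [mt (inj _)]) with a | ⟨m, a1, a2, e, a3⟩
  · have := congrArg (ev K (fun _ => True) E) (φ1.symm.trans a)
    rw [map_mul, evX, map_zero, mul_one] at this
    exact (sne this).elim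
  rw [cf] at a2
  obtain ⟨σ, -, a4⟩ := Finset.exists_ne_zero_of_sum_ne_zero a2
  obtain rfl : mon σ = m := by by_contra e; simp [e] at a4
  have a5 : σ ≠ 1 := fun e => a1 (e ▸ rfl)
  rw [RingHom.mem_ker, map_sub, sub_eq_zero, φ1, ← mul_one e, ← C_mul_monomial, mon1, map_mul,
    map_prod, algHom_C, algebraMap_eq] at a3
  simp only [hφ] at a3
  have nz : ∀ L, CA L i j → (∀ k l, L k l → E k l) → ∀ b, CA L (row (σ b)) (col b) :=
    fun L a b c => by
      by_contra d
      have := congrArg (ev K (fun _ => True) L) a3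
      rw [map_mul, evX, mul_one, map_mul, map_prod,
        Finset.prod_eq_zero (Finset.mem_univ c) (ev_zero R h _ d), mul_zero] at this
      exact ev_pos' R h b a this
  by_cases h0 : σ none = none
  · exfalso
    rw [Fintype.prod_option, h0, mul_left_comm] at a3
    have a6 := congrArg (ev K (fun _ => True) fun _ _ => False)
      (mul_left_cancel₀ (fun e => sne (by rw [e, map_zero])) a3)
    obtain ⟨b, hb⟩ : ∃ b, σ b ≠ b := by simpa [Equiv.ext_iff] using a5
    obtain ⟨b, rfl⟩ := Option.ne_none_iff_exists'.1 (fun e => hb (e ▸ h0) : b ≠ none)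
    obtain ⟨b', e'⟩ := Option.ne_none_iff_exists'.1
      (fun e => Option.some_ne_none _ (σ.injective (e.trans h0.symm)) : σ (some b) ≠ none)
    have a7 : ¬CA (fun _ _ => False) (row (σ (some b))) (col (some b)) := by
      rintro ⟨y, a, a'⟩
      rw [reflTransGen_iff_eq (by simp), e'] at a
      rw [reflTransGen_iff_eq (by simp)] at a'
      exact hb (e'.trans (congrArg _ (Subtype.ext (a.trans a'.symm))))
    rw [evX, map_mul, map_prod, Finset.prod_eq_zero (Finset.mem_univ b) (ev_zero R h _ a7),
      mul_zero] at a6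
    exact one_ne_zero a6
  have pr : ∀ c : {c // E c j}, ∃ b, X (.inl c.1) ∣ s (row (σ b)) (col b) := fun c => by
    have : X (.inl c.1) ∣ C e * ∏ b, s (row (σ b)) (col b) :=
      a3 ▸ (Finset.dvd_prod_of_mem _ (Finset.mem_univ c)).mul_left _
    rcases X_prime.dvd_or_dvd this with d | d
    · have e0 : e = 0 := by simpa [ev] using ev_dvd d E
      have := congrArg (ev K (fun _ => True) E) a3
      rw [map_mul, evX, e0] at this
      simp [sne] at this
    · simpa using X_prime.exists_mem_finset_dvd d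
  choose g hg using pr
  have ginj : Function.Injective g := fun c c' e => by
    by_contra d
    exact two R h (fun e => d (Subtype.ext e)) (hg c) (e ▸ hg c') (nz E hCA (fun _ _ e => e) _)
  have h1 : σ.symm none ≠ none := fun e => h0 (σ.symm_apply_eq.1 e).symm
  obtain ⟨c, hc⟩ : ∃ c, g c = none ∨ g c = σ.symm none := by
    by_contra! d
    have := Finset.card_le_card_of_injOn (s := Finset.univ)
      (t := (Finset.univ.erase none).erase (σ.symm none)) g (fun c _ => by simp [d c]) ginj.injOn
    rw [Finset.card_erase_of_mem (by simpa using h1), Finset.card_erase_of_mem (by simp)] at this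
    have : 0 < Fintype.card {c // E c j} := by
      obtain ⟨b, -⟩ := Option.ne_none_iff_exists'.1 h1
      exact Fintype.card_pos_iff.2 ⟨b⟩
    simp only [Finset.card_univ, Fintype.card_option] at *
    omega
  have a7 := hg c
  have a8 := nz E hCA (fun _ _ e => e) (g c)
  have a9 := fun a => nz (Lc E c) a (fun _ _ e => e.1) (g c)
  refine ⟨c, c.2, ?_⟩
  rcases hc with hc | hc <;> rw [hc] at a7 a8 a9
  · have := bot R h (k := j) (fun e => (R.mono _ _ c.2).ne (congrArg r e.symm))
      (h.symm _ _ ▸ a7) a8.symm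
    exact ⟨fun a => this.1 (a9 a).symm, Or.inr this.2⟩
  · rw [Equiv.apply_symm_apply] at a7 a8 a9
    have := bot R h (k := i) (fun e => hE (e ▸ c.2)) a7 a8
    exact ⟨fun a => this.1 (a9 a), Or.inl this.2⟩

end core

end Pool.Agent.H70.Dag
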