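import Mathlib

namespace Pool.Agent.H70.EndN

open Set Filter Topology TopologicalSpace ENNReal

theorem gd {α ι : Type*} [TopologicalSpace α] [PolishSpace α] [Countable ι] [Inhabited ι] (U : ι → Set α)
    (hU : ∀ n, IsOpen (U n)) : PolishSpace (⋂ n, U n) := by
  have := fun n => (hU n).polishSpace
  let φ : (⋂ n, U n) → ∀ n, U n := fun x n => ⟨x.1, mem_iInter.1 x.2 n⟩
  refine IsClosedEmbedding.polishSpace (f := φ) ⟨IsEmbedding.of_comp (g := fun y => (y default).1)
    (by fun_prop) (by fun_prop) IsEmbedding.subtypeVal, ?_⟩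
  have : range φ = ⋂ n, {y | (y n).1 = (y default).1} := by
    ext y
    simp only [mem_range, mem_iInter, mem_setOf_eq]
    refine ⟨by rintro ⟨x, rfl⟩ n; rfl, fun h => ⟨⟨y default, mem_iInter.2 fun n => h n ▸ (y n).2⟩, ?_⟩⟩
    ext n
    exact (h n).symm
  rw [this]
  exact isClosed_iInter fun n => isClosed_eq (by fun_prop) (by fun_prop)

abbrev M := ((· < ·) : ℕ → ℕ → Prop) →r ((· < ·) : ℕ → ℕ → Prop)

theorem sm (f : M) : StrictMono f := fun _ _ h => f.map_rel h

variable (c : ℕ → ℝ≥0∞)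

noncomputable def a (f : ℕ → ℕ) (k : ℕ) : ℝ≥0∞ := c k * (f (8 ^ k) - 8 ^ k : ℕ)

noncomputable def N (f : ℕ → ℕ) : ℝ≥0∞ := ∑' k, a c f k

theorem lsc : LowerSemicontinuous (N c) :=
  lowerSemicontinuous_tsum fun k => Continuous.lowerSemicontinuous
    ((continuous_of_discreteTopology (f := fun m : ℕ => c k * (m - 8 ^ k : ℕ))).comp (continuous_apply _))

@[reducible] noncomputable def T : TopologicalSpace M := .induced (fun f => ((f : ℕ → ℕ), N c f)) inferInstance

theorem pol : @PolishSpace M (T c) := by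
  let u := denseSeq ℝ≥0∞
  let U : ℕ × ℕ → Set ((ℕ → ℕ) × ℝ≥0∞) := fun p => {x | u p.1 < u p.2 → x.2 < u p.2 ∨ u p.1 < N c x.1}
  have := gd U fun p => by
    by_cases h : u p.1 < u p.2
    · simp only [U, h, forall_const, setOf_or]
      exact (isOpen_lt (by fun_prop) (by fun_prop)).union
        (((lsc c).isOpen_preimage _).preimage continuous_fst)
    · simp [U, h]
  let φ : M → (⋂ n, U n) := fun f => ⟨(f, N c f), mem_iInter.2 fun p h =>
    (lt_or_ge _ _).imp id h.trans_le⟩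
  letI := T c
  refine IsClosedEmbedding.polishSpace (f := φ) ⟨⟨⟨(induced_compose (g := Subtype.val) (f := φ)).symm⟩, fun f g h =>
    DFunLike.coe_injective (congrArg (·.1.1) h)⟩, ?_⟩
  have : range φ = Subtype.val ⁻¹' ((⋂ n, ⋂ m, {x | n < m → x.1 n < x.1 m}) ∩ {x | N c x.1 ≤ x.2}) := by
    ext ⟨⟨f, r⟩, h⟩
    simp only [mem_range, mem_preimage, mem_inter_iff, mem_iInter, mem_setOf_eq]
    refine ⟨by rintro ⟨g, hg⟩; cases hg; exact ⟨fun n m => g.map_rel, le_rfl⟩,
      fun ⟨h1, h2⟩ => ⟨⟨f, h1 _ _⟩, Subtype.ext (Prod.ext rfl (h2.antisymm (not_lt.1 fun h3 => ?_)))⟩⟩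
    obtain ⟨_, ⟨i, rfl⟩, h4, h5⟩ := (denseRange_denseSeq ℝ≥0∞).exists_between h3
    obtain ⟨_, ⟨j, rfl⟩, h6, h7⟩ := (denseRange_denseSeq ℝ≥0∞).exists_between h5
    exact (mem_iInter.1 h (i, j) h6).elim h7.not_gt h4.not_gt
  rw [this]
  refine IsClosed.preimage continuous_subtype_val ((isClosed_iInter fun n => isClosed_iInter fun m => ?_).inter
    (lowerSemicontinuous_iff_isClosed_epigraph.1 (lsc c)))
  exact (isClosed_discrete {p : ℕ × ℕ | n < m → p.1 < p.2}).preimage (f := fun x : (ℕ → ℕ) × ℝ≥0∞ =>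
    (x.1 n, x.1 m)) (by fun_prop)

variable {c}

theorem term (h1 : ∀ k, c k ≤ 8 * c (k + 1)) (h2 : ∀ k (m : ℕ), c k * m ≤ 1 → m ≤ 8 ^ k) (f g : M) (k : ℕ) :
    a c f k ≤ a c (f ∘ g) k ∧ a c g k ≤ a c (f ∘ g) k ∧
      (a c g k ≤ 1 → a c (f ∘ g) k ≤ 8 * a c f (k + 1) + a c g k) := by
  have e : ∀ {x y}, x ≤ y → f x - x ≤ f y - y := fun {x y} h => by
    obtain ⟨d, rfl⟩ := Nat.exists_eq_add_of_le h
    have := (sm f).add_le_nat d x
    rw [add_comm x d]
    omega
  have h3 := (sm g).le_apply (x := 8 ^ k)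
  have h4 := (sm f).le_apply (x := g (8 ^ k))
  have h5 := e h3
  simp only [a, Function.comp]
  refine ⟨by gcongr; omega, by gcongr, fun h => ?_⟩
  have h6 := h2 k _ h
  have h7 := e (show g (8 ^ k) ≤ 8 ^ (k + 1) by omega)
  calc _ ≤ c k * ((f (8 ^ (k + 1)) - 8 ^ (k + 1) : ℕ) + (g (8 ^ k) - 8 ^ k : ℕ)) := by
        rw [← Nat.cast_add]; gcongr; omega
    _ ≤ _ := by rw [mul_add, ← mul_assoc]; gcongr; exact h1 k

theorem split (u : ℕ → ℝ≥0∞) (K : ℕ) : ∑' k, u k = ∑ k ∈ Finset.range K, u k + ∑' k, u (k + K) :=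
  (ENNReal.summable.sum_add_tsum_nat_add' ).symm

theorem cm (h1 : ∀ k, c k ≤ 8 * c (k + 1)) (h2 : ∀ k (m : ℕ), c k * m ≤ 1 → m ≤ 8 ^ k) :
    @ContinuousMul M (T c) _ := by
  letI := T c
  have c0 : Continuous fun f : M => ((f : ℕ → ℕ), N c f) := continuous_induced_dom
  have c1 : Continuous fun f : M => (f : ℕ → ℕ) := c0.fst
  have c2 : Continuous fun p : M × M => (⇑(p.1 * p.2) : ℕ → ℕ) := continuous_pi fun n =>
    (continuous_prod_of_discrete_right (f := fun q : (ℕ → ℕ) × ℕ => q.1 q.2).2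
      fun y => continuous_apply y).comp ((c1.comp continuous_fst).prodMk
        ((continuous_apply n).comp (c1.comp continuous_snd)))
  have hd : ∀ (f : ℕ → ℕ) K, ∀ᶠ f' in 𝓝 f, ∑ k ∈ Finset.range K, a c f' k = ∑ k ∈ Finset.range K, a c f k :=
    fun f K => ((eventually_all_finset (Finset.range K)).2 fun k _ =>
      ((continuous_apply (8 ^ k)).tendsto f).eventually (p := fun m => m = f (8 ^ k))
        (by simp)).mono fun f' h => Finset.sum_congr rfl fun k hk => by rw [a, h k hk, a]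
  have tl : ∀ (f : M) K ε, N c f ≠ ∞ → ∑' k, a c f (k + K) < ε →
      ∀ᶠ f' : M in 𝓝 f, ∑' k, a c f' (k + K) < ε := fun f K ε h3 h4 => by
    have h5 : ∑ k ∈ Finset.range K, a c f k ≠ ∞ := ne_top_of_le_ne_top h3 (ENNReal.sum_le_tsum _)
    filter_upwards [(c1.tendsto f).eventually (hd f K), (c0.snd.tendsto f).eventually
      (gt_mem_nhds (show N c f < ∑ k ∈ Finset.range K, a c f k + ε by
        rw [N, split _ K]; exact ENNReal.add_lt_add_left h5 h4))] with f' h6 h7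
    rw [N, split _ K, h6] at h7
    exact lt_of_add_lt_add_left h7
  refine ⟨continuous_induced_rng.2 (c2.prodMk (continuous_iff_lower_upperSemicontinuous.2
    ⟨(lsc c).comp c2, fun ⟨f, g⟩ y hy => ?_⟩))⟩
  have h3 : N c f ≠ ∞ := ne_top_of_le_ne_top hy.ne_top (ENNReal.tsum_le_tsum fun k => (term h1 h2 f g k).1)
  have h4 : N c g ≠ ∞ := ne_top_of_le_ne_top hy.ne_top (ENNReal.tsum_le_tsum fun k => (term h1 h2 f g k).2.1)
  obtain ⟨δ, h5, h6⟩ := ENNReal.lt_iff_exists_add_pos_lt.1 hy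
  have h7 : 0 < min 1 ((δ : ℝ≥0∞) / 9) := lt_min one_pos (ENNReal.div_pos (by simpa using h5.ne') (by simp))
  obtain ⟨K, h8, h9⟩ := (((ENNReal.tendsto_sum_nat_add _ h3).eventually (gt_mem_nhds h7)).and
    ((ENNReal.tendsto_sum_nat_add _ h4).eventually (gt_mem_nhds h7))).exists
  filter_upwards [(c2.tendsto (f, g)).eventually (hd _ K), (continuous_fst.tendsto (f, g)).eventually
    (tl f K _ h3 h8), (continuous_snd.tendsto (f, g)).eventually (tl g K _ h4 h9)] with ⟨f', g'⟩ e1 e2 e3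
  refine lt_of_le_of_lt ?_ h6
  rw [lt_min_iff] at e2 e3
  rw [N, split _ K, e1]
  refine add_le_add (ENNReal.sum_le_tsum _) ?_
  calc _ ≤ ∑' k, (8 * a c f' (k + K + 1) + a c g' (k + K)) := ENNReal.tsum_le_tsum fun k =>
        (term h1 h2 f' g' _).2.2 ((ENNReal.le_tsum (f := fun k => a c g' (k + K)) k).trans e3.1.le)
    _ ≤ 8 * (δ / 9) + δ / 9 := by
        rw [ENNReal.tsum_add, ENNReal.tsum_mul_left]
        gcongr
        · refine le_trans ?_ e2.2.le
          rw [split (fun k => a c f' (k + K)) 1]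
          simp only [add_right_comm _ K 1]
          exact le_add_self
        · exact e3.2.le
    _ = δ := by
        rw [← add_one_mul, show (8 : ℝ≥0∞) + 1 = 9 by norm_num, ENNReal.mul_div_cancel] <;> simp

noncomputable def w (x : ℝ) (k : ℕ) : ℝ≥0∞ := .ofReal (1 / (x ^ k * (k + 1) ^ 2))

noncomputable def pt (x : Ioo (1 : ℝ) 2) : M := ⟨fun n => n + ⌊x.1 ^ Nat.log 8 n⌋₊, fun h =>
  add_lt_add_of_lt_of_le h (Nat.floor_mono (pow_le_pow_right₀ x.2.1.le (Nat.log_mono_right h.le)))⟩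

theorem a_pt (x : ℝ) (y : Ioo (1 : ℝ) 2) (k : ℕ) :
    a (w x) (pt y) k = .ofReal (1 / (x ^ k * (k + 1) ^ 2) * ⌊y.1 ^ k⌋₊) := by
  rw [ENNReal.ofReal_mul' (by positivity)]
  simp [a, w, pt, Nat.log_pow]

theorem main : ¬ ∃ t : TopologicalSpace M, ∀ t' : TopologicalSpace M, @ContinuousMul M t' _ →
    @PolishSpace M t' → @SecondCountableTopology M t ∧ ∀ U, IsOpen[t'] U → IsOpen[t] U := by
  rintro ⟨t, ht⟩
  have h : ∀ x : Ioo (1 : ℝ) 2, SecondCountableTopology M ∧ IsOpen {f : M | N (w x) f < ∞} := fun x => by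
    have h0 := x.2.1
    have h0' := x.2.2
    refine (ht (T (w x)) (cm (fun k => ?_) fun k m h => ?_) (pol _)).imp id fun h => h _
      (isOpen_induced (f := fun f : M => ((f : ℕ → ℕ), N (w x) f)) (isOpen_lt continuous_snd continuous_const))
    · rw [w, w, ← ENNReal.ofReal_ofNat, ← ENNReal.ofReal_mul (by norm_num)]
      refine ENNReal.ofReal_le_ofReal ?_
      rw [mul_one_div, div_le_div_iff₀ (by positivity) (by positivity), pow_succ]
      have : (x : ℝ) * (k + 1 + 1) ^ 2 ≤ 8 * (k + 1) ^ 2 := by nlinarith [sq_nonneg (k : ℝ), k.cast_nonneg (α := ℝ)]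
      push_cast
      nlinarith [pow_pos (one_pos.trans h0) k]
    · rw [w, ← ENNReal.ofReal_natCast, ← ENNReal.ofReal_mul (by positivity), ENNReal.ofReal_le_one,
        one_div, inv_mul_le_iff₀ (by positivity), mul_one] at h
      have h3 : (k : ℝ) + 1 ≤ 2 ^ k := by exact_mod_cast Nat.lt_two_pow_self
      have : (x : ℝ) ^ k * (k + 1) ^ 2 ≤ 2 ^ k * (2 ^ k) ^ 2 := by gcongr
      rw [← pow_succ', ← pow_mul, mul_comm k, pow_mul] at this
      norm_num at this
      exact_mod_cast h.trans this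
  have := (h ⟨3 / 2, by norm_num⟩).1
  have h1 : ∀ x : Ioo (1 : ℝ) 2, N (w x) (pt x) < ∞ := fun x => by
    have h0 := x.2.1
    have hs : Summable fun k : ℕ => 1 / ((k : ℝ) + 1) ^ 2 := by
      exact_mod_cast (summable_nat_add_iff 1).2 (Real.summable_one_div_nat_pow.2 one_lt_two)
    refine lt_of_le_of_lt (ENNReal.tsum_le_tsum fun k => ?_) hs.tsum_ofReal_lt_top
    rw [a_pt]
    refine ENNReal.ofReal_le_ofReal ?_
    calc _ ≤ 1 / (x.1 ^ k * (k + 1) ^ 2) * x.1 ^ k := by gcongr; exact Nat.floor_le (by positivity)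
      _ = _ := by field_simp
  have h2 : ∀ x y : Ioo (1 : ℝ) 2, N (w x) (pt y) < ∞ → y ≤ x := fun x y h3 => not_lt.1 fun h4 => by
    have h0 := x.2.1
    have h5 : 1 < y.1 / x := (one_lt_div (by positivity)).2 h4
    obtain ⟨k, h6, h7⟩ := (((ENNReal.tendsto_atTop_zero_of_tsum_ne_top h3.ne).eventually
      (gt_mem_nhds one_pos)).and (((tendsto_pow_const_div_const_pow_of_one_lt 2 h5).comp
        (tendsto_add_atTop_nat 1)).eventually (gt_mem_nhds (by positivity : 0 < 1 / (2 * (y.1 / x)))))).exists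
    rw [a_pt, ENNReal.ofReal_lt_one, one_div, inv_mul_lt_iff₀ (by positivity), mul_one] at h6
    rw [Function.comp, div_lt_div_iff₀ (by positivity) (by positivity), pow_succ (y.1 / x), one_mul,
      ← mul_assoc, mul_lt_mul_iff_left₀ (by positivity), div_pow, lt_div_iff₀ (by positivity)] at h7
    have h8 := Nat.lt_floor_add_one (y.1 ^ k)
    have h9 : 1 ≤ x.1 ^ k * ((k : ℝ) + 1) ^ 2 :=
      one_le_mul_of_one_le_of_one_le (one_le_pow₀ h0.le) (one_le_pow₀ (by simp))
    push_cast at h7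
    linarith
  choose B h3 h4 h5 using fun x => (isBasis_countableBasis M).exists_subset_of_mem_open (h1 x) (h x).2
  have := (countable_countableBasis M).to_subtype
  have := (show Function.Injective fun x => (⟨B x, h3 x⟩ : countableBasis M) from fun x y e => by
    have e' : B x = B y := congrArg Subtype.val e
    exact (h2 y x (h5 y (e' ▸ h4 x))).antisymm (h2 x y (h5 x (e' ▸ h4 y)))).countable
  exact absurd (Cardinal.Real.Ioo_countable_iff.1 (countable_coe_iff.1 this)) (by norm_num)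

end Pool.Agent.H70.EndN
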