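import Pool.Agent.H74.Amalg

set_option autoImplicit false

namespace Pool.Agent.H70.Ext

open Pool.Agent.H74.Amalg

theorem tors {Γ : Type} [Group Γ] {A : Bool → Subgroup Γ} {E : Subgroup Γ} (hN : NF A E)
    (m : ℕ) (g : Γ) (hg : g ^ (m + 1) = 1) : ∃ h j, h⁻¹ * g * h ∈ A j := by
  rcases hN.gen g with h | ⟨i, k, n, hw⟩
  · exact ⟨1, true, by simpa using hN.le true h⟩
  induction n using Nat.strong_induction_on generalizing g i k with
  | _ n ih =>
    cases hw with
    | single _ y hy hy' => exact ⟨1, i, by simpa using hy⟩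
    | cons _ j _ n x h hx hx' hij hh =>
      by_cases hki : k = i
      · subst hki
        have h3 : (h * x) ^ (m + 1) = 1 := by
          have : h * x = x⁻¹ * (x * h) * x⁻¹⁻¹ := by group
          rw [this, conj_pow, hg]
          group
        rcases hh.mul_right hN.le hx with h' | ⟨k', n', hn', h'⟩
        · exact ⟨x, true, by simpa [mul_assoc] using hN.le true h'⟩
        · obtain ⟨z, l, hz⟩ := ih n' (by omega) (h * x) h3 _ _ h'
          exact ⟨x * z, l, by simpa [mul_assoc] using hz⟩
      · exfalso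
        have hw := W.cons i j k n x h hx hx' hij hh
        have : ∀ m : ℕ, ∃ n', W A E i k n' ((x * h) ^ (m + 1)) := by
          intro m
          induction m with
          | zero => exact ⟨_, by simpa using hw⟩
          | succ m ih =>
            obtain ⟨n', h'⟩ := ih
            exact ⟨_, by rw [pow_succ]; exact h'.append hw hki⟩
        obtain ⟨n', h'⟩ := this m
        exact hN.notMem _ _ _ _ h' (hg ▸ E.one_mem)

structure Good (p : ℕ) (R : Type) [CommRing R] (P : Type) (X : Rˣ) : Prop where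
  pp : (p : R) * p = 0
  p0 : (p : R) ≠ 0
  un : ∀ y : R, y ≠ 0 → ∃ u : Rˣ, y = u ∨ y = p * u
  inf : ∀ k : ℤ, k ≠ 0 → IsUnit (((X ^ k : Rˣ) : R) - 1)
  big : ∀ f : R → P, ¬ Function.Injective f

theorem ex_ring (p : ℕ) [Fact p.Prime] (P : Type) :
    ∃ (R : Type) (_ : CommRing R) (X : Rˣ), Good p R P X := by
  obtain ⟨F, _, _, _, ι, hι, hι'⟩ : ∃ (F : Type) (_ : Field F) (_ : CharP F p) (_ : IsAlgClosed F)
      (ι : Set P → F), Function.Injective ι ∧ ∀ k : ℕ, 0 < k → ι ∅ ≠ 0 ∧ ι ∅ ^ k ≠ 1 := by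
    have hinj : Function.Injective (algebraMap (MvPolynomial (Set P) (ZMod p))
        (AlgebraicClosure (FractionRing (MvPolynomial (Set P) (ZMod p))))) := by
      rw [IsScalarTower.algebraMap_eq _ (FractionRing (MvPolynomial (Set P) (ZMod p))),
        RingHom.coe_comp]
      exact (RingHom.injective _).comp (IsFractionRing.injective _ _)
    refine ⟨AlgebraicClosure (FractionRing (MvPolynomial (Set P) (ZMod p))), inferInstance,
      inferInstance, inferInstance,
      fun s => algebraMap (MvPolynomial (Set P) (ZMod p)) _ (MvPolynomial.X s),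
      hinj.comp MvPolynomial.X_injective, fun k hk => ⟨fun h => ?_, fun h => ?_⟩⟩
    · exact MvPolynomial.X_ne_zero _ (hinj (h.trans (map_zero _).symm))
    · rw [← map_pow] at h
      have := congrArg (MvPolynomial.eval fun _ => 0) (hinj (h.trans (map_one _).symm))
      simp [hk.ne'] at this
  obtain ⟨I, hI⟩ : ∃ I : Ideal (WittVector p F), I = Ideal.span {(p : WittVector p F) ^ 2} :=
    ⟨_, rfl⟩
  have hu : ∀ x : WittVector p F, x.coeff 0 ≠ 0 → IsUnit (Ideal.Quotient.mk I x) := fun x hx =>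
    (WittVector.isUnit_of_coeff_zero_ne_zero x hx).map _
  have hpp : (p : WittVector p F ⧸ I) * p = 0 := by
    rw [← map_natCast (Ideal.Quotient.mk I), ← map_mul, Ideal.Quotient.eq_zero_iff_mem, hI, ← sq]
    exact Ideal.mem_span_singleton_self _
  obtain ⟨X, hX⟩ := hu (WittVector.teichmuller p (ι ∅)) (hι' 1 one_pos).1
  have hnat : ∀ k : ℕ, 0 < k → IsUnit (((X ^ (k : ℤ) : _ˣ) : WittVector p F ⧸ I) - 1) := by
    intro k hk
    rw [zpow_natCast, Units.val_pow_eq_pow_val, hX, ← map_pow, ← map_one (Ideal.Quotient.mk I),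
      ← map_sub]
    refine hu _ ?_
    rw [← WittVector.constantCoeff_apply, map_sub, map_pow, map_one, sub_ne_zero]
    exact (hι' k hk).2
  refine ⟨WittVector p F ⧸ I, inferInstance, X, hpp, ?_, ?_, ?_, ?_⟩
  · rw [← map_natCast (Ideal.Quotient.mk I), Ne, Ideal.Quotient.eq_zero_iff_mem, hI,
      Ideal.mem_span_singleton']
    rintro ⟨c, hc⟩
    have h := WittVector.irreducible p (k := F)
    apply h.not_isUnit
    refine IsUnit.of_mul_eq_one c (mul_left_cancel₀ h.ne_zero ?_)
    linear_combination hc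
  · intro y hy
    obtain ⟨a, rfl⟩ := Ideal.Quotient.mk_surjective y
    obtain ⟨m, b, rfl⟩ := WittVector.exists_eq_pow_p_mul' a (by rintro rfl; simp at hy)
    refine ⟨Units.map (Ideal.Quotient.mk I).toMonoidHom b, ?_⟩
    rcases m with _ | _ | m
    · left; simp
    · right; simp
    · exfalso
      apply hy
      rw [map_mul, map_pow, map_natCast]
      linear_combination (p : WittVector p F ⧸ I) ^ m * Ideal.Quotient.mk I b * hpp
  · intro k hk
    rcases Int.natAbs_eq k with h | h
    · rw [h]; exact hnat _ (Int.natAbs_pos.2 hk)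
    · have := (hnat _ (Int.natAbs_pos.2 hk)).mul (X ^ k).isUnit
      rw [sub_mul, ← Units.val_mul, ← zpow_add, show (k.natAbs : ℤ) + k = 0 by omega] at this
      simpa using this.neg
  · intro f hf
    refine Function.cantor_injective
      (fun s : Set P => f (Ideal.Quotient.mk I (WittVector.teichmuller p (ι s)))) fun s t h => ?_
    have h1 := Ideal.Quotient.eq.1 (hf h)
    rw [hI, Ideal.mem_span_singleton'] at h1
    obtain ⟨c, hc⟩ := h1
    have h2 := congrArg WittVector.constantCoeff hc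
    rw [map_mul, map_pow, map_natCast, CharP.cast_eq_zero, map_sub] at h2
    exact hι (sub_eq_zero.1 (by simpa using h2.symm))

@[ext]
structure Aff (Q N : Type) where
  n : N
  q : Q

section
variable {Q N : Type} [Group Q] [AddCommGroup N] [DistribMulAction Q N]

instance : Mul (Aff Q N) := ⟨fun a b => ⟨a.n + a.q • b.n, a.q * b.q⟩⟩
instance : One (Aff Q N) := ⟨⟨0, 1⟩⟩
instance : Inv (Aff Q N) := ⟨fun a => ⟨-(a.q⁻¹ • a.n), a.q⁻¹⟩⟩

@[simp] theorem mul_n (a b : Aff Q N) : (a * b).n = a.n + a.q • b.n := rfl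
@[simp] theorem mul_q (a b : Aff Q N) : (a * b).q = a.q * b.q := rfl
@[simp] theorem one_n : (1 : Aff Q N).n = 0 := rfl
@[simp] theorem one_q : (1 : Aff Q N).q = 1 := rfl
@[simp] theorem inv_n (a : Aff Q N) : a⁻¹.n = -(a.q⁻¹ • a.n) := rfl
@[simp] theorem inv_q (a : Aff Q N) : a⁻¹.q = a.q⁻¹ := rfl

instance : Group (Aff Q N) := Group.ofLeftAxioms
  (fun a b c => by ext <;> simp [mul_smul, add_assoc, mul_assoc])
  (fun a => by ext <;> simp) (fun a => by ext <;> simp)

def inN : Multiplicative N →* Aff Q N where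
  toFun n := ⟨n.toAdd, 1⟩
  map_one' := rfl
  map_mul' a b := by ext <;> simp

def inQ : Q →* Aff Q N where
  toFun q := ⟨0, q⟩
  map_one' := rfl
  map_mul' a b := by ext <;> simp

def prQ : Aff Q N →* Q where
  toFun a := a.q
  map_one' := rfl
  map_mul' _ _ := rfl

def iN (Q : Type) [Group Q] [DistribMulAction Q N] (n : N) : Aff Q N := ⟨n, 1⟩

theorem iN_add (a b : N) : iN Q (a + b) = iN Q a * iN Q b := by ext <;> simp [iN]

theorem iN_zero : iN Q (0 : N) = 1 := rfl

theorem iN_neg (a : N) : iN Q (-a) = (iN Q a)⁻¹ := by ext <;> simp [iN]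

theorem iN_conj (x : Aff Q N) (a : N) : x * iN Q a * x⁻¹ = iN Q (x.q • a) := by
  ext <;> simp [iN]

theorem iN_nsmul (k : ℕ) (a : N) : iN Q (k • a) = iN Q a ^ k := by
  induction k with
  | zero => simp [iN_zero]
  | succ k ih => rw [succ_nsmul, iN_add, ih, pow_succ]

theorem iN_inj {a b : N} (h : iN Q a = iN Q b) : a = b := congrArg Aff.n h

theorem decomp (x : Aff Q N) : x = iN Q x.n * inQ x.q := by ext <;> simp [iN, inQ]

end

end Pool.Agent.H70.Ext
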