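import Pool.Agent.H70.Ext1

set_option autoImplicit false

namespace Pool.Agent.H70.Ext

def pr : Bool → ℕ
  | true => 3
  | false => 5

structure Dat (P : Type) [Group P] where
  R : Bool → Type
  [cr : ∀ i, CommRing (R i)]
  X : ∀ i, (R i)ˣ
  good : ∀ i, Good (pr i) (R i) P (X i)
  C : Bool → Subgroup P
  χ : ∀ i, C i →* Multiplicative ℤ

attribute [instance] Dat.cr

namespace Dat

variable {P : Type} [Group P] (D : Dat P)

abbrev Q : Type := P × (∀ i, (D.R i)ˣ)

def M : Type := ∀ i, P → D.R i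

instance : AddCommGroup D.M := inferInstanceAs (AddCommGroup (∀ i, P → D.R i))

instance : SMul D.Q D.M := ⟨fun q f i x => q.2 i * f i (q.1⁻¹ * x)⟩

theorem smul_app (q : D.Q) (f : D.M) (i : Bool) (x : P) :
    (q • f) i x = q.2 i * f i (q.1⁻¹ * x) := rfl

theorem add_app (f g : D.M) (i : Bool) (x : P) : (f + g) i x = f i x + g i x := rfl
theorem sub_app (f g : D.M) (i : Bool) (x : P) : (f - g) i x = f i x - g i x := rfl
theorem neg_app (f : D.M) (i : Bool) (x : P) : (-f) i x = -f i x := rfl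
theorem zero_app (i : Bool) (x : P) : (0 : D.M) i x = 0 := rfl
theorem nsmul_app (k : ℕ) (f : D.M) (i : Bool) (x : P) : (k • f) i x = k • f i x := rfl

instance : DistribMulAction D.Q D.M where
  one_smul f := funext fun i => funext fun x => by simp [smul_app]
  mul_smul a b f := funext fun i => funext fun x => by simp [smul_app, mul_assoc]
  smul_zero a := funext fun i => funext fun x => by simp [smul_app, zero_app]
  smul_add a f g := funext fun i => funext fun x => by simp [smul_app, add_app, mul_add]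

open Classical in
noncomputable def e0 (i : Bool) (x : P) : D.R i :=
  if h : x ∈ D.C i then ((D.X i ^ (-(D.χ i ⟨x, h⟩).toAdd) : (D.R i)ˣ) : D.R i) else 0

noncomputable def e (i : Bool) (r : D.R i) : D.M :=
  (Pi.single i (fun x => D.e0 i x * r) : ∀ i, P → D.R i)

theorem e_same (i : Bool) (r : D.R i) (x : P) : D.e i r i x = D.e0 i x * r := by
  simp [e]

theorem e_ne {i j : Bool} (h : j ≠ i) (r : D.R i) (x : P) : D.e i r j x = 0 := by
  simp [e, h]

theorem e0_one (i : Bool) : D.e0 i 1 = 1 := by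
  rw [e0, dif_pos (D.C i).one_mem, show (⟨1, (D.C i).one_mem⟩ : D.C i) = 1 from rfl, map_one]
  simp

theorem e0_not {i : Bool} {x : P} (h : x ∉ D.C i) : D.e0 i x = 0 := dif_neg h

theorem e0_mul (i : Bool) (c : D.C i) (x : P) :
    D.e0 i (c.1⁻¹ * x) = D.e0 i x * (D.X i ^ (D.χ i c).toAdd : (D.R i)ˣ) := by
  by_cases h : x ∈ D.C i
  · have h' := (D.C i).mul_mem ((D.C i).inv_mem c.2) h
    rw [e0, e0, dif_pos h, dif_pos h', ← Units.val_mul, ← zpow_add,
      show (⟨c.1⁻¹ * x, h'⟩ : D.C i) = c⁻¹ * ⟨x, h⟩ from rfl, map_mul, map_inv]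
    congr 2
    simp
  · rw [D.e0_not h, D.e0_not, zero_mul]
    rwa [(D.C i).mul_mem_cancel_left ((D.C i).inv_mem c.2)]

def N : AddSubgroup D.M := AddSubgroup.closure {y | ∃ i r, ∃ q : D.Q, y = q • D.e i r}

theorem smul_mem (q : D.Q) {y : D.M} (hy : y ∈ D.N) : q • y ∈ D.N := by
  induction hy using AddSubgroup.closure_induction with
  | mem y hy =>
    obtain ⟨i, r, q', rfl⟩ := hy
    exact AddSubgroup.subset_closure ⟨i, r, q * q', (mul_smul _ _ _).symm⟩
  | zero => rw [smul_zero]; exact zero_mem _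
  | add a b _ _ ha hb => rw [smul_add]; exact add_mem ha hb
  | neg a _ ha => rw [smul_neg]; exact neg_mem ha

instance : SMul D.Q D.N := ⟨fun q y => ⟨q • y.1, D.smul_mem q y.2⟩⟩

theorem coe_smul (q : D.Q) (y : D.N) : (q • y).1 = q • y.1 := rfl

instance : DistribMulAction D.Q D.N where
  one_smul f := Subtype.ext (one_smul _ f.1)
  mul_smul a b f := Subtype.ext (mul_smul a b f.1)
  smul_zero a := Subtype.ext (smul_zero a)
  smul_add a f g := Subtype.ext (smul_add a f.1 g.1)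

theorem fin (y : D.N) (i : Bool) :
    ∃ s : Set P, s.Finite ∧ ∀ x, y.1 i x ≠ 0 → ∃ g ∈ s, g⁻¹ * x ∈ D.C i := by
  obtain ⟨y, hy⟩ := y
  simp only
  induction hy using AddSubgroup.closure_induction with
  | mem y hy =>
    obtain ⟨j, r, q, rfl⟩ := hy
    refine ⟨{q.1}, Set.finite_singleton _, fun x hx => ⟨q.1, rfl, ?_⟩⟩
    by_contra h
    apply hx
    show q.2 i * D.e j r i (q.1⁻¹ * x) = 0
    by_cases hij : i = j
    · subst hij; rw [e_same, D.e0_not h]; simp
    · rw [D.e_ne hij, mul_zero]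
  | zero => exact ⟨∅, Set.finite_empty, fun x hx => absurd rfl hx⟩
  | add a b _ _ ha hb =>
    obtain ⟨s, hs, ha⟩ := ha
    obtain ⟨t, ht, hb⟩ := hb
    refine ⟨s ∪ t, hs.union ht, fun x hx => ?_⟩
    by_cases h : a i x = 0
    · obtain ⟨g, hg, h'⟩ := hb x (fun h' => hx (by rw [add_app, h, zero_add]; exact h'))
      exact ⟨g, Or.inr hg, h'⟩
    · obtain ⟨g, hg, h'⟩ := ha x h
      exact ⟨g, Or.inl hg, h'⟩
  | neg a _ ha =>
    obtain ⟨s, hs, ha⟩ := ha
    exact ⟨s, hs, fun x hx => ha x (fun h => hx (by rw [neg_app]; exact neg_eq_zero.2 h))⟩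

noncomputable def eN (i : Bool) : D.R i →+ D.N := AddMonoidHom.mk'
  (fun r => ⟨D.e i r, AddSubgroup.subset_closure ⟨i, r, 1, (one_smul _ _).symm⟩⟩) fun a b =>
    Subtype.ext (funext fun j => funext fun x => by
      show D.e i (a + b) j x = D.e i a j x + D.e i b j x
      by_cases h : j = i
      · subst h; simp [e_same, mul_add]
      · simp [D.e_ne h])

theorem eN_coe (i : Bool) (r : D.R i) : (D.eN i r).1 = D.e i r := rfl

theorem eN_S (i : Bool) (s : ∀ i, (D.R i)ˣ) (r : D.R i) :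
    ((1, s) : D.Q) • D.eN i r = D.eN i (s i * r) :=
  Subtype.ext (funext fun j => funext fun x => by
    show s j * D.e i r j (1⁻¹ * x) = D.e i (s i * r) j x
    by_cases h : j = i
    · subst h; simp [e_same, mul_left_comm]
    · simp [D.e_ne h])

theorem eN_C (i : Bool) (c : D.C i) (r : D.R i) :
    ((c.1, 1) : D.Q) • D.eN i r = D.eN i ((D.X i ^ (D.χ i c).toAdd : (D.R i)ˣ) * r) :=
  Subtype.ext (funext fun j => funext fun x => by
    show (1 : (D.R j)ˣ) * D.e i r j (c.1⁻¹ * x) = D.e i _ j x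
    by_cases h : j = i
    · subst h; simp [e_same, e0_mul, mul_assoc]
    · simp [D.e_ne h])

abbrev H0 : Type := Aff D.Q D.N

noncomputable def v (i : Bool) (r : D.R i) : D.H0 := iN D.Q (D.eN i r)

def sc (i : Bool) (s : (D.R i)ˣ) : D.H0 := inQ (1, Pi.mulSingle i s)

def inP : P →* D.H0 := inQ.comp (MonoidHom.inl _ _)

def prP : D.H0 →* P := (MonoidHom.fst _ _).comp prQ

theorem v_add (i : Bool) (a b : D.R i) : D.v i (a + b) = D.v i a * D.v i b := by
  rw [v, map_add, iN_add]; rfl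

theorem v_sub (i : Bool) (a b : D.R i) : D.v i (a - b) = D.v i a * (D.v i b)⁻¹ := by
  rw [eq_mul_inv_iff_mul_eq, ← v_add, sub_add_cancel]

theorem v_zero (i : Bool) : D.v i 0 = 1 := by rw [v, map_zero]; rfl

theorem v_pow (i : Bool) (k : ℕ) (a : D.R i) : D.v i (k * a) = D.v i a ^ k := by
  rw [v, ← nsmul_eq_mul, map_nsmul, iN_nsmul]; rfl

theorem v_sc (i : Bool) (s : (D.R i)ˣ) (a : D.R i) :
    D.sc i s * D.v i a * (D.sc i s)⁻¹ = D.v i (s * a) := by
  rw [v, iN_conj]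
  exact congrArg _ ((D.eN_S i _ a).trans (by simp))

theorem v_C (i : Bool) (c : D.C i) (a : D.R i) : D.inP c * D.v i a * (D.inP c)⁻¹ =
    D.v i ((D.X i ^ (D.χ i c).toAdd : (D.R i)ˣ) * a) := by
  rw [v, iN_conj]
  exact congrArg _ (D.eN_C i _ a)

theorem ideal (K : Subgroup D.H0) [hK : K.Normal] (i : Bool) {r : D.R i} (hr : r ≠ 0)
    (h : D.v i r ∈ K) (r' : D.R i) : D.v i (pr i * r') ∈ K := by
  have hc : ∀ (u : (D.R i)ˣ) a, D.v i a ∈ K → D.v i (u * a) ∈ K := fun u a ha =>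
    D.v_sc i u a ▸ hK.conj_mem _ ha _
  have h1 : D.v i (pr i) ∈ K := by
    obtain ⟨u, rfl | rfl⟩ := (D.good i).un r hr
    · have := K.pow_mem (hc u⁻¹ _ h) (pr i)
      rwa [← v_pow, Units.inv_mul, mul_one] at this
    · have := hc u⁻¹ _ h
      rwa [mul_left_comm, Units.inv_mul, mul_one] at this
  by_cases h0 : r' = 0
  · rw [h0, mul_zero, v_zero]; exact K.one_mem
  obtain ⟨u, rfl | rfl⟩ := (D.good i).un r' h0
  · rw [mul_comm]; exact hc u _ h1
  · rw [← mul_assoc, (D.good i).pp, zero_mul, v_zero]; exact K.one_mem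

theorem v_inj {G : Type} [Group G] (β : D.H0 →* G) (i : Bool) (h : β (D.v i (pr i)) ≠ 1)
    {r : D.R i} (hr : β (D.v i r) = 1) : r = 0 := by
  by_contra h0
  exact h (by simpa using D.ideal β.ker i h0 hr 1)

theorem core (β : D.H0 →* D.H0) (i : Bool) (hβ : β (D.v i (pr i)) ≠ 1)
    (hC : D.C i ≤ commutator P) : ∃ h : P, ∀ c : D.C i, D.χ i c ≠ 1 →
      ¬ IsOfFinOrder (D.prP (β (D.inP c))) ∧
      ∃ k : ℕ, 0 < k ∧ h⁻¹ * D.prP (β (D.inP c)) ^ k * h ∈ D.C i := by
  obtain ⟨φ, hφ⟩ : ∃ φ : D.H0 →* (∀ i, (D.R i)ˣ), ∀ x, φ x = (β x).q.2 :=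
    ⟨((MonoidHom.snd _ _).comp prQ).comp β, fun _ => rfl⟩
  have hS : ∀ r, (β (D.v i r)).q.2 = 1 := by
    intro r
    obtain ⟨u, hu⟩ := (D.good i).inf 1 one_ne_zero
    have : r = D.X i * (u⁻¹ * r) - u⁻¹ * r := by
      rw [← sub_one_mul, ← zpow_one (D.X i), ← hu, Units.mul_inv_cancel_left]
    rw [← hφ, this, v_sub, ← v_sc]
    simp
  have hK : ∀ r, (β (D.v i (pr i * r))).q = 1 := by
    obtain ⟨a, b, h1, h2⟩ := Function.not_injective_iff.1
      ((D.good i).big fun r => (β (D.v i r)).q.1)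
    refine D.ideal (prQ.comp β).ker i (sub_ne_zero.2 h2) ?_
    rw [MonoidHom.mem_ker, v_sub, map_mul, map_inv, mul_inv_eq_one]
    exact Prod.ext h1 ((hS a).trans (hS b).symm)
  obtain ⟨m, hm⟩ : ∃ m : D.R i → D.N, ∀ r, β (D.v i (pr i * r)) = iN D.Q (m r) :=
    ⟨fun r => (β (D.v i (pr i * r))).n, fun r => Aff.ext rfl (hK r)⟩
  have m0 : ∀ u : D.R i, IsUnit u → m u ≠ 0 := by
    intro u hu h
    have := D.v_inj β i hβ ((hm u).trans (by rw [h]; rfl))
    exact (D.good i).p0 (hu.mul_left_eq_zero.1 this)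
  have msub : ∀ a b, m (a - b) = m a - m b := by
    intro a b
    apply iN_inj (Q := D.Q)
    rw [sub_eq_add_neg (m a), iN_add, iN_neg, ← hm, ← hm, ← hm, mul_sub, v_sub, map_mul, map_inv]
  obtain ⟨h, hh⟩ : ∃ h, (m 1).1 i h ≠ 0 := by
    by_contra hcon
    push Not at hcon
    refine m0 1 isUnit_one (Subtype.ext (funext fun j => funext fun x => ?_))
    by_cases hj : j = i
    · subst hj; exact hcon x
    have h1 : pr i • m 1 = 0 := by
      apply iN_inj (Q := D.Q)
      rw [iN_nsmul, ← hm, ← map_pow, ← v_pow, mul_one, (D.good i).pp, v_zero, map_one]; rfl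
    have h2 : (pr i : D.R j) * (m 1).1 j x = 0 := by
      rw [← nsmul_eq_mul]
      exact congrFun (congrFun (congrArg Subtype.val h1) j) x
    have h3 := (D.good j).pp
    show (m 1).1 j x = 0
    generalize (m 1).1 j x = y at h2
    cases i <;> cases j <;> simp only [pr, Nat.cast_ofNat, not_true_eq_false] at hj h2 h3
    · linear_combination 2 * h2 - y * h3
    · linear_combination -8 * h2 + y * h3
  obtain ⟨γ, hγ⟩ : ∃ γ : P →* P, ∀ x, D.prP (β (D.inP x)) = γ x :=
    ⟨(D.prP.comp β).comp D.inP, fun _ => rfl⟩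
  have hc : ∀ (c : D.C i) (k : ℕ) r, ((γ c ^ k, 1) : D.Q) • m r =
      m ((D.X i ^ (k * (D.χ i c).toAdd) : (D.R i)ˣ) * r) := by
    intro c k r
    have h1 : φ (D.inP (c ^ k : D.C i)) = 1 :=
      Abelianization.commutator_subset_ker (φ.comp D.inP) (hC (c ^ k).2)
    have h2 : (β (D.inP (c ^ k : D.C i))).q = (γ c ^ k, 1) :=
      Prod.ext (by rw [← map_pow, ← hγ]; rfl) ((hφ _).symm.trans h1)
    apply iN_inj (Q := D.Q)
    rw [← h2, ← iN_conj, ← hm, ← hm, ← map_mul, ← map_inv, ← map_mul, v_C, mul_left_comm, map_pow]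
    simp
  refine ⟨h, fun c hc0 => ?_⟩
  have hu : ∀ k : ℕ, 0 < k → IsUnit (((D.X i ^ (k * (D.χ i c).toAdd) : (D.R i)ˣ) : D.R i) - 1) :=
    fun k hk => (D.good i).inf _ (mul_ne_zero (by omega) hc0)
  rw [hγ]
  constructor
  · intro hf
    obtain ⟨k, hk, h1⟩ := isOfFinOrder_iff_pow_eq_one.1 hf
    have := hc c k 1
    rw [h1, show ((1, 1) : D.Q) = 1 from rfl, one_smul, mul_one] at this
    exact m0 _ (hu k hk) (by rw [msub, ← this, sub_self])
  by_contra hcon
  push Not at hcon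
  have hfin : ∀ y : D.N, {j : ℤ | y.1 i (γ c ^ j * h) ≠ 0}.Finite := by
    intro y
    obtain ⟨s, hs, hy⟩ := D.fin y i
    refine (hs.biUnion (t := fun g => {j : ℤ | g⁻¹ * (γ c ^ j * h) ∈ D.C i}) fun g _ =>
      Set.Subsingleton.finite fun a ha b hb => ?_).subset fun j hj => ?_
    · wlog hab : a ≤ b generalizing a b
      · exact (this b hb a ha (by omega)).symm
      by_contra hne
      apply hcon (b - a).toNat (by omega)
      have := (D.C i).mul_mem ((D.C i).inv_mem ha) hb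
      rw [← zpow_natCast, Int.toNat_of_nonneg (by omega)]
      convert this using 1
      group
    · obtain ⟨g, hg, h'⟩ := hy _ hj
      exact Set.mem_biUnion hg h'
  obtain ⟨K, hK⟩ : ∃ K : ℕ, ∀ j : ℤ, (m 1).1 i (γ c ^ j * h) ≠ 0 → j.natAbs ≤ K := by
    obtain ⟨K, hK⟩ := ((hfin (m 1)).image Int.natAbs).bddAbove
    exact ⟨K, fun j hj => hK ⟨j, hj, rfl⟩⟩
  obtain ⟨u, hu'⟩ := hu (K + 1) (by omega)
  obtain ⟨Y, hY⟩ : ∃ Y : ℤ → D.R i, ∀ j,
    Y j = (m (u⁻¹ : _ˣ)).1 i (γ c ^ (j * (K + 1 : ℕ)) * h) := ⟨_, fun _ => rfl⟩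
  have hrec : ∀ j, Y (j - 1) - Y j = (m 1).1 i (γ c ^ (j * (K + 1 : ℕ)) * h) := by
    intro j
    have h1 : m 1 = ((γ c ^ (K + 1), 1) : D.Q) • m (u⁻¹ : _ˣ) - m (u⁻¹ : _ˣ) := by
      rw [hc, ← msub, ← sub_one_mul, ← hu', Units.mul_inv]
    rw [h1, hY, hY]
    show _ = (1 : (D.R i)ˣ) * (m (u⁻¹ : _ˣ)).1 i ((γ c ^ (K + 1))⁻¹ * _) - _
    rw [Units.val_one, one_mul, ← mul_assoc, ← zpow_natCast, ← zpow_neg, ← zpow_add,
      show (j - 1) * ((K + 1 : ℕ) : ℤ) = -((K + 1 : ℕ) : ℤ) + j * (K + 1 : ℕ) by ring]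
  have hstep : ∀ j : ℤ, j ≠ 0 → Y (j - 1) = Y j := by
    intro j hj
    rw [← sub_eq_zero, hrec]
    by_contra hne
    have := hK _ hne
    rw [Int.natAbs_mul, Int.natAbs_natCast] at this
    have : 1 ≤ j.natAbs := Int.natAbs_pos.2 hj
    nlinarith
  have hYfin : {j : ℤ | Y j ≠ 0}.Finite := by
    refine ((hfin (m (u⁻¹ : _ˣ))).preimage (f := fun j : ℤ => j * (K + 1 : ℕ))
      fun a _ b _ hab => mul_right_cancel₀ (by omega) hab).subset fun j hj => ?_
    rw [Set.mem_setOf_eq, hY] at hj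
    exact hj
  have z0 : Y 0 = 0 := by
    by_contra hne
    refine Set.infinite_of_injective_forall_mem (f := fun n : ℕ => (n : ℤ))
      Nat.cast_injective (fun n => ?_) hYfin
    induction n with
    | zero => exact hne
    | succ n ih =>
      have := hstep (n + 1) (by omega)
      rw [add_sub_cancel_right] at this
      simpa [← this] using ih
  have z1 : Y (-1) = 0 := by
    by_contra hne
    refine Set.infinite_of_injective_forall_mem (f := fun n : ℕ => -1 - (n : ℤ))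
      (fun a b hab => by simpa using hab) (fun n => ?_) hYfin
    induction n with
    | zero => simpa using hne
    | succ n ih =>
      have := hstep (-1 - n) (by omega)
      rw [Set.mem_setOf_eq, show -1 - ((n + 1 : ℕ) : ℤ) = -1 - n - 1 by push_cast; ring, this]
      exact ih
  have := hrec 0
  rw [zero_sub, z0, z1, zero_mul, zpow_zero, one_mul, sub_zero] at this
  exact hh this.symm

end Dat

end Pool.Agent.H70.Ext
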