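import Pool.Agent.H70.Ext2

set_option autoImplicit false

namespace Pool.Agent.H70.Ext

open Pool.Agent.H74.Amalg

def GG (A B : Type) : Bool → Type
  | true => A
  | false => B

instance {A B : Type} [iA : Group A] [iB : Group B] : ∀ i, Group (GG A B i)
  | true => iA
  | false => iB

def φφ {A B E : Type} [Group A] [Group B] [Group E] (a : E →* A) (b : E →* B) :
    ∀ i, E →* GG A B i
  | true => a
  | false => b

theorem ex_amalg {A B E : Type} [iA : Group A] [iB : Group B] [Group E] (a : E →* A) (b : E →* B)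
    (ha : Function.Injective a) (hb : Function.Injective b) :
    ∃ (H : Type) (_ : Group H) (f : A →* H) (g : B →* H) (S : Bool → Subgroup H),
      Function.Injective f ∧ (∀ e, f (a e) = g (b e)) ∧ S true = f.range ∧ S false = g.range ∧
      NF S (f.comp a).range := by
  let φ := φφ a b
  have hφ : ∀ i, Function.Injective (φ i) := fun i => by cases i; exacts [hb, ha]
  refine ⟨Monoid.PushoutI φ, inferInstance, Monoid.PushoutI.of (φ := φ) true,
    Monoid.PushoutI.of (φ := φ) false, fun i => (Monoid.PushoutI.of (φ := φ) i).range,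
    Monoid.PushoutI.of_injective hφ true, fun e =>
      (Monoid.PushoutI.of_apply_eq_base φ true e).trans
        (Monoid.PushoutI.of_apply_eq_base φ false e).symm, rfl, rfl, ?_⟩
  have := pushout_NF φ hφ
  rwa [← Monoid.PushoutI.of_comp_eq_base true] at this

instance (i : Bool) : Fact (pr i).Prime := ⟨by cases i <;> decide⟩

abbrev E : Type := Multiplicative (∀ i : Bool, ZMod (pr i))

def δ (i : Bool) : E := Multiplicative.ofAdd (Pi.single i 1)

theorem E_pow (e : E) : e ^ 15 = 1 := by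
  ext i
  rw [toAdd_pow]
  show (15 : ℕ) • e.toAdd i = 0
  generalize e.toAdd i = x
  revert x
  cases i <;> decide

def σ : MulAut (E × E) := MulEquiv.prodComm

abbrev K : Type := SemidirectProduct (E × E) (Subgroup.zpowers σ) (Subgroup.zpowers σ).subtype

theorem EE_pow (d : E × E) : d ^ 30 = 1 := by
  rw [show 30 = 15 * 2 from rfl, pow_mul]
  ext1 <;> simp [E_pow]

theorem K_pow (k : K) : k ^ 30 = 1 := by
  have h1 : k.right * k.right = 1 := by
    obtain ⟨_, n, rfl⟩ := k.right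
    apply Subtype.ext
    show σ ^ n * σ ^ n = 1
    rw [← Commute.mul_zpow (Commute.refl _), show σ * σ = 1 from rfl, one_zpow]
  have h2 : k ^ 2 = SemidirectProduct.inl (k ^ 2).left := by
    ext1
    · rfl
    · simpa [sq] using h1
  rw [show 30 = 2 * 15 from rfl, pow_mul, h2, ← map_pow]
  rw [show (k ^ 2).left ^ 15 = 1 by ext1 <;> simp [E_pow], map_one]

namespace Dat

variable {P : Type} [Group P] (D : Dat P)

theorem ex_κ (i : Bool) : ∃ κ : ZMod (pr i) →+ D.R i, κ 1 = pr i ∧ ∀ k, κ k = 0 → k = 0 := by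
  obtain ⟨κ, h1⟩ : ∃ κ : ZMod (pr i) →+ D.R i, κ 1 = pr i :=
    ⟨ZMod.lift (pr i) ⟨zmultiplesHom (D.R i) (pr i : D.R i), by simpa using (D.good i).pp⟩, by
      rw [← Int.cast_one, ZMod.lift_coe]; simp⟩
  refine ⟨κ, h1, fun k hk => ?_⟩
  by_contra h0
  apply (D.good i).p0
  rw [← h1, ← inv_mul_cancel₀ h0, ← ZMod.natCast_zmod_val k⁻¹, ← nsmul_eq_mul, map_nsmul, hk,
    smul_zero]

theorem h30 (i : Bool) : ((30 : ℕ) : D.R i) ≠ 0 := by
  intro h
  have h1 := (D.good i).pp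
  apply (D.good i).p0
  cases i <;> simp only [pr, Nat.cast_ofNat] at h h1 ⊢
  · linear_combination h - h1
  · linear_combination h - 3 * h1

theorem ex_j (τ : E →* P) (hτ : ∀ i e, τ e ∈ D.C i → e = 1) :
    ∃ j : E × E →* D.H0, Function.Injective j ∧ (∀ e, j (1, e) = D.inP (τ e)) ∧
      (∀ d, D.prP (j d) = τ d.2) ∧
      ∀ i (L : Subgroup D.H0), L.Normal → D.v i (pr i) ∈ L → j (δ i, 1) ∈ L := by
  choose κ hκ1 hκ2 using D.ex_κ
  obtain ⟨ρ, hρ⟩ : ∃ ρ : (∀ i, ZMod (pr i)) →+ D.N,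
      ∀ e, ρ e = ∑ i, ∑ t : E, ((τ t, 1) : D.Q) • D.eN i (κ i (e i)) :=
    ⟨AddMonoidHom.mk' (fun e => ∑ i, ∑ t : E, ((τ t, 1) : D.Q) • D.eN i (κ i (e i))) fun a b => by
      simp only [Pi.add_apply, map_add, smul_add, Finset.sum_add_distrib], fun _ => rfl⟩
  have hinv : ∀ t e, ((τ t, 1) : D.Q) • ρ e = ρ e := by
    intro t e
    rw [hρ, Finset.smul_sum]
    refine Finset.sum_congr rfl fun i _ => ?_
    rw [Finset.smul_sum]
    refine Fintype.sum_equiv (Equiv.mulLeft t) _ _ fun s => ?_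
    rw [smul_smul]; simp
  have hcomm : ∀ e e' : E, Commute ((inN.comp (AddMonoidHom.toMultiplicative ρ)) e)
      ((D.inP.comp τ) e') := by
    intro e e'
    have : D.inP (τ e') * iN D.Q (ρ e.toAdd) * (D.inP (τ e'))⁻¹ = iN D.Q (ρ e.toAdd) := by
      rw [iN_conj]; exact congrArg _ (hinv _ _)
    exact (mul_inv_eq_iff_eq_mul.1 this).symm
  obtain ⟨j, hj⟩ : ∃ j : E × E →* D.H0, ∀ d, j d = iN D.Q (ρ d.1.toAdd) * D.inP (τ d.2) :=
    ⟨MonoidHom.noncommCoprod _ _ hcomm, fun _ => rfl⟩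
  have hpr : ∀ d, D.prP (j d) = τ d.2 := fun d => by
    rw [hj, map_mul]; exact one_mul _
  refine ⟨j, (injective_iff_map_eq_one j).2 fun d hd => ?_, fun e => ?_, hpr, fun i L hL h => ?_⟩
  · have h2 : d.2 = 1 := hτ true _ (by rw [← hpr, hd, map_one]; exact one_mem _)
    rw [hj, h2, map_one, map_one, mul_one] at hd
    refine Prod.ext (Multiplicative.ext (funext fun i => hκ2 i _ ?_)) h2
    have h3 : (ρ d.1.toAdd).1 i 1 = 0 := by rw [iN_inj (b := 0) hd]; rfl
    obtain ⟨ev, hev⟩ : ∃ ev : D.N →+ D.R i, ∀ y, ev y = y.1 i 1 :=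
      ⟨AddMonoidHom.mk' (fun y => y.1 i 1) fun _ _ => rfl, fun _ => rfl⟩
    rw [← hev, hρ, map_sum, Finset.sum_eq_single i, map_sum, Finset.sum_eq_single 1] at h3
    · rwa [map_one, show ((1, 1) : D.Q) = 1 from rfl, one_smul, hev, eN_coe, e_same, e0_one,
        one_mul] at h3
    · intro t _ ht
      rw [hev, coe_smul, smul_app, eN_coe, e_same, D.e0_not, zero_mul, mul_zero]
      rw [mul_one, inv_mem_iff]
      exact fun h => ht (hτ i t h)
    · simp
    · intro i' _ hi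
      rw [map_sum]
      refine Finset.sum_eq_zero fun t _ => ?_
      rw [hev, coe_smul, smul_app, eN_coe, D.e_ne hi.symm, mul_zero]
    · simp
  · rw [hj]; simp [iN_zero]
  · rw [hj, map_one, map_one, mul_one, hρ]
    obtain ⟨U, hU⟩ : ∃ U : AddSubgroup D.N, ∀ y, y ∈ U ↔ iN D.Q y ∈ L :=
      ⟨Subgroup.toAddSubgroup' (L.comap inN), fun _ => Iff.rfl⟩
    rw [← hU]
    refine sum_mem fun i' _ => sum_mem fun t _ => ?_
    by_cases hi : i' = i
    · subst hi
      rw [hU]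
      have := hL.conj_mem _ h (D.inP (τ t))
      rw [v, iN_conj] at this
      simp only [δ, toAdd_ofAdd, Pi.single_eq_same, hκ1]
      exact this
    · simp [δ, hi]

theorem gen (L : Subgroup D.H0) (h1 : ∀ i r, D.v i r ∈ L) (h2 : ∀ i s, D.sc i s ∈ L)
    (h3 : ∀ x, D.inP x ∈ L) (x : D.H0) : x ∈ L := by
  have hq : ∀ q : D.Q, inQ q ∈ L := by
    intro q
    have : q = (q.1, 1) * (1, Pi.mulSingle true (q.2 true)) * (1, Pi.mulSingle false (q.2 false)) := by
      ext i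
      · simp
      · cases i <;> simp
    rw [this, map_mul, map_mul]
    exact mul_mem (mul_mem (h3 _) (h2 _ _)) (h2 _ _)
  rw [decomp x]
  refine mul_mem ?_ (hq _)
  obtain ⟨y, hy⟩ := x.n
  induction hy using AddSubgroup.closure_induction with
  | mem y hy =>
    obtain ⟨i, r, q, rfl⟩ := hy
    have := mul_mem (mul_mem (hq q) (h1 i r)) (inv_mem (hq q))
    rwa [v, iN_conj] at this
  | zero => exact one_mem _
  | add a b ha' hb' ha hb => exact (iN_add (Q := D.Q) (⟨a, ha'⟩ : D.N) ⟨b, hb'⟩).symm ▸ mul_mem ha hb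
  | neg a ha' ha => exact (iN_neg (Q := D.Q) (⟨a, ha'⟩ : D.N)).symm ▸ inv_mem ha

theorem marker (τ : E →* P) (A : Subgroup P) [hA : A.Normal] (hA' : ∀ a ∈ A, ∀ b ∈ A, a * b = b * a)
    (hCA : ∀ i, D.C i ≤ A) (hτ : ∀ e, τ e ∈ A → e = 1) (hc0 : ∀ i, ∃ c, D.χ i c ≠ 1)
    (hC : ∀ i, D.C i ≤ commutator P) :
    ∃ (H : Type) (_ : Group H) (F : P →* H), Function.Injective F ∧ ∀ β : H →* H,
      (∀ i, β (F (τ (δ i))) ≠ 1) → (∃ x y, β (F x) = F y ∧ ∀ g e, g⁻¹ * y * g ≠ τ e) →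
      ∃ γ : P →* P, (∀ x y, β (F x) = F y → γ x = y) ∧ ∀ i, ∃ h : P, ∀ c : D.C i, D.χ i c ≠ 1 →
        ¬ IsOfFinOrder (γ c) ∧ ∃ k : ℕ, 0 < k ∧ h⁻¹ * γ c ^ k * h ∈ D.C i := by
  obtain ⟨j, hj1, hj2, hj3, hj4⟩ := D.ex_j τ fun i e h => hτ e (hCA i h)
  obtain ⟨H, _, f, g, S, hf, hfg, hS1, hS2, hN⟩ := ex_amalg j
    (SemidirectProduct.inl : E × E →* K) hj1 SemidirectProduct.inl_injective
  have rig : ∀ c x : H, c ∈ f.range → c ^ 30 ≠ 1 → x⁻¹ * c * x ∈ f.range → x ∈ f.range := by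
    intro c x hc h30 hx
    rw [← hS1] at hc hx ⊢
    refine hN.rigid hc ?_ hx
    rintro d - ⟨e, he⟩
    apply h30
    have : c = d * (f.comp j) e * d⁻¹ := by rw [he]; group
    rw [this, conj_pow, ← map_pow, EE_pow]; simp
  have hw : ∀ (β : H →* H) i, β (f (D.v i (pr i))) ≠ 1 → β (f (D.v i 1)) ^ 30 ≠ 1 := by
    intro β i hβ h
    rw [← map_pow, ← map_pow, ← v_pow, mul_one] at h
    exact D.h30 i (D.v_inj (β.comp f) i hβ h)
  have L : ∀ (β : H →* H) i, β (f (D.v i (pr i))) ≠ 1 → β (f (D.v i 1)) ∈ f.range →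
      (∀ r, β (f (D.v i r)) ∈ f.range) ∧ (∀ s, β (f (D.sc i s)) ∈ f.range) ∧
        ∀ x, β (f (D.inP x)) ∈ f.range := by
    intro β i hβ h1
    have a1 : ∀ r, β (f (D.v i r)) ∈ f.range := fun r => rig _ _ h1 (hw β i hβ) (by
      rwa [← map_inv, ← map_inv, ← map_mul, ← map_mul, ← map_mul, ← map_mul, mul_assoc, ← v_add,
        add_comm, v_add, inv_mul_cancel_left])
    refine ⟨a1, fun s => ?_, fun x => ?_⟩
    · rw [← inv_mem_iff]
      refine rig _ _ h1 (hw β i hβ) ?_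
      rw [inv_inv, ← map_inv, ← map_inv, ← map_mul, ← map_mul, ← map_mul, ← map_mul, v_sc]
      exact a1 _
    obtain ⟨c, hc⟩ := hc0 i
    have a2 : β (f (D.inP c)) ∈ f.range := by
      rw [← inv_mem_iff]
      refine rig _ _ h1 (hw β i hβ) ?_
      rw [inv_inv, ← map_inv, ← map_inv, ← map_mul, ← map_mul, ← map_mul, ← map_mul, v_C]
      exact a1 _
    have a3 : β (f (D.inP c)) ^ 30 ≠ 1 := by
      intro h
      rw [← map_pow, ← map_pow, ← map_pow, ← Subgroup.coe_pow] at h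
      have h2 := congrArg (β.comp f) (D.v_C i (c ^ 30) 1)
      rw [map_mul, map_mul, map_inv, MonoidHom.comp_apply, h, inv_one, one_mul, mul_one, mul_one,
        eq_comm, ← mul_inv_eq_one, ← map_inv, ← map_mul, ← v_sub] at h2
      have h3 := (D.good i).inf (D.χ i (c ^ 30)).toAdd (by
        rw [map_pow, toAdd_pow, nsmul_eq_mul]
        exact mul_ne_zero (by norm_num) hc)
      rw [D.v_inj (β.comp f) i hβ h2, isUnit_zero_iff] at h3
      exact (D.good i).p0 (by rw [← mul_one (pr i : D.R i), ← h3, mul_zero])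
    have a4 : ∀ a ∈ A, β (f (D.inP a)) ∈ f.range := fun a ha => rig _ _ a2 a3 (by
      rwa [← map_inv, ← map_inv, ← map_inv, ← map_mul, ← map_mul, ← map_mul, ← map_mul, ← map_mul,
        ← map_mul, mul_assoc, hA' _ (hCA i c.2) a ha, inv_mul_cancel_left])
    refine rig _ _ a2 a3 ?_
    rw [← map_inv, ← map_inv, ← map_inv, ← map_mul, ← map_mul, ← map_mul, ← map_mul, ← map_mul,
      ← map_mul]
    exact a4 _ (hA.conj_mem' _ (hCA i c.2) x)
  have hinP : Function.Injective D.inP := fun a b h => congrArg D.prP h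
  refine ⟨H, inferInstance, f.comp D.inP, hf.comp hinP, ?_⟩
  rintro β hβ ⟨x0, y0, h0, h0'⟩
  simp only [MonoidHom.comp_apply] at hβ h0
  have hv : ∀ i, β (f (D.v i (pr i))) ≠ 1 := by
    intro i h
    have h1 : β (f (j (δ i, 1))) = 1 := hj4 i (β.comp f).ker inferInstance h
    apply hβ i
    have h2 : (SemidirectProduct.inl (1, δ i) : K) =
        SemidirectProduct.inr ⟨σ, Subgroup.mem_zpowers _⟩ * SemidirectProduct.inl (δ i, 1) *
          SemidirectProduct.inr ⟨σ, Subgroup.mem_zpowers _⟩⁻¹ :=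
      SemidirectProduct.inl_aut (φ := (Subgroup.zpowers σ).subtype)
        ⟨σ, Subgroup.mem_zpowers _⟩ (δ i, 1)
    rw [← hj2, hfg, h2, map_mul, map_mul, map_mul, map_mul, ← hfg, h1, map_inv, map_inv, map_inv]
    simp
  have hw1 : ∀ i, β (f (D.v i 1)) ∈ f.range := by
    intro i
    have hp : 0 < pr i * pr i := by cases i <;> decide
    obtain ⟨h, b, hb⟩ := tors hN (pr i * pr i - 1) (β (f (D.v i 1))) (by
      rw [Nat.sub_add_cancel hp, ← map_pow, ← map_pow, ← v_pow, Nat.cast_mul, (D.good i).pp,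
        zero_mul, v_zero, map_one, map_one])
    cases b
    · exfalso
      rw [hS2] at hb
      obtain ⟨k, hk⟩ := hb
      apply hw β i (hv i)
      have : β (f (D.v i 1)) = h * g k * h⁻¹ := by rw [hk]; group
      rw [this, conj_pow, ← map_pow, K_pow]; simp
    rw [hS1] at hb
    have a1 := (L ((MulAut.conj h⁻¹).toMonoidHom.comp β) i
      (fun e => hv i ((map_eq_one_iff _ (MulAut.conj h⁻¹).injective).1 e))
      (by simpa using hb)).2.2 x0
    have a2 : h ∈ f.range := by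
      rw [← hS1] at a1 ⊢
      refine hN.rigid (c := f (D.inP y0)) (hS1 ▸ ⟨_, rfl⟩) ?_ (by simpa [h0] using a1)
      rw [hS1]
      rintro _ ⟨d, rfl⟩ ⟨e, he⟩
      rw [MonoidHom.comp_apply, ← map_inv, ← map_mul, ← map_mul] at he
      have := congrArg D.prP (hf he)
      rw [hj3, map_mul, map_mul, map_inv] at this
      exact h0' _ _ this.symm
    have := mul_mem (mul_mem a2 hb) (inv_mem a2)
    simpa [mul_assoc] using this
  have hall : ∀ x, β (f x) ∈ f.range := D.gen (f.range.comap (β.comp f))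
    (fun i => (L β i (hv i) (hw1 i)).1) (fun i => (L β i (hv i) (hw1 i)).2.1)
    (L β true (hv true) (hw1 true)).2.2
  obtain ⟨β0, hβ0⟩ : ∃ β0 : D.H0 →* D.H0, ∀ x, f (β0 x) = β (f x) :=
    ⟨(MonoidHom.ofInjective hf).symm.toMonoidHom.comp ((β.comp f).codRestrict _ hall),
      fun x => MonoidHom.apply_ofInjective_symm hf _⟩
  refine ⟨(D.prP.comp β0).comp D.inP, fun x y h => ?_, fun i =>
    D.core β0 i (fun h => hv i (by rw [← hβ0, h, map_one])) (hC i)⟩
  have : β0 (D.inP x) = D.inP y := hf ((hβ0 _).trans h)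
  exact congrArg D.prP this

end Dat

end Pool.Agent.H70.Ext
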