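import Pool.Agent.H70.Ext3

set_option autoImplicit false

namespace Pool.Agent.H70.Ext

open RegularWreathProduct Multiplicative Cardinal

section
variable {L Q : Type} [Group L] [Group Q]

open Classical in
noncomputable def sg (q : Q) : L →* L ≀ᵣ Q where
  toFun x := ⟨fun y => if y = q then x else 1, 1⟩
  map_one' := by ext <;> simp
  map_mul' a b := by
    ext y
    · by_cases h : y = q <;> simp [h]
    · simp

open Classical in
theorem sg_left (q : Q) (x : L) (y : Q) : (sg q x).left y = if y = q then x else 1 := rfl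

theorem sg_right (q : Q) (x : L) : (sg q x).right = 1 := rfl

theorem sg_inj (q : Q) : Function.Injective (sg q : L →* L ≀ᵣ Q) := fun a b h => by
  simpa [sg_left] using congrArg (fun z => z.left q) h

theorem sg_comm (t : Q) (ht : ∀ n : ℕ, t ^ (n + 1) ≠ 1) (q : Q) (x : L) :
    ∃ f : L ≀ᵣ Q, sg q x = f * inl t * f⁻¹ * (inl t)⁻¹ := by
  classical
  refine ⟨⟨fun y => if ∃ n : ℕ, y = t ^ n * q then x else 1, 1⟩, ?_⟩
  ext y
  · simp only [sg_left, mul_left, inv_left, left_inl, right_inl, mul_right, inv_right,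
      Pi.mul_apply, Pi.inv_apply, Pi.one_apply, mul_one, one_mul, inv_one]
    by_cases h : y = q
    · subst h
      rw [if_pos rfl, if_pos ⟨0, by simp⟩, if_neg, inv_one, mul_one]
      rintro ⟨n, hn⟩
      apply ht n
      rw [pow_succ', ← mul_left_inj y, mul_assoc, ← hn]; simp
    · rw [if_neg h, eq_comm, mul_inv_eq_one]
      refine if_congr ⟨?_, ?_⟩ rfl rfl
      · rintro ⟨_ | n, rfl⟩
        · simp at h
        · exact ⟨n, by rw [pow_succ']; simp [mul_assoc]⟩
      · rintro ⟨n, hn⟩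
        exact ⟨n + 1, by rw [pow_succ', mul_assoc, ← hn]; simp⟩
  · simp [sg_right]

theorem sg_conj1 {d : L ≀ᵣ Q} {x y : L} (hx : x ≠ 1) (h : d⁻¹ * sg 1 x * d = sg 1 y) :
    d.right = 1 := by
  by_contra hd
  have := congrArg (fun z => z.left d.right⁻¹) h
  simp [sg_left, sg_right, hd, mul_assoc, inv_mul_eq_one, hx] at this

theorem sg_conj2 {d : L ≀ᵣ Q} (hd : d.right = 1) (x : L) :
    d⁻¹ * sg 1 x * d = sg 1 ((d.left 1)⁻¹ * x * d.left 1) := by
  ext y
  · by_cases h : y = 1 <;> simp [sg_left, sg_right, hd, h]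
  · simp [sg_right, hd]

noncomputable def lam : Multiplicative (Q →₀ ℤ) →* Multiplicative ℤ ≀ᵣ Q where
  toFun u := ⟨fun x => ofAdd (u.toAdd x), 1⟩
  map_one' := rfl
  map_mul' a b := by ext <;> simp

theorem lam_inj : Function.Injective (lam (Q := Q)) := fun a b h => by
  ext x
  simpa [lam] using congrArg (fun z => z.left x) h

theorem lam_single (q : Q) (b : ℤ) : lam (ofAdd (Finsupp.single q b)) = sg q (ofAdd b) := by
  classical
  ext y
  · by_cases h : y = q <;> simp [lam, sg_left, h]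
  · rfl

theorem lam_conj (h : Multiplicative ℤ ≀ᵣ Q) (u : Q →₀ ℤ) :
    h * lam (ofAdd u) * h⁻¹ = lam (ofAdd (u.mapDomain (h.right * ·))) := by
  ext y
  · have := Finsupp.mapDomain_apply (mul_right_injective h.right) u (h.right⁻¹ * y)
    simp only [mul_inv_cancel_left] at this
    simp [lam, this]
  · simp [lam]

end

abbrev T : Type := Multiplicative ℤ ≀ᵣ E

theorem δ_ne (i : Bool) : δ i ≠ 1 := by cases i <;> decide

theorem ex_t (i : Bool) : ∃ t : T, (∀ n : ℕ, t ^ (n + 1) ≠ 1) ∧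
    ∀ N : Subgroup T, N.Normal → inl (δ i) ∈ N → t ∈ N := by
  refine ⟨lam (ofAdd (Finsupp.single 1 1 - Finsupp.single (δ i) 1)), fun n h => ?_,
    fun N hN h => ?_⟩
  · rw [← map_pow, map_eq_one_iff _ lam_inj] at h
    have := congrArg (fun u => u.toAdd 1) h
    simp [δ_ne] at this
    omega
  · have h1 := lam_conj (inl (δ i) : T) (Finsupp.single 1 1)
    rw [Finsupp.mapDomain_single, right_inl, mul_one] at h1
    rw [ofAdd_sub, div_eq_mul_inv, map_mul, map_inv, ← h1]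
    have := N.mul_mem h (N.inv_mem (hN.conj_mem _ h (lam (ofAdd (Finsupp.single 1 1)))))
    have := hN.conj_mem' _ this (inl (δ i))
    have := hN.conj_mem _ this (inl (δ i))
    have h2 := N.mul_mem (hN.conj_mem _ h (lam (ofAdd (Finsupp.single 1 1)))) (N.inv_mem h)
    convert h2 using 1
    group

theorem lamp {G : Type} [Group G] (α : G →* G)
    (hα : ∀ (H : Type) [Group H] (f : G →* H), ∃ β : H →* H, β.comp f = f.comp α)
    (h0 : ∃ x, α x ≠ 1) (U : AddSubgroup (G →₀ ℤ)) (l : (G →₀ ℤ) →+ ℤ) (hU : ∃ u ∈ U, l u ≠ 0) :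
    ∃ (d d' : G ≀ᵣ T) (m k : ℤ), m ≠ 0 ∧ ∀ u ∈ U, l u ≠ 0 →
      u.mapDomain (fun g => d'⁻¹ * sg 1 (α g) * d) ≠ 0 ∧ ∃ k' : ℤ, k' ≠ 0 ∧ ∃ u' ∈ U,
        (k' * m) • u.mapDomain (fun g => d'⁻¹ * sg 1 (α g) * d) = k • u'.mapDomain (sg 1) := by
  obtain ⟨Λ, hΛ⟩ : ∃ Λ : Multiplicative (G →₀ ℤ) →* Multiplicative ℤ ≀ᵣ (G ≀ᵣ T),
      ∀ u, Λ (ofAdd u) = lam (ofAdd (u.mapDomain (sg 1))) :=
    ⟨lam.comp (AddMonoidHom.toMultiplicative (Finsupp.mapDomain.addMonoidHom (sg 1))),
      fun _ => rfl⟩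
  have hΛi : Function.Injective Λ := fun a b h =>
    Finsupp.mapDomain_injective (sg_inj 1) (lam_inj ((hΛ a.toAdd).symm.trans (h.trans (hΛ b.toAdd))))
  obtain ⟨UU, hU0, hU1⟩ : ∃ UU : Bool → AddSubgroup (G →₀ ℤ),
    UU false = AddSubgroup.zmultiples (Finsupp.single 1 1) ∧ UU true = U :=
    ⟨fun b => Bool.rec (AddSubgroup.zmultiples (Finsupp.single 1 1)) U b, rfl, rfl⟩
  obtain ⟨ll, hl0, hl1⟩ : ∃ ll : Bool → (G →₀ ℤ) →+ ℤ,
    ll false = Finsupp.applyAddHom 1 ∧ ll true = l :=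
    ⟨fun b => Bool.rec (Finsupp.applyAddHom 1) l b, rfl, rfl⟩
  have hχ : ∀ i, ∃ χ : ((UU i).toSubgroup.map Λ) →* Multiplicative ℤ,
      ∀ u (hu : u ∈ UU i), χ ⟨Λ (ofAdd u), ⟨_, hu, rfl⟩⟩ = ofAdd (ll i u) := fun i =>
    ⟨((AddMonoidHom.toMultiplicative (ll i)).comp (MonoidHom.ofInjective hΛi).symm.toMonoidHom).comp
      (Subgroup.inclusion (Subgroup.map_le_range _ _)), fun u hu => by
        have : (MonoidHom.ofInjective hΛi).symm ⟨Λ (ofAdd u), ⟨_, rfl⟩⟩ = ofAdd u :=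
          hΛi (MonoidHom.apply_ofInjective_symm hΛi _)
        exact congrArg (AddMonoidHom.toMultiplicative (ll i)) this⟩
  choose χ hχ using hχ
  choose R iR X hR using fun i => ex_ring (pr i) (Multiplicative ℤ ≀ᵣ (G ≀ᵣ T))
  choose t ht1 ht2 using ex_t
  obtain ⟨H, _, F, hF, hH⟩ := Dat.marker ⟨R, X, hR, fun i => (UU i).toSubgroup.map Λ, χ⟩
    ((inl.comp inl).comp inl) rightHom.ker (fun a ha b hb => by
      have ha' : a.right = 1 := ha
      have hb' : b.right = 1 := hb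
      ext <;> simp [ha', hb', add_comm])
    (fun i => by rintro _ ⟨u, -, rfl⟩; exact congrArg right (hΛ u.toAdd))
    (fun e he => congrArg (fun z => z.right.right) (show inl (inl e) = (1 : G ≀ᵣ T) from he))
    (fun i => by
      cases i
      · exact ⟨_, by rw [hχ false (Finsupp.single 1 1) (hU0 ▸ AddSubgroup.mem_zmultiples _), hl0]
                     simp⟩
      · obtain ⟨u, hu, hu'⟩ := hU
        exact ⟨_, by rw [hχ true u (hU1 ▸ hu), hl1]; exact hu'⟩)
    (fun i => by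
      rintro _ ⟨u, -, rfl⟩
      rw [← ofAdd_toAdd u, hΛ]
      generalize Finsupp.mapDomain (sg (1 : T)) u.toAdd = w
      induction w using Finsupp.induction_linear with
      | zero => rw [ofAdd_zero, map_one]; exact one_mem _
      | add a b ha hb => rw [ofAdd_add, map_mul]; exact mul_mem ha hb
      | single a b =>
        obtain ⟨f, hf⟩ := sg_comm (inl (t true) : G ≀ᵣ T) (fun n h => ht1 true n (by
          rw [← map_pow] at h; exact congrArg right h)) a (ofAdd b)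
        rw [lam_single, hf]
        exact Subgroup.commutator_mem_commutator (Subgroup.mem_top _) (Subgroup.mem_top _))
  obtain ⟨β, hβ⟩ := hα H (F.comp (inl.comp (sg 1)))
  have hβ' : ∀ g, β (F (inl (sg 1 g))) = F (inl (sg 1 (α g))) := DFunLike.congr_fun hβ
  obtain ⟨x0, hx0⟩ := h0
  obtain ⟨γ, hγ, hm⟩ := hH β (fun i h => by
      have h1 := ht2 i (((β.comp F).comp inl).comp inl).ker inferInstance h
      obtain ⟨f, hf⟩ := sg_comm (t i) (ht1 i) 1 x0
      have h2 : β (F (inl (inl (t i)))) = 1 := h1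
      have h3 := hβ' x0
      rw [hf] at h3
      simp only [map_mul, map_inv, h2, mul_one, mul_inv_cancel, inv_one] at h3
      have h4 : inl (sg (1 : T) (α x0)) = (1 : Multiplicative ℤ ≀ᵣ (G ≀ᵣ T)) :=
        hF (h3.symm.trans F.map_one.symm)
      exact hx0 (sg_inj 1 ((congrArg right h4).trans (map_one _).symm)))
    ⟨_, _, hβ' x0, fun g e h => by
      have h1 : e = 1 := by
        simpa [sg_right] using congrArg (fun z => z.right.right.right) h.symm
      rw [h1, map_one, mul_assoc, inv_mul_eq_one, right_eq_mul] at h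
      exact hx0 (sg_inj 1 ((congrArg right h).trans (map_one _).symm))⟩
  have hγ' : ∀ g, γ (inl (sg 1 g)) = inl (sg 1 (α g)) := fun g => hγ _ _ (hβ' g)
  obtain ⟨h, hh⟩ := hm false
  obtain ⟨h', hh'⟩ := hm true
  have m0 : Finsupp.single 1 1 ∈ UU false := hU0 ▸ AddSubgroup.mem_zmultiples _
  obtain ⟨a1, k, hk, u0, hu0, a2⟩ := hh ⟨Λ (ofAdd (Finsupp.single 1 1)), ⟨_, m0, rfl⟩⟩
    (by rw [hχ _ _ m0, hl0]; simp)
  simp only [hU0] at hu0 a1 a2
  obtain ⟨m, hm⟩ := (AddSubgroup.mem_zmultiples_iff (h := u0.toAdd)).1 hu0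
  have a3 : γ (Λ (ofAdd (Finsupp.single 1 1))) ^ k = lam (ofAdd (Finsupp.single h.right m)) := by
    have : γ (Λ (ofAdd (Finsupp.single 1 1))) ^ k = h * Λ u0 * h⁻¹ := by rw [a2]; group
    rw [this, ← ofAdd_toAdd u0, show u0.toAdd = m • Finsupp.single 1 1 from hm.symm, hΛ, lam_conj]
    simp [Finsupp.mapDomain_single]
  have a4 : ∀ u, γ (Λ (ofAdd u)) ^ k =
      lam (ofAdd (m • u.mapDomain fun g => sg 1 (α g) * h.right)) := by
    intro u
    induction u using Finsupp.induction_linear with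
    | zero => simp
    | add a b ha hb =>
      rw [Finsupp.mapDomain_add, smul_add, ofAdd_add (m • _), map_mul, ← ha, ← hb]
      simp only [← map_pow, ← map_mul, ← mul_pow, ofAdd_add]
    | single g b =>
      have : Λ (ofAdd (Finsupp.single g b)) =
          inl (sg 1 g) * Λ (ofAdd (Finsupp.single 1 1)) ^ b * (inl (sg 1 g))⁻¹ := by
        rw [← map_zpow, ← ofAdd_zsmul, hΛ, hΛ, lam_conj]
        simp [Finsupp.mapDomain_single]
      rw [this, map_mul, map_mul, map_inv, conj_pow, map_zpow, ← zpow_natCast, ← zpow_mul,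
        mul_comm b, zpow_mul, zpow_natCast, a3, hγ', ← map_zpow, ← ofAdd_zsmul, lam_conj]
      simp only [Finsupp.mapDomain_single, Finsupp.smul_single, smul_eq_mul, mul_comm b, right_inl]
  refine ⟨h.right, h'.right, m, k, fun h => a1 (isOfFinOrder_iff_pow_eq_one.2 ⟨k, hk, by
    rw [a3, h]; simp⟩), fun u hu hu' => ?_⟩
  have m1 : u ∈ UU true := hU1 ▸ hu
  obtain ⟨b1, k', hk', u', hu1, b2⟩ := hh' ⟨Λ (ofAdd u), ⟨_, m1, rfl⟩⟩ (by
    rw [hχ _ _ m1, hl1]; exact hu')
  simp only [hU1] at hu1 b1 b2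
  have e1 : (u.mapDomain fun g => h'.right⁻¹ * sg 1 (α g) * h.right) =
      (u.mapDomain fun g => sg 1 (α g) * h.right).mapDomain (h'⁻¹.right * ·) := by
    rw [← Finsupp.mapDomain_comp]
    congr 1
    funext g
    simp [mul_assoc]
  refine ⟨fun h0 => b1 (isOfFinOrder_iff_pow_eq_one.2 ⟨k, hk, ?_⟩), k', by omega, u'.toAdd, hu1, ?_⟩
  · rw [e1, ← Finsupp.mapDomain_zero (f := (h'⁻¹.right * ·))] at h0
    rw [a4, Finsupp.mapDomain_injective (mul_right_injective _) h0]
    simp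
  · have b3 : Λ u' ^ k = h'⁻¹ * (γ (Λ (ofAdd u)) ^ k) ^ k' * h'⁻¹⁻¹ := by
      rw [b2, ← pow_mul, mul_comm k, pow_mul, ← conj_pow, inv_inv]
    rw [a4, ← map_pow lam, ← ofAdd_nsmul, lam_conj, ← ofAdd_toAdd u', hΛ, ← map_pow,
      ← ofAdd_nsmul] at b3
    have b4 := ofAdd.injective (lam_inj b3)
    rw [e1, natCast_zsmul, b4, Finsupp.mapDomain_smul, Finsupp.mapDomain_smul,
      mul_smul, natCast_zsmul]

theorem diag {G I : Type} [Infinite G] (hI : #I = #G) (φ : I → G → G)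
    (h1 : ∀ p, Function.Injective (φ p))
    (h2 : ∀ p (S : Set G), #S < #G → ∃ y, y ∉ S ∧ φ p y ≠ y) :
    ∃ x : I → G, Function.Injective x ∧ ∀ p q, φ p (x p) ≠ x q := by
  classical
  obtain ⟨r, wo, hr⟩ := Cardinal.ord_eq I
  obtain ⟨x, hx⟩ : ∃ x : I → G, ∀ p, x p = Classical.epsilon fun y => φ p y ≠ y ∧
      ∀ q, r q p → y ≠ x q ∧ y ≠ φ q (x q) ∧ φ p y ≠ x q := by
    refine ⟨wo.wf.fix fun p ih => Classical.epsilon fun y => φ p y ≠ y ∧
      ∀ q (h : r q p), y ≠ ih q h ∧ y ≠ φ q (ih q h) ∧ φ p y ≠ ih q h, fun p => ?_⟩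
    rw [WellFounded.fix_eq]
  have key : ∀ p, φ p (x p) ≠ x p ∧
      ∀ q, r q p → x p ≠ x q ∧ x p ≠ φ q (x q) ∧ φ p (x p) ≠ x q := by
    intro p
    have hs : #{q | r q p} < #G := hI ▸ Cardinal.card_typein_lt p hr
    obtain ⟨y, hy1, hy2⟩ := h2 p (x '' {q | r q p} ∪ (fun q => φ q (x q)) '' {q | r q p} ∪
      φ p ⁻¹' (x '' {q | r q p})) (by
        refine (mk_union_le _ _).trans_lt (add_lt_of_lt (aleph0_le_mk G)
          ((mk_union_le _ _).trans_lt (add_lt_of_lt (aleph0_le_mk G) (mk_image_le.trans_lt hs)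
            (mk_image_le.trans_lt hs))) ?_)
        exact (mk_preimage_of_injective _ _ (h1 p)).trans_lt (mk_image_le.trans_lt hs))
    have := Classical.epsilon_spec (p := fun y => φ p y ≠ y ∧
      ∀ q, r q p → y ≠ x q ∧ y ≠ φ q (x q) ∧ φ p y ≠ x q) ⟨y, hy2, fun q hq =>
        ⟨fun e => hy1 (Or.inl (Or.inl ⟨q, hq, e.symm⟩)),
          fun e => hy1 (Or.inl (Or.inr ⟨q, hq, e.symm⟩)), fun e => hy1 (Or.inr ⟨q, hq, e.symm⟩)⟩⟩
    rwa [← hx] at this
  refine ⟨x, fun p q e => ?_, fun p q => ?_⟩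
  · rcases trichotomous_of r p q with h | h | h
    · exact absurd e.symm ((key q).2 p h).1
    · exact h
    · exact absurd e ((key p).2 q h).1
  · rcases trichotomous_of r p q with h | rfl | h
    · exact ((key q).2 p h).2.1.symm
    · exact (key p).1
    · exact ((key p).2 q h).2.2

theorem red {G : Type} [Group G] {α : G →* G} (hi : Function.Injective α) (d d' : G ≀ᵣ T)
    {r s a b : G} (hrs : r ≠ s) (h1 : d'⁻¹ * sg 1 (α r) * d = sg 1 a)
    (h2 : d'⁻¹ * sg 1 (α s) * d = sg 1 b) :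
    ∃ e c : G, ∀ g, d'⁻¹ * sg 1 (α g) * d = sg 1 (e⁻¹ * α g * e * c) := by
  have h3 : d'.right = 1 := sg_conj1 (x := α r * (α s)⁻¹) (y := a * b⁻¹)
    (fun h => hrs (hi (mul_inv_eq_one.1 h))) (by
      rw [map_mul, map_mul, map_inv, map_inv, ← h1, ← h2]; group)
  refine ⟨d'.left 1, ((d'.left 1)⁻¹ * α r * d'.left 1)⁻¹ * a, fun g => ?_⟩
  rw [map_mul, map_mul _ _ a, map_inv, ← sg_conj2 h3, ← sg_conj2 h3, ← h1]
  group

theorem main {G : Type} [Group G] (α : G →* G)
    (hα : ∀ (H : Type) [Group H] (f : G →* H), ∃ β : H →* H, β.comp f = f.comp α) :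
    (∃ c : G, ∀ g, α g = c * g * c⁻¹) ∨ ∀ g, α g = 1 := by
  classical
  by_contra hcon
  push Not at hcon
  obtain ⟨hn, h0⟩ := hcon
  have hi : Function.Injective α := by
    rw [injective_iff_map_eq_one]
    intro g hg
    by_contra hg1
    obtain ⟨d, d', m, k, -, h⟩ := lamp α hα h0 ⊤ (Finsupp.applyAddHom 1)
      ⟨Finsupp.single 1 1, trivial, by simp⟩
    refine (h (Finsupp.single 1 1 - Finsupp.single g 1) trivial (by simp [hg1])).1 ?_
    rw [← Finsupp.mapDomain.addMonoidHom_apply, map_sub]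
    simp [hg]
  rcases finite_or_infinite G with hG | hG
  · haveI := Fintype.ofFinite G
    obtain ⟨w, hw1, hw2⟩ : ∃ w : G →₀ ℤ, Function.Injective w ∧ ∀ g, 0 < w g :=
      ⟨Finsupp.equivFunOnFinite.symm fun g => (Fintype.equivFin G g : ℤ) + 1, fun a b h => by
        simpa [Fin.ext_iff.symm] using h, fun g => by simp⟩
    obtain ⟨d, d', m, k, hm, h⟩ := lamp α hα h0 (AddSubgroup.zmultiples w) (Finsupp.applyAddHom 1)
      ⟨w, AddSubgroup.mem_zmultiples _, (hw2 1).ne'⟩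
    obtain ⟨-, k', hk', _, ⟨n, rfl⟩, e⟩ := h w (AddSubgroup.mem_zmultiples _) (hw2 1).ne'
    have hψ : Function.Injective fun g => d'⁻¹ * sg (1 : T) (α g) * d := fun a b h =>
      hi (sg_inj (1 : T) (by simpa using h))
    simp only [Finsupp.mapDomain_smul, smul_smul] at e
    have e1 := congrArg Finsupp.degree e
    rw [map_zsmul, map_zsmul, Finsupp.degree_mapDomain, Finsupp.degree_mapDomain] at e1
    have hd : 0 < Finsupp.degree w := by
      rw [Finsupp.degree_eq_sum]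
      exact Finset.sum_pos (fun g _ => hw2 g) Finset.univ_nonempty
    rw [← mul_right_cancel₀ hd.ne' e1] at e
    have e2 := smul_right_injective _ (mul_ne_zero hk' hm) e
    have e3 : ∀ g, d'⁻¹ * sg (1 : T) (α g) * d = sg 1 g := by
      intro g
      have := DFunLike.congr_fun e2 (sg 1 g)
      rw [Finsupp.mapDomain_apply (sg_inj 1)] at this
      have h3 := DFunLike.congr_fun e2 (d'⁻¹ * sg (1 : T) (α g) * d)
      rw [Finsupp.mapDomain_apply hψ] at h3
      by_cases hr : d'⁻¹ * sg (1 : T) (α g) * d ∈ Set.range (sg (1 : T) : G → G ≀ᵣ T)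
      · obtain ⟨g', hg'⟩ := hr
        rw [← hg', Finsupp.mapDomain_apply (sg_inj 1)] at h3
        rw [← hg', hw1 h3]
      · rw [Finsupp.mapDomain_notin_range _ _ hr] at h3
        exact absurd h3 (hw2 g).ne'
    obtain ⟨x0, hx0⟩ := h0
    obtain ⟨e, c, hec⟩ := red hi d d' (show x0 ≠ 1 by rintro rfl; simp at hx0) (e3 x0) (e3 1)
    have hc : c = 1 := by simpa using sg_inj 1 ((hec 1).symm.trans (e3 1))
    obtain ⟨g, hg⟩ := hn e
    apply hg
    have := sg_inj 1 ((hec g).symm.trans (e3 g))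
    rw [hc, mul_one] at this
    conv_rhs => rw [← this]
    group
  · obtain ⟨x, hx1, hx2⟩ := diag (G := G) (I := G × G) (by simp)
      (fun p g => p.1⁻¹ * α g * p.1 * p.2) (fun p a b h => hi (by simpa using h)) (fun p S hS => by
        obtain ⟨g, hg⟩ := hn p.1
        obtain ⟨r, hr⟩ : ∃ r, r ∉ S ∪ (g * ·) ⁻¹' S := by
          by_contra hcon
          push Not at hcon
          have := (mk_union_le _ _).trans_lt (add_lt_of_lt (aleph0_le_mk G) hS
            ((mk_preimage_of_injective _ _ (mul_right_injective g)).trans_lt hS))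
          rw [Set.eq_univ_of_forall hcon, mk_univ] at this
          exact lt_irrefl _ this
        by_cases h : p.1⁻¹ * α r * p.1 * p.2 = r
        · refine ⟨g * r, fun h' => hr (Or.inr h'), fun h' => hg ?_⟩
          have : p.1⁻¹ * α g * p.1 * (p.1⁻¹ * α r * p.1 * p.2) = g * r := by
            rw [← h', map_mul]; group
          rw [h, mul_left_inj] at this
          conv_rhs => rw [← this]
          group
        · exact ⟨r, fun h' => hr (Or.inl h'), h⟩)
    obtain ⟨d, d', m, k, hm, h⟩ := lamp α hα h0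
      (Finsupp.supported ℤ ℤ (Set.range x)).toAddSubgroup Finsupp.degree
      ⟨Finsupp.single (x 1) 1, Finsupp.single_mem_supported ℤ _ ⟨1, rfl⟩, by simp⟩
    have e3 : ∀ p, ∃ q, d'⁻¹ * sg (1 : T) (α (x p)) * d = sg 1 (x q) := by
      intro p
      obtain ⟨-, k', hk', u, hu, e⟩ := h (Finsupp.single (x p) 1)
        (Finsupp.single_mem_supported ℤ _ ⟨p, rfl⟩) (by simp)
      have h3 := DFunLike.congr_fun e (d'⁻¹ * sg (1 : T) (α (x p)) * d)
      rw [Finsupp.mapDomain_single, Finsupp.smul_apply, Finsupp.single_eq_same, smul_eq_mul,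
        mul_one, Finsupp.smul_apply, smul_eq_mul] at h3
      have h4 := right_ne_zero_of_mul (h3 ▸ mul_ne_zero hk' hm)
      by_cases hr : d'⁻¹ * sg (1 : T) (α (x p)) * d ∈ Set.range (sg (1 : T) : G → G ≀ᵣ T)
      · obtain ⟨g', hg'⟩ := hr
        rw [← hg', Finsupp.mapDomain_apply (sg_inj 1)] at h4
        obtain ⟨q, rfl⟩ := hu (Finsupp.mem_support_iff.2 h4)
        exact ⟨q, hg'.symm⟩
      · exact absurd (Finsupp.mapDomain_notin_range _ _ hr) h4
    obtain ⟨p, q, hpq⟩ := exists_pair_ne (G × G)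
    obtain ⟨p', hp⟩ := e3 p
    obtain ⟨q', hq⟩ := e3 q
    obtain ⟨e, c, hec⟩ := red hi d d' (hx1.ne hpq) hp hq
    obtain ⟨s, hs⟩ := e3 (e, c)
    exact hx2 (e, c) s (sg_inj 1 ((hec _).symm.trans hs))

end Pool.Agent.H70.Ext
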