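import Pool.Agent.H70.FitClass

set_option autoImplicit false

namespace Pool.Agent.H70.FitAlt

open Cardinal Equiv Pool.Agent.H70.FitClass

variable {Ω : Type} [DecidableEq Ω]

def t (a b c : Ω) : Perm Ω := swap a b * swap a c

def S (Ω : Type) [DecidableEq Ω] : Subgroup (Perm Ω) :=
  Subgroup.closure {g | ∃ a b c, a ≠ b ∧ a ≠ c ∧ b ≠ c ∧ g = t a b c}

theorem t_mem {a b c : Ω} (h1 : a ≠ b) (h2 : a ≠ c) (h3 : b ≠ c) : t a b c ∈ S Ω :=
  Subgroup.subset_closure ⟨a, b, c, h1, h2, h3, rfl⟩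

theorem t_conj (g : Perm Ω) (a b c : Ω) : g * t a b c * g⁻¹ = t (g a) (g b) (g c) := by
  simp only [t, swap_apply_apply]; group

theorem t_fix {a b c x : Ω} (h1 : x ≠ a) (h2 : x ≠ b) (h3 : x ≠ c) : t a b c x = x := by
  simp [t, swap_apply_of_ne_of_ne, h1, h2, h3]

theorem t_a {a b c : Ω} (h2 : a ≠ c) (h3 : b ≠ c) : t a b c a = c := by
  simp [t, swap_apply_of_ne_of_ne, h2.symm, h3.symm]

theorem t_b {a b c : Ω} (h1 : a ≠ b) (h3 : b ≠ c) : t a b c b = a := by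
  simp [t, swap_apply_of_ne_of_ne, h1.symm, h3]

theorem t_c (a b c : Ω) : t a b c c = b := by
  simp [t]

theorem t_id {a b c d : Ω} (h1 : a ≠ b) (h2 : a ≠ c) (h3 : a ≠ d) (h4 : b ≠ c) (h5 : b ≠ d)
    (h6 : c ≠ d) : t b c d = t a d b * t a c d := by
  ext x
  rw [Perm.mul_apply]
  by_cases ha : x = a
  · rw [ha, t_a h3 h6, t_b h3 h5.symm, t_fix h1 h2 h3]
  by_cases hb : x = b
  · rw [hb, t_fix h1.symm h4 h5, t_c, t_a h5 h6]
  by_cases hc : x = c
  · rw [hc, t_b h2 h6, t_a h1 h5.symm, t_b h4 h6]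
  by_cases hd : x = d
  · rw [hd, t_c, t_c, t_fix h2.symm h6 h4.symm]
  rw [t_fix hb hc hd, t_fix ha hc hd, t_fix ha hd hb]

instance S_normal : (S Ω).Normal := by
  refine ⟨fun x hx g => ?_⟩
  induction hx using Subgroup.closure_induction with
  | mem x hx =>
    obtain ⟨a, b, c, h1, h2, h3, rfl⟩ := hx
    rw [t_conj]
    exact t_mem (g.injective.ne h1) (g.injective.ne h2) (g.injective.ne h3)
  | one => simp
  | mul x y _ _ hx hy => simpa [mul_assoc] using (S Ω).mul_mem hx hy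
  | inv x _ hx => simpa [mul_assoc] using (S Ω).inv_mem hx

theorem S_fin {g : Perm Ω} (hg : g ∈ S Ω) : {x | g x ≠ x}.Finite := by
  induction hg using Subgroup.closure_induction with
  | mem x hx =>
    obtain ⟨a, b, c, h1, h2, h3, rfl⟩ := hx
    refine (Set.toFinite {a, b, c}).subset fun x hx => ?_
    by_contra h
    simp only [Set.mem_insert_iff, Set.mem_singleton_iff, not_or] at h
    exact hx (t_fix h.1 h.2.1 h.2.2)
  | one => simp
  | mul x y _ _ hx hy =>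
    refine (hx.union hy).subset fun z hz => ?_
    by_contra h
    simp only [Set.mem_union, Set.mem_setOf_eq, not_or, not_not] at h
    exact hz (by simp [h.1, h.2])
  | inv x _ hx =>
    refine hx.subset fun z hz h => hz ?_
    rw [Perm.inv_eq_iff_eq]; exact h.symm

theorem comm_t {x : Perm Ω} {a b c : Ω} (h2 : a ≠ c) (h3 : b ≠ c)
    (hb : x a ≠ b) (hc : x a ≠ c) (h : Commute x (t a b c)) : x a = a := by
  by_contra ha
  have := congrArg (fun p : Perm Ω => p a) h.eq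
  simp only [Perm.mul_apply] at this
  rw [t_a h2 h3, t_fix ha hb hc] at this
  exact h2 (x.injective this).symm

theorem comm_disj {x h : Perm Ω} (hx : ∀ a, h a ≠ a → x a = a) : Commute x h := by
  ext w
  simp only [Perm.mul_apply]
  by_cases hw : h w = w
  · rw [hw]
    by_contra hc
    have := hx (x w) (Ne.symm hc)
    have h2 := x.injective this
    rw [h2] at hc
    exact hc hw.symm
  · rw [hx w hw, hx (h w) (h.injective.ne hw)]

theorem two_fresh {T : Set Ω} (hT : T.Infinite) (s : Set Ω) (hs : s.Finite) :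
    ∃ b ∈ T, ∃ c ∈ T, b ∉ s ∧ c ∉ s ∧ b ≠ c := by
  obtain ⟨b, hb, hb'⟩ := hT.exists_notMem_finite hs
  obtain ⟨c, hc, hc'⟩ := hT.exists_notMem_finite (hs.insert b)
  simp only [Set.mem_insert_iff, not_or] at hc'
  exact ⟨b, hb, c, hc, hb', hc'.2, Ne.symm hc'.1⟩

variable [Infinite Ω]

theorem move (s : Set Ω) (hs : s.Finite) {u v : Ω} (hu : u ∉ s) (hv : v ∉ s) :
    ∃ g ∈ S Ω, g u = v ∧ ∀ x ∈ s, g x = x := by
  by_cases h : u = v
  · exact ⟨1, (S Ω).one_mem, h, fun _ _ => rfl⟩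
  obtain ⟨b, hb⟩ := ((hs.insert u).insert v).exists_notMem
  simp only [Set.mem_insert_iff, not_or] at hb
  refine ⟨t u b v, t_mem (Ne.symm hb.2.1) h hb.1, t_a h hb.1, fun x hx => t_fix ?_ ?_ ?_⟩
  · rintro rfl; exact hu hx
  · rintro rfl; exact hb.2.2 hx
  · rintro rfl; exact hv hx

theorem trans3 {a b c a' b' c' : Ω} (h1 : a ≠ b) (h2 : a ≠ c) (h3 : b ≠ c)
    (k1 : a' ≠ b') (k2 : a' ≠ c') (k3 : b' ≠ c') :
    ∃ g ∈ S Ω, g a = a' ∧ g b = b' ∧ g c = c' := by
  obtain ⟨g1, m1, e1, -⟩ := move (∅ : Set Ω) Set.finite_empty (u := a) (v := a') (by simp) (by simp)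
  obtain ⟨g2, m2, e2, f2⟩ := move {a'} (Set.toFinite _) (u := g1 b) (v := b')
    (by rw [← e1]; simpa using h1.symm) (by simpa using k1.symm)
  obtain ⟨g3, m3, e3, f3⟩ := move {a', b'} (Set.toFinite _) (u := g2 (g1 c)) (v := c')
    (by
      rintro (h | h)
      · rw [← f2 a' rfl, ← e1] at h
        exact h2 (g1.injective (g2.injective h)).symm
      · rw [← e2] at h
        exact h3 (g1.injective (g2.injective h)).symm) (by simp [k2.symm, k3.symm])
  refine ⟨g3 * g2 * g1, (S Ω).mul_mem ((S Ω).mul_mem m3 m2) m1, ?_, ?_, e3⟩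
  · simp [e1, f2 a' rfl, f3 a' (by simp)]
  · simp [e2, f3 b' (by simp)]

theorem S_simple_aux (N : Subgroup (Perm Ω)) (hle : N ≤ S Ω)
    (hN : ∀ g ∈ S Ω, ∀ x ∈ N, g * x * g⁻¹ ∈ N) (g : Perm Ω) (hg : g ∈ N) (h1 : g ≠ 1) :
    S Ω ≤ N := by
  obtain ⟨a, ha⟩ : ∃ a, g a ≠ a := by
    by_contra h
    push Not at h
    exact h1 (Perm.ext h)
  obtain ⟨c, -, d, -, hc, hd, hcd⟩ := two_fresh Set.infinite_univ _ (S_fin (hle hg))
  simp only [Set.mem_setOf_eq, not_not] at hc hd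
  have hac : a ≠ c := by rintro rfl; exact ha hc
  have had : a ≠ d := by rintro rfl; exact ha hd
  have hbc : g a ≠ c := by rw [← hc]; exact g.injective.ne hac
  have hbd : g a ≠ d := by rw [← hd]; exact g.injective.ne had
  have m : g * (t a c d * g⁻¹ * (t a c d)⁻¹) ∈ N :=
    N.mul_mem hg (hN _ (t_mem hac had hcd) _ (N.inv_mem hg))
  have e : g * (t a c d * g⁻¹ * (t a c d)⁻¹) = t (g a) c d * (t a c d)⁻¹ := by
    have := t_conj g a c d
    rw [hc, hd] at this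
    rw [← this]; group
  have e2 : t (g a) c d * (t a c d)⁻¹ = t a d (g a) := by
    rw [mul_inv_eq_iff_eq_mul]
    exact t_id (Ne.symm ha) hac had hbc hbd hcd
  rw [e, e2] at m
  rw [S, Subgroup.closure_le]
  rintro _ ⟨a', b', c', k1, k2, k3, rfl⟩
  obtain ⟨s, hs, rfl, rfl, rfl⟩ := trans3 had (Ne.symm ha) (Ne.symm hbd) k1 k2 k3
  rw [← t_conj]
  exact hN s hs _ m

theorem cent {x : Perm Ω} (h : ∀ g ∈ S Ω, Commute x g) : x = 1 := by
  ext a
  obtain ⟨b, -, c, -, hb, hc, hbc⟩ := two_fresh Set.infinite_univ {a, x a} (Set.toFinite _)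
  simp only [Set.mem_insert_iff, Set.mem_singleton_iff, not_or] at hb hc
  exact comm_t (Ne.symm hc.1) hbc (Ne.symm hb.2) (Ne.symm hc.2)
    (h _ (t_mem (Ne.symm hb.1) (Ne.symm hc.1) hbc))

theorem S_ne : ∃ g ∈ S Ω, g ≠ 1 := by
  obtain ⟨a⟩ : Nonempty Ω := inferInstance
  obtain ⟨b, -, c, -, hb, hc, hbc⟩ := two_fresh Set.infinite_univ {a} (Set.toFinite _)
  refine ⟨_, t_mem (Ne.symm hb) (Ne.symm hc) hbc, fun h => ?_⟩
  have := t_a (Ne.symm hc) hbc
  rw [h] at this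
  exact hc this.symm

theorem S_NS : NS (S Ω) := by
  obtain ⟨g, hg, h1⟩ := S_ne (Ω := Ω)
  have : Nontrivial (S Ω) := ⟨⟨⟨g, hg⟩, 1, fun h => h1 (congrArg Subtype.val h)⟩⟩
  refine ⟨⟨fun N hN => ?_⟩, ?_⟩
  · by_cases h : N = ⊥
    · exact Or.inl h
    · right
      obtain ⟨⟨x, hx⟩, hx1⟩ := Subgroup.ne_bot_iff_exists_ne_one.1 h
      have := S_simple_aux (N.map (S Ω).subtype) (Subgroup.map_subtype_le N) (by
        rintro g hg _ ⟨y, hy, rfl⟩
        exact ⟨_, hN.conj_mem y hy ⟨g, hg⟩, rfl⟩) x ⟨x, hx, rfl⟩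
        (fun e => hx1 (Subtype.ext (Subtype.ext e)))
      rw [eq_top_iff]
      intro y _
      obtain ⟨z, hz, e⟩ := this y.2
      rwa [← Subtype.ext e]
  · by_contra h
    push Not at h
    exact h1 (cent fun y hy => congrArg Subtype.val (h ⟨g, hg⟩ ⟨y, hy⟩))

theorem E_of_small (κ : Cardinal.{0}) (hκ : ℵ₀ ≤ κ) (K : Subgroup (Perm Ω)) (hK : S Ω ≤ K)
    (hs : ∀ h ∈ K, #{a | h a ≠ a} ≤ κ) : E κ K inferInstance := by
  intro L hL hns h
  have hS := (S_NS (Ω := Ω)).of_equiv (Subgroup.subgroupOfEquivOfLe hK).symm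
  have hLS : L ≤ (S Ω).subgroupOf K := by
    rcases dich hL hns ((S Ω).subgroupOf K) with h1 | h1
    · exact h1
    · obtain ⟨x, y, hxy⟩ := hns.2
      have : x = 1 := Subtype.ext (Subtype.ext (cent fun g hg =>
        congrArg Subtype.val (h1 x x.2 ⟨g, hK hg⟩ hg).eq))
      simp [this] at hxy
  have key : ∀ M, Sn L M → (S Ω).subgroupOf K ≤ M → (S Ω).subgroupOf K ≤ L := by
    intro M hM
    induction hM with
    | refl => exact id
    | step M M' hM hle hn ih =>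
      intro h2
      rcases simple_dich hS.1 M (fun g hg x _ hx => hn g (h2 hg) x hx) with h3 | h3
      · obtain ⟨x, y, hxy⟩ := hns.2
        have : x = 1 := Subtype.ext (h3 x (hLS x.2) (hM.le x.2))
        simp [this] at hxy
      · exact ih h3
  have hSL := key ⊤ hL le_top
  let T : Set Ω := {a | h.1 a ≠ a} ∪ Set.range (Infinite.natEmbedding Ω)
  have hTi : T.Infinite := (Set.infinite_range_of_injective
    (Infinite.natEmbedding Ω).injective).mono Set.subset_union_right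
  have hTc : #T ≤ κ := (mk_union_le _ _).trans (add_le_of_le hκ (hs _ h.2)
    (mk_range_le.trans (by simpa using hκ)))
  let f : T × T × T → Perm Ω := fun p => t p.1.1 p.2.1.1 p.2.2.1
  refine ⟨(L : Set K) ∩ Subtype.val ⁻¹' Set.range f, Set.inter_subset_left, ?_, ?_⟩
  · refine (mk_le_mk_of_subset Set.inter_subset_right).trans
      ((mk_preimage_of_injective _ _ Subtype.val_injective).trans (mk_range_le.trans ?_))
    simp only [mk_prod, lift_id]
    exact mul_le_of_le hκ hTc (mul_le_of_le hκ hTc hTc)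
  · intro x _ hx
    apply Subtype.ext
    refine (comm_disj (x := x.1) (h := h.1) fun a ha => ?_).eq
    obtain ⟨b, hbT, c, hcT, hb, hc, hbc⟩ := two_fresh hTi {a, x.1 a} (Set.toFinite _)
    simp only [Set.mem_insert_iff, Set.mem_singleton_iff, not_or] at hb hc
    have m := t_mem (Ne.symm hb.1) (Ne.symm hc.1) hbc
    exact comm_t (Ne.symm hc.1) hbc (Ne.symm hb.2) (Ne.symm hc.2)
      (congrArg Subtype.val (hx ⟨_, hK m⟩ ⟨hSL m, ⟨⟨a, Or.inl ha⟩, ⟨b, hbT⟩, ⟨c, hcT⟩⟩, rfl⟩).eq)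

theorem not_E (κ : Cardinal.{0}) (hκ : ℵ₀ ≤ κ) (K : Subgroup (Perm Ω)) (hK : S Ω ≤ K)
    (h : Perm Ω) (hh : h ∈ K) (hs : κ < #{a | h a ≠ a}) : ¬ E κ K inferInstance := by
  intro hE
  obtain ⟨Y, hY, hc, hx⟩ := hE ((S Ω).subgroupOf K)
    (Sn.step _ _ Sn.refl le_top fun g _ x hx => S_normal.conj_mem _ hx _)
    ((S_NS (Ω := Ω)).of_equiv (Subgroup.subgroupOfEquivOfLe hK).symm) ⟨h, hh⟩
  let U : Set Ω := ⋃ y ∈ Y, {a | y.1 a ≠ a}
  have hU : #U ≤ κ := by
    refine (mk_biUnion_le _ _).trans (mul_le_of_le hκ hc (ciSup_le' fun y => ?_))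
    exact (S_fin (hY y.2)).lt_aleph0.le.trans hκ
  have hinf : ({a | h a ≠ a} \ U).Infinite := by
    intro hf
    have : #{a | h a ≠ a} ≤ κ := by
      refine (mk_le_mk_of_subset (Set.subset_sdiff_union _ U)).trans ((mk_union_le _ _).trans ?_)
      exact add_le_of_le hκ (hf.lt_aleph0.le.trans hκ) hU
    exact absurd hs (not_lt.2 this)
  obtain ⟨a, ha, haU⟩ := hinf.nonempty
  obtain ⟨b, hbT, c, hcT, hb, hc, hbc⟩ := two_fresh hinf {a, h a} (Set.toFinite _)
  simp only [Set.mem_insert_iff, Set.mem_singleton_iff, not_or] at hb hc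
  have m := t_mem (Ne.symm hb.1) (Ne.symm hc.1) hbc
  have := hx ⟨_, hK m⟩ m (by
    intro y hy
    apply Subtype.ext
    refine (comm_disj (x := t a b c) (h := y.1) fun w hw => ?_).eq
    have hwU : w ∈ U := Set.mem_biUnion hy hw
    refine t_fix ?_ ?_ ?_
    · rintro rfl; exact haU hwU
    · rintro rfl; exact hbT.2 hwU
    · rintro rfl; exact hcT.2 hwU)
  exact ha (comm_t (Ne.symm hc.1) hbc (Ne.symm hb.2) (Ne.symm hc.2)
    (congrArg Subtype.val this.symm.eq))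

end Pool.Agent.H70.FitAlt
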