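import Mathlib

set_option autoImplicit false

namespace Pool.Agent.H70.FitClass

open Cardinal
open scoped commutatorElement

inductive Sn {H : Type} [Group H] (L : Subgroup H) : Subgroup H → Prop
  | refl : Sn L L
  | step (K K' : Subgroup H) : Sn L K → K ≤ K' → (∀ g ∈ K', ∀ x ∈ K, g * x * g⁻¹ ∈ K) → Sn L K'

def NS (L : Type) [Group L] : Prop := IsSimpleGroup L ∧ ∃ x y : L, x * y ≠ y * x

theorem NS.of_equiv {L L' : Type} [Group L] [Group L'] (e : L ≃* L') (h : NS L) : NS L' := by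
  obtain ⟨h1, x, y, hxy⟩ := h
  refine ⟨e.symm.isSimpleGroup, e x, e y, fun h => hxy (e.injective (by simpa using h))⟩

variable {H : Type} [Group H]

theorem Sn.le {L K : Subgroup H} (h : Sn L K) : L ≤ K := by
  induction h with
  | refl => exact le_rfl
  | step K K' _ h _ ih => exact ih.trans h

theorem Sn.map {H' : Type} [Group H'] (f : H →* H') {L K : Subgroup H} (h : Sn L K) :
    Sn (L.map f) (K.map f) := by
  induction h with
  | refl => exact Sn.refl
  | step K K' _ h hn ih =>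
    refine Sn.step _ _ ih (Subgroup.map_mono h) ?_
    rintro _ ⟨g, hg, rfl⟩ _ ⟨x, hx, rfl⟩
    exact ⟨_, hn g hg x hx, by simp⟩

theorem Sn.comap {H' : Type} [Group H'] (f : H' →* H) {L K : Subgroup H} (h : Sn L K) :
    Sn (L.comap f) (K.comap f) := by
  induction h with
  | refl => exact Sn.refl
  | step K K' _ h hn ih =>
    refine Sn.step _ _ ih (Subgroup.comap_mono h) ?_
    intro g hg x hx
    simpa using hn (f g) hg (f x) hx

theorem simple_dich {L : Subgroup H} (h : IsSimpleGroup L) (K : Subgroup H)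
    (hK : ∀ g ∈ L, ∀ x ∈ L, x ∈ K → g * x * g⁻¹ ∈ K) : (∀ x ∈ L, x ∈ K → x = 1) ∨ L ≤ K := by
  rcases h.eq_bot_or_eq_top_of_normal (K.subgroupOf L)
    ⟨fun x hx g => hK g g.2 x x.2 hx⟩ with h1 | h1
  · left
    intro x hx hxK
    have : (⟨x, hx⟩ : L) ∈ K.subgroupOf L := hxK
    rw [h1, Subgroup.mem_bot] at this
    exact congrArg Subtype.val this
  · right
    intro x hx
    have : (⟨x, hx⟩ : L) ∈ K.subgroupOf L := by rw [h1]; trivial
    exact this

theorem NS.perfect {L : Subgroup H} (h : NS L) : L ≤ ⁅L, L⁆ := by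
  rcases simple_dich h.1 ⁅L, L⁆ (fun g hg x _ hx =>
    Subgroup.normalizer_commutator_ge_left L L hg x |>.1 hx) with h1 | h1
  · obtain ⟨x, y, hxy⟩ := h.2
    exfalso
    apply hxy
    have := h1 ⁅(x : H), (y : H)⁆ (⁅x, y⁆ : L).2 (Subgroup.commutator_mem_commutator x.2 y.2)
    exact Subtype.ext (commutatorElement_eq_one_iff_mul_comm.1 this)
  · exact h1

theorem dich {L : Subgroup H} (hs : Sn L ⊤) (h : NS L) (N : Subgroup H) [hN : N.Normal] :
    L ≤ N ∨ ∀ x ∈ L, ∀ g ∈ N, Commute x g := by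
  rcases simple_dich h.1 N (fun g _ x _ hx => hN.conj_mem x hx g) with h1 | h1
  · right
    have key : ∀ K, Sn L K → ⁅L, N ⊓ K⁆ = ⊥ := by
      intro K hK
      induction hK with
      | refl =>
        rw [eq_bot_iff, Subgroup.commutator_le]
        intro x _ y hy
        rw [h1 y hy.2 hy.1]; simp
      | step K K' hK hle hn ih =>
        have e1 : ⁅N ⊓ K', L⁆ ≤ N ⊓ K := by
          rw [Subgroup.commutator_le]
          intro y hy x hx
          refine ⟨?_, ?_⟩
          · have := N.mul_mem hy.1 (hN.conj_mem _ (N.inv_mem hy.1) x)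
            simpa [commutatorElement_def, mul_assoc] using this
          · exact K.mul_mem (hn y hy.2 x (hK.le hx)) (K.inv_mem (hK.le hx))
        have e2 : ⁅⁅N ⊓ K', L⁆, L⁆ = ⊥ := by
          rw [eq_bot_iff, ← ih, Subgroup.commutator_comm L]
          exact Subgroup.commutator_mono e1 le_rfl
        have e3 := Subgroup.commutator_commutator_eq_bot_of_rotate (H₁ := L) (H₂ := L)
          (H₃ := N ⊓ K') (by rwa [Subgroup.commutator_comm L]) e2
        rw [eq_bot_iff, ← e3]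
        exact Subgroup.commutator_mono h.perfect le_rfl
    have := key ⊤ hs
    rw [eq_bot_iff, Subgroup.commutator_le] at this
    intro x hx g hg
    exact commutatorElement_eq_one_iff_commute.1 (this x hx g ⟨hg, trivial⟩)
  · exact Or.inl h1

def E (κ : Cardinal.{0}) (H : Type) (_ : Group H) : Prop :=
  ∀ L : Subgroup H, Sn L ⊤ → NS L → ∀ h : H, ∃ Y : Set H, Y ⊆ L ∧ #Y ≤ κ ∧
    ∀ x ∈ L, (∀ y ∈ Y, Commute x y) → Commute x h

theorem E_of_inj (κ : Cardinal.{0}) {K : Type} [Group K] (f : K →* H) (hf : Function.Injective f)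
    (hn : f.range.Normal) (hE : E κ H inferInstance) : E κ K inferInstance := by
  intro L hL hs k
  have h1 : Sn (L.map f) ⊤ := by
    refine Sn.step _ _ (hL.map f) le_top fun g _ x hx => ?_
    rw [← MonoidHom.range_eq_map] at hx ⊢
    exact hn.conj_mem x hx g
  obtain ⟨Y, hY, hc, hx⟩ := hE _ h1 (hs.of_equiv (L.equivMapOfInjective f hf)) (f k)
  refine ⟨f ⁻¹' Y, ?_, (mk_preimage_of_injective f Y hf).trans hc, ?_⟩
  · intro y hy
    obtain ⟨z, hz, e⟩ := hY hy
    rwa [← hf e]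
  · intro x hxL hxY
    have := hx (f x) ⟨x, hxL, rfl⟩ (by
      intro y hy
      obtain ⟨z, hz, rfl⟩ := hY hy
      exact (hxY z hy).map f)
    exact hf (by simpa using this.eq)

theorem E_aux (κ : Cardinal.{0}) (N : Subgroup H) [N.Normal] (hE : E κ N inferInstance)
    (L : Subgroup H) (hL : Sn L ⊤) (hs : NS L) (h : H) (hh : h ∈ N) :
    ∃ Y : Set H, Y ⊆ L ∧ #Y ≤ κ ∧ ∀ x ∈ L, (∀ y ∈ Y, Commute x y) → Commute x h := by
  rcases dich hL hs N with h1 | h1
  · obtain ⟨Y, hY, hc, hx⟩ := hE (L.subgroupOf N) (by simpa using hL.comap N.subtype)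
      (hs.of_equiv (Subgroup.subgroupOfEquivOfLe h1).symm) ⟨h, hh⟩
    refine ⟨Subtype.val '' Y, ?_, mk_image_le.trans hc, ?_⟩
    · rintro _ ⟨y, hy, rfl⟩
      exact hY hy
    · intro x hxL hxY
      exact (hx ⟨x, h1 hxL⟩ hxL fun y hy => Subtype.ext (hxY y ⟨y, hy, rfl⟩)).map N.subtype
  · exact ⟨∅, by simp, by simp, fun x hx _ => h1 x hx h hh⟩

def Closed (F : (H : Type) → Group H → Prop) : Prop :=
  (∀ (H K : Type) (iH : Group H) (iK : Group K), Nonempty (H ≃* K) → F H iH → F K iK) ∧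
  (∀ (H : Type) (iH : Group H) (N : Subgroup H), N.Normal → F H iH → F (↥N) inferInstance) ∧
  (∀ (H : Type) (iH : Group H) (N M : Subgroup H), N.Normal → M.Normal →
    F (↥N) inferInstance → F (↥M) inferInstance → F (↥(N ⊔ M)) inferInstance)

theorem E_closed (κ : Cardinal.{0}) (hκ : ℵ₀ ≤ κ) : Closed (E κ) := by
  refine ⟨?_, ?_, ?_⟩
  · rintro H K _ _ ⟨e⟩ hE
    refine E_of_inj κ e.symm.toMonoidHom e.symm.injective ?_ hE
    rw [MonoidHom.range_eq_top.2 e.symm.surjective]; infer_instance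
  · intro H _ N hN hE
    exact E_of_inj κ N.subtype N.subtype_injective (by simpa using hN) hE
  · intro H _ N M hN hM hEN hEM L hL hs h
    have e1 : E κ (N.subgroupOf (N ⊔ M)) inferInstance :=
      E_of_inj κ (Subgroup.subgroupOfEquivOfLe le_sup_left).toMonoidHom (MulEquiv.injective _)
        (by rw [MonoidHom.range_eq_top.2 (MulEquiv.surjective _)]; infer_instance) hEN
    have e2 : E κ (M.subgroupOf (N ⊔ M)) inferInstance :=
      E_of_inj κ (Subgroup.subgroupOfEquivOfLe le_sup_right).toMonoidHom (MulEquiv.injective _)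
        (by rw [MonoidHom.range_eq_top.2 (MulEquiv.surjective _)]; infer_instance) hEM
    obtain ⟨a, ha, b, hb, hab⟩ := Subgroup.mem_sup_of_normal_left.1 h.2
    obtain ⟨Y1, hY1, c1, x1⟩ := E_aux κ _ e1 L hL hs ⟨a, Subgroup.mem_sup_left ha⟩ ha
    obtain ⟨Y2, hY2, c2, x2⟩ := E_aux κ _ e2 L hL hs ⟨b, Subgroup.mem_sup_right hb⟩ hb
    refine ⟨Y1 ∪ Y2, Set.union_subset hY1 hY2,
      (mk_union_le _ _).trans (add_le_of_le hκ c1 c2), fun x hx hy => ?_⟩
    have := (x1 x hx fun y h => hy y (Or.inl h)).mul_right (x2 x hx fun y h => hy y (Or.inr h))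
    have e : h = ⟨a, Subgroup.mem_sup_left ha⟩ * ⟨b, Subgroup.mem_sup_right hb⟩ :=
      Subtype.ext hab.symm
    rw [e]; exact this

theorem Closed.sub {F : (H : Type) → Group H → Prop} (hF : Closed F) (A B C : Subgroup H)
    (hA : ∀ g ∈ A ⊔ B, ∀ x ∈ A, g * x * g⁻¹ ∈ A) (hB : ∀ g ∈ A ⊔ B, ∀ x ∈ B, g * x * g⁻¹ ∈ B)
    (hC : ∀ g ∈ A ⊔ B, ∀ x ∈ C, g * x * g⁻¹ ∈ C) (hle : C ≤ A ⊔ B)
    (fA : F A inferInstance) (fB : F B inferInstance) : F C inferInstance := by
  have h1 := hF.2.2 (A ⊔ B : Subgroup H) inferInstance (A.subgroupOf _) (B.subgroupOf _)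
    ⟨fun x hx g => hA g g.2 x hx⟩ ⟨fun x hx g => hB g g.2 x hx⟩
    (hF.1 _ _ _ _ ⟨(Subgroup.subgroupOfEquivOfLe le_sup_left).symm⟩ fA)
    (hF.1 _ _ _ _ ⟨(Subgroup.subgroupOfEquivOfLe le_sup_right).symm⟩ fB)
  rw [← Subgroup.subgroupOf_sup le_sup_left le_sup_right, Subgroup.subgroupOf_self] at h1
  have h2 := hF.1 _ _ _ _ ⟨Subgroup.topEquiv⟩ h1
  exact hF.1 _ _ _ _ ⟨Subgroup.subgroupOfEquivOfLe hle⟩
    (hF.2.1 _ _ (C.subgroupOf (A ⊔ B)) ⟨fun x hx g => hC g g.2 x hx⟩ h2)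

end Pool.Agent.H70.FitClass
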