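import Pool.Agent.H70.FitAlt

set_option autoImplicit false

namespace Pool.Agent.H70.FitMain

open Cardinal Equiv Pool.Agent.H70.FitClass Pool.Agent.H70.FitAlt

abbrev V := Multiplicative (ZMod 2) × Multiplicative (ZMod 2)

variable {I : Type} [DecidableEq I]

def tau (I : Type) : (I → V) →* Perm (I × V) where
  toFun f := ⟨fun w => (w.1, f w.1 * w.2), fun w => (w.1, (f w.1)⁻¹ * w.2),
    fun w => by simp, fun w => by simp⟩
  map_one' := by ext <;> simp
  map_mul' f g := by ext1 w; simp [mul_assoc]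

omit [DecidableEq I] in
theorem tau_apply (f : I → V) (w : I × V) : tau I f w = (w.1, f w.1 * w.2) := rfl

def K (f : I → V) : Subgroup (Perm (I × V)) := S (I × V) ⊔ Subgroup.zpowers (tau I f)

theorem mem_K {f : I → V} {g : Perm (I × V)} :
    g ∈ K f ↔ ∃ s ∈ S (I × V), ∃ k : ℤ, g = s * tau I (f ^ k) := by
  rw [K, Subgroup.mem_sup_of_normal_left]
  constructor
  · rintro ⟨s, hs, _, ⟨k, rfl⟩, rfl⟩
    exact ⟨s, hs, k, by simp⟩
  · rintro ⟨s, hs, k, rfl⟩
    exact ⟨s, hs, _, ⟨k, rfl⟩, by simp⟩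

theorem norm_K (f f1 f2 : I → V) : ∀ g ∈ K f1 ⊔ K f2, ∀ x ∈ K f, g * x * g⁻¹ ∈ K f := by
  have h : K f1 ⊔ K f2 ≤ S (I × V) ⊔ (tau I).range := by
    refine sup_le (sup_le_sup_left ?_ _) (sup_le_sup_left ?_ _) <;>
      rw [Subgroup.zpowers_le] <;> exact ⟨_, rfl⟩
  intro g hg x hx
  obtain ⟨s, hs, _, ⟨c, rfl⟩, rfl⟩ := Subgroup.mem_sup_of_normal_left.1 (h hg)
  obtain ⟨s', hs', k, rfl⟩ := mem_K.1 hx
  have hc : tau I c * tau I (f ^ k) = tau I (f ^ k) * tau I c := by
    rw [← map_mul, ← map_mul, mul_comm]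
  refine mem_K.2 ⟨s * (tau I c * s' * (tau I c)⁻¹) *
    (tau I (f ^ k) * s⁻¹ * (tau I (f ^ k))⁻¹), ?_, k, ?_⟩
  · exact (S _).mul_mem ((S _).mul_mem hs (S_normal.conj_mem _ hs' _))
      (S_normal.conj_mem _ ((S _).inv_mem hs) _)
  · have : tau I (f ^ k) * (tau I c)⁻¹ = (tau I c)⁻¹ * tau I (f ^ k) := by
      rw [mul_inv_eq_iff_eq_mul, mul_assoc, ← hc]; group
    calc _ = s * tau I c * s' * (tau I (f ^ k) * (tau I c)⁻¹) * s⁻¹ := by group
      _ = _ := by rw [this]; group

theorem K_mul (f1 f2 : I → V) : K (f1 * f2) ≤ K f1 ⊔ K f2 := by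
  refine sup_le (le_sup_of_le_left le_sup_left) ?_
  rw [Subgroup.zpowers_le, map_mul]
  exact Subgroup.mul_mem _ (Subgroup.mem_sup_left (Subgroup.mem_sup_right (Subgroup.mem_zpowers _)))
    (Subgroup.mem_sup_right (Subgroup.mem_sup_right (Subgroup.mem_zpowers _)))

theorem K_conj (σ : Perm (I × V)) (f f' : I → V) (h : σ * tau I f * σ⁻¹ = tau I f') :
    Nonempty (K f ≃* K f') := by
  have : (K f).map (MulAut.conj σ).toMonoidHom = K f' := by
    rw [K, K, Subgroup.map_sup, MonoidHom.map_zpowers]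
    congr 1
    · exact Subgroup.Normal.map_conj_eq _ _
    · exact congrArg _ h
  rw [← this]
  exact ⟨(MulAut.conj σ).subgroupMap _⟩

def u : V := (Multiplicative.ofAdd 1, 1)

open Classical in
noncomputable def al' (T : Set I) : I → V := fun i => if i ∈ T then u.swap else u

open Classical in
noncomputable def sig (T : Set I) : Perm (I × V) :=
  Function.Involutive.toPerm (fun w => (w.1, if w.1 ∈ T then w.2.swap else w.2)) (by
    intro w
    by_cases h : w.1 ∈ T <;> simp [h])

theorem sig_conj (T : Set I) : sig T * tau I (fun _ => u) * (sig T)⁻¹ = tau I (al' T) := by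
  rw [mul_inv_eq_iff_eq_mul]
  ext1 w
  by_cases h : w.1 ∈ T <;> simp [sig, tau_apply, al', h]

theorem in_fit {F : (H : Type) → Group H → Prop} (hF : Closed F) (T : Set I)
    (h : F (K (fun _ : I => u)) inferInstance) : F (K ((fun _ => u) * al' T)) inferInstance :=
  hF.sub _ _ _ (norm_K _ _ _) (norm_K _ _ _) (norm_K _ _ _) (K_mul _ _) h
    (hF.1 _ _ _ _ (K_conj _ _ _ (sig_conj T)) h)

omit [DecidableEq I] in
theorem supp_eq (T : Set I) : {i | ((fun _ => u) * al' T : I → V) i ≠ 1} = T := by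
  ext i
  by_cases h : i ∈ T
  · simp only [Set.mem_setOf_eq, Pi.mul_apply, al', h, if_true, iff_true]; decide
  · simp only [Set.mem_setOf_eq, Pi.mul_apply, al', h, if_false, iff_false]; decide

theorem small (κ : Cardinal.{0}) (hκ : ℵ₀ ≤ κ) (f : I → V) (hf : #{i | f i ≠ 1} ≤ κ) :
    ∀ h ∈ K f, #{a | h a ≠ a} ≤ κ := by
  intro h hh
  obtain ⟨s, hs, k, rfl⟩ := mem_K.1 hh
  have : {a | (s * tau I (f ^ k)) a ≠ a} ⊆ {a | s a ≠ a} ∪ {i | f i ≠ 1} ×ˢ Set.univ := by
    intro a ha
    by_contra hc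
    simp only [Set.mem_union, Set.mem_setOf_eq, Set.mem_prod, Set.mem_univ, and_true, not_or,
      not_not] at hc
    apply ha
    rw [Perm.mul_apply, tau_apply, Pi.pow_apply, hc.2, one_zpow, one_mul]
    exact hc.1
  refine (mk_le_mk_of_subset this).trans ((mk_union_le _ _).trans (add_le_of_le hκ
    ((S_fin hs).lt_aleph0.le.trans hκ) ?_))
  rw [mk_setProd]
  exact mul_le_of_le hκ hf ((Set.toFinite _).lt_aleph0.le.trans hκ)

omit [DecidableEq I] in
theorem big (f : I → V) : #{i | f i ≠ 1} ≤ #{a | tau I f a ≠ a} := by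
  refine mk_le_of_injective (f := fun i => ⟨(i.1, 1), ?_⟩) ?_
  · intro h
    exact i.2 (by simpa [tau_apply] using congrArg Prod.snd h)
  · intro i j h
    exact Subtype.ext (congrArg (fun w => w.1.1) h)

theorem series [Infinite I] : ∃ (n : ℕ) (s : Fin (n + 1) → Subgroup (K (fun _ : I => u))),
    s 0 = ⊥ ∧ s (Fin.last n) = ⊤ ∧
      ∀ i : Fin n, s i.castSucc ≤ s i.succ ∧
        ((s i.castSucc).subgroupOf (s i.succ)).Normal ∧
        (s i.castSucc).subgroupOf (s i.succ) ≠ ⊤ ∧
        ∀ M : Subgroup ↥(s i.succ), M.Normal →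
          (s i.castSucc).subgroupOf (s i.succ) ≤ M →
            M = (s i.castSucc).subgroupOf (s i.succ) ∨ M = ⊤ := by
  let G := K (fun _ : I => u)
  have hK : S (I × V) ≤ G := le_sup_left
  have hS := ((S_NS (Ω := I × V)).of_equiv (Subgroup.subgroupOfEquivOfLe hK).symm).1
  refine ⟨2, ![⊥, (S (I × V)).subgroupOf G, ⊤], rfl, rfl, ?_⟩
  rw [Fin.forall_fin_two]
  refine ⟨⟨bot_le, ?_, ?_, ?_⟩, le_top, ?_, ?_, ?_⟩
  · show ((⊥ : Subgroup G).subgroupOf ((S (I × V)).subgroupOf G)).Normal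
    infer_instance
  · show ((⊥ : Subgroup G).subgroupOf ((S (I × V)).subgroupOf G)) ≠ ⊤
    rw [Subgroup.bot_subgroupOf]
    exact bot_ne_top
  · show ∀ M : Subgroup ((S (I × V)).subgroupOf G), M.Normal → _ →
      M = ((⊥ : Subgroup G).subgroupOf ((S (I × V)).subgroupOf G)) ∨ M = ⊤
    intro M hM _
    rw [Subgroup.bot_subgroupOf]
    exact hS.eq_bot_or_eq_top_of_normal M hM
  · show (((S (I × V)).subgroupOf G).subgroupOf ⊤).Normal
    infer_instance
  · show (((S (I × V)).subgroupOf G).subgroupOf ⊤) ≠ ⊤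
    intro h
    have : (⟨⟨tau I fun _ => u, Subgroup.mem_sup_right (Subgroup.mem_zpowers _)⟩, trivial⟩ :
        (⊤ : Subgroup G)) ∈ ((S (I × V)).subgroupOf G).subgroupOf ⊤ := by rw [h]; trivial
    have h2 := S_fin this
    have h3 := (big (fun _ : I => u)).trans_lt h2.lt_aleph0
    have h4 : {i : I | u ≠ 1} = Set.univ := by
      ext i; simp only [Set.mem_setOf_eq, Set.mem_univ, iff_true]; decide
    rw [h4, lt_aleph0_iff_set_finite] at h3
    exact Set.infinite_univ h3
  · show ∀ M : Subgroup (⊤ : Subgroup G), M.Normal →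
      ((S (I × V)).subgroupOf G).subgroupOf ⊤ ≤ M →
      M = ((S (I × V)).subgroupOf G).subgroupOf ⊤ ∨ M = ⊤
    intro M _ hle
    have form : ∀ g ∈ G, g ∈ S (I × V) ∨ g * tau I (fun _ => u) ∈ S (I × V) := by
      intro g hg
      obtain ⟨s, hs, k, rfl⟩ := mem_K.1 hg
      have h2 : (fun _ : I => u) ^ (2 : ℤ) = 1 := by
        funext i
        show u ^ (2 : ℤ) = 1
        decide
      rcases Int.even_or_odd' k with ⟨j, rfl | rfl⟩
      · left
        rw [zpow_mul, h2]; simpa using hs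
      · right
        rw [mul_assoc, ← map_mul, ← zpow_add_one, add_assoc, one_add_one_eq_two, zpow_add,
          zpow_mul, h2]
        simpa using hs
    by_cases h : M ≤ ((S (I × V)).subgroupOf G).subgroupOf ⊤
    · exact Or.inl (le_antisymm h hle)
    · right
      obtain ⟨x, hxM, hx⟩ := SetLike.not_le_iff_exists.1 h
      have hx2 := (form _ x.1.2).resolve_left hx
      rw [eq_top_iff]
      intro y _
      rcases form _ y.1.2 with hy | hy
      · exact hle hy
      · have : y * x⁻¹ ∈ M := hle (by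
          have := (S _).mul_mem hy ((S _).inv_mem hx2)
          show y.1.1 * x.1.1⁻¹ ∈ S _
          simpa [mul_assoc] using this)
        simpa using M.mul_mem this hxM

theorem main (I : Type) [DecidableEq I] (hI : #I = ℵ_ Ordinal.omega0) :
    Set.Infinite {F : (H : Type) → Group H → Prop | Closed F ∧
      ∀ (L : Type) (iL : Group L), F L iL → ∀ E : (H : Type) → Group H → Prop,
        Closed E → E (K (fun _ : I => u)) inferInstance → E L iL} := by
  have hinf : Infinite I := by rw [Cardinal.infinite_iff, hI]; exact aleph0_le_aleph _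
  have hT : ∀ n : ℕ, ∃ T : Set I, #T = ℵ_ n := fun n =>
    le_mk_iff_exists_set.1 (by rw [hI]; exact aleph_le_aleph.2 (Ordinal.natCast_lt_omega0 n).le)
  choose T hT using hT
  let F : ℕ → (H : Type) → Group H → Prop := fun n L iL =>
    ∀ E : (H : Type) → Group H → Prop, Closed E →
      E (K ((fun _ => u) * al' (T n))) inferInstance → E L iL
  have lt : ∀ n m : ℕ, n < m → F n ≠ F m := by
    intro n m hnm e
    have h1 : F m (K ((fun _ => u) * al' (T m))) inferInstance := fun E _ h => h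
    rw [← e] at h1
    have h2 := h1 (E (ℵ_ n)) (E_closed _ (aleph0_le_aleph _))
      (E_of_small _ (aleph0_le_aleph _) _ le_sup_left (small _ (aleph0_le_aleph _) _
        (by rw [supp_eq, hT])))
    refine not_E _ (aleph0_le_aleph _) _ le_sup_left _
      (Subgroup.mem_sup_right (Subgroup.mem_zpowers _)) (lt_of_lt_of_le ?_ (big _)) h2
    rw [supp_eq, hT]
    exact aleph_lt_aleph.2 (by exact_mod_cast hnm)
  refine Set.infinite_of_injective_forall_mem (f := F) ?_ ?_
  · intro n m e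
    rcases lt_trichotomy n m with h | h | h
    · exact absurd e (lt n m h)
    · exact h
    · exact absurd e.symm (lt m n h)
  · intro n
    refine ⟨⟨?_, ?_, ?_⟩, ?_⟩
    · intro H L iH iL e h E hE h2
      exact hE.1 _ _ _ _ e (h E hE h2)
    · intro H iH N hN h E hE h2
      exact hE.2.1 _ _ N hN (h E hE h2)
    · intro H iH N M hN hM h h' E hE h2
      exact hE.2.2 _ _ N M hN hM (h E hE h2) (h' E hE h2)
    · intro L iL h E hE h2
      exact h E hE (in_fit hE _ h2)

end Pool.Agent.H70.FitMain
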