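import Mathlib

set_option autoImplicit false

/-! A free group of unit quaternions, none of whose nontrivial elements is real. -/

namespace Pool.Agent.H70.FreeQ

open Quaternion

/-- the letters `3 ± 4i`, `3 ± 4j` -/
def lt (R : Type) [CommRing R] (x : Bool × Bool) : ℍ[R] :=
  ⟨3, if x.1 then (if x.2 then 4 else -4) else 0, if x.1 then 0 else (if x.2 then 4 else -4), 0⟩

def q (R : Type) [CommRing R] (L : List (Bool × Bool)) : ℍ[R] := (L.map (lt R)).prod

def qmap {R S : Type} [CommRing R] [CommRing S] (f : R →+* S) : ℍ[R] →* ℍ[S] where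
  toFun p := ⟨f p.re, f p.imI, f p.imJ, f p.imK⟩
  map_one' := by ext <;> simp
  map_mul' a b := by ext <;> simp

theorem qmap_q {S : Type} [CommRing S] (L : List (Bool × Bool)) :
    qmap (Int.castRingHom S) (q ℤ L) = q S L := by
  rw [q, q, map_list_prod, List.map_map]
  congr 2
  funext ⟨a, b⟩
  cases a <;> cases b <;> ext <;> simp [qmap, lt]

theorem zz (x y : Bool × Bool) (h : y.1 = x.1 → y.2 = x.2) :
    ∃ z : ℍ[ZMod 5], z * (lt _ y * lt _ x) = lt _ x := by
  have : ∀ x y : Bool × Bool, (y.1 = x.1 → y.2 = x.2) → ∃ a : ZMod 5,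
      (a • lt (ZMod 5) x * (lt _ y * lt _ x)).re = (lt _ x).re ∧
      (a • lt (ZMod 5) x * (lt _ y * lt _ x)).imI = (lt _ x).imI ∧
      (a • lt (ZMod 5) x * (lt _ y * lt _ x)).imJ = (lt _ x).imJ ∧
      (a • lt (ZMod 5) x * (lt _ y * lt _ x)).imK = (lt _ x).imK := by decide +kernel
  obtain ⟨a, h1, h2, h3, h4⟩ := this x y h
  exact ⟨_, Quaternion.ext _ _ h1 h2 h3 h4⟩

theorem q_ne (L : List (Bool × Bool)) : ∀ x, FreeGroup.IsReduced (x :: L) →
    q (ZMod 5) (x :: L) ≠ 0 := by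
  induction L with
  | nil =>
    intro x _ h
    have := congrArg (fun p : ℍ[ZMod 5] => p.re) h
    simp only [q, lt, List.map_cons, List.map_nil, List.prod_cons, List.prod_nil, mul_one] at this
    revert this; decide
  | cons y L ih =>
    intro x hx h
    rw [FreeGroup.isReduced_cons_cons] at hx
    apply ih y hx.2
    obtain ⟨z, hz⟩ := zz y x hx.1
    simp only [q, List.map_cons, List.prod_cons] at h ⊢
    rw [← hz, mul_assoc, mul_assoc, h, mul_zero]

theorem normSq_q (L : List (Bool × Bool)) : normSq (q ℤ L) = 25 ^ L.length := by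
  induction L with
  | nil => simp [q]
  | cons x L ih =>
    simp only [q, List.map_cons, List.prod_cons, map_mul, List.length_cons, pow_succ'] at ih ⊢
    rw [ih]
    congr 1
    obtain ⟨a, b⟩ := x
    cases a <;> cases b <;> simp [normSq_def', lt]

theorem q_im (L : List (Bool × Bool)) (hL : FreeGroup.IsReduced L) (h0 : L ≠ []) :
    ¬ ((q ℝ L).imI = 0 ∧ (q ℝ L).imJ = 0 ∧ (q ℝ L).imK = 0) := by
  obtain ⟨x, L, rfl⟩ := List.exists_cons_of_ne_nil h0
  rw [← qmap_q]
  rintro ⟨h1, h2, h3⟩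
  have h1 : (q ℤ (x :: L)).imI = 0 := by simpa [qmap] using h1
  have h2 : (q ℤ (x :: L)).imJ = 0 := by simpa [qmap] using h2
  have h3 : (q ℤ (x :: L)).imK = 0 := by simpa [qmap] using h3
  have h4 := normSq_q (x :: L)
  rw [normSq_def', h1, h2, h3, List.length_cons] at h4
  have h5 : (5 : ℤ) ∣ (q ℤ (x :: L)).re :=
    Int.Prime.dvd_pow' (k := 2) (p := 5) (by norm_num)
      ⟨5 * 25 ^ L.length, by push_cast; linear_combination h4⟩
  apply q_ne L x hL
  rw [← qmap_q]
  ext <;> simp [qmap, h1, h2, h3]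
  exact (ZMod.intCast_zmod_eq_zero_iff_dvd _ 5).2 h5

/-- the generators as unit quaternions -/
noncomputable def gen (b : Bool) : unitary ℍ[ℝ] :=
  ⟨(5⁻¹ : ℝ) • lt ℝ (b, true), by
    cases b <;> constructor <;> ext <;> simp [lt] <;> norm_num⟩

/-- the free representation -/
noncomputable def sig : FreeGroup Bool →* unitary ℍ[ℝ] := FreeGroup.lift gen

theorem sig_mk (L : List (Bool × Bool)) :
    (sig (FreeGroup.mk L) : ℍ[ℝ]) = (5⁻¹ : ℝ) ^ L.length • q ℝ L := by
  rw [sig, FreeGroup.lift_mk]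
  induction L with
  | nil => simp [q]
  | cons x L ih =>
    simp only [q, List.map_cons, List.prod_cons, List.length_cons, pow_succ', Submonoid.coe_mul,
      ih]
    have : ((cond x.2 (gen x.1) (gen x.1)⁻¹ : unitary ℍ[ℝ]) : ℍ[ℝ]) = (5⁻¹ : ℝ) • lt ℝ x := by
      obtain ⟨a, b⟩ := x
      cases b
      · show star ((5⁻¹ : ℝ) • lt ℝ (a, true)) = _
        cases a <;> ext <;> simp [lt]
      · rfl
    rw [this, smul_mul_smul_comm]

theorem sig_free (w : FreeGroup Bool) (h1 : (sig w : ℍ[ℝ]).imI = 0) (h2 : (sig w : ℍ[ℝ]).imJ = 0)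
    (h3 : (sig w : ℍ[ℝ]).imK = 0) : w = 1 := by
  by_contra hw
  rw [← FreeGroup.mk_toWord (x := w), sig_mk] at h1 h2 h3
  refine q_im w.toWord FreeGroup.isReduced_toWord (by simpa using hw) ?_
  simpa using And.intro h1 (And.intro h2 h3)

theorem sig_inj : Function.Injective sig :=
  (injective_iff_map_eq_one _).2 fun w h => sig_free w (by simp [h]) (by simp [h]) (by simp [h])

theorem comm_of (g h : FreeGroup Bool)
    (c : (sig g : ℍ[ℝ]) * sig h = sig h * sig g) : Commute g h :=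
  sig_inj (by rw [map_mul, map_mul]; exact Subtype.ext c)

theorem comm_pure (p s x : ℍ[ℝ]) (hx : ¬ (x.imI = 0 ∧ x.imJ = 0 ∧ x.imK = 0))
    (h1 : p * x = x * p) (h2 : s * x = x * s) : p * s = s * p := by
  have a1 := congrArg (fun t : ℍ[ℝ] => t.imI) h1
  have a2 := congrArg (fun t : ℍ[ℝ] => t.imJ) h1
  have a3 := congrArg (fun t : ℍ[ℝ] => t.imK) h1
  have b1 := congrArg (fun t : ℍ[ℝ] => t.imI) h2
  have b2 := congrArg (fun t : ℍ[ℝ] => t.imJ) h2
  have b3 := congrArg (fun t : ℍ[ℝ] => t.imK) h2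
  simp only [imI_mul, imJ_mul, imK_mul] at a1 a2 a3 b1 b2 b3
  ext
  · simp; ring
  all_goals simp only [imI_mul, imJ_mul, imK_mul]; grind

theorem anti (g : FreeGroup Bool) (x : ℍ[ℝ]) (h0 : x.re = 0)
    (hx : ¬ (x.imI = 0 ∧ x.imJ = 0 ∧ x.imK = 0))
    (h : (sig g : ℍ[ℝ]) * x = -(x * sig g)) : g = 1 := by
  have a1 := congrArg (fun t : ℍ[ℝ] => t.imI) h
  have a2 := congrArg (fun t : ℍ[ℝ] => t.imJ) h
  have a3 := congrArg (fun t : ℍ[ℝ] => t.imK) h
  simp only [imI_mul, imJ_mul, imK_mul, imI_neg, imJ_neg, imK_neg, h0] at a1 a2 a3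
  have hr : (sig g : ℍ[ℝ]).re = 0 := by grind
  have : g ^ 2 = 1 := by
    refine sig_free _ ?_ ?_ ?_ <;> simp [pow_two, hr] <;> ring
  exact (pow_eq_one_iff_left (by norm_num)).1 this

end Pool.Agent.H70.FreeQ
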