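import Mathlib

/-! Peak reduction for elementary moves on triples over a ring with a two-term weak algorithm. -/

set_option autoImplicit false

namespace Pool.Agent.H70.GE

/-- degree function with a two-term weak algorithm, characteristic two -/
structure WA (R : Type) [Ring R] (δ : R → ℕ) : Prop where
  two : (1 : R) + 1 = 0
  zero : ∀ r, δ r = 0 ↔ r = 0
  ultra : ∀ r s, δ (r + s) ≤ max (δ r) (δ s)
  mul : ∀ r s, r ≠ 0 → s ≠ 0 → δ (r * s) + 1 = δ r + δ s
  one : ∀ r, δ r = 1 → r = 1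
  wa : ∀ u1 u2 r1 r2, δ u1 ≤ δ u2 → δ (r1 * u1 + r2 * u2) < max (δ (r1 * u1)) (δ (r2 * u2)) →
    ∃ q, δ (u2 + q * u1) < δ u2

variable {R : Type} [Ring R] {δ : R → ℕ} {M : Type} [AddCommGroup M] [Module R M]

/-- triples reachable from the base by moves that do not lower the degree -/
inductive T (δ : R → ℕ) (φ : M →ₗ[R] R) (x0 y0 z0 : M) : M → M → M → Prop
  | base : T δ φ x0 y0 z0 x0 y0 z0
  | sw1 {x y z : M} : T δ φ x0 y0 z0 x y z → T δ φ x0 y0 z0 y x z
  | sw2 {x y z : M} : T δ φ x0 y0 z0 x y z → T δ φ x0 y0 z0 x z y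
  | step {x y z : M} (a b : R) : T δ φ x0 y0 z0 x y z → δ (φ x) ≤ δ (φ (x + a • y + b • z)) →
      T δ φ x0 y0 z0 (x + a • y + b • z) y z

/-- balanced triple -/
def Bal (δ : R → ℕ) (φ : M →ₗ[R] R) (n : ℕ) (x y z : M) : Prop :=
  0 < n ∧ δ (φ x) = n ∧ δ (φ y) = n ∧ δ (φ z) = n ∧ δ (φ (x + y)) = n ∧ δ (φ (x + z)) = n ∧
    δ (φ (y + z)) = n ∧ δ (φ (x + y + z)) = n

namespace WA
variable (h : WA R δ)
include h

theorem add_self (r : R) : r + r = 0 := by
  have : r + r = (1 + 1) * r := by noncomm_ring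
  rw [this, h.two, zero_mul]

theorem madd_self (m : M) : m + m = 0 := by
  have : m + m = ((1 : R) + 1) • m := by rw [add_smul, one_smul]
  rw [this, h.two, zero_smul]

theorem two_smul' (m : M) : (2 : ℕ) • m = 0 := by rw [two_nsmul, h.madd_self]

theorem δ0 : δ 0 = 0 := (h.zero 0).2 rfl

theorem eq_of_lt {r s : R} (hl : δ (r + s) < δ r) : δ s = δ r := by
  have h1 := h.ultra (r + s) s
  have h2 := h.ultra (r + s) r
  rw [add_assoc, h.add_self, add_zero] at h1
  rw [add_comm r s, add_assoc, h.add_self, add_zero, add_comm s r] at h2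
  omega

theorem le_of_le {r s : R} {n : ℕ} (h1 : δ (r + s) ≤ n) (h2 : δ r ≤ n) : δ s ≤ n := by
  have h3 := h.ultra (r + s) r
  rw [add_comm r s, add_assoc, h.add_self, add_zero, add_comm s r] at h3
  omega

theorem le_mul {c : R} (hc : c ≠ 0) (r : R) : δ r ≤ δ (c * r) := by
  by_cases hr : r = 0
  · rw [hr, h.δ0]; omega
  · have := h.mul c r hc hr
    have h2 : δ c ≠ 0 := fun e => hc ((h.zero c).1 e)
    omega

theorem unit_of_le {c r : R} (hc : c ≠ 0) (hr : 0 < δ r) (hl : δ (c * r) ≤ δ r) : c = 1 := by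
  have hr' : r ≠ 0 := fun e => by rw [e, h.δ0] at hr; omega
  have := h.mul c r hc hr'
  have h2 : δ c ≠ 0 := fun e => hc ((h.zero c).1 e)
  exact h.one c (by omega)

end WA

section main
variable (h : WA R δ) (φ : M →ₗ[R] R) (x0 y0 z0 : M)
include h

theorem T.cast {x y z x' : M} (t : T δ φ x0 y0 z0 x y z) (e : x = x') : T δ φ x0 y0 z0 x' y z :=
  e ▸ t

theorem eq_of_two {a b c : M} (e : a = b + (c + c)) : a = b := by
  rw [e, h.madd_self, add_zero]

/-- all moves on the first entry -/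
def Mv (δ : R → ℕ) (φ : M →ₗ[R] R) (x0 y0 z0 x y z : M) : Prop :=
  ∀ a b : R, T δ φ x0 y0 z0 (x + a • y + b • z) y z

omit h in
theorem Mv.swap {x y z : M} (m : Mv δ φ x0 y0 z0 x y z) : Mv δ φ x0 y0 z0 x z y := by
  intro a b
  have := (m b a).sw2
  rwa [add_right_comm] at this

theorem lemA {u y z : M} (a b d : R) (my : Mv δ φ x0 y0 z0 y u z)
    (hu : δ (φ u) ≤ δ (φ (u + a • y + b • z))) :
    T δ φ x0 y0 z0 (u + a • y + b • z) (y + d • z) z := by
  have t1 := (my 0 d).sw1
  rw [zero_smul, add_zero] at t1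
  have e : u + a • (y + d • z) + (b + a * d) • z = u + a • y + b • z :=
    eq_of_two h (c := (a * d) • z) (by simp only [smul_add, add_smul, mul_smul]; abel)
  exact (t1.step a (b + a * d) (by rw [e]; exact hu)).cast h φ x0 y0 z0 e

theorem lemB {H : ℕ} {u y z x : M} (a b c d : R) (hx : x = u + a • y + b • z)
    (lo : ∀ x y z, T δ φ x0 y0 z0 x y z → δ (φ x) + δ (φ y) + δ (φ z) < H → Mv δ φ x0 y0 z0 x y z)
    (mu : Mv δ φ x0 y0 z0 u y z) (my : Mv δ φ x0 y0 z0 y u z) (mz : Mv δ φ x0 y0 z0 z u y)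
    (hu : δ (φ u) ≤ δ (φ x)) (hH : δ (φ x) + δ (φ y) + δ (φ z) ≤ H)
    (hc : δ (c * φ x) ≤ δ (φ y)) (hd : δ (d * φ z) ≤ δ (φ y))
    (hlt : δ (φ (y + c • x + d • z)) < δ (φ y)) :
    T δ φ x0 y0 z0 (y + c • x + d • z) x z := by
  have hA : ∀ q : R, T δ φ x0 y0 z0 x (y + q • z) z := fun q => by
    rw [hx]; exact lemA h φ x0 y0 z0 a b q my (hx ▸ hu)
  have hA' : ∀ q : R, T δ φ x0 y0 z0 x (z + q • y) y := fun q => by
    have e : x = u + b • z + a • y := by rw [hx]; abel
    rw [e]; exact lemA h φ x0 y0 z0 b a q mz (e ▸ hu)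
  by_cases c0 : c = 0
  · rw [c0, zero_smul, add_zero]; exact (hA d).sw1
  have hxy : δ (φ x) ≤ δ (φ y) := (h.le_mul c0 _).trans hc
  have hs : δ (a * φ y + b * φ z) ≤ δ (φ y) := by
    refine h.le_of_le (r := φ u) ?_ (hu.trans hxy)
    have : φ u + (a * φ y + b * φ z) = φ x := by rw [hx]; simp [add_assoc]
    rw [this]; exact hxy
  by_cases a0 : a = 0
  · have e : y + c • u + (c * b + d) • z = y + c • x + d • z := by
      rw [hx, a0]; simp only [zero_smul, add_zero, smul_add, add_smul, mul_smul]; abel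
    have t1 := (my c (c * b + d)).sw1
    rw [e] at t1
    have e2 : u + (0 : R) • (y + c • x + d • z) + b • z = x := by
      rw [zero_smul, add_zero]; nth_rewrite 1 [hx]; rw [a0, zero_smul, add_zero]
    exact ((t1.step 0 b (by rw [e2]; exact hu)).cast h φ x0 y0 z0 e2).sw1
  have hy0 : 0 < δ (φ y) := by omega
  by_cases hcan : δ (a * φ y + b * φ z) < max (δ (a * φ y)) (δ (b * φ z))
  · rcases le_total (δ (φ z)) (δ (φ y)) with hzy | hzy
    · obtain ⟨q, hq⟩ := h.wa (φ z) (φ y) b a hzy (by rw [add_comm, max_comm]; exact hcan)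
      have hq' : δ (φ (y + q • z)) < δ (φ y) := by simpa using hq
      have := lo _ _ _ (hA q).sw1 (by omega) c (d + q)
      exact this.cast h φ x0 y0 z0
        (eq_of_two h (c := q • z) (by simp only [add_smul]; abel))
    · obtain ⟨q, hq⟩ := h.wa (φ y) (φ z) a b hzy hcan
      have hq' : δ (φ (z + q • y)) < δ (φ z) := by simpa using hq
      by_cases d0 : d = 0
      · rw [d0, zero_smul, add_zero] at hlt ⊢
        have t1 := lo _ _ _ (hA' q).sw2.sw1 (by omega) c 0
        rw [zero_smul, add_zero] at t1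
        have t2 := lo _ _ _ t1.sw2.sw1 (by omega) q (q * c)
        have e : z + q • y + q • (y + c • x) + (q * c) • x = z :=
          eq_of_two h (c := q • y + q • c • x) (by simp only [smul_add, mul_smul]; abel)
        exact (t2.cast h φ x0 y0 z0 e).sw1.sw2
      · have h1 := h.le_mul d0 (φ z)
        have hd1 : d = 1 := h.unit_of_le d0 (r := φ z) (by omega) (by omega)
        have q0 : q ≠ 0 := fun e => by rw [e, zero_mul, add_zero] at hq; omega
        have hq1 : q = 1 := h.unit_of_le q0 hy0 (by have := h.eq_of_lt hq; omega)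
        rw [hd1] at hlt ⊢
        rw [hq1] at hq'
        have t1 := lo _ _ _ (hA' 1).sw1 (by omega) c 0
        have e1 : z + (1 : R) • y + c • x + (0 : R) • y = y + c • x + (1 : R) • z := by
          simp only [one_smul, zero_smul]; abel
        rw [e1] at t1
        have t2 := lo _ _ _ t1.sw2.sw1 (by omega) 1 c
        have e : y + (1 : R) • (y + c • x + (1 : R) • z) + c • x = z :=
          eq_of_two h (c := y + c • x) (by simp only [one_smul]; abel)
        exact (t2.cast h φ x0 y0 z0 e).sw1.sw2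
  · have h1 := h.le_mul a0 (φ y)
    have ha1 : a = 1 := h.unit_of_le a0 hy0 (by omega)
    have hxe : δ (φ x) = δ (φ y) := by
      have h2 := h.ultra (φ x) (φ u)
      have : φ x + φ u = a * φ y + b * φ z := by
        rw [hx]; simp only [map_add, map_smul, smul_eq_mul]
        have := h.add_self (φ u)
        calc φ u + a * φ y + b * φ z + φ u = (φ u + φ u) + (a * φ y + b * φ z) := by abel
          _ = _ := by rw [this, zero_add]
      rw [this] at h2
      omega
    have hc1 : c = 1 := h.unit_of_le c0 (r := φ x) (by omega) (by omega)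
    have e1 : y + c • x + d • z = u + (0 : R) • y + (b + d) • z :=
      eq_of_two h (c := y) (by rw [hx, hc1, ha1]; simp only [one_smul, zero_smul, add_smul]; abel)
    have t1 := mu 0 (b + d)
    rw [← e1] at t1
    have t2 := lo _ _ _ t1.sw1 (by omega) 1 d
    have e : y + (1 : R) • (y + c • x + d • z) + d • z = x :=
      eq_of_two h (c := y + d • z) (by rw [hc1]; simp only [one_smul]; abel)
    exact (t2.cast h φ x0 y0 z0 e).sw1

theorem lemC {H : ℕ} {u y z x : M} (a b : R) (hx : x = u + a • y + b • z)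
    (lo : ∀ x y z, T δ φ x0 y0 z0 x y z → δ (φ x) + δ (φ y) + δ (φ z) < H → Mv δ φ x0 y0 z0 x y z)
    (t : T δ φ x0 y0 z0 x y z)
    (mu : Mv δ φ x0 y0 z0 u y z) (my : Mv δ φ x0 y0 z0 y u z) (mz : Mv δ φ x0 y0 z0 z u y)
    (hu : δ (φ u) ≤ δ (φ x)) (hH : δ (φ x) + δ (φ y) + δ (φ z) ≤ H) :
    Mv δ φ x0 y0 z0 y x z := by
  intro c d
  by_cases hlt : δ (φ (y + c • x + d • z)) < δ (φ y)
  swap
  · exact t.sw1.step c d (by omega)
  have hs : δ (c * φ x + d * φ z) = δ (φ y) := by
    apply h.eq_of_lt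
    simpa [add_assoc] using hlt
  by_cases hcan : δ (c * φ x + d * φ z) < max (δ (c * φ x)) (δ (d * φ z))
  · rcases le_total (δ (φ z)) (δ (φ x)) with hzx | hzx
    · obtain ⟨q, hq⟩ := h.wa (φ z) (φ x) d c hzx (by rw [add_comm, max_comm]; exact hcan)
      have hq' : δ (φ (x + q • z)) < δ (φ x) := by simpa using hq
      have t0 := mu a (b + q)
      have e0 : u + a • y + (b + q) • z = x + q • z := by rw [hx, add_smul]; abel
      rw [e0] at t0
      have t1 := lo _ _ _ t0.sw1 (by omega) c (d + c * q)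
      have e1 : y + c • (x + q • z) + (d + c * q) • z = y + c • x + d • z :=
        eq_of_two h (c := c • q • z) (by simp only [smul_add, add_smul, mul_smul]; abel)
      rw [e1] at t1
      have t2 := lo _ _ _ t1.sw1 (by omega) 0 q
      have e : x + q • z + (0 : R) • (y + c • x + d • z) + q • z = x :=
        eq_of_two h (c := q • z) (by simp only [zero_smul]; abel)
      exact (t2.cast h φ x0 y0 z0 e).sw1
    · obtain ⟨q, hq⟩ := h.wa (φ x) (φ z) c d hzx hcan
      have hq' : δ (φ (z + q • x)) < δ (φ z) := by simpa using hq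
      have t0 := lemB h φ x0 y0 z0 (u := u) (y := z) (z := y) (x := x) b a q 0
        (by rw [hx]; abel) lo mu.swap mz my hu (by omega) (h.eq_of_lt hq).le
        (by rw [zero_mul, h.δ0]; omega) (by rw [zero_smul, add_zero]; exact hq')
      rw [zero_smul, add_zero] at t0
      have t1 := lo _ _ _ t0.sw2.sw1.sw2 (by omega) (c + d * q) d
      have e1 : y + (c + d * q) • x + d • (z + q • x) = y + c • x + d • z :=
        eq_of_two h (c := d • q • x) (by simp only [smul_add, add_smul, mul_smul]; abel)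
      rw [e1] at t1
      have t2 := lo _ _ _ t1.sw2.sw1.sw2 (by omega) q 0
      have e : z + q • x + q • x + (0 : R) • (y + c • x + d • z) = z :=
        eq_of_two h (c := q • x) (by simp only [zero_smul]; abel)
      exact (t2.cast h φ x0 y0 z0 e).sw2.sw1.sw2
  · exact lemB h φ x0 y0 z0 a b c d hx lo mu my mz hu hH (by omega) (by omega) hlt

omit h in
theorem Bal.sw1 {n : ℕ} {x y z : M} (b : Bal δ φ n x y z) : Bal δ φ n y x z := by
  obtain ⟨h0, h1, h2, h3, h4, h5, h6, h7⟩ := b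
  refine ⟨h0, h2, h1, h3, ?_, h6, h5, ?_⟩
  · rwa [add_comm]
  · rwa [add_comm y x]

omit h in
theorem Bal.sw2 {n : ℕ} {x y z : M} (b : Bal δ φ n x y z) : Bal δ φ n x z y := by
  obtain ⟨h0, h1, h2, h3, h4, h5, h6, h7⟩ := b
  refine ⟨h0, h1, h3, h2, h5, h4, ?_, ?_⟩
  · rwa [add_comm]
  · rwa [add_right_comm]

theorem bal_move {n : ℕ} {x y z : M} (hb : Bal δ φ n x y z) (a b : R)
    (hl : δ (φ (x + a • y + b • z)) ≤ n) :
    (a = 0 ∨ a = 1) ∧ (b = 0 ∨ b = 1) := by
  obtain ⟨h0, h1, h2, h3, h4, h5, h6, h7⟩ := hb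
  have hs : δ (a * φ y + b * φ z) ≤ n := by
    refine h.le_of_le (r := φ x) ?_ h1.le
    simpa [add_assoc] using hl
  by_cases hcan : δ (a * φ y + b * φ z) < max (δ (a * φ y)) (δ (b * φ z))
  · exfalso
    obtain ⟨q, hq⟩ := h.wa (φ y) (φ z) a b (by omega) hcan
    have q0 : q ≠ 0 := fun e => by rw [e, zero_mul, add_zero] at hq; omega
    have hq1 : q = 1 := h.unit_of_le q0 (r := φ y) (by omega) (by have := h.eq_of_lt hq; omega)
    rw [hq1, one_mul, add_comm, ← map_add] at hq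
    omega
  · constructor
    · by_cases a0 : a = 0
      · exact Or.inl a0
      · exact Or.inr (h.unit_of_le a0 (r := φ y) (by omega) (by omega))
    · by_cases b0 : b = 0
      · exact Or.inl b0
      · exact Or.inr (h.unit_of_le b0 (r := φ z) (by omega) (by omega))

theorem bal_move' {n : ℕ} {x y z : M} (hb : Bal δ φ n x y z) (a b : R)
    (ha : a = 0 ∨ a = 1) (hb' : b = 0 ∨ b = 1) : Bal δ φ n (x + a • y + b • z) y z := by
  have s1 : ∀ {x y z : M}, Bal δ φ n x y z → Bal δ φ n (x + y) y z := by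
    intro x y z ⟨h0, h1, h2, h3, h4, h5, h6, h7⟩
    refine ⟨h0, h4, h2, h3, ?_, h7, h6, ?_⟩
    · rwa [add_assoc, h.madd_self, add_zero]
    · rwa [add_assoc x y y, h.madd_self, add_zero]
  rcases ha with rfl | rfl <;> rcases hb' with rfl | rfl <;>
    simp only [zero_smul, one_smul, add_zero]
  · exact hb
  · exact (s1 (hb.sw2 φ)).sw2 φ
  · exact s1 hb
  · exact (s1 ((s1 hb).sw2 φ)).sw2 φ

theorem closed {n : ℕ} (hb : Bal δ φ n x0 y0 z0) (H : ℕ) :
    ∀ x y z, T δ φ x0 y0 z0 x y z → δ (φ x) + δ (φ y) + δ (φ z) < H → Mv δ φ x0 y0 z0 x y z := by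
  induction H with
  | zero => intro x y z _ hh; omega
  | succ H lo =>
    have base : ∀ {x y z : M}, Bal δ φ n x y z → T δ φ x0 y0 z0 x y z → Mv δ φ x0 y0 z0 x y z := by
      intro x y z hb t a b
      refine t.step a b ?_
      by_contra hh
      have h1 := hb.2.1
      obtain ⟨ha, hb'⟩ := bal_move h φ hb a b (by omega)
      have := (bal_move' h φ hb a b ha hb').2.1
      omega
    have main : ∀ x y z, T δ φ x0 y0 z0 x y z → δ (φ x) + δ (φ y) + δ (φ z) ≤ H →
        Mv δ φ x0 y0 z0 x y z ∧ Mv δ φ x0 y0 z0 y x z ∧ Mv δ φ x0 y0 z0 z x y := by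
      intro x y z t
      induction t with
      | base => exact fun _ => ⟨base hb T.base, base (hb.sw1 φ) T.base.sw1,
          base ((hb.sw2 φ).sw1 φ) T.base.sw2.sw1⟩
      | sw1 t ih =>
        intro hh
        obtain ⟨m1, m2, m3⟩ := ih (by omega)
        exact ⟨m2, m1, m3.swap⟩
      | sw2 t ih =>
        intro hh
        obtain ⟨m1, m2, m3⟩ := ih (by omega)
        exact ⟨m1.swap, m3, m2⟩
      | @step u y z a b t hu ih =>
        intro hh
        obtain ⟨m1, m2, m3⟩ := ih (by omega)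
        refine ⟨?_, ?_, ?_⟩
        · intro c d
          exact (m1 (a + c) (b + d)).cast h φ x0 y0 z0 (by simp only [add_smul]; abel)
        · exact lemC h φ x0 y0 z0 a b rfl lo (t.step a b hu) m1 m2 m3 hu hh
        · exact lemC h φ x0 y0 z0 (u := u) (y := z) (z := y) b a (by abel) lo
            (t.step a b hu).sw2 m1.swap m3 m2 hu (by omega)
    intro x y z t hh
    exact (main x y z t (by omega)).1

theorem mv_all {n : ℕ} (hb : Bal δ φ n x0 y0 z0) {x y z : M} (t : T δ φ x0 y0 z0 x y z) :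
    Mv δ φ x0 y0 z0 x y z :=
  closed h φ x0 y0 z0 hb _ x y z t (Nat.lt_succ_self _)

theorem height {n : ℕ} (hb : Bal δ φ n x0 y0 z0) (K : AddSubgroup M) (kx : x0 ∈ K) (ky : y0 ∈ K)
    (kz : z0 ∈ K) {x y z : M} (t : T δ φ x0 y0 z0 x y z) :
    3 * n ≤ δ (φ x) + δ (φ y) + δ (φ z) ∧
      (δ (φ x) + δ (φ y) + δ (φ z) ≤ 3 * n → Bal δ φ n x y z ∧ x ∈ K ∧ y ∈ K ∧ z ∈ K) := by
  induction t with
  | base =>
    obtain ⟨h0, h1, h2, h3, -⟩ := id hb
    exact ⟨by omega, fun _ => ⟨hb, kx, ky, kz⟩⟩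
  | sw1 t ih =>
    refine ⟨by omega, fun hh => ?_⟩
    obtain ⟨b, k1, k2, k3⟩ := ih.2 (by omega)
    exact ⟨b.sw1 φ, k2, k1, k3⟩
  | sw2 t ih =>
    refine ⟨by omega, fun hh => ?_⟩
    obtain ⟨b, k1, k2, k3⟩ := ih.2 (by omega)
    exact ⟨b.sw2 φ, k1, k3, k2⟩
  | @step u y z a b t hu ih =>
    refine ⟨by omega, fun hh => ?_⟩
    obtain ⟨bb, k1, k2, k3⟩ := ih.2 (by omega)
    obtain ⟨h0, h1, h2, h3, -⟩ := id bb
    obtain ⟨ha, hb'⟩ := bal_move h φ bb a b (by omega)
    refine ⟨bal_move' h φ bb a b ha hb', ?_, k2, k3⟩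
    refine add_mem (add_mem k1 ?_) ?_
    · rcases ha with rfl | rfl <;> simp [k2]
    · rcases hb' with rfl | rfl <;> simp [k3]

end main

end Pool.Agent.H70.GE
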