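import Pool.Agent.H70.GE1

/-! The ring whose 3x3 matrix ring is the free product of M_3(F_2) and M_2(F_2): normal forms. -/

set_option autoImplicit false

namespace Pool.Agent.H70.GE

abbrev F2 : Type := ZMod 2
abbrev Lt : Type := Fin 3 × Fin 3 × Fin 3
abbrev W : Type := List Lt →₀ F2

/-- unit coefficient of the product of basis elements X, n, Y of M_2(F_2) -/
def c0 : Fin 3 → Fin 3 → F2 := ![![1, 0, 0], ![1, 0, 0], ![0, 0, 0]]
/-- the other coefficients -/
def cc : Fin 3 → Fin 3 → Fin 3 → F2 :=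
  ![![![0, 0, 0], ![0, 0, 1], ![0, 1, 0]], ![![0, 0, 1], ![0, 0, 0], ![0, 1, 0]],
    ![![1, 1, 0], ![0, 0, 0], ![0, 0, 1]]]

noncomputable def sg (w : List Lt) : W := Finsupp.single w 1

noncomputable def Pm (α β i j : Fin 3) (w : List Lt) : W :=
  c0 α β • (if i = j then sg w else 0) + ∑ ε, cc α β ε • sg ((i, ε, j) :: w)

noncomputable def act (l : Lt) : List Lt → W
  | [] => sg [l]
  | m :: w => if l.2.2 = 0 ∧ m.1 = 0 then
      sg ((l.1, l.2.1, 1) :: (1, m.2.1, m.2.2) :: w) + sg ((l.1, l.2.1, 2) :: (2, m.2.1, m.2.2) :: w)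
        + Pm l.2.1 m.2.1 l.1 m.2.2 w
    else sg (l :: m :: w)

noncomputable def Lop (l : Lt) : W →ₗ[F2] W := Finsupp.linearCombination F2 (act l)

theorem Lop_sg (l : Lt) (w : List Lt) : Lop l (sg w) = act l w := by
  simp [Lop, sg]

/-- admissible junction -/
def Ok (l : Lt) : List Lt → Prop
  | [] => True
  | m :: _ => ¬ (l.2.2 = 0 ∧ m.1 = 0)

/-- normal words -/
def Nm : List Lt → Prop
  | [] => True
  | l :: w => Ok l w ∧ Nm w

theorem act_ok {l : Lt} {w : List Lt} (h : Ok l w) : act l w = sg (l :: w) := by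
  cases w with
  | nil => rfl
  | cons m w => simp only [act]; rw [if_neg h]

theorem ok_congr {l l' : Lt} {w : List Lt} (h : Ok l w) (e : l'.2.2 = l.2.2) : Ok l' w := by
  cases w with
  | nil => trivial
  | cons m w => simp only [Ok] at h ⊢; rw [e]; exact h

theorem W_add_self (f : W) : f + f = 0 := by
  ext w; simp [CharTwo.add_self_eq_zero]

def W0 : Submodule F2 W := Finsupp.supported F2 F2 {w | Nm w}

theorem sg_mem {w : List Lt} (h : Nm w) : sg w ∈ W0 := Finsupp.single_mem_supported F2 1 h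

theorem Pm_mem (α β i j : Fin 3) {w : List Lt} (h : Nm w) (ho : Ok (0, 0, j) w) :
    Pm α β i j w ∈ W0 := by
  refine add_mem (Submodule.smul_mem _ _ ?_) (Submodule.sum_mem _ fun ε _ => Submodule.smul_mem _ _ ?_)
  · split_ifs
    · exact sg_mem h
    · exact zero_mem _
  · exact sg_mem ⟨ok_congr ho rfl, h⟩

theorem act_mem (l : Lt) {w : List Lt} (h : Nm w) : act l w ∈ W0 := by
  by_cases ho : Ok l w
  · rw [act_ok ho]; exact sg_mem ⟨ho, h⟩
  · cases w with
    | nil => exact absurd trivial ho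
    | cons m w =>
      simp only [Ok, not_not] at ho
      simp only [act]; rw [if_pos ho]
      refine add_mem (add_mem (sg_mem ⟨?_, ok_congr h.1 rfl, h.2⟩)
        (sg_mem ⟨?_, ok_congr h.1 rfl, h.2⟩)) (Pm_mem _ _ _ _ h.2 (ok_congr h.1 rfl))
      · simp [Ok]
      · simp [Ok]

theorem W0_ind {p : W → Prop} (h0 : p 0) (h1 : ∀ w, Nm w → p (sg w))
    (ha : ∀ f g, p f → p g → p (f + g)) {f : W} (hf : f ∈ W0) : p f := by
  rw [W0, Finsupp.supported_eq_span_single] at hf
  induction hf using Submodule.span_induction with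
  | mem x hx => obtain ⟨w, hw, rfl⟩ := hx; exact h1 w hw
  | zero => exact h0
  | add x y _ _ hx hy => exact ha x y hx hy
  | smul a x _ hx =>
    have : a = 0 ∨ a = 1 := by revert a; decide
    rcases this with rfl | rfl
    · rw [zero_smul]; exact h0
    · rw [one_smul]; exact hx

theorem Lop_mem (l : Lt) {f : W} (hf : f ∈ W0) : Lop l f ∈ W0 := by
  refine W0_ind (p := fun f => Lop l f ∈ W0) ?_ ?_ ?_ hf
  · rw [map_zero]; exact zero_mem _
  · intro w hw; rw [Lop_sg]; exact act_mem l hw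
  · intro f g h1 h2; rw [map_add]; exact add_mem h1 h2

theorem R1 (i α β j : Fin 3) (w : List Lt) :
    ∑ l, act (i, α, l) ((l, β, j) :: w) = Pm α β i j w := by
  rw [Fin.sum_univ_three]
  have e1 : act (i, α, 1) ((1, β, j) :: w) = sg ((i, α, 1) :: (1, β, j) :: w) :=
    act_ok (by simp [Ok])
  have e2 : act (i, α, 2) ((2, β, j) :: w) = sg ((i, α, 2) :: (2, β, j) :: w) :=
    act_ok (by simp [Ok])
  have e0 : act (i, α, 0) ((0, β, j) :: w) = sg ((i, α, 1) :: (1, β, j) :: w) +
      sg ((i, α, 2) :: (2, β, j) :: w) + Pm α β i j w := by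
    simp only [act]; rw [if_pos ⟨trivial, trivial⟩]
  rw [e0, e1, e2]
  have h1 := W_add_self (sg ((i, α, 1) :: (1, β, j) :: w) + sg ((i, α, 2) :: (2, β, j) :: w))
  calc _ = (sg ((i, α, 1) :: (1, β, j) :: w) + sg ((i, α, 2) :: (2, β, j) :: w) +
      (sg ((i, α, 1) :: (1, β, j) :: w) + sg ((i, α, 2) :: (2, β, j) :: w))) + Pm α β i j w := by abel
    _ = _ := by rw [h1, zero_add]

theorem assoc_tab : ∀ (α β γ : Fin 3) (A : Fin 3 → F2) (B : F2),
    c0 β γ * A α + ∑ ε, cc β γ ε * (c0 α ε * B + ∑ η, cc α ε η * A η) =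
    c0 α β * A γ + ∑ ε, cc α β ε * (c0 ε γ * B + ∑ η, cc ε γ η * A η) := by
  decide +kernel

theorem assoc_Pm (α β γ i j : Fin 3) (w : List Lt) :
    c0 β γ • sg ((i, α, j) :: w) + ∑ ε, cc β γ ε • Pm α ε i j w =
    c0 α β • sg ((i, γ, j) :: w) + ∑ ε, cc α β ε • Pm ε γ i j w := by
  ext u
  simp only [Pm, Finsupp.add_apply, Finsupp.smul_apply, smul_eq_mul, Finsupp.finsetSum_apply]
  exact assoc_tab α β γ (fun η => sg ((i, η, j) :: w) u) _

theorem Lop_Pm (i α β γ j : Fin 3) (w : List Lt) :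
    ∑ l, Lop (i, α, l) (Pm β γ l j w) =
      c0 β γ • act (i, α, j) w + ∑ ε, cc β γ ε • Pm α ε i j w := by
  simp only [Pm, map_add, map_smul, map_sum, Lop_sg, Finset.sum_add_distrib]
  congr 1
  · rw [← Finset.smul_sum]
    congr 1
    rw [Finset.sum_eq_single j]
    · rw [if_pos rfl, Lop_sg]
    · intro l _ hl; rw [if_neg hl, map_zero]
    · simp
  · rw [Finset.sum_comm]
    refine Finset.sum_congr rfl fun ε _ => ?_
    rw [← Finset.smul_sum, R1]; rfl

theorem rel_sg (i α β j : Fin 3) {w : List Lt} (h : Nm w) :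
    ∑ l, Lop (i, α, l) (act (l, β, j) w) =
      c0 α β • (if i = j then sg w else 0) + ∑ ε, cc α β ε • act (i, ε, j) w := by
  by_cases ho : Ok (0, 0, j) w
  · have e : ∀ l ε : Fin 3, act (l, ε, j) w = sg ((l, ε, j) :: w) :=
      fun l ε => act_ok (ok_congr ho rfl)
    simp only [e, Lop_sg, R1]; rfl
  · cases w with
    | nil => exact absurd trivial ho
    | cons m w =>
      obtain ⟨i', γ, j'⟩ := m
      simp only [Ok, not_not] at ho
      obtain ⟨rfl, rfl⟩ := ho
      have e : ∀ l ε : Fin 3, act (l, ε, 0) ((0, γ, j') :: w) =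
          sg ((l, ε, 1) :: (1, γ, j') :: w) + sg ((l, ε, 2) :: (2, γ, j') :: w) + Pm ε γ l j' w := by
        intro l ε; simp only [act]; rw [if_pos ⟨trivial, trivial⟩]
      simp only [e, map_add, Lop_sg, Finset.sum_add_distrib, R1, Lop_Pm, smul_add]
      rw [act_ok (ok_congr h.1 rfl : Ok (i, α, j') w), assoc_Pm]
      have e2 : (if i = 1 then sg ((1, γ, j') :: w) else 0) + (if i = 2 then sg ((2, γ, j') :: w) else 0)
          + sg ((i, γ, j') :: w) = (if i = 0 then sg ((0, γ, j') :: w) else 0) := by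
        fin_cases i <;> simp [W_add_self]
      rw [← e2]
      simp only [Pm, smul_add]
      abel

theorem rel_W0 (i α β j : Fin 3) {f : W} (hf : f ∈ W0) :
    ∑ l, Lop (i, α, l) (Lop (l, β, j) f) =
      c0 α β • (if i = j then f else 0) + ∑ ε, cc α β ε • Lop (i, ε, j) f := by
  refine W0_ind (p := fun f => ∑ l, Lop (i, α, l) (Lop (l, β, j) f) =
      c0 α β • (if i = j then f else 0) + ∑ ε, cc α β ε • Lop (i, ε, j) f) ?_ ?_ ?_ hf
  · simp
  · intro w hw; simp only [Lop_sg]; exact rel_sg i α β j hw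
  · intro f g h1 h2
    simp only [map_add, Finset.sum_add_distrib, h1, h2, smul_add]
    split_ifs <;> simp only [smul_add, smul_zero] <;> abel

noncomputable def L0 (l : Lt) : Module.End F2 W0 := (Lop l).restrict (fun _ h => Lop_mem l h)

noncomputable def RR : Subalgebra F2 (Module.End F2 W0) := Algebra.adjoin F2 (Set.range L0)

noncomputable def gn (l : Lt) : RR := ⟨L0 l, Algebra.subset_adjoin ⟨l, rfl⟩⟩

/-- action of an element on a normal vector -/
noncomputable def ap (r : RR) (f : W0) : W := ((r : Module.End F2 W0) f : W0)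

theorem rel (i α β j : Fin 3) :
    ∑ l, gn (i, α, l) * gn (l, β, j) =
      c0 α β • (if i = j then 1 else 0) + ∑ ε, cc α β ε • gn (i, ε, j) := by
  apply Subtype.ext
  apply LinearMap.ext
  intro f
  apply Subtype.ext
  have := rel_W0 i α β j f.2
  split_ifs at this ⊢ <;>
    simpa [gn, L0, Fin.sum_univ_three, LinearMap.restrict_apply] using this

noncomputable def mon : List Lt → RR
  | [] => 1
  | l :: w => gn l * mon w

noncomputable def vac : W0 := ⟨Finsupp.single [] 1, Finsupp.single_mem_supported F2 1 (by trivial : Nm [])⟩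

noncomputable def ev : RR →ₗ[F2] W where
  toFun r := ap r vac
  map_add' _ _ := rfl
  map_smul' _ _ := rfl

theorem ev_mem (r : RR) : ev r ∈ W0 := ((r : Module.End F2 W0) vac).2

theorem ev_gn_mul (l : Lt) (r : RR) : ev (gn l * r) = Lop l (ev r) := rfl

theorem ev_one : ev 1 = sg [] := rfl

theorem ev_mon {w : List Lt} (h : Nm w) : ev (mon w) = sg w := by
  induction w with
  | nil => rfl
  | cons l w ih => rw [mon, ev_gn_mul, ih h.2, Lop_sg, act_ok h.1]

noncomputable def Th : W →ₗ[F2] RR := Finsupp.linearCombination F2 mon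

theorem Th_sg (w : List Lt) : Th (sg w) = mon w := by simp [Th, sg]

theorem RR_add_self (r : RR) : r + r = 0 := by
  rw [← two_smul F2 r, show (2 : F2) = 0 from rfl, zero_smul]

theorem gn_mul_Th (l : Lt) {f : W} (hf : f ∈ W0) : gn l * Th f = Th (Lop l f) := by
  refine W0_ind (p := fun f => gn l * Th f = Th (Lop l f)) ?_ ?_ ?_ hf
  · simp
  · intro w hw
    rw [Lop_sg, Th_sg]
    by_cases ho : Ok l w
    · rw [act_ok ho, Th_sg]; rfl
    · cases w with
      | nil => exact absurd trivial ho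
      | cons m w =>
        obtain ⟨i, α, j⟩ := l
        obtain ⟨i', γ, j'⟩ := m
        simp only [Ok, not_not] at ho
        obtain ⟨rfl, rfl⟩ := ho
        simp only [act]
        rw [if_pos ⟨trivial, trivial⟩]
        have hr := congrArg (· * mon w) (rel i α γ j')
        simp only [Fin.sum_univ_three, add_mul, smul_mul_assoc, mul_assoc] at hr
        simp only [Pm, map_add, map_smul, Fin.sum_univ_three, Th_sg, mon]
        have e : Th (if i = j' then sg w else 0) = (if i = j' then 1 else 0) * mon w := by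
          split_ifs <;> simp [Th_sg]
        rw [e, ← hr]
        have h1 := RR_add_self (gn (i, α, 1) * (gn (1, γ, j') * mon w) +
          gn (i, α, 2) * (gn (2, γ, j') * mon w))
        calc _ = gn (i, α, 0) * (gn (0, γ, j') * mon w) + (gn (i, α, 1) * (gn (1, γ, j') * mon w) +
          gn (i, α, 2) * (gn (2, γ, j') * mon w) + (gn (i, α, 1) * (gn (1, γ, j') * mon w) +
          gn (i, α, 2) * (gn (2, γ, j') * mon w))) := by rw [h1, add_zero]
          _ = _ := by abel
  · intro f g h1 h2; simp only [map_add, mul_add, h1, h2]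

theorem ev_Th {f : W} (hf : f ∈ W0) : ev (Th f) = f := by
  refine W0_ind (p := fun f => ev (Th f) = f) ?_ ?_ ?_ hf
  · simp
  · intro w hw; rw [Th_sg, ev_mon hw]
  · intro f g h1 h2; simp only [map_add, h1, h2]

theorem Th_ev (r : RR) : Th (ev r) = r := by
  have key : ∀ (x : Module.End F2 W0) (hx : x ∈ RR), ∀ f ∈ W0, ∃ g ∈ W0,
      (⟨x, hx⟩ : RR) * Th f = Th g := by
    intro x hx
    induction hx using Algebra.adjoin_induction with
    | mem x hx =>
      obtain ⟨l, rfl⟩ := hx
      exact fun f hf => ⟨_, Lop_mem l hf, gn_mul_Th l hf⟩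
    | algebraMap a =>
      intro f hf
      refine ⟨a • f, Submodule.smul_mem _ _ hf, ?_⟩
      rw [map_smul, Algebra.smul_def]; rfl
    | add x y hx hy ihx ihy =>
      intro f hf
      obtain ⟨g, hg, e⟩ := ihx f hf
      obtain ⟨g', hg', e'⟩ := ihy f hf
      refine ⟨g + g', add_mem hg hg', ?_⟩
      rw [map_add, ← e, ← e', ← add_mul]; rfl
    | mul x y hx hy ihx ihy =>
      intro f hf
      obtain ⟨g', hg', e'⟩ := ihy f hf
      obtain ⟨g, hg, e⟩ := ihx g' hg'
      refine ⟨g, hg, ?_⟩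
      rw [← e, ← e', ← mul_assoc]; rfl
  obtain ⟨g, hg, e⟩ := key r.1 r.2 (sg []) (sg_mem trivial)
  rw [Th_sg, mon, mul_one] at e
  have e' : r = Th g := e
  rw [e', ev_Th hg]

theorem ev_inj {r : RR} (h : ev r = 0) : r = 0 := by
  rw [← Th_ev r, h, map_zero]

end Pool.Agent.H70.GE
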