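import Pool.Agent.H70.GE2

/-! Top coefficients of products. -/

set_option autoImplicit false

namespace Pool.Agent.H70.GE

def fst : List Lt → Fin 3
  | [] => 0
  | m :: _ => m.1

def setF (t : Fin 3) : List Lt → List Lt
  | [] => []
  | m :: w => (t, m.2) :: w

def lst : List Lt → Fin 3
  | [] => 0
  | [l] => l.2.2
  | _ :: m :: w => lst (m :: w)

def setL (t : Fin 3) : List Lt → List Lt
  | [] => []
  | [l] => [(l.1, l.2.1, t)]
  | l :: m :: w => l :: setL t (m :: w)

theorem length_setF (t : Fin 3) (w : List Lt) : (setF t w).length = w.length := by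
  cases w <;> rfl

theorem length_setL (t : Fin 3) : ∀ w : List Lt, (setL t w).length = w.length
  | [] => rfl
  | [_] => rfl
  | l :: m :: w => by simp only [setL, List.length_cons, length_setL t (m :: w)]

theorem fst_setF (t : Fin 3) {w : List Lt} (h : w ≠ []) : fst (setF t w) = t := by
  cases w with
  | nil => exact absurd rfl h
  | cons m w => rfl

theorem setF_setF (t s : Fin 3) (w : List Lt) : setF t (setF s w) = setF t w := by
  cases w <;> rfl

theorem setF_fst (w : List Lt) : setF (fst w) w = w := by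
  cases w <;> rfl

theorem setL_cons (t : Fin 3) (l : Lt) {w : List Lt} (h : w ≠ []) :
    setL t (l :: w) = l :: setL t w := by
  cases w with
  | nil => exact absurd rfl h
  | cons m w => rfl

theorem lst_cons (l : Lt) {w : List Lt} (h : w ≠ []) : lst (l :: w) = lst w := by
  cases w with
  | nil => exact absurd rfl h
  | cons m w => rfl

theorem setL_ne (t : Fin 3) {w : List Lt} (h : w ≠ []) : setL t w ≠ [] := by
  intro e
  have := length_setL t w
  rw [e] at this
  exact h (List.length_eq_zero_iff.1 this.symm)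

theorem setF_ne (t : Fin 3) {w : List Lt} (h : w ≠ []) : setF t w ≠ [] := by
  cases w with
  | nil => exact absurd rfl h
  | cons m w => simp [setF]

theorem lst_setL (t : Fin 3) : ∀ {w : List Lt}, w ≠ [] → lst (setL t w) = t
  | [], h => absurd rfl h
  | [_], _ => rfl
  | l :: m :: w, _ => by
    rw [setL, lst_cons l (setL_ne t (by simp)), lst_setL t (by simp)]

theorem setL_setL (t s : Fin 3) : ∀ w : List Lt, setL t (setL s w) = setL t w
  | [] => rfl
  | [_] => rfl
  | l :: m :: w => by
    rw [setL, setL_cons t l (setL_ne s (by simp)), setL_setL t s (m :: w), setL]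

theorem setL_lst : ∀ w : List Lt, setL (lst w) w = w
  | [] => rfl
  | [_] => rfl
  | l :: m :: w => by rw [setL, lst, setL_lst (m :: w)]

theorem fst_setL (t : Fin 3) : ∀ w : List Lt, fst (setL t w) = fst w
  | [] => rfl
  | [_] => rfl
  | _ :: _ :: _ => rfl

theorem lst_setF (t : Fin 3) : ∀ w : List Lt, lst (setF t w) = lst w
  | [] => rfl
  | [_] => rfl
  | _ :: _ :: _ => rfl

theorem setF_setL (t s : Fin 3) : ∀ w : List Lt, setF t (setL s w) = setL s (setF t w)
  | [] => rfl
  | [_] => rfl
  | _ :: _ :: _ => rfl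

theorem lst_append (p : List Lt) {t : List Lt} (h : t ≠ []) : lst (p ++ t) = lst t := by
  induction p with
  | nil => rfl
  | cons l p ih => rw [List.cons_append, lst_cons l (by simp [h]), ih]

theorem setL_append (s : Fin 3) (p : List Lt) {t : List Lt} (h : t ≠ []) :
    setL s (p ++ t) = p ++ setL s t := by
  induction p with
  | nil => rfl
  | cons l p ih => rw [List.cons_append, setL_cons s l (by simp [h]), ih, List.cons_append]

theorem fst_append {t : List Lt} (h : t ≠ []) (y : List Lt) : fst (t ++ y) = fst t := by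
  cases t with
  | nil => exact absurd rfl h
  | cons m w => rfl

theorem setF_append (s : Fin 3) {t : List Lt} (h : t ≠ []) (y : List Lt) :
    setF s (t ++ y) = setF s t ++ y := by
  cases t with
  | nil => exact absurd rfl h
  | cons m w => rfl

theorem nm_append {p t : List Lt} (h : Nm (p ++ t)) : Nm t := by
  induction p with
  | nil => exact h
  | cons l p ih => exact ih h.2

theorem nm_setF {s : Fin 3} {t : List Lt} (h : Nm (setF s t)) : Nm t := by
  cases t with
  | nil => trivial
  | cons m w => exact ⟨ok_congr h.1 rfl, h.2⟩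

theorem ok_iff {l : Lt} {w : List Lt} (h : w ≠ []) : Ok l w ↔ ¬ (l.2.2 = 0 ∧ fst w = 0) := by
  cases w with
  | nil => exact absurd rfl h
  | cons m w => rfl

theorem sup_ind {s : Set (List Lt)} {p : W → Prop} (h0 : p 0) (h1 : ∀ w ∈ s, p (sg w))
    (ha : ∀ f g, p f → p g → p (f + g)) {f : W} (hf : ∀ w, w ∉ s → f w = 0) : p f := by
  have hf' : f ∈ Finsupp.supported F2 F2 s := (Finsupp.mem_supported' F2 f).2 hf
  rw [Finsupp.supported_eq_span_single] at hf'
  clear hf
  induction hf' using Submodule.span_induction with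
  | mem x hx => obtain ⟨w, hw, rfl⟩ := hx; exact h1 w hw
  | zero => exact h0
  | add x y _ _ hx hy => exact ha x y hx hy
  | smul a x _ hx =>
    have : a = 0 ∨ a = 1 := by revert a; decide
    rcases this with rfl | rfl
    · rw [zero_smul]; exact h0
    · rw [one_smul]; exact hx

/-- supported on words shorter than n -/
def Bd (n : ℕ) (f : W) : Prop := ∀ u : List Lt, n ≤ u.length → f u = 0

theorem sg_apply (w u : List Lt) : sg w u = if w = u then 1 else 0 := by
  simp [sg, Finsupp.single_apply]

theorem Bd_sg {n : ℕ} {w : List Lt} (h : w.length < n) : Bd n (sg w) := by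
  intro u hu; rw [sg_apply, if_neg]; rintro rfl; omega

theorem Bd.add {n : ℕ} {f g : W} (hf : Bd n f) (hg : Bd n g) : Bd n (f + g) := by
  intro u hu; simp [hf u hu, hg u hu]

theorem Bd.mono {n m : ℕ} {f : W} (hf : Bd n f) (h : n ≤ m) : Bd m f :=
  fun u hu => hf u (h.trans hu)

theorem Bd_Pm (α β i j : Fin 3) (w : List Lt) : Bd (w.length + 2) (Pm α β i j w) := by
  intro u hu
  have h1 : sg w u = 0 := Bd_sg (n := w.length + 2) (by omega) u hu
  have h2 : ∀ ε, sg ((i, ε, j) :: w) u = 0 := fun ε => Bd_sg (n := w.length + 2) (by simp) u hu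
  simp only [Pm, Finsupp.add_apply, Finsupp.smul_apply, Finsupp.finsetSum_apply, h2]
  split_ifs <;> simp [h1]

theorem Bd_act (l : Lt) (w : List Lt) : Bd (w.length + 2) (act l w) := by
  cases w with
  | nil => exact Bd_sg (by simp)
  | cons m w =>
    simp only [act]
    split_ifs
    · exact ((Bd_sg (by simp)).add (Bd_sg (by simp))).add ((Bd_Pm _ _ _ _ _).mono (by simp))
    · exact Bd_sg (by simp)

theorem Bd_ind {n : ℕ} {p : W → Prop} (h0 : p 0) (h1 : ∀ w : List Lt, w.length < n → p (sg w))
    (ha : ∀ f g, p f → p g → p (f + g)) {f : W} (hf : Bd n f) : p f :=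
  sup_ind (s := {w | w.length < n}) h0 h1 ha (fun w hw => hf w (by simpa using hw))

theorem Bd_Lop {n : ℕ} (l : Lt) {f : W} (hf : Bd n f) : Bd (n + 1) (Lop l f) := by
  refine Bd_ind (p := fun f => Bd (n + 1) (Lop l f)) ?_ ?_ ?_ hf
  · intro u _; simp
  · intro w hw; rw [Lop_sg]; exact (Bd_act l w).mono (by omega)
  · intro f g h1 h2; rw [map_add]; exact h1.add h2

theorem top0 (l m : Lt) {f : W} (hf : Bd 1 f) : Lop l f [m] = if m = l then f [] else 0 := by
  refine Bd_ind (p := fun f => Lop l f [m] = if m = l then f [] else 0) ?_ ?_ ?_ hf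
  · simp
  · intro w hw
    have : w = [] := List.length_eq_zero_iff.1 (by omega)
    subst this
    rw [Lop_sg, act, sg_apply, sg_apply]
    by_cases e : m = l
    · simp [e]
    · simp [e, Ne.symm e]
  · intro f g h1 h2
    simp only [map_add, Finsupp.add_apply, h1, h2]; split_ifs <;> simp

theorem top1 (l m : Lt) {z : List Lt} (hz : z ≠ []) {f : W} (hf : Bd (z.length + 1) f) :
    Lop l f (m :: z) = (if m = l then f z else 0) +
      (if m.1 = l.1 ∧ m.2.1 = l.2.1 ∧ l.2.2 = 0 ∧ m.2.2 = fst z then f (setF 0 z) else 0) := by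
  refine Bd_ind (p := fun f => Lop l f (m :: z) = (if m = l then f z else 0) +
      (if m.1 = l.1 ∧ m.2.1 = l.2.1 ∧ l.2.2 = 0 ∧ m.2.2 = fst z then f (setF 0 z) else 0)) ?_ ?_ ?_ hf
  · simp
  · intro w hw
    rw [Lop_sg]
    by_cases hl : w.length < z.length
    · rw [Bd_act l w _ (by simp; omega), Bd_sg hl z le_rfl,
        Bd_sg hl (setF 0 z) (by rw [length_setF])]
      simp
    · cases z with
      | nil => exact absurd rfl hz
      | cons n z =>
        cases w with
        | nil => simp at hl
        | cons k w =>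
          obtain ⟨i, α, j⟩ := l
          obtain ⟨i1, α1, j1⟩ := m
          obtain ⟨i2, α2, j2⟩ := n
          obtain ⟨i3, α3, j3⟩ := k
          simp only [List.length_cons] at hl hw
          simp only [act, setF, fst]
          by_cases hb : j = 0 ∧ i3 = 0
          · rw [if_pos hb]
            obtain ⟨rfl, rfl⟩ := hb
            rw [Finsupp.add_apply, Bd_Pm _ _ _ _ _ _ (by simp; omega)]
            simp only [Finsupp.add_apply, sg_apply, List.cons.injEq, Prod.mk.injEq]
            by_cases e : i = i1 ∧ α = α1 ∧ α3 = α2 ∧ j3 = j2 ∧ w = z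
            · obtain ⟨rfl, rfl, rfl, rfl, rfl⟩ := e
              fin_cases j1 <;> fin_cases i2 <;> simp <;> rfl
            · rw [if_neg (by tauto), if_neg (by tauto)]
              split_ifs <;> first | rfl | (exfalso; apply e; simp_all)
          · rw [if_neg hb]
            simp only [sg_apply, List.cons.injEq, Prod.mk.injEq]
            have e2 : (if i1 = i ∧ α1 = α ∧ j = 0 ∧ j1 = i2 then
                (if (i3 = 0 ∧ α3 = α2 ∧ j3 = j2) ∧ w = z then (1 : F2) else 0) else 0) = 0 := by
              split_ifs with a b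
              · exact absurd ⟨a.2.2.1, b.1.1⟩ hb
              · rfl
              · rfl
            rw [e2, add_zero]
            by_cases a : i1 = i ∧ α1 = α ∧ j1 = j
            · obtain ⟨rfl, rfl, rfl⟩ := a
              simp
            · rw [if_neg a, if_neg (by tauto)]
  · intro f g h1 h2
    simp only [map_add, Finsupp.add_apply, h1, h2]; split_ifs <;> ring

theorem Bd_mon_mul (u : List Lt) {s : RR} {n : ℕ} (hs : Bd n (ev s)) :
    Bd (n + u.length) (ev (mon u * s)) := by
  induction u with
  | nil => simpa [mon] using hs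
  | cons l u ih => rw [mon, mul_assoc, ev_gn_mul]; exact Bd_Lop l ih

theorem PF_mon {s : RR} {z : List Lt} (hz : z ≠ []) (hs : Bd (z.length + 1) (ev s)) :
    ∀ (u p : List Lt), u ≠ [] → Nm u → p.length = u.length →
      ev (mon u * s) (p ++ z) = (if u = p then ev s z else 0) +
        (if lst p = fst z ∧ u = setL 0 p then ev s (setF 0 z) else 0)
  | [], _, h, _, _ => absurd rfl h
  | [l], p, _, _, hp => by
    obtain ⟨m, rfl⟩ := List.length_eq_one_iff.1 hp
    rw [mon, mon, mul_one, ev_gn_mul, List.singleton_append, top1 l m hz hs]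
    obtain ⟨i, α, j⟩ := l
    obtain ⟨i1, α1, j1⟩ := m
    simp only [lst, setL, List.cons.injEq, Prod.mk.injEq, and_true]
    congr 1
    · refine if_congr ?_ rfl rfl; tauto
    · refine if_congr ?_ rfl rfl; tauto
  | l :: k :: u, p, _, hu, hp => by
    cases p with
    | nil => simp at hp
    | cons m p =>
      have hp' : p.length = (k :: u).length := by simpa using hp
      have hp0 : p ≠ [] := by rintro rfl; simp at hp'
      rw [mon, mul_assoc, ev_gn_mul, List.cons_append, top1 l m (by simp [hz])
        ((Bd_mon_mul (k :: u) hs).mono (by simp [hp']; omega)),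
        PF_mon hz hs (k :: u) p (by simp) hu.2 hp', setF_append 0 hp0,
        PF_mon hz hs (k :: u) (setF 0 p) (by simp) hu.2 (by rw [length_setF, hp']),
        lst_cons m hp0, setL_cons 0 m hp0]
      have hok := (ok_iff (by simp)).1 hu.1
      have e1 : l.2.2 = 0 → ¬ (k :: u = setF 0 p) := fun h e =>
        hok ⟨h, by rw [e, fst_setF 0 hp0]⟩
      have e2 : l.2.2 = 0 → ¬ (k :: u = setL 0 (setF 0 p)) := fun h e =>
        hok ⟨h, by rw [e, fst_setL, fst_setF 0 hp0]⟩
      have e3 : (if m.1 = l.1 ∧ m.2.1 = l.2.1 ∧ l.2.2 = 0 ∧ m.2.2 = fst (p ++ z) then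
          (if k :: u = setF 0 p then ev s z else 0) +
          (if lst (setF 0 p) = fst z ∧ k :: u = setL 0 (setF 0 p) then ev s (setF 0 z) else 0)
          else 0) = 0 := by
        split_ifs with a b c c
        · exact absurd b (e1 a.2.2.1)
        · exact absurd b (e1 a.2.2.1)
        · exact absurd c.2 (e2 a.2.2.1)
        · simp
        · rfl
      rw [e3, add_zero]
      by_cases e : m = l
      · subst e; simp
      · simp [e, Ne.symm e]

theorem ev_nm {r : RR} {u : List Lt} (h : ev r u ≠ 0) : Nm u := by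
  by_contra hh
  exact h ((Finsupp.mem_supported' F2 _).1 (ev_mem r) u hh)

theorem RR_ind {n : ℕ} {p : RR → Prop} (h0 : p 0)
    (h1 : ∀ w : List Lt, Nm w → w.length < n → p (mon w))
    (ha : ∀ f g, p f → p g → p (f + g)) {r : RR} (hr : Bd n (ev r)) : p r := by
  rw [← Th_ev r]
  refine sup_ind (s := {w | Nm w ∧ w.length < n}) (p := fun f => p (Th f)) ?_ ?_ ?_ ?_
  · rw [map_zero]; exact h0
  · intro w hw; rw [Th_sg]; exact h1 w hw.1 hw.2
  · intro f g a b; rw [map_add]; exact ha _ _ a b
  · intro w hw
    by_contra hh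
    refine hw ⟨ev_nm hh, ?_⟩
    by_contra h3
    exact hh (hr w (by omega))

theorem Bd_mul {r s : RR} {c d : ℕ} (hr : Bd (c + 1) (ev r)) (hs : Bd (d + 1) (ev s)) :
    Bd (c + d + 1) (ev (r * s)) := by
  refine RR_ind (p := fun r => Bd (c + d + 1) (ev (r * s))) ?_ ?_ ?_ hr
  · intro u _; simp
  · intro w _ hw; exact (Bd_mon_mul w hs).mono (by omega)
  · intro f g h1 h2; rw [add_mul, map_add]; exact h1.add h2

theorem PF {r s : RR} {p z : List Lt} (hp : p ≠ []) (hz : z ≠ [])
    (hr : Bd (p.length + 1) (ev r)) (hs : Bd (z.length + 1) (ev s)) :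
    ev (r * s) (p ++ z) = ev r p * ev s z +
      (if lst p = fst z then ev r (setL 0 p) * ev s (setF 0 z) else 0) := by
  refine RR_ind (p := fun r => ev (r * s) (p ++ z) = ev r p * ev s z +
      (if lst p = fst z then ev r (setL 0 p) * ev s (setF 0 z) else 0)) ?_ ?_ ?_ hr
  · simp
  · intro w hw hl
    rw [ev_mon hw]
    by_cases h : w.length < p.length
    · rw [Bd_mon_mul w hs _ (by simp; omega), Bd_sg h p le_rfl,
        Bd_sg h (setL 0 p) (by rw [length_setL])]
      simp
    · have hw0 : w ≠ [] := by
        rintro rfl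
        exact hp (List.length_eq_zero_iff.1 (by simpa using h))
      rw [PF_mon hz hs w p hw0 hw (by omega), sg_apply, sg_apply]
      by_cases a : lst p = fst z <;> simp [a]
  · intro f g h1 h2
    simp only [add_mul, map_add, Finsupp.add_apply, h1, h2]; split_ifs <;> ring

end Pool.Agent.H70.GE
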