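import Pool.Agent.H70.GE3

/-! The two-term weak algorithm. -/

set_option autoImplicit false

namespace Pool.Agent.H70.GE

noncomputable def dg (r : RR) : ℕ := (ev r).support.sup (fun u => u.length + 1)

theorem dg_le {r : RR} {n : ℕ} : dg r ≤ n ↔ Bd n (ev r) := by
  rw [dg, Finset.sup_le_iff]
  constructor
  · intro h u hu
    by_contra hh
    have := h u (Finsupp.mem_support_iff.2 hh)
    omega
  · intro h u hu
    by_contra hh
    exact (Finsupp.mem_support_iff.1 hu) (h u (by omega))

theorem F2_ne : ∀ a : F2, a ≠ 0 → a = 1 := by decide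

theorem dg_top {r : RR} {n : ℕ} (h : dg r = n + 1) :
    ∃ u : List Lt, u.length = n ∧ ev r u = 1 := by
  have h1 : ¬ Bd n (ev r) := by rw [← dg_le]; omega
  have h2 : Bd (n + 1) (ev r) := dg_le.1 h.le
  simp only [Bd, not_forall] at h1
  obtain ⟨u, hu, h3⟩ := h1
  refine ⟨u, ?_, F2_ne _ h3⟩
  by_contra hh
  exact h3 (h2 u (by omega))

theorem lt_dg {r : RR} {u : List Lt} (h : ev r u ≠ 0) : u.length < dg r := by
  by_contra hh
  exact h (dg_le.1 (le_refl (dg r)) u (by omega))

theorem dg_zero (r : RR) : dg r = 0 ↔ r = 0 := by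
  constructor
  · intro h
    apply ev_inj
    ext u
    exact dg_le.1 h.le u (Nat.zero_le _)
  · rintro rfl
    have : dg 0 ≤ 0 := dg_le.2 (fun u _ => by simp)
    omega

theorem dg_ultra (r s : RR) : dg (r + s) ≤ max (dg r) (dg s) := by
  rw [dg_le, map_add]
  exact (dg_le.1 (le_max_left _ _)).add (dg_le.1 (le_max_right _ _))

theorem dg_one' : dg 1 = 1 := by
  have h1 : dg 1 ≤ 1 := dg_le.2 (Bd_sg (w := []) (by simp))
  have h2 : ([] : List Lt).length < dg 1 := lt_dg (by rw [ev_one, sg_apply]; simp)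
  simp at h2; omega

theorem dg_one (r : RR) (h : dg r = 1) : r = 1 := by
  obtain ⟨u, hu, h1⟩ := dg_top (n := 0) h
  have : u = [] := List.length_eq_zero_iff.1 hu
  subst this
  have : ev r = sg [] := by
    ext u
    cases u with
    | nil => rw [h1, sg_apply]; simp
    | cons m u => rw [dg_le.1 h.le _ (by simp), sg_apply]; simp
  rw [← Th_ev r, this, Th_sg]; rfl

theorem rank1 : ∀ x y : Fin 3 → F2,
    (∀ j i, x j * y i + (if j = i then x 0 * y 0 else 0) = 0) → ∀ j i, x j * y i = 0 := by
  decide +kernel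

theorem rank2 : ∀ x y x' y' : Fin 3 → F2,
    (∀ j i, x j * y i + (if j = i then x 0 * y 0 else 0) =
      x' j * y' i + (if j = i then x' 0 * y' 0 else 0)) → ∀ j i, x j * y i = x' j * y' i := by
  decide +kernel

theorem PF' {r s : RR} {p z : List Lt} (hp : p ≠ []) (hz : z ≠ [])
    (hr : dg r ≤ p.length + 1) (hs : dg s ≤ z.length + 1) (j i : Fin 3) :
    ev (r * s) (setL j p ++ setF i z) = ev r (setL j p) * ev s (setF i z) +
      (if j = i then ev r (setL 0 p) * ev s (setF 0 z) else 0) := by
  rw [PF (setL_ne j hp) (setF_ne i hz) (by rw [length_setL]; exact dg_le.1 hr)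
    (by rw [length_setF]; exact dg_le.1 hs), lst_setL j hp, fst_setF i hz, setL_setL, setF_setF]

theorem dg_mul (r s : RR) (hr : r ≠ 0) (hs : s ≠ 0) : dg (r * s) + 1 = dg r + dg s := by
  obtain ⟨c, hc⟩ : ∃ c, dg r = c + 1 :=
    Nat.exists_eq_succ_of_ne_zero (fun e => hr ((dg_zero r).1 e))
  obtain ⟨d, hd⟩ : ∃ d, dg s = d + 1 :=
    Nat.exists_eq_succ_of_ne_zero (fun e => hs ((dg_zero s).1 e))
  by_cases c0 : c = 0
  · rw [dg_one r (by omega), one_mul, dg_one']; omega
  by_cases d0 : d = 0
  · rw [dg_one s (by omega), mul_one, dg_one']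
  have hub : dg (r * s) ≤ c + d + 1 := dg_le.2 (Bd_mul (dg_le.1 hc.le) (dg_le.1 hd.le))
  obtain ⟨p, hp, hp1⟩ := dg_top hc
  obtain ⟨z, hz, hz1⟩ := dg_top hd
  have p0 : p ≠ [] := by rintro rfl; exact c0 hp.symm
  have z0 : z ≠ [] := by rintro rfl; exact d0 hz.symm
  by_contra hh
  have hb : Bd (c + d) (ev (r * s)) := dg_le.1 (by omega)
  have := rank1 (fun j => ev r (setL j p)) (fun i => ev s (setF i z)) (fun j i => by
    rw [← PF' p0 z0 (by omega) (by omega) j i]
    exact hb _ (by simp [length_setL, length_setF]; omega)) (lst p) (fst z)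
  rw [setL_lst, setF_fst, hp1, hz1] at this
  exact absurd this (by decide)

theorem realize (e : ℕ) (f : List Lt → F2) (hf : ∀ t, f t ≠ 0 → Nm t ∧ t.length = e) :
    ∃ q : RR, ∀ t, ev q t = f t := by
  have hfin : (Function.support f).Finite :=
    (List.finite_length_eq Lt e).subset (fun t ht => (hf t ht).2)
  refine ⟨Th (Finsupp.ofSupportFinite f hfin), fun t => ?_⟩
  rw [ev_Th]
  · rfl
  · refine (Finsupp.mem_supported' F2 _).2 (fun t ht => ?_)
    by_contra hh
    exact ht (hf t hh).1

theorem close {r s : RR} {d : ℕ} (hr : dg r = d + 1) (hs : dg s ≤ d + 1)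
    (h : ∀ z : List Lt, z.length = d → ev r z = ev s z) : dg (r + s) < dg r := by
  have : dg (r + s) ≤ d := by
    rw [dg_le]
    intro u hu
    rw [map_add, Finsupp.add_apply]
    by_cases e : u.length = d
    · rw [h u e, CharTwo.add_self_eq_zero]
    · rw [dg_le.1 hr.le u (by omega), dg_le.1 hs u (by omega), add_zero]
  omega

theorem dg_wa (u1 u2 r1 r2 : RR) (hle : dg u1 ≤ dg u2)
    (h : dg (r1 * u1 + r2 * u2) < max (dg (r1 * u1)) (dg (r2 * u2))) :
    ∃ q, dg (u2 + q * u1) < dg u2 := by
  have heq : dg (r1 * u1) = dg (r2 * u2) := by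
    have h1 := dg_ultra (r1 * u1 + r2 * u2) (r2 * u2)
    have h2 := dg_ultra (r1 * u1 + r2 * u2) (r1 * u1)
    rw [add_assoc, RR_add_self, add_zero] at h1
    rw [add_comm (r1 * u1), add_assoc, RR_add_self, add_zero, add_comm (r2 * u2)] at h2
    omega
  have z0 : dg 0 = 0 := (dg_zero 0).2 rfl
  have n1 : r1 * u1 ≠ 0 := fun e => by rw [e] at heq h; omega
  have n2 : r2 * u2 ≠ 0 := fun e => by rw [e] at heq h; omega
  have m1 := dg_mul r1 u1 (left_ne_zero_of_mul n1) (right_ne_zero_of_mul n1)
  have m2 := dg_mul r2 u2 (left_ne_zero_of_mul n2) (right_ne_zero_of_mul n2)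
  obtain ⟨c1, hc1⟩ : ∃ c, dg r1 = c + 1 :=
    Nat.exists_eq_succ_of_ne_zero (fun e => left_ne_zero_of_mul n1 ((dg_zero _).1 e))
  obtain ⟨d1, hd1⟩ : ∃ c, dg u1 = c + 1 :=
    Nat.exists_eq_succ_of_ne_zero (fun e => right_ne_zero_of_mul n1 ((dg_zero _).1 e))
  obtain ⟨c2, hc2⟩ : ∃ c, dg r2 = c + 1 :=
    Nat.exists_eq_succ_of_ne_zero (fun e => left_ne_zero_of_mul n2 ((dg_zero _).1 e))
  obtain ⟨d2, hd2⟩ : ∃ c, dg u2 = c + 1 :=
    Nat.exists_eq_succ_of_ne_zero (fun e => right_ne_zero_of_mul n2 ((dg_zero _).1 e))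
  by_cases c20 : c2 = 0
  · refine ⟨r1, ?_⟩
    have e := dg_one r2 (by omega)
    rw [e, one_mul] at h heq
    rw [add_comm]; omega
  by_cases d10 : d1 = 0
  · refine ⟨u2, ?_⟩
    rw [dg_one u1 (by omega), mul_one, RR_add_self]; omega
  have can : ∀ w : List Lt, w.length = c2 + d2 → ev (r1 * u1) w = ev (r2 * u2) w := by
    intro w hw
    have := dg_le.1 (le_refl (dg (r1 * u1 + r2 * u2))) w (by omega)
    rw [map_add, Finsupp.add_apply] at this
    have h3 : ∀ a b : F2, a + b = 0 → a = b := by decide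
    exact h3 _ _ this
  obtain ⟨p, hp, hp1⟩ := dg_top hc2
  have p0 : p ≠ [] := by rintro rfl; exact c20 hp.symm
  by_cases hdd : d1 = d2
  · refine ⟨ev r1 p • 1, close hd2 ?_ ?_⟩
    · rw [smul_mul_assoc, one_mul, dg_le, map_smul]
      intro u hu
      rw [Finsupp.smul_apply, dg_le.1 hd1.le u (by omega), smul_zero]
    · intro z hz
      have z0 : z ≠ [] := by rintro rfl; simp at hz; omega
      have := rank2 (fun j => ev r1 (setL j p)) (fun i => ev u1 (setF i z))
        (fun j => ev r2 (setL j p)) (fun i => ev u2 (setF i z)) (fun j i => by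
          rw [← PF' p0 z0 (by omega) (by omega) j i, ← PF' p0 z0 (by omega) (by omega) j i]
          exact can _ (by simp [length_setL, length_setF]; omega)) (lst p) (fst z)
      simp only [setL_lst, setF_fst, hp1, one_mul] at this
      rw [smul_mul_assoc, one_mul, map_smul, Finsupp.smul_apply, smul_eq_mul, this]
  obtain ⟨e, he⟩ : ∃ e, d2 = e + 1 + d1 := ⟨d2 - d1 - 1, by omega⟩
  -- transduction
  have tr : ∀ p t y : List Lt, p.length = c2 → t.length = e + 1 → y.length = d1 →
      ev (r1 * u1) (p ++ (t ++ y)) = ev r1 (p ++ t) * ev u1 y +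
        (if lst t = fst y then ev r1 (p ++ setL 0 t) * ev u1 (setF 0 y) else 0) := by
    intro p t y hp ht hy
    have t0 : t ≠ [] := by rintro rfl; simp at ht
    have y0 : y ≠ [] := by rintro rfl; simp at hy; omega
    rw [← List.append_assoc, PF (by simp [t0]) y0 (dg_le.1 (by simp; omega))
      (dg_le.1 (by omega)), lst_append p t0, setL_append 0 p t0]
  have G : ∀ (j : Fin 3) (z : List Lt), z.length = d2 →
      ev (r1 * u1) (setL j p ++ z) = ev r2 (setL j p) * ev u2 z +
        (if j = fst z then ev r2 (setL 0 p) * ev u2 (setF 0 z) else 0) := by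
    intro j z hz
    have z0 : z ≠ [] := by rintro rfl; simp at hz; omega
    rw [can _ (by simp [length_setL]; omega)]
    have := PF' (r := r2) (s := u2) p0 z0 (by omega) (by omega) j (fst z)
    rwa [setF_fst] at this
  have fin : ∀ f : List Lt → F2, (∀ t, f t ≠ 0 → Nm t ∧ t.length = e + 1) →
      (∀ t y : List Lt, t.length = e + 1 → y.length = d1 → ev u2 (t ++ y) = f t * ev u1 y +
        (if lst t = fst y then f (setL 0 t) * ev u1 (setF 0 y) else 0)) →
      ∃ q, dg (u2 + q * u1) < dg u2 := by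
    intro f hf hm
    obtain ⟨q, hq⟩ := realize (e + 1) f hf
    have hqb : Bd (e + 1 + 1) (ev q) := fun u hu => by
      rw [hq]; by_contra hh; have := (hf u hh).2; omega
    refine ⟨q, close hd2 (dg_le.2 (he ▸ Bd_mul hqb (dg_le.1 hd1.le))) fun z hz => ?_⟩
    have ht : (z.take (e + 1)).length = e + 1 := by rw [List.length_take]; omega
    have hy : (z.drop (e + 1)).length = d1 := by rw [List.length_drop]; omega
    rw [← List.take_append_drop (e + 1) z]
    generalize z.take (e + 1) = t at ht
    generalize z.drop (e + 1) = y at hy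
    have t0 : t ≠ [] := by rintro rfl; simp at ht
    have y0 : y ≠ [] := by rintro rfl; simp at hy; omega
    rw [PF t0 y0 (by rw [ht]; exact hqb) (dg_le.1 (by omega)), hq, hq, hm t y ht hy]
  by_cases hx0 : ev r2 (setL 0 p) = 0
  · refine fin (fun t => if t.length = e + 1 then ev r1 (p ++ t) else 0) ?_ ?_
    · intro t ht
      split_ifs at ht with a
      · exact ⟨nm_append (ev_nm ht), a⟩
      · exact absurd rfl ht
    · intro t y ht hy
      simp only [length_setL, ht, if_true]
      rw [← tr p t y hp ht hy]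
      have := G (lst p) (t ++ y) (by simp; omega)
      rw [setL_lst, hp1, hx0] at this
      rw [this]; simp
  · have hx1 := F2_ne _ hx0
    refine fin (fun t => if t.length = e + 1 then (if fst t = 0 then
      ev r1 (setL 1 p ++ setF 1 t) + ev r2 (setL 1 p) * ev r1 (setL 0 p ++ setF 1 t)
      else ev r1 (setL 0 p ++ t)) else 0) ?_ ?_
    · intro t ht
      split_ifs at ht with a b
      · refine ⟨?_, a⟩
        by_contra hh
        have : ∀ p', ev r1 (p' ++ setF 1 t) = 0 := fun p' => by
          by_contra h3; exact hh (nm_setF (nm_append (ev_nm h3)))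
        simp [this] at ht
      · exact ⟨nm_append (ev_nm ht), a⟩
      · exact absurd rfl ht
    · intro t y ht hy
      have t0 : t ≠ [] := by rintro rfl; simp at ht
      simp only [length_setL, ht, if_true, fst_setL]
      by_cases b : fst t = 0
      · simp only [b, if_true]
        have a1 := tr (setL 1 p) (setF 1 t) y (by rw [length_setL, hp]) (by rw [length_setF, ht]) hy
        have a0 := tr (setL 0 p) (setF 1 t) y (by rw [length_setL, hp]) (by rw [length_setF, ht]) hy
        have hl : (setF 1 t ++ y).length = d2 := by simp [length_setF]; omega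
        rw [G 1 _ hl, fst_append (setF_ne 1 t0), fst_setF 1 t0, if_pos rfl, hx1,
          setF_append 0 (setF_ne 1 t0), setF_setF, lst_setF, ← setF_setL] at a1
        rw [G 0 _ hl, fst_append (setF_ne 1 t0), fst_setF 1 t0, if_neg (by decide), hx1,
          lst_setF, ← setF_setL] at a0
        have e0 : setF 0 t = t := by rw [← b, setF_fst]
        rw [e0] at a1
        have key : ∀ x U V A1 A0 B1 B0 Y Y' : F2, ∀ P : Prop, [Decidable P] →
            x * U + 1 * V = A1 * Y + (if P then B1 * Y' else 0) →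
            1 * U + 0 = A0 * Y + (if P then B0 * Y' else 0) →
            V = (A1 + x * A0) * Y + (if P then (B1 + x * B0) * Y' else 0) := by
          intro x U V A1 A0 B1 B0 Y Y' P _ h1 h2
          have t2 : (2 : F2) = 0 := rfl
          split_ifs at h1 h2 ⊢
          · linear_combination h1 + x * h2 - (x * U) * t2
          · linear_combination h1 + x * h2 - (x * U) * t2
        exact key _ _ _ _ _ _ _ _ _ _ a1 a0
      · simp only [b, if_false]
        rw [← tr (setL 0 p) t y (by rw [length_setL, hp]) ht hy, G 0 _ (by simp; omega),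
          fst_append t0, if_neg (Ne.symm b), hx1]
        simp

theorem wa_RR : WA RR dg :=
  ⟨RR_add_self 1, dg_zero, dg_ultra, dg_mul, dg_one, dg_wa⟩

end Pool.Agent.H70.GE
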