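import Pool.Agent.H70.GE4

/-! Heavy columns and ping-pong. -/

set_option autoImplicit false

namespace Pool.Agent.H70.GE

open Matrix

abbrev Mat : Type := Matrix (Fin 3) (Fin 3) RR

noncomputable def Sm (α : Fin 3) : Mat := Matrix.of fun i j => gn (i, α, j)

theorem Sm_mul (α β : Fin 3) : Sm α * Sm β = c0 α β • (1 : Mat) + ∑ ε, cc α β ε • Sm ε := by
  ext1 i j
  rw [Matrix.mul_apply]
  simp only [Sm, Matrix.of_apply, rel, Matrix.add_apply, Matrix.smul_apply, Matrix.one_apply,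
    Matrix.sum_apply]

theorem Mat_add_self (A : Mat) : A + A = 0 := by
  ext1 i j; exact RR_add_self _

theorem XX : Sm 0 * Sm 0 = 1 := by
  rw [Sm_mul]; simp [c0, cc, Fin.sum_univ_three]

theorem Xn : Sm 0 * Sm 1 + Sm 1 * Sm 0 = 1 := by
  rw [Sm_mul, Sm_mul]
  simp only [c0, cc, Fin.sum_univ_three]
  simp
  rw [add_left_comm, Mat_add_self, add_zero]

def HeavyD (d : ℕ) (v : Fin 3 → RR) : Prop :=
  0 < d ∧ (∀ i, dg (v i) ≤ d + 1) ∧
    (∀ z : List Lt, z.length = d → ∀ i,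
      ev (v i) z = if i = fst z then ev (v 0) (setF 0 z) else 0) ∧
    ∃ z : List Lt, z.length = d ∧ ev (v 0) (setF 0 z) = 1

def Heavy (v : Fin 3 → RR) : Prop := ∃ d, HeavyD d v

theorem X_heavy {v : Fin 3 → RR} (h0 : v ≠ 0) (hv : ¬ Heavy v) : Heavy (Sm 0 *ᵥ v) := by
  obtain ⟨j0, -, hj0⟩ := Finset.exists_max_image Finset.univ (fun i => dg (v i)) ⟨0, by simp⟩
  obtain ⟨d, hd⟩ : ∃ d, dg (v j0) = d + 1 := by
    apply Nat.exists_eq_succ_of_ne_zero
    intro e
    apply h0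
    funext i
    have := hj0 i (by simp)
    exact (dg_zero _).1 (by omega)
  have hb : ∀ i, Bd (d + 1) (ev (v i)) := fun i => dg_le.1 (hd ▸ hj0 i (by simp))
  have he : ∀ i, ev ((Sm 0 *ᵥ v) i) = ∑ l, Lop (i, 0, l) (ev (v l)) := by
    intro i
    simp only [Matrix.mulVec, dotProduct, map_sum, Sm, Matrix.of_apply, ev_gn_mul]
  obtain ⟨κ, hκ⟩ : ∃ κ : Fin 3 → List Lt → F2, ∀ j z, κ j z = ev (v j) z +
      (if z ≠ [] ∧ j = fst z then ev (v 0) (setF 0 z) else 0) := ⟨_, fun _ _ => rfl⟩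
  have hc : ∀ (i : Fin 3) (m : Lt) (z : List Lt), z.length = d →
      ev ((Sm 0 *ᵥ v) i) (m :: z) = if m.1 = i ∧ m.2.1 = 0 then κ m.2.2 z else 0 := by
    intro i m z hz
    obtain ⟨i1, α1, j1⟩ := m
    rw [he, Finsupp.finsetSum_apply, hκ]
    by_cases z0 : z = []
    · subst z0
      have : d = 0 := hz.symm
      subst this
      simp only [top0 _ _ (hb _), Fin.sum_univ_three, Prod.mk.injEq]
      by_cases a : i1 = i ∧ α1 = 0
      · obtain ⟨rfl, rfl⟩ := a
        fin_cases j1 <;> simp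
      · rw [if_neg (by tauto), if_neg (by tauto), if_neg (by tauto), if_neg a]; simp
    · simp only [top1 _ _ z0 (hz ▸ hb _), Fin.sum_univ_three, Prod.mk.injEq]
      by_cases a : i1 = i ∧ α1 = 0
      · obtain ⟨rfl, rfl⟩ := a
        fin_cases j1 <;> simp [z0] <;> ring
      · rw [if_neg (by tauto), if_neg (by tauto), if_neg (by tauto), if_neg (by tauto),
          if_neg (by tauto), if_neg (by tauto), if_neg a]; simp
  refine ⟨d + 1, by omega, fun i => ?_, ?_, ?_⟩
  · rw [dg_le, he, Fin.sum_univ_three]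
    exact ((Bd_Lop _ (hb _)).add (Bd_Lop _ (hb _))).add (Bd_Lop _ (hb _))
  · intro z hz i
    cases z with
    | nil => simp at hz
    | cons m z =>
      have hz' : z.length = d := by simpa using hz
      simp only [fst, setF, hc _ _ _ hz']
      by_cases a : m.1 = i
      · simp [a]
      · simp [a, Ne.symm a]
  · by_contra hh
    have hk : ∀ j (z : List Lt), z.length = d → κ j z = 0 := by
      intro j z hz
      by_contra h3
      refine hh ⟨(0, 0, j) :: z, by simp [hz], ?_⟩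
      simp only [setF, hc _ _ _ hz]
      simpa using F2_ne _ h3
    obtain ⟨z1, hz1, h1⟩ := dg_top hd
    have h2 := hk j0 z1 hz1
    rw [hκ, h1] at h2
    have h3 : z1 ≠ [] ∧ j0 = fst z1 := by
      by_contra h4
      rw [if_neg h4] at h2
      exact absurd h2 (by decide)
    rw [if_pos h3] at h2
    have d0 : 0 < d := by
      rw [← hz1]; exact List.length_pos_iff.2 h3.1
    have h5 : ∀ a b : F2, a + b = 0 → a = b := by decide
    refine hv ⟨d, d0, fun i => dg_le.2 (hb i), fun z hz i => ?_, z1, hz1, (h5 _ _ h2).symm⟩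
    have z0 : z ≠ [] := by rintro rfl; simp at hz; omega
    have := hk i z hz
    rw [hκ] at this
    rw [h5 _ _ this]
    simp [z0]

/-- pairing with a column -/
noncomputable def ph (v : Fin 3 → RR) : (Fin 3 → RR) →ₗ[RR] RR where
  toFun ρ := ρ ⬝ᵥ v
  map_add' a b := add_dotProduct a b v
  map_smul' c a := by
    simp only [dotProduct, Pi.smul_apply, smul_eq_mul, RingHom.id_apply, Finset.mul_sum, mul_assoc]

theorem heavy_bal {d : ℕ} {v : Fin 3 → RR} (g : Mat) (h : HeavyD d (g *ᵥ v)) :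
    Bal dg (ph v) (d + 1) (g 0) (g 1) (g 2) := by
  have e : ∀ i, ph v (g i) = (g *ᵥ v) i := fun i => rfl
  simp only [Bal, map_add, e]
  generalize g *ᵥ v = w at h
  obtain ⟨d0, h1, h2, z, hz, h3⟩ := h
  have z0 : z ≠ [] := by rintro rfl; simp at hz; omega
  have c : ∀ i j, ev (w i) (setF j z) = if i = j then 1 else 0 := by
    intro i j
    rw [h2 _ (by rw [length_setF, hz]), fst_setF j z0, setF_setF, h3]
  have lo : ∀ (r : RR) (j : Fin 3), ev r (setF j z) = 1 → d + 1 ≤ dg r := by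
    intro r j hr
    have := lt_dg (r := r) (u := setF j z) (by rw [hr]; decide)
    rw [length_setF] at this; omega
  have u2 : ∀ r s : RR, dg r ≤ d + 1 → dg s ≤ d + 1 → dg (r + s) ≤ d + 1 := fun r s a b =>
    (dg_ultra r s).trans (max_le a b)
  refine ⟨by omega, le_antisymm (h1 _) (lo _ 0 ?_), le_antisymm (h1 _) (lo _ 1 ?_),
    le_antisymm (h1 _) (lo _ 2 ?_), le_antisymm (u2 _ _ (h1 _) (h1 _)) (lo _ 0 ?_),
    le_antisymm (u2 _ _ (h1 _) (h1 _)) (lo _ 0 ?_), le_antisymm (u2 _ _ (h1 _) (h1 _)) (lo _ 1 ?_),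
    le_antisymm (u2 _ _ (u2 _ _ (h1 _) (h1 _)) (h1 _)) (lo _ 0 ?_)⟩ <;>
    simp [c]

def gens : Set Matˣ := {g | ∃ i j : Fin 3, ∃ c : RR, i ≠ j ∧
  (g : Mat) = 1 + Matrix.of (fun a b => if a = i ∧ b = j then c else 0)}

noncomputable def EE : Subgroup Matˣ := Subgroup.closure gens

theorem of_single (i j : Fin 3) (c : RR) :
    (Matrix.of (fun a b => if a = i ∧ b = j then c else 0) : Mat) = Matrix.single i j c := by
  ext1 a b
  simp only [Matrix.of_apply, Matrix.single_apply]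
  refine if_congr ?_ rfl rfl
  tauto

theorem tv_sq {i j : Fin 3} (h : i ≠ j) (c : RR) :
    ((1 : Mat) + Matrix.single i j c) * (1 + Matrix.single i j c) = 1 := by
  rw [add_mul, mul_add, mul_add, one_mul, one_mul, mul_one,
    Matrix.single_mul_single_of_ne _ _ _ _ h.symm, add_zero, add_assoc, Mat_add_self, add_zero]

noncomputable def tv {i j : Fin 3} (h : i ≠ j) (c : RR) : Matˣ :=
  ⟨1 + Matrix.single i j c, 1 + Matrix.single i j c, tv_sq h c, tv_sq h c⟩

theorem tv_mem {i j : Fin 3} (h : i ≠ j) (c : RR) : tv h c ∈ EE :=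
  Subgroup.subset_closure ⟨i, j, c, h, by rw [of_single]; rfl⟩

theorem gens_eq {g : Matˣ} (hg : g ∈ gens) : ∃ (i j : Fin 3) (h : i ≠ j) (c : RR), g = tv h c := by
  obtain ⟨i, j, c, h, e⟩ := hg
  exact ⟨i, j, h, c, Units.ext (by rw [e, of_single]; rfl)⟩

theorem tv_row {i j : Fin 3} (h : i ≠ j) (c : RR) (A : Mat) (k : Fin 3) :
    ((tv h c : Mat) * A) k = if k = i then A i + c • A j else A k := by
  funext b
  show ((1 + Matrix.single i j c) * A) k b = _
  rw [add_mul, one_mul, Matrix.add_apply]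
  split_ifs with e
  · subst e; simp
  · rw [Matrix.single_mul_apply_of_ne _ _ _ _ _ e, add_zero]

theorem E_T {d : ℕ} {v : Fin 3 → RR} (h : HeavyD d v) {e : Matˣ} (he : e ∈ EE) :
    T dg (ph v) ((1 : Mat) 0) ((1 : Mat) 1) ((1 : Mat) 2) ((e : Mat) 0) ((e : Mat) 1) ((e : Mat) 2) := by
  have hb := heavy_bal (v := v) (d := d) 1 (by rw [Matrix.one_mulVec]; exact h)
  have key : ∀ g ∈ gens, ∀ y : Matˣ, T dg (ph v) ((1 : Mat) 0) ((1 : Mat) 1) ((1 : Mat) 2)
      ((y : Mat) 0) ((y : Mat) 1) ((y : Mat) 2) →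
      T dg (ph v) ((1 : Mat) 0) ((1 : Mat) 1) ((1 : Mat) 2)
      ((g * y : Matˣ).1 0) ((g * y : Matˣ).1 1) ((g * y : Matˣ).1 2) := by
    intro g hg y t
    obtain ⟨i, j, hij, c, rfl⟩ := gens_eq hg
    simp only [Units.val_mul, tv_row]
    have m : ∀ {x y z : Fin 3 → RR}, T dg (ph v) ((1 : Mat) 0) ((1 : Mat) 1) ((1 : Mat) 2) x y z →
        T dg (ph v) ((1 : Mat) 0) ((1 : Mat) 1) ((1 : Mat) 2) (x + c • y) y z := by
      intro x y z t
      have := mv_all wa_RR _ _ _ _ hb t c 0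
      rwa [zero_smul, add_zero] at this
    fin_cases i <;> fin_cases j <;> simp at hij ⊢
    · exact m t
    · exact (m t.sw2).sw2
    · exact (m t.sw1).sw1
    · exact (m t.sw1.sw2).sw2.sw1
    · exact (m t.sw2.sw1).sw1.sw2
    · exact (m t.sw1.sw2.sw1).sw1.sw2.sw1
  induction he using Subgroup.closure_induction_left with
  | one => exact T.base
  | mul_left x hx y _ ih => exact key x hx y ih
  | inv_mul_cancel x hx y _ ih =>
    have : x⁻¹ = x := by obtain ⟨i, j, hij, c, rfl⟩ := gens_eq hx; rfl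
    rw [this]; exact key x hx y ih

noncomputable def KK : AddSubgroup (Fin 3 → RR) where
  carrier := {ρ | ∀ j, ∃ a : F2, ρ j = a • (1 : RR)}
  zero_mem' := fun _ => ⟨0, by simp⟩
  add_mem' := fun {x y} hx hy j => by
    obtain ⟨a, ha⟩ := hx j
    obtain ⟨b, hb⟩ := hy j
    exact ⟨a + b, by rw [Pi.add_apply, ha, hb, add_smul]⟩
  neg_mem' := fun {x} hx j => by
    obtain ⟨a, ha⟩ := hx j
    exact ⟨-a, by rw [Pi.neg_apply, ha]; exact (neg_smul a (1 : RR)).symm⟩

theorem one_KK (i : Fin 3) : (1 : Mat) i ∈ KK := by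
  intro j
  by_cases e : i = j
  · exact ⟨1, by rw [e, one_smul]; exact Matrix.one_apply_eq j⟩
  · exact ⟨0, by simp [Matrix.one_apply_ne e]⟩

theorem E_deg {d d' : ℕ} {v : Fin 3 → RR} (h : HeavyD d v) {e : Matˣ} (he : e ∈ EE)
    (h' : HeavyD d' ((e : Mat) *ᵥ v)) : d ≤ d' ∧ (d' ≤ d → ∀ i, (e : Mat) i ∈ KK) := by
  have hb := heavy_bal (v := v) (d := d) 1 (by rw [Matrix.one_mulVec]; exact h)
  obtain ⟨-, h1, h2, h3, -⟩ := heavy_bal (e : Mat) h'
  obtain ⟨a, b⟩ := height wa_RR _ _ _ _ hb KK (one_KK 0) (one_KK 1) (one_KK 2) (E_T h he)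
  refine ⟨by omega, fun hh i => ?_⟩
  obtain ⟨-, k0, k1, k2⟩ := b (by omega)
  fin_cases i
  · exact k0
  · exact k1
  · exact k2

theorem E_heavy {v : Fin 3 → RR} (h : Heavy v) {e : Matˣ} (he : e ∈ EE)
    (h' : Heavy ((e : Mat) *ᵥ v)) : e = 1 := by
  obtain ⟨d, h⟩ := h
  obtain ⟨d', h'⟩ := h'
  have a1 := E_deg h he h'
  have a2 := E_deg (d' := d) h' (inv_mem he) (by
    rw [Matrix.mulVec_mulVec, ← Units.val_mul, inv_mul_cancel, Units.val_one, Matrix.one_mulVec]
    exact h)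
  have hd : d' = d := by omega
  subst hd
  choose a ha using a1.2 le_rfl
  obtain ⟨d0, -, h2, -⟩ := h
  obtain ⟨-, -, h2', z, hz, h3⟩ := h'
  have z0 : z ≠ [] := by rintro rfl; simp at hz; omega
  have c : ∀ i j, a i j * ev (v 0) (setF 0 z) = if i = j then 1 else 0 := by
    intro i j
    have := h2' (setF j z) (by rw [length_setF, hz]) i
    rw [fst_setF j z0, setF_setF, h3] at this
    rw [← this]
    simp only [Matrix.mulVec, dotProduct, map_sum, ha, smul_mul_assoc, one_mul, map_smul,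
      Finsupp.finsetSum_apply, Finsupp.smul_apply, smul_eq_mul]
    rw [Finset.sum_eq_single j]
    · rw [h2 (setF j z) (by rw [length_setF, hz]) j, fst_setF j z0, setF_setF, if_pos rfl]
    · intro l _ hl
      rw [h2 (setF j z) (by rw [length_setF, hz]) l, fst_setF j z0, if_neg hl, mul_zero]
    · simp
  have b1 : ev (v 0) (setF 0 z) = 1 := by
    apply F2_ne
    intro e0
    have := c 0 0
    rw [e0] at this
    simp at this
  apply Units.ext
  ext1 i j
  have := c i j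
  rw [b1, mul_one] at this
  rw [ha, this, Units.val_one, Matrix.one_apply]
  split_ifs <;> simp

noncomputable def Xu : Matˣ := ⟨Sm 0, Sm 0, XX, XX⟩

theorem heavy_ne {v : Fin 3 → RR} (h : Heavy v) : v ≠ 0 := by
  rintro rfl
  obtain ⟨d, -, -, -, z, -, h⟩ := h
  simp at h

theorem unit_ne (e : Matˣ) {v : Fin 3 → RR} (h : v ≠ 0) : (e : Mat) *ᵥ v ≠ 0 := by
  intro e0
  apply h
  have := congrArg (fun w => ((e⁻¹ : Matˣ) : Mat) *ᵥ w) e0
  simpa [Matrix.mulVec_mulVec] using this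

/-- reduced products of conjugates of X, with first and last conjugator -/
inductive RP : Matˣ → Matˣ → Matˣ → Prop
  | single (e : Matˣ) : e ∈ EE → RP e e (e * Xu * e⁻¹)
  | cons (e a b g : Matˣ) : e ∈ EE → e ≠ a → RP a b g → RP e b (e * Xu * e⁻¹ * g)

theorem RP.mem {a b g : Matˣ} (h : RP a b g) : a ∈ EE ∧ b ∈ EE := by
  induction h with
  | single e he => exact ⟨he, he⟩
  | cons e a b g he _ _ ih => exact ⟨he, ih.2⟩

theorem RP.pp {a b g : Matˣ} (h : RP a b g) {w : Fin 3 → RR} (h0 : w ≠ 0) (hw : ¬ Heavy w) :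
    Heavy (((a⁻¹ * g * b : Matˣ) : Mat) *ᵥ w) := by
  induction h with
  | single e he =>
    have : e⁻¹ * (e * Xu * e⁻¹) * e = Xu := by group
    rw [this]; exact X_heavy h0 hw
  | cons e a b g he hne hr ih =>
    have : e⁻¹ * (e * Xu * e⁻¹ * g) * b = Xu * ((e⁻¹ * a) * (a⁻¹ * g * b)) := by group
    rw [this, Units.val_mul, ← Matrix.mulVec_mulVec, Units.val_mul, ← Matrix.mulVec_mulVec]
    refine X_heavy (unit_ne _ (heavy_ne ih)) (fun hh => hne ?_)
    exact inv_mul_eq_one.1 (E_heavy ih (mul_mem (inv_mem he) hr.mem.1) hh)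

noncomputable def NN : Subgroup Matˣ := Subgroup.closure {g | ∃ e ∈ EE, g = e * Xu * e⁻¹}

theorem cj_sq (e : Matˣ) : e * Xu * e⁻¹ * (e * Xu * e⁻¹) = 1 := by
  have h : Xu * Xu = 1 := Units.ext XX
  calc _ = e * (Xu * Xu) * e⁻¹ := by group
    _ = 1 := by rw [h]; group

theorem NN_red {g : Matˣ} (hg : g ∈ NN) : g = 1 ∨ ∃ a b, RP a b g := by
  have key : ∀ e ∈ EE, ∀ y : Matˣ, (y = 1 ∨ ∃ a b, RP a b y) →
      (e * Xu * e⁻¹ * y = 1 ∨ ∃ a b, RP a b (e * Xu * e⁻¹ * y)) := by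
    rintro e he y (rfl | ⟨a, b, h⟩)
    · exact Or.inr ⟨e, e, by rw [mul_one]; exact RP.single e he⟩
    · by_cases hea : e = a
      · subst hea
        cases h with
        | single _ _ => exact Or.inl (cj_sq e)
        | cons _ a _ g _ _ hr =>
          refine Or.inr ⟨a, b, ?_⟩
          rw [← mul_assoc, cj_sq, one_mul]; exact hr
      · exact Or.inr ⟨e, b, RP.cons e a b y he hea h⟩
  induction hg using Subgroup.closure_induction_left with
  | one => exact Or.inl rfl
  | mul_left x hx y _ ih => obtain ⟨e, he, rfl⟩ := hx; exact key e he y ih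
  | inv_mul_cancel x hx y _ ih =>
    obtain ⟨e, he, rfl⟩ := hx
    rw [inv_eq_of_mul_eq_one_right (cj_sq e)]; exact key e he y ih

theorem RR_one_ne : (1 : RR) ≠ 0 := fun e => by
  have := dg_one'
  rw [e, (dg_zero 0).2 rfl] at this
  omega

theorem tv_ne {i j : Fin 3} (h : i ≠ j) : tv h 1 ≠ 1 := by
  intro e
  have := congrArg (fun g : Matˣ => (g : Mat) i j) e
  simp [tv] at this
  exact RR_one_ne this

theorem not_le : ¬ EE ≤ NN := by
  intro hle
  have h01 : (0 : Fin 3) ≠ 1 := by decide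
  have h02 : (0 : Fin 3) ≠ 2 := by decide
  rcases NN_red (hle (tv_mem h01 1)) with h | ⟨a, b, h⟩
  · exact tv_ne h01 h
  have hf : a⁻¹ * tv h01 1 * b ∈ EE := mul_mem (mul_mem (inv_mem h.mem.1) (tv_mem _ _)) h.mem.2
  have hh : Heavy (Sm 0 *ᵥ (fun _ => (1 : RR))) := by
    apply X_heavy
    · intro e; exact RR_one_ne (congrFun e 0)
    · rintro ⟨d, d0, -, -, z, hz, h3⟩
      rw [ev_one, Bd_sg (n := 1) (by simp) _ (by rw [length_setF]; omega)] at h3
      exact absurd h3 (by decide)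
  have key : ∀ e ∈ EE, e ≠ 1 → a⁻¹ * tv h01 1 * b * e = 1 := by
    intro e he hne
    have := h.pp (unit_ne e (heavy_ne hh)) (fun h3 => hne (E_heavy hh he h3))
    rw [Matrix.mulVec_mulVec, ← Units.val_mul] at this
    exact E_heavy hh (mul_mem hf he) this
  have e := mul_left_cancel ((key _ (tv_mem h01 1) (tv_ne h01)).trans
    (key _ (tv_mem h02 1) (tv_ne h02)).symm)
  have := congrArg (fun g : Matˣ => (g : Mat) 0 1) e
  simp [tv] at this
  exact RR_one_ne this

theorem NN_norm : ∀ e ∈ EE, ∀ x ∈ NN, e * x * e⁻¹ ∈ NN := by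
  intro e he x hx
  induction hx using Subgroup.closure_induction with
  | mem x hx =>
    obtain ⟨a, ha, rfl⟩ := hx
    exact Subgroup.subset_closure ⟨e * a, mul_mem he ha, by group⟩
  | one => simpa using one_mem NN
  | mul x y _ _ hx hy =>
    have : e * (x * y) * e⁻¹ = (e * x * e⁻¹) * (e * y * e⁻¹) := by group
    rw [this]; exact mul_mem hx hy
  | inv x _ hx =>
    have : e * x⁻¹ * e⁻¹ = (e * x * e⁻¹)⁻¹ := by group
    rw [this]; exact inv_mem hx

theorem ideal_gen {R : Type} [Ring R] (I : TwoSidedIdeal R) (X n : Matrix (Fin 3) (Fin 3) R)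
    (c0 : ∀ (i j : Fin 3) (c : R), i ≠ j → ∃ g : Matrix (Fin 3) (Fin 3) R,
      (∀ a b, g a b - (1 : Matrix (Fin 3) (Fin 3) R) a b ∈ I) ∧
      g * ((1 + Matrix.single i j c) * X) = X * (1 + Matrix.single i j c))
    (e : X * n - n * X = 1) : I = ⊤ := by
  obtain ⟨In, hIn⟩ : ∃ In : Matrix (Fin 3) (Fin 3) R → Prop, ∀ A, In A ↔ ∀ i j, A i j ∈ I :=
    ⟨_, fun _ => Iff.rfl⟩
  have iadd : ∀ A B, In A → In B → In (A + B) := by
    intro A B a b; rw [hIn] at *; exact fun i j => I.add_mem (a i j) (b i j)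
  have il : ∀ A B, In B → In (A * B) := by
    intro A B b; rw [hIn] at *
    intro i j; rw [Matrix.mul_apply]
    exact sum_mem fun l _ => I.mul_mem_left _ _ (b l j)
  have ir : ∀ A B, In A → In (A * B) := by
    intro A B a; rw [hIn] at *
    intro i j; rw [Matrix.mul_apply]
    exact sum_mem fun l _ => I.mul_mem_right _ _ (a i l)
  have c1 : ∀ (i j : Fin 3) (c : R), i ≠ j →
      In (X * Matrix.single i j c - Matrix.single i j c * X) := by
    intro i j c hij
    obtain ⟨g, hg, he⟩ := c0 i j c hij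
    have h2 := ir (g - 1) ((1 + Matrix.single i j c) * X) ((hIn _).2 hg)
    rw [sub_mul, one_mul, he] at h2
    convert h2 using 1
    noncomm_ring
  have c2 : ∀ A B, In (X * A - A * X) → In (X * B - B * X) → In (X * (A * B) - (A * B) * X) := by
    intro A B a b
    have := iadd _ _ (ir _ B a) (il A _ b)
    convert this using 1
    noncomm_ring
  have c3 : ∀ (i j : Fin 3) (c : R), In (X * Matrix.single i j c - Matrix.single i j c * X) := by
    intro i j c
    by_cases hij : i = j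
    · subst hij
      have hk : i ≠ i + 1 := by revert i; decide
      have := c2 _ _ (c1 i (i + 1) c hk) (c1 (i + 1) i 1 hk.symm)
      rwa [Matrix.single_mul_single_same, mul_one] at this
    · exact c1 i j c hij
  have c4 : ∀ A B, In (X * A - A * X) → In (X * B - B * X) → In (X * (A + B) - (A + B) * X) := by
    intro A B a b
    have := iadd _ _ a b
    convert this using 1
    noncomm_ring
  have c5 : In (X * n - n * X) := by
    rw [Matrix.matrix_eq_sum_single n]
    simp only [Fin.sum_univ_three]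
    exact c4 _ _ (c4 _ _ (c4 _ _ (c4 _ _ (c3 _ _ _) (c3 _ _ _)) (c3 _ _ _))
      (c4 _ _ (c4 _ _ (c3 _ _ _) (c3 _ _ _)) (c3 _ _ _)))
      (c4 _ _ (c4 _ _ (c3 _ _ _) (c3 _ _ _)) (c3 _ _ _))
  rw [e, hIn] at c5
  have := c5 0 0
  rw [Matrix.one_apply_eq] at this
  exact (TwoSidedIdeal.one_mem_iff I).1 this

theorem ideal_top (I : TwoSidedIdeal RR)
    (h : ∀ g ∈ ⁅NN, EE⁆, ∀ i j : Fin 3, (g : Mat) i j - (1 : Mat) i j ∈ I) : I = ⊤ := by
  refine ideal_gen I (Sm 0) (Sm 1) (fun i j c hij => ?_) ?_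
  · have hX : Xu ∈ NN := Subgroup.subset_closure ⟨1, one_mem _, by simp⟩
    have h1 := h _ (Subgroup.commutator_mem_commutator hX (tv_mem hij c))
    rw [commutatorElement_def] at h1
    refine ⟨_, h1, ?_⟩
    have e : Xu * tv hij c * Xu⁻¹ * (tv hij c)⁻¹ * (tv hij c * Xu) = Xu * tv hij c := by group
    exact congrArg Units.val e
  · rw [← Xn, sub_eq_iff_eq_add, add_assoc, Mat_add_self, add_zero]

end Pool.Agent.H70.GE
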