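import Mathlib

set_option autoImplicit false

namespace Pool.Agent.H70.GrigDefs

/-- The map `a` on binary words: flip the first letter (`false` is 0, `true` is 1). -/
def fa : List Bool → List Bool
  | [] => []
  | x :: w => (!x) :: w

/-- The maps `b = ft 0`, `c = ft 1`, `d = ft 2` on binary words:
`b(0w) = 0 a(w)`, `b(1w) = 1 c(w)`, `c(0w) = 0 a(w)`, `c(1w) = 1 d(w)`,
`d(0w) = 0 w`, `d(1w) = 1 b(w)`. -/
def ft : ZMod 3 → List Bool → List Bool
  | _, [] => []
  | i, false :: w => false :: (if i = 2 then w else fa w)
  | i, true :: w => true :: ft (i + 1) w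

theorem fa_inv : Function.Involutive fa := by
  rintro (_ | ⟨x, w⟩) <;> simp [fa]

theorem ft_inv (i : ZMod 3) : Function.Involutive (ft i) := by
  intro w
  induction w generalizing i with
  | nil => rfl
  | cons x w ih =>
    cases x
    · simp only [ft]; split_ifs <;> simp [fa_inv w]
    · simp [ft, ih]

/-- The first Grigorchuk group, as a group of permutations of the vertices of the binary tree. -/
def Grig : Subgroup (Equiv.Perm (List Bool)) :=
  Subgroup.closure {fa_inv.toPerm fa, (ft_inv 0).toPerm (ft 0), (ft_inv 1).toPerm (ft 1),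
    (ft_inv 2).toPerm (ft 2)}

end Pool.Agent.H70.GrigDefs
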