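import Pool.Agent.H70.GrigDefs

set_option autoImplicit false

namespace Pool.Agent.H70.GrigJac

open Pool.Agent.H70.GrigDefs

def p : List Bool → ℕ
  | [] => 0
  | false :: w => 2 * p w + (1 - p w % 2)
  | true :: w => 2 * p w + p w % 2

theorem len_fa (w : List Bool) : (fa w).length = w.length := by
  cases w <;> simp [fa]

theorem len_ft (i : ZMod 3) (w : List Bool) : (ft i w).length = w.length := by
  induction w generalizing i with
  | nil => rfl
  | cons x w ih =>
    cases x
    · simp only [ft]; split_ifs <;> simp [len_fa]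
    · simp [ft, ih]

theorem p_fa (w : List Bool) (h : w ≠ []) :
    (p w % 2 = 0 ∧ p (fa w) = p w + 1) ∨ (p w % 2 = 1 ∧ p (fa w) + 1 = p w) := by
  rcases w with _ | ⟨_ | _, w⟩
  · exact absurd rfl h
  · simp only [fa, p, Bool.not_false]; omega
  · simp only [fa, p, Bool.not_true]; omega

theorem p_ft (i : ZMod 3) (w : List Bool) : p (ft i w) = p w ∨
    (p w % 2 = 1 ∧ p (ft i w) = p w + 1) ∨ (p w % 2 = 0 ∧ p (ft i w) + 1 = p w) := by
  induction w generalizing i with
  | nil => left; rfl
  | cons x w ih =>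
    cases x
    · simp only [ft]
      split_ifs
      · left; rfl
      · by_cases h : w = []
        · subst h; left; rfl
        · have := p_fa w h
          simp only [p]; omega
    · have := ih (i + 1)
      simp only [ft, p]; omega

def mv (i : ZMod 3) (k : ℕ) : Prop := k ≠ 0 ∧ i + (padicValNat 2 k : ZMod 3) ≠ 2

theorem mv_odd (i : ZMod 3) (k : ℕ) (h : k % 2 = 1) : mv i k ↔ i ≠ 2 := by
  have : padicValNat 2 k = 0 := padicValNat.eq_zero_of_not_dvd (by omega)
  have h0 : k ≠ 0 := by omega
  simp [mv, this, h0]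

theorem mv_even (i : ZMod 3) (k : ℕ) : mv i (2 * k) ↔ mv (i + 1) k := by
  rcases Nat.eq_zero_or_pos k with rfl | h
  · simp [mv]
  · have : padicValNat 2 (2 * k) = 1 + padicValNat 2 k := by
      rw [padicValNat.mul (by norm_num) h.ne']; simp
    simp [mv, this, add_assoc]

theorem p_ft' (i : ZMod 3) (w : List Bool) (h : p w + 1 < w.length) :
    p (ft i w) ≠ p w ↔ mv i ((p w + 1) / 2) := by
  induction w generalizing i with
  | nil => simp at h
  | cons x w ih =>
    cases x
    · have hw : w ≠ [] := by rintro rfl; simp at h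
      rw [mv_odd _ _ (by simp only [p]; omega)]
      simp only [ft]
      split_ifs with hi
      · simp [hi]
      · have := p_fa w hw
        simp only [p, ne_eq, hi, not_false_eq_true, iff_true]; omega
    · have e : (p (true :: w) + 1) / 2 = 2 * ((p w + 1) / 2) := by simp only [p]; omega
      rw [e, mv_even]
      by_cases h0 : p w = 0
      · have := p_ft (i + 1) w
        simp only [ft, p, h0, mv]
        simp only [h0] at this
        simp; omega
      · rw [← ih (i + 1) (by simp only [p, List.length_cons] at h; omega)]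
        simp only [ft, p]; omega

section
variable {k : Type} [Field k] (ω : k)

open Classical in
noncomputable def lam (j : ℕ) : k := (if mv 0 j then 1 else 0) + ω * (if mv 1 j then 1 else 0)

theorem lam_zero : lam ω 0 = 0 := by simp [lam, mv]

theorem lam_ne (h0 : ω ≠ 0) (h1 : 1 + ω ≠ 0) (j : ℕ) : lam ω (j + 1) ≠ 0 := by
  unfold lam
  have : ∀ v : ZMod 3, 0 + v ≠ 2 ∨ 1 + v ≠ 2 := by decide
  by_cases a : mv 0 (j + 1) <;> by_cases b : mv 1 (j + 1)
  · simpa [a, b] using h1
  · simp [a, b]
  · simpa [a, b] using h0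
  · exfalso
    rcases this (padicValNat 2 (j + 1) : ZMod 3) with h | h
    · exact a ⟨by omega, h⟩
    · exact b ⟨by omega, h⟩

noncomputable def u : ℕ → k
  | 0 => 1
  | 1 => 1 / lam ω 1 - 1
  | j + 2 => (u (j + 1) - lam ω (j + 1) * (u j + u (j + 1))) / lam ω (j + 2) - u (j + 1)

theorem u_rec (h0 : ω ≠ 0) (h1 : 1 + ω ≠ 0) (j : ℕ) :
    u ω j = lam ω j * (u ω (j - 1) + u ω j) + lam ω (j + 1) * (u ω j + u ω (j + 1)) := by
  have := lam_ne ω h0 h1 j
  cases j with
  | zero => simp only [u, lam_zero, zero_add] at this ⊢; field_simp; ring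
  | succ j => simp only [u, Nat.add_sub_cancel]; field_simp; ring

noncomputable def f (w : List Bool) : k := u ω (p w / 2)

theorem f_ft [CharP k 2] (i : ZMod 3) (w : List Bool) (h : p w + 1 < w.length) :
    f ω w + f ω (ft i w) = (open Classical in if mv i ((p w + 1) / 2) then 1 else 0) *
      (u ω ((p w + 1) / 2 - 1) + u ω ((p w + 1) / 2)) := by
  have h1 := p_ft' i w h
  split_ifs with hm
  · have h2 := h1.2 hm
    rw [one_mul, f, f]
    rcases p_ft i w with h3 | h3 | h3
    · exact absurd h3 h2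
    · congr 2 <;> omega
    · rw [add_comm]; congr 2 <;> omega
  · have : p (ft i w) = p w := by tauto
    rw [f, f, this, zero_mul, CharTwo.add_self_eq_zero]

theorem f_y [CharP k 2] (w : List Bool) (h : p w + 1 < w.length) :
    (f ω w + f ω (ft 0 w)) + ω * (f ω w + f ω (ft 1 w)) =
      lam ω ((p w + 1) / 2) * (u ω ((p w + 1) / 2 - 1) + u ω ((p w + 1) / 2)) := by
  rw [f_ft ω 0 w h, f_ft ω 1 w h, lam]; ring

theorem f_x [CharP k 2] (h0 : ω ≠ 0) (h1 : 1 + ω ≠ 0) (w : List Bool) (h : p w + 2 < w.length) :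
    f ω w = ((f ω w + f ω (ft 0 w)) + ω * (f ω w + f ω (ft 1 w))) +
      ((f ω (fa w) + f ω (ft 0 (fa w))) + ω * (f ω (fa w) + f ω (ft 1 (fa w)))) := by
  have hw : w ≠ [] := by rintro rfl; simp at h
  have h2 := p_fa w hw
  rw [f_y ω w (by omega), f_y ω (fa w) (by rw [len_fa]; omega), f, u_rec ω h0 h1]
  rcases h2 with h2 | h2
  · have e1 : (p w + 1) / 2 = p w / 2 := by omega
    have e2 : (p (fa w) + 1) / 2 = p w / 2 + 1 := by omega
    rw [e1, e2]; rfl
  · have e1 : (p w + 1) / 2 = p w / 2 + 1 := by omega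
    have e2 : (p (fa w) + 1) / 2 = p w / 2 := by omega
    rw [e1, e2, add_comm]; rfl

end

theorem bound (g : Equiv.Perm (List Bool)) (hg : g ∈ Grig) :
    ∃ C, ∀ w, (g w).length = w.length ∧ p (g w) ≤ p w + C := by
  have ha : ∀ w, (fa w).length = w.length ∧ p (fa w) ≤ p w + 1 := fun w => ⟨len_fa w, by
    by_cases h : w = []
    · subst h; simp [fa]
    · have := p_fa w h; omega⟩
  have ht : ∀ i w, (ft i w).length = w.length ∧ p (ft i w) ≤ p w + 1 := fun i w =>
    ⟨len_ft i w, by have := p_ft i w; omega⟩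
  induction hg using Subgroup.closure_induction'' with
  | mem x hx =>
    rcases hx with rfl | rfl | rfl | rfl
    exacts [⟨1, ha⟩, ⟨1, ht 0⟩, ⟨1, ht 1⟩, ⟨1, ht 2⟩]
  | inv_mem x hx =>
    rcases hx with rfl | rfl | rfl | rfl
    exacts [⟨1, ha⟩, ⟨1, ht 0⟩, ⟨1, ht 1⟩, ⟨1, ht 2⟩]
  | one => exact ⟨0, fun w => ⟨rfl, le_rfl⟩⟩
  | mul x y _ _ hx hy =>
    obtain ⟨C, hC⟩ := hx
    obtain ⟨D, hD⟩ := hy
    refine ⟨C + D, fun w => ⟨(hC _).1.trans (hD w).1, ?_⟩⟩
    have := (hC (y w)).2
    have := (hD w).2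
    show p (x (y w)) ≤ _
    omega

abbrev K := AlgebraicClosure (ZMod 2)
abbrev R := MonoidAlgebra (ZMod 2) Grig

noncomputable def rho : Grig →* Module.End (ZMod 2) (List Bool → K) where
  toFun g := LinearMap.funLeft (ZMod 2) K fun w => g.1⁻¹ w
  map_one' := rfl
  map_mul' _ _ := rfl

def M : Type := List Bool → K
noncomputable instance : AddCommGroup M := inferInstanceAs (AddCommGroup (List Bool → K))
noncomputable instance : Module R M :=
  Module.compHom (List Bool → K) (MonoidAlgebra.lift (ZMod 2) _ Grig rho).toRingHom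

theorem of_smul (g : Grig) (F : M) (w : List Bool) :
    (MonoidAlgebra.of (ZMod 2) Grig g • F) w = F (g.1⁻¹ w) := by
  show (MonoidAlgebra.lift (ZMod 2) _ Grig rho (MonoidAlgebra.of (ZMod 2) Grig g)) F w = _
  rw [MonoidAlgebra.lift_of]; rfl

noncomputable def N : Submodule R M where
  carrier := {F | ∀ n, ∃ L, ∀ w : List Bool, L ≤ w.length → p w ≤ n → F w = 0}
  zero_mem' := fun _ => ⟨0, fun _ _ _ => rfl⟩
  add_mem' := by
    intro F G hF hG n
    obtain ⟨L, hL⟩ := hF n
    obtain ⟨L', hL'⟩ := hG n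
    refine ⟨L + L', fun w h1 h2 => ?_⟩
    show F w + G w = 0
    rw [hL w (by omega) h2, hL' w (by omega) h2, add_zero]
  smul_mem' := by
    intro r F hF
    induction r using MonoidAlgebra.induction_on with
    | of g =>
      intro n
      obtain ⟨C, hC⟩ := bound _ (g⁻¹).2
      obtain ⟨L, hL⟩ := hF (n + C)
      refine ⟨L, fun w h1 h2 => ?_⟩
      rw [of_smul]
      have := hC w
      exact hL _ (by rw [← this.1] at h1; exact h1) (this.2.trans (by omega))
    | add x y hx hy =>
      intro n
      obtain ⟨L, hL⟩ := hx n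
      obtain ⟨L', hL'⟩ := hy n
      refine ⟨L + L', fun w h1 h2 => ?_⟩
      rw [add_smul]
      show (x • F) w + (y • F) w = 0
      rw [hL w (by omega) h2, hL' w (by omega) h2, add_zero]
    | smul c x hx =>
      intro n
      obtain ⟨L, hL⟩ := hx n
      refine ⟨L, fun w h1 h2 => ?_⟩
      have : ∀ c : ZMod 2, c = 0 ∨ c = 1 := by decide
      rcases this c with rfl | rfl
      · rw [zero_smul, zero_smul]; rfl
      · rw [one_smul]; exact hL w h1 h2

theorem main : Ring.jacobson R ≠
    RingHom.ker (MonoidAlgebra.lift (ZMod 2) (ZMod 2) Grig 1) := by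
  intro hJ
  obtain ⟨ω, hω⟩ : ∃ ω : K, ω * ω = 1 + ω := by
    obtain ⟨ω, h⟩ := IsAlgClosed.exists_root (Polynomial.X ^ 2 - Polynomial.X - 1 : Polynomial K)
      (by
        have : (Polynomial.X ^ 2 - Polynomial.X - 1 : Polynomial K).degree = 2 := by
          compute_degree!
        rw [this]; decide)
    refine ⟨ω, ?_⟩
    simp only [Polynomial.IsRoot.def, Polynomial.eval_sub, Polynomial.eval_pow, Polynomial.eval_X,
      Polynomial.eval_one] at h
    linear_combination h
  have h0 : ω ≠ 0 := by rintro rfl; simp at hω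
  have h1 : 1 + ω ≠ 0 := by rw [← hω]; exact mul_ne_zero h0 h0
  let a : Grig := ⟨fa_inv.toPerm fa, Subgroup.subset_closure (by simp)⟩
  let b : Grig := ⟨(ft_inv 0).toPerm _, Subgroup.subset_closure (by simp)⟩
  let c : Grig := ⟨(ft_inv 1).toPerm _, Subgroup.subset_closure (by simp)⟩
  let F : M := f ω
  let F' : M := fun w => ω * f ω w
  let e : Grig → R := fun g => 1 + MonoidAlgebra.of (ZMod 2) Grig g
  have he : ∀ g (G : M) w, (e g • G) w = G w + G (g.1⁻¹ w) := by
    intro g G w
    simp only [e, add_smul, one_smul]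
    show G w + _ = _
    rw [of_smul]
  have hea : e a ∈ Ring.jacobson R := by
    rw [hJ, RingHom.mem_ker, map_add, map_one, MonoidAlgebra.lift_of]
    decide
  let U : Submodule R (M ⧸ N) := Submodule.span R {N.mkQ F, N.mkQ F'}
  have hF : N.mkQ F ∈ U := Submodule.subset_span (by simp)
  have hF' : N.mkQ F' ∈ U := Submodule.subset_span (by simp)
  have hU : U = ⊥ := by
    refine Submodule.FG.eq_bot_of_le_jacobson_smul (Submodule.fg_span (Set.toFinite _)) ?_
    rw [Submodule.span_le]
    rintro _ (rfl | rfl)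
    · have : N.mkQ F = e a • (e b • N.mkQ F + e c • N.mkQ F') := by
        rw [← map_smul, ← map_smul, ← map_add, ← map_smul]
        refine (Submodule.Quotient.eq N).2 fun n => ⟨n + 3, fun w hw hp => ?_⟩
        show F w - (e a • (e b • F + e c • F')) w = 0
        rw [he]
        show F w - ((e b • F) w + (e c • F') w + ((e b • F) (fa w) + (e c • F') (fa w))) = 0
        simp only [he]
        have := f_x ω h0 h1 w (by omega)
        show f ω w - ((f ω w + f ω (ft 0 w)) + (ω * f ω w + ω * f ω (ft 1 w)) +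
          ((f ω (fa w) + f ω (ft 0 (fa w))) + (ω * f ω (fa w) + ω * f ω (ft 1 (fa w))))) = 0
        linear_combination this
      rw [this]
      exact Submodule.smul_mem_smul hea (U.add_mem (U.smul_mem _ hF) (U.smul_mem _ hF'))
    · have : N.mkQ F' = e a • (e b • N.mkQ F' + e c • (N.mkQ F + N.mkQ F')) := by
        rw [← map_add, ← map_smul, ← map_smul, ← map_add, ← map_smul]
        refine (Submodule.Quotient.eq N).2 fun n => ⟨n + 3, fun w hw hp => ?_⟩
        show F' w - (e a • (e b • F' + e c • (F + F'))) w = 0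
        rw [he]
        show F' w - ((e b • F') w + (e c • (F + F')) w +
          ((e b • F') (fa w) + (e c • (F + F')) (fa w))) = 0
        simp only [he]
        have := f_x ω h0 h1 w (by omega)
        show ω * f ω w - ((ω * f ω w + ω * f ω (ft 0 w)) + ((f ω w + ω * f ω w) +
          (f ω (ft 1 w) + ω * f ω (ft 1 w))) +
          ((ω * f ω (fa w) + ω * f ω (ft 0 (fa w))) + ((f ω (fa w) + ω * f ω (fa w)) +
            (f ω (ft 1 (fa w)) + ω * f ω (ft 1 (fa w)))))) = 0
        linear_combination ω * this +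
          (f ω w + f ω (ft 1 w) + f ω (fa w) + f ω (ft 1 (fa w))) * hω
      rw [this]
      exact Submodule.smul_mem_smul hea
        (U.add_mem (U.smul_mem _ hF') (U.smul_mem _ (U.add_mem hF hF')))
  rw [hU, Submodule.mem_bot, Submodule.mkQ_apply, Submodule.Quotient.mk_eq_zero] at hF
  obtain ⟨L, hL⟩ := hF 0
  have hp : p (List.replicate L true) = 0 := by
    clear hL
    induction L with
    | zero => rfl
    | succ L ih => simp [List.replicate_succ, p, ih]
  have := hL (List.replicate L true) (by simp) hp.le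
  simp [F, f, hp, u] at this

end Pool.Agent.H70.GrigJac
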