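import Pool.Agent.H70.GrigTor

set_option autoImplicit false

namespace Pool.Agent.H70.GrigUU

open Pool.Agent.H70.GrigDefs Pool.Agent.H70.GrigJac

variable {K : Type} [Field K]

noncomputable def rho (K : Type) [Field K] : Grig →* Module.End K (List Bool → K) where
  toFun g := LinearMap.funLeft K K fun w => g.1⁻¹ w
  map_one' := rfl
  map_mul' _ _ := rfl

def Q (L j : ℕ) (F : List Bool → K) (c : K) : Prop :=
  ∀ w : List Bool, w.length = L → (p w < 2 * j → F w = 0) ∧ (p w = 2 * j → F w = c)

theorem step (ω : K) (U : Module.End K (List Bool → K))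
    (hU : ∀ F w, U F w = F (fa w) + ((F (fa w) + F (ft 0 (fa w))) +
      ω * (F (fa w) + F (ft 1 (fa w))))) {L j : ℕ} (hL : 2 * j + 3 < L)
    {F : List Bool → K} {c : K} (h : Q L (j + 1) F c) : Q L j (U F) (lam ω (j + 1) * c) := by
  intro w hw
  have hne : w ≠ [] := by rintro rfl; simp at hw; omega
  have h1 := p_fa w hne
  have hl := (len_fa w).trans hw
  constructor
  · intro hp
    have h2 := p_ft 0 (fa w)
    have h3 := p_ft 1 (fa w)
    rw [hU, (h _ hl).1 (by omega), (h _ ((len_ft _ _).trans hl)).1 (by omega),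
      (h _ ((len_ft _ _).trans hl)).1 (by omega)]
    simp
  · intro hp
    have key : ∀ i, F (ft i (fa w)) = (open Classical in if mv i (j + 1) then 1 else 0) * c := by
      intro i
      have h2 := p_ft i (fa w)
      have h3 := p_ft' i (fa w) (by omega)
      rw [show (p (fa w) + 1) / 2 = j + 1 by omega] at h3
      split_ifs with hm
      · have := h3.2 hm
        rw [(h _ ((len_ft _ _).trans hl)).2 (by omega), one_mul]
      · have : p (ft i (fa w)) = p (fa w) := by tauto
        rw [(h _ ((len_ft _ _).trans hl)).1 (by omega), zero_mul]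
    rw [hU, (h _ hl).1 (by omega), key, key, lam]
    ring

theorem not_nil (ω : K) (h0 : ω ≠ 0) (h1 : 1 + ω ≠ 0) (U : Module.End K (List Bool → K))
    (hU : ∀ F w, U F w = F (fa w) + ((F (fa w) + F (ft 0 (fa w))) +
      ω * (F (fa w) + F (ft 1 (fa w))))) (i : ℕ) (hi : 1 ≤ i) : ¬ IsNilpotent (U ^ i - 1) := by
  rintro ⟨m, hm⟩
  set L := 2 * (i * m) + 4
  have s1 : ∀ k j F c, j + k ≤ i * m → c ≠ 0 → Q L (j + k) F c →
      ∃ c' ≠ 0, Q L j ((U ^ k) F) c' := by
    intro k
    induction k with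
    | zero => intro j F c _ hc h; exact ⟨c, hc, h⟩
    | succ k ih =>
      intro j F c hj hc h
      obtain ⟨c', hc', h'⟩ := ih (j + 1) F c (by omega) hc (by rwa [add_right_comm])
      rw [pow_succ']
      exact ⟨_, mul_ne_zero (lam_ne ω h0 h1 j) hc', step ω U hU (by omega) h'⟩
  have s2 : ∀ k j F c, j + i * k ≤ i * m → c ≠ 0 → Q L (j + i * k) F c →
      ∃ c' ≠ 0, Q L j (((U ^ i - 1) ^ k) F) c' := by
    intro k
    induction k with
    | zero => intro j F c _ hc h; exact ⟨c, hc, h⟩
    | succ k ih =>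
      intro j F c hj hc h
      have e : j + i * (k + 1) = j + i + i * k := by ring
      obtain ⟨c', hc', h'⟩ := ih (j + i) F c (by omega) hc (by rwa [← e])
      obtain ⟨c'', hc'', h''⟩ := s1 i j _ c' (by nlinarith) hc' h'
      refine ⟨c'', hc'', fun w hw => ?_⟩
      rw [pow_succ', Module.End.mul_apply, LinearMap.sub_apply, Pi.sub_apply,
        Module.End.one_apply]
      refine ⟨fun hp => ?_, fun hp => ?_⟩
      · rw [(h'' w hw).1 hp, (h' w hw).1 (by omega), sub_zero]
      · rw [(h'' w hw).2 hp, (h' w hw).1 (by omega), sub_zero]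
  obtain ⟨c, hc, h⟩ := s2 m 0 (fun w => if p w = 2 * (i * m) then 1 else 0) 1 (by omega)
    one_ne_zero (fun w _ => ⟨fun hp => if_neg (by omega), fun hp => if_pos (by omega)⟩)
  have hp : ∀ L, p (List.replicate L true) = 0 := by
    intro L
    induction L with
    | zero => rfl
    | succ L ih => simp [List.replicate_succ, p, ih]
  have := (h (List.replicate L true) (by simp)).2 (hp L)
  rw [hm] at this
  exact hc this.symm

theorem main [CharP K 2] (ω : K) (h0 : ω ≠ 0) (h1 : 1 + ω ≠ 0) :
    ∃ u : (MonoidAlgebra K Grig)ˣ, ∀ i, 1 ≤ i →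
      ¬ IsNilpotent ((u : MonoidAlgebra K Grig) ^ i - 1) := by
  let a : Grig := ⟨fa_inv.toPerm fa, Subgroup.subset_closure (by simp)⟩
  let b : Grig := ⟨(ft_inv 0).toPerm _, Subgroup.subset_closure (by simp)⟩
  let c : Grig := ⟨(ft_inv 1).toPerm _, Subgroup.subset_closure (by simp)⟩
  have hb : b * b = 1 := Subtype.ext (Equiv.ext (ft_inv 0))
  have hc : c * c = 1 := Subtype.ext (Equiv.ext (ft_inv 1))
  have hbc : c * b = b * c := Subtype.ext (Equiv.ext fun w => by
    show ft 1 (ft 0 w) = ft 0 (ft 1 w)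
    simp only [(GrigTor.ft_g _).1, (GrigTor.ft_g _).2.1, GrigTor.g_ad]
    rfl)
  set B := MonoidAlgebra.of K Grig b
  set C := MonoidAlgebra.of K Grig c
  have hB : B * B = 1 := by rw [← map_mul, hb, map_one]
  have hC : C * C = 1 := by rw [← map_mul, hc, map_one]
  have hBC : C * B = B * C := by rw [← map_mul, hbc, map_mul]
  have two : (2 : K) = 0 := CharTwo.two_eq_zero
  have hy : (1 + ((1 + B) + ω • (1 + C))) * (1 + ((1 + B) + ω • (1 + C))) = 1 := by
    have : (1 + ((1 + B) + ω • (1 + C))) * (1 + ((1 + B) + ω • (1 + C))) =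
      1 + (2 : K) • (2 + 2 * B + ω • (2 + 2 * C + B + B * C) + (ω * ω) • (1 + C)) := by
      simp only [mul_add, add_mul, smul_add, mul_smul_comm, smul_mul_assoc, hB, hC, hBC, mul_one,
        one_mul, smul_smul, two_mul, ← one_add_one_eq_two (R := MonoidAlgebra K Grig)]
      module
    rw [this, two, zero_smul, add_zero]
  refine ⟨(MonoidAlgebra.of K Grig).toHomUnits a * ⟨_, _, hy, hy⟩, fun i hi hn => ?_⟩
  have := hn.map (MonoidAlgebra.lift K _ Grig (rho K))
  rw [map_sub, map_pow, map_one] at this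
  refine not_nil ω h0 h1 _ (fun F w => ?_) i hi this
  simp only [Units.val_mul, MonoidHom.coe_toHomUnits, map_mul, map_add, map_one, map_smul, B, C,
    MonoidAlgebra.lift_of]
  rfl

end Pool.Agent.H70.GrigUU
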