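import Mathlib

set_option autoImplicit false

namespace Pool.Agent.H70.HomRep

universe u

open Cardinal

variable {K : Type u} [CommRing K]

abbrev XX (G : Type u) := G × (G × ℕ)

def L (G : Type u) [Group G] : G →* Equiv.Perm (XX G) where
  toFun g := Equiv.prodCongr (Equiv.mulLeft g) (Equiv.refl _)
  map_one' := by ext <;> simp
  map_mul' g h := by ext <;> simp [mul_assoc]

theorem L_apply {G : Type u} [Group G] (g : G) (x : XX G) : L G g x = (g * x.1, x.2) := rfl

theorem exists_e {G H : Type u} [Group G] [Group H] (b : H →* G) (hb : Function.Injective b) :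
    ∃ e : H × (G × ℕ) ≃ XX G, ∀ h h' y, e (h * h', y) = L G (b h) (e (h', y)) := by
  have bij : Function.Bijective fun p : H × (G ⧸ b.range) => b p.1 * (p.2.out)⁻¹ := by
    constructor
    · rintro ⟨h, q⟩ ⟨h', q'⟩ e
      simp only at e
      have : q = q' := by
        rw [← q.out_eq, ← q'.out_eq]
        refine QuotientGroup.eq.2 ⟨h⁻¹ * h', ?_⟩
        rw [map_mul, map_inv, inv_mul_eq_iff_eq_mul, ← mul_assoc, e]; simp
      subst this
      rw [hb (mul_right_cancel e)]
    · intro g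
      obtain ⟨⟨_, h, rfl⟩, e⟩ := QuotientGroup.mk_out_eq_mul b.range g⁻¹
      exact ⟨(h, (g⁻¹ : G)), by simp [e]⟩
  obtain ⟨c⟩ : Nonempty ((G × ℕ) ≃ (G ⧸ b.range) × (G × ℕ)) := by
    rw [← Cardinal.eq, mk_prod (G ⧸ b.range), lift_id, lift_id, mul_eq_right (aleph0_le_mk _) _
      (mk_ne_zero _)]
    exact (mk_le_of_surjective QuotientGroup.mk_surjective).trans
      (mk_le_of_injective (f := fun g => (g, 0)) fun _ _ h => (Prod.ext_iff.1 h).1)
  refine ⟨((Equiv.prodCongr (Equiv.refl H) c).trans (Equiv.prodAssoc _ _ _).symm).trans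
    (Equiv.prodCongr (Equiv.ofBijective _ bij) (Equiv.refl _)), fun h h' y => ?_⟩
  simp [L_apply, mul_assoc]

def P (K : Type u) [CommRing K] (X D : Type u) [AddCommGroup D] [Module K D] :
    Equiv.Perm X →* ((X → D) ≃ₗ[K] (X → D)) where
  toFun π := LinearEquiv.funCongrLeft K D π⁻¹
  map_one' := rfl
  map_mul' _ _ := rfl

theorem P_apply {X D : Type u} [AddCommGroup D] [Module K D] (π : Equiv.Perm X) (F : X → D)
    (x : X) : P K X D π F x = F (π⁻¹ x) := rfl

theorem extend {G H W D : Type u} [Group G] [Group H] [AddCommGroup W] [Module K W]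
    [AddCommGroup D] [Module K D] [hD : Module.Injective K D] (b1 b2 : H →* G)
    (hb : Function.Injective b2) (j1 j2 : W →ₗ[K] (XX G → D)) (hj : Function.Injective j1)
    (hc : ∀ h w, ∃ w', j1 w' = P K _ D (L G (b1 h)) (j1 w) ∧ j2 w' = P K _ D (L G (b2 h)) (j2 w)) :
    ∃ f : (XX G → D) →ₗ[K] (XX G → D), (∀ w, f (j1 w) = j2 w) ∧
      ∀ h m, f (P K _ D (L G (b1 h)) m) = P K _ D (L G (b2 h)) (f m) := by
  obtain ⟨e, he⟩ := exists_e b2 hb
  choose fy hfy using fun y => hD.out j1 hj ((LinearMap.proj (e (1, y))).comp j2)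
  refine ⟨LinearMap.pi fun x => (fy (e.symm x).2).comp
    (P K _ D (L G (b1 (e.symm x).1⁻¹))).toLinearMap, fun w => ?_, fun h m => ?_⟩
  · funext x
    obtain ⟨⟨h, y⟩, rfl⟩ := e.surjective x
    obtain ⟨w', h1, h2⟩ := hc h⁻¹ w
    simp only [LinearMap.pi_apply, Equiv.symm_apply_apply, LinearMap.comp_apply,
      LinearEquiv.coe_coe]
    rw [← h1, hfy, LinearMap.comp_apply, h2, LinearMap.proj_apply, P_apply, ← map_inv, ← map_inv,
      inv_inv, ← he, mul_one]
  · funext x
    obtain ⟨⟨k, y⟩, rfl⟩ := e.surjective x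
    rw [P_apply, ← map_inv, ← map_inv, ← he]
    simp only [LinearMap.pi_apply, Equiv.symm_apply_apply, LinearMap.comp_apply,
      LinearEquiv.coe_coe]
    rw [← LinearEquiv.mul_apply, ← map_mul, ← map_mul, ← map_mul]
    simp

def tw {M : Type u} [AddCommGroup M] [Module K M] (φ : M ≃ₗ[K] M) (f g : M →ₗ[K] M) :
    (M × M) ≃ₗ[K] (M × M) where
  toFun p := (φ p.2 + f p.1, φ (p.1 - g (φ p.2 + f p.1)))
  invFun p := (φ.symm p.2 + g p.1, φ.symm (p.1 - f (φ.symm p.2 + g p.1)))
  map_add' p q := by ext <;> simp <;> abel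
  map_smul' r p := by ext <;> simp [smul_sub]
  left_inv p := by ext <;> simp
  right_inv p := by ext <;> simp

structure Rp (K : Type u) [CommRing K] where
  G : Type u
  V : Type u
  [grp : Group G]
  [acg : AddCommGroup V]
  [mod : Module K V]
  ρ : Representation K G V

attribute [instance] Rp.grp Rp.acg Rp.mod

structure Emb (A B : Rp K) where
  a : A.V →ₗ[K] B.V
  b : A.G →* B.G
  ha : Function.Injective a
  hb : Function.Injective b
  comp : ∀ g v, a (A.ρ g v) = B.ρ (b g) (a v)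

def Good {A B : Rp K} (E : Emb A B) : Prop :=
  ∀ (H W : Type u) [Group H] [AddCommGroup W] [Module K W] (b1 b2 : H →* A.G)
    (a1 a2 : W →ₗ[K] A.V), Function.Injective b1 → Function.Injective b2 →
    Function.Injective a1 → Function.Injective a2 →
    (∀ h w, ∃ w', a1 w' = A.ρ (b1 h) (a1 w) ∧ a2 w' = A.ρ (b2 h) (a2 w)) →
    ∃ t : B.G, (∀ h, t * E.b (b1 h) * t⁻¹ = E.b (b2 h)) ∧ ∀ w, B.ρ t (E.a (a1 w)) = E.a (a2 w)

theorem step (A : Rp K) : ∃ (B : Rp K) (E : Emb A B), Good E := by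
  obtain ⟨D, _, _, hD, ι, hι⟩ : ∃ (D : Type u) (_ : AddCommGroup D) (_ : Module K D)
      (_ : Module.Injective K D) (ι : A.V →ₗ[K] D), Function.Injective ι :=
    ⟨(CategoryTheory.Injective.under (ModuleCat.of K A.V)).carrier, inferInstance, inferInstance,
      Module.injective_module_of_injective_object _ _
        (inj := CategoryTheory.Injective.injective_under (ModuleCat.of K A.V)),
      (CategoryTheory.Injective.ι (ModuleCat.of K A.V)).hom,
      (ModuleCat.mono_iff_injective _).1 inferInstance⟩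
  let j : A.V →ₗ[K] (XX A.G → D) := LinearMap.pi fun x => ι.comp (A.ρ x.1⁻¹)
  have hj : Function.Injective j := by
    intro v w h
    have := congrFun h (1, 1, 0)
    simpa [j, hι.eq_iff] using this
  have hjc : ∀ g v, j (A.ρ g v) = P K _ D (L _ g) (j v) := by
    intro g v
    funext x
    rw [P_apply, ← map_inv, L_apply]
    simp [j]
  let B : Rp K :=
    { G := (((XX A.G → D) × (XX A.G → D)) ≃ₗ[K] ((XX A.G → D) × (XX A.G → D))) ×
        Equiv.Perm (XX A.G)
      V := (XX A.G → D) × (XX A.G → D)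
      ρ := LinearEquiv.automorphismGroup.toLinearMapMonoidHom.comp (MonoidHom.fst _ _) }
  let b : A.G →* B.G := MonoidHom.prod
    { toFun := fun g => (P K _ D (L _ g)).prodCongr (P K _ D (L _ g))
      map_one' := by ext <;> simp
      map_mul' := fun g h => by ext <;> simp } (L _)
  refine ⟨B, ⟨(LinearMap.inl K _ _).comp j, b, LinearMap.inl_injective.comp hj, ?_, ?_⟩, ?_⟩
  · intro g h e
    have : g * 1 = h * 1 := congrArg (fun z : B.G => (z.2 (1, 1, 0)).1) e
    simpa using this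
  · intro g v
    show (j (A.ρ g v), (0 : XX A.G → D)) = (P K _ D (L _ g) (j v), P K _ D (L _ g) 0)
    rw [hjc, map_zero]
  · intro H W _ _ _ b1 b2 a1 a2 hb1 hb2 ha1 ha2 hc
    obtain ⟨f, hf, hf'⟩ := extend b1 b2 hb2 (j.comp a1) (j.comp a2) (hj.comp ha1) (fun h w => by
      obtain ⟨w', h1, h2⟩ := hc h w
      exact ⟨w', by simp [h1, hjc], by simp [h2, hjc]⟩)
    obtain ⟨g, hg, hg'⟩ := extend b2 b1 hb1 (j.comp a2) (j.comp a1) (hj.comp ha2) (fun h w => by
      obtain ⟨w', h1, h2⟩ := hc h w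
      exact ⟨w', by simp [h2, hjc], by simp [h1, hjc]⟩)
    obtain ⟨e1, he1⟩ := exists_e b1 hb1
    obtain ⟨e2, he2⟩ := exists_e b2 hb2
    let τ : Equiv.Perm (XX A.G) := e1.symm.trans e2
    have hτ : ∀ h, τ * L _ (b1 h) = L _ (b2 h) * τ := by
      intro h
      ext1 x
      obtain ⟨⟨k, y⟩, rfl⟩ := e1.surjective x
      rw [Equiv.Perm.mul_apply, ← he1]
      simp [τ, he2]
    have hφ : ∀ h m, P K _ D τ (P K _ D (L _ (b1 h)) m) = P K _ D (L _ (b2 h)) (P K _ D τ m) := by
      intro h m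
      rw [← LinearEquiv.mul_apply, ← map_mul, hτ, map_mul, LinearEquiv.mul_apply]
    refine ⟨(tw (P K _ D τ) f g, τ), fun h => ?_, fun w => ?_⟩
    · rw [mul_inv_eq_iff_eq_mul]
      refine Prod.ext ?_ (hτ h)
      refine LinearEquiv.ext fun p => ?_
      show tw (P K _ D τ) f g (P K _ D (L _ (b1 h)) p.1, P K _ D (L _ (b1 h)) p.2) =
        (P K _ D (L _ (b2 h)) (tw (P K _ D τ) f g p).1, P K _ D (L _ (b2 h)) (tw (P K _ D τ) f g p).2)
      simp only [tw, LinearEquiv.coe_mk, LinearMap.coe_mk, AddHom.coe_mk]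
      rw [hφ, hf', ← map_add, hg', ← map_sub, hφ]
    · show tw (P K _ D τ) f g (j (a1 w), 0) = (j (a2 w), 0)
      have h1 := hf w
      have h2 := hg w
      simp only [LinearMap.comp_apply] at h1 h2
      simp [tw, h1, h2]

end Pool.Agent.H70.HomRep
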