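import Mathlib

set_option autoImplicit false

namespace Pool.Agent.H70.HomRepDefs

universe u

variable {K G V : Type u} [CommRing K] [Group G] [AddCommGroup V] [Module K V]

/-- `(W, H)` is a finitely generated subrepresentation: `H` is a finitely generated subgroup and
`W` is the `KH`-submodule generated by a finite set `s`, i.e. the `K`-span of `H · s`. -/
def IsFGSub (ρ : Representation K G V) (W : Submodule K V) (H : Subgroup G) : Prop :=
  H.FG ∧ ∃ s : Finset V, W = Submodule.span K {x | ∃ h ∈ H, ∃ v ∈ s, x = ρ h v}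

/-- Every isomorphism of finitely generated subrepresentations extends to an automorphism. -/
def Homogeneous (ρ : Representation K G V) : Prop :=
  ∀ (W₁ W₂ : Submodule K V) (H₁ H₂ : Subgroup G), IsFGSub ρ W₁ H₁ → IsFGSub ρ W₂ H₂ →
    ∀ (α : W₁ ≃ₗ[K] W₂) (β : H₁ ≃* H₂),
      (∀ (h : H₁) (w w' : W₁), (w' : V) = ρ h w → (α w' : V) = ρ (β h) (α w)) →
      ∃ (α' : V ≃ₗ[K] V) (β' : G ≃* G), (∀ g v, α' (ρ g v) = ρ (β' g) (α' v)) ∧
        (∀ w : W₁, α' w = α w) ∧ ∀ h : H₁, β' h = β h

end Pool.Agent.H70.HomRepDefs
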