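import Pool.Agent.H70.HomRep1
import Pool.Agent.H70.HomRepDefs

set_option autoImplicit false

namespace Pool.Agent.H70.HomRep

universe u

open Pool.Agent.H70.HomRepDefs

variable {K : Type u} [CommRing K]

def Emb.refl (A : Rp K) : Emb A A :=
  ⟨LinearMap.id, MonoidHom.id _, Function.injective_id, Function.injective_id, fun _ _ => rfl⟩

def Emb.trans {A B C : Rp K} (E : Emb A B) (F : Emb B C) : Emb A C :=
  ⟨F.a.comp E.a, F.b.comp E.b, F.ha.comp E.ha, F.hb.comp E.hb, fun g v => by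
    simp [E.comp, F.comp]⟩

section
variable (S : ℕ → Rp K) (E : ∀ n, Emb (S n) (S (n + 1)))

def tr (m n : ℕ) (h : m ≤ n) : Emb (S m) (S n) :=
  Nat.leRecOn h (@fun k g => g.trans (E k)) (Emb.refl _)

theorem tr_self (m : ℕ) : tr S E m m le_rfl = Emb.refl _ := Nat.leRecOn_self _

theorem tr_succ (m n : ℕ) (h : m ≤ n) :
    tr S E m (n + 1) (h.trans n.le_succ) = (tr S E m n h).trans (E n) :=
  Nat.leRecOn_succ h _

theorem tr_trans (i j k : ℕ) (h1 : i ≤ j) (h2 : j ≤ k) :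
    (tr S E i j h1).trans (tr S E j k h2) = tr S E i k (h1.trans h2) := by
  induction h2 with
  | refl => rw [tr_self]; rfl
  | step h ih => rw [tr_succ S E _ _ h, tr_succ S E _ _ (h1.trans h), ← ih]; rfl

def fG (m n : ℕ) (h : m ≤ n) : (S m).G →* (S n).G := (tr S E m n h).b
def fV (m n : ℕ) (h : m ≤ n) : (S m).V →ₗ[K] (S n).V := (tr S E m n h).a

instance : DirectedSystem (fun n => (S n).G) (fG S E · · ·) :=
  ⟨fun _ _ => by simp only [fG, tr_self]; rfl,
    fun _ _ _ h1 h2 _ => by simp only [fG, ← tr_trans S E _ _ _ h1 h2]; rfl⟩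

instance : DirectedSystem (fun n => (S n).V) (fV S E · · ·) :=
  ⟨fun _ _ => by simp only [fV, tr_self]; rfl,
    fun _ _ _ h1 h2 _ => by simp only [fV, ← tr_trans S E _ _ _ h1 h2]; rfl⟩

abbrev GG := DirectLimit (fun n => (S n).G) (fG S E)
abbrev VL := DirectLimit (fun n => (S n).V) (fV S E)

noncomputable def act : GG S E → VL S E → VL S E :=
  DirectLimit.map₂ (fG S E) (fV S E) (fV S E) (fun n g v => (S n).ρ g v)
    fun i j h g v => (tr S E i j h).comp g v

theorem act_def (n : ℕ) (g : (S n).G) (v : (S n).V) :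
    act S E ⟦⟨n, g⟩⟧ ⟦⟨n, v⟩⟧ = ⟦⟨n, (S n).ρ g v⟩⟧ := DirectLimit.map₂_def ..

theorem ex2 (g : GG S E) (v : VL S E) : ∃ n x y, g = ⟦⟨n, x⟩⟧ ∧ v = ⟦⟨n, y⟩⟧ := by
  obtain ⟨i, x, rfl⟩ := DirectLimit.exists_eq_mk _ g
  obtain ⟨j, y, rfl⟩ := DirectLimit.exists_eq_mk _ v
  exact ⟨max i j, _, _, DirectLimit.eq_of_le _ _ (le_max_left _ _),
    DirectLimit.eq_of_le _ _ (le_max_right _ _)⟩

noncomputable def iG (n : ℕ) : (S n).G →* GG S E :=
  MonoidHom.mk' (fun g => ⟦⟨n, g⟩⟧) fun _ _ => (DirectLimit.mul_def ..).symm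

noncomputable def iV (n : ℕ) : (S n).V →ₗ[K] VL S E where
  toFun v := ⟦⟨n, v⟩⟧
  map_add' _ _ := (DirectLimit.add_def ..).symm
  map_smul' _ _ := (DirectLimit.smul_def ..).symm

theorem iG_f (m n : ℕ) (h : m ≤ n) (g : (S m).G) : iG S E n (fG S E m n h g) = iG S E m g :=
  DirectLimit.mk_apply ..
theorem iV_f (m n : ℕ) (h : m ≤ n) (g : (S m).V) : iV S E n (fV S E m n h g) = iV S E m g :=
  DirectLimit.mk_apply ..

theorem rG_mono : Monotone fun n => (iG S E n).range := by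
  rintro m n h _ ⟨g, rfl⟩
  exact ⟨_, iG_f S E m n h g⟩
theorem rV_mono : Monotone fun n => (iV S E n).range := by
  rintro m n h _ ⟨g, rfl⟩
  exact ⟨_, iV_f S E m n h g⟩

theorem exG (g : GG S E) : ∃ n, g ∈ (iG S E n).range := by
  obtain ⟨i, x, rfl⟩ := DirectLimit.exists_eq_mk _ g
  exact ⟨i, x, rfl⟩
theorem exV (g : VL S E) : ∃ n, g ∈ (iV S E n).range := by
  obtain ⟨i, x, rfl⟩ := DirectLimit.exists_eq_mk _ g
  exact ⟨i, x, rfl⟩

theorem act_i (n : ℕ) (g : (S n).G) (v : (S n).V) :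
    act S E (iG S E n g) (iV S E n v) = iV S E n ((S n).ρ g v) := act_def S E n g v

theorem ex4 (g h : GG S E) (v w : VL S E) : ∃ n x x' y y', g = iG S E n x ∧ h = iG S E n x' ∧
    v = iV S E n y ∧ w = iV S E n y' := by
  obtain ⟨a, ha⟩ := exG S E g
  obtain ⟨b, hb⟩ := exG S E h
  obtain ⟨c, hc⟩ := exV S E v
  obtain ⟨d, hd⟩ := exV S E w
  obtain ⟨x, rfl⟩ := rG_mono S E (show a ≤ a + b + c + d by omega) ha
  obtain ⟨x', rfl⟩ := rG_mono S E (show b ≤ a + b + c + d by omega) hb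
  obtain ⟨y, rfl⟩ := rV_mono S E (show c ≤ a + b + c + d by omega) hc
  obtain ⟨y', rfl⟩ := rV_mono S E (show d ≤ a + b + c + d by omega) hd
  exact ⟨_, x, x', y, y', rfl, rfl, rfl, rfl⟩

noncomputable def rho : Representation K (GG S E) (VL S E) where
  toFun g :=
    { toFun := act S E g
      map_add' := fun v w => by
        obtain ⟨n, x, -, y, y', rfl, -, rfl, rfl⟩ := ex4 S E g g v w
        rw [← map_add, act_i, act_i, act_i, map_add, map_add]
      map_smul' := fun r v => by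
        obtain ⟨n, x, -, y, -, rfl, -, rfl, -⟩ := ex4 S E g g v v
        rw [← map_smul, act_i, act_i, map_smul, map_smul]; rfl }
  map_one' := by
    refine LinearMap.ext fun v => ?_
    obtain ⟨n, y, rfl⟩ := exV S E v
    show act S E 1 (iV S E n y) = iV S E n y
    rw [← map_one (iG S E n), act_i]; simp
  map_mul' g h := by
    refine LinearMap.ext fun v => ?_
    obtain ⟨n, x, x', y, -, rfl, rfl, rfl, -⟩ := ex4 S E g h v v
    show act S E (iG S E n x * iG S E n x') (iV S E n y) =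
      act S E (iG S E n x) (act S E (iG S E n x') (iV S E n y))
    rw [← map_mul, act_i, act_i, act_i]; simp

theorem rho_i (n : ℕ) (g : (S n).G) (v : (S n).V) :
    rho S E (iG S E n g) (iV S E n v) = iV S E n ((S n).ρ g v) := act_def S E n g v

theorem iG_inj (n : ℕ) : Function.Injective (iG S E n) :=
  DirectLimit.mk_injective (fG S E) (fun i j h => (tr S E i j h).hb) n
theorem iV_inj (n : ℕ) : Function.Injective (iV S E n) :=
  DirectLimit.mk_injective (fV S E) (fun i j h => (tr S E i j h).ha) n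

theorem fg_stage {W : Submodule K (VL S E)} {H : Subgroup (GG S E)} (h : IsFGSub (rho S E) W H) :
    ∃ n, ∀ m, n ≤ m → H ≤ (iG S E m).range ∧ W ≤ (iV S E m).range := by
  obtain ⟨⟨t, rfl⟩, s, rfl⟩ := h
  choose a ha using exG S E
  choose c hc using exV S E
  refine ⟨t.sup a + s.sup c, fun m hm => ?_⟩
  have h1 : Subgroup.closure (t : Set (GG S E)) ≤ (iG S E m).range := by
    rw [Subgroup.closure_le]
    intro g hg
    exact rG_mono S E ((Finset.le_sup (f := a) hg).trans (by omega)) (ha g)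
  refine ⟨h1, ?_⟩
  rw [Submodule.span_le]
  rintro _ ⟨g, hg, v, hv, rfl⟩
  obtain ⟨x, rfl⟩ := h1 hg
  obtain ⟨y, rfl⟩ := rV_mono S E ((Finset.le_sup (f := c) hv).trans (show _ ≤ m by omega)) (hc v)
  exact ⟨_, (rho_i S E m x y).symm⟩

theorem inv_mem {G V : Type u} [Group G] [AddCommGroup V] [Module K V] {ρ : Representation K G V}
    {W : Submodule K V} {H : Subgroup G} (h : IsFGSub ρ W H) (g : H) (w : W) : ρ g w ∈ W := by
  obtain ⟨-, s, rfl⟩ := h
  obtain ⟨w, hw⟩ := w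
  refine (Submodule.span_le (p := Submodule.comap (ρ g)
    (Submodule.span K {x | ∃ h ∈ H, ∃ v ∈ s, x = ρ h v}))).2 ?_ hw
  rintro _ ⟨k, hk, v, hv, rfl⟩
  exact Submodule.subset_span ⟨g * k, H.mul_mem g.2 hk, v, hv, by simp⟩

theorem homog (hE : ∀ n, Good (E n)) : Homogeneous (rho S E) := by
  intro W1 W2 H1 H2 h1 h2 α β hc
  obtain ⟨n1, hn1⟩ := fg_stage S E h1
  obtain ⟨n2, hn2⟩ := fg_stage S E h2
  obtain ⟨g1, v1⟩ := hn1 (n1 + n2) (by omega)
  obtain ⟨g2, v2⟩ := hn2 (n1 + n2) (by omega)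
  generalize n1 + n2 = n at *
  have liftG : ∀ b : H1 →* GG S E, (∀ h, b h ∈ (iG S E n).range) →
      ∃ b' : H1 →* (S n).G, ∀ h, iG S E n (b' h) = b h := fun b hb =>
    ⟨(MonoidHom.ofInjective (iG_inj S E n)).symm.toMonoidHom.comp (b.codRestrict _ hb),
      fun h => MonoidHom.apply_ofInjective_symm (iG_inj S E n) _⟩
  have liftV : ∀ a : W1 →ₗ[K] VL S E, (∀ h, a h ∈ (iV S E n).range) →
      ∃ a' : W1 →ₗ[K] (S n).V, ∀ h, iV S E n (a' h) = a h := fun a ha =>
    ⟨(LinearEquiv.ofInjective _ (iV_inj S E n)).symm.toLinearMap.comp (a.codRestrict _ ha),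
      fun h => LinearEquiv.ofInjective_symm_apply (h := iV_inj S E n) _ _⟩
  obtain ⟨b1, hb1⟩ := liftG H1.subtype fun h => g1 h.2
  obtain ⟨b2, hb2⟩ := liftG (H2.subtype.comp β.toMonoidHom) fun h => g2 (β h).2
  obtain ⟨a1, ha1⟩ := liftV W1.subtype fun h => v1 h.2
  obtain ⟨a2, ha2⟩ := liftV (W2.subtype.comp α.toLinearMap) fun h => v2 (α h).2
  replace hb1 : ∀ h : H1, iG S E n (b1 h) = h := hb1
  replace hb2 : ∀ h : H1, iG S E n (b2 h) = β h := hb2
  replace ha1 : ∀ h : W1, iV S E n (a1 h) = h := ha1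
  replace ha2 : ∀ h : W1, iV S E n (a2 h) = α h := ha2
  obtain ⟨t, ht, ht'⟩ := hE n H1 W1 b1 b2 a1 a2
    (fun x y e => Subtype.ext (by rw [← hb1, ← hb1, e]))
    (fun x y e => β.injective (Subtype.ext (by rw [← hb2, ← hb2, e])))
    (fun x y e => Subtype.ext (by rw [← ha1, ← ha1, e]))
    (fun x y e => α.injective (Subtype.ext (by rw [← ha2, ← ha2, e])))
    (fun h w => ⟨⟨_, inv_mem h1 h w⟩, iV_inj S E n (by rw [← rho_i, ha1, ha1, hb1]),
      iV_inj S E n (by rw [← rho_i, ha2, ha2, hb2]; exact hc h w _ rfl)⟩)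
  have eG : ∀ g, iG S E (n + 1) ((E n).b g) = iG S E n g := fun g => by
    rw [← iG_f S E n (n + 1) n.le_succ, fG, tr_succ S E n n le_rfl, tr_self]; rfl
  have eV : ∀ g, iV S E (n + 1) ((E n).a g) = iV S E n g := fun g => by
    rw [← iV_f S E n (n + 1) n.le_succ, fV, tr_succ S E n n le_rfl, tr_self]; rfl
  refine ⟨LinearEquiv.ofLinear (rho S E (iG S E (n + 1) t)) (rho S E (iG S E (n + 1) t)⁻¹)
    (by rw [← Module.End.mul_eq_comp, ← map_mul]; simp [Module.End.one_eq_id])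
    (by rw [← Module.End.mul_eq_comp, ← map_mul]; simp [Module.End.one_eq_id]),
    MulAut.conj (iG S E (n + 1) t), fun g v => ?_, fun w => ?_, fun h => ?_⟩
  · simp only [LinearEquiv.ofLinear_apply, MulAut.conj_apply]
    rw [← Module.End.mul_apply, ← Module.End.mul_apply, ← map_mul, ← map_mul]
    simp
  · rw [LinearEquiv.ofLinear_apply, ← ha1, ← eV, rho_i, ht', eV, ha2]
  · rw [MulAut.conj_apply, ← hb1, ← eG, ← map_inv, ← map_mul, ← map_mul, ht, eG, hb2]

end

theorem lim (S : ℕ → Rp K) (E : ∀ n, Emb (S n) (S (n + 1))) (hE : ∀ n, Good (E n)) :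
    ∃ (B : Rp K) (_ : Emb (S 0) B), Homogeneous B.ρ :=
  ⟨⟨GG S E, VL S E, rho S E⟩,
    ⟨iV S E 0, iG S E 0, iV_inj S E 0, iG_inj S E 0, fun g v => (rho_i S E 0 g v).symm⟩,
    homog S E hE⟩

theorem main (A : Rp K) : ∃ (B : Rp K) (_ : Emb A B), Homogeneous B.ρ := by
  choose nx e he using step (K := K)
  exact lim (fun n => Nat.rec A (fun _ => nx) n) (fun n => e _) (fun n => he _)

end Pool.Agent.H70.HomRep
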