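import Pool.Agent.H70.HtDefs

namespace Pool.Agent.H70.Ht
open FreeGroup Finset
open scoped symmDiff Pointwise ComplexConjugate

abbrev F2 : Type := FreeGroup Bool

def fl (g : F2) : Option (Bool × Bool) := g.toWord.head?

lemma norm_fl {a b : F2} (h : fl a ≠ fl b) : (a⁻¹ * b).norm = a.norm + b.norm := by
  have hr : IsReduced (invRev a.toWord ++ b.toWord) := by
    refine List.isChain_append.2 ⟨?_, isReduced_toWord, ?_⟩
    · rw [← toWord_inv]; exact isReduced_toWord
    · intro x hx y hy hxy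
      by_contra hc
      apply h
      unfold fl
      rw [Option.mem_def] at hx hy
      rw [hy]
      simp only [invRev, List.getLast?_reverse, List.head?_map, Option.map_eq_some_iff] at hx
      obtain ⟨z, hz, rfl⟩ := hx
      rw [hz]
      congr 1
      obtain ⟨y1, y2⟩ := y
      obtain ⟨z1, z2⟩ := z
      simp only at hxy hc
      subst hxy
      cases y2 <;> cases z2 <;> simp_all
  unfold FreeGroup.norm
  rw [toWord_mul, toWord_inv, hr.reduce_eq]; simp

lemma fl_some {a : F2} {x} (h : fl a = some x) : ∃ a', a = mk [x] * a' ∧ a'.norm + 1 ≤ a.norm := by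
  unfold fl at h
  rcases hw : a.toWord with _ | ⟨y, l⟩
  · simp [hw] at h
  · simp only [hw, List.head?_cons, Option.some.injEq] at h
    subst h
    refine ⟨mk l, ?_, ?_⟩
    · rw [mul_mk, ← mk_toWord (x := a), hw]; rfl
    · have := norm_mk_le (L₁ := l)
      have e : a.norm = l.length + 1 := by unfold FreeGroup.norm; rw [hw]; rfl
      omega

lemma fl_eq {a b : F2} (h : fl a = fl b) (hb : b ≠ 1) : (a⁻¹ * b).norm + 2 ≤ a.norm + b.norm := by
  rcases hx : fl b with _ | x
  · exact absurd (toWord_eq_nil_iff.1 (List.head?_eq_none_iff.1 hx)) hb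
  · obtain ⟨a', rfl, h1⟩ := fl_some (h.trans hx)
    obtain ⟨b', rfl, h2⟩ := fl_some hx
    have := norm_mul_le a'⁻¹ b'
    rw [norm_inv_eq] at this
    have e : (mk [x] * a')⁻¹ * (mk [x] * b') = a'⁻¹ * b' := by group
    rw [e]; omega

lemma ball_fin (n : ℕ) : {g : F2 | g.norm ≤ n}.Finite :=
  (List.finite_length_le (Bool × Bool) n).preimage toWord_injective.injOn

lemma geo (u : F2) {j : ℕ} (hj : j < u.norm) : ∃ g : F2, g.norm = j ∧ fl g⁻¹ ≠ fl (g⁻¹ * u) := by
  set g := mk (u.toWord.take j)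
  have e : g⁻¹ * u = mk (u.toWord.drop j) := by
    rw [inv_mul_eq_iff_eq_mul, mul_mk, List.take_append_drop, mk_toWord]
  have h1 : g.norm ≤ j := norm_mk_le.trans (by simp)
  have h2 : (g⁻¹ * u).norm ≤ u.norm - j := by
    rw [e]; exact norm_mk_le.trans (by simp [FreeGroup.norm])
  have h3 := norm_mul_le g (g⁻¹ * u)
  rw [mul_inv_cancel_left] at h3
  refine ⟨g, by omega, fun h => ?_⟩
  have := fl_eq h (fun h0 => by rw [h0, FreeGroup.norm_one] at h3; omega)
  rw [inv_inv, mul_inv_cancel_left, norm_inv_eq] at this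
  omega

def lt (x : Bool × Bool) : F2 := mk [x]

lemma lt_fl (x) : fl (lt x) = some x := by simp [fl, lt]
lemma lt_norm (x) : (lt x).norm = 1 := by simp [FreeGroup.norm, lt]
lemma lt_inv (x : Bool × Bool) : (lt x)⁻¹ = lt (x.1, !x.2) := by simp [lt, inv_mk, invRev]

lemma drift (p : F2) : 4 * p.norm + 2 ≤ ∑ x, (p * lt x).norm := by
  have h1 : ∀ x, p.norm ≤ (p * lt x).norm + 1 := fun x => by
    have := norm_mul_le (p * lt x) (lt x)⁻¹
    rwa [mul_inv_cancel_right, norm_inv_eq, lt_norm] at this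
  have h2 : ∀ x, fl p⁻¹ ≠ some x → (p * lt x).norm = p.norm + 1 := fun x hx => by
    have := norm_fl (a := p⁻¹) (b := lt x) (by rwa [lt_fl])
    rwa [inv_inv, norm_inv_eq, lt_norm] at this
  simp only [Fintype.sum_prod_type, Fintype.sum_bool]
  have a1 := h1 (true, true); have a2 := h1 (true, false)
  have a3 := h1 (false, true); have a4 := h1 (false, false)
  have b1 := h2 (true, true); have b2 := h2 (true, false)
  have b3 := h2 (false, true); have b4 := h2 (false, false)
  rcases h : fl p⁻¹ with _ | ⟨_ | _, _ | _⟩ <;> simp [h] at b1 b2 b3 b4 <;> omega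

/-- The lamplighter group over the free group of rank two. -/
@[ext] structure W where
  S : Finset F2
  p : F2

noncomputable instance : DecidableEq F2 := Classical.decEq _

noncomputable instance : Group W where
  mul a b := ⟨a.S ∆ (a.p • b.S), a.p * b.p⟩
  one := ⟨∅, 1⟩
  inv a := ⟨a.p⁻¹ • a.S, a.p⁻¹⟩
  mul_assoc a b c := by
    refine W.ext ?_ (mul_assoc a.p b.p c.p)
    change (a.S ∆ (a.p • b.S)) ∆ ((a.p * b.p) • c.S) = a.S ∆ (a.p • (b.S ∆ (b.p • c.S)))
    rw [smul_finset_symmDiff, symmDiff_assoc, mul_smul]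
  one_mul a := by
    refine W.ext ?_ (one_mul a.p)
    change (∅ : Finset F2) ∆ ((1 : F2) • a.S) = a.S
    rw [one_smul]; exact bot_symmDiff _
  mul_one a := by
    refine W.ext ?_ (mul_one a.p)
    change a.S ∆ (a.p • (∅ : Finset F2)) = a.S
    rw [smul_finset_empty]; exact symmDiff_bot _
  inv_mul_cancel a := by
    refine W.ext ?_ (inv_mul_cancel a.p)
    change (a.p⁻¹ • a.S) ∆ (a.p⁻¹ • a.S) = ∅
    exact symmDiff_self _

@[simp] lemma mul_S (a b : W) : (a * b).S = a.S ∆ (a.p • b.S) := rfl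
@[simp] lemma mul_p (a b : W) : (a * b).p = a.p * b.p := rfl
@[simp] lemma one_S : (1 : W).S = ∅ := rfl
@[simp] lemma one_p : (1 : W).p = 1 := rfl
@[simp] lemma inv_S (a : W) : a⁻¹.S = a.p⁻¹ • a.S := rfl
@[simp] lemma inv_p (a : W) : a⁻¹.p = a.p⁻¹ := rfl

instance : Countable W :=
  Function.Injective.countable (f := fun a : W => (a.S, a.p)) fun a b h => by
    simp only [Prod.mk.injEq] at h; exact W.ext h.1 h.2

instance : Infinite W :=
  Infinite.of_injective (fun p : F2 => (⟨∅, p⟩ : W)) fun a b h => congrArg W.p h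

def V (g : F2) (a : W) : Option (Bool × Bool) × Set F2 :=
  (fl (g⁻¹ * a.p), {h | h ∈ a.S ∧ fl (g⁻¹ * h) ≠ fl (g⁻¹ * a.p)})

lemma V_iff (g : F2) (a b : W) : V g a = V g b ↔ fl (g⁻¹ * a.p) = fl (g⁻¹ * b.p) ∧
    ∀ h, fl (g⁻¹ * h) ≠ fl (g⁻¹ * a.p) → (h ∈ a.S ↔ h ∈ b.S) := by
  simp only [V, Prod.mk.injEq, Set.ext_iff, Set.mem_setOf_eq]
  refine and_congr_right fun e => forall_congr' fun h => ?_
  rw [← e]; tauto

lemma V_mul (g : F2) (k a b : W) : V (k.p * g) (k * a) = V (k.p * g) (k * b) ↔ V g a = V g b := by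
  rw [V_iff, V_iff]
  have e : ∀ h, (k.p * g)⁻¹ * (k.p * h) = g⁻¹ * h := fun h => by group
  simp only [mul_p, mul_S, e]
  refine and_congr_right fun _ => ?_
  rw [← (Equiv.mulLeft k.p).forall_congr_right]
  refine forall_congr' fun h => ?_
  simp only [Equiv.coe_mulLeft, e, mem_symmDiff]
  have : ∀ T : Finset F2, k.p * h ∈ k.p • T ↔ h ∈ T := fun T => smul_mem_smul_finset_iff k.p
  simp only [this]
  tauto

def Dif (a b : W) : Set F2 := {g | V g a ≠ V g b}

lemma dif_one (c : W) (g : F2) : g ∈ Dif 1 c ↔ ∃ u ∈ insert c.p c.S, fl g⁻¹ ≠ fl (g⁻¹ * u) := by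
  simp only [Dif, Set.mem_setOf_eq, ne_eq, V_iff, one_p, mul_one, one_S, notMem_empty, mem_insert,
    exists_eq_or_imp, false_iff]
  push Not
  constructor
  · intro h
    by_cases e : fl g⁻¹ = fl (g⁻¹ * c.p)
    · obtain ⟨u, h1, h2⟩ := h e
      exact Or.inr ⟨u, h2, h1.symm⟩
    · exact Or.inl e
  · rintro (h | ⟨u, h1, h2⟩) e
    · exact absurd e h
    · exact ⟨u, h2.symm, h1⟩

lemma dif_fin1 (c : W) : (Dif 1 c).Finite := by
  refine (ball_fin ((insert c.p c.S).sup FreeGroup.norm)).subset fun g hg => ?_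
  obtain ⟨u, hu, h⟩ := (dif_one c g).1 hg
  have := norm_fl h
  rw [inv_inv, mul_inv_cancel_left, norm_inv_eq] at this
  exact le_trans (by omega : g.norm ≤ u.norm) (le_sup (f := FreeGroup.norm) hu)

lemma dif_img (a b : W) : Dif a b = (a.p * ·) '' Dif 1 (a⁻¹ * b) := by
  ext g
  have := V_mul (a.p⁻¹ * g) a 1 (a⁻¹ * b)
  simp only [mul_inv_cancel_left, mul_one] at this
  simp [Dif, this]

lemma dif_fin (a b : W) : (Dif a b).Finite := by rw [dif_img]; exact (dif_fin1 _).image _

lemma dif_card (a b : W) : (Dif 1 (a⁻¹ * b)).ncard = (Dif a b).ncard := by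
  rw [dif_img a b, Set.ncard_image_of_injective _ (mul_right_injective _)]

lemma nd_ind {n : ℕ} {Y : Type} [DecidableEq Y] (v : Fin n → Y) (b : Fin n → ℂ) (hb : ∑ i, b i = 0) :
    (∑ i, ∑ j, conj (b i) * b j * (if v i = v j then 0 else 1)).re ≤ 0 := by
  have e : ∑ i, ∑ j, conj (b i) * b j * (if v i = v j then 0 else 1) =
      conj (∑ i, b i) * (∑ i, b i) - ∑ y ∈ univ.image v, conj (∑ i, if v i = y then b i else 0) *
        (∑ i, if v i = y then b i else 0) := by
    simp only [map_sum, sum_mul_sum]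
    rw [sum_comm (s := univ.image v), ← sum_sub_distrib]
    refine sum_congr rfl fun i _ => ?_
    rw [sum_comm (s := univ.image v), ← sum_sub_distrib]
    refine sum_congr rfl fun j _ => ?_
    rw [sum_eq_single (v i) (fun y _ hy => by simp [hy.symm]) (by simp)]
    by_cases h : v i = v j
    · simp [h]
    · simp [h, Ne.symm h]
  rw [e, hb]
  simp only [mul_zero, zero_sub, Complex.neg_re, Complex.re_sum, neg_nonpos]
  exact sum_nonneg fun y _ => by
    rw [← Complex.normSq_eq_conj_mul_self, Complex.ofReal_re]; exact Complex.normSq_nonneg _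

theorem haagerup : Haagerup W := by
  classical
  refine ⟨fun c => (Dif 1 c).ncard, ⟨fun _ => by positivity, by simp [Dif], fun g => ?_,
    fun n g b hb => ?_⟩, fun s => ?_⟩
  · have := dif_card g 1
    rw [mul_one] at this
    simp only [this]
    congr 2; ext; simp [Dif, eq_comm]
  · obtain ⟨T, hT⟩ : ∃ T : Finset F2, ∀ i j, Dif (g i) (g j) ⊆ T :=
      ⟨(Set.finite_iUnion fun q : Fin n × Fin n => dif_fin (g q.1) (g q.2)).toFinset,
        fun i j x hx => by simpa using ⟨i, j, hx⟩⟩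
    have e : ∀ i j, (((Dif 1 ((g i)⁻¹ * g j)).ncard : ℝ) : ℂ) =
        ∑ x ∈ T, if V x (g i) = V x (g j) then 0 else 1 := fun i j => by
      have : Dif (g i) (g j) = ↑(T.filter fun x => ¬ V x (g i) = V x (g j)) := by
        ext x; simpa [Dif] using fun h => hT i j h
      rw [dif_card, this, Set.ncard_coe_finset, card_filter]
      push_cast
      exact sum_congr rfl fun x _ => by split_ifs <;> simp
    simp only [e, mul_sum]
    rw [sum_congr rfl fun i _ => sum_comm, sum_comm, Complex.re_sum]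
    exact sum_nonpos fun x _ => nd_ind (fun i => V x (g i)) b hb
  · obtain ⟨n, hn⟩ := exists_nat_ge s
    have key : ∀ c : W, ((Dif 1 c).ncard : ℝ) ≤ s → ∀ u ∈ insert c.p c.S, u.norm ≤ n := by
      intro c hc u hu
      have h1 : (Dif 1 c).ncard ≤ n := by exact_mod_cast hc.trans hn
      have h2 : (Set.Iio u.norm) ⊆ FreeGroup.norm '' Dif 1 c := fun j hj => by
        obtain ⟨g, rfl, h⟩ := geo u hj
        exact ⟨g, (dif_one c g).2 ⟨u, hu, h⟩, rfl⟩
      have h3 := (Set.ncard_le_ncard h2 ((dif_fin1 c).image _)).trans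
        (Set.ncard_image_le (dif_fin1 c))
      rw [Set.ncard_Iio_nat] at h3
      omega
    refine Set.Finite.of_finite_image (f := fun a : W => (a.S, a.p)) (Set.Finite.subset
      (((ball_fin n).toFinset.powerset.finite_toSet).prod (ball_fin n)) ?_) fun a _ b _ h => by
        simp only [Prod.mk.injEq] at h; exact W.ext h.1 h.2
    rintro _ ⟨c, hc, rfl⟩
    refine ⟨?_, key c hc _ (mem_insert_self _ _)⟩
    simp only [coe_powerset, Set.mem_preimage, Set.mem_powerset_iff, Set.Finite.coe_toFinset]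
    exact fun u hu => key c hc u (mem_insert_of_mem hu)

end Pool.Agent.H70.Ht
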