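import Pool.Agent.H70.HtDefs

namespace Pool.Agent.H70.Ht
open Finset
open scoped ComplexConjugate InnerProductSpace

variable {G : Type} [Group G]

lemma nd_real {d : G → ℝ} (hd : ND0 d) {ι : Type} [Fintype ι] (g : ι → G) (b : ι → ℝ)
    (hb : ∑ i, b i = 0) : ∑ i, ∑ j, b i * b j * d ((g i)⁻¹ * g j) ≤ 0 := by
  have e := (Fintype.equivFin ι).symm
  have := hd.2.2.2 _ (g ∘ e) (fun i => b (e i))
    (by rw [e.sum_comp (fun i => (b i : ℂ))]; exact_mod_cast hb)
  simp only [Function.comp, Complex.conj_ofReal, Complex.re_sum, ← Complex.ofReal_mul,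
    Complex.ofReal_re] at this
  rw [← e.sum_comp]
  refine le_of_eq_of_le (sum_congr rfl fun i _ => ?_) this
  rw [← e.sum_comp]

lemma nd_tri {d : G → ℝ} (hd : ND0 d) (g h : G) : d (g * h⁻¹) ≤ 2 * d g + 2 * d h := by
  have := nd_real hd ![1, g⁻¹, h⁻¹] ![-2, 1, 1] (by simp [Fin.sum_univ_three]; norm_num)
  have e : d (h * g⁻¹) = d (g * h⁻¹) := by rw [← hd.2.2.1]; simp
  simp [Fin.sum_univ_three, hd.2.1, hd.2.2.1, e] at this
  linarith

def Wd (I : Type) : ℕ → Type
  | 0 => Unit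
  | k + 1 => Wd I k × I

instance wdF (I : Type) [Fintype I] : ∀ k, Fintype (Wd I k)
  | 0 => (inferInstance : Fintype Unit)
  | k + 1 => @instFintypeProd _ _ (wdF I k) _

def X {I : Type} (σ : I → G) : ∀ k, Wd I k → G
  | 0 => fun _ => 1
  | k + 1 => fun w => X σ k w.1 * σ w.2

variable {I : Type} [Fintype I] (σ : I → G)

def R (φ : G → ℝ) (g : G) : ℝ := ∑ i, φ (g * σ i)
def L (φ : G → ℝ) (g : G) : ℝ := ∑ i, φ ((σ i)⁻¹ * g)

lemma sumR (k : ℕ) (φ : G → ℝ) (g : G) : ∑ w, φ (g * X σ k w) = (R σ)^[k] φ g := by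
  induction k generalizing φ with
  | zero => change ∑ _ : Unit, φ (g * 1) = _; simp
  | succ k ih =>
    change ∑ w : Wd I k × I, φ (g * (X σ k w.1 * σ w.2)) = _
    rw [Fintype.sum_prod_type, Function.iterate_succ_apply, ← ih]
    simp [R, mul_assoc]

lemma sumL (k : ℕ) (φ : G → ℝ) (g : G) : ∑ w, φ ((X σ k w)⁻¹ * g) = (L σ)^[k] φ g := by
  induction k generalizing φ with
  | zero => change ∑ _ : Unit, φ (1⁻¹ * g) = _; simp
  | succ k ih =>
    change ∑ w : Wd I k × I, φ ((X σ k w.1 * σ w.2)⁻¹ * g) = _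
    rw [Fintype.sum_prod_type, Function.iterate_succ_apply, ← ih]
    simp [L, mul_assoc]

lemma LR (hs : ∀ φ : G → ℝ, ∑ i, φ (σ i)⁻¹ = ∑ i, φ (σ i)) (j : ℕ) (φ : G → ℝ) :
    (L σ)^[j] φ 1 = (R σ)^[j] φ 1 := by
  have c : Function.Commute (R σ) (L σ) := fun φ => by
    ext g; simp only [R, L, mul_assoc]; exact sum_comm
  induction j generalizing φ with
  | zero => rfl
  | succ j ih =>
    rw [Function.iterate_succ_apply, ih, (c.iterate_left j).eq, Function.iterate_succ_apply']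
    simp only [L, R, mul_one, one_mul]
    exact hs _

lemma card_wd (k : ℕ) : Fintype.card (Wd I k) = Fintype.card I ^ k := by
  induction k with
  | zero => rfl
  | succ k ih => change Fintype.card (Wd I k × I) = _; rw [Fintype.card_prod, ih, pow_succ]

theorem markov [Nonempty I] (hs : ∀ φ : G → ℝ, ∑ i, φ (σ i)⁻¹ = ∑ i, φ (σ i)) {d : G → ℝ}
    (hd : ND0 d) : ∃ c : ℝ, ∀ j : ℕ, (R σ)^[2 * j] d 1 ≤ (Fintype.card I : ℝ) ^ (2 * j) * (j * c) := by
  set n : ℝ := (Fintype.card I : ℝ) with hn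
  have n0 : 0 < n := by rw [hn]; exact_mod_cast Fintype.card_pos
  have dbl : ∀ j k, ∑ w, ∑ w', d ((X σ j w)⁻¹ * X σ k w') = (R σ)^[j + k] d 1 := fun j k => by
    simp only [sumR]
    rw [Function.iterate_add_apply, ← LR σ hs, ← sumL]; simp
  set c : ℕ → ℝ := fun k => (R σ)^[k] d 1 / n ^ k with hc
  have cv : ∀ j k, c (j + j) + c (k + k) ≤ 2 * c (j + k) := fun j k => by
    have := nd_real hd (Sum.elim (X σ j) (X σ k))
      (Sum.elim (fun _ => 1 / n ^ j) (fun _ => -(1 / n ^ k))) (by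
        simp only [Fintype.sum_sum_type, Sum.elim_inl, Sum.elim_inr, sum_const, card_univ, card_wd,
          nsmul_eq_mul]
        push_cast
        field_simp; ring)
    simp only [Fintype.sum_sum_type, Sum.elim_inl, Sum.elim_inr, sum_add_distrib, ← mul_sum,
      dbl] at this
    simp only [hc, pow_add]
    rw [add_comm k j] at this
    refine le_of_sub_nonpos (le_of_eq_of_le ?_ this)
    field_simp; ring
  have c0 : c 0 = 0 := by simp [hc, hd.2.1]
  have st : ∀ j, c (2 * (j + 1)) - c (2 * j) ≤ c 2 := fun j => by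
    induction j with
    | zero => simp [c0]
    | succ j ih =>
      have := cv j (j + 2)
      rw [show j + j = 2 * j by ring, show j + 2 + (j + 2) = 2 * (j + 1 + 1) by ring,
        show j + (j + 2) = 2 * (j + 1) by ring] at this
      linarith
  have fin : ∀ j : ℕ, c (2 * j) ≤ j * c 2 := fun j => by
    induction j with
    | zero => simp [c0]
    | succ j ih => have := st j; push_cast; linarith
  exact ⟨c 2, fun j => by have := fin j; rwa [hc, div_le_iff₀' (by positivity)] at this⟩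

instance i3 (G : Type) : CompleteSpace (L2 G) :=
  (inferInstance : CompleteSpace (lp (fun _ : G => ℂ) 2))

abbrev Op (G : Type) : Type := L2 G →L[ℂ] L2 G

def IsReg (Λ : G → Op G) : Prop := ∀ g h, Λ g (dirac h) = dirac (g * h)

noncomputable def Cr (Λ : G → Op G) : Submodule ℂ (Op G) :=
  (Submodule.span ℂ (Set.range Λ)).topologicalClosure

noncomputable def hat (x : Op G) (g : G) : ℂ := ⟪dirac g, x (dirac 1)⟫_ℂ

noncomputable def bas (G : Type) : HilbertBasis G ℂ (L2 G) :=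
  (default : HilbertBasis G ℂ (lp (fun _ : G => ℂ) 2))

open Classical in
omit [Group G] in
lemma b_eq (g : G) : bas G g = dirac g := by
  rw [← HilbertBasis.repr_symm_single]
  rfl

omit [Group G] in
lemma d_on : Orthonormal ℂ (dirac : G → L2 G) := by
  rw [← funext b_eq]; exact (bas G).orthonormal

open Classical in
lemma ex_reg : ∃ Λ : G → Op G, IsReg Λ := by
  have ho : ∀ g : G, Orthonormal ℂ fun h => (dirac (g * h) : L2 G) := fun g =>
    d_on.comp _ (mul_right_injective g)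
  refine ⟨fun g => (ho g).orthogonalFamily.linearIsometry.toContinuousLinearMap, fun g h => ?_⟩
  have := (ho g).orthogonalFamily.linearIsometry_apply_single (i := h) (1 : ℂ)
  exact this.trans (one_smul _ _)

omit [Group G] in
lemma op_ext {A B : Op G} (h : ∀ g, A (dirac g) = B (dirac g)) : A = B := by
  refine ContinuousLinearMap.ext_on (s := Set.range (bas G)) ?_
    (by rintro _ ⟨x, rfl⟩; rw [b_eq]; exact h x)
  rw [Submodule.dense_iff_topologicalClosure_eq_top]; exact (bas G).dense_span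

open Classical in
omit [Group G] in
lemma d_in (g h : G) : ⟪(dirac g : L2 G), dirac h⟫_ℂ = if g = h then 1 else 0 :=
  orthonormal_iff_ite.1 d_on g h

variable {Λ : G → Op G}

lemma IsReg.mul (hΛ : IsReg Λ) (g h : G) : Λ (g * h) = Λ g * Λ h :=
  op_ext fun k => by simp [hΛ _ _, mul_assoc]

lemma IsReg.one (hΛ : IsReg Λ) : Λ 1 = 1 := op_ext fun k => by simp [hΛ _ _]

lemma IsReg.star (hΛ : IsReg Λ) (g : G) : star (Λ g) = Λ g⁻¹ := op_ext fun h => by
  refine (bas G).repr.injective (lp.ext (funext fun k => ?_))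
  rw [HilbertBasis.repr_apply_apply, HilbertBasis.repr_apply_apply, b_eq,
    ContinuousLinearMap.star_eq_adjoint, ContinuousLinearMap.adjoint_inner_right, hΛ, hΛ]
  refine (d_in _ _).trans (Eq.trans ?_ (d_in _ _).symm)
  classical
  congr 1
  exact propext eq_inv_mul_iff_mul_eq.symm

lemma IsReg.flat (hΛ : IsReg Λ) {a : G} (ha : a * a = 1) : ‖1 + Complex.I • Λ a‖ ≤ √2 := by
  have h1 : a⁻¹ = a := inv_eq_of_mul_eq_one_right ha
  have h2 : Star.star (1 + Complex.I • Λ a) * (1 + Complex.I • Λ a) = (2 : ℂ) • 1 := by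
    rw [star_add, star_one, star_smul, hΛ.star, h1]
    simp only [add_mul, mul_add, one_mul, mul_one, smul_mul_assoc, mul_smul_comm, ← hΛ.mul, ha,
      hΛ.one, smul_smul, RCLike.star_def, Complex.conj_I, mul_neg, Complex.I_mul_I]
    match_scalars <;> simp [sq] <;> norm_num
  refine Real.le_sqrt_of_sq_le ?_
  rw [sq, ← CStarRing.norm_star_mul_self, h2, norm_smul]
  have : ‖(1 : Op G)‖ ≤ 1 := ContinuousLinearMap.norm_id_le
  simp only [Complex.norm_ofNat]
  linarith

lemma IsReg.low (hΛ : IsReg Λ) {A F : Finset G} (hA : ∀ a ∈ A, ∀ b ∈ A, a * b ∈ A) (hF : F ⊆ A)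
    (w : G → ℝ) : ∑ g ∈ F, w g ≤ ‖∑ g ∈ F, (w g : ℂ) • Λ g‖ := by
  classical
  rcases F.eq_empty_or_nonempty with rfl | ⟨a0, ha0⟩
  · simp
  set v : L2 G := ∑ a ∈ A, dirac a
  have hv : ∀ g ∈ A, Λ g v = v := fun g hg => by
    have : A.image (g * ·) = A := eq_of_subset_of_card_le
      (fun x hx => by obtain ⟨b, hb, rfl⟩ := mem_image.1 hx; exact hA g hg b hb)
      (card_image_of_injective _ (mul_right_injective g)).ge
    simp only [v, map_sum, hΛ _ _]
    conv_rhs => rw [← this, sum_image (mul_right_injective g).injOn]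
  have v0 : v ≠ 0 := fun h => by
    have := congrArg (fun y => ⟪(dirac a0 : L2 G), y⟫_ℂ) h
    simp [v, inner_sum, d_in, hF ha0] at this
  have e : (∑ g ∈ F, (w g : ℂ) • Λ g) v = ((∑ g ∈ F, w g : ℝ) : ℂ) • v := by
    rw [ContinuousLinearMap.sum_apply, Complex.ofReal_sum, sum_smul]
    exact sum_congr rfl fun g hg => by rw [ContinuousLinearMap.smul_apply, hv g (hF hg)]
  have := (∑ g ∈ F, (w g : ℂ) • Λ g).le_opNorm v
  rw [e, norm_smul, Complex.norm_real] at this
  exact (Real.le_norm_self _).trans (le_of_mul_le_mul_right this (norm_pos_iff.2 v0))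

lemma mem_cr (g : G) : Λ g ∈ Cr Λ :=
  Submodule.le_topologicalClosure _ (Submodule.subset_span ⟨g, rfl⟩)

instance : CompleteSpace (Cr Λ) := (Submodule.isClosed_topologicalClosure _).completeSpace_coe

open Classical in
theorem IsReg.key (hΛ : IsReg Λ) (w : G → ℝ) (φ : G → Cr Λ →L[ℂ] ℂ)
    (hφ : ∀ g h, φ g ⟨Λ h, mem_cr h⟩ = if g = h then (w g : ℂ) else 0)
    (hs : ∀ x, Summable fun g => φ g x • Λ g) :
    ∃ C, 0 < C ∧ ∀ (A : Finset G) (m : G → ℕ), (∀ a ∈ A, ∀ b ∈ A, a * b ∈ A) →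
      ∑ g ∈ A, w g ≤ C * ‖∑ g ∈ A, Complex.I ^ m g • Λ g‖ := by
  obtain ⟨C, hC⟩ := banach_steinhaus (g := fun F : Finset G => ∑ g ∈ F, (φ g).smulRight (Λ g))
    fun x => by
      obtain ⟨s, h⟩ := summable_iff_vanishing_norm.1 (hs x) 1 one_pos
      refine ⟨∑ g ∈ s, ‖φ g x • Λ g‖ + 1, fun F => ?_⟩
      simp only [ContinuousLinearMap.sum_apply, ContinuousLinearMap.smulRight_apply]
      rw [← sum_inter_add_sum_sdiff F s]
      refine (norm_add_le _ _).trans (add_le_add ((norm_sum_le _ _).trans ?_) (h _ sdiff_disjoint).le)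
      exact sum_le_sum_of_subset_of_nonneg inter_subset_right fun _ _ _ => norm_nonneg _
  have C0 : 0 ≤ C := (norm_nonneg _).trans (hC ∅)
  refine ⟨4 * C + 1, by positivity, fun A m hA => ?_⟩
  set x : Cr Λ := ∑ g ∈ A, Complex.I ^ m g • ⟨Λ g, mem_cr g⟩
  have hx : ‖∑ g ∈ A, Complex.I ^ m g • Λ g‖ = ‖x‖ := by
    rw [Submodule.coe_norm]; simp [x]
  have hp : ∀ g ∈ A, φ g x = Complex.I ^ m g * w g := fun g hg => by
    simp only [x, map_sum, map_smul, hφ]
    simp [hg]
  have h4 : ∀ r, ∑ g ∈ A with m g % 4 = r, w g ≤ C * ‖x‖ := fun r => by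
    refine (hΛ.low hA (filter_subset _ _) w).trans (le_trans (le_of_eq ?_)
      ((ContinuousLinearMap.le_of_opNorm_le _ (hC (A.filter fun g => m g % 4 = r)) x)))
    simp only [ContinuousLinearMap.sum_apply, ContinuousLinearMap.smulRight_apply]
    have : ∑ g ∈ A with m g % 4 = r, φ g x • Λ g =
        Complex.I ^ r • ∑ g ∈ A with m g % 4 = r, (w g : ℂ) • Λ g := by
      rw [smul_sum]
      exact sum_congr rfl fun g hg => by
        rw [hp g (mem_filter.1 hg).1, Complex.I_pow_eq_pow_mod, (mem_filter.1 hg).2, smul_smul]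
    rw [this, norm_smul]
    simp
  rw [hx, ← sum_fiberwise_of_maps_to (t := range 4) (g := fun g => m g % 4)
    fun g _ => mem_range.2 (Nat.mod_lt _ (by norm_num))]
  refine (sum_le_sum fun r _ => h4 r).trans ?_
  simp only [sum_const, card_range, nsmul_eq_mul]
  have := norm_nonneg x
  push_cast
  nlinarith

end Pool.Agent.H70.Ht
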