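import Pool.Agent.H70.Ht1
import Pool.Agent.H70.Ht2

namespace Pool.Agent.H70.Ht
open Finset
open scoped symmDiff Pointwise InnerProductSpace

def lamp (T : Finset F2) : W := ⟨T, 1⟩

lemma lamp_mul (T T' : Finset F2) : lamp T * lamp T' = lamp (T ∆ T') :=
  W.ext (by simp [lamp]) (by simp [lamp])

lemma lamp_inj : Function.Injective lamp := fun _ _ h => congrArg W.S h

lemma sd_ins {x : F2} {T : Finset F2} (h : x ∉ T) : T ∆ {x} = insert x T := by
  ext y; simp only [mem_symmDiff, mem_singleton, mem_insert]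
  by_cases e : y = x
  · subst e; simp [h]
  · simp [e]

lemma flatS {Λ : W → Op W} (hΛ : IsReg Λ) (S : Finset F2) :
    ‖∑ T ∈ S.powerset, Complex.I ^ T.card • Λ (lamp T)‖ ≤ √2 ^ S.card := by
  induction S using Finset.induction_on with
  | empty =>
    have : ‖(1 : Op W)‖ ≤ 1 := ContinuousLinearMap.norm_id_le
    simpa [show lamp ∅ = 1 from rfl, hΛ.one] using this
  | insert x S hx ih =>
    have e : ∑ T ∈ (insert x S).powerset, Complex.I ^ T.card • Λ (lamp T) =
        (∑ T ∈ S.powerset, Complex.I ^ T.card • Λ (lamp T)) * (1 + Complex.I • Λ (lamp {x})) := by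
      rw [sum_powerset_insert hx, mul_add, mul_one, sum_mul]
      congr 1
      refine sum_congr rfl fun T hT => ?_
      have h : x ∉ T := fun h => hx (mem_powerset.1 hT h)
      rw [card_insert_of_notMem h, smul_mul_smul_comm, ← hΛ.mul, lamp_mul, sd_ins h, pow_succ]
    rw [e, card_insert_of_notMem hx, pow_succ]
    refine (norm_mul_le _ _).trans (mul_le_mul ih (hΛ.flat ?_) (norm_nonneg _) (by positivity))
    rw [lamp_mul, symmDiff_self]; rfl

lemma shift (f : Finset F2 → ℝ) {S T' : Finset F2} (h : T' ⊆ S) :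
    ∑ T ∈ S.powerset, f (T ∆ T') = ∑ T ∈ S.powerset, f T := by
  have m : ∀ T ∈ S.powerset, T ∆ T' ∈ S.powerset := fun T hT =>
    mem_powerset.2 (symmDiff_le_sup.trans (sup_le (mem_powerset.1 hT) h))
  exact sum_nbij' (· ∆ T') (· ∆ T') m m (by simp) (by simp) (by simp)

noncomputable def avg (S : Finset F2) (f : Finset F2 → ℝ) : ℝ := (∑ T ∈ S.powerset, f T) / 2 ^ S.card

lemma avg_ins (S : Finset F2) (x : F2) (f : Finset F2 → ℝ) :
    avg S (fun T => f T + f (T ∆ {x})) = 2 * avg (insert x S) f := by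
  unfold avg
  rw [sum_add_distrib]
  by_cases hx : x ∈ S
  · rw [shift f (singleton_subset_iff.2 hx), insert_eq_of_mem hx]; ring
  · rw [sum_powerset_insert hx, card_insert_of_notMem hx, sum_congr rfl
      (f := fun T => f (T ∆ {x})) fun T hT => by rw [sd_ins fun h => hx (mem_powerset.1 hT h)]]
    field_simp; ring

noncomputable def sw (e : Bool) : W := lamp (if e then {1} else ∅)
noncomputable def stp (i : Bool × (Bool × Bool) × Bool) : W := sw i.1 * ⟨∅, lt i.2.1⟩ * sw i.2.2

lemma sw_inv (e) : (sw e)⁻¹ = sw e :=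
  inv_eq_of_mul_eq_one_right (by rw [sw, lamp_mul, symmDiff_self]; rfl)

lemma stp_sym (φ : W → ℝ) : ∑ i, φ (stp i)⁻¹ = ∑ i, φ (stp i) := by
  have hi : Function.Involutive fun i : Bool × (Bool × Bool) × Bool =>
      (i.2.2, (i.2.1.1, !i.2.1.2), i.1) := fun i => by simp
  refine Fintype.sum_equiv hi.toPerm _ _ fun i => ?_
  have : (⟨∅, lt i.2.1⟩ : W)⁻¹ = ⟨∅, lt (i.2.1.1, !i.2.1.2)⟩ := W.ext (by simp) (by simp [lt_inv])
  simp [stp, sw_inv, this, mul_assoc]

noncomputable def U (φ : W → ℝ) (S : Finset F2) (p : F2) : ℝ := avg S fun T => φ ⟨T, p⟩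

lemma U_R (φ : W → ℝ) (S : Finset F2) (p : F2) :
    U (R stp φ) S p = 4 * ∑ x, U φ (insert (p * lt x) (insert p S)) (p * lt x) := by
  have s0 : ∀ a : W, a * sw false = a := fun a => mul_one a
  have s1 : ∀ T q, (⟨T, q⟩ : W) * sw true = ⟨T ∆ {q}, q⟩ := fun T q =>
    W.ext (by simp [sw, lamp]) (by simp [sw, lamp])
  have s2 : ∀ T q r, (⟨T, q⟩ : W) * ⟨∅, r⟩ = ⟨T, q * r⟩ := fun T q r =>
    W.ext (by simp) rfl
  have e : ∀ x, 4 * U φ (insert (p * lt x) (insert p S)) (p * lt x) = avg S fun T =>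
      (φ ⟨T, p * lt x⟩ + φ ⟨T ∆ {p * lt x}, p * lt x⟩) +
      (φ ⟨T ∆ {p}, p * lt x⟩ + φ ⟨(T ∆ {p}) ∆ {p * lt x}, p * lt x⟩) := fun x => by
    rw [avg_ins S p fun T => φ ⟨T, p * lt x⟩ + φ ⟨T ∆ {p * lt x}, p * lt x⟩,
      avg_ins _ (p * lt x) fun T => φ ⟨T, p * lt x⟩, U]
    ring
  rw [mul_sum]
  simp only [e]
  simp only [U, avg, ← sum_div]
  congr 1
  rw [sum_comm]
  refine sum_congr rfl fun T _ => ?_
  simp only [R, stp, ← mul_assoc]
  simp only [Fintype.sum_prod_type (α₁ := Bool) (α₂ := (Bool × Bool) × Bool),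
    Fintype.sum_prod_type (α₁ := Bool × Bool) (α₂ := Bool), Fintype.sum_bool, s0, s1]
  simp only [s2, s1, ← sum_add_distrib]
  exact sum_congr rfl fun x _ => by ring

def Good (S : Finset F2) (p : F2) : Prop := ∀ j < p.norm, ∃ x ∈ S, x.norm = j

lemma lower {d : W → ℝ} {a b : ℝ} (ha : 0 ≤ a) (h : ∀ S p, a * S.card - b ≤ U d S p) (k : ℕ)
    (S : Finset F2) (p : F2) (hg : Good S p) :
    16 ^ k * (a * (p.norm + k / 2) - b) ≤ U ((R stp)^[k] d) S p := by
  induction k generalizing S p with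
  | zero =>
    have : p.norm ≤ S.card := by
      have := card_le_card (s := range p.norm) (t := S.image FreeGroup.norm) fun j hj =>
        mem_image.2 (hg j (mem_range.1 hj))
      rw [card_range] at this
      exact this.trans card_image_le
    have h2 : (p.norm : ℝ) ≤ S.card := by exact_mod_cast this
    have := h S p
    simp only [pow_zero, one_mul, Nat.cast_zero, zero_div, add_zero, Function.iterate_zero, id]
    nlinarith
  | succ k ih =>
    rw [Function.iterate_succ_apply', U_R]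
    have h1 := sum_le_sum (s := univ) fun x _ => ih (insert (p * lt x) (insert p S)) (p * lt x)
      fun j hj => by
        have := FreeGroup.norm_mul_le p (lt x)
        rw [lt_norm] at this
        rcases (show j < p.norm ∨ j = p.norm by omega) with h | h
        · obtain ⟨y, hy, e⟩ := hg j h
          exact ⟨y, by simp [hy], e⟩
        · exact ⟨p, by simp, h.symm⟩
    have h2 : (4 * p.norm + 2 : ℝ) ≤ ∑ x, ((p * lt x).norm : ℝ) := by exact_mod_cast drift p
    simp only [← mul_sum, sum_sub_distrib, sum_add_distrib, sum_const, card_univ, Fintype.card_prod,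
      Fintype.card_bool, nsmul_eq_mul] at h1
    have h3 := mul_le_mul_of_nonneg_left (mul_le_mul_of_nonneg_left h2 ha)
      (show (0 : ℝ) ≤ 16 ^ k by positivity)
    push_cast at h1 ⊢
    rw [pow_succ]
    nlinarith

lemma lampD {d : W → ℝ} (hd : ND0 d) (S : Finset F2) (p : F2) :
    avg S (fun T => d (lamp T)) ≤ 4 * U d S p := by
  obtain ⟨T', hT', hm⟩ := exists_min_image S.powerset (fun T => d ⟨T, p⟩) ⟨∅, by simp⟩
  unfold U avg
  rw [← shift (fun T => d (lamp T)) (mem_powerset.1 hT'), ← mul_div_assoc, mul_sum]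
  refine div_le_div_of_nonneg_right (sum_le_sum fun T hT => ?_) (by positivity)
  have := nd_tri hd ⟨T, p⟩ ⟨T', p⟩
  have e : (⟨T, p⟩ : W) * (⟨T', p⟩ : W)⁻¹ = lamp (T ∆ T') := W.ext (by simp [lamp]) (by simp [lamp])
  have := hm T hT
  rw [← e]; linarith

theorem main {Λ : W → Op W} (hΛ : IsReg Λ) {d : W → ℝ} (hd : ND0 d) : ∃ t : ℝ, 0 < t ∧ ∀ C, 0 < C →
    ¬ ∀ (A : Finset W) (m : W → ℕ), (∀ a ∈ A, ∀ b ∈ A, a * b ∈ A) →
      ∑ g ∈ A, Real.exp (-(t * d g)) ≤ C * ‖∑ g ∈ A, Complex.I ^ m g • Λ g‖ := by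
  classical
  obtain ⟨c, hc⟩ := markov stp stp_sym hd
  have s1 : 1 < √2 := by rw [Real.lt_sqrt] <;> norm_num
  have l0 : 0 < Real.log √2 := Real.log_pos s1
  set t := Real.log √2 / (4 * (|c| + 1)) with ht
  have t0 : 0 < t := by positivity
  refine ⟨t, t0, fun C C0 H => ?_⟩
  have h1 : ∀ S p, (|c| + 1) * S.card - Real.log C / (4 * t) ≤ U d S p := fun S p => by
    have h2 := H (S.powerset.image lamp) (fun g => g.S.card) (by
      simp only [mem_image, mem_powerset]
      rintro _ ⟨T, hT, rfl⟩ _ ⟨T', hT', rfl⟩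
      exact ⟨_, symmDiff_le_sup.trans (sup_le hT hT'), (lamp_mul T T').symm⟩)
    rw [sum_image lamp_inj.injOn, sum_image lamp_inj.injOn] at h2
    have h3 := h2.trans (mul_le_mul_of_nonneg_left (flatS hΛ S) C0.le)
    have h4 := lampD hd S p
    set D := avg S fun T => d (lamp T) with hD
    have hs : ∑ T ∈ S.powerset, d (lamp T) = D * 2 ^ S.card := by
      rw [hD, avg]; field_simp
    have h5 : ∑ T ∈ S.powerset, Real.exp (-(t * D)) * (1 + t * D - t * d (lamp T)) ≤
        ∑ T ∈ S.powerset, Real.exp (-(t * d (lamp T))) := sum_le_sum fun T _ => by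
      have := Real.add_one_le_exp (t * D - t * d (lamp T))
      rw [show -(t * d (lamp T)) = -(t * D) + (t * D - t * d (lamp T)) by ring, Real.exp_add]
      exact mul_le_mul_of_nonneg_left (by linarith) (Real.exp_pos _).le
    rw [← mul_sum, sum_sub_distrib, ← mul_sum, hs, sum_const, card_powerset, nsmul_eq_mul] at h5
    push_cast at h5
    have h6 : Real.exp (-(t * D)) * √2 ^ S.card ≤ C := by
      have e : (2 : ℝ) ^ S.card = √2 ^ S.card * √2 ^ S.card := by
        rw [← mul_pow, Real.mul_self_sqrt (by norm_num)]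
      refine le_of_mul_le_mul_right (le_trans (le_of_eq ?_) (h5.trans h3))
        (show 0 < √2 ^ S.card by positivity)
      rw [mul_assoc, ← e]; ring
    have h7 := Real.log_le_log (by positivity) h6
    rw [Real.log_mul (by positivity) (by positivity), Real.log_exp, Real.log_pow] at h7
    have e : Real.log √2 = 4 * t * (|c| + 1) := by rw [ht]; field_simp
    rw [e] at h7
    rw [sub_le_iff_le_add, ← sub_le_iff_le_add', le_div_iff₀ (by positivity)]
    nlinarith
  obtain ⟨j, hj⟩ := exists_nat_gt (Real.log C / (4 * t))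
  have h2 := lower (by positivity) h1 (2 * j) ∅ 1 fun j hj => by simp at hj
  have h3 := hc j
  have e : U ((R stp)^[2 * j] d) ∅ 1 = (R stp)^[2 * j] d 1 := by simp [U, avg]; rfl
  simp only [Fintype.card_prod, Fintype.card_bool] at h3
  norm_num at h2 h3
  rw [e] at h2
  have h4 := le_of_mul_le_mul_left (h2.trans h3) (by positivity)
  have := le_abs_self c
  have : (0 : ℝ) ≤ j := by positivity
  nlinarith

theorem noheat : NoHeat W := by
  classical
  refine ⟨ex_reg, fun (Λ : W → Op W) (hΛ : IsReg Λ) d hd => ?_⟩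
  obtain ⟨t, t0, H⟩ := main hΛ hd
  let ψ : W → Op W →L[ℂ] ℂ := fun g =>
    (innerSL ℂ (dirac g)).comp (ContinuousLinearMap.apply ℂ (L2 W) (dirac 1))
  have hψ : ∀ g x, ψ g x = hat x g := fun _ _ => rfl
  have hh : ∀ g h, hat (Λ h) g = if g = h then 1 else 0 := fun g h => by
    rw [hat, hΛ, mul_one]; convert d_in g h
  constructor
  · intro h
    obtain ⟨M, ⟨-, m1, m2, K, m3⟩, h1, h2⟩ := h t t0
    let M' : Cr Λ →L[ℂ] Op W := LinearMap.mkContinuous
      { toFun := fun x => M x.1, map_add' := fun x y => m1 x.1 x.2 y.1 y.2,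
        map_smul' := fun c x => m2 c x.1 x.2 } K fun x => m3 x.1 x.2
    obtain ⟨C, C0, hC⟩ := hΛ.key (fun g => Real.exp (-(t * d g))) (fun g => (ψ g).comp M')
      (fun g h => by
        have e : M' ⟨Λ h, mem_cr h⟩ = (Real.exp (-(t * d h)) : ℂ) • Λ h := h1 h
        rw [ContinuousLinearMap.comp_apply, e, map_smul, hψ, hh]
        split_ifs with e <;> simp [e]) fun x => h2 x.1 x.2
    exact H C C0 hC
  · intro h
    obtain ⟨C, C0, hC⟩ := hΛ.key (fun g => Real.exp (-(t * d g)))
      (fun g => (Real.exp (-(t * d g)) : ℂ) • (ψ g).comp (Cr Λ).subtypeL)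
      (fun g h => by
        rw [ContinuousLinearMap.smul_apply, ContinuousLinearMap.comp_apply, hψ]
        simp only [Submodule.subtypeL_apply, hh]
        split_ifs with e <;> simp) fun x => h t t0 x.1 x.2
    exact H C C0 hC

end Pool.Agent.H70.Ht
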