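import Mathlib

namespace Pool.Agent.H70.Ht
open scoped ComplexConjugate

section
variable {E ι : Type} [NormedAddCommGroup E] [NormedSpace ℂ E]

/-- The norm closure of the linear span of the vectors `v g`. -/
def Cl (v : ι → E) : Set E := closure (Submodule.span ℂ (Set.range v))

/-- The series with terms `c g • v g` converges in norm as an unordered sum. -/
def Conv (c : ι → ℂ) (v : ι → E) : Prop := Summable fun g => c g • v g

/-- `M` restricts to a bounded linear map from `A` to `A`. -/
def BddLin (A : Set E) (M : E → E) : Prop :=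
  (∀ x ∈ A, M x ∈ A) ∧ (∀ x ∈ A, ∀ y ∈ A, M (x + y) = M x + M y) ∧
    (∀ c : ℂ, ∀ x ∈ A, M (c • x) = c • M x) ∧ ∃ C : ℝ, ∀ x ∈ A, ‖M x‖ ≤ C * ‖x‖

/-- The heat property with respect to `d`, for the family `v` with coefficient map `co`: for every
`t > 0` the bounded multiplier `M` with `M (v g) = exp (-t d g) v g` sends each `x` to an element
whose series converges. -/
def HeatM (v : ι → E) (co : E → ι → ℂ) (d : ι → ℝ) : Prop :=
  ∀ t : ℝ, 0 < t → ∃ M : E → E, BddLin (Cl v) M ∧
    (∀ g, M (v g) = (Real.exp (-(t * d g)) : ℂ) • v g) ∧ ∀ x ∈ Cl v, Conv (co (M x)) v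

/-- The same property written without the multiplier: the damped series of every `x` converges. -/
def HeatS (v : ι → E) (co : E → ι → ℂ) (d : ι → ℝ) : Prop :=
  ∀ t : ℝ, 0 < t → ∀ x ∈ Cl v, Conv (fun g => (Real.exp (-(t * d g)) : ℂ) * co x g) v

end

variable {G : Type} [Group G]

/-- Negative definite functions with nonnegative real values, vanishing at the unit. -/
def ND0 (d : G → ℝ) : Prop :=
  (∀ g, 0 ≤ d g) ∧ d 1 = 0 ∧ (∀ g, d g⁻¹ = d g) ∧
    ∀ (n : ℕ) (g : Fin n → G) (b : Fin n → ℂ), ∑ i, b i = 0 →
      (∑ i, ∑ j, conj (b i) * b j * (d ((g i)⁻¹ * g j) : ℂ)).re ≤ 0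

/-- The Haagerup property: some `d` in `ND0` is proper. -/
def Haagerup (G : Type) [Group G] : Prop :=
  ∃ d : G → ℝ, ND0 d ∧ ∀ s : ℝ, {g | d g ≤ s}.Finite

section
variable {H : Type} [NormedAddCommGroup H] [InnerProductSpace ℂ H]

/-- Bounded operators on `H`, with the operator norm. -/
def BOp (H : Type) [NormedAddCommGroup H] [InnerProductSpace ℂ H] : Type := H →L[ℂ] H

noncomputable instance opN : NormedAddCommGroup (BOp H) := ContinuousLinearMap.toNormedAddCommGroup
noncomputable instance opS : NormedSpace ℂ (BOp H) := ContinuousLinearMap.toNormedSpace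

/-- The value of an operator at a vector. -/
def app (x : BOp H) (v : H) : H := ContinuousLinearMap.toLinearMap x v

/-- Fourier coefficients with respect to the point masses `δ g` (the inner product is linear in
its second variable). -/
noncomputable def coef (δ : G → H) (x : BOp H) (g : G) : ℂ :=
  InnerProductSpace.toInner.inner (δ g) (app x (δ 1))

/-- `Λ` is the left regular representation. -/
def IsRegH (δ : G → H) (Λ : G → BOp H) : Prop := ∀ g h, app (Λ g) (δ h) = δ (g * h)

/-- The regular representation exists and the heat property fails for every `d`, in both forms. -/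
def NoHeatH (δ : G → H) : Prop :=
  (∃ Λ, IsRegH δ Λ) ∧ ∀ Λ, IsRegH δ Λ → ∀ d, ND0 d → ¬ HeatM Λ (coef δ) d ∧ ¬ HeatS Λ (coef δ) d

end

/-- The Hilbert space of square summable functions on `G`. -/
def L2 (G : Type) : Type := lp (fun _ : G => ℂ) 2

noncomputable instance i1 (G : Type) : NormedAddCommGroup (L2 G) := lp.normedAddCommGroup

noncomputable instance i2 (G : Type) : InnerProductSpace ℂ (L2 G) := lp.instInnerProductSpace

open Classical in
/-- The point mass at `g`. -/
noncomputable def dirac {G : Type} (g : G) : L2 G := lp.single 2 g 1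

/-- The group `G` does not have the heat property. -/
def NoHeat (G : Type) [Group G] : Prop := NoHeatH (dirac : G → L2 G)

end Pool.Agent.H70.Ht
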