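import Pool.Agent.H70.AutF1

set_option autoImplicit false

namespace Pool.Agent.H70.IA

open FreeGroup hiding map_mul map_inv map_one
open Pool.Agent.H70.AutF

variable {X : Type}

theorem mk_aut (f g : FreeGroup X →* FreeGroup X) (h1 : ∀ x, f (g (of x)) = of x)
    (h2 : ∀ x, g (f (of x)) = of x) :
    ∃ a : MulAut (FreeGroup X), (∀ w, a w = f w) ∧ ∀ w, a⁻¹ w = g w :=
  ⟨MonoidHom.toMulEquiv f g (by ext x; exact h2 x) (by ext x; exact h1 x),
    fun _ => rfl, fun _ => rfl⟩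

theorem hom_In {Y : Type} (f : FreeGroup X →* FreeGroup Y) {S : Set X} {T : Set Y}
    (h : ∀ x ∈ S, f (of x) ∈ In T) {w : FreeGroup X} (hw : w ∈ In S) : f w ∈ In T :=
  In_le (K := (In T).comap f) h hw

theorem aut_In (f : MulAut (FreeGroup X)) {S T : Set X}
    (h : ∀ x ∈ S, f (of x) ∈ In T) {w : FreeGroup X} (hw : w ∈ In S) : f w ∈ In T :=
  hom_In f.toMonoidHom h hw

theorem aut_eq (f g : MulAut (FreeGroup X)) {S : Set X}
    (h : ∀ x ∈ S, f (of x) = g (of x)) {w : FreeGroup X} (hw : w ∈ In S) : f w = g w :=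
  eq_on f.toMonoidHom g.toMonoidHom h hw

theorem aut_fix (f : MulAut (FreeGroup X)) {S : Set X}
    (h : ∀ x ∈ S, f (of x) = of x) {w : FreeGroup X} (hw : w ∈ In S) : f w = w :=
  aut_eq f 1 h hw

/-- `a` preserves the standard free factor on `S` -/
def Pres (a : MulAut (FreeGroup X)) (S : Set X) : Prop :=
  ∀ x ∈ S, a (of x) ∈ In S ∧ a⁻¹ (of x) ∈ In S

/-- `a` is supported on `S` -/
def Sup (a : MulAut (FreeGroup X)) (S : Set X) : Prop :=
  Pres a S ∧ ∀ x, x ∉ S → a (of x) = of x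

theorem inv_fix {a : MulAut (FreeGroup X)} {w : FreeGroup X} (h : a w = w) : a⁻¹ w = w := by
  conv_lhs => rw [← h]
  simp

theorem Pres.mem {a : MulAut (FreeGroup X)} {S : Set X} (h : Pres a S) {w : FreeGroup X}
    (hw : w ∈ In S) : a w ∈ In S := aut_In a (fun x hx => (h x hx).1) hw

theorem Pres.inv {a : MulAut (FreeGroup X)} {S : Set X} (h : Pres a S) : Pres a⁻¹ S :=
  fun x hx => ⟨(h x hx).2, by simpa using (h x hx).1⟩

theorem Pres.mul {a b : MulAut (FreeGroup X)} {S : Set X} (h : Pres a S) (k : Pres b S) :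
    Pres (a * b) S := fun x hx =>
  ⟨h.mem (k x hx).1, by rw [mul_inv_rev]; exact k.inv.mem (h x hx).2⟩

theorem Sup.inv {a : MulAut (FreeGroup X)} {S : Set X} (h : Sup a S) : Sup a⁻¹ S :=
  ⟨h.1.inv, fun x hx => inv_fix (h.2 x hx)⟩

theorem Sup.mul {a b : MulAut (FreeGroup X)} {S : Set X} (h : Sup a S) (k : Sup b S) :
    Sup (a * b) S :=
  ⟨h.1.mul k.1, fun x hx => by rw [MulAut.mul_apply, k.2 x hx, h.2 x hx]⟩

theorem Sup.mono {a : MulAut (FreeGroup X)} {S T : Set X} (h : Sup a S) (hST : S ⊆ T) :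
    Sup a T := by
  refine ⟨fun x hx => ?_, fun x hx => h.2 x fun k => hx (hST k)⟩
  by_cases k : x ∈ S
  · exact ⟨In_mono hST (h.1 x k).1, In_mono hST (h.1 x k).2⟩
  · rw [h.2 x k, h.inv.2 x k]
    exact ⟨of_mem hx, of_mem hx⟩

theorem fresh [Infinite X] {α : Type} (A : Set α) (hA : A.Finite) (T : Set X) (hT : T.Finite) :
    ∃ j : α → X, Set.InjOn j A ∧ ∀ a, j a ∉ T := by
  classical
  have hi : (Tᶜ : Set X).Infinite := hT.infinite_compl
  haveI := hA.to_subtype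
  obtain ⟨n, ⟨e⟩⟩ := Finite.exists_equiv_fin A
  refine ⟨fun a => (hi.natEmbedding _ (if h : a ∈ A then (e ⟨a, h⟩ : ℕ) else 0) : X), ?_,
    fun a => (hi.natEmbedding _ _).2⟩
  intro a ha b hb h
  have := (hi.natEmbedding _).injective (Subtype.ext h)
  rw [dif_pos ha, dif_pos hb] at this
  exact congrArg Subtype.val (e.injective (Fin.ext this))

theorem swap (A : Set X) (j : X → X) (hj : Set.InjOn j A) (h : ∀ a ∈ A, j a ∉ A) :
    ∃ π : Equiv.Perm X, π * π = 1 ∧ (∀ a ∈ A, π a = j a) ∧ (∀ a ∈ A, π (j a) = a) ∧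
      ∀ x, x ∉ A → x ∉ j '' A → π x = x := by
  classical
  obtain ⟨f, hf⟩ : ∃ f : X → X, ∀ x, f x =
      if x ∈ A then j x else if h : x ∈ j '' A then h.choose else x := ⟨_, fun _ => rfl⟩
  have f1 : ∀ a ∈ A, f a = j a := fun a ha => by rw [hf, if_pos ha]
  have f2 : ∀ a ∈ A, f (j a) = a := fun a ha => by
    have k : j a ∈ j '' A := ⟨a, ha, rfl⟩
    rw [hf, if_neg (h a ha), dif_pos k]
    exact hj k.choose_spec.1 ha k.choose_spec.2
  have f3 : ∀ x, x ∉ A → x ∉ j '' A → f x = x := fun x h1 h2 => by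
    rw [hf, if_neg h1, dif_neg h2]
  have inv : Function.Involutive f := by
    intro x
    by_cases h1 : x ∈ A
    · rw [f1 x h1, f2 x h1]
    · by_cases h2 : x ∈ j '' A
      · obtain ⟨a, ha, rfl⟩ := h2
        rw [f2 a ha, f1 a ha]
      · rw [f3 x h1 h2, f3 x h1 h2]
  exact ⟨inv.toPerm f, Equiv.ext inv, f1, f2, f3⟩

theorem res (a : MulAut (FreeGroup X)) (S : Set X) (h : Pres a S) :
    ∃ b : MulAut (FreeGroup X), Sup b S ∧ ∀ x ∈ S, b (of x) = a (of x) := by
  classical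
  obtain ⟨R, hR⟩ : ∃ R : MulAut (FreeGroup X) → FreeGroup X →* FreeGroup X,
      ∀ c x, R c (of x) = if x ∈ S then c (of x) else of x :=
    ⟨fun c => FreeGroup.lift fun x => if x ∈ S then c (of x) else of x, fun _ _ => lift_apply_of⟩
  have R1 : ∀ c, ∀ w ∈ In S, R c w = c w := fun c w hw =>
    eq_on (R c) c.toMonoidHom (fun x hx => by rw [hR, if_pos hx]; rfl) hw
  have key : ∀ c : MulAut (FreeGroup X), Pres c S → ∀ x, R c⁻¹ (R c (of x)) = of x := by
    intro c hc x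
    by_cases k : x ∈ S
    · rw [R1 c _ (of_mem k), R1 _ _ (hc x k).1]; simp
    · rw [hR, if_neg k, hR, if_neg k]
  obtain ⟨b, b1, b2⟩ := mk_aut (R a) (R a⁻¹) (by simpa using key a⁻¹ h.inv) (key a h)
  refine ⟨b, ⟨fun x hx => ?_, fun x hx => by rw [b1, hR, if_neg hx]⟩,
    fun x hx => by rw [b1, hR, if_pos hx]⟩
  rw [b1, b2, hR, hR, if_pos hx, if_pos hx]
  exact h x hx

theorem tr (U V : Set X) (hUV : ∀ x ∈ V, x ∉ U) (f : X → FreeGroup X)
    (hf : ∀ x ∈ U, f x ∈ In V) :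
    ∃ b : MulAut (FreeGroup X), Sup b (U ∪ V) ∧ (∀ x ∈ U, b (of x) = of x * f x) ∧
      ∀ x, x ∉ U → b (of x) = of x := by
  classical
  obtain ⟨R, hR⟩ : ∃ R : (X → FreeGroup X) → FreeGroup X →* FreeGroup X,
      ∀ c x, R c (of x) = if x ∈ U then of x * c x else of x :=
    ⟨fun c => FreeGroup.lift fun x => if x ∈ U then of x * c x else of x,
      fun _ _ => lift_apply_of⟩
  have R1 : ∀ c, ∀ w ∈ In V, R c w = w := fun c w hw =>
    eq_on (R c) (MonoidHom.id _) (fun x hx => by rw [hR, if_neg (hUV x hx)]; rfl) hw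
  have key : ∀ c d : X → FreeGroup X, (∀ x ∈ U, c x ∈ In V) → (∀ x, d x * c x = 1) →
      ∀ x, R d (R c (of x)) = of x := by
    intro c d hc hd x
    by_cases k : x ∈ U
    · rw [hR, if_pos k, map_mul, R1 _ _ (hc x k), hR, if_pos k, mul_assoc, hd, mul_one]
    · rw [hR, if_neg k, hR, if_neg k]
  obtain ⟨b, b1, b2⟩ := mk_aut (R f) (R fun x => (f x)⁻¹)
    (key _ _ (fun x hx => Subgroup.inv_mem _ (hf x hx)) (by simp)) (key _ _ hf (by simp))
  refine ⟨b, ⟨fun x hx => ?_, fun x hx => by rw [b1, hR, if_neg fun k => hx (Or.inl k)]⟩,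
    fun x hx => by rw [b1, hR, if_pos hx], fun x hx => by rw [b1, hR, if_neg hx]⟩
  rw [b1, b2, hR, hR]
  by_cases k : x ∈ U
  · rw [if_pos k, if_pos k]
    have := In_mono (Set.subset_union_right (s := U)) (hf x k)
    exact ⟨Subgroup.mul_mem _ (of_mem hx) this,
      Subgroup.mul_mem _ (of_mem hx) (Subgroup.inv_mem _ this)⟩
  · rw [if_neg k, if_neg k]
    exact ⟨of_mem hx, of_mem hx⟩

theorem P_sup (π : Equiv.Perm X) (hπ : π * π = 1) (T : Set X) (h : ∀ x, x ∉ T → π x = x) :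
    Sup (P π) T := by
  have k : ∀ x ∈ T, π x ∈ T := by
    intro x hx
    by_contra c
    have := h _ c
    rw [← Equiv.Perm.mul_apply, hπ] at this
    exact c (this ▸ hx)
  refine ⟨fun x hx => ?_, fun x hx => by rw [P_of, h x hx]⟩
  rw [← map_inv, inv_eq_of_mul_eq_one_right hπ, P_of]
  exact ⟨of_mem (k x hx), of_mem (k x hx)⟩

theorem cocycle {V : Type} [MulAction (FreeGroup X) V] :
    ∃ c : FreeGroup X → V → FreeGroup (X × V), (∀ x v, c (of x) v = of (x, v)) ∧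
      ∀ g h v, c (g * h) v = c g (h • v) * c h v := by
  obtain ⟨ρ, hρ⟩ : ∃ ρ : FreeGroup X →* Equiv.Perm (V × FreeGroup (X × V)),
      ∀ x v γ, ρ (of x) (v, γ) = ((of x : FreeGroup X) • v, of (x, v) * γ) :=
    ⟨FreeGroup.lift fun x =>
      { toFun := fun p => ((of x : FreeGroup X) • p.1, of (x, p.1) * p.2)
        invFun := fun p => ((of x : FreeGroup X)⁻¹ • p.1,
          (of (x, (of x : FreeGroup X)⁻¹ • p.1))⁻¹ * p.2)
        left_inv := fun p => by simp
        right_inv := fun p => by simp }, fun x v γ => by rw [lift_apply_of]; rfl⟩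
  have key : ∀ g v, ∃ δ, ∀ γ, ρ g (v, γ) = (g • v, δ * γ) := by
    intro g
    induction g using FreeGroup.induction_on with
    | C1 => exact fun v => ⟨1, by simp⟩
    | of x => exact fun v => ⟨_, hρ x v⟩
    | inv_of x _ =>
      intro v
      refine ⟨(of (x, (of x : FreeGroup X)⁻¹ • v))⁻¹, fun γ => ?_⟩
      rw [map_inv, Equiv.Perm.inv_eq_iff_eq, hρ]
      simp
    | mul g h hg hh =>
      intro v
      obtain ⟨δ, hδ⟩ := hh v
      obtain ⟨ε, hε⟩ := hg (h • v)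
      exact ⟨ε * δ, fun γ => by rw [map_mul, Equiv.Perm.mul_apply, hδ, hε, mul_smul, mul_assoc]⟩
  choose c hc using key
  refine ⟨c, fun x v => ?_, fun g h v => ?_⟩
  · have := hc (of x) v 1
    rw [hρ] at this
    simpa using (congrArg Prod.snd this).symm
  · have := hc (g * h) v 1
    rw [map_mul, Equiv.Perm.mul_apply, hc, hc] at this
    simpa using (congrArg Prod.snd this).symm

end Pool.Agent.H70.IA
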