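import Pool.Agent.H70.IA1

set_option autoImplicit false

namespace Pool.Agent.H70.IA

open FreeGroup hiding map_mul map_inv map_one
open Pool.Agent.H70.AutF

variable {X : Type}

theorem good_graph {V : Type} [MulAction (FreeGroup X) V] (v0 : V)
    (c : FreeGroup X → V → FreeGroup (X × V)) (c1 : ∀ x v, c (of x) v = of (x, v))
    (c2 : ∀ g h v, c (g * h) v = c g (h • v) * c h v) (E0 : Set (X × V)) (hE0 : E0.Finite)
    (h0 : ∀ e ∈ E0, e.2 = v0 ∧ (of e.1 : FreeGroup X) • e.2 = v0)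
    (W : Set (FreeGroup X)) (hW : W.Finite) :
    ∃ E : Set (X × V), E.Finite ∧ E0 ⊆ E ∧ (∀ w ∈ W, c w v0 ∈ In E) ∧
      ∀ e ∈ E, (∃ t : FreeGroup X, t • v0 = e.2 ∧ c t v0 ∈ In E) ∧
        ∃ t : FreeGroup X, t • v0 = (of e.1 : FreeGroup X) • e.2 ∧ c t v0 ∈ In E := by
  have cone : ∀ v, c 1 v = 1 := fun v => by
    have := c2 1 1 v
    rw [one_mul, one_smul] at this
    exact mul_eq_left.1 this.symm
  obtain ⟨Good, hG⟩ : ∃ Good : Set (X × V) → Prop, ∀ E, Good E ↔ E.Finite ∧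
      ∀ e ∈ E, (∃ t : FreeGroup X, t • v0 = e.2 ∧ c t v0 ∈ In E) ∧
        ∃ t : FreeGroup X, t • v0 = (of e.1 : FreeGroup X) • e.2 ∧ c t v0 ∈ In E :=
    ⟨_, fun _ => Iff.rfl⟩
  have ins : ∀ E x h, Good E → (c h v0 ∈ In E ∨ c (of x * h) v0 ∈ In E) →
      Good (insert (x, h • v0) E) ∧ c h v0 ∈ In (insert (x, h • v0) E) ∧
        c (of x * h) v0 ∈ In (insert (x, h • v0) E) := by
    intro E x h hE hh
    have m := In_mono (Set.subset_insert (x, h • v0) E)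
    have e1 : of (x, h • v0) ∈ In (insert (x, h • v0) E) := of_mem (Or.inl rfl)
    have e2 : c (of x * h) v0 = of (x, h • v0) * c h v0 := by rw [c2, c1]
    have e3 : c h v0 ∈ In (insert (x, h • v0) E) ∧
        c (of x * h) v0 ∈ In (insert (x, h • v0) E) := by
      rcases hh with hh | hh
      · exact ⟨m hh, e2 ▸ Subgroup.mul_mem _ e1 (m hh)⟩
      · refine ⟨?_, m hh⟩
        have := m hh
        rw [e2] at this
        exact (Subgroup.mul_mem_cancel_left _ e1).1 this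
    refine ⟨(hG _).2 ⟨((hG _).1 hE).1.insert _, ?_⟩, e3⟩
    rintro e (rfl | he)
    · exact ⟨⟨h, rfl, e3.1⟩, ⟨of x * h, mul_smul _ _ _, e3.2⟩⟩
    · obtain ⟨⟨t, t1, t2⟩, ⟨u, u1, u2⟩⟩ := ((hG _).1 hE).2 e he
      exact ⟨⟨t, t1, m t2⟩, ⟨u, u1, m u2⟩⟩
  have key : ∀ g h E, Good E → c h v0 ∈ In E → ∃ E', Good E' ∧ E ⊆ E' ∧ c (g * h) v0 ∈ In E' := by
    intro g
    induction g using FreeGroup.induction_on with
    | C1 => exact fun h E hE hh => ⟨E, hE, subset_rfl, by rwa [one_mul]⟩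
    | of x =>
      intro h E hE hh
      exact ⟨_, (ins E x h hE (Or.inl hh)).1, Set.subset_insert _ _,
        (ins E x h hE (Or.inl hh)).2.2⟩
    | inv_of x _ =>
      intro h E hE hh
      have := ins E x ((of x)⁻¹ * h) hE (Or.inr (by rwa [mul_inv_cancel_left]))
      exact ⟨_, this.1, Set.subset_insert _ _, this.2.1⟩
    | mul g g' hg hg' =>
      intro h E hE hh
      obtain ⟨E1, a1, a2, a3⟩ := hg' h E hE hh
      obtain ⟨E2, b1, b2, b3⟩ := hg _ E1 a1 a3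
      exact ⟨E2, b1, a2.trans b2, by rwa [mul_assoc]⟩
  have fin : ∃ E, Good E ∧ E0 ⊆ E ∧ ∀ w ∈ W, c w v0 ∈ In E := by
    induction W, hW using Set.Finite.induction_on with
    | empty =>
      refine ⟨E0, (hG _).2 ⟨hE0, fun e he => ⟨⟨1, ?_, ?_⟩, ⟨1, ?_, ?_⟩⟩⟩, subset_rfl, by simp⟩
      · rw [one_smul, (h0 e he).1]
      · rw [cone]; exact Subgroup.one_mem _
      · rw [one_smul, (h0 e he).2]
      · rw [cone]; exact Subgroup.one_mem _
    | @insert w W _ _ ih =>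
      obtain ⟨E, a1, a2, a3⟩ := ih
      obtain ⟨E', b1, b2, b3⟩ := key w 1 E a1 (by rw [cone]; exact Subgroup.one_mem _)
      refine ⟨E', b1, a2.trans b2, ?_⟩
      rintro u (rfl | hu)
      · rwa [mul_one] at b3
      · exact In_mono b2 (a3 u hu)
  obtain ⟨E, a1, a2, a3⟩ := fin
  exact ⟨E, ((hG _).1 a1).1, a2, a3, ((hG _).1 a1).2⟩

theorem approx [Infinite X] (σ : MulAut (FreeGroup X)) (S : Set X) (hS : S.Finite) :
    ∃ (φ : MulAut (FreeGroup X)) (T : Set X), T.Finite ∧ Sup φ T ∧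
      ∀ x ∈ S, φ (of x) = σ (of x) := by
  classical
  obtain ⟨Y, hY, hSY, hσY⟩ : ∃ Y : Set X, Y.Finite ∧ S ⊆ Y ∧ ∀ x ∈ S, σ (of x) ∈ In Y :=
    ⟨S ∪ ⋃ x ∈ S, supp (σ (of x)), hS.union (hS.biUnion fun _ _ => supp_fin _),
      Set.subset_union_left, fun x hx => In_mono
        (fun y hy => Or.inr (Set.mem_biUnion hx hy)) (mem_supp _)⟩
  obtain ⟨V, _, v0, hK, htr⟩ : ∃ (V : Type) (_ : MulAction (FreeGroup X) V) (v0 : V),
      (∀ k : FreeGroup X, k • v0 = v0 ↔ σ k ∈ In Y) ∧ ∀ v, ∃ t : FreeGroup X, t • v0 = v := by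
    refine ⟨FreeGroup X ⧸ (In Y).comap σ.toMonoidHom, inferInstance, ((1 : FreeGroup X) : _ ⧸ _),
      fun k => ?_, fun v => ?_⟩
    · rw [MulAction.Quotient.smul_coe, eq_comm, QuotientGroup.eq]
      simp [Subgroup.mem_comap]
    · obtain ⟨t, rfl⟩ := QuotientGroup.mk_surjective v
      exact ⟨t, by rw [MulAction.Quotient.smul_coe]; simp⟩
  obtain ⟨c, c1, c2⟩ := cocycle (X := X) (V := V)
  have cone : ∀ v, c 1 v = 1 := fun v => by
    have := c2 1 1 v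
    rw [one_mul, one_smul] at this
    exact mul_eq_left.1 this.symm
  have cinv : ∀ g v, c g⁻¹ v = (c g (g⁻¹ • v))⁻¹ := fun g v => by
    have := c2 g g⁻¹ v
    rw [mul_inv_cancel, cone] at this
    exact eq_inv_of_mul_eq_one_right this.symm
  obtain ⟨E, hE, hE0, hEW, hEt⟩ := good_graph v0 c c1 c2 ((fun s => (s, v0)) '' S) (hS.image _)
    (by
      rintro _ ⟨s, hs, rfl⟩
      exact ⟨rfl, (hK _).2 (hσY s hs)⟩)
    ((fun y => σ⁻¹ (of y)) '' Y) (hY.image _)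
  obtain ⟨V', hV', hV1, hV2⟩ : ∃ V' : Set V, V'.Finite ∧
      (∀ e ∈ E, e.2 ∈ V' ∧ (of e.1 : FreeGroup X) • e.2 ∈ V') ∧
      ∀ v ∈ V', ∃ t : FreeGroup X, t • v0 = v ∧ c t v0 ∈ In E := by
    refine ⟨Prod.snd '' E ∪ (fun e => (of e.1 : FreeGroup X) • e.2) '' E,
      (hE.image _).union (hE.image _), fun e he => ⟨Or.inl ⟨e, he, rfl⟩, Or.inr ⟨e, he, rfl⟩⟩, ?_⟩
    rintro _ (⟨e, he, rfl⟩ | ⟨e, he, rfl⟩)
    · exact (hEt e he).1
    · exact (hEt e he).2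
  have ht : ∀ v, ∃ t : FreeGroup X, t • v0 = v ∧ (v = v0 → t = 1) ∧ (v ∈ V' → c t v0 ∈ In E) := by
    intro v
    by_cases h : v = v0
    · exact ⟨1, by rw [one_smul, h], fun _ => rfl, fun _ => by
        rw [cone]; exact Subgroup.one_mem _⟩
    · by_cases h' : v ∈ V'
      · obtain ⟨t, t1, t2⟩ := hV2 v h'
        exact ⟨t, t1, fun k => absurd k h, fun _ => t2⟩
      · obtain ⟨t, t1⟩ := htr v
        exact ⟨t, t1, fun k => absurd k h, fun k => absurd k h'⟩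
  choose t t1 t2 t3 using ht
  have t0 : t v0 = 1 := t2 v0 rfl
  obtain ⟨a0, ha0, ha1⟩ := fresh V' hV' Y hY
  obtain ⟨a, ha⟩ : ∃ a : V → FreeGroup X, ∀ v, a v = if v = v0 then 1 else of (a0 v) :=
    ⟨_, fun _ => rfl⟩
  have av0 : a v0 = 1 := by rw [ha, if_pos rfl]
  obtain ⟨T, hT, hT'⟩ : ∃ T : Set X, T.Finite ∧
      ∀ x, x ∈ T ↔ x ∈ Y ∨ ∃ v, (v ∈ V' ∧ v ≠ v0) ∧ a0 v = x :=
    ⟨Y ∪ a0 '' {v | v ∈ V' ∧ v ≠ v0}, hY.union ((hV'.subset fun _ h => h.1).image _),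
      fun _ => Iff.rfl⟩
  have YT : Y ⊆ T := fun x hx => (hT' x).2 (Or.inl hx)
  have aT : ∀ v ∈ V', a v ∈ In T := fun v hv => by
    rw [ha]
    split_ifs with h
    · exact Subgroup.one_mem _
    · exact of_mem ((hT' _).2 (Or.inr ⟨v, ⟨hv, h⟩, rfl⟩))
  obtain ⟨j, hj, hj1⟩ := fresh E hE T hT
  obtain ⟨Θ, hΘ⟩ : ∃ Θ : FreeGroup (X × V) →* FreeGroup X, ∀ e, Θ (of e) =
      a ((of e.1 : FreeGroup X) • e.2) *
        σ ((t ((of e.1 : FreeGroup X) • e.2))⁻¹ * of e.1 * t e.2) * (a e.2)⁻¹ :=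
    ⟨FreeGroup.lift _, fun _ => lift_apply_of⟩
  have ΘC : ∀ g v, Θ (c g v) = a (g • v) * σ ((t (g • v))⁻¹ * g * t v) * (a v)⁻¹ := by
    intro g
    induction g using FreeGroup.induction_on with
    | C1 => intro v; simp [cone]
    | of x => intro v; rw [c1, hΘ]
    | inv_of x ih => intro v; rw [cinv, map_inv, ih]; simp [mul_assoc]
    | mul g h hg hh => intro v; rw [c2, map_mul, hg, hh, mul_smul]; simp [mul_assoc]
  obtain ⟨Ξ, hΞ⟩ : ∃ Ξ : FreeGroup X →* FreeGroup (X × V), ∀ x, Ξ (of x) =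
      if x ∈ Y then c (σ⁻¹ (of x)) v0 else
        if h : ∃ v, (v ∈ V' ∧ v ≠ v0) ∧ a0 v = x then c (t h.choose) v0 else 1 :=
    ⟨FreeGroup.lift _, fun _ => lift_apply_of⟩
  have Ξa0 : ∀ v ∈ V', v ≠ v0 → Ξ (of (a0 v)) = c (t v) v0 := fun v hv h => by
    have k : ∃ u, (u ∈ V' ∧ u ≠ v0) ∧ a0 u = a0 v := ⟨v, ⟨hv, h⟩, rfl⟩
    rw [hΞ, if_neg (ha1 v), dif_pos k, ha0 k.choose_spec.1.1 hv k.choose_spec.2]
  have Ξa : ∀ v ∈ V', Ξ (a v) = c (t v) v0 := fun v hv => by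
    rw [ha]
    split_ifs with h
    · rw [h, t0, cone, map_one]
    · exact Ξa0 v hv h
  have ΞY : ∀ w ∈ In Y, Ξ w = c (σ⁻¹ w) v0 := by
    intro w hw
    induction hw using Subgroup.closure_induction with
    | mem x hx =>
      obtain ⟨y, hy, rfl⟩ := hx
      rw [hΞ, if_pos hy]
    | one => simp [cone]
    | mul u w hu hw iu iw =>
      rw [map_mul, map_mul, c2, (hK _).2 (by simpa [In] using hw), iu, iw]
    | inv u hu iu =>
      rw [map_inv, map_inv, cinv, (hK _).2 (by simpa [In] using hu), iu]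
  have kK : ∀ (g : FreeGroup X) v, σ ((t (g • v))⁻¹ * g * t v) ∈ In Y := fun g v => by
    rw [← hK, mul_smul, mul_smul, t1, inv_smul_eq_iff, t1]
  have ΞΘ : ∀ e ∈ E, Ξ (Θ (of e)) = of e := by
    intro e he
    rw [hΘ, map_mul, map_mul, map_inv, Ξa _ (hV1 e he).1, Ξa _ (hV1 e he).2, ΞY _ (kK _ _)]
    have h1 := c2 (t ((of e.1 : FreeGroup X) • e.2))
      ((t ((of e.1 : FreeGroup X) • e.2))⁻¹ * of e.1 * t e.2) v0
    rw [(hK _).2 (kK _ _)] at h1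
    have h2 := c2 (of e.1) (t e.2) v0
    rw [t1, c1] at h2
    rw [MulAut.inv_apply, MulEquiv.symm_apply_apply, ← h1, mul_assoc (t _)⁻¹,
      mul_inv_cancel_left, h2]
    simp
  have ΘΞ : ∀ x ∈ T, Θ (Ξ (of x)) = of x := by
    intro x hx
    rcases (hT' x).1 hx with hx | ⟨v, ⟨h1, h2⟩, rfl⟩
    · rw [hΞ, if_pos hx, ΘC, (hK _).2 (by simpa using of_mem hx), av0, t0]
      simp
    · rw [Ξa0 v h1 h2, ΘC, t1, av0, t0, ha, if_neg h2]
      simp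
  have ΘT : ∀ e ∈ E, Θ (of e) ∈ In T := fun e he => by
    rw [hΘ]
    exact Subgroup.mul_mem _ (Subgroup.mul_mem _ (aT _ (hV1 e he).2) (In_mono YT (kK _ _)))
      (Subgroup.inv_mem _ (aT _ (hV1 e he).1))
  have ΞE : ∀ x ∈ T, Ξ (of x) ∈ In E := by
    intro x hx
    rcases (hT' x).1 hx with hx | ⟨v, ⟨h1, h2⟩, rfl⟩
    · rw [hΞ, if_pos hx]
      exact hEW _ ⟨x, hx, rfl⟩
    · rw [Ξa0 v h1 h2]
      exact t3 v h1
  obtain ⟨Φ, hΦ⟩ : ∃ Φ : FreeGroup X →* FreeGroup X, ∀ x, Φ (of x) =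
      if x ∈ T then FreeGroup.map j (Ξ (of x)) else
        if h : ∃ e ∈ E, j e = x then Θ (of h.choose) else of x :=
    ⟨FreeGroup.lift _, fun _ => lift_apply_of⟩
  have Φj : ∀ e ∈ E, Φ (of (j e)) = Θ (of e) := fun e he => by
    have k : ∃ u ∈ E, j u = j e := ⟨e, he, rfl⟩
    rw [hΦ, if_neg (hj1 e), dif_pos k, hj k.choose_spec.1 he k.choose_spec.2]
  have Φj' : ∀ w ∈ In E, Φ (FreeGroup.map j w) = Θ w := fun w hw =>
    eq_on (Φ.comp (FreeGroup.map j)) Θ (fun e he => by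
      rw [MonoidHom.comp_apply, FreeGroup.map.of, Φj e he]) hw
  have ΦT : ∀ w ∈ In T, Φ w = FreeGroup.map j (Ξ w) := fun w hw =>
    eq_on Φ ((FreeGroup.map j).comp Ξ) (fun x hx => by
      rw [hΦ, if_pos hx, MonoidHom.comp_apply]) hw
  have Φo : ∀ x, x ∉ T ∪ j '' E → Φ (of x) = of x := fun x hx => by
    rw [hΦ, if_neg fun k => hx (Or.inl k), dif_neg fun k : ∃ e ∈ E, j e = x => hx (Or.inr k)]
  have ΦΦ : ∀ x, Φ (Φ (of x)) = of x := by
    intro x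
    by_cases hx : x ∈ T ∪ j '' E
    · rcases hx with hx | ⟨e, he, rfl⟩
      · rw [ΦT _ (of_mem hx), Φj' _ (ΞE x hx), ΘΞ x hx]
      · rw [Φj e he, ΦT _ (ΘT e he), ΞΘ e he, FreeGroup.map.of]
    · rw [Φo x hx, Φo x hx]
  obtain ⟨b, b1, b2⟩ := mk_aut Φ Φ ΦΦ ΦΦ
  have hb : Sup b (T ∪ j '' E) := by
    refine ⟨fun x hx => ?_, fun x hx => by rw [b1, Φo x hx]⟩
    rw [b1, b2, and_self]
    rcases hx with hx | ⟨e, he, rfl⟩
    · rw [ΦT _ (of_mem hx)]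
      refine hom_In (FreeGroup.map j) (fun e he => ?_) (ΞE x hx)
      rw [FreeGroup.map.of]
      exact of_mem (Or.inr ⟨e, he, rfl⟩)
    · rw [Φj e he]
      exact In_mono Set.subset_union_left (ΘT e he)
  have sE : ∀ s ∈ S, (s, v0) ∈ E := fun s hs => hE0 ⟨s, hs, rfl⟩
  obtain ⟨π, p1, p2, -, p4⟩ := swap S (fun s => j (s, v0))
    (fun s hs s' hs' h => congrArg Prod.fst (hj (sE s hs) (sE s' hs') h))
    (fun s _ h => hj1 _ (YT (hSY h)))
  refine ⟨b * P π, T ∪ j '' E, hT.union (hE.image _), hb.mul (P_sup π p1 _ fun x hx => ?_),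
    fun s hs => ?_⟩
  · refine p4 x (fun k => hx (Or.inl (YT (hSY k)))) ?_
    rintro ⟨s, hs, rfl⟩
    exact hx (Or.inr ⟨_, sE s hs, rfl⟩)
  · rw [MulAut.mul_apply, P_of, p2 s hs, b1, Φj _ (sE s hs), hΘ, (hK _).2 (hσY s hs), av0, t0]
    simp

end Pool.Agent.H70.IA
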