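import Pool.Agent.H70.IA2

set_option autoImplicit false

namespace Pool.Agent.H70.IA

open FreeGroup hiding map_mul map_inv map_one
open Pool.Agent.H70.AutF

variable {X : Type}

def ab : MulAut (FreeGroup X) →* Monoid.End (Abelianization (FreeGroup X)) where
  toFun g := Abelianization.map g.toMonoidHom
  map_one' := Abelianization.map_id
  map_mul' g h := (Abelianization.map_comp h.toMonoidHom g.toMonoidHom).symm

def abh (g : MulAut (FreeGroup X)) :
    Abelianization (FreeGroup X) →* Abelianization (FreeGroup X) :=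
  Abelianization.map g.toMonoidHom

theorem ab_of (g : MulAut (FreeGroup X)) (w : FreeGroup X) :
    ab g (Abelianization.of w) = Abelianization.of (g w) := rfl

def IAg (X : Type) : Subgroup (MulAut (FreeGroup X)) := (ab (X := X)).ker

instance : (IAg X).Normal := MonoidHom.normal_ker _

theorem mem_IA {g : MulAut (FreeGroup X)} :
    g ∈ IAg X ↔ ∀ x, Abelianization.of (g (of x)) = Abelianization.of (of x : FreeGroup X) := by
  rw [IAg, MonoidHom.mem_ker]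
  constructor
  · intro h x
    rw [← ab_of, h]; rfl
  · intro h
    refine Abelianization.hom_ext _ _ ?_
    ext x
    exact h x

theorem IA_app {g : MulAut (FreeGroup X)} (h : g ∈ IAg X) (w : FreeGroup X) :
    Abelianization.of (g w) = Abelianization.of w := by
  rw [← ab_of, (MonoidHom.mem_ker).1 h]; rfl

theorem mem_IA' {g : MulAut (FreeGroup X)} :
    g ∈ IAg X ↔ ∀ w, g w * w⁻¹ ∈ commutator (FreeGroup X) := by
  have : ∀ w, g w * w⁻¹ ∈ commutator (FreeGroup X) ↔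
      Abelianization.of (g w) = Abelianization.of w := fun w => by
    rw [← Abelianization.ker_of, MonoidHom.mem_ker, map_mul, map_inv, mul_inv_eq_one]
  simp only [this]
  exact ⟨IA_app, fun h => mem_IA.2 fun x => h _⟩

theorem whitehead {A : Type} [CommGroup A] (B : Subgroup A) (m n p w1 w2 w3 w4 : A →* A)
    (mB : ∀ a ∈ B, m a ∈ B) (nB : ∀ a ∈ B, n a ∈ B) (mn : ∀ a, m (n a) = a)
    (nm : ∀ a, n (m a) = a) (pp : ∀ a, p (p a) = a) (mp : ∀ a ∈ B, m (p a) = p a)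
    (np : ∀ a ∈ B, n (p a) = p a)
    (h1 : ∀ a ∈ B, w1 a = a * p (a⁻¹ * m a)) (h1' : ∀ a ∈ B, w1 (p a) = p a)
    (h2 : ∀ a ∈ B, w2 a = a) (h2' : ∀ a ∈ B, w2 (p a) = p a * a)
    (h3 : ∀ a ∈ B, w3 a = a * p (a⁻¹ * n a)) (h3' : ∀ a ∈ B, w3 (p a) = p a)
    (h4 : ∀ a ∈ B, w4 a = a) (h4' : ∀ a ∈ B, w4 (p a) = p a * (m a)⁻¹) (a : A) (ha : a ∈ B) :
    m (p (n (p (w1 (w2 (w3 (w4 a))))))) = a ∧
      m (p (n (p (w1 (w2 (w3 (w4 (p a)))))))) = p a := by
  have e1 : a⁻¹ * n a ∈ B := B.mul_mem (B.inv_mem ha) (nB a ha)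
  constructor
  · have : w1 (w2 (w3 (w4 a))) = n a := by
      rw [h4 a ha, h3 a ha, map_mul, h2 a ha, h2' _ e1, map_mul, map_mul, h1' _ e1, h1 _ e1,
        h1 a ha]
      simp only [map_mul, map_inv, mn, mul_inv_rev, inv_inv]
      apply Additive.ofMul.injective
      simp only [ofMul_mul, ofMul_inv]
      abel
    rw [this, np _ (nB a ha), pp, mn]
  · have : w1 (w2 (w3 (w4 (p a)))) = p (m a) := by
      have e2 : w3 (w4 (p a)) = (m a)⁻¹ * p (m a) := by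
        rw [h4' a ha, map_mul, map_inv, h3' a ha, h3 _ (mB a ha)]
        simp only [map_mul, map_inv, nm, mul_inv_rev, inv_inv]
        apply Additive.ofMul.injective
        simp only [ofMul_mul, ofMul_inv]
        abel
      rw [e2, map_mul, map_inv, h2 _ (mB a ha), h2' _ (mB a ha), mul_comm (p _),
        inv_mul_cancel_left, h1' _ (mB a ha)]
    rw [this, pp, nm, mp a ha]

theorem approxIA [Infinite X] (β : MulAut (FreeGroup X)) (hβ : β ∈ IAg X) (S : Set X)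
    (hS : S.Finite) : ∃ (φ : MulAut (FreeGroup X)) (T : Set X), φ ∈ IAg X ∧ T.Finite ∧ Sup φ T ∧
      ∀ x ∈ S, φ (of x) = β (of x) := by
  obtain ⟨φ, T, hT, hφ, hφS, hST⟩ : ∃ (φ : MulAut (FreeGroup X)) (T : Set X), T.Finite ∧
      Sup φ T ∧ (∀ x ∈ S, φ (of x) = β (of x)) ∧ S ⊆ T := by
    obtain ⟨φ, T, hT, hφ, hφS⟩ := approx β S hS
    exact ⟨φ, T ∪ S, hT.union hS, hφ.mono Set.subset_union_left, hφS, Set.subset_union_right⟩
  obtain ⟨j, hj, hj1⟩ := fresh T hT T hT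
  obtain ⟨π, p1, p2, p3, p4⟩ := swap T j hj fun a _ => hj1 a
  have hp : Sup (P π) (T ∪ j '' T) :=
    P_sup π p1 _ fun x hx => p4 x (fun k => hx (Or.inl k)) fun k => hx (Or.inr k)
  have pT : ∀ w ∈ In T, P π w ∈ In (j '' T) := fun w hw =>
    aut_In _ (fun x hx => by rw [P_of, p2 x hx]; exact of_mem ⟨x, hx, rfl⟩) hw
  have pj : ∀ x ∈ T, P π (of (j x)) = of x := fun x hx => by rw [P_of, p3 x hx]
  have pj' : ∀ x ∈ T, P π (of x) = of (j x) := fun x hx => by rw [P_of, p2 x hx]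
  have d1 : ∀ x ∈ j '' T, x ∉ T \ S := by
    rintro _ ⟨x, _, rfl⟩ h
    exact hj1 x h.1
  have d2 : ∀ x ∈ T, x ∉ j '' T := by
    rintro x hx ⟨y, _, rfl⟩
    exact hj1 y hx
  obtain ⟨q, hq⟩ : ∃ q : FreeGroup X →* Abelianization (FreeGroup X), q = Abelianization.of :=
    ⟨_, rfl⟩
  have abq : ∀ (g : MulAut (FreeGroup X)) w, ab g (q w) = q (g w) := by
    subst hq; exact ab_of
  have ext : ∀ f g : Abelianization (FreeGroup X) →* Abelianization (FreeGroup X),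
      (∀ x ∈ T, f (q (of x)) = g (q (of x))) → ∀ a ∈ (In T).map q, f a = g a := by
    rintro f g h _ ⟨w, hw, rfl⟩
    exact eq_on (f.comp q) (g.comp q) h hw
  have low : ∀ ψ : MulAut (FreeGroup X), Sup ψ T → (∀ x ∈ S, q (ψ (of x)) = q (of x)) →
      ∃ ω : MulAut (FreeGroup X), Sup ω (T ∪ j '' T) ∧ (∀ x ∈ S, ω (of x) = of x) ∧
        (∀ a ∈ (In T).map q, ab ω a = a * ab (P π) (a⁻¹ * ab ψ a)) ∧
        ∀ a ∈ (In T).map q, ab ω (ab (P π) a) = ab (P π) a := by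
    intro ψ hψ hψS
    obtain ⟨ω, o1, o2, o3⟩ := tr (T \ S) (j '' T) d1 (fun x => P π ((of x)⁻¹ * ψ (of x)))
      fun x hx => pT _ (Subgroup.mul_mem _ (Subgroup.inv_mem _ (of_mem hx.1)) (hψ.1 x hx.1).1)
    refine ⟨ω, o1.mono (Set.union_subset_union_left _ Set.diff_subset),
      fun x hx => o3 x fun k => k.2 hx, ?_, ?_⟩
    · refine ext (ab ω) (MonoidHom.id _ * (abh (P π)).comp
        ((MonoidHom.id _)⁻¹ * abh ψ)) fun x hx => ?_
      show ab ω (q (of x)) = q (of x) * ab (P π) ((q (of x))⁻¹ * ab ψ (q (of x)))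
      by_cases k : x ∈ S
      · rw [abq, abq, o3 x fun h => h.2 k, hψS x k]; simp
      · rw [abq, abq, o2 x ⟨hx, k⟩, ← map_inv, ← map_mul, abq, map_mul]
    · refine ext ((ab ω : _ →* _).comp (ab (P π))) (ab (P π)) fun x hx => ?_
      show ab ω (ab (P π) (q (of x))) = ab (P π) (q (of x))
      rw [abq, abq, pj' x hx, o3 _ (d1 _ ⟨x, hx, rfl⟩)]
  have up : ∀ g : X → FreeGroup X, (∀ x ∈ T, g x ∈ In T) →
      ∀ k : Abelianization (FreeGroup X) →* Abelianization (FreeGroup X),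
        (∀ x ∈ T, k (q (of x)) = q (g x)) →
      ∃ ω : MulAut (FreeGroup X), Sup ω (T ∪ j '' T) ∧ (∀ x ∈ S, ω (of x) = of x) ∧
        (∀ a ∈ (In T).map q, ab ω a = a) ∧
        ∀ a ∈ (In T).map q, ab ω (ab (P π) a) = ab (P π) a * k a := by
    intro g hg k hk
    obtain ⟨ω, o1, o2, o3⟩ := tr (j '' T) T d2 (fun x => g (π x)) (by
      rintro _ ⟨x, hx, rfl⟩
      rw [p3 x hx]; exact hg x hx)
    refine ⟨ω, o1.mono (Set.union_comm _ _).subset, fun x hx => o3 x (d2 x (hST hx)), ?_, ?_⟩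
    · refine ext (ab ω) (MonoidHom.id _) fun x hx => ?_
      show ab ω (q (of x)) = q (of x)
      rw [abq, o3 x (d2 x hx)]
    · refine ext ((ab ω : _ →* _).comp (ab (P π))) (abh (P π) * k) fun x hx => ?_
      show ab ω (ab (P π) (q (of x))) = ab (P π) (q (of x)) * k (q (of x))
      rw [abq, abq, pj' x hx, o2 _ ⟨x, hx, rfl⟩, p3 x hx, hk x hx, map_mul]
  have s1 : ∀ x ∈ S, q (φ (of x)) = q (of x) := fun x hx => by
    rw [hφS x hx, hq]; exact IA_app hβ _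
  have mn : ∀ a, ab φ (ab φ⁻¹ a) = a := fun a => by
    show (ab φ * ab φ⁻¹) a = a
    rw [← map_mul, mul_inv_cancel, map_one]; rfl
  have nm : ∀ a, ab φ⁻¹ (ab φ a) = a := fun a => by
    show (ab φ⁻¹ * ab φ) a = a
    rw [← map_mul, inv_mul_cancel, map_one]; rfl
  have pp : ∀ a, ab (P π) (ab (P π) a) = a := fun a => by
    show (ab (P π) * ab (P π)) a = a
    rw [← map_mul, ← map_mul, p1, map_one, map_one]; rfl
  have s2 : ∀ x ∈ S, q (φ⁻¹ (of x)) = q (of x) := fun x hx => by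
    rw [← abq, ← s1 x hx, ← abq, nm, abq, s1 x hx]
  obtain ⟨w1, a1, a2, a3, a4⟩ := low φ hφ s1
  obtain ⟨w3, c1, c2, c3, c4⟩ := low φ⁻¹ hφ.inv s2
  obtain ⟨w2, b1, b2, b3, b4⟩ := up of (fun x hx => of_mem hx) (MonoidHom.id _) fun _ _ => rfl
  obtain ⟨w4, e1, e2, e3, e4⟩ := up (fun x => (φ (of x))⁻¹)
    (fun x hx => Subgroup.inv_mem _ (hφ.1 x hx).1) (abh φ)⁻¹ fun x _ => by
      show (ab φ (q (of x)))⁻¹ = _
      rw [abq, map_inv]
  have pres : ∀ ψ : MulAut (FreeGroup X), Sup ψ T → (∀ a ∈ (In T).map q, ab ψ a ∈ (In T).map q) ∧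
      ∀ a ∈ (In T).map q, ab ψ (ab (P π) a) = ab (P π) a := by
    intro ψ hψ
    constructor
    · rintro _ ⟨w, hw, rfl⟩
      exact ⟨ψ w, hψ.1.mem hw, (abq _ _).symm⟩
    · refine ext ((ab ψ : _ →* _).comp (ab (P π))) (ab (P π)) fun x hx => ?_
      show ab ψ (ab (P π) (q (of x))) = ab (P π) (q (of x))
      rw [abq, abq, pj' x hx, hψ.2 _ (hj1 x)]
  have hs : Sup (φ * P π * φ⁻¹ * P π * w1 * w2 * w3 * w4) (T ∪ j '' T) :=
    (((((((hφ.mono Set.subset_union_left).mul hp).mul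
      (hφ.inv.mono Set.subset_union_left)).mul hp).mul a1).mul b1).mul c1).mul e1
  refine ⟨_, _, mem_IA.2 fun x => ?_, hT.union (hT.image j), hs, fun x hx => ?_⟩
  · have W := whitehead ((In T).map q) (ab φ) (ab φ⁻¹) (ab (P π)) (ab w1) (ab w2) (ab w3) (ab w4)
      (pres φ hφ).1 (pres _ hφ.inv).1 mn nm pp (pres φ hφ).2 (pres _ hφ.inv).2
      a3 a4 b3 b4 c3 c4 e3 e4
    by_cases hx : x ∈ T ∪ j '' T
    · rw [← hq, ← abq]
      simp only [map_mul]
      rcases hx with hx | ⟨x, hx, rfl⟩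
      · exact (W _ ⟨of x, of_mem hx, rfl⟩).1
      · have := (W _ ⟨of x, of_mem hx, rfl⟩).2
        rw [← pj' x hx, ← abq]
        exact this
    · rw [hs.2 x hx]
  · simp only [MulAut.mul_apply]
    rw [e2 x hx, c2 x hx, b2 x hx, a2 x hx, pj' x (hST hx), hφ.inv.2 _ (hj1 x), pj x (hST hx),
      hφS x hx]

end Pool.Agent.H70.IA
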