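import Pool.Agent.H70.IA3

set_option autoImplicit false

namespace Pool.Agent.H70.IA

open FreeGroup hiding map_mul map_inv map_one
open Pool.Agent.H70.AutF Filter

variable {X : Type}

theorem ev_all (s : ℕ → MulAut (FreeGroup X))
    (h : ∀ x, ∃ v, ∀ᶠ n in atTop, s n (of x) = v) (w : FreeGroup X) :
    ∃ v, ∀ᶠ n in atTop, s n w = v := by
  induction w using FreeGroup.induction_on with
  | C1 => exact ⟨1, Eventually.of_forall fun n => map_one _⟩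
  | of x => exact h x
  | inv_of x ih =>
    obtain ⟨v, hv⟩ := ih
    exact ⟨v⁻¹, hv.mono fun n hn => by rw [map_inv, hn]⟩
  | mul u w hu hw =>
    obtain ⟨a, ha⟩ := hu
    obtain ⟨b, hb⟩ := hw
    exact ⟨a * b, (ha.and hb).mono fun n hn => by rw [map_mul, hn.1, hn.2]⟩

theorem limit (s : ℕ → MulAut (FreeGroup X))
    (h1 : ∀ x, ∃ v, ∀ᶠ n in atTop, s n (of x) = v)
    (h2 : ∀ x, ∃ v, ∀ᶠ n in atTop, (s n)⁻¹ (of x) = v) :
    ∃ b : MulAut (FreeGroup X), ∀ w, ∀ᶠ n in atTop, s n w = b w := by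
  choose f hf using ev_all s h1
  choose g hg using ev_all (fun n => (s n)⁻¹) h2
  refine ⟨{ toFun := f, invFun := g, left_inv := fun w => ?_, right_inv := fun w => ?_,
            map_mul' := fun u w => ?_ }, hf⟩
  · obtain ⟨n, a, b⟩ := ((hf w).and (hg (f w))).exists
    rw [← b, ← a]; simp
  · obtain ⟨n, a, b⟩ := ((hg w).and (hf (g w))).exists
    rw [← b, ← a]; simp
  · obtain ⟨n, a, b, c⟩ := ((hf u).and ((hf w).and (hf (u * w)))).exists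
    rw [← a, ← b, ← c, map_mul]

def DO (Q : MulAut (FreeGroup X) → Prop) : Prop :=
  ∀ γ ∈ IAg X, ∀ T : Set X, T.Finite → ∃ γ' ∈ IAg X, ∃ T' : Set X, T'.Finite ∧
    (∀ x ∈ T, γ' (of x) = γ (of x)) ∧
      ∀ γ'' : MulAut (FreeGroup X), (∀ x ∈ T', γ'' (of x) = γ' (of x)) → Q γ''

theorem DO.trans {Q : MulAut (FreeGroup X) → Prop} (h : DO Q) {β : MulAut (FreeGroup X)}
    (hβ : β ∈ IAg X) : DO fun γ => Q (β * γ) := by
  intro γ hγ T hT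
  obtain ⟨η, h1, T', h2, h3, h4⟩ := h (β * γ) ((IAg X).mul_mem hβ hγ) T hT
  refine ⟨β⁻¹ * η, (IAg X).mul_mem ((IAg X).inv_mem hβ) h1, T', h2, fun x hx => ?_,
    fun γ'' k => h4 _ fun x hx => ?_⟩
  · rw [MulAut.mul_apply, h3 x hx]; simp
  · rw [MulAut.mul_apply, k x hx]; simp

theorem baire [Countable X] [Nonempty X] {ι : Type} [Countable ι] [Nonempty ι]
    (Q : ι → MulAut (FreeGroup X) → Prop) (h : ∀ i, DO (Q i)) : ∃ γ ∈ IAg X, ∀ i, Q i γ := by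
  obtain ⟨e, he⟩ := exists_surjective_nat X
  obtain ⟨r, hr⟩ := exists_surjective_nat ι
  have key : ∀ (n : ℕ) (s : {p : MulAut (FreeGroup X) × Set X // p.1 ∈ IAg X ∧ p.2.Finite}),
      ∃ t : {p : MulAut (FreeGroup X) × Set X // p.1 ∈ IAg X ∧ p.2.Finite},
        s.1.2 ⊆ t.1.2 ∧ (∀ x ∈ s.1.2, t.1.1 (of x) = s.1.1 (of x)) ∧ e n ∈ t.1.2 ∧
        t.1.1⁻¹ (of (e n)) ∈ In t.1.2 ∧
        ∀ γ'' : MulAut (FreeGroup X), (∀ x ∈ t.1.2, γ'' (of x) = t.1.1 (of x)) → Q (r n) γ'' := by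
    rintro n ⟨⟨γ, T⟩, hγ, hT⟩
    obtain ⟨η, h1, T', h2, h3, h4⟩ := h (r n) γ hγ T hT
    refine ⟨⟨⟨η, insert (e n) (T ∪ T' ∪ supp (η⁻¹ (of (e n))))⟩, h1,
      ((hT.union h2).union (supp_fin _)).insert _⟩, fun x hx => Or.inr (Or.inl (Or.inl hx)),
      h3, Or.inl rfl, In_mono (fun x hx => Or.inr (Or.inr hx)) (mem_supp _),
      fun γ'' k => h4 _ fun x hx => k x (Or.inr (Or.inl (Or.inr hx)))⟩
  choose nx hnx0 using key
  obtain ⟨s, hs⟩ : ∃ s : ℕ → {p : MulAut (FreeGroup X) × Set X // p.1 ∈ IAg X ∧ p.2.Finite},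
      ∀ n, s (n + 1) = nx n (s n) :=
    ⟨fun n => Nat.rec ⟨(1, ∅), (IAg X).one_mem, Set.finite_empty⟩ nx n, fun _ => rfl⟩
  have hnx := fun n => hnx0 n (s n)
  simp only [← hs] at hnx
  clear hnx0 hs
  have mono : ∀ n m, n ≤ m → (s n).1.2 ⊆ (s m).1.2 ∧
      ∀ x ∈ (s n).1.2, (s m).1.1 (of x) = (s n).1.1 (of x) := by
    intro n m h
    induction h with
    | refl => exact ⟨subset_rfl, fun _ _ => rfl⟩
    | step _ ih =>
      refine ⟨ih.1.trans (hnx _).1, fun x hx => ?_⟩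
      rw [(hnx _).2.1 x (ih.1 hx), ih.2 x hx]
  obtain ⟨b, hb⟩ := limit (fun n => (s n).1.1) (fun x => by
    obtain ⟨n, rfl⟩ := he x
    exact ⟨_, (eventually_ge_atTop (n + 1)).mono fun m hm => (mono _ _ hm).2 _ (hnx n).2.2.1⟩)
    (fun x => by
      obtain ⟨n, rfl⟩ := he x
      refine ⟨(s (n + 1)).1.1⁻¹ (of (e n)), (eventually_ge_atTop (n + 1)).mono fun m hm => ?_⟩
      have := aut_eq _ _ (mono _ _ hm).2 (hnx n).2.2.2.1
      apply (s m).1.1.injective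
      rw [this]; simp)
  refine ⟨b, mem_IA.2 fun x => ?_, fun i => ?_⟩
  · obtain ⟨n, hn⟩ := (hb (of x)).exists
    rw [← hn]
    exact IA_app (s n).2.1 _
  · obtain ⟨n, rfl⟩ := hr i
    refine (hnx n).2.2.2.2 b fun x hx => ?_
    obtain ⟨m, h1, h2⟩ := ((hb (of x)).and (eventually_ge_atTop (n + 1))).exists
    rw [← h1]
    exact (mono _ _ h2).2 x hx

theorem Pres.congr {a b : MulAut (FreeGroup X)} {S : Set X} (h : Pres a S)
    (k : ∀ x ∈ S, b (of x) = a (of x)) : Pres b S := by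
  intro x hx
  refine ⟨k x hx ▸ (h x hx).1, ?_⟩
  have : b⁻¹ (of x) = a⁻¹ (of x) := by
    apply b.injective
    rw [aut_eq b a k (h x hx).2]; simp
  exact this ▸ (h x hx).2

theorem resIA (a : MulAut (FreeGroup X)) (ha : a ∈ IAg X) (S : Set X) (h : Pres a S) :
    ∃ b ∈ IAg X, Sup b S ∧ ∀ x ∈ S, b (of x) = a (of x) := by
  obtain ⟨b, h1, h2⟩ := res a S h
  refine ⟨b, mem_IA.2 fun x => ?_, h1, h2⟩
  by_cases k : x ∈ S
  · rw [h2 x k, IA_app ha]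
  · rw [h1.2 x k]

def R1 (T : Set X) (α : MulAut (FreeGroup X)) : Prop :=
  ∃ T' : Set X, T'.Finite ∧ T ⊆ T' ∧ Pres α T'

theorem do_R1 [Infinite X] (T : Set X) (hT : T.Finite) : DO (R1 T) := by
  intro γ hγ T0 hT0
  obtain ⟨φ, T1, h1, h2, h3, h4⟩ := approxIA γ hγ T0 hT0
  exact ⟨φ, h1, T1 ∪ T, h2.union hT, h4, fun γ'' k => ⟨T1 ∪ T, h2.union hT,
    Set.subset_union_right, (h3.mono Set.subset_union_left).1.congr k⟩⟩

def R2 (S S2 : Set X) (u : S → FreeGroup X) (v : S2 → FreeGroup X)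
    (α : MulAut (FreeGroup X)) : Prop :=
  ∀ σ g : MulAut (FreeGroup X), g ∈ IAg X → Pres g S → Sup g S2 → S ⊆ S2 →
    (∀ s : S, σ (of s.1) = u s) → (∀ s : S2, g (of s.1) = v s) →
    (∀ s ∈ S, α (σ (of s)) = σ (g (of s))) →
    ∃ σ2 : MulAut (FreeGroup X), (∀ s ∈ S, σ2 (of s) = σ (of s)) ∧
      ∀ s ∈ S2, α (σ2 (of s)) = σ2 (g (of s))

theorem do_R2 [Infinite X] (S S2 : Set X) (hS : S.Finite) (hS2 : S2.Finite)
    (u : S → FreeGroup X) (v : S2 → FreeGroup X) : DO (R2 S S2 u v) := by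
  intro γ hγ T hT
  haveI := hS.to_subtype
  obtain ⟨U, hU, hu⟩ : ∃ U : Set X, U.Finite ∧ ∀ s, u s ∈ In U :=
    ⟨⋃ s, supp (u s), Set.finite_iUnion fun _ => supp_fin _, fun s =>
      In_mono (Set.subset_iUnion (fun s => supp (u s)) s) (mem_supp _)⟩
  by_cases H : ∃ σ g : MulAut (FreeGroup X), g ∈ IAg X ∧ Pres g S ∧ Sup g S2 ∧ S ⊆ S2 ∧
    (∀ s : S, σ (of s.1) = u s) ∧ (∀ s : S2, g (of s.1) = v s) ∧
    (∀ s ∈ S, γ (σ (of s)) = σ (g (of s)))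
  swap
  · refine ⟨γ, hγ, U, hU, fun _ _ => rfl, fun γ'' k σ g a1 a2 a3 a4 a5 a6 a7 => ?_⟩
    refine absurd ⟨σ, g, a1, a2, a3, a4, a5, a6, fun s hs => ?_⟩ H
    rw [← a7 s hs, a5 ⟨s, hs⟩, aut_eq _ _ k (hu _)]
  obtain ⟨σ0, g, a1, a2, a3, a4, a5, a6, a7⟩ := H
  obtain ⟨σ1, T1, b1, b2, b3⟩ := approx σ0 S hS
  obtain ⟨φ, T2, c1, c2, c3, c4⟩ := approxIA γ hγ (T ∪ U) (hT.union hU)
  obtain ⟨N, hN, n1, n2, n3, n4⟩ : ∃ N : Set X, N.Finite ∧ T ⊆ N ∧ S2 ⊆ N ∧ T1 ⊆ N ∧ T2 ⊆ N :=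
    ⟨T ∪ S2 ∪ T1 ∪ T2, ((hT.union hS2).union b1).union c2,
      fun _ h => Or.inl (Or.inl (Or.inl h)), fun _ h => Or.inl (Or.inl (Or.inr h)),
      fun _ h => Or.inl (Or.inr h), fun _ h => Or.inr h⟩
  obtain ⟨j, hj, hj1⟩ := fresh (S2 \ S) hS2.diff N hN
  obtain ⟨π, p1, p2, -, p4⟩ := swap (S2 \ S) j hj fun a _ h => hj1 a (n2 h.1)
  have p5 : ∀ x ∈ N, x ∉ S2 \ S → π x = x := fun x hx h => p4 x h (by
    rintro ⟨y, _, rfl⟩
    exact hj1 y hx)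
  obtain ⟨gS, d1, d2, d3⟩ := resIA g a1 S a2
  obtain ⟨σ2, hσ2⟩ : ∃ σ2, σ2 = σ1 * P π := ⟨_, rfl⟩
  obtain ⟨d, hd⟩ : ∃ d, d = g * gS⁻¹ := ⟨_, rfl⟩
  have dfix : ∀ x ∈ (S2 \ S)ᶜ, d (of x) = of x := by
    intro x hx
    rw [hd, MulAut.mul_apply]
    by_cases k : x ∈ S
    · rw [← aut_eq gS g d3 (d2.1 x k).2]; simp
    · rw [d2.inv.2 x k, a3.2 x fun h => hx ⟨h, k⟩]
  have δfix : ∀ w ∈ In N, (σ2 * d * σ2⁻¹) w = w := by
    intro w hw
    have h1 : σ2⁻¹ w ∈ In (S2 \ S)ᶜ := by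
      rw [hσ2, mul_inv_rev, MulAut.mul_apply, ← map_inv, inv_eq_of_mul_eq_one_right p1]
      refine aut_In _ (fun x hx => ?_) ((b2.mono n3).1.inv.mem hw)
      rw [P_of]
      refine of_mem ?_
      by_cases k : x ∈ S2 \ S
      · rw [p2 x k]
        exact fun h => hj1 x (n2 h.1)
      · rw [p5 x hx k]
        exact k
    rw [MulAut.mul_apply, MulAut.mul_apply, aut_fix d dfix h1]
    simp
  have e1 : ∀ s ∈ S, σ2 (of s) = σ0 (of s) := fun s hs => by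
    rw [hσ2, MulAut.mul_apply, P_of, p5 s (n2 (a4 hs)) fun h => h.2 hs, b3 s hs]
  have e2 : ∀ s ∈ S2, (σ2 * d * σ2⁻¹ * φ) (σ2 (of s)) = σ2 (g (of s)) := by
    intro s hs
    rw [MulAut.mul_apply]
    by_cases k : s ∈ S
    · have : φ (σ2 (of s)) = σ2 (g (of s)) := by
        rw [e1 s k, aut_eq φ γ c4 (by
          rw [a5 ⟨s, k⟩]; exact In_mono Set.subset_union_right (hu _)), a7 s k,
          aut_eq σ2 σ0 e1 (a2 s k).1]
      rw [this]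
      simp only [MulAut.mul_apply, MulAut.inv_apply, MulEquiv.symm_apply_apply]
      rw [aut_fix d dfix (In_mono (fun x hx h => h.2 hx) (a2 s k).1)]
    · have : φ (σ2 (of s)) = σ2 (of s) := by
        rw [hσ2, MulAut.mul_apply, P_of, p2 s ⟨hs, k⟩, b2.2 _ fun h => hj1 s (n3 h),
          c3.2 _ fun h => hj1 s (n4 h)]
      rw [this]
      simp only [MulAut.mul_apply, MulAut.inv_apply, MulEquiv.symm_apply_apply]
      rw [hd, MulAut.mul_apply, d2.inv.2 s k]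
  refine ⟨σ2 * d * σ2⁻¹ * φ, (IAg X).mul_mem (Subgroup.Normal.conj_mem inferInstance _
    (hd ▸ (IAg X).mul_mem a1 ((IAg X).inv_mem d1)) _) c1,
    ⋃ s ∈ S2, supp (σ2 (of s)), hS2.biUnion fun _ _ => supp_fin _, fun x hx => ?_,
    fun γ'' k σ g' _ _ _ _ f5 f6 _ => ⟨σ2, fun s hs => ?_, fun s hs => ?_⟩⟩
  · rw [MulAut.mul_apply, δfix _ ((c3.mono n4).1 x (n1 hx)).1, c4 x (Or.inl hx)]
  · rw [e1 s hs, a5 ⟨s, hs⟩, f5 ⟨s, hs⟩]
  · rw [aut_eq _ _ k (In_mono (fun y hy => Set.mem_biUnion hs hy) (mem_supp _)), e2 s hs,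
      a6 ⟨s, hs⟩, f6 ⟨s, hs⟩]

def Rich (α : MulAut (FreeGroup X)) : Prop :=
  α ∈ IAg X ∧ (∀ T : Set X, T.Finite → R1 T α) ∧
    ∀ S S2 : Set X, S.Finite → S2.Finite → ∀ u v, R2 S S2 u v α

theorem exists_rich [Infinite X] [Countable X] (β : MulAut (FreeGroup X)) (hβ : β ∈ IAg X) :
    ∃ γ, Rich γ ∧ Rich (β * γ) := by
  classical
  haveI : Countable (FreeGroup X) := FreeGroup.toWord_injective.countable
  obtain ⟨Q, hQ, hQ'⟩ : ∃ Q : (Finset X ⊕ Σ S : Finset X, Σ S2 : Finset X,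
      ((↥(↑S : Set X) → FreeGroup X) × (↥(↑S2 : Set X) → FreeGroup X))) →
        MulAut (FreeGroup X) → Prop, (∀ i, DO (Q i)) ∧
        ∀ α ∈ IAg X, (∀ i, Q i α) → Rich α := by
    refine ⟨Sum.elim (fun T => R1 (T : Set X)) fun r => R2 _ _ r.2.2.1 r.2.2.2, ?_, ?_⟩
    · rintro (T | r)
      · exact do_R1 _ T.finite_toSet
      · exact do_R2 _ _ r.1.finite_toSet r.2.1.finite_toSet _ _
    · intro α hα h
      refine ⟨hα, fun T hT => ?_, fun S S2 hS hS2 => ?_⟩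
      · lift T to Finset X using hT
        exact h (Sum.inl T)
      · lift S to Finset X using hS
        lift S2 to Finset X using hS2
        exact fun u v => h (Sum.inr ⟨S, S2, u, v⟩)
  obtain ⟨γ, h1, h2⟩ := baire (X := X)
    (Sum.elim Q fun i γ => Q i (β * γ)) (by
      rintro (i | i)
      · exact hQ i
      · exact (hQ i).trans hβ)
  exact ⟨γ, hQ' _ h1 fun i => h2 (Sum.inl i),
    hQ' _ ((IAg X).mul_mem hβ h1) fun i => h2 (Sum.inr i)⟩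

end Pool.Agent.H70.IA
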