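import Pool.Agent.H70.IA4

set_option autoImplicit false

namespace Pool.Agent.H70.IA

open FreeGroup hiding map_mul map_inv map_one
open Pool.Agent.H70.AutF Filter

variable {X : Type}

def Cnd (α α' σ σ' : MulAut (FreeGroup X)) (S : Set X) : Prop :=
  S.Finite ∧ Pres (σ⁻¹ * α * σ) S ∧ ∀ s ∈ S, (σ'⁻¹ * α' * σ') (of s) = (σ⁻¹ * α * σ) (of s)

theorem Cnd.symm {α α' σ σ' : MulAut (FreeGroup X)} {S : Set X} (h : Cnd α α' σ σ' S) :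
    Cnd α' α σ' σ S := ⟨h.1, h.2.1.congr h.2.2, fun s hs => (h.2.2 s hs).symm⟩

theorem forth [Infinite X] {α α' : MulAut (FreeGroup X)} (h : Rich α) (h' : Rich α')
    {σ σ' : MulAut (FreeGroup X)} {S : Set X} (c : Cnd α α' σ σ' S) (x : X) :
    ∃ (τ τ' : MulAut (FreeGroup X)) (S2 : Set X), Cnd α α' τ τ' S2 ∧ S ⊆ S2 ∧
      (∀ s ∈ S, τ (of s) = σ (of s)) ∧ (∀ s ∈ S, τ' (of s) = σ' (of s)) ∧
      τ⁻¹ (of x) ∈ In S2 := by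
  obtain ⟨τ, T1, a1, a2, a3⟩ := approx σ S c.1
  obtain ⟨T, b1, b2, b3⟩ := h.2.1 (insert x (T1 ∪ S)) ((a1.union c.1).insert x)
  have ST : S ⊆ T := fun s hs => b2 (Or.inr (Or.inr hs))
  have pτ : Pres τ T := (a2.mono fun s hs => b2 (Or.inr (Or.inl hs))).1
  have pa : Pres (τ⁻¹ * α * τ) T := (pτ.inv.mul b3).mul pτ
  obtain ⟨g, g1, g2, g3⟩ := resIA (τ⁻¹ * α * τ) (by
    simpa using Subgroup.Normal.conj_mem inferInstance _ h.1 τ⁻¹) T pa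
  have e : ∀ s ∈ S, g (of s) = (σ⁻¹ * α * σ) (of s) := by
    intro s hs
    rw [g3 s (ST hs)]
    apply τ.injective
    rw [aut_eq τ σ a3 (c.2.1 s hs).1]
    simp [a3 s hs]
  obtain ⟨τ', t1, t2⟩ := h'.2.2 S T c.1 b1 _ _ σ' g g1 (c.2.1.congr e) g2 ST (fun _ => rfl)
    (fun _ => rfl) fun s hs => by rw [e s hs, ← c.2.2 s hs]; simp
  refine ⟨τ, τ', T, ⟨b1, pa, fun s hs => ?_⟩, ST, a3, t1, (pτ x (b2 (Or.inl rfl))).2⟩
  rw [← g3 s hs, MulAut.mul_apply, MulAut.mul_apply, t2 s hs]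
  simp

theorem inv_agree {σ τ : MulAut (FreeGroup X)} {S : Set X} (h : ∀ s ∈ S, τ (of s) = σ (of s))
    {w : FreeGroup X} (hw : σ⁻¹ w ∈ In S) : τ⁻¹ w = σ⁻¹ w := by
  apply τ.injective
  rw [aut_eq τ σ h hw]; simp

theorem rich_conj [Infinite X] [Countable X] {α α' : MulAut (FreeGroup X)} (h : Rich α)
    (h' : Rich α') : ∃ ψ, ψ * α * ψ⁻¹ = α' := by
  obtain ⟨e, he⟩ := exists_surjective_nat X
  have key : ∀ (n : ℕ) (s : {p : MulAut (FreeGroup X) × MulAut (FreeGroup X) × Set X //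
      Cnd α α' p.1 p.2.1 p.2.2}), ∃ t : {p : MulAut (FreeGroup X) × MulAut (FreeGroup X) × Set X //
        Cnd α α' p.1 p.2.1 p.2.2}, s.1.2.2 ⊆ t.1.2.2 ∧
        (∀ x ∈ s.1.2.2, t.1.1 (of x) = s.1.1 (of x)) ∧
        (∀ x ∈ s.1.2.2, t.1.2.1 (of x) = s.1.2.1 (of x)) ∧
        t.1.1⁻¹ (of (e n)) ∈ In t.1.2.2 ∧ t.1.2.1⁻¹ (of (e n)) ∈ In t.1.2.2 := by
    rintro n ⟨⟨σ, σ', S⟩, c⟩
    obtain ⟨τ, τ', T, a1, a2, a3, a4, a5⟩ := forth h h' c (e n)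
    obtain ⟨ρ', ρ, U, b1, b2, b3, b4, b5⟩ := forth h' h a1.symm (e n)
    refine ⟨⟨⟨ρ, ρ', U⟩, b1.symm⟩, a2.trans b2, fun x hx => (b4 x (a2 hx)).trans (a3 x hx),
      fun x hx => (b3 x (a2 hx)).trans (a4 x hx), ?_, b5⟩
    show ρ⁻¹ _ ∈ In U
    rw [inv_agree b4 a5]
    exact In_mono b2 a5
  choose nx hnx0 using key
  obtain ⟨s, hs⟩ : ∃ s : ℕ → {p : MulAut (FreeGroup X) × MulAut (FreeGroup X) × Set X //
      Cnd α α' p.1 p.2.1 p.2.2}, ∀ n, s (n + 1) = nx n (s n) :=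
    ⟨fun n => Nat.rec ⟨(1, 1, ∅), Set.finite_empty, fun _ h => h.elim, fun _ h => h.elim⟩ nx n,
      fun _ => rfl⟩
  have hnx := fun n => hnx0 n (s n)
  simp only [← hs] at hnx
  clear hnx0 hs
  have mono : ∀ n m, n ≤ m → (s n).1.2.2 ⊆ (s m).1.2.2 ∧
      (∀ x ∈ (s n).1.2.2, (s m).1.1 (of x) = (s n).1.1 (of x)) ∧
      ∀ x ∈ (s n).1.2.2, (s m).1.2.1 (of x) = (s n).1.2.1 (of x) := by
    intro n m h
    induction h with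
    | refl => exact ⟨subset_rfl, fun _ _ => rfl, fun _ _ => rfl⟩
    | step _ ih =>
      refine ⟨ih.1.trans (hnx _).1, fun x hx => ?_, fun x hx => ?_⟩
      · rw [(hnx _).2.1 x (ih.1 hx), ih.2.1 x hx]
      · rw [(hnx _).2.2.1 x (ih.1 hx), ih.2.2 x hx]
  obtain ⟨b, hb⟩ := limit (fun n => (s n).1.2.1 * (s n).1.1⁻¹) (fun x => by
    obtain ⟨n, rfl⟩ := he x
    refine ⟨(s (n + 1)).1.2.1 ((s (n + 1)).1.1⁻¹ (of (e n))),
      (eventually_ge_atTop (n + 1)).mono fun m hm => ?_⟩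
    rw [MulAut.mul_apply, inv_agree (mono _ _ hm).2.1 (hnx n).2.2.2.1,
      aut_eq _ _ (mono _ _ hm).2.2 (hnx n).2.2.2.1])
    (fun x => by
      obtain ⟨n, rfl⟩ := he x
      refine ⟨(s (n + 1)).1.1 ((s (n + 1)).1.2.1⁻¹ (of (e n))),
        (eventually_ge_atTop (n + 1)).mono fun m hm => ?_⟩
      rw [mul_inv_rev, inv_inv, MulAut.mul_apply, inv_agree (mono _ _ hm).2.2 (hnx n).2.2.2.2,
        aut_eq _ _ (mono _ _ hm).2.1 (hnx n).2.2.2.2])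
  refine ⟨b, ?_⟩
  rw [mul_inv_eq_iff_eq_mul]
  refine aut_ext fun x => ?_
  obtain ⟨n, rfl⟩ := he x
  obtain ⟨m, h1, h2, hm⟩ := ((hb (of (e n))).and ((hb (α (of (e n)))).and
    (eventually_ge_atTop (n + 1)))).exists
  rw [MulAut.mul_apply, MulAut.mul_apply, ← h1, ← h2]
  have h3 : (s m).1.1⁻¹ (of (e n)) ∈ In (s m).1.2.2 := by
    rw [inv_agree (mono _ _ hm).2.1 (hnx n).2.2.2.1]
    exact In_mono (mono _ _ hm).1 (hnx n).2.2.2.1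
  have h4 := aut_eq _ _ (s m).2.2.2 h3
  simp only [MulAut.mul_apply, MulAut.inv_apply, MulEquiv.apply_symm_apply] at h4 ⊢
  rw [← h4]
  simp

theorem countable_case [Infinite X] [Countable X] : ∃ α ∈ IAg X, ∀ β ∈ IAg X,
    ∃ ψ χ : MulAut (FreeGroup X), β = ψ * α * ψ⁻¹ * (χ * α * χ⁻¹)⁻¹ := by
  obtain ⟨α, hα, -⟩ := exists_rich (1 : MulAut (FreeGroup X)) (IAg X).one_mem
  refine ⟨α, hα.1, fun β hβ => ?_⟩
  obtain ⟨γ, h1, h2⟩ := exists_rich β hβ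
  obtain ⟨ψ, hψ⟩ := rich_conj hα h2
  obtain ⟨χ, hχ⟩ := rich_conj hα h1
  exact ⟨ψ, χ, by rw [hψ, hχ]; simp⟩

end Pool.Agent.H70.IA
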