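import Pool.Agent.H70.IA5
import Pool.Agent.H70.AutF3

set_option autoImplicit false

namespace Pool.Agent.H70.IA

open FreeGroup hiding map_mul map_inv map_one
open Pool.Agent.H70.AutF Filter

variable {X : Type}

theorem fresh' {α : Type} (A : Set α) (hA : A.Finite) (R : Set X) (hi : R.Infinite) :
    ∃ j : α → X, Set.InjOn j A ∧ ∀ a, j a ∈ R := by
  classical
  haveI := hA.to_subtype
  obtain ⟨n, ⟨e⟩⟩ := Finite.exists_equiv_fin A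
  refine ⟨fun a => (hi.natEmbedding _ (if h : a ∈ A then (e ⟨a, h⟩ : ℕ) else 0) : X), ?_,
    fun a => (hi.natEmbedding _ _).2⟩
  intro a ha b hb h
  have := (hi.natEmbedding _).injective (Subtype.ext h)
  rw [dif_pos ha, dif_pos hb] at this
  exact congrArg Subtype.val (e.injective (Fin.ext this))

theorem Sup.conj {φ : MulAut (FreeGroup X)} {T : Set X} (h : Sup φ T) (π : Equiv.Perm X) :
    Sup (P π * φ * (P π)⁻¹) (π '' T) := by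
  have m : ∀ w ∈ In T, P π w ∈ In (π '' T) := fun w hw =>
    aut_In _ (fun x hx => by rw [P_of]; exact of_mem ⟨x, hx, rfl⟩) hw
  refine ⟨?_, fun x hx => ?_⟩
  · rintro _ ⟨x, hx, rfl⟩
    rw [← P_of]
    constructor
    · simpa using m _ (h.1 x hx).1
    · simpa using m _ (h.1 x hx).2
  · obtain ⟨y, rfl⟩ := π.surjective x
    rw [← P_of]
    simp [h.2 y fun k => hx ⟨y, k, rfl⟩]

theorem approx_rel (B Y : Set X) (hBY : ∀ y ∈ Y, y ∉ B) (hY : Y.Infinite)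
    (σ : MulAut (FreeGroup X)) (hσ : σ ∈ IAg X) (h1 : Sup σ (B ∪ Y))
    (h2 : ∀ b ∈ B, σ (of b) = of b) (S : Set X) (hS : S.Finite) (hSY : S ⊆ Y) :
    ∃ φ ∈ IAg X, ∃ T : Set X, T.Finite ∧ S ⊆ T ∧ T ⊆ Y ∧ Sup φ (B ∪ T) ∧
      (∀ b ∈ B, φ (of b) = of b) ∧ ∀ s ∈ S, φ (of s) = σ (of s) := by
  haveI : Infinite X := Set.infinite_univ_iff.1 (hY.mono (Set.subset_univ _))
  obtain ⟨Y0, a1, a2, a3, a4⟩ : ∃ Y0 : Set X, Y0.Finite ∧ S ⊆ Y0 ∧ Y0 ⊆ B ∪ Y ∧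
      ∀ s ∈ S, σ (of s) ∈ In Y0 := by
    choose! E e1 e2 e3 using fun s (hs : s ∈ S) => fin_sub (h1.1 s (Or.inr (hSY hs))).1
    refine ⟨S ∪ ⋃ s ∈ S, E s, hS.union (hS.biUnion e1), Set.subset_union_left,
      Set.union_subset (hSY.trans Set.subset_union_right) (Set.iUnion₂_subset e2), fun s hs =>
      In_mono (fun y hy => Or.inr (Set.mem_biUnion hs hy)) (e3 s hs)⟩
  obtain ⟨φ, T, b1, b2, b3, b4⟩ := approxIA σ hσ (S ∪ Y0 ∩ B) (hS.union (a1.inter_of_left _))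
  obtain ⟨j, hj, hj1⟩ := fresh' (T \ Y0) b2.diff (Y \ (T ∪ Y0)) (hY.diff (b2.union a1))
  obtain ⟨π, p1, p2, -, p4⟩ := swap (T \ Y0) j hj fun a _ h => (hj1 a).2 (Or.inl h.1)
  have p5 : ∀ x ∈ Y0, π x = x := fun x hx => p4 x (fun h => h.2 hx) (by
    rintro ⟨y, _, rfl⟩
    exact (hj1 y).2 (Or.inr hx))
  have p6 : ∀ w ∈ In Y0, P π w = w := fun w hw => aut_fix _ (fun x hx => by rw [P_of, p5 x hx]) hw
  have c := (b3.conj π).mono (T := Y0 ∪ j '' (T \ Y0)) (by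
    rintro _ ⟨x, hx, rfl⟩
    by_cases k : x ∈ Y0
    · rw [p5 x k]; exact Or.inl k
    · rw [p2 x ⟨hx, k⟩]; exact Or.inr ⟨x, ⟨hx, k⟩, rfl⟩)
  have e : ∀ s ∈ S ∪ Y0 ∩ B, (P π * φ * (P π)⁻¹) (of s) = σ (of s) := by
    intro s hs
    have k : s ∈ Y0 := hs.elim (fun h => a2 h) fun h => h.1
    rw [MulAut.mul_apply, MulAut.mul_apply, inv_fix (p6 _ (of_mem k)), b4 s hs, p6]
    rcases hs with hs | hs
    · exact a4 s hs
    · rw [h2 s hs.2]; exact of_mem k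
  refine ⟨_, Subgroup.Normal.conj_mem inferInstance _ b1 _, Y0 ∩ Y ∪ j '' (T \ Y0),
    (a1.inter_of_left _).union (b2.diff.image _), fun s hs => Or.inl ⟨a2 hs, hSY hs⟩, ?_,
    c.mono ?_, fun b hb => ?_, fun s hs => e s (Or.inl hs)⟩
  · rintro _ (h | ⟨x, _, rfl⟩)
    · exact h.2
    · exact (hj1 x).1
  · rintro x (h | h)
    · exact (a3 h).elim Or.inl fun k => Or.inr (Or.inl ⟨h, k⟩)
    · exact Or.inr (Or.inr h)
  · by_cases k : b ∈ Y0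
    · rw [e b (Or.inr ⟨k, hb⟩), h2 b hb]
    · refine c.2 b ?_
      rintro (h | ⟨x, _, rfl⟩)
      · exact k h
      · exact hBY _ (hj1 x).1 hb

def Sp (B Y : Set X) (l γ : MulAut (FreeGroup X)) : Prop :=
  γ ∈ IAg X ∧ Sup γ (B ∪ Y) ∧ ∀ b ∈ B, γ (of b) = l (of b)

theorem Sp.approx {B Y : Set X} (hBY : ∀ y ∈ Y, y ∉ B) (hY : Y.Infinite)
    {l γ : MulAut (FreeGroup X)} (hl : l ∈ IAg X) (hl' : Sup l B) (h : Sp B Y l γ)
    (T : Set X) (hT : T.Finite) :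
    ∃ φ, Sp B Y l φ ∧ ∃ T1 : Set X, T1.Finite ∧ T ∩ Y ⊆ T1 ∧ T1 ⊆ Y ∧ Sup φ (B ∪ T1) ∧
      ∀ x ∈ T, φ (of x) = γ (of x) := by
  obtain ⟨φ, a1, T1, a2, a3, a4, a5, a6, a7⟩ := approx_rel B Y hBY hY (l⁻¹ * γ)
    ((IAg X).mul_mem ((IAg X).inv_mem hl) h.1)
    ((hl'.inv.mono Set.subset_union_left).mul h.2.1)
    (fun b hb => by rw [MulAut.mul_apply, h.2.2 b hb]; simp) (T ∩ Y) (hT.inter_of_left _)
    Set.inter_subset_right
  have s := (hl'.mono Set.subset_union_left).mul a5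
  have s' := s.mono (Set.union_subset_union_right B a4)
  have e : ∀ b ∈ B, (l * φ) (of b) = l (of b) := fun b hb => by rw [MulAut.mul_apply, a6 b hb]
  refine ⟨l * φ, ⟨(IAg X).mul_mem hl a1, s', e⟩, T1, a2, a3, a4, s, fun x hx => ?_⟩
  by_cases k : x ∈ B ∪ Y
  · rcases k with k | k
    · rw [e x k, h.2.2 x k]
    · rw [MulAut.mul_apply, a7 x ⟨hx, k⟩]; simp
  · rw [s'.2 x k, h.2.1.2 x k]

def DOr (B Y : Set X) (l : MulAut (FreeGroup X)) (Q : MulAut (FreeGroup X) → Prop) : Prop :=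
  ∀ γ, Sp B Y l γ → ∀ T : Set X, T.Finite → ∃ γ', Sp B Y l γ' ∧ ∃ T' : Set X, T'.Finite ∧
    (∀ x ∈ T, γ' (of x) = γ (of x)) ∧
      ∀ γ'' : MulAut (FreeGroup X), (∀ b ∈ B, γ'' (of b) = l (of b)) →
        (∀ x ∈ T', γ'' (of x) = γ' (of x)) → Q γ''

theorem DOr.trans {B Y : Set X} {l l' : MulAut (FreeGroup X)} {Q : MulAut (FreeGroup X) → Prop}
    (h : DOr B Y l' Q) {β : MulAut (FreeGroup X)} (hβ : β ∈ IAg X) (hβ' : Sup β (B ∪ Y))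
    (e : ∀ b ∈ B, l' (of b) = β (l (of b))) : DOr B Y l fun γ => Q (β * γ) := by
  intro γ hγ T hT
  obtain ⟨η, h1, T', h2, h3, h4⟩ := h (β * γ) ⟨(IAg X).mul_mem hβ hγ.1, hβ'.mul hγ.2.1,
    fun b hb => by rw [MulAut.mul_apply, hγ.2.2 b hb, e b hb]⟩ T hT
  refine ⟨β⁻¹ * η, ⟨(IAg X).mul_mem ((IAg X).inv_mem hβ) h1.1, hβ'.inv.mul h1.2.1,
    fun b hb => ?_⟩, T', h2, fun x hx => ?_,
    fun γ'' k0 k => h4 _ (fun x hx => ?_) fun x hx => ?_⟩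
  · rw [MulAut.mul_apply, h1.2.2 b hb, e b hb]; simp
  · rw [MulAut.mul_apply, h3 x hx]; simp
  · rw [MulAut.mul_apply, k0 x hx, e x hx]
  · rw [MulAut.mul_apply, k x hx]; simp

theorem baire_rel {B Y : Set X} (hY : Y.Countable) (hY' : Y.Nonempty) {l : MulAut (FreeGroup X)}
    (hl : l ∈ IAg X) (hl' : Sup l B) {ι : Type} [Countable ι] [Nonempty ι]
    (Q : ι → MulAut (FreeGroup X) → Prop) (h : ∀ i, DOr B Y l (Q i)) :
    ∃ γ, Sp B Y l γ ∧ ∀ i, Q i γ := by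
  obtain ⟨e, he⟩ := hY.exists_eq_range hY'
  obtain ⟨r, hr⟩ := exists_surjective_nat ι
  have key : ∀ (n : ℕ) (s : {p : MulAut (FreeGroup X) × Set X // Sp B Y l p.1 ∧ p.2.Finite}),
      ∃ t : {p : MulAut (FreeGroup X) × Set X // Sp B Y l p.1 ∧ p.2.Finite},
        s.1.2 ⊆ t.1.2 ∧ (∀ x ∈ s.1.2, t.1.1 (of x) = s.1.1 (of x)) ∧ e n ∈ t.1.2 ∧
        t.1.1⁻¹ (of (e n)) ∈ In t.1.2 ∧
        ∀ γ'' : MulAut (FreeGroup X), (∀ b ∈ B, γ'' (of b) = l (of b)) →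
          (∀ x ∈ t.1.2, γ'' (of x) = t.1.1 (of x)) → Q (r n) γ'' := by
    rintro n ⟨⟨γ, T⟩, hγ, hT⟩
    obtain ⟨η, h1, T', h2, h3, h4⟩ := h (r n) γ hγ T hT
    refine ⟨⟨⟨η, insert (e n) (T ∪ T' ∪ supp (η⁻¹ (of (e n))))⟩, h1,
      ((hT.union h2).union (supp_fin _)).insert _⟩, fun x hx => Or.inr (Or.inl (Or.inl hx)),
      h3, Or.inl rfl, In_mono (fun x hx => Or.inr (Or.inr hx)) (mem_supp _),
      fun γ'' k0 k => h4 _ k0 fun x hx => k x (Or.inr (Or.inl (Or.inr hx)))⟩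
  choose nx hnx0 using key
  obtain ⟨s, hs⟩ : ∃ s : ℕ → {p : MulAut (FreeGroup X) × Set X // Sp B Y l p.1 ∧ p.2.Finite},
      ∀ n, s (n + 1) = nx n (s n) :=
    ⟨fun n => Nat.rec ⟨(l, ∅), ⟨hl, hl'.mono Set.subset_union_left, fun _ _ => rfl⟩,
      Set.finite_empty⟩ nx n, fun _ => rfl⟩
  have hnx := fun n => hnx0 n (s n)
  simp only [← hs] at hnx
  clear hnx0 hs
  have mono : ∀ n m, n ≤ m → (s n).1.2 ⊆ (s m).1.2 ∧
      ∀ x ∈ (s n).1.2, (s m).1.1 (of x) = (s n).1.1 (of x) := by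
    intro n m h
    induction h with
    | refl => exact ⟨subset_rfl, fun _ _ => rfl⟩
    | step _ ih =>
      refine ⟨ih.1.trans (hnx _).1, fun x hx => ?_⟩
      rw [(hnx _).2.1 x (ih.1 hx), ih.2 x hx]
  obtain ⟨b, hb⟩ := limit (fun n => (s n).1.1) (fun x => by
    by_cases k : x ∈ B ∪ Y
    · rcases k with k | k
      · exact ⟨_, Eventually.of_forall fun n => (s n).2.1.2.2 x k⟩
      · obtain ⟨n, rfl⟩ := he ▸ k
        exact ⟨_, (eventually_ge_atTop (n + 1)).mono fun m hm => (mono _ _ hm).2 _ (hnx n).2.2.1⟩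
    · exact ⟨_, Eventually.of_forall fun n => (s n).2.1.2.1.2 x k⟩)
    (fun x => by
      by_cases k : x ∈ B ∪ Y
      · rcases k with k | k
        · exact ⟨_, Eventually.of_forall fun n => inv_agree (s n).2.1.2.2 (hl'.1 x k).2⟩
        · obtain ⟨n, rfl⟩ := he ▸ k
          exact ⟨_, (eventually_ge_atTop (n + 1)).mono fun m hm =>
            inv_agree (mono _ _ hm).2 (hnx n).2.2.2.1⟩
      · exact ⟨_, Eventually.of_forall fun n => (s n).2.1.2.1.inv.2 x k⟩)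
  have hb' : ∀ w, ∃ n, (s n).1.1 w = b w := fun w => (hb w).exists
  have bB : ∀ x ∈ B, b (of x) = l (of x) := fun x hx => by
    obtain ⟨n, hn⟩ := hb' (of x)
    rw [← hn, (s n).2.1.2.2 x hx]
  refine ⟨b, ⟨mem_IA.2 fun x => ?_, ⟨fun x hx => ⟨?_, ?_⟩, fun x hx => ?_⟩, bB⟩, fun i => ?_⟩
  · obtain ⟨n, hn⟩ := hb' (of x)
    rw [← hn]
    exact IA_app (s n).2.1.1 _
  · obtain ⟨n, hn⟩ := hb' (of x)
    rw [← hn]
    exact ((s n).2.1.2.1.1 x hx).1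
  · obtain ⟨n, hn⟩ := hb' (b⁻¹ (of x))
    have : b⁻¹ (of x) = (s n).1.1⁻¹ (of x) := by
      apply (s n).1.1.injective
      rw [hn]; simp
    rw [this]
    exact ((s n).2.1.2.1.1 x hx).2
  · obtain ⟨n, hn⟩ := hb' (of x)
    rw [← hn]
    exact (s n).2.1.2.1.2 x hx
  · obtain ⟨n, rfl⟩ := hr i
    refine (hnx n).2.2.2.2 b bB fun x hx => ?_
    obtain ⟨m, h1, h2⟩ := ((hb (of x)).and (eventually_ge_atTop (n + 1))).exists
    rw [← h1]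
    exact (mono _ _ h2).2 x hx

def R1r (B Y T : Set X) (α : MulAut (FreeGroup X)) : Prop :=
  ∃ T' : Set X, T'.Finite ∧ T ∩ Y ⊆ T' ∧ T' ⊆ Y ∧ Pres α (B ∪ T')

theorem do_R1r {B Y : Set X} (hBY : ∀ y ∈ Y, y ∉ B) (hY : Y.Infinite)
    {l : MulAut (FreeGroup X)} (hl : l ∈ IAg X) (hl' : Sup l B) (T : Set X) (hT : T.Finite) :
    DOr B Y l (R1r B Y T) := by
  intro γ hγ T0 hT0
  obtain ⟨φ, h1, T1, h2, h3, h4, h5, h6⟩ := hγ.approx hBY hY hl hl' (T0 ∪ T) (hT0.union hT)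
  refine ⟨φ, h1, T1, h2, fun x hx => h6 x (Or.inl hx), fun γ'' k0 k => ⟨T1, h2,
    fun x hx => h3 ⟨Or.inr hx.1, hx.2⟩, h4, h5.1.congr ?_⟩⟩
  rintro x (hx | hx)
  · rw [k0 x hx, h1.2.2 x hx]
  · exact k x hx

def Valid (α : MulAut (FreeGroup X)) (J D : Set X) (g : MulAut (FreeGroup X)) : Prop :=
  J.Finite ∧ D.Finite ∧ (∀ x ∈ J, x ∉ D) ∧ g ∈ IAg X ∧ Sup g (J ∪ D) ∧ Pres α J ∧
    ∀ x ∈ J, g (of x) = α (of x)

def Realz (α : MulAut (FreeGroup X)) (J D : Set X) (g : MulAut (FreeGroup X)) (D' : Set X) :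
    Prop :=
  ∃ π : Equiv.Perm X, (∀ x ∈ J, π x = x) ∧ π '' D = D' ∧
    ∀ d ∈ D, α (of (π d)) = P π (g (of d))

def Task (B Y J D : Set X) (g α : MulAut (FreeGroup X)) : Prop :=
  ∃ D' : Set X, D'.Finite ∧ D' ⊆ Y ∧ Pres α (B ∪ D') ∧ (J ⊆ B → Valid α J D g → Realz α J D g D')

theorem do_task {B Y : Set X} (hBY : ∀ y ∈ Y, y ∉ B) (hY : Y.Infinite)
    {l : MulAut (FreeGroup X)} (hl : l ∈ IAg X) (hl' : Sup l B) (J D : Set X)
    (g : MulAut (FreeGroup X)) : DOr B Y l (Task B Y J D g) := by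
  intro γ hγ T hT
  by_cases H : J ⊆ B ∧ Valid l J D g
  swap
  · refine ⟨γ, hγ, ∅, Set.finite_empty, fun _ _ => rfl, fun γ'' k _ => ⟨∅, Set.finite_empty,
      Set.empty_subset _, by rw [Set.union_empty]; exact hl'.1.congr k, fun h1 h2 => ?_⟩⟩
    obtain ⟨a1, a2, a3, a4, a5, a6, a7⟩ := h2
    exact absurd ⟨h1, a1, a2, a3, a4, a5, a6.congr fun x hx => (k x (h1 hx)).symm,
      fun x hx => (a7 x hx).trans (k x (h1 hx))⟩ H
  obtain ⟨JB, a1, a2, a3, a4, a5, a6, a7⟩ := H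
  obtain ⟨φ, c1, T1, c2, c3, c4, c5, c6⟩ := hγ.approx hBY hY hl hl' T hT
  obtain ⟨j, hj, hj1⟩ := fresh' D a2 (Y \ (D ∪ T1)) (hY.diff (a2.union c2))
  obtain ⟨π, p1, p2, -, p4⟩ := swap D j hj fun a _ h => (hj1 a).2 (Or.inl h)
  have p5 : ∀ x ∈ J, π x = x := fun x hx => p4 x (a3 x hx) (by
    rintro ⟨y, _, rfl⟩
    exact hBY _ (hj1 y).1 (JB hx))
  have p6 : π '' D = j '' D := Set.image_congr p2
  have jY : j '' D ⊆ Y := by
    rintro _ ⟨y, _, rfl⟩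
    exact (hj1 y).1
  have jn : ∀ x ∈ B ∪ T1, x ∈ (j '' D)ᶜ := by
    rintro _ hx ⟨y, _, rfl⟩
    exact hx.elim (hBY _ (hj1 y).1) fun h => (hj1 y).2 (Or.inr h)
  obtain ⟨g', hg'⟩ : ∃ g', g' = P π * g * (P π)⁻¹ := ⟨_, rfl⟩
  have g1 : Sup g' (J ∪ j '' D) := hg' ▸ (a5.conj π).mono (by
    rw [Set.image_union, p6]
    refine Set.union_subset_union_left _ ?_
    rintro _ ⟨x, hx, rfl⟩
    rwa [p5 x hx])
  have pJ : ∀ w ∈ In J, P π w = w := fun w hw => aut_fix _ (fun x hx => by rw [P_of, p5 x hx]) hw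
  have g2 : ∀ x ∈ J, g' (of x) = l (of x) := fun x hx => by
    rw [hg', MulAut.mul_apply, MulAut.mul_apply, inv_fix (pJ _ (of_mem hx)), a7 x hx,
      pJ _ (a6 x hx).1]
  obtain ⟨gS, d1, d2, d3⟩ := resIA l hl J a6
  obtain ⟨d, hd⟩ : ∃ d, d = g' * gS⁻¹ := ⟨_, rfl⟩
  have dfix : ∀ x ∈ (j '' D)ᶜ, d (of x) = of x := by
    intro x hx
    rw [hd, MulAut.mul_apply]
    by_cases k : x ∈ J
    · rw [← aut_eq gS g' (fun x hx => (d3 x hx).trans (g2 x hx).symm) (d2.1 x k).2]; simp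
    · rw [d2.inv.2 x k, g1.2 x fun h => h.elim k hx]
  have dsup : Sup d (B ∪ j '' D) := hd ▸ (g1.mono (Set.union_subset_union_left _ JB)).mul
    (d2.inv.mono (JB.trans Set.subset_union_left))
  have dD : ∀ x ∈ j '' D, d (of x) = g' (of x) := fun x hx => by
    rw [hd, MulAut.mul_apply, d2.inv.2 x fun h => jn x (Or.inl (JB h)) hx]
  have dIA : d ∈ IAg X := hd ▸ (IAg X).mul_mem
    (hg' ▸ Subgroup.Normal.conj_mem inferInstance _ a4 _) ((IAg X).inv_mem d1)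
  have e0 : ∀ x ∈ B ∪ T1, (d * φ) (of x) = φ (of x) := fun x hx => by
    rw [MulAut.mul_apply, aut_fix d dfix (In_mono jn (c5.1 x hx).1)]
  have e1 : ∀ x ∈ j '' D, (d * φ) (of x) = g' (of x) := fun x hx => by
    rw [MulAut.mul_apply, c5.2 x fun h => jn x h hx, dD x hx]
  have s1 : Sup (d * φ) (B ∪ Y) := (dsup.mono (Set.union_subset_union_right _ jY)).mul c1.2.1
  refine ⟨d * φ, ⟨(IAg X).mul_mem dIA c1.1, s1, fun b hb => (e0 b (Or.inl hb)).trans (c1.2.2 b hb)⟩,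
    j '' D, a2.image _, fun x hx => ?_, fun γ'' k0 k => ⟨j '' D, a2.image _, jY, ?_,
      fun _ _ => ⟨π, p5, p6, fun x hx => ?_⟩⟩⟩
  · rw [← c6 x hx]
    by_cases k : x ∈ B ∪ Y
    · exact e0 x (k.imp_right fun k => c3 ⟨hx, k⟩)
    · rw [s1.2 x k, c1.2.1.2 x k]
  · refine (dsup.1.mul (hl'.mono Set.subset_union_left).1).congr ?_
    rintro x (hx | hx)
    · rw [k0 x hx, MulAut.mul_apply,
        aut_fix d dfix (In_mono (fun y hy => jn y (Or.inl hy)) (hl'.1 x hx).1)]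
    · rw [k x hx, e1 x hx, MulAut.mul_apply, hl'.2 x (hBY x (jY hx)), dD x hx]
  · have m : π x ∈ j '' D := p6 ▸ ⟨x, hx, rfl⟩
    rw [k _ m, e1 _ m, hg', ← P_of]
    simp

end Pool.Agent.H70.IA
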