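import Pool.Agent.H70.IA6

set_option autoImplicit false

namespace Pool.Agent.H70.IA

open FreeGroup hiding map_mul map_inv map_one
open Pool.Agent.H70.AutF Cardinal

variable {X : Type}

def Stage (B Y J D : Set X) (g α : MulAut (FreeGroup X)) (T : ℕ → Set X) : Prop :=
  Monotone T ∧ (∀ n, (T n).Finite ∧ T n ⊆ Y ∧ Pres α (B ∪ T n)) ∧ (∀ y ∈ Y, ∃ n, y ∈ T n) ∧
    (Y.Nonempty → J ⊆ B → Valid α J D g → Realz α J D g (T 0))

theorem Stage.congr {B Y J D : Set X} {g α α' : MulAut (FreeGroup X)} {T : ℕ → Set X}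
    (h : Stage B Y J D g α T) (k : ∀ x ∈ B ∪ Y, α' (of x) = α (of x)) :
    Stage B Y J D g α' T := by
  obtain ⟨h1, h2, h3, h4⟩ := h
  refine ⟨h1, fun n => ⟨(h2 n).1, (h2 n).2.1, (h2 n).2.2.congr fun x hx =>
    k x (hx.imp_right fun h => (h2 n).2.1 h)⟩, h3, fun a b c => ?_⟩
  obtain ⟨a1, a2, a3, a4, a5, a6, a7⟩ := c
  obtain ⟨π, p1, p2, p3⟩ := h4 a b ⟨a1, a2, a3, a4, a5,
    a6.congr fun x hx => (k x (Or.inl (b hx))).symm,
    fun x hx => (a7 x hx).trans (k x (Or.inl (b hx)))⟩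
  refine ⟨π, p1, p2, fun d hd => ?_⟩
  rw [k _ (Or.inr ((h2 0).2.1 (p2 ▸ ⟨d, hd, rfl⟩))), p3 d hd]

theorem chain {B Y J D : Set X} {g α : MulAut (FreeGroup X)} (hY : Y.Countable)
    (hY' : Y.Nonempty) (h1 : Task B Y J D g α) (h2 : ∀ T : Set X, T.Finite → R1r B Y T α) :
    ∃ T, Stage B Y J D g α T := by
  obtain ⟨e, he⟩ := hY.exists_eq_range hY'
  obtain ⟨D', a1, a2, a3, a4⟩ := h1
  have key : ∀ (n : ℕ) (s : {T : Set X // T.Finite ∧ T ⊆ Y ∧ Pres α (B ∪ T)}),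
      ∃ t : {T : Set X // T.Finite ∧ T ⊆ Y ∧ Pres α (B ∪ T)}, s.1 ⊆ t.1 ∧ e n ∈ t.1 := by
    rintro n ⟨T, b1, b2, b3⟩
    obtain ⟨T', c1, c2, c3, c4⟩ := h2 (insert (e n) T) (b1.insert _)
    exact ⟨⟨T', c1, c3, c4⟩, fun x hx => c2 ⟨Or.inr hx, b2 hx⟩,
      c2 ⟨Or.inl rfl, he ▸ ⟨n, rfl⟩⟩⟩
  choose nx hnx using key
  obtain ⟨s, s0, hs⟩ : ∃ s : ℕ → {T : Set X // T.Finite ∧ T ⊆ Y ∧ Pres α (B ∪ T)},
      (s 0).1 = D' ∧ ∀ n, s (n + 1) = nx n (s n) :=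
    ⟨fun n => Nat.rec ⟨D', a1, a2, a3⟩ nx n, rfl, fun _ => rfl⟩
  refine ⟨fun n => (s n).1, monotone_nat_of_le_succ fun n => ?_, fun n => (s n).2,
    fun y hy => ?_, fun _ => by simpa only [s0] using a4⟩
  · rw [hs]; exact (hnx n _).1
  · obtain ⟨n, rfl⟩ := he ▸ hy
    exact ⟨n + 1, by simp only [hs]; exact (hnx n _).2⟩

theorem step_rel {B Y : Set X} (hBY : ∀ y ∈ Y, y ∉ B) (hY : Y.Countable)
    (hY' : Y = ∅ ∨ Y.Infinite) {β l : MulAut (FreeGroup X)} (hβ : β ∈ IAg X) (b1 : Pres β B)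
    (b2 : Pres β (B ∪ Y)) (hl : l ∈ IAg X) (hl' : Sup l B) (J D : Set X)
    (g : MulAut (FreeGroup X)) :
    ∃ γ T1 T2, Sp B Y l γ ∧ Stage B Y J D g γ T1 ∧ Stage B Y J D g (β * γ) T2 := by
  rcases hY' with rfl | hY'
  · refine ⟨l, fun _ => ∅, fun _ => ∅, ⟨hl, hl'.mono Set.subset_union_left, fun _ _ => rfl⟩,
      ⟨monotone_const, fun _ => ⟨Set.finite_empty, subset_rfl, ?_⟩, by simp, by simp⟩,
      ⟨monotone_const, fun _ => ⟨Set.finite_empty, subset_rfl, ?_⟩, by simp, by simp⟩⟩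
    · rw [Set.union_empty]; exact hl'.1
    · rw [Set.union_empty]; exact b1.mul hl'.1
  obtain ⟨βY, c1, c2, c3⟩ := resIA β hβ _ b2
  obtain ⟨l', d1, d2, d3⟩ := resIA (β * l) ((IAg X).mul_mem hβ hl) B (b1.mul hl'.1)
  haveI := hY.to_subtype
  obtain ⟨Q, hQ, hQ'⟩ : ∃ Q : Option (Finset Y) → MulAut (FreeGroup X) → Prop,
      (∀ m ∈ IAg X, Sup m B → ∀ i, DOr B Y m (Q i)) ∧
        ∀ α, (∀ i, Q i α) → ∃ T, Stage B Y J D g α T := by
    refine ⟨fun o => o.elim (Task B Y J D g) fun T => R1r B Y (Subtype.val '' (T : Set Y)),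
      fun m h1 h2 => ?_, fun α h => chain hY hY'.nonempty (h none) fun T hT => ?_⟩
    · rintro (_ | T)
      · exact do_task hBY hY' h1 h2 J D g
      · exact do_R1r hBY hY' h1 h2 _ (T.finite_toSet.image _)
    · obtain ⟨T', e1, e2, e3⟩ := h (some (hT.preimage Subtype.val_injective.injOn).toFinset)
      refine ⟨T', e1, fun x hx => e2 ⟨⟨⟨x, hx.2⟩, ?_, rfl⟩, hx.2⟩, e3⟩
      simpa using hx.1
  obtain ⟨γ, h1, h2⟩ := baire_rel hY hY'.nonempty hl hl'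
    (Sum.elim Q fun i γ => Q i (βY * γ)) (by
      rintro (i | i)
      · exact hQ l hl hl' i
      · refine (hQ l' d1 d2 i).trans c1 c2 fun b hb => ?_
        rw [d3 b hb, MulAut.mul_apply,
          aut_eq βY β c3 (In_mono Set.subset_union_left (hl'.1 b hb).1)])
  obtain ⟨T1, e1⟩ := hQ' γ fun i => h2 (Sum.inl i)
  obtain ⟨T2, e2⟩ := hQ' _ fun i => h2 (Sum.inr i)
  refine ⟨γ, T1, T2, h1, e1, e2.congr fun x hx => ?_⟩
  rw [MulAut.mul_apply, MulAut.mul_apply, aut_eq βY β c3 (h1.2.1.1 x hx).1]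

theorem rec_ex {I A : Type} [LinearOrder I] [WellFoundedLT I] [Nonempty A] (G : I → A → Prop)
    (R : I → A → A → Prop)
    (step : ∀ i (f : I → A), (∀ k < i, G k (f k) ∧ ∀ m < k, R m (f m) (f k)) →
      ∃ a, G i a ∧ ∀ k < i, R k (f k) a) :
    ∃ f : I → A, ∀ i, G i (f i) ∧ ∀ k < i, R k (f k) (f i) := by
  obtain ⟨f, hf⟩ : ∃ f : I → A, ∀ i, f i =
      Classical.epsilon fun a => G i a ∧ ∀ k < i, R k (f k) a := by
    refine ⟨(wellFounded_lt (α := I)).fix fun i ih => Classical.epsilon fun a =>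
      G i a ∧ ∀ k (h : k < i), R k (ih k h) a, fun i => ?_⟩
    rw [WellFounded.fix_eq]
  refine ⟨f, fun i => ?_⟩
  induction i using WellFoundedLT.induction with
  | ind i ih =>
    have := Classical.epsilon_spec (step i f ih)
    rwa [← hf] at this

theorem glue_hom {I G : Type} [Group G] [LinearOrder I] (s : Set I) (J : I → Set X)
    (f : I → FreeGroup X →* G) (d : X → G)
    (h : ∀ k ∈ s, ∀ m ∈ s, m < k → J m ⊆ J k ∧ ∀ x ∈ J m, f k (of x) = f m (of x)) :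
    ∃ F : FreeGroup X →* G, (∀ k ∈ s, ∀ w ∈ In (J k), F w = f k w) ∧
      ∀ x, x ∉ ⋃ k ∈ s, J k → F (of x) = d x := by
  classical
  obtain ⟨F, hF⟩ : ∃ F : FreeGroup X →* G, ∀ x, F (of x) =
      if h : ∃ k ∈ s, x ∈ J k then f h.choose (of x) else d x :=
    ⟨FreeGroup.lift _, fun _ => lift_apply_of⟩
  refine ⟨F, fun k hk w hw => eq_on F (f k) (fun x hx => ?_) hw, fun x hx => ?_⟩
  · have e : ∃ k ∈ s, x ∈ J k := ⟨k, hk, hx⟩
    rw [hF, dif_pos e]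
    rcases lt_trichotomy e.choose k with c | c | c
    · exact ((h k hk _ e.choose_spec.1 c).2 x e.choose_spec.2).symm
    · rw [c]
    · exact (h _ e.choose_spec.1 k hk c).2 x hx
  · rw [hF, dif_neg (by simpa using hx)]

theorem glue_aut {I : Type} [LinearOrder I] (s : Set I) (J : I → Set X)
    (f : I → MulAut (FreeGroup X)) (hf : ∀ k ∈ s, f k ∈ IAg X ∧ Pres (f k) (J k))
    (h : ∀ k ∈ s, ∀ m ∈ s, m < k → J m ⊆ J k ∧ ∀ x ∈ J m, f k (of x) = f m (of x)) :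
    ∃ l ∈ IAg X, Sup l (⋃ k ∈ s, J k) ∧ ∀ k ∈ s, ∀ x ∈ J k, l (of x) = f k (of x) := by
  obtain ⟨F, a1, a2⟩ := glue_hom s J (fun k => (f k).toMonoidHom) of h
  obtain ⟨F', b1, b2⟩ := glue_hom s J (fun k => (f k)⁻¹.toMonoidHom) of fun k hk m hm c =>
    ⟨(h k hk m hm c).1, fun x hx => inv_agree (h k hk m hm c).2 ((hf m hm).2 x hx).2⟩
  obtain ⟨l, c1, c2⟩ := mk_aut F F' (fun x => by
    by_cases hx : x ∈ ⋃ k ∈ s, J k
    · obtain ⟨k, hk, hx⟩ := Set.mem_iUnion₂.1 hx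
      rw [b1 k hk _ (of_mem hx)]
      exact (a1 k hk _ ((hf k hk).2 x hx).2).trans (by simp)
    · rw [b2 x hx, a2 x hx]) (fun x => by
    by_cases hx : x ∈ ⋃ k ∈ s, J k
    · obtain ⟨k, hk, hx⟩ := Set.mem_iUnion₂.1 hx
      rw [a1 k hk _ (of_mem hx)]
      exact (b1 k hk _ ((hf k hk).2 x hx).1).trans (by simp)
    · rw [a2 x hx, b2 x hx])
  have e : ∀ k ∈ s, ∀ x ∈ J k, l (of x) = f k (of x) := fun k hk x hx => by
    rw [c1, a1 k hk _ (of_mem hx)]; rfl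
  refine ⟨l, mem_IA.2 fun x => ?_, ⟨fun x hx => ?_, fun x hx => by rw [c1, a2 x hx]⟩, e⟩
  · by_cases hx : x ∈ ⋃ k ∈ s, J k
    · obtain ⟨k, hk, hx⟩ := Set.mem_iUnion₂.1 hx
      rw [e k hk x hx, IA_app (hf k hk).1]
    · rw [c1, a2 x hx]
  · obtain ⟨k, hk, hx⟩ := Set.mem_iUnion₂.1 hx
    have := ((hf k hk).2.congr (e k hk)) x hx
    have m := In_mono (Set.subset_biUnion_of_mem (u := J) hk)
    exact ⟨m this.1, m this.2⟩

theorem filtration [Infinite X] [LinearOrder X] [WellFoundedLT X] (φ : MulAut (FreeGroup X)) :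
    ∃ p : X → X, (∀ i, {x | p x = i}.Countable) ∧ (∀ i, {x | p x = i} = ∅ ∨ {x | p x = i}.Infinite) ∧
      ∀ x, φ (of x) ∈ In {y | p y ≤ p x} ∧ φ⁻¹ (of x) ∈ In {y | p y ≤ p x} := by
  classical
  obtain ⟨e⟩ : Nonempty (X ≃ X × ℕ) := by
    rw [← Cardinal.eq, mk_prod, lift_id, lift_id, mk_nat]
    exact (mul_eq_left (aleph0_le_mk X) (aleph0_le_mk X) aleph0_ne_zero).symm
  obtain ⟨nb, nc, n1, n2, n3⟩ : ∃ nb : X → Set X, (∀ x, (nb x).Countable) ∧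
      (∀ x, φ (of x) ∈ In (nb x)) ∧ (∀ x, φ⁻¹ (of x) ∈ In (nb x)) ∧
      ∀ x n, e.symm ((e x).1, n) ∈ nb x :=
    ⟨fun x => supp (φ (of x)) ∪ supp (φ⁻¹ (of x)) ∪ Set.range fun n => e.symm ((e x).1, n),
      fun x => ((supp_fin _).union (supp_fin _)).countable.union (Set.countable_range _),
      fun x => In_mono (fun _ h => Or.inl (Or.inl h)) (mem_supp _),
      fun x => In_mono (fun _ h => Or.inl (Or.inr h)) (mem_supp _),
      fun x n => Or.inr ⟨n, rfl⟩⟩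
  let S : X → ℕ → Set X := fun x n => Nat.rec {x} (fun _ T => ⋃ y ∈ T, nb y) n
  have Sc : ∀ x n, (S x n).Countable := by
    intro x n
    induction n with
    | zero => exact Set.countable_singleton x
    | succ n ih => exact ih.biUnion fun y _ => nc y
  let ρ : X → X := fun x => (wellFounded_lt (α := X)).min {l | x ∈ ⋃ n, S l n}
    ⟨x, Set.mem_iUnion.2 ⟨0, rfl⟩⟩
  have ρ1 : ∀ x, x ∈ ⋃ n, S (ρ x) n := fun x =>
    (wellFounded_lt (α := X)).min_mem {l | x ∈ ⋃ n, S l n} _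
  have ρ2 : ∀ x, ∀ y ∈ nb x, ρ y ≤ ρ x := by
    intro x y hy
    obtain ⟨n, hn⟩ := Set.mem_iUnion.1 (ρ1 x)
    exact (wellFounded_lt (α := X)).min_le (s := {l | y ∈ ⋃ n, S l n})
      (Set.mem_iUnion.2 ⟨n + 1, (Set.mem_biUnion hn hy : y ∈ ⋃ z ∈ S (ρ x) n, nb z)⟩)
  refine ⟨ρ, fun i => (Set.countable_iUnion (Sc i)).mono fun x hx => ?_, fun i => ?_,
    fun x => ⟨In_mono (ρ2 x) (n1 x), In_mono (ρ2 x) (n2 x)⟩⟩
  · rw [← show ρ x = i from hx]; exact ρ1 x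
  · rcases Set.eq_empty_or_nonempty {x | ρ x = i} with h | ⟨x, hx⟩
    · exact Or.inl h
    · refine Or.inr (Set.infinite_of_injective_forall_mem (f := fun n : ℕ => e.symm ((e x).1, n))
        (fun a b h => (Prod.ext_iff.1 (e.symm.injective h)).2) fun n => ?_)
      refine (le_antisymm (ρ2 x _ (n3 x n)) (ρ2 _ _ ?_)).trans hx
      have := n3 (e.symm ((e x).1, n)) (e x).2
      simpa using this

def RichC [LinearOrder X] (η : MulAut (FreeGroup X)) (ρ : X → X ×ₗ ℕ) : Prop :=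
  η ∈ IAg X ∧ (∀ l, {x | ρ x = l}.Finite) ∧
    (∀ x, η (of x) ∈ In {y | ρ y ≤ ρ x} ∧ η⁻¹ (of x) ∈ In {y | ρ y ≤ ρ x}) ∧
    ∀ J D g, Valid η J D g → ∀ Z : Set X, #Z < #X → ∃ D', Realz η J D g D' ∧
      (∀ x ∈ D', x ∉ Z) ∧ ∀ x ∈ D', ∀ y, ρ y = ρ x → y ∈ D'

theorem tasks (hX : ℵ₀ < #X) (I : Set X) (hI : #I = #X) :
    ∃ τ : X → Set X × Set X × MulAut (FreeGroup X), ∀ J D g, J.Finite → D.Finite →
      Sup g (J ∪ D) → ∀ Z : Set X, #Z < #X → ∃ i ∈ I, i ∉ Z ∧ τ i = (J, D, g) := by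
  classical
  haveI : Infinite X := infinite_iff.2 hX.le
  obtain ⟨c, hc⟩ : ∃ c : X → Set X × Set X × MulAut (FreeGroup X), ∀ J D g, J.Finite → D.Finite →
      Sup g (J ∪ D) → ∃ x, c x = (J, D, g) := by
    obtain ⟨e⟩ : Nonempty (X ≃ Finset X × Finset X × Finset (X × FreeGroup X)) := by
      rw [← Cardinal.eq]
      simp [mk_freeGroup, max_eq_left hX.le, mul_eq_self hX.le]
    refine ⟨fun x => ((e x).1, (e x).2.1, Classical.epsilon fun g =>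
      Sup g ((e x).1 ∪ (e x).2.1) ∧ ((e x).2.2 : Set (X × FreeGroup X)) =
        (fun y => (y, g (of y))) '' ((e x).1 ∪ (e x).2.1)), fun J D g hJ hD hg => ?_⟩
    refine ⟨e.symm (hJ.toFinset, hD.toFinset,
      ((hJ.union hD).image fun y => (y, g (of y))).toFinset), ?_⟩
    simp only [Equiv.apply_symm_apply, Set.Finite.coe_toFinset, Prod.mk.injEq, true_and]
    have := Classical.epsilon_spec (p := fun g' : MulAut (FreeGroup X) => Sup g' (J ∪ D) ∧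
      (fun y => (y, g (of y))) '' (J ∪ D) = (fun y => (y, g' (of y))) '' (J ∪ D)) ⟨g, hg, rfl⟩
    refine aut_ext fun x => ?_
    by_cases hx : x ∈ J ∪ D
    · obtain ⟨y, _, hy⟩ := this.2.subset ⟨x, hx, rfl⟩
      obtain ⟨rfl, h⟩ := Prod.ext_iff.1 hy
      exact h
    · rw [this.1.2 x hx, hg.2 x hx]
  obtain ⟨e⟩ : Nonempty (X × X ≃ I) := by
    rw [← Cardinal.eq, hI, mk_prod, lift_id, mul_eq_self hX.le]
  refine ⟨fun i => if h : i ∈ I then c (e.symm ⟨i, h⟩).1 else (∅, ∅, 1),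
    fun J D g hJ hD hg Z hZ => ?_⟩
  obtain ⟨x, hx⟩ := hc J D g hJ hD hg
  obtain ⟨_, ⟨y, rfl⟩, hy⟩ := exists_not_mem (Y := Set.range fun y => (e (x, y)).1) (Z := Z) (by
    rwa [mk_range_eq _ fun a b h => (Prod.ext_iff.1 (e.injective (Subtype.ext h))).2])
  exact ⟨_, (e (x, y)).2, hy, by simp [hx]⟩

theorem richC_of [LinearOrder X] (hX : ℵ₀ < #X) (hr : ∀ i : X, #(Set.Iio i) < #X)
    (p : X → X) (τ : X → Set X × Set X × MulAut (FreeGroup X))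
    (hτ : ∀ J D g, J.Finite → D.Finite →
      Sup g (J ∪ D) → ∀ Z : Set X, #Z < #X → ∃ i ∈ Set.range p, i ∉ Z ∧ τ i = (J, D, g))
    (η : MulAut (FreeGroup X)) (hη : η ∈ IAg X) (T : X → ℕ → Set X)
    (hT : ∀ i, Stage {x | p x < i} {x | p x = i} (τ i).1 (τ i).2.1 (τ i).2.2 η (T i)) :
    ∃ ρ, RichC η ρ := by
  classical
  have ex : ∀ x, ∃ n, x ∈ T (p x) n := fun x => (hT (p x)).2.2.1 x rfl
  refine ⟨fun x => toLex (p x, Nat.find (ex x)), hη, fun l => ?_, fun x => ?_,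
    fun J D g hv Z hZ => ?_⟩
  · refine ((hT (ofLex l).1).2.1 (ofLex l).2).1.subset fun x hx => ?_
    have : toLex (p x, Nat.find (ex x)) = l := hx
    subst this
    exact Nat.find_spec (ex x)
  · have := ((hT (p x)).2.1 (Nat.find (ex x))).2.2 x (Or.inr (Nat.find_spec (ex x)))
    have m : In ({y | p y < p x} ∪ T (p x) (Nat.find (ex x))) ≤
        In {y | toLex (p y, Nat.find (ex y)) ≤ toLex (p x, Nat.find (ex x))} := by
      refine In_mono ?_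
      rintro y (hy | hy)
      · exact Prod.Lex.toLex_le_toLex.2 (Or.inl hy)
      · have e : p y = p x := ((hT (p x)).2.1 _).2.1 hy
        exact Prod.Lex.toLex_le_toLex.2 (Or.inr ⟨e, Nat.find_min' (ex y) (by rw [e]; exact hy)⟩)
    exact ⟨m this.1, m this.2⟩
  · obtain ⟨i, ⟨x0, hx0⟩, h1, h2⟩ := hτ J D g hv.1 hv.2.1 hv.2.2.2.2.1
      (p '' Z ∪ (p '' J ∪ ⋃ x ∈ J, Set.Iio (p x))) (by
        refine (mk_union_le _ _).trans_lt (add_lt_of_lt hX.le (mk_image_le.trans_lt hZ)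
          ((mk_union_le _ _).trans_lt (add_lt_of_lt hX.le
            ((hv.1.image p).lt_aleph0.trans hX) ?_)))
        have : ∀ J : Set X, J.Finite → #(⋃ x ∈ J, Set.Iio (p x)) < #X := by
          intro J hJ
          induction J, hJ using Set.Finite.induction_on with
          | empty => simpa using aleph0_pos.trans hX
          | insert _ _ ih =>
            rw [Set.biUnion_insert]
            exact (mk_union_le _ _).trans_lt (add_lt_of_lt hX.le (hr _) ih)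
        exact this J hv.1)
    have s := hT i
    rw [h2] at s
    refine ⟨T i 0, s.2.2.2 ⟨x0, hx0⟩ (fun x hx => ?_) hv, fun x hx h => ?_, fun x hx y hy => ?_⟩
    · by_contra c
      rcases (not_lt.1 c).eq_or_lt with c | c
      · exact h1 (Or.inr (Or.inl ⟨x, hx, c.symm⟩))
      · exact h1 (Or.inr (Or.inr (Set.mem_biUnion hx c)))
    · exact h1 (Or.inl ⟨x, h, (s.2.1 0).2.1 hx⟩)
    · have e : p x = i := (s.2.1 0).2.1 hx
      obtain ⟨e1, e2⟩ := Prod.ext_iff.1 (toLex.injective hy)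
      have e3 : Nat.find (ex x) = 0 := Nat.le_zero.1 (Nat.find_min' _ (e ▸ hx))
      have := Nat.find_spec (ex y)
      simp only at e1 e2
      rwa [e2, e3, e1, e] at this

theorem exists_richC [LinearOrder X] [WellFoundedLT X] (hX : ℵ₀ < #X)
    (hr : ∀ i : X, #(Set.Iio i) < #X) (β : MulAut (FreeGroup X)) (hβ : β ∈ IAg X) :
    ∃ γ ρ ρ', RichC γ ρ ∧ RichC (β * γ) ρ' := by
  haveI : Infinite X := infinite_iff.2 hX.le
  obtain ⟨p, p1, p2, p3⟩ := filtration β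
  have hR : #(Set.range p) = #X := by
    refine le_antisymm (mk_set_le _) ?_
    by_contra h
    push Not at h
    have : #X ≤ #(⋃ l ∈ Set.range p, {x | p x = l}) := by
      rw [← mk_univ]
      exact mk_le_mk_of_subset fun x _ => Set.mem_biUnion ⟨x, rfl⟩ rfl
    refine absurd (this.trans (mk_biUnion_le _ _)) (not_le.2 (mul_lt_of_lt hX.le h ?_))
    exact lt_of_le_of_lt (ciSup_le' fun l => (p1 l.1).le_aleph0) hX
  obtain ⟨τ, hτ⟩ := tasks hX _ hR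
  have u1 : ∀ i, {x | p x < i} ∪ {x | p x = i} = {x | p x ≤ i} := fun i => by
    ext x; simp [le_iff_lt_or_eq]
  obtain ⟨f, hf⟩ := rec_ex (I := X) (A := MulAut (FreeGroup X) × (ℕ → Set X) × (ℕ → Set X))
    (fun i a => a.1 ∈ IAg X ∧ Pres a.1 {x | p x ≤ i} ∧
      Stage {x | p x < i} {x | p x = i} (τ i).1 (τ i).2.1 (τ i).2.2 a.1 a.2.1 ∧
      Stage {x | p x < i} {x | p x = i} (τ i).1 (τ i).2.1 (τ i).2.2 (β * a.1) a.2.2)
    (fun k b a => ∀ x, p x ≤ k → a.1 (of x) = b.1 (of x)) (by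
      intro i f ih
      obtain ⟨l, l1, l2, l3⟩ := glue_aut (Set.Iio i) (fun k => {x | p x ≤ k}) (fun k => (f k).1)
        (fun k hk => ⟨(ih k hk).1.1, (ih k hk).1.2.1⟩)
        (fun k hk m _ c => ⟨fun x hx => le_trans hx c.le, (ih k hk).2 m c⟩)
      have u2 : ⋃ k ∈ Set.Iio i, {x | p x ≤ k} = {x | p x < i} := by
        ext x
        simp only [Set.mem_iUnion, Set.mem_setOf_eq, Set.mem_Iio]
        exact ⟨fun ⟨k, h1, h2⟩ => h2.trans_lt h1, fun h => ⟨_, h, le_rfl⟩⟩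
      rw [u2] at l2
      obtain ⟨γ, T1, T2, a1, a2, a3⟩ := step_rel (B := {x | p x < i}) (Y := {x | p x = i})
        (fun y hy h => absurd h (not_lt.2 (ge_of_eq hy))) (p1 i) (p2 i) hβ
        (fun x hx => ⟨In_mono (fun y hy => lt_of_le_of_lt hy hx) (p3 x).1,
          In_mono (fun y hy => lt_of_le_of_lt hy hx) (p3 x).2⟩)
        (by
          rw [u1]
          exact fun x hx => ⟨In_mono (fun y hy => le_trans hy hx) (p3 x).1,
            In_mono (fun y hy => le_trans hy hx) (p3 x).2⟩) l1 l2 (τ i).1 (τ i).2.1 (τ i).2.2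
      refine ⟨(γ, T1, T2), ⟨a1.1, u1 i ▸ a1.2.1.1, a2, a3⟩, fun k hk x hx => ?_⟩
      exact (a1.2.2 x (hx.trans_lt hk)).trans (l3 k hk x hx))
  obtain ⟨γ, l1, -, l3⟩ := glue_aut Set.univ (fun k => {x | p x ≤ k}) (fun k => (f k).1)
    (fun k _ => ⟨(hf k).1.1, (hf k).1.2.1⟩)
    (fun k _ m _ c => ⟨fun x hx => le_trans hx c.le, (hf k).2 m c⟩)
  obtain ⟨ρ, h1⟩ := richC_of hX hr p τ hτ γ l1 (fun i => (f i).2.1) fun i =>
    (hf i).1.2.2.1.congr fun x hx => l3 i trivial x (u1 i ▸ hx)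
  obtain ⟨ρ', h2⟩ := richC_of hX hr p τ hτ (β * γ) ((IAg X).mul_mem hβ l1) (fun i => (f i).2.2)
    fun i => (hf i).1.2.2.2.congr fun x hx => by
      rw [MulAut.mul_apply, MulAut.mul_apply, l3 i trivial x (u1 i ▸ hx)]
  exact ⟨γ, ρ, ρ', h1, h2⟩

end Pool.Agent.H70.IA
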