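import Pool.Agent.H70.IA7

set_option autoImplicit false

namespace Pool.Agent.H70.IA

open FreeGroup hiding map_mul map_inv map_one
open Pool.Agent.H70.AutF Cardinal

variable {X : Type}

theorem ab_hom {Y : Type} (f : FreeGroup X →* FreeGroup Y) {u w : FreeGroup X}
    (h : Abelianization.of u = Abelianization.of w) :
    Abelianization.of (f u) = Abelianization.of (f w) :=
  congrArg (Abelianization.map f) h

theorem In_inter {S T : Set X} {w : FreeGroup X} (h1 : w ∈ In S) (h2 : w ∈ In T) :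
    w ∈ In (S ∩ T) := by
  classical
  obtain ⟨r, hr⟩ : ∃ r : FreeGroup X →* FreeGroup X, ∀ x, r (of x) = if x ∈ S then of x else 1 :=
    ⟨FreeGroup.lift _, fun _ => lift_apply_of⟩
  rw [← show r w = w from eq_on r (MonoidHom.id _) (fun x hx => by rw [hr, if_pos hx]; rfl) h1]
  refine hom_In r (fun x hx => ?_) h2
  rw [hr]
  split_ifs with k
  · exact of_mem ⟨k, hx⟩
  · exact Subgroup.one_mem _

theorem fin_sub' {α : Type} {A : Set α} (hA : A.Finite) {S : Set X} (w : α → FreeGroup X)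
    (h : ∀ a ∈ A, w a ∈ In S) : ∃ T : Set X, T.Finite ∧ T ⊆ S ∧ ∀ a ∈ A, w a ∈ In T := by
  choose! E e1 e2 e3 using fun a (ha : a ∈ A) => fin_sub (h a ha)
  exact ⟨⋃ a ∈ A, E a, hA.biUnion e1, Set.iUnion₂_subset e2, fun a ha =>
    In_mono (Set.subset_biUnion_of_mem (u := E) ha) (e3 a ha)⟩

def Clo {L : Type} (η : MulAut (FreeGroup X)) (ρ : X → L) (J : Set X) : Prop :=
  (∀ x ∈ J, ∀ y, ρ y = ρ x → y ∈ J) ∧ Pres η J

theorem deps {L : Type} [LinearOrder L] {η : MulAut (FreeGroup X)} {ρ : X → L}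
    (h1 : ∀ l, {x | ρ x = l}.Finite)
    (h2 : ∀ x, η (of x) ∈ In {y | ρ y ≤ ρ x} ∧ η⁻¹ (of x) ∈ In {y | ρ y ≤ ρ x})
    {J : Set X} (hJ : Clo η ρ J) {x : X} (hx : x ∈ J) :
    ∃ E : Set X, E.Finite ∧ (∀ y ∈ E, y ∈ J ∧ ρ y < ρ x) ∧
      ∀ K : Set X, E ⊆ K → Clo η ρ K → Clo η ρ (K ∪ {y | ρ y = ρ x}) := by
  obtain ⟨E1, a1, a2, a3⟩ := fin_sub' (h1 (ρ x)) (S := J ∩ {y | ρ y ≤ ρ x}) (fun y => η (of y))
    fun y hy => In_inter (hJ.2 y (hJ.1 x hx y hy)).1 (hy ▸ (h2 y).1)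
  obtain ⟨E2, b1, b2, b3⟩ := fin_sub' (h1 (ρ x)) (S := J ∩ {y | ρ y ≤ ρ x}) (fun y => η⁻¹ (of y))
    fun y hy => In_inter (hJ.2 y (hJ.1 x hx y hy)).2 (hy ▸ (h2 y).2)
  refine ⟨(E1 ∪ E2) \ {y | ρ y = ρ x}, (a1.union b1).diff, fun y hy => ?_, fun K hE hK => ⟨?_, ?_⟩⟩
  · have := Set.union_subset a2 b2 hy.1
    exact ⟨this.1, lt_of_le_of_ne this.2 hy.2⟩
  · rintro y (hy | hy) z hz
    · exact Or.inl (hK.1 y hy z hz)
    · exact Or.inr (hz.trans hy)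
  · have m : E1 ∪ E2 ⊆ K ∪ {y | ρ y = ρ x} := fun y hy => by
      by_cases k : ρ y = ρ x
      · exact Or.inr k
      · exact Or.inl (hE ⟨hy, k⟩)
    rintro y (hy | hy)
    · exact ⟨In_mono Set.subset_union_left (hK.2 y hy).1,
        In_mono Set.subset_union_left (hK.2 y hy).2⟩
    · exact ⟨In_mono (Set.subset_union_left.trans m) (a3 y hy),
        In_mono (Set.subset_union_right.trans m) (b3 y hy)⟩

theorem Clo.biUnion {L α : Type} {η : MulAut (FreeGroup X)} {ρ : X → L} {A : Set α}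
    {K : α → Set X} (h : ∀ a ∈ A, Clo η ρ (K a)) : Clo η ρ (⋃ a ∈ A, K a) := by
  constructor
  · intro x hx y hy
    obtain ⟨a, ha, hx⟩ := Set.mem_iUnion₂.1 hx
    exact Set.mem_biUnion ha ((h a ha).1 x hx y hy)
  · intro x hx
    obtain ⟨a, ha, hx⟩ := Set.mem_iUnion₂.1 hx
    have m := In_mono (Set.subset_biUnion_of_mem (u := K) ha)
    exact ⟨m ((h a ha).2 x hx).1, m ((h a ha).2 x hx).2⟩

theorem fin_clo {L : Type} [LinearOrder L] [WellFoundedLT L] {η : MulAut (FreeGroup X)}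
    {ρ : X → L} (h1 : ∀ l, {x | ρ x = l}.Finite)
    (h2 : ∀ x, η (of x) ∈ In {y | ρ y ≤ ρ x} ∧ η⁻¹ (of x) ∈ In {y | ρ y ≤ ρ x})
    {J : Set X} (hJ : Clo η ρ J) {A : Set X} (hA : A.Finite) (hAJ : A ⊆ J) :
    ∃ K : Set X, K.Finite ∧ Clo η ρ K ∧ A ⊆ K ∧ K ⊆ J := by
  have col : ∀ A : Set X, A.Finite → (∀ x ∈ A, ∃ K : Set X, K.Finite ∧ Clo η ρ K ∧ x ∈ K ∧ K ⊆ J) →
      ∃ K : Set X, K.Finite ∧ Clo η ρ K ∧ A ⊆ K ∧ K ⊆ J := by
    intro A hA h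
    choose! K k1 k2 k3 k4 using h
    exact ⟨⋃ a ∈ A, K a, hA.biUnion k1, Clo.biUnion k2, fun a ha => Set.mem_biUnion ha (k3 a ha),
      Set.iUnion₂_subset k4⟩
  have : ∀ l, ∀ x ∈ J, ρ x = l → ∃ K : Set X, K.Finite ∧ Clo η ρ K ∧ x ∈ K ∧ K ⊆ J := by
    intro l
    induction l using WellFoundedLT.induction with
    | ind l ih =>
      rintro x hx rfl
      obtain ⟨E, e1, e2, e3⟩ := deps h1 h2 hJ hx
      obtain ⟨K, k1, k2, k3, k4⟩ := col E e1 fun y hy => ih _ (e2 y hy).2 y (e2 y hy).1 rfl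
      exact ⟨_, k1.union (h1 _), e3 K k3 k2, Or.inr rfl,
        Set.union_subset k4 fun y hy => hJ.1 x hx y hy⟩
  exact col A hA fun x hx => this _ x (hAJ hx) rfl

def St {L : Type} (η η' : MulAut (FreeGroup X)) (ρ ρ' : X → L) (J J' : Set X)
    (f g : FreeGroup X →* FreeGroup X) : Prop :=
  Clo η ρ J ∧ Clo η' ρ' J' ∧
    (∀ x ∈ J, f (of x) ∈ In J' ∧ g (f (of x)) = of x ∧ f (η (of x)) = η' (f (of x))) ∧
    ∀ x ∈ J', g (of x) ∈ In J ∧ f (g (of x)) = of x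

theorem intw {η η' : MulAut (FreeGroup X)} {J : Set X} {f : FreeGroup X →* FreeGroup X}
    (h : ∀ x ∈ J, f (η (of x)) = η' (f (of x))) {w : FreeGroup X} (hw : w ∈ In J) :
    f (η w) = η' (f w) :=
  eq_on (f.comp η.toMonoidHom) (η'.toMonoidHom.comp f) h hw

theorem intw' {η η' : MulAut (FreeGroup X)} {J : Set X} {f : FreeGroup X →* FreeGroup X}
    (h : ∀ x ∈ J, f (η (of x)) = η' (f (of x))) {w : FreeGroup X} (hw : η⁻¹ w ∈ In J) :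
    f (η⁻¹ w) = η'⁻¹ (f w) := by
  apply η'.injective
  rw [← intw h hw]; simp

theorem St.symm {L : Type} {η η' : MulAut (FreeGroup X)} {ρ ρ' : X → L} {J J' : Set X}
    {f g : FreeGroup X →* FreeGroup X} (h : St η η' ρ ρ' J J' f g) : St η' η ρ' ρ J' J g f := by
  obtain ⟨h1, h2, h3, h4⟩ := h
  refine ⟨h2, h1, fun x hx => ⟨(h4 x hx).1, (h4 x hx).2, ?_⟩,
    fun x hx => ⟨(h3 x hx).1, (h3 x hx).2.1⟩⟩
  have := intw (fun x hx => (h3 x hx).2.2) (h4 x hx).1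
  rw [(h4 x hx).2] at this
  rw [← this]
  exact eq_on (g.comp f) (MonoidHom.id _) (fun x hx => (h3 x hx).2.1) (h1.2.mem (h4 x hx).1)

theorem cell [Infinite X] [LinearOrder X] [WellFoundedLT X] {η η' : MulAut (FreeGroup X)}
    {ρ ρ' : X → X ×ₗ ℕ} (hη : η ∈ IAg X) (hη' : RichC η' ρ') {J J' : Set X}
    {f g : FreeGroup X →* FreeGroup X} (h : St η η' ρ ρ' J J' f g) (hJ' : #J' < #X)
    {D : Set X} (hD : D.Finite) (hDJ : ∀ x ∈ J, x ∉ D) (hc : Clo η ρ (J ∪ D)) :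
    ∃ (D' : Set X) (f' g' : FreeGroup X →* FreeGroup X), D'.Finite ∧
      St η η' ρ ρ' (J ∪ D) (J' ∪ D') f' g' ∧ (∀ x ∈ J, f' (of x) = f (of x)) ∧
      ∀ x ∈ J', g' (of x) = g (of x) := by
  classical
  obtain ⟨h1, h2, h3, h4⟩ := h
  obtain ⟨A, a1, a2, a3⟩ : ∃ A : Set X, A.Finite ∧ A ⊆ J ∧
      ∀ d ∈ D, η (of d) ∈ In (A ∪ D) ∧ η⁻¹ (of d) ∈ In (A ∪ D) := by
    obtain ⟨E1, a1, a2, a3⟩ := fin_sub' hD (fun y => η (of y)) fun y hy => (hc.2 y (Or.inr hy)).1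
    obtain ⟨E2, b1, b2, b3⟩ := fin_sub' hD (fun y => η⁻¹ (of y))
      fun y hy => (hc.2 y (Or.inr hy)).2
    have m : E1 ∪ E2 ⊆ (E1 ∪ E2) \ D ∪ D := by simp
    exact ⟨(E1 ∪ E2) \ D, (a1.union b1).diff,
      fun y hy => (Set.union_subset a2 b2 hy.1).resolve_right hy.2, fun d hd =>
      ⟨In_mono (Set.subset_union_left.trans m) (a3 d hd),
        In_mono (Set.subset_union_right.trans m) (b3 d hd)⟩⟩
  obtain ⟨E, e1, e2, e3⟩ := fin_sub' a1 (fun y => f (of y)) fun y hy => (h3 y (a2 hy)).1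
  obtain ⟨K, k1, k2, k3, k4⟩ := fin_clo hη'.2.1 hη'.2.2.1 h2 e1 e2
  have fA : ∀ a ∈ A, f (of a) ∈ In K := fun a ha => In_mono k3 (e3 a ha)
  obtain ⟨j, hj, hj1⟩ := fresh D hD K k1
  obtain ⟨F, hF⟩ : ∃ F : (X → X) → FreeGroup X →* FreeGroup X, ∀ c x,
      F c (of x) = if x ∈ D then of (c x) else f (of x) :=
    ⟨fun c => FreeGroup.lift fun x => if x ∈ D then of (c x) else f (of x),
      fun _ _ => lift_apply_of⟩
  have FJ : ∀ c, ∀ w ∈ In J, F c w = f w := fun c w hw =>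
    eq_on _ _ (fun x hx => by rw [hF, if_neg (hDJ x hx)]) hw
  have FD : ∀ c, ∀ x ∈ D, F c (of x) = of (c x) := fun c x hx => by rw [hF, if_pos hx]
  have FK : ∀ w ∈ In (A ∪ D), F j w ∈ In (K ∪ j '' D) := fun w hw => hom_In _ (by
    rintro x (hx | hx)
    · rw [FJ _ _ (of_mem (a2 hx))]
      exact In_mono Set.subset_union_left (fA x hx)
    · rw [FD _ _ hx]
      exact of_mem (Or.inr ⟨x, hx, rfl⟩)) hw
  obtain ⟨H, hH⟩ : ∃ H : MulAut (FreeGroup X) → MulAut (FreeGroup X) → FreeGroup X →* FreeGroup X,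
      ∀ θ θ' y, H θ θ' (of y) = if y ∈ K then θ' (of y) else
        if h : ∃ d ∈ D, j d = y then F j (θ (of h.choose)) else of y :=
    ⟨fun θ θ' => FreeGroup.lift fun y => if y ∈ K then θ' (of y) else
        if h : ∃ d ∈ D, j d = y then F j (θ (of h.choose)) else of y, fun _ _ _ => lift_apply_of⟩
  have HK : ∀ θ θ', ∀ w ∈ In K, H θ θ' w = θ' w := fun θ θ' w hw =>
    eq_on _ θ'.toMonoidHom (fun x hx => by rw [hH, if_pos hx]; rfl) hw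
  have HD : ∀ θ θ', ∀ d ∈ D, H θ θ' (of (j d)) = F j (θ (of d)) := fun θ θ' d hd => by
    have k : ∃ e ∈ D, j e = j d := ⟨d, hd, rfl⟩
    rw [hH, if_neg (hj1 d), dif_pos k, hj k.choose_spec.1 hd k.choose_spec.2]
  have Ho : ∀ θ θ' y, y ∉ K ∪ j '' D → H θ θ' (of y) = of y := fun θ θ' y hy => by
    rw [hH, if_neg fun k => hy (Or.inl k), dif_neg fun k : ∃ d ∈ D, j d = y => hy (Or.inr k)]
  have key : ∀ θ θ' : MulAut (FreeGroup X), Pres θ J → Pres θ' K →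
      (∀ x ∈ J, f (θ (of x)) = θ' (f (of x))) → (∀ d ∈ D, θ⁻¹ (of d) ∈ In (A ∪ D)) →
      ∀ y, H θ θ' (H θ⁻¹ θ'⁻¹ (of y)) = of y := by
    intro θ θ' t1 t2 t3 t4 y
    by_cases hy : y ∈ K ∪ j '' D
    · rcases hy with hy | ⟨d, hd, rfl⟩
      · rw [HK _ _ _ (of_mem hy), HK _ _ _ (t2 y hy).2]; simp
      · have : ∀ w ∈ In (A ∪ D), H θ θ' (F j w) = F j (θ w) := fun w hw =>
          eq_on ((H θ θ').comp (F j)) ((F j).comp θ.toMonoidHom) (by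
            rintro x (hx | hx)
            · show H θ θ' (F j (of x)) = F j (θ (of x))
              rw [FJ _ _ (of_mem (a2 hx)), HK _ _ _ (fA x hx), FJ _ _ (t1 x (a2 hx)).1,
                t3 x (a2 hx)]
            · show H θ θ' (F j (of x)) = F j (θ (of x))
              rw [FD _ _ hx, HD _ _ _ hx]) hw
        rw [HD _ _ d hd, this _ (t4 d hd), MulAut.apply_inv_self, FD _ _ hd]
    · rw [Ho _ _ y hy, Ho _ _ y hy]
  obtain ⟨g0, c1, c2⟩ := mk_aut (H η η') (H η⁻¹ η'⁻¹)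
    (key η η' h1.2 k2.2 (fun x hx => (h3 x hx).2.2) fun d hd => (a3 d hd).2)
    (by
      simpa using key η⁻¹ η'⁻¹ h1.2.inv k2.2.inv
        (fun x hx => intw' (fun x hx => (h3 x hx).2.2) (h1.2 x hx).2)
        fun d hd => by simpa using (a3 d hd).1)
  obtain ⟨D', ⟨π, p1, p2, p3⟩, p4, p5⟩ := hη'.2.2.2 K (j '' D) g0 ⟨k1, hD.image _, by
      rintro _ hx ⟨d, _, rfl⟩
      exact hj1 d hx, mem_IA.2 fun y => by
      rw [c1]
      by_cases hy : y ∈ K ∪ j '' D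
      · rcases hy with hy | ⟨d, hd, rfl⟩
        · rw [HK _ _ _ (of_mem hy), IA_app hη'.1]
        · rw [HD _ _ d hd, ← FD j d hd]
          exact ab_hom _ (IA_app hη _)
      · rw [Ho _ _ y hy], ⟨by
      rintro y (hy | ⟨d, hd, rfl⟩)
      · rw [c1, c2, HK _ _ _ (of_mem hy), HK _ _ _ (of_mem hy)]
        exact ⟨In_mono Set.subset_union_left (k2.2 y hy).1,
          In_mono Set.subset_union_left (k2.2 y hy).2⟩
      · rw [c1, c2, HD _ _ d hd, HD _ _ d hd]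
        exact ⟨FK _ (a3 d hd).1, FK _ (a3 d hd).2⟩, fun y hy => by rw [c1, Ho _ _ y hy]⟩,
      k2.2, fun y hy => by rw [c1, HK _ _ _ (of_mem hy)]⟩ J' hJ'
  have mD : ∀ d ∈ D, π (j d) ∈ D' := fun d hd => p2 ▸ ⟨_, ⟨d, hd, rfl⟩, rfl⟩
  have mD' : ∀ y ∈ D', ∃ d ∈ D, π (j d) = y := by
    rw [← p2]
    rintro _ ⟨_, ⟨d, hd, rfl⟩, rfl⟩
    exact ⟨d, hd, rfl⟩
  obtain ⟨g', hg'⟩ : ∃ g' : FreeGroup X →* FreeGroup X, ∀ y, g' (of y) =
      if h : ∃ d ∈ D, π (j d) = y then of h.choose else g (of y) :=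
    ⟨FreeGroup.lift _, fun _ => lift_apply_of⟩
  have g1 : ∀ d ∈ D, g' (of (π (j d))) = of d := fun d hd => by
    have k : ∃ e ∈ D, π (j e) = π (j d) := ⟨d, hd, rfl⟩
    rw [hg', dif_pos k, hj k.choose_spec.1 hd (π.injective k.choose_spec.2)]
  have g2 : ∀ y ∈ J', g' (of y) = g (of y) := fun y hy => by
    rw [hg', dif_neg]
    rintro ⟨d, hd, rfl⟩
    exact p4 _ (mD d hd) hy
  have f1 : ∀ w ∈ In (J ∪ D), F (fun x => π (j x)) w ∈ In (J' ∪ D') := fun w hw => hom_In _ (by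
    rintro x (hx | hx)
    · rw [FJ _ _ (of_mem hx)]
      exact In_mono Set.subset_union_left (h3 x hx).1
    · rw [FD _ _ hx]
      exact of_mem (Or.inr (mD x hx))) hw
  have f2 : ∀ x ∈ J ∪ D, F (fun x => π (j x)) (η (of x)) = η' (F (fun x => π (j x)) (of x)) := by
    rintro x (hx | hx)
    · rw [FJ _ _ (of_mem hx), FJ _ _ (h1.2 x hx).1, (h3 x hx).2.2]
    · rw [FD _ _ hx, p3 _ ⟨x, hx, rfl⟩, c1, HD _ _ x hx]
      refine eq_on _ ((P π).toMonoidHom.comp (F j)) ?_ (a3 x hx).1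
      rintro y (hy | hy)
      · show _ = P π (F j (of y))
        rw [FJ _ _ (of_mem (a2 hy)), FJ _ _ (of_mem (a2 hy)),
          aut_fix _ (fun z hz => by rw [P_of, p1 z hz]) (fA y hy)]
      · show _ = P π (F j (of y))
        rw [FD _ _ hy, FD _ _ hy, P_of]
  refine ⟨D', F fun x => π (j x), g', p2 ▸ (hD.image _).image _, ⟨hc, ⟨?_, ?_⟩,
    fun x hx => ⟨f1 _ (of_mem hx), ?_, f2 x hx⟩, ?_⟩, fun x hx => FJ _ _ (of_mem hx), g2⟩
  · rintro x (hx | hx) y hy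
    · exact Or.inl (h2.1 x hx y hy)
    · exact Or.inr (p5 x hx y hy)
  · rintro y (hy | hy)
    · exact ⟨In_mono Set.subset_union_left (h2.2 y hy).1,
        In_mono Set.subset_union_left (h2.2 y hy).2⟩
    · obtain ⟨d, hd, rfl⟩ := mD' y hy
      rw [← FD (fun x => π (j x)) d hd, ← f2 d (Or.inr hd), ← intw' f2 (hc.2 d (Or.inr hd)).2]
      exact ⟨f1 _ (hc.2 d (Or.inr hd)).1, f1 _ (hc.2 d (Or.inr hd)).2⟩
  · rcases hx with hx | hx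
    · rw [FJ _ _ (of_mem hx), eq_on g' g g2 (h3 x hx).1, (h3 x hx).2.1]
    · rw [FD _ _ hx, g1 x hx]
  · rintro y (hy | hy)
    · rw [g2 y hy, FJ _ _ (h4 y hy).1]
      exact ⟨In_mono Set.subset_union_left (h4 y hy).1, (h4 y hy).2⟩
    · obtain ⟨d, hd, rfl⟩ := mD' y hy
      rw [g1 d hd, FD _ _ hd]
      exact ⟨of_mem (Or.inr hd), rfl⟩

abbrev Q4 (X : Type) := Set X × Set X × (FreeGroup X →* FreeGroup X) × (FreeGroup X →* FreeGroup X)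

def Le (s t : Q4 X) : Prop :=
  s.1 ⊆ t.1 ∧ s.2.1 ⊆ t.2.1 ∧ (∀ x ∈ s.1, t.2.2.1 (of x) = s.2.2.1 (of x)) ∧
    ∀ x ∈ s.2.1, t.2.2.2 (of x) = s.2.2.2 (of x)

theorem Le.trans {s t u : Q4 X} (h : Le s t) (k : Le t u) : Le s u :=
  ⟨h.1.trans k.1, h.2.1.trans k.2.1, fun x hx => (k.2.2.1 x (h.1 hx)).trans (h.2.2.1 x hx),
    fun x hx => (k.2.2.2 x (h.2.1 hx)).trans (h.2.2.2 x hx)⟩

theorem le_add_fin {c : Cardinal} (hc : ℵ₀ ≤ c) {J D : Set X} (h : #J ≤ c) (hD : D.Finite) :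
    #(J ∪ D : Set X) ≤ c :=
  (mk_union_le _ _).trans (add_le_of_le hc h (hD.lt_aleph0.le.trans hc))

theorem reach [Infinite X] [LinearOrder X] [WellFoundedLT X] {η η' : MulAut (FreeGroup X)}
    {ρ ρ' : X → X ×ₗ ℕ} (hη : RichC η ρ) (hη' : RichC η' ρ') {c : Cardinal} (hc : ℵ₀ ≤ c)
    (hc' : c < #X) (x : X) : ∀ s : Q4 X, St η η' ρ ρ' s.1 s.2.1 s.2.2.1 s.2.2.2 →
      #s.1 ≤ c → #s.2.1 ≤ c → ∃ t : Q4 X, St η η' ρ ρ' t.1 t.2.1 t.2.2.1 t.2.2.2 ∧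
        #t.1 ≤ c ∧ #t.2.1 ≤ c ∧ Le s t ∧ x ∈ t.1 := by
  generalize hl : ρ x = l
  induction l using WellFoundedLT.induction generalizing x with
  | ind l ih =>
    subst hl
    have top : Clo η ρ Set.univ := ⟨fun _ _ _ _ => trivial, fun y _ =>
      ⟨In_mono (Set.subset_univ _) (mem_supp _), In_mono (Set.subset_univ _) (mem_supp _)⟩⟩
    obtain ⟨E, e1, e2, e3⟩ := deps hη.2.1 hη.2.2.1 top (Set.mem_univ x)
    have : ∀ E : Set X, E.Finite → (∀ y ∈ E, ρ y < ρ x) →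
        ∀ s : Q4 X, St η η' ρ ρ' s.1 s.2.1 s.2.2.1 s.2.2.2 →
        #s.1 ≤ c → #s.2.1 ≤ c → ∃ t : Q4 X, St η η' ρ ρ' t.1 t.2.1 t.2.2.1 t.2.2.2 ∧
          #t.1 ≤ c ∧ #t.2.1 ≤ c ∧ Le s t ∧ E ⊆ t.1 := by
      intro E hE
      induction E, hE using Set.Finite.induction_on with
      | empty => exact fun _ s h1 h2 h3 => ⟨s, h1, h2, h3,
          ⟨subset_rfl, subset_rfl, fun _ _ => rfl, fun _ _ => rfl⟩, Set.empty_subset _⟩
      | @insert y E _ _ ih' =>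
        intro h s h1 h2 h3
        obtain ⟨t, a1, a2, a3, a4, a5⟩ := ih' (fun z hz => h z (Or.inr hz)) s h1 h2 h3
        obtain ⟨u, b1, b2, b3, b4, b5⟩ := ih _ (h y (Or.inl rfl)) y rfl t a1 a2 a3
        exact ⟨u, b1, b2, b3, a4.trans b4, Set.insert_subset b5 (a5.trans b4.1)⟩
    intro s h1 h2 h3
    obtain ⟨t, a1, a2, a3, a4, a5⟩ := this E e1 (fun y hy => (e2 y hy).2) s h1 h2 h3
    by_cases hx : x ∈ t.1
    · exact ⟨t, a1, a2, a3, a4, hx⟩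
    obtain ⟨D', f', g', b1, b2, b3, b4⟩ := cell hη.1 hη' a1 (a3.trans_lt hc') (hη.2.1 (ρ x))
      (fun y hy k => hx (a1.1.1 y hy x (Eq.symm k))) (e3 _ a5 a1.1)
    exact ⟨(_, _, f', g'), b2, le_add_fin hc a2 (hη.2.1 _), le_add_fin hc a3 b1,
      a4.trans ⟨Set.subset_union_left, Set.subset_union_left, b3, b4⟩, Or.inr rfl⟩

theorem glue_st {I L : Type} [LinearOrder I] {η η' : MulAut (FreeGroup X)} {ρ ρ' : X → L}
    (s : Set I) (q : I → Q4 X)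
    (h1 : ∀ k ∈ s, St η η' ρ ρ' (q k).1 (q k).2.1 (q k).2.2.1 (q k).2.2.2)
    (h2 : ∀ k ∈ s, ∀ m ∈ s, m < k → Le (q m) (q k)) :
    ∃ f g, St η η' ρ ρ' (⋃ k ∈ s, (q k).1) (⋃ k ∈ s, (q k).2.1) f g ∧
      ∀ k ∈ s, Le (q k) (⋃ k ∈ s, (q k).1, ⋃ k ∈ s, (q k).2.1, f, g) := by
  obtain ⟨f, a1, -⟩ := glue_hom s (fun k => (q k).1) (fun k => (q k).2.2.1) of
    fun k hk m hm c => ⟨(h2 k hk m hm c).1, (h2 k hk m hm c).2.2.1⟩
  obtain ⟨g, b1, -⟩ := glue_hom s (fun k => (q k).2.1) (fun k => (q k).2.2.2) of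
    fun k hk m hm c => ⟨(h2 k hk m hm c).2.1, (h2 k hk m hm c).2.2.2⟩
  refine ⟨f, g, ⟨Clo.biUnion fun k hk => (h1 k hk).1, Clo.biUnion fun k hk => (h1 k hk).2.1,
    fun x hx => ?_, fun x hx => ?_⟩, fun k hk =>
    ⟨Set.subset_biUnion_of_mem (u := fun k => (q k).1) hk,
      Set.subset_biUnion_of_mem (u := fun k => (q k).2.1) hk,
      fun x hx => a1 k hk _ (of_mem hx), fun x hx => b1 k hk _ (of_mem hx)⟩⟩
  · obtain ⟨k, hk, hx⟩ := Set.mem_iUnion₂.1 hx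
    have := (h1 k hk).2.2.1 x hx
    rw [a1 k hk _ (of_mem hx), a1 k hk _ ((h1 k hk).1.2 x hx).1, b1 k hk _ this.1]
    exact ⟨In_mono (Set.subset_biUnion_of_mem (u := fun k => (q k).2.1) hk) this.1, this.2⟩
  · obtain ⟨k, hk, hx⟩ := Set.mem_iUnion₂.1 hx
    have := (h1 k hk).2.2.2 x hx
    rw [b1 k hk _ (of_mem hx), a1 k hk _ this.1]
    exact ⟨In_mono (Set.subset_biUnion_of_mem (u := fun k => (q k).1) hk) this.1, this.2⟩

theorem richC_conj [LinearOrder X] [WellFoundedLT X] (hX : ℵ₀ < #X)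
    (hr : ∀ i : X, #(Set.Iio i) < #X) {η η' : MulAut (FreeGroup X)}
    {ρ ρ' : X → X ×ₗ ℕ} (hη : RichC η ρ) (hη' : RichC η' ρ') : ∃ ψ, ψ * η * ψ⁻¹ = η' := by
  haveI : Infinite X := infinite_iff.2 hX.le
  obtain ⟨q, hq⟩ := rec_ex (I := X) (A := Q4 X)
    (fun i t => St η η' ρ ρ' t.1 t.2.1 t.2.2.1 t.2.2.2 ∧ #t.1 ≤ max ℵ₀ #(Set.Iio i) ∧
      #t.2.1 ≤ max ℵ₀ #(Set.Iio i) ∧ i ∈ t.1 ∧ i ∈ t.2.1) (fun _ s t => Le s t) (by
      intro i q ih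
      obtain ⟨f, g, a1, a2⟩ := glue_st (Set.Iio i) q (fun k hk => (ih k hk).1.1)
        fun k hk m _ c => (ih k hk).2 m c
      have sm : ∀ J : X → Set X, (∀ k < i, #(J k) ≤ max ℵ₀ #(Set.Iio k)) →
          #(⋃ k ∈ Set.Iio i, J k) ≤ max ℵ₀ #(Set.Iio i) := fun J hJ =>
        (mk_biUnion_le _ _).trans (mul_le_of_le (le_max_left _ _) (le_max_right _ _)
          (ciSup_le' fun k => (hJ k.1 k.2).trans
            (max_le_max le_rfl (mk_le_mk_of_subset (Set.Iio_subset_Iio (le_of_lt k.2))))))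
      have hc' : max ℵ₀ #(Set.Iio i) < #X := max_lt hX (hr i)
      obtain ⟨t, b1, b2, b3, b4, b5⟩ := reach hη hη' (le_max_left _ _) hc' i (_, _, f, g) a1
        (sm _ fun k hk => (ih k hk).1.2.1) (sm _ fun k hk => (ih k hk).1.2.2.1)
      obtain ⟨u, c1, c2, c3, c4, c5⟩ := reach hη' hη (le_max_left _ _) hc' i
        (t.2.1, t.1, t.2.2.2, t.2.2.1) b1.symm b3 b2
      exact ⟨(u.2.1, u.1, u.2.2.2, u.2.2.1), ⟨c1.symm, c3, c2, c4.2.1 b5, c5⟩,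
        fun k hk => ((a2 k hk).trans b4).trans ⟨c4.2.1, c4.1, c4.2.2.2, c4.2.2.1⟩⟩)
  obtain ⟨f, g, a1, -⟩ := glue_st Set.univ q (fun k _ => (hq k).1.1)
    fun k _ m _ c => (hq k).2 m c
  have m1 : ∀ x, x ∈ ⋃ k ∈ Set.univ, (q k).1 := fun x =>
    Set.mem_biUnion (Set.mem_univ x) (hq x).1.2.2.2.1
  have m2 : ∀ x, x ∈ ⋃ k ∈ Set.univ, (q k).2.1 := fun x =>
    Set.mem_biUnion (Set.mem_univ x) (hq x).1.2.2.2.2
  obtain ⟨ψ, b1, -⟩ := mk_aut f g (fun x => (a1.2.2.2 x (m2 x)).2)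
    fun x => (a1.2.2.1 x (m1 x)).2.1
  refine ⟨ψ, ?_⟩
  rw [mul_inv_eq_iff_eq_mul]
  refine aut_ext fun x => ?_
  rw [MulAut.mul_apply, MulAut.mul_apply, b1, b1, (a1.2.2.1 x (m1 x)).2.2]

theorem main [Infinite X] : ∃ α ∈ IAg X, ∀ β ∈ IAg X,
    ∃ ψ χ : MulAut (FreeGroup X), β = ψ * α * ψ⁻¹ * (χ * α * χ⁻¹)⁻¹ := by
  rcases (aleph0_le_mk X).eq_or_lt with h | hX
  · have : Countable X := mk_le_aleph0_iff.1 h.ge
    exact countable_case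
  obtain ⟨_, _, hr⟩ := exists_ord_eq_type_lt X
  have hr' : ∀ i : X, #(Set.Iio i) < #X := fun i => mk_Iio_lt i hr
  obtain ⟨α, ρ, _, hα, -⟩ := exists_richC hX hr' 1 (IAg X).one_mem
  refine ⟨α, hα.1, fun β hβ => ?_⟩
  obtain ⟨γ, _, _, h1, h2⟩ := exists_richC hX hr' β hβ
  obtain ⟨ψ, hψ⟩ := richC_conj hX hr' hα h2
  obtain ⟨χ, hχ⟩ := richC_conj hX hr' hα h1
  exact ⟨ψ, χ, by rw [hψ, hχ]; simp⟩

end Pool.Agent.H70.IA
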