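import Mathlib

/-! Strictly ascending HNN structures are undistorted under automorphisms. -/

namespace Pool.Agent.H70.IntF

open scoped commutatorElement

variable {G : Type*} [Group G]

/-- an ascending structure -/
structure Asc (G : Type*) [Group G] where
  χ : G → ℤ
  mul : ∀ x y, χ (x * y) = χ x + χ y
  t : G
  ht : χ t = 1
  B : Subgroup G
  S : Finset G
  hS : Subgroup.closure (S : Set G) = B
  zero : ∀ x ∈ B, χ x = 0
  asc : ∀ x ∈ B, t⁻¹ * x * t ∈ B
  strict : ∃ y ∈ B, t * y * t⁻¹ ∉ B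
  gen : Subgroup.closure (insert t (B : Set G)) = ⊤

namespace Asc

variable (A : Asc G)

theorem one : A.χ 1 = 0 := by have := A.mul 1 1; rw [mul_one] at this; omega

theorem inv (x : G) : A.χ x⁻¹ = - A.χ x := by
  have := A.mul x x⁻¹; rw [mul_inv_cancel, A.one] at this; omega

theorem zpow (x : G) (n : ℤ) : A.χ (x ^ n) = n * A.χ x := by
  induction n using Int.induction_on with
  | zero => simp [A.one]
  | succ n ih => rw [zpow_add_one, A.mul, ih]; ring
  | pred n ih => rw [zpow_sub_one, A.mul, ih, A.inv]; ring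

/-- the `n`-th term of the chain -/
def L (n : ℤ) : Subgroup G := A.B.comap (MulAut.conj (A.t ^ n)⁻¹).toMonoidHom

theorem mem_L {n : ℤ} {x : G} : x ∈ A.L n ↔ (A.t ^ n)⁻¹ * x * A.t ^ n ∈ A.B := by
  rw [L, Subgroup.mem_comap, MulEquiv.coe_toMonoidHom, MulAut.conj_apply, inv_inv]

theorem conj_L {n r : ℤ} {x : G} : A.t ^ r * x * (A.t ^ r)⁻¹ ∈ A.L (n + r) ↔ x ∈ A.L n := by
  rw [mem_L, mem_L]
  have : (A.t ^ (n + r))⁻¹ * (A.t ^ r * x * (A.t ^ r)⁻¹) * A.t ^ (n + r)
      = (A.t ^ n)⁻¹ * x * A.t ^ n := by group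
  rw [this]

theorem succ {n : ℤ} {x : G} (h : x ∈ A.L n) : x ∈ A.L (n + 1) := by
  rw [mem_L] at h ⊢
  have := A.asc _ h
  convert this using 1
  group

theorem mono {m n : ℤ} (hmn : m ≤ n) {x : G} (h : x ∈ A.L m) : x ∈ A.L n := by
  induction n, hmn using Int.le_induction with
  | base => exact h
  | succ n _ ih => exact A.succ ih

theorem zero_L {n : ℤ} {x : G} (h : x ∈ A.L n) : A.χ x = 0 := by
  have := A.zero _ (A.mem_L.1 h)
  rw [A.mul, A.mul, A.inv] at this
  omega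

theorem le_of {m n : ℤ} (h : ∀ x ∈ A.L m, x ∈ A.L n) : m ≤ n := by
  by_contra hc
  obtain ⟨y, hy, hy'⟩ := A.strict
  apply hy'
  have h1 : A.t ^ (n + 1) * y * (A.t ^ (n + 1))⁻¹ ∈ A.L (0 + (n + 1)) :=
    A.conj_L.2 (by simpa [mem_L] using hy)
  have h2 := A.mem_L.1 (h _ (A.mono (by omega) h1))
  convert h2 using 1
  group

theorem decomp (g : G) : ∃ n, g * (A.t ^ A.χ g)⁻¹ ∈ A.L n := by
  have hg : g ∈ Subgroup.closure (insert A.t (A.B : Set G)) := by rw [A.gen]; trivial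
  induction hg using Subgroup.closure_induction with
  | mem x hx =>
    rcases hx with rfl | hx
    · exact ⟨0, by rw [A.ht]; simp⟩
    · exact ⟨0, by rw [A.zero x hx]; simpa [mem_L] using hx⟩
  | one => exact ⟨0, by rw [A.one]; simp⟩
  | mul x y _ _ hx hy =>
    obtain ⟨m, hm⟩ := hx
    obtain ⟨n, hn⟩ := hy
    have h1 := (A.conj_L (r := A.χ x)).2 hn
    refine ⟨max m (n + A.χ x), ?_⟩
    have := mul_mem (A.mono (le_max_left m (n + A.χ x)) hm) (A.mono (le_max_right m _) h1)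
    convert this using 1
    rw [A.mul]
    group
  | inv x _ hx =>
    obtain ⟨m, hm⟩ := hx
    have h1 := (A.conj_L (r := - A.χ x)).2 (inv_mem hm)
    refine ⟨m + - A.χ x, ?_⟩
    convert h1 using 1
    rw [A.inv]
    group

theorem ker {g : G} (h : A.χ g = 0) : ∃ n, g ∈ A.L n := by
  simpa [h] using A.decomp g

theorem conj_up (g : G) : ∃ N, ∀ n, N ≤ n → ∀ x ∈ A.L n, g * x * g⁻¹ ∈ A.L (n + A.χ g) := by
  obtain ⟨m, hm⟩ := A.decomp g
  refine ⟨m - A.χ g, fun n hn x hx => ?_⟩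
  have h1 := A.mono (show m ≤ n + A.χ g by omega) hm
  have h2 := mul_mem (mul_mem h1 ((A.conj_L (r := A.χ g)).2 hx)) (inv_mem h1)
  convert h2 using 1
  group

theorem scale {ψ : G → ℤ} (hψ : ∀ x y, ψ (x * y) = ψ x + ψ y) (h : ∀ x, A.χ x = 0 → ψ x = 0)
    (g : G) : ψ g = A.χ g * ψ A.t := by
  have h0 : ψ 1 = 0 := h 1 A.one
  have hi : ∀ x, ψ x⁻¹ = - ψ x := fun x => by
    have := hψ x x⁻¹; rw [mul_inv_cancel, h0] at this; omega
  have hz : ∀ (n : ℤ), ψ (A.t ^ n) = n * ψ A.t := fun n => by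
    induction n using Int.induction_on with
    | zero => simp [h0]
    | succ n ih => rw [zpow_add_one, hψ, ih]; ring
    | pred n ih => rw [zpow_sub_one, hψ, ih, hi]; ring
  have := h (g * (A.t ^ A.χ g)⁻¹) (by rw [A.mul, A.inv, A.zpow, A.ht]; ring)
  rw [hψ, hi, hz] at this
  omega

/-- `φ` shifts the chain by at most `c` -/
def Sh (φ : MulAut G) (c : ℕ) : Prop := ∀ n : ℤ, 0 ≤ n → ∀ x ∈ A.L n, φ x ∈ A.L (n + c)

theorem Sh.mul {φ φ' : MulAut G} {c c' : ℕ} (h : A.Sh φ c) (h' : A.Sh φ' c') :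
    A.Sh (φ * φ') (c' + c) := fun n hn x hx => by
  have := h _ (by omega) _ (h' n hn x hx)
  rw [Nat.cast_add, ← add_assoc]
  exact this

theorem Sh.pow {φ : MulAut G} {c : ℕ} (h : A.Sh φ c) (n : ℕ) : A.Sh (φ ^ n) (n * c) := by
  induction n with
  | zero => intro n _ x hx; simpa using hx
  | succ n ih =>
    rw [pow_succ, Nat.succ_mul, add_comm]
    exact Sh.mul A ih h

theorem aut (φ : MulAut G) (h : ∀ x, A.χ (φ x) = 0 ↔ A.χ x = 0) :
    (∀ x, A.χ (φ x) = A.χ x) ∧ ∃ c, A.Sh φ c := by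
  have hs := A.scale (ψ := fun x => A.χ (φ x)) (fun x y => by rw [map_mul, A.mul])
    fun x hx => (h x).2 hx
  obtain ⟨k, hk⟩ : ∃ k : ℤ, ∀ x ∈ A.B, φ x ∈ A.L k := by
    have h1 : ∀ s ∈ A.S, ∃ k, φ s ∈ A.L k := fun s hs =>
      A.ker ((h s).2 (A.zero s (A.hS ▸ Subgroup.subset_closure hs)))
    choose! f hf using h1
    obtain ⟨k, hk⟩ := (A.S.image f).bddAbove
    refine ⟨k, fun x hx => ?_⟩
    rw [← A.hS] at hx
    have : Subgroup.closure (A.S : Set G) ≤ (A.L k).comap φ.toMonoidHom :=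
      (Subgroup.closure_le _).2 fun s hs => A.mono (hk (by simpa using ⟨s, hs, rfl⟩)) (hf s hs)
    exact this hx
  obtain ⟨N, hN⟩ := A.conj_up (φ A.t)
  have hK : ∀ x ∈ A.L 0, φ x ∈ A.L (max (max k N) 0) := fun x hx =>
    A.mono ((le_max_left _ _).trans (le_max_left _ _)) (hk x (by simpa [mem_L] using hx))
  have hN' : N ≤ max (max k N) 0 := (le_max_right _ _).trans (le_max_left _ _)
  have h0 : 0 ≤ max (max k N) 0 := le_max_right _ _
  generalize max (max k N) 0 = K at hK hN' h0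
  have step : ∀ (n : ℤ) (x : G), x ∈ A.L (n + 1) → ∃ y ∈ A.L n, φ x = φ A.t * φ y * (φ A.t)⁻¹ :=
    fun n x hx => ⟨A.t⁻¹ * x * A.t, (A.conj_L (r := 1)).1 (by
      convert hx using 1; group), by simp [mul_assoc]⟩
  have he : A.χ (φ A.t) = 1 := by
    have h1 := hs (φ⁻¹ A.t)
    simp only [MulAut.apply_inv_self, A.ht] at h1
    rcases Int.eq_one_or_neg_one_of_mul_eq_one' h1.symm with h2 | h2
    · exact h2.2
    · exfalso
      have h3 : ∀ n : ℤ, 0 ≤ n → ∀ x ∈ A.L n, φ x ∈ A.L K := fun n hn => by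
        induction n, hn using Int.le_induction with
        | base => exact hK
        | succ n _ ih =>
          intro x hx
          obtain ⟨y, hy, e⟩ := step n x hx
          rw [e]
          exact A.mono (by omega) (hN K hN' _ (ih y hy))
      have := A.le_of (m := K + 1) (n := K) fun x hx => by
        obtain ⟨n, hn⟩ := A.ker (g := φ⁻¹ x) ((h _).1 (by simpa using A.zero_L hx))
        simpa using h3 (max n 0) (le_max_right _ _) _ (A.mono (le_max_left _ _) hn)
      omega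
  refine ⟨fun x => by rw [hs x, he, mul_one], K.toNat, fun n hn => ?_⟩
  rw [Int.toNat_of_nonneg h0]
  induction n, hn using Int.le_induction with
  | base => simpa using hK
  | succ n hn ih =>
    intro x hx
    obtain ⟨y, hy, e⟩ := step n x hx
    rw [e]
    have := hN (n + K) (by omega) _ (ih y hy)
    rw [he] at this
    exact A.mono (by omega) this

end Asc

section
variable {H : Type*} [Group H] (ι : G →* H) (hι : Function.Injective ι) (α : H →* MulAut G)
  (hα : ∀ h g, ι (α h g) = h * ι g * h⁻¹) (cm : H → H → G) (hc : ∀ u v, ι (cm u v) = ⁅u, v⁆)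

/-- elements preserving the kernel -/
def Pres (A : Asc G) : Subgroup H where
  carrier := {h | ∀ x, A.χ (α h x) = 0 ↔ A.χ x = 0}
  one_mem' x := by simp
  mul_mem' {u v} hu hv x := by
    rw [map_mul, MulAut.mul_apply, hu, hv]
  inv_mem' {u} hu x := by
    rw [← hu, ← MulAut.mul_apply, ← map_mul]; simp

include hι hα hc in
theorem comm_zero (A : Asc G) {u v : H} (hu : u ∈ Pres α A) (hv : v ∈ Pres α A) :
    A.χ (cm u v) = 0 := by
  have anti : ∀ u v, A.χ (cm v u) = - A.χ (cm u v) := fun u v => by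
    rw [← A.inv]
    congr 1
    apply hι
    rw [map_inv, hc, hc, commutatorElement_inv]
  have lin : ∀ u ∈ Pres α A, ∀ v (n : ℕ), A.χ (cm (u ^ n) v) = n * A.χ (cm u v) := by
    intro u hu v n
    induction n with
    | zero =>
      have : cm 1 v = 1 := hι (by rw [hc]; simp)
      simp [this, A.one]
    | succ n ih =>
      have : cm (u ^ (n + 1)) v = α u (cm (u ^ n) v) * cm u v := hι (by
        rw [map_mul, hα, hc, hc, hc, pow_succ']
        simp only [commutatorElement_def]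
        group)
      rw [this, A.mul, (A.aut _ hu).1, ih]
      push_cast
      ring
  have key : ∀ u ∈ Pres α A, ∀ v ∈ Pres α A, A.χ (cm u v) ≤ 0 := by
    intro u hu v hv
    obtain ⟨c1, h1⟩ := (A.aut _ hu).2
    obtain ⟨c2, h2⟩ := (A.aut _ hv).2
    obtain ⟨c3, h3⟩ := (A.aut _ (inv_mem hu)).2
    obtain ⟨c4, h4⟩ := (A.aut _ (inv_mem hv)).2
    obtain ⟨n, hn⟩ : ∃ n : ℕ, n = c1 + c2 + c3 + c4 + 1 := ⟨_, rfl⟩
    have h5 := Asc.Sh.mul A (Asc.Sh.mul A (Asc.Sh.mul A (h1.pow A n) (h2.pow A n)) (h3.pow A n))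
      (h4.pow A n)
    have h6 : A.χ (cm (u ^ n) (v ^ n)) = n * n * A.χ (cm u v) := by
      rw [lin u hu, anti, lin v hv, anti u v]; ring
    have h7 : ∀ x, (α u ^ n * α v ^ n * α u⁻¹ ^ n * α v⁻¹ ^ n) x
        = cm (u ^ n) (v ^ n) * x * (cm (u ^ n) (v ^ n))⁻¹ := fun x => hι (by
      rw [← map_pow, ← map_pow, ← map_pow, ← map_pow, ← map_mul, ← map_mul, ← map_mul, hα,
        map_mul, map_mul, map_inv, hc, commutatorElement_def, inv_pow, inv_pow])
    generalize cm (u ^ n) (v ^ n) = g at h6 h7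
    obtain ⟨N, hN⟩ := A.conj_up g⁻¹
    obtain ⟨m, hm0, hm⟩ : ∃ m : ℤ, 0 ≤ m ∧ N ≤ m + A.χ g := ⟨max 0 (N - A.χ g), le_max_left _ _,
      by have := le_max_right 0 (N - A.χ g); omega⟩
    have h8 := A.le_of (m := m + A.χ g) fun x hx => by
      have h9 := hN _ hm x hx
      rw [A.inv, add_neg_cancel_right] at h9
      have h10 := h5 m hm0 _ h9
      rw [h7] at h10
      convert h10 using 1
      group
    rw [h6] at h8
    push_cast at h8
    by_contra hp
    have h11 : (n : ℤ) = c1 + c2 + c3 + c4 + 1 := by exact_mod_cast hn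
    have h12 : (n : ℤ) * n ≤ n * n * A.χ (cm u v) := le_mul_of_one_le_right (by positivity) (by omega)
    nlinarith
  have := key u hu v hv
  have := key v hv u hu
  have := anti u v
  omega

theorem index_two (P : Subgroup H) (s : H) (hs : s ∉ P) (h2 : ∀ x y, x ∉ P → y ∉ P → x * y ∈ P)
    {z : H} (hz : z ∈ commutator H) (hP : z ∈ P) : z * (s * z * s⁻¹) ∈ ⁅P, P⁆ := by
  classical
  have hsi : s⁻¹ ∉ P := fun h => hs (inv_mem_iff.1 h)
  have hl : ∀ {x y}, x ∈ P → y ∉ P → x * y ∉ P := fun hx hy h => hy ((mul_mem_cancel_left hx).1 h)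
  have hr : ∀ {x y}, x ∉ P → y ∈ P → x * y ∉ P := fun hx hy h => hx ((mul_mem_cancel_right hy).1 h)
  have hc : ∀ {x}, x ∈ P → s * x * s⁻¹ ∈ P := fun hx => h2 _ _ (hr hs hx) hsi
  let π : H → Abelianization P := fun x => if h : x ∈ P then Abelianization.of ⟨x, h⟩ else 1
  have hπ : ∀ x y, x ∈ P → y ∈ P → π (x * y) = π x * π y := fun x y hx hy => by
    simp only [π, dif_pos hx, dif_pos hy, dif_pos (mul_mem hx hy), ← map_mul]
    rfl
  let f : H →* Abelianization P := MonoidHom.mk'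
    (fun h => if h ∈ P then π h * π (s * h * s⁻¹) else π (h * s⁻¹) * π (s * h)) fun g h => by
      by_cases hg : g ∈ P <;> by_cases hh : h ∈ P
      · rw [if_pos hg, if_pos hh, if_pos (mul_mem hg hh), hπ _ _ hg hh,
          show s * (g * h) * s⁻¹ = (s * g * s⁻¹) * (s * h * s⁻¹) by group, hπ _ _ (hc hg) (hc hh)]
        ac_rfl
      · rw [if_pos hg, if_neg hh, if_neg (hl hg hh), mul_assoc g, hπ _ _ hg (h2 _ _ hh hsi),
          show s * (g * h) = (s * g * s⁻¹) * (s * h) by group, hπ _ _ (hc hg) (h2 _ _ hs hh)]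
        ac_rfl
      · rw [if_neg hg, if_pos hh, if_neg (hr hg hh), ← mul_assoc s, hπ _ _ (h2 _ _ hs hg) hh,
          show g * h * s⁻¹ = (g * s⁻¹) * (s * h * s⁻¹) by group, hπ _ _ (h2 _ _ hg hsi) (hc hh)]
        ac_rfl
      · rw [if_neg hg, if_neg hh, if_pos (h2 _ _ hg hh),
          show s * (g * h) * s⁻¹ = (s * g) * (h * s⁻¹) by group,
          hπ _ _ (h2 _ _ hs hg) (h2 _ _ hh hsi),
          show g * h = (g * s⁻¹) * (s * h) by group, hπ _ _ (h2 _ _ hg hsi) (h2 _ _ hs hh)]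
        ac_rfl
  have h1 : f z = 1 := Abelianization.commutator_subset_ker f hz
  have h3 : π (z * (s * z * s⁻¹)) = 1 := by
    rw [hπ _ _ hP (hc hP)]
    simpa [f, hP] using h1
  simp only [π, dif_pos (mul_mem hP (hc hP))] at h3
  have h4 : (⟨_, mul_mem hP (hc hP)⟩ : P) ∈ commutator P := by
    rw [← Abelianization.ker_of]; exact h3
  have h5 := Subgroup.mem_map_of_mem P.subtype h4
  rw [commutator_def, Subgroup.map_commutator, ← MonoidHom.range_eq_map, Subgroup.range_subtype] at h5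
  exact h5

include hι hα hc in
theorem chi_zero (A : Asc G) (P : Subgroup H) (hP : P ≤ Pres α A) {g : G} (hg : ι g ∈ ⁅P, P⁆) :
    A.χ g = 0 := by
  let Kr : Subgroup G :=
    { carrier := {x | A.χ x = 0}
      one_mem' := A.one
      mul_mem' := fun {x y} hx hy => by
        change A.χ _ = 0
        rw [A.mul, hx, hy, add_zero]
      inv_mem' := fun {x} hx => by
        change A.χ _ = 0
        rw [A.inv, hx, neg_zero] }
  have : ⁅P, P⁆ ≤ Kr.map ι := Subgroup.commutator_le.2 fun u hu v hv =>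
    ⟨cm u v, comm_zero ι hι α hα cm hc A (hP hu) (hP hv), hc u v⟩
  obtain ⟨x, hx, e⟩ := this hg
  rw [← hι e]
  exact hx

include hι hα hc in
theorem no_integral (A A' : Asc G) (hr : ∀ g, ι g ∈ commutator H) (z : G) (hz : A.χ z = 0)
    (hz' : A'.χ z ≠ 0)
    (perm : ∀ (φ : MulAut G) (A₀ : Asc G), A₀ = A ∨ A₀ = A' →
      (∀ x, A₀.χ (φ x) = 0 ↔ A.χ x = 0) ∨ (∀ x, A₀.χ (φ x) = 0 ↔ A'.χ x = 0)) : False := by
  have hne : ∀ φ : MulAut G, ¬ ∀ x, A'.χ (φ x) = 0 ↔ A.χ (φ x) = 0 := fun φ h =>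
    hz' (by simpa [hz] using h (φ⁻¹ z))
  have h1 : Pres α A ≤ Pres α A' := fun h hh =>
    (perm (α h) A' (.inr rfl)).resolve_left fun h' => hne (α h) fun x => (h' x).trans (hh x).symm
  have h2 : ∀ s, s ∉ Pres α A → ∀ x, A.χ (α s x) = 0 ↔ A'.χ x = 0 := fun s hs =>
    (perm (α s) A (.inl rfl)).resolve_left hs
  have h3 : ∀ s, s ∉ Pres α A → ∀ x, A'.χ (α s x) = 0 ↔ A.χ x = 0 := fun s hs =>
    (perm (α s) A' (.inr rfl)).resolve_right fun h' =>
      hne (α s) fun x => (h' x).trans (h2 s hs x).symm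
  by_cases hall : ∀ h, h ∈ Pres α A
  · have := chi_zero ι hι α hα cm hc A ⊤ (fun h _ => hall h) (hr A.t)
    rw [A.ht] at this
    exact one_ne_zero this
  · push Not at hall
    obtain ⟨s, hs⟩ := hall
    have hzP : ι z ∈ Pres α A := fun x => by
      have : α (ι z) x = z * x * z⁻¹ := hι (by rw [hα]; simp)
      rw [this, A.mul, A.mul, A.inv]
      omega
    have h4 := index_two (Pres α A) s hs (fun x y hx hy w => by
      rw [map_mul, MulAut.mul_apply, h2 x hx, h3 y hy]) (hr z) hzP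
    rw [← hα, ← map_mul] at h4
    have h5 := chi_zero ι hι α hα cm hc A' _ h1 h4
    rw [A'.mul, (h3 s hs z).2 hz] at h5
    exact hz' (by simpa using h5)

end

end Pool.Agent.H70.IntF
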