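import Pool.Agent.H70.IntF1
import Pool.Agent.H65.Thom4
import Pool.Agent.H65.Thom5
import Pool.Agent.H65.ThomDefs

/-! Thompson's group `F` is not the derived subgroup of any group. -/

namespace Pool.Agent.H70.IntF

open Equiv Pool.Agent.H65.Thom
open scoped commutatorElement

theorem gens : Subgroup.closure {(PresentedGroup.of false : ThompsonF), PresentedGroup.of true} = ⊤ := by
  rw [← PresentedGroup.closure_range_of relsF]
  congr 1
  ext x
  simp [eq_comm]

theorem exists_rho : ∃ ρ : ThompsonF →* Perm C, ρ (PresentedGroup.of false) = a⁻¹ ∧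
    ρ (PresentedGroup.of true) = (sub [true] a)⁻¹ ∧ Function.Injective ρ := by
  let f : Bool → Perm C := fun c => cond c (sub [true] a)⁻¹ a⁻¹
  have hf : ∀ r ∈ relsF, FreeGroup.lift f r = 1 := by
    rintro _ (rfl | rfl) <;>
      simp only [map_commutatorElement, commutatorElement_eq_one_iff_commute, map_mul, map_inv,
        map_pow, FreeGroup.lift_apply_of, f, cond]
    exacts [by simpa only [X, pow_one] using rels_hold 0, rels_hold 1]
  refine ⟨PresentedGroup.toGroup hf, PresentedGroup.toGroup.of hf, PresentedGroup.toGroup.of hf,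
    rho_inj _ _ ?_ ?_ _ (PresentedGroup.toGroup.of hf) (PresentedGroup.toGroup.of hf) gens⟩
  · have := PresentedGroup.one_of_mem (rels := relsF) (.inl rfl)
    rw [map_commutatorElement, commutatorElement_eq_one_iff_commute] at this
    rw [X, pow_one]
    exact this
  · have := PresentedGroup.one_of_mem (rels := relsF) (.inr rfl)
    rw [map_commutatorElement, commutatorElement_eq_one_iff_commute] at this
    exact this

theorem exists_chi (p q : ℤ) : ∃ χ : ThompsonF → ℤ, (∀ x y, χ (x * y) = χ x + χ y) ∧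
    χ (PresentedGroup.of false) = p ∧ χ (PresentedGroup.of true) = q := by
  let f : Bool → Multiplicative ℤ := fun c => cond c (.ofAdd q) (.ofAdd p)
  have hf : ∀ r ∈ relsF, FreeGroup.lift f r = 1 := by
    rintro _ (rfl | rfl) <;>
      simp only [map_commutatorElement, commutatorElement_eq_one_iff_commute] <;>
      exact Commute.all _ _
  refine ⟨fun x => (PresentedGroup.toGroup hf x).toAdd, fun x y => by simp, ?_, ?_⟩
  · simp [f]
  · simp [f]

theorem a0_eq : sub [false] a = a⁻¹ * (sub [true] a)⁻¹ * a * a := by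
  rw [mul_assoc, mul_assoc, eq_inv_mul_iff_mul_eq, eq_inv_mul_iff_mul_eq]
  ext1 x
  rcases cases1 x with ⟨x, rfl⟩ | ⟨x, rfl⟩
  · rcases cases1 x with ⟨x, rfl⟩ | ⟨x, rfl⟩
    · rcases cases1 x with ⟨x, rfl⟩ | ⟨x, rfl⟩ <;> rcases cases1 x with ⟨x, rfl⟩ | ⟨x, rfl⟩ <;> rfl
    · rfl
  · rfl

theorem b_eq : b = a⁻¹ * ((sub [true] a)⁻¹ * (a * sub [true] a * a⁻¹)⁻¹ * sub [true] a *
    sub [true] a) * a := by
  have h1 := conj_sub (g := a) (s := [true]) (t := [true, true]) (fun w => rfl) a
  have h2 := conj_sub (g := a) (s := [false, true]) (t := [true, false]) (fun w => rfl) a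
  have h3 := congrArg (sub [true]) a0_eq
  simp only [map_mul, map_inv, ← sub_append, List.cons_append, List.nil_append] at h3
  rw [h1, ← h3, ← h2, b]
  group

theorem half {c u : Perm C} {d : Bool} {m r : ℤ} (hu : ∀ y, u (cons d y) = cons d ((a ^ m) y))
    (h1 : Commute c u) (h2 : Commute c (sub [d] b)) (far : ℤ → Prop)
    (hfar : ∀ j, ∃ k : ℤ, far (m * k + j))
    (h : ∀ j, far j → ∀ w, c (cons d (ph j w)) = cons d (ph (j + r) w)) (j : ℤ) (w : C) :
    c (cons d (ph j w)) = cons d (ph j w) := by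
  have hk : ∀ (k : ℤ) y, (u ^ k) (cons d y) = cons d ((a ^ (m * k)) y) := fun k => by
    induction k using Int.induction_on with
    | zero => simp
    | succ k ih =>
      intro y
      rw [zpow_add_one, Perm.mul_apply, hu, ih, mul_add, mul_one, zpow_add, Perm.mul_apply]
    | pred k ih =>
      intro y
      obtain ⟨y, rfl⟩ := (a ^ m).surjective y
      rw [← hu, ← Perm.mul_apply, ← zpow_add_one, ← Perm.mul_apply, ← zpow_add, sub_add_cancel, ih]
      congr 3
      ring
  have h3 : ∀ j w, c (cons d (ph j w)) = cons d (ph (j + r) w) := fun j w => by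
    obtain ⟨k, hk'⟩ := hfar j
    apply (u ^ k).injective
    rw [← Perm.mul_apply, ← (h1.zpow_right k).eq, Perm.mul_apply, hk, hk, az_ph, az_ph, h _ hk',
      add_assoc]
  have h4 : r = 0 := by
    by_contra hr
    have e := congrArg (fun g : Perm C => g (cons d (ph 0 (ph 0 (K true))))) h2.eq
    have hb : ∀ y, sub [d] b (cons d y) = cons d (b y) := fun y => sub_cat [d] b y
    have hb' := fun i w => bz_ph 1 i w
    simp only [zpow_one] at hb'
    simp only [Perm.mul_apply, hb, hb', h3, zero_add, if_true, if_neg hr, a_ph, cons_inj,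
      true_and] at e
    have := (ph_inj (ph_inj e).2).1
    omega
  rw [h3, h4, add_zero]

theorem cent {c : Perm C} (hV : c ∈ V) (hM : c ∈ M) (hK : ∀ d, c (K d) = K d) {m n : ℤ}
    (hm : m ≠ 0) (hn : n ≠ 0) (h1 : Commute c (sub [false] a ^ m * sub [true] a ^ n))
    (h2 : ∀ d, Commute c (sub [d] b)) : c = 1 := by
  have hs : ∀ d (g : Perm C) y, sub [d] g (cons d y) = cons d (g y) := fun d g y => sub_cat [d] g y
  have hs' : ∀ d (g : Perm C) y, sub [d] g (cons (!d) y) = cons (!d) y := fun d g y =>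
    sub_out _ fun w e => by cases d <;> simp at e
  have lo : ∀ j w, c (cons false (ph j w)) = cons false (ph j w) := by
    obtain ⟨r, N, h⟩ := germ_lo hV (hK false)
    have e : ∀ j ≤ 0, ∀ w, cons false (ph j w) = ph (j - 1) w := fun j hj w => by
      obtain ⟨k, rfl⟩ : ∃ k : ℕ, j = -k := ⟨(-j).toNat, by omega⟩
      rw [show -(k : ℤ) - 1 = -((k + 1 : ℕ) : ℤ) by push_cast; ring, ph_neg, ph_neg]
      rfl
    refine half (m := m) (r := r) (fun y => ?_) h1 (h2 false) (fun j => j ≤ N ∧ j ≤ 0 ∧ j + r ≤ 0)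
      (fun j => ?_) fun j hj w => ?_
    · rw [← map_zpow, ← map_zpow, Perm.mul_apply]
      exact (congrArg _ (hs' true _ y)).trans (hs _ _ _)
    · refine ⟨-m * (|j| + |N| + |r|), ?_⟩
      have h5 : 1 ≤ m * m := mul_self_pos.2 hm
      have := le_abs_self j
      have := neg_abs_le N
      have := le_abs_self r
      have := abs_nonneg N
      have := abs_nonneg r
      have := abs_nonneg j
      have : m * (-m * (|j| + |N| + |r|)) ≤ -(|j| + |N| + |r|) := by nlinarith
      omega
    · rw [e j hj.2.1, e _ hj.2.2, h _ (by omega)]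
      congr 1
      ring
  have hi : ∀ j w, c (cons true (ph j w)) = cons true (ph j w) := by
    obtain ⟨r, N, h⟩ := germ_hi hV (hK true)
    have e : ∀ j ≥ 1, ∀ w, cons true (ph j w) = ph (j + 1) w := fun j hj w => by
      obtain ⟨k, rfl⟩ : ∃ k : ℕ, j = k + 1 := ⟨(j - 1).toNat, by omega⟩
      rw [show (k : ℤ) + 1 + 1 = ((k + 1 : ℕ) : ℤ) + 1 by push_cast; ring, ph_pos, ph_pos]
      rfl
    refine half (m := n) (r := r) (fun y => ?_) h1 (h2 true) (fun j => N ≤ j ∧ 1 ≤ j ∧ 1 ≤ j + r)
      (fun j => ?_) fun j hj w => ?_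
    · rw [← map_zpow, ← map_zpow, Perm.mul_apply, hs]
      exact hs' false _ _
    · refine ⟨n * (|j| + |N| + |r| + 1), ?_⟩
      have h5 : 1 ≤ n * n := mul_self_pos.2 hn
      have := neg_abs_le j
      have := le_abs_self N
      have := neg_abs_le r
      have := abs_nonneg N
      have := abs_nonneg r
      have := abs_nonneg j
      have : |j| + |N| + |r| + 1 ≤ n * (n * (|j| + |N| + |r| + 1)) := by nlinarith
      omega
    · rw [e j hj.2.1, e _ hj.2.2, h _ (by omega)]
      congr 1
      ring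
  have all : ∀ x, x = cons false (K true) ∨ x = cons true (K false) ∨ c x = x := fun x => by
    rcases cases1 x with ⟨y, rfl⟩ | ⟨y, rfl⟩ <;> rcases tri y with ⟨d, rfl⟩ | ⟨i, w, rfl⟩
    · cases d
      · rw [cons_K, hK]; simp
      · simp
    · simp [lo]
    · cases d
      · simp
      · rw [cons_K, hK]; simp
    · simp [hi]
  have hlt : o (cons false (K true)) < o (cons true (K false)) := by simp [cons_lt]
  have hp : c (cons false (K true)) = cons false (K true) := by
    rcases all (c (cons false (K true))) with h | h | h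
    · exact h
    · exfalso
      have h6 := (M_lt hM).2 hlt
      rcases all (c (cons true (K false))) with h' | h' | h'
      · rw [h, h'] at h6; exact lt_asymm h6 hlt
      · rw [h, h'] at h6; exact lt_irrefl _ h6
      · rw [h, c.injective h'] at h6; exact lt_irrefl _ h6
    · exact c.injective h
  ext1 x
  rcases all x with rfl | rfl | h
  · exact hp
  · rcases all (c (cons true (K false))) with h | h | h
    · exact absurd (c.injective (h.trans hp.symm)) (by simp)
    · exact h
    · exact c.injective h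
  · exact h

theorem far_comm {s s' : List Bool} (h : ∀ w v, cat s w ≠ cat s' v) (g g' : Perm C) :
    Commute (sub s' g') (sub s g) :=
  mul_inv_eq_iff_eq_mul.1 (conj_sub (fun w => sub_out g' (h w)) g)

theorem main {H : Type*} [Group H] (e : commutator H ≃* ThompsonF) : False := by
  classical
  obtain ⟨ρ, hA, hB, inj⟩ := exists_rho
  obtain ⟨χ0, m0, hA0, hB0⟩ := exists_chi 1 0
  obtain ⟨χ1, m1, hA1, hB1⟩ := exists_chi (-1) (-1)
  have hg := gens
  generalize (PresentedGroup.of false : ThompsonF) = A at *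
  generalize (PresentedGroup.of true : ThompsonF) = B at *
  have add : ∀ {χ : ThompsonF → ℤ}, (∀ x y, χ (x * y) = χ x + χ y) →
      χ 1 = 0 ∧ (∀ x, χ x⁻¹ = - χ x) ∧ ∀ x (n : ℤ), χ (x ^ n) = n * χ x := fun {χ} h => by
    have h0 : χ 1 = 0 := by have := h 1 1; rw [mul_one] at this; omega
    have h1 : ∀ x, χ x⁻¹ = - χ x := fun x => by
      have := h x x⁻¹; rw [mul_inv_cancel, h0] at this; omega
    refine ⟨h0, h1, fun x n => ?_⟩
    induction n using Int.induction_on with
    | zero => simp [h0]
    | succ n ih => rw [zpow_add_one, h, ih]; ring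
    | pred n ih => rw [zpow_sub_one, h, ih, h1]; ring
  have cl : ∀ {χ : ThompsonF → ℤ}, (∀ x y, χ (x * y) = χ x + χ y) → ∀ {x y}, χ x = 0 → χ y = 0 →
      ∀ z ∈ Subgroup.closure (({x, y} : Finset ThompsonF) : Set ThompsonF), χ z = 0 := by
    intro χ h x y hx hy z hz
    induction hz using Subgroup.closure_induction with
    | mem z hz => simp at hz; rcases hz with rfl | rfl <;> assumption
    | one => exact (add h).1
    | mul z w _ _ h1 h2 => rw [h, h1, h2, add_zero]
    | inv z _ h1 => rw [(add h).2.1, h1, neg_zero]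
  have asc : ∀ {x y t : ThompsonF},
      t⁻¹ * x * t ∈ Subgroup.closure (({x, y} : Finset ThompsonF) : Set ThompsonF) →
      t⁻¹ * y * t ∈ Subgroup.closure (({x, y} : Finset ThompsonF) : Set ThompsonF) →
      ∀ z ∈ Subgroup.closure (({x, y} : Finset ThompsonF) : Set ThompsonF),
        t⁻¹ * z * t ∈ Subgroup.closure (({x, y} : Finset ThompsonF) : Set ThompsonF) := by
    intro x y t hx hy z hz
    induction hz using Subgroup.closure_induction with
    | mem z hz => simp at hz; rcases hz with rfl | rfl <;> assumption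
    | one => simp
    | mul z w _ _ h1 h2 => convert mul_mem h1 h2 using 1; group
    | inv z _ h1 => convert inv_mem h1 using 1; group
  have fix : ∀ {x y : ThompsonF} (p : C), ρ x p = p → ρ y p = p →
      ∀ z ∈ Subgroup.closure (({x, y} : Finset ThompsonF) : Set ThompsonF), ρ z p = p := by
    intro x y p hx hy z hz
    induction hz using Subgroup.closure_induction with
    | mem z hz => simp at hz; rcases hz with rfl | rfl <;> assumption
    | one => simp
    | mul z w _ _ h1 h2 => rw [map_mul, Perm.mul_apply, h2, h1]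
    | inv z _ h1 => rw [map_inv, Perm.inv_eq_iff_eq, h1]
  have com : ∀ {x y c : ThompsonF}, Commute c x → Commute c y →
      ∀ z ∈ Subgroup.closure (({x, y} : Finset ThompsonF) : Set ThompsonF), Commute c z := by
    intro x y c hx hy z hz
    induction hz using Subgroup.closure_induction with
    | mem z hz => simp at hz; rcases hz with rfl | rfl <;> assumption
    | one => simp
    | mul z w _ _ h1 h2 => exact h1.mul_right h2
    | inv z _ h1 => exact h1.inv_right
  have ml : ∀ x y : ThompsonF, x ∈ Subgroup.closure (({x, y} : Finset ThompsonF) : Set ThompsonF) :=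
    fun x y => Subgroup.subset_closure (by simp)
  have mr : ∀ x y : ThompsonF, y ∈ Subgroup.closure (({x, y} : Finset ThompsonF) : Set ThompsonF) :=
    fun x y => Subgroup.subset_closure (by simp)
  have c11 := conj_sub (g := a) (s := [true]) (t := [true, true]) (fun w => rfl) a
  have c111 := conj_sub (g := a) (s := [true, true]) (t := [true, true, true]) (fun w => rfl) a
  have c00 := fun g => conj_sub (g := a) (s := [false, false]) (t := [false]) (fun w => rfl) g
  have d11 := congrArg (sub [true]) c11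
  have d0 := congrArg (sub [false]) a0_eq
  have d1 := congrArg (sub [false]) b_eq
  simp only [map_mul, map_inv, ← sub_append, List.cons_append, List.nil_append] at d11 d0 d1
  obtain ⟨x2, ex2⟩ : ∃ x2, x2 = A⁻¹ * B⁻¹ * A := ⟨_, rfl⟩
  obtain ⟨y0, ey0⟩ : ∃ y0, y0 = A * B * A⁻¹ * A⁻¹ := ⟨_, rfl⟩
  obtain ⟨y1, ey1⟩ : ∃ y1, y1 = A * (B * (A⁻¹ * B⁻¹ * A)⁻¹ * B⁻¹ * B⁻¹) * A⁻¹ := ⟨_, rfl⟩
  have hx2 : ρ x2 = sub [true, true] a := by rw [← c11, ex2]; simp [hA, hB]
  have hy0 : ρ y0 = sub [false] a := by rw [a0_eq, ey0]; simp [hA, hB]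
  have hy1 : ρ y1 = sub [false, true] a := by
    change _ = b
    rw [b_eq, ey1]; simp [hA, hB, mul_assoc]
  have hBi : ρ B⁻¹ = sub [true] a := by simp [hB]
  have eB : B = A⁻¹ * y0 * A * A := by rw [ey0]; group
  let Lo : Asc ThompsonF :=
    { χ := χ0, mul := m0, t := A, ht := hA0
      B := Subgroup.closure (({B⁻¹, x2} : Finset ThompsonF) : Set ThompsonF)
      S := {B⁻¹, x2}, hS := rfl
      zero := cl m0 (by simp [(add m0).2.1, hB0]) (by simp [ex2, m0, (add m0).2.1, hB0])
      asc := asc (ex2 ▸ mr _ _) (by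
        have : A⁻¹ * x2 * A = B⁻¹ * x2 * B⁻¹⁻¹ := inj (by
          simp only [map_mul, map_inv, hA, hB, hx2, inv_inv, c111, d11])
        rw [this]
        exact mul_mem (mul_mem (ml _ _) (mr _ _)) (inv_mem (ml _ _)))
      strict := ⟨B⁻¹, ml _ _, fun h => by
        have := fix (cons false (cons true (cons false (K true)))) (by rw [hBi]; rfl)
          (by rw [hx2]; rfl) _ h
        simp only [map_mul, map_inv, hA, hB, inv_inv, Perm.mul_apply, Perm.inv_eq_iff_eq] at this
        exact absurd (congrFun this 2) (by decide)⟩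
      gen := top_unique (hg ▸ (Subgroup.closure_le _).2 (by
        rintro _ (rfl | rfl)
        · exact Subgroup.subset_closure (.inl rfl)
        · exact inv_mem_iff.1 (Subgroup.subset_closure (.inr (ml _ _))))) }
  let Hi : Asc ThompsonF :=
    { χ := χ1, mul := m1, t := A⁻¹, ht := by simp [(add m1).2.1, hA1]
      B := Subgroup.closure (({y0, y1} : Finset ThompsonF) : Set ThompsonF)
      S := {y0, y1}, hS := rfl
      zero := cl m1 (by simp [ey0, m1, (add m1).2.1, hA1, hB1])
        (by simp [ey1, m1, (add m1).2.1, hA1, hB1])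
      asc := asc (by
        have : A⁻¹⁻¹ * y0 * A⁻¹ = y0⁻¹ * y1⁻¹ * y0 * y0 := inj (by
          simp only [map_mul, map_inv, hA, hy0, hy1, inv_inv, ← d0]
          rw [← c00]; group)
        rw [this]
        exact mul_mem (mul_mem (mul_mem (inv_mem (ml _ _)) (inv_mem (mr _ _))) (ml _ _)) (ml _ _))
        (by
        have : A⁻¹⁻¹ * y1 * A⁻¹ = y0⁻¹ * (y1⁻¹ * (y0 * y1 * y0⁻¹)⁻¹ * y1 * y1) * y0 := inj (by
          have c01 : a * sub [false] b * a⁻¹ = sub [false, true] a :=
            (congrArg (fun g => a * g * a⁻¹) (sub_append [false] [false, true] a).symm).trans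
              (conj_sub (g := a) (s := [false, false, true]) (t := [false, true]) (fun w => rfl) a)
          simp only [map_mul, map_inv, hA, hy0, hy1, inv_inv]
          rw [← d1, ← c01]; group)
        rw [this]
        exact mul_mem (mul_mem (inv_mem (ml _ _)) (mul_mem (mul_mem (mul_mem (inv_mem (mr _ _))
          (inv_mem (mul_mem (mul_mem (ml _ _) (mr _ _)) (inv_mem (ml _ _))))) (mr _ _)) (mr _ _)))
          (ml _ _))
      strict := ⟨y0, ml _ _, fun h => by
        have := fix (cons true (cons false (K false))) (by rw [hy0]; rfl)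
          (by rw [hy1]; rfl) _ h
        simp only [map_mul, map_inv, hA, hy0, inv_inv, Perm.mul_apply] at this
        exact absurd (congrFun this 2) (by decide)⟩
      gen := top_unique (hg ▸ (Subgroup.closure_le _).2 (by
        have h1 : A ∈ Subgroup.closure (insert A⁻¹ ((Subgroup.closure
            (({y0, y1} : Finset ThompsonF) : Set ThompsonF) : Subgroup ThompsonF) : Set ThompsonF)) :=
          inv_mem_iff.1 (Subgroup.subset_closure (.inl rfl))
        rintro _ (rfl | rfl)
        · exact h1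
        · have h2 := mul_mem (mul_mem (mul_mem (inv_mem h1)
            (Subgroup.subset_closure (.inr (ml y0 y1)))) h1) h1
          rwa [← eB] at h2)) }
  let ι : ThompsonF →* H := (commutator H).subtype.comp e.symm.toMonoidHom
  have hι : Function.Injective ι := (commutator H).subtype_injective.comp e.symm.injective
  let α : H →* MulAut ThompsonF := (MulAut.congr e).toMonoidHom.comp MulAut.conjNormal
  refine no_integral ι hι α (fun h g => by simp [ι, α]) (fun u v => e ⟨⁅u, v⁆,
    Subgroup.commutator_mem_commutator trivial trivial⟩) (fun u v => by simp [ι]) Lo Hi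
    (fun g => (e.symm g).2) B hB0 (by change χ1 B ≠ 0; omega) fun φ A₀ hA₀ => ?_
  have mψ : ∀ x y, A₀.χ (φ (x * y)) = A₀.χ (φ x) + A₀.χ (φ y) := fun x y => by
    rw [map_mul, A₀.mul]
  obtain ⟨p, hp⟩ : ∃ p, p = A₀.χ (φ A) := ⟨_, rfl⟩
  obtain ⟨q, hq⟩ : ∃ q, q = A₀.χ (φ B) := ⟨_, rfl⟩
  have form : ∀ x, A₀.χ (φ x) = (p - q) * χ0 x - q * χ1 x := fun x => by
    have hx : x ∈ Subgroup.closure {A, B} := hg ▸ trivial
    induction hx using Subgroup.closure_induction with
    | mem z hz => rcases hz with rfl | rfl <;> simp [← hp, ← hq, hA0, hA1, hB0, hB1]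
    | one => simp [A₀.one, (add m0).1, (add m1).1]
    | mul z w _ _ h1 h2 => rw [mψ, h1, h2, m0, m1]; ring
    | inv z _ h1 => rw [map_inv, A₀.inv, h1, (add m0).2.1, (add m1).2.1]; ring
  have h1 := form (φ⁻¹ A₀.t)
  rw [MulAut.apply_inv_self, A₀.ht] at h1
  by_cases hq0 : q = 0
  · refine .inl fun x => ?_
    have : p ≠ 0 := by rintro rfl; simp [hq0] at h1
    change _ ↔ χ0 x = 0
    simp [form, hq0, this]
  by_cases hpq : p - q = 0
  · refine .inr fun x => ?_
    change _ ↔ χ1 x = 0
    simp [form, hq0, hpq]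
  exfalso
  obtain ⟨c, hc1, hc⟩ : ∃ c, c ≠ 1 ∧ ∀ x ∈ A₀.B, Commute c x := by
    have ne : ∀ d, sub [d] a ≠ 1 := fun d h => by
      have := congrArg (fun g : Perm C => g (cat [d] (ph 0 (K true)))) h
      simp only [sub_cat, a_ph, Perm.one_apply, cat_inj] at this
      simpa using (ph_inj this).1
    rcases hA₀ with rfl | rfl
    · exact ⟨y0, fun h => ne false (by rw [← hy0, h, map_one]), com
        (.of_map inj (by rw [hy0, hBi]; exact far_comm (by simp) _ _))
        (.of_map inj (by rw [hy0, hx2]; exact far_comm (by simp) _ _))⟩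
    · exact ⟨B⁻¹, fun h => ne true (by rw [← hBi, h, map_one]), com
        (.of_map inj (by rw [hy0, hBi]; exact far_comm (by simp) _ _))
        (.of_map inj (by rw [hy1, hBi]; exact far_comm (by simp) _ _))⟩
  obtain ⟨n1, k1⟩ := A₀.ker (g := φ (y0 ^ q * B⁻¹ ^ (q - p))) (by
    rw [form]
    simp only [ey0, m0, m1, (add m0).2.1, (add m1).2.1, (add m0).2.2, (add m1).2.2, hA0, hA1, hB0,
      hB1]
    ring)
  obtain ⟨n2, k2⟩ := A₀.ker (g := φ (A * y1 * A⁻¹)) (by
    rw [form]
    simp only [ey1, m0, m1, (add m0).2.1, (add m1).2.1, hA0, hA1, hB0, hB1]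
    ring)
  obtain ⟨n3, k3⟩ := A₀.ker (g := φ ((B * A⁻¹ * A⁻¹) * y1 * (B * A⁻¹ * A⁻¹)⁻¹)) (by
    rw [form]
    simp only [ey1, m0, m1, (add m0).2.1, (add m1).2.1, hA0, hA1, hB0, hB1]
    ring)
  obtain ⟨n, l1, l2, l3⟩ : ∃ n, n1 ≤ n ∧ n2 ≤ n ∧ n3 ≤ n := ⟨max n1 (max n2 n3), by omega⟩
  have key : ∀ x, φ x ∈ A₀.L n → Commute (ρ (φ⁻¹ (A₀.t ^ n * c * (A₀.t ^ n)⁻¹))) (ρ x) :=
    fun x hx => by
      apply Commute.map
      refine .of_map φ.injective ?_
      have := (hc _ (A₀.mem_L.1 hx)).conj (A₀.t ^ n)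
      simpa [mul_assoc] using this
  have hmem : ∀ x, ρ x ∈ V ∧ ρ x ∈ M ∧ ∀ d, ρ x (K d) = K d := fun x => by
    have hx : x ∈ Subgroup.closure {A, B} := hg ▸ trivial
    induction hx using Subgroup.closure_induction with
    | mem z hz =>
      rcases hz with rfl | rfl
      · rw [hA]
        exact ⟨inv_mem a_mem, inv_mem a_M, fun d => by rw [Perm.inv_eq_iff_eq, a_K]⟩
      · rw [hB]
        refine ⟨inv_mem (sub_mem a_mem _), inv_mem (sub_M a_M _), fun d => ?_⟩
        rw [Perm.inv_eq_iff_eq, ← cons_K]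
        cases d
        · rfl
        · exact ((sub_cat [true] a (K true)).trans (by rw [a_K]; rfl)).symm
    | one => simp
    | mul z w _ _ h1 h2 =>
      rw [map_mul]
      exact ⟨mul_mem h1.1 h2.1, mul_mem h1.2.1 h2.2.1, fun d => by
        rw [Perm.mul_apply, h2.2.2, h1.2.2]⟩
    | inv z _ h1 =>
      rw [map_inv]
      exact ⟨inv_mem h1.1, inv_mem h1.2.1, fun d => by rw [Perm.inv_eq_iff_eq, h1.2.2]⟩
  have f1 := key _ (A₀.mono l1 k1)
  have f2 := key _ (A₀.mono l2 k2)
  have f3 := key _ (A₀.mono l3 k3)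
  rw [map_mul ρ, map_zpow ρ, map_zpow ρ, hy0, hBi] at f1
  have g2 : ρ (A * y1 * A⁻¹) = sub [false] b := by
    rw [map_mul, map_mul, map_inv, hA, hy1]
    exact (conj_sub (g := a⁻¹) (s := [false, true]) (t := [false, false, true])
      (fun w => rfl) a).trans (sub_append [false] [false, true] a)
  have g3 : ρ ((B * A⁻¹ * A⁻¹) * y1 * (B * A⁻¹ * A⁻¹)⁻¹) = sub [true] b := by
    rw [map_mul, map_mul, map_inv, hy1]
    refine (conj_sub (s := [false, true]) (t := [true, false, true]) (fun w => ?_) a).trans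
      (sub_append [true] [false, true] a)
    simp only [map_mul, map_inv, hA, hB, inv_inv, Perm.mul_apply, Perm.inv_eq_iff_eq]
    rfl
  rw [g2] at f2
  rw [g3] at f3
  have := cent (hmem _).1 (hmem _).2.1 (hmem _).2.2 hq0 (show q - p ≠ 0 by omega) f1 fun d => by cases d; exacts [f2, f3]
  rw [map_eq_one_iff ρ inj, map_eq_one_iff _ (φ⁻¹).injective] at this
  exact hc1 (by simpa using this)

end Pool.Agent.H70.IntF
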