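import Pool.Agent.H72.Grig

namespace Pool.Agent.H70.Ko
open Pool.Agent.H72.GrigDefs Pool.Agent.H72.Grig

lemma act_len (w : List Bool) : ∀ s, (act s w).length = w.length := by
  induction w with
  | nil => intro s; cases s <;> rfl
  | cons x w ih => intro s; cases s <;> cases x <;> simp [act, ih]

lemma act_app (u w : List Bool) : ∀ s, ∃ w', act s (u ++ w) = act s u ++ w' := by
  induction u with
  | nil => intro s; exact ⟨act s w, by cases s <;> rfl⟩
  | cons x u ih => intro s; cases s <;> cases x <;> simp [act, ih]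

lemma G_ind {p : P → Prop} (h1 : p 1) (hs : ∀ s g, g ∈ G → p g → p (gen s * g)) {g : P}
    (hg : g ∈ G) : p g := by
  obtain ⟨w, rfl⟩ := exists_word hg
  clear hg
  induction w with
  | nil => exact h1
  | cons s w ih => exact hs s _ (ev_mem w) ih

lemma G_len {g : P} (hg : g ∈ G) (u : List Bool) : (g u).length = u.length :=
  G_ind (p := fun g => (g u).length = u.length) rfl
    (fun s g _ h => by rw [Equiv.Perm.mul_apply, gen_apply, act_len, h]) hg

lemma G_app {g : P} (hg : g ∈ G) (u w : List Bool) : ∃ w', g (u ++ w) = g u ++ w' :=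
  G_ind (p := fun g => ∃ w', g (u ++ w) = g u ++ w') ⟨w, rfl⟩
    (fun s g _ ⟨w', h⟩ => by simp only [Equiv.Perm.mul_apply, gen_apply, h, act_app]) hg

lemma G_pre {g : P} (hg : g ∈ G) {u y v : List Bool} (h : u <+: y) (hv : v.length = u.length) :
    v <+: g y ↔ g u = v := by
  obtain ⟨w, rfl⟩ := h
  obtain ⟨w', h⟩ := G_app hg u w
  rw [h]
  refine ⟨fun ⟨z, hz⟩ => (List.append_inj hz (by rw [hv, G_len hg])).1.symm, ?_⟩
  rintro rfl; exact ⟨w', rfl⟩

lemma self_sim {g : P} (hg : g ∈ G) : ∃ x ∈ G, ∃ y ∈ G, g = sec x y ∨ g = A * sec x y := by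
  refine G_ind (p := fun g => ∃ x ∈ G, ∃ y ∈ G, g = sec x y ∨ g = A * sec x y)
    ⟨1, one_mem _, 1, one_mem _, Or.inl sec_one.symm⟩ ?_ hg
  rintro s g - ⟨x, hx, y, hy, h⟩
  have key : ∀ p q, p ∈ G → q ∈ G → ∃ x ∈ G, ∃ y ∈ G, sec p q * g = sec x y ∨
      sec p q * g = A * sec x y := by
    intro p q hp hq
    rcases h with rfl | rfl
    · exact ⟨_, mul_mem hp hx, _, mul_mem hq hy, Or.inl (sec_mul _ _ _ _)⟩
    · refine ⟨_, mul_mem hq hx, _, mul_mem hp hy, Or.inr ?_⟩
      rw [← sec_mul, ← a_sec p q]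
      simp only [A, mul_assoc, gen_sq']
  cases s
  · rcases h with rfl | rfl
    · exact ⟨x, hx, y, hy, Or.inr rfl⟩
    · exact ⟨x, hx, y, hy, Or.inl (AA _)⟩
  · rw [b_eq]; exact key _ _ (gen_mem _) (gen_mem _)
  · rw [c_eq]; exact key _ _ (gen_mem _) (gen_mem _)
  · rw [d_eq]; exact key _ _ (one_mem _) (gen_mem _)

def B : P := gen Gen.b
def tt : P := A * B * (A * B)

/-- the branching subgroup -/
def K : Subgroup P := Subgroup.closure {k | ∃ g ∈ G, k = g * tt * g⁻¹}

lemma tt_mem : tt ∈ G :=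
  mul_mem (mul_mem (gen_mem _) (gen_mem _)) (mul_mem (gen_mem _) (gen_mem _))
lemma K_le : K ≤ G := (Subgroup.closure_le _).mpr (by
  rintro _ ⟨g, hg, rfl⟩; exact mul_mem (mul_mem hg tt_mem) (inv_mem hg))
lemma K_gen {g : P} (hg : g ∈ G) : g * tt * g⁻¹ ∈ K := Subgroup.subset_closure ⟨g, hg, rfl⟩
lemma K_conj {g k : P} (hg : g ∈ G) (hk : k ∈ K) : g * k * g⁻¹ ∈ K := by
  induction hk using Subgroup.closure_induction with
  | mem x h => obtain ⟨h, hh, rfl⟩ := h; simpa [mul_assoc] using K_gen (mul_mem hg hh)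
  | one => simp
  | mul x y _ _ h1 h2 => simpa [mul_assoc] using mul_mem h1 h2
  | inv x _ h => simpa [mul_assoc] using inv_mem h

lemma BB (x : P) : B * (B * x) = x := gen_sq' _ x
lemma klein (w : List Bool) : act Gen.b (act Gen.d w) = act Gen.c w ∧
    act Gen.c (act Gen.b w) = act Gen.d w ∧ act Gen.d (act Gen.c w) = act Gen.b w := by
  induction w with
  | nil => simp [act]
  | cons x w ih => cases x <;> simp [act, ih, act_act]
lemma BD : B * D = gen Gen.c := by ext1 w; exact (klein w).1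
lemma inv_gen (s : Gen) : (gen s)⁻¹ = gen s := inv_eq_of_mul_eq_one_left (gen_sq s)
lemma iA : A⁻¹ = A := inv_gen _
lemma iB : B⁻¹ = B := inv_gen _
lemma iD : D⁻¹ = D := inv_gen _
lemma DB (x : P) : D * (B * x) = B * (D * x) := by
  have := congrArg (·⁻¹) BD
  simp only [mul_inv_rev, iB, iD, inv_gen] at this
  rw [← mul_assoc, this, ← BD, mul_assoc]

lemma comm_B {g : P} (hg : g ∈ G) : g * B * g⁻¹ * B ∈ K := by
  refine G_ind (p := fun g => g * B * g⁻¹ * B ∈ K) (by simpa using BB 1 ▸ one_mem K) ?_ hg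
  intro s g _ h
  have h1 := K_conj (gen_mem s) h
  have h2 : gen s * B * (gen s)⁻¹ * B ∈ K := by
    rw [inv_gen]
    cases s
    · simpa [tt, A, mul_assoc] using K_gen (one_mem G)
    · have := BB 1
      rw [mul_one] at this
      change B * B * B * B ∈ K
      rw [this, one_mul, this]; exact one_mem _
    · rw [← BD]; simp only [mul_assoc, DB, BB, DD]; rw [show B * B = 1 from gen_sq _]; exact one_mem K
    · change D * B * D * B ∈ K
      have := BB 1
      rw [mul_one] at this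
      simp only [mul_assoc, DB, DD, this]; exact one_mem _
  simpa [mul_assoc, BB] using mul_mem h1 h2

lemma sec_tt : sec 1 tt ∈ K := by
  have e : sec 1 tt = (A * gen Gen.c * A * D) * (A * gen Gen.c * A * D) := by
    rw [c_eq, A, a_sec, D, d_eq, sec_mul, sec_mul, ← d_eq, mul_one, gen_sq]; rfl
  have h2 := K_conj (g := A * B) (mul_mem (gen_mem _) (gen_mem _)) (comm_B (g := D * A * D * A)
    (mul_mem (mul_mem (mul_mem (gen_mem _) (gen_mem _)) (gen_mem _)) (gen_mem _)))
  have h3 : A * (D * (A * (D * A))) = D * (A * D) := by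
    rw [adad, AA]
  rw [e, ← BD]
  simpa only [mul_inv_rev, iA, iB, iD, mul_assoc, BB, h3] using h2

lemma sec_inv (x y : P) : (sec x y)⁻¹ = sec x⁻¹ y⁻¹ := rfl

lemma sec_K {k : P} (hk : k ∈ K) : sec 1 k ∈ K ∧ sec k 1 ∈ K := by
  have : sec 1 k ∈ K := by
    induction hk using Subgroup.closure_induction with
    | mem x h =>
      obtain ⟨g, hg, rfl⟩ := h
      obtain ⟨x, -, hx, -⟩ := exists_lift g hg
      simpa [sec_inv, sec_mul] using K_conj hx sec_tt
    | one => rw [sec_one]; exact one_mem _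
    | mul x y _ _ h1 h2 => simpa [sec_mul] using mul_mem h1 h2
    | inv x _ h => simpa [sec_inv] using inv_mem h
  exact ⟨this, by simpa [inv_gen, a_sec] using K_conj (gen_mem Gen.a) this⟩

/-- `k` acting below the vertex `v` -/
def at' : List Bool → P → P
  | [], k => k
  | false :: v, k => sec (at' v k) 1
  | true :: v, k => sec 1 (at' v k)

lemma at_K {k : P} (hk : k ∈ K) (v : List Bool) : at' v k ∈ K := by
  induction v with
  | nil => exact hk
  | cons x v ih => cases x; exacts [(sec_K ih).2, (sec_K ih).1]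
lemma at_mul (v : List Bool) (k l : P) : at' v (k * l) = at' v k * at' v l := by
  induction v with
  | nil => rfl
  | cons x v ih => cases x <;> simp [at', sec_mul, ih]
lemma at_one (v : List Bool) : at' v 1 = 1 := by
  induction v with
  | nil => rfl
  | cons x v ih => cases x <;> simp [at', sec_one, ih]

def Supp (v : List Bool) (g : P) : Prop := ∀ u, v.length ≤ u.length → ¬ v <+: u → g u = u

lemma at_supp (v : List Bool) (k : P) : Supp v (at' v k) := by
  induction v with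
  | nil => intro u _ h; exact absurd List.nil_prefix h
  | cons x v ih =>
    rintro (_ | ⟨y, u⟩) h1 h2
    · simp at h1
    · cases x <;> cases y <;> simp [at'] <;> exact ih u (by simpa using h1) (by simpa using h2)

lemma a_sec_mul (x y : P) : gen Gen.a * sec x y * (gen Gen.a * sec x y) = sec (y * x) (x * y) := by
  rw [← mul_assoc, a_sec, sec_mul]

lemma tt_ord : tt ^ 8 = 1 := by
  have h1 : (A * D) ^ 4 = 1 := by
    simp only [pow_succ, pow_zero, one_mul, mul_assoc]
    rw [show D * (A * (D * (A * (D * (A * D))))) = D * (A * (D * A)) * (D * (A * D)) by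
      simp only [mul_assoc], adad]
    simp only [mul_assoc, AA, DD, DD']
  have sp : ∀ x y (n : ℕ), sec x y ^ n = sec (x ^ n) (y ^ n) := fun x y n => by
    induction n with
    | zero => simp [sec_one]
    | succ n ih => rw [pow_succ, ih, sec_mul, pow_succ, pow_succ]
  have cj : ∀ (s : Gen) (n : ℕ), (A * gen s) ^ n = 1 → (gen s * A) ^ n = 1 := fun s n h => by
    have : gen s * A = A * (A * gen s) * A⁻¹ := by rw [AA, iA]
    rw [this, conj_pow, h]; simp
  have h2 : (A * gen Gen.c) ^ 8 = 1 := by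
    have : (A * gen Gen.c) ^ 2 = sec (gen Gen.d * A) (A * gen Gen.d) := by
      rw [sq, c_eq, A, a_sec_mul]
    rw [show 8 = 2 * 4 from rfl, pow_mul, this, sp, cj _ _ h1, show A * gen Gen.d = A * D from rfl,
      h1, sec_one]
  have : tt = sec (gen Gen.c * A) (A * gen Gen.c) := by rw [tt, B, b_eq, A, a_sec_mul]
  rw [this, sp, cj _ _ h2, h2, sec_one]

def Kn (n : ℕ) : Subgroup P :=
  Subgroup.closure {g | ∃ v : List Bool, v.length = n ∧ ∃ h ∈ G, g = at' v (h * tt * h⁻¹)}

lemma Kn_le (n : ℕ) : Kn n ≤ G := (Subgroup.closure_le _).mpr (by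
  rintro _ ⟨v, -, h, hh, rfl⟩; exact K_le (at_K (K_gen hh) v))

lemma Kn_sec {n : ℕ} {x y : P} (hx : x ∈ Kn n) (hy : y ∈ Kn n) : sec x y ∈ Kn (n + 1) := by
  have : ∀ x ∈ Kn n, sec x 1 ∈ Kn (n + 1) ∧ sec 1 x ∈ Kn (n + 1) := by
    intro x hx
    induction hx using Subgroup.closure_induction with
    | mem x h =>
      obtain ⟨v, hv, h, hh, rfl⟩ := h
      exact ⟨Subgroup.subset_closure ⟨false :: v, by simp [hv], h, hh, rfl⟩,
        Subgroup.subset_closure ⟨true :: v, by simp [hv], h, hh, rfl⟩⟩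
    | one => rw [sec_one]; exact ⟨one_mem _, one_mem _⟩
    | mul x y _ _ h1 h2 =>
      exact ⟨by simpa [sec_mul] using mul_mem h1.1 h2.1, by simpa [sec_mul] using mul_mem h1.2 h2.2⟩
    | inv x _ h => exact ⟨by simpa [sec_inv] using inv_mem h.1, by simpa [sec_inv] using inv_mem h.2⟩
  simpa [sec_mul] using mul_mem (this x hx).1 (this y hy).2

theorem fin_idx (n : ℕ) : ∃ T : Set P, T.Finite ∧ ∀ g ∈ G, ∃ t ∈ T, ∃ k ∈ Kn n, g = t * k := by
  induction n with
  | zero =>
    have e : Kn 0 = K := by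
      unfold Kn K; congr 1; ext g
      simp [at']
    refine ⟨{x | x ∈ D8} ∪ (B * ·) '' {x | x ∈ D8}, (D8.finite_toSet).union
      (D8.finite_toSet.image _), fun g hg => ?_⟩
    rw [e]
    have DG : ∀ x ∈ D8, x ∈ G := by
      have h1 : A ∈ G := gen_mem _
      have h2 : D ∈ G := gen_mem _
      simp [D8, mul_mem, h1, h2, mul_mem h1 (mul_mem h2 (mul_mem h1 h2))]
    have hB : ∀ g, (∃ t ∈ {x | x ∈ D8} ∪ (B * ·) '' {x | x ∈ D8}, ∃ k ∈ K, g = t * k) →
        ∃ t ∈ {x | x ∈ D8} ∪ (B * ·) '' {x | x ∈ D8}, ∃ k ∈ K, B * g = t * k := by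
      rintro _ ⟨t, ht | ⟨t, ht, rfl⟩, k, hk, rfl⟩
      · exact ⟨_, Or.inr ⟨t, ht, rfl⟩, k, hk, (mul_assoc _ _ _).symm⟩
      · exact ⟨t, Or.inl ht, k, hk, by simp only [mul_assoc, BB]⟩
    have hD : ∀ g, (∃ t ∈ {x | x ∈ D8} ∪ (B * ·) '' {x | x ∈ D8}, ∃ k ∈ K, g = t * k) →
        ∃ t ∈ {x | x ∈ D8} ∪ (B * ·) '' {x | x ∈ D8}, ∃ k ∈ K, D * g = t * k := by
      rintro _ ⟨t, ht | ⟨t, ht, rfl⟩, k, hk, rfl⟩
      · exact ⟨_, Or.inl (D_D8 ht), k, hk, (mul_assoc _ _ _).symm⟩
      · exact ⟨_, Or.inr ⟨_, D_D8 ht, rfl⟩, k, hk, by simp only [mul_assoc, DB]⟩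
    refine G_ind (p := fun g => ∃ t ∈ {x | x ∈ D8} ∪ (B * ·) '' {x | x ∈ D8}, ∃ k ∈ K, g = t * k)
      ⟨1, Or.inl (by simp [D8]), 1, one_mem _, by simp⟩ (fun s g _ h => ?_) hg
    cases s
    · obtain ⟨t, ht | ⟨t, ht, rfl⟩, k, hk, rfl⟩ := h
      · exact ⟨_, Or.inl (A_D8 ht), k, hk, (mul_assoc _ _ _).symm⟩
      · refine ⟨_, Or.inr ⟨_, A_D8 ht, rfl⟩, _, mul_mem (K_gen (inv_mem (DG t ht))) hk, ?_⟩
        change A * _ = _
        simp only [tt, mul_assoc, mul_inv_cancel_left, inv_inv, AA, BB]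
    · exact hB g h
    · rw [← BD, mul_assoc]; exact hB _ (hD g h)
    · exact hD g h
  | succ n ih =>
    obtain ⟨T, hT, h⟩ := ih
    refine ⟨Set.image2 sec T T ∪ (A * ·) '' Set.image2 sec T T, (hT.image2 _ hT).union
      ((hT.image2 _ hT).image _), fun g hg => ?_⟩
    obtain ⟨x, hx, y, hy, e⟩ := self_sim hg
    obtain ⟨t, ht, k, hk, rfl⟩ := h x hx
    obtain ⟨t', ht', k', hk', rfl⟩ := h y hy
    rcases e with rfl | rfl
    · exact ⟨_, Or.inl ⟨t, ht, t', ht', rfl⟩, _, Kn_sec hk hk', (sec_mul _ _ _ _).symm⟩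
    · exact ⟨_, Or.inr ⟨_, ⟨t, ht, t', ht', rfl⟩, rfl⟩, _, Kn_sec hk hk', by
        rw [mul_assoc, sec_mul]⟩

lemma flip (n : ℕ) : ∃ s, s ≠ Gen.a ∧ ∃ s', s' ≠ Gen.a ∧ s ≠ s' ∧ ∀ z w,
    act s (List.replicate n true ++ false :: z :: w) = List.replicate n true ++ false :: (!z) :: w ∧
    act s' (List.replicate n true ++ false :: z :: w) =
      List.replicate n true ++ false :: (!z) :: w := by
  induction n with
  | zero => exact ⟨Gen.b, by simp, Gen.c, by simp, by simp, fun z w => by simp [act]⟩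
  | succ n ih =>
    obtain ⟨s, h1, s', h2, h3, h⟩ := ih
    let pv : Gen → Gen := fun | Gen.a => Gen.a | Gen.b => Gen.d | Gen.c => Gen.b | Gen.d => Gen.c
    have hp : ∀ s, s ≠ Gen.a → ∀ w, act (pv s) (true :: w) = true :: act s w := by
      intro s hs w; cases s <;> simp_all [pv, act]
    refine ⟨pv s, by cases s <;> simp_all [pv], pv s', by cases s' <;> simp_all [pv],
      by cases s <;> cases s' <;> simp_all [pv], fun z w => ?_⟩
    simp [List.replicate_succ, hp s h1, hp s' h2, h]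

theorem moves (N : ℕ) : ∀ y y' : List Bool, y.length = N → y'.length = N →
    ∃ h ∈ G, ∀ w, h (y ++ w) = y' ++ w := by
  induction N with
  | zero =>
    intro y y' h h'
    rw [List.length_eq_zero_iff] at h h'
    subst h h'
    exact ⟨1, one_mem _, fun w => rfl⟩
  | succ N ih =>
    intro y y' h h'
    obtain ⟨y, z, rfl⟩ := (List.eq_nil_or_concat' y).resolve_left (by rintro rfl; simp at h)
    obtain ⟨y', z', rfl⟩ := (List.eq_nil_or_concat' y').resolve_left (by rintro rfl; simp at h')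
    simp only [List.length_append, List.length_singleton, add_left_inj] at h h'
    by_cases e : z = z'
    · obtain ⟨g, hg, hg'⟩ := ih y y' h h'
      exact ⟨g, hg, fun w => by simp [hg', e]⟩
    obtain rfl : z' = !z := by cases z <;> cases z' <;> simp_all
    obtain ⟨u, hu, s, hs⟩ : ∃ u : List Bool, u.length = N ∧ ∃ s, ∀ w,
        act s (u ++ z :: w) = u ++ (!z) :: w := by
      cases N with
      | zero => exact ⟨[], rfl, Gen.a, fun w => rfl⟩
      | succ N =>
        obtain ⟨s, -, _, -, -, hf⟩ := flip N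
        exact ⟨List.replicate N true ++ [false], by simp, s, fun w => by simpa using (hf z w).1⟩
    obtain ⟨g, hg, hg'⟩ := ih y u h hu
    obtain ⟨f, hf, hf'⟩ := ih u y' hu h'
    exact ⟨f * (gen s * g), mul_mem hf (mul_mem (gen_mem s) hg), fun w => by
      simp [hg', gen_apply, hs, hf']⟩

lemma good_gen (y : List Bool) (h1 : y ≠ List.replicate y.length true)
    (h2 : y ≠ List.replicate (y.length - 1) true ++ [false]) :
    ∀ s w, act s (y ++ w) = act s y ++ w := by
  induction y with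
  | nil => simp at h1
  | cons x y ih =>
    cases x
    · rcases y with _ | ⟨z, y⟩
      · simp at h2
      · intro s w; cases s <;> simp [act]
    · have := ih (by simpa [List.replicate_succ] using h1) (by
        rcases y with _ | ⟨z, y⟩
        · simp
        · simpa [List.replicate_succ] using h2)
      intro s w; cases s <;> simp [act, this]

theorem bad {g : P} (hg : g ∈ G) : ∃ C : ℕ, ∀ N, ∃ S : Finset (List Bool), S.card ≤ C ∧
    ∀ y, y.length = N → y ∉ S → ∀ w, g (y ++ w) = g y ++ w := by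
  refine G_ind (p := fun g => ∃ C : ℕ, ∀ N, ∃ S : Finset (List Bool), S.card ≤ C ∧
    ∀ y, y.length = N → y ∉ S → ∀ w, g (y ++ w) = g y ++ w)
    ⟨0, fun N => ⟨∅, le_rfl, fun _ _ _ _ => rfl⟩⟩ ?_ hg
  rintro s g hg ⟨C, h⟩
  refine ⟨C + 2, fun N => ?_⟩
  obtain ⟨S, h1, h2⟩ := h N
  refine ⟨S ∪ {g⁻¹ (List.replicate N true), g⁻¹ (List.replicate (N - 1) true ++ [false])},
    (Finset.card_union_le _ _).trans (add_le_add h1 Finset.card_le_two), fun y hy hS w => ?_⟩
  simp only [Finset.mem_union, Finset.mem_insert, Finset.mem_singleton, not_or,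
    Equiv.Perm.eq_inv_iff_eq] at hS
  simp only [Equiv.Perm.mul_apply, gen_apply, h2 y hy hS.1]
  exact good_gen _ (by rw [G_len hg, hy]; exact hS.2.1) (by rw [G_len hg, hy]; exact hS.2.2) s w

end Pool.Agent.H70.Ko
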