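import Pool.Agent.H70.Ko1

namespace Pool.Agent.H70.Ko
open Pool.Agent.H72.GrigDefs Pool.Agent.H72.Grig Finset Filter Topology

variable {R : Type} [CStarAlgebra R]

lemma equi {F : Type} [NormedAddCommGroup F] [NormedSpace ℂ F] (L : ℕ → R →ₗ[ℂ] F) (C : ℝ)
    (hC : ∀ n x, ‖L n x‖ ≤ C * ‖x‖) (S : Set R) (hS : Dense (Submodule.span ℂ S : Set R))
    (h : ∀ x ∈ S, Tendsto (fun n => L n x) atTop (𝓝 0)) (x : R) :
    Tendsto (fun n => L n x) atTop (𝓝 0) := by
  have h1 : ∀ η ∈ Submodule.span ℂ S, Tendsto (fun n => L n η) atTop (𝓝 0) := by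
    intro η hη
    induction hη using Submodule.span_induction with
    | mem x hx => exact h x hx
    | zero => simp
    | add x y _ _ hx hy => simpa only [map_add, add_zero] using hx.add hy
    | smul a x _ hx => simpa only [map_smul, smul_zero] using hx.const_smul a
  rw [Metric.tendsto_atTop]
  intro ε hε
  have C1 : 0 < |C| + 1 := by positivity
  obtain ⟨η, hη, h⟩ := Metric.mem_closure_iff.mp (hS x) (ε / 2 / (|C| + 1)) (by positivity)
  obtain ⟨N, hN⟩ := Metric.tendsto_atTop.mp (h1 η hη) (ε / 2) (half_pos hε)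
  refine ⟨N, fun n hn => ?_⟩
  have := hN n hn
  rw [dist_zero_right] at this ⊢
  rw [dist_eq_norm, lt_div_iff₀ C1] at h
  have e := hC n (x - η)
  rw [map_sub] at e
  nlinarith [norm_sub_norm_le (L n x) (L n η), le_abs_self C, norm_nonneg (x - η)]

lemma proj_mem (I : Ideal R) [I.IsTwoSided] {e x : R} (h1 : star e = e) (h2 : e * e = e)
    (hx : x ∈ I) (h : ‖e - x‖ < 1) : e ∈ I := by
  have ne : ‖e‖ ≤ 1 := IsStarProjection.norm_le e ⟨h2, h1⟩
  have ht : ‖e * (e - x) * e‖ < 1 := by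
    calc _ ≤ ‖e‖ * ‖e - x‖ * ‖e‖ := (norm_mul_le _ _).trans (by gcongr; exact norm_mul_le _ _)
      _ ≤ 1 * ‖e - x‖ * 1 := by gcongr
      _ < 1 := by linarith
  have : (Units.oneSub _ ht : R) * e = e * x * e := by
    simp [sub_mul, mul_sub, mul_assoc, h2]
  rw [← (Units.oneSub _ ht).inv_mul_cancel_left e, this]
  exact I.mul_mem_left _ (I.mul_mem_right _ (I.mul_mem_left _ hx))

structure Rel (r : G →* R) : Prop where
  st : ∀ g, star (r g) = r g⁻¹
  dense : Dense (Submodule.span ℂ (Set.range r) : Set R)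
  r1 : ∀ v (k k' h : G), Supp v k → Supp v k' → h.1 v ≠ v → (1 - r k) * r h * (1 - r k') = 0
  r2 : ∀ v (k h : G), Supp v k → (∀ w, h.1 (v ++ w) = v ++ w) → r h * (1 - r k) = 1 - r k

variable {r : G →* R} (hr : Rel r) (I : Ideal R) [I.IsTwoSided]
include hr

lemma exE {v : List Bool} {k : G} (h1 : IsOfFinOrder k) (h2 : Supp v k) (h3 : 1 - r k ∉ I) :
    ∃ e, star e = e ∧ e * e = e ∧ e ∉ I ∧ (∀ h : G, h.1 v ≠ v → e * r h * e = 0) ∧
      ∀ h : G, (∀ w, h.1 (v ++ w) = v ++ w) → r h * e = e := by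
  let Z := Subgroup.zpowers k
  haveI : Finite Z := h1.finite_zpowers
  haveI := Fintype.ofFinite Z
  have hZ : ∀ z : Z, Supp v z.1 := by
    rintro ⟨_, n, rfl⟩ u a b
    exact Equiv.Perm.zpow_apply_eq_self_of_apply_eq_self (h2 u a b) n
  set c : ℂ := (Fintype.card Z : ℂ)⁻¹ with hc
  set q := c • ∑ z : Z, r z with hq
  have c1 : c • ∑ _z : Z, (1 : R) = 1 := by
    rw [sum_const, card_univ, ← Nat.cast_smul_eq_nsmul ℂ, smul_smul, hc,
      inv_mul_cancel₀ (by simp), one_smul]
  have e1 : 1 - q = c • ∑ z : Z, (1 - r z) := by rw [sum_sub_distrib, smul_sub, c1]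
  have q1 : ∀ z : Z, r z * q = q := fun z => by
    rw [hq, mul_smul_comm, mul_sum, ← Equiv.sum_comp (Equiv.mulLeft z) fun x : Z => r x]; simp
  have q2 : q * q = q := by
    nth_rw 1 [hq]
    rw [smul_mul_assoc, sum_mul]
    simp only [q1]
    simpa [sum_mul] using congrArg (· * q) c1
  refine ⟨1 - q, ?_, by simp [sub_mul, mul_sub, q2], fun h => h3 ?_, fun h hh => ?_,
    fun h hh => ?_⟩
  · rw [star_sub, star_one, hq, star_smul, star_sum, ← Equiv.sum_comp (Equiv.inv Z)]
    simp [hr.st, hc]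
  · have := I.mul_mem_left (1 - r k) h
    rwa [mul_sub, mul_one, sub_mul, q1 ⟨k, Subgroup.mem_zpowers k⟩, one_mul, sub_self,
      sub_zero] at this
  · simp only [e1, smul_mul_assoc, mul_smul_comm, sum_mul, mul_sum, hr.r1 v _ _ h (hZ _) (hZ _) hh]
    simp
  · simp only [e1, mul_smul_comm, mul_sum, hr.r2 v _ h (hZ _) hh]

theorem vanish (hI : ∀ n, ∃ v : List Bool, v.length = n ∧ ∃ k : G, IsOfFinOrder k ∧ Supp v k ∧
      1 - r k ∉ I) {v w : List Bool} (hv : v.length = w.length) (Ψ : R →L[ℂ] ℂ) (ρ : ℂ)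
    (hΨ : ∀ g : G, Ψ (r g) = if g.1 w = v then ρ else 0) {i : R} (hi : i ∈ I) : Ψ i = 0 := by
  classical
  choose v0 hv0 k k1 k2 k3 using fun j => hI (w.length + 2 * j)
  choose e e1 e2 e3 e4 e5 using fun j => exE hr I (k1 j) (k2 j) (k3 j)
  have ne : ∀ j, ‖e j‖ ≤ 1 := fun j => IsStarProjection.norm_le _ ⟨e2 j, e1 j⟩
  choose! h hG hh using fun j y => moves _ (v0 j) y (hv0 j)
  have ex : ∀ j, ∃ s : List Bool → R,
      (∀ y y', y.length = w.length + 2 * j → y'.length = w.length + 2 * j →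
        star (s y) * s y' = if y = y' then e j else 0) ∧
      ∀ (g : G) y, y.length = w.length + 2 * j → (∀ z, g.1 (y ++ z) = g.1 y ++ z) →
        r g * s y = s (g.1 y) := by
    intro j
    refine ⟨fun y => if a : y.length = w.length + 2 * j then r ⟨h j y, hG j y a⟩ * e j else 0,
      fun y y' a b => ?_, fun g y a b => ?_⟩
    · simp only [dif_pos a, dif_pos b, star_mul, e1, hr.st]
      rw [mul_assoc, ← mul_assoc (r _), ← map_mul, ← mul_assoc]
      split_ifs with c
      · subst c; simp [e2]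
      · refine e4 j _ fun d => c ?_
        have d1 := hh j y a []
        have d2 := hh j y' b []
        simp only [List.append_nil] at d1 d2
        simpa [Equiv.eq_symm_apply, d1, d2, eq_comm] using d
    · have c : (g.1 y).length = w.length + 2 * j := by rw [G_len g.2, a]
      simp only [dif_pos a, dif_pos c]
      have := e5 j ((⟨h j _, hG j _ c⟩ : G)⁻¹ * g * ⟨h j y, hG j y a⟩) fun z => by
        simp [hh j y a, b, Equiv.symm_apply_eq, hh j _ c]
      nth_rw 2 [← this]
      simp only [← mul_assoc, ← map_mul, mul_inv_cancel, one_mul]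
  choose s s1 s2 using ex
  let b : ℕ → List Bool → R := fun j x => ∑ u : List.Vector Bool (2 * j), s j (x ++ u.1)
  have ln : ∀ {j} (u : List.Vector Bool (2 * j)) {x : List Bool}, x.length = w.length →
      (x ++ u.1).length = w.length + 2 * j := fun u x hx => by rw [List.length_append, hx, u.2]
  have b1 : ∀ j x y, x.length = w.length → y.length = w.length + 2 * j →
      star (b j x) * s j y = if x <+: y then e j else 0 := by
    intro j x y hx hy
    simp only [b, star_sum, sum_mul, fun u => s1 j _ y (ln u hx) hy]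
    split_ifs with c
    · obtain ⟨u, rfl⟩ := c
      rw [sum_eq_single ⟨u, by simpa [hx] using hy⟩]
      · simp
      · intro u' _ hu; rw [if_neg fun d => hu (Subtype.ext (List.append_cancel_left d))]
      · simp
    · exact sum_eq_zero fun u _ => if_neg fun d => c ⟨_, d⟩
  have cd : ∀ j, Fintype.card (List.Vector Bool (2 * j)) = 2 ^ j * 2 ^ j := fun j => by
    rw [card_vector, two_mul, pow_add]; rfl
  have b2 : ∀ j x, x.length = w.length → ‖b j x‖ ≤ 2 ^ j := by
    intro j x hx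
    have : star (b j x) * b j x = ∑ _u : List.Vector Bool (2 * j), e j := by
      change _ * ∑ u : List.Vector Bool (2 * j), s j (x ++ u.1) = _
      rw [mul_sum]
      exact sum_congr rfl fun u _ => by rw [b1 j x _ hx (ln u hx), if_pos ⟨_, rfl⟩]
    have h1 := norm_sum_le_of_le (univ : Finset (List.Vector Bool (2 * j))) fun _ _ => ne j
    rw [← this, CStarRing.norm_star_mul_self, sum_const, card_univ, cd] at h1
    exact (mul_self_le_mul_self_iff (norm_nonneg _) (by positivity)).mpr (by simpa using h1)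
  let L : ℕ → R →ₗ[ℂ] R := fun j =>
    { toFun := fun a => (ρ / (2 ^ j * 2 ^ j)) • (star (b j v) * a * b j w) - Ψ a • e j
      map_add' := fun x y => by simp only [mul_add, add_mul, map_add]; module
      map_smul' := fun c x => by
        simp only [mul_smul_comm, smul_mul_assoc, map_smul, RingHom.id_apply, smul_eq_mul]; module }
  have hL : ∀ j a, L j a = (ρ / (2 ^ j * 2 ^ j)) • (star (b j v) * a * b j w) - Ψ a • e j :=
    fun _ _ => rfl
  have nc : ∀ j : ℕ, ‖ρ / (2 ^ j * 2 ^ j)‖ = ‖ρ‖ / (2 ^ j * 2 ^ j) := fun j => by simp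
  have lim := equi L (‖ρ‖ + ‖Ψ‖) (fun j a => by
    rw [hL, add_mul]
    refine (norm_sub_le _ _).trans (add_le_add ?_ ?_)
    · rw [norm_smul, nc]
      calc _ ≤ ‖ρ‖ / (2 ^ j * 2 ^ j) * (‖star (b j v)‖ * ‖a‖ * ‖b j w‖) := by
            gcongr; exact (norm_mul_le _ _).trans (by gcongr; exact norm_mul_le _ _)
        _ ≤ ‖ρ‖ / (2 ^ j * 2 ^ j) * (2 ^ j * ‖a‖ * 2 ^ j) := by
            rw [norm_star]; gcongr; exacts [b2 j v hv, b2 j w rfl]
        _ = _ := by field_simp
    · rw [norm_smul]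
      exact (mul_le_of_le_one_right (norm_nonneg _) (ne j)).trans (Ψ.le_opNorm a)) _ hr.dense (by
    rintro _ ⟨g, rfl⟩
    obtain ⟨C, hC⟩ := bad g.2
    refine squeeze_zero_norm (a := fun j => ‖ρ‖ * C * 2 * (1 / 2) ^ j) (fun j => ?_) (by
      simpa only [mul_zero] using (tendsto_pow_atTop_nhds_zero_of_lt_one (r := 1 / 2) (by norm_num)
        (by norm_num)).const_mul (‖ρ‖ * C * 2))
    obtain ⟨S, h1, h2⟩ := hC (w.length + 2 * j)
    have : L j (r g) = (ρ / (2 ^ j * 2 ^ j)) • ∑ u : List.Vector Bool (2 * j),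
        (star (b j v) * (r g * s j (w ++ u.1)) - if g.1 w = v then e j else 0) := by
      rw [hL, sum_sub_distrib, smul_sub, ← mul_sum, ← mul_sum, mul_assoc, sum_const, card_univ, cd,
        ← Nat.cast_smul_eq_nsmul ℂ, smul_smul, hΨ]
      congr 1
      split_ifs <;> simp
    rw [this, norm_smul, nc, ← sum_filter_of_ne (p := fun u => w ++ u.1 ∈ S)]
    · have n1 : ‖r g‖ ≤ 1 := by
        have := CStarRing.norm_star_mul_self (x := r g)
        rw [hr.st, ← map_mul, inv_mul_cancel, map_one] at this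
        have h1 : ‖(1 : R)‖ ≤ 1 := IsStarProjection.norm_le _ (.one R)
        nlinarith [norm_nonneg (r g)]
      have n2 : ∀ u : List.Vector Bool (2 * j), ‖s j (w ++ u.1)‖ ≤ 1 := fun u => by
        have := CStarRing.norm_star_mul_self (x := s j (w ++ u.1))
        rw [s1 j _ _ (ln u rfl) (ln u rfl), if_pos rfl] at this
        nlinarith [norm_nonneg (s j (w ++ u.1)), ne j]
      have n3 := norm_sum_le_of_le (univ.filter fun u : List.Vector Bool (2 * j) => w ++ u.1 ∈ S)
        (f := fun u => star (b j v) * (r g * s j (w ++ u.1)) - if g.1 w = v then e j else 0)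
        (n := fun _ => 2 * 2 ^ j) fun u _ => by
          have m1 : ‖r g * s j (w ++ u.1)‖ ≤ 1 :=
            (norm_mul_le _ _).trans (mul_le_one₀ n1 (norm_nonneg _) (n2 u))
          have m2 : ‖star (b j v) * (r g * s j (w ++ u.1))‖ ≤ 2 ^ j := (norm_mul_le _ _).trans
            ((mul_le_of_le_one_right (norm_nonneg _) m1).trans (by rw [norm_star]; exact b2 j v hv))
          have m3 : ‖if g.1 w = v then e j else 0‖ ≤ 2 ^ j := by
            refine le_trans ?_ (one_le_pow₀ one_le_two)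
            split_ifs; exacts [ne j, by simp]
          exact (norm_sub_le _ _).trans (by linarith)
      have n4 : (univ.filter fun u : List.Vector Bool (2 * j) => w ++ u.1 ∈ S).card ≤ C :=
        (card_le_card_of_injOn (fun u : List.Vector Bool (2 * j) => w ++ u.1)
          (fun u hu => (mem_filter.mp hu).2)
          fun u _ u' _ d => Subtype.ext (List.append_cancel_left d)).trans h1
      rw [sum_const, nsmul_eq_mul] at n3
      calc _ ≤ ‖ρ‖ / (2 ^ j * 2 ^ j) * (C * (2 * 2 ^ j)) := by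
            gcongr; exact n3.trans (by gcongr)
        _ = _ := by rw [one_div, inv_pow]; field_simp
    · intro u _ hu
      by_contra d
      apply hu
      rw [s2 j g _ (ln u rfl) (h2 _ (ln u rfl) d), b1 j v _ hv (by rw [G_len g.2, ln u rfl])]
      simp only [G_pre g.2 ⟨u.1, rfl⟩ hv, sub_self]) i
  by_contra h0
  obtain ⟨j, hj⟩ := (lim.norm.eventually (gt_mem_nhds (by simpa using h0 : ‖(0 : R)‖ < ‖Ψ i‖))).exists
  refine e3 j (proj_mem I (e1 j) (e2 j) (x := (Ψ i)⁻¹ • (ρ / (2 ^ j * 2 ^ j)) •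
    (star (b j v) * i * b j w)) (I.smul_of_tower_mem _ (I.smul_of_tower_mem _
      (I.mul_mem_right _ (I.mul_mem_left _ hi)))) ?_)
  have : e j - (Ψ i)⁻¹ • (ρ / (2 ^ j * 2 ^ j)) • (star (b j v) * i * b j w) =
      -((Ψ i)⁻¹ • L j i) := by
    rw [hL, smul_sub, smul_smul (Ψ i)⁻¹ (Ψ i), inv_mul_cancel₀ h0, one_smul, neg_sub]
  rw [this, norm_neg, norm_smul, norm_inv, inv_mul_lt_iff₀ (norm_pos_iff.mpr h0), mul_one]
  exact hj

theorem dich (hc : IsClosed (I : Set R)) : FiniteDimensional ℂ (R ⧸ I) ∨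
    ∀ n, ∃ v : List Bool, v.length = n ∧ ∃ k : G, IsOfFinOrder k ∧ Supp v k ∧ 1 - r k ∉ I := by
  rw [or_iff_not_imp_right]
  intro h
  push Not at h
  obtain ⟨n, h⟩ := h
  have h1 : ∀ k (hk : k ∈ Kn n), 1 - r ⟨k, Kn_le n hk⟩ ∈ I := by
    intro k hk
    induction hk using Subgroup.closure_induction with
    | mem x hx =>
      obtain ⟨v, hv, g, hg, rfl⟩ := hx
      refine h v hv _ (isOfFinOrder_iff_pow_eq_one.mpr ⟨8, by norm_num, Subtype.ext ?_⟩)
        (at_supp v _)
      have : ∀ m : ℕ, at' v (g * tt * g⁻¹) ^ m = at' v ((g * tt * g⁻¹) ^ m) := fun m => by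
        induction m with
        | zero => simp [at_one]
        | succ m ih => rw [pow_succ, ih, pow_succ, ← at_mul]
      change at' v _ ^ 8 = 1
      rw [this, conj_pow, tt_ord]; simp [at_one]
    | one => change 1 - r 1 ∈ I; simp
    | mul x y hx hy h1 h2 =>
      have := add_mem h1 (I.mul_mem_left (r ⟨x, Kn_le n hx⟩) h2)
      rwa [mul_sub, mul_one, sub_add_sub_cancel, ← map_mul] at this
    | inv x hx h1 =>
      have := neg_mem (I.mul_mem_left (r (⟨x, Kn_le n hx⟩ : G)⁻¹) h1)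
      rwa [mul_sub, mul_one, ← map_mul, inv_mul_cancel, map_one, neg_sub] at this
  obtain ⟨T, hT, h2⟩ := fin_idx n
  have hT' : (r '' (Subtype.val ⁻¹' T)).Finite :=
    (hT.preimage Subtype.val_injective.injOn).image _
  haveI := FiniteDimensional.span_of_finite ℂ hT'
  set W := Submodule.span ℂ (r '' (Subtype.val ⁻¹' T))
  have h3 := Submodule.isClosed_sup_finiteDimensional (I.restrictScalars ℂ) W hc
  have h4 : ∀ x, x ∈ I.restrictScalars ℂ ⊔ W := fun x => by
    refine closure_minimal (t := (I.restrictScalars ℂ ⊔ W : Submodule ℂ R))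
      (Submodule.span_le.mpr ?_) h3 (hr.dense x)
    rintro _ ⟨g, rfl⟩
    obtain ⟨t, ht, k, hk, e⟩ := h2 g g.2
    have : r g = -(r (g * ⟨k, Kn_le n hk⟩⁻¹) * (1 - r ⟨k, Kn_le n hk⟩)) +
        r (g * ⟨k, Kn_le n hk⟩⁻¹) := by
      rw [mul_sub, ← map_mul]; simp
    rw [this]
    exact Submodule.add_mem_sup (neg_mem (I.mul_mem_left _ (h1 k hk)))
      (Submodule.subset_span ⟨_, by simpa [e] using ht, rfl⟩)
  refine Module.Finite.of_surjective (((Submodule.mkQ I).restrictScalars ℂ).comp W.subtype)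
    fun x => ?_
  obtain ⟨x, rfl⟩ := Submodule.mkQ_surjective I x
  obtain ⟨a, ha, y, hy, rfl⟩ := Submodule.mem_sup.mp (h4 x)
  exact ⟨⟨y, hy⟩, by simpa [eq_comm] using (Submodule.Quotient.mk_eq_zero I).mpr ha⟩

end Pool.Agent.H70.Ko
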