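import Pool.Agent.H72.GrigDefs

namespace Pool.Agent.H70.Ko
open MeasureTheory Pool.Agent.H72.GrigDefs

/-- The uniform Bernoulli measure on the boundary of the binary tree. -/
noncomputable def mu : Measure (ℕ → Bool) :=
  Measure.infinitePi fun _ => (PMF.uniformOfFintype Bool).toMeasure

/-- The action of a tree automorphism `g` on the boundary: letter number `n` of `g x` is letter
number `n` of the image under `g` of the word made of the first `n + 1` letters of `x`. -/
def bd (g : Equiv.Perm (List Bool)) (x : ℕ → Bool) (n : ℕ) : Bool :=
  (g ((List.range (n + 1)).map x)).getD n false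

/-- The class `f'` in `L²(ν)` is the composition of `f` with `φ`. -/
def IsComp {X : Type} [MeasurableSpace X] (ν : Measure X) (φ : X → X) (f f' : Lp ℂ 2 ν) : Prop :=
  f' =ᵐ[ν] fun x => f (φ x)

/-- Every quotient of `A` by a nonzero closed two-sided ideal is finite-dimensional. -/
def ProperImagesFinite (A : Type) [NormedRing A] [NormedAlgebra ℂ A] : Prop :=
  ∀ I : Ideal A, I.IsTwoSided → IsClosed (I : Set A) → I ≠ ⊥ → FiniteDimensional ℂ (A ⧸ I)

/-- Given a relation `R φ` on a Hilbert space for each `φ` in `S`: each `R φ` contains the graph of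
a bounded operator, and the C*-algebra generated by all these operators (the norm closure of the
unital star-algebra they generate) has only finite-dimensional proper images. -/
def GenProperImagesFinite {H J : Type} [NormedAddCommGroup H] [InnerProductSpace ℂ H]
    [CompleteSpace H] (R : J → H → H → Prop) (S : Set J) : Prop :=
  (∀ φ ∈ S, ∃ T : H →L[ℂ] H, ∀ f, R φ f (T f)) ∧ ProperImagesFinite
    (StarAlgebra.adjoin ℂ {T : H →L[ℂ] H | ∃ φ ∈ S, ∀ f, R φ f (T f)}).topologicalClosure

end Pool.Agent.H70.Ko
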