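import Pool.Agent.H70.Ko2
import Pool.Agent.H70.KoDefs

namespace Pool.Agent.H70.Ko
open Pool.Agent.H72.GrigDefs Pool.Agent.H72.Grig Finset Filter Topology MeasureTheory
open scoped InnerProductSpace

section hilb
variable {H : Type} [NormedAddCommGroup H] [InnerProductSpace ℂ H] [CompleteSpace H]

lemma gen_span {S : Set (H →L[ℂ] H)} (h1 : 1 ∈ S) (hm : ∀ x ∈ S, ∀ y ∈ S, x * y ∈ S)
    (hs : ∀ x ∈ S, star x ∈ S) {x : H →L[ℂ] H}
    (hx : x ∈ (StarAlgebra.adjoin ℂ S).topologicalClosure) :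
    x ∈ closure (Submodule.span ℂ S : Set (H →L[ℂ] H)) := by
  refine closure_mono ?_ (show x ∈ closure (StarAlgebra.adjoin ℂ S : Set _) from hx)
  intro y hy
  induction hy using StarAlgebra.adjoin_induction with
  | mem x h => exact Submodule.subset_span h
  | algebraMap r =>
    rw [Algebra.algebraMap_eq_smul_one]
    exact Submodule.smul_mem _ _ (Submodule.subset_span h1)
  | add x y _ _ hx hy => exact add_mem hx hy
  | mul x y _ _ hx hy =>
    refine Submodule.span_induction₂ (p := fun x y _ _ => x * y ∈ Submodule.span ℂ S)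
      ?_ ?_ ?_ ?_ ?_ ?_ ?_ hx hy
    · intro x y h h'; exact Submodule.subset_span (hm x h y h')
    · intro y _; simp
    · intro y _; simp
    · intro x y z _ _ _ h1 h2; rw [add_mul]; exact add_mem h1 h2
    · intro x y z _ _ _ h1 h2; rw [mul_add]; exact add_mem h1 h2
    · intro r x y _ _ h; rw [smul_mul_assoc]; exact Submodule.smul_mem _ _ h
    · intro r x y _ _ h; rw [mul_smul_comm]; exact Submodule.smul_mem _ _ h
  | star x h0 hx =>
    clear h0
    induction hx using Submodule.span_induction with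
    | mem x h => exact Submodule.subset_span (hs x h)
    | zero => simp
    | add x y _ _ hx hy => rw [star_add]; exact add_mem hx hy
    | smul a x _ hx => rw [star_smul]; exact Submodule.smul_mem _ _ hx

theorem just_inf (ρ : G →* (H →L[ℂ] H)) (δ : List Bool → H) (st : ∀ g, star (ρ g) = ρ g⁻¹)
    (hρ : ∀ g u, ρ g (δ u) = δ (g.1 u)) (sp : ∀ u, δ u = δ (u ++ [false]) + δ (u ++ [true]))
    (hd : Dense (Submodule.span ℂ (Set.range δ) : Set H))
    (ort : ∀ v w, v.length = w.length → v ≠ w → ⟪δ v, δ w⟫_ℂ = 0)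
    (A : StarSubalgebra ℂ (H →L[ℂ] H))
    (hA : A = (StarAlgebra.adjoin ℂ (Set.range ρ)).topologicalClosure) (I : Ideal A)
    (h2 : I.IsTwoSided) (hc : IsClosed (I : Set A)) (h0 : I ≠ ⊥) : FiniteDimensional ℂ (A ⧸ I) := by
  haveI : IsClosed (A : Set (H →L[ℂ] H)) := hA ▸ StarSubalgebra.isClosed_topologicalClosure _
  have mem : ∀ g, ρ g ∈ A := fun g =>
    hA ▸ StarSubalgebra.le_topologicalClosure _ (StarAlgebra.subset_adjoin ℂ _ ⟨g, rfl⟩)
  let r : G →* A := ρ.codRestrict A mem
  have ext : ∀ (f : H →L[ℂ] H) N, (∀ u, N ≤ u.length → f (δ u) = 0) → f = 0 := by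
    intro f N h
    have : ∀ k u, N ≤ u.length + k → f (δ u) = 0 := by
      intro k
      induction k with
      | zero => exact h
      | succ k ih =>
        intro u hu
        rw [sp, map_add, ih _ (by simp; omega), ih _ (by simp; omega), add_zero]
    exact ContinuousLinearMap.ext_on hd (by rintro _ ⟨u, rfl⟩; exact this N u (by omega))
  have hr : Rel r := by
    refine ⟨fun g => Subtype.ext (st g), fun x => ?_, fun v k k' h a b c => Subtype.ext
      (ext _ v.length fun u hu => ?_), fun v k h a b => Subtype.ext (sub_eq_zero.mp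
      (ext _ v.length fun u hu => ?_))⟩
    · rw [Metric.mem_closure_iff]
      intro ε hε
      obtain ⟨y, hy, h⟩ := Metric.mem_closure_iff.mp (gen_span (S := Set.range ρ) ⟨1, map_one ρ⟩
        (by rintro _ ⟨a, rfl⟩ _ ⟨b, rfl⟩; exact ⟨a * b, map_mul ρ a b⟩)
        (by rintro _ ⟨a, rfl⟩; exact ⟨a⁻¹, (st a).symm⟩) (by rw [← hA]; exact x.2)) ε hε
      obtain ⟨y', hy', rfl⟩ : ∃ y' ∈ Submodule.span ℂ (Set.range r), y'.1 = y :=
        Submodule.span_induction (p := fun y _ => ∃ y' ∈ Submodule.span ℂ (Set.range r), y'.1 = y)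
          (by rintro _ ⟨a, rfl⟩; exact ⟨r a, Submodule.subset_span ⟨a, rfl⟩, rfl⟩)
          ⟨0, zero_mem _, rfl⟩
          (by rintro _ _ _ _ ⟨a, h1, rfl⟩ ⟨b, h2, rfl⟩; exact ⟨a + b, add_mem h1 h2, rfl⟩)
          (by rintro r _ _ ⟨a, h1, rfl⟩; exact ⟨r • a, Submodule.smul_mem _ _ h1, rfl⟩) hy
      exact ⟨y', hy', h⟩
    · change ((1 - ρ k) * ρ h * (1 - ρ k')) (δ u) = 0
      simp only [ContinuousLinearMap.mul_apply, ContinuousLinearMap.sub_apply,
        ContinuousLinearMap.one_apply, map_sub, hρ]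
      by_cases e : v <+: u
      · have e' : v <+: k'.1 u := by
          by_contra d
          have := b _ (by rwa [G_len k'.2]) d
          exact d (by rwa [k'.1.injective this])
        rw [a _ (by rwa [G_len h.2]) (by rwa [G_pre h.2 e rfl]),
          a _ (by rwa [G_len h.2, G_len k'.2]) (by rwa [G_pre h.2 e' rfl])]; simp
      · simp [b u hu e]
    · change (ρ h * (1 - ρ k) - (1 - ρ k)) (δ u) = 0
      simp only [ContinuousLinearMap.mul_apply, ContinuousLinearMap.sub_apply,
        ContinuousLinearMap.one_apply, map_sub, hρ]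
      by_cases e : v <+: u
      · have e' : v <+: k.1 u := by
          by_contra d
          have := a _ (by rwa [G_len k.2]) d
          exact d (by rwa [k.1.injective this])
        obtain ⟨z, e'⟩ := e'
        obtain ⟨y, rfl⟩ := e
        rw [← e', b, b, sub_self]
      · simp [a u hu e]
  refine (dich hr I hc).resolve_right fun hI => h0 (eq_bot_iff.mpr fun i hi => ?_)
  have k0 : ∀ v w, v.length = w.length → ⟪δ v, i.1 (δ w)⟫_ℂ = 0 := fun v w h =>
    vanish hr I hI h ((innerSL ℂ (δ v)).comp ((ContinuousLinearMap.apply ℂ H (δ w)).comp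
      A.toSubalgebra.toSubmodule.subtypeL)) ⟪δ v, δ v⟫_ℂ (fun g => by
        change ⟪δ v, ρ g (δ w)⟫_ℂ = _
        rw [hρ]
        split_ifs with e
        · rw [e]
        · exact ort _ _ (by rw [G_len g.2, h]) (Ne.symm e)) hi
  have k1 : ∀ k v w, v.length + k = w.length → ⟪δ v, i.1 (δ w)⟫_ℂ = 0 := by
    intro k
    induction k with
    | zero => exact k0
    | succ k ih =>
      intro v w h
      rw [sp v, inner_add_left, ih _ _ (by simp; omega), ih _ _ (by simp; omega), add_zero]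
  have k2 : ∀ k v w, v.length = w.length + k → ⟪δ v, i.1 (δ w)⟫_ℂ = 0 := by
    intro k
    induction k with
    | zero => exact k0
    | succ k ih =>
      intro v w h
      rw [sp w, map_add, inner_add_right, ih _ _ (by simp; omega), ih _ _ (by simp; omega),
        add_zero]
  refine Subtype.ext (ext _ 0 fun w _ => hd.eq_zero_of_inner_right ℂ fun x hx => ?_)
  induction hx using Submodule.span_induction with
  | mem x hx =>
    obtain ⟨v, rfl⟩ := hx
    rcases le_total v.length w.length with h | h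
    · exact k1 _ _ _ (Nat.add_sub_cancel' h)
    · exact k2 _ _ _ (Nat.add_sub_cancel' h).symm
  | zero => simp
  | add x y _ _ hx hy => rw [inner_add_left, hx, hy, add_zero]
  | smul a x _ hx => rw [inner_smul_left, hx, mul_zero]

end hilb

def tk (x : ℕ → Bool) (n : ℕ) : List Bool := (List.range n).map x
def cyl (u : List Bool) : Set (ℕ → Bool) := {x | tk x u.length = u}

lemma tk_len (x : ℕ → Bool) (n : ℕ) : (tk x n).length = n := by simp [tk]
lemma tk_succ (x : ℕ → Bool) (n : ℕ) : tk x (n + 1) = tk x n ++ [x n] := by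
  simp [tk, List.range_succ]
lemma tk_take (x : ℕ → Bool) {m n : ℕ} (h : m ≤ n) : (tk x n).take m = tk x m := by
  simp [tk, ← List.map_take, List.take_range, h]
lemma cyl_eq (u : List Bool) :
    cyl u = Set.pi (Finset.range u.length) fun i => {u.getD i false} := by
  ext x
  simp only [cyl, Set.mem_setOf_eq, Set.mem_pi, coe_range, Set.mem_Iio, Set.mem_singleton_iff]
  constructor
  · intro h i hi
    rw [← h]; simp [tk, hi]
  · intro h
    refine List.ext_getElem (tk_len _ _) fun i h1 h2 => ?_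
    simp [tk, h i h2, h2]
lemma cyl_meas (u : List Bool) : MeasurableSet (cyl u) := by
  rw [cyl_eq]; exact MeasurableSet.pi (Finset.countable_toSet _) fun _ _ => .singleton _
instance : IsProbabilityMeasure mu := by unfold mu; infer_instance
lemma mu_cyl (u : List Bool) : mu (cyl u) = 2⁻¹ ^ u.length := by
  rw [cyl_eq, mu, Measure.infinitePi_pi _ fun _ _ => .singleton _]
  simp [PMF.toMeasure_apply_singleton]

lemma tk_bd {g : P} (hg : g ∈ G) (x : ℕ → Bool) (n : ℕ) : tk (bd g x) n = g (tk x n) := by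
  induction n with
  | zero => exact (List.length_eq_zero_iff.mp (G_len hg [])).symm
  | succ n ih =>
    obtain ⟨z, hz⟩ := G_app hg (tk x n) [x n]
    have h1 := G_len hg (tk x n ++ [x n])
    have h2 : (g (tk x n)).length = n := by rw [G_len hg, tk_len]
    rw [hz, List.length_append, List.length_append, h2, tk_len, add_right_inj] at h1
    obtain ⟨a, rfl⟩ := List.length_eq_one_iff.mp h1
    have : bd g x n = a := by
      change (g (tk x (n + 1))).getD n false = a
      rw [tk_succ, hz]; simp [h2]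
    rw [tk_succ, ih, tk_succ, hz, this]
lemma bd_cyl {g : P} (hg : g ∈ G) (u : List Bool) : bd g⁻¹ ⁻¹' cyl u = cyl (g u) := by
  ext x
  simp only [cyl, Set.mem_preimage, Set.mem_setOf_eq, tk_bd (inv_mem hg), G_len hg,
    Equiv.Perm.inv_eq_iff_eq]

lemma gen_cyl : (inferInstance : MeasurableSpace (ℕ → Bool)) =
    MeasurableSpace.generateFrom (Set.range cyl) := by
  refine le_antisymm ?_ (MeasurableSpace.generateFrom_le (by rintro _ ⟨u, rfl⟩; exact cyl_meas u))
  refine iSup_le fun n => ?_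
  rintro _ ⟨t, -, rfl⟩
  have : (fun x : ℕ → Bool => x n) ⁻¹' t =
      ⋃ u ∈ {u : List Bool | u.length = n + 1 ∧ u.getD n false ∈ t}, cyl u := by
    ext x
    simp only [Set.mem_preimage, Set.mem_iUnion, cyl, Set.mem_setOf_eq]
    refine ⟨fun h => ⟨tk x (n + 1), ⟨tk_len _ _, by simpa [tk] using h⟩, by rw [tk_len]⟩, ?_⟩
    rintro ⟨u, ⟨h1, h2⟩, h3⟩
    rw [← h3, h1] at h2
    simpa [tk] using h2
  rw [this]
  exact MeasurableSet.biUnion (Set.to_countable _) fun u _ => .basic _ ⟨u, rfl⟩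
lemma pi_cyl : IsPiSystem (Set.range cyl) := by
  have : ∀ u v : List Bool, u.length ≤ v.length → (cyl u ∩ cyl v).Nonempty → cyl v ⊆ cyl u := by
    rintro u v h ⟨x, h1, h2⟩ y hy
    change tk _ _ = _ at h1 h2 hy ⊢
    rw [← tk_take y h, hy, ← h1, ← h2, tk_len, tk_take x h]
  rintro _ ⟨u, rfl⟩ _ ⟨v, rfl⟩ h
  rcases le_total u.length v.length with e | e
  · exact ⟨v, (Set.inter_eq_right.mpr (this u v e h)).symm⟩
  · exact ⟨u, (Set.inter_eq_left.mpr (this v u e (Set.inter_comm _ _ ▸ h))).symm⟩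

lemma mp {g : P} (hg : g ∈ G) : MeasurePreserving (bd g⁻¹) mu mu := by
  have hm : Measurable (bd g⁻¹) := by
    have : @Measurable _ _ _ (MeasurableSpace.generateFrom (Set.range cyl)) (bd g⁻¹) :=
      measurable_generateFrom (by rintro _ ⟨u, rfl⟩; rw [bd_cyl hg]; exact cyl_meas _)
    rwa [← gen_cyl] at this
  refine ⟨hm, ext_of_generate_finite _ gen_cyl pi_cyl ?_ ?_⟩
  · rintro _ ⟨u, rfl⟩
    rw [Measure.map_apply hm (cyl_meas u), bd_cyl hg, mu_cyl, mu_cyl, G_len hg]
  · rw [Measure.map_apply hm .univ]; rfl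

noncomputable def dl (u : List Bool) : Lp ℂ 2 mu :=
  indicatorConstLp 2 (cyl_meas u) (measure_ne_top _ _) 1
noncomputable def kp (g : G) : Lp ℂ 2 mu →L[ℂ] Lp ℂ 2 mu :=
  (Lp.compMeasurePreservingₗᵢ ℂ (bd g.1⁻¹) (mp g.2)).toContinuousLinearMap

lemma kp_koop (g : G) (f : Lp ℂ 2 mu) : IsComp mu (bd g.1⁻¹) f (kp g f) :=
  Lp.coeFn_compMeasurePreserving f (mp g.2)
lemma kp_dl (g : G) (u : List Bool) : kp g (dl u) = dl (g.1 u) := by
  refine (Lp.indicatorConstLp_compMeasurePreserving _ _ _ (mp g.2)).trans ?_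
  simp only [dl, bd_cyl g.2]
lemma cyl_disj {v w : List Bool} (h : v.length = w.length) (e : v ≠ w) :
    Disjoint (cyl v) (cyl w) :=
  Set.disjoint_left.mpr fun x h1 h2 => e (by change tk _ _ = _ at h1 h2; rw [← h1, ← h2, h])
lemma dl_split (u : List Bool) : dl u = dl (u ++ [false]) + dl (u ++ [true]) := by
  rw [dl, dl, dl, ← indicatorConstLp_disjoint_union _ _ _ _ (cyl_disj (by simp) (by simp))]
  congr 1
  ext x
  cases h : x u.length <;> simp [cyl, tk_succ, h]
lemma dl_dense : Dense (Submodule.span ℂ (Set.range dl) : Set (Lp ℂ 2 mu)) := by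
  rw [Submodule.dense_iff_topologicalClosure_eq_top, Submodule.topologicalClosure_eq_top_iff,
    eq_bot_iff]
  intro f hf
  have h1 : ∀ u, ∫ x in cyl u, f x ∂mu = 0 := fun u => by
    rw [← L2.inner_indicatorConstLp_one (cyl_meas u) (measure_ne_top _ _)]
    exact hf _ (Submodule.subset_span ⟨u, rfl⟩)
  have hi : Integrable f mu := (Lp.memLp f).integrable one_le_two
  have h2 : ∀ s, MeasurableSet s → ∫ x in s, f x ∂mu = 0 := by
    refine MeasurableSpace.induction_on_inter gen_cyl pi_cyl (by simp)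
      (by rintro _ ⟨u, rfl⟩; exact h1 u) (fun t ht h => ?_) fun s d m h => ?_
    · have := h1 []
      rw [show cyl [] = Set.univ from Set.eq_univ_of_forall fun _ => rfl, setIntegral_univ] at this
      rw [setIntegral_compl ht hi, this, h, sub_zero]
    · rw [integral_iUnion m d hi.integrableOn]; simp [h]
  exact Lp.ext ((Lp.ae_eq_zero_of_forall_setIntegral_eq_zero f (by simp) (by simp)
    (fun _ _ _ => hi.integrableOn) fun s hs _ => h2 s hs).trans (Lp.coeFn_zero _ _ _).symm)

theorem main : GenProperImagesFinite (IsComp mu) {φ | ∃ g ∈ G, φ = bd g⁻¹} := by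
  refine ⟨by rintro _ ⟨g, hg, rfl⟩; exact ⟨_, kp_koop ⟨g, hg⟩⟩, ?_⟩
  have m : ∀ g h, kp (g * h) = kp g * kp h := fun g h => ContinuousLinearMap.ext_on dl_dense (by
    rintro _ ⟨u, rfl⟩; simp [kp_dl])
  have o : kp 1 = 1 := ContinuousLinearMap.ext_on dl_dense (by rintro _ ⟨u, rfl⟩; simp [kp_dl])
  refine just_inf ⟨⟨kp, o⟩, m⟩ dl (fun g => ?_) kp_dl dl_split dl_dense (fun v w h e => ?_) _ ?_
  · change star (kp g) = kp g⁻¹
    rw [ContinuousLinearMap.star_eq_adjoint, eq_comm, ContinuousLinearMap.eq_adjoint_iff]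
    intro x y
    have := (Lp.compMeasurePreservingₗᵢ ℂ (bd g.1⁻¹) (mp g.2)).inner_map_map (kp g⁻¹ x) y
    rw [← this]
    change ⟪(kp g * kp g⁻¹) x, kp g y⟫_ℂ = _
    rw [← m, mul_inv_cancel, o]; rfl
  · rw [dl, dl, L2.inner_indicatorConstLp_one_indicatorConstLp_one, (cyl_disj h e).inter_eq]; simp
  · congr 2
    ext T
    refine ⟨?_, by rintro ⟨g, rfl⟩; exact ⟨_, ⟨g, g.2, rfl⟩, kp_koop g⟩⟩
    rintro ⟨_, ⟨g, hg, rfl⟩, h⟩
    refine ⟨⟨g, hg⟩, ?_⟩
    ext1 f
    exact Lp.ext ((kp_koop ⟨g, hg⟩ f).trans (h f).symm)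

end Pool.Agent.H70.Ko
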