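import Pool.Agent.H70.KpDefs

namespace Pool.Agent.H70.Kp

open Matrix

def A (e p q X Y : ℤ) : Prop :=
  IsCoprime X Y ∧ (q = X ^ 2 + 1000002 * X * Y + Y ^ 2 ∨ q = -(X ^ 2 + 1000002 * X * Y + Y ^ 2)) ∧
    q ∣ e * (-Y) - p * X ∧ q ∣ e * (X + 1000002 * Y) - p * Y

lemma A_R {e p q X Y : ℤ} (h : A e p q X Y) : A e p q (-Y) (X + 1000002 * Y) := by
  obtain ⟨⟨u, v, h1⟩, h2, ⟨c, h3⟩, ⟨d, h4⟩⟩ := h
  refine ⟨⟨1000002 * u - v, u, by linear_combination h1⟩, ?_, ⟨-d, by linear_combination -h4⟩,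
    ⟨c + 1000002 * d, by linear_combination h3 + 1000002 * h4⟩⟩
  rcases h2 with h | h
  · left; linear_combination h
  · right; linear_combination h

lemma A_L {e p q X Y : ℤ} (h : A e p q X Y) : A e p q (1000002 * X + Y) (-X) := by
  obtain ⟨⟨u, v, h1⟩, h2, ⟨c, h3⟩, ⟨d, h4⟩⟩ := h
  refine ⟨⟨v, 1000002 * v - u, by linear_combination h1⟩, ?_,
    ⟨d + 1000002 * c, by linear_combination h4 + 1000002 * h3⟩, ⟨-c, by linear_combination -h3⟩⟩
  rcases h2 with h | h
  · left; linear_combination h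
  · right; linear_combination h

lemma bd (X Y : ℤ) (h1 : |Y| ≤ |X|) (h2 : |X| ≤ |X + 1000002 * Y|) :
    X ^ 2 ≤ 2 * |X ^ 2 + 1000002 * X * Y + Y ^ 2| := by
  have e : X ^ 2 + 1000002 * X * Y + Y ^ 2 = X * (X + 1000002 * Y) + Y ^ 2 := by ring
  rw [e]
  set Z := X + 1000002 * Y with hZ
  have hX := abs_nonneg X
  have hY := abs_nonneg Y
  have sX : |X| * |X| = X ^ 2 := by rw [abs_mul_abs_self]; ring
  have sY : |Y| * |Y| = Y ^ 2 := by rw [abs_mul_abs_self]; ring
  have a1 : X ^ 2 ≤ |X * Z| := by rw [abs_mul]; nlinarith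
  rcases le_total 0 (X * Z) with h | h
  · rw [abs_of_nonneg h] at a1
    have := le_abs_self (X * Z + Y ^ 2)
    nlinarith [sq_nonneg Y]
  · have t1 : |1000002 * Y| ≤ |Z| + |X| := by
      have : 1000002 * Y = Z - X := by rw [hZ]; ring
      rw [this]; exact abs_sub _ _
    rw [abs_mul] at t1
    have t2 : |(1000002 : ℤ)| = 1000002 := by norm_num
    rw [t2] at t1
    have a2 : 2 * Y ^ 2 ≤ |X * Z| := by rw [abs_mul]; nlinarith
    rw [abs_of_nonpos h] at a1 a2
    have := neg_abs_le (X * Z + Y ^ 2)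
    nlinarith

lemma red (e p q : ℤ) : ∀ (n : ℕ) (X Y : ℤ), |X| + |Y| ≤ n → A e p q X Y →
    ∃ X' Y', A e p q X' Y' ∧ X' ^ 2 ≤ 2 * |q| ∧ Y' ^ 2 ≤ 2 * |q| := by
  intro n
  induction n with
  | zero =>
    intro X Y h hA
    have hX : X = 0 := by have := abs_nonneg X; have := abs_nonneg Y; exact abs_eq_zero.1 (by push_cast at h; omega)
    have hY : Y = 0 := by have := abs_nonneg X; have := abs_nonneg Y; exact abs_eq_zero.1 (by push_cast at h; omega)
    exact ⟨X, Y, hA, by rw [hX]; positivity, by rw [hY]; positivity⟩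
  | succ n ih =>
    intro X Y h hA
    have hq : |q| = |X ^ 2 + 1000002 * X * Y + Y ^ 2| := by
      rcases hA.2.1 with h | h
      · rw [← h]
      · rw [h, abs_neg]
    push_cast at h
    rcases le_total |Y| |X| with h1 | h1
    · by_cases h2 : |X| ≤ |X + 1000002 * Y|
      · have := bd X Y h1 h2
        have h3 : Y ^ 2 ≤ X ^ 2 := sq_le_sq.2 h1
        exact ⟨X, Y, hA, by rw [hq]; exact this, by rw [hq]; linarith⟩
      · exact ih _ _ (by rw [abs_neg]; omega) (A_R hA)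
    · by_cases h2 : |Y| ≤ |Y + 1000002 * X|
      · have := bd Y X h1 h2
        have h3 : X ^ 2 ≤ Y ^ 2 := sq_le_sq.2 h1
        have e : Y ^ 2 + 1000002 * Y * X + X ^ 2 = X ^ 2 + 1000002 * X * Y + Y ^ 2 := by ring
        rw [e] at this
        exact ⟨X, Y, hA, by rw [hq]; linarith, by rw [hq]; exact this⟩
      · exact ih _ _ (by rw [abs_neg, add_comm (1000002 * X)]; omega) (A_L hA)

def D (p q r s X Y e f k : ℤ) : Prop :=
  p * s - r * q = 1 ∧ p + s = e * 1000002 ∧ q ≠ 0 ∧ ((k = 4 ∧ p = X ∧ q = Y) ∨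
    (k ≤ 3 ∧ k = p / q ∧ q = f * (X ^ 2 + 1000002 * X * Y + Y ^ 2) ∧ A e p q X Y))

lemma D_uniq {p q r s p' q' r' s' X Y e f k : ℤ} (h : D p q r s X Y e f k)
    (h' : D p' q' r' s' X Y e f k) : p = p' ∧ q = q' ∧ r = r' ∧ s = s' := by
  obtain ⟨a1, a2, a0, a3⟩ := h
  obtain ⟨b1, b2, b0, b3⟩ := h'
  have key : p = p' ∧ q = q' := by
    rcases a3 with ⟨k1, rfl, rfl⟩ | ⟨k1, k2, k3, ⟨u, v, hc⟩, -, ⟨c, c1⟩, ⟨d, d1⟩⟩ <;>
      rcases b3 with ⟨l1, l2, l3⟩ | ⟨l1, l2, l3, -, -, ⟨c', c2⟩, ⟨d', d2⟩⟩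
    · exact ⟨l2.symm, l3.symm⟩
    · omega
    · omega
    · have hq : q = q' := by rw [k3, l3]
      subst hq
      refine ⟨?_, rfl⟩
      have hm : p % q = p' % q := by
        apply Int.emod_emod_of_dvd _ (dvd_refl q) |>.symm.trans
        rw [Int.emod_emod_of_dvd _ (dvd_refl q)]
        exact (Int.emod_eq_emod_iff_emod_sub_eq_zero).2 (Int.emod_eq_zero_of_dvd
          ⟨u * (c' - c) + v * (d' - d), by linear_combination (p' - p) * hc + u * (c2 - c1) + v * (d2 - d1)⟩)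
      have e1 := Int.emod_add_mul_ediv p q
      have e2 := Int.emod_add_mul_ediv p' q
      rw [← k2] at e1
      rw [← l2] at e2
      linarith
  obtain ⟨rfl, rfl⟩ := key
  have hs : s = s' := by linarith
  subst hs
  exact ⟨rfl, rfl, mul_right_cancel₀ a0 (by linarith), rfl⟩

lemma D_ex (L : ℕ) (hL : 400 ≤ L) (p q r s x y z w e : ℤ) (he : e = 1 ∨ e = -1)
    (hd : p * s - r * q = 1) (hg : x * w - z * y = 1 ∨ x * w - z * y = -1)
    (htr : p + s = e * 1000002)
    (E1 : x * p + z * q = e * (-y)) (E2 : y * p + w * q = e * (x + 1000002 * y))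
    (hq : |q| ≤ 18000000 * L ^ 2) (hr : |r| ≤ |q|) :
    ∃ X Y f k : ℤ, |X| ≤ 6000 * L ∧ |Y| ≤ 6000 * L ∧ (f = 1 ∨ f = -1) ∧ -3 ≤ k ∧ k ≤ 4 ∧
      D p q r s X Y e f k := by
  have hL' : (400 : ℤ) ≤ L := by exact_mod_cast hL
  have hp : |p| ≤ |q| + 1000003 := by
    by_contra hc
    push Not at hc
    have h1 : |p| ≤ |s| + 1000002 := by
      have : p = e * 1000002 - s := by linarith
      rcases he with rfl | rfl <;> rw [this] <;> cases abs_cases s <;>
        rcases abs_cases (p) with h | h <;> simp only [abs_le] <;> constructor <;> linarith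
    have h2 : |p| * |s| ≤ 1 + |r| * |q| := by
      rw [← abs_mul, ← abs_mul]
      have : p * s = 1 + r * q := by linarith
      rw [this]; exact (abs_add_le _ _).trans (by simp)
    have := abs_nonneg q
    have := abs_nonneg r
    nlinarith
  have hq0 : q ≠ 0 := by
    rintro rfl
    have h1 : p * s = 1 := by linarith
    rcases Int.eq_one_or_neg_one_of_mul_eq_one' h1 with ⟨rfl, rfl⟩ | ⟨rfl, rfl⟩ <;> omega
  by_cases hs : |q| ≤ 1000003
  · exact ⟨p, q, 1, 4, by linarith, by linarith, Or.inl rfl, by norm_num, le_rfl, hd, htr, hq0,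
      Or.inl ⟨rfl, rfl, rfl⟩⟩
  · have hA : A e p q x y := by
      refine ⟨?_, ?_, ⟨z, by linear_combination -E1⟩, ⟨w, by linear_combination -E2⟩⟩
      · rcases hg with h | h
        · exact ⟨w, -z, by linear_combination h⟩
        · exact ⟨-w, z, by linear_combination -h⟩
      · rcases he with rfl | rfl <;> rcases hg with h | h
        · left; linear_combination x * E2 - y * E1 - q * h
        · right; linear_combination y * E1 - x * E2 + q * h
        · right; linear_combination x * E2 - y * E1 - q * h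
        · left; linear_combination y * E1 - x * E2 + q * h
    obtain ⟨X, Y, hA', b1, b2⟩ := red e p q (|x| + |y|).toNat x y (Int.self_le_toNat _) hA
    have c1 : |X| ≤ 6000 * L := abs_le_of_sq_le_sq' (by nlinarith) (by linarith) |> abs_le.2
    have c2 : |Y| ≤ 6000 * L := abs_le_of_sq_le_sq' (by nlinarith) (by linarith) |> abs_le.2
    have e1 := Int.emod_add_mul_ediv p q
    have e2 := Int.emod_nonneg p hq0
    have e3 := Int.emod_lt_abs p hq0
    have hk : |p / q| ≤ 3 := by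
      have h1 : |q| * |p / q| ≤ |p| + |p % q| := by
        rw [← abs_mul]
        have : q * (p / q) = p - p % q := by linarith
        rw [this]; exact abs_sub _ _
      rw [abs_of_nonneg e2] at h1
      by_contra hc
      push Not at hc hs
      nlinarith
    have hk' := abs_le.1 hk
    rcases hA'.2.1 with h | h
    · exact ⟨X, Y, 1, p / q, c1, c2, Or.inl rfl, hk'.1, by linarith [hk'.2], hd, htr, hq0,
        Or.inr ⟨hk'.2, rfl, by linarith, hA'⟩⟩
    · exact ⟨X, Y, -1, p / q, c1, c2, Or.inr rfl, hk'.1, by linarith [hk'.2], hd, htr, hq0,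
        Or.inr ⟨hk'.2, rfl, by linarith, hA'⟩⟩

end Pool.Agent.H70.Kp
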