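import Pool.Agent.H70.KpDefs

namespace Pool.Agent.H70.Kp

open Matrix

def B (x y x' y' : ℤ) : ℤ := x * (1000000 * x' + 1000001 * y') - y * (x' + y')

def Mx (x y x' y' : ℤ) : Mat := !![B x' y' x y, -B x' y' x' y'; B x y x y, -B x y x' y']

def Va (x y x' y' : ℤ) : Prop :=
  (x * y' - x' * y = 1 ∨ x * y' - x' * y = -1) ∧ 0 ≤ y ∧ 2 * y ≤ x ∧ 0 ≤ y' ∧ 2 * y' ≤ x' ∧
    0 < x' ∧ x' < x

lemma B_pos {x y x' y' : ℤ} (h0 : 0 ≤ y) (h1 : 0 < x) (h2 : 0 ≤ y') (h3 : y' ≤ x') (h4 : 0 < x') :
    999999 * x ≤ B x' y' x y := by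
  unfold B
  have : y' * (x + y) ≤ x' * (x + y) := by nlinarith
  nlinarith [mul_nonneg h0 h4.le, mul_le_mul_of_nonneg_right (show 1 ≤ x' by omega) h1.le]

lemma Va.ineq {x y x' y' : ℤ} (h : Va x y x' y') :
    0 < B x' y' x y ∧ B x' y' x y + 1000002 < B x y x y ∧ |B x y x' y'| < B x y x y ∧
      0 < B x' y' x' y' := by
  obtain ⟨hd, h0, h1, h2, h3, h4, h5⟩ := h
  have a1 := B_pos (x := x) (y := y) h0 (by omega) h2 (by omega) h4
  have a4 := B_pos (x := x') (y := y') h2 h4 h2 (by omega) h4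
  have b1 : 0 ≤ y - y' := by
    by_contra hc
    have : y + 1 ≤ y' := by omega
    rcases hd with h | h <;> nlinarith
  have b2 : y - y' ≤ x - x' := by
    by_contra hc
    have : x - x' + 1 ≤ y - y' := by omega
    rcases hd with h | h <;> nlinarith
  have a2 := B_pos (x := x) (y := y) h0 (by omega) b1 b2 (by omega)
  have e : B (x - x') (y - y') x y = B x y x y - B x' y' x y := by unfold B; ring
  have e2 : B x y x' y' = B x' y' x y + 1000002 * (x * y' - x' * y) := by unfold B; ring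
  refine ⟨by omega, by omega, ?_, by omega⟩
  rw [abs_lt]
  rcases hd with h | h <;> rw [h] at e2 <;> constructor <;> omega

lemma Va.nxt {x y x' y' : ℤ} (h : Va x y x' y') (h2 : 2 ≤ x') :
    Va x' y' (x - x / x' * x') (y - x / x' * y') := by
  obtain ⟨hd, h0, h1, h2', h3, h4, h5⟩ := h
  have e1 := Int.emod_add_mul_ediv x x'
  have e2 := Int.emod_nonneg x h4.ne'
  have e3 := Int.emod_lt_of_pos x h4
  set k := x / x'
  obtain ⟨m, hm⟩ : ∃ m, m = x - k * x' := ⟨_, rfl⟩
  obtain ⟨n, hn⟩ : ∃ n, n = y - k * y' := ⟨_, rfl⟩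
  have m0 : 0 ≤ m := by rw [hm]; linarith [mul_comm k x']
  have m1 : m < x' := by rw [hm]; linarith [mul_comm k x']
  rw [← hm, ← hn]
  have hd' : x' * n - m * y' = -(x * y' - x' * y) := by rw [hm, hn]; ring
  have m2 : m ≠ 0 := by
    rintro rfl
    have : x' * n = 1 ∨ x' * n = -1 := by rcases hd with h | h <;> omega
    rcases this with h | h
    · have := Int.eq_one_of_mul_eq_one_right h4.le h; omega
    · have := Int.eq_one_of_mul_eq_one_right (b := -n) h4.le (by linarith); omega
  have m3 : 1 ≤ m := by omega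
  refine ⟨by rcases hd with h | h <;> omega, h2', h3, ?_, ?_, by omega, m1⟩
  · by_contra hc
    have : n ≤ -1 := by omega
    rcases hd with h | h <;> nlinarith [mul_nonneg m0 h2']
  · by_contra hc
    have h6 : m + 1 ≤ 2 * n := by omega
    rcases eq_or_lt_of_le h3 with h7 | h7
    · rcases hd with h | h
      · nlinarith
      · have : y' * (x - 2 * y) = -1 := by rw [← h, ← h7]; ring
        nlinarith [mul_nonneg h2' (show 0 ≤ x - 2 * y by omega)]
    · have h8 : 2 * y' + 1 ≤ x' := by omega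
      rcases hd with h | h <;> nlinarith

lemma step2_Mx (x y x' y' k : ℤ) (h0 : 0 ≤ B (x' - k * x) (y' - k * y) x y)
    (h1 : B (x' - k * x) (y' - k * y) x y < B x y x y) :
    step2 (Mx x y x' y') = Mx x y (x' - k * x) (y' - k * y) := by
  have e : B (x' - k * x) (y' - k * y) x y = B x' y' x y - k * B x y x y := by unfold B; ring
  have hq : (0 : ℚ) < B x y x y := by exact_mod_cast (h0.trans_lt h1)
  have hk : ⌊((Mx x y x' y') 0 0 : ℚ) / (Mx x y x' y') 1 0⌋ = k := by
    simp only [Mx, of_apply, cons_val', cons_val_zero, cons_val_one, cons_val_fin_one]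
    rw [Int.floor_eq_iff, le_div_iff₀ hq, div_lt_iff₀ hq]
    constructor
    · exact_mod_cast (by linarith : k * B x y x y ≤ B x' y' x y)
    · exact_mod_cast (by linarith : B x' y' x y < (k + 1) * B x y x y)
  unfold step2
  rw [hk]
  ext i j
  fin_cases i <;> fin_cases j <;> simp [Mx, Matrix.mul_apply, Fin.sum_univ_two, B] <;> ring

lemma run_d {x y x' y' : ℤ} (h : Va x y x' y') (R : Mat) (hR : Run false (step2 (Mx x' y' x y)) R) :
    Run false (Mx x y x' y') R := by
  obtain ⟨a1, a2, a3, a4⟩ := h.ineq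
  refine Run.d _ _ (by simp [Mx]; omega) (by simpa [Mx] using a3) (Run.start _ _ ?_)
  have : step1 !![(Mx x y x' y') 1 1, (Mx x y x' y') 1 0; (Mx x y x' y') 0 1, (Mx x y x' y') 0 0] =
      Mx x' y' x y := by
    unfold step1
    rw [if_pos (by simpa [Mx] using a4)]
    ext i j
    fin_cases i <;> fin_cases j <;> simp [Mx]
  rwa [this]

lemma Va.one {x y x' y' : ℤ} (h : Va x y x' y') (h1 : x' < 2) : x' = 1 ∧ y' = 0 ∧ y = 1 := by
  obtain ⟨hd, h0, h1, h2', h3, h4, h5⟩ := h
  have a : x' = 1 := by omega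
  have b : y' = 0 := by omega
  subst a b
  omega

lemma run_f : ∀ (n : ℕ) (x y x' y' : ℤ), x' ≤ n → Va x y x' y' →
    Run false (Mx x y x' y') !![1, 1; 1000000, 1000001] := by
  intro n
  induction n with
  | zero => intro x y x' y' h hv; have := hv.2.2.2.2.2.1; omega
  | succ n ih =>
    intro x y x' y' h hv
    refine run_d hv _ ?_
    by_cases h2 : 2 ≤ x'
    · have hn := hv.nxt h2
      obtain ⟨a1, a2, -, -⟩ := hn.ineq
      rw [step2_Mx x' y' x y (x / x') a1.le (by omega)]
      exact ih _ _ _ _ (by have := hn.2.2.2.2.2.2; push_cast at h; omega) hn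
    · obtain ⟨rfl, rfl, rfl⟩ := hv.one (by omega)
      rw [step2_Mx 1 0 x 1 (x - 1) (by simp [B]) (by simp [B])]
      refine Run.c _ _ (by simp [Mx, B]) (by simp [Mx, B]) ?_
      have : -(!![-1, 1; 0, 1] * Mx 1 0 (x - (x - 1) * 1) (1 - (x - 1) * 0) * !![-1, 1; 0, 1]) =
          (!![1, 1; 1000000, 1000001] : Mat) := by
        ext i j
        fin_cases i <;> fin_cases j <;> simp [Mx, Matrix.mul_apply, Fin.sum_univ_two, B]
      rw [this]
      exact Run.b _ (by simp) (by simp)

lemma run_t {x y x' y' : ℤ} (h : Va x y x' y') :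
    Run true (Mx x y x' y') !![1, 1; 1000000, 1000001] := by
  obtain ⟨a1, a2, a3, a4⟩ := h.ineq
  refine Run.start _ _ ?_
  have : step1 (Mx x y x' y') = Mx x y x' y' := by
    unfold step1
    rw [if_neg (by simp [Mx]; omega)]
  rw [this, step2_Mx x y x' y' 0 (by simpa using a1.le) (by simp; omega)]
  simpa using run_f x'.toNat x y x' y' (Int.self_le_toNat _) h

lemma Mx_inj : ∀ (n : ℕ) (x y x' y' z w z' w' : ℤ), x' ≤ n → Va x y x' y' → Va z w z' w' →
    Mx x y x' y' = Mx z w z' w' → x = z ∧ y = w ∧ x' = z' ∧ y' = w' := by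
  intro n
  induction n with
  | zero => intro x y x' y' z w z' w' h hv; have := hv.2.2.2.2.2.1; omega
  | succ n ih =>
    intro x y x' y' z w z' w' h hv hw he
    have e00 := congrFun (congrFun he 0) 0
    have e01 := congrFun (congrFun he 0) 1
    have e10 := congrFun (congrFun he 1) 0
    have e11 := congrFun (congrFun he 1) 1
    simp [Mx] at e00 e01 e10 e11
    have he' : Mx x' y' x y = Mx z' w' z w := by simp [Mx, e00, e01, e10, e11]
    have big : ∀ {x y x' y' : ℤ}, Va x y x' y' → 2 ≤ x' → 1000000 < B x' y' x' y' := by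
      intro x y x' y' hv h2
      obtain ⟨hd, h0, h1, h2', h3, h4, h5⟩ := hv
      have := B_pos (x := x') (y := y') h2' h4 h2' (by omega) h4
      omega
    by_cases h2 : 2 ≤ x' <;> by_cases h3 : 2 ≤ z'
    · have hn := hv.nxt h2
      have hm := hw.nxt h3
      obtain ⟨a1, a2, -, -⟩ := hn.ineq
      obtain ⟨b1, b2, -, -⟩ := hm.ineq
      have s1 := step2_Mx x' y' x y (x / x') a1.le (by omega)
      have s2 := step2_Mx z' w' z w (z / z') b1.le (by omega)
      rw [he', s2] at s1
      obtain ⟨rfl, rfl, c3, c4⟩ :=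
        ih _ _ _ _ _ _ _ _ (by have := hn.2.2.2.2.2.2; push_cast at h; omega) hn hm s1.symm
      have f1 : B (x - x / x' * x') (y - x / x' * y') x' y' =
          B x y x' y' - x / x' * B x' y' x' y' := by unfold B; ring
      have f2 : B (z - z / x' * x') (w - z / x' * y') x' y' =
          B z w x' y' - z / x' * B x' y' x' y' := by unfold B; ring
      have hk : x / x' = z / x' := by
        rw [c3, c4, f2, e11] at f1
        exact mul_right_cancel₀ (b := B x' y' x' y') (by omega) (by linarith)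
      rw [hk] at c3 c4
      exact ⟨by linarith, by linarith, rfl, rfl⟩
    · obtain ⟨rfl, rfl, rfl⟩ := hw.one (by omega)
      have := big hv h2
      rw [e01] at this; simp [B] at this
    · obtain ⟨rfl, rfl, rfl⟩ := hv.one (by omega)
      have := big hw h3
      rw [← e01] at this; simp [B] at this
    · obtain ⟨rfl, rfl, rfl⟩ := hv.one (by omega)
      obtain ⟨rfl, rfl, rfl⟩ := hw.one (by omega)
      simp [B] at e11
      exact ⟨by omega, rfl, rfl, rfl⟩

lemma Mx_mem {x y x' y' : ℤ} (h : Va x y x' y') (L : ℕ) (hx : x ≤ 3 * L) :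
    Mx x y x' y' ∈ S [1000000, 1] (18000000 * L ^ 2) := by
  obtain ⟨a1, a2, a3, a4⟩ := h.ineq
  have hr := run_t h
  obtain ⟨hd, h0, h1, h2, h3, h4, h5⟩ := h
  have q1 : B x y x y ≤ 18000000 * L ^ 2 := by unfold B; nlinarith [mul_nonneg h0 h0]
  have q2 : B x' y' x' y' ≤ 18000000 * L ^ 2 := by unfold B; nlinarith [mul_nonneg h2 h2]
  refine ⟨?_, ?_, ⟨!![x, -x'; y, -y'], ?_, ?_⟩, _, hr, ?_⟩
  · have : (Mx x y x' y').det = (x * y' - x' * y) ^ 2 := by simp [Mx, det_fin_two, B]; ring
    rcases hd with h | h <;> rw [this, h] <;> norm_num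
  · intro i j
    fin_cases i <;> fin_cases j <;> simp [Mx, abs_of_pos a1, abs_of_pos a4, abs_of_pos (a1.trans (by omega : B x' y' x y < B x y x y))] <;> omega
  · have : (!![x, -x'; y, -y'] : Mat).det = -(x * y' - x' * y) := by simp [det_fin_two]; ring
    rcases hd with h | h <;> rw [this, h] <;> simp
  · have key : !![x, -x'; y, -y'] * Mx x y x' y' =
        -(x * y' - x' * y) • (MP [1000000, 1] * !![x, -x'; y, -y']) := by
      ext i j
      fin_cases i <;> fin_cases j <;> simp [Mx, MP, Matrix.mul_apply, Fin.sum_univ_two, B] <;> ring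
    rcases hd with h | h <;> rw [key, h] <;> simp
  · simp [Col, cf]

end Pool.Agent.H70.Kp
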