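import Pool.Agent.H70.Kp1
import Pool.Agent.H70.Kp2

namespace Pool.Agent.H70.Kp

open Matrix Finset

lemma S_fin (P : List ℕ) (N : ℕ) : (S P N).Finite := by
  refine (Set.Finite.pi' (fun i : Fin 2 => Set.Finite.pi' (fun j : Fin 2 =>
    Set.finite_Icc (-(N : ℤ)) N))).subset ?_
  intro M hM i j
  exact abs_le.1 (hM.2.1 i j)

noncomputable def T (L : ℕ) : Finset (ℤ × ℤ × ℤ × ℤ × ℤ × Bool) :=
  Icc (-(6000 * L : ℤ)) (6000 * L) ×ˢ Icc (-(6000 * L : ℤ)) (6000 * L) ×ˢ Icc (-1) 1 ×ˢ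
    Icc (-1) 1 ×ˢ Icc (-3) 4 ×ˢ univ

lemma T_card (L : ℕ) : (T L).card = 144 * (12000 * L + 1) ^ 2 := by
  have : ((6000 * L : ℤ) + 1 - -(6000 * L)).toNat = 12000 * L + 1 := by omega
  simp only [T, card_product, Int.card_Icc, this]
  simp
  ring

def Rel (M : Mat) (t : ℤ × ℤ × ℤ × ℤ × ℤ × Bool) : Prop :=
  if t.2.2.2.2.2 then D (M 0 0) (M 1 0) (M 0 1) (M 1 1) t.1 t.2.1 t.2.2.1 t.2.2.2.1 t.2.2.2.2.1
  else D (M 1 1) (M 0 1) (M 1 0) (M 0 0) t.1 t.2.1 t.2.2.1 t.2.2.2.1 t.2.2.2.2.1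

lemma upper (L : ℕ) (hL : 400 ≤ L) :
    cnt [1, 1000000] (18000000 * L ^ 2) ≤ 144 * (12000 * L + 1) ^ 2 := by
  classical
  rw [← T_card, cnt, Set.ncard_eq_toFinset_card _ (S_fin _ _)]
  refine card_le_card_of_forall_subsingleton Rel ?_ ?_
  · intro M hM
    rw [Set.Finite.mem_toFinset] at hM
    obtain ⟨hd, hb, ⟨g, hg, hc⟩, -⟩ := hM
    rw [det_fin_two] at hd hg
    have hg' := Int.isUnit_iff.1 hg
    obtain ⟨e, he, hc⟩ : ∃ e : ℤ, (e = 1 ∨ e = -1) ∧ g * M = e • (MP [1, 1000000] * g) := by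
      rcases hc with h | h
      · exact ⟨1, Or.inl rfl, by simpa using h⟩
      · exact ⟨-1, Or.inr rfl, by simpa using h⟩
    have e00 := congrFun (congrFun hc 0) 0
    have e01 := congrFun (congrFun hc 0) 1
    have e10 := congrFun (congrFun hc 1) 0
    have e11 := congrFun (congrFun hc 1) 1
    simp [MP, Matrix.mul_apply, Fin.sum_univ_two, vecMul, dotProduct] at e00 e01 e10 e11
    have htr : M 0 0 + M 1 1 = e * 1000002 := by
      have : (M 0 0 + M 1 1 - e * 1000002) * (g 0 0 * g 1 1 - g 0 1 * g 1 0) = 0 := by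
        linear_combination g 1 1 * e00 - g 0 1 * e10 + g 0 0 * e11 - g 1 0 * e01
      rcases hg' with h | h <;> rw [h] at this <;> linarith
    have b10 := hb 1 0
    have b01 := hb 0 1
    push_cast at b10 b01
    have he' : e ∈ Icc (-1 : ℤ) 1 := by rcases he with rfl | rfl <;> simp
    rcases le_total |M 0 1| |M 1 0| with h | h
    · obtain ⟨X, Y, f, k, c1, c2, c3, c4, c5, c6⟩ := D_ex L hL (M 0 0) (M 1 0) (M 0 1) (M 1 1)
        (g 0 0 - g 1 0) (g 1 0) (g 0 1 - g 1 1) (g 1 1) e he hd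
        (by rcases hg' with h | h; left; linear_combination h; right; linear_combination h) htr
        (by linear_combination e00 - e10) (by linear_combination e10) b10 h
      refine ⟨(X, Y, e, f, k, true), ?_, by simpa [Rel] using c6⟩
      simp only [T, mem_product, mem_Icc, mem_univ, and_true]
      exact ⟨abs_le.1 c1, abs_le.1 c2, mem_Icc.1 he', by omega, c4, c5⟩
    · obtain ⟨X, Y, f, k, c1, c2, c3, c4, c5, c6⟩ := D_ex L hL (M 1 1) (M 0 1) (M 1 0) (M 0 0)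
        (g 0 1 - g 1 1) (g 1 1) (g 0 0 - g 1 0) (g 1 0) e he (by linear_combination hd)
        (by rcases hg' with h | h; right; linear_combination -h; left; linear_combination -h)
        (by linear_combination htr)
        (by linear_combination e01 - e11) (by linear_combination e11) b01 h
      refine ⟨(X, Y, e, f, k, false), ?_, by simpa [Rel] using c6⟩
      simp only [T, mem_product, mem_Icc, mem_univ, and_true]
      exact ⟨abs_le.1 c1, abs_le.1 c2, mem_Icc.1 he', by omega, c4, c5⟩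
  · rintro ⟨X, Y, e, f, k, b⟩ - M ⟨-, hM⟩ M' ⟨-, hM'⟩
    cases b <;> simp only [Rel, if_true, Bool.false_eq_true, if_false] at hM hM' <;>
      obtain ⟨a1, a2, a3, a4⟩ := D_uniq hM hM' <;> ext i j <;> fin_cases i <;> fin_cases j <;>
      assumption

lemma sum_inv_sq (L : ℕ) (hL : 2 ≤ L) : ∑ d ∈ Icc 2 L, (1 : ℚ) / d ^ 2 ≤ 3 / 4 - 1 / L := by
  induction L, hL using Nat.le_induction with
  | base => norm_num
  | succ n hn ih =>
    rw [sum_Icc_succ_top (by omega)]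
    have h : (0 : ℚ) < n := by exact_mod_cast (by omega : 0 < n)
    have : (1 : ℚ) / ((n + 1 : ℕ) : ℚ) ^ 2 ≤ 1 / n - 1 / ((n + 1 : ℕ) : ℚ) := by
      push_cast
      rw [div_sub_div _ _ h.ne' (by positivity), div_le_div_iff₀ (by positivity) (by positivity)]
      nlinarith
    linarith

lemma cop (L : ℕ) (hL : 2 ≤ L) :
    L ^ 2 ≤ 4 * ((Icc 1 L ×ˢ Icc 1 L).filter fun z : ℕ × ℕ => z.1.Coprime z.2).card := by
  have h1 := card_filter_add_card_filter_not (s := Icc 1 L ×ˢ Icc 1 L)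
    (fun z : ℕ × ℕ => z.1.Coprime z.2)
  have h2 : ((Icc 1 L ×ˢ Icc 1 L).filter fun z : ℕ × ℕ => ¬ z.1.Coprime z.2).card ≤
      ∑ d ∈ Icc 2 L, (L / d) ^ 2 := by
    have : ((Icc 1 L ×ˢ Icc 1 L).filter fun z : ℕ × ℕ => ¬ z.1.Coprime z.2) ⊆
        (Icc 2 L).biUnion fun d => ((Ioc 0 L).filter (d ∣ ·)) ×ˢ ((Ioc 0 L).filter (d ∣ ·)) := by
      rintro ⟨m, n⟩ h
      simp only [mem_filter, mem_product, mem_Icc, mem_biUnion, mem_Ioc] at h ⊢
      obtain ⟨⟨⟨a1, a2⟩, a3, a4⟩, a5⟩ := h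
      have g1 : 0 < m.gcd n := Nat.gcd_pos_of_pos_left _ a1
      have g2 : m.gcd n ≤ m := Nat.gcd_le_left _ a1
      have g3 : m.gcd n ≠ 1 := a5
      exact ⟨m.gcd n, ⟨by omega, by omega⟩, ⟨⟨a1, a2⟩, Nat.gcd_dvd_left _ _⟩, ⟨a3, a4⟩,
        Nat.gcd_dvd_right _ _⟩
    refine (card_le_card this).trans (card_biUnion_le.trans (le_of_eq ?_))
    refine sum_congr rfl fun d _ => ?_
    rw [card_product, Nat.Ioc_filter_dvd_card_eq_div, sq]
  have h3 : ((∑ d ∈ Icc 2 L, (L / d) ^ 2 : ℕ) : ℚ) ≤ L ^ 2 * (3 / 4) := by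
    have h4 := sum_inv_sq L hL
    have h5 : (0 : ℚ) ≤ 1 / L := by positivity
    calc _ ≤ ∑ d ∈ Icc 2 L, (L : ℚ) ^ 2 * (1 / d ^ 2) := by
          push_cast
          refine sum_le_sum fun d _ => ?_
          rw [mul_one_div, ← div_pow]
          exact pow_le_pow_left₀ (by positivity) Nat.cast_div_le 2
      _ ≤ _ := by
          rw [← mul_sum]
          exact mul_le_mul_of_nonneg_left (by linarith) (by positivity)
  have h6 : 4 * ∑ d ∈ Icc 2 L, (L / d) ^ 2 ≤ 3 * L ^ 2 := by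
    have : ((4 * ∑ d ∈ Icc 2 L, (L / d) ^ 2 : ℕ) : ℚ) ≤ ((3 * L ^ 2 : ℕ) : ℚ) := by
      rw [Nat.cast_mul, Nat.cast_mul, Nat.cast_pow]; push_cast at h3 ⊢; linarith
    exact_mod_cast this
  rw [card_product, Nat.card_Icc, Nat.add_sub_cancel, ← sq] at h1
  omega

lemma par (m n : ℕ) (hm : 1 ≤ m) (hn : 1 ≤ n) (h : m.Coprime n) :
    ∃ u : ℤ × ℤ, Va (2 * m + n) m u.1 u.2 := by
  obtain ⟨α, β, h1⟩ := Nat.isCoprime_iff_coprime.2 h
  have hm' : (1 : ℤ) ≤ m := by exact_mod_cast hm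
  have hn' : (1 : ℤ) ≤ n := by exact_mod_cast hn
  set x : ℤ := 2 * m + n with hx
  have hx0 : 0 < x := by omega
  have e1 := Int.emod_add_mul_ediv (α - 2 * β) x
  have e2 := Int.emod_nonneg (α - 2 * β) hx0.ne'
  have e3 := Int.emod_lt_of_pos (α - 2 * β) hx0
  set c := (α - 2 * β) % x
  set k := (α - 2 * β) / x
  have hd : x * (-β - k * m) - c * m = -1 := by
    rw [hx] at e1 ⊢; linear_combination -h1 - m * e1
  set d := -β - k * m
  have c0 : c ≠ 0 := by
    rintro h0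
    rw [h0] at hd
    have := Int.eq_one_of_mul_eq_one_right (b := -d) hx0.le (by linarith); omega
  have c1 : 1 ≤ c := by omega
  refine ⟨(c, d), Or.inr hd, by omega, by omega, ?_, ?_, by omega, e3⟩
  · show 0 ≤ d
    by_contra hc
    have : d ≤ -1 := by omega
    nlinarith
  · show 2 * d ≤ c
    by_contra hc
    have : c + 1 ≤ 2 * d := by omega
    nlinarith

lemma lower (L : ℕ) (hL : 2 ≤ L) : L ^ 2 ≤ 4 * cnt [1000000, 1] (18000000 * L ^ 2) := by
  classical
  refine (cop L hL).trans (Nat.mul_le_mul_left _ ?_)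
  rw [cnt, Set.ncard_eq_toFinset_card _ (S_fin _ _)]
  refine card_le_card_of_forall_subsingleton
    (fun (z : ℕ × ℕ) (M : Mat) => ∃ u : ℤ × ℤ, Va (2 * z.1 + z.2) z.1 u.1 u.2 ∧
      M = Mx (2 * z.1 + z.2) z.1 u.1 u.2) ?_ ?_
  · rintro ⟨m, n⟩ h
    simp only [mem_filter, mem_product, mem_Icc] at h
    obtain ⟨u, hu⟩ := par m n h.1.1.1 h.1.2.1 h.2
    exact ⟨_, (Set.Finite.mem_toFinset _).2 (Mx_mem hu L (by omega)), u, hu, rfl⟩
  · rintro M - ⟨m, n⟩ ⟨-, u, hu, h1⟩ ⟨m', n'⟩ ⟨-, u', hu', h2⟩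
    obtain ⟨a1, a2, -⟩ := Mx_inj u.1.toNat _ _ _ _ _ _ _ _ (Int.self_le_toNat _) hu hu'
      (h1.symm.trans h2)
    simp only [Prod.mk.injEq] at a1 a2 ⊢
    omega

lemma gk : (250000000000 : ℝ) ≤ GK [1] / GK [1000000] := by
  have e1 : GK [1] = Real.log (4 / 3) / Real.log 2 := by
    simp only [GK, cf, Real.logb, List.dropLast, List.getLastD, List.getLast, List.nil_append]
    norm_num
  have e2 : GK [1000000] = Real.log (1000002000001 / 1000002000000) / Real.log 2 := by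
    simp only [GK, cf, Real.logb, List.dropLast, List.getLastD, List.getLast, List.nil_append]
    norm_num
  have l2 : 0 < Real.log 2 := Real.log_pos (by norm_num)
  have a1 : 0 < Real.log (1000002000001 / 1000002000000) := Real.log_pos (by norm_num)
  have a2 := Real.log_le_sub_one_of_pos (x := 1000002000001 / 1000002000000) (by norm_num)
  have a3 := Real.one_sub_inv_le_log_of_pos (x := 4 / 3) (by norm_num)
  rw [e1, e2, div_div_div_cancel_right₀ l2.ne', le_div_iff₀ a1]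
  norm_num at a2 a3 ⊢
  linarith

theorem main : ¬ Filter.Tendsto
    (fun N : ℕ => (cnt [1, 1000000] N : ℝ) / cnt [1000000, 1] N) Filter.atTop
      (nhds (GK [1] / GK [1000000])) := by
  intro h
  have h1 := h.eventually (lt_mem_nhds (show (100000000000 : ℝ) < _ by linarith [gk]))
  obtain ⟨N, hN⟩ := Filter.eventually_atTop.1 h1
  have h2 := hN (18000000 * (N + 400) ^ 2) (by nlinarith)
  have h3 := upper (N + 400) (by omega)
  have h4 := lower (N + 400) (by omega)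
  set a := cnt [1, 1000000] (18000000 * (N + 400) ^ 2)
  set b := cnt [1000000, 1] (18000000 * (N + 400) ^ 2)
  have hb : 0 < b := by
    have : 0 < (N + 400) ^ 2 := by positivity
    omega
  rw [lt_div_iff₀ (by exact_mod_cast hb)] at h2
  have h5 : 100000000000 * b < a := by exact_mod_cast h2
  nlinarith

end Pool.Agent.H70.Kp
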