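import Mathlib

namespace Pool.Agent.H70.Kp

open Matrix

abbrev Mat := Matrix (Fin 2) (Fin 2) ℤ

/-- The finite regular continued fraction `[b1; b2 : ... : bk]`. -/
def cf : List ℕ → ℚ
  | [] => 0
  | [b] => b
  | b :: c :: l => b + 1 / cf (c :: l)

/-- `M_P`, the product of the matrices `M_a`. -/
def MP (P : List ℕ) : Mat := (P.map fun a : ℕ => (!![0, 1; 1, (a : ℤ)] : Mat)).prod

/-- The class of `P` is the LLS cycle of `M`: `M` is `GL(2,Z)`-conjugate to `M_P` or `-M_P`. -/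
def Cyc (P : List ℕ) (M : Mat) : Prop :=
  ∃ g : Mat, IsUnit g.det ∧ (g * M = MP P * g ∨ g * M = -(MP P * g))

/-- Step 1. -/
def step1 (M : Mat) : Mat := if M 1 0 < 0 then -M else M

/-- Step 2, with `k` the floor of `p / q`. -/
def step2 (M : Mat) : Mat :=
  !![1, -⌊(M 0 0 : ℚ) / M 1 0⌋; 0, 1] * M * !![1, ⌊(M 0 0 : ℚ) / M 1 0⌋; 0, 1]

/-- `Run true M R`: started at step 1 on `M` the algorithm returns `R`.
`Run false M R`: started at step 3 on `M` the algorithm returns `R`. -/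
inductive Run : Bool → Mat → Mat → Prop
  | start (M R : Mat) : Run false (step2 (step1 M)) R → Run true M R
  | a (M : Mat) : M 1 0 = 1 → Run false M M
  | b (M : Mat) : 1 < M 1 0 → M 1 0 < M 1 1 → Run false M M
  | c (M R : Mat) : 1 < M 1 0 → M 1 1 < -M 1 0 →
      Run false (-(!![-1, 1; 0, 1] * M * !![-1, 1; 0, 1])) R → Run false M R
  | d (M R : Mat) : 1 < M 1 0 → |M 1 1| < M 1 0 →
      Run true !![M 1 1, M 1 0; M 0 1, M 0 0] R → Run false M R

/-- The condition on the first column of the output. -/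
def Col (P : List ℕ) (R : Mat) : Prop :=
  if P.length = 2 ∧ P.head? = some 1 then R 0 0 = 0 ∧ R 1 0 = 1
  else (R 1 0 : ℚ) / R 0 0 = cf P.dropLast

/-- The matrices counted by `#_N(P)`. -/
def S (P : List ℕ) (N : ℕ) : Set Mat :=
  {M | M.det = 1 ∧ (∀ i j, |M i j| ≤ N) ∧ Cyc P M ∧ ∃ R, Run true M R ∧ Col P R}

/-- `#_N(P)`. -/
noncomputable def cnt (P : List ℕ) (N : ℕ) : ℕ := (S P N).ncard

/-- `GK(Q)`; `gamma` has the last entry of `Q` raised by one. -/
noncomputable def GK (Q : List ℕ) : ℝ :=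
  Real.logb 2 ((cf (Q.dropLast ++ [Q.getLastD 0 + 1]) * (1 + cf Q) /
    (cf Q * (1 + cf (Q.dropLast ++ [Q.getLastD 0 + 1]))) : ℚ) : ℝ)

end Pool.Agent.H70.Kp
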