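import Mathlib

set_option autoImplicit false

namespace Pool.Agent.H70.Laws

open scoped commutatorElement

abbrev F2 := ZMod 2
abbrev C3 := Multiplicative (ZMod 3)

/-- The group `N ⋊ T` before dividing by the subgroup `Lam`. -/
@[ext] structure GH (T : Type) [Group T] (w : T) where
  a : T → F2
  M : T → F2
  t : T

section
variable {T : Type} [Group T] {w : T}

instance : Mul (GH T w) := ⟨fun p q => ⟨fun g => p.a g + q.a (p.t⁻¹ * g),
  fun g => p.M g + q.M (p.t⁻¹ * g) + p.a g * q.a (p.t⁻¹ * (g * w)), p.t * q.t⟩⟩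
instance : One (GH T w) := ⟨⟨fun _ => 0, fun _ => 0, 1⟩⟩
instance : Inv (GH T w) := ⟨fun p => ⟨fun g => - p.a (p.t * g),
  fun g => - p.M (p.t * g) + p.a (p.t * g) * p.a (p.t * (g * w)), p.t⁻¹⟩⟩

@[simp] theorem mul_a (p q : GH T w) (g : T) : (p * q).a g = p.a g + q.a (p.t⁻¹ * g) := rfl
@[simp] theorem mul_M (p q : GH T w) (g : T) : (p * q).M g =
  p.M g + q.M (p.t⁻¹ * g) + p.a g * q.a (p.t⁻¹ * (g * w)) := rfl
@[simp] theorem mul_t (p q : GH T w) : (p * q).t = p.t * q.t := rfl
@[simp] theorem one_a (g : T) : (1 : GH T w).a g = 0 := rfl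
@[simp] theorem one_M (g : T) : (1 : GH T w).M g = 0 := rfl
@[simp] theorem one_t : (1 : GH T w).t = 1 := rfl
@[simp] theorem inv_a (p : GH T w) (g : T) : (p⁻¹).a g = - p.a (p.t * g) := rfl
@[simp] theorem inv_M (p : GH T w) (g : T) : (p⁻¹).M g =
  - p.M (p.t * g) + p.a (p.t * g) * p.a (p.t * (g * w)) := rfl
@[simp] theorem inv_t (p : GH T w) : (p⁻¹).t = p.t⁻¹ := rfl

instance : Group (GH T w) := Group.ofLeftAxioms
  (fun p q r => by
    ext g
    · simp [mul_assoc, add_assoc]
    · simp [mul_assoc]; ring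
    · simp [mul_assoc])
  (fun p => by ext g <;> simp)
  (fun p => by
    ext g
    · simp [-ZMod.neg_eq_self_mod_two]
    · simp [-ZMod.neg_eq_self_mod_two]
    · simp)

/-- projection to `T` -/
def tau : GH T w →* T where
  toFun p := p.t
  map_one' := rfl
  map_mul' _ _ := rfl

/-- inclusion of `T` -/
def iota : T →* GH T w where
  toFun t := ⟨fun _ => 0, fun _ => 0, t⟩
  map_one' := rfl
  map_mul' _ _ := by ext g <;> simp

@[simp] theorem iota_a (t g : T) : (iota t : GH T w).a g = 0 := rfl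
@[simp] theorem iota_M (t g : T) : (iota t : GH T w).M g = 0 := rfl
@[simp] theorem iota_t (t : T) : (iota t : GH T w).t = t := rfl
@[simp] theorem tau_apply (p : GH T w) : tau p = p.t := rfl

theorem two (x : F2) : x + x = 0 := by revert x; decide
theorem sq2 (x : F2) : x * x = x := by revert x; decide
theorem neg2 (x : F2) : - x = x := by revert x; decide

theorem pow4 (p : GH T w) (h : p.t = 1) : p ^ 4 = 1 := by
  have : p ^ 4 = (p * p) * (p * p) := by simp [pow_succ, mul_assoc]
  rw [this]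
  ext g
  · simp [h, two]
  · simp [h, two]
  · simp [h]

theorem comm_a (p q : GH T w) (hp : p.t = 1) (hq : q.t = 1) (g : T) : (⁅p, q⁆).a g = 0 := by
  simp [commutatorElement_def, hp, hq, -ZMod.neg_eq_self_mod_two]

theorem comm_t (p q : GH T w) (hp : p.t = 1) (hq : q.t = 1) : (⁅p, q⁆).t = 1 := by
  simp [commutatorElement_def, hp, hq]

theorem comm_M (p q : GH T w) (hp : p.t = 1) (hq : q.t = 1) (g : T) :
    (⁅p, q⁆).M g = p.a g * q.a (g * w) + q.a g * p.a (g * w) := by
  simp only [commutatorElement_def, mul_M, mul_a, mul_t, inv_a, inv_M, inv_t, hp, hq, inv_one,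
    one_mul, mul_one, neg2]
  generalize p.a g = x1
  generalize q.a g = x2
  generalize p.a (g * w) = x3
  generalize q.a (g * w) = x4
  generalize p.M g = x5
  generalize q.M g = x6
  revert x1 x2 x3 x4 x5 x6
  decide

theorem conj_a (s n : GH T w) (hn : n.t = 1) (g : T) :
    (s * n * s⁻¹).a g = n.a (s.t⁻¹ * g) := by
  simp [hn, -ZMod.neg_eq_self_mod_two]

theorem conj_t (s n : GH T w) (hn : n.t = 1) : (s * n * s⁻¹).t = 1 := by
  simp [hn]

variable [Fintype T]

open Classical in
/-- the central subgroup that is divided out -/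
def Lam (w : T) (π : T →* C3) : Subgroup (GH T w) where
  carrier := {p | (∀ g, p.a g = 0) ∧ p.t = 1 ∧ ∃ E : T → F2, (∀ g, p.M g = E g + E (g * w)) ∧
    ∀ c, ∑ g, (if π g = c then E g else 0) = 0}
  one_mem' := ⟨fun _ => rfl, rfl, fun _ => 0, by simp, by simp⟩
  mul_mem' := by
    rintro p q ⟨h1, h2, E, h3, h4⟩ ⟨k1, k2, E', k3, k4⟩
    refine ⟨fun g => by simp [h1, k1], by simp [h2, k2], fun g => E g + E' g, fun g => ?_,
      fun c => ?_⟩
    · simp [h1, h2, h3, k3]; ring
    · have := congrArg₂ (· + ·) (h4 c) (k4 c)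
      simp only [← Finset.sum_add_distrib, add_zero] at this
      refine Eq.trans ?_ this
      refine Finset.sum_congr rfl fun g _ => ?_
      split_ifs <;> simp
  inv_mem' := by
    rintro p ⟨h1, h2, E, h3, h4⟩
    refine ⟨fun g => by simp [h1], by simp [h2], E, fun g => ?_, h4⟩
    simp [h1, h2, h3, neg2, add_comm]

instance (π : T →* C3) : (Lam w π).Normal := ⟨by
  classical
  rintro p ⟨h1, h2, E, h3, h4⟩ s
  refine ⟨fun g => by simp [h1, h2, -ZMod.neg_eq_self_mod_two], by simp [h2],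
    fun g => E (s.t⁻¹ * g), fun g => ?_, fun c => ?_⟩
  · simp [h1, h2, h3, mul_assoc, -ZMod.neg_eq_self_mod_two]
    ring
  · have := h4 ((π s.t)⁻¹ * c)
    refine Eq.trans ?_ this
    refine Fintype.sum_equiv (Equiv.mulLeft s.t⁻¹) _ _ fun g => ?_
    simp⟩

theorem good (π : T →* C3) (hw : w * w = 1) (hπ : π w = 1) (hc : ∀ g, g * w = w * g)
    (n s : GH T w) (hn : n.t = 1) (hs : ∀ g, g * s.t = s.t * g) (hs2 : s.t * s.t = 1)
    (hs1 : π s.t = 1) (hne : s.t ≠ w) : ⁅n, s * n * s⁻¹⁆ ∈ Lam w π := by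
  classical
  have hi : s.t⁻¹ = s.t := inv_eq_of_mul_eq_one_right hs2
  refine ⟨comm_a _ _ hn (conj_t _ _ hn), comm_t _ _ hn (conj_t _ _ hn),
    fun g => n.a g * n.a (s.t * (g * w)), fun g => ?_, fun c => ?_⟩
  · rw [comm_M _ _ hn (conj_t _ _ hn), conj_a _ _ hn, conj_a _ _ hn, hi]
    simp only [mul_assoc, hw, mul_one]
    ring
  · have hh : ∀ g, s.t * (s.t * (g * w) * w) = g := fun g => by
      rw [mul_assoc s.t, mul_assoc g, hw, mul_one, ← mul_assoc, hs2, one_mul]
    refine Finset.sum_involution (fun g _ => s.t * (g * w)) (fun g _ => ?_) (fun g _ _ h => ?_)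
      (fun _ _ => Finset.mem_univ _) (fun g _ => hh g)
    · simp only [map_mul, hs1, hπ, one_mul, mul_one, hh]
      split_ifs
      · rw [mul_comm]; exact two _
      · simp
    · apply hne
      rw [← mul_assoc, ← hs g, mul_assoc] at h
      have h2 : s.t * w = 1 := by simpa using h
      rw [← hi, inv_eq_of_mul_eq_one_right h2]

theorem bad (π : T →* C3) (hw : w * w = 1) (hπ : π w = 1) (hc : ∀ g, g * w = w * g)
    (hw1 : w ≠ 1) (n s : GH T w) (hn : n.t = 1) (hs : s.t = w)
    (hsum : ∑ g, (if π g = 1 then n.a g else 0) = 1) : ⁅n, s * n * s⁻¹⁆ ∉ Lam w π := by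
  classical
  rintro ⟨-, -, E, h3, h4⟩
  have hi : w⁻¹ = w := inv_eq_of_mul_eq_one_right hw
  have h5 : ∀ g, n.a g + E g = n.a (g * w) + E (g * w) := fun g => by
    have := h3 g
    rw [comm_M _ _ hn (conj_t _ _ hn), conj_a _ _ hn, conj_a _ _ hn, hs, hi, ← hc, ← hc,
      mul_assoc, hw, mul_one, sq2, sq2] at this
    revert this
    generalize n.a g = x1
    generalize n.a (g * w) = x2
    generalize E g = x3
    generalize E (g * w) = x4
    revert x1 x2 x3 x4
    decide
  have h6 : ∑ g, (if π g = 1 then n.a g + E g else 0) = 0 := by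
    refine Finset.sum_involution (fun g _ => g * w) (fun g _ => ?_) (fun g _ _ h => ?_)
      (fun _ _ => Finset.mem_univ _) (fun g _ => by simp [mul_assoc, hw])
    · simp only [map_mul, hπ, mul_one, ← h5]
      split_ifs
      · exact two _
      · simp
    · exact hw1 (by simpa using h)
  have h7 := congrArg₂ (· + ·) hsum (h4 1)
  simp only [← Finset.sum_add_distrib, add_zero] at h7
  have h8 : ∑ g, (if π g = 1 then n.a g + E g else 0) = 1 := by
    refine Eq.trans ?_ h7
    refine Finset.sum_congr rfl fun g _ => ?_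
    split_ifs <;> simp
  rw [h6] at h8
  exact zero_ne_one h8

end

end Pool.Agent.H70.Laws
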