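import Pool.Agent.H70.Laws1

set_option autoImplicit false

namespace Pool.Agent.H70.Laws

open scoped commutatorElement

/-- The class two group with centre the `d × d` matrices, times `C3`. -/
@[ext] structure TT (d : ℕ) where
  x : Fin d → F2
  y : Fin d → F2
  M : Fin d → Fin d → F2
  c : ZMod 3

variable {d : ℕ}

instance : Mul (TT d) := ⟨fun p q => ⟨fun i => p.x i + q.x i, fun i => p.y i + q.y i,
  fun i j => p.M i j + q.M i j + p.x i * q.y j, p.c + q.c⟩⟩
instance : One (TT d) := ⟨⟨fun _ => 0, fun _ => 0, fun _ _ => 0, 0⟩⟩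
instance : Inv (TT d) := ⟨fun p => ⟨fun i => - p.x i, fun i => - p.y i,
  fun i j => - p.M i j + p.x i * p.y j, - p.c⟩⟩

@[simp] theorem tmul_x (p q : TT d) (i : Fin d) : (p * q).x i = p.x i + q.x i := rfl
@[simp] theorem tmul_y (p q : TT d) (i : Fin d) : (p * q).y i = p.y i + q.y i := rfl
@[simp] theorem tmul_M (p q : TT d) (i j : Fin d) :
  (p * q).M i j = p.M i j + q.M i j + p.x i * q.y j := rfl
@[simp] theorem tmul_c (p q : TT d) : (p * q).c = p.c + q.c := rfl
@[simp] theorem tone_x (i : Fin d) : (1 : TT d).x i = 0 := rfl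
@[simp] theorem tone_y (i : Fin d) : (1 : TT d).y i = 0 := rfl
@[simp] theorem tone_M (i j : Fin d) : (1 : TT d).M i j = 0 := rfl
@[simp] theorem tone_c : (1 : TT d).c = 0 := rfl
@[simp] theorem tinv_x (p : TT d) (i : Fin d) : (p⁻¹).x i = - p.x i := rfl
@[simp] theorem tinv_y (p : TT d) (i : Fin d) : (p⁻¹).y i = - p.y i := rfl
@[simp] theorem tinv_M (p : TT d) (i j : Fin d) :
  (p⁻¹).M i j = - p.M i j + p.x i * p.y j := rfl
@[simp] theorem tinv_c (p : TT d) : (p⁻¹).c = - p.c := rfl

instance : Group (TT d) := Group.ofLeftAxioms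
  (fun p q r => by
    ext i j
    · simp [add_assoc]
    · simp [add_assoc]
    · simp; ring
    · simp [add_assoc])
  (fun p => by ext i j <;> simp)
  (fun p => by ext i j <;> simp [-ZMod.neg_eq_self_mod_two])

instance : Finite (TT d) :=
  Finite.of_injective (fun p : TT d => (p.x, p.y, p.M, p.c)) (by
    intro p q h
    simp only [Prod.mk.injEq] at h
    exact TT.ext h.1 h.2.1 h.2.2.1 h.2.2.2)

noncomputable instance : Fintype (TT d) := Fintype.ofFinite _

/-- projection to `C3` -/
def piT : TT d →* C3 where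
  toFun p := Multiplicative.ofAdd p.c
  map_one' := rfl
  map_mul' _ _ := rfl

theorem piT_eq_one (p : TT d) : piT p = 1 ↔ p.c = 0 := Iff.rfl

theorem tpow4 (p : TT d) : p ^ 4 = ⟨fun _ => 0, fun _ => 0, fun _ _ => 0, p.c⟩ := by
  have : p ^ 4 = (p * p) * (p * p) := by simp [pow_succ, mul_assoc]
  rw [this]
  ext i j
  · simp [two]
  · simp [two]
  · simp [two]
  · simp only [tmul_c]
    generalize p.c = z
    revert z; decide

theorem tpow16 (p : TT d) : p ^ 16 = ⟨fun _ => 0, fun _ => 0, fun _ _ => 0, p.c⟩ := by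
  rw [show 16 = 4 * 4 from rfl, pow_mul, tpow4, tpow4]

theorem central (p : TT d) (hx : ∀ i, p.x i = 0) (hy : ∀ i, p.y i = 0) (g : TT d) :
    g * p = p * g := by
  ext i j <;> simp [hx, hy, add_comm]

/-- the distinguished central involution -/
def w0 (d : ℕ) : TT d := ⟨fun _ => 0, fun _ => 0, fun i j => if i = j then 1 else 0, 0⟩
/-- the generator of order three -/
def t0 (d : ℕ) : TT d := ⟨fun _ => 0, fun _ => 0, fun _ _ => 0, 1⟩

theorem w0_sq : w0 d * w0 d = 1 := by
  ext i j <;> simp [w0, two]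

theorem w0_c (g : TT d) : g * w0 d = w0 d * g := central _ (fun _ => rfl) (fun _ => rfl) g

theorem w0_ne (hd : 0 < d) : w0 d ≠ 1 := fun h => by
  have := congrArg (fun p : TT d => p.M ⟨0, hd⟩ ⟨0, hd⟩) h
  simp [w0] at this

/-- product of commutators -/
def sprod {G : Type} [Group G] (f : ℕ → G) : ℕ → G
  | 0 => 1
  | k + 1 => sprod f k * ⁅f (2 * k + 2), f (2 * k + 3)⁆

/-- the words -/
def ev {G : Type} [Group G] (m : ℕ) (f : ℕ → G) : G :=
  ⁅⁅f 0, f 1 ^ 16⁆, sprod f m * ⁅f 0, f 1 ^ 16⁆ * (sprod f m)⁻¹⁆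

theorem map_sprod {G K : Type} [Group G] [Group K] (φ : G →* K) (f : ℕ → G) (m : ℕ) :
    φ (sprod f m) = sprod (fun i => φ (f i)) m := by
  induction m with
  | zero => simp [sprod]
  | succ k ih => simp [sprod, ih, map_commutatorElement]

theorem map_ev {G K : Type} [Group G] [Group K] (φ : G →* K) (f : ℕ → G) (m : ℕ) :
    φ (ev m f) = ev m (fun i => φ (f i)) := by
  simp [ev, map_commutatorElement, map_sprod]

/-- elements killed by a row vector -/
def Txi (ξ : Fin d → F2) : Subgroup (TT d) where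
  carrier := {p | ∑ i, ξ i * p.x i = 0}
  one_mem' := by simp
  mul_mem' := by
    intro p q hp hq
    simp only [Set.mem_setOf_eq, tmul_x, mul_add, Finset.sum_add_distrib] at *
    rw [hp, hq, add_zero]
  inv_mem' := by
    intro p hp
    simpa using hp

theorem sprod_xi (ξ : Fin d → F2) (f : ℕ → TT d) (hf : ∀ i, f i ∈ Txi ξ) (m : ℕ) :
    (∀ i, (sprod f m).x i = 0) ∧ (∀ i, (sprod f m).y i = 0) ∧ (sprod f m).c = 0 ∧
      ∀ j, ∑ i, ξ i * (sprod f m).M i j = 0 := by
  induction m with
  | zero => simp [sprod]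
  | succ k ih =>
    obtain ⟨h1, h2, h3, h4⟩ := ih
    refine ⟨fun i => ?_, fun i => ?_, ?_, fun j => ?_⟩
    · simp [sprod, commutatorElement_def, h1, -ZMod.neg_eq_self_mod_two]
    · simp [sprod, commutatorElement_def, h2, -ZMod.neg_eq_self_mod_two]
    · simp [sprod, commutatorElement_def, h3]
    · have a1 : ∑ i, ξ i * (f (2 * k + 2)).x i = 0 := hf _
      have a2 : ∑ i, ξ i * (f (2 * k + 3)).x i = 0 := hf _
      have : ∀ i, ξ i * (sprod f (k + 1)).M i j = ξ i * (sprod f k).M i j +
          (ξ i * (f (2 * k + 2)).x i) * (f (2 * k + 3)).y j -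
          (ξ i * (f (2 * k + 3)).x i) * (f (2 * k + 2)).y j := fun i => by
        simp [sprod, commutatorElement_def, h1, -ZMod.neg_eq_self_mod_two]
        ring
      simp only [this, Finset.sum_sub_distrib, Finset.sum_add_distrib, ← Finset.sum_mul, a1, a2,
        h4]
      simp

/-- The test group. -/
abbrev Gam (d : ℕ) := GH (TT d) (w0 d) ⧸ Lam (w0 d) piT

/-- projection of the test group -/
noncomputable def tb : Gam d →* TT d := QuotientGroup.lift _ tau (fun _ h => h.2.1)

theorem tb_mk (p : GH (TT d) (w0 d)) : tb (QuotientGroup.mk p : Gam d) = p.t := rfl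

theorem gam_exp (g : Gam d) (h : piT (tb g) = 1) : g ^ 16 = 1 := by
  obtain ⟨p, rfl⟩ := QuotientGroup.mk_surjective g
  rw [tb_mk, piT_eq_one] at h
  rw [← QuotientGroup.mk_pow, show 16 = 4 * 4 from rfl, pow_mul, pow4]
  · rfl
  · have : (p ^ 4).t = p.t ^ 4 := map_pow tau p 4
    rw [this, tpow4, h]; rfl

theorem n_t (y u : GH (TT d) (w0 d)) : (⁅y, u ^ 16⁆).t = 1 := by
  have : (⁅y, u ^ 16⁆).t = ⁅y.t, u.t ^ 16⁆ := by
    have := map_commutatorElement tau y (u ^ 16)
    rw [map_pow] at this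
    exact this
  rw [this, commutatorElement_eq_one_iff_mul_comm, tpow16]
  exact central _ (fun _ => rfl) (fun _ => rfl) _

theorem gam_good (ξ : Fin d → F2) (hξ : ξ ≠ 0) (f : ℕ → Gam d) (hf : ∀ i, tb (f i) ∈ Txi ξ)
    (m : ℕ) : ev m f = 1 := by
  choose p hp using fun i => QuotientGroup.mk_surjective (f i)
  have e : f = fun i => QuotientGroup.mk' _ (p i) := funext fun i => (hp i).symm
  rw [e, ← map_ev, QuotientGroup.mk'_apply, QuotientGroup.eq_one_iff]
  have hs : (sprod p m).t = sprod (fun i => (p i).t) m := map_sprod tau p m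
  obtain ⟨h1, h2, h3, h4⟩ := sprod_xi ξ (fun i => (p i).t)
    (fun i => by have := hf i; rwa [← hp i] at this) m
  rw [← hs] at h1 h2 h3 h4
  unfold ev
  have hn := n_t (p 0) (p 1)
  have hc := central _ h1 h2
  have h5 := (piT_eq_one _).2 h3
  have h6 : piT (w0 d) = 1 := rfl
  generalize ⁅p 0, p 1 ^ 16⁆ = n at hn
  generalize sprod p m = s at h1 h2 h3 h4 hc h5
  refine good piT w0_sq h6 w0_c n s hn hc ?_ h5 ?_
  · ext i j <;> simp [h1, h2, h3, two]
  · intro h
    apply hξ
    funext j
    have := h4 j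
    rw [h] at this
    simpa [w0] using this

/-- the bad substitution -/
def fb (d : ℕ) (n : ℕ) : TT d :=
  if n % 2 = 0 then ⟨fun i => if 2 * i.val + 2 = n then 1 else 0, fun _ => 0, fun _ _ => 0, 0⟩
  else ⟨fun _ => 0, fun i => if 2 * i.val + 3 = n then 1 else 0, fun _ _ => 0, 0⟩

theorem sprod_fb (k : ℕ) : sprod (fb d) k =
    ⟨fun _ => 0, fun _ => 0, fun i j => if i = j ∧ i.val < k then 1 else 0, 0⟩ := by
  induction k with
  | zero => ext i j <;> simp [sprod]
  | succ k ih =>
    have e1 : (2 * k + 2) % 2 = 0 := by omega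
    have e2 : ¬ (2 * k + 3) % 2 = 0 := by omega
    rw [sprod, ih, fb, fb, if_pos e1, if_neg e2]
    ext i j
    · simp [commutatorElement_def, two]
    · simp [commutatorElement_def, two]
    · simp only [commutatorElement_def, tmul_M, tmul_x, tmul_y, tinv_M, tinv_x, tinv_y, neg2,
        Fin.ext_iff]
      split_ifs <;> first | decide | omega
    · simp [commutatorElement_def]

theorem gam_bad (hd : 0 < d) : ∃ f : ℕ → Gam d, ev d f ≠ 1 := by
  classical
  let p : ℕ → GH (TT d) (w0 d) := fun n => if n = 0 then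
    ⟨fun g => if g = 1 then 1 else 0, fun _ => 0, 1⟩ else if n = 1 then iota (t0 d)
    else iota (fb d n)
  refine ⟨fun i => QuotientGroup.mk' _ (p i), ?_⟩
  rw [← map_ev, QuotientGroup.mk'_apply, Ne, QuotientGroup.eq_one_iff]
  refine bad piT w0_sq rfl w0_c (w0_ne hd) _ _ (n_t _ _) ?_ ?_
  · have hs : ∀ m, (sprod p m).t = sprod (fb d) m := fun m => by
      induction m with
      | zero => rfl
      | succ k ih =>
        have := map_commutatorElement tau (p (2 * k + 2)) (p (2 * k + 3))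
        simp only [tau_apply] at this
        simp only [sprod, mul_t, ih, this]
        simp [p]
    rw [hs, sprod_fb]
    ext i j <;> simp [w0]
  · have e : p 1 ^ 16 = iota (t0 d) := by
      simp only [p, one_ne_zero, if_false, if_true]
      rw [← map_pow, tpow16]; rfl
    rw [e, Finset.sum_eq_single 1]
    · have : (t0 d)⁻¹ ≠ 1 := fun h => by
        have := congrArg TT.c h
        simp [t0] at this
      simp [commutatorElement_def, p, this]
    · intro g _ hg
      split_ifs with h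
      · have : (t0 d)⁻¹ * g ≠ 1 := fun h2 => by
          have h3 := congrArg TT.c h2
          rw [piT_eq_one] at h
          simp [t0, h] at h3
        simp [commutatorElement_def, p, this, hg]
      · rfl
    · simp

theorem exists_xi (n : ℕ) (v : Fin n → Fin (n + 1) → F2) :
    ∃ ξ : Fin (n + 1) → F2, ξ ≠ 0 ∧ ∀ k, ∑ i, ξ i * v k i = 0 := by
  let L : (Fin (n + 1) → F2) →ₗ[F2] (Fin n → F2) := Matrix.mulVecLin (Matrix.of v)
  have : LinearMap.ker L ≠ ⊥ := LinearMap.ker_ne_bot_of_finrank_lt (by simp)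
  obtain ⟨ξ, h1, h2⟩ := Submodule.exists_mem_ne_zero_of_ne_bot this
  refine ⟨ξ, h2, fun k => ?_⟩
  have := congrFun h1 k
  simpa [L, Matrix.mulVec, dotProduct, mul_comm] using this

end Pool.Agent.H70.Laws
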