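import Mathlib

set_option autoImplicit false

namespace Pool.Agent.H70.Leavitt

theorem leavitt {R M : Type} [Ring R] [AddCommGroup M] [Module R M] (lam : M) (h0 : lam ≠ 0)
    (P Q : Fin 2 → M →ₗ[R] M)
    (hPQ : ∀ i j f, P i (Q j f) = if i = j then f else 0)
    (hQP : ∀ f, Q 0 (P 0 f) + Q 1 (P 1 f) = f)
    (hP : ∀ i, ∃ r : R, P i lam = r • lam) (hQ : ∀ i, ∃ r : R, Q i lam = r • lam) :
    ∃ (V : Type) (_ : AddCommGroup V) (_ : Module R V), Nontrivial V ∧
      (∃ v : V, Submodule.span R {v} = ⊤) ∧ Nonempty (V ≃ₗ[R] (V × V)) := by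
  let V := Submodule.span R {lam}
  have key : ∀ T : M →ₗ[R] M, (∃ r : R, T lam = r • lam) → ∀ x ∈ V, T x ∈ V := by
    rintro T ⟨r, hr⟩ x hx
    obtain ⟨s, rfl⟩ := Submodule.mem_span_singleton.1 hx
    rw [map_smul, hr]
    exact V.smul_mem _ (V.smul_mem _ (Submodule.mem_span_singleton_self _))
  refine ⟨V, inferInstance, inferInstance,
    ⟨⟨⟨lam, Submodule.mem_span_singleton_self _⟩, 0, fun h => h0 (congrArg Subtype.val h)⟩⟩,
    ⟨⟨lam, Submodule.mem_span_singleton_self _⟩, ?_⟩, ⟨?_⟩⟩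
  · rw [eq_top_iff]
    rintro ⟨x, hx⟩ _
    obtain ⟨s, rfl⟩ := Submodule.mem_span_singleton.1 hx
    exact Submodule.mem_span_singleton.2 ⟨s, rfl⟩
  · refine LinearEquiv.ofLinear
      (LinearMap.prod ((P 0).restrict (key _ (hP 0))) ((P 1).restrict (key _ (hP 1))))
      (LinearMap.coprod ((Q 0).restrict (key _ (hQ 0))) ((Q 1).restrict (key _ (hQ 1)))) ?_ ?_
    · apply LinearMap.ext
      rintro ⟨x, y⟩
      ext <;> simp [hPQ]
    · apply LinearMap.ext
      intro x
      ext
      simp [hQP]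

abbrev C := Bool × Fin 2
abbrev Om := Set (ℤ × C) × ℤ × ℕ
abbrev F := Om → ℤ
abbrev E := Module.End ℤ F

open Classical in
noncomputable def X (c : C) (j : ℤ) : E where
  toFun f w := if (w.2.1 + j, c) ∈ w.1 then 0 else f (insert (w.2.1 + j, c) w.1, w.2)
  map_add' f g := by funext w; simp only [Pi.add_apply]; split_ifs <;> simp
  map_smul' r f := by funext w; simp only [Pi.smul_apply]; split_ifs <;> simp

open Classical in
theorem X_apply (c : C) (j : ℤ) (f : F) (w : Om) :
    X c j f w = if (w.2.1 + j, c) ∈ w.1 then 0 else f (insert (w.2.1 + j, c) w.1, w.2) := rfl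

theorem X_pos {c : C} {j : ℤ} (f : F) {w : Om} (h : (w.2.1 + j, c) ∈ w.1) : X c j f w = 0 := by
  rw [X_apply, if_pos h]

theorem X_neg {c : C} {j : ℤ} (f : F) {w : Om} (h : (w.2.1 + j, c) ∉ w.1) :
    X c j f w = f (insert (w.2.1 + j, c) w.1, w.2) := by
  rw [X_apply, if_neg h]

theorem X_sq (c : C) (j : ℤ) : X c j * X c j = 0 := by
  ext f w
  simp [X_apply]

theorem X_comm (c d : C) (j l : ℤ) : Commute (X c j) (X d l) := by
  ext f w
  simp only [Module.End.mul_apply]
  by_cases h : (w.2.1 + j, c) = (w.2.1 + l, d)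
  · obtain ⟨h1, rfl⟩ := Prod.ext_iff.1 h
    obtain rfl : j = l := by simpa using h1
    rfl
  · have h' := Ne.symm h
    by_cases h1 : (w.2.1 + j, c) ∈ w.1 <;> by_cases h2 : (w.2.1 + l, d) ∈ w.1
    · rw [X_pos _ h1, X_pos _ h2]
    · rw [X_pos _ h1, X_neg _ h2, X_pos _ (by exact Or.inr h1)]
    · rw [X_neg _ h1, X_pos _ h2, X_pos _ (by exact Or.inr h2)]
    · rw [X_neg _ h1, X_neg _ h2, X_neg _ (by exact fun e => Or.elim e h' h2),
        X_neg _ (by exact fun e => Or.elim e h h1), Set.insert_comm]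

def S (n : ℤ) : E where
  toFun f w := f (w.1, w.2.1 + n, w.2.2)
  map_add' _ _ := rfl
  map_smul' _ _ := rfl

theorem S_apply (n : ℤ) (f : F) (w : Om) : S n f w = f (w.1, w.2.1 + n, w.2.2) := rfl

theorem S_add (n m : ℤ) : S (n + m) = S n * S m := by
  ext f w
  simp [S_apply, add_assoc]

theorem S_zero : S 0 = 1 := by
  ext f w
  simp [S_apply]

theorem S_X (n : ℤ) (c : C) (j : ℤ) : S n * X c j = X c (n + j) * S n := by
  ext f w
  simp only [Module.End.mul_apply, S_apply]
  by_cases h : (w.2.1 + (n + j), c) ∈ w.1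
  · rw [X_pos _ h, X_pos _ (by simpa [add_assoc] using h)]
  · rw [X_neg _ h, X_neg _ (by simpa [add_assoc] using h)]
    simp [S_apply, add_assoc]

def T (n : ℤ) : Eˣ :=
  ⟨S n, S (-n), by rw [← S_add]; simp [S_zero], by rw [← S_add]; simp [S_zero]⟩

noncomputable def a (c : C) (j : ℤ) : Eˣ :=
  ⟨1 + X c j, 1 - X c j, by rw [add_mul, mul_sub, mul_sub, X_sq]; simp,
    by rw [sub_mul, mul_add, mul_add, X_sq]; simp⟩

theorem T_add (n m : ℤ) : T (n + m) = T n * T m := Units.ext (S_add n m)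
theorem T_zero : T 0 = 1 := Units.ext S_zero
theorem T_neg (n : ℤ) : T (-n) = (T n)⁻¹ := Units.ext rfl

theorem T_a (n : ℤ) (c : C) (j : ℤ) : T n * a c j * (T n)⁻¹ = a c (n + j) := by
  rw [mul_inv_eq_iff_eq_mul]
  apply Units.ext
  show S n * (1 + X c j) = (1 + X c (n + j)) * S n
  rw [mul_add, add_mul, S_X]; simp

noncomputable def A : Subgroup Eˣ := Subgroup.closure (Set.range fun p : C × ℤ => a p.1 p.2)

theorem A_conj (n : ℤ) (b : Eˣ) (hb : b ∈ A) : T n * b * (T n)⁻¹ ∈ A := by
  induction hb using Subgroup.closure_induction with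
  | mem x hx =>
    obtain ⟨p, rfl⟩ := hx
    rw [T_a]
    exact Subgroup.subset_closure ⟨(p.1, n + p.2), rfl⟩
  | one => simpa using A.one_mem
  | mul x y _ _ hx hy =>
    have := A.mul_mem hx hy
    simpa [mul_assoc] using this
  | inv x _ hx =>
    have := A.inv_mem hx
    simpa [mul_assoc] using this

theorem A_comm (x y : Eˣ) (hx : x ∈ A) (hy : y ∈ A) : Commute x y := by
  induction hx using Subgroup.closure_induction with
  | mem x hx =>
    induction hy using Subgroup.closure_induction with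
    | mem y hy =>
      obtain ⟨p, rfl⟩ := hx
      obtain ⟨q, rfl⟩ := hy
      apply Units.ext
      exact (Commute.one_left _).add_left ((Commute.one_right _).add_right (X_comm _ _ _ _))
    | one => exact Commute.one_right _
    | mul y z _ _ hy hz => exact hy.mul_right hz
    | inv y _ hy => exact hy.inv_right
  | one => exact Commute.one_left _
  | mul x z _ _ hx hz => exact hx.mul_left hz
  | inv x _ hx => exact hx.inv_left

noncomputable def G : Subgroup Eˣ := Subgroup.closure (insert (T 1) (Set.range fun c : C => a c 0))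

theorem G_fg : Group.FG G := by
  have : Finite (insert (T 1) (Set.range fun c : C => a c 0) : Set Eˣ) :=
    ((Set.finite_range _).insert _).to_subtype
  exact Group.closure_finite_fg _

theorem G_form (g : Eˣ) (hg : g ∈ G) : ∃ b ∈ A, ∃ n, g = b * T n := by
  induction hg using Subgroup.closure_induction with
  | mem x hx =>
    rcases hx with rfl | ⟨c, rfl⟩
    · exact ⟨1, A.one_mem, 1, by simp⟩
    · exact ⟨a c 0, Subgroup.subset_closure ⟨(c, 0), rfl⟩, 0, by simp [T_zero]⟩
  | one => exact ⟨1, A.one_mem, 0, by simp [T_zero]⟩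
  | mul x y _ _ hx hy =>
    obtain ⟨b, hb, n, rfl⟩ := hx
    obtain ⟨d, hd, m, rfl⟩ := hy
    exact ⟨b * (T n * d * (T n)⁻¹), A.mul_mem hb (A_conj n d hd), n + m, by
      rw [T_add]; group⟩
  | inv x _ hx =>
    obtain ⟨b, hb, n, rfl⟩ := hx
    exact ⟨T (-n) * b⁻¹ * (T (-n))⁻¹, A_conj _ _ (A.inv_mem hb), -n, by
      rw [T_neg]; group⟩

theorem G_metab : derivedSeries G 2 = ⊥ := by
  have h1 : derivedSeries G 1 ≤ A.comap G.subtype := by
    rw [derivedSeries_succ, Subgroup.commutator_le]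
    rintro ⟨g, hg⟩ _ ⟨h, hh⟩ _
    obtain ⟨b, hb, n, rfl⟩ := G_form g hg
    obtain ⟨d, hd, m, rfl⟩ := G_form h hh
    show b * T n * (d * T m) * (b * T n)⁻¹ * (d * T m)⁻¹ ∈ A
    have e : T n * T m = T m * T n := by rw [← T_add, ← T_add, add_comm]
    have : b * T n * (d * T m) * (b * T n)⁻¹ * (d * T m)⁻¹ =
        b * (T n * d * (T n)⁻¹) * (T m * b⁻¹ * (T m)⁻¹) * d⁻¹ := by
      have e2 : T m * (T n)⁻¹ = (T n)⁻¹ * T m := by
        rw [mul_inv_eq_iff_eq_mul, mul_assoc, ← e]; group
      calc _ = b * T n * d * (T m * (T n)⁻¹) * b⁻¹ * (T m)⁻¹ * d⁻¹ := by group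
        _ = _ := by rw [e2]; group
    rw [this]
    exact A.mul_mem (A.mul_mem (A.mul_mem hb (A_conj _ _ hd)) (A_conj _ _ (A.inv_mem hb)))
      (A.inv_mem hd)
  rw [derivedSeries_succ, eq_bot_iff, Subgroup.commutator_le]
  intro g hg h hh
  rw [Subgroup.mem_bot, commutatorElement_eq_one_iff_commute]
  exact Subtype.ext (A_comm _ _ (h1 hg) (h1 hh))

def P (i : Fin 2) : E where
  toFun f w := f (w.1, w.2.1, 2 * w.2.2 + i)
  map_add' _ _ := rfl
  map_smul' _ _ := rfl

def Q (i : Fin 2) : E where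
  toFun f w := if w.2.2 % 2 = i then f (w.1, w.2.1, w.2.2 / 2) else 0
  map_add' f g := by funext w; simp only [Pi.add_apply]; split_ifs <;> simp
  map_smul' r f := by funext w; simp only [Pi.smul_apply]; split_ifs <;> simp

theorem P_apply (i : Fin 2) (f : F) (w : Om) : P i f w = f (w.1, w.2.1, 2 * w.2.2 + i) := rfl
theorem Q_apply (i : Fin 2) (f : F) (w : Om) :
    Q i f w = if w.2.2 % 2 = i then f (w.1, w.2.1, w.2.2 / 2) else 0 := rfl

theorem PQ (i j : Fin 2) (f : F) : P i (Q j f) = if i = j then f else 0 := by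
  funext w
  have hi := i.2
  have h1 : (2 * w.2.2 + i) % 2 = i := by omega
  have h2 : (2 * w.2.2 + i) / 2 = w.2.2 := by omega
  rw [P_apply, Q_apply]
  simp only [h1, h2, Fin.val_inj]
  split_ifs <;> rfl

theorem QP (f : F) : Q 0 (P 0 f) + Q 1 (P 1 f) = f := by
  funext w
  simp only [Pi.add_apply, Q_apply, P_apply]
  rcases Nat.mod_two_eq_zero_or_one w.2.2 with h | h
  · have : 2 * (w.2.2 / 2) = w.2.2 := by omega
    simp [h, this]
  · have : 2 * (w.2.2 / 2) + 1 = w.2.2 := by omega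
    simp [h, this]

noncomputable def phi : MonoidAlgebra ℤ G →ₐ[ℤ] E :=
  MonoidAlgebra.lift ℤ E G ((Units.coeHom E).comp G.subtype)

theorem phi_of (g : G) : phi (MonoidAlgebra.of ℤ G g) = (g.1 : E) := by
  simp [phi]

theorem comm_phi (U : E) (h1 : Commute (S 1) U) (h2 : ∀ c, Commute (X c 0) U)
    (r : MonoidAlgebra ℤ G) : Commute (phi r) U := by
  induction r using MonoidAlgebra.induction_on with
  | of g =>
    rw [phi_of]
    obtain ⟨g, hg⟩ := g
    induction hg using Subgroup.closure_induction with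
    | mem x hx =>
      rcases hx with rfl | ⟨c, rfl⟩
      · exact h1
      · exact (Commute.one_left _).add_left (h2 c)
    | one => exact Commute.one_left _
    | mul x y _ _ hx hy => exact hx.mul_left hy
    | inv x _ hx => exact Commute.units_inv_left hx
  | add x y hx hy => rw [map_add]; exact hx.add_left hy
  | smul r x hx => rw [map_smul]; exact hx.smul_left r

inductive Reach : Set (ℤ × C) → ℤ → ℕ → Prop
  | base : Reach ∅ 0 0
  | pop (S : Set (ℤ × C)) (k : ℤ) (z : ℕ) (i : Fin 2) :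
      Reach S k (2 * z + i) → Reach (insert (k, (true, i)) S) (k + 1) z
  | push (S : Set (ℤ × C)) (k : ℤ) (z : ℕ) (i : Fin 2) :
      Reach S k z → Reach (insert (k, (false, i)) S) (k + 1) (2 * z + i)

theorem Reach.lt {S : Set (ℤ × C)} {k : ℤ} {z : ℕ} (h : Reach S k z) : ∀ p ∈ S, p.1 < k := by
  induction h with
  | base => simp
  | pop S k z i _ ih =>
    rintro p (rfl | hp)
    · simp
    · have := ih p hp; omega
  | push S k z i _ ih =>
    rintro p (rfl | hp)
    · simp
    · have := ih p hp; omega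

theorem ins_eq {S S' : Set (ℤ × C)} {k : ℤ} {c c' : C} (h : (k, c) ∉ S)
    (h' : ∀ p ∈ S', p.1 < k) (e : insert (k, c') S' = insert (k, c) S) : c' = c ∧ S' = S := by
  have h1 : (k, c) ∈ insert (k, c') S' := by rw [e]; simp
  have h2 : c = c' := by
    rcases h1 with h1 | h1
    · exact (Prod.ext_iff.1 h1).2
    · exact absurd (h' _ h1) (lt_irrefl k)
  subst h2
  refine ⟨rfl, ?_⟩
  have h3 : (k, c) ∉ S' := fun h1 => absurd (h' _ h1) (lt_irrefl k)
  rw [← Set.insert_diff_self_of_notMem h3, e, Set.insert_diff_self_of_notMem h]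

theorem inv_step {S : Set (ℤ × C)} {k : ℤ} {c : C} {z : ℕ} (h : (k, c) ∉ S)
    (hr : Reach (insert (k, c) S) (k + 1) z) :
    (c.1 = true ∧ Reach S k (2 * z + c.2)) ∨ (c.1 = false ∧ z % 2 = c.2 ∧ Reach S k (z / 2)) := by
  generalize hS : insert (k, c) S = S0 at hr
  generalize hk : k + 1 = k0 at hr
  cases hr with
  | base => exact absurd hS (Set.insert_nonempty _ _).ne_empty
  | pop S' k' z i hr =>
    obtain rfl : k = k' := by omega
    obtain ⟨rfl, rfl⟩ := ins_eq h hr.lt hS.symm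
    exact Or.inl ⟨rfl, hr⟩
  | push S' k' z i hr =>
    obtain rfl : k = k' := by omega
    obtain ⟨rfl, rfl⟩ := ins_eq h hr.lt hS.symm
    have hi := i.2
    have h2 : (2 * z + i) / 2 = z := by omega
    refine Or.inr ⟨rfl, by simp only; omega, by rwa [h2]⟩

open Classical in
noncomputable def lam : F := fun w => if Reach w.1 w.2.1 w.2.2 then 1 else 0

theorem P_lam (i : Fin 2) : P i lam = X (true, i) 0 (S 1 lam) := by
  funext ⟨s, k, z⟩
  by_cases h : (k, (true, i)) ∈ s
  · rw [X_pos _ (by simpa using h), P_apply, lam, if_neg]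
    intro hr
    exact absurd (hr.lt _ h) (lt_irrefl k)
  · rw [X_neg _ (by simpa using h)]
    simp only [P_apply, S_apply, lam, add_zero]
    congr 1
    apply propext
    constructor
    · exact Reach.pop s k z i
    · intro hr
      rcases inv_step h hr with h1 | h1
      · exact h1.2
      · simp at h1

theorem Q_lam (i : Fin 2) : Q i lam = X (false, i) 0 (S 1 lam) := by
  funext ⟨s, k, z⟩
  by_cases h : (k, (false, i)) ∈ s
  · rw [X_pos _ (by simpa using h), Q_apply, lam, if_neg (c := Reach _ _ _)]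
    · simp
    intro hr
    exact absurd (hr.lt _ h) (lt_irrefl k)
  · rw [X_neg _ (by simpa using h)]
    simp only [Q_apply, S_apply, lam, add_zero]
    rw [← ite_and]
    congr 1
    apply propext
    constructor
    · rintro ⟨h1, h2⟩
      have := Reach.push s k (z / 2) i h2
      rwa [show 2 * (z / 2) + (i : ℕ) = z by omega] at this
    · intro hr
      rcases inv_step h hr with h1 | h1
      · simp at h1
      · exact h1.2

def M : Type := F
instance : AddCommGroup M := inferInstanceAs (AddCommGroup F)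
noncomputable instance : Module (MonoidAlgebra ℤ G) M := Module.compHom F phi.toRingHom

noncomputable def lin (U : E) (h1 : Commute (S 1) U) (h2 : ∀ c, Commute (X c 0) U) :
    M →ₗ[MonoidAlgebra ℤ G] M where
  toFun := U
  map_add' := map_add U
  map_smul' r f := (LinearMap.congr_fun (comm_phi U h1 h2 r).eq f).symm

theorem main : ∃ (V : Type) (_ : AddCommGroup V) (_ : Module (MonoidAlgebra ℤ G) V),
    Nontrivial V ∧ (∃ v : V, Submodule.span (MonoidAlgebra ℤ G) {v} = ⊤) ∧
    Nonempty (V ≃ₗ[MonoidAlgebra ℤ G] (V × V)) := by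
  have hx : ∀ c : C, ∃ r : MonoidAlgebra ℤ G, X c 0 (S 1 lam) = phi r lam := by
    intro c
    refine ⟨(MonoidAlgebra.of ℤ G ⟨a c 0, Subgroup.subset_closure (Or.inr ⟨c, rfl⟩)⟩ - 1) *
      MonoidAlgebra.of ℤ G ⟨T 1, Subgroup.subset_closure (Or.inl rfl)⟩, ?_⟩
    rw [map_mul, map_sub, phi_of, phi_of, map_one]
    show _ = ((1 + X c 0 - 1) * S 1) lam
    simp
  refine leavitt (M := M) lam ?_
    (fun i => lin (P i) rfl fun c => ?_) (fun i => lin (Q i) rfl fun c => ?_) PQ QP ?_ ?_
  · intro h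
    have := congrFun h (∅, 0, 0)
    simp [lam, Reach.base] at this
    exact absurd this one_ne_zero
  · ext f w
    simp only [Module.End.mul_apply, X_apply, P_apply]
  · ext f w
    simp only [Module.End.mul_apply, X_apply, Q_apply]
    split_ifs <;> rfl
  · intro i
    obtain ⟨r, hr⟩ := hx (true, i)
    exact ⟨r, (P_lam i).trans hr⟩
  · intro i
    obtain ⟨r, hr⟩ := hx (false, i)
    exact ⟨r, (Q_lam i).trans hr⟩

end Pool.Agent.H70.Leavitt
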