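import Pool.Agent.H70.OreDefs

namespace Pool.Agent.H70.Ore

open Matrix

section Gen

variable {S B : Type*} [Ring S] [Ring B] (ι : S →+* B) (x : B)

def G (d : ℕ) : AddSubgroup B := AddSubgroup.closure {b | ∃ s k, k ≤ d ∧ b = ι s * x ^ k}

variable {ι x}

theorem G_mono {d d' : ℕ} (h : d ≤ d') : G ι x d ≤ G ι x d' :=
  AddSubgroup.closure_mono fun _ ⟨s, k, a, b⟩ => ⟨s, k, a.trans h, b⟩

theorem G_gen (s : S) {k d : ℕ} (h : k ≤ d) : ι s * x ^ k ∈ G ι x d :=
  AddSubgroup.subset_closure ⟨s, k, h, rfl⟩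

theorem G_left {a : B} {d d' : ℕ} (h : ∀ s k, k ≤ d → a * (ι s * x ^ k) ∈ G ι x d') {b : B}
    (hb : b ∈ G ι x d) : a * b ∈ G ι x d' := by
  induction hb using AddSubgroup.closure_induction with
  | mem b hb => obtain ⟨s, k, h1, rfl⟩ := hb; exact h s k h1
  | zero => simp
  | add b c _ _ hb hc => rw [mul_add]; exact add_mem hb hc
  | neg b _ hb => rw [mul_neg]; exact neg_mem hb

theorem G_mul (hx : ∀ s, ∃ s' s'', x * ι s = ι s' * x + ι s'') {d d' : ℕ} {a b : B}
    (ha : a ∈ G ι x d) (hb : b ∈ G ι x d') : a * b ∈ G ι x (d + d') := by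
  have h1 : ∀ k, x ^ k * b ∈ G ι x (k + d') := fun k => by
    induction k with
    | zero => simpa
    | succ k ih =>
      rw [pow_succ', mul_assoc]
      refine G_left (fun s j hj => ?_) ih
      obtain ⟨s', s'', h⟩ := hx s
      rw [← mul_assoc, h, add_mul, mul_assoc, ← pow_succ']
      exact add_mem (G_gen _ (by omega)) (G_gen _ (by omega))
  induction ha using AddSubgroup.closure_induction with
  | mem a ha =>
    obtain ⟨s, k, h2, rfl⟩ := ha
    rw [mul_assoc]
    exact G_left (fun s' j hj => by rw [← mul_assoc, ← map_mul]; exact G_gen _ (by omega)) (h1 k)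
  | zero => simp
  | add b c _ _ hb hc => rw [add_mul]; exact add_mem hb hc
  | neg b _ hb => rw [neg_mul]; exact neg_mem hb

theorem G_ex {d : ℕ} {b : B} (hb : b ∈ G ι x d) :
    ∃ c : Fin (d + 1) → S, b = ∑ k, ι (c k) * x ^ (k : ℕ) := by
  induction hb using AddSubgroup.closure_induction with
  | mem b hb =>
    obtain ⟨s, k, h1, rfl⟩ := hb
    refine ⟨Pi.single ⟨k, by omega⟩ s, ?_⟩
    rw [Finset.sum_eq_single ⟨k, by omega⟩ (fun j _ hj => by simp [hj]) (by simp)]
    simp
  | zero => exact ⟨0, by simp⟩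
  | add b c _ _ hb hc =>
    obtain ⟨p, rfl⟩ := hb
    obtain ⟨q, rfl⟩ := hc
    exact ⟨p + q, by simp [add_mul, Finset.sum_add_distrib]⟩
  | neg b _ hb =>
    obtain ⟨p, rfl⟩ := hb
    exact ⟨-p, by simp⟩

variable (ι x) in
def Q (a b d : ℕ) : Prop :=
  ∃ M : Matrix (Fin a) (Fin b) B, (∀ i j, M i j ∈ G ι x d) ∧ ∀ v, v ᵥ* M = 0 → v = 0

theorem Q.comp (hx : ∀ s, ∃ s' s'', x * ι s = ι s' * x + ι s'') {a b c d d' : ℕ} :
    Q ι x a b d → Q ι x b c d' → Q ι x a c (d + d') := fun ⟨M, h1, h2⟩ ⟨N, h3, h4⟩ =>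
  ⟨M * N, fun _ _ => by rw [mul_apply]; exact sum_mem fun _ _ => G_mul hx (h1 _ _) (h3 _ _),
    fun v hv => h2 v (h4 _ (by rwa [vecMul_vecMul]))⟩

theorem Q.add {a b a' b' d : ℕ} : Q ι x a b d → Q ι x a' b' d → Q ι x (a + a') (b + b') d :=
  fun ⟨M, h1, h2⟩ ⟨N, h3, h4⟩ => by
    refine ⟨(fromBlocks M 0 0 N).submatrix finSumFinEquiv.symm finSumFinEquiv.symm, fun i j => ?_,
      fun v hv => ?_⟩
    · rw [submatrix_apply]
      rcases finSumFinEquiv.symm i with i | i <;> rcases finSumFinEquiv.symm j with j | j <;> simp [*]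
    · rw [submatrix_vecMul_equiv, vecMul_fromBlocks] at hv
      ext i
      obtain ⟨i | i, rfl⟩ := finSumFinEquiv.surjective i
      · exact congrFun (h2 _ (funext fun j => by
          simpa using congrFun hv (finSumFinEquiv (.inl j)))) i
      · exact congrFun (h4 _ (funext fun j => by
          simpa using congrFun hv (finSumFinEquiv (.inr j)))) i

theorem Q.one (a d : ℕ) : Q ι x a a d := ⟨1, fun i j => by
  rw [one_apply]
  split_ifs
  · simpa using G_gen (ι := ι) (x := x) 1 (Nat.zero_le d)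
  · exact zero_mem _, by simp⟩

theorem src (hι : Function.Injective ι) (hx : ∀ s, ∃ s' s'', x * ι s = ι s' * x + ι s'')
    (hB : ∀ b, ∃ d, b ∈ G ι x d) [StrongRankCondition S] : StrongRankCondition B := by
  refine (strongRankCondition_iff_succ B).2 fun n f hf => ?_
  obtain ⟨d, h1⟩ : ∃ d, Q ι x (n + 1) n d := by
    choose d hd using hB
    refine ⟨Finset.univ.sup fun p : Fin (n + 1) × Fin n => d (LinearMap.toMatrixRight' f p.1 p.2),
      LinearMap.toMatrixRight' f, fun i j => G_mono (Finset.le_sup (f := fun p : Fin (n + 1) × Fin n =>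
        d (LinearMap.toMatrixRight' f p.1 p.2)) (Finset.mem_univ (i, j))) (hd _), fun v hv => hf ?_⟩
    rw [← toLinearMapRight'_apply, ← LinearMap.toMatrixRight'.symm_apply_apply f] at *
    simpa using hv
  have h2 : ∀ t, Q ι x (n + 1 + t) n ((t + 1) * d) := fun t => by
    induction t with
    | zero => simpa
    | succ t ih =>
      have := (h1.add (Q.one (t + 1) d)).comp hx (by rwa [show n + (t + 1) = n + 1 + t by omega])
      rwa [show (t + 1 + 1) * d = d + (t + 1) * d by ring]
  have h3 : ∀ s, Q ι x (2 ^ s * (n + 1)) n (d + s * ((n + 1) * d)) := fun s => by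
    induction s with
    | zero => simpa
    | succ s ih =>
      have := (ih.add ih).comp hx ((Q.one (n + n) 0).comp hx (c := n) (d' := (n + 1) * d) (by
        rcases n with _ | n
        · exact Q.one _ _
        · obtain ⟨M, a, b⟩ := h2 n
          rw [show n + 1 + (n + 1) = n + 1 + 1 + n by omega]
          exact ⟨M, fun i j => G_mono (by nlinarith) (a i j), b⟩))
      convert this using 1 <;> ring
  have h4 : ∀ a d, Q ι x a n d → a ≤ n * (d + 1) := fun a d ⟨M, h1, h2⟩ => by
    choose c hc using fun i j => G_ex (h1 i j)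
    have := card_le_of_injective S (Matrix.toLinearMapRight'
      (of fun i (p : Fin n × Fin (d + 1)) => c i p.1 p.2)) ((injective_iff_map_eq_zero _).2 fun v hv => by
        have := h2 (fun i => ι (v i)) (funext fun j => by
          simp only [vecMul, dotProduct, hc, Finset.mul_sum, Pi.zero_apply]
          rw [Finset.sum_comm]
          refine Finset.sum_eq_zero fun k _ => ?_
          have h := congrArg (fun z => ι z * x ^ (k : ℕ)) (congrFun hv (j, k))
          simpa [vecMul, dotProduct, Finset.sum_mul, mul_assoc] using h)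
        exact funext fun i => hι (by simpa using congrFun this i))
    simpa using this
  have h5 := h4 _ _ (h3 (2 * ((n + 1) * d + 1)))
  have h6 := Nat.two_mul_sq_add_one_le_two_pow_two_mul ((n + 1) * d + 1)
  have h7 : d ≤ (n + 1) * d := by nlinarith
  generalize (n + 1) * d = D at *
  generalize 2 ^ (2 * (D + 1)) = P at *
  nlinarith

end Gen

variable {R A : Type*} [Ring R] [Ring A] {σ : R →+* R} {δ : R →+ R} {ι : R →+* A} {x : A}

theorem main (h : IsOre σ δ ι x) (hσ : Function.Surjective σ) [StrongRankCondition Rᵐᵒᵖ] :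
    StrongRankCondition Aᵐᵒᵖ := by
  have hx : ∀ s, ∃ s' s'', MulOpposite.op x * RingHom.op ι s =
      RingHom.op ι s' * MulOpposite.op x + RingHom.op ι s'' := fun s => by
    obtain ⟨r, hr⟩ := hσ s.unop
    refine ⟨.op r, .op (-δ r), MulOpposite.unop_injective ?_⟩
    simp [h.1, hr]
  refine src (ι := RingHom.op ι) (x := .op x) (fun r s hrs => MulOpposite.unop_injective
    (Finsupp.single_injective 0 (h.2.1 (by simpa using hrs)))) hx fun b => ?_
  obtain ⟨f, hf⟩ := h.2.2 b.unop
  refine ⟨f.support.sup id, ?_⟩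
  rw [← b.op_unop, ← hf]
  simp only [Finsupp.sum, Finset.op_sum]
  refine sum_mem fun i hi => G_mono (show i + 0 ≤ _ from Finset.le_sup (f := id) hi) ?_
  simpa using G_mul hx (G_gen 1 (le_refl i)) (G_gen (.op (f i)) (le_refl 0))

section Exist

variable (σ δ)

noncomputable def Lm : R →+* Module.End ℤ (ℕ →₀ R) where
  toFun r := (DistribSMul.toAddMonoidHom (ℕ →₀ R) r).toIntLinearMap
  map_one' := LinearMap.ext fun f => by simp
  map_mul' a b := LinearMap.ext fun f => by simp [mul_smul]
  map_zero' := LinearMap.ext fun f => by simp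
  map_add' a b := LinearMap.ext fun f => by simp [add_smul]

noncomputable def Xo : Module.End ℤ (ℕ →₀ R) :=
  (Finsupp.liftAddHom fun i => (Finsupp.singleAddHom (i + 1)).comp σ.toAddMonoidHom +
    (Finsupp.singleAddHom i).comp δ).toIntLinearMap

theorem Xo_single (i : ℕ) (r : R) :
    Xo σ δ (Finsupp.single i r) = Finsupp.single (i + 1) (σ r) + Finsupp.single i (δ r) := by
  simp [Xo]

noncomputable def ev : (ℕ →₀ R) →+ Module.End ℤ (ℕ →₀ R) :=
  Finsupp.liftAddHom fun i => (AddMonoidHom.mulRight (Xo σ δ ^ i)).comp (Lm (R := R)).toAddMonoidHom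

theorem ev_single (i : ℕ) (r : R) : ev σ δ (Finsupp.single i r) = Lm r * Xo σ δ ^ i := by simp [ev]

variable {σ δ} (hd : ∀ r s, δ (r * s) = δ r * s + σ r * δ s)
include hd

theorem rel (r : R) : Xo σ δ * Lm r = Lm (σ r) * Xo σ δ + Lm (δ r) := by
  ext i s : 2
  simp [Lm, Xo_single, hd, -Finsupp.single_mul]
  abel

theorem ev_one (f : ℕ →₀ R) : ev σ δ f (Finsupp.single 0 1) = f := by
  have h0 : δ 1 = 0 := by simpa using hd 1 1
  have h1 : ∀ i, (Xo σ δ ^ i) (Finsupp.single 0 1) = Finsupp.single i 1 := fun i => by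
    induction i with
    | zero => simp
    | succ i ih => simp [pow_succ', ih, Xo_single, h0]
  induction f using Finsupp.induction_linear with
  | zero => simp
  | add f g hf hg => simp [hf, hg]
  | single i r => simp [ev_single, h1, Lm]

noncomputable def Ag : Subring (Module.End ℤ (ℕ →₀ R)) :=
  { (ev σ δ).range with
    one_mem' := ⟨Finsupp.single 0 1, by simp [ev_single]⟩
    mul_mem' := by
      rintro _ _ ⟨f, rfl⟩ ⟨g, rfl⟩
      have h1 : ∀ g, Xo σ δ * ev σ δ g = ev σ δ (Xo σ δ g) := fun g => by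
        induction g using Finsupp.induction_linear with
        | zero => simp
        | add f g hf hg => simp [mul_add, hf, hg]
        | single i r => simp [ev_single, Xo_single, ← mul_assoc, rel hd, add_mul, pow_succ']
      have h2 : ∀ r g, Lm r * ev σ δ g = ev σ δ (r • g) := fun r g => by
        induction g using Finsupp.induction_linear with
        | zero => simp
        | add f g hf hg => simp [mul_add, hf, hg]
        | single i r => simp [ev_single, mul_assoc, -Finsupp.single_mul]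
      have h3 : ∀ i, Xo σ δ ^ i * ev σ δ g = ev σ δ ((Xo σ δ ^ i) g) := fun i => by
        induction i with
        | zero => simp
        | succ i ih => simp [pow_succ', mul_assoc, ih, h1]
      induction f using Finsupp.induction_linear with
      | zero => exact ⟨0, by simp⟩
      | add f f' hf hf' => rw [map_add, add_mul]; exact (ev σ δ).range.add_mem hf hf'
      | single i r => exact ⟨r • (Xo σ δ ^ i) g, by rw [ev_single, mul_assoc, h3 i, h2 r]⟩ }

theorem exists_ore : ∃ (ι : R →+* Ag hd) (x : Ag hd), IsOre σ δ ι x := by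
  obtain ⟨ι, h1⟩ : ∃ ι : R →+* Ag hd, ∀ r, (ι r).1 = Lm r :=
    ⟨Lm.codRestrict _ fun r => ⟨Finsupp.single 0 r, by simp [ev_single]⟩, fun _ => rfl⟩
  obtain ⟨x, h2⟩ : ∃ x : Ag hd, x.1 = Xo σ δ := ⟨⟨Xo σ δ, Finsupp.single 1 1, by simp [ev_single]⟩, rfl⟩
  have key : ∀ f : ℕ →₀ R, (f.sum fun i r => ι r * x ^ i).1 = ev σ δ f := fun f => by
    simp [Finsupp.sum, ev, Finsupp.liftAddHom_apply, h1, h2]
  refine ⟨ι, x, fun r => Subtype.ext (by simpa [h1, h2] using rel hd r), fun f g h => ?_,
    fun ⟨_, f, hf⟩ => ⟨f, Subtype.ext ((key f).trans hf)⟩⟩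
  rw [← ev_one hd f, ← ev_one hd g, ← key f, ← key g]
  exact congrArg (fun T : Ag hd => T.1 _) h

end Exist

end Pool.Agent.H70.Ore
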