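import Mathlib

/-! Ore extensions. -/

namespace Pool.Agent.H70.Ore

/-- `A` is the Ore extension `R[x; σ, δ]`: every element is uniquely `∑ r_i x^i` with left
coefficients, and `x r = σ(r) x + δ(r)`. -/
def IsOre {R A : Type*} [Ring R] [Ring A] (σ : R →+* R) (δ : R →+ R) (ι : R →+* A) (x : A) : Prop :=
  (∀ r, x * ι r = ι (σ r) * x + ι (δ r)) ∧
    Function.Bijective fun f : ℕ →₀ R => f.sum fun i r => ι r * x ^ i

end Pool.Agent.H70.Ore
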