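import Pool.Agent.H70.PhiDefs

namespace Pool.Agent.H70.Phi

open TensorProduct LinearMap Coalgebra

variable {k H : Type*} [Field k] [Ring H] [HopfAlgebra k H] {I : Type*}

noncomputable def T (f : H →ₗ[k] H) : H ⊗[k] H →ₗ[k] H ⊗[k] H :=
  (mul' k H ∘ₗ f.rTensor H).lTensor H ∘ₗ (TensorProduct.assoc k H H H).toLinearMap ∘ₗ
    (comul (R := k)).rTensor H

theorem T_tmul (f : H →ₗ[k] H) (x y : H) : T f (x ⊗ₜ y) = (mulRight k y ∘ₗ f).lTensor H (comul x) := by
  simp only [T, comp_apply, rTensor_tmul]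
  induction (comul x : H ⊗[k] H) with
  | zero => simp
  | tmul a b => simp
  | add a b ha hb => simp only [add_tmul, map_add, ha, hb]

theorem T_T (f g : H →ₗ[k] H) (h : mul' k H ∘ₗ map f g ∘ₗ comul = Algebra.linearMap k H ∘ₗ counit)
    (z : H ⊗[k] H) : T f (T g z) = z := by
  induction z with
  | zero => simp
  | add a b ha hb => simp only [map_add, ha, hb]
  | tmul x y =>
    have h1 : ∀ z : H ⊗[k] H, T f ((mulRight k y ∘ₗ g).lTensor H z) =
        (mulRight k y ∘ₗ mul' k H ∘ₗ map f g).lTensor H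
          (TensorProduct.assoc k H H H ((comul (R := k)).rTensor H z)) := fun z => by
      induction z with
      | zero => simp
      | add a b ha hb => simp only [map_add, ha, hb]
      | tmul a b =>
        rw [lTensor_tmul, T_tmul, rTensor_tmul]
        induction (comul a : H ⊗[k] H) with
        | zero => simp
        | tmul a b => simp [mul_assoc]
        | add a b ha hb => simp only [add_tmul, map_add, ha, hb]
    rw [T_tmul g, h1, coassoc_apply, ← lTensor_comp_apply, comp_assoc, comp_assoc, h, ← comp_assoc,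
      lTensor_comp_apply, lTensor_counit_comul]
    simp

theorem Phi_eq : Phi k H = T .id := by simp [Phi, T]

theorem l1 (z : H ⊗[k] H) : T (HopfAlgebra.antipode k) (Phi k H z) = z :=
  Phi_eq (k := k) (H := H) ▸ T_T _ _ HopfAlgebra.mul_antipode_rTensor_comul z

theorem l2 (z : H ⊗[k] H) : Phi k H (T (HopfAlgebra.antipode k) z) = z :=
  Phi_eq (k := k) (H := H) ▸ T_T _ _ HopfAlgebra.mul_antipode_lTensor_comul z

theorem e1 (f : H →ₗ[k] H) (x y : H) :
    TensorProduct.lid k H ((counit (R := k)).rTensor H (T f (x ⊗ₜ y))) = f x * y := by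
  rw [T_tmul, ← comp_apply, rTensor_comp_lTensor, ← lTensor_comp_rTensor, comp_apply, rTensor_counit_comul]
  simp

theorem e2 (x y : H) :
    TensorProduct.rid k H ((counit (R := k)).lTensor H (Phi k H (x ⊗ₜ y))) = counit (R := k) y • x := by
  rw [Phi_eq, T_tmul, ← lTensor_comp_apply, show counit ∘ₗ mulRight k y ∘ₗ LinearMap.id =
    counit (R := k) y • counit (R := k) (A := H) by ext; simp [mul_comm], lTensor_smul, LinearMap.smul_apply,
    lTensor_counit_comul]
  simp

theorem e3 (x : H) : Phi k H (x ⊗ₜ 1) = comul x := by simp [Phi_eq, T_tmul]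

theorem e4 (y : H) : Phi k H (1 ⊗ₜ y) = 1 ⊗ₜ y := by simp [Phi_eq, T_tmul, Algebra.TensorProduct.one_def]

theorem exs {B : Module.Basis I k H} (h : SetTheoretic B) : ∃ s : I × I ≃ I × I,
    (∀ i, Phi k H (B i.1 ⊗ₜ B i.2) = B (s i).1 ⊗ₜ B (s i).2) ∧
      ∀ z i, (B.tensorProduct B).repr (Phi k H z) (s i) = (B.tensorProduct B).repr z i := by
  choose p q h using h
  let s : I × I → I × I := fun i => (p i.1 i.2, q i.1 i.2)
  have h1 : ∀ i, Phi k H (B.tensorProduct B i) = B.tensorProduct B (s i) := fun i => by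
    simp [Module.Basis.tensorProduct_apply', h, s]
  have h2 : Function.Injective s := fun i j e => (B.tensorProduct B).injective (by
    rw [← l1 (B.tensorProduct B i), h1, e, ← h1, l1])
  have h3 : ∀ z, (B.tensorProduct B).repr (Phi k H z) = ((B.tensorProduct B).repr z).mapDomain s := fun z =>
    LinearMap.congr_fun ((B.tensorProduct B).ext (f₁ := (B.tensorProduct B).repr.toLinearMap ∘ₗ Phi k H)
      (f₂ := Finsupp.lmapDomain k k s ∘ₗ (B.tensorProduct B).repr.toLinearMap) fun i => by
        simp [h1]) z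
  refine ⟨.ofBijective s ⟨h2, fun j => by_contra fun hj => ?_⟩, fun i => h _ _, fun z i => ?_⟩
  · have := Finsupp.mapDomain_notin_range ((B.tensorProduct B).repr
      (T (HopfAlgebra.antipode k) (B.tensorProduct B j))) j hj
    rw [← h3, l2] at this
    simp at this
  · rw [h3]; exact Finsupp.mapDomain_apply h2 _ _

theorem norm {B : Module.Basis I k H} (h : SetTheoretic B) : ∃ u : kˣ,
    (∀ c, counit (R := k) (B c) ≠ 0 → u * counit (R := k) (B c) = 1) ∧ ∀ e, B.repr 1 e ≠ 0 → B.repr 1 e = u := by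
  classical
  obtain ⟨s, h1, h2⟩ := exs h
  have hA : ∀ b c, counit (R := k) (B c) • B b = counit (R := k) (B (s (b, c)).2) • B (s (b, c)).1 :=
    fun b c => by rw [← e2, h1 (b, c)]; simp
  have hB : ∀ b c, B b * B c = counit (R := k) (B (s (b, c)).1) • B (s (b, c)).2 := fun b c => by
    have := e1 (k := k) .id (B b) (B c)
    rw [← Phi_eq, h1 (b, c)] at this
    simpa using this.symm
  have hA1 : ∀ b c, counit (R := k) (B c) ≠ 0 → (s (b, c)).1 = b := fun b c hc => by
    by_contra h3
    simpa [hc, h3] using congrArg (B.repr · b) (hA b c)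
  have hA2 : ∀ b c, counit (R := k) (B c) = 0 ↔ counit (R := k) (B (s (b, c)).2) = 0 := fun b c => by
    rw [← smul_eq_zero_iff_left (B.ne_zero b), hA, smul_eq_zero_iff_left (B.ne_zero _)]
  have hD : ∀ c j, B.repr (B c) j = (B.repr 1).sum fun e a =>
      if (s (c, e)).2 = j then a * counit (R := k) (B (s (c, e)).1) else 0 := fun c j => by
    conv_lhs => rw [← mul_one (B c), ← B.linearCombination_repr 1]
    simp only [Finsupp.linearCombination_apply, Finsupp.sum, Finset.mul_sum, hB, mul_smul_comm, map_sum,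
      map_smul, Finsupp.finset_sum_apply, Finsupp.smul_apply, B.repr_self_apply, smul_eq_mul, mul_ite,
      mul_one, mul_zero]
  obtain ⟨e₀, h3, h4⟩ : ∃ e, B.repr 1 e ≠ 0 ∧ counit (R := k) (B e) ≠ 0 := by
    by_contra! h3
    have := congrArg (counit (R := k)) (B.linearCombination_repr 1)
    rw [Finsupp.linearCombination_apply, Finsupp.sum, map_sum, Finset.sum_eq_zero fun i hi => by
      simp [h3 i (Finsupp.mem_support_iff.1 hi)]] at this
    simp at this
  have h5 : ∀ c, counit (R := k) (B c) ≠ 0 → B.repr 1 e₀ * counit (R := k) (B c) = 1 := fun c hc => by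
    have := hD c (s (c, e₀)).2
    have h0 : ∀ e, (s (c, e)).2 = (s (c, e₀)).2 → e = e₀ := fun e h6 => by
      have h7 : counit (R := k) (B e) ≠ 0 := by rwa [Ne, hA2 c, h6, ← hA2 c]
      exact congrArg Prod.snd (s.injective (Prod.ext ((hA1 c e h7).trans (hA1 c e₀ h4).symm) h6))
    rw [Finsupp.sum_eq_single e₀ (fun e _ he => if_neg fun h6 => he (h0 e h6)) (by simp), if_pos rfl,
      hA1 _ _ h4, B.repr_self_apply] at this
    split_ifs at this <;> first | exact this.symm | exact absurd this.symm (mul_ne_zero h3 hc)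
  refine ⟨.mk0 _ h3, h5, fun e he => ?_⟩
  have h6 : ∀ f, B.repr 1 f ≠ 0 → (s (e, f)).2 = f := fun f hf => by
    have := h2 (1 ⊗ₜ B f) (e, f)
    rw [e4, ← Prod.mk.eta (p := s (e, f)), Module.Basis.tensorProduct_repr_tmul_apply,
      Module.Basis.tensorProduct_repr_tmul_apply] at this
    by_contra h7
    simp [Finsupp.single_apply, Ne.symm h7, he.symm] at this
  have := hD e e
  rw [Finsupp.sum_eq_single e (fun f hf h7 => if_neg (by rwa [h6 f hf])) (by simp), if_pos (h6 e he)] at this
  simp only [Module.Basis.repr_self, Finsupp.single_eq_same] at this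
  have h7 := right_ne_zero_of_mul (this ▸ one_ne_zero)
  exact mul_right_cancel₀ h7 (this.symm.trans (h5 _ h7).symm)

theorem pos (ι : k →+* ℂ) {B : Module.Basis I k H} (h : SetTheoretic B)
    (h1 : ∀ c, NN ι (counit (R := k) (B c))) (h2 : ∀ e, NN ι (B.repr 1 e)) : Positive ι B := by
  classical
  obtain ⟨s, h3, h4⟩ := exs h
  open scoped ComplexOrder in
  have hN : ∀ a, NN ι a ↔ 0 ≤ ι a := fun a => by simp [NN, Complex.le_def, and_comm, eq_comm]
  simp only [Positive, hN] at h1 h2 ⊢
  have h5 : ∀ b i, (0 : ℂ) ≤ ι (B.repr (B b) i) := fun b i => by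
    rw [B.repr_self_apply]; split_ifs <;> simp
  refine ⟨h2, h1, fun b c i => ?_, fun b i => ?_, fun b i => ?_⟩
  · have := e1 (k := k) .id (B b) (B c)
    rw [← Phi_eq, h3 (b, c)] at this
    rw [← id_apply (R := k) (B b), ← this]
    simpa [-Module.Basis.repr_self] using mul_nonneg (h1 _) (h5 _ i)
  · obtain ⟨⟨p, q⟩, rfl⟩ := s.surjective i
    rw [← e3, h4]
    simpa using mul_nonneg (h2 _) (h5 b p)
  · rw [← mul_one (HopfAlgebra.antipode k (B b)), ← B.linearCombination_repr 1]
    simp only [Finsupp.linearCombination_apply, Finsupp.sum, Finset.mul_sum, map_sum, mul_smul_comm, map_smul,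
      Finsupp.finset_sum_apply, Finsupp.smul_apply, smul_eq_mul, map_mul]
    refine Finset.sum_nonneg fun e _ => mul_nonneg (h2 e) ?_
    have := h3 (s.symm (b, e))
    rw [s.apply_symm_apply] at this
    rw [← e1, ← this, l1]
    simpa [-Module.Basis.repr_self] using mul_nonneg (h1 _) (h5 _ i)

theorem main (ι : k →+* ℂ) {B : Module.Basis I k H} (h : SetTheoretic B) :
    ∃ B' : Module.Basis I k H, Positive ι B' := by
  obtain ⟨u, h1, h2⟩ := norm h
  refine ⟨B.unitsSMul fun _ => u, pos ι (fun b c => ?_) (fun c => ?_) fun e => ?_⟩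
  · obtain ⟨b', c', h3⟩ := h b c
    exact ⟨b', c', by
      simp only [Module.Basis.unitsSMul_apply, Units.smul_def, ← smul_tmul', tmul_smul, map_smul, h3]⟩
  · rw [Module.Basis.unitsSMul_apply, Units.smul_def, map_smul, smul_eq_mul]
    by_cases hc : counit (R := k) (B c) = 0
    · simp [hc, NN]
    · simp [h1 c hc, NN]
  · rw [Module.Basis.repr_unitsSMul]
    by_cases he : B.repr 1 e = 0
    · simp [he, NN]
    · simp [h2 e he, NN, Units.smul_def]

end Pool.Agent.H70.Phi
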