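import Mathlib

/-! Set-theoretic and positive bases of Hopf algebras. -/

namespace Pool.Agent.H70.Phi

open TensorProduct

variable (k H : Type*) [Field k] [Ring H] [HopfAlgebra k H]

/-- `Φ = (id ⊗ m) (Δ ⊗ id)`. -/
noncomputable def Phi : H ⊗[k] H →ₗ[k] H ⊗[k] H :=
  (LinearMap.mul' k H).lTensor H ∘ₗ (TensorProduct.assoc k H H H).toLinearMap ∘ₗ
    (Coalgebra.comul (R := k)).rTensor H

variable {k H} {I : Type*}

/-- `Φ`-set theoretic bases. -/
def SetTheoretic (B : Module.Basis I k H) : Prop :=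
  ∀ b c, ∃ b' c', Phi k H (B b ⊗ₜ B c) = B b' ⊗ₜ B c'

/-- The image of `a` in `ℂ` is a nonnegative real number. -/
def NN (ι : k →+* ℂ) (a : k) : Prop := (ι a).im = 0 ∧ 0 ≤ (ι a).re

/-- Conditions (1)-(5) of the positive basis property. -/
def Positive (ι : k →+* ℂ) (B : Module.Basis I k H) : Prop :=
  (∀ i, NN ι (B.repr 1 i)) ∧ (∀ b, NN ι (Coalgebra.counit (B b))) ∧
    (∀ b c i, NN ι (B.repr (B b * B c) i)) ∧
    (∀ b i, NN ι ((B.tensorProduct B).repr (Coalgebra.comul (B b)) i)) ∧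
    ∀ b i, NN ι (B.repr (HopfAlgebra.antipode k (B b)) i)

end Pool.Agent.H70.Phi
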