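import Pool.Agent.H70.RistDefs

namespace Pool.Agent.H70.Rist

open Equiv

/-- centralisers of normal subgroups -/
abbrev CC (G : Type) [Group G] := {C : Subgroup G // ∃ N : Subgroup G, N.Normal ∧
  C = Subgroup.centralizer N}

theorem CC_congr {G H : Type} [Group G] [Group H] (e : G ≃* H) : Nat.card (CC G) = Nat.card (CC H) := by
  have key : ∀ {G H : Type} [Group G] [Group H] (e : G ≃* H) (C : Subgroup G),
      (∃ N : Subgroup G, N.Normal ∧ C = Subgroup.centralizer N) →
      ∃ N : Subgroup H, N.Normal ∧ e.mapSubgroup C = Subgroup.centralizer N := by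
    rintro G H _ _ e _ ⟨N, hN, rfl⟩
    refine ⟨N.map e, hN.map _ e.surjective, Subgroup.ext fun x => ?_⟩
    obtain ⟨x, rfl⟩ := e.surjective x
    change _ ∈ Subgroup.map _ _ ↔ _
    simp [Subgroup.mem_centralizer_iff, ← map_mul]
  refine Nat.card_congr (e.mapSubgroup.toEquiv.subtypeEquiv fun C => ⟨key e C, fun h => ?_⟩)
  have := key e.symm _ h
  rwa [show e.symm.mapSubgroup (e.mapSubgroup.toEquiv C) = C from e.mapSubgroup.symm_apply_apply C]
    at this

theorem CC_pi (ι H : Type) [Fintype ι] [Group H] :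
    Nat.card (CC (ι → H)) = Nat.card (CC H) ^ Fintype.card ι := by
  classical
  rw [← Nat.card_eq_fintype_card, ← Nat.card_fun]
  refine (Nat.card_eq_of_bijective (fun C : ι → CC H => (⟨Subgroup.pi Set.univ fun i => (C i).1, by
    choose N h1 h2 using fun i => (C i).2
    refine ⟨Subgroup.pi Set.univ N, ⟨fun x hx g i hi => (h1 i).conj_mem _ (hx i hi) _⟩,
      Subgroup.ext fun x => ⟨fun hx y hy => funext fun i => ?_, fun hx i _ => ?_⟩⟩
    · have : x i ∈ (C i).1 := hx i trivial
      rw [h2] at this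
      exact this _ (hy i trivial)
    · change x i ∈ (C i).1
      rw [h2]
      intro y hy
      have h3 : (Pi.mulSingle i y : ι → H) ∈ Subgroup.pi Set.univ N := by
        simpa [Subgroup.mulSingle_mem_pi] using hy
      simpa using congrFun (hx _ h3) i⟩ :
      CC (ι → H))) ⟨fun C C' h => funext fun i => Subtype.ext (Subgroup.ext fun y => ?_), ?_⟩).symm
  · have h1 := congrArg (fun D : CC (ι → H) => Pi.mulSingle i y ∈ D.1) h
    simpa [Subgroup.mulSingle_mem_pi] using h1
  · rintro ⟨_, N, hN, rfl⟩
    refine ⟨fun i => ⟨_, N.map (Pi.evalMonoidHom (fun _ => H) i),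
      hN.map _ (Function.surjective_eval i), rfl⟩, Subtype.ext (Subgroup.ext fun x =>
        ⟨fun hx y hy => funext fun i => hx i trivial _ ⟨y, hy, rfl⟩, fun hx i _ => ?_⟩)⟩
    rintro _ ⟨y, hy, rfl⟩
    exact congrFun (hx y hy) i

theorem app (g : U) (v w : List Bool) : g.1 (v ++ w) = g.1 v ++ (g.1 (v ++ w)).drop v.length := by
  rw [← g.2.1 v]
  exact (List.prefix_iff_eq_append.1 ((g.2.2 _ _).1 (List.prefix_append v w))).symm

theorem memU {g : Perm (List Bool)} (h1 : ∀ w, (g w).length = w.length)
    (h2 : ∀ u v, u <+: v → g u <+: g v) : g ∈ U := ⟨h1, fun u v => ⟨h2 u v, fun h => by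
  have h3 : u.length ≤ v.length := by simpa [h1] using h.length_le
  have := (List.prefix_of_prefix_length_le h (h2 _ _ (List.take_prefix u.length v))
    (by simp [h1, h3])).eq_of_length (by simp [h1, h3])
  rw [g.injective this]
  simpa [h3] using List.take_prefix u.length v⟩⟩

/-- the section of `g` at `v` -/
def sec (g : U) (v : List Bool) : U := ⟨
  { toFun := fun w => (g.1 (v ++ w)).drop v.length
    invFun := fun w => (g⁻¹.1 (g.1 v ++ w)).drop v.length
    left_inv := fun w => by simp [← app]
    right_inv := fun w => by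
      have := app g⁻¹ (g.1 v) w
      simp only [g.2.1, InvMemClass.coe_inv, Perm.coe_inv, symm_apply_apply] at this ⊢
      rw [← this, apply_symm_apply, ← g.2.1 v, List.drop_left] },
  memU (fun w => by simp [g.2.1]) fun u w h =>
    ((g.2.2 _ _).1 ((List.prefix_append_right_inj v).2 h)).drop _⟩

section
variable {ι : Type} (v : ι → List Bool) (hv : ∀ i j w, v i <+: w → v j <+: w → i = j)

open Classical in
noncomputable def act (f : ι → U) (w : List Bool) : List Bool :=
  if h : ∃ i, v i <+: w then v h.choose ++ (f h.choose).1 (w.drop (v h.choose).length) else w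

include hv in
theorem act_app (f : ι → U) (i : ι) (w : List Bool) : act v f (v i ++ w) = v i ++ (f i).1 w := by
  have h : ∃ j, v j <+: v i ++ w := ⟨i, List.prefix_append _ _⟩
  rw [act, dif_pos h, hv _ i _ h.choose_spec (List.prefix_append _ _), List.drop_left]

theorem act_out (f : ι → U) {w : List Bool} (h : ¬ ∃ i, v i <+: w) : act v f w = w := dif_neg h

noncomputable def Φ₀ : (ι → U) →* Perm (List Bool) := MonoidHom.toHomPerm
  { toFun := act v
    map_one' := funext fun w => by
      by_cases h : ∃ i, v i <+: w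
      · obtain ⟨i, w, rfl⟩ := h
        exact act_app v hv _ _ _
      · exact act_out v _ h
    map_mul' := fun f g => funext fun w => by
      change _ = act v f (act v g w)
      by_cases h : ∃ i, v i <+: w
      · obtain ⟨i, w, rfl⟩ := h
        simp [act_app v hv]
      · simp [act_out v _ h] }

noncomputable def Φ : (ι → U) →* U := (Φ₀ v hv).codRestrict _ fun f => memU (fun w => by
    change (act v f w).length = _
    by_cases h : ∃ i, v i <+: w
    · obtain ⟨i, w, rfl⟩ := h
      simp [act_app v hv, (f i).2.1]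
    · rw [act_out v _ h]) fun u w huw => by
    change act v f u <+: act v f w
    by_cases h : ∃ i, v i <+: u
    · obtain ⟨i, u, rfl⟩ := h
      obtain ⟨w, rfl⟩ := huw
      rw [List.append_assoc, act_app v hv, act_app v hv, List.prefix_append_right_inj]
      exact ((f i).2.2 _ _).1 (List.prefix_append _ _)
    · rw [act_out v _ h]
      by_cases h' : ∃ i, v i <+: w
      · obtain ⟨i, w, rfl⟩ := h'
        rw [act_app v hv]
        exact ((List.prefix_or_prefix_of_prefix huw (List.prefix_append _ _)).resolve_right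
          fun e => h ⟨i, e⟩).trans (List.prefix_append _ _)
      · rwa [act_out v _ h']

theorem Φ_apply (f : ι → U) (w : List Bool) : (Φ v hv f).1 w = act v f w := by
  simp [Φ, Φ₀, MonoidHom.toHomPerm]

/-- pointwise stabiliser -/
def St : Subgroup U := ⨅ i, MulAction.stabilizer U (v i)

theorem mem_St {g : U} : g ∈ St v ↔ ∀ i, g.1 (v i) = v i := Subgroup.mem_iInf

variable (hc : ∀ w, (∃ i, v i <+: w) ∨ ∃ i, w <+: v i)

noncomputable def iso : (ι → U) ≃* St v where
  toFun f := ⟨Φ v hv f, (mem_St v).2 fun i => by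
    simpa [Φ_apply, List.length_eq_zero_iff.1 ((f i).2.1 [])] using act_app v hv f i []⟩
  invFun g i := sec g (v i)
  left_inv f := funext fun i => Subtype.ext (Equiv.ext fun w => by
    change ((Φ v hv f).1 (v i ++ w)).drop _ = _
    rw [Φ_apply, act_app v hv, List.drop_left])
  right_inv g := Subtype.ext (Subtype.ext (Equiv.ext fun w => by
    refine (Φ_apply v hv _ _).trans ?_
    by_cases h : ∃ i, v i <+: w
    · obtain ⟨i, w, rfl⟩ := h
      rw [act_app v hv, app, (mem_St v).1 g.2]
      rfl
    · obtain ⟨i, hi⟩ := (hc w).resolve_left h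
      have h1 := (g.1.2.2 _ _).1 hi
      rw [(mem_St v).1 g.2] at h1
      rw [act_out v _ h]
      exact (List.prefix_of_prefix_length_le hi h1 (g.1.2.1 w).ge).eq_of_length (g.1.2.1 w).symm))
  map_mul' f g := Subtype.ext (map_mul (Φ v hv) f g)

end

def mask (t : ℕ → Bool) : U := ⟨Function.Involutive.toPerm (fun w => w.mapIdx fun i b => xor b (t i))
    fun w => by simp [List.mapIdx_mapIdx, Function.comp_def, List.ext_getElem_iff],
  memU (fun w => by simp) fun u v ⟨w, h⟩ => by simp [← h, List.mapIdx_append]⟩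

theorem trans {v w : List Bool} (h : v.length = w.length) : ∃ g : U, g.1 v = w :=
  ⟨mask fun i => xor (v.getD i false) (w.getD i false), List.ext_getElem (by simp [mask, h])
    fun i h1 h2 => by
      have : i < v.length := h ▸ h2
      simp [mask, this, h2]⟩

theorem moved {N : Subgroup U} (hN : N.Normal) (h : N ≠ ⊥) :
    ∃ k, ∀ u : List Bool, k ≤ u.length → ∃ n ∈ N, n.1 u ≠ u := by
  obtain ⟨⟨n, hn⟩, h1⟩ := Subgroup.ne_bot_iff_exists_ne_one.1 h
  obtain ⟨v, hv⟩ : ∃ v, n.1 v ≠ v := by
    by_contra hc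
    push Not at hc
    exact h1 (Subtype.ext (Subtype.ext (Equiv.ext hc)))
  refine ⟨v.length, fun u hu => ?_⟩
  obtain ⟨g, hg⟩ := trans (v := v ++ u.drop v.length) (w := u) (by simp; omega)
  refine ⟨_, hN.conj_mem n hn g, fun e => hv ?_⟩
  rw [← hg] at e
  simp only [Subgroup.coe_mul, InvMemClass.coe_inv, Perm.mul_apply, Perm.coe_inv, symm_apply_apply,
    EmbeddingLike.apply_eq_iff_eq] at e
  rw [app] at e
  exact (List.append_inj e (n.2.1 v)).1

noncomputable def sub (u : List Bool) (f : U) : U :=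
  Φ (fun _ : Unit => u) (fun _ _ _ _ _ => rfl) fun _ => f

theorem sub_app (u : List Bool) (f : U) (w : List Bool) : (sub u f).1 (u ++ w) = u ++ f.1 w :=
  (Φ_apply _ _ _ _).trans (act_app (fun _ : Unit => u) (fun _ _ _ _ _ => rfl) _ () w)

theorem sub_out {u : List Bool} (f : U) {w : List Bool} (h : ¬ u <+: w) : (sub u f).1 w = w :=
  (Φ_apply _ _ _ _).trans (act_out _ _ fun ⟨_, e⟩ => h e)

theorem loc {N : Subgroup U} (hN : N.Normal) {n : U} (hn : n ∈ N) {u : List Bool} (h : n.1 u ≠ u)
    (f : U) : ∃ x ∈ N, ∀ w, x.1 (u ++ w) = u ++ f.1 w := by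
  refine ⟨n⁻¹ * (sub u f)⁻¹ * n * sub u f, ?_, fun w => ?_⟩
  · simpa [mul_assoc] using mul_mem (inv_mem hn) (hN.conj_mem n hn (sub u f)⁻¹)
  · have h1 : (sub u f).1 (n.1 (u ++ f.1 w)) = n.1 (u ++ f.1 w) := sub_out _ fun e => h (by
      rw [app] at e
      exact (List.prefix_of_prefix_length_le (List.prefix_append _ _) e (n.2.1 u).le).eq_of_length
        (n.2.1 u))
    simp only [Subgroup.coe_mul, InvMemClass.coe_inv, Perm.mul_apply, sub_app]
    rw [Perm.inv_eq_iff_eq, Perm.inv_eq_iff_eq, h1]

theorem CC_U : Nat.card (CC U) = 2 := by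
  have nc : ¬ ∀ f g : U, ∀ w, f.1 (g.1 w) = g.1 (f.1 w) := fun h => by
    have h1 := h (mask fun i => i == 0) (sub [false] (mask fun i => i == 0)) ([false] ++ [false])
    rw [sub_app] at h1
    have h2 : (sub [false] (mask fun i => i == 0)).1 [true, false] = [true, false] :=
      sub_out _ (by simp)
    exact absurd (h1.trans h2) (by decide)
  have hb : Subgroup.centralizer ((⊥ : Subgroup U) : Set U) = ⊤ := by simp
  have key : ∀ N : Subgroup U, N.Normal → N ≠ ⊥ → Subgroup.centralizer (N : Set U) = ⊥ :=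
    fun N hN h => by
      by_contra h'
      obtain ⟨k, hk⟩ := moved hN h
      obtain ⟨k', hk'⟩ := moved inferInstance h'
      obtain ⟨n, h1, h2⟩ := hk (List.replicate (k + k') false) (by simp)
      obtain ⟨c, h3, h4⟩ := hk' (List.replicate (k + k') false) (by simp)
      refine nc fun f g w => ?_
      obtain ⟨x, h5, h6⟩ := loc hN h1 h2 f
      obtain ⟨y, h7, h8⟩ := loc inferInstance h3 h4 g
      have := congrArg (fun z : U => z.1 (List.replicate (k + k') false ++ w)) (h7 x h5)
      simpa [h6, h8] using this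
  have ht : (⊤ : Subgroup U) ≠ ⊥ := fun h => nc fun f g w => by
    rw [show f = 1 from Subgroup.mem_bot.1 (h ▸ Subgroup.mem_top f)]; rfl
  refine Nat.card_eq_two_iff.2 ⟨⟨⊤, ⊥, inferInstance, hb.symm⟩,
    ⟨⊥, ⊤, inferInstance, (key ⊤ inferInstance ht).symm⟩, fun h => ht (congrArg Subtype.val h),
    Set.eq_univ_of_forall fun ⟨_, N, hN, e⟩ => ?_⟩
  by_cases h : N = ⊥
  · exact .inl (Subtype.ext (e.trans (by rw [h]; exact hb)))
  · exact .inr (Subtype.ext (e.trans (key N hN h)))

theorem lev (m : ℕ) (i j : List.Vector Bool m) (w : List Bool) (h : i.1 <+: w) (h' : j.1 <+: w) :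
    i = j := Subtype.ext ((List.prefix_of_prefix_length_le h h' (i.2.trans j.2.symm).le).eq_of_length
      (i.2.trans j.2.symm))

theorem lev' (m : ℕ) (w : List Bool) :
    (∃ i : List.Vector Bool m, i.1 <+: w) ∨ ∃ i : List.Vector Bool m, w <+: i.1 := by
  by_cases h : m ≤ w.length
  · exact .inl ⟨⟨w.take m, by simp [h]⟩, List.take_prefix _ _⟩
  · exact .inr ⟨⟨w ++ List.replicate (m - w.length) false, by simp; omega⟩, List.prefix_append _ _⟩

theorem ristL_eq (m : ℕ) : ristL m = St fun i : List.Vector Bool m => i.1 := by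
  classical
  refine le_antisymm (iSup₂_le fun v hv g hg => (mem_St _).2 fun i => ?_) fun g hg => ?_
  · by_contra h
    have h1 : i.1 = v := by
      by_contra h1
      exact h (hg _ fun e => h1 (e.eq_of_length (hv.trans i.2.symm)).symm)
    rw [h1] at h
    exact h (g.1.injective (hg _ fun e => h (e.eq_of_length (g.2.1 v).symm).symm))
  · obtain ⟨f, hf⟩ := (iso _ (lev m) (lev' m)).surjective ⟨g, hg⟩
    rw [← show Φ _ (lev m) f = g from congrArg Subtype.val hf]
    refine Subgroup.pi_mem_of_mulSingle_mem f (H := (ristL m).comap (Φ _ (lev m))) fun i => ?_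
    refine Subgroup.mem_iSup_of_mem i.1 (Subgroup.mem_iSup_of_mem i.2 fun w hw => ?_)
    by_cases h : ∃ j : List.Vector Bool m, j.1 <+: w
    · obtain ⟨j, w, rfl⟩ := h
      rw [Φ_apply, act_app _ (lev m), Pi.mulSingle_eq_of_ne fun e : j = i => hw (e ▸ List.prefix_append _ _)]
      rfl
    · exact (Φ_apply _ _ _ _).trans (act_out _ _ h)

theorem fin (m : ℕ) : (ristL m).FiniteIndex := by
  rw [ristL_eq]
  refine Subgroup.finiteIndex_iInf fun i => ⟨?_⟩
  rw [MulAction.index_stabilizer]
  refine Set.ncard_ne_zero_of_mem (MulAction.mem_orbit_self _)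
    ((List.finite_length_eq Bool m).subset ?_)
  rintro _ ⟨g, rfl⟩
  exact (g.2.1 _).trans i.2

theorem no_iso (m : ℕ) (K : Type) [Group K] (e : ristL m ≃* (Fin 3 → K)) : False := by
  rw [ristL_eq] at e
  have h := CC_congr ((iso _ (lev m) (lev' m)).trans e)
  rw [CC_pi, CC_pi, CC_U, card_vector, Fintype.card_bool, Fintype.card_fin] at h
  obtain ⟨k, -, hk⟩ := (Nat.dvd_prime_pow Nat.prime_two).1 (h ▸ dvd_pow_self _ three_ne_zero)
  rw [hk, ← pow_mul] at h
  have h1 := Nat.pow_right_injective le_rfl h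
  exact absurd (Nat.prime_three.dvd_of_dvd_pow (h1 ▸ dvd_mul_left 3 k)) (by decide)

theorem comm : ∃ A : Subgroup U, IsOpen (A : Set U) ∧ Nonempty (A ≃ₜ* (Fin 3 → U)) := by
  letI : TopologicalSpace (List Bool) := ⊥
  haveI : DiscreteTopology (List Bool) := ⟨rfl⟩
  have ev : ∀ w, Continuous fun g : U => g.1 w := fun w =>
    (continuous_apply w).comp continuous_induced_dom
  let v : Fin 3 → List Bool := ![[false], [true, false], [true, true]]
  have hv : ∀ i j w, v i <+: w → v j <+: w → i = j := fun i j w h h' => by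
    have := List.prefix_or_prefix_of_prefix h h'
    clear h h'
    revert this i j
    decide
  have hc : ∀ w, (∃ i, v i <+: w) ∨ ∃ i, w <+: v i := by
    rintro (_ | ⟨_ | _, _ | ⟨_ | _, w⟩⟩) <;> simp [v, Fin.exists_fin_succ]
  refine ⟨St v, ?_, ⟨{ (iso v hv hc).symm with
    continuous_toFun := continuous_pi fun i => continuous_induced_rng.2 (continuous_pi fun w =>
      (continuous_of_discreteTopology (f := List.drop (v i).length)).comp
        ((ev (v i ++ w)).comp continuous_subtype_val))
    continuous_invFun := Continuous.subtype_mk (continuous_induced_rng.2 (continuous_pi fun w => ?_)) _ }⟩⟩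
  · rw [St, Subgroup.coe_iInf]
    exact isOpen_iInter_of_finite fun i => (isOpen_discrete {v i}).preimage (ev (v i))
  · change Continuous fun f => (Φ v hv f).1 w
    simp only [Φ_apply]
    by_cases h : ∃ i, v i <+: w
    · obtain ⟨i, w, rfl⟩ := h
      simp only [act_app v hv]
      exact (continuous_of_discreteTopology (f := (v i ++ ·))).comp ((ev w).comp (continuous_apply i))
    · simp only [act_out v _ h]
      exact continuous_const

end Pool.Agent.H70.Rist
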