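import Mathlib

/-! The automorphism group of the binary rooted tree and its rigid stabilisers. -/

namespace Pool.Agent.H70.Rist

/-- Automorphisms of the binary rooted tree, whose vertices are the finite binary words ordered
by extension: permutations preserving the level and the order. -/
def U : Subgroup (Equiv.Perm (List Bool)) where
  carrier := {g | (∀ w, (g w).length = w.length) ∧ ∀ u v, u <+: v ↔ g u <+: g v}
  one_mem' := ⟨fun _ => rfl, fun _ _ => Iff.rfl⟩
  mul_mem' h h' := ⟨fun w => (h.1 _).trans (h'.1 w), fun u v => (h'.2 u v).trans (h.2 _ _)⟩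
  inv_mem' {g} h := ⟨fun w => by rw [← h.1]; simp, fun u v => by rw [h.2 (g⁻¹ u)]; simp⟩

/-- The topology of pointwise convergence (vertices discrete). -/
instance : TopologicalSpace U :=
  .induced (fun g w => g.1 w) (@Pi.topologicalSpace (List Bool) (fun _ => List Bool) fun _ => ⊥)

/-- The rigid stabiliser of the vertex `v`. -/
def rist (v : List Bool) : Subgroup U where
  carrier := {g | ∀ w, ¬ v <+: w → g.1 w = w}
  one_mem' _ _ := rfl
  mul_mem' {g g'} h h' w hw := by
    change g.1 (g'.1 w) = w
    rw [h' w hw, h w hw]
  inv_mem' h w hw := Equiv.Perm.inv_eq_iff_eq.2 (h w hw).symm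

/-- The rigid stabiliser of level `m`. -/
def ristL (m : ℕ) : Subgroup U := ⨆ (v : List Bool) (_ : v.length = m), rist v

end Pool.Agent.H70.Rist
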