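import Pool.Agent.H70.RkDefs

namespace Pool.Agent.H70.Rk

/-- The Rokhlin property of an action of a finite group on a star-algebra `D` of operators on a
Hilbert space (with the operator norm). -/
def RokC {K E : Type} [Group K] [Fintype K] [NormedAddCommGroup E] [InnerProductSpace ℂ E]
    [CompleteSpace E] {D : StarSubalgebra ℂ (E →L[ℂ] E)}
    (σ : K →* (D ≃⋆ₐ[ℂ] D)) : Prop :=
  ∀ (F : Finset D) (ε : ℝ), 0 < ε → ∃ e : K → D,
    (∀ k, star (e k) = e k ∧ e k * e k = e k) ∧ (∀ k l, k ≠ l → e k * e l = 0) ∧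
    (∀ k l, ‖σ k (e l) - e (k * l)‖ < ε) ∧ (∀ k, ∀ a ∈ F, ‖e k * a - a * e k‖ < ε) ∧
    ∑ k, e k = 1

variable {H K : Type} [NormedAddCommGroup H] [InnerProductSpace ℂ H]
  [NormedAddCommGroup K] [InnerProductSpace ℂ K]

/-- The C*-algebra generated by a set of operators on a Hilbert space: the norm closure of the
unital star-subalgebra generated by the set. -/
noncomputable def cstarGen [CompleteSpace H] (S : Set (H →L[ℂ] H)) :
    StarSubalgebra ℂ (H →L[ℂ] H) :=
  (StarAlgebra.adjoin ℂ S).topologicalClosure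

end Pool.Agent.H70.Rk
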