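import Pool.Agent.H70.Rk0

namespace Pool.Agent.H70.Rk
open scoped InnerProductSpace
open Finset

variable {Γ H : Type} [AddCommGroup Γ] [NormedAddCommGroup H] [InnerProductSpace ℂ H]
  [CompleteSpace H]

structure TG (Γ H : Type) [AddCommGroup Γ] [NormedAddCommGroup H] [InnerProductSpace ℂ H]
    [CompleteSpace H] where
  U : Γ → H →L[ℂ] H
  V : Γ → H →L[ℂ] H
  c : Γ → Γ → ℂ
  Ω : H
  c_ne : ∀ g h, c g h ≠ 0
  U_mul : ∀ g h, U g * U h = c g h • U (g + h)
  U_zero : U 0 = 1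
  U_unit : ∀ g, star (U g) * U g = 1
  U_unit' : ∀ g, U g * star (U g) = 1
  comm : ∀ g h, U g * V h = V h * U g
  tr0 : ‖Ω‖ = 1
  tr : ∀ g, g ≠ 0 → ⟪Ω, U g Ω⟫_ℂ = 0
  dense : Dense ((Submodule.span ℂ (Set.range fun h => V h Ω) : Submodule ℂ H) : Set H)
  c_symm : ∀ g, c g (-g) = c (-g) g

namespace TG
variable (T : TG Γ H)

noncomputable def alg : StarSubalgebra ℂ (H →L[ℂ] H) :=
  cstarGen (Set.range T.U)

lemma closed : IsClosed (T.alg : Set (H →L[ℂ] H)) := StarSubalgebra.isClosed_topologicalClosure _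

lemma U_mem (g : Γ) : T.U g ∈ T.alg :=
  StarSubalgebra.le_topologicalClosure _ (StarAlgebra.subset_adjoin ℂ _ ⟨g, rfl⟩)

lemma star_U (g : Γ) : star (T.U g) = (T.c g (-g))⁻¹ • T.U (-g) := by
  have h := T.U_mul g (-g)
  rw [add_neg_cancel, T.U_zero] at h
  have h2 := congrArg (fun x => star (T.U g) * x) h
  simp only [← mul_assoc, T.U_unit, one_mul, mul_smul_comm, mul_one] at h2
  rw [h2, smul_smul, inv_mul_cancel₀ (T.c_ne _ _), one_smul]

lemma span_star {x : H →L[ℂ] H} {P : Γ → Prop} (hP : ∀ g, P g → P (-g))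
    (hx : x ∈ Submodule.span ℂ (T.U '' {g | P g})) :
    star x ∈ Submodule.span ℂ (T.U '' {g | P g}) := by
  induction hx using Submodule.span_induction with
  | mem x h =>
    obtain ⟨g, hg, rfl⟩ := h
    rw [T.star_U]
    exact Submodule.smul_mem _ _ (Submodule.subset_span ⟨-g, hP g hg, rfl⟩)
  | zero => simp
  | add x y _ _ hx hy => rw [star_add]; exact add_mem hx hy
  | smul a x _ hx => rw [star_smul]; exact Submodule.smul_mem _ _ hx

lemma mem_closure_span {x : H →L[ℂ] H} (hx : x ∈ T.alg) :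
    x ∈ closure (Submodule.span ℂ (Set.range T.U) : Set (H →L[ℂ] H)) := by
  refine closure_mono ?_ (show x ∈ closure (StarAlgebra.adjoin ℂ (Set.range T.U) : Set _) from hx)
  intro y hy
  induction hy using StarAlgebra.adjoin_induction with
  | mem x h => exact Submodule.subset_span h
  | algebraMap r =>
    rw [Algebra.algebraMap_eq_smul_one, ← T.U_zero]
    exact Submodule.smul_mem _ _ (Submodule.subset_span ⟨0, rfl⟩)
  | add x y _ _ hx hy => exact add_mem hx hy
  | mul x y _ _ hx hy =>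
    refine Submodule.span_induction₂ (p := fun x y _ _ => x * y ∈ Submodule.span ℂ (Set.range T.U))
      ?_ ?_ ?_ ?_ ?_ ?_ ?_ hx hy
    · rintro _ _ ⟨g, rfl⟩ ⟨h, rfl⟩
      rw [T.U_mul]; exact Submodule.smul_mem _ _ (Submodule.subset_span ⟨_, rfl⟩)
    · intro y _; simp
    · intro y _; simp
    · intro x y z _ _ _ h1 h2; rw [add_mul]; exact add_mem h1 h2
    · intro x y z _ _ _ h1 h2; rw [mul_add]; exact add_mem h1 h2
    · intro r x y _ _ h; rw [smul_mul_assoc]; exact Submodule.smul_mem _ _ h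
    · intro r x y _ _ h; rw [mul_smul_comm]; exact Submodule.smul_mem _ _ h
  | star x _ hx =>
    have := T.span_star (P := fun _ => True) (fun _ h => h) (x := x) (by simpa using hx)
    simpa using this

lemma ind {P : (H →L[ℂ] H) → Prop} (hc : IsClosed {x | P x}) (hU : ∀ g, P (T.U g))
    (h0 : P 0) (hadd : ∀ x y, P x → P y → P (x + y)) (hs : ∀ (a : ℂ) x, P x → P (a • x))
    {x : H →L[ℂ] H} (hx : x ∈ T.alg) : P x := by
  refine closure_minimal (s := (Submodule.span ℂ (Set.range T.U) : Set (H →L[ℂ] H))) ?_ hc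
    (T.mem_closure_span hx)
  intro y hy
  induction hy using Submodule.span_induction with
  | mem x h => obtain ⟨g, rfl⟩ := h; exact hU g
  | zero => exact h0
  | add x y _ _ hx hy => exact hadd _ _ hx hy
  | smul a x _ hx => exact hs _ _ hx

lemma approx {x : H →L[ℂ] H} (hx : x ∈ T.alg) {ε : ℝ} (hε : 0 < ε) :
    ∃ (S : Finset Γ) (f : Γ → ℂ), ‖x - ∑ g ∈ S, f g • T.U g‖ < ε := by
  obtain ⟨y, hy, h⟩ := Metric.mem_closure_iff.mp (T.mem_closure_span hx) ε hε
  obtain ⟨f, rfl⟩ := Finsupp.mem_span_range_iff_exists_finsupp.mp hy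
  exact ⟨f.support, f, by rwa [dist_eq_norm] at h⟩

noncomputable def τ (x : H →L[ℂ] H) : ℂ := ⟪T.Ω, x T.Ω⟫_ℂ

lemma τ_add (x y : H →L[ℂ] H) : T.τ (x + y) = T.τ x + T.τ y := by simp [τ, inner_add_right]
lemma τ_smul (a : ℂ) (x : H →L[ℂ] H) : T.τ (a • x) = a * T.τ x := by simp [τ]
lemma τ_zero : T.τ 0 = 0 := by simp [τ]
lemma τ_one : T.τ 1 = 1 := by simp [τ, T.tr0]
lemma τ_cont : Continuous T.τ := by unfold τ; fun_prop
lemma τ_sum {ι : Type} (s : Finset ι) (f : ι → H →L[ℂ] H) :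
    T.τ (∑ i ∈ s, f i) = ∑ i ∈ s, T.τ (f i) := by simp [τ, inner_sum]
lemma τ_star_mul (x : H →L[ℂ] H) : T.τ (star x * x) = ((‖x T.Ω‖ ^ 2 : ℝ) : ℂ) := by
  simp [τ, ContinuousLinearMap.star_eq_adjoint, ContinuousLinearMap.adjoint_inner_right]
lemma τ_le (x : H →L[ℂ] H) : ‖T.τ x‖ ≤ ‖x‖ := by
  have h1 := norm_inner_le_norm (𝕜 := ℂ) T.Ω (x T.Ω)
  have h2 := x.le_opNorm T.Ω
  rw [T.tr0] at h1 h2
  unfold τ; linarith

lemma τ_comm {x y : H →L[ℂ] H} (hx : x ∈ T.alg) (hy : y ∈ T.alg) : T.τ (x * y) = T.τ (y * x) := by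
  have hc := T.τ_cont
  refine T.ind (P := fun x => T.τ (x * y) = T.τ (y * x)) (isClosed_eq (by fun_prop) (by fun_prop))
    (fun g => ?_) (by simp) (fun a b h1 h2 => by rw [add_mul, mul_add, τ_add, τ_add, h1, h2])
    (fun a b h => by rw [smul_mul_assoc, mul_smul_comm, τ_smul, τ_smul, h]) hx
  refine T.ind (P := fun y => T.τ (T.U g * y) = T.τ (y * T.U g))
    (isClosed_eq (by fun_prop) (by fun_prop))
    (fun h => ?_) (by simp) (fun a b h1 h2 => by rw [add_mul, mul_add, τ_add, τ_add, h1, h2])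
    (fun a b h => by rw [smul_mul_assoc, mul_smul_comm, τ_smul, τ_smul, h]) hy
  rw [T.U_mul, T.U_mul, τ_smul, τ_smul, add_comm h g]
  by_cases e : g + h = 0
  · have : h = -g := (neg_eq_of_add_eq_zero_right e).symm
    subst this
    rw [T.c_symm]
  · have : T.τ (T.U (g + h)) = 0 := T.tr _ e
    rw [this, mul_zero, mul_zero]

lemma sep {x : H →L[ℂ] H} (hx : x ∈ T.alg) (h : x T.Ω = 0) : x = 0 := by
  apply ContinuousLinearMap.ext_on T.dense
  rintro _ ⟨g, rfl⟩
  have : x * T.V g = T.V g * x :=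
    T.ind (P := fun x => x * T.V g = T.V g * x) (isClosed_eq (by fun_prop) (by fun_prop))
      (fun h => T.comm h g) (by simp) (fun a b h1 h2 => by rw [add_mul, mul_add, h1, h2])
      (fun a b h => by rw [smul_mul_assoc, mul_smul_comm, h]) hx
  have := congrArg (fun f : H →L[ℂ] H => f T.Ω) this
  simpa [h] using this

theorem stablyFinite : StablyFinite T.alg := by
  intro n M hM
  set P := 1 - M * star M with hP
  have hPP : star P * P = P := by
    simp only [hP, star_sub, star_one, star_mul, star_star, sub_mul, mul_sub, one_mul, mul_one]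
    rw [mul_assoc, ← mul_assoc (star M), hM, one_mul]; simp
  have h1 : ∑ i, T.τ ((M * star M) i i : T.alg) = ∑ i, T.τ ((star M * M) i i : T.alg) := by
    simp only [Matrix.mul_apply, Matrix.star_apply, AddSubmonoidClass.coe_finset_sum, τ_sum,
      MulMemClass.coe_mul]
    rw [sum_comm]
    refine sum_congr rfl fun i _ => sum_congr rfl fun j _ => T.τ_comm (M j i).2 (star (M j i)).2
  have h2 : ∑ i, T.τ (P i i : T.alg) = 0 := by
    have : ∀ i, T.τ (P i i : T.alg) = T.τ ((star M * M) i i : T.alg) -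
        T.τ ((M * star M) i i : T.alg) := by
      intro i
      rw [hM, eq_sub_iff_add_eq, ← τ_add, hP]; simp
    simp only [this, sum_sub_distrib, h1, sub_self]
  rw [← hPP] at h2
  simp only [Matrix.mul_apply, Matrix.star_apply, AddSubmonoidClass.coe_finset_sum, τ_sum,
    MulMemClass.coe_mul, StarMemClass.coe_star, τ_star_mul] at h2
  have h3 : ∑ i, ∑ j, ‖(P j i : H →L[ℂ] H) T.Ω‖ ^ 2 = 0 := by exact_mod_cast h2
  rw [sum_eq_zero_iff_of_nonneg (fun i _ => sum_nonneg fun j _ => by positivity)] at h3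
  have h4 : P = 0 := by
    refine Matrix.ext fun j i => ?_
    have := (sum_eq_zero_iff_of_nonneg (fun j _ => by positivity)).mp (h3 i (mem_univ _)) j
      (mem_univ _)
    have h5 : ((P j i : T.alg) : H →L[ℂ] H) = 0 := T.sep (P j i).2 (by simpa using this)
    exact Subtype.ext h5
  exact (sub_eq_zero.mp h4).symm

lemma norm_U (g : Γ) : ‖T.U g‖ ≤ 1 := by
  have h := CStarRing.norm_star_mul_self (x := T.U g)
  rw [T.U_unit] at h
  have h1 : ‖(1 : H →L[ℂ] H)‖ ≤ 1 := ContinuousLinearMap.norm_id_le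
  nlinarith [norm_nonneg (T.U g)]

theorem simple (nd : ∀ g, g ≠ 0 → ∃ h, ∃ m : ℕ, 0 < m ∧ T.c h g / T.c g h ≠ 1 ∧
    (T.c h g / T.c g h) ^ m = 1) : IsSimpleAlg T.alg := by
  classical
  let u : Γ → T.alg := fun g => ⟨T.U g, T.U_mem g⟩
  have hne : (1 : T.alg) ≠ 0 := by
    intro h
    have := T.τ_one
    rw [show (1 : H →L[ℂ] H) = 0 from congrArg Subtype.val h, τ_zero] at this
    exact zero_ne_one this
  refine ⟨⟨1, 0, hne⟩, fun I hI => ?_⟩
  have Ismul : ∀ (a : ℂ) x, x ∈ I → a • x ∈ I := fun a x hx => by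
    rw [Algebra.smul_def]; exact I.mul_mem_left _ _ hx
  have conj : ∀ h g, u h * u g * star (u h) = (T.c h g / T.c g h) • u g := by
    intro h g
    apply Subtype.ext
    change T.U h * T.U g * star (T.U h) = (T.c h g / T.c g h) • T.U g
    have : T.U h * T.U g = (T.c h g / T.c g h) • (T.U g * T.U h) := by
      rw [T.U_mul, T.U_mul, smul_smul, div_mul_cancel₀ _ (T.c_ne _ _), add_comm]
    rw [this, smul_mul_assoc, mul_assoc, T.U_unit', mul_one]
  let Good : (T.alg →ₗ[ℂ] T.alg) → Prop := fun Φ => (∀ x, ‖Φ x‖ ≤ ‖x‖) ∧ (∀ x ∈ I, Φ x ∈ I) ∧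
    (∀ g, ∃ s : ℂ, Φ (u g) = s • u g) ∧ Φ 1 = 1
  have gcomp : ∀ Φ Ψ, Good Φ → Good Ψ → Good (Φ ∘ₗ Ψ) := by
    rintro Φ Ψ ⟨a1, a2, a3, a4⟩ ⟨b1, b2, b3, b4⟩
    refine ⟨fun x => (a1 _).trans (b1 x), fun x hx => a2 _ (b2 x hx), fun g => ?_, by simp [a4, b4]⟩
    obtain ⟨s, hs⟩ := a3 g
    obtain ⟨t, ht⟩ := b3 g
    exact ⟨t * s, by simp [hs, ht, smul_smul]⟩
  have gid : Good LinearMap.id := ⟨fun x => le_rfl, fun x hx => hx, fun g => ⟨1, by simp⟩, rfl⟩
  have one : ∀ g, g ≠ 0 → ∃ Φ, Good Φ ∧ Φ (u g) = 0 := by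
    intro g hg
    obtain ⟨h, m, hm, h1, h2⟩ := nd g hg
    let C : T.alg →ₗ[ℂ] T.alg := (LinearMap.mulRight ℂ (star (u h))) ∘ₗ (LinearMap.mulLeft ℂ (u h))
    have hC : ∀ x, C x = u h * x * star (u h) := fun x => rfl
    have gC : Good C := by
      refine ⟨fun x => ?_, fun x hx => I.mul_mem_right _ _ (I.mul_mem_left _ _ hx),
        fun g => ⟨_, conj h g⟩, Subtype.ext (by simpa [hC, u] using T.U_unit' h)⟩
      have n1 : ‖u h‖ ≤ 1 := T.norm_U h
      have n2 : ‖star (u h)‖ ≤ 1 := by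
        change ‖star (T.U h)‖ ≤ 1
        rw [norm_star]; exact T.norm_U h
      calc ‖u h * x * star (u h)‖ ≤ ‖u h‖ * ‖x‖ * ‖star (u h)‖ :=
            (norm_mul_le _ _).trans (by gcongr; exact norm_mul_le _ _)
        _ ≤ 1 * ‖x‖ * 1 := by gcongr
        _ = _ := by ring
    have gP : ∀ j : ℕ, Good (C ^ j) := by
      intro j
      induction j with
      | zero => exact gid
      | succ j ih => rw [pow_succ]; exact gcomp _ _ ih gC
    have pU : ∀ (j : ℕ) g, (C ^ j) (u g) = (T.c h g / T.c g h) ^ j • u g := by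
      intro j g
      induction j with
      | zero => simp
      | succ j ih => rw [pow_succ', Module.End.mul_apply, ih, map_smul, hC, conj, smul_smul, pow_succ]
    have hm' : (m : ℂ) ≠ 0 := by exact_mod_cast hm.ne'
    refine ⟨(m : ℂ)⁻¹ • ∑ j ∈ range m, C ^ j, ⟨fun x => ?_, fun x hx => ?_, fun g => ?_, ?_⟩, ?_⟩
    · simp only [LinearMap.smul_apply, LinearMap.sum_apply]
      rw [norm_smul, norm_inv, Complex.norm_natCast]
      have := norm_sum_le_of_le (range m) (fun j _ => (gP j).1 x)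
      rw [sum_const, card_range, nsmul_eq_mul] at this
      have hm2 : (0 : ℝ) < m := by exact_mod_cast hm
      rw [inv_mul_le_iff₀ hm2]; exact this
    · simp only [LinearMap.smul_apply, LinearMap.sum_apply]
      exact Ismul _ _ (sum_mem fun j _ => (gP j).2.1 x hx)
    · simp only [LinearMap.smul_apply, LinearMap.sum_apply, pU, ← sum_smul, smul_smul]
      exact ⟨_, rfl⟩
    · simp only [LinearMap.smul_apply, LinearMap.sum_apply, fun j => (gP j).2.2.2]
      rw [sum_const, card_range, ← Nat.cast_smul_eq_nsmul ℂ, smul_smul, inv_mul_cancel₀ hm', one_smul]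
    · simp only [LinearMap.smul_apply, LinearMap.sum_apply, pU, ← sum_smul]
      rw [geom_sum_eq h1, h2]; simp
  have all : ∀ S : Finset Γ, ∃ Φ, Good Φ ∧ ∀ g ∈ S, g ≠ 0 → Φ (u g) = 0 := by
    intro S
    induction S using Finset.induction_on with
    | empty => exact ⟨_, gid, by simp⟩
    | insert g S _ ih =>
      obtain ⟨Φ, h1, h2⟩ := ih
      by_cases hg : g = 0
      · exact ⟨Φ, h1, fun g' hg' h0 => h2 g' ((mem_insert.mp hg').resolve_left (hg ▸ h0)) h0⟩
      obtain ⟨Ψ, h3, h4⟩ := one g hg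
      refine ⟨Ψ ∘ₗ Φ, gcomp _ _ h3 h1, fun g' hg' h0 => ?_⟩
      rcases mem_insert.mp hg' with rfl | hg'
      · obtain ⟨s, hs⟩ := h1.2.2.1 g'
        simp [hs, h4]
      · simp [h2 g' hg' h0]
  have key : ∀ y ∈ I, T.τ y • (1 : T.alg) ∈ I := by
    intro y hy
    apply hI.closure_subset
    rw [Metric.mem_closure_iff]
    intro ε hε
    obtain ⟨S, f, hf⟩ := T.approx y.2 (half_pos hε)
    obtain ⟨Φ, h1, h2⟩ := all S
    refine ⟨Φ y, h1.2.1 y hy, ?_⟩
    set z : T.alg := ∑ g ∈ S, f g • u g with hz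
    have hz' : (z : H →L[ℂ] H) = ∑ g ∈ S, f g • T.U g := by simp [hz, u]
    have e1 : Φ z = T.τ z • (1 : T.alg) := by
      rw [hz', τ_sum, sum_smul, hz, map_sum]
      refine sum_congr rfl fun g hg => ?_
      rw [map_smul, τ_smul]
      by_cases h0 : g = 0
      · subst h0
        have : u 0 = 1 := Subtype.ext T.U_zero
        rw [this, h1.2.2.2, T.U_zero, τ_one, mul_one]
      · have : T.τ (T.U g) = 0 := T.tr g h0
        rw [h2 g hg h0, this]; simp
    have e2 : T.τ y • (1 : T.alg) - Φ y = T.τ (y - z : T.alg) • (1 : T.alg) - Φ (y - z) := by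
      have : T.τ (y : H →L[ℂ] H) = T.τ (y - z : T.alg) + T.τ z := by rw [← τ_add]; simp
      rw [this, map_sub, e1, add_smul]; abel
    have n1 : ‖y - z‖ < ε / 2 := by
      change ‖(y : H →L[ℂ] H) - z‖ < _
      rwa [hz']
    have n2 : ‖(1 : T.alg)‖ ≤ 1 := ContinuousLinearMap.norm_id_le
    have n3 : ‖T.τ (y - z : T.alg)‖ ≤ ‖y - z‖ := T.τ_le _
    rw [dist_eq_norm, e2]
    calc _ ≤ ‖T.τ (y - z : T.alg) • (1 : T.alg)‖ + ‖Φ (y - z)‖ := norm_sub_le _ _
      _ ≤ ‖y - z‖ * 1 + ‖y - z‖ := by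
        rw [norm_smul]; gcongr; exact h1.1 _
      _ < ε := by linarith
  by_cases hb : I = ⊥
  · exact Or.inl hb
  right
  obtain ⟨x, hx, hx0⟩ : ∃ x ∈ I, x ≠ 0 := by
    by_contra hcon
    push Not at hcon
    exact hb (by ext x; simpa using ⟨hcon x, fun h => h ▸ I.zero_mem⟩)
  have h1 := key _ (I.mul_mem_left (star x) x hx)
  have h2 : T.τ (star x * x : T.alg) ≠ 0 := by
    change T.τ (star (x : H →L[ℂ] H) * x) ≠ 0
    rw [τ_star_mul]
    intro h
    apply hx0
    exact Subtype.ext (T.sep x.2 (by simpa using h))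
  have h3 := Ismul (T.τ (star x * x : T.alg))⁻¹ _ h1
  rw [smul_smul, inv_mul_cancel₀ h2, one_smul] at h3
  exact I.one_mem_iff.mp h3

end TG

/-- an action by conjugation with a unitary representation preserving the algebra -/
noncomputable def act {K : Type} [Group K] (A : StarSubalgebra ℂ (H →L[ℂ] H))
    (w : K →* (H →L[ℂ] H)) (hw : ∀ k, star (w k) = w k⁻¹)
    (hA : ∀ k, ∀ x ∈ A, w k * x * w k⁻¹ ∈ A) : K →* (A ≃⋆ₐ[ℂ] A) :=
  MonoidHom.mk' (fun k =>
    { toFun := fun x => ⟨w k * x * w k⁻¹, hA k x x.2⟩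
      invFun := fun x => ⟨w k⁻¹ * x * w k⁻¹⁻¹, hA k⁻¹ x x.2⟩
      left_inv := fun x => Subtype.ext (by
        simp only [inv_inv, ← mul_assoc, ← map_mul, inv_mul_cancel, map_one, one_mul]
        rw [mul_assoc, ← map_mul]; simp)
      right_inv := fun x => Subtype.ext (by
        simp only [inv_inv, ← mul_assoc, ← map_mul, mul_inv_cancel, map_one, one_mul]
        rw [mul_assoc, ← map_mul]; simp)
      map_mul' := fun x y => Subtype.ext (by
        simp only [MulMemClass.coe_mul, mul_assoc]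
        rw [← mul_assoc (w k⁻¹) (w k), ← map_mul]; simp)
      map_add' := fun x y => Subtype.ext (by simp [mul_add, add_mul])
      map_star' := fun x => Subtype.ext (by simp [hw, mul_assoc])
      map_smul' := fun a x => Subtype.ext (by simp) })
    (fun k l => by
      ext x : 2
      change w (k * l) * x * w (k * l)⁻¹ = w k * (w l * x * w l⁻¹) * w k⁻¹
      simp [mul_assoc])

lemma act_coe {K : Type} [Group K] (A : StarSubalgebra ℂ (H →L[ℂ] H))
    (w : K →* (H →L[ℂ] H)) (hw : ∀ k, star (w k) = w k⁻¹)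
    (hA : ∀ k, ∀ x ∈ A, w k * x * w k⁻¹ ∈ A) (k : K) (x : A) :
    (act A w hw hA k x : H →L[ℂ] H) = w k * x * w k⁻¹ := rfl

lemma TG.conj_mem (T : TG Γ H) (w w' : H →L[ℂ] H) (h : ∀ g, ∃ s : ℂ, w * T.U g * w' = s • T.U g) :
    ∀ x ∈ T.alg, w * x * w' ∈ T.alg := by
  intro x hx
  refine T.ind (P := fun x => w * x * w' ∈ T.alg) (T.closed.preimage (by fun_prop)) (fun g => ?_)
    (by simp) (fun a b h1 h2 => by rw [mul_add, add_mul]; exact add_mem h1 h2)
    (fun a b h => by rw [mul_smul_comm, smul_mul_assoc]; exact T.alg.smul_mem h a) hx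
  obtain ⟨s, hs⟩ := h g
  rw [hs]; exact T.alg.smul_mem (T.U_mem g) s

end Pool.Agent.H70.Rk
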