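import Pool.Agent.H70.Rk1

namespace Pool.Agent.H70.Rk
open scoped InnerProductSpace TensorProduct
open Finset UniformSpace

section tens
variable {H K : Type} [NormedAddCommGroup H] [InnerProductSpace ℂ H]
  [NormedAddCommGroup K] [InnerProductSpace ℂ K]

/-- The Hilbert space tensor product: the completion of the algebraic tensor product. -/
abbrev HT (H K : Type) [NormedAddCommGroup H] [InnerProductSpace ℂ H]
    [NormedAddCommGroup K] [InnerProductSpace ℂ K] : Type := Completion (H ⊗[ℂ] K)

/-- The operator `a ⊗ b` on the Hilbert space tensor product. -/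
noncomputable def tens (a : H →L[ℂ] H) (b : K →L[ℂ] K) : HT H K →L[ℂ] HT H K :=
  (TensorProduct.mapL a b).completion

noncomputable def tp (x : H) (y : K) : HT H K := ((x ⊗ₜ[ℂ] y : H ⊗[ℂ] K) : Completion (H ⊗[ℂ] K))

lemma tens_tp (a : H →L[ℂ] H) (b : K →L[ℂ] K) (x : H) (y : K) :
    tens a b (tp x y) = tp (a x) (b y) := by
  simp [tens, tp]

lemma inner_tp (x x' : H) (y y' : K) : ⟪tp x y, tp x' y'⟫_ℂ = ⟪x, x'⟫_ℂ * ⟪y, y'⟫_ℂ := by
  simp [tp]

lemma tp_add_left (x x' : H) (y : K) : tp (x + x') y = tp x y + tp x' y := by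
  simp [tp, TensorProduct.add_tmul, Completion.coe_add]
lemma tp_add_right (x : H) (y y' : K) : tp x (y + y') = tp x y + tp x y' := by
  simp [tp, TensorProduct.tmul_add, Completion.coe_add]
lemma tp_smul_left (a : ℂ) (x : H) (y : K) : tp (a • x) y = a • tp x y := by
  simp [tp, ← TensorProduct.smul_tmul', Completion.coe_smul]
lemma tp_smul_right (a : ℂ) (x : H) (y : K) : tp x (a • y) = a • tp x y := by
  simp [tp, Completion.coe_smul]
lemma tp_zero_left (y : K) : tp (0 : H) y = 0 := by simp [tp, Completion.coe_zero]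
lemma tp_zero_right (x : H) : tp x (0 : K) = 0 := by simp [tp, Completion.coe_zero]
lemma tp_cont : Continuous fun p : H × K => tp p.1 p.2 :=
  (Completion.continuous_coe _).comp TensorProduct.continuous_tmul

lemma tp_ind {P : HT H K → Prop} (hc : IsClosed {x | P x}) (h : ∀ x y, P (tp x y))
    (hadd : ∀ x y, P x → P y → P (x + y)) (x : HT H K) : P x := by
  refine Completion.induction_on x hc fun z => ?_
  induction z using TensorProduct.induction_on with
  | zero => have := h 0 0; rwa [tp_zero_left, ← Completion.coe_zero] at this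
  | tmul x y => exact h x y
  | add x y hx hy => rw [Completion.coe_add]; exact hadd _ _ hx hy

lemma tp_ext {f g : HT H K →L[ℂ] HT H K} (h : ∀ x y, f (tp x y) = g (tp x y)) : f = g := by
  ext z
  exact tp_ind (P := fun z => f z = g z) (isClosed_eq f.continuous g.continuous) h
    (fun x y hx hy => by rw [map_add, map_add, hx, hy]) z

lemma isTens_iff {a : H →L[ℂ] H} {b : K →L[ℂ] K} {c : HT H K →L[ℂ] HT H K} :
    IsTens tp a b c ↔ c = tens a b :=
  ⟨fun h => tp_ext fun x y => by rw [h, tens_tp], fun h x y => by rw [h, tens_tp]⟩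

lemma isHTensor : IsHTensor (tp : H → K → HT H K) := by
  refine ⟨inner_tp, fun z => ?_⟩
  change z ∈ (Submodule.span ℂ {z : HT H K | ∃ x y, z = tp x y}).topologicalClosure
  exact tp_ind (P := fun z => z ∈ (Submodule.span ℂ
    {z : HT H K | ∃ x y, z = tp x y}).topologicalClosure) (Submodule.isClosed_topologicalClosure _)
    (fun x y => Submodule.le_topologicalClosure _ (Submodule.subset_span ⟨x, y, rfl⟩))
    (fun x y hx hy => add_mem hx hy) z

lemma tens_mul (a a' : H →L[ℂ] H) (b b' : K →L[ℂ] K) :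
    tens a b * tens a' b' = tens (a * a') (b * b') :=
  tp_ext fun x y => by simp [tens_tp]
lemma tens_one : tens (1 : H →L[ℂ] H) (1 : K →L[ℂ] K) = 1 := tp_ext fun x y => by simp [tens_tp]
lemma tens_add_left (a a' : H →L[ℂ] H) (b : K →L[ℂ] K) :
    tens (a + a') b = tens a b + tens a' b := tp_ext fun x y => by simp [tens_tp, tp_add_left]
lemma tens_add_right (a : H →L[ℂ] H) (b b' : K →L[ℂ] K) :
    tens a (b + b') = tens a b + tens a b' := tp_ext fun x y => by simp [tens_tp, tp_add_right]
lemma tens_smul_left (r : ℂ) (a : H →L[ℂ] H) (b : K →L[ℂ] K) :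
    tens (r • a) b = r • tens a b := tp_ext fun x y => by simp [tens_tp, tp_smul_left]
lemma tens_smul_right (r : ℂ) (a : H →L[ℂ] H) (b : K →L[ℂ] K) :
    tens a (r • b) = r • tens a b := tp_ext fun x y => by simp [tens_tp, tp_smul_right]
lemma tens_zero_left (b : K →L[ℂ] K) : tens (0 : H →L[ℂ] H) b = 0 :=
  tp_ext fun x y => by simp [tens_tp, tp_zero_left]
lemma tens_zero_right (a : H →L[ℂ] H) : tens a (0 : K →L[ℂ] K) = 0 :=
  tp_ext fun x y => by simp [tens_tp, tp_zero_right]

lemma norm_tens_le (a : H →L[ℂ] H) (b : K →L[ℂ] K) : ‖tens a b‖ ≤ ‖a‖ * ‖b‖ := by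
  refine ContinuousLinearMap.opNorm_le_bound _ (by positivity) fun x => ?_
  refine Completion.induction_on x (isClosed_le (by fun_prop) (by fun_prop)) fun z => ?_
  rw [tens, ContinuousLinearMap.completion_apply_coe, Completion.norm_coe, Completion.norm_coe]
  exact ((TensorProduct.mapL a b).le_opNorm z).trans
    (by gcongr; exact TensorProduct.norm_mapL_le a b)

lemma cont_aux {E : Type} [NormedAddCommGroup E] (F : E → K →L[ℂ] K) (C : ℝ)
    (h : ∀ a b, F (a + b) = F a + F b) (hC : ∀ a, ‖F a‖ ≤ C * ‖a‖) : Continuous F :=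
  AddMonoidHomClass.continuous_of_bound (AddMonoidHom.mk' F h) C hC

lemma tens_cont_left (b : K →L[ℂ] K) : Continuous fun a : H →L[ℂ] H => tens a b :=
  cont_aux (K := HT H K) _ ‖b‖ (fun a a' => tens_add_left a a' b)
    (fun a => by rw [mul_comm]; exact norm_tens_le a b)

lemma tens_cont_right (a : H →L[ℂ] H) : Continuous fun b : K →L[ℂ] K => tens a b :=
  cont_aux (K := HT H K) _ ‖a‖ (fun b b' => tens_add_right a b b') (fun b => norm_tens_le a b)

variable [CompleteSpace H] [CompleteSpace K]

lemma star_tens (a : H →L[ℂ] H) (b : K →L[ℂ] K) :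
    star (tens a b) = tens (star a) (star b) := by
  rw [ContinuousLinearMap.star_eq_adjoint, eq_comm, ContinuousLinearMap.eq_adjoint_iff]
  intro z w
  refine tp_ind (P := fun z => ⟪tens (star a) (star b) z, w⟫_ℂ = ⟪z, tens a b w⟫_ℂ)
    (isClosed_eq (by fun_prop) (by fun_prop)) (fun x y => ?_)
    (fun x y hx hy => by rw [map_add, inner_add_left, inner_add_left, hx, hy]) z
  refine tp_ind (P := fun w => ⟪tens (star a) (star b) (tp x y), w⟫_ℂ = ⟪tp x y, tens a b w⟫_ℂ)
    (isClosed_eq (by fun_prop) (by fun_prop)) (fun x' y' => ?_)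
    (fun x y hx hy => by rw [map_add, inner_add_right, inner_add_right, hx, hy]) w
  simp only [tens_tp, inner_tp, ContinuousLinearMap.star_eq_adjoint,
    ContinuousLinearMap.adjoint_inner_left]

variable {Γ Λ : Type} [AddCommGroup Γ] [AddCommGroup Λ]

noncomputable def TG.prod (T : TG Γ H) (S : TG Λ K) : TG (Γ × Λ) (HT H K) where
  U g := tens (T.U g.1) (S.U g.2)
  V g := tens (T.V g.1) (S.V g.2)
  c g h := T.c g.1 h.1 * S.c g.2 h.2
  Ω := tp T.Ω S.Ω
  c_ne g h := mul_ne_zero (T.c_ne _ _) (S.c_ne _ _)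
  U_mul g h := by
    rw [tens_mul, T.U_mul, S.U_mul, tens_smul_left, tens_smul_right, smul_smul]; rfl
  U_zero := by rw [Prod.fst_zero, Prod.snd_zero, T.U_zero, S.U_zero, tens_one]
  U_unit g := by rw [star_tens, tens_mul, T.U_unit, S.U_unit, tens_one]
  U_unit' g := by rw [star_tens, tens_mul, T.U_unit', S.U_unit', tens_one]
  comm g h := by rw [tens_mul, tens_mul, T.comm, S.comm]
  tr0 := by simp [tp, T.tr0, S.tr0]
  tr g hg := by
    rw [tens_tp, inner_tp]
    by_cases h : g.1 = 0
    · rw [S.tr g.2 (fun h2 => hg (Prod.ext h h2)), mul_zero]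
    · rw [T.tr g.1 h, zero_mul]
  dense := by
    intro z
    set W : Submodule ℂ (HT H K) := (Submodule.span ℂ (Set.range fun g : Γ × Λ =>
      tens (T.V g.1) (S.V g.2) (tp T.Ω S.Ω))).topologicalClosure with hW
    change z ∈ W
    have hc : IsClosed (W : Set (HT H K)) := Submodule.isClosed_topologicalClosure _
    refine tp_ind (P := fun z => z ∈ W) hc (fun x y => ?_) (fun x y hx hy => add_mem hx hy) z
    refine closure_minimal (t := {x | tp x y ∈ W}) ?_
      (hc.preimage (tp_cont.comp (Continuous.prodMk_left y))) (T.dense x)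
    intro x hx
    induction hx using Submodule.span_induction with
    | zero => change tp 0 y ∈ W; rw [tp_zero_left]; exact zero_mem _
    | add x x' _ _ h1 h2 => change tp _ y ∈ W; rw [tp_add_left]; exact add_mem h1 h2
    | smul a x _ h1 => change tp _ y ∈ W; rw [tp_smul_left]; exact W.smul_mem _ h1
    | mem x hx =>
      obtain ⟨g, rfl⟩ := hx
      refine closure_minimal (t := {y | tp (T.V g T.Ω) y ∈ W}) ?_
        (hc.preimage (tp_cont.comp (Continuous.prodMk_right _))) (S.dense y)
      intro y hy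
      induction hy using Submodule.span_induction with
      | zero => change tp _ 0 ∈ W; rw [tp_zero_right]; exact zero_mem _
      | add x x' _ _ h1 h2 => change tp _ _ ∈ W; rw [tp_add_right]; exact add_mem h1 h2
      | smul a x _ h1 => change tp _ _ ∈ W; rw [tp_smul_right]; exact W.smul_mem _ h1
      | mem y hy =>
        obtain ⟨h, rfl⟩ := hy
        exact Submodule.le_topologicalClosure _ (Submodule.subset_span ⟨(g, h), tens_tp _ _ _ _⟩)
  c_symm g := by simp only [Prod.fst_neg, Prod.snd_neg, T.c_symm, S.c_symm]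

lemma TG.tens_mem (T : TG Γ H) (S : TG Λ K) {a : H →L[ℂ] H} (ha : a ∈ T.alg) {b : K →L[ℂ] K}
    (hb : b ∈ S.alg) : tens a b ∈ (T.prod S).alg := by
  refine T.ind (P := fun a => tens a b ∈ (T.prod S).alg)
    ((T.prod S).closed.preimage (tens_cont_left b)) (fun g => ?_)
    (by rw [tens_zero_left]; exact zero_mem _)
    (fun x y h1 h2 => by rw [tens_add_left]; exact add_mem h1 h2)
    (fun r x h => by rw [tens_smul_left]; exact (T.prod S).alg.smul_mem h r) ha
  exact S.ind (P := fun b => tens (T.U g) b ∈ (T.prod S).alg)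
    ((T.prod S).closed.preimage (tens_cont_right _)) (fun h => (T.prod S).U_mem (g, h))
    (by rw [tens_zero_right]; exact zero_mem _)
    (fun x y h1 h2 => by rw [tens_add_right]; exact add_mem h1 h2)
    (fun r x h => by rw [tens_smul_right]; exact (T.prod S).alg.smul_mem h r) hb

end tens

section heis
variable {Γ H : Type} [NormedAddCommGroup H] [InnerProductSpace ℂ H] [CompleteSpace H]

lemma hb_ext (b : HilbertBasis Γ ℂ H) {f g : H →L[ℂ] H} (h : ∀ x, f (b x) = g (b x)) : f = g := by
  refine ContinuousLinearMap.ext_on (s := Set.range b) ?_ (by rintro _ ⟨x, rfl⟩; exact h x)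
  rw [Submodule.dense_iff_topologicalClosure_eq_top]; exact b.dense_span

lemma mono (b : HilbertBasis Γ ℂ H) (e : Γ ≃ Γ) (w : Γ → ℂ) (hw : ∀ x, ‖w x‖ = 1) :
    ∃ T : H →L[ℂ] H, (∀ x, T (b x) = w x • b (e x)) ∧ star T * T = 1 ∧ T * star T = 1 := by
  classical
  have ho : Orthonormal ℂ fun x => w x • b (e x) := by
    have h := orthonormal_iff_ite.mp b.orthonormal
    rw [orthonormal_iff_ite]
    intro x y
    rw [inner_smul_left, inner_smul_right, h]
    by_cases hxy : x = y
    · subst hxy
      simp [Complex.conj_mul', hw]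
    · simp [hxy]
  have hs : ⊤ ≤ (Submodule.span ℂ (Set.range fun x => w x • b (e x))).topologicalClosure := by
    rw [← b.dense_span]
    apply Submodule.topologicalClosure_mono
    rw [Submodule.span_le]
    rintro _ ⟨y, rfl⟩
    have h0 : w (e.symm y) ≠ 0 := fun h => by simpa [h] using hw (e.symm y)
    have : b y = (w (e.symm y))⁻¹ • (w (e.symm y) • b (e (e.symm y))) := by
      rw [smul_smul, inv_mul_cancel₀ h0, one_smul, e.apply_symm_apply]
    rw [this]
    exact Submodule.smul_mem _ _ (Submodule.subset_span ⟨e.symm y, rfl⟩)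
  let b' := HilbertBasis.mk ho hs
  let E : H ≃ₗᵢ[ℂ] H := b.repr.trans b'.repr.symm
  have hE : star (E : H →L[ℂ] H) = (E.symm : H →L[ℂ] H) := by
    rw [ContinuousLinearMap.star_eq_adjoint]; exact E.adjoint_eq_symm
  refine ⟨(E : H →L[ℂ] H), fun x => ?_, ?_, ?_⟩
  · change b'.repr.symm (b.repr (b x)) = _
    rw [b.repr_self, b'.repr_symm_single]
    simp [b']
  · rw [hE]; ext x; simp
  · rw [hE]; ext x; simp

variable [AddCommGroup Γ]

theorem heis (b : HilbertBasis Γ ℂ H) (c : Γ → Γ → ℂ) (hn : ∀ g h, ‖c g h‖ = 1)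
    (h1 : ∀ g g' h, c (g + g') h = c g h * c g' h) (h2 : ∀ g h h', c g (h + h') = c g h * c g h')
    {K : Type} [Group K] (χ : K → Γ → ℂ) (hχ : ∀ k g, ‖χ k g‖ = 1)
    (k1 : ∀ k g h, χ k (g + h) = χ k g * χ k h) (k2 : ∀ k l g, χ (k * l) g = χ k g * χ l g) :
    ∃ T : TG Γ H, T.c = c ∧ ∃ w : K →* (H →L[ℂ] H), (∀ k, star (w k) = w k⁻¹) ∧
      ∀ k g, w k * T.U g * w k⁻¹ = χ k g • T.U g := by
  classical
  have ne : ∀ g h, c g h ≠ 0 := fun g h e => by simpa [e] using hn g h
  have c0 : ∀ h, c 0 h = 1 := fun h => by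
    have := h1 0 0 h
    rw [add_zero] at this
    exact (mul_left_cancel₀ (ne 0 h) (by rw [← this, mul_one])).symm
  have c0' : ∀ h, c h 0 = 1 := fun h => by
    have := h2 h 0 0
    rw [add_zero] at this
    exact (mul_left_cancel₀ (ne h 0) (by rw [← this, mul_one])).symm
  have x1 : ∀ g, χ 1 g = 1 := fun g => by
    have := k2 1 1 g
    rw [mul_one] at this
    have ne : χ 1 g ≠ 0 := fun e => by simpa [e] using hχ 1 g
    exact (mul_left_cancel₀ ne (by rw [← this, mul_one])).symm
  choose U hU hU1 hU2 using fun g => mono b (Equiv.addLeft g) (c g) (hn g)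
  choose V hV _ _ using fun g => mono b (Equiv.addRight g) (fun h => c h g) (fun h => hn h g)
  choose w hw hw1 hw2 using fun k => mono b (Equiv.refl Γ) (χ k) (hχ k)
  simp only [Equiv.coe_addLeft, Equiv.coe_addRight, Equiv.refl_apply] at hU hV hw
  have wm : ∀ k l, w (k * l) = w k * w l := fun k l => hb_ext b fun x => by
    simp [hw, k2, smul_smul, mul_comm]
  have w1 : w 1 = 1 := hb_ext b fun x => by simp [hw, x1]
  have ho := orthonormal_iff_ite.mp b.orthonormal
  refine ⟨{ U := U, V := V, c := c, Ω := b 0, c_ne := ne, U_mul := ?_, U_zero := ?_,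
            U_unit := hU1, U_unit' := hU2, comm := ?_, tr0 := b.orthonormal.1 0, tr := ?_,
            dense := ?_, c_symm := ?_ }, rfl, ⟨⟨w, w1⟩, wm⟩, ?_, ?_⟩
  · intro g h
    refine hb_ext b fun x => ?_
    simp only [ContinuousLinearMap.mul_apply, hU, map_smul, smul_smul, h1, h2,
      ContinuousLinearMap.smul_apply, add_assoc]
    congr 1; ring
  · exact hb_ext b fun x => by simp [hU, c0]
  · intro g h
    refine hb_ext b fun x => ?_
    simp only [ContinuousLinearMap.mul_apply, hU, hV, map_smul, smul_smul, h1, h2, add_assoc]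
    congr 1; ring
  · intro g hg
    rw [hU, inner_smul_right, ho]; simp [hg.symm]
  · rw [Submodule.dense_iff_topologicalClosure_eq_top]
    simp only [hV, c0, one_smul, zero_add]
    exact b.dense_span
  · intro g
    have e1 := h1 g (-g) g
    have e2 := h2 g g (-g)
    rw [add_neg_cancel, c0] at e1
    rw [add_neg_cancel, c0'] at e2
    exact mul_left_cancel₀ (ne g g) (e2.symm.trans e1)
  · intro k
    change star (w k) = w k⁻¹
    calc star (w k) = star (w k) * (w k * w k⁻¹) := by rw [← wm, mul_inv_cancel, w1, mul_one]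
      _ = _ := by rw [← mul_assoc, hw1, one_mul]
  · intro k g
    change w k * U g * w k⁻¹ = _
    refine hb_ext b fun x => ?_
    have := k2 k⁻¹ k x
    rw [inv_mul_cancel, x1] at this
    simp only [ContinuousLinearMap.mul_apply, hU, hw, map_smul, smul_smul, k1,
      ContinuousLinearMap.smul_apply]
    congr 1
    linear_combination (-(c g x * χ k g)) * this

end heis

end Pool.Agent.H70.Rk
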