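import Pool.Agent.H70.Rk2

namespace Pool.Agent.H70.Rk
open scoped InnerProductSpace
open Finset

lemma sym_alg {D : Type} [Ring D] [StarRing D] (v x z t : D)
    (hv : star v * v = 1) (hv' : v * star v = 1) (hx : star x = x) (hz : star z = z)
    (ht : star t = t) (xx : x * x = 1) (zz : z * z = 1) (tt : t * t = 1)
    (vx : Commute v x) (vz : Commute v z) (vt : Commute v t) (xz : x * z = -(z * x))
    (tx : Commute t x) (tz : Commute t z) :
    star ((v * x * (1 - z) + star v * x * (1 + z)) * t) =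
      (v * x * (1 - z) + star v * x * (1 + z)) * t ∧
    (v * x * (1 - z) + star v * x * (1 + z)) * t * ((v * x * (1 - z) + star v * x * (1 + z)) * t)
      = 4 := by
  have wx : Commute (star v) x := by simpa [hx] using vx.star_star
  have wz : Commute (star v) z := by simpa [hz] using vz.star_star
  have wt : Commute (star v) t := by simpa [ht] using vt.star_star
  set w := star v with hw
  have tA : Commute t (v * x * (1 - z) + w * x * (1 + z)) :=
    ((vt.symm.mul_right tx).mul_right ((Commute.one_right t).sub_right tz)).add_right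
      ((wt.symm.mul_right tx).mul_right ((Commute.one_right t).add_right tz))
  have p1 : (1 - z) * x = x * (1 + z) := by rw [sub_mul, mul_add, xz]; simp [sub_eq_add_neg]
  have p2 : (1 + z) * x = x * (1 - z) := by rw [add_mul, mul_sub, xz]; simp
  have gen : ∀ a b P P' Q : D, Commute b x → Commute b P' → P * x = x * P' →
      a * x * P * (b * x * Q) = a * b * (P' * Q) := by
    intro a b P P' Q h1 h2 h3
    calc a * x * P * (b * x * Q) = a * x * (P * x) * b * Q := by rw [h1.eq]; noncomm_ring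
      _ = a * (x * x) * (P' * b) * Q := by rw [h3]; noncomm_ring
      _ = _ := by rw [xx, ← h2.eq]; noncomm_ring
  have c1 : ∀ b, Commute b z → Commute b (1 + z) := fun b h => (Commute.one_right b).add_right h
  have c2 : ∀ b, Commute b z → Commute b (1 - z) := fun b h => (Commute.one_right b).sub_right h
  constructor
  · simp only [star_mul, star_add, star_sub, star_one, hx, hz, ht, ← hw]
    rw [hw, star_star, ← hw, ← tA.eq, ← mul_assoc, ← mul_assoc, p1, p2]
    congr 1
    rw [add_comm]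
    congr 1
    · rw [mul_assoc, ← (c2 v vz).eq, ← mul_assoc, vx.eq]
    · rw [mul_assoc, ← (c1 w wz).eq, ← mul_assoc, wx.eq]
  · rw [mul_assoc, ← mul_assoc t, tA.eq, mul_assoc _ t t, tt, mul_one, add_mul, mul_add (v * x * (1 - z)),
      mul_add (w * x * (1 + z)), gen v v _ _ _ vx (c1 v vz) p1, gen v w _ _ _ wx (c1 w wz) p1, gen w v _ _ _ vx (c2 v vz) p2,
      gen w w _ _ _ wx (c2 w wz) p2, hv, hv']
    have q1 : (1 + z) * (1 - z) = 0 := by rw [add_mul, mul_sub, mul_sub, zz]; simp
    have q2 : (1 - z) * (1 + z) = 0 := by rw [sub_mul, mul_add, mul_add, zz]; simp [add_comm]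
    rw [q1, q2]
    have : (1 + z) * (1 + z) + (1 - z) * (1 - z) = (1 + 1) + (z * z + z * z) := by
      noncomm_ring
    rw [zz] at this
    simp only [mul_zero, one_mul, zero_add, add_zero, this]
    norm_num

variable {Γ H : Type} [AddCommGroup Γ] [NormedAddCommGroup H] [InnerProductSpace ℂ H]
  [CompleteSpace H]

lemma norm_proj {e : H →L[ℂ] H} (h1 : star e = e) (h2 : e * e = e) : ‖e‖ ≤ 1 := by
  have h := CStarRing.norm_star_mul_self (x := e)
  rw [h1, h2] at h
  nlinarith [norm_nonneg e]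

theorem TG.rokhlin_of (T : TG Γ H) (γ : ℤˣ × ℤˣ →* (T.alg ≃⋆ₐ[ℂ] T.alg))
    (h : ∀ S : Finset Γ, ∃ s t : T.alg, star s = s ∧ star t = t ∧ s * s = 1 ∧ t * t = 1 ∧
      Commute s t ∧ (∀ k, γ k s = ((k.1 : ℤ) : ℂ) • s) ∧ (∀ k, γ k t = ((k.2 : ℤ) : ℂ) • t) ∧
      ∀ g ∈ S, Commute (s : H →L[ℂ] H) (T.U g) ∧ Commute (t : H →L[ℂ] H) (T.U g)) :
    RokC γ := by
  classical
  intro F ε hε
  choose S f hf using fun a : T.alg => T.approx a.2 (half_pos hε)
  obtain ⟨s, t, hs, ht, ss, tt, st, γs, γt, hc⟩ := h (F.biUnion S)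
  let p : T.alg → ℤˣ → T.alg := fun s k => (1 / 2 : ℂ) • (1 + ((k : ℤ) : ℂ) • s)
  have pstar : ∀ s k, star s = s → star (p s k) = p s k := by
    intro s k hs
    simp [p, hs]
  have pmul : ∀ s k l, s * s = 1 → p s k * p s l = if k = l then p s k else 0 := by
    intro s k l ss
    simp only [p, smul_mul_assoc, mul_smul_comm, add_mul, mul_add, one_mul, mul_one, ss]
    rcases Int.units_eq_one_or k with rfl | rfl <;> rcases Int.units_eq_one_or l with rfl | rfl <;>
      simp <;> module
  have psum : ∀ s, ∑ k, p s k = 1 := by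
    intro s
    rw [Int.units_eq_one_or |> fun _ => Fintype.sum_eq_add (1 : ℤˣ) (-1) (by decide)
      (fun k hk => by rcases Int.units_eq_one_or k with rfl | rfl <;> simp at hk)]
    simp only [p]; simp; module
  have pc : ∀ s k a, Commute s a → Commute (p s k) a := fun s k a h =>
    ((Commute.one_left a).add_left (h.smul_left _)).smul_left _
  have pst : ∀ k l, Commute (p s k) (p t l) := fun k l => pc _ _ _ (pc _ _ _ st.symm).symm
  have emul : ∀ k l : ℤˣ × ℤˣ, p s k.1 * p t k.2 * (p s l.1 * p t l.2) =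
      p s k.1 * p s l.1 * (p t k.2 * p t l.2) := by
    intro k l
    rw [mul_assoc, ← mul_assoc (p t k.2), ← (pst _ _).eq]; simp only [mul_assoc]
  have e1 : ∀ k : ℤˣ × ℤˣ, star (p s k.1 * p t k.2) = p s k.1 * p t k.2 ∧
      p s k.1 * p t k.2 * (p s k.1 * p t k.2) = p s k.1 * p t k.2 := fun k =>
    ⟨by rw [star_mul, pstar _ _ hs, pstar _ _ ht, (pst _ _).eq],
      by rw [emul, pmul _ _ _ ss, pmul _ _ _ tt]; simp⟩
  refine ⟨fun k => p s k.1 * p t k.2, e1, fun k l hkl => ?_, fun k l => ?_, fun k a ha => ?_, ?_⟩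
  · rw [emul, pmul _ _ _ ss, pmul _ _ _ tt]
    by_cases h1 : k.1 = l.1
    · have : k.2 ≠ l.2 := fun h2 => hkl (Prod.ext h1 h2)
      simp [this]
    · simp [h1]
  · have : γ k (p s l.1 * p t l.2) = p s (k * l).1 * p t (k * l).2 := by
      simp only [p, map_mul, map_smul, map_add, map_one, γs, γt, smul_smul, Prod.fst_mul,
        Prod.snd_mul, Units.val_mul, Int.cast_mul, mul_comm]
    simp only [this, sub_self, norm_zero, hε]
  · set e := p s k.1 * p t k.2 with he
    have ne : ‖(e : H →L[ℂ] H)‖ ≤ 1 :=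
      norm_proj (congrArg Subtype.val (e1 k).1) (congrArg Subtype.val (e1 k).2)
    set x := ∑ g ∈ S a, f a g • T.U g with hx
    have ex : Commute (e : H →L[ℂ] H) x := by
      refine Commute.sum_right _ _ _ fun g hg => Commute.smul_right ?_ _
      obtain ⟨c1, c2⟩ := hc g (mem_biUnion.mpr ⟨a, ha, hg⟩)
      have d1 : Commute s ⟨T.U g, T.U_mem g⟩ := Subtype.ext c1.eq
      have d2 : Commute t ⟨T.U g, T.U_mem g⟩ := Subtype.ext c2.eq
      exact congrArg Subtype.val ((pc _ k.1 _ d1).mul_left (pc _ k.2 _ d2)).eq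
    change ‖(e : H →L[ℂ] H) * a - a * e‖ < ε
    have : (e : H →L[ℂ] H) * a - a * e = e * (a - x) - (a - x) * e := by
      rw [mul_sub, sub_mul, ex.eq]; abel
    have hn := hf a
    rw [this]
    calc _ ≤ ‖(e : H →L[ℂ] H)‖ * ‖a - x‖ + ‖a - x‖ * ‖(e : H →L[ℂ] H)‖ :=
          (norm_sub_le _ _).trans (add_le_add (norm_mul_le _ _) (norm_mul_le _ _))
      _ ≤ 1 * ‖a - x‖ + ‖a - x‖ * 1 := by gcongr
      _ < ε := by linarith
  · rw [Fintype.sum_prod_type]
    simp only [← mul_sum, psum, mul_one]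

end Pool.Agent.H70.Rk
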