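import Pool.Agent.H70.Rk3

namespace Pool.Agent.H70.Rk
open scoped InnerProductSpace Matrix
open Finset

variable {H : Type} [NormedAddCommGroup H] [InnerProductSpace ℂ H] [CompleteSpace H]

lemma norm_iso {z : H →L[ℂ] H} (hz : star z * z = 1) (x : H) : ‖z x‖ = ‖x‖ := by
  have : ⟪z x, z x⟫_ℂ = ⟪x, x⟫_ℂ := by
    rw [← ContinuousLinearMap.adjoint_inner_right, ← ContinuousLinearMap.star_eq_adjoint,
      ← ContinuousLinearMap.mul_apply, hz]; rfl
  rw [norm_eq_sqrt_re_inner (𝕜 := ℂ), this, ← norm_eq_sqrt_re_inner]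

lemma wander {z b : H →L[ℂ] H} (hz : star z * z = 1) (bz : Commute b z) {δ : ℝ} (hδ : 0 < δ)
    (hb : ∀ η, δ * ‖η‖ ≤ ‖b η‖) {η y : H} (h1 : b η = y - z y)
    (h2 : ∀ m : ℕ, ⟪(z ^ (m + 1)) η, η⟫_ℂ = 0) : η = 0 := by
  have n1 : ∀ M : ℕ, ‖∑ m ∈ range M, (z ^ m) η‖ ^ 2 = M * ‖η‖ ^ 2 := by
    intro M
    induction M with
    | zero => simp
    | succ M ih =>
      rw [sum_range_succ', sq, norm_add_sq_eq_norm_sq_add_norm_sq_of_inner_eq_zero (𝕜 := ℂ)]
      · have : ∑ m ∈ range M, (z ^ (m + 1)) η = z (∑ m ∈ range M, (z ^ m) η) := by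
          simp [pow_succ']
        rw [this, norm_iso hz, ← sq, ih]; simp; ring
      · rw [sum_inner]; exact sum_eq_zero fun m _ => h2 m
  have n2 : ∀ (M : ℕ) x, ‖(z ^ M) x‖ = ‖x‖ := by
    intro M x
    induction M with
    | zero => simp
    | succ M ih => rw [pow_succ', ContinuousLinearMap.mul_apply, norm_iso hz, ih]
  have n3 : ∀ M : ℕ, b (∑ m ∈ range M, (z ^ m) η) = y - (z ^ M) y := by
    intro M
    induction M with
    | zero => simp
    | succ M ih =>
      rw [sum_range_succ, map_add, ih, ← ContinuousLinearMap.mul_apply, (bz.pow_right M).eq,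
        ContinuousLinearMap.mul_apply, h1, map_sub, pow_succ]
      simp
  have n4 : ∀ M : ℕ, M * (δ ^ 2 * ‖η‖ ^ 2) ≤ (2 * ‖y‖) ^ 2 := by
    intro M
    have h := hb (∑ m ∈ range M, (z ^ m) η)
    rw [n3] at h
    have h' := norm_sub_le y ((z ^ M) y)
    rw [n2] at h'
    calc _ = (δ * ‖∑ m ∈ range M, (z ^ m) η‖) ^ 2 := by rw [mul_pow, n1]; ring
      _ ≤ _ := pow_le_pow_left₀ (by positivity) (by linarith) 2
  by_contra h0
  have : 0 < δ ^ 2 * ‖η‖ ^ 2 := by have := norm_pos_iff.mpr h0; positivity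
  obtain ⟨M, hM⟩ := exists_nat_gt ((2 * ‖y‖) ^ 2 / (δ ^ 2 * ‖η‖ ^ 2))
  rw [div_lt_iff₀ this] at hM
  linarith [n4 M]

lemma TG.orth {Γ : Type} [AddCommGroup Γ] (T : TG Γ H) {g h : Γ} (e : g ≠ h) :
    ⟪T.U g T.Ω, T.U h T.Ω⟫_ℂ = 0 := by
  rw [← ContinuousLinearMap.adjoint_inner_right, ← ContinuousLinearMap.star_eq_adjoint,
    ← ContinuousLinearMap.mul_apply, T.star_U, smul_mul_assoc, T.U_mul]
  simp only [ContinuousLinearMap.smul_apply, inner_smul_right]
  rw [T.tr _ (by rwa [Ne, neg_add_eq_zero])]; simp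

variable {Y : Type} [AddCommGroup Y]

noncomputable def Em (N : ℕ) (χ : Y → ℂ) (ω : ℂ) (g : ℤ × Y) : Matrix (ZMod N) (ZMod N) ℂ :=
  Matrix.of fun a j => if a = (g.1 : ZMod N) + j then χ g.2 ^ j.val * ω ^ g.1 else 0

noncomputable def Mm (N : ℕ) (χ : Y → ℂ) (S : Finset (ℤ × Y)) (f : ℤ × Y → ℂ) (ω : ℂ) :
    Matrix (ZMod N) (ZMod N) ℂ :=
  ∑ g ∈ S, f g • Em N χ ω g + (∑ g ∈ S, f g • Em N χ ω g)ᴴ

theorem det_ne (T : TG (ℤ × Y) H) (χ : Y → ℂ) (hc : ∀ g h, T.c g h = χ g.2 ^ h.1)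
    (hn : ∀ y, ‖χ y‖ = 1) (h0 : χ 0 = 1) (N : ℕ) [NeZero N] (F : Finset Y)
    (hF : ∀ y, y ∈ F ↔ N • y = 0) (hχ : ∀ y ∈ F, χ y ^ N = 1)
    (S : Finset (ℤ × Y)) (f : ℤ × Y → ℂ) (hS : ∀ g ∈ S, g.2 ∈ F) {δ : ℝ} (hδ : 0 < δ)
    (hb : ∀ η, δ * ‖η‖ ≤ ‖(∑ g ∈ S, f g • T.U g + star (∑ g ∈ S, f g • T.U g)) η‖)
    (ω : ℂ) (hω : ‖ω‖ = 1) : (Mm N χ S f ω).det ≠ 0 := by
  classical
  intro hd
  obtain ⟨ξ, hξ0, hξ⟩ := Matrix.exists_mulVec_eq_zero_iff.mpr hd
  have ω0 : ω ≠ 0 := fun h => by simp [h] at hω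
  have χ0 : ∀ y, χ y ≠ 0 := fun y h => by simpa [h] using hn y
  set ψ : H := ∑ ρ ∈ F, T.U (0, ρ) T.Ω with hψ
  have Uψ : ∀ (j : ℤ), ∀ y ∈ F, T.U (j, y) ψ = T.U (j, 0) ψ := by
    intro j y hy
    simp only [hψ, map_sum, ← ContinuousLinearMap.mul_apply, T.U_mul, hc, zpow_zero, one_smul,
      Prod.mk_add_mk, zero_add]
    refine sum_equiv (Equiv.addLeft y) (fun ρ => ?_) (fun ρ _ => rfl)
    simp only [hF, Equiv.coe_addLeft, smul_add, (hF y).mp hy, zero_add]
  let φ : ℤ → H := fun j => ω ^ (-j) • T.U (j, 0) ψ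
  have Uφ : ∀ g : ℤ × Y, g.2 ∈ F → ∀ j, T.U g (φ j) = (χ g.2 ^ j * ω ^ g.1) • φ (g.1 + j) := by
    intro g hg j
    simp only [φ, map_smul, ← ContinuousLinearMap.mul_apply, T.U_mul, hc,
      ContinuousLinearMap.smul_apply, smul_smul]
    rw [show g + (j, 0) = (g.1 + j, g.2) from Prod.ext rfl (add_zero _), Uψ _ _ hg]
    congr 1
    rw [neg_add, zpow_add₀ ω0, zpow_neg ω g.1]
    have := zpow_ne_zero g.1 ω0
    field_simp
  have F0 : (0 : Y) ∈ F := (hF 0).mpr (smul_zero _)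
  set z : H →L[ℂ] H := ω ^ (-(N : ℤ)) • T.U (N, 0) with hz
  have zφ : ∀ j, z (φ j) = φ (N + j) := by
    intro j
    rw [hz, ContinuousLinearMap.smul_apply, Uφ _ F0, smul_smul, h0, one_zpow, one_mul,
      ← zpow_add₀ ω0]; simp
  have zu : star z * z = 1 := by
    rw [hz, star_smul, smul_mul_smul_comm, T.U_unit]
    have : star (ω ^ (-(N : ℤ))) * ω ^ (-(N : ℤ)) = 1 := by
      rw [Complex.star_def, Complex.conj_mul', norm_zpow, hω]; simp
    rw [this, one_smul]
  have zpφ : ∀ (m : ℕ) j, (z ^ m) (φ j) = φ (m * N + j) := by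
    intro m j
    induction m with
    | zero => simp
    | succ m ih => rw [pow_succ', ContinuousLinearMap.mul_apply, ih, zφ]; congr 1; push_cast; ring
  have oφ : ∀ a b, a ≠ b → ⟪φ a, φ b⟫_ℂ = 0 := by
    intro a b hab
    simp only [φ, hψ, map_sum, ← ContinuousLinearMap.mul_apply, T.U_mul, inner_smul_left,
      inner_smul_right, sum_inner, inner_sum, ContinuousLinearMap.smul_apply]
    have : ∀ ρ ρ', ⟪T.U ((a, 0) + (0, ρ)) T.Ω, T.U ((b, 0) + (0, ρ')) T.Ω⟫_ℂ = 0 :=
      fun ρ ρ' => T.orth fun h => hab (by simpa using congrArg Prod.fst h)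
    simp only [this, mul_zero, sum_const_zero]
  have φ0 : ∀ a, φ a ≠ 0 := by
    intro a h
    have h1 : T.U (a, 0) ψ = 0 := by simpa [φ, zpow_ne_zero, ω0] using h
    have h2 : ψ = 0 := by rw [← norm_eq_zero, ← norm_iso (T.U_unit (a, 0)), h1, norm_zero]
    have h3 : ⟪T.Ω, ψ⟫_ℂ = 1 := by
      rw [hψ, inner_sum, sum_eq_single_of_mem 0 F0]
      · exact (congrArg T.τ T.U_zero).trans T.τ_one
      · intro ρ _ hρ; exact T.tr _ (fun h => hρ (congrArg Prod.snd h))
    simp [h2] at h3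
  let R : Submodule ℂ H := LinearMap.range ((1 - z : H →L[ℂ] H) : H →ₗ[ℂ] H)
  let q := R.mkQ
  have q1 : ∀ j, q (φ (N + j)) = q (φ j) := by
    intro j
    rw [eq_comm, ← sub_eq_zero, ← map_sub, ← zφ]
    exact (Submodule.Quotient.mk_eq_zero R).mpr ⟨φ j, rfl⟩
  have q2 : ∀ (m : ℤ) j, q (φ (N * m + j)) = q (φ j) := by
    intro m j
    induction m using Int.induction_on with
    | zero => simp
    | succ m ih => rw [← ih, ← q1 (N * m + j)]; congr 2; ring
    | pred m ih => rw [← ih, ← q1]; congr 2; ring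
  let Φ : ZMod N → H ⧸ R := fun a => q (φ a.val)
  have md : ∀ j : ℤ, (((j : ZMod N).val : ℕ) : ℤ) = j % N := fun j => ZMod.val_intCast j
  have q3 : ∀ j : ℤ, q (φ j) = Φ j := by
    intro j
    simp only [Φ, md]
    rw [← q2 (j / N) (j % N), Int.mul_ediv_add_emod]
  have pw : ∀ y ∈ F, ∀ j : ℤ, χ y ^ j = χ y ^ (j : ZMod N).val := by
    intro y hy j
    rw [← zpow_natCast, md]
    conv_lhs => rw [← Int.mul_ediv_add_emod j N]
    rw [zpow_add₀ (χ0 y), zpow_mul, zpow_natCast, hχ y hy, one_zpow, one_mul]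
  have r1 : ∀ g ∈ S, ∀ j : ZMod N, q (T.U g (φ j.val)) = ∑ a, Em N χ ω g a j • Φ a := by
    intro g hg j
    rw [Uφ g (hS g hg), map_smul, q3, zpow_natCast]
    simp [Em, ite_smul]
  have r2 : ∀ g ∈ S, ∀ j : ZMod N,
      q (star (T.U g) (φ j.val)) = ∑ a, star (Em N χ ω g j a) • Φ a := by
    intro g hg j
    have e1 := congrArg (star (T.U g) : H →L[ℂ] H) (Uφ g (hS g hg) (j.val - g.1))
    rw [← ContinuousLinearMap.mul_apply, T.U_unit, ContinuousLinearMap.one_apply, map_smul,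
      add_sub_cancel] at e1
    set s := χ g.2 ^ ((j.val : ℤ) - g.1) * ω ^ g.1 with hs
    have e2 : star s * s = 1 := by
      rw [Complex.star_def, Complex.conj_mul', hs, norm_mul, norm_zpow, norm_zpow, hω, hn]; simp
    have e3 : star (T.U g) (φ j.val) = star s • φ (j.val - g.1) := by
      have e4 : φ (j.val - g.1) = s • star (T.U g) (φ j.val) := e1
      rw [e4, smul_smul, e2, one_smul]
    rw [e3, map_smul, q3, sum_eq_single (j - (g.1 : ZMod N))]
    · rw [hs, pw _ (hS g hg)]; simp [Em]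
    · intro a _ ha
      have : j ≠ (g.1 : ZMod N) + a := fun h => ha (by rw [h]; ring)
      simp [Em, this]
    · simp
  set b := ∑ g ∈ S, f g • T.U g + star (∑ g ∈ S, f g • T.U g) with hbd
  have r3 : ∀ j : ZMod N, q (b (φ j.val)) = ∑ a, Mm N χ S f ω a j • Φ a := by
    intro j
    simp only [hbd, star_sum, star_smul, ContinuousLinearMap.add_apply,
      ContinuousLinearMap.sum_apply, ContinuousLinearMap.smul_apply, map_add, map_sum, map_smul,
      Mm, Matrix.add_apply, Matrix.conjTranspose_apply, Matrix.sum_apply, Matrix.smul_apply,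
      add_smul, sum_add_distrib, sum_smul]
    congr 1
    · rw [sum_comm]
      refine sum_congr rfl fun g hg => ?_
      rw [r1 g hg, smul_sum]; simp only [smul_smul, smul_eq_mul]
    · rw [sum_comm]
      refine sum_congr rfl fun g hg => ?_
      rw [r2 g hg, smul_sum]; simp only [smul_smul, smul_eq_mul]
  set η : H := ∑ j : ZMod N, ξ j • φ j.val with hη
  have r4 : q (b η) = 0 := by
    simp only [hη, map_sum, map_smul, r3, smul_sum, smul_smul]
    rw [sum_comm]
    refine sum_eq_zero fun a _ => ?_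
    have := congrFun hξ a
    simp only [Matrix.mulVec, dotProduct, Pi.zero_apply] at this
    rw [← sum_smul, sum_congr rfl fun j _ => mul_comm (ξ j) _, this, zero_smul]
  obtain ⟨y, hy⟩ : b η ∈ R := (Submodule.Quotient.mk_eq_zero R).mp r4
  have Uz : ∀ g ∈ S, Commute (T.U g) z := by
    intro g hg
    refine Commute.smul_right ?_ _
    change _ * _ = _ * _
    rw [T.U_mul, T.U_mul, hc, hc, h0, one_zpow, zpow_natCast, hχ _ (hS g hg), add_comm]
  have zu' : z * star z = 1 := by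
    rw [hz, star_smul, smul_mul_smul_comm, T.U_unit']
    have : ω ^ (-(N : ℤ)) * star (ω ^ (-(N : ℤ))) = 1 := by
      rw [Complex.star_def, Complex.mul_conj', norm_zpow, hω]; simp
    rw [this, one_smul]
  have bz : Commute b z := by
    have c1 : Commute (∑ g ∈ S, f g • T.U g) z :=
      Commute.sum_left _ _ _ fun g hg => (Uz g hg).smul_left _
    refine c1.add_left ?_
    have c2 := c1.star_star.eq
    change _ * _ = _ * _
    calc _ = z * (star z * star (∑ g ∈ S, f g • T.U g)) * z := by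
          rw [← mul_assoc, zu', one_mul]
      _ = _ := by rw [← c2, mul_assoc, mul_assoc, zu, mul_one]
  have h00 : η = 0 := by
    refine wander zu bz hδ hb (y := y) hy.symm fun m => ?_
    simp only [hη, map_sum, map_smul, zpφ, sum_inner, inner_sum, inner_smul_left, inner_smul_right]
    refine sum_eq_zero fun a _ => ?_
    rw [sum_eq_zero, mul_zero]
    intro j _
    rw [oφ, mul_zero]
    have := ZMod.val_lt a
    push_cast
    nlinarith [Int.natCast_nonneg j.val, Int.natCast_nonneg m, Int.natCast_nonneg N,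
      (show ((a.val : ℕ) : ℤ) < N by exact_mod_cast this)]
  apply hξ0
  funext a
  have := congrArg (fun v => ⟪φ a.val, v⟫_ℂ) h00
  simp only [hη, inner_sum, inner_smul_right, inner_zero_right] at this
  rw [sum_eq_single a] at this
  · simpa [φ0] using this
  · intro j _ hj
    rw [oφ, mul_zero]
    intro h
    exact hj (ZMod.val_injective N (by exact_mod_cast h.symm))
  · simp

theorem exists_det (χ : Y → ℂ) (N : ℕ) [NeZero N] (hN : Odd N)
    (S : Finset (ℤ × Y)) (f : ℤ × Y → ℂ) (hS : ∀ g ∈ S, Odd g.1) :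
    ∃ ω : ℂ, ‖ω‖ = 1 ∧ (Mm N χ S f ω).det = 0 := by
  let d : ℝ → ℝ := fun t => (Mm N χ S f (Complex.exp (t * Complex.I))).det.re
  have hd : Continuous d := by
    refine Complex.continuous_re.comp (Continuous.matrix_det ?_)
    have : Continuous fun t : ℝ => ∑ g ∈ S, f g • Em N χ (Complex.exp (t * Complex.I)) g := by
      refine continuous_finsetSum _ fun g _ => ?_
      refine continuous_matrix fun a j => ?_
      simp only [Em, Matrix.of_apply, Matrix.smul_apply, smul_eq_mul]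
      split_ifs
      · exact continuous_const.mul (continuous_const.mul (Continuous.zpow₀ (by fun_prop) _
          fun t => Or.inl (Complex.exp_ne_zero _)))
      · exact continuous_const
    exact this.add this.matrix_conjTranspose
  have h1 : Mm N χ S f (-1) = -Mm N χ S f 1 := by
    have : ∑ g ∈ S, f g • Em N χ (-1) g = -∑ g ∈ S, f g • Em N χ 1 g := by
      rw [← sum_neg_distrib]
      refine sum_congr rfl fun g hg => ?_
      rw [← smul_neg]
      congr 1
      ext a j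
      simp only [Em, Matrix.of_apply, Matrix.neg_apply, (hS g hg).neg_one_zpow, one_zpow]
      split_ifs <;> simp
    rw [Mm, Mm, this, Matrix.conjTranspose_neg, neg_add]
  have h2 : d Real.pi = -d 0 := by
    simp only [d, Complex.exp_pi_mul_I, h1, Matrix.det_neg, ZMod.card, hN.neg_one_pow]
    simp
  obtain ⟨t, -, ht⟩ : (0 : ℝ) ∈ d '' Set.uIcc 0 Real.pi := by
    refine intermediate_value_uIcc hd.continuousOn ?_
    rw [h2, Set.mem_uIcc]
    rcases le_total 0 (d 0) with h | h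
    · right; constructor <;> linarith
    · left; constructor <;> linarith
  refine ⟨_, Complex.norm_exp_ofReal_mul_I t, Complex.ext ht ?_⟩
  have : star (Mm N χ S f (Complex.exp (t * Complex.I))).det =
      (Mm N χ S f (Complex.exp (t * Complex.I))).det := by
    rw [← Matrix.det_conjTranspose, Mm, Matrix.conjTranspose_add,
      Matrix.conjTranspose_conjTranspose, add_comm]
  exact Complex.conj_eq_iff_im.mp this

end Pool.Agent.H70.Rk
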