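import Pool.Agent.H70.Rk4

namespace Pool.Agent.H70.Rk
open scoped InnerProductSpace
open Finset

variable {H : Type} [NormedAddCommGroup H] [InnerProductSpace ℂ H] [CompleteSpace H]

noncomputable def sg (k : ℤˣ) (a : ZMod 2) : ℂ := if a = 0 then 1 else ((k : ℤ) : ℂ)

lemma z2 : ∀ a : ZMod 2, a = 0 ∨ a = 1 := by decide
lemma z2' : (1 + 1 : ZMod 2) = 0 := by decide
lemma sg_zero (k : ℤˣ) : sg k 0 = 1 := by simp [sg]
lemma sg_one (k : ℤˣ) : sg k 1 = ((k : ℤ) : ℂ) := by simp [sg]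
lemma sg_add (k : ℤˣ) (a b : ZMod 2) : sg k (a + b) = sg k a * sg k b := by
  rcases z2 a with rfl | rfl <;> rcases z2 b with rfl | rfl <;>
    rcases Int.units_eq_one_or k with rfl | rfl <;> simp [sg_zero, sg_one, z2']
lemma sg_mul (k l : ℤˣ) (a : ZMod 2) : sg (k * l) a = sg k a * sg l a := by
  rcases z2 a with rfl | rfl <;> simp [sg_zero, sg_one]
lemma sg_norm (k : ℤˣ) (a : ZMod 2) : ‖sg k a‖ = 1 := by
  rcases z2 a with rfl | rfl <;> rcases Int.units_eq_one_or k with rfl | rfl <;>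
    simp [sg_zero, sg_one]

lemma norm_unit {w : H →L[ℂ] H} (h : star w * w = 1) : ‖w‖ ≤ 1 :=
  ContinuousLinearMap.opNorm_le_bound _ zero_le_one fun x => by rw [norm_iso h, one_mul]

lemma sum_units {M : Type} [AddCommMonoid M] (f : ℤˣ → M) : ∑ k, f k = f 1 + f (-1) :=
  Fintype.sum_eq_add (1 : ℤˣ) (-1) (by decide)
      (fun k hk => by rcases Int.units_eq_one_or k with rfl | rfl <;> simp at hk)

theorem not_rokhlin {Y : Type} [AddCommGroup Y] (T : TG (ℤ × Y) H) (χ : Y → ℂ)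
    (hc : ∀ g h, T.c g h = χ g.2 ^ h.1) (hn : ∀ y, ‖χ y‖ = 1) (h0 : χ 0 = 1)
    (tors : ∀ S : Finset Y, ∃ N : ℕ, Odd N ∧ ∃ F : Finset Y, (∀ y, y ∈ F ↔ N • y = 0) ∧
      (∀ y ∈ F, χ y ^ N = 1) ∧ S ⊆ F)
    (w : ℤˣ →* (H →L[ℂ] H)) (hw : ∀ k, star (w k) = w k⁻¹)
    (hU : ∀ k g, w k * T.U g * w k⁻¹ = sg k (g.1 : ZMod 2) • T.U g)
    (α : ℤˣ →* (T.alg ≃⋆ₐ[ℂ] T.alg)) (hα : ∀ k x, (α k x : H →L[ℂ] H) = w k * x * w k⁻¹) :
    ¬ RokC α := by
  classical
  intro hR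
  obtain ⟨e, e1, e2, e3, -, e5⟩ := hR ∅ (1 / 8) (by norm_num)
  rw [sum_units] at e5
  have wn : ∀ k, ‖w k‖ ≤ 1 := fun k => norm_unit (by rw [hw, ← map_mul]; simp)
  let C : (H →L[ℂ] H) →ₗ[ℂ] (H →L[ℂ] H) :=
    (LinearMap.mulRight ℂ (w (-1)⁻¹)) ∘ₗ (LinearMap.mulLeft ℂ (w (-1)))
  have hC : ∀ x, C x = w (-1) * x * w (-1)⁻¹ := fun x => rfl
  have nC : ∀ x, ‖C x‖ ≤ ‖x‖ := by
    intro x
    have a1 := wn (-1)
    have a2 := wn (-1)⁻¹
    calc ‖w (-1) * x * w (-1)⁻¹‖ ≤ ‖w (-1)‖ * ‖x‖ * ‖w (-1)⁻¹‖ :=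
          (norm_mul_le _ _).trans (by gcongr; exact norm_mul_le _ _)
      _ ≤ 1 * ‖x‖ * 1 := by gcongr
      _ = _ := by ring
  set s0 : T.alg := e 1 - e (-1) with hs0
  have s1 : star s0 = s0 := by rw [hs0, star_sub, (e1 _).1, (e1 _).1]
  have s2 : star s0 * s0 = 1 := by
    rw [s1, hs0, sub_mul, mul_sub, mul_sub, (e1 _).2, (e1 _).2, e2 _ _ (by decide),
      e2 _ _ (by decide), ← e5]; abel
  set s : H →L[ℂ] H := s0.1 with hs
  have s3 : ‖s + C s‖ ≤ 1 / 4 := by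
    have a1 : ‖C (e 1) - e (-1)‖ < 1 / 8 := by
      have := e3 (-1) 1
      rw [mul_one] at this
      rw [hC, ← hα]; exact this
    have a2 : ‖C (e (-1)) - e 1‖ < 1 / 8 := by
      have := e3 (-1) (-1)
      rw [show (-1 * -1 : ℤˣ) = 1 by simp] at this
      rw [hC, ← hα]; exact this
    have : s + C s = (C (e 1) - e (-1)) - (C (e (-1)) - e 1) := by
      have : s = (e 1 : H →L[ℂ] H) - e (-1) := rfl
      rw [this, map_sub]; abel
    rw [this]
    exact (norm_sub_le _ _).trans (by linarith)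
  obtain ⟨S, f, hf⟩ := T.approx s0.2 (by norm_num : (0 : ℝ) < 1 / 8)
  set x := ∑ g ∈ S, f g • T.U g with hx
  set S' := S.filter fun g => Odd g.1 with hS'
  set x' := ∑ g ∈ S', (f g / 2) • T.U g with hx'
  have x1 : x - C x = (4 : ℂ) • x' := by
    rw [hx, hx', hS', map_sum, ← sum_sub_distrib, sum_filter, smul_sum]
    refine sum_congr rfl fun g _ => ?_
    rw [map_smul, hC, hU]
    rcases Int.even_or_odd g.1 with h | h
    · rw [(ZMod.intCast_eq_zero_iff_even).mpr h, sg_zero, if_neg (Int.not_odd_iff_even.mpr h)]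
      simp
    · rw [(ZMod.intCast_eq_one_iff_odd).mpr h, sg_one, if_pos h]
      simp only [Units.val_neg, Units.val_one, Int.cast_neg, Int.cast_one]
      module
  have x2 : ‖s - (2 : ℂ) • x'‖ ≤ 1 / 4 := by
    have : s - (2 : ℂ) • x' = (1 / 2 : ℂ) • ((s - x) + (s + C s) - C (s - x)) := by
      rw [map_sub]
      linear_combination (norm := module) (1 / 2 : ℂ) • x1
    rw [this, norm_smul]
    have b1 := norm_sub_le ((s - x) + (s + C s)) (C (s - x))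
    have b2 := norm_add_le (s - x) (s + C s)
    have b3 := nC (s - x)
    have b4 : ‖(1 / 2 : ℂ)‖ = 1 / 2 := by simp
    rw [b4]; linarith
  have x3 : ‖s - (x' + star x')‖ ≤ 1 / 4 := by
    have s1' : star s = s := congrArg Subtype.val s1
    have : s - (x' + star x') = (1 / 2 : ℂ) • ((s - (2 : ℂ) • x') + star (s - (2 : ℂ) • x')) := by
      rw [star_sub, s1', star_smul]
      simp only [star_ofNat]
      module
    rw [this, norm_smul]
    have b1 := norm_add_le (s - (2 : ℂ) • x') (star (s - (2 : ℂ) • x'))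
    rw [norm_star] at b1
    have b4 : ‖(1 / 2 : ℂ)‖ = 1 / 2 := by simp
    rw [b4]; linarith
  obtain ⟨N, hN, F, hF, hχ, hSF⟩ := tors (S'.image Prod.snd)
  haveI : NeZero N := ⟨hN.pos.ne'⟩
  obtain ⟨ω, hω, hd⟩ := exists_det χ N hN S' (fun g => f g / 2) fun g hg => (mem_filter.mp hg).2
  refine det_ne T χ hc hn h0 N F hF hχ S' _ (fun g hg => hSF (mem_image_of_mem _ hg))
    (by norm_num : (0 : ℝ) < 1 / 2) (fun η => ?_) ω hω hd
  have c1 : ‖s η‖ = ‖η‖ := norm_iso (congrArg Subtype.val s2) η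
  have c2 := (s - (x' + star x')).le_of_opNorm_le x3 η
  have c3 := norm_sub_norm_le (s η) ((x' + star x') η)
  rw [ContinuousLinearMap.sub_apply] at c2
  linarith [norm_nonneg η]

variable {Γ : Type} [AddCommGroup Γ]

lemma TG.commute (T : TG Γ H) {g h : Γ} (e : T.c g h = T.c h g) : Commute (T.U g) (T.U h) := by
  change _ * _ = _ * _
  rw [T.U_mul, T.U_mul, e, add_comm]

lemma TG.invol (T : TG Γ H) {g : Γ} (h1 : g + g = 0) (h2 : T.c g g = 1) :
    T.U g * T.U g = 1 ∧ star (T.U g) = T.U g := by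
  have : T.U g * T.U g = 1 := by rw [T.U_mul, h1, h2, T.U_zero, one_smul]
  refine ⟨this, ?_⟩
  calc _ = star (T.U g) * (T.U g * T.U g) := by rw [this, mul_one]
    _ = _ := by rw [← mul_assoc, T.U_unit, one_mul]

theorem TG.rok (T : TG Γ H) (γ : ℤˣ × ℤˣ →* (T.alg ≃⋆ₐ[ℂ] T.alg)) (a : ℤˣ × ℤˣ → Γ → ℂ)
    (hγ : ∀ k g, γ k ⟨T.U g, T.U_mem g⟩ = a k g • ⟨T.U g, T.U_mem g⟩)
    (h : ∀ S : Finset Γ, ∃ v x z t : Γ, x + x = 0 ∧ z + z = 0 ∧ t + t = 0 ∧ T.c x x = 1 ∧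
      T.c z z = 1 ∧ T.c t t = 1 ∧ T.c v x = T.c x v ∧ T.c v z = T.c z v ∧ T.c v t = T.c t v ∧
      T.c x z = -T.c z x ∧ T.c t x = T.c x t ∧ T.c t z = T.c z t ∧
      (∀ k, a k v = ((k.1 : ℤ) : ℂ) ∧ a k x = ((k.2 : ℤ) : ℂ) ∧ a k z = 1 ∧
        a k t = ((k.2 : ℤ) : ℂ)) ∧
      ∀ g ∈ S, T.c v g = T.c g v ∧ T.c x g = T.c g x ∧ T.c z g = T.c g z ∧ T.c t g = T.c g t) :
    RokC γ := by
  refine T.rokhlin_of γ fun S => ?_
  obtain ⟨v, x, z, t, x2, z2, t2, xx, zz, tt, vx, vz, vt, xz, tx, tz, ha, hS⟩ := h S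
  let u : Γ → T.alg := fun g => ⟨T.U g, T.U_mem g⟩
  have cm : ∀ {g h}, T.c g h = T.c h g → Commute (u g) (u h) :=
    fun e => Subtype.ext (T.commute e).eq
  have i1 : ∀ {g}, g + g = 0 → T.c g g = 1 → u g * u g = 1 :=
    fun a b => Subtype.ext (T.invol a b).1
  have i2 : ∀ {g}, g + g = 0 → T.c g g = 1 → star (u g) = u g :=
    fun a b => Subtype.ext (T.invol a b).2
  have v1 : star (u v) * u v = 1 := Subtype.ext (T.U_unit v)
  have v2 : u v * star (u v) = 1 := Subtype.ext (T.U_unit' v)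
  obtain ⟨k1, k2⟩ := sym_alg (u v) (u x) (u z) (u t) v1 v2 (i2 x2 xx) (i2 z2 zz) (i2 t2 tt)
    (i1 x2 xx) (i1 z2 zz) (i1 t2 tt) (cm vx) (cm vz) (cm vt) (Subtype.ext (by
      change T.U x * T.U z = -(T.U z * T.U x)
      rw [T.U_mul, T.U_mul, xz, add_comm, neg_smul])) (cm tx) (cm tz)
  set s := (u v * u x * (1 - u z) + star (u v) * u x * (1 + u z)) * u t with hs
  have cs : ∀ y, Commute (u v) y → Commute (u x) y → Commute (u z) y → Commute (u t) y →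
      Commute ((1 / 2 : ℂ) • s) y := by
    intro y c1 c2 c3 c4
    have c5 : Commute (star (u v)) y := by
      change _ * _ = _ * _
      calc _ = star (u v) * (y * u v) * star (u v) := by
            rw [mul_assoc, mul_assoc, v2, mul_one]
        _ = _ := by rw [← c1.eq, ← mul_assoc, v1, one_mul]
    exact ((((c1.mul_left c2).mul_left ((Commute.one_left y).sub_left c3)).add_left
      ((c5.mul_left c2).mul_left ((Commute.one_left y).add_left c3))).mul_left c4).smul_left _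
  refine ⟨(1 / 2 : ℂ) • s, u t, by rw [star_smul, k1]; simp, i2 t2 tt, ?_, i1 t2 tt,
    cs _ (cm vt) (cm tx).symm (cm tz).symm (Commute.refl _), fun k => ?_,
    fun k => by rw [hγ, (ha k).2.2.2], fun g hg => ?_⟩
  · rw [smul_mul_smul_comm, k2, ← map_ofNat (algebraMap ℂ T.alg) 4, Algebra.algebraMap_eq_smul_one,
      smul_smul]
    norm_num
  · obtain ⟨a1, a2, a3, a4⟩ := ha k
    have g1 : γ k (u v) = ((k.1 : ℤ) : ℂ) • u v := by rw [hγ, a1]
    have g2 : γ k (u x) = ((k.2 : ℤ) : ℂ) • u x := by rw [hγ, a2]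
    have g3 : γ k (u z) = u z := by rw [hγ, a3, one_smul]
    have g4 : γ k (u t) = ((k.2 : ℤ) : ℂ) • u t := by rw [hγ, a4]
    simp only [hs, map_smul, map_mul, map_add, map_sub, map_one, map_star, g1, g2, g3, g4,
      star_smul, star_intCast, smul_mul_assoc, mul_smul_comm, ← smul_add, smul_smul]
    congr 1
    rcases Int.units_eq_one_or k.2 with h | h <;> simp [h, mul_comm]
  · obtain ⟨b1, b2, b3, b4⟩ := hS g hg
    exact ⟨congrArg Subtype.val (cs (u g) (cm b1) (cm b2) (cm b3) (cm b4)).eq, T.commute b4⟩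

end Pool.Agent.H70.Rk
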