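import Pool.Agent.H70.Rk5

namespace Pool.Agent.H70.Rk
open scoped InnerProductSpace
open Finset

def mu : Subgroup Circle where
  carrier := {z | ∃ n : ℕ, Odd n ∧ z ^ n = 1}
  one_mem' := ⟨1, odd_one, by simp⟩
  mul_mem' := by
    rintro a b ⟨n, hn, ha⟩ ⟨m, hm, hb⟩
    exact ⟨n * m, hn.mul hm, by rw [mul_pow, pow_mul, ha, one_pow, pow_mul', hb]; simp⟩
  inv_mem' := by
    rintro a ⟨n, hn, ha⟩
    exact ⟨n, hn, by rw [inv_pow, ha, inv_one]⟩

abbrev YY : Type := Additive mu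

noncomputable def chi (y : YY) : ℂ := ((y.toMul : mu) : Circle)

lemma chi_add (y y' : YY) : chi (y + y') = chi y * chi y' := by simp [chi]
lemma chi_zero : chi 0 = 1 := by simp [chi]
lemma chi_norm (y : YY) : ‖chi y‖ = 1 := by simp [chi]
lemma chi_ne (y : YY) : chi y ≠ 0 := by simp [chi]
lemma chi_inj : Function.Injective chi := fun a b h =>
  Additive.toMul.injective (Subtype.ext (Circle.ext h))
lemma chi_smul (n : ℕ) (y : YY) : chi (n • y) = chi y ^ n := by simp [chi]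
lemma chi_ord (y : YY) : ∃ n : ℕ, Odd n ∧ chi y ^ n = 1 := by
  obtain ⟨n, hn, h⟩ := (y.toMul : mu).2
  exact ⟨n, hn, by rw [chi, ← Circle.coe_pow, h, Circle.coe_one]⟩

lemma tors (S : Finset YY) : ∃ N : ℕ, Odd N ∧ ∃ F : Finset YY, (∀ y, y ∈ F ↔ N • y = 0) ∧
    (∀ y ∈ F, chi y ^ N = 1) ∧ S ⊆ F := by
  classical
  choose n hn h using chi_ord
  have hN : Odd (∏ y ∈ S, n y) := Finset.prod_induction _ Odd (fun _ _ => Odd.mul) odd_one fun y _ => hn y
  set N := ∏ y ∈ S, n y with hN'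
  have fin : {y : YY | chi y ^ N = 1}.Finite := by
    refine ((Polynomial.nthRootsFinset N (1 : ℂ)).finite_toSet.preimage chi_inj.injOn).subset ?_
    intro y hy
    simpa [Polynomial.mem_nthRootsFinset hN.pos] using hy
  refine ⟨N, hN, fin.toFinset, fun y => ?_, fun y hy => by simpa using hy, fun y hy => ?_⟩
  · rw [← chi_inj.eq_iff, chi_smul, chi_zero]; simp
  · obtain ⟨m, hm⟩ : n y ∣ N := dvd_prod_of_mem _ hy
    simp [hm, pow_mul, h]

noncomputable def cA (g h : ℤ × YY) : ℂ := chi g.2 ^ h.1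

lemma ndA (g : ℤ × YY) (hg : g ≠ 0) : ∃ h, ∃ m : ℕ, 0 < m ∧ cA h g / cA g h ≠ 1 ∧
    (cA h g / cA g h) ^ m = 1 := by
  obtain ⟨k, y⟩ := g
  by_cases hy : y = 0
  · subst hy
    have hk : k ≠ 0 := fun h => hg (by rw [h]; rfl)
    set N := 2 * k.natAbs + 1 with hN
    have hp := Complex.isPrimitiveRoot_exp N (by omega)
    set ζ := Complex.exp (2 * Real.pi * Complex.I / N)
    let z : Circle := ⟨ζ, mem_sphere_zero_iff_norm.mpr (hp.norm'_eq_one (by omega))⟩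
    have hz : z ∈ mu := ⟨N, ⟨k.natAbs, rfl⟩, Circle.ext (by simpa [z] using hp.pow_eq_one)⟩
    refine ⟨(0, Additive.ofMul ⟨z, hz⟩), N, by omega, ?_, ?_⟩
    · change ζ ^ k / chi 0 ^ (0 : ℤ) ≠ 1
      rw [zpow_zero, div_one, Ne, hp.zpow_eq_one_iff_dvd]
      intro h
      have := Int.natAbs_le_of_dvd_ne_zero h hk
      omega
    · change (ζ ^ k / chi 0 ^ (0 : ℤ)) ^ N = 1
      rw [zpow_zero, div_one, ← zpow_natCast, ← zpow_mul, mul_comm, zpow_mul, zpow_natCast,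
        hp.pow_eq_one, one_zpow]
  · obtain ⟨n, hn, h⟩ := chi_ord y
    refine ⟨(-1, 0), n, hn.pos, ?_, ?_⟩
    · simp only [cA, chi_zero, one_zpow, zpow_neg, zpow_one, one_div, inv_inv]
      rwa [← chi_zero, Ne, chi_inj.eq_iff]
    · simpa [cA, chi_zero] using h

abbrev XX : Type := ℕ →₀ ZMod 2

noncomputable def pr (z x : XX) : ZMod 2 := z.sum fun n a => a * x n
noncomputable def dg (x : XX) : ZMod 2 := x.sum fun _ a => a

lemma pr_add_left (z z' x : XX) : pr (z + z') x = pr z x + pr z' x :=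
  Finsupp.sum_add_index' (by simp) (by simp [add_mul])
lemma pr_add_right (z x x' : XX) : pr z (x + x') = pr z x + pr z x' := by
  simp [pr, mul_add, Finsupp.sum_add]
lemma pr_zero_left (x : XX) : pr 0 x = 0 := by simp [pr]
lemma pr_zero_right (x : XX) : pr x 0 = 0 := by simp [pr]
lemma pr_single_left (n : ℕ) (x : XX) : pr (Finsupp.single n 1) x = x n := by simp [pr]
lemma pr_single_right (n : ℕ) (x : XX) : pr x (Finsupp.single n 1) = x n := by
  classical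
  rw [pr, Finsupp.sum, sum_eq_single n]
  · simp
  · intro b _ hb; simp [Finsupp.single_apply, hb.symm]
  · intro h; simpa using h
lemma dg_add (z z' : XX) : dg (z + z') = dg z + dg z' := Finsupp.sum_add_index' (by simp) (by simp)
lemma dg_zero : dg 0 = 0 := by simp [dg]
lemma dg_single (n : ℕ) : dg (Finsupp.single n 1) = 1 := by simp [dg]

noncomputable def cB (g h : XX × XX) : ℂ := sg (-1) (pr g.2 h.1)

lemma ndB (g : XX × XX) (hg : g ≠ 0) : ∃ h, ∃ m : ℕ, 0 < m ∧ cB h g / cB g h ≠ 1 ∧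
    (cB h g / cB g h) ^ m = 1 := by
  obtain ⟨x, z⟩ := g
  have key : ∃ h, cB h (x, z) / cB (x, z) h = -1 := by
    by_cases hx : x = 0
    · subst hx
      obtain ⟨n, hn⟩ := Finsupp.ne_iff.mp (show z ≠ 0 from fun h => hg (by rw [h]; rfl))
      refine ⟨(Finsupp.single n 1, 0), ?_⟩
      simp [cB, pr_zero_left, pr_single_right, (z2 (z n)).resolve_left hn, sg_zero, sg_one]
    · obtain ⟨n, hn⟩ := Finsupp.ne_iff.mp hx
      refine ⟨(0, Finsupp.single n 1), ?_⟩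
      simp [cB, pr_zero_right, pr_single_left, (z2 (x n)).resolve_left hn, sg_zero, sg_one]
  obtain ⟨h, hh⟩ := key
  exact ⟨h, 2, two_pos, by rw [hh]; norm_num, by rw [hh]; norm_num⟩

lemma cB0 (g h : XX × XX) : ‖cB g h‖ = 1 := by rw [cB, sg_norm]
lemma cB1 (g g' h : XX × XX) : cB (g + g') h = cB g h * cB g' h := by
  simp [cB, pr_add_left, sg_add]
lemma cB2 (g h h' : XX × XX) : cB g (h + h') = cB g h * cB g h' := by
  simp [cB, pr_add_right, sg_add]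
noncomputable def xB (k : ℤˣ) (g : XX × XX) : ℂ := sg k (dg g.1)
lemma xB0 (k : ℤˣ) (g : XX × XX) : ‖xB k g‖ = 1 := by rw [xB, sg_norm]
lemma xB1 (k : ℤˣ) (g h : XX × XX) : xB k (g + h) = xB k g * xB k h := by
  simp [xB, dg_add, sg_add]
lemma xB2 (k l : ℤˣ) (g : XX × XX) : xB (k * l) g = xB k g * xB l g := by simp [xB, sg_mul]

lemma single2 (n : ℕ) : (Finsupp.single n 1 : XX) + Finsupp.single n 1 = 0 := by
  rw [← Finsupp.single_add, z2', Finsupp.single_zero]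

lemma choice (S : Finset ((ℤ × YY) × (XX × XX))) (c : (ℤ × YY) × (XX × XX) → _ → ℂ)
    (hc : ∀ g h, c g h = cA g.1 h.1 * cB g.2 h.2) (a : ℤˣ × ℤˣ → (ℤ × YY) × (XX × XX) → ℂ)
    (ha : ∀ k g, a k g = sg k.1 (g.1.1 : ZMod 2) * sg k.2 (dg g.2.1)) :
    ∃ v x z t, x + x = 0 ∧ z + z = 0 ∧ t + t = 0 ∧ c x x = 1 ∧
      c z z = 1 ∧ c t t = 1 ∧ c v x = c x v ∧ c v z = c z v ∧ c v t = c t v ∧
      c x z = -c z x ∧ c t x = c x t ∧ c t z = c z t ∧
      (∀ k, a k v = ((k.1 : ℤ) : ℂ) ∧ a k x = ((k.2 : ℤ) : ℂ) ∧ a k z = 1 ∧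
        a k t = ((k.2 : ℤ) : ℂ)) ∧
      ∀ g ∈ S, c v g = c g v ∧ c x g = c g x ∧ c z g = c g z ∧ c t g = c g t := by
  classical
  obtain ⟨N, hN, F, -, hF, hS⟩ := tors (S.image fun g => g.1.2)
  obtain ⟨n, hn⟩ : ∃ n, ∀ g ∈ S, ∀ m, n ≤ m → g.2.1 m = 0 ∧ g.2.2 m = 0 := by
    refine ⟨(S.biUnion fun g => g.2.1.support ∪ g.2.2.support).sup id + 1, fun g hg m hm => ?_⟩
    by_contra h
    have : m ∈ S.biUnion fun g => g.2.1.support ∪ g.2.2.support := by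
      refine mem_biUnion.mpr ⟨g, hg, ?_⟩
      simp only [mem_union, Finsupp.mem_support_iff]; tauto
    have := le_sup (f := id) this
    simp only [id] at this
    omega
  have hN' : ((N : ℤ) : ZMod 2) = 1 := ZMod.intCast_eq_one_iff_odd.mpr (by exact_mod_cast hN)
  refine ⟨((N, 0), 0), (0, (Finsupp.single n 1, 0)), (0, (0, Finsupp.single n 1)),
    (0, (Finsupp.single (n + 1) 1, 0)), by simp [single2], by simp [single2], by simp [single2],
    ?_, ?_, ?_, ?_, ?_, ?_, ?_, ?_, ?_, fun k => ?_, fun g hg => ?_⟩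
  iterate 9 simp [hc, cA, cB, chi_zero, pr_zero_left, pr_zero_right, pr_single_left, sg_zero,
    sg_one]
  · simp only [ha, hN']
    simp [dg_zero, dg_single, sg_zero, sg_one]
  · have := hF _ (hS (mem_image_of_mem _ hg))
    simp [hc, cA, cB, chi_zero, pr_zero_left, pr_zero_right, pr_single_left, pr_single_right,
      sg_zero, this, hn g hg n le_rfl, hn g hg (n + 1) (by omega)]

def Q1 : Prop :=
  ∀ (A B D : Type) [CStarAlgebra A] [CStarAlgebra B] [CStarAlgebra D] (m : A → B → D)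
    (G G' : Type) [Group G] [Fintype G] [Group G'] [Fintype G']
    (α : G →* (A ≃⋆ₐ[ℂ] A)) (β : G' →* (B ≃⋆ₐ[ℂ] B)) (γ : G × G' →* (D ≃⋆ₐ[ℂ] D)),
    IsSimpleAlg A → IsSimpleAlg B → IsMinTensor m → StablyFinite D →
    (∀ g h a b, γ (g, h) (m a b) = m (α g a) (β h b)) → Rokhlin γ → Rokhlin α ∧ Rokhlin β

theorem final {H K L Γ Λ Ξ : Type} [NormedAddCommGroup H] [InnerProductSpace ℂ H]
    [CompleteSpace H] [NormedAddCommGroup K] [InnerProductSpace ℂ K] [CompleteSpace K]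
    [NormedAddCommGroup L] [InnerProductSpace ℂ L] [CompleteSpace L]
    [AddCommGroup Γ] [AddCommGroup Λ] [AddCommGroup Ξ] (T : TG Γ H) (S : TG Λ K) (P : TG Ξ L)
    (t : H → K → L) (ht : IsHTensor t) (M : (H →L[ℂ] H) → (K →L[ℂ] K) → (L →L[ℂ] L))
    (hM : ∀ a b, IsTens t a b (M a b)) (mem : ∀ (a : T.alg) (b : S.alg), M a b ∈ P.alg)
    (gen : ∀ g, ∃ (a : T.alg) (b : S.alg), P.U g = M a b)
    (α : ℤˣ →* (T.alg ≃⋆ₐ[ℂ] T.alg)) (β : ℤˣ →* (S.alg ≃⋆ₐ[ℂ] S.alg))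
    (W : ℤˣ × ℤˣ →* (L →L[ℂ] L)) (hW : ∀ k, star (W k) = W k⁻¹) (a : ℤˣ × ℤˣ → Ξ → ℂ)
    (hU : ∀ k g, W k * P.U g * W k⁻¹ = a k g • P.U g)
    (h : ∀ S : Finset Ξ, ∃ v x z t : Ξ, x + x = 0 ∧ z + z = 0 ∧ t + t = 0 ∧ P.c x x = 1 ∧
      P.c z z = 1 ∧ P.c t t = 1 ∧ P.c v x = P.c x v ∧ P.c v z = P.c z v ∧ P.c v t = P.c t v ∧
      P.c x z = -P.c z x ∧ P.c t x = P.c x t ∧ P.c t z = P.c z t ∧
      (∀ k, a k v = ((k.1 : ℤ) : ℂ) ∧ a k x = ((k.2 : ℤ) : ℂ) ∧ a k z = 1 ∧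
        a k t = ((k.2 : ℤ) : ℂ)) ∧
      ∀ g ∈ S, P.c v g = P.c g v ∧ P.c x g = P.c g x ∧ P.c z g = P.c g z ∧ P.c t g = P.c g t)
    (s1 : IsSimpleAlg T.alg) (s2 : IsSimpleAlg S.alg)
    (hγ : ∀ g h (a : T.alg) (b : S.alg), W (g, h) * M a b * W (g, h)⁻¹ = M (α g a) (β h b))
    (hα : ¬ RokC α) : ¬ Q1 := by
  intro hQ
  haveI := T.closed
  haveI := S.closed
  haveI := P.closed
  let γ := act P.alg W hW fun k => P.conj_mem _ _ fun g => ⟨_, hU k g⟩
  have hR : RokC γ := P.rok _ a (fun k g => Subtype.ext (hU k g)) h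
  refine hα (hQ T.alg S.alg P.alg (fun a b => ⟨M a b, mem a b⟩) ℤˣ ℤˣ α β γ s1 s2
    ⟨H, K, L, _, _, ‹_›, _, _, ‹_›, _, _, ‹_›, t, Subtype.val, Subtype.val, Subtype.val, ht,
      ⟨Subtype.val_injective, T.alg.subtype, fun _ => rfl⟩,
      ⟨Subtype.val_injective, S.alg.subtype, fun _ => rfl⟩,
      ⟨Subtype.val_injective, P.alg.subtype, fun _ => rfl⟩, fun a b => hM a b, ?_⟩
    P.stablyFinite (fun g h a b => Subtype.ext (hγ g h a b)) hR).1
  intro x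
  rw [Metric.mem_closure_iff]
  intro ε hε
  obtain ⟨F, f, hf⟩ := P.approx x.2 hε
  refine ⟨∑ g ∈ F, f g • ⟨P.U g, P.U_mem g⟩, Submodule.sum_mem _ fun g _ =>
    Submodule.smul_mem _ _ (Submodule.subset_span ?_), ?_⟩
  · obtain ⟨a, b, hab⟩ := gen g
    exact ⟨a, b, Subtype.ext hab⟩
  · rw [dist_eq_norm]
    change ‖x.1 - (∑ g ∈ F, f g • (⟨P.U g, P.U_mem g⟩ : P.alg) : P.alg).1‖ < ε
    simpa using hf

theorem main {H K : Type} [NormedAddCommGroup H] [InnerProductSpace ℂ H] [CompleteSpace H]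
    [NormedAddCommGroup K] [InnerProductSpace ℂ K] [CompleteSpace K]
    (b : HilbertBasis (ℤ × YY) ℂ H) (b' : HilbertBasis (XX × XX) ℂ K) : ¬ Q1 := by
  obtain ⟨T, hT, w, hw, hU⟩ := heis b cA (fun g h => by simp [cA, chi_norm])
    (fun g g' h => by simp [cA, chi_add, mul_zpow])
    (fun g h h' => by simp [cA, zpow_add₀ (chi_ne _)])
    (fun k g => sg k (g.1 : ZMod 2)) (fun k g => sg_norm _ _)
    (fun k g h => by simp [sg_add]) (fun k l g => sg_mul _ _ _)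
  obtain ⟨S, hS, w', hw', hU'⟩ := heis b' cB cB0 cB1 cB2 xB xB0 xB1 xB2
  let W : ℤˣ × ℤˣ →* (HT H K →L[ℂ] HT H K) :=
    { toFun := fun k => tens (w k.1) (w' k.2)
      map_one' := by rw [Prod.fst_one, Prod.snd_one, map_one, map_one, tens_one]
      map_mul' := fun k l => by rw [tens_mul, Prod.fst_mul, Prod.snd_mul, map_mul, map_mul] }
  refine final T S (T.prod S) tp isHTensor tens (fun a b => isTens_iff.mpr rfl)
    (fun a b => T.tens_mem S a.2 b.2) (fun g => ⟨⟨_, T.U_mem g.1⟩, ⟨_, S.U_mem g.2⟩, rfl⟩)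
    (act T.alg w hw fun k => T.conj_mem _ _ fun g => ⟨_, hU k g⟩)
    (act S.alg w' hw' fun k => S.conj_mem _ _ fun g => ⟨_, hU' k g⟩) W (fun k => ?_)
    (fun k g => sg k.1 (g.1.1 : ZMod 2) * sg k.2 (dg g.2.1)) (fun k g => ?_)
    (fun F => choice F _ (fun g h => by rw [← hT, ← hS]; rfl) _ fun _ _ => rfl)
    (T.simple (hT ▸ ndA)) (S.simple (hS ▸ ndB)) (fun g h a b => ?_)
    (not_rokhlin T chi (fun g h => by rw [hT]; rfl) chi_norm chi_zero tors w hw hU _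
      fun _ _ => rfl)
  · change star (tens (w k.1) (w' k.2)) = tens (w k.1⁻¹) (w' k.2⁻¹)
    rw [star_tens, hw, hw']
  · change tens (w k.1) (w' k.2) * tens (T.U g.1) (S.U g.2) * tens (w k.1⁻¹) (w' k.2⁻¹) =
      _ • tens (T.U g.1) (S.U g.2)
    rw [tens_mul, tens_mul, hU, hU', tens_smul_left, tens_smul_right, smul_smul]; rfl
  · rw [act_coe, act_coe]
    change tens (w g) (w' h) * tens a.1 b.1 * tens (w g⁻¹) (w' h⁻¹) = _
    rw [tens_mul, tens_mul]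

end Pool.Agent.H70.Rk
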