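import Mathlib

namespace Pool.Agent.H70.Rk

/-- A unital normed ring is simple: it is nonzero and has no closed two-sided ideal except
zero and the whole ring. -/
def IsSimpleAlg (A : Type) [NormedRing A] : Prop :=
  Nontrivial A ∧ ∀ I : TwoSidedIdeal A, IsClosed (I : Set A) → I = ⊥ ∨ I = ⊤

/-- Every isometry in every matrix algebra over `D` is a unitary. -/
def StablyFinite (D : Type) [Ring D] [StarRing D] : Prop :=
  ∀ (n : ℕ) (M : Matrix (Fin n) (Fin n) D), star M * M = 1 → M * star M = 1

/-- An action of a group on a C*-algebra by star-automorphisms. -/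
abbrev Action (G A : Type) [Group G] [CStarAlgebra A] : Type := G →* (A ≃⋆ₐ[ℂ] A)

/-- With `m a b` read as `a ⊗ b`: `γ` is the tensor product action of `α` and `β`. -/
def IsTensorAction {A B D G G' : Type} [CStarAlgebra A] [CStarAlgebra B] [CStarAlgebra D]
    [Group G] [Group G'] (m : A → B → D) (α : Action G A) (β : Action G' B)
    (γ : Action (G × G') D) : Prop :=
  ∀ g h a b, γ (g, h) (m a b) = m (α g a) (β h b)

/-- The Rokhlin property of an action of a finite group on a unital C*-algebra. -/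
def Rokhlin {K D : Type} [Group K] [Fintype K] [CStarAlgebra D]
    (σ : Action K D) : Prop :=
  ∀ (F : Finset D) (ε : ℝ), 0 < ε → ∃ e : K → D,
    (∀ k, star (e k) = e k ∧ e k * e k = e k) ∧ (∀ k l, k ≠ l → e k * e l = 0) ∧
    (∀ k l, ‖σ k (e l) - e (k * l)‖ < ε) ∧ (∀ k, ∀ a ∈ F, ‖e k * a - a * e k‖ < ε) ∧
    ∑ k, e k = 1

variable {H K : Type} [NormedAddCommGroup H] [InnerProductSpace ℂ H]
  [NormedAddCommGroup K] [InnerProductSpace ℂ K]

variable {L : Type} [NormedAddCommGroup L] [InnerProductSpace ℂ L]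

/-- `t` exhibits `L` as the Hilbert space tensor product of `H` and `K` (write `t x y = x ⊗ y`):
inner products of elementary tensors multiply, and elementary tensors span a dense subspace. -/
def IsHTensor (t : H → K → L) : Prop :=
  (∀ x x' y y', inner ℂ (t x y) (t x' y') = inner ℂ x x' * inner ℂ y y') ∧
    Dense (Submodule.span ℂ {z | ∃ x y, z = t x y} : Set L)

/-- `c` is the operator `a ⊗ b`. -/
def IsTens (t : H → K → L) (a : H →L[ℂ] H) (b : K →L[ℂ] K) (c : L →L[ℂ] L) : Prop :=
  ∀ x y, c (t x y) = t (a x) (b y)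

/-- `π` is a faithful unital star-representation of `A` on `H`. -/
def IsRep {A : Type} [CStarAlgebra A] [CompleteSpace H] (π : A → H →L[ℂ] H) : Prop :=
  Function.Injective π ∧ ∃ φ : A →⋆ₐ[ℂ] (H →L[ℂ] H), ∀ a, φ a = π a

/-- With `m a b` read as `a ⊗ b`: there are faithful representations of `A` on `H`, of `B` on `K`
and of `D` on the Hilbert tensor product `L` of `H` and `K` that send `m a b` to the operator
`a ⊗ b`, and the elements `m a b` span a dense subspace of `D`. -/
def Spatial (H K L : Type) [NormedAddCommGroup H] [InnerProductSpace ℂ H] [CompleteSpace H]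
    [NormedAddCommGroup K] [InnerProductSpace ℂ K] [CompleteSpace K]
    [NormedAddCommGroup L] [InnerProductSpace ℂ L] [CompleteSpace L]
    {A B D : Type} [CStarAlgebra A] [CStarAlgebra B] [CStarAlgebra D] (m : A → B → D) : Prop :=
  ∃ (t : H → K → L) (π : A → H →L[ℂ] H) (ρ : B → K →L[ℂ] K) (σ : D → L →L[ℂ] L),
    IsHTensor t ∧ IsRep π ∧ IsRep ρ ∧ IsRep σ ∧ (∀ a b, IsTens t (π a) (ρ b) (σ (m a b))) ∧
    Dense (Submodule.span ℂ {d | ∃ a b, d = m a b} : Set D)

/-- `D` is the minimal (spatial) tensor product of `A` and `B`, with `m a b = a ⊗ b`. -/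
def IsMinTensor {A B D : Type} [CStarAlgebra A] [CStarAlgebra B] [CStarAlgebra D]
    (m : A → B → D) : Prop :=
  ∃ (H K L : Type) (_ : NormedAddCommGroup H) (_ : InnerProductSpace ℂ H) (_ : CompleteSpace H)
    (_ : NormedAddCommGroup K) (_ : InnerProductSpace ℂ K) (_ : CompleteSpace K)
    (_ : NormedAddCommGroup L) (_ : InnerProductSpace ℂ L) (_ : CompleteSpace L), Spatial H K L m

end Pool.Agent.H70.Rk
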