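import Pool.Agent.H70.SBDefs
import Pool.Agent.H70.EndN

namespace Pool.Agent.H70.SB

open Set Filter Topology TopologicalSpace Metric

section Top

variable {Z : Type*} [TopologicalSpace Z]

theorem lc {W : ℕ → Set Z} (hW : ∀ n, IsClopen (W n)) (h : ∀ z, ∃ n, z ∈ W n) :
    ∃ N : Z → ℕ, IsLocallyConstant N ∧ ∀ z, z ∈ W (N z) := by
  classical
  refine ⟨fun z => Nat.find (h z), IsLocallyConstant.iff_isOpen_fiber.2 fun n => ?_,
    fun z => Nat.find_spec (h z)⟩
  have : (fun z => Nat.find (h z)) ⁻¹' {n} = W n ∩ ⋂ m ∈ Finset.range n, (W m)ᶜ := by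
    ext z; simp [Nat.find_eq_iff]
  exact this ▸ (hW n).2.inter (isOpen_biInter_finset fun m _ => (hW m).compl.2)

def ZD (Z : Type*) [TopologicalSpace Z] : Prop :=
  ∀ O : Set Z, IsOpen O → ∃ W : ℕ → Set Z, (∀ n, IsClopen (W n)) ∧ ⋃ n, W n = O

theorem zd {φ : Z → ℕ → Bool} (h : IsInducing φ) : ZD Z := fun O hO => by
  have := h.secondCountableTopology
  obtain ⟨T, h1, h2, h3⟩ := isOpen_sUnion_countable {C | IsClopen C ∧ C ⊆ O} fun s hs => hs.1.2
  obtain ⟨W, hW⟩ := (h1.insert ∅).exists_eq_range (insert_nonempty _ _)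
  refine ⟨W, fun n => ?_, ?_⟩
  · rcases (hW ▸ mem_range_self n : W n ∈ insert ∅ T) with h4 | h4
    exacts [h4 ▸ isClopen_empty, (h2 h4).1]
  · rw [← sUnion_range, ← hW, sUnion_insert, empty_union, h3]
    refine (sUnion_subset fun s hs => hs.2).antisymm fun z hz => ?_
    obtain ⟨_, ⟨C, hC, rfl⟩, h4, h5⟩ := (isTopologicalBasis_isClopen.isInducing h).exists_subset_of_mem_open hz hO
    exact ⟨_, ⟨IsClopen.preimage hC h.continuous, h5⟩, h4⟩

theorem red (h : ZD Z) {G₁ G₂ : Set Z} (h1 : IsOpen G₁) (h2 : IsOpen G₂) (h3 : ∀ z, z ∈ G₁ ∨ z ∈ G₂) :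
    ∃ C, IsClopen C ∧ C ⊆ G₁ ∧ Cᶜ ⊆ G₂ := by
  classical
  obtain ⟨W₁, a, rfl⟩ := h _ h1
  obtain ⟨W₂, b, rfl⟩ := h _ h2
  have h4 : ∀ z, ∃ n, z ∈ W₁ n ∪ W₂ n := fun z => by
    rcases h3 z with h | h <;> obtain ⟨n, hn⟩ := mem_iUnion.1 h
    exacts [⟨n, .inl hn⟩, ⟨n, .inr hn⟩]
  obtain ⟨N, h5, h7⟩ := lc (fun n => (a n).union (b n)) h4
  have h6 : ∀ V : ℕ → Set Z, (∀ n, IsOpen (V n)) → IsOpen {z | z ∈ V (N z)} := fun V hV => by
    convert isOpen_iUnion fun n => (h5.isOpen_fiber n).inter (hV n)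
    ext z; simp
  exact ⟨{z | z ∈ W₁ (N z)}, ⟨⟨h6 _ fun n => (a n).compl.2⟩, h6 _ fun n => (a n).2⟩,
    fun z hz => mem_iUnion.2 ⟨_, hz⟩, fun z hz => mem_iUnion.2 ⟨_, (h7 z).resolve_left hz⟩⟩

end Top

theorem srec {P : Type*} (R : ∀ n, (Fin n → P) → P → Prop) (h : ∀ n u, ∃ p, R n u p) :
    ∃ f : ℕ → P, ∀ n, R n (fun i => f i) (f n) := by
  choose F hF using h
  let f : ℕ → P := wellFounded_lt.fix fun n ih => F n fun i => ih i i.2
  exact ⟨f, fun n => by rw [show f n = F n fun i => f i from wellFounded_lt.fix_eq _ n]; exact hF _ _⟩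

variable {𝕜 E : Type*} [RCLike 𝕜] [NormedAddCommGroup E] [NormedSpace 𝕜 E]

theorem step {Z : Type*} [TopologicalSpace Z] [CompleteSpace E] (h : ZD Z) (X : Z → Submodule 𝕜 E)
    (v : ℕ → Z → E) (hv : ∀ k, Continuous (v k)) (h1 : ∀ k z, ‖v k z‖ ≤ 1) (h2 : ∀ k z, v k z ∈ X z)
    {n : ℕ} (H : Z → Fin n → E) (hH : Continuous H) (g : Z → E) (hg : Continuous g) {ε : ℝ} (hε : 0 < ε) :
    ∃ f : Z → E, Continuous f ∧ ∀ z, f z ∈ X z ∧ ‖f z‖ ≤ ε ∧ (LinearIndependent 𝕜 (H z) →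
      (∃ k, v k z ∉ Submodule.span 𝕜 (range (H z))) → g z + f z ∉ Submodule.span 𝕜 (range (H z))) := by
  have ho : ∀ w : Z → E, Continuous w → IsOpen {z | LinearIndependent 𝕜 (H z) ∧
      w z ∉ Submodule.span 𝕜 (range (H z))} := fun w hw => by
    simp only [← linearIndependent_finCons]
    exact isOpen_setOf_linearIndependent.preimage (f := fun z => (Fin.cons (w z) (H z) : Fin (n + 1) → E))
      (hw.finCons hH)
  choose W hW hW' using fun k => h _ (ho _ (hv k))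
  let V : ℕ → Set Z := fun j => W j.unpair.1 j.unpair.2
  have hD : ∀ j, IsClopen (disjointed V j) := fun j => by
    rw [disjointed_eq_inter_compl]
    exact (hW _ _).inter (Set.Finite.isClopen_biInter (finite_lt_nat j) fun _ _ => (hW _ _).compl)
  have : ∀ j : ℕ, ∃ u : Z → E, Continuous u ∧ ∀ z, u z ∈ X z ∧ ‖u z‖ ≤ ε / 2 / 2 ^ j ∧
      (z ∈ V j → g z + u z ∉ Submodule.span 𝕜 (range (H z))) := fun j => by
    classical
    let a : ℝ := ε / 2 / 2 ^ j
    have ha : 0 < a := by positivity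
    have c1 : Continuous fun z => g z + (a : 𝕜) • v j.unpair.1 z := hg.add ((hv _).const_smul _)
    obtain ⟨C, h3, h4, h5⟩ := red h ((ho _ c1).union (hW j.unpair.1 j.unpair.2).compl.2)
      ((ho _ hg).union (hW j.unpair.1 j.unpair.2).compl.2) fun z => by
        by_contra! h6
        simp only [mem_union, not_or, mem_compl_iff, not_not, mem_setOf_eq, not_and] at h6
        have h7 : z ∈ ⋃ m, W j.unpair.1 m := mem_iUnion.2 ⟨_, h6.1.2⟩
        rw [hW'] at h7
        exact h7.2 ((Submodule.smul_mem_iff _ (by simpa using ha.ne')).1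
          ((Submodule.add_mem_iff_right _ (h6.2.1 h7.1)).1 (h6.1.1 h7.1)))
    refine ⟨C.indicator fun z => (a : 𝕜) • v j.unpair.1 z, h3.continuous_indicator ((hv _).const_smul _),
      fun z => ?_⟩
    by_cases hz : z ∈ C
    · rw [indicator_of_mem hz]
      refine ⟨Submodule.smul_mem _ _ (h2 _ _), ?_, fun h6 => ((h4 hz).resolve_right fun h => h h6).2⟩
      rw [norm_smul, RCLike.norm_ofReal, abs_of_pos ha]
      exact mul_le_of_le_one_right ha.le (h1 _ _)
    · rw [indicator_of_notMem hz, add_zero]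
      exact ⟨zero_mem _, by simpa using ha.le, fun h6 => ((h5 hz).resolve_right fun h => h h6).2⟩
  choose u h3 h4 using this
  refine ⟨fun z => ∑' j, (disjointed V j).indicator (u j) z, continuous_tsum
    (fun j => (hD j).continuous_indicator (h3 j)) (summable_geometric_two' ε) fun j z =>
      (norm_indicator_le_norm_self _ _).trans (h4 j z).2.1, fun z => ?_⟩
  by_cases hz : z ∈ ⋃ j, disjointed V j
  · obtain ⟨j, hj⟩ := mem_iUnion.1 hz
    simp only
    rw [tsum_eq_single j fun i hi => indicator_of_notMem (fun h => disjoint_left.1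
      (disjoint_disjointed V hi) h hj) _, indicator_of_mem hj]
    refine ⟨(h4 j z).1, (h4 j z).2.1.trans ?_, fun _ _ => (h4 j z).2.2 (disjointed_subset V j hj)⟩
    exact (div_le_self (by positivity) (one_le_pow₀ one_le_two)).trans (half_le_self hε.le)
  · have : ∀ j, (disjointed V j).indicator (u j) z = 0 := fun j =>
      indicator_of_notMem (fun h => hz (mem_iUnion.2 ⟨j, h⟩)) _
    simp only [this, tsum_zero, zero_mem, norm_zero, hε.le, true_and]
    rintro h5 ⟨k, hk⟩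
    obtain ⟨m, hm⟩ := mem_iUnion.1 ((hW' k).symm ▸ ⟨h5, hk⟩ : z ∈ ⋃ m, W k m)
    rw [iUnion_disjointed] at hz
    exact absurd (mem_iUnion.2 ⟨Nat.pair k m, by simpa [V] using hm⟩) hz

theorem indep {Z : Type*} [TopologicalSpace Z] [CompleteSpace E] (h : ZD Z) (X : Z → Submodule 𝕜 E)
    (hX : ∀ z, IsClosed (X z : Set E)) (g : ℕ → Z → E) (hg : ∀ k, Continuous (g k)) (h2 : ∀ k z, g k z ∈ X z)
    (h3 : ∀ z, ∀ x ∈ X z, x ∈ closure (range fun k => g k z)) :
    ∃ f : ℕ → Z → E, (∀ k, Continuous (f k)) ∧ ∀ z, (X z : Set E) = closure (range fun k => f k z) ∧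
      (¬ FiniteDimensional 𝕜 (X z) → LinearIndependent 𝕜 fun k => f k z) := by
  let v : ℕ → Z → E := fun k z => (((1 + ‖g k z‖)⁻¹ : ℝ) : 𝕜) • g k z
  have hv : ∀ k, Continuous (v k) := fun k => (RCLike.continuous_ofReal.comp
    ((continuous_const.add (hg k).norm).inv₀ fun z => (by positivity : 1 + ‖g k z‖ ≠ 0))).smul (hg k)
  have h1 : ∀ k z, ‖v k z‖ ≤ 1 := fun k z => by
    rw [norm_smul, RCLike.norm_ofReal, abs_of_pos (by positivity), inv_mul_le_iff₀ (by positivity)]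
    simp
  obtain ⟨f, hf⟩ := srec (P := {f : Z → E // Continuous f}) (fun n u p => ∀ z, p.1 z - g n.unpair.1 z ∈ X z ∧
      ‖p.1 z - g n.unpair.1 z‖ ≤ 1 / (n + 1) ∧ (LinearIndependent 𝕜 (fun i => (u i).1 z) →
      (∃ k, v k z ∉ Submodule.span 𝕜 (range fun i => (u i).1 z)) →
        p.1 z ∉ Submodule.span 𝕜 (range fun i => (u i).1 z))) fun n u => by
    obtain ⟨f, a, b⟩ := step h X v hv h1 (fun k z => Submodule.smul_mem _ _ (h2 k z))
      (fun z i => (u i).1 z) (continuous_pi fun i => (u i).2) _ (hg n.unpair.1) (Nat.one_div_pos_of_nat (n := n))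
    exact ⟨⟨fun z => g n.unpair.1 z + f z, (hg _).add a⟩, fun z => by simpa using b z⟩
  refine ⟨fun k => f k, fun k => (f k).2, fun z => ⟨subset_antisymm (fun x hx => ?_)
    (closure_minimal ?_ (hX z)), fun hz => ?_⟩⟩
  · refine closure_minimal ?_ isClosed_closure (h3 z x hx)
    rintro _ ⟨k, rfl⟩
    refine Metric.mem_closure_iff.2 fun ε hε => ?_
    obtain ⟨m, hm⟩ := exists_nat_one_div_lt hε
    refine ⟨_, mem_range_self (Nat.pair k m), ?_⟩
    have := (hf (Nat.pair k m) z).2.1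
    rw [Nat.unpair_pair] at this
    rw [dist_comm, dist_eq_norm]
    exact this.trans_lt ((Nat.one_div_le_one_div (Nat.right_le_pair k m)).trans_lt hm)
  · rintro _ ⟨k, rfl⟩
    simpa using add_mem (hf k z).1 (h2 k.unpair.1 z)
  · have : ∀ n, LinearIndependent 𝕜 fun i : Fin n => (f i).1 z := fun n => by
      induction n with
      | zero => exact linearIndependent_empty_type
      | succ n ih =>
        refine linearIndependent_finSucc'.2 ⟨ih, (hf n z).2.2 ih ?_⟩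
        by_contra! h4
        have := FiniteDimensional.span_of_finite 𝕜 (finite_range fun i : Fin n => (f i).1 z)
        refine hz (Submodule.finiteDimensional_of_le (S₂ := Submodule.span 𝕜 (range fun i : Fin n => (f i).1 z))
          fun x hx => closure_minimal ?_ (Submodule.closed_of_finiteDimensional _) (h3 z x hx))
        rintro _ ⟨k, rfl⟩
        exact (Submodule.smul_mem_iff _ (RCLike.ofReal_ne_zero.2 (by positivity))).1 (h4 k)
    refine linearIndependent_iff_finset_linearIndependent.2 fun s => ?_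
    exact (this (s.sup id + 1)).comp (fun i : s => ⟨i, Nat.lt_succ_of_le (Finset.le_sup (f := id) i.2)⟩)
      fun i j h => Subtype.ext (Fin.mk.inj h)

variable [SeparableSpace E]

noncomputable def U (E : Type*) [NormedAddCommGroup E] [SeparableSpace E] (i : ℕ) : Set E :=
  ball (denseSeq E i.unpair.1) (1 / (i.unpair.2 + 1))

noncomputable def K (E : Type*) [NormedAddCommGroup E] [SeparableSpace E] (i : ℕ) : Set E :=
  closedBall (denseSeq E i.unpair.1) (1 / (i.unpair.2 + 1))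

theorem shrink {O : Set E} (hO : IsOpen O) {x : E} (hx : x ∈ O) (s : ℕ) :
    ∃ j, x ∈ U E j ∧ K E j ⊆ O ∧ s ≤ j.unpair.2 := by
  obtain ⟨ε, h1, h2⟩ := Metric.isOpen_iff.1 hO x hx
  obtain ⟨m, hm⟩ := exists_nat_one_div_lt (half_pos h1)
  have h3 : (1 : ℝ) / ((m + s : ℕ) + 1) ≤ 1 / (m + 1) := Nat.one_div_le_one_div (by omega)
  obtain ⟨k, hk⟩ := (denseRange_denseSeq E).exists_dist_lt x (Nat.one_div_pos_of_nat (n := m + s))
  refine ⟨Nat.pair k (m + s), by simpa [U] using hk, fun y hy => h2 ?_, by simp⟩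
  simp only [K, Nat.unpair_pair, mem_closedBall, mem_ball] at hy ⊢
  linarith [dist_triangle_right y x (denseSeq E k)]

theorem nest [CompleteSpace E] (a : ℕ → ℕ) (h1 : ∀ s, K E (a (s + 1)) ⊆ U E (a s))
    (h2 : ∀ s, s ≤ (a (s + 1)).unpair.2) : ∃ x, ∀ s, x ∈ U E (a s) := by
  have h3 : Antitone fun s => K E (a (s + 1)) :=
    antitone_nat_of_succ_le fun s => (h1 _).trans ball_subset_closedBall
  obtain ⟨x, hx⟩ := Metric.nonempty_iInter_of_nonempty_biInter (s := fun s => K E (a (s + 1)))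
    (fun _ => isClosed_closedBall) (fun _ => isBounded_closedBall) (fun N => ⟨_, mem_iInter₂.2 fun n hn =>
      h3 hn (mem_closedBall_self (by positivity))⟩)
    (squeeze_zero (fun _ => diam_nonneg) (fun s => (diam_closedBall (by positivity)).trans
      (mul_le_mul_of_nonneg_left (Nat.one_div_le_one_div (h2 s)) zero_le_two))
      (by simpa using tendsto_one_div_add_atTop_nhds_zero_nat.const_mul (2 : ℝ)))
  exact ⟨x, fun s => h1 s (mem_iInter.1 hx s)⟩

theorem clo {a : ℕ → ℕ} (h2 : ∀ s, s ≤ (a (s + 1)).unpair.2) {x y : E} {s : ℕ} (hx : x ∈ K E (a (s + 1)))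
    (hy : y ∈ K E (a (s + 1))) : dist x y ≤ 2 * (1 / (s + 1)) := by
  have := Nat.one_div_le_one_div (α := ℝ) (h2 s)
  simp only [K, mem_closedBall] at hx hy
  linarith [dist_triangle_right x y (denseSeq E (a (s + 1)).unpair.1)]

open Classical in
noncomputable def Φ (X : SB 𝕜 E) (i : ℕ) : Bool := decide (X ∈ Ep 𝕜 (U E i))

theorem sel [CompleteSpace E] [TopologicalSpace (SB 𝕜 E)] (h : ∀ i, IsClopen (Ep 𝕜 (U E i))) (i : ℕ) :
    ∃ g : SB 𝕜 E → E, Continuous g ∧ ∀ X, g X ∈ X.1 ∧ (X ∈ Ep 𝕜 (U E i) → g X ∈ U E i) := by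
  classical
  have : ∀ (s : ℕ) (a : {a : SB 𝕜 E → ℕ // IsLocallyConstant a ∧ ∀ X, X ∈ Ep 𝕜 (U E (a X))}),
      ∃ b : {a : SB 𝕜 E → ℕ // IsLocallyConstant a ∧ ∀ X, X ∈ Ep 𝕜 (U E (a X))},
        ∀ X, K E (b.1 X) ⊆ U E (a.1 X) ∧ s ≤ (b.1 X).unpair.2 := fun s a => by
    have h1 : ∀ X, ∃ j, X ∈ Ep 𝕜 (U E j) ∩ a.1 ⁻¹' {m | K E j ⊆ U E m ∧ s ≤ j.unpair.2} := fun X => by
      obtain ⟨x, h1, h2⟩ := a.2.2 X
      obtain ⟨j, h3, h4⟩ := shrink isOpen_ball h1 s
      exact ⟨j, ⟨x, h3, h2⟩, h4⟩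
    obtain ⟨N, h2, h3⟩ := lc (fun j => (h j).inter ((isClopen_discrete _).preimage a.2.1.continuous)) h1
    exact ⟨⟨N, h2, fun X => (h3 X).1⟩, fun X => (h3 X).2⟩
  choose F hF using this
  obtain ⟨i₀, h0, -⟩ := shrink isOpen_univ (mem_univ (0 : E)) 0
  obtain ⟨a₀, ha⟩ : ∃ a : {a : SB 𝕜 E → ℕ // IsLocallyConstant a ∧ ∀ X, X ∈ Ep 𝕜 (U E (a X))},
      ∀ X ∈ Ep 𝕜 (U E i), a.1 X = i :=
    ⟨⟨fun X => if X ∈ Ep 𝕜 (U E i) then i else i₀, (IsLocallyConstant.iff_continuous _).2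
      (continuous_const.if (by simp [show {X | X ∈ Ep 𝕜 (U E i)} = Ep 𝕜 (U E i) from rfl, (h i).frontier_eq])
        continuous_const), fun X => by
        dsimp only
        split_ifs with h1
        exacts [h1, ⟨0, h0, zero_mem _⟩]⟩, fun X hX => if_pos hX⟩
  obtain ⟨a, e0, e1⟩ : ∃ a : ℕ → {a : SB 𝕜 E → ℕ // IsLocallyConstant a ∧ ∀ X, X ∈ Ep 𝕜 (U E (a X))},
    a 0 = a₀ ∧ ∀ s, a (s + 1) = F s (a s) := ⟨fun s => s.rec a₀ F, rfl, fun _ => rfl⟩
  have e2 := fun s X => (e1 s ▸ (hF s (a s) X).2 : s ≤ ((a (s + 1)).1 X).unpair.2)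
  choose g hg using fun X => nest (fun s => (a s).1 X) (fun s => e1 s ▸ (hF s _ X).1) fun s => e2 s X
  have h2 : ∀ ε : ℝ, 0 < ε → ∃ s : ℕ, ∀ X, ∀ y ∈ U E ((a (s + 1)).1 X), dist (g X) y < ε := fun ε hε => by
    obtain ⟨s, hs⟩ := exists_nat_one_div_lt (half_pos hε)
    exact ⟨s, fun X y hy => (clo (a := fun s => (a s).1 X) (fun s => e2 s X)
      (ball_subset_closedBall (hg X _)) (ball_subset_closedBall hy)).trans_lt (by linarith)⟩
  refine ⟨g, continuous_iff_continuousAt.2 fun X => Metric.tendsto_nhds.2 fun ε hε => ?_, fun X =>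
    ⟨X.2.closure_subset (Metric.mem_closure_iff.2 fun ε hε => ?_), fun hX => ?_⟩⟩
  · obtain ⟨s, hs⟩ := h2 ε hε
    filter_upwards [(a (s + 1)).2.1.eventually_eq X] with Y hY
    exact hs Y _ (hY ▸ hg X _)
  · obtain ⟨s, hs⟩ := h2 ε hε
    obtain ⟨y, h3, h4⟩ := (a (s + 1)).2.2 X
    exact ⟨y, h4, hs X y h3⟩
  · simpa [e0, ha X hX] using hg X 0

theorem pol [CompleteSpace E] : @PolishSpace (SB 𝕜 E) (.induced Φ inferInstance) := by
  let G : ℕ × ℕ → Set (ℕ → Bool) := fun p =>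
    {b | b p.1 = false} ∪ ⋃ j ∈ {j | K E j ⊆ U E p.1 ∧ p.2 ≤ j.unpair.2}, {b | b j = true}
  have o : ∀ (j : ℕ) (c : Bool), IsClopen {b : ℕ → Bool | b j = c} := fun j c =>
    (isClopen_discrete {c}).preimage (continuous_apply j)
  have : PolishSpace (ℕ → Bool) :=
    IsClosedEmbedding.polishSpace (f := fun (b : ℕ → Bool) i => (b i).toNat) (Continuous.isClosedEmbedding
      (continuous_pi fun i => (continuous_of_discreteTopology (f := Bool.toNat)).comp (continuous_apply i))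
      fun a b h => funext fun i => by
        have := congrFun h i
        revert this
        cases a i <;> cases b i <;> simp)
  have := EndN.gd G fun p => (o _ _).2.union (isOpen_biUnion fun j _ => (o _ _).2)
  let φ : SB 𝕜 E → (⋂ n, G n) := fun X => ⟨Φ X, mem_iInter.2 fun p => by
    by_cases h : X ∈ Ep 𝕜 (U E p.1)
    · obtain ⟨x, h1, h2⟩ := h
      obtain ⟨j, h3, h4⟩ := shrink isOpen_ball h1 p.2
      exact .inr (mem_iUnion₂.2 ⟨j, h4, by simpa [Φ] using ⟨x, h3, h2⟩⟩)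
    · exact .inl (by simpa [Φ] using h)⟩
  letI : TopologicalSpace (SB 𝕜 E) := .induced Φ inferInstance
  have h0 : ∀ X Y : SB 𝕜 E, Φ X = Φ Y → X.1 ≤ Y.1 := fun X Y h x hx => by
    by_contra h1
    obtain ⟨j, h2, h3, -⟩ := shrink Y.2.isOpen_compl h1 0
    have := congrFun h j
    simp only [Φ, decide_eq_decide] at this
    obtain ⟨y, h4, h5⟩ := this.1 ⟨x, h2, hx⟩
    exact h3 (ball_subset_closedBall h4) h5
  refine IsClosedEmbedding.polishSpace (f := φ) ⟨⟨⟨(induced_compose (g := Subtype.val) (f := φ)).symm⟩,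
    fun X Y h => Subtype.ext ((h0 _ _ (congrArg (·.1) h)).antisymm (h0 _ _ (congrArg (·.1) h.symm)))⟩, ?_⟩
  have : range φ = Subtype.val ⁻¹' {b | ∀ (i j k : ℕ) (c : 𝕜), (0 ∈ U E k → b k = true) ∧
      ((∀ x ∈ U E i, ∀ y ∈ U E j, c • x + y ∈ U E k) → b i = true → b j = true → b k = true)} := by
    ext ⟨b, hb⟩
    simp only [mem_range, mem_preimage, mem_setOf_eq]
    refine ⟨?_, fun h => ?_⟩
    · rintro ⟨X, hX⟩ i j k c
      cases hX
      simp only [Φ, decide_eq_true_eq]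
      exact ⟨fun h => ⟨0, h, zero_mem _⟩, fun h ⟨x, h1, h2⟩ ⟨y, h3, h4⟩ =>
        ⟨_, h x h1 y h3, add_mem (Submodule.smul_mem _ _ h2) h4⟩⟩
    · have h1 : ∀ (c : 𝕜) x y, (∀ i, x ∈ U E i → b i = true) → (∀ i, y ∈ U E i → b i = true) →
          ∀ i, c • x + y ∈ U E i → b i = true := fun c x y hx hy k hk => by
        obtain ⟨u, v, h2, h3, h4, h5, h6⟩ := isOpen_prod_iff.1 (isOpen_ball.preimage
          (f := fun p : E × E => c • p.1 + p.2) (by fun_prop)) x y hk
        obtain ⟨i, h7, h8, -⟩ := shrink h2 h4 0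
        obtain ⟨j, h9, h10, -⟩ := shrink h3 h5 0
        exact (h i j k c).2 (fun x hx y hy => h6 (mk_mem_prod (h8 (ball_subset_closedBall hx))
          (h10 (ball_subset_closedBall hy)))) (hx i h7) (hy j h9)
      have h2 : ∀ i, (0 : E) ∈ U E i → b i = true := fun i => (h i i i 0).1
      refine ⟨⟨⟨⟨⟨{x | ∀ i, x ∈ U E i → b i = true}, fun {x y} hx hy => by simpa using h1 1 x y hx hy⟩, h2⟩,
        fun c x hx => by simpa using h1 c x 0 hx h2⟩, ?_⟩, Subtype.ext (funext fun i => ?_)⟩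
      · refine isClosed_of_closure_subset fun x hx i hi => ?_
        obtain ⟨y, h3, h4⟩ := mem_closure_iff.1 hx _ isOpen_ball hi
        exact h4 i h3
      · simp only [φ, Φ, Bool.eq_iff_iff (b := b i), decide_eq_true_eq]
        refine ⟨fun ⟨x, h3, h4⟩ => h4 i h3, fun hi => ?_⟩
        have : ∀ (s : ℕ) (j : {j // b j = true}), ∃ k : {j // b j = true},
            K E k ⊆ U E j ∧ s ≤ k.1.unpair.2 := fun s j => by
          obtain ⟨k, h3, h4⟩ := mem_iUnion₂.1 ((mem_iInter.1 hb (j, s)).resolve_left (by simp [j.2]))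
          exact ⟨⟨k, h4⟩, h3⟩
        choose F hF using this
        let a : ℕ → {j // b j = true} := fun s => s.rec ⟨i, hi⟩ F
        obtain ⟨x, hx⟩ := nest (fun s => (a s).1) (fun s => (hF s _).1) fun s => (hF s _).2
        refine ⟨x, hx 0, fun k hk => ?_⟩
        obtain ⟨ε, h3, h4⟩ := Metric.isOpen_iff.1 isOpen_ball x hk
        obtain ⟨s, hs⟩ := exists_nat_one_div_lt (half_pos h3)
        refine (h (a (s + 1)) (a (s + 1)) k 0).2 (fun _ _ y hy => ?_) (a (s + 1)).2 (a (s + 1)).2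
        rw [zero_smul, zero_add]
        exact h4 ((clo (a := fun s => (a s).1) (fun s => (hF s _).2) (ball_subset_closedBall hy)
          (ball_subset_closedBall (hx (s + 1)))).trans_lt (by linarith))
  rw [this]
  refine IsClosed.preimage continuous_subtype_val ?_
  simp only [setOf_forall (ι := ℕ), setOf_forall (ι := 𝕜), setOf_and,
    setOf_forall (ι := ∀ x ∈ _, _)]
  exact isClosed_iInter fun i => isClosed_iInter fun j => isClosed_iInter fun k => isClosed_iInter fun c =>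
    (isClosed_imp isOpen_const (o _ _).1).inter (isClosed_iInter fun _ =>
      (isClosed_discrete {p : Bool × Bool × Bool | p.1 = true → p.2.1 = true → p.2.2 = true}).preimage
        (f := fun b : ℕ → Bool => (b i, b j, b k)) (by fun_prop))

theorem main [CompleteSpace E] : ∃ τ : TopologicalSpace (SB 𝕜 E), Admissible τ ∧
    ∃ f : ℕ → SB 𝕜 E → E, (∀ k, Continuous[τ, _] (f k)) ∧ ∀ X : SB 𝕜 E,
      (X.1 : Set E) = closure (range fun k => f k X) ∧
      (¬ FiniteDimensional 𝕜 X.1 → LinearIndependent 𝕜 fun k => f k X) := by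
  letI τ : TopologicalSpace (SB 𝕜 E) := .induced Φ inferInstance
  have hΦ : IsInducing (Φ : SB 𝕜 E → _) := ⟨rfl⟩
  have h : ∀ i, IsClopen (Ep 𝕜 (U E i)) := fun i => by
    convert ((isClopen_discrete {true}).preimage (continuous_apply i)).preimage hΦ.continuous
    ext; simp [Φ]
  choose g hg hg' using sel h
  refine ⟨τ, ⟨pol, fun O hO => isOpen_iff_forall_mem_open.2 fun X hX => ?_,
    range (fun i => Ep 𝕜 (U E i)) ∪ range fun i => (Ep 𝕜 (U E i))ᶜ, le_antisymm (le_generateFrom ?_) ?_, ?_⟩,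
    indep (zd hΦ) _ (fun X => X.2) g hg (fun k X => (hg' k X).1) fun X x hx =>
      mem_closure_iff.2 fun O hO h1 => ?_⟩
  · obtain ⟨x, h1, h2⟩ := hX
    obtain ⟨j, h3, h4, -⟩ := shrink hO h1 0
    refine ⟨_, ?_, (h j).2, x, h3, h2⟩
    rintro Y ⟨y, h5, h6⟩
    exact ⟨y, h4 (ball_subset_closedBall h5), h6⟩
  · rintro _ (⟨i, rfl⟩ | ⟨i, rfl⟩)
    exacts [(h i).2, (h i).compl.2]
  · rw [← continuous_iff_le_induced]
    refine @continuous_pi _ _ _ (_) _ _ fun i => (@continuous_discrete_rng _ _ (_) _ _ _).2 fun b => ?_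
    refine isOpen_generateFrom_of_mem ?_
    cases b
    · exact .inr ⟨i, by ext; simp [Φ]⟩
    · exact .inl ⟨i, by ext; simp [Φ]⟩
  · rintro _ (⟨i, rfl⟩ | ⟨i, rfl⟩)
    · exact ⟨fun _ => U E i, fun _ => ∅, fun _ => ⟨isOpen_ball, isOpen_empty⟩, by ext; simp [Ep]⟩
    · refine ⟨fun _ => univ, fun _ => U E i, fun _ => ⟨isOpen_univ, isOpen_ball⟩, ?_⟩
      ext X
      simp only [iUnion_const, mem_compl_iff, mem_diff]
      exact (and_iff_right ⟨0, trivial, zero_mem _⟩).symm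
  · obtain ⟨j, h3, h4, -⟩ := shrink hO h1 0
    exact ⟨_, h4 (ball_subset_closedBall ((hg' j X).2 ⟨x, h3, hx⟩)), mem_range_self j⟩

end Pool.Agent.H70.SB
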