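import Mathlib

/-! Admissible topologies on the space of closed subspaces of a normed space. -/

namespace Pool.Agent.H70.SB

variable (𝕜 E : Type*) [RCLike 𝕜] [NormedAddCommGroup E] [NormedSpace 𝕜 E]

/-- The closed linear subspaces of `E`. -/
abbrev SB := {X : Submodule 𝕜 E // IsClosed (X : Set E)}

variable {E}

/-- `E⁺(U)`: the closed subspaces that meet `U`. -/
def Ep (U : Set E) : Set (SB 𝕜 E) := {X | ∃ x ∈ U, x ∈ X.1}

variable {𝕜}

/-- Admissible Polish topologies. -/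
def Admissible (τ : TopologicalSpace (SB 𝕜 E)) : Prop :=
  @PolishSpace _ τ ∧ (∀ U, IsOpen U → @IsOpen _ τ (Ep 𝕜 U)) ∧
    ∃ S, τ = .generateFrom S ∧ ∀ s ∈ S, ∃ U V : ℕ → Set E,
      (∀ n, IsOpen (U n) ∧ IsOpen (V n)) ∧ s = ⋃ n, Ep 𝕜 (U n) \ Ep 𝕜 (V n)

/-- Continuous selectors with dense range, linearly independent at infinite-dimensional subspaces. -/
def Sel (τ : TopologicalSpace (SB 𝕜 E)) (h : ℕ → SB 𝕜 E → E) : Prop :=
  (∀ i, @Continuous _ _ τ _ (h i)) ∧ ∀ X : SB 𝕜 E, (X.1 : Set E) = closure (Set.range fun i => h i X) ∧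
    (¬ FiniteDimensional 𝕜 X.1 → LinearIndependent 𝕜 fun i => h i X)

end Pool.Agent.H70.SB
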