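import Pool.Agent.H70.SLDefs

namespace Pool.Agent.H70.SL

universe u

section Exist

variable {A : Type u} [Ring A] (φ : RingAut A)

def ι : A →+* Module.End ℤ (ℤ → A) where
  toFun a := { toFun := fun f i => (φ ^ i) a * f i
               map_smul' := fun c f => by ext; simp [mul_smul_comm, -zsmul_eq_mul]
               map_add' := fun f g => by ext; simp [mul_add] }
  map_one' := LinearMap.ext fun f => by ext i; simp
  map_mul' a b := LinearMap.ext fun f => by ext i; simp [mul_assoc]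
  map_zero' := LinearMap.ext fun f => by ext i; simp
  map_add' a b := LinearMap.ext fun f => by ext i; simp [add_mul]

theorem ι_inj : Function.Injective (ι φ) := fun a b h => by
  simpa [ι] using congrArg (fun F : Module.End ℤ (ℤ → A) => F 1 0) h

def sh (A : Type u) [Ring A] (k : ℤ) : Module.End ℤ (ℤ → A) :=
  { toFun := fun f i => f (i + k), map_smul' := fun _ _ => rfl, map_add' := fun _ _ => rfl }

theorem sh_add (k l : ℤ) : sh A k * sh A l = sh A (k + l) :=
  LinearMap.ext fun f => by ext i; simp [sh, add_assoc]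

theorem sh_zero : sh A 0 = 1 := LinearMap.ext fun f => by ext i; simp [sh]

theorem sh_ι (k : ℤ) (a : A) : sh A k * ι φ a = ι φ ((φ ^ k) a) * sh A k :=
  LinearMap.ext fun f => by ext i; simp [sh, ι, zpow_add]

theorem mm (i j : ℤ) (a b : A) :
    ι φ a * sh A i * (ι φ b * sh A j) = ι φ (a * (φ ^ i) b) * sh A (i + j) := by
  rw [mul_assoc, ← mul_assoc (sh A i), sh_ι, map_mul, ← sh_add]
  simp only [mul_assoc]

theorem canc {i : ℤ} {a b : A} (h : ι φ a * sh A i = ι φ b * sh A i) : a = b := by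
  have := congrArg (· * sh A (-i)) h
  simp only [mul_assoc, sh_add, add_neg_cancel, sh_zero, mul_one] at this
  exact ι_inj φ this

def Rg : Subring (HahnSeries ℤ (Module.End ℤ (ℤ → A))) where
  carrier := {f | ∀ i, ∃ a, f.coeff i = ι φ a * sh A i}
  one_mem' i := by
    rw [HahnSeries.coeff_one]
    split_ifs with h
    · exact ⟨1, by simp [h, sh_zero]⟩
    · exact ⟨0, by simp⟩
  zero_mem' i := ⟨0, by simp⟩
  add_mem' h h' i := by
    obtain ⟨a, ha⟩ := h i
    obtain ⟨b, hb⟩ := h' i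
    exact ⟨a + b, by simp [ha, hb, add_mul]⟩
  neg_mem' h i := by
    obtain ⟨a, ha⟩ := h i
    exact ⟨-a, by rw [HahnSeries.coeff_neg, ha, map_neg, neg_mul]⟩
  mul_mem' {f g} h h' n := by
    choose a ha using h
    choose b hb using h'
    refine ⟨∑ p ∈ Finset.antidiagonal f.isPWO_support g.isPWO_support n, a p.1 * (φ ^ p.1) (b p.2), ?_⟩
    rw [HahnSeries.coeff_mul, map_sum, Finset.sum_mul]
    refine Finset.sum_congr rfl fun p hp => ?_
    rw [ha, hb, mm, (Finset.mem_antidiagonal.1 hp).2.2]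

noncomputable def eg : Rg φ ≃+ HahnSeries ℤ A :=
  (AddEquiv.ofBijective
    (⟨⟨fun g => ⟨⟨fun i => ι φ (g.coeff i) * sh A i, g.isPWO_support.mono fun i hi h => hi (by
        simp [h])⟩, fun i => ⟨_, rfl⟩⟩, by ext i : 3; simp⟩,
      fun f g => by ext i : 3; simp [add_mul]⟩ : HahnSeries ℤ A →+ Rg φ)
    ⟨fun f g h => by
      ext i
      exact canc φ (congrArg (fun F : Rg φ => F.1.coeff i) h), fun f => by
      choose a ha using f.2
      refine ⟨⟨a, f.1.isPWO_support.mono fun i hi h => hi (canc φ (i := i) ?_)⟩, ?_⟩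
      · rw [← ha, h]; simp
      · ext i : 3; exact (ha i).symm⟩).symm

theorem eg_coeff (f : Rg φ) (i : ℤ) : f.1.coeff i = ι φ ((eg φ f).coeff i) * sh A i := by
  obtain ⟨g, rfl⟩ := (eg φ).symm.surjective f
  rw [AddEquiv.apply_symm_apply]
  rfl

theorem skew : IsSL φ (eg φ) := fun f g n => by
  have hs : Function.support (fun i => (eg φ f).coeff i * (φ ^ i) ((eg φ g).coeff (n - i))) ⊆
      ((Finset.antidiagonal f.1.isPWO_support g.1.isPWO_support n).image Prod.fst : Finset ℤ) := by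
    intro i hi
    refine Finset.mem_coe.2 (Finset.mem_image.2 ⟨(i, n - i), Finset.mem_antidiagonal.2
      ⟨fun h => hi ?_, fun h => hi ?_, by simp⟩, rfl⟩)
    · have : (eg φ f).coeff i = 0 := canc φ (i := i) (by rw [← eg_coeff, h]; simp)
      simp [this]
    · have : (eg φ g).coeff (n - i) = 0 := canc φ (i := n - i) (by rw [← eg_coeff, h]; simp)
      simp [this]
  rw [finsum_eq_sum_of_support_subset _ hs, Finset.sum_image fun x hx y hy h => by
    have h1 := (Finset.mem_antidiagonal.1 hx).2.2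
    have h2 := (Finset.mem_antidiagonal.1 hy).2.2
    exact Prod.ext h (by omega)]
  apply canc φ (i := n)
  rw [← eg_coeff, Subring.coe_mul, HahnSeries.coeff_mul, map_sum, Finset.sum_mul]
  refine Finset.sum_congr rfl fun ⟨i, j⟩ hij => ?_
  obtain rfl : j = n - i := by have := (Finset.mem_antidiagonal.1 hij).2.2; simp at this; omega
  rw [eg_coeff, eg_coeff, mm, add_sub_cancel]

theorem exists_SL : ∃ (R : Type u) (_ : Ring R) (e : R ≃+ HahnSeries ℤ A), IsSL φ e :=
  ⟨Rg φ, inferInstance, eg φ, skew φ⟩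

end Exist

variable {A R : Type*} [Ring A] [Ring R] {φ : RingAut A} {e : R ≃+ HahnSeries ℤ A}

/-- the monomial `a x^i` -/
noncomputable def mo (e : R ≃+ HahnSeries ℤ A) (i : ℤ) (a : A) : R := e.symm (HahnSeries.single i a)

theorem mo_coeff (i n : ℤ) (a : A) : (e (mo e i a)).coeff n = if n = i then a else 0 := by
  rw [mo, AddEquiv.apply_symm_apply, HahnSeries.coeff_single]
  convert rfl

theorem ext' {f g : R} (h : ∀ n, (e f).coeff n = (e g).coeff n) : f = g :=
  e.injective (HahnSeries.ext (funext h))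

theorem mo_mul (h : IsSL φ e) (i n : ℤ) (a : A) (g : R) :
    (e (mo e i a * g)).coeff n = a * (φ ^ i) ((e g).coeff (n - i)) := by
  rw [h, finsum_eq_single _ i fun j hj => by simp [mo_coeff, hj]]
  simp [mo_coeff]

theorem mul_mo (h : IsSL φ e) (j n : ℤ) (b : A) (f : R) :
    (e (f * mo e j b)).coeff n = (e f).coeff (n - j) * (φ ^ (n - j)) b := by
  rw [h, finsum_eq_single _ (n - j) fun i hi => by
    rw [mo_coeff, if_neg (by omega)]; simp]
  simp [mo_coeff]

theorem mo_mo (h : IsSL φ e) (i j : ℤ) (a b : A) :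
    mo e i a * mo e j b = mo e (i + j) (a * (φ ^ i) b) := ext' (e := e) fun n => by
  rw [mo_mul h, mo_coeff, mo_coeff]
  by_cases hn : n = i + j
  · rw [if_pos (by omega), if_pos hn]
  · rw [if_neg (by omega), if_neg hn]; simp

theorem mo_one (h : IsSL φ e) : mo e 0 1 = 1 := by
  rw [← mul_one (mo e 0 1)]
  exact ext' (e := e) fun n => by rw [mo_mul h]; simp

theorem mo_add (i : ℤ) (a b : A) : mo e i (a + b) = mo e i a + mo e i b := by simp [mo]

theorem mo_sub (i : ℤ) (a b : A) : mo e i (a - b) = mo e i a - mo e i b := by simp [mo]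

theorem mo_zero (i : ℤ) : mo e i 0 = 0 := by simp [mo]

/-- vanishing below `p` -/
def Lo (e : R ≃+ HahnSeries ℤ A) (p : ℤ) (f : R) : Prop := ∀ i < p, (e f).coeff i = 0

theorem exLo (f : R) : ∃ p, Lo e p f := ⟨(e f).order, fun _ hi => HahnSeries.coeff_eq_zero_of_lt_order hi⟩

theorem exLo' {f : R} (hf : f ≠ 0) : ∃ p, Lo e p f ∧ (e f).coeff p ≠ 0 :=
  ⟨(e f).order, fun _ hi => HahnSeries.coeff_eq_zero_of_lt_order hi,
    HahnSeries.coeff_order_eq_zero.not.2 (by simpa using hf)⟩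

theorem lo_mul (h : IsSL φ e) {p q : ℤ} {f g : R} (hf : Lo e p f) (hg : Lo e q g) :
    Lo e (p + q) (f * g) := fun n hn => by
  rw [h]
  refine finsum_eq_zero_of_forall_eq_zero fun i => ?_
  by_cases hi : i < p
  · simp [hf i hi]
  · simp [hg (n - i) (by omega)]

theorem lead_mul (h : IsSL φ e) {p q : ℤ} {f g : R} (hf : Lo e p f) (hg : Lo e q g) :
    (e (f * g)).coeff (p + q) = (e f).coeff p * (φ ^ p) ((e g).coeff q) := by
  rw [h, finsum_eq_single _ p fun i hi => ?_, add_sub_cancel_left]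
  by_cases hi' : i < p
  · simp [hf i hi']
  · simp [hg (p + q - i) (by omega)]

noncomputable def invc (φ : RingAut A) (c : ℤ → A) : ℕ → A
  | 0 => 1
  | n + 1 => -∑ i : Fin (n + 1), c (i + 1) * (φ ^ ((i : ℤ) + 1)) (invc φ c (n - i))
decreasing_by omega

theorem rinv (h : IsSL φ e) {f : R} (hf : Lo e 0 f) (h1 : (e f).coeff 0 = 1) :
    ∃ g, Lo e 0 g ∧ (e g).coeff 0 = 1 ∧ f * g = 1 := by
  let G : HahnSeries ℤ A := ⟨fun i => if 0 ≤ i then invc φ (e f).coeff i.toNat else 0,
    Set.IsWF.isPWO (BddBelow.isWF ⟨0, fun i hi => by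
      by_contra hc
      exact hi (if_neg hc)⟩)⟩
  have hG : ∀ i, (e (e.symm G)).coeff i = if 0 ≤ i then invc φ (e f).coeff i.toNat else 0 := by
    simp [G]
  generalize e.symm G = g at hG
  have lo : Lo e 0 g := fun i hi => by rw [hG, if_neg (by omega)]
  have c0 : (e g).coeff 0 = 1 := by simp [hG, invc]
  refine ⟨_, lo, c0, ext' (e := e) fun n => ?_⟩
  rw [← mo_one h, mo_coeff]
  rcases lt_trichotomy n 0 with hn | rfl | hn
  · rw [if_neg hn.ne, lo_mul h hf lo n (by omega)]
  · simpa [h1, c0] using lead_mul h hf lo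
  · obtain ⟨m, rfl⟩ : ∃ m : ℕ, n = m + 1 := ⟨(n - 1).toNat, by omega⟩
    rw [if_neg hn.ne', h, finsum_eq_sum_of_support_subset
      (s := (Finset.range (m + 2)).map ⟨((↑) : ℕ → ℤ), Nat.cast_injective⟩)]
    · rw [Finset.sum_map, Finset.sum_range_succ', Finset.sum_range]
      simp only [Function.Embedding.coeFn_mk, hG, Nat.cast_zero, h1, sub_zero, zpow_zero]
      rw [if_pos hn.le, show ((m : ℤ) + 1).toNat = m + 1 by omega, invc, one_mul, RingAut.one_apply,
        add_neg_eq_zero]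
      refine Finset.sum_congr rfl fun i _ => ?_
      rw [if_pos (by omega), show ((m : ℤ) + 1 - ((i : ℕ) + 1 : ℕ)).toNat = m - i by omega]
      simp
    · intro i hi
      have h2 : ¬ i < 0 := fun hc => hi (by simp [hf i hc])
      have h3 : ¬ m + 1 - i < 0 := fun hc => hi (by simp [lo _ hc])
      simp only [Finset.coe_map, Set.mem_image, Finset.coe_range, Set.mem_Iio]
      exact ⟨i.toNat, by omega, by simp; omega⟩

theorem unit1 (h : IsSL φ e) {f : R} (hf : Lo e 0 f) (h1 : (e f).coeff 0 = 1) : IsUnit f := by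
  obtain ⟨g, a, b, c⟩ := rinv h hf h1
  obtain ⟨k, -, -, d⟩ := rinv h a b
  have : f = k := by rw [← mul_one f, ← d, ← mul_assoc, c, one_mul]
  exact ⟨⟨f, g, c, this ▸ d⟩, rfl⟩

theorem unit_mo (h : IsSL φ e) (i : ℤ) {a : A} (ha : IsUnit a) : IsUnit (mo e i a) := by
  obtain ⟨a, rfl⟩ := ha
  refine ⟨⟨mo e i a, mo e (-i) ((φ ^ (-i)) ↑a⁻¹), ?_, ?_⟩, rfl⟩
  · rw [mo_mo h, ← RingAut.mul_apply, ← zpow_add]; simp [mo_one h]
  · rw [mo_mo h, ← map_mul]; simp [mo_one h]

theorem unit_lead (h : IsSL φ e) {f : R} {p : ℤ} (hf : Lo e p f) (h1 : IsUnit ((e f).coeff p)) :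
    IsUnit f := by
  obtain ⟨a, ha⟩ := h1
  have h2 := unit_mo h (-p) (a⁻¹.isUnit.map (φ ^ (-p) : RingAut A))
  refine (h2.mul_left_iff).1 (unit1 h (fun i hi => ?_) ?_)
  · simp [mo_mul h, hf (i + p) (by omega)]
  · simp [mo_mul h, ← ha, ← map_mul]

end Pool.Agent.H70.SL
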