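import Pool.Agent.H70.SL1

namespace Pool.Agent.H70.SL

theorem mem_jac {R : Type*} [Ring R] {x : R} :
    x ∈ Ring.jacobson R ↔ ∀ y, ∃ z, z * (1 + y * x) = 1 := by
  rw [← Ideal.jacobson_bot, Ideal.mem_jacobson_iff]
  refine forall_congr' fun y => exists_congr fun z => ?_
  rw [Ideal.mem_bot, sub_eq_zero, mul_add, mul_one, add_comm, mul_assoc]

theorem unit_jac {R : Type*} [Ring R] {g j : R} (hg : IsUnit g) (hj : j ∈ Ring.jacobson R) :
    IsUnit (g + j) := by
  obtain ⟨g, rfl⟩ := hg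
  obtain ⟨z, hz⟩ := mem_jac.1 hj ↑g⁻¹
  obtain ⟨w, hw⟩ := mem_jac.1 hj (-(z * ↑g⁻¹))
  have h1 : 1 + -(z * ↑g⁻¹) * j = z := by
    rw [neg_mul, add_neg_eq_iff_eq_add, mul_assoc, ← mul_one_add, hz]
  rw [h1] at hw
  have h2 : w = 1 + ↑g⁻¹ * j := left_inv_eq_right_inv hw hz
  have h3 : IsUnit (1 + ↑g⁻¹ * j) := ⟨⟨_, z, h2 ▸ hw, hz⟩, rfl⟩
  simpa [mul_add] using g.isUnit.mul h3

theorem semis_of_local {R : Type*} [Ring R] (h : ∀ f : R, IsUnit f ∨ IsUnit (1 - f)) :
    IsSemisimpleRing (R ⧸ Ring.jacobson R) := by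
  have h1 : ∀ x : R, IsUnit x ∨ x ∈ Ring.jacobson R := fun x => by
    refine or_iff_not_imp_left.2 fun hx => mem_jac.2 fun y => ?_
    rcases h (-(y * x)) with h2 | h2
    · obtain ⟨u, hu⟩ := h2.exists_left_inv
      have hu' : -(u * y) * x = 1 := by rw [← hu]; noncomm_ring
      generalize -(u * y) = v at hu'
      have h3 : x * v * (1 - x * v) = 0 := by
        rw [mul_sub, mul_one, mul_assoc, ← mul_assoc v x, hu']; simp
      rcases h (x * v) with h4 | h4
      · exact absurd ⟨⟨x, v, (sub_eq_zero.1 (h4.mul_right_eq_zero.1 h3)).symm, hu'⟩, rfl⟩ hx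
      · have h5 : x = 0 := by rw [← mul_one x, ← hu', ← mul_assoc, h4.mul_left_eq_zero.1 h3, zero_mul]
        exact ⟨1, by simp [h5]⟩
    · obtain ⟨u, hu⟩ := h2.exists_left_inv
      exact ⟨u, by simpa using hu⟩
  refine (isSemisimpleModule_iff _ _).2 ⟨fun I => ?_⟩
  by_cases hI : I = ⊥
  · exact ⟨⊤, hI ▸ isCompl_bot_top⟩
  · obtain ⟨x, hx, h0⟩ := (Submodule.ne_bot_iff I).1 hI
    obtain ⟨x, rfl⟩ := Ideal.Quotient.mk_surjective x
    have := Ideal.eq_top_of_isUnit_mem I hx
      (((h1 x).resolve_right fun h => h0 (Ideal.Quotient.eq_zero_iff_mem.2 h)).map _)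
    exact ⟨⊥, this ▸ isCompl_top_bot⟩

theorem loc {A R : Type*} [CommRing A] [Ring R] {φ : RingAut A} {e : R ≃+ HahnSeries ℤ A}
    (h : IsSL φ e) (S : Set A) (h1 : ∀ a ∈ S, ∀ m : ℤ, m ≠ 0 → a * (φ ^ m) a = 0)
    (h2 : ∀ a ∈ AddSubgroup.closure S, ∀ r, IsUnit (1 + r * a))
    (h3 : ∀ c, IsUnit c ∨ c ∈ AddSubgroup.closure S) (f : R) : IsUnit f ∨ IsUnit (1 - f) := by
  have k1 : ∀ a ∈ AddSubgroup.closure S, mo e 0 a ∈ Ring.jacobson R := fun a ha => by
    induction ha using AddSubgroup.closure_induction with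
    | zero => simp [mo_zero]
    | add a b _ _ ha hb => rw [mo_add]; exact add_mem ha hb
    | neg a _ ha => rw [← zero_sub, mo_sub, mo_zero]; exact sub_mem (zero_mem _) ha
    | mem a ha =>
      refine mem_jac.2 fun r => ?_
      obtain ⟨d, hd⟩ := (h2 a (AddSubgroup.subset_closure ha) ((e r).coeff 0)).exists_left_inv
      have k : mo e 0 a * r * mo e 0 a = mo e 0 ((e r).coeff 0 * a) * mo e 0 a :=
        ext' (e := e) fun n => by
          rw [mul_mo h, mo_mul h, mo_mo h, mo_coeff]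
          split_ifs with hn
          · simp [hn, mul_comm]
          · rw [mul_right_comm, h1 a ha _ (by simpa using hn), zero_mul]
      have k' : mo e 0 d * (1 + mo e 0 ((e r).coeff 0 * a)) = 1 := by
        rw [← mo_one h, ← mo_add, mo_mo h]; simp [hd]
      generalize mo e 0 a = x at *
      generalize mo e 0 ((e r).coeff 0 * a) = c at *
      generalize mo e 0 d = y at *
      refine ⟨1 - r * y * x, ?_⟩
      calc (1 - r * y * x) * (1 + r * x) = 1 + r * x - r * y * x - r * y * (x * r * x) := by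
            noncomm_ring
        _ = 1 + r * x - r * (y * (1 + c)) * x := by rw [k]; noncomm_ring
        _ = 1 := by rw [k']; noncomm_ring
  have k2 : ∀ (n : ℤ) (k : ℕ) (f : R), Lo e (n - k) f → IsUnit ((e f).coeff n) → IsUnit f := by
    intro n k
    induction k with
    | zero => exact fun f hf hu => unit_lead h (by simpa using hf) hu
    | succ k ih =>
      intro f hf hu
      rcases h3 ((e f).coeff (n - (k + 1 : ℕ))) with h4 | h4
      · exact unit_lead h hf h4
      · have h5 : mo e (n - (k + 1 : ℕ)) ((e f).coeff (n - (k + 1 : ℕ))) ∈ Ring.jacobson R := by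
          simpa [mo_mo h] using (Ring.jacobson R).mul_mem_right (mo e (n - (k + 1 : ℕ)) 1) (k1 _ h4)
        rw [← sub_add_cancel f (mo e (n - (k + 1 : ℕ)) _)]
        refine unit_jac (ih _ (fun i hi => ?_) ?_) h5
        · rw [map_sub, HahnSeries.coeff_sub, mo_coeff]
          split_ifs with h6
          · rw [h6, sub_self]
          · rw [hf i (by omega), sub_zero]
        · rwa [map_sub, HahnSeries.coeff_sub, mo_coeff, if_neg (by omega), sub_zero]
  have k3 : ∀ f : R, IsUnit ((e f).coeff 0) → IsUnit f := fun f hu => by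
    obtain ⟨p, hp⟩ := exLo (e := e) f
    exact k2 0 (-p).toNat f (fun i hi => hp i (by omega)) hu
  refine (h3 ((e f).coeff 0)).imp (k3 f) fun h4 => k3 _ ?_
  simpa [← mo_one h, mo_coeff, sub_eq_add_neg] using h2 _ h4 (-1)

open PowerSeries

def A : Subring (ℤ → ℚ⟦X⟧) where
  carrier := {f | ∃ c : ℚ, (∀ i, constantCoeff (f i) = c) ∧ {i | f i ≠ C c}.Finite}
  one_mem' := ⟨1, by simp, by simp⟩
  zero_mem' := ⟨0, by simp, by simp⟩
  add_mem' := fun ⟨c, a, b⟩ ⟨c', a', b'⟩ => ⟨c + c', by simp [a, a'], (b.union b').subset fun i hi => by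
    by_contra hc
    simp only [Set.mem_union, Set.mem_setOf_eq, not_or, not_not] at hc
    exact hi (by simp [hc])⟩
  mul_mem' := fun ⟨c, a, b⟩ ⟨c', a', b'⟩ => ⟨c * c', by simp [a, a'], (b.union b').subset fun i hi => by
    by_contra hc
    simp only [Set.mem_union, Set.mem_setOf_eq, not_or, not_not] at hc
    exact hi (by simp [hc])⟩
  neg_mem' := fun ⟨c, a, b⟩ => ⟨-c, by simp [a], b.subset fun i hi hc => hi (by simp [hc])⟩

theorem shift {f : ℤ → ℚ⟦X⟧} (h : f ∈ A) (k : ℤ) : (fun i => f (i + k)) ∈ A := by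
  obtain ⟨c, a, b⟩ := h
  exact ⟨c, fun i => a _, b.preimage (f := (· + k)) (add_left_injective k).injOn⟩

def ψ : RingAut A where
  toFun f := ⟨_, shift f.2 1⟩
  invFun f := ⟨_, shift f.2 (-1)⟩
  left_inv f := by ext i : 2; simp
  right_inv f := by ext i : 2; simp
  map_mul' _ _ := rfl
  map_add' _ _ := rfl

theorem ψ_zpow (m : ℤ) (f : A) (i : ℤ) : ((ψ ^ m) f).1 i = f.1 (i + m) := by
  induction m using Int.induction_on generalizing f with
  | zero => simp
  | succ n ih => rw [zpow_add_one, RingAut.mul_apply, ih, ← add_assoc]; rfl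
  | pred n ih => rw [zpow_sub_one, RingAut.mul_apply, ih, sub_eq_add_neg, ← add_assoc]; rfl

theorem unitA (f : A) (h : constantCoeff (f.1 0) ≠ 0) : IsUnit f := by
  obtain ⟨c, a, b⟩ := f.2
  refine IsUnit.of_mul_eq_one ⟨fun i => (f.1 i)⁻¹, c⁻¹, fun i => by simp [a],
    b.subset fun i hi hc => hi (by simp [hc])⟩ (Subtype.ext (funext fun i => ?_))
  exact PowerSeries.mul_inv_cancel _ (by rwa [a, ← a 0])

def S : Set A := {a | (∀ i, constantCoeff (a.1 i) = 0) ∧ ∃ p, ∀ i ≠ p, a.1 i = 0}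

theorem sing (p : ℤ) {g : ℚ⟦X⟧} (hg : constantCoeff g = 0) : Pi.single p g ∈ A :=
  ⟨0, fun i => by by_cases h : i = p <;> simp [h, hg],
    (Set.finite_singleton p).subset fun i hi => by
      by_contra hc
      exact hi (by simp [show i ≠ p from hc])⟩

theorem singS (p : ℤ) {g : ℚ⟦X⟧} (hg : constantCoeff g = 0) : (⟨_, sing p hg⟩ : A) ∈ S :=
  ⟨fun i => by by_cases h : i = p <;> simp [h, hg], p, fun i hi => by simp [hi]⟩

theorem clos (s : Finset ℤ) : ∀ f : A, (∀ i, constantCoeff (f.1 i) = 0) → (∀ i ∉ s, f.1 i = 0) →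
    f ∈ AddSubgroup.closure S := by
  induction s using Finset.induction_on with
  | empty => exact fun f _ h => (Subtype.ext (funext fun i => h i (by simp)) : f = 0) ▸ zero_mem _
  | insert p s _ ih =>
    intro f h1 h2
    rw [← sub_add_cancel f ⟨_, sing p (h1 p)⟩]
    refine add_mem (ih _ (fun i => ?_) fun i hi => ?_) (AddSubgroup.subset_closure (singS p (h1 p)))
    · simp [h1, (singS p (h1 p)).1 i]
    · by_cases h : i = p
      · simp [h]
      · simp [h, h2 i (by simp [h, hi])]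

theorem jacA (a : A) (ha : a ∈ AddSubgroup.closure S) (r : A) : IsUnit (1 + r * a) := by
  have : constantCoeff (a.1 0) = 0 := by
    induction ha using AddSubgroup.closure_induction with
    | zero => simp
    | add a b _ _ ha hb => simp [ha, hb]
    | neg a _ ha => simp [ha]
    | mem a ha => exact ha.1 0
  exact unitA _ (by simp [this])

theorem main : ∃ (A : Type) (_ : Ring A) (φ : RingAut A) (R : Type) (_ : Ring R)
    (e : R ≃+ HahnSeries ℤ A), IsSL φ e ∧ IsSemisimpleRing (R ⧸ Ring.jacobson R) ∧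
      IsArtinianRing (R ⧸ Ring.jacobson R) ∧ ∃ a ∈ Ring.jacobson A, ¬ IsNilpotent a := by
  obtain ⟨R, _, e, h⟩ := exists_SL ψ
  have := semis_of_local (loc h S (fun a ⟨_, p, hp⟩ m hm => Subtype.ext (funext fun i => by
    change a.1 i * ((ψ ^ m) a).1 i = 0
    rw [ψ_zpow]
    by_cases h : i = p
    · rw [hp (i + m) (by omega), mul_zero]
    · rw [hp i h, zero_mul])) jacA fun c => by
      refine or_iff_not_imp_left.2 fun hc => ?_
      obtain ⟨k, a, b⟩ := c.2
      obtain rfl : k = 0 := by_contra fun hk => hc (unitA c (by rwa [a]))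
      exact clos b.toFinset c a fun i hi => by simpa using hi)
  refine ⟨A, inferInstance, ψ, R, inferInstance, e, h, this, inferInstance,
    ⟨_, sing 0 constantCoeff_X⟩, mem_jac.2 fun y =>
      (jacA _ (AddSubgroup.subset_closure (singS 0 constantCoeff_X)) y).exists_left_inv, fun ⟨n, hn⟩ => ?_⟩
  simpa using congrArg (fun f : A => f.1 0) hn

end Pool.Agent.H70.SL
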