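import Pool.Agent.H70.SL1

namespace Pool.Agent.H70.SL

variable {A R : Type*} [Ring A] [Ring R] {φ : RingAut A} {e : R ≃+ HahnSeries ℤ A}

def Orth (u : ℕ → A) : Prop := (∀ i, u i * u i = u i) ∧ ∀ i j, i ≠ j → u i * u j = 0

theorem Orth.comp {u : ℕ → A} (h : Orth u) {σ : ℕ → ℕ} (hσ : Function.Injective σ) : Orth (u ∘ σ) :=
  ⟨fun _ => h.1 _, fun _ _ hij => h.2 _ _ (hσ.ne hij)⟩

theorem orth_chain {E : ℕ → A} (h0 : ∀ k, E k * E k = E k) (h1 : ∀ k, E (k + 1) * E k = E (k + 1))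
    (h2 : ∀ k, E k * E (k + 1) = E (k + 1)) : Orth fun k => E k - E (k + 1) := by
  have h3 : ∀ k l, k ≤ l → E l * E k = E l ∧ E k * E l = E l := fun k l h => by
    induction l, h using Nat.le_induction with
    | base => exact ⟨h0 k, h0 k⟩
    | succ l _ ih => exact ⟨by rw [← h1 l, mul_assoc, ih.1], by rw [← h2 l, ← mul_assoc, ih.2]⟩
  refine ⟨fun i => by simp [mul_sub, sub_mul, h0, h1, h2], fun i j hij => ?_⟩
  rcases hij.lt_or_gt with h | h
  · simp [mul_sub, sub_mul, (h3 i j h.le).2, (h3 i (j + 1) (by omega)).2, (h3 (i + 1) j h).2,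
      (h3 (i + 1) (j + 1) (by omega)).2]
  · simp [mul_sub, sub_mul, (h3 j i h.le).1, (h3 j (i + 1) (by omega)).1, (h3 (j + 1) i h).1,
      (h3 (j + 1) (i + 1) (by omega)).1]

theorem exseq {α : Type*} (x : α) (r : α → α → Prop) (h : ∀ a, ∃ b, r a b) :
    ∃ f : ℕ → α, ∀ n, r (f n) (f (n + 1)) := by
  choose g hg using h
  exact ⟨fun n => g^[n] x, fun n => by simpa only [Function.iterate_succ_apply'] using hg _⟩

theorem dich (hA : ∀ a : A, ∃ s, a = a * s * a) :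
    (∀ L : Ideal A, ∃ E ∈ L, ∀ a ∈ L, a * E = a) ∨ ∃ u : ℕ → A, Orth u ∧ ∀ i, u i ≠ 0 := by
  refine or_iff_not_imp_left.2 fun h => ?_
  push Not at h
  obtain ⟨L, hL⟩ := h
  obtain ⟨f, hf⟩ := exseq (α := {E : A // E * E = E ∧ 1 - E ∈ L}) ⟨1, by simp⟩
    (fun p q => q.1 * p.1 = q.1 ∧ p.1 * q.1 = q.1 ∧ p.1 - q.1 ≠ 0) fun ⟨E, h1, h2⟩ => by
      obtain ⟨a, ha, h3⟩ := hL _ h2
      have h4 : a * E ∈ L := by simpa [mul_sub] using L.sub_mem ha (L.mul_mem_left a h2)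
      have h5 : a * E ≠ 0 := fun h => h3 (by rw [mul_sub, h]; simp)
      obtain ⟨s, hs⟩ := hA (a * E)
      have h6 : a * E * E = a * E := by rw [mul_assoc, h1]
      generalize a * E = b at *
      have h7 : b * (E * s * b) = b := by rw [← mul_assoc, ← mul_assoc, h6, ← hs]
      have h8 : E * s * b * E = E * s * b := by rw [mul_assoc, h6]
      have h9 : E * (E * s * b) = E * s * b := by rw [← mul_assoc, ← mul_assoc, h1]
      have h10 : E * s * b * (E * s * b) = E * s * b := by rw [mul_assoc, h7]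
      have h11 : E * s * b ∈ L := L.mul_mem_left _ h4
      have h12 : E * s * b ≠ 0 := fun h => h5 (by rw [← h7, h, mul_zero])
      generalize E * s * b = g at *
      exact ⟨⟨E - g, by simp [mul_sub, sub_mul, *], by
        rw [← sub_add]; exact L.add_mem h2 h11⟩, by simp [sub_mul, *], by simp [mul_sub, *], by simpa⟩
  exact ⟨_, orth_chain (fun k => (f k).2.1) (fun k => (hf k).1) (fun k => (hf k).2.1),
    fun k => (hf k).2.2⟩

theorem semis (h : IsSL φ e) (hA : ∀ L : Ideal A, ∃ E ∈ L, ∀ a ∈ L, a * E = a) :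
    IsSemisimpleRing R := by
  refine (isSemisimpleModule_iff _ _).2 ⟨fun L => ?_⟩
  have lo0 : ∀ a, Lo e 0 (mo e 0 a) := fun a i hi => by rw [mo_coeff, if_neg hi.ne]
  obtain ⟨E, ⟨u, hu, h1, h2⟩, hE⟩ := hA
    { carrier := {a | ∃ r ∈ L, Lo e 0 r ∧ (e r).coeff 0 = a}
      zero_mem' := ⟨0, L.zero_mem, fun _ _ => by simp, by simp⟩
      add_mem' := fun ⟨r, a, b, c⟩ ⟨r', a', b', c'⟩ =>
        ⟨r + r', L.add_mem a a', fun i hi => by simp [b i hi, b' i hi], by simp [c, c']⟩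
      smul_mem' := fun x _ ⟨r, a, b, c⟩ => ⟨mo e 0 x * r, L.smul_mem _ a,
        by simpa using lo_mul h (lo0 x) b, by simp [mo_mul h, c]⟩ }
  have hEE : E * E = E := hE E ⟨u, hu, h1, h2⟩
  have h3 : Lo e 0 (u + mo e 0 (1 - E)) := fun i hi => by simp [h1 i hi, lo0 _ i hi]
  have h4 : (e (u + mo e 0 (1 - E))).coeff 0 = 1 := by simp [h2, mo_coeff]
  obtain ⟨v, hv⟩ := unit1 h h3 h4
  have h5 : mo e 0 E * mo e 0 E = mo e 0 E := by simp [mo_mo h, hEE]
  have h6 : mo e 0 E * v ∈ L := by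
    rw [hv, mul_add, mo_mo h]
    simpa [mul_sub, hEE, mo_zero] using L.smul_mem (mo e 0 E) hu
  have h7 : ∀ r ∈ L, r * ↑v⁻¹ * (1 - mo e 0 E) = 0 := fun r hr => by
    by_contra h0
    obtain ⟨p, a, b⟩ := exLo' (e := e) h0
    have h8 : r * ↑v⁻¹ * (1 - mo e 0 E) * v ∈ L := by
      simpa [mul_sub, sub_mul, mul_assoc] using L.sub_mem hr (L.smul_mem (r * ↑v⁻¹) h6)
    have h9 : r * ↑v⁻¹ * (1 - mo e 0 E) * mo e 0 E = 0 := by rw [mul_assoc, sub_mul, h5]; simp
    generalize r * ↑v⁻¹ * (1 - mo e 0 E) = w at *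
    have h10 : (e (w * v)).coeff p = (e w).coeff p := by
      have := lead_mul h a h3
      rwa [h4, ← hv, map_one, mul_one, add_zero] at this
    have h11 := hE _ ⟨mo e (-p) 1 * (w * v), L.smul_mem _ h8, fun i hi => by
      simp [mo_mul h, lo_mul h a (hv ▸ h3) (i + p) (by omega)], rfl⟩
    have h12 := congrArg (fun x => (e x).coeff p) h9
    simp only [mul_mo h, sub_zero, map_zero, HahnSeries.coeff_zero] at h12
    simp only [mo_mul h, one_mul, zero_sub, neg_neg, h10] at h11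
    have h13 := congrArg (φ ^ p) h11
    simp only [map_mul, ← RingAut.mul_apply, ← zpow_add, add_neg_cancel, zpow_zero,
      RingAut.one_apply] at h13
    exact b (h13.symm.trans h12)
  refine ⟨Ideal.span {(1 - mo e 0 E) * v}, Submodule.disjoint_def.2 fun x hx hx' => ?_,
    codisjoint_iff.2 ((Ideal.eq_top_iff_one _).2 ?_)⟩
  · obtain ⟨y, rfl⟩ := Ideal.mem_span_singleton'.1 hx'
    have := h7 _ hx
    rw [← mul_assoc, Units.mul_inv_cancel_right, mul_assoc, mul_sub, mul_one, sub_mul, h5] at this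
    rw [← mul_assoc, show y * (1 - mo e 0 E) = 0 by simpa using this, zero_mul]
  · simpa [sub_mul] using Ideal.mul_mem_left _ (↑v⁻¹ : R)
      (Submodule.add_mem_sup h6 (Ideal.mem_span_singleton_self ((1 - mo e 0 E) * v)))

def Pr (P : Ideal A) : Prop :=
  (∀ a ∈ P, ∀ b, a * b ∈ P) ∧ (∀ a ∉ P, ∀ b ∉ P, ∃ c, a * c * b ∉ P) ∧ 1 ∉ P

theorem Pr.comap {P : Ideal A} (h : Pr P) (ψ : RingAut A) : Pr (P.comap ψ) :=
  ⟨fun a ha b => by simpa using h.1 _ ha (ψ b), fun a ha b hb => by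
    obtain ⟨c, hc⟩ := h.2.1 _ ha _ hb
    exact ⟨ψ.symm c, by simpa using hc⟩, by simpa using h.2.2⟩

theorem exPr {u : A} (h : u * u = u) (h0 : u ≠ 0) : ∃ P, Pr P ∧ u ∉ P := by
  obtain ⟨m, hm, h1⟩ := Ideal.exists_le_maximal (Ideal.span {1 - u}) fun hc => by
    obtain ⟨y, hy⟩ := Ideal.mem_span_singleton'.1 ((Ideal.eq_top_iff_one _).1 hc)
    exact h0 (by rw [← one_mul u, ← hy, mul_assoc, sub_mul, h]; simp)
  have h2 := (Ideal.ne_top_iff_one _).1 hm.ne_top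
  refine ⟨{ carrier := {a | ∀ b, a * b ∈ m}
            zero_mem' := fun b => by simp
            add_mem' := fun ha hb c => by simpa [add_mul] using m.add_mem (ha c) (hb c)
            smul_mem' := fun x a ha b => by simpa [mul_assoc] using m.mul_mem_left x (ha b) },
    ⟨fun a ha b c => by simpa [mul_assoc] using ha (b * c), fun a ha b hb => ?_,
      fun hc => h2 (by simpa using hc 1)⟩, fun hc => h2 ?_⟩
  · obtain ⟨a', ha'⟩ := not_forall.1 ha
    obtain ⟨b', hb'⟩ := not_forall.1 hb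
    obtain ⟨y, c, hc, h3⟩ := hm.exists_inv hb'
    refine ⟨a' * y, fun h4 => ha' ?_⟩
    rw [← mul_one (a * a'), ← h3, mul_add]
    exact m.add_mem (by simpa [mul_assoc] using h4 b') (m.mul_mem_left _ hc)
  · simpa using m.add_mem (h1 (Ideal.mem_span_singleton_self _)) (hc 1)

theorem split (hA : ∀ a : A, ∃ s, a = a * s * a) {P Q : Ideal A} (hP : Pr P) (hQ : Pr Q) {E a : A}
    (hE : E * E = E) (h2 : E ∉ Q) (h3 : a ∈ P) (h4 : a ∉ Q) :
    ∃ g, g * g = g ∧ g * E = g ∧ E * g = g ∧ g ∈ P ∧ g ∉ Q := by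
  obtain ⟨c, hc⟩ := hQ.2.1 _ h2 _ h4
  obtain ⟨d, hd⟩ := hQ.2.1 _ hc _ h2
  have h5 : E * c * a * d * E ∈ P := hP.1 _ (hP.1 _ (P.mul_mem_left _ h3) _) _
  have h6 : E * (E * c * a * d * E) = E * c * a * d * E := by simp only [← mul_assoc, hE]
  generalize E * c * a * d * E = b at *
  obtain ⟨s, hs⟩ := hA b
  have h7 : b * s * E * b = b := by rw [mul_assoc, h6, ← hs]
  exact ⟨b * s * E, by rw [← mul_assoc, ← mul_assoc, h7], by rw [mul_assoc, hE],
    by simp only [← mul_assoc, h6], hP.1 _ (hP.1 _ h5 _) _, fun h => hd (h7 ▸ hQ.1 _ h b)⟩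

theorem lemD (hA : ∀ a : A, ∃ s, a = a * s * a) (P : ℕ → Ideal A) (h1 : ∀ i, Pr (P i))
    (h2 : Function.Injective P) : ∃ σ : ℕ → ℕ, StrictMono σ ∧ ∃ u, Orth u ∧ ∀ k, u k ∉ P (σ k) := by
  obtain ⟨f, hf⟩ := exseq (α := {p : A × Set ℕ // p.1 * p.1 = p.1 ∧ p.2.Infinite ∧ ∀ i ∈ p.2, p.1 ∉ P i})
    ⟨(1, Set.univ), by simp, Set.infinite_univ, fun i _ => (h1 i).2.2⟩
    (fun p q => q.1.1 * p.1.1 = q.1.1 ∧ p.1.1 * q.1.1 = q.1.1 ∧
      ∃ i ∈ p.1.2, p.1.1 - q.1.1 ∉ P i ∧ ∀ j ∈ q.1.2, i < j) fun ⟨(E, I), a, b, c⟩ => by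
      obtain ⟨i, hi, j, hj, x, hx, hx'⟩ : ∃ i ∈ I, ∃ j ∈ I, ∃ x ∈ P i, x ∉ P j := by
        obtain ⟨i, hi, j, hj, hij⟩ := b.nontrivial
        by_contra hc
        push Not at hc
        exact hij (h2 (le_antisymm (hc i hi j hj) (hc j hj i hi)))
      obtain ⟨g, g1, g2, g3, g4, g5⟩ := split hA (h1 i) (h1 j) a (c j hj) hx hx'
      dsimp only at a
      by_cases h : {k | k ∈ I ∧ g ∉ P k}.Infinite
      · exact ⟨⟨(g, {k | k ∈ I ∧ g ∉ P k} \ Set.Iic i), g1, h.diff (Set.finite_Iic i),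
          fun k hk => hk.1.2⟩, g2, g3, i, hi, fun h => c i hi (by simpa using (P i).add_mem h g4),
          fun k hk => not_le.1 hk.2⟩
      · exact ⟨⟨(E - g, (I \ {k | k ∈ I ∧ g ∉ P k}) \ Set.Iic j), by simp [mul_sub, sub_mul, *],
          (b.diff (not_not.1 h)).diff (Set.finite_Iic j), fun k hk h => c k hk.1.1 (by
            simpa using (P k).add_mem h (by_contra fun h' => hk.1.2 ⟨hk.1.1, h'⟩))⟩,
          by simp [sub_mul, *], by simp [mul_sub, *], j, hj, by simpa, fun k hk => not_le.1 hk.2⟩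
  choose a b σ c d g using hf
  exact ⟨σ, strictMono_nat_of_lt_succ fun k => g k _ (c _), _, orth_chain (fun k => (f k).2.1) a b, d⟩

theorem core (h : IsSL φ e) {n : ℕ → ℕ} (hn : StrictMono n) {u w : ℕ → A} (hu : Orth u) (hw : Orth w)
    {P : ℕ → Ideal A} (hP : ∀ i, Pr (P i)) (h1 : ∀ i, u i ∉ P i)
    (h2 : ∀ i, (φ ^ (n i : ℤ)) (w i) ∉ P i) : ∃ r : R, ∀ s, r ≠ r * s * r := by
  choose c hc using fun i => (hP i).2.1 _ (h1 i) _ (h2 i)
  have inj : Function.Injective fun i => (n i : ℤ) := fun i j hij => hn.injective (by simpa using hij)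
  let a : ℕ → A := fun i => u i * c i * (φ ^ (n i : ℤ)) (w i)
  obtain ⟨r, r1, r2⟩ : ∃ r : R, (∀ i, (e r).coeff (n i) = a i) ∧
      ∀ m : ℤ, (∀ i, m ≠ n i) → (e r).coeff m = 0 := by
    have h3 : ∀ m : ℤ, (∀ i, m ≠ n i) → Function.extend (fun i => (n i : ℤ)) a 0 m = 0 :=
      fun m hm => Function.extend_apply' _ _ _ fun ⟨i, hi⟩ => hm i hi.symm
    exact ⟨e.symm ⟨Function.extend (fun i => (n i : ℤ)) a 0, Set.IsWF.isPWO (BddBelow.isWF ⟨0, fun m hm =>
      by_contra fun h => hm (h3 m fun i => by omega)⟩)⟩, fun i => by simpa using inj.extend_apply _ _ _,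
      by simpa using h3⟩
  have h3 : ∀ i, mo e 0 (u i) * r = mo e (n i) (a i) := fun i => ext' (e := e) fun m => by
    rw [mo_mul h, mo_coeff, sub_zero, zpow_zero, RingAut.one_apply]
    by_cases hm : ∃ j, m = n j
    · obtain ⟨j, rfl⟩ := hm
      rw [r1]
      split_ifs with h4
      · rw [inj h4]; simp only [a, ← mul_assoc, hu.1]
      · simp only [a, ← mul_assoc, hu.2 i j fun h => h4 (h ▸ rfl), zero_mul]
    · rw [r2 m (not_exists.1 hm), if_neg (not_exists.1 hm i), mul_zero]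
  have h4 : ∀ i, r * mo e 0 (w i) = mo e (n i) (a i) := fun i => ext' (e := e) fun m => by
    rw [mul_mo h, mo_coeff, sub_zero]
    by_cases hm : ∃ j, m = n j
    · obtain ⟨j, rfl⟩ := hm
      rw [r1]
      split_ifs with h4
      · rw [inj h4]; simp only [a, mul_assoc, ← map_mul, hw.1]
      · simp only [a, mul_assoc, ← map_mul, hw.2 j i fun h => h4 (h ▸ rfl), map_zero, mul_zero]
    · rw [r2 m (not_exists.1 hm), if_neg (not_exists.1 hm i), zero_mul]
  refine ⟨r, fun s hs => ?_⟩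
  obtain ⟨p, hp⟩ := exLo (e := e) s
  have h5 := hn.id_le ((-p).toNat + 1)
  generalize hi : (-p).toNat + 1 = i at h5
  have h6 : mo e 0 (u i) * mo e (n i) (a i) = mo e (n i) (a i) * s * mo e (n i) (a i) := by
    conv_lhs => rw [← h4, hs]
    conv_rhs => rw [← h4]; lhs; rw [h4, ← h3]
    simp only [mul_assoc]
  have h7 := congrArg (fun x => (e x).coeff (n i)) h6
  simp only [mo_mo h, mul_mo h, mo_mul h, mo_coeff, hp (0 - n i) (by simp at h5; omega), sub_self] at h7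
  exact hc i (by simp [a, ← mul_assoc, hu.1] at h7; simp [mul_assoc, h7])

theorem main3 (h : IsSL φ e) (hR : ∀ r : R, ∃ s, r = r * s * r) : IsSemisimpleRing R := by
  have hA : ∀ a : A, ∃ s, a = a * s * a := fun a => by
    obtain ⟨s, hs⟩ := hR (mo e 0 a)
    exact ⟨(e s).coeff 0, by simpa [mul_mo h, mo_mul h, mo_coeff] using congrArg (fun x => (e x).coeff 0) hs⟩
  refine (dich hA).elim (semis h) fun ⟨u, hu, h0⟩ => ?_
  suffices ∃ r : R, ∀ s, r ≠ r * s * r from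
    let ⟨r, hr⟩ := this; let ⟨s, hs⟩ := hR r; (hr s hs).elim
  by_cases hX : {P : Ideal A | Pr P}.Finite
  · choose P h1 h2 using fun i => exPr (hu.1 i) (h0 i)
    have := hX.to_subtype
    obtain ⟨⟨Q, hQ⟩, h3⟩ := Finite.exists_infinite_fiber fun i => (⟨P i, h1 i⟩ : {P : Ideal A | Pr P})
    obtain ⟨⟨Q', hQ'⟩, h4⟩ := Finite.exists_infinite_fiber fun i : ℕ =>
      (⟨Q.comap (φ ^ (i : ℤ)), Pr.comap hQ _⟩ : {P : Ideal A | Pr P})
    rw [Set.infinite_coe_iff] at h3 h4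
    have h5 := fun i => congrArg Subtype.val (Nat.nth_mem_of_infinite h3 i)
    have h6 := fun i => congrArg Subtype.val (Nat.nth_mem_of_infinite h4 i)
    have h7 := hu.comp (Nat.nth_injective h3)
    have h8 := Nat.nth_strictMono h4
    generalize Nat.nth _ = σ at h5 h7
    generalize Nat.nth _ = n at h6 h8
    dsimp only at h5 h6
    refine core h h8 h7 (w := fun i => (φ ^ (n 0 : ℤ)).symm (u (σ i)))
      ⟨fun i => by rw [← map_mul, hu.1], fun i j hij => by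
        rw [← map_mul, show u (σ i) * u (σ j) = 0 from h7.2 i j hij, map_zero]⟩ (P := fun _ => Q)
      (fun _ => hQ) (fun i => h5 i ▸ h2 _) fun i hi => h2 (σ i) ?_
    rw [← Ideal.mem_comap, h6, ← h6 0] at hi
    rw [Ideal.mem_comap, RingEquiv.apply_symm_apply] at hi
    exact h5 i ▸ hi
  · obtain ⟨f, h1, h2⟩ := exists_seq_of_forall_finset_exists (fun x : Ideal A × ℕ => Pr x.1)
      (fun x y => x.1 ≠ y.1 ∧ x.2 < y.2 ∧ x.1.comap (φ ^ (x.2 : ℤ)) ≠ y.1.comap (φ ^ (y.2 : ℤ)))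
      fun s _ => by
        obtain ⟨P, h1, h2⟩ := Set.Infinite.exists_notMem_finite hX
          ((s.finite_toSet.image Prod.fst).union ((s.finite_toSet.image fun x =>
            x.1.comap (φ ^ (x.2 : ℤ))).preimage (f := Ideal.comap (φ ^ ((s.sup Prod.snd + 1 : ℕ) : ℤ)))
              (Ideal.comap_injective_of_surjective _ (RingEquiv.surjective _)).injOn))
        exact ⟨(P, s.sup Prod.snd + 1), h1, fun x hx => ⟨fun h => h2 (.inl ⟨x, hx, h⟩),
          Nat.lt_succ_of_le (Finset.le_sup hx), fun h => h2 (.inr ⟨x, hx, h⟩)⟩⟩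
    obtain ⟨σ, a, u, b, c⟩ := lemD hA (fun i => (f i).1) h1
      (Function.Injective.of_lt_imp_ne fun i j hij => (h2 i j hij).1)
    obtain ⟨τ, a', w, b', c'⟩ := lemD hA (fun i => (f (σ i)).1.comap (φ ^ ((f (σ i)).2 : ℤ)))
      (fun i => Pr.comap (h1 _) _) (Function.Injective.of_lt_imp_ne fun i j hij => (h2 _ _ (a hij)).2.2)
    exact core h (n := fun i => (f (σ (τ i))).2) (fun i j hij => (h2 _ _ (a (a' hij))).2.1)
      (b.comp a'.injective) b' (fun i => h1 _) (fun i => c _) c'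

end Pool.Agent.H70.SL
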