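import Mathlib

/-! Skew Laurent series rings, in any universe. -/

namespace Pool.Agent.H70.SL

/-- `e` identifies the ring `R` additively with the formal Laurent series over `A`, and the
product of `R` is the one of `A((x, φ))`, where `x a = φ(a) x`. -/
def IsSL {A R : Type*} [Ring A] [Ring R] (φ : RingAut A) (e : R ≃+ HahnSeries ℤ A) : Prop :=
  ∀ (f g : R) (n : ℤ),
    (e (f * g)).coeff n = ∑ᶠ i : ℤ, (e f).coeff i * (φ ^ i) ((e g).coeff (n - i))

end Pool.Agent.H70.SL
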