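import Pool.Agent.H70.SaDefs

set_option maxSynthPendingDepth 4

namespace Pool.Agent.H70.Sa
open ContinuousLinearMap

lemma HB {B E : Type} [AddCommGroup B] [Module ℂ B] [NormedAddCommGroup E] [NormedSpace ℂ E]
    (T : B →ₗ[ℂ] E) (a : E) (h : ∀ G : E →L[ℂ] ℂ, (∀ u, G (T u) = 0) → G a = 0) {δ : ℝ}
    (hδ : 0 < δ) : ∃ u, ‖a - T u‖ ≤ δ := by
  set S := (LinearMap.range T).topologicalClosure
  have ha : a ∈ S := by
    by_contra ha
    haveI : IsClosed (S : Set E) := Submodule.isClosed_topologicalClosure _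
    obtain ⟨g, hg⟩ := SeparatingDual.exists_ne_zero (R := ℂ)
      (mt (Submodule.Quotient.mk_eq_zero S).1 ha)
    refine hg (h (g.comp (S.mkQ.mkContinuous 1 fun x => by
      simpa using Submodule.Quotient.norm_mk_le S x)) fun u => ?_)
    have : Submodule.Quotient.mk (p := S) (T u) = 0 := (Submodule.Quotient.mk_eq_zero S).2
      (Submodule.le_topologicalClosure _ ⟨u, rfl⟩)
    simp [this]
  obtain ⟨_, ⟨u, rfl⟩, hu⟩ := Metric.mem_closure_iff.1 ha δ hδ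
  exact ⟨u, by rw [← dist_eq_norm]; exact hu.le⟩

variable {A : Type} [NonUnitalNormedRing A] [NormedSpace ℂ A] [IsScalarTower ℂ A A]
  [SMulCommClass ℂ A A]

abbrev W (A : Type) [NonUnitalNormedRing A] [NormedSpace ℂ A] : Type :=
  (A →L[ℂ] ℂ) × (A →L[ℂ] A →L[ℂ] ℂ)

noncomputable def rW (a : A) (w : W A) : W A := (w.2 a, w.2.comp (mul ℂ A a))
noncomputable def lW (a : A) (w : W A) : W A :=
  (w.1.comp ((mul ℂ A).flip a) - w.2.flip a,
    w.2.bilinearComp (.id ℂ A) ((mul ℂ A).flip a) - (compL ℂ A A ℂ (w.2.flip a)).comp (mul ℂ A))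

@[simp] lemma rW1 (a : A) (w : W A) (y : A) : (rW a w).1 y = w.2 a y := rfl
@[simp] lemma rW2 (a : A) (w : W A) (p y : A) : (rW a w).2 p y = w.2 (a * p) y := rfl
@[simp] lemma lW1 (a : A) (w : W A) (y : A) : (lW a w).1 y = w.1 (y * a) - w.2 y a := rfl
@[simp] lemma lW2 (a : A) (w : W A) (p y : A) : (lW a w).2 p y = w.2 p (y * a) - w.2 (p * y) a := rfl

omit [IsScalarTower ℂ A A] [SMulCommClass ℂ A A] in
lemma W_ext {v w : W A} (h1 : ∀ y, v.1 y = w.1 y) (h2 : ∀ p y, v.2 p y = w.2 p y) : v = w :=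
  Prod.ext (ContinuousLinearMap.ext h1) (ContinuousLinearMap.ext fun p => ContinuousLinearMap.ext (h2 p))

omit [IsScalarTower ℂ A A] [SMulCommClass ℂ A A] in
lemma W_le {w : W A} {K : ℝ} (hK : 0 ≤ K) (h1 : ∀ y, ‖w.1 y‖ ≤ K * ‖y‖)
    (h2 : ∀ p y, ‖w.2 p y‖ ≤ K * ‖p‖ * ‖y‖) : ‖w‖ ≤ K :=
  norm_prod_le_iff.2 ⟨opNorm_le_bound _ hK h1, opNorm_le_bound₂ _ hK h2⟩

omit [IsScalarTower ℂ A A] [SMulCommClass ℂ A A] in
lemma W1 (w : W A) (y : A) : ‖w.1 y‖ ≤ ‖w‖ * ‖y‖ := w.1.le_of_opNorm_le (norm_fst_le w) y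
omit [IsScalarTower ℂ A A] [SMulCommClass ℂ A A] in
lemma W2 (w : W A) (p y : A) : ‖w.2 p y‖ ≤ ‖w‖ * ‖p‖ * ‖y‖ :=
  w.2.le_of_opNorm₂_le_of_le (norm_snd_le w) le_rfl le_rfl

lemma bimodW : IsBimod (lW (A := A)) rW := by
  refine ⟨⟨fun a b w => W_ext (by simp [mul_add]; intros; ring) (by simp [mul_add]; intros; ring),
    fun c a w => W_ext (by simp [mul_sub, mul_smul_comm]) (by simp [mul_sub, mul_smul_comm]),
    fun a v w => W_ext (by simp; intros; ring) (by simp; intros; ring),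
    fun c a w => W_ext (by simp [mul_sub]) (by simp [mul_sub]), 2, two_pos, fun a w => ?_⟩,
    ⟨fun a b w => W_ext (by simp) (by simp [add_mul]), fun c a w => W_ext (by simp) (by simp [smul_mul_assoc]),
    fun a v w => W_ext (by simp) (by simp), fun c a w => W_ext (by simp) (by simp), 1, one_pos,
    fun a w => ?_⟩, fun a b w => W_ext (by simp [mul_assoc]) (by simp [mul_assoc]),
    fun a b w => W_ext (by simp) (by simp [mul_assoc]),
    fun a b w => W_ext (by simp) (by simp [mul_assoc])⟩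
  · refine W_le (by positivity) (fun y => ?_) fun p y => ?_
    · have := mul_le_mul_of_nonneg_left (norm_mul_le y a) (norm_nonneg w)
      exact (norm_sub_le_of_le (W1 w (y * a)) (W2 w y a)).trans (by linarith)
    · have h1 := mul_le_mul_of_nonneg_left (norm_mul_le y a) (show 0 ≤ ‖w‖ * ‖p‖ by positivity)
      have h2 := mul_le_mul_of_nonneg_left (norm_mul_le p y) (show 0 ≤ ‖w‖ * ‖a‖ by positivity)
      exact (norm_sub_le_of_le (W2 w p (y * a)) (W2 w (p * y) a)).trans (by linarith)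
  · refine W_le (by positivity) (fun y => (W2 w a y).trans (by linarith)) fun p y => ?_
    have h2 := mul_le_mul_of_nonneg_left (norm_mul_le a p) (show 0 ≤ ‖w‖ * ‖y‖ by positivity)
    exact (W2 w (a * p) y).trans (by linarith)

lemma univ (h : SemiAm A) (F : Finset A) {ε : ℝ} (hε : 0 < ε) : ∃ ξ η : W A →L[ℂ] ℂ,
    ∀ a ∈ F, ∀ w : W A, ‖w.1 a - (ξ (rW a w) - η (lW a w))‖ ≤ ε * ‖w‖ := by
  obtain ⟨ξ, η, h1, h2, h3⟩ := h (W A) lW rW (fun a w => w.1 a) bimodW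
    ⟨⟨by simp, by simp, by simp, by simp, 1, one_pos, fun a w => (W1 _ _).trans (by linarith)⟩,
      by simp⟩ F ε hε
  exact ⟨h1.toContinuousLinearMap, h2.toContinuousLinearMap, h3⟩

lemma zero_of (h : SemiAm A) {I : Type} [Fintype I] (a : I → A) (w : I → W A)
    (h1 : ∑ i, rW (a i) (w i) = 0) (h2 : ∑ i, lW (a i) (w i) = 0) : ∑ i, (w i).1 (a i) = 0 := by
  classical
  refine norm_le_zero_iff.1 (le_of_forall_pos_le_add fun ε hε => ?_)
  have K0 : 0 ≤ ∑ i, ‖w i‖ := Finset.sum_nonneg fun _ _ => norm_nonneg _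
  obtain ⟨ξ, η, H⟩ := univ h (Finset.univ.image a) (ε := ε / (∑ i, ‖w i‖ + 1)) (by positivity)
  have : ∑ i, (w i).1 (a i) = ∑ i, ((w i).1 (a i) - (ξ (rW (a i) (w i)) - η (lW (a i) (w i)))) := by
    simp only [Finset.sum_sub_distrib, ← map_sum, h1, h2, map_zero, sub_zero]
  rw [this]
  refine (norm_sum_le_of_le _ fun i _ => H (a i) (by simp) (w i)).trans ?_
  rw [← Finset.mul_sum, zero_add, div_mul_eq_mul_div, div_le_iff₀ (by positivity)]
  nlinarith

variable {B : Type} [NonUnitalNormedRing B] [NormedSpace ℂ B]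

structure Ret (ι : B →L[ℂ] A) (P : A →L[ℂ] B) : Prop where
  mul : ∀ j k, ι (j * k) = ι j * ι k
  pi : ∀ j, P (ι j) = j
  l : ∀ a j, ι (P (a * ι j)) = a * ι j
  r : ∀ a j, ι (P (ι j * a)) = ι j * a

variable {ι : B →L[ℂ] A} {P : A →L[ℂ] B}

lemma pi_sum {I : Type} [Fintype I] [DecidableEq I] (G : (I → A) →L[ℂ] ℂ) (z : I → A) :
    G z = ∑ i, G.comp (single ℂ (fun _ => A) i) (z i) := by
  simp only [comp_apply, ← map_sum]
  congr 1
  exact (Finset.univ_sum_single z).symm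

lemma right_ai (h : SemiAm A) (R : Ret ι P) (F : Finset B) {δ : ℝ} (hδ : 0 < δ) :
    ∃ u, ∀ b ∈ F, ‖ι b - ι b * ι u‖ ≤ δ := by
  classical
  obtain ⟨u, hu⟩ := HB (LinearMap.pi fun i : F => ((mul ℂ A (ι i)).comp ι).toLinearMap)
    (fun i : F => ι i) (fun G hG => by
      set g := fun i => G.comp (single ℂ (fun _ : F => A) i)
      have hz : ∀ u, ∑ i : F, g i (ι i * ι u) = 0 := fun u => (pi_sum G _).symm.trans (hG u)
      have := zero_of h (fun i : F => ι i) (fun i => ((g i).comp (ι.comp P),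
        (compL ℂ A A ℂ (g i)).comp ((mul ℂ A).bilinearComp (.id ℂ A) (ι.comp P))))
        (W_ext (fun y => by simpa [Prod.fst_sum] using hz (P y)) fun p y => by
          simpa [Prod.snd_sum, R.l, mul_assoc] using hz (P (p * ι (P y))))
        (Finset.sum_eq_zero fun i _ => W_ext (by simp [R.l, R.pi]) (by simp [R.l, R.pi, mul_assoc]))
      rw [pi_sum G]; simpa [R.pi, g] using this) hδ
  exact ⟨u, fun b hb => (norm_le_pi_norm _ (⟨b, hb⟩ : F)).trans hu⟩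

lemma left_ai (h : SemiAm A) (R : Ret ι P) (F : Finset B) {δ : ℝ} (hδ : 0 < δ) :
    ∃ v, ∀ b ∈ F, ‖ι b - ι v * ι b‖ ≤ δ := by
  classical
  obtain ⟨u, hu⟩ := HB (LinearMap.pi fun i : F => (((mul ℂ A).flip (ι i)).comp ι).toLinearMap)
    (fun i : F => ι i) (fun G hG => by
      set g := fun i => G.comp (single ℂ (fun _ : F => A) i)
      have hz : ∀ u, ∑ i : F, g i (ι u * ι i) = 0 := fun u => (pi_sum G _).symm.trans (hG u)
      have := zero_of h (fun i : F => ι i) (fun i => ((g i).comp (ι.comp P),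
        (compL ℂ A A ℂ ((g i).comp (ι.comp P))).comp (mul ℂ A) -
        (compL ℂ A A ℂ (g i)).comp ((mul ℂ A).bilinearComp (ι.comp P) (.id ℂ A))))
        (Finset.sum_eq_zero fun i _ => W_ext (by simp [R.r, R.pi]) (by simp [R.r, mul_assoc]))
        (W_ext (fun y => by simpa [Prod.fst_sum] using hz (P y)) fun p y => by
          have := hz (P (p * y) - P (ι (P p) * y))
          simp only [map_sub, R.r, sub_mul] at this
          simpa [Prod.snd_sum, ← mul_assoc] using this)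
      rw [pi_sum G]; simpa [R.pi, g] using this) hδ
  exact ⟨u, fun b hb => (norm_le_pi_norm _ (⟨b, hb⟩ : F)).trans hu⟩

theorem main (h : SemiAm A) (R : Ret ι P) : SemiAm B := by
  classical
  intro X _ _ _ l0 r0 D0 ⟨hl, hr, e1, e2, _⟩ ⟨hD, e4⟩ F ε hε
  set l := hl.toContinuousLinearMap
  set r := hr.toContinuousLinearMap
  set D := hD.toContinuousLinearMap
  replace e1 : ∀ a b x, l (a * b) x = l a (l b x) := e1
  replace e2 : ∀ a b x, r (a * b) x = r b (r a x) := e2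
  replace e4 : ∀ a b x, D (a * b) x = D b (r a x) + D a (l b x) := e4
  have inj : Function.Injective ι := Function.LeftInverse.injective R.pi
  let LL : B →L[ℂ] (X →L[ℂ] ℂ) →L[ℂ] (X →L[ℂ] ℂ) := (compL ℂ X X ℂ).flip.comp r
  let RR : B →L[ℂ] (X →L[ℂ] ℂ) →L[ℂ] (X →L[ℂ] ℂ) := (compL ℂ X X ℂ).flip.comp l
  let wt : (A →L[ℂ] A →L[ℂ] X →L[ℂ] ℂ) → X →L[ℂ] W A := fun Θ => (D.comp P).flip.prod
    (((compL ℂ A (A →L[ℂ] X →L[ℂ] ℂ) (A →L[ℂ] ℂ)).flip Θ).comp
      ((compL ℂ A (X →L[ℂ] ℂ) ℂ).comp (ContinuousLinearMap.apply ℂ ℂ)))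
  have w1 : ∀ Θ x y, (wt Θ x).1 y = D (P y) x := fun _ _ _ => rfl
  have w2 : ∀ Θ x p y, (wt Θ x).2 p y = Θ p y x := fun _ _ _ _ => rfl
  let Θ := LL.bilinearComp P (D.comp P) +
    (compL ℂ A A _ (D.comp P)).comp ((mul ℂ A).comp (.id ℂ A - ι.comp P))
  have t0 : ∀ p y x, Θ p y x = D (P y) (r (P p) x) + D (P ((p - ι (P p)) * y)) x := fun _ _ _ => rfl
  obtain ⟨ξ, η, H⟩ := univ h (F.image ι) (ε := ε / 2 / (‖wt Θ‖ + 1)) (by positivity)
  set K := ‖ξ‖ * (‖D‖ * ‖P‖ * ‖r‖ * ‖P‖) + ‖η‖ * (‖D‖ * ‖P‖ * ‖l‖ * ‖P‖)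
  have K0 : 0 ≤ K := by positivity
  set δ := ε / 2 / (K + 1) with hδ
  have δ0 : 0 < δ := by positivity
  obtain ⟨u, hu⟩ := right_ai h R F δ0
  obtain ⟨v, hv⟩ := left_ai h R F δ0
  let Θ' := LL.bilinearComp (P.comp (mul ℂ A (ι u))) (D.comp P)
  have t1 : ∀ p y x, Θ' p y x = D (P y) (r (P (ι u * p)) x) := fun _ _ _ => rfl
  let Θ'' := (compL ℂ A A _ (D.comp P)).comp (mul ℂ A) -
    (RR.bilinearComp (P.comp ((mul ℂ A).flip (ι v))) (D.comp P)).flip
  have t2 : ∀ p y x, Θ'' p y x = D (P (p * y)) x - D (P p) (l (P (y * ι v)) x) := fun _ _ _ => rfl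
  refine ⟨ξ.comp (wt Θ'), η.comp (wt Θ''), (ξ.comp _).isBoundedLinearMap,
    (η.comp _).isBoundedLinearMap, fun b hb x => ?_⟩
  change ‖D b x - (ξ (wt Θ' (r b x)) - η (wt Θ'' (l b x)))‖ ≤ _
  have bd : ∀ (m : B →L[ℂ] X →L[ℂ] X) (y z : A), ‖D (P y) (m (P z) x)‖ ≤
      ‖D‖ * ‖P‖ * ‖m‖ * ‖P‖ * ‖x‖ * ‖y‖ * ‖z‖ := fun m y z =>
    (D.le_of_opNorm₂_le_of_le le_rfl (P.le_opNorm y)
      (m.le_of_opNorm₂_le_of_le le_rfl (P.le_opNorm z) le_rfl)).trans (le_of_eq (by ring))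
  have a1 : ‖rW (ι b) (wt Θ x) - wt Θ' (r b x)‖ ≤ ‖D‖ * ‖P‖ * ‖r‖ * ‖P‖ * ‖x‖ * δ := by
    refine W_le (by positivity) (fun y => ?_) fun p y => ?_
    · simp only [Prod.fst_sub, sub_apply, rW1, w1, w2, t0, R.pi, sub_self, zero_mul, map_zero,
        zero_apply, add_zero, norm_zero]
      positivity
    · have e : b * P (ι u * p) = P (ι b * ι u * p) := by
        apply inj; rw [R.mul, R.r, mul_assoc, R.r]
      have : (rW (ι b) (wt Θ x) - wt Θ' (r b x)).2 p y = D (P y) (r (P ((ι b - ι b * ι u) * p)) x) := by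
        simp only [Prod.snd_sub, sub_apply, rW2, w2, t0, t1, R.r, sub_self, zero_mul, map_zero,
          zero_apply, add_zero, ← e2, e, map_sub, sub_mul]
      rw [this]
      refine (bd _ _ _).trans ?_
      have := mul_le_mul_of_nonneg_left ((norm_mul_le _ p).trans (mul_le_mul_of_nonneg_right (hu b hb)
        (norm_nonneg _))) (show 0 ≤ ‖D‖ * ‖P‖ * ‖r‖ * ‖P‖ * ‖x‖ * ‖y‖ by positivity)
      linarith
  have pm : ∀ y, P (ι (P y) * ι b) = P y * b := fun y => by rw [← R.mul, R.pi]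
  have a2 : ‖lW (ι b) (wt Θ x) - wt Θ'' (l b x)‖ ≤ ‖D‖ * ‖P‖ * ‖l‖ * ‖P‖ * ‖x‖ * δ := by
    refine W_le (by positivity) (fun y => ?_) fun p y => ?_
    · have : (lW (ι b) (wt Θ x) - wt Θ'' (l b x)).1 y = 0 := by
        simp only [Prod.fst_sub, sub_apply, lW1, w1, w2, t0, R.pi, sub_mul, map_sub, pm, e4]
        ring
      rw [this, norm_zero]; positivity
    · have e : P (y * ι v) * b = P (y * (ι v * ι b)) := by
        apply inj; rw [R.mul, R.l, ← mul_assoc, R.l]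
      have e' : P (ι (P p) * (y * ι b)) = P p * P (y * ι b) := by
        apply inj; rw [R.mul, R.l, R.r]
      have : (lW (ι b) (wt Θ x) - wt Θ'' (l b x)).2 p y = -D (P p) (l (P (y * (ι b - ι v * ι b))) x) := by
        simp only [Prod.snd_sub, sub_apply, lW2, w2, t0, t2, R.pi, sub_mul, mul_sub, map_sub, pm, e',
          ← e1, e, mul_assoc]
        simp only [e4]
        ring
      rw [this, norm_neg]
      refine (bd _ _ _).trans ?_
      have := mul_le_mul_of_nonneg_left ((norm_mul_le y _).trans (mul_le_mul_of_nonneg_left (hv b hb)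
        (norm_nonneg _))) (show 0 ≤ ‖D‖ * ‖P‖ * ‖l‖ * ‖P‖ * ‖x‖ * ‖p‖ by positivity)
      linarith
  have a3 := H (ι b) (Finset.mem_image_of_mem _ hb) (wt Θ x)
  rw [w1, R.pi] at a3
  have a4 := ξ.le_of_opNorm_le_of_le le_rfl a1
  have a5 := η.le_of_opNorm_le_of_le le_rfl a2
  rw [map_sub] at a4 a5
  have a6 : ε / 2 / (‖wt Θ‖ + 1) * ‖wt Θ x‖ ≤ ε / 2 * ‖x‖ := by
    have := (wt Θ).le_opNorm x
    have := norm_nonneg x
    rw [div_mul_eq_mul_div, div_le_iff₀ (by positivity)]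
    nlinarith
  have a7 : K * δ * ‖x‖ ≤ ε / 2 * ‖x‖ := mul_le_mul_of_nonneg_right (by
    rw [hδ, mul_div_assoc', div_le_iff₀ (by positivity)]; nlinarith) (norm_nonneg _)
  have a8 := norm_sub_le_of_le (norm_add_le_of_le a3 a4) a5
  refine le_trans (le_of_eq ?_) (a8.trans ?_)
  · congr 1; ring
  · simp only [K] at a7; linarith

end Pool.Agent.H70.Sa
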