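import Mathlib

namespace Pool.Agent.H70.Sa

variable {A X : Type} [NonUnitalNormedRing A] [NormedSpace ℂ A] [NormedAddCommGroup X]
  [NormedSpace ℂ X]

/-- `l a x` and `r a x` are the bounded left and right actions `a · x` and `x · a` of a bimodule. -/
def IsBimod (l r : A → X → X) : Prop :=
  IsBoundedBilinearMap ℂ (fun p : A × X => l p.1 p.2) ∧
    IsBoundedBilinearMap ℂ (fun p : A × X => r p.1 p.2) ∧ (∀ a b x, l (a * b) x = l a (l b x)) ∧
    (∀ a b x, r (a * b) x = r b (r a x)) ∧ ∀ a b x, l a (r b x) = r b (l a x)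

/-- A continuous derivation into the dual bimodule, `D a x` being the value of the functional
`D a` at `x`. -/
def IsDer (l r : A → X → X) (D : A → X → ℂ) : Prop :=
  IsBoundedBilinearMap ℂ (fun p : A × X => D p.1 p.2) ∧
    ∀ a b x, D (a * b) x = D b (r a x) + D a (l b x)

/-- `D` is approximately semi-inner: on each finite set it is within `ε`, in the norm of the dual
space, of a map `a ↦ a · ξ - η · a`. -/
def SemiInner (l r : A → X → X) (D : A → X → ℂ) : Prop :=
  ∀ (F : Finset A) (ε : ℝ), 0 < ε → ∃ ξ η : X → ℂ, IsBoundedLinearMap ℂ ξ ∧ IsBoundedLinearMap ℂ η ∧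
    ∀ a ∈ F, ∀ x, ‖D a x - (ξ (r a x) - η (l a x))‖ ≤ ε * ‖x‖

/-- Approximate semi-amenability. -/
def SemiAm (A : Type) [NonUnitalNormedRing A] [NormedSpace ℂ A] : Prop :=
  ∀ (X : Type) [NormedAddCommGroup X] [NormedSpace ℂ X] [CompleteSpace X] (l r : A → X → X)
    (D : A → X → ℂ), IsBimod l r → IsDer l r D → SemiInner l r D

/-- The subset `J` is a closed two-sided ideal onto which there is a bounded linear projection. -/
def ComplIdeal (J : Set A) : Prop :=
  IsClosed J ∧ (∀ a, ∀ j ∈ J, a * j ∈ J ∧ j * a ∈ J) ∧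
    ∃ P : A → A, IsBoundedLinearMap ℂ P ∧ (∀ a, P a ∈ J) ∧ ∀ j ∈ J, P j = j

/-- A subalgebra is a normed space for the norm of the ambient algebra. -/
noncomputable instance subN (J : NonUnitalSubalgebra ℂ A) : NormedSpace ℂ J :=
  Submodule.normedSpace J.toSubmodule

end Pool.Agent.H70.Sa
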