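import Pool.Agent.H70.SchDefs
import Pool.Agent.H70.IntF2

namespace Pool.Agent.H70.Sch

open Equiv Pool.Agent.H65.Thom

section
variable {G : Type} [Group G] {S : Finset G}

theorem mv_mv (v : Set G) (x y : G) : mv (mv v x) y = mv v (x * y) := by
  simp only [mv, Set.image_image, mul_assoc]

theorem mv_one (v : Set G) : mv v 1 = v := by simp [mv]

theorem free {v : Set G} {n : ℕ} (h : IsCayleyBall S v n) {l : List G}
    (hl : ∀ s ∈ l, s ∈ S ∨ s⁻¹ ∈ S) (hn : l.length ≤ n) (e : mv v l.prod = v) : l.prod = 1 := by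
  obtain ⟨φ, h1, h2, h3⟩ := h
  have key : ∀ l : List G, (∀ s ∈ l, s ∈ S ∨ s⁻¹ ∈ S) → l.length ≤ n →
      φ (mv {1} l.prod) = mv v l.prod := fun l => by
    induction l using List.reverseRecOn with
    | nil => intro _ _; simp [mv_one, h2]
    | append_singleton l s ih =>
      intro hl hn
      have k1 : ∀ t ∈ l, t ∈ S ∨ t⁻¹ ∈ S := fun t ht => hl t (by simp [ht])
      have k2 : l.length ≤ n := by simp at hn; omega
      have m1 : mv {1} l.prod ∈ ball S {1} n := ⟨l, k1, k2, rfl⟩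
      have m2 : mv {1} (l ++ [s]).prod ∈ ball S {1} n := ⟨_, hl, hn, rfl⟩
      rw [List.prod_append, List.prod_singleton] at m2 ⊢
      rcases hl s (by simp) with hs | hs
      · rw [(h3 _ m1 _ m2 s hs).1 (mv_mv _ _ _).symm, ih k1 k2, mv_mv]
      · have := (h3 _ m2 _ m1 _ hs).1 (by rw [mv_mv, mul_inv_cancel_right])
        rw [← mv_mv v, ← ih k1 k2, this, mv_mv, inv_mul_cancel, mv_one]
  have := h1.injOn ⟨l, hl, hn, rfl⟩ ⟨[], by simp, by simp, rfl⟩
    ((key l hl hn).trans (e.trans (by simp [mv_one, h2])))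
  simpa [mv] using this

theorem word (hS : Subgroup.closure (S : Set G) = ⊤) (g : G) :
    ∃ l : List G, (∀ s ∈ l, s ∈ S ∨ s⁻¹ ∈ S) ∧ l.prod = g := by
  have hg : g ∈ (Subgroup.closure (S : Set G)).toSubmonoid := hS ▸ trivial
  rw [Subgroup.closure_toSubmonoid] at hg
  simpa using Submonoid.exists_list_of_mem_closure hg

end

theorem main (S : Finset ThompsonF) (hS : Subgroup.closure (S : Set ThompsonF) = ⊤) :
    ∃ H : Subgroup ThompsonF, ¬ Confined H ∧ ∀ K : ℕ, ∀ᶠ n in Filter.atTop, ¬ ∃ g : ThompsonF,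
      ball S (mv H g) n ⊆ ball S H (K * n) ∧ IsCayleyBall S (mv H g) n := by
  classical
  obtain ⟨ρ, hA, hB, inj⟩ := IntF.exists_rho
  have hg := IntF.gens
  generalize (PresentedGroup.of false : ThompsonF) = A at *
  generalize (PresentedGroup.of true : ThompsonF) = B at *
  have hmem : ∀ x, ρ x ∈ V ∧ ∀ d, ρ x (K d) = K d := fun x => by
    have hx : x ∈ Subgroup.closure {A, B} := hg ▸ trivial
    induction hx using Subgroup.closure_induction with
    | mem z hz =>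
      rcases hz with rfl | rfl
      · rw [hA]
        exact ⟨inv_mem a_mem, fun d => by rw [Perm.inv_eq_iff_eq, a_K]⟩
      · rw [hB]
        refine ⟨inv_mem (sub_mem a_mem _), fun d => ?_⟩
        rw [Perm.inv_eq_iff_eq, ← cons_K]
        cases d
        · rfl
        · exact ((sub_cat [true] a (K true)).trans (by rw [a_K]; rfl)).symm
    | one => simp
    | mul z w _ _ h1 h2 =>
      rw [map_mul]
      exact ⟨mul_mem h1.1 h2.1, fun d => by rw [Perm.mul_apply, h2.2, h1.2]⟩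
    | inv z _ h1 =>
      rw [map_inv]
      exact ⟨inv_mem h1.1, fun d => by rw [Perm.inv_eq_iff_eq, h1.2]⟩
  obtain ⟨y, hy⟩ : ∃ y, ρ y = b := ⟨A * (B * (A⁻¹ * B⁻¹ * A)⁻¹ * B⁻¹ * B⁻¹) * A⁻¹, by
    rw [IntF.b_eq]; simp [hA, hB, mul_assoc]⟩
  have hAz : ∀ n : ℤ, ρ (A⁻¹ ^ n) = a ^ n := fun n => by rw [map_zpow, map_inv, hA, inv_inv]
  have hq : ∀ (i j : ℤ) w, ρ (A⁻¹ ^ i * y * A⁻¹ ^ (-i)) (ph j w) =
      ph j (if j = i then a w else w) := fun i j w => by
    have := bz_ph 1 (-i + j) w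
    rw [zpow_one, zpow_one] at this
    rw [map_mul, map_mul, hAz, hAz, hy, Perm.mul_apply, Perm.mul_apply, az_ph, this, az_ph,
      add_neg_cancel_left]
    congr 1
    exact if_congr (by omega) rfl rfl
  choose wd hw1 hw2 using word hS
  obtain ⟨L, hL1, hL2⟩ : ∃ L : ℕ → ℕ, Monotone L ∧ ∀ k (i : ℕ), i ≤ (k + 1) * (k + 1) →
      (wd (A⁻¹ ^ ((i : ℤ) + 1) * y * A⁻¹ ^ (-((i : ℤ) + 1)))).length ≤ L k :=
    ⟨fun k => (Finset.range ((k + 1) * (k + 1) + 1)).sup fun i : ℕ =>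
      (wd (A⁻¹ ^ ((i : ℤ) + 1) * y * A⁻¹ ^ (-((i : ℤ) + 1)))).length,
      fun k k' h => Finset.sup_mono (Finset.range_mono (by nlinarith)),
      fun k i hi => Finset.le_sup (f := fun i : ℕ =>
        (wd (A⁻¹ ^ ((i : ℤ) + 1) * y * A⁻¹ ^ (-((i : ℤ) + 1)))).length)
        (Finset.mem_range.2 (by omega))⟩
  haveI : Countable ThompsonF := by
    have : {s | s ∈ S ∨ s⁻¹ ∈ S}.Finite := (S.finite_toSet.union S.finite_toSet.inv).subset
      fun s hs => hs
    haveI : Finite {s // s ∈ S ∨ s⁻¹ ∈ S} := this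
    exact (show Function.Surjective fun l : List {s // s ∈ S ∨ s⁻¹ ∈ S} =>
      (l.map Subtype.val).prod from fun g => ⟨(wd g).attachWith _ (hw1 g), by simp [hw2]⟩).countable
  obtain ⟨en, hen⟩ := exists_surjective_nat ThompsonF
  have ht : ∀ j, ∃ i w, en j ≠ 1 → ρ (en j) (ph i w) ≠ ph i w := fun j => by
    by_contra hc
    push Not at hc
    exact (hc 0 (K true)).1 (inj ((ext3 (hmem _).2 fun i w => (hc i w).2).trans (map_one ρ).symm))
  choose ti tw ht using ht
  obtain ⟨f, hf⟩ : ∃ f : ℕ → ℤ, ∀ k j, j ≤ k → ti j - f k ≤ -(k * (L k + 1) : ℕ) :=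
    ⟨fun k => ((Finset.range (k + 1)).sup fun j => (ti j).toNat : ℕ) + (k * (L k + 1) : ℕ),
      fun k j hj => by
        have := Finset.le_sup (f := fun j => (ti j).toNat) (Finset.mem_range.2 (show j < k + 1 by omega))
        beta_reduce at this ⊢
        omega⟩
  obtain ⟨C, hC⟩ : ∃ C : ℕ, ∀ s, s ∈ S ∨ s⁻¹ ∈ S → ∀ i : ℤ, i ≤ -C → ∀ w,
      ∃ j ≤ i + C, ρ s⁻¹ (ph i w) = ph j w := by
    have h1 : ∀ s, ∃ C : ℕ, ∀ i : ℤ, i ≤ -C → ∀ w, ∃ j ≤ i + C, ρ s (ph i w) = ph j w := fun s => by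
      obtain ⟨r, N, h⟩ := germ_lo (hmem s).1 ((hmem s).2 false)
      exact ⟨r.natAbs + N.natAbs, fun i hi w => ⟨i + r, by omega, h i (by omega) w⟩⟩
    choose c hc using h1
    refine ⟨S.sup fun s => c s + c s⁻¹, fun s hs i hi w => ?_⟩
    have h2 : c s⁻¹ ≤ S.sup fun s => c s + c s⁻¹ := by
      rcases hs with hs | hs
      · exact le_add_self.trans (Finset.le_sup (f := fun s => c s + c s⁻¹) hs)
      · exact le_self_add.trans (Finset.le_sup (f := fun s => c s + c s⁻¹) hs)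
    obtain ⟨j, h3, h4⟩ := hc s⁻¹ i (by omega) w
    exact ⟨j, by omega, h4⟩
  have hl : ∀ l : List ThompsonF, (∀ s ∈ l, s ∈ S ∨ s⁻¹ ∈ S) → ∀ i : ℤ,
      i ≤ -(C * l.length : ℕ) → ∀ w, ∃ j ≤ 0, ρ l.prod⁻¹ (ph i w) = ph j w := fun l => by
    induction l with
    | nil => intro _ i hi w; exact ⟨i, by simpa using hi, by simp⟩
    | cons s l ih =>
      intro hl i hi w
      rw [List.length_cons, mul_add] at hi
      obtain ⟨j, h1, h2⟩ := hC s (hl s (by simp)) i (by omega) w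
      obtain ⟨j', h3, h4⟩ := ih (fun t ht => hl t (by simp [ht])) j (by omega) w
      exact ⟨j', h3, by rw [List.prod_cons, mul_inv_rev, map_mul, Perm.mul_apply, h2, h4]⟩
  let H : Subgroup ThompsonF :=
    { carrier := {h | ∀ k j, j ≤ k → ρ h (ph (ti j - f k) (tw j)) = ph (ti j - f k) (tw j)}
      one_mem' := by simp
      mul_mem' := fun h h' k j hj => by rw [map_mul, Perm.mul_apply, h' k j hj, h k j hj]
      inv_mem' := fun h k j hj => by rw [map_inv, Perm.inv_eq_iff_eq, h k j hj] }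
  refine ⟨H, ?_, fun K => Filter.eventually_atTop.2 ⟨L (C * K), fun n hn => ?_⟩⟩
  · rintro ⟨P, h1, h2⟩
    choose ix hix using hen
    obtain ⟨p, hp, h, hh, e⟩ := h2 (A⁻¹ ^ f (P.sup ix))
    have h3 := hh _ _ (Finset.le_sup (f := ix) hp)
    refine ht (ix p) (by rw [hix]; rintro rfl; exact h1 hp) ?_
    rw [hix]
    generalize ix p = j at h3
    rw [e, ← zpow_neg, map_mul, map_mul, hAz, hAz, Perm.mul_apply, Perm.mul_apply, az_ph,
      neg_add_eq_sub, h3, az_ph, add_sub_cancel]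
  · rintro ⟨g, h1, h2⟩
    obtain ⟨l, k1, k2, e⟩ := h1 ⟨[], by simp, by simp, (mv_one _).symm⟩
    rw [e] at h2
    obtain ⟨k0, l1, l2⟩ : ∃ k0, L k0 ≤ n ∧ ∀ k, k * (L k + 1) < C * l.length → k ≤ k0 := by
      refine ⟨Nat.findGreatest (fun k => L k ≤ n) (C * (K * n)), Nat.findGreatest_spec
        (P := fun k => L k ≤ n) (Nat.zero_le _) ((hL1 (Nat.zero_le _)).trans hn), fun k hk => ?_⟩
      have h3 : k * (L k + 1) < C * (K * n) := hk.trans_le (Nat.mul_le_mul_left _ k2)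
      refine Nat.le_findGreatest (by nlinarith) ?_
      by_cases h4 : k ≤ C * K
      · exact (hL1 h4).trans hn
      · by_contra h5
        have : C * K * n ≤ k * (L k + 1) := Nat.mul_le_mul (by omega) (by omega)
        rw [mul_assoc] at this
        omega
    obtain ⟨i, hi, hi'⟩ : ∃ i : ℕ, i ≤ (k0 + 1) * (k0 + 1) ∧ ∀ k ≤ k0, ∀ j ≤ k0, ∀ w,
        ρ l.prod⁻¹ (ph (ti j - f k) (tw j)) ≠ ph (i + 1) w := by
      by_contra hc
      push Not at hc
      choose! kk h3 jj h4 ww h5 using hc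
      obtain ⟨i, hi, i', hi', h6, h7⟩ := Finset.exists_ne_map_eq_of_card_lt_of_maps_to
        (s := Finset.range ((k0 + 1) * (k0 + 1) + 1))
        (t := Finset.range (k0 + 1) ×ˢ Finset.range (k0 + 1)) (by simp)
        (f := fun i => (kk i, jj i)) fun i hi => by
          have hi' : i ≤ (k0 + 1) * (k0 + 1) := by simpa [Nat.lt_succ_iff] using hi
          simpa [Nat.lt_succ_iff] using And.intro (h3 i hi') (h4 i hi')
      have h8 := h5 i (by simpa [Nat.lt_succ_iff] using hi)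
      obtain ⟨h9, h10⟩ := Prod.mk.inj h7
      rw [h9, h10] at h8
      rw [h5 i' (by simpa [Nat.lt_succ_iff] using hi')] at h8
      have := (ph_inj h8).1
      omega
    have h3 := hL2 k0 i hi
    have h4 := hq (i + 1)
    generalize A⁻¹ ^ ((i : ℤ) + 1) * y * A⁻¹ ^ (-((i : ℤ) + 1)) = q at h3 h4
    have h5 : l.prod * q * l.prod⁻¹ ∈ H := fun k j hj => by
      have h6 : ρ q (ρ l.prod⁻¹ (ph (ti j - f k) (tw j))) = ρ l.prod⁻¹ (ph (ti j - f k) (tw j)) := by
        by_cases hk : k ≤ k0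
        · rcases tri (ρ l.prod⁻¹ (ph (ti j - f k) (tw j))) with ⟨c, hc⟩ | ⟨i', w, hc⟩
          · rw [hc, (hmem q).2]
          · rw [hc, h4, if_neg fun e => hi' k hk j (hj.trans hk) w (by rw [hc, e])]
        · obtain ⟨j', h7, h8⟩ := hl l k1 (ti j - f k) (by
            have := hf k j hj
            have := mt (l2 k) hk
            omega) (tw j)
          rw [h8, h4, if_neg (by omega)]
      rw [map_mul, map_mul, Perm.mul_apply, Perm.mul_apply, h6, ← Perm.mul_apply, ← map_mul]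
      simp
    have h6 := free h2 (hw1 q) (h3.trans l1) (by
      rw [hw2, mv_mv]
      ext x
      simp only [mv, Set.image_mul_right, Set.mem_preimage, SetLike.mem_coe]
      rw [← mul_mem_cancel_right h5]
      group)
    rw [hw2] at h6
    have h7 := h4 (i + 1) (ph 0 (fun _ => true))
    rw [h6, map_one, if_pos rfl, a_ph, Perm.one_apply] at h7
    simpa using (ph_inj (ph_inj h7).2).1

end Pool.Agent.H70.Sch
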