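import Mathlib

/-! Balls in Schreier graphs, copies of Cayley balls, confined subgroups. -/

namespace Pool.Agent.H70.Sch

variable {G : Type} [Group G]

/-- Right multiplication of a coset (a vertex of a Schreier graph) by a group element. -/
def mv (v : Set G) (x : G) : Set G := (fun y => y * x) '' v

/-- The ball of radius `n` about the vertex `v`: the vertices reached from `v` along at most `n`
edges labelled by `S`, in either direction. -/
def ball (S : Finset G) (v : Set G) (n : ℕ) : Set (Set G) :=
  {w | ∃ l : List G, (∀ s ∈ l, s ∈ S ∨ s⁻¹ ∈ S) ∧ l.length ≤ n ∧ w = mv v l.prod}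

/-- The ball of radius `n` about `v` is isomorphic, as a rooted labelled graph, to the ball of
radius `n` about the identity of the Cayley graph (the Schreier graph of the trivial subgroup). -/
def IsCayleyBall (S : Finset G) (v : Set G) (n : ℕ) : Prop :=
  ∃ φ : Set G → Set G, Set.BijOn φ (ball S {1} n) (ball S v n) ∧ φ {1} = v ∧
    ∀ x ∈ ball S {1} n, ∀ y ∈ ball S {1} n, ∀ s ∈ S, (y = mv x s ↔ φ y = mv (φ x) s)

/-- Some finite set of nontrivial elements meets every conjugate of `H`. -/
def Confined (H : Subgroup G) : Prop :=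
  ∃ P : Finset G, 1 ∉ P ∧ ∀ g : G, ∃ p ∈ P, ∃ h ∈ H, p = g * h * g⁻¹

end Pool.Agent.H70.Sch
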