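import Pool.Agent.H70.SgDefs

namespace Pool.Agent.H70.Sg
open MeasureTheory Finset

def GG : Type := (ℤ → ℤˣ) × ℤ

instance : TopologicalSpace GG := inferInstanceAs (TopologicalSpace ((ℤ → ℤˣ) × ℤ))
instance : T2Space GG := inferInstanceAs (T2Space ((ℤ → ℤˣ) × ℤ))
instance : LocallyCompactSpace GG := inferInstanceAs (LocallyCompactSpace ((ℤ → ℤˣ) × ℤ))
instance : SecondCountableTopology GG := inferInstanceAs (SecondCountableTopology ((ℤ → ℤˣ) × ℤ))

instance : Group GG where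
  mul a b := (fun i => a.1 i * b.1 (i - a.2), a.2 + b.2)
  one := (1, 0)
  inv a := (fun i => (a.1 (i + a.2))⁻¹, -a.2)
  mul_assoc a b c := Prod.ext (funext fun i => by
    change a.1 i * b.1 (i - a.2) * c.1 (i - (a.2 + b.2)) = a.1 i * (b.1 (i - a.2) * c.1 (i - a.2 - b.2))
    rw [mul_assoc, sub_sub]) (add_assoc a.2 b.2 c.2)
  one_mul a := Prod.ext (funext fun i => by
    change 1 * a.1 (i - 0) = a.1 i
    simp) (zero_add a.2)
  mul_one a := Prod.ext (funext fun i => mul_one (a.1 i)) (add_zero a.2)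
  inv_mul_cancel a := Prod.ext (funext fun i => by
    change (a.1 (i + a.2))⁻¹ * a.1 (i - -a.2) = 1
    simp) (neg_add_cancel a.2)

lemma mul_1 (a b : GG) (i : ℤ) : (a * b).1 i = a.1 i * b.1 (i - a.2) := rfl
lemma mul_2 (a b : GG) : (a * b).2 = a.2 + b.2 := rfl
lemma inv_2 (a : GG) : a⁻¹.2 = -a.2 := rfl

lemma cev : Continuous fun q : (ℤ → ℤˣ) × ℤ => q.1 q.2 :=
  continuous_prod_of_discrete_right.2 fun n => continuous_apply n

lemma c1 : Continuous fun x : GG => x.1 := continuous_fst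
lemma c2 : Continuous fun x : GG => x.2 := continuous_snd

instance : IsTopologicalGroup GG where
  continuous_mul := Continuous.prodMk (continuous_pi fun i =>
    ((continuous_apply i).comp (c1.comp continuous_fst)).mul (cev.comp ((c1.comp continuous_snd).prodMk
      (continuous_const.sub (c2.comp continuous_fst)))))
      ((c2.comp continuous_fst).add (c2.comp continuous_snd))
  continuous_inv := Continuous.prodMk (continuous_pi fun i =>
    (cev.comp (c1.prodMk (continuous_const.add c2))).inv) c2.neg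

instance : MeasurableSpace GG := borel GG
instance : BorelSpace GG := ⟨rfl⟩

noncomputable def mu : Measure GG := Measure.haar
instance : mu.IsHaarMeasure := inferInstanceAs (Measure.haar (G := GG)).IsHaarMeasure

def X (j : ℤ) (x : GG) : ℂ := ((x.1 j : ℤ) : ℂ)

lemma X_mul (j : ℤ) (y x : GG) : X j (y * x) = X j y * X (j - y.2) x := by simp [X, mul_1]
lemma X_norm (j : ℤ) (x : GG) : ‖X j x‖ = 1 := by
  rcases Int.units_eq_one_or (x.1 j) with h | h <;> simp [X, h]
lemma X_sq (j : ℤ) (x : GG) : X j x * X j x = 1 := by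
  rcases Int.units_eq_one_or (x.1 j) with h | h <;> simp [X, h]
lemma X_cont (j : ℤ) : Continuous (X j) :=
  (continuous_of_discreteTopology (f := fun u : ℤˣ => ((u : ℤ) : ℂ))).comp
    ((continuous_apply j).comp c1)
lemma X_cont' (l : ℤ) : Continuous fun x : GG => X (l + x.2) x :=
  (continuous_of_discreteTopology (f := fun u : ℤˣ => ((u : ℤ) : ℂ))).comp
    (cev.comp (c1.prodMk (continuous_const.add c2)))

def fl (j : ℤ) : GG := (Function.update 1 j (-1), 0)
lemma fl_2 (j : ℤ) (x : GG) : (fl j * x).2 = x.2 := zero_add _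
lemma fl_1 (i j : ℤ) (x : GG) : (fl j * x).1 i = if i = j then -x.1 i else x.1 i := by
  rw [mul_1]; by_cases h : i = j <;> simp [fl, h]
lemma X_fl (i j : ℤ) (x : GG) : X i (fl j * x) = if i = j then -X i x else X i x := by
  unfold X; rw [fl_1]; split_ifs <;> simp

lemma odd0 (h : GG → ℂ) (j : ℤ) (hh : ∀ x, h (fl j * x) = -h x) : ∫ x, h x ∂mu = 0 := by
  have := integral_mul_left_eq_self (μ := mu) h (fl j)
  simp only [hh, integral_neg] at this
  linear_combination (-1 / 2 : ℂ) * this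

def Sh (n : ℤ) : Set GG := {x | x.2 = n}
lemma Sh_open (n : ℤ) : IsOpen (Sh n) := (isOpen_discrete {n}).preimage c2
lemma Sh_meas (n : ℤ) : MeasurableSet (Sh n) := (Sh_open n).measurableSet
lemma Sh_cpt (n : ℤ) : IsCompact (Sh n) := by
  have : Sh n = (Set.univ : Set (ℤ → ℤˣ)) ×ˢ {n} := by ext x; exact (and_iff_right trivial).symm
  rw [this]; exact isCompact_univ.prod isCompact_singleton
lemma Sh_fin (n : ℤ) : mu (Sh n) ≠ ⊤ := (Sh_cpt n).measure_lt_top.ne
lemma Sh_pos (n : ℤ) : mu (Sh n) ≠ 0 := ((Sh_open n).measure_pos mu ⟨(1, n), rfl⟩).ne'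
lemma Sh_eq (n : ℤ) : mu (Sh n) = mu (Sh 0) := by
  rw [← measure_preimage_mul mu ((1, n) : GG) (Sh n)]
  congr 1; ext x; change n + x.2 = n ↔ x.2 = 0; simp

lemma Sh_card (J : Finset ℤ) : mu {x | x.2 ∈ J} = J.card * mu (Sh 0) := by
  have : {x : GG | x.2 ∈ J} = ⋃ n ∈ J, Sh n := by ext; simp [Sh]
  rw [this, measure_biUnion_finset _ fun n _ => Sh_meas n]
  · simp [Sh_eq]
  · intro a _ b _ h
    exact Set.disjoint_left.2 fun x h1 h2 => h (h1.symm.trans h2)

theorem folner : Folner mu := by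
  intro C hC ε hε
  obtain ⟨M, hM⟩ : ∃ M : ℕ, ∀ y ∈ C, |y.2| ≤ M := by
    obtain ⟨b, hb⟩ := (hC.image c2.abs).bddAbove
    exact ⟨b.toNat, fun y hy => (hb ⟨y, hy, rfl⟩).trans (Int.self_le_toNat b)⟩
  obtain ⟨N, hN⟩ := exists_nat_gt (4 * M / ε)
  have N0 : 0 < N := by exact_mod_cast (zero_le.trans_lt hN)
  refine ⟨{x | x.2 ∈ Ico (0 : ℤ) N}, ((isOpen_discrete (↑(Ico (0 : ℤ) N) : Set ℤ)).preimage c2).measurableSet,
    ?_, ?_, fun y hy => ?_⟩
  · rw [Sh_card]; simp [pos_iff_ne_zero, Sh_pos, N0.ne']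
  · rw [Sh_card]; exact ENNReal.mul_lt_top (by simp) (Sh_fin 0).lt_top
  · have h1 := abs_le.1 (hM y hy)
    refine (measure_mono (t := {x | x.2 ∈ Ico (-M : ℤ) M ∪ Ico (N - M : ℤ) (N + M)}) ?_).trans ?_
    · intro x hx
      simp only [Set.mem_symmDiff, Set.image_mul_left, Set.mem_preimage, Set.mem_setOf_eq, mul_2,
        inv_2, mem_Ico, mem_union] at hx ⊢
      omega
    · rw [Sh_card, Sh_card, ← mul_assoc]
      refine mul_le_mul_left ?_ _
      have h2 : (Ico (-M : ℤ) M ∪ Ico (N - M : ℤ) (N + M)).card ≤ 4 * M :=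
        (card_union_le _ _).trans (by simp only [Int.card_Ico]; omega)
      have h3 : ((4 * M : ℕ) : NNReal) ≤ ε * N := by
        rw [div_lt_iff₀ hε] at hN; push_cast; rw [mul_comm ε]; exact hN.le
      simp only [Int.card_Ico, sub_zero, Int.toNat_natCast]
      exact le_trans (by exact_mod_cast h2) (by exact_mod_cast h3 : ((4 * M : ℕ) : ENNReal) ≤ ε * N)

end Pool.Agent.H70.Sg
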