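import Pool.Agent.H70.Sg1

namespace Pool.Agent.H70.Sg
open MeasureTheory Finset Filter Topology

abbrev LL : Type := Lp ℂ 1 mu

instance : Fact ((1 : ENNReal) ≠ ⊤) := ⟨ENNReal.one_ne_top⟩
instance : mu.Regular := Measure.regular_of_isMulLeftInvariant (K := Sh 0) (Sh_cpt 0)
  (by rw [(Sh_open 0).interior_eq]; exact ⟨1, rfl⟩) (Sh_fin 0)

noncomputable def tr (y : GG) (g : LL) : LL := DomMulAct.mk y⁻¹ • g
lemma tr_ae (y : GG) (g : LL) : tr y g =ᵐ[mu] fun x => g (y⁻¹ * x) := DomMulAct.smul_Lp_ae_eq _ _
lemma tr_norm (y : GG) (g : LL) : ‖tr y g‖ = ‖g‖ := DomMulAct.norm_smul_Lp _ _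
lemma tr_cont (g : LL) : Continuous fun y => tr y g :=
  (DomMulAct.continuous_mk.comp continuous_inv).smul continuous_const
lemma tr_mul (y z : GG) (g : LL) : tr (y * z) g = tr y (tr z g) := by
  simp only [tr, mul_inv_rev, DomMulAct.mk_mul, mul_smul]
lemma tr_one (g : LL) : tr 1 g = g := by simp [tr]
noncomputable def trL (y : GG) : LL →L[ℂ] LL := LinearMap.mkContinuous
  { toFun := tr y, map_add' := DomMulAct.smul_Lp_add _, map_smul' := fun c g => smul_comm _ c g } 1
  fun g => by simp [tr_norm]

lemma intb {φ : GG → ℂ} (h : Continuous φ) (h1 : ∀ x, ‖φ x‖ ≤ 1) (f : LL) :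
    Integrable (fun x => φ x * f x) mu :=
  (L1.integrable_coeFn f).bdd_mul h.aestronglyMeasurable (Eventually.of_forall h1)

noncomputable def PP (φ : GG → ℂ) (h : Continuous φ) (h1 : ∀ x, ‖φ x‖ ≤ 1) : LL →L[ℂ] ℂ :=
  LinearMap.mkContinuous
    { toFun := fun f => ∫ x, φ x * f x ∂mu
      map_add' := fun f g => by
        rw [← integral_add (intb h h1 f) (intb h h1 g)]
        exact integral_congr_ae ((Lp.coeFn_add f g).mono fun x hx => by simp only [hx, Pi.add_apply, mul_add])
      map_smul' := fun c f => by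
        rw [RingHom.id_apply, smul_eq_mul, ← integral_const_mul]
        exact integral_congr_ae ((Lp.coeFn_smul c f).mono fun x hx => by simp [hx]; ring) } 1
    fun f => by
      rw [one_mul, L1.norm_eq_integral_norm]
      exact norm_integral_le_of_norm_le (L1.integrable_coeFn f).norm (Eventually.of_forall fun x => by
        rw [norm_mul]; exact mul_le_of_le_one_left (norm_nonneg _) (h1 x))

noncomputable def cc (j : ℤ) : LL →L[ℂ] ℂ := PP (X j) (X_cont j) fun x => (X_norm j x).le
noncomputable def dd (l : ℤ) : LL →L[ℂ] ℂ :=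
  PP (fun x => X (l + x.2) x) (X_cont' l) fun x => (X_norm _ x).le
lemma cc_eq (j : ℤ) (f : LL) : cc j f = ∫ x, X j x * f x ∂mu := rfl
lemma dd_eq (l : ℤ) (f : LL) : dd l f = ∫ x, X (l + x.2) x * f x ∂mu := rfl

lemma cc_tr (j : ℤ) (y : GG) (g : LL) : cc j (tr y g) = X j y * cc (j - y.2) g := by
  rw [cc_eq, cc_eq, integral_congr_ae ((tr_ae y g).mono (fun x hx => by rw [hx]) :
    _ =ᵐ[mu] fun x => X j x * g (y⁻¹ * x)), ← integral_mul_left_eq_self _ y, ← integral_const_mul]
  simp [X_mul, mul_assoc]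

abbrev l1 : Type := lp (fun _ : ℤ => ℂ) 1

noncomputable def AS : Submodule ℂ (LL × l1) where
  carrier := {p | ∀ j, p.2 j = cc j p.1}
  add_mem' := fun {a b} ha hb j => by simp [ha j, hb j]
  zero_mem' := fun j => by simp
  smul_mem' := fun c a ha j => by simp [ha j]

instance : CompleteSpace AS := by
  refine IsClosed.completeSpace_coe (hs := ?_)
  change IsClosed {p : LL × l1 | ∀ j, p.2 j = cc j p.1}
  rw [Set.setOf_forall]
  exact isClosed_iInter fun j => isClosed_eq ((lp.evalCLM ℂ _ 1 j).continuous.comp continuous_snd)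
    ((cc j).continuous.comp continuous_fst)

noncomputable def io : AS →L[ℂ] LL := (ContinuousLinearMap.fst ℂ LL l1).comp AS.subtypeL

lemma io_inj : Function.Injective io := fun a b h =>
  Subtype.ext (Prod.ext h (lp.ext (funext fun j => (a.2 j).trans ((congrArg (cc j) h).trans (b.2 j).symm))))

lemma hs (a : AS) : HasSum (fun j => ‖cc j (io a)‖) ‖a.1.2‖ := by
  have := lp.hasSum_norm (p := 1) (by simp) a.1.2
  simp only [ENNReal.toReal_one, Real.rpow_one] at this
  exact (funext fun j => congrArg norm (a.2 j) : (fun j => ‖a.1.2 j‖) = _) ▸ this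

lemma nrm (a : AS) : ‖a‖ = max ‖io a‖ (∑' j, ‖cc j (io a)‖) := by rw [(hs a).tsum_eq]; rfl

noncomputable def mkA (f : LL) (h : Summable fun j => ‖cc j f‖) : AS :=
  ⟨(f, ⟨fun j => cc j f, memℓp_gen (by simpa using h)⟩), fun _ => rfl⟩

lemma ntr (y : GG) (g : LL) (j : ℤ) : ‖cc j (tr y g)‖ = ‖cc (Equiv.subRight y.2 j) g‖ := by
  rw [cc_tr, norm_mul, X_norm, one_mul]; rfl

noncomputable def T (y : GG) (a : AS) : AS := mkA (tr y (io a)) (by
  simp only [ntr]
  exact (Equiv.subRight y.2).summable_iff.2 (hs a).summable)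

lemma io_T (y : GG) (a : AS) : io (T y a) = tr y (io a) := rfl

lemma T_norm (y : GG) (a : AS) : ‖T y a‖ = ‖a‖ := by
  rw [nrm, nrm, io_T, tr_norm]
  simp only [ntr]
  rw [(Equiv.subRight y.2).tsum_eq fun j => ‖cc j (io a)‖]

noncomputable def TL (y : GG) : AS →L[ℂ] AS := LinearMap.mkContinuous
  { toFun := T y
    map_add' := fun a b => io_inj (by simp only [map_add, io_T]; exact (trL y).map_add _ _)
    map_smul' := fun c a => io_inj (by simp only [map_smul, io_T]; exact (trL y).map_smul _ _) } 1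
  fun a => by rw [one_mul]; exact (T_norm y a).le

lemma T_mul (y z : GG) (a : AS) : T (y * z) a = T y (T z a) := io_inj (tr_mul _ _ _)

lemma T_cont (a : AS) : Continuous fun y => T y a := by
  refine continuous_iff_continuousAt.2 fun z => tendsto_iff_norm_sub_tendsto_zero.2 ?_
  have h1 : Continuous fun y => ∑' j, ‖X j y - X j z‖ * ‖cc (Equiv.subRight z.2 j) (io a)‖ :=
    continuous_tsum (fun j => (((X_cont j).sub continuous_const).norm).mul continuous_const)
      (((Equiv.subRight z.2).summable_iff.2 (hs a).summable).mul_left 2) fun j y => by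
        rw [Real.norm_of_nonneg (by positivity)]
        refine mul_le_mul_of_nonneg_right ((norm_sub_le _ _).trans ?_) (norm_nonneg _)
        rw [X_norm, X_norm]; norm_num
  have h2 := (((tr_cont (io a)).sub continuous_const (g := fun _ => tr z (io a))).norm.max h1).tendsto z
  simp only [Pi.sub_apply, sub_self, norm_zero, zero_mul, tsum_zero, max_self] at h2
  refine h2.congr' (mem_of_superset ((Sh_open z.2).mem_nhds rfl) fun y hy => ?_)
  have e : y.2 = z.2 := hy
  simp only [Set.mem_setOf_eq, nrm (T y a - T z a), map_sub, io_T, cc_tr, e, ← sub_mul, norm_mul]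
  rfl

lemma intT (f : LL) (a : AS) : Integrable (fun y => f y • T y a) mu :=
  ((L1.integrable_coeFn f).norm.mul_const ‖a‖).mono'
    ((Lp.aestronglyMeasurable f).smul (T_cont a).aestronglyMeasurable)
    (Eventually.of_forall fun y => by rw [norm_smul, T_norm])

noncomputable def MM : LL →L[ℂ] AS →L[ℂ] AS := LinearMap.mkContinuous₂
  (LinearMap.mk₂ ℂ (fun f a => ∫ y, f y • T y a ∂mu)
    (fun f g a => by
      rw [← integral_add (intT f a) (intT g a)]
      exact integral_congr_ae ((Lp.coeFn_add f g).mono fun x hx => by simp only [hx, Pi.add_apply, add_smul]))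
    (fun c f a => by
      rw [← integral_smul]
      exact integral_congr_ae ((Lp.coeFn_smul c f).mono fun x hx => by
        simp only [hx, Pi.smul_apply, smul_assoc]))
    (fun f a b => by
      rw [← integral_add (intT f a) (intT f b)]
      exact integral_congr_ae (Eventually.of_forall fun x => by
        simp only [← smul_add]; exact congrArg _ ((TL x).map_add a b)))
    (fun c f a => by
      rw [← integral_smul]
      exact integral_congr_ae (Eventually.of_forall fun x => by
        simp only [smul_comm c]; exact congrArg _ ((TL x).map_smul c a)))) 1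
  fun f a => by
    rw [one_mul, L1.norm_eq_integral_norm, ← integral_mul_const]
    exact norm_integral_le_of_norm_le ((L1.integrable_coeFn f).norm.mul_const _)
      (Eventually.of_forall fun y => by rw [norm_smul, T_norm])

lemma MM_eq (f : LL) (a : AS) : MM f a = ∫ y, f y • T y a ∂mu := rfl
lemma MM_le (f : LL) (a : AS) : ‖MM f a‖ ≤ ‖f‖ * ‖a‖ := by
  rw [L1.norm_eq_integral_norm, ← integral_mul_const]
  exact norm_integral_le_of_norm_le ((L1.integrable_coeFn f).norm.mul_const _)
    (Eventually.of_forall fun y => by rw [norm_smul, T_norm])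

lemma L_MM {F : Type} [NormedAddCommGroup F] [NormedSpace ℂ F] [CompleteSpace F] (L : AS →L[ℂ] F)
    (f : LL) (a : AS) : L (MM f a) = ∫ y, f y • L (T y a) ∂mu := by
  rw [MM_eq, ← L.integral_comp_comm (intT f a)]; simp only [map_smul]

lemma MM_tr (y : GG) (g : LL) (a : AS) : MM (tr y g) a = T y (MM g a) := by
  rw [MM_eq, integral_congr_ae ((tr_ae y g).mono (fun x hx => by rw [hx]) :
    _ =ᵐ[mu] fun x => g (y⁻¹ * x) • T x a), ← integral_mul_left_eq_self _ y]
  simp only [inv_mul_cancel_left, T_mul]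
  exact (L_MM (TL y) g a).symm

lemma assoc (f : LL) (b a : AS) : MM (io (MM f b)) a = MM f (MM (io b) a) := by
  have := L_MM ((MM.flip a).comp io) f b
  simp only [ContinuousLinearMap.comp_apply, ContinuousLinearMap.flip_apply, io_T, MM_tr] at this
  exact this

noncomputable def psi : AS →L[ℂ] ℂ :=
  (lp.tsumCLM ℂ ℤ ℂ).comp ((ContinuousLinearMap.snd ℂ LL l1).comp AS.subtypeL)

lemma psi_eq (a : AS) : psi a = ∑' j, cc j (io a) := tsum_congr a.2

lemma psi_le (a : AS) : ‖psi a‖ ≤ ‖a‖ := by
  rw [psi_eq, nrm]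
  exact (norm_tsum_le_tsum_norm (hs a).summable).trans (le_max_right _ _)

lemma psi_MM {f : LL} (hf : ∀ l, dd l f = 0) (a : AS) : psi (MM f a) = 0 := by
  have e : ∀ y, f y • psi (T y a) = ∑' l, cc l (io a) * (X (l + y.2) y * f y) := fun y => by
    rw [psi_eq, ← (Equiv.addRight y.2).tsum_eq, smul_eq_mul, ← tsum_mul_left]
    exact tsum_congr fun l => by simp [io_T, cc_tr]; ring
  have hi : ∀ l, Integrable (fun y => X (l + y.2) y * f y) mu := fun l =>
    intb (X_cont' l) (fun x => (X_norm _ x).le) f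
  rw [L_MM]
  simp only [e]
  rw [← (hasSum_integral_of_summable_integral_norm (fun l => (hi l).const_mul _) ?_).tsum_eq]
  · simp only [integral_const_mul, ← dd_eq, hf, mul_zero, tsum_zero]
  · simp only [norm_mul, X_norm, one_mul, integral_const_mul]
    exact (hs a).summable.mul_right _

end Pool.Agent.H70.Sg
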