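import Pool.Agent.H70.Sg2

namespace Pool.Agent.H70.Sg
open MeasureTheory Finset Filter Topology

noncomputable def m0 : ℝ := mu.real (Sh 0)
lemma m0_pos : 0 < m0 := ENNReal.toReal_pos (Sh_pos 0) (Sh_fin 0)
lemma m0_eq (n : ℤ) : mu.real (Sh n) = m0 := by rw [m0, Measure.real, Sh_eq]; rfl

lemma intS {E : Type} [NormedAddCommGroup E] {φ : GG → E} (h : Continuous φ) (n : ℤ) :
    IntegrableOn φ (Sh n) mu := h.continuousOn.integrableOn_compact (Sh_cpt n)

lemma orth (i j n : ℤ) : ∫ x in Sh n, X i x * X j x ∂mu = if i = j then (m0 : ℂ) else 0 := by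
  split_ifs with h
  · simp [h, X_sq, m0_eq]
  · rw [← integral_indicator (Sh_meas n)]
    refine odd0 _ i fun x => ?_
    by_cases hx : x ∈ Sh n
    · rw [Set.indicator_of_mem hx, Set.indicator_of_mem (show fl i * x ∈ Sh n from (fl_2 i x).trans hx)]
      simp [X_fl, Ne.symm h]
    · rw [Set.indicator_of_notMem hx, Set.indicator_of_notMem
        (show fl i * x ∉ Sh n from fun h => hx ((fl_2 i x).symm.trans h)), neg_zero]

lemma cS (J : Finset ℤ) : Continuous fun x => ∑ i ∈ J, X i x :=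
  continuous_finset_sum _ fun i _ => X_cont i

lemma intW (J : Finset ℤ) (n : ℤ) : Integrable ((Sh n).indicator fun x => ∑ i ∈ J, X i x) mu :=
  (integrable_indicator_iff (Sh_meas n)).2 (intS (cS J) n)

noncomputable def WW (J : Finset ℤ) (n : ℤ) : LL := (intW J n).toL1

lemma orthS (J : Finset ℤ) (j n : ℤ) :
    ∫ x in Sh n, X j x * ∑ i ∈ J, X i x ∂mu = if j ∈ J then (m0 : ℂ) else 0 := by
  simp only [mul_sum]
  rw [integral_finset_sum _ fun i _ => intS (φ := fun x => X j x * X i x) ((X_cont j).mul (X_cont i)) n]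
  simp [orth]

lemma int_W (φ : GG → ℂ) (J : Finset ℤ) (n : ℤ) :
    ∫ x, φ x * WW J n x ∂mu = ∫ x in Sh n, φ x * ∑ i ∈ J, X i x ∂mu := by
  rw [← integral_indicator (Sh_meas n)]
  refine integral_congr_ae ((intW J n).coeFn_toL1.mono fun x hx => ?_)
  simp only [WW, hx, Set.indicator_mul_right]

lemma cc_W (J : Finset ℤ) (j n : ℤ) : cc j (WW J n) = if j ∈ J then (m0 : ℂ) else 0 := by
  rw [cc_eq, int_W, orthS]

lemma dd_W (J : Finset ℤ) (l n : ℤ) : dd l (WW J n) = if l + n ∈ J then (m0 : ℂ) else 0 := by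
  rw [dd_eq, int_W, ← orthS J (l + n) n]
  exact setIntegral_congr_fun (Sh_meas n) fun x hx => by
    have : x.2 = n := hx
    simp only [this]

lemma W_norm (J : Finset ℤ) (n : ℤ) {θ : ℝ} (hθ : 0 < θ) : ‖WW J n‖ ≤ (θ + J.card / θ) * m0 := by
  have h1 : ∫ x in Sh n, ‖∑ i ∈ J, X i x‖ ^ 2 ∂mu = J.card * m0 := by
    have e : ∀ x, ((‖∑ i ∈ J, X i x‖ ^ 2 : ℝ) : ℂ) = ∑ j ∈ J, X j x * ∑ i ∈ J, X i x := fun x => by
      have : ∑ i ∈ J, X i x = ((∑ i ∈ J, (x.1 i : ℤ) : ℤ) : ℝ) := by simp [X]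
      rw [← sum_mul, this, Complex.norm_real, Real.norm_eq_abs, sq_abs, sq, Complex.ofReal_mul]
    apply Complex.ofReal_injective
    rw [← integral_complex_ofReal]
    simp only [e]
    rw [integral_finset_sum _ fun j _ => intS (φ := fun x => X j x * ∑ i ∈ J, X i x) ((X_cont j).mul (cS J)) n]
    simp only [orthS]
    rw [sum_congr rfl fun j hj => if_pos hj]; simp
  rw [WW, L1.norm_of_fun_eq_integral_norm]
  simp only [norm_indicator_eq_indicator_norm]
  rw [integral_indicator (Sh_meas n)]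
  have i2 := intS (φ := fun x => ‖∑ i ∈ J, X i x‖ ^ 2) ((cS J).norm.pow 2) n
  have i1 := intS (φ := fun _ => θ) continuous_const n
  refine (integral_mono (g := fun x => θ + ‖∑ i ∈ J, X i x‖ ^ 2 / θ) (intS (cS J).norm n)
    (Integrable.add i1 (i2.div_const θ)) fun x => ?_).trans (le_of_eq ?_)
  · have := norm_nonneg (∑ i ∈ J, X i x)
    simp only
    rw [← sub_le_iff_le_add', le_div_iff₀ hθ]
    nlinarith [sq_nonneg (‖∑ i ∈ J, X i x‖ - θ)]
  · rw [integral_add i1 (i2.div_const θ), integral_div, h1]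
    simp [m0_eq]; ring

noncomputable def aa (j : ℕ) : LL :=
  (1 / 2 ^ (j + 1) : ℂ) • (WW (Ico 0 (2 ^ j)) 0 - WW (Ico (2 ^ j) (2 ^ (j + 1))) (2 ^ j))

lemma aa_sum : Summable aa := by
  refine Summable.of_norm_bounded (g := fun j => ((3 / 4) ^ j + (2 / 3) ^ j) * m0)
    (((summable_geometric_of_lt_one (by norm_num) (by norm_num)).add
      (summable_geometric_of_lt_one (by norm_num) (by norm_num))).mul_right _) fun j => ?_
  have h1 := W_norm (Ico 0 (2 ^ j)) 0 (θ := (3 / 2) ^ j) (by positivity)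
  have h2 := W_norm (Ico (2 ^ j) (2 ^ (j + 1))) (2 ^ j) (θ := (3 / 2) ^ j) (by positivity)
  have e1 : ((Ico (0 : ℤ) (2 ^ j)).card : ℝ) = 2 ^ j := by
    have : (2 : ℤ) ^ j = ((2 ^ j : ℕ) : ℤ) := by simp
    rw [Int.card_Ico, sub_zero, this, Int.toNat_natCast]; simp
  have e2 : ((Ico ((2 : ℤ) ^ j) (2 ^ (j + 1))).card : ℝ) = 2 ^ j := by
    have : (2 : ℤ) ^ (j + 1) - 2 ^ j = ((2 ^ j : ℕ) : ℤ) := by push_cast; ring
    rw [Int.card_Ico, this, Int.toNat_natCast]; simp
  rw [e1] at h1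
  rw [e2] at h2
  rw [aa, norm_smul]
  refine (mul_le_mul_of_nonneg_left ((norm_sub_le _ _).trans (add_le_add h1 h2))
    (norm_nonneg _)).trans (le_of_eq ?_)
  have e3 : (3 / 4 : ℝ) ^ j = (3 / 2) ^ j / 2 ^ j := by rw [← div_pow]; norm_num
  have e4 : (2 / 3 : ℝ) ^ j = 1 / (3 / 2) ^ j := by rw [← one_div_pow]; norm_num
  rw [e3, e4]
  simp only [norm_div, norm_one, norm_pow, Complex.norm_ofNat]
  field_simp; ring

noncomputable def f0 : LL := ∑' j, aa j

lemma dd_f0 (l : ℤ) : dd l f0 = 0 := by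
  rw [f0, (dd l).map_tsum aa_sum]
  refine (tsum_congr fun j => ?_).trans tsum_zero
  have : l + 2 ^ j ∈ Ico ((2 : ℤ) ^ j) (2 ^ (j + 1)) ↔ l + 0 ∈ Ico (0 : ℤ) (2 ^ j) := by
    simp only [mem_Ico, pow_succ]; omega
  simp only [aa, map_smul, map_sub, dd_W, this, sub_self, smul_zero]

lemma cc_f0 (l : ℤ) : cc l f0 = if l = 0 then (m0 : ℂ) else 0 := by
  let r : ℕ → ℂ := fun j => if l ∈ Ico (0 : ℤ) (2 ^ j) then (1 / 2) ^ j * m0 else 0
  have e : ∀ j, cc l (aa j) = r j - r (j + 1) := fun j => by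
    have p : (0 : ℤ) < 2 ^ j := by positivity
    simp only [aa, map_smul, map_sub, cc_W, r, mem_Ico, pow_succ (2 : ℤ), smul_eq_mul]
    split_ifs <;> first | omega | (simp; done) | (field_simp; ring_nf; done) | (simp; ring_nf; done) | (simp; ring_nf; simp)
  have h1 := ((cc l).hasSum aa_sum.hasSum).tendsto_sum_nat
  simp only [e, sum_range_sub'] at h1
  have h2 : Tendsto r atTop (𝓝 0) := by
    refine squeeze_zero_norm (a := fun j => (1 / 2) ^ j * m0) (fun j => ?_) ?_
    · have := m0_pos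
      simp only [r]
      split_ifs
      · simp [abs_of_pos this]
      · simp only [norm_zero]; positivity
    · have := (tendsto_pow_atTop_nhds_zero_of_lt_one (r := (1 / 2 : ℝ)) (by norm_num)
        (by norm_num)).mul_const m0
      rwa [zero_mul] at this
  rw [f0, tendsto_nhds_unique h1 (h2.const_sub (r 0)), sub_zero]
  have : l ∈ Ico (0 : ℤ) (2 ^ 0) ↔ l = 0 := by simp only [mem_Ico]; omega
  simp only [r, this]; simp

noncomputable def a0 : AS := mkA f0 (summable_of_ne_finset_zero (s := {0}) fun l hl => by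
  rw [cc_f0, if_neg (by simpa using hl), norm_zero])

lemma psi_a0 : psi a0 = m0 := by
  rw [psi_eq]
  change ∑' l, cc l f0 = _
  simp [cc_f0]

theorem dense_io : DenseRange io := by
  refine Metric.denseRange_iff.2 fun f ε hε => ?_
  have h1 : {y | dist (tr y f) f < ε / 2} ∈ 𝓝 (1 : GG) := by
    have := (tr_cont f).tendsto 1
    rw [tr_one] at this
    exact this (Metric.ball_mem_nhds f (by positivity))
  obtain ⟨u, hu, v, hv, huv⟩ := mem_nhds_prod_iff.1 h1
  rw [nhds_pi, Filter.mem_pi'] at hu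
  obtain ⟨I, t, ht, hI⟩ := hu
  set U : Set GG := {x | x.2 = 0 ∧ ∀ i ∈ I, x.1 i = 1}
  have Uo : IsOpen U := (Sh_open 0).inter (by
    change IsOpen {x : GG | ∀ i ∈ I, x.1 i = 1}
    simp only [Set.setOf_forall]
    exact isOpen_biInter_finset fun i _ => (isOpen_discrete {1}).preimage ((continuous_apply i).comp c1))
  have Us : U ⊆ Sh 0 := fun x hx => hx.1
  have Uf : mu U < ⊤ := (measure_mono Us).trans_lt (Sh_fin 0).lt_top
  have U0 : 0 < mu.real U := ENNReal.toReal_pos (Uo.measure_pos mu ⟨1, rfl, fun _ _ => rfl⟩).ne' Uf.ne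
  have iU : IntegrableOn (fun y => tr y f) U mu := (intS (tr_cont f) 0).mono_set Us
  refine ⟨mkA ((mu.real U)⁻¹ • ∫ y in U, tr y f ∂mu) (summable_of_ne_finset_zero (s := I)
    fun j hj => ?_), ?_⟩
  · rw [ContinuousLinearMap.map_smul_of_tower, ← (cc j).integral_comp_comm iU,
      ← integral_indicator Uo.measurableSet, odd0 _ j, smul_zero, norm_zero]
    intro x
    have : fl j * x ∈ U ↔ x ∈ U := and_congr (by rw [fl_2]) (forall₂_congr fun i hi => by
      rw [fl_1, if_neg (fun h : i = j => hj (h ▸ hi))])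
    by_cases hx : x ∈ U
    · rw [Set.indicator_of_mem hx, Set.indicator_of_mem (this.2 hx)]
      simp [cc_tr, X_fl, fl_2]
    · rw [Set.indicator_of_notMem hx, Set.indicator_of_notMem (mt this.1 hx), neg_zero]
  · change dist f ((mu.real U)⁻¹ • ∫ y in U, tr y f ∂mu) < ε
    have e : (mu.real U)⁻¹ • ∫ y in U, tr y f ∂mu - f = (mu.real U)⁻¹ • ∫ y in U, (tr y f - f) ∂mu := by
      rw [integral_sub iU (integrableOn_const Uf.ne), setIntegral_const, smul_sub, smul_smul,
        inv_mul_cancel₀ U0.ne', one_smul]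
    have h2 := norm_setIntegral_le_of_norm_le_const (μ := mu) (s := U) (f := fun y => tr y f - f)
      (C := ε / 2) Uf fun y hy => by
        have : y ∈ u ×ˢ v := ⟨hI fun i hi => by rw [hy.2 i hi]; exact mem_of_mem_nhds (ht i),
          by rw [hy.1]; exact mem_of_mem_nhds hv⟩
        rw [← dist_eq_norm]; exact le_of_lt (huv this)
    rw [dist_comm, dist_eq_norm, e, norm_smul, norm_inv, Real.norm_of_nonneg U0.le, inv_mul_lt_iff₀ U0]
    nlinarith

lemma io_le (a : AS) : ‖io a‖ ≤ ‖a‖ := by rw [nrm a]; exact le_max_left _ _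

theorem bad : BadSegal mu := by
  have hm : ∀ f a, io (MM f a) = conv mu (ev mu) tr f (io a) := fun f a => L_MM io f a
  refine ⟨tr, tr_ae, AS, inferInstance, inferInstance, io, fun a b => MM (io a) b,
    ⟨inferInstance, io.toLinearMap.isLinear, io_inj, dense_io, fun f a => ⟨_, hm f a⟩, io_le,
      T, io_T, T_norm, T_cont⟩, fun a b => hm _ b, fun h => ?_⟩
  have := m0_pos
  obtain ⟨x, y, hs, h⟩ := h {a0} (m0 / 3) (by positivity)
  obtain ⟨h1, h2⟩ := h a0 (mem_singleton_self _)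
  have nb : ∀ a b, ‖MM (io a) b‖ ≤ ‖a‖ * ‖b‖ := fun a b =>
    (MM_le _ _).trans (mul_le_mul_of_nonneg_right (io_le a) (norm_nonneg _))
  have h3 := h1 (fun a b => psi (MM (io a) b)) ⟨fun a => (psi.comp (MM (io a))).toLinearMap.isLinear,
    fun b => (psi.comp ((MM.flip b).comp io)).toLinearMap.isLinear,
    fun a b => (psi_le _).trans (nb a b)⟩
  set Φ := psi.comp ((MM.flip a0).comp io)
  have e : ∀ i, psi (MM (io (MM (io a0) (x i))) (y i)) - psi (MM (io (x i)) (MM (io (y i)) a0)) =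
      -Φ (MM (io (x i)) (y i)) := fun i => by
    rw [assoc, psi_MM (f := io a0) dd_f0, zero_sub, ← assoc]; rfl
  simp only [e] at h3
  rw [tsum_neg, norm_neg, ← Φ.map_tsum (Summable.of_norm_bounded hs fun i => nb _ _)] at h3
  have h4 := (psi_le _).trans h2
  rw [map_sub, psi_a0] at h4
  have h5 := norm_sub_le_of_le h3 h4
  simp only [Φ, ContinuousLinearMap.comp_apply, ContinuousLinearMap.flip_apply, sub_sub_cancel,
    Complex.norm_real, Real.norm_of_nonneg this.le] at h5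
  linarith

end Pool.Agent.H70.Sg
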