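import Mathlib

namespace Pool.Agent.H70.Sg
open MeasureTheory

section
variable {G : Type} [Group G] [TopologicalSpace G] [MeasurableSpace G]

/-- The Følner condition for a locally compact group with left Haar measure `μ`. -/
def Folner (μ : Measure G) : Prop :=
  ∀ C : Set G, IsCompact C → ∀ ε : NNReal, 0 < ε → ∃ F : Set G, MeasurableSet F ∧ 0 < μ F ∧
    μ F < ⊤ ∧ ∀ y ∈ C, μ (symmDiff ((fun x => y * x) '' F) F) ≤ ε * μ F

variable {E A : Type} [NormedAddCommGroup E] [NormedSpace ℂ E] [NormedAddCommGroup A]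
  [NormedSpace ℂ A]

/-- `L y g` is the left translate of `g` by `y`; `ev` reads an element of `E` as a function. -/
def IsTr (μ : Measure G) (ev : E → G → ℂ) (L : G → E → E) : Prop :=
  ∀ y g, ev (L y g) =ᵐ[μ] fun x => ev g (y⁻¹ * x)

/-- Convolution, written as the vector valued integral of `f y • L y g`. -/
noncomputable def conv (μ : Measure G) (ev : E → G → ℂ) (L : G → E → E) (f g : E) : E :=
  ∫ y, ev f y • L y g ∂μ

/-- The Banach space `A`, embedded in `E` by `ι`, is a Segal algebra: a dense left ideal for the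
product `cv`, with a larger complete norm, on which left translations act isometrically and
continuously. -/
def Segal (L : G → E → E) (cv : E → E → E) (ι : A → E) : Prop :=
  CompleteSpace A ∧ IsLinearMap ℂ ι ∧ Function.Injective ι ∧ DenseRange ι ∧
    (∀ f a, ∃ b, ι b = cv f (ι a)) ∧ (∀ a, ‖ι a‖ ≤ ‖a‖) ∧
    ∃ T : G → A → A, (∀ y a, ι (T y a) = L y (ι a)) ∧ (∀ y a, ‖T y a‖ = ‖a‖) ∧
      ∀ a, Continuous fun y => T y a

/-- Bilinear forms of norm at most one; they norm the projective tensor square. -/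
def IsBil (B : A → A → ℂ) : Prop :=
  (∀ a, IsLinearMap ℂ (B a)) ∧ (∀ b, IsLinearMap ℂ fun a => B a b) ∧ ∀ a b, ‖B a b‖ ≤ ‖a‖ * ‖b‖

/-- The Banach algebra `A` with product `m` has an approximate diagonal: for each finite set `F`
and `ε > 0` there is an element `u`, the sum of the absolutely convergent series of the tensors
`x i ⊗ y i`, such that for all `f` in `F` the projective norm of `f u - u f` and the norm of
`π(u) f - f` are at most `ε`. -/
def ApproxDiag (m : A → A → A) : Prop :=
  ∀ (F : Finset A) (ε : ℝ), 0 < ε → ∃ x y : ℕ → A, Summable (fun i => ‖x i‖ * ‖y i‖) ∧ ∀ f ∈ F,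
    (∀ B, IsBil B → ‖∑' i, (B (m f (x i)) (y i) - B (x i) (m (y i) f))‖ ≤ ε) ∧
      ‖m (∑' i, m (x i) (y i)) f - f‖ ≤ ε

/-- There is a Segal algebra inside `E` without an approximate diagonal. -/
def BadIn (μ : Measure G) (ev : E → G → ℂ) : Prop :=
  ∃ L : G → E → E, IsTr μ ev L ∧ ∃ (A : Type) (_ : NormedAddCommGroup A) (_ : NormedSpace ℂ A)
    (ι : A → E) (m : A → A → A), Segal L (conv μ ev L) ι ∧
      (∀ a b, ι (m a b) = conv μ ev L (ι a) (ι b)) ∧ ¬ ApproxDiag m

end

variable {G : Type} [MeasurableSpace G]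

/-- The space `L¹(G, μ)`. -/
def L1 (μ : Measure G) : Type := Lp ℂ 1 μ

noncomputable instance n1 (μ : Measure G) : NormedAddCommGroup (L1 μ) := Lp.instNormedAddCommGroup

noncomputable instance n2 (μ : Measure G) : NormedSpace ℂ (L1 μ) := Lp.instNormedSpace

/-- An element of `L¹` read as a function. -/
noncomputable def ev (μ : Measure G) (f : L1 μ) : G → ℂ := AEEqFun.cast f.1

/-- Some Segal algebra in `L¹(G, μ)` has no approximate diagonal. -/
def BadSegal [Group G] [TopologicalSpace G] (μ : Measure G) : Prop := BadIn μ (ev μ)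

end Pool.Agent.H70.Sg
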