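import Pool.Agent.H70.ShadowDefs

set_option autoImplicit false

namespace Pool.Agent.H70.Shadow

open Pool.Agent.H70.ShadowDefs Multiplicative

abbrev G := Multiplicative (ℤ × ZMod 4)

def S : Finset G := {ofAdd (1, 0), ofAdd (1, 1), ofAdd (0, 1)}

def T : Finset G := {ofAdd (1, 0), ofAdd (1, 1), ofAdd (0, 1), ofAdd (-1, 0), ofAdd (-1, -1),
  ofAdd (0, -1)}

theorem adj_iff (x y : G) : (cay S).Adj x y ↔ x⁻¹ * y ∈ T := by
  rw [cay, SimpleGraph.fromRel_adj, ← inv_inv (y⁻¹ * x), mul_inv_rev, inv_inv, Ne,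
    ← inv_mul_eq_one]
  generalize x⁻¹ * y = z
  constructor
  · rintro ⟨-, h | h⟩
    · revert z; decide
    · rw [← inv_inv z]; generalize z⁻¹ = w at h; revert w; decide
  · revert z; decide

theorem gen : Subgroup.closure (S : Set G) = ⊤ := by
  rw [eq_top_iff]
  rintro ⟨n, k⟩ -
  obtain ⟨m, rfl⟩ := ZMod.intCast_surjective k
  have h1 : ofAdd ((1, 0) : ℤ × ZMod 4) ∈ Subgroup.closure (S : Set G) :=
    Subgroup.subset_closure (by simp [S])
  have h2 : ofAdd ((0, 1) : ℤ × ZMod 4) ∈ Subgroup.closure (S : Set G) :=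
    Subgroup.subset_closure (by simp [S])
  have := Subgroup.mul_mem _ (Subgroup.zpow_mem _ h1 n) (Subgroup.zpow_mem _ h2 m)
  rw [← ofAdd_zsmul, ← ofAdd_zsmul, ← ofAdd_add] at this
  have e : n • ((1, 0) : ℤ × ZMod 4) + m • ((0, 1) : ℤ × ZMod 4) = (n, (m : ZMod 4)) := by simp
  rw [e] at this
  exact this

theorem conn : (cay S).Connected := by
  have key : ∀ z : G, (cay S).Reachable 1 z := by
    intro z
    have hz : z ∈ Subgroup.closure (S : Set G) := by rw [gen]; trivial
    induction hz using Subgroup.closure_induction_right with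
    | one => rfl
    | mul_right x _ y hy ih =>
      refine ih.trans (SimpleGraph.Adj.reachable ((adj_iff _ _).2 ?_))
      rw [inv_mul_cancel_left]; revert y; decide
    | mul_inv_cancel x _ y hy ih =>
      refine ih.trans (SimpleGraph.Adj.reachable ((adj_iff _ _).2 ?_))
      rw [inv_mul_cancel_left]; revert y; decide
  exact ⟨fun a b => (key a).symm.trans (key b)⟩

theorem len_step (y s : G) (hs : s ∈ insert 1 T) : len S (y * s) ≤ len S y + 1 := by
  rcases Finset.mem_insert.1 hs with rfl | hs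
  · simp
  · have : (cay S).Adj y (y * s) := (adj_iff _ _).2 (by simpa using hs)
    have h := conn.dist_triangle (u := 1) (v := y) (w := y * s)
    rwa [SimpleGraph.dist_eq_one_iff_adj.2 this] at h

theorem len_one : len S 1 = 0 := SimpleGraph.dist_self

theorem lip {x y : G} (h : (cay S).Adj x y) : |y.toAdd.1 - x.toAdd.1| ≤ 1 := by
  have : ∀ z ∈ T, |z.toAdd.1| ≤ 1 := by decide
  simpa [sub_eq_neg_add] using this _ ((adj_iff _ _).1 h)

theorem low (x : G) : |x.toAdd.1| ≤ len S x := by
  obtain ⟨p, hp⟩ := conn.exists_walk_length_eq_dist 1 x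
  have : ∀ (a b : G) (p : (cay S).Walk a b), |b.toAdd.1 - a.toAdd.1| ≤ p.length := by
    intro a b p
    induction p with
    | nil => simp
    | cons h p ih =>
      have := lip h
      rw [SimpleGraph.Walk.length_cons]
      rw [abs_le] at *
      push_cast
      omega
  simpa [len, hp] using this _ _ p

theorem up (x : G) (h : |x.toAdd.1| ≤ 3) : len S x ≤ 3 := by
  have key : ∀ n ∈ Finset.Icc (-3 : ℤ) 3, ∀ k : ZMod 4, ∃ a ∈ insert 1 T, ∃ b ∈ insert 1 T,
      ∃ c ∈ insert 1 T, ofAdd (n, k) = 1 * a * b * c := by decide +kernel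
  obtain ⟨a, ha, b, hb, c, hc, e⟩ := key x.toAdd.1 (by simpa [abs_le] using h) x.toAdd.2
  have e' : x = 1 * a * b * c := e
  have h1 := len_step 1 a ha
  have h2 := len_step (1 * a) b hb
  have h3 := len_step (1 * a * b) c hc
  rw [len_one] at h1
  rw [e']; omega

def x0 : G := ofAdd (0, 2)

theorem len_x0 : len S x0 = 2 := by
  have h1 := len_step 1 (ofAdd (0, 1)) (by decide)
  have h2 := len_step (1 * ofAdd (0, 1)) (ofAdd (0, 1)) (by decide)
  have e : x0 = 1 * ofAdd (0, 1) * ofAdd (0, 1) := by decide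
  rw [len_one] at h1
  rw [← e] at h2
  have h3 : len S x0 ≠ 0 := fun h => absurd (conn.dist_eq_zero_iff.1 h) (by decide)
  have h4 : len S x0 ≠ 1 := fun h =>
    absurd ((adj_iff _ _).1 (SimpleGraph.dist_eq_one_iff_adj.1 h)) (by decide)
  omega

theorem sinf_one : SInf S 1 := by
  have : ∀ i : ℕ, len S (ofAdd ((i : ℤ), 0)) = i := by
    intro i
    refine le_antisymm ?_ (by simpa using low (ofAdd ((i : ℤ), 0)))
    induction i with
    | zero => exact len_one.le
    | succ i ih =>
      have := len_step (ofAdd ((i : ℤ), 0)) (ofAdd (1, 0)) (by decide)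
      rw [← ofAdd_add] at this
      simp only [Prod.mk_add_mk, add_zero] at this
      push_cast
      omega
  refine ⟨fun i => ofAdd ((i : ℤ), 0), rfl, fun i => ⟨(adj_iff _ _).2 ?_, by
    rw [this, this]; omega⟩⟩
  rw [← ofAdd_neg, ← ofAdd_add]
  simp [T]

theorem dead (y : G) (h0 : y.toAdd.1 = 0) (h1 : 1 ≤ len S y) : ¬ SInf S y := by
  rintro ⟨π, rfl, h⟩
  have a0 := h 0
  have a1 := h 1
  have a2 := h 2
  have b0 := lip a0.1
  have b1 := lip a1.1
  have b2 := lip a2.1
  have := up (π 3) (by simp only [abs_le, zero_add, Nat.reduceAdd] at *; omega)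
  simp only [zero_add, Nat.reduceAdd] at *
  omega

theorem main : (len S x0 + 1) / 2 < sd S x0 := by
  have hne : {k : ℕ | ∃ y : G, len S y + k = len S x0 ∧ SInf S y ∧
      ∃ p : (cay S).Walk 1 x0, p.length = len S x0 ∧ y ∈ p.support}.Nonempty := by
    obtain ⟨p, hp⟩ := conn.exists_walk_length_eq_dist 1 x0
    exact ⟨len S x0, 1, by simp [len_one], sinf_one, p, hp, p.start_mem_support⟩
  obtain ⟨y, h1, h2, p, hp, hy⟩ := Nat.sInf_mem hne
  by_contra hc
  change len S y + sd S x0 = _ at h1
  rw [len_x0] at hc h1 hp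
  refine dead y ?_ (by omega) h2
  cases p with
  | cons h p =>
    cases p with
    | nil => simp at hp
    | cons h' p =>
      cases p with
      | cons _ p => simp at hp
      | nil =>
        rename_i m
        simp only [SimpleGraph.Walk.support_cons, SimpleGraph.Walk.support_nil, List.mem_cons,
          List.not_mem_nil, or_false] at hy
        rcases hy with rfl | rfl | rfl
        · rfl
        · have k : ∀ z ∈ T, z⁻¹ * x0 ∈ T → z.toAdd.1 = 0 := by decide
          have k1 := (adj_iff _ _).1 h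
          rw [inv_one, one_mul] at k1
          exact k _ k1 ((adj_iff _ _).1 h')
        · rfl

end Pool.Agent.H70.Shadow
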