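import Mathlib

set_option autoImplicit false

namespace Pool.Agent.H70.ShadowDefs

variable {G : Type} [Group G]

/-- The Cayley graph of `(G, S)`. -/
def cay (S : Finset G) : SimpleGraph G := SimpleGraph.fromRel fun x y => x⁻¹ * y ∈ S

/-- Word length `|x| = d(e, x)`. -/
noncomputable def len (S : Finset G) (x : G) : ℕ := (cay S).dist 1 x

/-- There is a strictly increasing path to infinity from `y`. -/
def SInf (S : Finset G) (y : G) : Prop :=
  ∃ π : ℕ → G, π 0 = y ∧ ∀ i, (cay S).Adj (π i) (π (i + 1)) ∧ len S (π i) < len S (π (i + 1))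

/-- Depth of the shadow of `x`. -/
noncomputable def sd (S : Finset G) (x : G) : ℕ :=
  sInf {k : ℕ | ∃ y : G, len S y + k = len S x ∧ SInf S y ∧
    ∃ p : (cay S).Walk 1 x, p.length = len S x ∧ y ∈ p.support}

end Pool.Agent.H70.ShadowDefs
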