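import Pool.Agent.H70.SkewDefs

namespace Pool.Agent.H70.Skew

open Matrix hiding zpow_add zpow_add_one zpow_sub_one zpow_mul zpow_neg_one one_zpow zpow_neg

abbrev B : Type := Matrix (Fin 3) (Fin 3) (ZMod 2)

def A : Subring B where
  carrier := {M | M 1 0 = 0 ∧ M 2 0 = 0 ∧ M 1 2 = 0 ∧ M 2 1 = 0}
  one_mem' := by decide
  zero_mem' := by decide
  mul_mem' {M N} h h' := by
    obtain ⟨h1, h2, h3, h4⟩ := h
    obtain ⟨k1, k2, k3, k4⟩ := h'
    simp [mul_apply, Fin.sum_univ_three, *]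
  add_mem' {M N} h h' := by
    obtain ⟨h1, h2, h3, h4⟩ := h
    obtain ⟨k1, k2, k3, k4⟩ := h'
    simp [*]
  neg_mem' {M} h := by
    obtain ⟨h1, h2, h3, h4⟩ := h
    simp [*]

theorem memA {M : B} : M ∈ A ↔ M 1 0 = 0 ∧ M 2 0 = 0 ∧ M 1 2 = 0 ∧ M 2 1 = 0 := Iff.rfl

instance (M : B) : Decidable (M ∈ A) := decidable_of_iff _ memA.symm

def s0 : B := !![1, 0, 0; 0, 0, 1; 0, 1, 0]

def σ : Bˣ := ⟨s0, s0, by decide, by decide⟩

theorem conj_mem {M : B} (h : M ∈ A) : s0 * M * s0 ∈ A := by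
  obtain ⟨h1, h2, h3, h4⟩ := h
  simp [memA, s0, mul_apply, Fin.sum_univ_three, vecMul, dotProduct, *]

theorem ss : s0 * s0 = 1 := by decide

def φ : RingAut A where
  toFun M := ⟨s0 * M * s0, conj_mem M.2⟩
  invFun M := ⟨s0 * M * s0, conj_mem M.2⟩
  left_inv M := Subtype.ext (by simp [← mul_assoc, ss]; simp [mul_assoc, ss])
  right_inv M := Subtype.ext (by simp [← mul_assoc, ss]; simp [mul_assoc, ss])
  map_mul' M N := Subtype.ext (by
    simp only [Subring.coe_mul, mul_assoc]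
    rw [← mul_assoc s0 s0, ss, one_mul])
  map_add' M N := Subtype.ext (by simp [mul_add, add_mul])

theorem φ_zpow (i : ℤ) (M : A) : ((φ ^ i) M : B) = ↑(σ ^ i) * M * ↑(σ ^ (-i)) := by
  induction i using Int.induction_on generalizing M with
  | zero => simp
  | succ n ih =>
    rw [zpow_add_one, RingAut.mul_apply, ih, zpow_add_one, neg_add_rev, zpow_add, zpow_neg_one]
    have h1 : ((φ M : A) : B) = ↑σ * M * ↑σ⁻¹ := rfl
    simp only [Units.val_mul, mul_assoc, h1]
  | pred n ih =>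
    rw [zpow_sub_one, RingAut.mul_apply, ih, zpow_sub_one, neg_sub, sub_eq_add_neg, zpow_add, zpow_one]
    have h1 : ((φ⁻¹ M : A) : B) = ↑σ⁻¹ * M * ↑σ := rfl
    simp only [Units.val_mul, mul_assoc, h1]

theorem zconj (i : ℤ) {M : B} (h : M ∈ A) : ↑(σ ^ i) * M * ↑(σ ^ (-i)) ∈ A :=
  φ_zpow i ⟨M, h⟩ ▸ ((φ ^ i) ⟨M, h⟩).2

theorem split (i n : ℤ) (M N : B) : M * N * ↑(σ ^ (-n)) =
    M * ↑(σ ^ (-i)) * (↑(σ ^ i) * (N * ↑(σ ^ (-(n - i)))) * ↑(σ ^ (-i))) := by
  simp only [mul_assoc, ← Units.val_mul, ← zpow_add]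
  rw [← mul_assoc (↑(σ ^ (-i)) : B), ← Units.val_mul, ← zpow_add, neg_add_cancel, zpow_zero,
    Units.val_one, one_mul]
  congr 4
  ring

theorem c1 (i : ℤ) (M : B) : M * ↑(σ ^ i) * ↑(σ ^ (-i)) = M := by
  rw [zpow_neg, Units.mul_inv_cancel_right]

theorem c2 (i : ℤ) (M : B) : M * ↑(σ ^ (-i)) * ↑(σ ^ i) = M := by
  rw [zpow_neg, Units.inv_mul_cancel_right]

def R : Subring (HahnSeries ℤ B) where
  carrier := {f | ∀ i, f.coeff i * ↑(σ ^ (-i)) ∈ A}
  one_mem' i := by
    rw [HahnSeries.coeff_one]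
    split_ifs with h <;> simp [h]
  zero_mem' i := by simp
  add_mem' h h' i := by simpa [add_mul] using add_mem (h i) (h' i)
  neg_mem' h i := by simpa using h i
  mul_mem' {f g} h h' n := by
    rw [HahnSeries.coeff_mul, Finset.sum_mul]
    refine sum_mem fun ⟨i, j⟩ hij => ?_
    obtain rfl : j = n - i := by have := (Finset.mem_antidiagonal.1 hij).2.2; simp at this; omega
    rw [split i]
    exact mul_mem (h i) (zconj i (h' _))

noncomputable def e : R ≃+ HahnSeries ℤ A where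
  toFun f := ⟨fun i => ⟨_, f.2 i⟩, f.1.isPWO_support.mono fun i hi h => hi (Subtype.ext (by
    simp [h]))⟩
  invFun g := ⟨⟨fun i => g.coeff i * ↑(σ ^ i), g.isPWO_support.mono fun i hi h => hi (by
    simp [h])⟩, fun i => by rw [c1]; exact (g.coeff i).2⟩
  left_inv f := by ext i : 3; exact c2 _ _
  right_inv g := by ext i : 3; exact c1 _ _
  map_add' f g := by ext i : 3; simp [add_mul]

theorem e_coeff (f : R) (i : ℤ) : ((e f).coeff i : B) = f.1.coeff i * ↑(σ ^ (-i)) := rfl

theorem skew : IsSkewLaurent φ e := fun f g n => by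
  have hs : Function.support (fun i => (e f).coeff i * (φ ^ i) ((e g).coeff (n - i))) ⊆
      ((Finset.antidiagonal f.1.isPWO_support g.1.isPWO_support n).image Prod.fst : Finset ℤ) := by
    intro i hi
    refine Finset.mem_coe.2 (Finset.mem_image.2 ⟨(i, n - i), Finset.mem_antidiagonal.2
      ⟨fun h => hi ?_, fun h => hi ?_, by simp⟩, rfl⟩)
    · exact Subtype.ext (by simp [e_coeff, show f.1.coeff i = 0 from h])
    · exact Subtype.ext (by simp [e_coeff, φ_zpow, show g.1.coeff (n - i) = 0 from h])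
  rw [finsum_eq_sum_of_support_subset _ hs, Finset.sum_image fun x hx y hy h => by
    have h1 := (Finset.mem_antidiagonal.1 hx).2.2
    have h2 := (Finset.mem_antidiagonal.1 hy).2.2
    exact Prod.ext h (by omega)]
  apply Subtype.ext
  rw [e_coeff, Subring.coe_mul, HahnSeries.coeff_mul, Finset.sum_mul, AddSubmonoidClass.coe_finset_sum]
  refine Finset.sum_congr rfl fun ⟨i, j⟩ hij => ?_
  obtain rfl : j = n - i := by have := (Finset.mem_antidiagonal.1 hij).2.2; simp at this; omega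
  rw [split i, Subring.coe_mul, φ_zpow, e_coeff, e_coeff]

/-- matrices vanishing on a set of rows -/
def Row (P : Fin 3 → Prop) : Submodule Aᵐᵒᵖ A where
  carrier := {M | ∀ r, P r → ∀ c, M.1 r c = 0}
  zero_mem' _ _ _ := rfl
  add_mem' h h' r hr c := by simp [h r hr c, h' r hr c]
  smul_mem' N M h r hr c := by simp [mul_apply, h r hr]

def dg (c : Fin 3) : A := ⟨single c c 1, by revert c; decide⟩

theorem sum_dg : ∑ c, dg c = 1 := by decide

theorem semiA : RightSemidistributive A := by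
  refine ⟨Fin 3, fun i => Row (· ≠ i), fun i => ?_, ?_, fun i F G H _ hG hH => ?_⟩
  · refine Disjoint.mono_right (c := Row (· = i)) (iSup₂_le fun j hj M hM r hr => hM r (hr ▸ hj.symm))
      (Submodule.disjoint_def.2 fun M h h' => Subtype.ext (Matrix.ext fun r c => ?_))
    by_cases hr : r = i
    exacts [h' r hr c, h r hr c]
  · refine top_unique fun M _ => ?_
    rw [← one_mul M, ← sum_dg, Finset.sum_mul]
    refine sum_mem fun c _ => Submodule.mem_iSup_of_mem c fun r hr c' => ?_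
    simp [dg, single_mul_apply_of_ne, hr]
  · refine le_antisymm (fun x ⟨hx, hx'⟩ => ?_) le_inf_sup
    obtain ⟨g, hg, h, hh, rfl⟩ := Submodule.mem_sup.1 hx'
    have key : ∀ (M : A) c, M ∈ Row (· ≠ i) → M.1 i c = 0 → M * dg c = 0 := fun M c hM h0 =>
      Subtype.ext (Matrix.ext fun r c' => by
        by_cases hc : c' = c
        · by_cases hr : r = i
          · simp [dg, hc, hr, h0]
          · simp [dg, hc, hM r hr]
        · simp [dg, hc])
    rw [← mul_one (g + h), ← sum_dg, Finset.mul_sum]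
    refine sum_mem fun c _ => ?_
    have h1 : (g + h) * dg c ∈ F := F.smul_mem (.op (dg c)) hx
    by_cases k1 : g.1 i c = 0
    · refine Submodule.mem_sup_right ⟨h1, ?_⟩
      rw [add_mul, key g c (hG hg) k1, zero_add]
      exact H.smul_mem (.op (dg c)) hh
    by_cases k2 : h.1 i c = 0
    · refine Submodule.mem_sup_left ⟨h1, ?_⟩
      rw [add_mul, key h c (hH hh) k2, add_zero]
      exact G.smul_mem (.op (dg c)) hg
    · rw [key _ c (add_mem (hG hg) (hH hh)) (by
        change g.1 i c + h.1 i c = 0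
        revert k1 k2
        generalize g.1 i c = a, h.1 i c = b
        revert a b
        decide)]
      exact zero_mem _

def E : B := single 0 1 1

theorem col0 {f : HahnSeries ℤ B} (h : f ∈ R) (i : ℤ) : f.coeff i 1 0 = 0 ∧ f.coeff i 2 0 = 0 := by
  have h1 := h i
  have h2 : σ ^ (-i) = 1 ∨ σ ^ (-i) = σ := by
    have : σ ^ (2 : ℤ) = 1 := by decide
    rcases Int.even_or_odd (-i) with ⟨k, hk⟩ | ⟨k, hk⟩
    · left; rw [hk, ← two_mul, zpow_mul, this, one_zpow]
    · right; rw [hk, zpow_add, zpow_mul, this, one_zpow, one_mul, zpow_one]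
  rcases h2 with h2 | h2 <;> rw [h2] at h1
  · simpa using And.intro h1.1 h1.2.1
  · simpa [σ, s0, mul_apply, Fin.sum_univ_three] using And.intro h1.1 h1.2.1

theorem cancel {d : HahnSeries ℤ B} (hd : d ∈ R) {i : ℤ} (hi : d.coeff i 0 0 ≠ 0)
    {j : HahnSeries ℤ B} (hj : ∀ n, ∃ M, j.coeff n = E * M) (h : d * j = 0) : j = 0 := by
  by_contra h0
  let p := d.map (⟨fun M => M 0 0 • (1 : B), by simp⟩ : ZeroHom B B)
  have h1 : (d - p) * j = 0 := by
    ext n : 2
    rw [HahnSeries.coeff_mul]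
    refine Finset.sum_eq_zero fun ⟨a, b⟩ _ => ?_
    obtain ⟨M, hM⟩ := hj b
    have := col0 hd a
    rw [hM, ← mul_assoc]
    convert zero_mul M
    ext r c
    fin_cases r <;> fin_cases c <;> simp [p, E, mul_apply, Fin.sum_univ_three, this]
  rw [sub_mul, h, zero_sub, neg_eq_zero] at h1
  have hp : p ≠ 0 := fun e => hi (by simpa [p] using congrArg (fun f => f.coeff i 0 0) e)
  have h2 := HahnSeries.coeff_mul_order_add_order p j
  have h3 := HahnSeries.leadingCoeff_ne_zero.2 hp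
  have h4 := HahnSeries.leadingCoeff_ne_zero.2 h0
  rw [HahnSeries.leadingCoeff_eq] at h3
  rw [h1, HahnSeries.leadingCoeff_eq (x := p)] at h2
  change d.coeff p.order 0 0 • (1 : B) ≠ 0 at h3
  change 0 = d.coeff p.order 0 0 • (1 : B) * _ at h2
  rw [smul_mul_assoc, one_mul, eq_comm, smul_eq_zero] at h2
  exact h2.elim (fun e => h3 (by rw [e, zero_smul])) h4

theorem par {M N : B} {n : ℤ} (hM : M * ↑(σ ^ (-n)) ∈ A) (hN : N * ↑(σ ^ (-(n - 1))) ∈ A)
    (h : E * M = E * N) : E * M = 0 := by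
  have h1 : N * ↑(σ ^ (-(n - 1))) = N * ↑(σ ^ (-n)) * s0 := by
    rw [neg_sub, sub_eq_neg_add, zpow_add, zpow_one, Units.val_mul, mul_assoc]
    rfl
  rw [h1] at hN
  have h2 : E * (M * ↑(σ ^ (-n))) = E * (N * ↑(σ ^ (-n))) := by rw [← mul_assoc, h, mul_assoc]
  rw [← (σ ^ (-n)).mul_left_inj, zero_mul, mul_assoc]
  generalize M * ↑(σ ^ (-n)) = X at *
  generalize N * ↑(σ ^ (-n)) = Y at *
  have h3 := congrFun (congrFun h2 0) 1
  have h4 := hN.2.2.1
  simp [E, s0, mul_apply, Fin.sum_univ_three] at h3 h4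
  ext r c
  fin_cases r <;> fin_cases c <;> simp [E, mul_apply, Fin.sum_univ_three, hM.1, hM.2.2.1, h3, h4]

theorem alg {S : Type} [Ring S] {d a b r r' r'' : S} (h : d * (a + b) * r = d * a * r' + d * b * r'') :
    d * (a * (r - r') - b * (r'' - r)) = 0 := by
  rw [← sub_eq_zero.2 h]; noncomm_ring

theorem notR : ¬ RightSemidistributive R := by
  rintro ⟨ι, D, -, h2, h3⟩
  obtain ⟨k, d, hd, i, hi⟩ : ∃ k, ∃ d ∈ D k, ∃ i, d.1.coeff i 0 0 ≠ 0 := by
    by_contra hc
    push Not at hc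
    have : ∀ x ∈ iSup D, ∀ i, (x : R).1.coeff i 0 0 = 0 := fun x hx => by
      induction hx using Submodule.iSup_induction' with
      | mem k x hx => exact hc k x hx
      | zero => simp
      | add x y _ _ hx hy => intro i; simp [hx, hy]
    simpa using this 1 (h2 ▸ trivial) 0
  have ha : HahnSeries.single (0 : ℤ) E ∈ R := fun i => by
    rw [HahnSeries.coeff_single]
    split_ifs with h
    · subst h; decide
    · simp
  have hb : HahnSeries.single (1 : ℤ) E ∈ R := fun i => by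
    rw [HahnSeries.coeff_single]
    split_ifs with h
    · subst h; decide
    · simp
  let a : R := ⟨_, ha⟩
  let b : R := ⟨_, hb⟩
  have le : ∀ x : R, Submodule.span Rᵐᵒᵖ {d * x} ≤ D k := fun x =>
    (Submodule.span_singleton_le_iff_mem _ _).2 ((D k).smul_mem (.op x) hd)
  have h4 := h3 k _ _ _ (le (a + b)) (le a) (le b)
  have ca : ∀ (r : R) n, (a * r).1.coeff n = E * r.1.coeff n := fun r n =>
    HahnSeries.coeff_single_zero_mul
  have cb : ∀ (r : R) n, (b * r).1.coeff n = E * r.1.coeff (n - 1) := fun r n =>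
    HahnSeries.coeff_single_mul
  clear_value a b
  have key : ∀ (r r' r'' : R), d * (a + b) * r = d * a * r' + d * b * r'' → ∀ n,
      E * (r - r').1.coeff n = E * (r'' - r).1.coeff (n - 1) := fun r r' r'' h n => by
    have h6 := alg h
    generalize r - r' = u at h6 ⊢
    generalize r'' - r = v at h6 ⊢
    have h7 : ∀ n, (a * u - b * v).1.coeff n = E * u.1.coeff n - E * v.1.coeff (n - 1) := fun n => by
      rw [AddSubgroupClass.coe_sub, HahnSeries.coeff_sub, ca, cb]
    have h5 : (a * u - b * v).1 = 0 := cancel d.2 hi (fun n => ⟨u.1.coeff n - v.1.coeff (n - 1), by rw [h7, mul_sub]⟩)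
      (by rw [← Subring.coe_mul, h6, Subring.coe_zero])
    rw [← sub_eq_zero, ← h7, h5, HahnSeries.coeff_zero]
  have fin : ∀ r : R, (∀ n, E * r.1.coeff n = 0) → d * (a + b) * r = 0 := fun r h => by
    rw [mul_assoc, show (a + b) * r = 0 from Subtype.ext (by
      ext n : 2
      rw [add_mul, Subring.coe_add, HahnSeries.coeff_add, ca, cb, h, h, add_zero]
      rfl), mul_zero]
  have h5 : Submodule.span Rᵐᵒᵖ {d * (a + b)} ⊓ Submodule.span Rᵐᵒᵖ {d * a} = ⊥ :=
    Submodule.eq_bot_iff _ |>.2 fun x ⟨hx, hx'⟩ => by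
      obtain ⟨r, rfl⟩ := Submodule.mem_span_singleton.1 hx
      obtain ⟨r', hr⟩ := Submodule.mem_span_singleton.1 hx'
      refine fin r.unop fun n => ?_
      have h6 := key r.unop r'.unop 0 (by simpa using hr.symm) (n + 1)
      have h7 := par ((r.unop - r'.unop).2 _) ((0 - r.unop).2 _) h6
      simpa [h7] using h6.symm.trans h7
  have h6 : Submodule.span Rᵐᵒᵖ {d * (a + b)} ⊓ Submodule.span Rᵐᵒᵖ {d * b} = ⊥ :=
    Submodule.eq_bot_iff _ |>.2 fun x ⟨hx, hx'⟩ => by
      obtain ⟨r, rfl⟩ := Submodule.mem_span_singleton.1 hx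
      obtain ⟨r', hr⟩ := Submodule.mem_span_singleton.1 hx'
      refine fin r.unop fun n => ?_
      have h6 := key r.unop 0 r'.unop (by simpa using hr.symm) n
      simpa using par ((r.unop - 0).2 _) ((r'.unop - r.unop).2 _) h6
  rw [h5, h6, sup_idem, Submodule.eq_bot_iff] at h4
  have h7 := h4 (d * (a + b)) ⟨Submodule.mem_span_singleton_self _, by
    rw [mul_add]
    exact Submodule.add_mem_sup (Submodule.mem_span_singleton_self _)
      (Submodule.mem_span_singleton_self _)⟩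
  have h8 := key 1 0 0 (by simp [h7]) 0
  simp at h8
  exact absurd h8 (by decide)

end Pool.Agent.H70.Skew
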