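import Mathlib

/-! Right semidistributive rings and skew Laurent series rings. -/

namespace Pool.Agent.H70.Skew

/-- The right ideal `D`, as a right module, has a distributive lattice of submodules. -/
def Dist {R : Type} [Ring R] (D : Submodule Rᵐᵒᵖ R) : Prop :=
  ∀ F G H : Submodule Rᵐᵒᵖ R, F ≤ D → G ≤ D → H ≤ D → F ⊓ (G ⊔ H) = F ⊓ G ⊔ F ⊓ H

/-- The right regular module is a direct sum of distributive submodules. -/
def RightSemidistributive (R : Type) [Ring R] : Prop :=
  ∃ (ι : Type) (D : ι → Submodule Rᵐᵒᵖ R), iSupIndep D ∧ iSup D = ⊤ ∧ ∀ i, Dist (D i)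

/-- `e` identifies the ring `R` additively with the formal Laurent series over `A`, and the
product of `R` is the one of `A((x, φ))`, where `x a = φ(a) x`. -/
def IsSkewLaurent {A R : Type} [Ring A] [Ring R] (φ : RingAut A) (e : R ≃+ HahnSeries ℤ A) : Prop :=
  ∀ (f g : R) (n : ℤ),
    (e (f * g)).coeff n = ∑ᶠ i : ℤ, (e f).coeff i * (φ ^ i) ((e g).coeff (n - i))

end Pool.Agent.H70.Skew
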