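import Mathlib

set_option autoImplicit false

namespace Pool.Agent.H70.SplitDefs

variable {Γ : Type} [Group Γ] {S R : Type}

/-- The group element `γ` in the real group algebra. -/
noncomputable def el (γ : Γ) : MonoidAlgebra ℝ Γ := MonoidAlgebra.single γ 1

/-- The adjoint of a matrix over the real group algebra: transpose, and apply
`∑ a_γ γ ↦ ∑ a_γ γ⁻¹` to every entry. -/
noncomputable def adj {m n : Type} (a : Matrix m n (MonoidAlgebra ℝ Γ)) :
    Matrix n m (MonoidAlgebra ℝ Γ) :=
  fun i j => MonoidAlgebra.mapDomain (fun γ : Γ => γ⁻¹) (a j i)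

/-- Fox derivative with respect to the generator `s` of a word (a letter `(x, true)` is `x`,
a letter `(x, false)` is `x⁻¹`), evaluated in the group algebra through `g : S → Γ`. -/
noncomputable def fox [DecidableEq S] (g : S → Γ) (s : S) : List (S × Bool) → MonoidAlgebra ℝ Γ
  | [] => 0
  | (x, true) :: w => (if x = s then 1 else 0) + el (g x) * fox g s w
  | (x, false) :: w => (if x = s then -el (g x)⁻¹ else 0) + el (g x)⁻¹ * fox g s w

/-- `d₀` of a presentation complex: the column with entries `1 - s`. -/
noncomputable def d0 (g : S → Γ) : Matrix S Unit (MonoidAlgebra ℝ Γ) := fun s _ => 1 - el (g s)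

/-- `d₁` of a presentation complex: the matrix of Fox derivatives of the relators. -/
noncomputable def d1 [DecidableEq S] (g : S → Γ) (rel : R → List (S × Bool)) :
    Matrix R S (MonoidAlgebra ℝ Γ) := fun r s => fox g s (rel r)

/-- The standard generators `s, t` of `ℤ²`. -/
def gens : Fin 2 → Multiplicative (ℤ × ℤ) :=
  ![Multiplicative.ofAdd (1, 0), Multiplicative.ofAdd (0, 1)]

/-- The single relator `s t s⁻¹ t⁻¹`. -/
def rels : Unit → List (Fin 2 × Bool) := fun _ => [(0, true), (1, true), (0, false), (1, false)]

end Pool.Agent.H70.SplitDefs
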