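import Mathlib

namespace Pool.Agent.H70.Sq1
open Subgroup Finset

variable {H : Type*} [Group H]

lemma no_sqrt {p : ℕ} (hp : p.Prime) (h3 : p % 4 = 3) {x : H} (hx : orderOf x = p) (a : ℤ)
    (h : (x ^ a) ^ a = x⁻¹) : False := by
  haveI := Fact.mk hp
  have h1 : x ^ (a * a + 1) = 1 := by rw [zpow_add, zpow_mul, h]; simp
  have h2 := orderOf_dvd_iff_zpow_eq_one.mpr h1
  rw [hx] at h2
  have h4 : ((a * a + 1 : ℤ) : ZMod p) = 0 := (ZMod.intCast_zmod_eq_zero_iff_dvd _ _).mpr h2
  have h5 : (a : ZMod p) ^ 2 = -1 := by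
    push_cast at h4
    linear_combination h4
  exact ZMod.mod_four_ne_three_of_sq_eq_neg_one h5 h3

lemma gen_eq {p : ℕ} (hp : p.Prime) {P : Subgroup H} (hP : Nat.card P = p) {y : H} (hy : y ∈ P)
    (h1 : y ≠ 1) : zpowers y = P := by
  haveI := Fact.mk hp
  apply le_antisymm (zpowers_le_of_mem hy)
  intro z hz
  have : (⟨z, hz⟩ : P) ∈ zpowers (⟨y, hy⟩ : P) :=
    mem_zpowers_of_prime_card hP (fun h => h1 (congrArg Subtype.val h))
  obtain ⟨k, hk⟩ := mem_zpowers_iff.mp this
  exact mem_zpowers_iff.mpr ⟨k, by simpa using congrArg Subtype.val hk⟩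

lemma mem_norm {p : ℕ} (hp : p.Prime) {P : Subgroup H} (hP : Nat.card P = p) {y g : H}
    (hy : y ∈ P) (h1 : y ≠ 1) (hg : g * y * g⁻¹ ∈ P) : g ∈ normalizer (P : Set H) := by
  rw [mem_normalizer_iff_map_conj_eq]
  have h2 : g * y * g⁻¹ ≠ 1 := by
    intro h; apply h1
    have : y = g⁻¹ * (g * y * g⁻¹) * g := by group
    rw [this, h]; simp
  conv_lhs => rw [← gen_eq hp hP hy h1]
  rw [MonoidHom.map_zpowers]
  exact gen_eq hp hP hg h2

lemma card_filter_mem [Fintype H] (P : Subgroup H) [DecidablePred (· ∈ P)] :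
    (univ.filter (· ∈ P)).card = Nat.card P := by
  rw [Nat.card_eq_fintype_card, Fintype.card_subtype]

theorem case1 [Finite H] {p c : ℕ} (hp : p.Prime) (h3 : p % 4 = 3) (hc : 8 * c ^ 2 < p)
    (hH : Nat.card H < c * p ^ 2) (x t : H) (hx : orderOf x = p) (ht4 : t ^ 2 * t ^ 2 = 1)
    (hinv : t ^ 2 * x * (t ^ 2)⁻¹ = x⁻¹) (hd : ¬ p ^ 2 ∣ Nat.card H) : False := by
  classical
  haveI := Fact.mk hp
  haveI := Fintype.ofFinite H
  set r := t ^ 2 with hr
  set P : Subgroup H := zpowers x with hPdef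
  have hP : Nat.card P = p := by rw [hPdef, Nat.card_zpowers, hx]
  have hx1 : x ≠ 1 := by
    intro h; rw [h, orderOf_one] at hx; exact hp.one_lt.ne hx
  have hfac : (Nat.card H).factorization p = 1 := by
    have h0 : Nat.card H ≠ 0 := Nat.card_pos.ne'
    have h1 : 1 ≤ (Nat.card H).factorization p :=
      (hp.pow_dvd_iff_le_factorization h0).mp (by simpa [hx] using orderOf_dvd_natCard x)
    have h2 : ¬ 2 ≤ (Nat.card H).factorization p :=
      fun h => hd ((hp.pow_dvd_iff_le_factorization h0).mpr h)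
    omega
  let Q : Sylow p H := Sylow.ofCard P (by rw [hfac, hP, pow_one])
  have hQ : (Q : Subgroup H) = P := rfl
  set N := normalizer (P : Set H) with hN
  have hK : ∀ y ∈ N, y ^ p = 1 → y ∈ P := by
    intro y hy hyp
    have h1 : IsPGroup p (zpowers y) := by
      rcases (Nat.dvd_prime hp).mp (orderOf_dvd_of_pow_eq_one hyp) with h | h
      · exact IsPGroup.of_card (n := 0) (by rw [Nat.card_zpowers, h]; simp)
      · exact IsPGroup.of_card (n := 1) (by rw [Nat.card_zpowers, h]; simp)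
    have h2 := h1.inf_normalizer_sylow Q
    have h4 : y ∈ zpowers y ⊓ normalizer (Q : Set H) := ⟨mem_zpowers y, hy⟩
    rw [h2] at h4
    exact h4.2
  have hpP : ∀ y ∈ P, y ^ p = 1 := by
    intro y hy
    have := pow_card_eq_one' (x := (⟨y, hy⟩ : P))
    rw [hP] at this
    simpa using congrArg Subtype.val this
  have hinvP : ∀ y ∈ P, r * y * r⁻¹ = y⁻¹ := by
    intro y hy
    obtain ⟨k, rfl⟩ := mem_zpowers_iff.mp hy
    rw [← conj_zpow, hinv, inv_zpow]
  have hodd : ∀ y ∈ P, y * y = 1 → y = 1 := by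
    intro y hy h
    have h1 : y ^ 2 = 1 := by rw [pow_two, h]
    have h2 : y ^ Nat.gcd 2 p = 1 := pow_gcd_eq_one.mpr ⟨h1, hpP y hy⟩
    have h4 : Nat.gcd 2 p = 1 := (Nat.coprime_primes Nat.prime_two hp).mpr (by omega)
    simpa [h4] using h2
  by_cases hnorm : ∀ h, h ∈ N
  · have h1 : t * x * t⁻¹ ∈ P := (mem_normalizer_iff.mp (hnorm t) x).mp (mem_zpowers x)
    obtain ⟨a, ha⟩ := mem_zpowers_iff.mp h1
    apply no_sqrt hp h3 hx a
    rw [← hinv, ha, conj_zpow, ha, hr, pow_two]; group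
  push Not at hnorm
  obtain ⟨h, hh⟩ := hnorm
  set Pf := univ.filter (· ∈ P) with hPf
  have hPc : Pf.card = p := by rw [hPf, card_filter_mem, hP]
  have hcard : (univ : Finset H).card = Nat.card H := by rw [Nat.card_eq_fintype_card]; rfl
  -- generic bound for subgroups of N meeting P trivially
  have hL : ∀ D : Subgroup H, (∀ y ∈ D, y ∈ P → y = 1) →
      p ^ 2 * (univ.filter (fun g => g ∈ D ∧ g ∈ N)).card ≤ Nat.card H := by
    intro D hD
    have := card_le_card_of_injOn (s := Pf ×ˢ (univ.filter (fun g => g ∈ D ∧ g ∈ N)) ×ˢ Pf)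
      (t := univ) (fun z => z.1 * z.2.1 * h * z.2.2) (fun _ _ => by simp) ?_
    · rw [card_product, card_product, hPc, hcard] at this
      nlinarith
    rintro ⟨y, g, z⟩ h1 ⟨y', g', z'⟩ h2 he
    simp only [hPf, coe_product, coe_filter, Set.mem_prod, Set.mem_setOf_eq, mem_univ,
      true_and] at h1 h2 he
    have e1 : h * (z * z'⁻¹) * h⁻¹ = (y * g)⁻¹ * (y' * g') := by
      have : y' * g' = y * g * h * z * z'⁻¹ * h⁻¹ := by rw [he]; group
      rw [this]; group
    have hz : z * z'⁻¹ ∈ P := P.mul_mem h1.2.2 (P.inv_mem h2.2.2)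
    have e2 : h * (z * z'⁻¹) * h⁻¹ ∈ N := by
      rw [e1]
      exact N.mul_mem (N.inv_mem (N.mul_mem (le_normalizer h1.1) h1.2.1.2))
        (N.mul_mem (le_normalizer h2.1) h2.2.1.2)
    have e3 := hK _ e2 (by rw [conj_pow, hpP _ hz]; simp)
    have e4 : z * z'⁻¹ = 1 := by
      by_contra hne
      exact hh (mem_norm hp hP hz hne e3)
    have e5 : z = z' := mul_inv_eq_one.mp e4
    subst e5
    have e6 : y * g = y' * g' := mul_right_cancel (mul_right_cancel he)
    have e7 : y'⁻¹ * y = g' * g⁻¹ := by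
      have : y = y' * g' * g⁻¹ := by rw [← e6]; group
      rw [this]; group
    have e8 := hD (g' * g⁻¹) (D.mul_mem h2.2.1.1 (D.inv_mem h1.2.1.1))
      (e7 ▸ P.mul_mem (P.inv_mem h2.1) h1.1)
    have e9 : g' = g := mul_inv_eq_one.mp e8
    subst e9
    rw [mul_right_cancel e6]
  set C := centralizer ({r} : Set H) with hC
  have hCm : ∀ g, g ∈ C ↔ g * r = r * g := fun g => mem_centralizer_singleton_iff
  have hC1 := hL C (fun y hy hyP => by
    apply hodd y hyP
    have h1 := hinvP y hyP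
    rw [← (hCm y).mp hy] at h1
    have : y = y⁻¹ := by rw [← h1]; group
    nth_rewrite 2 [this]; simp)
  have hC2 : p ^ 2 * (univ.filter (fun g => g ∈ C ∧ g ∉ N)).card ≤ Nat.card H := by
    have := card_le_card_of_injOn (s := Pf ×ˢ (univ.filter (fun g => g ∈ C ∧ g ∉ N)) ×ˢ Pf)
      (t := univ) (fun z => z.1 * z.2.1 * z.2.2) (fun _ _ => by simp) ?_
    · rw [card_product, card_product, hPc, hcard] at this
      nlinarith
    rintro ⟨y, g, z⟩ h1 ⟨y', g', z'⟩ h2 he
    simp only [hPf, coe_product, coe_filter, Set.mem_prod, Set.mem_setOf_eq, mem_univ,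
      true_and] at h1 h2 he
    have hu : y'⁻¹ * y ∈ P := P.mul_mem (P.inv_mem h2.1) h1.1
    have hv : z * z'⁻¹ ∈ P := P.mul_mem h1.2.2 (P.inv_mem h2.2.2)
    set u := y'⁻¹ * y with hu'
    set v := z * z'⁻¹ with hv'
    have e1 : g' = u * g * v := by
      have : g' = y'⁻¹ * (y' * g' * z') * z'⁻¹ := by group
      rw [this, ← he, hu', hv']; group
    have cg : r * g * r⁻¹ = g := by rw [← (hCm g).mp h1.2.1.1]; group
    have cg' : r * g' * r⁻¹ = g' := by rw [← (hCm g').mp h2.2.1.1]; group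
    have e2 : g' = u⁻¹ * g * v⁻¹ := by
      rw [← cg', e1, ← hinvP u hu, ← hinvP v hv]
      nth_rewrite 2 [← cg]
      group
    have e3 : g * (v * v) * g⁻¹ = (u * u)⁻¹ := by
      have : g * v = u⁻¹ * (u⁻¹ * g * v⁻¹) := by rw [← e2, e1]; group
      rw [← mul_assoc g, this]; group
    have e4 : v * v = 1 := by
      by_contra hne
      exact h1.2.1.2 (mem_norm hp hP (P.mul_mem hv hv) hne (e3 ▸ P.inv_mem (P.mul_mem hu hu)))
    have e5 : u * u = 1 := by
      rw [e4] at e3
      have : (u * u)⁻¹ = 1 := by rw [← e3]; simp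
      exact inv_eq_one.mp this
    have e6 := hodd u hu e5
    have e7 := hodd v hv e4
    rw [e6, e7, one_mul, mul_one] at e1
    have e8 : y' = y := by rw [hu'] at e6; exact inv_mul_eq_one.mp e6
    have e9 : z = z' := by rw [hv'] at e7; exact mul_inv_eq_one.mp e7
    rw [e1, e8, e9]
  set Cf := univ.filter (· ∈ C) with hCf
  have hCc : Cf.card ≤ 2 * c := by
    have h1 : Cf.card = (univ.filter (fun g => g ∈ C ∧ g ∈ N)).card +
        (univ.filter (fun g => g ∈ C ∧ g ∉ N)).card := by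
      rw [← card_filter_add_card_filter_not (s := Cf) (fun g => g ∈ N), hCf, filter_filter,
        filter_filter]
    have h2 : (univ.filter (fun g => g ∈ C ∧ g ∈ N)).card ≤ c := by
      by_contra hlt
      push Not at hlt
      have := Nat.mul_le_mul_left (p ^ 2) hlt.le
      nlinarith
    have h4 : (univ.filter (fun g => g ∈ C ∧ g ∉ N)).card ≤ c := by
      by_contra hlt
      push Not at hlt
      have := Nat.mul_le_mul_left (p ^ 2) hlt.le
      nlinarith
    omega
  set R := (univ : Finset H).image (fun a => a * r * a⁻¹) with hR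
  have hR1 : Nat.card H ≤ Cf.card * R.card := by
    rw [← hcard]
    apply card_le_mul_card_image
    intro y hy
    obtain ⟨a, -, rfl⟩ := mem_image.mp hy
    apply card_le_card_of_injOn (fun b => a⁻¹ * b)
    · intro b hb
      simp only [coe_filter, mem_univ, true_and, Set.mem_setOf_eq] at hb
      simp only [hCf, coe_filter, mem_univ, true_and, Set.mem_setOf_eq, hCm]
      have : b * r = a * r * a⁻¹ * b := by rw [← hb]; group
      rw [mul_assoc, this]; group
    · intro b _ b' _ he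
      exact mul_left_cancel he
  have hRi : ∀ y ∈ R, y * y = 1 := by
    intro y hy
    obtain ⟨a, -, rfl⟩ := mem_image.mp hy
    have : a * r * a⁻¹ * (a * r * a⁻¹) = a * (r * r) * a⁻¹ := by group
    rw [this, ht4]; simp
  set cc : H → ℕ := fun g => (univ.filter (fun y => y * g = g * y)).card with hcc
  have hR2 : R.card ^ 2 ≤ ∑ g : H, cc g := by
    rw [pow_two, ← card_product,
      card_eq_sum_card_fiberwise (f := fun z : H × H => z.1 * z.2) (t := univ) (fun _ _ => by simp)]
    apply sum_le_sum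
    intro g _
    rcases ((R ×ˢ R).filter (fun z : H × H => z.1 * z.2 = g)).eq_empty_or_nonempty with he | ⟨z0, hz0⟩
    · rw [he]; simp
    have key : ∀ z ∈ (R ×ˢ R).filter (fun z : H × H => z.1 * z.2 = g), z.1 * g = g⁻¹ * z.1 := by
      intro z hz
      simp only [mem_filter, mem_product] at hz
      have a1 := hRi _ hz.1.1
      have a2 := hRi _ hz.1.2
      have b1 : z.1⁻¹ = z.1 := inv_eq_of_mul_eq_one_right a1
      have b2 : z.2⁻¹ = z.2 := inv_eq_of_mul_eq_one_right a2
      rw [← hz.2, mul_inv_rev, b1, b2, ← mul_assoc, a1, mul_assoc, a1]; simp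
    apply card_le_card_of_injOn (fun z => z0.1 * z.1)
    · intro z hz
      simp only [coe_filter, mem_univ, true_and, Set.mem_setOf_eq]
      have k1 := key z (by simpa using hz)
      have k2 := key z0 hz0
      have k3 : z0.1 * g⁻¹ = g * z0.1 := by
        have : z0.1 = g * (z0.1 * g) := by rw [k2]; group
        calc z0.1 * g⁻¹ = g * (g⁻¹ * z0.1) * g⁻¹ := by group
          _ = g * z0.1 := by rw [← k2]; group
      rw [mul_assoc, k1, ← mul_assoc, k3, mul_assoc]
    · intro z hz z' hz' he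
      simp only [coe_filter, Set.mem_setOf_eq] at hz hz'
      have a1 : z.1 = z'.1 := mul_left_cancel he
      have a2 : z.2 = z'.2 := by
        have := hz.2.trans hz'.2.symm
        rw [a1] at this
        exact mul_left_cancel this
      exact Prod.ext a1 a2
  set O := centralizer (Set.range fun a : H => a * x * a⁻¹) with hO
  have hOm : ∀ g, g ∈ O ↔ ∀ a : H, a * x * a⁻¹ * g = g * (a * x * a⁻¹) := by
    intro g; simp [hO, mem_centralizer_iff]
  have hcN : ∀ y, x * y = y * x → y ∈ N := by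
    intro y hy
    apply mem_norm hp hP (mem_zpowers x) hx1
    rw [← hy, mul_inv_cancel_right]; exact mem_zpowers x
  have hO1 := hL O (fun y hy hyP => by
    by_contra hne
    apply hh
    apply mem_norm hp hP hyP hne
    apply hK _ _ (by rw [conj_pow, hpP _ hyP]; simp)
    apply hcN
    have := (hOm y).mp hy h⁻¹
    calc x * (h * y * h⁻¹) = h * (h⁻¹ * x * h⁻¹⁻¹ * y) * h⁻¹ := by group
      _ = _ := by rw [this]; group)
  have hON : (univ.filter (fun g => g ∈ O ∧ g ∈ N)) = univ.filter (fun g => g ∈ O) := by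
    apply filter_congr
    intro g _
    refine ⟨fun h => h.1, fun h => ⟨h, hcN g ?_⟩⟩
    simpa using (hOm g).mp h 1
  rw [hON] at hO1
  have hb1 : ∀ g, cc g ≤ Nat.card H := fun g => hcard ▸ card_le_card (filter_subset _ _)
  have hb2 : ∀ g, g ∉ O → p * cc g ≤ Nat.card H := by
    intro g hg
    rw [hOm] at hg
    push Not at hg
    obtain ⟨a, ha⟩ := hg
    have := card_le_card_of_injOn (s := Pf ×ˢ (univ.filter (fun y => y * g = g * y)))
      (t := univ) (fun z => a * z.1 * a⁻¹ * z.2) (fun _ _ => by simp) ?_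
    · rwa [card_product, hPc, hcard] at this
    rintro ⟨y, k⟩ h1 ⟨y', k'⟩ h2 he
    simp only [hPf, coe_product, coe_filter, Set.mem_prod, Set.mem_setOf_eq, mem_univ,
      true_and] at h1 h2 he
    have hu : y'⁻¹ * y ∈ P := P.mul_mem (P.inv_mem h2.1) h1.1
    have e1 : a * (y'⁻¹ * y) * a⁻¹ = k' * k⁻¹ := by
      have : k' = (a * y' * a⁻¹)⁻¹ * (a * y * a⁻¹ * k) := by rw [he]; group
      rw [this]; group
    have e2 : Commute (a * (y'⁻¹ * y) * a⁻¹) g := by
      rw [e1]
      exact (show Commute k' g from h2.2).mul_left (show Commute k g from h1.2).inv_left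
    have e3 : y'⁻¹ * y = 1 := by
      by_contra hne
      have : x ∈ zpowers (y'⁻¹ * y) := by rw [gen_eq hp hP hu hne]; exact mem_zpowers x
      obtain ⟨n, hn⟩ := mem_zpowers_iff.mp this
      apply ha
      have := e2.zpow_left n
      rwa [conj_zpow, hn] at this
    have e4 : y' = y := inv_mul_eq_one.mp e3
    subst e4
    rw [mul_left_cancel he]
  have hS : p ^ 2 * ∑ g : H, cc g ≤ (1 + p) * Nat.card H ^ 2 := by
    rw [← sum_filter_add_sum_filter_not univ (fun g => g ∈ O), mul_add]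
    have s1 : ∑ g ∈ univ.filter (fun g => g ∈ O), cc g ≤
        (univ.filter (fun g => g ∈ O)).card * Nat.card H := by
      simpa using sum_le_card_nsmul _ _ _ (fun g _ => hb1 g)
    have s2 : p * ∑ g ∈ univ.filter (fun g => g ∉ O), cc g ≤ Nat.card H * Nat.card H := by
      rw [mul_sum]
      have := sum_le_card_nsmul (univ.filter (fun g => g ∉ O)) (fun g => p * cc g) _
        (fun g hg => hb2 g (mem_filter.mp hg).2)
      rw [smul_eq_mul] at this
      exact this.trans (Nat.mul_le_mul_right _ (hcard ▸ card_le_card (filter_subset _ _)))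
    have s3 := Nat.mul_le_mul_left (p ^ 2) s1
    have s4 := Nat.mul_le_mul_right (Nat.card H) hO1
    have s5 := Nat.mul_le_mul_left p s2
    nlinarith
  have hpos : 0 < Nat.card H := Nat.card_pos
  have f1 : Nat.card H ≤ 2 * c * R.card := hR1.trans (Nat.mul_le_mul_right _ hCc)
  have f2 : Nat.card H ^ 2 ≤ 4 * c ^ 2 * ∑ g : H, cc g := by
    calc Nat.card H ^ 2 ≤ (2 * c * R.card) ^ 2 := Nat.pow_le_pow_left f1 2
      _ = 4 * c ^ 2 * R.card ^ 2 := by ring
      _ ≤ _ := Nat.mul_le_mul_left _ hR2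
  have f3 : p ^ 2 * Nat.card H ^ 2 ≤ 4 * c ^ 2 * (1 + p) * Nat.card H ^ 2 := by
    calc p ^ 2 * Nat.card H ^ 2 ≤ p ^ 2 * (4 * c ^ 2 * ∑ g : H, cc g) := Nat.mul_le_mul_left _ f2
      _ = 4 * c ^ 2 * (p ^ 2 * ∑ g : H, cc g) := by ring
      _ ≤ 4 * c ^ 2 * ((1 + p) * Nat.card H ^ 2) := Nat.mul_le_mul_left _ hS
      _ = _ := by ring
  have f4 : p ^ 2 ≤ 4 * c ^ 2 * (1 + p) := Nat.le_of_mul_le_mul_right f3 (by positivity)
  have := hp.one_lt
  nlinarith

theorem lemA [Finite H] {p c : ℕ} (hp : p.Prime) (h3 : p % 4 = 3) (hc : 8 * c ^ 2 < p)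
    (hH : Nat.card H < c * p ^ 2) (x t : H) (hx : orderOf x = p) (ht4 : t ^ 2 * t ^ 2 = 1)
    (hinv : t ^ 2 * x * (t ^ 2)⁻¹ = x⁻¹) :
    ∃ W : Subgroup H, W.Normal ∧ Nat.card W = p ^ 2 ∧ x ∈ W := by
  haveI := Fact.mk hp
  have hd : p ^ 2 ∣ Nat.card H := by
    by_contra hd
    exact case1 hp h3 hc hH x t hx ht4 hinv hd
  have hcp : c < p := by nlinarith
  have h0 : Nat.card H ≠ 0 := Nat.card_pos.ne'
  have hfac : (Nat.card H).factorization p = 2 := by
    have h1 := (hp.pow_dvd_iff_le_factorization h0).mp hd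
    have h2 : ¬ 3 ≤ (Nat.card H).factorization p := by
      intro h
      have := Nat.le_of_dvd Nat.card_pos ((hp.pow_dvd_iff_le_factorization h0).mpr h)
      have h4 : c * p ^ 2 ≤ p * p ^ 2 := Nat.mul_le_mul_right _ hcp.le
      have h5 : p * p ^ 2 = p ^ 3 := by ring
      omega
    omega
  have h1 : IsPGroup p (zpowers x) := IsPGroup.of_card (n := 1) (by rw [Nat.card_zpowers, hx]; simp)
  obtain ⟨Q, hQ⟩ := h1.exists_le_sylow
  have hQc : Nat.card Q = p ^ 2 := by rw [Q.card_eq_multiplicity, hfac]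
  refine ⟨Q, ?_, hQc, hQ (mem_zpowers x)⟩
  have h2 := Q.card_dvd_index
  have h4 := card_sylow_modEq_one p H
  have h5 : Nat.card Q * (Q : Subgroup H).index = Nat.card H := card_mul_index _
  rw [hQc] at h5
  have h6 : (Q : Subgroup H).index < p := by
    by_contra hle
    push Not at hle
    have := Nat.mul_le_mul_left (p ^ 2) hle
    have h4 : c * p ^ 2 ≤ p * p ^ 2 := Nat.mul_le_mul_right _ hcp.le
    nlinarith
  have h7 : Nat.card (Sylow p H) < p :=
    lt_of_le_of_lt (Nat.le_of_dvd (Nat.pos_of_ne_zero index_ne_zero_of_finite) h2) h6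
  have h8 : Nat.card (Sylow p H) = 1 := Nat.ModEq.eq_of_lt_of_lt h4 h7 hp.one_lt
  rw [← normalizer_eq_top_iff, ← index_eq_one, ← h8]
  exact Q.card_eq_index_normalizer.symm

end Pool.Agent.H70.Sq1
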