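import Pool.Agent.H70.Sq1

namespace Pool.Agent.H70.Sq2
open Subgroup Finset Pool.Agent.H70.Sq1

variable {W : Type*} [Group W]

lemma gen2 [Finite W] {p : ℕ} (hp : p.Prime) (h3 : p % 4 = 3) (hW : Nat.card W = p ^ 2) {x : W}
    (hx : orderOf x = p) (J : MulAut W) (hJ : J (J x) = x⁻¹) (w : W) :
    ∃ a b : ℤ, w = x ^ a * (J x) ^ b := by
  have hy : orderOf (J x) = p := by rw [← hx]; exact MulEquiv.orderOf_eq J x
  have hP : Nat.card (zpowers x) = p := by rw [Nat.card_zpowers, hx]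
  have hP' : Nat.card (zpowers (J x)) = p := by rw [Nat.card_zpowers, hy]
  have hd : Disjoint (zpowers x) (zpowers (J x)) := by
    rw [Subgroup.disjoint_def]
    intro z h1 h2
    by_contra hne
    have e : J x ∈ zpowers x := by
      rw [← gen_eq hp hP h1 hne, gen_eq hp hP' h2 hne]; exact mem_zpowers _
    obtain ⟨a, ha⟩ := mem_zpowers_iff.mp e
    apply no_sqrt hp h3 hx a
    rw [← hJ, ha, ← map_zpow, ha]
  have hinj := mul_injective_of_disjoint hd
  have hbij := (Nat.bijective_iff_injective_and_card _).mpr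
    ⟨hinj, by rw [Nat.card_prod, hP, hP', hW, pow_two]⟩
  obtain ⟨⟨⟨u, hu⟩, ⟨v, hv⟩⟩, h⟩ := hbij.2 w
  obtain ⟨a, rfl⟩ := mem_zpowers_iff.mp hu
  obtain ⟨b, rfl⟩ := mem_zpowers_iff.mp hv
  exact ⟨a, b, h.symm⟩

lemma sq_inv [Finite W] {p : ℕ} (hp : p.Prime) (h3 : p % 4 = 3) (hW : Nat.card W = p ^ 2) {x : W}
    (hx : orderOf x = p) (J : MulAut W) (hJ : J (J x) = x⁻¹) (w : W) : J (J w) = w⁻¹ := by
  haveI := Fact.mk hp
  obtain ⟨a, b, rfl⟩ := gen2 hp h3 hW hx J hJ w
  have hc := (IsPGroup.isMulCommutative_of_card_eq_prime_sq hW).is_comm.comm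
  simp only [map_mul, map_zpow, hJ, map_inv, inv_zpow, mul_inv_rev]
  exact hc _ _

lemma rigid [Finite W] {p : ℕ} (hp : p.Prime) (h3 : p % 4 = 3) (hW : Nat.card W = p ^ 2) {x : W}
    (hx : orderOf x = p) (J B : MulAut W) (hJ : J (J x) = x⁻¹) (hB : B x = x)
    (hc : J * B = B * J) : B = 1 := by
  ext w
  obtain ⟨a, b, rfl⟩ := gen2 hp h3 hW hx J hJ w
  have : B (J x) = J x := by
    have := congrArg (fun f : MulAut W => f x) hc
    simp only [MulAut.mul_apply, hB] at this
    exact this.symm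
  simp [hB, this]

lemma aut_triv [Finite W] {p q : ℕ} (hp : p.Prime) (hq : q.Prime) (hW : Nat.card W = p ^ 2)
    (hpq : q ≠ p) (hd : ¬ q ∣ p ^ 2 - 1) (g : MulAut W) (hg : g ^ q = 1) : g = 1 := by
  haveI := Fact.mk hq
  have h1 : IsPGroup q (zpowers g) := by
    rcases (Nat.dvd_prime hq).mp (orderOf_dvd_of_pow_eq_one hg) with h | h
    · exact IsPGroup.of_card (n := 0) (by rw [Nat.card_zpowers, h]; simp)
    · exact IsPGroup.of_card (n := 1) (by rw [Nat.card_zpowers, h]; simp)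
  have h2 := h1.card_modEq_card_fixedPoints W
  let F : Subgroup W := MonoidHom.eqLocus g.toMonoidHom (MonoidHom.id W)
  have hF : Nat.card (MulAction.fixedPoints (zpowers g) W) = Nat.card F := by
    congr 1
    apply congrArg (fun s : Set W => (s : Type _))
    ext w
    simp only [MulAction.mem_fixedPoints, SetLike.mem_coe]
    constructor
    · intro h
      exact h ⟨g, mem_zpowers g⟩
    · rintro h ⟨m, hm⟩
      obtain ⟨k, rfl⟩ := mem_zpowers_iff.mp hm
      exact MulAction.mem_fixedBy_zpow (show w ∈ MulAction.fixedBy W g from h) k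
  rw [hF, hW] at h2
  have h4 : Nat.card F ∣ p ^ 2 := hW ▸ card_subgroup_dvd_card F
  obtain ⟨i, hi, hi2⟩ := (Nat.dvd_prime_pow hp).mp h4
  have hp1 := hp.one_lt
  interval_cases i
  · rw [hi2, pow_zero] at h2
    exact absurd ((Nat.modEq_iff_dvd' (by nlinarith)).mp h2.symm) hd
  · rw [hi2, pow_one] at h2
    have h5 := (Nat.modEq_iff_dvd' (by nlinarith)).mp h2.symm
    obtain ⟨k, rfl⟩ : ∃ k, p = k + 1 := ⟨p - 1, by omega⟩
    have e1 : (k + 1) ^ 2 - (k + 1) = (k + 1) * k := by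
      apply Nat.sub_eq_of_eq_add; ring
    have e2 : (k + 1) ^ 2 - 1 = k * (k + 2) := by
      apply Nat.sub_eq_of_eq_add; ring
    rw [e1] at h5
    rcases (Nat.Prime.dvd_mul hq).mp h5 with h | h
    · exact absurd ((Nat.prime_dvd_prime_iff_eq hq hp).mp h) hpq
    · exact absurd (e2 ▸ Dvd.dvd.mul_right h _) hd
  · have : F = ⊤ := by
      rw [← card_eq_iff_eq_top, hi2, hW]
    ext w
    have hw : w ∈ F := this ▸ mem_top w
    exact hw

abbrev S := Fin 3 → ZMod 2

lemma surj {A : Type*} [Group A] [Finite A] (hA : Nat.card A < 16) (u : S → A) (h0 : u 0 = 1)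
    (hsq : ∀ a, u a * u a = 1) (hconj : ∀ a b g, g * u a * g⁻¹ = u b → a = b) :
    Function.Surjective u ∧ ∀ v w : A, v * w = w * v := by
  classical
  have hinj : Function.Injective u := fun a b h => hconj a b 1 (by simpa using h)
  have hS : Nat.card S = 8 := by simp [S]
  by_cases hcomm : ∀ v w : A, v * w = w * v
  · refine ⟨?_, hcomm⟩
    let O : Subgroup A :=
      { carrier := {v | v * v = 1}
        one_mem' := by simp
        mul_mem' := by
          intro a b ha hb
          simp only [Set.mem_setOf_eq] at *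
          calc a * b * (a * b) = a * (b * a) * b := by group
            _ = a * a * (b * b) := by rw [hcomm b a]; group
            _ = 1 := by rw [ha, hb]; simp
        inv_mem' := by
          intro a ha
          simp only [Set.mem_setOf_eq] at *
          rw [← mul_inv_rev, ha]; simp }
    have h8 : 8 ≤ Nat.card O := by
      rw [← hS]
      exact Nat.card_le_card_of_injective (fun a => (⟨u a, hsq a⟩ : O))
        (fun a b h => hinj (congrArg Subtype.val h))
    have hi := O.card_mul_index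
    have hi0 : O.index ≠ 0 := index_ne_zero_of_finite
    have hi1 : O.index = 1 := by
      by_contra hne
      have : 2 ≤ O.index := by omega
      nlinarith
    have hO : O = ⊤ := index_eq_one.mp hi1
    haveI : Fact (Nat.Prime 2) := ⟨Nat.prime_two⟩
    have hp : IsPGroup 2 A := fun v => ⟨1, by
      have hv : v ∈ O := hO ▸ mem_top v
      rw [pow_one, pow_two]; exact hv⟩
    obtain ⟨n, hn⟩ := hp.exists_card_eq
    rw [hi1, mul_one] at hi
    have hn3 : n = 3 := by
      rw [hi, hn] at h8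
      rw [hn] at hA
      have a1 : n < 4 := (Nat.pow_lt_pow_iff_right (a := 2) (by norm_num)).mp (by simpa using hA)
      have a2 : 3 ≤ n := (Nat.pow_le_pow_iff_right (a := 2) (by norm_num)).mp (by simpa using h8)
      omega
    exact ((Nat.bijective_iff_injective_and_card u).mpr ⟨hinj, by rw [hS, hn, hn3]; rfl⟩).2
  exfalso
  haveI := Fintype.ofFinite A
  have hZ : Nat.card (center A) ≤ 3 := by
    have hi := (center A).card_mul_index
    have hi0 : (center A).index ≠ 0 := index_ne_zero_of_finite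
    have h4 : 4 ≤ (center A).index := by
      by_contra hlt
      apply hcomm
      have hcyc : IsCyclic (A ⧸ center A) := by
        have e : Nat.card (A ⧸ center A) = (center A).index := rfl
        obtain h | h | h : (center A).index = 1 ∨ (center A).index = 2 ∨ (center A).index = 3 := by
          omega
        · haveI : Subsingleton (A ⧸ center A) := (Nat.card_eq_one_iff_unique.mp (e.trans h)).1
          infer_instance
        · haveI : Fact (Nat.Prime 2) := ⟨Nat.prime_two⟩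
          exact isCyclic_of_prime_card (e.trans h)
        · haveI : Fact (Nat.Prime 3) := ⟨Nat.prime_three⟩
          exact isCyclic_of_prime_card (e.trans h)
      exact (isMulCommutative_of_isCyclic_quotient_center_self A).is_comm.comm
    nlinarith
  obtain ⟨g, hg⟩ : ∃ g : A, g * g ≠ 1 := by
    by_contra hall
    push Not at hall
    apply hcomm
    intro v w
    have e : ∀ y : A, y⁻¹ = y := fun y => inv_eq_of_mul_eq_one_right (hall y)
    rw [← e (v * w), mul_inv_rev, e, e]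
  have hE : ∀ a b : S, a ≠ 0 → b ≠ 0 → u a ∈ center A → u b ∈ center A → a = b := by
    intro a b ha hb ca cb
    by_contra hab
    have na : u a ≠ 1 := fun h => ha (hinj (h.trans h0.symm))
    have nb : u b ≠ 1 := fun h => hb (hinj (h.trans h0.symm))
    have nab : u a ≠ u b := fun h => hab (hinj h)
    have n3 : u a * u b ≠ 1 := fun h => nab (mul_right_cancel (h.trans (hsq b).symm))
    have hsub : ({1, u a, u b, u a * u b} : Finset A) ⊆ univ.filter (· ∈ center A) := by
      intro y hy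
      simp only [mem_insert, mem_singleton] at hy
      simp only [mem_filter, mem_univ, true_and]
      rcases hy with rfl | rfl | rfl | rfl
      exacts [one_mem _, ca, cb, mul_mem ca cb]
    have := card_le_card hsub
    rw [card_filter_mem, card_insert_of_notMem, card_insert_of_notMem, card_insert_of_notMem,
      card_singleton] at this
    · omega
    · simp [na]
    · simp [nab, nb]
    · simp [na.symm, nb.symm, n3.symm]
  obtain ⟨a0, ha0⟩ : ∃ a0 : S, ∀ a, a ≠ 0 → a ≠ a0 → u a ∉ center A := by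
    by_cases h : ∃ a, a ≠ 0 ∧ u a ∈ center A
    · obtain ⟨a, h1, h2⟩ := h
      exact ⟨a, fun b hb hba hc => hba (hE b a hb h1 hc h2)⟩
    · exact ⟨0, fun b hb _ hc => h ⟨b, hb, hc⟩⟩
  have hk : ∀ a : S, ∃ k : A, a ≠ 0 → a ≠ a0 → k * u a * k⁻¹ ≠ u a := by
    intro a
    by_cases h : a ≠ 0 ∧ a ≠ a0
    · have := ha0 a h.1 h.2
      rw [mem_center_iff] at this
      push Not at this
      obtain ⟨k, hk⟩ := this
      exact ⟨k, fun _ _ he => hk (by rw [← he]; simp; rw [he])⟩
    · exact ⟨1, fun h1 h2 => absurd ⟨h1, h2⟩ h⟩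
  choose k hk using hk
  set E := ((univ : Finset S).erase 0).erase a0 with hEdef
  have hEc : 6 ≤ E.card := by
    have a1 := pred_card_le_card_erase (s := (univ : Finset S).erase 0) (a := a0)
    have a2 : ((univ : Finset S).erase 0).card = 7 := by decide
    rw [← hEdef] at a1
    omega
  set U1 := (univ : Finset S).image u with hU1
  set U2 := E.image (fun a => k a * u a * (k a)⁻¹) with hU2
  have c1 : U1.card = 8 := by rw [hU1, card_image_of_injective _ hinj]; decide
  have c2 : U2.card = E.card := by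
    apply card_image_of_injOn
    intro a _ b _ h
    exact hconj a b ((k b)⁻¹ * k a) (by
      have : u b = (k b)⁻¹ * (k b * u b * (k b)⁻¹) * k b := by group
      rw [this]; simp only at h; rw [← h]; group)
  have d12 : Disjoint U1 U2 := by
    rw [Finset.disjoint_left]
    intro y h1 h2
    obtain ⟨a, -, rfl⟩ := mem_image.mp h1
    obtain ⟨b, hb, he⟩ := mem_image.mp h2
    have := hconj b a _ he
    subst this
    simp only [hEdef, mem_erase] at hb
    exact hk b hb.2.1 hb.1 he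
  have hsq2 : ∀ y ∈ U1 ∪ U2, y * y = 1 := by
    intro y hy
    rcases mem_union.mp hy with h | h
    · obtain ⟨a, -, rfl⟩ := mem_image.mp h
      exact hsq a
    · obtain ⟨a, -, rfl⟩ := mem_image.mp h
      have : k a * u a * (k a)⁻¹ * (k a * u a * (k a)⁻¹) = k a * (u a * u a) * (k a)⁻¹ := by group
      rw [this, hsq]; simp
  have hgi : g⁻¹ * g⁻¹ ≠ 1 := by
    intro h; apply hg
    rw [← mul_inv_rev] at h
    exact inv_eq_one.mp h
  have hne : g ≠ g⁻¹ := fun h => hg (by nth_rewrite 2 [h]; simp)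
  have tot := card_le_univ (insert g (insert g⁻¹ (U1 ∪ U2)))
  rw [card_insert_of_notMem, card_insert_of_notMem, card_union_of_disjoint d12, c1, c2,
    ← Nat.card_eq_fintype_card] at tot
  · omega
  · exact fun h => hgi (hsq2 _ h)
  · intro h
    rcases mem_insert.mp h with h | h
    exacts [hne h, hg (hsq2 _ h)]

universe u

lemma dec' : ∀ a b c : S, (∃ j : S, j ≠ 0 ∧ j ⬝ᵥ a = 0 ∧ j ⬝ᵥ b = 0 ∧ j ⬝ᵥ c ≠ 0) ∨
    a = 0 ∨ b = 0 ∨ a = b ∨ c = 0 ∨ c = a ∨ c = b ∨ c = a + b := by decide +kernel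

lemma dec (a b c : S) (h1 : a ≠ 0) (h2 : b ≠ 0) (h3 : a ≠ b) (h4 : c ≠ 0) (h5 : c ≠ a) (h6 : c ≠ b)
    (h : ∀ j : S, j ≠ 0 → j ⬝ᵥ a = 0 → j ⬝ᵥ b = 0 → j ⬝ᵥ c = 0) : c = a + b := by
  rcases dec' a b c with ⟨j, a1, a2, a3, a4⟩ | h'
  · exact absurd (h j a1 a2 a3) a4
  · tauto

theorem fin {T : Type*} [Group T] [Finite T] (hT : Nat.card T < 128) (σ t : S → T)
    (hσ : ∀ a b, σ (a + b) = σ a * σ b) (hz : ∀ a g, σ a * g = g * σ a) (ht0 : t 0 = 1)
    (ht : ∀ a, t a * t a = σ a)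
    (hrep : ∀ j : S, j ≠ 0 → ∃ (A : Type u) (_ : Group A) (φ : T →* A) (ν : A) (F : Subgroup A),
      ν ∉ F ∧ (∀ a, φ (σ a) = if j ⬝ᵥ a = 0 then 1 else ν) ∧ (∀ a, j ⬝ᵥ a = 0 → φ (t a) ∈ F) ∧
      (∀ J B, J * J = ν → B ∈ F → J * B = B * J → B = 1)) : False := by
  classical
  have σ0 : σ 0 = 1 := by rw [← ht, ht0, one_mul]
  have σσ : ∀ a, σ a * σ a = 1 := by
    intro a
    have : ∀ a : S, a + a = 0 := by decide
    rw [← hσ, this, σ0]
  have sep : ∀ j : S, ∀ (A : Type u) [Group A] (φ : T →* A) (ν : A) (F : Subgroup A), ν ∉ F →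
      (∀ a, φ (σ a) = if j ⬝ᵥ a = 0 then 1 else ν) → ∀ a b, φ (σ a) = φ (σ b) → j ⬝ᵥ a = j ⬝ᵥ b := by
    intro j A _ φ ν F hν h a b hab
    have n1 : ν ≠ 1 := fun e => hν (e ▸ F.one_mem)
    rw [h, h] at hab
    have : ∀ x y : ZMod 2, (x = 0 ↔ y = 0) → x = y := by decide
    apply this
    split_ifs at hab with h1 h2 h2
    · simp [h1, h2]
    · exact absurd hab.symm n1
    · exact absurd hab n1
    · simp [h1, h2]
  have σinj : Function.Injective σ := by
    intro a b hab
    have : ∀ a b : S, (∀ j : S, j ≠ 0 → j ⬝ᵥ a = j ⬝ᵥ b) → a = b := by decide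
    apply this
    intro j hj
    obtain ⟨A, _, φ, ν, F, h1, h2, -, -⟩ := hrep j hj
    exact sep j A φ ν F h1 h2 a b (by rw [hab])
  let σ' : Multiplicative S →* T := MonoidHom.mk' (fun a => σ a.toAdd) (fun a b => hσ _ _)
  let Z : Subgroup T := σ'.range
  have hZm : ∀ g, g ∈ Z ↔ ∃ a, σ a = g := fun g =>
    ⟨fun ⟨a, h⟩ => ⟨a.toAdd, h⟩, fun ⟨a, h⟩ => ⟨Multiplicative.ofAdd a, h⟩⟩
  haveI : Z.Normal := ⟨fun n hn g => by
    obtain ⟨a, rfl⟩ := (hZm n).mp hn
    rw [← hz]; simpa using (hZm _).mpr ⟨a, rfl⟩⟩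
  have hZc : Nat.card Z = 8 := by
    rw [← Nat.card_congr (MonoidHom.ofInjective (f := σ') (fun a b h => σinj h)).toEquiv]
    simp [S]
  have hA : Nat.card (T ⧸ Z) < 16 := by
    have := card_eq_card_quotient_mul_card_subgroup Z
    rw [hZc] at this; omega
  have hq : ∀ g h : T, (g : T ⧸ Z) = h → ∃ a, h = g * σ a := by
    intro g h e
    obtain ⟨a, ha⟩ := (hZm _).mp (QuotientGroup.eq.mp e)
    exact ⟨a, by rw [ha]; group⟩
  have sqz : ∀ a z, t a * σ z * (t a * σ z) = σ a := by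
    intro a z
    calc t a * σ z * (t a * σ z) = t a * (σ z * t a) * σ z := by group
      _ = t a * t a * (σ z * σ z) := by rw [hz]; group
      _ = σ a := by rw [ht, σσ, mul_one]
  obtain ⟨hs, hc⟩ := surj hA (fun a => (t a : T ⧸ Z)) (by simp [ht0])
    (fun a => by
      rw [← QuotientGroup.mk_mul, ht]
      exact (QuotientGroup.eq_one_iff _).mpr ((hZm _).mpr ⟨a, rfl⟩))
    (fun a b g h => by
      obtain ⟨g, rfl⟩ := QuotientGroup.mk_surjective g
      rw [← QuotientGroup.mk_mul, ← QuotientGroup.mk_inv, ← QuotientGroup.mk_mul] at h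
      obtain ⟨z, hz'⟩ := hq _ _ h.symm
      apply σinj
      rw [← sqz b z, ← hz']
      calc σ a = g * σ a * g⁻¹ := by rw [← hz]; group
        _ = _ := by rw [← ht]; group)
  have uniq : ∀ c c' z z', t c * σ z = t c' * σ z' → c = c' := by
    intro c c' z z' h
    apply σinj
    rw [← sqz c z, h, sqz]
  have hcz : ∀ a b, ∃ c z, t a * t b = t c * σ z := by
    intro a b
    obtain ⟨c, hc⟩ := hs ((t a * t b : T) : T ⧸ Z)
    exact ⟨c, hq _ _ hc⟩
  choose c z hcz using hcz
  have hκ : ∀ a b, ∃ κ, t b * t a = t a * t b * σ κ := by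
    intro a b
    apply hq
    rw [QuotientGroup.mk_mul, QuotientGroup.mk_mul, hc]
  choose κ hκ using hκ
  have key : ∀ a b, c a b = a + b + κ a b := by
    intro a b
    apply σinj
    rw [← sqz (c a b) (z a b), ← hcz, hσ, hσ, ← ht a, ← ht b]
    calc t a * t b * (t a * t b) = t a * (t b * t a) * t b := by group
      _ = t a * t a * t b * (σ (κ a b) * t b) := by rw [hκ]; group
      _ = _ := by rw [hz]; group
  have hrep2 : ∀ j : S, j ≠ 0 → (∀ a b, j ⬝ᵥ a = 0 → j ⬝ᵥ b = 0 → j ⬝ᵥ c a b = 0) ∧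
      ∃ (A : Type u) (_ : Group A) (φ : T →* A), (∀ a, j ⬝ᵥ a = 0 → φ (t a) = 1) ∧
      ∀ a b, φ (σ a) = φ (σ b) → j ⬝ᵥ a = j ⬝ᵥ b := by
    intro j hj
    obtain ⟨A, _, φ, ν, F, h1, h2, h3, h4⟩ := hrep j hj
    have E1 : ∀ a b, j ⬝ᵥ a = 0 → j ⬝ᵥ b = 0 → j ⬝ᵥ c a b = 0 := by
      intro a b ha hb
      have e : σ (κ a b) = (t a * t b)⁻¹ * (t b * t a) := by rw [hκ a b]; group
      have m : φ (σ (κ a b)) ∈ F := by
        rw [e]; simp only [map_mul, map_inv]
        exact F.mul_mem (F.inv_mem (F.mul_mem (h3 a ha) (h3 b hb))) (F.mul_mem (h3 b hb) (h3 a ha))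
      rw [h2] at m
      have : j ⬝ᵥ κ a b = 0 := by
        by_contra hne
        rw [if_neg hne] at m
        exact h1 m
      rw [key, dotProduct_add, dotProduct_add, ha, hb, this]; simp
    refine ⟨E1, A, inferInstance, φ, ?_, sep j A φ ν F h1 h2⟩
    intro a ha
    obtain ⟨b, hb⟩ : ∃ b, j ⬝ᵥ b ≠ 0 := by
      have : ∀ j : S, j ≠ 0 → ∃ b, j ⬝ᵥ b ≠ 0 := by decide
      exact this j hj
    have n1 : j ⬝ᵥ c a b ≠ 0 := by
      intro h0
      have e1 := E1 a _ ha h0
      have e2 : t b * σ a = t (c a (c a b)) * σ (z a (c a b) + z a b) := by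
        rw [hσ, ← mul_assoc, ← hcz, mul_assoc, ← hcz, ← mul_assoc, ht, hz]
      rw [← uniq _ _ _ _ e2] at e1
      exact hb e1
    have n2 : j ⬝ᵥ κ a b = 0 := by
      rw [key, dotProduct_add, dotProduct_add, ha] at n1
      revert n1 hb
      generalize j ⬝ᵥ b = x
      generalize j ⬝ᵥ κ a b = y
      revert x y
      decide
    apply h4 (φ (t b)) _ (by rw [← map_mul, ht, h2, if_neg hb]) (h3 a ha)
    rw [← map_mul, hκ, map_mul, h2, if_pos n2, mul_one, map_mul]
  have E3 : ∀ a b, a ≠ 0 → b ≠ 0 → a ≠ b → t a * t b = t (a + b) * σ (z a b) := by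
    intro a b ha hb hab
    have h := hcz a b
    rw [← dec a b (c a b) ha hb hab ?_ ?_ ?_ (fun j hj => (hrep2 j hj).1 a b)]
    · exact h
    · intro e
      rw [e, ht0, one_mul] at h
      apply hab
      apply uniq a b (z a b) a
      rw [← h, ← mul_assoc, ht, hz]
    · intro e
      rw [e] at h
      apply hb
      apply uniq b 0 0 (z a b)
      rw [mul_left_cancel h, σ0, ht0]; simp
    · intro e
      rw [e, ← hz] at h
      apply ha
      apply uniq a 0 0 (z a b)
      rw [mul_right_cancel h, σ0, ht0]; simp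
  have r12 := E3 ![1, 0, 0] ![0, 1, 0] (by decide) (by decide) (by decide)
  have r13 := E3 ![1, 0, 0] ![0, 0, 1] (by decide) (by decide) (by decide)
  have r23 := E3 ![0, 1, 0] ![0, 0, 1] (by decide) (by decide) (by decide)
  have r4 := E3 ![1, 0, 0] (![0, 1, 0] + ![0, 0, 1]) (by decide) (by decide) (by decide)
  generalize z ![1, 0, 0] ![0, 1, 0] = α at r12
  generalize z ![1, 0, 0] ![0, 0, 1] = β at r13
  generalize z ![0, 1, 0] ![0, 0, 1] = γ at r23
  generalize z ![1, 0, 0] (![0, 1, 0] + ![0, 0, 1]) = δ at r4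
  have r123 : t ![1, 0, 0] * t ![0, 1, 0] * t ![0, 0, 1] =
      t (![1, 0, 0] + (![0, 1, 0] + ![0, 0, 1])) * σ (δ + γ) := by
    rw [mul_assoc, r23, ← mul_assoc, r4, hσ, mul_assoc]
  have q1 : ![1, 0, 0] ⬝ᵥ γ = ![1, 0, 0] ⬝ᵥ 0 := by
    obtain ⟨A, _, φ, h1, h2⟩ := (hrep2 ![1, 0, 0] (by decide)).2
    apply h2
    have := congrArg φ r23
    rw [map_mul, map_mul, h1 _ (by decide), h1 _ (by decide), h1 _ (by decide)] at this
    simpa [σ0] using this.symm
  have q2 : ![0, 1, 0] ⬝ᵥ β = ![0, 1, 0] ⬝ᵥ 0 := by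
    obtain ⟨A, _, φ, h1, h2⟩ := (hrep2 ![0, 1, 0] (by decide)).2
    apply h2
    have := congrArg φ r13
    rw [map_mul, map_mul, h1 _ (by decide), h1 _ (by decide), h1 _ (by decide)] at this
    simpa [σ0] using this.symm
  have q3 : ![0, 0, 1] ⬝ᵥ α = ![0, 0, 1] ⬝ᵥ 0 := by
    obtain ⟨A, _, φ, h1, h2⟩ := (hrep2 ![0, 0, 1] (by decide)).2
    apply h2
    have := congrArg φ r12
    rw [map_mul, map_mul, h1 _ (by decide), h1 _ (by decide), h1 _ (by decide)] at this
    simpa [σ0] using this.symm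
  have q4 : ![1, 1, 0] ⬝ᵥ α = ![1, 1, 0] ⬝ᵥ (δ + γ) := by
    obtain ⟨A, _, φ, h1, h2⟩ := (hrep2 ![1, 1, 0] (by decide)).2
    apply h2
    have a1 := congrArg φ r12
    have a2 := congrArg φ r123
    rw [map_mul φ (t (_ + _)), h1 (_ + _) (by decide), one_mul] at a1 a2
    rw [map_mul, h1 ![0, 0, 1] (by decide), mul_one] at a2
    rw [← a1, a2]
  have q5 : ![1, 0, 1] ⬝ᵥ β = ![1, 0, 1] ⬝ᵥ (δ + γ) := by
    obtain ⟨A, _, φ, h1, h2⟩ := (hrep2 ![1, 0, 1] (by decide)).2
    apply h2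
    have a1 := congrArg φ r13
    have a2 := congrArg φ r123
    rw [map_mul φ (t (_ + _)), h1 (_ + _) (by decide), one_mul] at a1 a2
    rw [map_mul, map_mul, h1 ![0, 1, 0] (by decide), mul_one, ← map_mul] at a2
    rw [← a1, a2]
  have q6 : ![0, 1, 1] ⬝ᵥ γ = ![0, 1, 1] ⬝ᵥ (δ + γ) := by
    obtain ⟨A, _, φ, h1, h2⟩ := (hrep2 ![0, 1, 1] (by decide)).2
    apply h2
    have a1 := congrArg φ r23
    have a2 := congrArg φ r123
    rw [map_mul φ (t (_ + _)), h1 (_ + _) (by decide), one_mul] at a1 a2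
    rw [map_mul, map_mul, h1 ![1, 0, 0] (by decide), one_mul, ← map_mul] at a2
    rw [← a1, a2]
  have q7 : ![1, 1, 1] ⬝ᵥ (α + γ) = ![1, 1, 1] ⬝ᵥ (![0, 1, 0] + β) := by
    obtain ⟨A, _, φ, h1, h2⟩ := (hrep2 ![1, 1, 1] (by decide)).2
    apply h2
    have a1 := congrArg φ r12
    have a2 := congrArg φ r13
    have a3 := congrArg φ r23
    rw [map_mul φ (t (_ + _)), h1 (_ + _) (by decide), one_mul] at a1 a2 a3
    rw [hσ, hσ, map_mul, map_mul, ← a1, ← a2, ← a3, ← map_mul, ← map_mul, ← mul_assoc (σ _), hz,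
      ← ht]
    simp only [mul_assoc]
  simp only [dotProduct, Fin.sum_univ_three, Matrix.cons_val, Pi.add_apply, Pi.zero_apply]
    at q1 q2 q3 q4 q5 q6 q7
  have two : (2 : ZMod 2) = 0 := by decide
  have : (1 : ZMod 2) = 0 := by
    linear_combination -q7 + q4 + q6 + q3 + q1 - q5 - q2 + (δ 1 + γ 1) * two
  exact absurd this (by decide)

end Pool.Agent.H70.Sq2
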