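import Pool.Agent.H70.Sq2

namespace Pool.Agent.H70.Sq3
open Subgroup Finset Pool.Agent.H70.Sq1 Pool.Agent.H70.Sq2

universe u

def e (k : ℕ) : S := ![(k + 1 : ℕ), ((k + 1) / 2 : ℕ), ((k + 1) / 4 : ℕ)]

lemma e_surj : ∀ j : S, j ≠ 0 → ∃ k : Fin 7, e k = j := by decide
lemma e_ne : ∀ k : Fin 7, ∃ a, e k ⬝ᵥ a ≠ 0 := by decide
lemma e_split : ∀ k : Fin 7, ∀ a, e k ⬝ᵥ a = 0 → ∃ b c, e k ⬝ᵥ b ≠ 0 ∧ e k ⬝ᵥ c ≠ 0 ∧ a = b + c := by
  decide

structure Good (q : ℕ → ℕ) : Prop where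
  prime : ∀ k < 7, (q k).Prime
  mod : ∀ k < 7, q k % 4 = 3
  big : ∀ k < 7, 8 * (128 * ∏ j ∈ range k, q j ^ 2) ^ 2 < q k
  ne : ∀ k < 7, ∀ j < 7, j ≠ k → q j ≠ q k
  nd : ∀ k < 7, ∀ j < 7, j ≠ k → ¬ q j ∣ q k ^ 2 - 1

variable {H : Type u} [Group H] [Finite H]

structure Cfg (q : ℕ → ℕ) (x : ℕ → H) (σ t : S → H) : Prop where
  ord : ∀ k < 7, orderOf (x k) = q k
  add : ∀ a b, σ (a + b) = σ a * σ b
  t0 : t 0 = 1
  sq : ∀ a, t a * t a = σ a
  act : ∀ k < 7, ∀ a, e k ⬝ᵥ a ≠ 0 → σ a * x k * (σ a)⁻¹ = (x k)⁻¹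
  fix : ∀ k < 7, ∀ a, e k ⬝ᵥ a = 0 → t a * x k = x k * t a
  card : Nat.card H < 128 * ∏ k ∈ range 7, q k ^ 2

variable {q : ℕ → ℕ} {x : ℕ → H} {σ t : S → H}

omit [Finite H] in
lemma Cfg.ss (h : Cfg q x σ t) (a : S) : σ a * σ a = 1 := by
  have : ∀ a : S, a + a = 0 := by decide
  rw [← h.add, this, ← h.sq, h.t0, one_mul]

lemma step (hq : Good q) (h : Cfg q x σ t) {k : ℕ} (hk : k < 7) (M : Subgroup H) [M.Normal]
    (hM : Nat.card M = ∏ j ∈ Ico (k + 1) 7, q j ^ 2) :
    ∃ W : Subgroup (H ⧸ M), W.Normal ∧ Nat.card W = q k ^ 2 ∧ (x k : H ⧸ M) ∈ W ∧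
      orderOf (x k : H ⧸ M) = q k ∧
      Nat.card (H ⧸ M) < (128 * ∏ j ∈ range k, q j ^ 2) * q k ^ 2 := by
  have hp := hq.prime k hk
  have ho : orderOf (x k : H ⧸ M) = q k := by
    have h1 := orderOf_map_dvd (QuotientGroup.mk' M) (x k)
    rw [h.ord k hk] at h1
    rcases (Nat.dvd_prime hp).mp h1 with h2 | h2
    · exfalso
      have h3 : x k ∈ M := (QuotientGroup.eq_one_iff _).mp (orderOf_eq_one_iff.mp h2)
      have h4 := Subgroup.orderOf_dvd_natCard M h3
      rw [h.ord k hk, hM] at h4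
      obtain ⟨j, hj, h5⟩ := (Prime.dvd_finsetProd_iff hp.prime _).mp h4
      rw [mem_Ico] at hj
      have h6 := (Nat.prime_dvd_prime_iff_eq hp (hq.prime j hj.2)).mp (hp.dvd_of_dvd_pow h5)
      exact hq.ne k hk j hj.2 (by omega) h6.symm
    · exact h2
  have hc : Nat.card (H ⧸ M) < (128 * ∏ j ∈ range k, q j ^ 2) * q k ^ 2 := by
    have h1 := card_eq_card_quotient_mul_card_subgroup M
    have h2 := h.card
    rw [h1, hM, ← prod_range_mul_prod_Ico _ (show k + 1 ≤ 7 by omega), prod_range_succ,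
      ← mul_assoc, ← mul_assoc] at h2
    exact lt_of_mul_lt_mul_right h2 (Nat.zero_le _)
  obtain ⟨a, ha⟩ := e_ne ⟨k, hk⟩
  obtain ⟨W, h1, h2, h3⟩ := lemA hp (hq.mod k hk) (hq.big k hk) hc (x k : H ⧸ M) (t a) ho
    (by rw [pow_two, ← QuotientGroup.mk_mul, h.sq, ← QuotientGroup.mk_mul, h.ss]; rfl)
    (by rw [pow_two, ← QuotientGroup.mk_mul, h.sq, ← QuotientGroup.mk_mul, ← QuotientGroup.mk_inv,
      ← QuotientGroup.mk_mul, h.act k hk a ha]; rfl)
  exact ⟨W, h1, h2, h3, ho, hc⟩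

lemma chain (hq : Good q) (h : Cfg q x σ t) : ∀ d k, k + d = 7 →
    ∃ M : Subgroup H, M.Normal ∧ Nat.card M = ∏ j ∈ Ico k 7, q j ^ 2 := by
  intro d
  induction d with
  | zero =>
    intro k hk
    exact ⟨⊥, inferInstance, by simp [show k = 7 by omega]⟩
  | succ d ih =>
    intro k hk
    obtain ⟨M, hM1, hM2⟩ := ih (k + 1) (by omega)
    obtain ⟨W, h1, h2, -⟩ := step hq h (show k < 7 by omega) M hM2
    refine ⟨W.comap (QuotientGroup.mk' M), inferInstance, ?_⟩
    have e1 := (W.comap (QuotientGroup.mk' M)).card_mul_index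
    rw [index_comap_of_surjective _ (QuotientGroup.mk'_surjective M),
      card_eq_card_quotient_mul_card_subgroup M, ← W.card_mul_index, h2, hM2] at e1
    rw [prod_eq_prod_Ico_succ_bot (show k < 7 by omega)]
    apply Nat.eq_of_mul_eq_mul_right (Nat.pos_of_ne_zero (W.index_ne_zero_of_finite))
    rw [e1]; ring

lemma rep (hq : Good q) (h : Cfg q x σ t) (k : Fin 7) :
    ∃ (A : Type u) (_ : Group A) (φ : H →* A) (ν : A) (F : Subgroup A),
      ν ∉ F ∧ (∀ a, φ (σ a) = if e k ⬝ᵥ a = 0 then 1 else ν) ∧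
      (∀ a, e k ⬝ᵥ a = 0 → φ (t a) ∈ F) ∧
      (∀ J B, J * J = ν → B ∈ F → J * B = B * J → B = 1) ∧ (∀ B, ν * B = B * ν) ∧
      ∀ j < 7, ∀ g, φ g ^ q j = 1 → φ g = 1 := by
  have hk := k.2
  have hp := hq.prime k hk
  haveI := Fact.mk hp
  have h3 := hq.mod k hk
  obtain ⟨M, hM1, hM2⟩ := chain hq h (7 - (k + 1)) (k + 1) (by omega)
  obtain ⟨W, hW1, hW2, hW3, ho, hc⟩ := step hq h hk M hM2
  let φ : H →* MulAut W := MulAut.conjNormal.comp (QuotientGroup.mk' M)
  have hφ : ∀ g (w : W), ((φ g w : W) : H ⧸ M) = (g : H ⧸ M) * w * (g : H ⧸ M)⁻¹ := fun _ _ => rfl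
  let y : W := ⟨x k, hW3⟩
  have hy : orderOf y = q k := by rw [← ho]; exact (Subgroup.orderOf_coe y).symm
  have hinv : ∀ a, e k ⬝ᵥ a ≠ 0 → ∀ w, φ (σ a) w = w⁻¹ := by
    intro a ha w
    have e1 : ∀ w, φ (σ a) w = φ (t a) (φ (t a) w) := by
      intro w; rw [← h.sq, map_mul]; rfl
    rw [e1]
    apply sq_inv hp h3 hW2 hy
    rw [← e1]
    apply Subtype.ext
    rw [hφ]
    change ((σ a * x k * (σ a)⁻¹ : H) : H ⧸ M) = _
    rw [h.act k hk a ha]; rfl
  obtain ⟨a0, ha0⟩ := e_ne k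
  have hν := hinv a0 ha0
  refine ⟨MulAut W, inferInstance, φ, φ (σ a0), MulAction.stabilizer (MulAut W) y, ?_, ?_, ?_, ?_,
    ?_, ?_⟩
  · intro hm
    have h1 : φ (σ a0) y = y := hm
    rw [hν] at h1
    have h2 : y ^ 2 = 1 := by rw [pow_two]; nth_rewrite 1 [← h1]; simp
    have h4 := orderOf_dvd_of_pow_eq_one h2
    rw [hy] at h4
    have := Nat.le_of_dvd two_pos h4
    omega
  · intro a
    split_ifs with ha
    · obtain ⟨b, c, hb, hc, rfl⟩ := e_split k a ha
      ext w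
      rw [h.add, map_mul, MulAut.mul_apply, hinv b hb, hinv c hc]; simp
    · ext w
      rw [hinv a ha, hν]
  · intro a ha
    change φ (t a) y = y
    apply Subtype.ext
    rw [hφ]
    change ((t a * x k * (t a)⁻¹ : H) : H ⧸ M) = _
    rw [h.fix k hk a ha]; simp [y]
  · intro J B hJ hB hc
    apply rigid hp h3 hW2 hy J B _ hB hc
    rw [← hν, ← hJ]; rfl
  · intro B
    ext w
    simp [hν]
  · intro j hj g hg
    by_cases hjk : j = k
    · subst hjk
      have h1 : φ g ^ W.index = 1 := by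
        have m := W.pow_index_mem (g : H ⧸ M)
        have hcm := (IsPGroup.isMulCommutative_of_card_eq_prime_sq hW2).is_comm.comm
        ext w
        rw [← map_pow, hφ]
        have := congrArg Subtype.val (hcm ⟨_, m⟩ w)
        simp only [Subgroup.coe_mul] at this
        simp [this]
      have h2 := W.card_mul_index
      have h4 := hq.big k hk
      have h5 : W.index < q k := by
        rw [← h2, hW2, mul_comm] at hc
        have := lt_of_mul_lt_mul_right hc (Nat.zero_le _)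
        nlinarith
      have h6 : Nat.gcd (q k) W.index = 1 :=
        (Nat.Prime.coprime_iff_not_dvd hp).mpr (fun hd => absurd (Nat.le_of_dvd
          (Nat.pos_of_ne_zero W.index_ne_zero_of_finite) hd) (by omega))
      have := pow_gcd_eq_one.mpr ⟨hg, h1⟩
      rwa [h6, pow_one] at this
    · exact aut_triv hp (hq.prime j hj) hW2 (hq.ne k hk j hj hjk) (hq.nd k hk j hj hjk) _ hg

theorem main (hq : Good q) (h : Cfg q x σ t) : False := by
  choose A inst φ ν F h1 h2 h3 h4 h5 h6 using rep hq h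
  let Φ : H →* ∀ k, A k := MonoidHom.pi φ
  haveI : Finite Φ.range := Finite.of_surjective _ Φ.rangeRestrict_surjective
  have hcop : ∀ j < 7, ¬ q j ∣ Nat.card Φ.range := by
    intro j hj hd
    haveI := Fact.mk (hq.prime j hj)
    obtain ⟨⟨_, g, rfl⟩, hg⟩ := exists_prime_orderOf_dvd_card' (q j) hd
    have e1 := congrArg Subtype.val (pow_orderOf_eq_one (⟨Φ g, g, rfl⟩ : Φ.range))
    rw [hg] at e1
    have e2 : (⟨Φ g, g, rfl⟩ : Φ.range) = 1 := by
      apply Subtype.ext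
      funext k
      exact h6 k j hj g (congrFun e1 k)
    rw [e2, orderOf_one] at hg
    exact (hq.prime j hj).one_lt.ne hg
  have hT : Nat.card Φ.range < 128 := by
    obtain ⟨M, -, hM⟩ := chain hq h 7 0 rfl
    rw [← range_eq_Ico] at hM
    have d1 := card_subgroup_dvd_card M
    have d2 := Φ.ker.card_mul_index
    rw [index_ker] at d2
    rw [hM, ← d2] at d1
    have c1 : Nat.Coprime (∏ j ∈ range 7, q j ^ 2) (Nat.card Φ.range) := by
      apply Nat.Coprime.prod_left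
      intro j hj
      rw [mem_range] at hj
      exact ((Nat.Prime.coprime_iff_not_dvd (hq.prime j hj)).mpr (hcop j hj)).pow_left 2
    have d3 := Nat.le_of_dvd Nat.card_pos (c1.dvd_of_dvd_mul_right d1)
    have d4 := h.card
    rw [← d2] at d4
    by_contra hle
    push Not at hle
    have := Nat.mul_le_mul d3 hle
    nlinarith
  apply fin hT (fun a => Φ.rangeRestrict (σ a)) (fun a => Φ.rangeRestrict (t a))
  · intro a b; rw [h.add, map_mul]
  · rintro a ⟨_, g, rfl⟩
    apply Subtype.ext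
    funext k
    change φ k (σ a) * φ k g = φ k g * φ k (σ a)
    rw [h2]
    split_ifs
    · simp
    · exact h5 k _
  · rw [h.t0, map_one]
  · intro a; rw [← map_mul, h.sq]
  · intro j hj
    obtain ⟨k, rfl⟩ := e_surj j hj
    exact ⟨A k, inst k, (Pi.evalMonoidHom A k).comp Φ.range.subtype, ν k, F k, h1 k, h2 k, h3 k,
      h4 k⟩

lemma primes (N : ℕ) : ∀ n, ∃ q : ℕ → ℕ, ∀ k < n, (q k).Prime ∧ q k % 4 = 3 ∧ N + 3 < q k ∧
    8 * (128 * ∏ j ∈ range k, q j ^ 2) ^ 2 < q k ∧ ∀ j < k, q k ≡ 2 [MOD q j] := by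
  intro n
  induction n with
  | zero => exact ⟨fun _ => 0, by simp⟩
  | succ n ih =>
    obtain ⟨q, hq⟩ := ih
    set M := ∏ j ∈ range n, q j with hM
    have hodd : Nat.Coprime 2 M := by
      apply Nat.Coprime.prod_right
      intro j hj
      have := (hq j (mem_range.mp hj)).2.1
      rw [Nat.coprime_two_left, Nat.odd_iff]; omega
    have hM0 : M ≠ 0 := by rintro h; simp [h] at hodd
    have hM2 : M % 2 = 1 := by rwa [Nat.coprime_two_left, Nat.odd_iff] at hodd
    have hM4 : (2 + M * M) % 4 = 3 := by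
      have : M % 4 = 1 ∨ M % 4 = 3 := by omega
      rcases this with h | h <;> simp [Nat.add_mod, Nat.mul_mod, h]
    have hc : Nat.Coprime (2 + M * M) (4 * M) := by
      apply Nat.Coprime.mul_right
      · apply Nat.Coprime.symm
        apply Nat.Coprime.pow_left 2 (m := 2)
        rw [Nat.coprime_two_left, Nat.odd_iff]; omega
      · simpa using hodd
    obtain ⟨p, hp1, hp2, hp3⟩ := Nat.forall_exists_prime_gt_and_modEq
      (N + 3 + 8 * (128 * ∏ j ∈ range n, q j ^ 2) ^ 2) (show 4 * M ≠ 0 by omega) hc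
    refine ⟨Function.update q n p, fun k hk => ?_⟩
    have hprod : ∀ k ≤ n, ∏ j ∈ range k, Function.update q n p j ^ 2 = ∏ j ∈ range k, q j ^ 2 := by
      intro k hk
      apply prod_congr rfl
      intro j hj
      rw [Function.update_of_ne (by have := mem_range.mp hj; omega)]
    rw [hprod k (by omega)]
    by_cases hkn : k = n
    · subst hkn
      rw [Function.update_self]
      refine ⟨hp2, ?_, by omega, by omega, fun j hj => ?_⟩
      · have := hp3.of_mul_right M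
        unfold Nat.ModEq at this
        omega
      · rw [Function.update_of_ne hj.ne]
        have d : q j ∣ M := dvd_prod_of_mem _ (mem_range.mpr hj)
        refine (hp3.of_dvd (d.mul_left 4)).trans ?_
        simpa using (Nat.ModEq.refl 2).add ((Nat.modEq_zero_iff_dvd).mpr (d.mul_left M))
    · rw [Function.update_of_ne hkn]
      obtain ⟨a1, a2, a3, a4, a5⟩ := hq k (by omega)
      exact ⟨a1, a2, a3, a4, fun j hj => by rw [Function.update_of_ne (by omega)]; exact a5 j hj⟩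

lemma good (N : ℕ) : ∃ q : ℕ → ℕ, Good q ∧ N < q 0 := by
  obtain ⟨q, hq⟩ := primes N 7
  have lt : ∀ k < 7, ∀ j < k, q j ^ 2 < q k := by
    intro k hk j hj
    have h1 := (hq k hk).2.2.2.1
    have h2 : q j ^ 2 ≤ ∏ j ∈ range k, q j ^ 2 := by
      apply Nat.le_of_dvd _ (dvd_prod_of_mem (fun j => q j ^ 2) (mem_range.mpr hj))
      apply prod_pos
      intro i hi
      have := (hq i (by have := mem_range.mp hi; omega)).1.pos
      positivity
    nlinarith
  refine ⟨q, ⟨fun k hk => (hq k hk).1, fun k hk => (hq k hk).2.1, fun k hk => (hq k hk).2.2.2.1,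
    ?_, ?_⟩, by have := (hq 0 (by norm_num)).2.2.1; omega⟩
  · intro k hk j hj hjk he
    rcases lt_or_gt_of_ne hjk with h | h
    · have := lt k hk j h; rw [he] at this; nlinarith
    · have := lt j hj k h; rw [he] at this; nlinarith
  · intro k hk j hj hjk hd
    have p1 := (hq k hk).1.one_lt
    rcases lt_or_gt_of_ne hjk with h | h
    · have m1 := ((hq k hk).2.2.2.2 j h).pow 2
      have m2 : 1 ≡ q k ^ 2 [MOD q j] := (Nat.modEq_iff_dvd' (by nlinarith)).mpr hd
      have m3 := (Nat.modEq_iff_dvd' (by norm_num)).mp (m2.trans m1)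
      have := Nat.le_of_dvd (by norm_num) m3
      have := (hq j hj).2.2.1
      omega
    · have := lt j hj k h
      have h0 : 1 < q k ^ 2 := by nlinarith
      have := Nat.le_of_dvd (by omega) hd
      omega

end Pool.Agent.H70.Sq3
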