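import Pool.Agent.H70.Sq3

namespace Pool.Agent.H70.Sq4
open Subgroup Finset Pool.Agent.H70.Sq2 Pool.Agent.H70.Sq3

def sg (k : ℕ) (a : S) : ℤ := if e k ⬝ᵥ a = 0 then 1 else -1

lemma sg_add : ∀ (k : Fin 7) (a b : S), sg k (a + b) = sg k a * sg k b := by decide +kernel
lemma sg_zero (k : ℕ) : sg k 0 = 1 := by simp [sg]
lemma sg_sq (k : ℕ) (a : S) : sg k a * sg k a = 1 := by unfold sg; split_ifs <;> simp
lemma aa : ∀ a : S, a + a = 0 := by decide
lemma a2 : ∀ a : ZMod 2, a + a = 0 := by decide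

@[ext] structure GG (q : ℕ → ℕ) where
  v : ∀ k : Fin 7, ZMod (q k)
  a : S

variable {q : ℕ → ℕ}

instance : Mul (GG q) := ⟨fun g h => ⟨fun k => g.v k + sg k g.a * h.v k, g.a + h.a⟩⟩
instance : One (GG q) := ⟨⟨0, 0⟩⟩
instance : Inv (GG q) := ⟨fun g => ⟨fun k => -(sg k g.a * g.v k), g.a⟩⟩

@[simp] lemma mul_v (g h : GG q) (k) : (g * h).v k = g.v k + sg k g.a * h.v k := rfl
@[simp] lemma mul_a (g h : GG q) : (g * h).a = g.a + h.a := rfl
@[simp] lemma one_v (k) : (1 : GG q).v k = 0 := rfl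
@[simp] lemma one_a : (1 : GG q).a = 0 := rfl
@[simp] lemma inv_v (g : GG q) (k) : g⁻¹.v k = -(sg k g.a * g.v k) := rfl
@[simp] lemma inv_a (g : GG q) : g⁻¹.a = g.a := rfl

instance : Group (GG q) := Group.ofLeftAxioms
  (fun a b c => by ext k <;> simp [sg_add, add_assoc, mul_add, mul_assoc])
  (fun a => by ext k <;> simp [sg_zero])
  (fun a => by ext k <;> simp [a2])

def eqv : GG q ≃ (∀ k : Fin 7, ZMod (q k)) × S :=
  ⟨fun g => (g.v, g.a), fun z => ⟨z.1, z.2⟩, fun _ => rfl, fun _ => rfl⟩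

lemma card_GG : Nat.card (GG q) = (∏ k ∈ range 7, q k) * 8 := by
  rw [Nat.card_congr eqv, Nat.card_prod, Nat.card_pi, ← Fin.prod_univ_eq_prod_range]
  simp [S]

lemma pow_eq (g : GG q) (hg : ∀ k : Fin 7, (sg k g.a : ZMod (q k)) * g.v k = g.v k) (n : ℕ) :
    g ^ n = ⟨fun k => n * g.v k, n • g.a⟩ := by
  induction n with
  | zero => ext k <;> simp
  | succ n ih =>
    rw [pow_succ', ih]
    ext k
    · simp only [mul_v]; rw [mul_left_comm, hg]; push_cast; ring
    · simp [add_mul, add_comm]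

def X (q : ℕ → ℕ) (k : ℕ) : GG q := ⟨fun j => if (j : ℕ) = k then 1 else 0, 0⟩
def Sg (q : ℕ → ℕ) (a : S) : GG q := ⟨0, a⟩
def Ga (q : ℕ → ℕ) (a : S) : GG q := ⟨fun j => if e j ⬝ᵥ a = 0 then 1 else 0, a⟩

lemma X_pow (k n : ℕ) : X q k ^ n = ⟨fun j => if (j : ℕ) = k then n else 0, 0⟩ := by
  rw [pow_eq _ (by simp [X, sg_zero])]
  ext j <;> simp [X]

lemma Ga_pow (a : S) (n : ℕ) :
    Ga q a ^ n = ⟨fun j => if e j ⬝ᵥ a = 0 then n else 0, n • a⟩ := by
  rw [pow_eq _ (by intro k; simp only [Ga, sg]; split_ifs <;> simp)]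
  ext j <;> simp [Ga]

theorem lower (hq : Good q) {H : Type} [Group H] [Finite H] (ι : GG q →* H)
    (hι : Function.Injective ι) (hs : ∀ g, ∃ h, h ^ 2 = ι g) :
    2 * Nat.card (GG q) ^ 2 ≤ Nat.card H := by
  classical
  by_contra hlt
  push Not at hlt
  choose r hr using hs
  set n := ∏ k ∈ range 7, q k with hn
  have hord : ∀ k < 7, orderOf (X q k) = q k := by
    intro k hk
    haveI := Fact.mk (hq.prime k hk)
    apply orderOf_eq_prime
    · rw [X_pow]; ext j
      · simp only [one_v]; split_ifs with h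
        · rw [← h]; simp
        · rfl
      · simp
    · intro h
      have := congrArg (fun g : GG q => g.v ⟨k, hk⟩) h
      simp [X] at this
  have hodd : Odd n := by
    apply Finset.prod_induction _ Odd (fun a b => Odd.mul) odd_one
    intro k hk
    have := hq.mod k (mem_range.mp hk)
    rw [Nat.odd_iff]; omega
  have hGn : ∀ a, Ga q a ^ n = Sg q a := by
    intro a
    rw [Ga_pow]; ext j
    · simp only [Sg]; split_ifs
      · exact (ZMod.natCast_eq_zero_iff _ _).mpr (dvd_prod_of_mem _ (mem_range.mpr j.2))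
      · rfl
    · obtain ⟨m, hm⟩ := hodd
      rw [hm, add_smul, mul_smul, two_smul, aa]; simp [Sg]
  apply main hq (x := fun k => ι (X q k)) (σ := fun a => ι (Sg q a))
    (t := fun a => if a = 0 then 1 else r (Ga q a) ^ n)
  refine ⟨fun k hk => ?_, fun a b => ?_, by simp, fun a => ?_, fun k hk a ha => ?_,
    fun k hk a ha => ?_, ?_⟩
  · rw [orderOf_injective ι hι, hord k hk]
  · rw [← map_mul]; congr 1; ext k <;> simp [Sg]
  · split_ifs with h
    · rw [h, one_mul, ← map_one ι]; rfl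
    · rw [← pow_two, ← pow_mul, mul_comm, pow_mul, hr, ← map_pow, hGn]
  · rw [← map_mul, ← map_inv, ← map_inv, ← map_mul]; congr 1
    ext j
    · simp only [mul_v, inv_v, Sg, X, sg_zero]
      split_ifs with h
      · simp [sg, h, ha]
      · simp
    · simp [Sg, X, a2]
  · split_ifs with h
    · simp
    set m := ∏ j ∈ (range 7).erase k, q j with hm
    have e1 : Ga q a ^ (2 * m) = X q k ^ (2 * m) := by
      rw [Ga_pow, X_pow]; ext j
      · by_cases hj : (j : ℕ) = k
        · simp [hj, ha]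
        · have : ((2 * m : ℕ) : ZMod (q j)) = 0 := (ZMod.natCast_eq_zero_iff _ _).mpr
            (Dvd.dvd.mul_left (dvd_prod_of_mem _ (mem_erase.mpr ⟨hj, mem_range.mpr j.2⟩)) 2)
          simp only [this, ite_self]
      · rw [mul_smul, two_smul, aa]
    have c1 : Nat.Coprime (2 * m) (orderOf (X q k)) := by
      rw [hord k hk]
      apply Nat.Coprime.mul_left
      · have := hq.mod k hk
        rw [Nat.coprime_two_left, Nat.odd_iff]; omega
      · apply Nat.Coprime.prod_left
        intro j hj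
        rw [mem_erase, mem_range] at hj
        exact (Nat.coprime_primes (hq.prime j hj.2) (hq.prime k hk)).mpr (hq.ne k hk j hj.2 hj.1)
    obtain ⟨l, hl⟩ := exists_pow_eq_self_of_coprime c1
    have : ι (X q k) = r (Ga q a) ^ (2 * (2 * m * l)) := by
      rw [pow_mul, hr, ← map_pow, pow_mul, e1, hl]
    rw [this]
    exact (Commute.refl _).pow_pow _ _
  · rw [card_GG] at hlt
    rw [prod_pow]
    nlinarith

theorem upper (G : Type) [Group G] [Finite G] : ∃ (H : Type) (_ : Group H) (_ : Finite H)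
    (ι : G →* H), Function.Injective ι ∧ (∀ g, ∃ h, h ^ 2 = ι g) ∧
      Nat.card H = 2 * Nat.card G ^ 2 := by
  refine ⟨RegularWreathProduct G ℤˣ, inferInstance, inferInstance,
    MonoidHom.mk' (fun g => ⟨fun _ => g, 1⟩) (fun a b => by ext <;> simp), ?_, ?_, ?_⟩
  · intro a b h
    exact congrFun (congrArg RegularWreathProduct.left h) 1
  · intro g
    refine ⟨⟨fun u => if u = 1 then g else 1, -1⟩, ?_⟩
    rw [pow_two]
    ext u
    · rcases Int.units_eq_one_or u with rfl | rfl <;> simp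
    · simp
  · rw [RegularWreathProduct.card]
    simp [mul_comm]

end Pool.Agent.H70.Sq4
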