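import Mathlib

set_option autoImplicit false

namespace Pool.Agent.H70.Sq

/-- Relators `a_i b_j (b_{i+j} a_{i-j})⁻¹`; `Sum.inl i` is `a_i` and `Sum.inr j` is `b_j`. -/
def rels (X : Type) [AddCommGroup X] : Set (FreeGroup (X ⊕ X)) :=
  {r | ∃ i j : X, r = FreeGroup.of (Sum.inl i) * FreeGroup.of (Sum.inr j) *
    (FreeGroup.of (Sum.inr (i + j)) * FreeGroup.of (Sum.inl (i - j)))⁻¹}

/-- The fundamental group of the square complex, by its presentation. -/
abbrev Pi1 (X : Type) [AddCommGroup X] : Type := PresentedGroup (rels X)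

/-- Residual finiteness. -/
def RF (G : Type) [Group G] : Prop :=
  ∀ g : G, g ≠ 1 → ∃ (H : Type) (_ : Group H) (_ : Finite H) (φ : G →* H), φ g ≠ 1

end Pool.Agent.H70.Sq
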