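import Pool.Agent.H70.SymDefs
import Pool.Agent.H70.SL1

namespace Pool.Agent.H70.Sym

open Pool.Agent.H70.SL Polynomial

universe u

section Gen

variable {F B : Type*} [Field F] [Ring B] [Algebra F B] {ω α β : F} {x y : B}

theorem cm (hc : y * x = ω • (x * y)) (i j : ℕ) : y ^ j * x ^ i = ω ^ (i * j) • (x ^ i * y ^ j) := by
  have h1 : ∀ i, y * x ^ i = ω ^ i • (x ^ i * y) := fun i => by
    induction i with
    | zero => simp
    | succ i ih =>
      rw [pow_succ, ← mul_assoc, ih, smul_mul_assoc, mul_assoc, hc, mul_smul_comm, smul_smul, ← pow_succ,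
        mul_assoc]
  induction j with
  | zero => simp
  | succ j ih =>
    rw [pow_succ', mul_assoc, ih, mul_smul_comm, ← mul_assoc, h1, smul_mul_assoc, smul_smul, ← pow_add,
      mul_assoc, Nat.mul_succ]

theorem mm (hc : y * x = ω • (x * y)) (i j k l : ℕ) :
    x ^ i * y ^ j * (x ^ k * y ^ l) = ω ^ (k * j) • (x ^ (i + k) * y ^ (j + l)) := by
  rw [mul_assoc, ← mul_assoc (y ^ j), cm hc]
  simp [pow_add, mul_assoc]

def T (F : Type*) [Field F] [Algebra F B] (x y : B) : Module.End F B :=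
  LinearMap.mulLeftRight F (x ^ 4, x) + LinearMap.mulLeftRight F (y, y ^ 4)

theorem eig (hx : x ^ 5 = algebraMap F B α) (hy : y ^ 5 = algebraMap F B β)
    (hc : y * x = ω • (x * y)) (i j : ℕ) :
    T F x y (x ^ i * y ^ j) = (ω ^ j * α + ω ^ i * β) • (x ^ i * y ^ j) := by
  have h1 := mm hc (4 + i) j 1 0
  have h2 := mm hc 0 1 i (j + 4)
  rw [show 4 + i + 1 = 5 + i by omega, pow_add x 5, hx, pow_add] at h1
  rw [show 1 + (j + 4) = j + 5 by omega, pow_add y j 5, hy, pow_add] at h2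
  simp only [T, LinearMap.add_apply, LinearMap.mulLeftRight_apply, add_smul, mul_smul]
  simp only [Algebra.algebraMap_eq_smul_one] at h1 h2
  simp [mul_assoc] at h1 h2 ⊢
  rw [h1, h2]

theorem li [Nontrivial B] (hx : x ^ 5 = algebraMap F B α) (hy : y ^ 5 = algebraMap F B β)
    (hc : y * x = ω • (x * y)) (h1 : α ≠ 0) (h2 : β ≠ 0)
    (hμ : Function.Injective fun p : Fin 5 × Fin 5 => ω ^ (p.2 : ℕ) * α + ω ^ (p.1 : ℕ) * β) :
    LinearIndependent F fun p : Fin 5 × Fin 5 => x ^ (p.1 : ℕ) * y ^ (p.2 : ℕ) := by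
  have h3 : IsUnit x := (isUnit_pow_iff (by norm_num)).1 (hx ▸ h1.isUnit.map _)
  have h4 : IsUnit y := (isUnit_pow_iff (by norm_num)).1 (hy ▸ h2.isUnit.map _)
  exact (T F x y).eigenvectors_linearIndependent' _ hμ _ fun p =>
    ⟨Module.End.mem_eigenspace_iff.2 (eig hx hy hc _ _), ((h3.pow _).mul (h4.pow _)).ne_zero⟩

def W (F : Type*) [Field F] [Algebra F B] (x y : B) (s : Set ℕ) : Submodule F B :=
  Submodule.span F {b | ∃ i, ∃ j ∈ s, b = x ^ i * y ^ j}

theorem W_mul (hc : y * x = ω • (x * y)) {s t u : Set ℕ} (h : ∀ i ∈ s, ∀ j ∈ t, i + j ∈ u) {a b : B}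
    (ha : a ∈ W F x y s) (hb : b ∈ W F x y t) : a * b ∈ W F x y u := by
  refine (show W F x y s * W F x y t ≤ _ from ?_) (Submodule.mul_mem_mul ha hb)
  rw [W, W, Submodule.span_mul_span, Submodule.span_le]
  rintro _ ⟨_, ⟨i, j, hj, rfl⟩, _, ⟨k, l, hl, rfl⟩, rfl⟩
  dsimp only
  rw [mm hc]
  exact Submodule.smul_mem _ _ (Submodule.subset_span ⟨_, _, h j hj l hl, rfl⟩)

theorem tr (hω : IsPrimitiveRoot ω 5) (hx : x ^ 5 = algebraMap F B α) (h1 : α ≠ 0)
    (hc : y * x = ω • (x * y)) (τ : B →ₗ[F] F) (hτ : ∀ a b, τ (a * b) = τ (b * a)) {v : B}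
    (hv : v ∈ W F x y {2, 3}) : τ (v ^ 3) = 0 := by
  have h2 : v ^ 3 ∈ W F x y {6, 7, 8, 9} := by
    rw [pow_three]
    exact W_mul hc (by simp) hv (W_mul hc (u := {4, 5, 6}) (by simp) hv hv)
  refine (Submodule.span_le.2 ?_ : _ ≤ LinearMap.ker τ) h2
  rintro _ ⟨i, j, hj, rfl⟩
  have h3 := hτ (x ^ (4 + i) * y ^ j) (x ^ 1 * y ^ 0)
  rw [mm hc, mm hc, show 4 + i + 1 = 5 + i by omega, show 1 + (4 + i) = 5 + i by omega, pow_add, hx,
    Algebra.algebraMap_eq_smul_one] at h3
  have h4 : ω ^ j ≠ 1 := by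
    rw [Ne, hω.pow_eq_one_iff_dvd]
    simp at hj
    omega
  simp only [add_zero, zero_add, one_mul, mul_zero, pow_zero, one_smul, smul_mul_assoc, map_smul,
    smul_eq_mul] at h3
  have h5 : (ω ^ j - 1) * α * τ (x ^ i * y ^ j) = 0 := by linear_combination h3
  simpa [sub_eq_zero, h4, h1] using h5

theorem fin {D : Type*} [DivisionRing D] [Algebra F D] {x' y' : D} (hω : IsPrimitiveRoot ω 5)
    (hx' : x' ^ 5 = algebraMap F D α) (hy' : y' ^ 5 = algebraMap F D β) (hc' : y' * x' = ω • (x' * y'))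
    (h1 : α ≠ 0) (h2 : β ≠ 0)
    (hμ : Function.Injective fun p : Fin 5 × Fin 5 => ω ^ (p.2 : ℕ) * α + ω ^ (p.1 : ℕ) * β) :
    Module.finrank F (Symb 5 ω α β) = 5 ^ 2 ∧ Algebra.IsCentral F (Symb 5 ω α β) ∧
    (∀ a : Symb 5 ω α β, a ≠ 0 → IsUnit a) ∧
    ∃ V : Submodule F (Symb 5 ω α β), (5 ^ 2 - 1) / 3 < Module.finrank F V ∧
      ∀ τ : Symb 5 ω α β →ₗ[F] F, (∀ a b, τ (a * b) = τ (b * a)) → ∀ v ∈ V, τ (v ^ 3) = 0 := by
  let π := RingQuot.mkAlgHom F (Rel 5 ω α β)
  let x := π (FreeAlgebra.ι F 0)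
  let y := π (FreeAlgebra.ι F 1)
  have hx : x ^ 5 = algebraMap F _ α := by
    simpa using RingQuot.mkAlgHom_rel F (s := Rel 5 ω α β) (.inl ⟨rfl, rfl⟩)
  have hy : y ^ 5 = algebraMap F _ β := by
    simpa using RingQuot.mkAlgHom_rel F (s := Rel 5 ω α β) (.inr (.inl ⟨rfl, rfl⟩))
  have hc : y * x = ω • (x * y) := by
    simpa using RingQuot.mkAlgHom_rel F (s := Rel 5 ω α β) (.inr (.inr ⟨rfl, rfl⟩))
  let f : Symb 5 ω α β →ₐ[F] D := RingQuot.liftAlgHom F ⟨FreeAlgebra.lift F ![x', y'], by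
    rintro _ _ (⟨rfl, rfl⟩ | ⟨rfl, rfl⟩ | ⟨rfl, rfl⟩) <;> simp [*]⟩
  have fx : f x = x' := by simp [f, x, π]
  have fy : f y = y' := by simp [f, y, π]
  let m := fun p : Fin 5 × Fin 5 => x ^ (p.1 : ℕ) * y ^ (p.2 : ℕ)
  have hl := li hx' hy' hc' h1 h2 hμ
  have hm : (fun p : Fin 5 × Fin 5 => x' ^ (p.1 : ℕ) * y' ^ (p.2 : ℕ)) = f.toLinearMap ∘ m := by
    ext p; simp [m, fx, fy]
  rw [hm] at hl
  have hs : ⊤ ≤ Submodule.span F (Set.range m) := by
    have : ∀ a, π a ∈ W F x y Set.univ := fun a => by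
      induction a using FreeAlgebra.induction with
      | grade0 r =>
        rw [AlgHom.commutes, Algebra.algebraMap_eq_smul_one]
        exact Submodule.smul_mem _ _ (Submodule.subset_span ⟨0, 0, trivial, by simp⟩)
      | grade1 i =>
        fin_cases i
        exacts [Submodule.subset_span ⟨1, 0, trivial, by simp [x]⟩,
          Submodule.subset_span ⟨0, 1, trivial, by simp [y]⟩]
      | mul a b ha hb => rw [map_mul]; exact W_mul hc (by simp) ha hb
      | add a b ha hb => rw [map_add]; exact add_mem ha hb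
    intro a _
    obtain ⟨a, rfl⟩ := RingQuot.mkAlgHom_surjective F _ a
    refine (Submodule.span_le.2 ?_ : W F x y _ ≤ _) (this a)
    rintro _ ⟨i, j, -, rfl⟩
    rw [← Nat.div_add_mod i 5, ← Nat.mod_add_div j 5, pow_add, pow_add, pow_mul, pow_mul, hx, hy,
      Algebra.algebraMap_eq_smul_one, Algebra.algebraMap_eq_smul_one]
    simp only [_root_.smul_pow, one_pow, smul_mul_assoc, mul_smul_comm, one_mul, mul_one]
    exact Submodule.smul_mem _ _ (Submodule.smul_mem _ _ (Submodule.subset_span (Set.mem_range_self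
      (f := m) (⟨i % 5, Nat.mod_lt _ (by norm_num)⟩, ⟨j % 5, Nat.mod_lt _ (by norm_num)⟩))))
  let b := Module.Basis.mk (hl.of_comp _) hs
  have hb : ∀ p, b p = m p := Module.Basis.mk_apply _ _
  have hf : Function.Injective f := by
    refine (injective_iff_map_eq_zero _).2 fun a ha => ?_
    rw [← b.sum_repr a] at ha ⊢
    have := Fintype.linearIndependent_iff.1 hl (b.repr a) (by simpa [hb] using ha)
    simp [this]
  have := Module.Finite.of_basis b
  have : IsDomain (Symb 5 ω α β) := hf.isDomain f.toRingHom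
  have := IsArtinianRing.of_finite F (Symb 5 ω α β)
  refine ⟨by simp [Module.finrank_eq_card_basis b], ⟨fun a ha => ?_⟩,
    fun a ha => IsArtinianRing.isUnit_of_mem_nonZeroDivisors (mem_nonZeroDivisors_of_ne_zero ha),
    Submodule.span F (Set.range (m ∘ fun p : Fin 5 × Fin 2 => (p.1, ⟨p.2 + 2, by omega⟩))), ?_,
    fun τ hτ v hv => tr (y := y) hω hx h1 hc τ hτ (Submodule.span_mono ?_ hv)⟩
  · have h3 : T F x y a = (α + β) • a := by
      have := Subalgebra.mem_center_iff.1 ha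
      simp only [T, LinearMap.add_apply, LinearMap.mulLeftRight_apply]
      rw [mul_assoc, ← this x, mul_assoc, ← this (y ^ 4), ← mul_assoc, ← mul_assoc, ← pow_succ, ← pow_succ',
        hx, hy, add_smul, Algebra.smul_def, Algebra.smul_def]
    have h4 : ∀ p, p ≠ 0 → b.repr a p = 0 := fun p hp => by
      have h5 := congrArg (b.repr · p) h3
      conv_lhs at h5 => rw [← b.sum_repr a]
      simp only [map_sum, map_smul, hb, m, eig hx hy hc] at h5
      simp only [← hb, m, show ∀ p : Fin 5 × Fin 5, x ^ (p.1 : ℕ) * y ^ (p.2 : ℕ) = b p from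
        fun p => (hb p).symm] at h5
      simp only [Module.Basis.repr_self, Finsupp.smul_single, Finsupp.finset_sum_apply, Finsupp.single_apply,
        Finset.sum_ite_eq', Finset.mem_univ, if_true, Finsupp.smul_apply, smul_eq_mul, mul_one] at h5
      by_contra h6
      exact hp (hμ (by simpa [h6, mul_comm (b.repr a p)] using h5))
    rw [← b.sum_repr a, Finset.sum_eq_single 0 (by simp +contextual [h4]) (by simp), hb]
    exact Subalgebra.smul_mem _ (by simp [m]) _
  · rw [finrank_span_eq_card ((hl.of_comp _).comp _ fun p q h => by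
      simp at h; exact Prod.ext h.1 (Fin.ext h.2))]
    simp
  · rintro _ ⟨p, rfl⟩
    exact ⟨_, _, by simp; omega, rfl⟩

end Gen

theorem exD {K L : Type u} [Field K] [Field L] [Algebra K L] (σ : L ≃ₐ[K] L) (h5 : σ ^ (5 : ℤ) = 1)
    {ω α : K} {a : L} (ha : a ^ 5 = algebraMap K L α) (hσ : σ a = ω • a) :
    ∃ (D : Type u) (_ : DivisionRing D) (_ : Algebra (RatFunc K) D) (x y : D),
      x ^ 5 = algebraMap _ D (RatFunc.C α) ∧ y ^ 5 = algebraMap _ D (RatFunc.X (K := K)) ∧
        y * x = RatFunc.C ω • (x * y) := by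
  obtain ⟨φ, hz⟩ : ∃ φ : RingAut L, ∀ (n : ℤ) l, (φ ^ n) l = (σ ^ n) l :=
    ⟨MulSemiringAction.toRingAut _ L σ, fun n l => by rw [← map_zpow]; rfl⟩
  have hφ : φ a = ω • a := by simpa [hσ] using hz 1 a
  obtain ⟨D, _, e, h⟩ := exists_SL φ
  have : Nontrivial D := e.surjective.nontrivial
  letI : DivisionRing D := .ofIsUnitOrEqZero fun d => or_iff_not_imp_right.2 fun hd =>
    let ⟨_, a, b⟩ := exLo' (e := e) hd; unit_lead h a b.isUnit
  let g0 : K →+* Subring.center D :=
    { toFun := fun c => ⟨mo e 0 (algebraMap K L c), Subring.mem_center_iff.2 fun d =>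
        ext' (e := e) fun n => by simp [mo_mul h, mul_mo h, hz, mul_comm]⟩
      map_one' := Subtype.ext (by simp [mo_one h])
      map_zero' := Subtype.ext (by simp [mo_zero])
      map_add' := fun a b => Subtype.ext (by simp [mo_add])
      map_mul' := fun a b => Subtype.ext (by simp [mo_mo h]) }
  let t : Subring.center D := ⟨mo e 5 1, Subring.mem_center_iff.2 fun d =>
    ext' (e := e) fun n => by rw [mo_mul h, mul_mo h, hz, hz, h5]; simp⟩
  have hp : ∀ (i : ℤ) (n : ℕ), mo e i 1 ^ n = mo e (i * n) 1 := fun i n => by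
    induction n with
    | zero => simp [mo_one h]
    | succ n ih => simp [pow_succ, ih, mo_mo h, mul_add]
  have hg : Function.Injective (eval₂RingHom g0 t) := (injective_iff_map_eq_zero _).2 fun p hp' => by
    have : ∀ (p : K[X]) (n : ℕ), (e (eval₂RingHom g0 t p).1).coeff (5 * n) = algebraMap K L (p.coeff n) :=
      fun p n => by
        induction p using Polynomial.induction_on' with
        | add p q hp hq => simp only [map_add, Subring.coe_add, HahnSeries.coeff_add, hp, hq, coeff_add]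
        | monomial m c =>
          simp [g0, t, hp, mo_mo h, mo_coeff, coeff_monomial, eq_comm, apply_ite (algebraMap K L)]
    ext n
    simpa [hp'] using (this p n).symm
  letI : Algebra (RatFunc K) D := RingHom.toAlgebra' ((Subring.center D).subtype.comp
    (IsFractionRing.lift hg)) fun c d => (Subring.mem_center_iff.1 (IsFractionRing.lift hg c).2 d).symm
  have hl : ∀ p : K[X], algebraMap (RatFunc K) D (algebraMap K[X] _ p) = eval₂RingHom g0 t p :=
    fun p => congrArg Subtype.val (IsFractionRing.lift_algebraMap hg p)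
  refine ⟨D, inferInstance, inferInstance, mo e 0 a, mo e 1 1, ?_, ?_, ?_⟩
  · rw [← RatFunc.algebraMap_C, hl]
    simp [g0, ← ha, pow_succ, mo_mo h, mo_one h]
  · rw [← RatFunc.algebraMap_X, hl]
    simp [t, hp]
  · rw [Algebra.smul_def, ← RatFunc.algebraMap_C, hl]
    simp [g0, mo_mo h, hφ, Algebra.smul_def]

theorem main {k : Type u} [Field k] {ω : k} (hω : IsPrimitiveRoot ω 5) :
    Module.finrank (RatFunc (RatFunc k)) (Gen 5 ω) = 5 ^ 2 ∧
    Algebra.IsCentral (RatFunc (RatFunc k)) (Gen 5 ω) ∧ (∀ a : Gen 5 ω, a ≠ 0 → IsUnit a) ∧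
    ∃ V : Submodule (RatFunc (RatFunc k)) (Gen 5 ω),
      (5 ^ 2 - 1) / 3 < Module.finrank (RatFunc (RatFunc k)) V ∧
      ∀ τ : Gen 5 ω →ₗ[RatFunc (RatFunc k)] RatFunc (RatFunc k), (∀ a b, τ (a * b) = τ (b * a)) →
        ∀ v ∈ V, τ (v ^ 3) = 0 := by
  have hω1 := hω.map_of_injective (RatFunc.C (K := k)).injective
  have hω2 := hω1.map_of_injective (RatFunc.C (K := RatFunc k)).injective
  have : Fact (Irreducible (X ^ 5 - C (RatFunc.X (K := k)))) :=
    ⟨X_pow_sub_C_irreducible_of_prime Nat.prime_five fun b hb => by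
      have h0 : b ≠ 0 := fun h => RatFunc.X_ne_zero (by simpa [h] using hb.symm)
      have := congrArg RatFunc.intDegree hb
      simp [pow_succ, RatFunc.intDegree_mul, h0] at this
      omega⟩
  obtain ⟨D, _, _, x', y', hx', hy', hc'⟩ := exD (autAdjoinRootXPowSubC 5 RatFunc.X hω1.toRootsOfUnity)
    (by rw [← map_zpow, show hω1.toRootsOfUnity ^ (5 : ℤ) = 1 from Subtype.ext (Units.ext hω1.pow_eq_one),
      map_one]) (root_X_pow_sub_C_pow 5 RatFunc.X) (autAdjoinRootXPowSubC_root _ _)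
  have hμ : Function.Injective fun p : Fin 5 × Fin 5 =>
      RatFunc.C (RatFunc.C ω) ^ (p.2 : ℕ) * RatFunc.C (RatFunc.X (K := k)) +
        RatFunc.C (RatFunc.C ω) ^ (p.1 : ℕ) * RatFunc.X (K := RatFunc k) := fun p q h => by
    simp only [← RatFunc.algebraMap_C (K := RatFunc k), ← RatFunc.algebraMap_X (K := RatFunc k),
      ← map_pow, ← map_mul, ← map_add] at h
    have h1 := IsFractionRing.injective _ _ h
    have h2 := congrArg (coeff · 0) h1
    have h3 := congrArg (coeff · 1) h1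
    simp [RatFunc.X_ne_zero, coeff_C, -map_pow, -map_mul] at h2 h3
    exact Prod.ext (Fin.ext (hω.pow_inj p.1.2 q.1.2 (RatFunc.C.injective h3)))
      (Fin.ext (hω.pow_inj p.2.2 q.2.2 (RatFunc.C.injective h2)))
  exact fin hω2 hx' hy' hc' ((_root_.map_ne_zero _).2 RatFunc.X_ne_zero) RatFunc.X_ne_zero hμ

theorem key {F A : Type*} [Field F] [Ring A] [Algebra F A] {V : Submodule F A}
    (h : ∀ τ : A →ₗ[F] F, (∀ a b, τ (a * b) = τ (b * a)) → ∀ v ∈ V, τ (v ^ 3) = 0) :
    ∀ v ∈ V, LinearMap.trace F A (LinearMap.mulLeft F (v ^ 3)) = 0 :=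
  h (LinearMap.trace F A ∘ₗ LinearMap.mul F A) fun a b => by
    have : ∀ a b : A, LinearMap.mul F A (a * b) = LinearMap.mul F A a * LinearMap.mul F A b :=
      fun a b => by ext; simp [mul_assoc]
    simp only [LinearMap.comp_apply, this]
    exact LinearMap.trace_mul_comm F _ _

end Pool.Agent.H70.Sym
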