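import Mathlib

/-! Symbol algebras by generators and relations. -/

namespace Pool.Agent.H70.Sym

open FreeAlgebra

/-- The relations `x ^ p = α`, `y ^ p = β`, `y x = ω x y`, with `x = ι 0`, `y = ι 1`. -/
def Rel {F : Type*} [Field F] (p : ℕ) (ω α β : F) (a b : FreeAlgebra F (Fin 2)) : Prop :=
  (a = ι F 0 ^ p ∧ b = algebraMap F _ α) ∨ (a = ι F 1 ^ p ∧ b = algebraMap F _ β) ∨
    (a = ι F 1 * ι F 0 ∧ b = ω • (ι F 0 * ι F 1))

/-- The symbol algebra `(α, β)_{p, F}`. -/
abbrev Symb {F : Type*} [Field F] (p : ℕ) (ω α β : F) := RingQuot (Rel p ω α β)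

/-- The generic symbol algebra over `k(α)(β)`. -/
abbrev Gen {k : Type*} [Field k] (p : ℕ) (ω : k) :=
  Symb (F := RatFunc (RatFunc k)) p (RatFunc.C (RatFunc.C ω)) (RatFunc.C RatFunc.X) RatFunc.X

/-- `A` is a central division `F`-algebra of degree `d`. -/
def IsDiv (F A : Type*) [Field F] [Ring A] [Algebra F A] (d : ℕ) : Prop :=
  Module.finrank F A = d ^ 2 ∧ Algebra.IsCentral F A ∧ ∀ a : A, a ≠ 0 → IsUnit a

/-- The reduced trace of an algebra of degree `d` invertible in `F`. -/
noncomputable def Trd (F : Type*) {A : Type*} [Field F] [Ring A] [Algebra F A] (d : ℕ) (a : A) : F :=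
  LinearMap.trace F A (LinearMap.mulLeft F a) / d

/-- The bound for `r`-trace-vanishing subspaces in degree `d`. -/
def Bound (F A : Type*) [Field F] [Ring A] [Algebra F A] (d r : ℕ) : Prop :=
  ∀ V : Submodule F A, (∀ v ∈ V, Trd F d (v ^ r) = 0) → Module.finrank F V ≤ (d ^ 2 - 1) / r

/-- The symbol algebra `(α, β)_{p, F}` is a division algebra in which the bound fails for `r`. -/
def Fails {F : Type*} [Field F] (p r : ℕ) (ω α β : F) : Prop :=
  IsDiv F (Symb p ω α β) p ∧ ¬ Bound F (Symb p ω α β) p r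

/-- A constant in the rational function field `K(X)`. -/
noncomputable def cst {K : Type*} [Field K] (a : K) : RatFunc K := RatFunc.C a

/-- The indeterminate of the rational function field `K(X)`. -/
noncomputable def ind (K : Type*) [Field K] : RatFunc K := RatFunc.X

end Pool.Agent.H70.Sym
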