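import Pool.Agent.H70.TCDefs

namespace Pool.Agent.H70.TC

open Classical Pointwise FreeGroup Filter

section
variable {G : Type} [Group G] {X : Finset G}

theorem ball_zero : ball X 0 = {1} := rfl

theorem mem_succ {n : ℕ} {g : G} :
    g ∈ ball X (n + 1) ↔ ∃ s, (s = 1 ∨ s ∈ X ∨ s⁻¹ ∈ X) ∧ ∃ h ∈ ball X n, s * h = g := by
  simp [ball, pow_succ', Finset.mem_mul, -exists_eq_or_imp]

theorem one_mem (n : ℕ) : (1 : G) ∈ ball X n := Finset.one_mem_pow (by simp)

theorem card_pos (n : ℕ) : 0 < (ball X n).card := Finset.card_pos.2 ⟨1, one_mem n⟩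

theorem ball_mono {m n : ℕ} (h : m ≤ n) : ball X m ⊆ ball X n :=
  Finset.pow_subset_pow_right (by simp) h

theorem coe_ball (n : ℕ) : (ball X n : Set G) = insert 1 ((X : Set G) ∪ (X : Set G)⁻¹) ^ n := by
  simp [ball]

theorem ball_add (m n : ℕ) : ball X (m + n) = ball X m * ball X n := pow_add _ _ _

theorem card_add (k n : ℕ) : (ball X (n + k)).card ≤ (2 * X.card + 1) ^ k * (ball X n).card := by
  have h1 : (insert 1 (X ∪ X⁻¹)).card ≤ 2 * X.card + 1 := by
    have := Finset.card_insert_le 1 (X ∪ X⁻¹)
    have := Finset.card_union_le X X⁻¹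
    rw [Finset.card_inv] at *
    omega
  rw [add_comm n, ball_add]
  exact Finset.card_mul_le.trans (Nat.mul_le_mul_right _ (Finset.card_pow_le.trans
    (Nat.pow_le_pow_left h1 k)))

theorem bdd (φ : G →* G) (n : ℕ) :
    (((ball X n).image (cls φ)).card : ℝ) / (ball X n).card ≤ 1 :=
  div_le_one_of_le₀ (by exact_mod_cast Finset.card_image_le) (by positivity)

end

abbrev F : Type := FreeGroup Bool

theorem cancel (x : F) (l : List (Bool × Bool)) (hl : IsReduced l) : ∃ u c v,
    x.toWord = u ++ c ∧ l = invRev c ++ v ∧ (x * mk l).toWord = u ++ v := by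
  induction l generalizing x with
  | nil => exact ⟨x.toWord, [], [], by simp, by simp, by simp [← one_eq_mk]⟩
  | cons s l ih =>
    by_cases h : IsReduced (x.toWord ++ s :: l)
    · exact ⟨x.toWord, [], s :: l, by simp, by simp, by
        conv_lhs => rw [← mk_toWord (x := x), mul_mk, toWord_mk, h.reduce_eq]⟩
    · obtain ⟨w, hw⟩ : ∃ w, x.toWord = w ++ [(s.1, !s.2)] := by
        rcases List.eq_nil_or_concat x.toWord with e | ⟨w, t, e⟩
        · exact absurd (by rwa [e]) h
        · refine ⟨w, ?_⟩
          by_contra h2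
          refine h (List.isChain_append.2 ⟨isReduced_toWord, hl, fun a ha b hb h3 => ?_⟩)
          rw [e] at ha h2
          simp only [List.concat_eq_append, List.getLast?_concat, Option.mem_def, Option.some.injEq,
            List.head?_cons] at ha hb
          subst ha hb
          by_contra h4
          exact h2 (by rw [List.concat_eq_append, ← h3, ← Bool.eq_not.2 h4])
      have hr : IsReduced w := List.IsChain.left_of_append (hw ▸ isReduced_toWord (x := x))
      obtain ⟨u, c, v, h1, h2, h3⟩ := ih (mk w) (List.IsChain.tail hl)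
      rw [toWord_mk, hr.reduce_eq] at h1
      refine ⟨u, c ++ [(s.1, !s.2)], v, by rw [hw, h1, List.append_assoc], by simp [h2, invRev], ?_⟩
      rw [← h3, ← mk_toWord (x := x), hw, mul_mk, mul_mk, List.append_assoc]
      congr 1
      exact Quot.sound (Red.Step.not_rev (L₁ := w) (L₂ := l))

def φ : F →* F := lift fun c => of c ^ 4

theorem φ_word (z : F) : (φ z).toWord = z.toWord.flatMap (List.replicate 4) := by
  have h1 : ∀ l : List (Bool × Bool), φ (mk l) = mk (l.flatMap (List.replicate 4)) := fun l => by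
    induction l with
    | nil => rfl
    | cons s l ih =>
      rw [List.flatMap_cons, ← mul_mk, ← ih, ← List.singleton_append, ← mul_mk, _root_.map_mul]
      congr 1
      revert s
      decide
  have h2 : ∀ l : List (Bool × Bool), IsReduced l → IsReduced (l.flatMap (List.replicate 4)) := by
    intro l hl
    induction l with
    | nil => simp
    | cons s l ih =>
      have := ih (List.IsChain.tail hl)
      cases l with
      | nil => simp [List.replicate]
      | cons t l =>
        simp only [List.flatMap_cons, List.replicate, List.cons_append, isReduced_cons_cons] at *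
        simp only [List.nil_append, isReduced_cons_cons, implies_true, true_and] at *
        exact ⟨hl.1, this⟩
  conv_lhs => rw [← mk_toWord (x := z), h1, toWord_mk, (h2 _ isReduced_toWord).reduce_eq]

theorem rigid {y y' z : F} {p : List (Bool × Bool)} (h : y'.toWord = p ++ [(false, true), (true, true)])
    (hn : y.norm ≤ y'.norm) (e : z * y = y' * φ z) : z = 1 := by
  by_contra hz
  obtain ⟨u, c, v, h1, h2, h3⟩ := cancel y' _ (isReduced_toWord (x := φ z))
  rw [mk_toWord, ← e] at h3
  have h4 := norm_mul_le z y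
  have h5 := congrArg List.length h1
  have h6 := congrArg List.length h2
  have h7 := congrArg List.length h3
  obtain ⟨s, l, hl⟩ := List.exists_cons_of_ne_nil (mt toWord_eq_nil_iff.1 hz)
  have h8 : (φ z).toWord.length = 4 * z.toWord.length := by
    rw [φ_word, List.length_flatMap]; simp [mul_comm]
  have h9 : c.length ≤ 1 := by
    by_contra h10
    obtain ⟨q, rfl⟩ : [(false, true), (true, true)] <:+ c :=
      List.suffix_of_suffix_length_le (h ▸ List.suffix_append _ _) (h1 ▸ List.suffix_append _ _)
        (by simp; omega)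
    rw [φ_word, hl] at h2
    simp only [invRev, List.map_append, List.reverse_append, List.flatMap_cons, List.replicate,
      List.map_cons, List.map_nil, List.reverse_cons, List.reverse_nil, List.nil_append,
      List.cons_append, List.cons.injEq] at h2
    simpa using h2.1.symm.trans h2.2.1
  have h11 : 1 ≤ z.toWord.length := by rw [hl]; simp
  simp only [FreeGroup.norm, List.length_append, invRev_length] at *
  omega

noncomputable def X₀ : Finset F := {of false, of true}

theorem mem_ball {n : ℕ} {w : F} : w ∈ ball X₀ n ↔ w.norm ≤ n := by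
  induction n generalizing w with
  | zero => simp [ball_zero]
  | succ n ih =>
    rw [mem_succ]
    constructor
    · rintro ⟨s, hs, h, hh, rfl⟩
      have : s.norm ≤ 1 := by
        rcases hs with rfl | hs | hs
        · simp
        · simp [X₀] at hs; rcases hs with rfl | rfl <;> simp
        · rw [← norm_inv_eq]; simp [X₀] at hs; rcases hs with hs | hs <;> simp [hs]
      have := norm_mul_le s h
      have := ih.1 hh
      omega
    · intro h
      cases hw : w.toWord with
      | nil => exact ⟨1, .inl rfl, 1, one_mem n, by simp [toWord_eq_nil_iff.1 hw]⟩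
      | cons s l =>
        refine ⟨mk [s], .inr ?_, mk l, ih.2 (norm_mk_le.trans ?_), by
          rw [mul_mk, List.singleton_append, ← hw, mk_toWord]⟩
        · rcases s with ⟨_ | _, _ | _⟩ <;> simp [X₀, inv_mk, invRev, of]
        · rw [FreeGroup.norm, hw] at h
          simpa using h

def ext1 (w : F) (ε : Bool) : List (Bool × Bool) :=
  w.toWord ++ [(!(w.toWord.getLast?.getD (true, true)).1, ε)]

theorem ext_red (w : F) (ε : Bool) : IsReduced (ext1 w ε) :=
  List.isChain_append.2 ⟨isReduced_toWord, by simp, fun a ha b hb h => by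
    simp only [List.head?_cons, Option.mem_def, Option.some.injEq] at ha hb
    simp [← hb, ha] at h⟩

theorem grow (n : ℕ) : 2 * (ball X₀ n).card ≤ (ball X₀ (n + 1)).card := by
  rw [mul_comm, ← Fintype.card_bool, ← Finset.card_univ, ← Finset.card_product]
  refine Finset.card_le_card_of_injOn (fun p => mk (ext1 p.1 p.2)) (fun p hp => mem_ball.2
    (norm_mk_le.trans ?_)) fun p _ q _ e => ?_
  · have := mem_ball.1 (Finset.mem_product.1 hp).1
    simpa [ext1, FreeGroup.norm] using this
  · have := congrArg toWord e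
    rw [toWord_mk, toWord_mk, (ext_red _ _).reduce_eq, (ext_red _ _).reduce_eq] at this
    obtain ⟨h1, h2⟩ := List.append_inj' this rfl
    exact Prod.ext (toWord_injective h1) (by simpa using congrArg (·.map Prod.snd) h2)

theorem grow' (n : ℕ) : (ball X₀ (n + 3)).card ≤ 125 * (ball X₀ n).card := by
  have : X₀.card ≤ 2 := Finset.card_le_two
  exact (card_add 3 n).trans (Nat.mul_le_mul_right _ (Nat.pow_le_pow_left (m := 5) (by omega) 3))

def lift3 (w : F) : F := mk (ext1 w true ++ [(false, true), (true, true)])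

theorem lift3_word (w : F) : (lift3 w).toWord = ext1 w true ++ [(false, true), (true, true)] :=
  IsReduced.reduce_eq (List.isChain_append.2 ⟨ext_red _ _, by simp, fun a ha b hb _ => by
    simp only [ext1, List.getLast?_concat, List.head?_cons, Option.mem_def, Option.some.injEq] at ha hb
    simp [← hb, ← ha]⟩)

theorem lift3_mem {n : ℕ} {w : F} (h : w ∈ ball X₀ n) : lift3 w ∈ ball X₀ (n + 3) := by
  have := mem_ball.1 h
  rw [mem_ball, FreeGroup.norm, lift3_word]
  simpa [ext1, FreeGroup.norm] using this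

theorem lift3_inj {w w' z : F} (e : lift3 w' = z * lift3 w * (φ z)⁻¹) : w' = w := by
  have h : lift3 w' = lift3 w := by
    rcases le_total (lift3 w).norm (lift3 w').norm with h | h
    · rw [e, rigid (z := z) (lift3_word w') h (by rw [e]; group)]; simp
    · rw [e, inv_eq_one.1 (rigid (z := z⁻¹) (lift3_word w) h (by rw [e, _root_.map_inv]; group))]; simp
  have := congrArg toWord h
  rw [lift3_word, lift3_word] at this
  exact toWord_injective (List.append_inj' (List.append_inj' this rfl).1 rfl).1

theorem self_cls {G : Type} [Group G] (ψ : G →* G) (y : G) : y ∈ cls ψ y := ⟨1, by simp⟩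

theorem free_pos : 0 < tcr X₀ φ := by
  refine lt_of_lt_of_le (show (0 : ℝ) < 1 / 125 by norm_num) (le_limsup_of_frequently_le
    (Eventually.frequently (eventually_atTop.2 ⟨3, fun n hn => ?_⟩))
    (isBoundedUnder_of ⟨1, fun n => bdd φ n⟩))
  obtain ⟨n, rfl⟩ : ∃ m, n = m + 3 := ⟨n - 3, by omega⟩
  have h1 : (ball X₀ n).card ≤ ((ball X₀ (n + 3)).image (cls φ)).card :=
    Finset.card_le_card_of_injOn (fun w => cls φ (lift3 w))
      (fun w hw => Finset.mem_image_of_mem _ (lift3_mem hw)) fun w _ w' _ e => by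
        obtain ⟨z, hz⟩ : lift3 w ∈ cls φ (lift3 w') := (show cls φ _ = cls φ _ from e) ▸ self_cls φ _
        exact lift3_inj hz
  rw [div_le_div_iff₀ (by norm_num) (by exact_mod_cast card_pos _)]
  have := grow' n
  norm_cast
  omega

theorem gen₀ : Subgroup.closure (X₀ : Set F) = ⊤ := by
  rw [← closure_range_of]
  congr 1
  ext x
  simp [X₀, eq_comm]

abbrev T : Type := Multiplicative (ZMod 2)
def t : T := .ofAdd 1
theorem T_cases : ∀ x : T, x = 1 ∨ x = t := by decide

def ψ : F × T →* F × T := (MonoidHom.inl F T).comp (φ.comp (MonoidHom.fst F T))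
noncomputable def X₁ : Finset (F × T) := {(of false, 1), (of true, 1), (1, t)}
noncomputable def X₂ : Finset (F × T) := insert (1, t) (X₀ ×ˢ Finset.univ)

theorem cls_ψ (w : F) (ε : T) : cls ψ (w, ε) = cls ψ (w, 1) := by
  ext x
  exact ⟨fun ⟨z, h⟩ => ⟨z * (1, ε), by rw [h]; ext <;> simp [ψ]⟩,
    fun ⟨z, h⟩ => ⟨z * (1, ε⁻¹), by rw [h]; ext <;> simp [ψ]⟩⟩

theorem ball₁ (n : ℕ) : (∀ w ∈ ball X₀ n, (w, 1) ∈ ball X₁ n) ∧
    ∀ g ∈ ball X₁ n, g.1.norm + (if g.2 = 1 then 0 else 1) ≤ n := by
  induction n with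
  | zero => simp [ball_zero]
  | succ n ih =>
    refine ⟨fun w hw => ?_, fun g hg => ?_⟩
    · obtain ⟨s, hs, h, hh, rfl⟩ := mem_succ.1 hw
      refine mem_succ.2 ⟨(s, 1), ?_, _, ih.1 h hh, by simp⟩
      simp only [X₀, X₁, Finset.mem_insert, Finset.mem_singleton, Prod.inv_mk, Prod.mk.injEq] at hs ⊢
      simp only [Prod.ext_iff]
      tauto
    · obtain ⟨⟨s, e⟩, hs, ⟨h, e'⟩, hh, rfl⟩ := mem_succ.1 hg
      have h1 := ih.2 _ hh
      have h2 := norm_mul_le s h
      have h3 : (s.norm ≤ 1 ∧ e = 1) ∨ s = 1 := by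
        simp only [X₁, Finset.mem_insert, Finset.mem_singleton, Prod.inv_mk, Prod.ext_iff,
          inv_eq_iff_eq_inv] at hs
        rcases hs with hs | (hs | hs | hs) | hs | hs | hs <;> simp [hs.1, hs.2]
      rcases h3 with ⟨h3, rfl⟩ | rfl
      · simp only [Prod.mk_mul_mk, one_mul] at *
        omega
      · simp only [Prod.mk_mul_mk, one_mul] at *
        split_ifs at * <;> omega

theorem ball₂ (n : ℕ) : ball X₂ (n + 1) = ball X₀ (n + 1) ×ˢ Finset.univ := by
  have : insert 1 ((X₂ : Set (F × T)) ∪ (X₂ : Set (F × T))⁻¹) =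
      insert 1 ((X₀ : Set F) ∪ (X₀ : Set F)⁻¹) ×ˢ Set.univ := by
    ext ⟨w, e⟩
    rcases T_cases e with rfl | rfl <;> simp [X₂, Prod.ext_iff, show t⁻¹ = t by decide,
      show t ≠ 1 by decide, show 1 ≠ t by decide] <;> tauto
  apply Finset.coe_injective
  rw [Finset.coe_product, coe_ball, coe_ball, this, Set.prod_pow, Set.univ_pow (by omega),
    Finset.coe_univ]

theorem differ : tcr X₂ ψ < tcr X₁ ψ := by
  have h0 : ∀ n, (ball X₁ (n + 1)).image (cls ψ) = (ball X₂ (n + 1)).image (cls ψ) := fun n => by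
    ext C
    simp only [Finset.mem_image, ball₂, Finset.mem_product, Finset.mem_univ, and_true]
    constructor
    · rintro ⟨g, hg, rfl⟩
      exact ⟨g, mem_ball.2 (le_self_add.trans ((ball₁ _).2 g hg)), rfl⟩
    · rintro ⟨⟨w, e⟩, hg, rfl⟩
      exact ⟨_, (ball₁ _).1 w hg, (cls_ψ w e).symm⟩
  have hb := fun X : Finset (F × T) => isBoundedUnder_of (r := (· ≤ ·)) (f := atTop)
    ⟨1, fun n => bdd (X := X) ψ n⟩
  refine lt_of_lt_of_le (lt_add_of_pos_right _ (show (0 : ℝ) < 1 / 2000 by norm_num))
    (le_limsup_of_frequently_le ?_ (hb _))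
  refine ((frequently_lt_of_lt_limsup (b := tcr X₂ ψ - 1 / 2000) (isCoboundedUnder_le_of_le
    (x := 0) _ fun n => by positivity) (sub_lt_self _ (by norm_num))).and_eventually
    (eventually_ge_atTop 3)).mono fun n ⟨h1, hn⟩ => ?_
  obtain ⟨n, rfl⟩ : ∃ m, n = m + 3 := ⟨n - 3, by omega⟩
  have h2 : (ball X₀ n).card ≤ ((ball X₁ (n + 3)).image (cls ψ)).card :=
    Finset.card_le_card_of_injOn (fun w => cls ψ (lift3 w, 1))
      (fun w hw => Finset.mem_image_of_mem _ ((ball₁ _).1 _ (lift3_mem hw))) fun w _ w' _ e => by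
        obtain ⟨z, hz⟩ : (lift3 w, 1) ∈ cls ψ (lift3 w', 1) := (show cls ψ _ = cls ψ _ from e) ▸ self_cls ψ _
        exact lift3_inj (congrArg Prod.fst hz)
  have h3 : (ball X₁ (n + 3)).card ≤ (ball X₀ (n + 3)).card + (ball X₀ (n + 2)).card := by
    refine (Finset.card_le_card (t := ball X₀ (n + 3) ×ˢ {1} ∪ ball X₀ (n + 2) ×ˢ {t})
      fun ⟨w, e⟩ hg => ?_).trans ((Finset.card_union_le _ _).trans (by simp))
    have := (ball₁ _).2 _ hg
    rcases T_cases e with rfl | rfl
    · simp at this; simp [mem_ball, this]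
    · simp [show t ≠ 1 by decide] at this; simp [mem_ball, this]
  have h4 := grow (n + 2)
  have h5 := grow' n
  have h6 := card_pos (X := X₀) (n + 3)
  have h7 := card_pos (X := X₁) (n + 3)
  rw [← h0 (n + 2), ball₂ (n + 2), Finset.card_product] at h1
  simp only [Finset.card_univ, Fintype.card_multiplicative, ZMod.card] at h1
  generalize ((ball X₁ (n + 3)).image (cls ψ)).card = c at *
  generalize (ball X₁ (n + 3)).card = b₁ at *
  generalize (ball X₀ (n + 3)).card = b at *
  have k1 : (b : ℝ) ≤ 125 * c := by norm_cast; omega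
  have k2 : 2 * (b₁ : ℝ) ≤ 3 * b := by norm_cast; omega
  have k3 : (0 : ℝ) < b := by exact_mod_cast h6
  have k4 : (0 : ℝ) < b₁ := by exact_mod_cast h7
  have k5 : (c : ℝ) / (b * 2) + 1 / 1000 ≤ c / b₁ := by
    rw [le_div_iff₀ k4]
    refine le_trans (mul_le_mul_of_nonneg_left (show (b₁ : ℝ) ≤ 3 * b / 2 by linarith)
      (by positivity)) ?_
    field_simp
    nlinarith
  push_cast at h1
  linarith

theorem gen₁ {X : Finset (F × T)} (h1 : ∀ c, (of c, 1) ∈ X) (h2 : (1, t) ∈ X) :
    Subgroup.closure (X : Set (F × T)) = ⊤ := by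
  refine top_unique fun ⟨w, e⟩ _ => ?_
  have h3 : (1, e) ∈ Subgroup.closure (X : Set (F × T)) := by
    rcases T_cases e with rfl | rfl
    exacts [Subgroup.one_mem _, Subgroup.subset_closure h2]
  have h4 : ∀ w, (w, 1) ∈ Subgroup.closure (X : Set (F × T)) := fun w => by
    induction w using FreeGroup.induction_on with
    | C1 => exact Subgroup.one_mem _
    | of c => exact Subgroup.subset_closure (h1 c)
    | inv_of c h => simpa only [Prod.inv_mk, inv_one] using inv_mem h
    | mul x y h h' => simpa using mul_mem h h'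
  simpa using mul_mem (h4 w) h3

end Pool.Agent.H70.TC
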