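import Mathlib

/-! Degree of twisted commutativity and twisted conjugacy ratio. -/

namespace Pool.Agent.H70.TC

open Classical Pointwise

variable {G : Type} [Group G]

/-- The ball of radius `n`: products of `n` factors from `X ∪ X⁻¹ ∪ {1}`, that is, products of at
most `n` elements of `X ∪ X⁻¹`. -/
noncomputable def ball (X : Finset G) (n : ℕ) : Finset G := insert 1 (X ∪ X⁻¹) ^ n

/-- The degree of `φ`-twisted commutativity with respect to `X`. -/
noncomputable def tdc (X : Finset G) (φ : G →* G) : ℝ :=
  Filter.limsup (fun n => (((ball X n ×ˢ ball X n).filter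
    fun p => p.1 * p.2 = p.2 * φ p.1).card : ℝ) / (ball X n).card ^ 2) Filter.atTop

/-- The `φ`-conjugacy class of `y`. -/
def cls (φ : G →* G) (y : G) : Set G := {x | ∃ z, x = z * y * (φ z)⁻¹}

/-- The `φ`-twisted conjugacy ratio with respect to `X`. -/
noncomputable def tcr (X : Finset G) (φ : G →* G) : ℝ :=
  Filter.limsup (fun n => (((ball X n).image (cls φ)).card : ℝ) / (ball X n).card) Filter.atTop

/-- The degree of twisted commutativity of a finite group. -/
noncomputable def tdcF (ψ : G →* G) : ℝ :=
  (Nat.card {p : G × G // p.1 * p.2 = p.2 * ψ p.1} : ℝ) / Nat.card G ^ 2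

end Pool.Agent.H70.TC
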