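import Mathlib

namespace Pool.Agent.H70.Tr
open Monoid Monoid.CoprodI

structure PP (G : Type) [Group G] (M : ℕ) where
  X : Set G
  one : 1 ∉ X
  a : G
  ha : ∀ g, g ∉ X → g ≠ 1 → a⁻¹ * g * a ∈ X
  b : ℕ → G
  hb1 : ∀ i, ∀ g ∈ X, g * (b i)⁻¹ ∈ X
  hb2 : ∀ i, ∀ g ∈ X, b i * g ∉ X
  hb3 : ∀ i j, ∀ g ∈ X, ∀ g' ∈ X, b i * g = b j * g' → i = j
  pw : ∀ S : Finset G, 1 ∉ S → ∃ a : G, ∀ g ∈ S, ∀ y, y ∉ X → a * g * a⁻¹ * y ∈ X
  j : Multiplicative (ZMod M) × G →* G
  j_inj : Function.Injective j
  κ : G →* G
  κκ : ∀ g, κ (κ g) = g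
  κj : ∀ k g, κ (j (k, g)) = j (k⁻¹, κ g)

section free
variable {P : Type} [Group P]

abbrev FP (P : Type) [Group P] : Type := CoprodI fun _ : Bool => P

abbrev oF (i : Bool) : P →* FP P := CoprodI.of (M := fun _ : Bool => P) (i := i)

open Classical in
def St (i : Bool) (g : FP P) : Prop := (Word.equiv g).fstIdx = some i

lemma st_uniq {i j : Bool} {g : FP P} (h : St i g) (h' : St j g) : i = j := by
  unfold St at h h'; rw [h] at h'; exact Option.some.inj h'

open Classical in
lemma equiv_prod (w : Word fun _ : Bool => P) : Word.equiv w.prod = w :=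
  Word.equiv.apply_symm_apply w

open Classical in
lemma prod_equiv (g : FP P) : (Word.equiv g).prod = g := Word.equiv.symm_apply_apply g

lemma st_one (i : Bool) : ¬ St i (1 : FP P) := by
  classical
  unfold St; rw [← Word.prod_empty, equiv_prod]; simp [Word.fstIdx]

lemma st_cons {i : Bool} {m : P} (hm : m ≠ 1) {g : FP P} (h : ¬ St i g) : St i (oF i m * g) := by
  unfold St at *
  rw [← prod_equiv g, ← Word.prod_cons i m _ hm h, equiv_prod]; simp

lemma st_ex {g : FP P} (h : g ≠ 1) : ∃ i, St i g := by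
  classical
  unfold St
  rw [← prod_equiv g] at h
  generalize Word.equiv g = w at h
  induction w using Word.consRecOn with
  | empty => exact absurd rfl h
  | cons i m w h1 h2 _ => exact ⟨i, by simp⟩

lemma st_dec (i : Bool) (g : FP P) : ∃ m g', g = oF i m * g' ∧ ¬ St i g' := by
  classical
  refine ⟨(Word.equivPair i (Word.equiv g)).head, (Word.equivPair i (Word.equiv g)).tail.prod,
    ?_, ?_⟩
  · rw [← Word.prod_rcons, ← Word.equivPair_symm, Equiv.symm_apply_apply, prod_equiv]
  · unfold St; rw [equiv_prod]; exact (Word.equivPair i _).fstIdx_ne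

lemma st_inj {i : Bool} {m m' : P} {g g' : FP P} (h : ¬ St i g) (h' : ¬ St i g')
    (e : oF i m * g = oF i m' * g') : m = m' := by
  classical
  have : Word.rcons (M := fun _ : Bool => P) ⟨m, Word.equiv g, h⟩ =
      Word.rcons ⟨m', Word.equiv g', h'⟩ := by
    rw [← equiv_prod (Word.rcons _), ← equiv_prod (Word.rcons ⟨m', _, _⟩), Word.prod_rcons,
      Word.prod_rcons, prod_equiv, prod_equiv]
    exact congrArg _ e
  exact congrArg Word.Pair.head (Word.rcons_inj this)

lemma st_of {i j : Bool} (hij : i ≠ j) (m : P) : ¬ St i (oF j m) := by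
  by_cases hm : m = 1
  · rw [hm, map_one]; exact st_one i
  · intro h
    have := st_cons (i := j) hm (st_one j)
    rw [mul_one] at this
    exact hij (st_uniq h this)

lemma st_key (j : Bool) (g : FP P) : ∃ m0 : P, ∀ u, (∀ i, i ≠ j → ¬ St i (oF j m0 * u)) →
    (∃ m, g = oF j m) ∨ ∀ i, St i g → St i (g * u) := by
  classical
  rw [← prod_equiv g]
  generalize Word.equiv g = w
  induction w using Word.consRecOn with
  | empty => exact ⟨1, fun u _ => Or.inl ⟨1, by simp⟩⟩
  | cons i l w h1 h2 ih =>
    have hw : ¬ St i w.prod := by unfold St; rwa [equiv_prod]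
    have hs : St i (oF i l * w.prod) := st_cons h2 hw
    rw [Word.prod_cons]
    by_cases hP : ∃ m, w.prod = oF j m
    · obtain ⟨m, hm⟩ := hP
      refine ⟨m, fun u hu => ?_⟩
      by_cases hij : i = j
      · subst hij; exact Or.inl ⟨l * m, by rw [hm, map_mul]⟩
      · refine Or.inr fun i' hi' => ?_
        obtain rfl := st_uniq hs hi'
        rw [mul_assoc, hm]; exact st_cons h2 (hu i hij)
    · obtain ⟨m0, h0⟩ := ih
      refine ⟨m0, fun u hu => Or.inr fun i' hi' => ?_⟩
      obtain rfl := st_uniq hs hi'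
      obtain ⟨i', hi''⟩ := st_ex (g := w.prod) fun h => hP ⟨1, by rw [h, map_one]⟩
      rw [mul_assoc]
      refine st_cons h2 fun h => hw ?_
      rwa [st_uniq h (((h0 u hu).resolve_left hP) i' hi'')]

lemma st_right {i j : Bool} (hij : i ≠ j) {g : FP P} (h : St i g) (m : P) :
    St i (g * oF j m) := by
  obtain ⟨m0, h0⟩ := st_key j g
  rcases h0 (oF j m) (fun i' hi' => by rw [← map_mul]; exact st_of hi' _) with ⟨m', rfl⟩ | h1
  · exact absurd h (st_of hij _)
  · exact h1 i h

lemma st_pw {g : FP P} (hg : g ≠ 1) : ∀ᶠ a : P in Filter.cofinite, ∀ y, ¬ St true y →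
    St true (oF true a * g * (oF true a)⁻¹ * y) := by
  obtain ⟨l, g', rfl, hg'⟩ := st_dec true g
  obtain ⟨m0, h0⟩ := st_key true g'
  filter_upwards [Filter.eventually_cofinite_ne m0, Filter.eventually_cofinite_ne l⁻¹]
    with a h1 h2 y hy
  by_cases e : g' = 1
  · subst e
    rw [mul_one, ← map_inv, ← map_mul, ← map_mul]
    refine st_cons ?_ hy
    intro h
    apply hg
    rw [mul_inv_eq_one, mul_eq_left] at h
    rw [h, map_one, one_mul]
  · obtain ⟨i, hi⟩ := st_ex e
    have h3 : St true (oF true m0 * ((oF true a)⁻¹ * y)) := by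
      rw [← mul_assoc, ← map_inv, ← map_mul]
      exact st_cons (by rw [Ne, mul_inv_eq_one]; exact h1.symm) hy
    rcases h0 _ (fun i hi h => hi (st_uniq h h3)) with ⟨m, rfl⟩ | h4
    · obtain rfl : i = true := by
        by_contra hc; exact st_of hc _ hi
      exact absurd hi hg'
    · have h5 := h4 i hi
      rw [← mul_assoc, ← map_mul, mul_assoc, mul_assoc]
      refine st_cons (by rwa [Ne, mul_eq_one_iff_eq_inv]) fun h => hg' ?_
      rwa [st_uniq h h5]

theorem exists_PP [Infinite P] {M : ℕ} (ψ : Multiplicative (ZMod M) × FP P →* P)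
    (hψ : Function.Injective ψ) (κ : P →* P) (κκ : ∀ g, κ (κ g) = g)
    (hκ : ∀ k g, κ (ψ (k, g)) = ψ (k⁻¹, CoprodI.lift (fun i => (oF i).comp κ) g)) :
    Nonempty (PP (FP P) M) := by
  classical
  obtain ⟨a, ha⟩ := exists_ne (1 : P)
  haveI : Infinite {x : P // x ≠ 1} := by
    have := (Set.finite_singleton (1 : P)).infinite_compl
    exact this.to_subtype
  let e := Infinite.natEmbedding {x : P // x ≠ 1}
  have nt : ∀ {g : FP P}, St true g → ¬ St false g := fun h h' => by simpa using st_uniq h h'
  refine ⟨{ X := {g | St true g}, one := st_one true, a := oF true a, ha := ?_,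
            b := fun n => oF false (e n).1, hb1 := ?_, hb2 := ?_, hb3 := ?_, pw := ?_,
            j := (oF true).comp ψ, j_inj := (CoprodI.of_injective true).comp hψ,
            κ := CoprodI.lift fun i => (oF i).comp κ, κκ := ?_, κj := ?_ }⟩
  · intro g h1 h2
    obtain ⟨i, hi⟩ := st_ex h2
    obtain rfl : i = false := by
      cases i
      · rfl
      · exact absurd hi h1
    rw [mul_assoc, ← map_inv]
    exact st_cons (inv_ne_one.mpr ha) fun h => nt h (st_right (by simp) hi a)
  · intro i g hg
    rw [← map_inv]; exact st_right (by simp) hg _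
  · intro i g hg h
    exact nt h (st_cons (e i).2 (nt hg))
  · intro i j g hg g' hg' h
    exact e.injective (Subtype.ext (st_inj (nt hg) (nt hg') h))
  · intro S hS
    obtain ⟨a, ha⟩ := ((Filter.eventually_all_finset S).mpr fun g hg =>
      st_pw (g := g) fun h => hS (h ▸ hg)).exists
    exact ⟨oF true a, ha⟩
  · intro g
    induction g using CoprodI.induction_on with
    | one => simp
    | of i m => simp [κκ]
    | mul x y hx hy => simp only [map_mul, hx, hy]
  · intro k g
    simp [hκ]

end free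

def rels (M : ℕ) : Set (FreeGroup (List Bool)) :=
  {r | (∃ w, r = FreeGroup.of w ^ M) ∨ ∃ w w', w <+: w' ∧
    r = FreeGroup.of w * FreeGroup.of w' * (FreeGroup.of w' * FreeGroup.of w)⁻¹}

abbrev PG (M : ℕ) : Type := PresentedGroup (rels M)

noncomputable def mkh {M : ℕ} {H : Type} [Group H] (f : List Bool → H) (h1 : ∀ w, f w ^ M = 1)
    (h2 : ∀ w w', w <+: w' → Commute (f w) (f w')) : PG M →* H :=
  PresentedGroup.toGroup (f := f) (by
    rintro r (⟨w, rfl⟩ | ⟨w, w', h, rfl⟩)
    · simp [h1]
    · simp [(h2 w w' h).eq])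

lemma mkh_of {M : ℕ} {H : Type} [Group H] (f : List Bool → H) (h1 h2) (w : List Bool) :
    mkh (M := M) f h1 h2 (PresentedGroup.of w) = f w := PresentedGroup.toGroup.of _

lemma z_pow (M : ℕ) (w : List Bool) : (PresentedGroup.of w : PG M) ^ M = 1 :=
  (map_pow (PresentedGroup.mk (rels M)) _ _).symm.trans
    (PresentedGroup.one_of_mem (Or.inl ⟨w, rfl⟩))

lemma z_comm (M : ℕ) {w w' : List Bool} (h : w <+: w') :
    Commute (PresentedGroup.of w : PG M) (PresentedGroup.of w') :=
  PresentedGroup.mk_eq_mk_of_mul_inv_mem (rels := rels M) (Or.inr ⟨w, w', h, rfl⟩)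

theorem exists_group (M : ℕ) (hM : 2 ≤ M) : Nonempty (PP (FP (PG M)) M) := by
  haveI : NeZero M := ⟨by omega⟩
  haveI : Fact (1 < M) := ⟨hM⟩
  let z : PG M := PresentedGroup.of []
  let sh : Bool → PG M →* PG M := fun i => mkh (fun w => PresentedGroup.of (i :: w))
    (fun w => z_pow M _) fun w w' h => z_comm M (by simpa using h)
  let c : Multiplicative (ZMod M) →* PG M := AddMonoidHom.toMultiplicativeLeft
    (ZMod.lift M ⟨zmultiplesHom _ (Additive.ofMul z), by
      change Additive.ofMul (z ^ (M : ℤ)) = 0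
      rw [zpow_natCast, z_pow]; rfl⟩)
  have hc : ∀ n : ℤ, c (Multiplicative.ofAdd (n : ZMod M)) = z ^ n := fun n => by
    simp [c]
  have sur : ∀ k : Multiplicative (ZMod M), ∃ n : ℤ, k = Multiplicative.ofAdd (n : ZMod M) :=
    fun k => ⟨k.toAdd.val, by simp⟩
  have zc : ∀ g : PG M, Commute z g := by
    intro g
    have : (MulAut.conj z).toMonoidHom = MonoidHom.id _ := PresentedGroup.ext fun w => by
      simp [(z_comm M (List.nil_prefix (l := w))).eq, z]
    have h2 := DFunLike.congr_fun this g
    simp only [MulEquiv.coe_toMonoidHom, MulAut.conj_apply, MonoidHom.id_apply] at h2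
    exact mul_inv_eq_iff_eq_mul.mp h2
  let ψ : Multiplicative (ZMod M) × FP (PG M) →* PG M := c.noncommCoprod (CoprodI.lift sh)
    fun k g => by obtain ⟨n, rfl⟩ := sur k; rw [hc]; exact (zc _).zpow_left n
  let f : List Bool → Multiplicative (ZMod M) × FP (PG M) := fun w => match w with
    | [] => (Multiplicative.ofAdd 1, 1)
    | i :: w => (1, oF i (PresentedGroup.of w))
  let φ : PG M →* Multiplicative (ZMod M) × FP (PG M) := mkh f (by
      rintro (_ | ⟨i, w⟩)
      · simp [f, ← ofAdd_nsmul]
      · simp [f, ← map_pow, z_pow]) (by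
      rintro (_ | ⟨i, w⟩) (_ | ⟨i', w'⟩) h
      · exact Commute.refl _
      · simp [f, Commute, SemiconjBy]
      · simp at h
      · obtain rfl := (List.cons_prefix_cons.mp h).1
        exact Commute.prod (Commute.refl _) ((z_comm M (List.cons_prefix_cons.mp ‹_›).2).map (oF i)))
  have h1 : ∀ g, φ (CoprodI.lift sh g) = (1, g) := by
    intro g
    induction g using CoprodI.induction_on with
    | one => simp; rfl
    | of i m =>
      have : φ.comp (sh i) = (MonoidHom.inr _ _).comp (oF i) := PresentedGroup.ext fun w => by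
        simp [φ, sh, mkh_of, f]
      simpa using DFunLike.congr_fun this m
    | mul x y hx hy => simp [hx, hy]
  have hψ : Function.Injective ψ := by
    refine Function.LeftInverse.injective (g := φ) ?_
    rintro ⟨k, g⟩
    obtain ⟨n, rfl⟩ := sur k
    simp only [ψ, MonoidHom.noncommCoprod_apply, map_mul, hc, h1, map_zpow, z, φ, mkh_of, f]
    simp [← ofAdd_zsmul]
  haveI : Infinite (PG M) := by
    by_contra hf
    rw [not_infinite_iff_finite] at hf
    haveI : Finite (Multiplicative (ZMod M) × PG M) := inferInstance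
    have := Nat.card_le_card_of_injective (fun p : Multiplicative (ZMod M) × PG M =>
      ψ (p.1, oF true p.2)) (fun p q h => by
        have := hψ h
        exact Prod.ext (Prod.ext_iff.mp this).1
          (CoprodI.of_injective true (Prod.ext_iff.mp this).2))
    rw [Nat.card_prod, Nat.card_eq_fintype_card, Fintype.card_multiplicative, ZMod.card] at this
    have h2 : 0 < Nat.card (PG M) := Nat.card_pos
    nlinarith
  let κ : PG M →* PG M := mkh (fun w => (PresentedGroup.of w)⁻¹)
    (fun w => by rw [inv_pow, z_pow, inv_one]) fun w w' h => (z_comm M h).inv_inv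
  refine exists_PP ψ hψ κ (fun g => ?_) fun k g => ?_
  · exact DFunLike.congr_fun (show κ.comp κ = MonoidHom.id _ from
      PresentedGroup.ext fun w => by simp [κ, mkh_of]) g
  · obtain ⟨n, rfl⟩ := sur k
    have e1 : (Multiplicative.ofAdd (n : ZMod M))⁻¹ = Multiplicative.ofAdd ((-n : ℤ) : ZMod M) := by
      simp
    rw [e1]
    simp only [ψ, MonoidHom.noncommCoprod_apply, map_mul, hc, map_zpow, z, κ, mkh_of]
    congr 1
    · simp
    induction g using CoprodI.induction_on with
    | one => simp
    | of i m =>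
      have : κ.comp (sh i) = (sh i).comp κ := PresentedGroup.ext fun w => by
        simp [κ, sh, mkh_of]
      simpa using DFunLike.congr_fun this m
    | mul x y hx hy => simp only [map_mul, hx, hy]

end Pool.Agent.H70.Tr
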