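import Pool.Agent.H70.Rk6
import Pool.Agent.H70.Tr1

namespace Pool.Agent.H70.Tr
open scoped InnerProductSpace
open Finset Pool.Agent.H70.Rk

variable {H : Type} [NormedAddCommGroup H] [InnerProductSpace ℂ H] [CompleteSpace H]

lemma permRep {Γ G : Type} [Group G] (b : HilbertBasis Γ ℂ H) (ρ : G →* Equiv.Perm Γ) :
    ∃ U : G →* (H →L[ℂ] H), (∀ g x, U g (b x) = b (ρ g x)) ∧ ∀ g, star (U g) = U g⁻¹ := by
  choose U hU h1 h2 using fun g => mono b (ρ g) (fun _ => 1) (by simp)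
  simp only [one_smul] at hU
  have m : ∀ k l, U (k * l) = U k * U l := fun k l => hb_ext b fun x => by simp [hU]
  have o : U 1 = 1 := hb_ext b fun x => by simp [hU]
  refine ⟨⟨⟨U, o⟩, m⟩, hU, fun k => ?_⟩
  change star (U k) = U k⁻¹
  calc star (U k) = star (U k) * (U k * U k⁻¹) := by rw [← m, mul_inv_cancel, o, mul_one]
    _ = _ := by rw [← mul_assoc, h1, one_mul]

open Classical in
lemma exProj {Γ : Type} (b : HilbertBasis Γ ℂ H) (S : Set Γ) :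
    ∃ P : H →L[ℂ] H, (∀ x, P (b x) = if x ∈ S then b x else 0) ∧ star P = P := by
  obtain ⟨Z, hZ, h1, -⟩ := mono b (Equiv.refl Γ) (fun x => if x ∈ S then 1 else -1)
    (fun x => by split_ifs <;> simp)
  have h2 : Z * Z = 1 := hb_ext b fun x => by
    by_cases h : x ∈ S <;> simp [hZ, h]
  have h3 : star Z = Z := by
    calc star Z = star Z * (Z * Z) := by rw [h2, mul_one]
      _ = _ := by rw [← mul_assoc, h1, one_mul]
  refine ⟨(1 / 2 : ℂ) • (1 + Z), fun x => ?_, by simp [h3]⟩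
  by_cases h : x ∈ S <;> simp [hZ, h]
  module

lemma pyth {P Q : H →L[ℂ] H} (hP : star P = P) (h : P * Q = 0) (x y : H) :
    ‖P x + Q y‖ ^ 2 = ‖P x‖ ^ 2 + ‖Q y‖ ^ 2 := by
  rw [sq, sq, sq]
  refine norm_add_sq_eq_norm_sq_add_norm_sq_of_inner_eq_zero (𝕜 := ℂ) _ _ ?_
  rw [← ContinuousLinearMap.adjoint_inner_right, ← ContinuousLinearMap.star_eq_adjoint, hP,
    ← ContinuousLinearMap.mul_apply, h]; simp

lemma orth_sum (Q T : ℕ → H →L[ℂ] H) (hQ : ∀ i, star (Q i) = Q i) (hQ1 : ∀ i, ‖Q i‖ ≤ 1)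
    (hO : ∀ i j, i ≠ j → Q i * Q j = 0) (hT : ∀ i, ‖T i‖ ≤ 1) (N : ℕ) :
    ‖∑ i ∈ range N, Q i * T i‖ ≤ √N := by
  refine ContinuousLinearMap.opNorm_le_bound _ (by positivity) fun x => ?_
  have : ‖(∑ i ∈ range N, Q i * T i) x‖ ^ 2 ≤ N * ‖x‖ ^ 2 := by
    induction N with
    | zero => simp
    | succ N ih =>
      rw [sum_range_succ, add_comm, ContinuousLinearMap.add_apply, ContinuousLinearMap.mul_apply,
        pyth (hQ N)]
      · have h1 : ‖Q N (T N x)‖ ≤ ‖x‖ := ((Q N).le_of_opNorm_le (hQ1 N) _).trans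
          (by simpa using (T N).le_of_opNorm_le (hT N) x)
        have h2 := pow_le_pow_left₀ (norm_nonneg _) h1 2
        rw [Nat.cast_succ, add_mul, one_mul, add_comm]
        exact add_le_add ih h2
      · rw [mul_sum]
        exact sum_eq_zero fun i hi => by
          rw [← mul_assoc, hO N i (mem_range.mp hi).ne', zero_mul]
  refine (pow_le_pow_iff_left₀ (norm_nonneg _) (by positivity) two_ne_zero).mp ?_
  rwa [mul_pow, Real.sq_sqrt (by positivity)]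

open Classical in
structure Reg (G H : Type) [Group G] [NormedAddCommGroup H] [InnerProductSpace ℂ H]
    [CompleteSpace H] where
  b : HilbertBasis G ℂ H
  U : G →* (H →L[ℂ] H)
  V : G →* (H →L[ℂ] H)
  P : Set G → H →L[ℂ] H
  hU : ∀ g h, U g (b h) = b (g * h)
  hV : ∀ g h, V g (b h) = b (h * g⁻¹)
  sU : ∀ g, star (U g) = U g⁻¹
  sV : ∀ g, star (V g) = V g⁻¹
  hP : ∀ S x, P S (b x) = if x ∈ S then b x else 0
  sP : ∀ S, star (P S) = P S

variable {G : Type} [Group G]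

lemma exists_reg (b : HilbertBasis G ℂ H) : ∃ R : Reg G H, R.b = b := by
  obtain ⟨U, hU, sU⟩ := permRep b (MulAction.toPermHom G G)
  obtain ⟨V, hV, sV⟩ := permRep b (MonoidHom.mk' (fun g : G => Equiv.mulRight g⁻¹)
    fun g h => by ext; simp [mul_assoc])
  choose P hP sP using exProj b
  exact ⟨⟨b, U, V, P, hU, hV, sU, sV, hP, sP⟩, rfl⟩

namespace Reg
variable (R : Reg G H)

noncomputable def Ω : H := R.b 1
noncomputable def τ (x : H →L[ℂ] H) : ℂ := ⟪R.Ω, x R.Ω⟫_ℂ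
def InM (x : H →L[ℂ] H) : Prop := ∀ g, Commute x (R.V g)
noncomputable def D : StarSubalgebra ℂ (H →L[ℂ] H) := cstarGen (Set.range R.U)

lemma norm_Ω : ‖R.Ω‖ = 1 := R.b.orthonormal.1 1
lemma τ_add (x y : H →L[ℂ] H) : R.τ (x + y) = R.τ x + R.τ y := by simp [τ]
lemma τ_sub (x y : H →L[ℂ] H) : R.τ (x - y) = R.τ x - R.τ y := by simp [τ]
lemma τ_smul (a : ℂ) (x : H →L[ℂ] H) : R.τ (a • x) = a * R.τ x := by simp [τ]
lemma τ_zero : R.τ 0 = 0 := by simp [τ]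
lemma τ_one : R.τ 1 = 1 := by simp [τ, R.norm_Ω]
lemma τ_cont : Continuous R.τ := by unfold τ; fun_prop
lemma τ_sum {ι : Type} (s : Finset ι) (f : ι → H →L[ℂ] H) :
    R.τ (∑ i ∈ s, f i) = ∑ i ∈ s, R.τ (f i) := by simp [τ]
lemma τ_star_mul (x : H →L[ℂ] H) : R.τ (star x * x) = ((‖x R.Ω‖ ^ 2 : ℝ) : ℂ) := by
  simp [τ, ContinuousLinearMap.star_eq_adjoint, ContinuousLinearMap.adjoint_inner_right]
lemma τ_le' (x : H →L[ℂ] H) : ‖R.τ x‖ ≤ ‖x R.Ω‖ := by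
  have h1 := norm_inner_le_norm (𝕜 := ℂ) R.Ω (x R.Ω)
  rwa [R.norm_Ω, one_mul] at h1
lemma n2_le (x : H →L[ℂ] H) : ‖x R.Ω‖ ≤ ‖x‖ := by simpa [R.norm_Ω] using x.le_opNorm R.Ω
lemma τ_le (x : H →L[ℂ] H) : ‖R.τ x‖ ≤ ‖x‖ := (R.τ_le' x).trans (R.n2_le x)
open Classical in
lemma τ_U (g : G) : R.τ (R.U g) = if g = 1 then 1 else 0 := by
  rw [τ, Ω, R.hU, orthonormal_iff_ite.mp R.b.orthonormal]; simp [eq_comm]
lemma U_iso (g : G) : star (R.U g) * R.U g = 1 := by rw [R.sU, ← map_mul]; simp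
lemma V_iso (g : G) : star (R.V g) * R.V g = 1 := by rw [R.sV, ← map_mul]; simp
lemma norm_U (g : G) : ‖R.U g‖ ≤ 1 := norm_unit (R.U_iso g)
lemma V_Ω (g : G) : R.V g R.Ω = R.b g⁻¹ := by rw [Ω, R.hV, one_mul]

variable {R}
lemma InM.star {x : H →L[ℂ] H} (h : R.InM x) : R.InM (star x) := fun g => by
  simpa [R.sV] using (h g⁻¹).star_star
lemma InM.mul {x y : H →L[ℂ] H} (h : R.InM x) (h' : R.InM y) : R.InM (x * y) :=
  fun g => (h g).mul_left (h' g)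
lemma InM.sub {x y : H →L[ℂ] H} (h : R.InM x) (h' : R.InM y) : R.InM (x - y) :=
  fun g => (h g).sub_left (h' g)
lemma InM.add {x y : H →L[ℂ] H} (h : R.InM x) (h' : R.InM y) : R.InM (x + y) :=
  fun g => (h g).add_left (h' g)
lemma InM.one : R.InM 1 := fun _ => Commute.one_left _
lemma InM.apply {x : H →L[ℂ] H} (h : R.InM x) (g : G) : x (R.b g) = R.V g⁻¹ (x R.Ω) := by
  rw [← ContinuousLinearMap.mul_apply, ← (h _).eq, ContinuousLinearMap.mul_apply, V_Ω, inv_inv]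
lemma InM.sep {x : H →L[ℂ] H} (h : R.InM x) (h0 : x R.Ω = 0) : x = 0 :=
  hb_ext R.b fun g => by rw [h.apply, h0]; simp
lemma InM.τ_mul {x : H →L[ℂ] H} (h : R.InM x) (y : H →L[ℂ] H) :
    R.τ (x * y) = ∑' g, ⟪R.b g⁻¹, x R.Ω⟫_ℂ * ⟪R.b g, y R.Ω⟫_ℂ := by
  rw [τ, ContinuousLinearMap.mul_apply, ← ContinuousLinearMap.adjoint_inner_left,
    ← R.b.tsum_inner_mul_inner]
  refine tsum_congr fun g => ?_
  rw [ContinuousLinearMap.adjoint_inner_left, h.apply, ← R.sV, ContinuousLinearMap.star_eq_adjoint,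
    ContinuousLinearMap.adjoint_inner_right, V_Ω]
lemma InM.τ_comm {x y : H →L[ℂ] H} (h : R.InM x) (h' : R.InM y) : R.τ (x * y) = R.τ (y * x) := by
  rw [h.τ_mul, h'.τ_mul, ← (Equiv.inv G).tsum_eq]
  exact tsum_congr fun g => by simp [mul_comm]
lemma InM.n2_star {x : H →L[ℂ] H} (h : R.InM x) : ‖(Star.star x) R.Ω‖ = ‖x R.Ω‖ := by
  have := h.star.τ_comm h
  nth_rw 3 [← star_star x] at this
  rw [τ_star_mul, τ_star_mul] at this
  exact (pow_left_inj₀ (norm_nonneg _) (norm_nonneg _) two_ne_zero).mp (by exact_mod_cast this.symm)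
lemma InM.n2_mul {x y : H →L[ℂ] H} (h : R.InM x) (h' : R.InM y) :
    ‖(x * y) R.Ω‖ ≤ ‖x R.Ω‖ * ‖y‖ := by
  rw [← (h.mul h').n2_star, star_mul, ContinuousLinearMap.mul_apply, ← h.n2_star, mul_comm,
    ← norm_star y]
  exact ContinuousLinearMap.le_opNorm _ _
variable (R)

lemma D_closed : IsClosed (R.D : Set (H →L[ℂ] H)) := StarSubalgebra.isClosed_topologicalClosure _
lemma U_mem (g : G) : R.U g ∈ R.D :=
  StarSubalgebra.le_topologicalClosure _ (StarAlgebra.subset_adjoin ℂ _ ⟨g, rfl⟩)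

lemma mem_closure_span {x : H →L[ℂ] H} (hx : x ∈ R.D) :
    x ∈ closure (Submodule.span ℂ (Set.range R.U) : Set (H →L[ℂ] H)) := by
  refine closure_mono ?_ (show x ∈ closure (StarAlgebra.adjoin ℂ (Set.range R.U) : Set _) from hx)
  intro y hy
  induction hy using StarAlgebra.adjoin_induction with
  | mem x h => exact Submodule.subset_span h
  | algebraMap r =>
    rw [Algebra.algebraMap_eq_smul_one, ← map_one R.U]
    exact Submodule.smul_mem _ _ (Submodule.subset_span ⟨1, rfl⟩)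
  | add x y _ _ hx hy => exact add_mem hx hy
  | mul x y _ _ hx hy =>
    refine Submodule.span_induction₂ (p := fun x y _ _ => x * y ∈ Submodule.span ℂ (Set.range R.U))
      ?_ ?_ ?_ ?_ ?_ ?_ ?_ hx hy
    · rintro _ _ ⟨g, rfl⟩ ⟨h, rfl⟩
      rw [← map_mul]; exact Submodule.subset_span ⟨_, rfl⟩
    · intro y _; simp
    · intro y _; simp
    · intro x y z _ _ _ h1 h2; rw [add_mul]; exact add_mem h1 h2
    · intro x y z _ _ _ h1 h2; rw [mul_add]; exact add_mem h1 h2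
    · intro r x y _ _ h; rw [smul_mul_assoc]; exact Submodule.smul_mem _ _ h
    · intro r x y _ _ h; rw [mul_smul_comm]; exact Submodule.smul_mem _ _ h
  | star x h0 hx =>
    clear h0
    induction hx using Submodule.span_induction with
    | mem x h => obtain ⟨g, rfl⟩ := h; rw [R.sU]; exact Submodule.subset_span ⟨_, rfl⟩
    | zero => simp
    | add x y _ _ hx hy => rw [star_add]; exact add_mem hx hy
    | smul a x _ hx => rw [star_smul]; exact Submodule.smul_mem _ _ hx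

lemma ind {P : (H →L[ℂ] H) → Prop} (hc : IsClosed {x | P x}) (hU : ∀ g, P (R.U g))
    (h0 : P 0) (hadd : ∀ x y, P x → P y → P (x + y)) (hs : ∀ (a : ℂ) x, P x → P (a • x))
    {x : H →L[ℂ] H} (hx : x ∈ R.D) : P x := by
  refine closure_minimal (s := (Submodule.span ℂ (Set.range R.U) : Set (H →L[ℂ] H))) ?_ hc
    (R.mem_closure_span hx)
  intro y hy
  induction hy using Submodule.span_induction with
  | mem x h => obtain ⟨g, rfl⟩ := h; exact hU g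
  | zero => exact h0
  | add x y _ _ hx hy => exact hadd _ _ hx hy
  | smul a x _ hx => exact hs _ _ hx

lemma inM {x : H →L[ℂ] H} (hx : x ∈ R.D) : R.InM x := fun g =>
  R.ind (P := fun x => x * R.V g = R.V g * x) (isClosed_eq (by fun_prop) (by fun_prop))
    (fun h => hb_ext R.b fun k => by simp [R.hU, R.hV, mul_assoc]) (by simp)
    (fun a b h1 h2 => by rw [add_mul, mul_add, h1, h2])
    (fun a b h => by rw [smul_mul_assoc, mul_smul_comm, h]) hx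

lemma P_mul (S T : Set G) : R.P S * R.P T = R.P (S ∩ T) := hb_ext R.b fun x => by
  by_cases h : x ∈ S <;> by_cases h' : x ∈ T <;> simp [R.hP, h, h']
lemma P_norm (S : Set G) : ‖R.P S‖ ≤ 1 := norm_proj (R.sP S) (by rw [P_mul, Set.inter_self])
lemma P_mono {S T : Set G} (h : S ⊆ T) (x : H) : ‖R.P S x‖ ≤ ‖R.P T x‖ := by
  rw [← Set.inter_eq_left.mpr h, ← P_mul, ContinuousLinearMap.mul_apply]
  simpa using (R.P S).le_of_opNorm_le (R.P_norm S) _
lemma P_disj {S T : Set G} (h : Disjoint S T) (x : H) :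
    ‖R.P (S ∪ T) x‖ ^ 2 = ‖R.P S x‖ ^ 2 + ‖R.P T x‖ ^ 2 := by
  have h' := Set.disjoint_left.mp h
  rw [← pyth (R.sP S) (hb_ext R.b fun x => by
    by_cases h : x ∈ T <;> simp [R.hP, h]; exact fun h2 => absurd h (h' h2)),
    ← ContinuousLinearMap.add_apply]
  congr 3
  refine hb_ext R.b fun x => ?_
  by_cases h1 : x ∈ S
  · simp [R.hP, h1, h' h1]
  · by_cases h2 : x ∈ T <;> simp [R.hP, h1, h2]

variable {M : ℕ} (Q : PP G M)

theorem gap {y : H →L[ℂ] H} (hy : R.InM y) {δ : ℝ}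
    (h : ∀ u ∈ ({Q.a, Q.b 0, Q.b 1} : Set G), ‖(R.U u * y - y * R.U u) R.Ω‖ ≤ δ) :
    ‖y R.Ω - R.τ y • R.Ω‖ ≤ 10 * δ := by
  set η := y R.Ω - R.τ y • R.Ω with hη
  have hδ : 0 ≤ δ := (norm_nonneg _).trans (h Q.a (by simp))
  have c1 : ∀ u ∈ ({Q.a, Q.b 0, Q.b 1} : Set G), ∀ S : Set G,
      |‖R.P {g | u⁻¹ * g * u ∈ S} η‖ - ‖R.P S η‖| ≤ δ := by
    intro u hu S
    have e1 : R.P {g | u⁻¹ * g * u ∈ S} * (R.U u * R.V u) = R.U u * R.V u * R.P S :=
      hb_ext R.b fun x => by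
        by_cases h : x ∈ S <;> simp [R.hP, R.hU, R.hV, h, mul_assoc]
    have e2 : ‖R.P {g | u⁻¹ * g * u ∈ S} ((R.U u * R.V u) η)‖ = ‖R.P S η‖ := by
      rw [← ContinuousLinearMap.mul_apply, e1]
      simp only [ContinuousLinearMap.mul_apply, norm_iso (R.U_iso u), norm_iso (R.V_iso u)]
    have e0 : R.V u (R.U u R.Ω) = R.Ω := by simp [Ω, R.hU, R.hV]
    have e3 : (R.U u * R.V u) η - η = R.V u ((R.U u * y - y * R.U u) R.Ω) := by
      have a1 := congrArg (fun f : H →L[ℂ] H => f (R.U u R.Ω)) (hy u).eq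
      have a2 := fun z => congrArg (fun f : H →L[ℂ] H => f z) (R.inM (R.U_mem u) u).eq
      simp only [ContinuousLinearMap.mul_apply] at a1 a2
      simp only [hη, ContinuousLinearMap.mul_apply, map_sub, map_smul, a2, e0,
        ContinuousLinearMap.sub_apply, ← a1]
      abel
    rw [← e2]
    refine (abs_norm_sub_norm_le _ _).trans ?_
    rw [← map_sub, ← norm_neg, ← map_neg, neg_sub, e3]
    refine ((R.P _).le_of_opNorm_le (R.P_norm _) _).trans ?_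
    rw [one_mul, norm_iso (R.V_iso u)]; exact h u hu
  have c2 : R.P {1}ᶜ η = η := by
    have : R.P {1}ᶜ = 1 - (innerSL ℂ R.Ω).smulRight R.Ω := hb_ext R.b fun x => by
      classical
      by_cases h : x = 1
      · simp [R.hP, h, Ω, R.b.orthonormal.1 1]
      · simp [R.hP, h, Ω, orthonormal_iff_ite.mp R.b.orthonormal, Ne.symm h]
    rw [this]; simp [hη, τ, R.norm_Ω, inner_sub_right, inner_smul_right]
  have c3 : ‖η‖ ^ 2 = ‖R.P Q.X η‖ ^ 2 + ‖R.P (Q.Xᶜ ∩ {1}ᶜ) η‖ ^ 2 := by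
    have : Q.X ∪ Q.Xᶜ ∩ {1}ᶜ = {1}ᶜ := by
      ext g
      by_cases h : g = 1
      · simp [h, Q.one]
      · by_cases h' : g ∈ Q.X <;> simp [h, h']
    rw [← R.P_disj (Set.disjoint_left.mpr fun g h1 h2 => h2.1 h1), this, c2]
  have c4 := R.P_mono (S := Q.Xᶜ ∩ {1}ᶜ) (T := {g | Q.a⁻¹ * g * Q.a ∈ Q.X})
    (fun g hg => Q.ha g hg.1 hg.2) η
  have k : ∀ i g, (Q.b i)⁻¹ * g * Q.b i ∈ Q.X → ∃ g' ∈ Q.X, g = Q.b i * g' :=
    fun i g hg => ⟨_, Q.hb1 i _ hg, by group⟩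
  have c5 := R.P_disj (S := {g | (Q.b 0)⁻¹ * g * Q.b 0 ∈ Q.X})
    (T := {g | (Q.b 1)⁻¹ * g * Q.b 1 ∈ Q.X}) (Set.disjoint_left.mpr fun g h1 h2 => by
      obtain ⟨g1, a1, a2⟩ := k 0 g h1
      obtain ⟨g2, b1, b2⟩ := k 1 g h2
      simpa using Q.hb3 0 1 g1 a1 g2 b1 (a2.symm.trans b2)) η
  have k2 : ∀ i g, (Q.b i)⁻¹ * g * Q.b i ∈ Q.X → g ∈ Q.Xᶜ ∩ {1}ᶜ := fun i g hg => by
    obtain ⟨g1, a1, a2⟩ := k i g hg
    refine ⟨a2 ▸ Q.hb2 i g1 a1, fun h => Q.one ?_⟩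
    simpa [show g = 1 from h] using hg
  have c6 := R.P_mono (S := {g | (Q.b 0)⁻¹ * g * Q.b 0 ∈ Q.X} ∪ {g | (Q.b 1)⁻¹ * g * Q.b 1 ∈ Q.X})
    (T := Q.Xᶜ ∩ {1}ᶜ) (fun g hg => hg.elim (k2 0 g) (k2 1 g)) η
  have d1 := abs_le.mp (c1 Q.a (by simp) Q.X)
  have d2 := abs_le.mp (c1 (Q.b 0) (by simp) Q.X)
  have d3 := abs_le.mp (c1 (Q.b 1) (by simp) Q.X)
  have c7 := pow_le_pow_left₀ (norm_nonneg _) c6 2
  rw [c5] at c7
  set n := ‖R.P Q.X η‖
  set m := ‖R.P (Q.Xᶜ ∩ {1}ᶜ) η‖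
  have hn : 0 ≤ n := norm_nonneg _
  have hm : 0 ≤ m := norm_nonneg _
  have m1 : m ≤ n + δ := by linarith
  have m2 := pow_le_pow_left₀ hm m1 2
  have n6 : n ≤ 6 * δ := by
    by_contra hc
    have e1 := pow_le_pow_left₀ (by linarith : 0 ≤ n - δ) (sub_le_iff_le_add.mpr
      (by linarith [d2.1] : n ≤ ‖R.P {g | (Q.b 0)⁻¹ * g * Q.b 0 ∈ Q.X} η‖ + δ)) 2
    have e2 := pow_le_pow_left₀ (by linarith : 0 ≤ n - δ) (sub_le_iff_le_add.mpr
      (by linarith [d3.1] : n ≤ ‖R.P {g | (Q.b 1)⁻¹ * g * Q.b 1 ∈ Q.X} η‖ + δ)) 2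
    nlinarith
  refine (pow_le_pow_iff_left₀ (norm_nonneg _) (by positivity) two_ne_zero).mp ?_
  nlinarith

lemma powers {g : G} (hg : ∀ y, y ∉ Q.X → g * y ∈ Q.X) (N : ℕ) :
    ‖∑ i ∈ range N, R.U (Q.b i * g * (Q.b i)⁻¹)‖ ≤ 2 * √N := by
  let q : ℕ → H →L[ℂ] H := fun i => R.P {h | (Q.b i)⁻¹ * h ∈ Q.X}
  have qo : ∀ i j, i ≠ j → q i * q j = 0 := fun i j hij => hb_ext R.b fun x => by
    by_cases h : (Q.b j)⁻¹ * x ∈ Q.X <;> simp [q, R.hP, h]
    exact fun h' => absurd (Q.hb3 i j _ h' _ h (by simp)) hij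
  have e : ∀ i, R.U (Q.b i * g * (Q.b i)⁻¹) = q i * R.U (Q.b i * g * (Q.b i)⁻¹) +
      star (q i * star (R.P {h | (Q.b i)⁻¹ * h ∈ Q.X}ᶜ * R.U (Q.b i * g * (Q.b i)⁻¹))) := by
    intro i
    rw [star_mul, star_star, R.sP]
    refine hb_ext R.b fun x => ?_
    by_cases h : (Q.b i)⁻¹ * x ∈ Q.X
    · by_cases h2 : g * ((Q.b i)⁻¹ * x) ∈ Q.X <;> simp [q, R.hP, R.hU, h, h2, mul_assoc]
    · simp [q, R.hP, R.hU, h, hg _ h, mul_assoc]
  rw [sum_congr rfl fun i _ => e i, sum_add_distrib, ← star_sum, two_mul]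
  refine (norm_add_le _ _).trans (add_le_add ?_ ?_)
  · exact orth_sum q _ (fun i => R.sP _) (fun i => R.P_norm _) qo (fun i => R.norm_U _) N
  · rw [norm_star]
    refine orth_sum q _ (fun i => R.sP _) (fun i => R.P_norm _) qo (fun i => ?_) N
    rw [norm_star]
    exact (norm_mul_le _ _).trans (mul_le_one₀ (R.P_norm _) (norm_nonneg _) (R.norm_U _))

include Q in
theorem dixmier {d : H →L[ℂ] H} (hd : d ∈ R.D) {ε : ℝ} (hε : 0 < ε) : ∃ N : ℕ, 0 < N ∧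
    ∃ u : ℕ → G, ‖(N : ℂ)⁻¹ • ∑ i ∈ range N, R.U (u i) * d * star (R.U (u i)) - R.τ d • 1‖ ≤ ε := by
  classical
  obtain ⟨y, hy, h⟩ := Metric.mem_closure_iff.mp (R.mem_closure_span hd) (ε / 3) (by positivity)
  obtain ⟨f, rfl⟩ := Finsupp.mem_span_range_iff_exists_finsupp.mp hy
  rw [dist_eq_norm, Finsupp.sum] at h
  set y := ∑ g ∈ f.support, f g • R.U g with hy'
  obtain ⟨a, ha⟩ := Q.pw (f.support.erase 1) (by simp)
  set C := ∑ g ∈ f.support, ‖f g‖ with hC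
  have C0 : 0 ≤ C := sum_nonneg fun _ _ => norm_nonneg _
  obtain ⟨n, hn⟩ := exists_nat_gt (6 * C / ε)
  have n0 : (0 : ℝ) < n := lt_of_le_of_lt (by positivity) hn
  have n1 : 0 < n := by exact_mod_cast n0
  refine ⟨n ^ 2, by positivity, fun i => Q.b i * a, ?_⟩
  set N := n ^ 2 with hN
  have N0 : (N : ℂ) ≠ 0 := by simp [hN, n1.ne']
  have N1 : (0 : ℝ) < N := by simp [hN, n1]
  have e1 : (N : ℂ)⁻¹ • ∑ i ∈ range N, R.U (Q.b i * a) * y * star (R.U (Q.b i * a)) - R.τ y • 1 =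
      ∑ g ∈ f.support, f g • ((N : ℂ)⁻¹ • ∑ i ∈ range N, R.U (Q.b i * (a * g * a⁻¹) * (Q.b i)⁻¹) -
        R.τ (R.U g) • 1) := by
    simp only [hy', τ_sum, τ_smul, mul_sum, sum_mul, smul_sum, sum_smul, smul_sub, sum_sub_distrib,
      mul_smul_comm, smul_mul_assoc, R.sU, ← map_mul, smul_smul]
    rw [sum_comm]
    simp only [mul_comm, mul_assoc, mul_inv_rev]
  have e2 : ‖(N : ℂ)⁻¹ • ∑ i ∈ range N, R.U (Q.b i * a) * y * star (R.U (Q.b i * a)) -
      R.τ y • 1‖ ≤ ε / 3 := by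
    rw [e1]
    refine (norm_sum_le_of_le _ (n := fun g => ‖f g‖ * (2 / n)) fun g hg => ?_).trans ?_
    · rw [norm_smul]
      gcongr
      by_cases h1 : g = 1
      · subst h1
        simp only [τ_U, mul_one, mul_inv_cancel, map_one, sum_const, card_range, if_true]
        rw [← Nat.cast_smul_eq_nsmul ℂ, smul_smul, inv_mul_cancel₀ N0, τ_one, sub_self,
          norm_zero]
        positivity
      · have := R.powers Q (ha g (mem_erase.mpr ⟨h1, hg⟩)) N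
        rw [τ_U, if_neg h1, zero_smul, sub_zero, norm_smul, norm_inv, Complex.norm_natCast,
          inv_mul_le_iff₀ N1]
        refine this.trans (le_of_eq ?_)
        rw [hN]; push_cast
        rw [Real.sqrt_sq n0.le]; field_simp
    · rw [← sum_mul, ← hC, mul_div_assoc', div_le_iff₀ n0]
      rw [div_lt_iff₀ hε] at hn
      nlinarith
  have e3 : ‖(N : ℂ)⁻¹ • ∑ i ∈ range N, R.U (Q.b i * a) * (d - y) * star (R.U (Q.b i * a))‖ ≤
      ε / 3 := by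
    rw [norm_smul, norm_inv, Complex.norm_natCast, inv_mul_le_iff₀ N1]
    refine (norm_sum_le_of_le _ (n := fun _ => ε / 3) fun i _ => ?_).trans (by simp)
    have := R.norm_U (Q.b i * a)
    calc _ ≤ ‖R.U (Q.b i * a)‖ * ‖d - y‖ * ‖star (R.U (Q.b i * a))‖ :=
          (norm_mul_le _ _).trans (by gcongr; exact norm_mul_le _ _)
      _ ≤ 1 * (ε / 3) * 1 := by rw [norm_star]; gcongr
      _ = _ := by ring
  have e4 : ‖R.τ (d - y) • (1 : H →L[ℂ] H)‖ ≤ ε / 3 := by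
    rw [norm_smul]
    exact (mul_le_of_le_one_right (norm_nonneg _) ContinuousLinearMap.norm_id_le).trans
      ((R.τ_le _).trans h.le)
  have := (norm_add_le _ _).trans (add_le_add e2 ((norm_sub_le _ _).trans (add_le_add e3 e4)))
  refine le_of_eq_of_le ?_ (this.trans (by linarith))
  congr 1
  simp only [mul_sub, sub_mul, sum_sub_distrib, smul_sub, τ_sub, sub_smul]
  abel

end Reg

end Pool.Agent.H70.Tr
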