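import Pool.Agent.H70.Tr2

namespace Pool.Agent.H70.Tr
open scoped InnerProductSpace CStarAlgebra
open Finset Pool.Agent.H70.Rk Filter Topology

lemma hb_tp {H K I J : Type} [NormedAddCommGroup H] [InnerProductSpace ℂ H] [CompleteSpace H]
    [NormedAddCommGroup K] [InnerProductSpace ℂ K] [CompleteSpace K]
    (b : HilbertBasis I ℂ H) (b' : HilbertBasis J ℂ K) :
    ∃ c : HilbertBasis (I × J) ℂ (HT H K), ∀ i j, c (i, j) = tp (b i) (b' j) := by
  classical
  have ho : Orthonormal ℂ fun p : I × J => tp (b p.1) (b' p.2) := by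
    rw [orthonormal_iff_ite]
    rintro ⟨i, j⟩ ⟨i', j'⟩
    simp [inner_tp, orthonormal_iff_ite.mp b.orthonormal, orthonormal_iff_ite.mp b'.orthonormal,
      ← ite_and, and_comm]
  refine ⟨HilbertBasis.mk ho fun z _ => ?_, fun i j => by simp⟩
  set W : Submodule ℂ (HT H K) := (Submodule.span ℂ (Set.range fun p : I × J =>
    tp (b p.1) (b' p.2))).topologicalClosure with hW
  have hc : IsClosed (W : Set (HT H K)) := Submodule.isClosed_topologicalClosure _
  have d1 := Submodule.dense_iff_topologicalClosure_eq_top.mpr b.dense_span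
  have d2 := Submodule.dense_iff_topologicalClosure_eq_top.mpr b'.dense_span
  refine tp_ind (P := fun z => z ∈ W) hc (fun x y => ?_) (fun x y hx hy => add_mem hx hy) z
  refine closure_minimal (t := {x | tp x y ∈ W}) ?_
    (hc.preimage (tp_cont.comp (Continuous.prodMk_left y))) (d1 x)
  intro x hx
  induction hx using Submodule.span_induction with
  | zero => change tp 0 y ∈ W; rw [tp_zero_left]; exact zero_mem _
  | add x x' _ _ h1 h2 => change tp _ y ∈ W; rw [tp_add_left]; exact add_mem h1 h2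
  | smul a x _ h1 => change tp _ y ∈ W; rw [tp_smul_left]; exact W.smul_mem _ h1
  | mem x hx =>
    obtain ⟨g, rfl⟩ := hx
    refine closure_minimal (t := {y | tp (b g) y ∈ W}) ?_
      (hc.preimage (tp_cont.comp (Continuous.prodMk_right _))) (d2 y)
    intro y hy
    induction hy using Submodule.span_induction with
    | zero => change tp _ 0 ∈ W; rw [tp_zero_right]; exact zero_mem _
    | add x x' _ _ h1 h2 => change tp _ _ ∈ W; rw [tp_add_right]; exact add_mem h1 h2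
    | smul a x _ h1 => change tp _ _ ∈ W; rw [tp_smul_right]; exact W.smul_mem _ h1
    | mem y hy =>
      obtain ⟨h, rfl⟩ := hy
      exact Submodule.le_topologicalClosure _ (Submodule.subset_span ⟨(g, h), rfl⟩)

variable {H : Type} [NormedAddCommGroup H] [InnerProductSpace ℂ H] [CompleteSpace H]

lemma hb_iso {E I J : Type} [NormedAddCommGroup E] [InnerProductSpace ℂ E] [CompleteSpace E]
    (c : HilbertBasis I ℂ E) (b : HilbertBasis J ℂ H) (e : I ≃ J) :
    ∃ W : E ≃ₗᵢ[ℂ] H, ∀ i, W (c i) = b (e i) := by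
  classical
  let b' := HilbertBasis.mk (b.orthonormal.comp e e.injective)
    (by rw [e.surjective.range_comp, b.dense_span])
  refine ⟨c.repr.trans b'.repr.symm, fun i => ?_⟩
  change b'.repr.symm (c.repr (c i)) = _
  rw [c.repr_self, b'.repr_symm_single]
  simp [b']

variable {G : Type} [Group G]

lemma iota_aux {E : Type} [NormedAddCommGroup E] [InnerProductSpace ℂ E] [CompleteSpace E]
    (W : E ≃ₗᵢ[ℂ] H) (T : (H →L[ℂ] H) → (E →L[ℂ] E)) (h1 : T 1 = 1) (h0 : T 0 = 0)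
    (hm : ∀ x y, T (x * y) = T x * T y) (ha : ∀ x y, T (x + y) = T x + T y)
    (hs : ∀ (r : ℂ) x, T (r • x) = r • T x) (ht : ∀ x, T (star x) = star (T x)) :
    ∃ ι : (H →L[ℂ] H) →⋆ₙₐ[ℂ] (H →L[ℂ] H), ∀ x, ι x = W.conjStarAlgEquiv (T x) :=
  ⟨{ toFun := fun x => W.conjStarAlgEquiv (T x)
     map_smul' := fun r x => by rw [hs, map_smul]; rfl
     map_zero' := by rw [h0, map_zero]
     map_add' := fun x y => by rw [ha, map_add]
     map_mul' := fun x y => by rw [hm, map_mul]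
     map_star' := fun x => by rw [ht, map_star] }, fun _ => rfl⟩

lemma exists_iota (R : Reg G H) {K : Type} [Group K] (j : K × G →* G)
    (hj : Function.Injective j) : ∃ ι : (H →L[ℂ] H) →⋆ₙₐ[ℂ] (H →L[ℂ] H),
    (∀ h, ι (R.U h) = R.U (j (1, h))) ∧ ∀ x k, Commute (ι x) (R.U (j (k, 1))) := by
  let f : G × K × (G ⧸ j.range) → G := fun p => j (p.2.1, p.1) * (p.2.2.out)⁻¹
  have hf : Function.Bijective f := by
    constructor
    · rintro ⟨g, k, q⟩ ⟨g', k', q'⟩ h
      simp only [f] at h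
      have : q = q' := by
        rw [← q.out_eq', ← q'.out_eq', QuotientGroup.eq]
        exact ⟨(k, g)⁻¹ * (k', g'), by
          rw [map_mul, map_inv, eq_comm, eq_inv_mul_iff_mul_eq, ← mul_assoc, h]; simp⟩
      subst this
      obtain ⟨rfl, rfl⟩ := Prod.mk.inj (hj (mul_right_cancel h))
      rfl
    · intro h
      obtain ⟨⟨_, ⟨k, g⟩, rfl⟩, hq⟩ := QuotientGroup.mk_out_eq_mul j.range h⁻¹
      exact ⟨(g, k, QuotientGroup.mk h⁻¹), by simp [f, hq]⟩
  let b' : HilbertBasis (K × (G ⧸ j.range)) ℂ (lp (fun _ : K × (G ⧸ j.range) => ℂ) 2) :=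
    HilbertBasis.ofRepr (LinearIsometryEquiv.refl _ _)
  obtain ⟨c, hc⟩ := hb_tp R.b b'
  obtain ⟨W, hW⟩ := hb_iso c R.b (Equiv.ofBijective f hf)
  obtain ⟨S, hS, -⟩ := permRep b' (MonoidHom.mk' (fun k : K =>
    Equiv.prodCongr (Equiv.mulLeft k) (Equiv.refl (G ⧸ j.range))) fun a b => by
      ext <;> simp [mul_assoc])
  obtain ⟨ι, hι⟩ := iota_aux W (fun x => tens x 1) tens_one (tens_zero_left _)
    (fun x y => by rw [tens_mul, mul_one]) (fun x y => tens_add_left _ _ _)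
    (fun r x => tens_smul_left _ _ _) (fun x => by rw [star_tens, star_one])
  have key : ∀ h k0, W.conjStarAlgEquiv (tens (R.U h) (S k0)) = R.U (j (k0, h)) := by
    intro h k0
    refine hb_ext R.b fun x => ?_
    obtain ⟨⟨g, k, q⟩, rfl⟩ := hf.2 x
    have : R.b (f (g, k, q)) = W (c (g, k, q)) := (hW _).symm
    rw [R.hU, this, LinearIsometryEquiv.conjStarAlgEquiv_apply_apply, W.symm_apply_apply, hc,
      tens_tp, R.hU, hS, ← hc, hW]
    congr 1
    change j (k0 * k, h * g) * _ = j (k0, h) * (j (k, g) * _)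
    rw [← mul_assoc, ← map_mul]; rfl
  refine ⟨ι, fun h => by rw [hι, ← key, map_one], fun x k => ?_⟩
  rw [hι, ← key, map_one]
  change _ * _ = _ * _
  rw [← map_mul, ← map_mul, tens_mul, tens_mul]; simp

structure Sys (R : Reg G H) where
  p : ℕ → H →L[ℂ] H
  Φ : ℕ → Bool → ((H →L[ℂ] H) →⋆ₙₐ[ℂ] (H →L[ℂ] H))
  w : ℤˣ →* (H →L[ℂ] H)
  p_mem : ∀ n, p n ∈ R.D
  p_star : ∀ n, star (p n) = p n
  p_le : ∀ m n, m ≤ n → p m * p n = p m
  Φ_mem : ∀ n s, ∀ x ∈ R.D, Φ n s x ∈ R.D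
  Φ_orth : ∀ n x y, Φ n true x * Φ n false y = 0
  Φ_p : ∀ n s x, p n * Φ n s x = 0
  Φ_sum : ∀ n, Φ n true (p n) + Φ n false (p n) = p (n + 1) - p n
  Φ_tr : ∀ n, ∃ c : ℂ, c ≠ 0 ∧ ∀ x ∈ R.D, R.τ (Φ n true x) = c * R.τ x
  small : Tendsto (fun n => ‖(1 - p n) R.Ω‖) atTop (𝓝 0)
  small0 : ‖(1 - p 0) R.Ω‖ ≤ 1 / 1000
  w_star : ∀ k, star (w k) = w k⁻¹
  w_Ω : ∀ k, w k R.Ω = R.Ω
  w_mem : ∀ k, ∀ x ∈ R.D, w k * x * w k⁻¹ ∈ R.D
  w_p : ∀ k n, w k * p n * w k⁻¹ = p n
  w_Φ : ∀ n s, ∀ x ∈ R.D, w (-1) * Φ n s x * w (-1)⁻¹ = Φ n (!s) (w (-1) * x * w (-1)⁻¹)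

noncomputable def cut (ι : (H →L[ℂ] H) →⋆ₙₐ[ℂ] (H →L[ℂ] H)) (q : H →L[ℂ] H) (h1 : star q = q)
    (h2 : q * q = q) (h3 : ∀ x, Commute (ι x) q) : (H →L[ℂ] H) →⋆ₙₐ[ℂ] (H →L[ℂ] H) where
  toFun x := ι x * q
  map_smul' r x := by rw [map_smul, smul_mul_assoc]; rfl
  map_zero' := by simp
  map_add' x y := by rw [map_add, add_mul]
  map_mul' x y := by rw [map_mul, mul_assoc, mul_assoc, ← mul_assoc q, ← (h3 y).eq, mul_assoc, h2]
  map_star' x := by rw [star_mul, h1, ← map_star, (h3 _).eq]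

noncomputable def it (Ψ : (H →L[ℂ] H) →⋆ₙₐ[ℂ] (H →L[ℂ] H)) :
    ℕ → ((H →L[ℂ] H) →⋆ₙₐ[ℂ] (H →L[ℂ] H))
  | 0 => NonUnitalStarAlgHom.id ℂ _
  | k + 1 => (it Ψ k).comp Ψ

lemma it_add (Ψ : (H →L[ℂ] H) →⋆ₙₐ[ℂ] (H →L[ℂ] H)) (a b : ℕ) (x : H →L[ℂ] H) :
    it Ψ (a + b) x = it Ψ a (it Ψ b x) := by
  induction b generalizing x with
  | zero => rfl
  | succ b ih => exact ih (Ψ x)

theorem exists_sys (R : Reg G H) {M : ℕ} (hM : 2000000 ≤ M) (Q : PP G M) : Nonempty (Sys R) := by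
  classical
  haveI : NeZero M := ⟨by omega⟩
  have M0 : (M : ℂ) ≠ 0 := by exact_mod_cast NeZero.ne M
  obtain ⟨ι, hι, hc⟩ := exists_iota R Q.j Q.j_inj
  let Z : ZMod M → H →L[ℂ] H := fun k => R.U (Q.j (Multiplicative.ofAdd k, 1))
  have Zm : ∀ k l, Z k * Z l = Z (k + l) := fun k l => by
    simp only [Z, ← map_mul, Prod.mk_mul_mk, mul_one, ofAdd_add]
  have Zs : ∀ k, star (Z k) = Z (-k) := fun k => by
    simp only [Z, R.sU, ← map_inv, Prod.inv_mk, inv_one, ofAdd_neg]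
  let ψ : AddChar (ZMod M) ℂ := ZMod.stdAddChar
  let q : ZMod M → H →L[ℂ] H := fun a => (M : ℂ)⁻¹ • ∑ k, ψ (k * a) • Z k
  have qs : ∀ a, star (q a) = q a := fun a => by
    simp only [q, star_smul, star_sum, Zs]
    rw [← Equiv.sum_comp (Equiv.neg _)]
    simp [← AddChar.map_neg_eq_conj]
  have qm : ∀ a b, q a * q b = if a = b then q a else 0 := fun a b => by
    have : ∀ k, ψ (k * a) • Z k * ∑ l, ψ (l * b) • Z l = ψ (k * (a - b)) • ∑ l, ψ (l * b) • Z l := by
      intro k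
      rw [mul_sum, smul_sum, ← Equiv.sum_comp (Equiv.subRight k)]
      refine sum_congr rfl fun l _ => ?_
      simp only [Equiv.subRight_apply, smul_mul_smul_comm, Zm, smul_smul, ← AddChar.map_add_eq_mul]
      congr 2 <;> ring
    simp only [q, smul_mul_smul_comm, sum_mul, this, ← sum_smul]
    simp only [ψ, AddChar.sum_mulShift _ (ZMod.isPrimitive_stdAddChar M), sub_eq_zero, smul_smul]
    split_ifs with h
    · simp [h, M0]
    · simp
  have qc : ∀ a x, Commute (ι x) (q a) := fun a x =>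
    (Commute.sum_right _ _ _ fun k _ => (hc x _).smul_right _).smul_right _
  have qD : ∀ a, q a ∈ R.D := fun a =>
    R.D.smul_mem (sum_mem fun k _ => R.D.smul_mem (R.U_mem _) _) _
  have ιD : ∀ x ∈ R.D, ι x ∈ R.D := fun x hx =>
    R.ind (P := fun x => ι x ∈ R.D) (R.D_closed.preimage (map_continuous ι))
      (fun g => hι g ▸ R.U_mem _) (by simp) (fun a b h1 h2 => by rw [map_add]; exact add_mem h1 h2)
      (fun a b h => by rw [map_smul]; exact R.D.smul_mem h a) hx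
  have ιτ : ∀ a, ∀ x ∈ R.D, R.τ (ι x * q a) = (M : ℂ)⁻¹ * R.τ x := fun a x hx => by
    have := R.τ_cont
    have := map_continuous ι
    refine R.ind (P := fun x => R.τ (ι x * q a) = (M : ℂ)⁻¹ * R.τ x)
      (isClosed_eq (by fun_prop) (by fun_prop)) (fun g => ?_) (by simp [R.τ_zero])
      (fun a b h1 h2 => by rw [map_add, add_mul, R.τ_add, R.τ_add, h1, h2, mul_add])
      (fun a b h => by rw [map_smul, smul_mul_assoc, R.τ_smul, R.τ_smul, h, mul_left_comm]) hx
    simp only [q, Z, hι, mul_smul_comm, mul_sum, ← map_mul, R.τ_smul, R.τ_sum, R.τ_U,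
      map_eq_one_iff _ Q.j_inj, Prod.mk_mul_mk, Prod.mk_eq_one, one_mul, mul_one, ofAdd_eq_one]
    rw [sum_eq_single 0] <;> simp +contextual
  have n1 : (1 : ZMod M) ≠ -1 := by
    intro h
    have : ((2 : ℕ) : ZMod M) = 0 := by push_cast; linear_combination h
    have := Nat.le_of_dvd two_pos ((ZMod.natCast_eq_zero_iff 2 M).mp this)
    omega
  let sg : Bool → ZMod M := fun s => if s then 1 else -1
  let Ψs := fun s => cut ι (q (sg s)) (qs _) (by simp [qm]) (qc _)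
  let Ψ := cut ι (q 1 + q (-1)) (by rw [star_add, qs, qs])
    (by simp [add_mul, mul_add, qm, n1, n1.symm]) fun x => (qc _ x).add_right (qc _ x)
  have hΨs : ∀ s x, Ψs s x = ι x * q (sg s) := fun _ _ => rfl
  have hΨ : ∀ x, Ψ x = Ψs true x + Ψs false x := fun x => mul_add _ _ _
  have ι1 : ι 1 = 1 := by rw [← map_one R.U, hι]; exact congrArg R.U (map_one Q.j)
  have sD : ∀ s, ∀ x ∈ R.D, Ψs s x ∈ R.D := fun s x hx => mul_mem (ιD x hx) (qD _)
  have tD : ∀ k, ∀ x ∈ R.D, it Ψ k x ∈ R.D ∧ R.τ (it Ψ k x) = (2 / M : ℂ) ^ k * R.τ x := by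
    intro k
    induction k with
    | zero => intro x hx; exact ⟨hx, by simp [it]⟩
    | succ k ih =>
      intro x hx
      obtain ⟨h1, h2⟩ := ih (Ψ x) (hΨ x ▸ add_mem (sD _ x hx) (sD _ x hx))
      refine ⟨h1, h2.trans ?_⟩
      rw [hΨ, R.τ_add, hΨs, hΨs, ιτ _ x hx, ιτ _ x hx]; ring
  have two : ∀ n, 2 ^ n = (2 ^ n - 1) + 1 := fun n => (Nat.sub_add_cancel Nat.one_le_two_pow).symm
  have nρ : ∀ k, ‖(it Ψ k 1) R.Ω‖ ^ 2 = (2 / M : ℝ) ^ k := fun k => by
    have := R.τ_star_mul (it Ψ k 1)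
    rw [← map_star, ← map_mul, star_one, mul_one, (tD k 1 (one_mem _)).2, R.τ_one] at this
    apply Complex.ofReal_injective
    rw [← this]; simp
  have M1 : (2000000 : ℝ) ≤ M := by exact_mod_cast hM
  have M2 : (2 / M : ℝ) ≤ 1 / 1000000 := by rw [div_le_iff₀ (by linarith)]; linarith
  obtain ⟨w, hw, ws⟩ := permRep R.b (MonoidHom.mk' (fun k : ℤˣ =>
    if k = 1 then (1 : Equiv.Perm G) else Function.Involutive.toPerm Q.κ Q.κκ) fun k l => by
      rcases Int.units_eq_one_or k with rfl | rfl <;> rcases Int.units_eq_one_or l with rfl | rfl <;>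
        ext <;> simp [Q.κκ])
  have wU : ∀ g, w (-1) * R.U g * w (-1)⁻¹ = R.U (Q.κ g) := fun g => hb_ext R.b fun x => by
    simp [hw, R.hU, Q.κκ]
  let C : (H →L[ℂ] H) → H →L[ℂ] H := fun x => w (-1) * x * w (-1)⁻¹
  have Cm : ∀ x y, C (x * y) = C x * C y := fun x y => by
    simp only [C, mul_assoc]; rw [← mul_assoc (w (-1)⁻¹), ← map_mul]; simp
  have Ca : ∀ x y, C (x + y) = C x + C y := fun x y => by simp only [C, mul_add, add_mul]
  have Cq : ∀ a, C (q a) = q (-a) := fun a => by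
    simp only [C, q, Z, mul_smul_comm, smul_mul_assoc, mul_sum, sum_mul, wU, Q.κj, map_one]
    rw [← Equiv.sum_comp (Equiv.neg _)]
    simp
  have CD : ∀ x ∈ R.D, C x ∈ R.D ∧ C (ι x) = ι (C x) := fun x hx => by
    have := map_continuous ι
    refine R.ind (P := fun x => C x ∈ R.D ∧ C (ι x) = ι (C x))
      ((R.D_closed.preimage (by fun_prop)).inter (isClosed_eq (by fun_prop) (by fun_prop)))
      (fun g => ?_) (by simp [C]) (fun a b h1 h2 => ?_) (fun a b h => ?_) hx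
    · simp only [C, wU, hι, Q.κj, inv_one]; exact ⟨R.U_mem _, trivial⟩
    · simp only [C, map_add, mul_add, add_mul] at *
      exact ⟨add_mem h1.1 h2.1, by rw [h1.2, h2.2]⟩
    · simp only [C, map_smul, mul_smul_comm, smul_mul_assoc] at *
      exact ⟨R.D.smul_mem h.1 a, by rw [h.2]⟩
  have Cs : ∀ s, ∀ x ∈ R.D, C (Ψs s x) = Ψs (!s) (C x) := fun s x hx => by
    rw [hΨs, hΨs, Cm, (CD x hx).2, Cq]; cases s <;> simp [sg]
  have Ct : ∀ k, ∀ x ∈ R.D, C (it Ψ k x) = it Ψ k (C x) := by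
    intro k
    induction k with
    | zero => intro x _; rfl
    | succ k ih =>
      intro x hx
      refine (ih (Ψ x) (hΨ x ▸ add_mem (sD _ x hx) (sD _ x hx))).trans (congrArg (it Ψ k) ?_)
      change _ = Ψ (C x)
      rw [hΨ, hΨ, add_comm (Ψs true (C x)), Ca, Cs _ x hx, Cs _ x hx]; rfl
  have C1 : C 1 = 1 := by simp [C, ← map_mul]
  have w1 : ∀ x, w 1 * x * w 1⁻¹ = x := fun x => by simp
  refine ⟨{ p := fun n => 1 - it Ψ (2 ^ n) 1, Φ := fun n s => (it Ψ (2 ^ n - 1)).comp (Ψs s),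
            w := w, p_mem := fun n => sub_mem (one_mem _) (tD _ 1 (one_mem _)).1,
            p_star := fun n => by rw [star_sub, ← map_star, star_one], p_le := ?_,
            Φ_mem := fun n s x hx => (tD _ _ (sD s x hx)).1, Φ_orth := ?_, Φ_p := ?_,
            Φ_sum := ?_, Φ_tr := ?_, small := ?_, small0 := ?_, w_star := ws, w_Ω := ?_,
            w_mem := ?_, w_p := ?_, w_Φ := fun n s x hx => ?_ }⟩
  · intro m n h
    obtain ⟨k, hk⟩ := Nat.exists_eq_add_of_le (Nat.pow_le_pow_right two_pos h)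
    rw [mul_sub, sub_mul, sub_mul, hk, it_add, ← map_mul]; simp
  · intro n x y
    simp only [NonUnitalStarAlgHom.comp_apply, ← map_mul, hΨs]
    rw [mul_assoc, ← mul_assoc (q _), ← (qc _ y).eq, mul_assoc, qm]; simp [sg, n1]
  · intro n s x
    rw [two n, it_add, sub_mul, one_mul, Nat.add_sub_cancel, NonUnitalStarAlgHom.comp_apply,
      ← map_mul, ← map_sub]
    have : it Ψ 1 1 * Ψs s x = Ψs s x := by
      change ι 1 * (q 1 + q (-1)) * (ι x * q _) = ι x * q _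
      rw [ι1, one_mul, ← mul_assoc, ← ((qc _ x).add_right (qc _ x)).eq, mul_assoc, add_mul, qm, qm]
      cases s <;> simp [sg, n1, n1.symm]
    rw [this, sub_self, map_zero]
  · intro n
    simp only [NonUnitalStarAlgHom.comp_apply, ← map_add, ← hΨ]
    change it Ψ (2 ^ n - 1 + 1) _ = _
    rw [← two, map_sub, ← it_add, pow_succ, mul_two]; abel
  · intro n
    refine ⟨(2 / M : ℂ) ^ (2 ^ n - 1) * (M : ℂ)⁻¹, by simp [M0], fun x hx => ?_⟩
    rw [NonUnitalStarAlgHom.comp_apply, (tD _ _ (sD _ x hx)).2, hΨs, ιτ _ x hx, mul_assoc]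
  · simp only [sub_sub_cancel]
    have h1 : Tendsto (fun n : ℕ => √((2 / M : ℝ) ^ (2 ^ n))) atTop (𝓝 √0) :=
      ((tendsto_pow_atTop_nhds_zero_of_lt_one (by positivity) (by linarith)).comp
        (tendsto_pow_atTop_atTop_of_one_lt one_lt_two)).sqrt
    simpa only [← nρ, Real.sqrt_sq (norm_nonneg _), Real.sqrt_zero] using h1
  · rw [sub_sub_cancel]
    refine (pow_le_pow_iff_left₀ (norm_nonneg _) (by positivity) two_ne_zero).mp ?_
    rw [nρ]; norm_num; linarith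
  · intro k
    rw [Reg.Ω, hw]; congr 1
    simp only [MonoidHom.mk'_apply]; split_ifs <;> simp
  · intro k x hx
    rcases Int.units_eq_one_or k with rfl | rfl
    · rwa [w1]
    · exact (CD x hx).1
  · intro k n
    rcases Int.units_eq_one_or k with rfl | rfl
    · rw [w1]
    · have := Ct (2 ^ n) 1 (one_mem _)
      rw [C1] at this
      rw [mul_sub, sub_mul]; exact congrArg₂ _ C1 this
  · exact (Ct _ _ (sD s x hx)).trans (congrArg _ (Cs s x hx))

end Pool.Agent.H70.Tr
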