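import Pool.Agent.H70.Tr3

namespace Pool.Agent.H70.Tr
open scoped InnerProductSpace CStarAlgebra
open Finset Pool.Agent.H70.Rk Filter Topology

variable {H : Type} [NormedAddCommGroup H] [InnerProductSpace ℂ H] [CompleteSpace H]
  {G : Type} [Group G] {R : Reg G H}

lemma nadd {a b : H →L[ℂ] H} (h1 : star a * b = 0) (h2 : a * star b = 0) {C : ℝ} (ha : ‖a‖ ≤ C)
    (hb : ‖b‖ ≤ C) : ‖a + b‖ ≤ C := by
  have h3 : star b * a = 0 := by simpa using congrArg star h1
  have := (IsSelfAdjoint.star_mul_self a).norm_add_eq_max (IsSelfAdjoint.star_mul_self b)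
    (by rw [mul_assoc, ← mul_assoc a, h2]; simp)
  have e := CStarRing.norm_star_mul_self (x := a + b)
  rw [star_add, add_mul, mul_add, mul_add, h1, h3, add_zero, zero_add, this,
    CStarRing.norm_star_mul_self, CStarRing.norm_star_mul_self] at e
  have C0 := (norm_nonneg _).trans ha
  refine (mul_self_le_mul_self_iff (norm_nonneg _) C0).mpr (e ▸ max_le ?_ ?_) <;> gcongr

noncomputable def xs (m : ℕ) : Circle := TopologicalSpace.denseSeq Circle m.unpair.1

lemma xs_dense (t : Circle) {U : Set Circle} (hU : U ∈ 𝓝 t) (N : ℕ) : ∃ m, N ≤ m ∧ xs m ∈ U := by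
  obtain ⟨_, h, i, rfl⟩ := mem_closure_iff_nhds.mp (TopologicalSpace.denseRange_denseSeq Circle t)
    U hU
  exact ⟨Nat.pair i N, Nat.right_le_pair _ _, by simpa [xs] using h⟩

abbrev BB (H : Type) [NormedAddCommGroup H] [InnerProductSpace ℂ H] : Type :=
  C(Circle, H →L[ℂ] H)

namespace Sys
variable (S : Sys R)

lemma p_idem (n : ℕ) : S.p n * S.p n = S.p n := S.p_le n n le_rfl
lemma p_le' {m n : ℕ} (h : m ≤ n) : S.p n * S.p m = S.p m := by
  simpa [S.p_star] using congrArg star (S.p_le m n h)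
lemma p_norm (n : ℕ) : ‖S.p n‖ ≤ 1 := norm_proj (S.p_star n) (S.p_idem n)
lemma r_norm (n : ℕ) : ‖1 - S.p n‖ ≤ 1 :=
  norm_proj (by simp [S.p_star]) (by simp [sub_mul, mul_sub, S.p_idem])
lemma r_inM (n : ℕ) : R.InM (1 - S.p n) := R.inM (sub_mem (one_mem _) (S.p_mem n))

lemma strong (ξ : H) : Tendsto (fun n => ‖(1 - S.p n) ξ‖) atTop (𝓝 0) := by
  have d := Submodule.dense_iff_topologicalClosure_eq_top.mpr R.b.dense_span
  have h1 : ∀ η ∈ Submodule.span ℂ (Set.range R.b),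
      Tendsto (fun n => (1 - S.p n) η) atTop (𝓝 0) := by
    intro η hη
    induction hη using Submodule.span_induction with
    | mem x h =>
      obtain ⟨g, rfl⟩ := h
      rw [tendsto_zero_iff_norm_tendsto_zero]
      simpa only [(S.r_inM _).apply, norm_iso (R.V_iso _)] using S.small
    | zero => simp
    | add x y _ _ hx hy => simpa only [map_add, add_zero] using hx.add hy
    | smul a x _ hx => simpa only [map_smul, smul_zero] using hx.const_smul a
  rw [Metric.tendsto_atTop]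
  intro ε hε
  obtain ⟨η, hη, h⟩ := Metric.mem_closure_iff.mp (d ξ) (ε / 2) (half_pos hε)
  obtain ⟨N, hN⟩ := Metric.tendsto_atTop.mp (h1 η hη) (ε / 2) (half_pos hε)
  refine ⟨N, fun n hn => ?_⟩
  have := hN n hn
  rw [dist_zero_right] at this ⊢
  rw [dist_eq_norm] at h
  have e := ((1 - S.p n).le_of_opNorm_le (S.r_norm n) (ξ - η))
  rw [map_sub, one_mul] at e
  rw [norm_norm]
  linarith [norm_sub_norm_le ((1 - S.p n) ξ) ((1 - S.p n) η)]

lemma strong' (y : H →L[ℂ] H) (ξ : H) : Tendsto (fun n => (y * S.p n) ξ) atTop (𝓝 (y ξ)) := by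
  have : Tendsto (fun n => S.p n ξ) atTop (𝓝 ξ) := by
    rw [tendsto_iff_norm_sub_tendsto_zero]
    simpa [norm_sub_rev] using S.strong ξ
  exact (y.continuous.tendsto ξ).comp this

lemma norm_le {y : H →L[ℂ] H} {n : ℕ} {C : ℝ} (h : ∀ m, n ≤ m → ‖y * S.p m‖ ≤ C) : ‖y‖ ≤ C := by
  refine ContinuousLinearMap.opNorm_le_bound _ ((norm_nonneg _).trans (h n le_rfl)) fun ξ => ?_
  exact le_of_tendsto (S.strong' y ξ).norm (eventually_atTop.mpr ⟨n, fun m hm =>
    (y * S.p m).le_of_opNorm_le (h m hm) ξ⟩)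

lemma p_Φ (n : ℕ) (s : Bool) (y : H →L[ℂ] H) : S.Φ n s y * S.p n = 0 := by
  simpa [S.p_star, ← map_star] using congrArg star (S.Φ_p n s (star y))
lemma Φ_orth' (n : ℕ) (x y : H →L[ℂ] H) : S.Φ n false x * S.Φ n true y = 0 := by
  simpa [← map_star] using congrArg star (S.Φ_orth n (star y) (star x))
lemma Φ_up (n : ℕ) (s : Bool) {y : H →L[ℂ] H} (h : y * S.p n = y) :
    S.Φ n s y * S.p (n + 1) = S.Φ n s y := by
  have := congrArg (S.Φ n s y * ·) (S.Φ_sum n)
  simp only [mul_add, mul_sub, p_Φ, sub_zero] at this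
  rw [← this]
  cases s <;> simp [S.Φ_orth, S.Φ_orth', ← map_mul, h]
lemma Φ_up' (n : ℕ) (s : Bool) {y : H →L[ℂ] H} (h : S.p n * y = y) :
    S.p (n + 1) * S.Φ n s y = S.Φ n s y := by
  simpa [S.p_star, ← map_star] using congrArg star (S.Φ_up n s (y := star y)
    (by simpa [S.p_star] using congrArg star h))

lemma step {n : ℕ} {a b c : H →L[ℂ] H} (h1 : S.p n * a = a) (h2 : a * S.p n = a) {C : ℝ}
    (ha : ‖a‖ ≤ C) (hb : ‖b‖ ≤ C) (hc : ‖c‖ ≤ C) :
    ‖a + (S.Φ n true b + S.Φ n false c)‖ ≤ C := by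
  have h3 : star a * S.p n = star a := by simpa [S.p_star] using congrArg star h1
  refine nadd ?_ ?_ ha (nadd ?_ ?_ ((NonUnitalStarAlgHom.norm_apply_le _ _).trans hb)
    ((NonUnitalStarAlgHom.norm_apply_le _ _).trans hc))
  · rw [← h3, mul_assoc, mul_add, S.Φ_p, S.Φ_p]; simp
  · rw [← h2, mul_assoc, star_add, ← map_star, ← map_star, mul_add, S.Φ_p, S.Φ_p]; simp
  · rw [← map_star, S.Φ_orth]
  · rw [← map_star, S.Φ_orth]

def In (n : ℕ) (f : BB H) : Prop := ∀ m, n ≤ m → ∀ t, Commute (f t) (S.p m) ∧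
  f t * S.p m ∈ R.D ∧ f t * (S.p (m + 1) - S.p m) =
    S.Φ m true (f (xs m) * S.p m) + S.Φ m false (f (-xs m) * S.p m)

variable {S}
lemma In.mono {n m : ℕ} {f : BB H} (h : S.In n f) (hm : n ≤ m) : S.In m f :=
  fun k hk => h k (hm.trans hk)
lemma In.inM {n : ℕ} {f : BB H} (h : S.In n f) (t : Circle) : R.InM (f t) := fun g => by
  ext ξ
  refine tendsto_nhds_unique (S.strong' (f t) (R.V g ξ)) ?_
  refine (((R.V g).continuous.tendsto _).comp (S.strong' (f t) ξ)).congr' ?_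
  filter_upwards [eventually_ge_atTop n] with m hm
  exact (congrArg (fun y : H →L[ℂ] H => y ξ) (R.inM (h m hm t).2.1 g).eq).symm
lemma In.succ {n : ℕ} {f : BB H} (h : S.In n f) {m : ℕ} (hm : n ≤ m) (t : Circle) :
    f t * S.p (m + 1) = f t * S.p m +
      (S.Φ m true (f (xs m) * S.p m) + S.Φ m false (f (-xs m) * S.p m)) := by
  rw [← (h m hm t).2.2, mul_sub]; abel
lemma In.pl {n : ℕ} {f : BB H} (h : S.In n f) {m : ℕ} (hm : n ≤ m) (t : Circle) :
    S.p m * (f t * S.p m) = f t * S.p m := by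
  rw [← mul_assoc, ← (h m hm t).1.eq, mul_assoc, S.p_idem]
lemma In.norm {n : ℕ} {f : BB H} (h : S.In n f) {C : ℝ} (hC : ∀ t, ‖f t * S.p n‖ ≤ C) :
    ‖f‖ ≤ C := by
  refine (ContinuousMap.norm_le _ ((norm_nonneg _).trans (hC 1))).mpr fun t =>
    S.norm_le (n := n) fun m hm => ?_
  induction m, hm using Nat.le_induction generalizing t with
  | base => exact hC t
  | succ m hm ih =>
    rw [h.succ hm]
    exact S.step (h.pl hm t) (by rw [mul_assoc, S.p_idem]) (ih _) (ih _) (ih _)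
lemma In.add {n : ℕ} {f g : BB H} (h : S.In n f) (h' : S.In n g) : S.In n (f + g) :=
  fun m hm t => ⟨(h m hm t).1.add_left (h' m hm t).1, by
    rw [ContinuousMap.add_apply, add_mul]; exact add_mem (h m hm t).2.1 (h' m hm t).2.1, by
    simp only [ContinuousMap.add_apply, add_mul, (h m hm t).2.2, (h' m hm t).2.2, map_add]; abel⟩
lemma In.smul {n : ℕ} {f : BB H} (h : S.In n f) (c : ℂ) : S.In n (c • f) :=
  fun m hm t => ⟨(h m hm t).1.smul_left c, by
    rw [ContinuousMap.smul_apply, smul_mul_assoc]; exact R.D.smul_mem (h m hm t).2.1 c, by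
    simp only [ContinuousMap.smul_apply, smul_mul_assoc, (h m hm t).2.2, map_smul, smul_add]⟩
lemma In.sub {n : ℕ} {f g : BB H} (h : S.In n f) (h' : S.In n g) : S.In n (f - g) := by
  rw [sub_eq_add_neg, ← neg_one_smul ℂ g]; exact h.add (h'.smul (-1))
lemma In.one (n : ℕ) : S.In n 1 :=
  fun m _ t => ⟨Commute.one_left _, by simpa using S.p_mem m, by simp [S.Φ_sum]⟩
lemma In.zero (n : ℕ) : S.In n 0 := by
  rw [← zero_smul ℂ (1 : BB H)]; exact (In.one (S := S) n).smul 0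
lemma In.sum {n : ℕ} {ι : Type} (s : Finset ι) {f : ι → BB H} (h : ∀ i, S.In n (f i)) :
    S.In n (∑ i ∈ s, f i) :=
  Finset.sum_induction _ _ (fun _ _ => In.add) (In.zero n) fun i _ => h i
lemma In.mp {n : ℕ} {g : BB H} (h' : S.In n g) {m : ℕ} (hm : n ≤ m) (y : H →L[ℂ] H) (t : Circle) :
    y * g t * S.p m = y * S.p m * (g t * S.p m) := by
  rw [mul_assoc y (S.p m), h'.pl hm, mul_assoc]
lemma In.mul {n : ℕ} {f g : BB H} (h : S.In n f) (h' : S.In n g) : S.In n (f * g) := by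
  refine fun m hm t => ⟨(h m hm t).1.mul_left (h' m hm t).1, ?_, ?_⟩
  · rw [ContinuousMap.mul_apply, h'.mp hm]; exact mul_mem (h m hm t).2.1 (h' m hm t).2.1
  · have e : f t * g t * (S.p (m + 1) - S.p m) =
        f t * (S.p (m + 1) - S.p m) * (g t * (S.p (m + 1) - S.p m)) := by
      rw [mul_assoc (f t) (_ - _), ← mul_assoc (_ - _),
        ← ((h' _ (hm.trans m.le_succ) t).1.sub_right (h' m hm t).1).eq, mul_assoc (g t), mul_assoc]
      simp [sub_mul, mul_sub, S.p_idem, S.p_le m _ m.le_succ, S.p_le' m.le_succ]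
    simp only [ContinuousMap.mul_apply, e, (h m hm t).2.2, (h' m hm t).2.2, h'.mp hm, add_mul,
      mul_add, S.Φ_orth, S.Φ_orth', ← map_mul, add_zero, zero_add]
lemma In.star {n : ℕ} {f : BB H} (h : S.In n f) : S.In n (star f) := by
  have c : ∀ m, n ≤ m → ∀ t, Commute (Star.star (f t)) (S.p m) := fun m hm t => by
    simpa [S.p_star] using (h m hm t).1.star_star
  have e : ∀ m, n ≤ m → ∀ t, Star.star (f t) * S.p m = Star.star (f t * S.p m) := fun m hm t => by
    rw [star_mul, S.p_star, (c m hm t).eq]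
  refine fun m hm t => ⟨c m hm t, ?_, ?_⟩
  · rw [ContinuousMap.star_apply, e m hm]; exact star_mem (h m hm t).2.1
  · simp only [ContinuousMap.star_apply, e m hm, map_star, ← star_add, ← (h m hm t).2.2]
    rw [mul_sub, mul_sub, e m hm, e _ (hm.trans m.le_succ), star_sub]
lemma In.ext {n : ℕ} {f g : BB H} (h : S.In n f) (h' : S.In n g)
    (e : ∀ t, f t * S.p n = g t * S.p n) : f = g :=
  sub_eq_zero.mp (norm_le_zero_iff.mp ((h.sub h').norm fun t => by simp [sub_mul, e]))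
variable (S)

theorem lift (n : ℕ) (a : BB H) (ha : ∀ t, a t ∈ R.D ∧ S.p n * a t = a t ∧ a t * S.p n = a t) :
    ∃ f, S.In n f ∧ ∀ t, f t * S.p n = a t := by
  let s : ℕ → H →L[ℂ] H := fun i => Nat.rec 0 (fun i y => y +
    (S.Φ (n + i) true (a (xs (n + i)) + y) + S.Φ (n + i) false (a (-xs (n + i)) + y))) i
  have s1 : ∀ i t, a t + s (i + 1) = a t + s i +
      (S.Φ (n + i) true (a (xs (n + i)) + s i) + S.Φ (n + i) false (a (-xs (n + i)) + s i)) :=
    fun i t => (add_assoc _ _ _).symm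
  have inv : ∀ i t, a t + s i ∈ R.D ∧ S.p (n + i) * (a t + s i) = a t + s i ∧
      (a t + s i) * S.p (n + i) = a t + s i ∧ ‖a t + s i‖ ≤ ‖a‖ := by
    intro i
    induction i with
    | zero => intro t; simpa [s, a.norm_coe_le_norm] using ha t
    | succ i ih =>
      intro t
      rw [s1, ← add_assoc n]
      refine ⟨add_mem (ih t).1 (add_mem (S.Φ_mem _ _ _ (ih _).1) (S.Φ_mem _ _ _ (ih _).1)), ?_, ?_,
        S.step (ih t).2.1 (ih t).2.2.1 (ih _).2.2.2 (ih _).2.2.2 (ih _).2.2.2⟩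
      · rw [mul_add, mul_add (S.p _) (S.Φ _ _ _), S.Φ_up' _ _ (ih _).2.1, S.Φ_up' _ _ (ih _).2.1,
          ← (ih t).2.1, ← mul_assoc, S.p_le' (Nat.le_succ _)]
      · rw [add_mul, add_mul (S.Φ _ _ _), S.Φ_up _ _ (ih _).2.2.1, S.Φ_up _ _ (ih _).2.2.1,
          ← (ih t).2.2.1, mul_assoc, S.p_le _ _ (Nat.le_succ _)]
  have cp : ∀ i j, i ≤ j → ∀ t, (a t + s j) * S.p (n + i) = a t + s i ∧
      S.p (n + i) * (a t + s j) = a t + s i := by
    intro i j hij t
    induction j, hij using Nat.le_induction with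
    | base => exact ⟨(inv i t).2.2.1, (inv i t).2.1⟩
    | succ j hij ih =>
      have e1 := S.p_le' (show n + i ≤ n + j by omega)
      have e2 := S.p_le _ _ (show n + i ≤ n + j by omega)
      constructor
      · rw [s1, add_mul, ih.1, ← e1, ← mul_assoc, add_mul, S.p_Φ, S.p_Φ]; simp
      · rw [s1, mul_add, ih.2, ← e2, mul_assoc, mul_add, S.Φ_p, S.Φ_p]; simp
  have cau : ∀ ξ, CauchySeq fun i => s i ξ := fun ξ => by
    refine cauchySeq_of_le_tendsto_0' (fun i => ‖a‖ * ‖(1 - S.p (n + i)) ξ‖) (fun i j hij => ?_) ?_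
    · have : s j ξ - s i ξ = (a 1 + s j) ((1 - S.p (n + i)) ξ) := by
        rw [← ContinuousLinearMap.mul_apply, mul_sub, mul_one, (cp i j hij 1).1]; simp
      rw [dist_comm, dist_eq_norm, this]
      exact (a 1 + s j).le_of_opNorm_le (inv j 1).2.2.2 _
    · rw [← mul_zero ‖a‖]
      exact ((S.strong ξ).comp (tendsto_atTop_mono (fun i => Nat.le_add_left i n)
        tendsto_id)).const_mul ‖a‖
  choose L hL using fun ξ => cauchySeq_tendsto_of_complete (cau ξ)
  let T : H →L[ℂ] H := continuousLinearMapOfTendsto s (tendsto_pi_nhds.mpr hL)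
  have hT : ∀ t ξ, Tendsto (fun j => (a t + s j) ξ) atTop (𝓝 ((a t + T) ξ)) :=
    fun t ξ => (hL ξ).const_add (a t ξ)
  have l1 : ∀ i t, (a t + T) * S.p (n + i) = a t + s i := fun i t => by
    ext ξ
    refine tendsto_nhds_unique (hT t _) (tendsto_const_nhds.congr' ?_)
    filter_upwards [eventually_ge_atTop i] with j hj
    exact (congrArg (fun y : H →L[ℂ] H => y ξ) (cp i j hj t).1).symm
  have l2 : ∀ i t, S.p (n + i) * (a t + T) = a t + s i := fun i t => by
    ext ξ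
    refine tendsto_nhds_unique (((S.p (n + i)).continuous.tendsto _).comp (hT t ξ))
      (tendsto_const_nhds.congr' ?_)
    filter_upwards [eventually_ge_atTop i] with j hj
    exact (congrArg (fun y : H →L[ℂ] H => y ξ) (cp i j hj t).2).symm
  refine ⟨a + ContinuousMap.const _ T, fun m hm t => ?_, fun t => by simpa [s] using l1 0 t⟩
  obtain ⟨i, rfl⟩ := Nat.exists_eq_add_of_le hm
  simp only [ContinuousMap.add_apply, ContinuousMap.const_apply, l1]
  refine ⟨(l1 i t).trans (l2 i t).symm, (inv i t).1, ?_⟩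
  rw [mul_sub, add_assoc n, l1, l1, s1]; abel

lemma liftc (n : ℕ) {d : H →L[ℂ] H} (h : d ∈ R.D) (h1 : S.p n * d = d) (h2 : d * S.p n = d) :
    ∃ f, S.In n f ∧ ∀ t, f t * S.p n = d :=
  S.lift n (ContinuousMap.const _ d) fun _ => ⟨h, h1, h2⟩

def A0 : StarSubalgebra ℂ (BB H) where
  carrier := {f | ∃ n, S.In n f}
  mul_mem' := fun ⟨n, h⟩ ⟨m, h'⟩ => ⟨max n m, (h.mono (le_max_left _ _)).mul (h'.mono (le_max_right _ _))⟩
  add_mem' := fun ⟨n, h⟩ ⟨m, h'⟩ => ⟨max n m, (h.mono (le_max_left _ _)).add (h'.mono (le_max_right _ _))⟩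
  algebraMap_mem' := fun r => ⟨0, by rw [Algebra.algebraMap_eq_smul_one]; exact (In.one 0).smul r⟩
  star_mem' := fun ⟨n, h⟩ => ⟨n, h.star⟩

noncomputable def A : StarSubalgebra ℂ (BB H) := S.A0.topologicalClosure

lemma A_closed : IsClosed (S.A : Set (BB H)) := StarSubalgebra.isClosed_topologicalClosure _
lemma A_mem {n : ℕ} {f : BB H} (h : S.In n f) : f ∈ S.A :=
  StarSubalgebra.le_topologicalClosure _ ⟨n, h⟩
lemma A_approx {f : BB H} (h : f ∈ S.A) {ε : ℝ} (hε : 0 < ε) : ∃ n g, S.In n g ∧ ‖f - g‖ < ε := by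
  obtain ⟨g, ⟨n, hg⟩, h⟩ := Metric.mem_closure_iff.mp h ε hε
  exact ⟨n, g, hg, by rwa [dist_eq_norm] at h⟩
lemma A_inM {f : BB H} (h : f ∈ S.A) (t : Circle) : R.InM (f t) := fun g =>
  closure_minimal (s := (S.A0 : Set (BB H))) (t := {f : BB H | f t * R.V g = R.V g * f t})
    (by rintro _ ⟨_, h⟩; exact (h.inM t g).eq) (isClosed_eq (by fun_prop) (by fun_prop))
    (show f ∈ closure (S.A0 : Set (BB H)) from h)

end Sys

end Pool.Agent.H70.Tr
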