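import Pool.Agent.H70.RkDefs

namespace Pool.Agent.H70.Rk

/-- The tracial Rokhlin property of an action of a finite group on a unital C*-algebra. Positive
elements are those of the form `star y * y`; the last condition says that `1 - ∑ e k` is
Murray–von Neumann equivalent to a projection `f` in the closure of `x D x`. -/
def TracialRokhlin {K D : Type} [Group K] [Fintype K] [CStarAlgebra D] (σ : Action K D) : Prop :=
  ∀ (F : Finset D) (ε : ℝ), 0 < ε → ∀ x : D, x ≠ 0 → (∃ y, x = star y * y) → ∃ e : K → D,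
    (∀ k, star (e k) = e k ∧ e k * e k = e k) ∧ (∀ k l, k ≠ l → e k * e l = 0) ∧
    (∀ k l, ‖σ k (e l) - e (k * l)‖ < ε) ∧ (∀ k, ∀ a ∈ F, ‖e k * a - a * e k‖ < ε) ∧
    ∃ f v : D, star f = f ∧ f * f = f ∧ f ∈ closure {z | ∃ a, z = x * a * x} ∧
      star v * v = 1 - ∑ k, e k ∧ v * star v = f

end Pool.Agent.H70.Rk
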