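import Pool.Agent.H70.Tr4
import Pool.Agent.H70.TrDefs

namespace Pool.Agent.H70.Tr
open scoped InnerProductSpace CStarAlgebra
open Finset Pool.Agent.H70.Rk Filter Topology

variable {H : Type} [NormedAddCommGroup H] [InnerProductSpace ℂ H] [CompleteSpace H]
  {G : Type} [Group G] {R : Reg G H}

lemma unit_trick {A : Type} [CStarAlgebra A] (I : TwoSidedIdeal A) {E w : A} (EE : E * E = E)
    (wI : w ∈ I) {c : ℂ} (h : ‖w - c • E‖ < ‖c‖) : E ∈ I := by
  have c0 : 0 < ‖c‖ := (norm_nonneg _).trans_lt h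
  have c1 : c ≠ 0 := norm_pos_iff.mp c0
  have k3 : ‖E - c⁻¹ • w‖ < 1 := by
    have : E - c⁻¹ • w = -c⁻¹ • (w - c • E) := by
      rw [smul_sub, smul_smul, neg_mul, inv_mul_cancel₀ c1]; module
    rwa [this, norm_smul, norm_neg, norm_inv, inv_mul_lt_iff₀ c0, mul_one]
  obtain ⟨v, hv⟩ := isUnit_one_sub_of_norm_lt_one k3
  have : E = E * (c⁻¹ • w) * v⁻¹ := by
    rw [Units.eq_mul_inv_iff_mul_eq, hv, mul_sub, mul_sub, EE]; simp
  rw [this, Algebra.smul_def]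
  exact I.mul_mem_right _ _ (I.mul_mem_left _ _ (I.mul_mem_left _ _ wI))

namespace Sys
variable (S : Sys R) {M : ℕ} (Q : PP G M)

lemma one_le : ‖(1 : BB H)‖ ≤ 1 :=
  (ContinuousMap.norm_le _ zero_le_one).mpr fun _ => ContinuousLinearMap.norm_id_le

include Q in
lemma avg (n : ℕ) (φ : (H →L[ℂ] H) →⋆ₙₐ[ℂ] (H →L[ℂ] H)) (hφ : ∀ a ∈ R.D, φ a ∈ R.D)
    {r d : H →L[ℂ] H} (rD : r ∈ R.D) (r1 : star r = r) (r2 : r * r = r) (hr : S.p n * φ r = φ r)
    (dD : d ∈ R.D) (hd : r * d * r = d) {f E : BB H} (hf : S.In n f) (hE : S.In n E)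
    (h1 : ∀ t, φ r * f t * φ r = φ d) (h2 : ∀ t, E t * S.p n = φ r)
    (I : TwoSidedIdeal S.A) (z : S.A) (hz : z ∈ I) (hzf : ‖z.1 - f‖ < ‖R.τ d‖) :
    (⟨E, S.A_mem hE⟩ : S.A) ∈ I := by
  haveI : IsClosed (S.A : Set (BB H)) := S.A_closed
  obtain ⟨N, hN, u, hu⟩ := R.dixmier Q dD (half_pos (sub_pos.mpr hzf))
  have N1 : (0 : ℝ) < N := by exact_mod_cast hN
  have hr' : φ r * S.p n = φ r := by simpa [S.p_star, ← map_star, r1] using congrArg star hr
  have rn := norm_proj r1 r2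
  have e1 : ∀ a, φ r * φ (r * a * r) = φ (r * a * r) := fun a => by
    rw [← map_mul, ← mul_assoc, ← mul_assoc, r2]
  have e2 : ∀ a, φ (r * a * r) * φ r = φ (r * a * r) := fun a => by rw [← map_mul, mul_assoc, r2]
  have nr : ∀ a, ‖φ (r * a * r)‖ ≤ ‖a‖ := fun a => by
    refine (NonUnitalStarAlgHom.norm_apply_le _ _).trans ?_
    calc _ ≤ ‖r‖ * ‖a‖ * ‖r‖ := (norm_mul_le _ _).trans (by gcongr; exact norm_mul_le _ _)
      _ ≤ 1 * ‖a‖ * 1 := by gcongr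
      _ = _ := by ring
  choose g hg hg' using fun i => S.liftc n (d := φ (r * R.U (u i) * r))
    (hφ _ (mul_mem (mul_mem rD (R.U_mem _)) rD)) (by rw [← e1, ← mul_assoc, hr])
    (by rw [← e2, mul_assoc, hr'])
  have gn : ∀ i, ‖g i‖ ≤ 1 := fun i => (hg i).norm fun t => hg' i t ▸ (nr _).trans (R.norm_U _)
  have k1 : ‖(N : ℂ)⁻¹ • ∑ i ∈ range N, g i * f * star (g i) - R.τ d • E‖ ≤
      (‖R.τ d‖ - ‖z.1 - f‖) / 2 := by
    refine (((In.sum _ fun i => ((hg i).mul hf).mul (hg i).star).smul _).sub (hE.smul _)).norm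
      fun t => le_of_eq_of_le ?_ ((nr _).trans hu)
    congr 1
    simp only [ContinuousMap.sub_apply, ContinuousMap.smul_apply, ContinuousMap.sum_apply,
      ContinuousMap.mul_apply, sub_mul, mul_sub, smul_mul_assoc, mul_smul_comm, sum_mul, mul_sum,
      h2, map_sub, map_smul, map_sum, mul_one, r2]
    congr 2
    refine sum_congr rfl fun i _ => ?_
    have a1 : star (g i) t * S.p n = φ (r * star (R.U (u i)) * r) := by
      rw [((hg i).star n le_rfl t).1.eq, ContinuousMap.star_apply, ← S.p_star, ← star_mul, hg',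
        ← map_star, star_mul, star_mul, r1, mul_assoc]
    rw [(hg i).star.mp le_rfl, hf.mp le_rfl, a1, hg', ← e2, ← e1 (star _),
      mul_assoc _ (φ r), (hf n le_rfl t).1.eq, ← mul_assoc (φ r), hr', mul_assoc, ← mul_assoc _ (φ r),
      h1, ← map_mul, ← map_mul]
    congr 1
    conv_rhs => rw [← hd]
    conv_lhs => rw [← hd]
    simp only [mul_assoc, ← mul_assoc r r, r2]
  have k2 : ‖(N : ℂ)⁻¹ • ∑ i ∈ range N, g i * (z.1 - f) * star (g i)‖ ≤ ‖z.1 - f‖ := by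
    rw [norm_smul, norm_inv, Complex.norm_natCast, inv_mul_le_iff₀ N1]
    refine (norm_sum_le_of_le _ (n := fun _ => ‖z.1 - f‖) fun i _ => ?_).trans (by simp)
    have := gn i
    calc _ ≤ ‖g i‖ * ‖z.1 - f‖ * ‖star (g i)‖ :=
          (norm_mul_le _ _).trans (by gcongr; exact norm_mul_le _ _)
      _ ≤ 1 * ‖z.1 - f‖ * 1 := by rw [norm_star (g i)]; gcongr
      _ = _ := by ring
  have Ismul : ∀ (a : ℂ) x, x ∈ I → a • x ∈ I := fun a x hx => by
    rw [Algebra.smul_def]; exact I.mul_mem_left _ _ hx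
  let g' : ℕ → S.A := fun i => ⟨g i, S.A_mem (hg i)⟩
  set w : S.A := (N : ℂ)⁻¹ • ∑ i ∈ range N, g' i * z * star (g' i) with hw
  have wI : w ∈ I := Ismul _ _ (sum_mem fun i _ => I.mul_mem_right _ _ (I.mul_mem_left _ _ hz))
  set E' : S.A := ⟨E, S.A_mem hE⟩
  have EE : E' * E' = E' := Subtype.ext ((hE.mul hE).ext hE fun t => by
    rw [ContinuousMap.mul_apply, hE.mp le_rfl, h2, ← map_mul, r2])
  refine unit_trick (A := S.A) I EE wI (c := R.τ d) ?_
  have e : (w - R.τ d • E').1 = ((N : ℂ)⁻¹ • ∑ i ∈ range N, g i * f * star (g i) - R.τ d • E) +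
      (N : ℂ)⁻¹ • ∑ i ∈ range N, g i * (z.1 - f) * star (g i) := by
    simp only [mul_sub, sub_mul, sum_sub_distrib, smul_sub]
    simp [hw, g', E']
  change ‖(w - R.τ d • E').1‖ < _
  rw [e]
  exact (norm_add_le _ _).trans_lt (by linarith)

lemma τ_p (n : ℕ) : R.τ (S.p n) ≠ 0 := by
  intro h
  have h1 := R.τ_le' (1 - S.p n)
  have : 1 - S.p n = (1 - S.p n) * (1 - S.p 0) := by
    simp [mul_sub, sub_mul, S.p_le' (Nat.zero_le n)]
  rw [R.τ_sub, h, R.τ_one, this, ContinuousLinearMap.mul_apply] at h1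
  have := (1 - S.p n).le_of_opNorm_le (S.r_norm n) ((1 - S.p 0) R.Ω)
  have := S.small0
  simp only [sub_zero, norm_one] at h1
  linarith

lemma exE (m : ℕ) : ∃ E, S.In (m + 1) E ∧ ∀ t, E t * S.p (m + 1) = S.Φ m true (S.p m) :=
  S.liftc _ (S.Φ_mem _ _ _ (S.p_mem m)) (S.Φ_up' _ _ (S.p_idem m)) (S.Φ_up _ _ (S.p_idem m))

include Q in
theorem simple : IsSimpleAlg S.A := by
  refine ⟨⟨1, 0, fun h => ?_⟩, fun I _ => ?_⟩
  · have h1 : (1 : H →L[ℂ] H) = 0 := congrArg (fun f : S.A => f.1 1) h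
    simpa [h1, R.τ_zero] using R.τ_one
  by_cases hb : I = ⊥
  · exact Or.inl hb
  right
  obtain ⟨y, hy, hy0⟩ : ∃ x ∈ I, x ≠ 0 := by
    by_contra hcon
    push Not at hcon
    exact hb (by ext x; simpa using ⟨hcon x, fun h => h ▸ I.zero_mem⟩)
  obtain ⟨t0, ht0⟩ : ∃ t, y.1 t R.Ω ≠ 0 := by
    by_contra hc
    push Not at hc
    exact hy0 (Subtype.ext (ContinuousMap.ext fun t => (S.A_inM y.2 t).sep (hc t)))
  set z := star y * y with hz
  have c0 : 0 < ‖R.τ (z.1 t0)‖ := by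
    change 0 < ‖R.τ (star (y.1 t0) * y.1 t0)‖
    rw [R.τ_star_mul]; simpa [sq_pos_iff] using ht0
  set c := ‖R.τ (z.1 t0)‖ with hc
  obtain ⟨n, f, hf, hzf⟩ := S.A_approx z.2 (by positivity : 0 < c / 4)
  obtain ⟨N, hN⟩ := eventually_atTop.mp ((S.small.const_mul ‖f‖).eventually
    (gt_mem_nhds (show ‖f‖ * 0 < c / 4 by rw [mul_zero]; positivity)))
  have hcont := R.τ_cont
  obtain ⟨m, hm, hx⟩ := xs_dense t0 ((isOpen_lt (f := fun _ => 3 * c / 4)
    (g := fun t => ‖R.τ (z.1 t)‖) continuous_const (by fun_prop)).mem_nhds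
    (by simp only [Set.mem_setOf_eq]; linarith)) (max n N)
  have hn : n ≤ m := le_of_max_le_left hm
  obtain ⟨E, hE, hE'⟩ := S.exE m
  have up := S.Φ_up' m true (S.p_idem m)
  have s1 : (⟨E, S.A_mem hE⟩ : S.A) ∈ I := by
    refine S.avg Q (m + 1) (S.Φ m true) (S.Φ_mem _ _) (S.p_mem m) (S.p_star m) (S.p_idem m) up
      (hf m hn (xs m)).2.1 (by rw [hf.pl hn, mul_assoc, S.p_idem]) (hf.mono (by omega)) hE
      (fun t => ?_) hE' I z (I.mul_mem_left _ _ hy) (hzf.trans_le ?_)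
    · rw [← up, ← mul_assoc, mul_assoc _ (f t), hf.succ hn, up, mul_add, mul_add, add_mul, add_mul,
        mul_assoc, mul_assoc, S.Φ_p, S.Φ_orth, ← map_mul, ← map_mul, hf.pl hn, mul_assoc, S.p_idem]
      simp
    · have a1 := hN m (le_of_max_le_right hm)
      have a2 : ‖R.τ (z.1 (xs m) - f (xs m))‖ ≤ ‖z.1 - f‖ :=
        (R.τ_le _).trans ((z.1 - f).norm_coe_le_norm _)
      have a3 : ‖R.τ (f (xs m) * (1 - S.p m))‖ ≤ ‖f‖ * ‖(1 - S.p m) R.Ω‖ :=
        (R.τ_le' _).trans ((f (xs m)).le_of_opNorm_le (f.norm_coe_le_norm _) _)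
      have a4 : R.τ (z.1 (xs m)) = R.τ (z.1 (xs m) - f (xs m)) + R.τ (f (xs m) * (1 - S.p m)) +
          R.τ (f (xs m) * S.p m) := by rw [← R.τ_add, ← R.τ_add, mul_sub]; congr 1; simp
      have a5 := norm_add₃_le (a := R.τ (z.1 (xs m) - f (xs m)))
        (b := R.τ (f (xs m) * (1 - S.p m))) (c := R.τ (f (xs m) * S.p m))
      rw [← a4] at a5
      simp only [Set.mem_setOf_eq] at hx
      linarith
  obtain ⟨k, hk, hk'⟩ := S.Φ_tr m
  have := S.avg Q (m + 1) (NonUnitalStarAlgHom.id ℂ _) (fun _ h => h) (S.p_mem (m + 1))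
    (S.p_star _) (S.p_idem _) (S.p_idem _) (S.Φ_mem m true _ (S.p_mem m))
    (by rw [up, S.Φ_up _ _ (S.p_idem m)]) hE (In.one _)
    (fun t => by change S.p _ * E t * S.p _ = S.Φ m true _; rw [mul_assoc, hE', up])
    (fun t => one_mul _) I _ s1 (by simp [hk' _ (S.p_mem m), hk, S.τ_p])
  exact I.one_mem_iff.mp this

end Sys

end Pool.Agent.H70.Tr
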