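import Pool.Agent.H70.Tr5

namespace Pool.Agent.H70.Tr
open scoped InnerProductSpace CStarAlgebra
open Finset Pool.Agent.H70.Rk Filter Topology

variable {H : Type} [NormedAddCommGroup H] [InnerProductSpace ℂ H] [CompleteSpace H]
  {G : Type} [Group G] {R : Reg G H}

noncomputable def ng (k : ℤˣ) : C(Circle, Circle) :=
  if k = 1 then ContinuousMap.id _ else ⟨fun t => -t, continuous_neg⟩

lemma ng_one (t : Circle) : ng 1 t = t := by simp [ng]
lemma ng_neg (t : Circle) : ng (-1) t = -t := by simp [ng]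
lemma ng_mul (k l : ℤˣ) (t : Circle) : ng (k * l) t = ng l (ng k t) := by
  rcases Int.units_eq_one_or k with rfl | rfl <;> rcases Int.units_eq_one_or l with rfl | rfl <;>
    simp [ng_one, ng_neg]
lemma ng_coe (k : ℤˣ) (t : Circle) : (ng k t : ℂ) = ((k : ℤ) : ℂ) * t := by
  rcases Int.units_eq_one_or k with rfl | rfl <;> simp [ng_one, ng_neg]

namespace Sys
variable (S : Sys R) {M : ℕ} (Q : PP G M)

noncomputable def ac (k : ℤˣ) (f : BB H) : BB H :=
  ContinuousMap.const _ (S.w k) * f.comp (ng k) * ContinuousMap.const _ (S.w k⁻¹)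

lemma ac_apply (k : ℤˣ) (f : BB H) (t : Circle) : S.ac k f t = S.w k * f (ng k t) * S.w k⁻¹ := rfl

lemma w_mul (k : ℤˣ) (x y : H →L[ℂ] H) :
    S.w k * (x * y) * S.w k⁻¹ = S.w k * x * S.w k⁻¹ * (S.w k * y * S.w k⁻¹) := by
  simp only [mul_assoc]; rw [← mul_assoc (S.w k⁻¹), ← map_mul]; simp
lemma w_p' (k : ℤˣ) (x : H →L[ℂ] H) (n : ℕ) :
    S.w k * x * S.w k⁻¹ * S.p n = S.w k * (x * S.p n) * S.w k⁻¹ := by rw [w_mul, S.w_p]

lemma ac_mul (k l : ℤˣ) (f : BB H) : S.ac (k * l) f = S.ac k (S.ac l f) := by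
  ext t : 1
  simp only [ac_apply, ng_mul, map_mul, mul_inv_rev, mul_assoc]
lemma ac_one (f : BB H) : S.ac 1 f = f := by ext t : 1; simp [ac_apply, ng_one]

lemma ac_in (k : ℤˣ) {n : ℕ} {f : BB H} (h : S.In n f) : S.In n (S.ac k f) := by
  rcases Int.units_eq_one_or k with rfl | rfl
  · rwa [ac_one]
  intro m hm t
  simp only [ac_apply, ng_neg, w_p', neg_neg]
  refine ⟨?_, S.w_mem _ _ (h m hm _).2.1, ?_⟩
  · change _ * _ = _ * _
    rw [w_p', (h m hm _).1.eq, w_mul, S.w_p]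
  · rw [mul_sub, w_p', w_p', ← sub_mul, ← mul_sub, ← mul_sub, (h m hm _).2.2, mul_add, add_mul,
      S.w_Φ _ _ _ (h m hm _).2.1, S.w_Φ _ _ _ (h m hm _).2.1, add_comm]; rfl

lemma ac_mem (k : ℤˣ) {f : BB H} (h : f ∈ S.A) : S.ac k f ∈ S.A :=
  closure_minimal (s := (S.A0 : Set (BB H))) (t := {f : BB H | S.ac k f ∈ S.A})
    (by rintro _ ⟨_, h⟩; exact S.A_mem (S.ac_in k h))
    (S.A_closed.preimage ((continuous_const.mul (ContinuousMap.continuous_precomp _)).mul
      continuous_const)) (show f ∈ closure (S.A0 : Set (BB H)) from h)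

noncomputable def α : ℤˣ →* (S.A ≃⋆ₐ[ℂ] S.A) :=
  MonoidHom.mk' (fun k =>
    { toFun := fun x => ⟨S.ac k x, S.ac_mem k x.2⟩
      invFun := fun x => ⟨S.ac k⁻¹ x, S.ac_mem k⁻¹ x.2⟩
      left_inv := fun x => Subtype.ext (by simp only [← ac_mul, inv_mul_cancel, ac_one])
      right_inv := fun x => Subtype.ext (by simp only [← ac_mul, mul_inv_cancel, ac_one])
      map_mul' := fun x y => Subtype.ext (ContinuousMap.ext fun t => S.w_mul k _ _)
      map_add' := fun x y => Subtype.ext (ContinuousMap.ext fun t => by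
        simp [ac_apply, mul_add, add_mul])
      map_star' := fun x => Subtype.ext (ContinuousMap.ext fun t => by
        simp [ac_apply, S.w_star, mul_assoc])
      map_smul' := fun a x => Subtype.ext (ContinuousMap.ext fun t => by simp [ac_apply]) })
    (fun k l => by
      ext x : 2
      exact S.ac_mul k l x)

lemma α_coe (k : ℤˣ) (x : S.A) : (S.α k x).1 = S.ac k x := rfl

lemma exV (n : ℕ) : ∃ v, S.In n v ∧ star v * v = 1 ∧ v * star v = 1 ∧
    (∀ k, S.ac k v = ((k : ℤ) : ℂ) • v) ∧ ∀ f, S.In n f → Commute v f := by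
  obtain ⟨v, hv, h⟩ := S.lift n ⟨fun t => (t : ℂ) • S.p n, by fun_prop⟩ fun t =>
    ⟨R.D.smul_mem (S.p_mem n) _, by simp [S.p_idem], by simp [S.p_idem]⟩
  simp only [ContinuousMap.coe_mk] at h
  have h' : ∀ t, star v t * S.p n = star (t : ℂ) • S.p n := fun t => by
    rw [(hv.star n le_rfl t).1.eq, ContinuousMap.star_apply, ← S.p_star, ← star_mul, h, star_smul]
  refine ⟨v, hv, (hv.star.mul hv).ext (In.one n) fun t => ?_,
    (hv.mul hv.star).ext (In.one n) fun t => ?_,
    fun k => (S.ac_in k hv).ext (hv.smul _) fun t => ?_,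
    fun f hf => (hv.mul hf).ext (hf.mul hv) fun t => ?_⟩
  · rw [ContinuousMap.mul_apply, hv.mp le_rfl, h, h', smul_mul_smul_comm, S.p_idem,
      Complex.star_def, Complex.conj_mul']; simp
  · rw [ContinuousMap.mul_apply, hv.star.mp le_rfl, h, h', smul_mul_smul_comm, S.p_idem,
      Complex.star_def, Complex.mul_conj']; simp
  · rw [ac_apply, w_p', h, ContinuousMap.smul_apply, smul_mul_assoc, h, mul_smul_comm,
      smul_mul_assoc, S.w_p, ng_coe, smul_smul]
  · rw [ContinuousMap.mul_apply, ContinuousMap.mul_apply, hv.mp le_rfl, hf.mp le_rfl, h,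
      smul_mul_assoc, mul_smul_comm, hf.pl le_rfl, mul_assoc, S.p_idem]

lemma τ_w (k : ℤˣ) (y : H →L[ℂ] H) : R.τ (S.w k * y * S.w k⁻¹) = R.τ y := by
  have := S.w_star k⁻¹
  rw [inv_inv] at this
  simp only [Reg.τ, ContinuousLinearMap.mul_apply, S.w_Ω]
  rw [← this, ContinuousLinearMap.star_eq_adjoint, ContinuousLinearMap.adjoint_inner_right, S.w_Ω]

include Q in
theorem not_trp [IsClosed (S.A : Set (BB H))] : ¬ TracialRokhlin (K := ℤˣ) (D := S.A) S.α := by
  classical
  intro hR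
  obtain ⟨E, hE, hE'⟩ := S.exE 0
  have E1 : E * E = E := (hE.mul hE).ext hE fun t => by
    rw [ContinuousMap.mul_apply, hE.mp le_rfl, hE', ← map_mul, S.p_idem]
  have E2 : star E = E := hE.star.ext hE fun t => by
    have : star (E t * S.p (0 + 1)) = E t * S.p (0 + 1) := by rw [hE', ← map_star, S.p_star]
    rwa [star_mul, S.p_star, ← ContinuousMap.star_apply, ← (hE.star _ le_rfl t).1.eq] at this
  choose g hg hg' using fun u => S.liftc 0 (d := S.p 0 * R.U u * S.p 0)
    (mul_mem (mul_mem (S.p_mem 0) (R.U_mem _)) (S.p_mem 0))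
    (by rw [← mul_assoc, ← mul_assoc, S.p_idem]) (by rw [mul_assoc, S.p_idem])
  let g' : G → S.A := fun u => ⟨g u, S.A_mem (hg u)⟩
  obtain ⟨e, e1, -, e3, e4, f, v, f1, f2, f3, v1, v2⟩ := hR {g' Q.a, g' (Q.b 0), g' (Q.b 1)}
    (1 / 1000) (by norm_num) ⟨E, S.A_mem hE⟩ (fun h => by
      obtain ⟨c, hc, hc'⟩ := S.Φ_tr 0
      have h1 := hc' _ (S.p_mem 0)
      rw [← hE' 1, show E = 0 from congrArg Subtype.val h] at h1
      simp [R.τ_zero, hc, S.τ_p] at h1) ⟨⟨E, S.A_mem hE⟩, Subtype.ext (by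
        change E = star E * E
        rw [E2, E1])⟩
  rw [sum_units] at v1
  have ev : ∀ (y : S.A) t, ‖y.1 t‖ ≤ ‖y‖ := fun y t => y.1.norm_coe_le_norm t
  have pr : ∀ y : S.A, star y = y → y * y = y → ∀ t, y.1 t * y.1 t = y.1 t ∧ ‖y.1 t‖ ≤ 1 :=
    fun y h1 h2 t => ⟨congrArg (fun y : S.A => y.1 t) h2,
      norm_proj (congrArg (fun y : S.A => y.1 t) h1) (congrArg (fun y : S.A => y.1 t) h2)⟩
  have fE : f.1 * E = f.1 := by
    refine closure_minimal (t := {f : S.A | f.1 * E = f.1}) ?_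
      (isClosed_eq (by fun_prop) (by fun_prop)) f3
    rintro _ ⟨a, rfl⟩
    change E * a.1 * E * E = E * a.1 * E
    rw [mul_assoc, E1]
  have s0 := S.small0
  have t1 : ∀ t, ‖1 - (R.τ ((e 1).1 t) + R.τ ((e (-1)).1 t))‖ ≤ 1 / 1000 := by
    intro t
    have a1 : R.τ ((star v * v).1 t) = R.τ ((v * star v).1 t) :=
      (S.A_inM v.2 t).star.τ_comm (S.A_inM v.2 t)
    rw [v1, v2] at a1
    have a2 : E t * S.p 0 = 0 := by rw [← S.p_le' (Nat.zero_le 1), ← mul_assoc, hE', S.p_Φ]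
    have a3 : f.1 t = f.1 t * (1 - S.p 0) := by
      have : f.1 t * S.p 0 = 0 := by
        rw [← fE, ContinuousMap.mul_apply, mul_assoc, a2, mul_zero]
      rw [mul_sub, this]; simp
    rw [← R.τ_add, ← R.τ_one, ← R.τ_sub]
    refine (le_of_eq (congrArg _ a1)).trans ((R.τ_le' _).trans ?_)
    rw [a3, ContinuousLinearMap.mul_apply]
    exact ((f.1 t).le_of_opNorm_le (pr f f1 f2 t).2 _).trans (by rw [one_mul]; linarith)
  have t2 : ∀ t, ‖R.τ ((e 1).1 (-t)) - R.τ ((e (-1)).1 t)‖ ≤ 1 / 1000 := by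
    intro t
    have := e3 (-1) 1
    rw [mul_one] at this
    rw [← S.τ_w (-1), ← ng_neg, ← R.τ_sub]
    exact (R.τ_le _).trans ((ev (S.α (-1) (e 1) - e (-1)) t).trans this.le)
  have hcont := R.τ_cont
  let d : ℝ → ℝ := fun s => (R.τ ((e 1).1 (Circle.exp s))).re - (R.τ ((e 1).1 (-Circle.exp s))).re
  have hd : Continuous d := by fun_prop
  have h2 : d Real.pi = -d 0 := by
    have : Circle.exp Real.pi = -Circle.exp 0 := Circle.ext (by simp)
    simp only [d, this, neg_neg]; ring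
  obtain ⟨s, -, hs⟩ : (0 : ℝ) ∈ d '' Set.uIcc 0 Real.pi := by
    refine intermediate_value_uIcc hd.continuousOn ?_
    rw [h2, Set.mem_uIcc]
    rcases le_total 0 (d 0) with h | h
    · right; constructor <;> linarith
    · left; constructor <;> linarith
  simp only [d] at hs
  set t := Circle.exp s
  have b1 := abs_le.mp ((Complex.abs_re_le_norm _).trans (t1 t))
  have b2 := abs_le.mp ((Complex.abs_re_le_norm _).trans (t2 t))
  simp only [Complex.sub_re, Complex.add_re, Complex.one_re] at b1 b2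
  set y := (e 1).1 t with hy
  have yM : R.InM y := S.A_inM (e 1).2 t
  obtain ⟨y1, y2⟩ := pr (e 1) (e1 1).1 (e1 1).2 t
  have gap := R.gap Q yM (δ := 7 / 1000) fun u hu => by
    have c1 : ‖y * g u t - g u t * y‖ < 1 / 1000 :=
      (ev (e 1 * g' u - g' u * e 1) t).trans_lt (e4 1 (g' u) (by
        simp only [Set.mem_insert_iff, Set.mem_singleton_iff] at hu
        rcases hu with rfl | rfl | rfl <;> simp))
    have pn := S.p_norm 0
    have un := R.norm_U u
    have up : ‖R.U u * S.p 0‖ ≤ 1 := (norm_mul_le _ _).trans (mul_le_one₀ un (norm_nonneg _) pn)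
    have gn : ‖g u t‖ ≤ 1 := ((g u).norm_coe_le_norm t).trans ((hg u).norm fun t => by
      rw [hg', mul_assoc]; exact (norm_mul_le _ _).trans (mul_le_one₀ pn (norm_nonneg _) up))
    have zM : R.InM (R.U u - g u t) := (R.inM (R.U_mem u)).sub ((hg u).inM t)
    have c2 : ‖(R.U u - g u t) R.Ω‖ ≤ 3 / 1000 := by
      have : R.U u - g u t = (R.U u - g u t) * (1 - S.p 0) + (1 - S.p 0) * (R.U u * S.p 0) := by
        rw [mul_sub, mul_one, sub_mul (R.U u) (g u t) (S.p 0), hg']; noncomm_ring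
      rw [this, ContinuousLinearMap.add_apply]
      have d1 := (R.U u - g u t).le_of_opNorm_le ((norm_sub_le _ _).trans (add_le_add un gn))
        ((1 - S.p 0) R.Ω)
      have d2 := (S.r_inM 0).n2_mul (R.inM (mul_mem (R.U_mem u) (S.p_mem 0)))
      have d3 := mul_le_of_le_one_right (norm_nonneg ((1 - S.p 0) R.Ω)) up
      exact (norm_add_le _ _).trans (by rw [ContinuousLinearMap.mul_apply]; linarith)
    have : R.U u * y - y * R.U u = (R.U u - g u t) * y - y * (R.U u - g u t) -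
        (y * g u t - g u t * y) := by noncomm_ring
    rw [this, ContinuousLinearMap.sub_apply, ContinuousLinearMap.sub_apply]
    have d1 := zM.n2_mul yM
    have d2 := mul_le_of_le_one_right (norm_nonneg ((R.U u - g u t) R.Ω)) y2
    have d3 := y.le_of_opNorm_le y2 ((R.U u - g u t) R.Ω)
    have d4 := R.n2_le (y * g u t - g u t * y)
    refine (norm_sub_le _ _).trans ((add_le_add (norm_sub_le _ _) d4).trans ?_)
    rw [ContinuousLinearMap.mul_apply y]
    linarith
  have c1 := y.le_of_opNorm_le y2 (y R.Ω - R.τ y • R.Ω)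
  have c2 : y (y R.Ω - R.τ y • R.Ω) = (1 - R.τ y) • y R.Ω := by
    rw [map_sub, ← ContinuousLinearMap.mul_apply, y1, map_smul, sub_smul, one_smul]
  rw [c2, norm_smul] at c1
  have c3 := (Complex.re_le_norm _).trans (R.τ_le' y)
  have c4 := Complex.re_le_norm (1 - R.τ y)
  simp only [Complex.sub_re, Complex.one_re] at c4
  have c5 : (1 / 3 : ℝ) * (1 / 3) ≤ ‖1 - R.τ y‖ * ‖y R.Ω‖ := by gcongr <;> linarith
  linarith

end Sys

end Pool.Agent.H70.Tr
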