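import Pool.Agent.H70.Tr6

namespace Pool.Agent.H70.Tr
open scoped InnerProductSpace CStarAlgebra
open Finset Pool.Agent.H70.Rk Filter Topology

section abs
variable {A B D : Type} [CStarAlgebra A] [CStarAlgebra B] [CStarAlgebra D]

theorem rok_of (γ : Rk.Action (ℤˣ × ℤˣ) D) (G : Set D) (hG : Dense (Submodule.span ℂ G : Set D))
    (h : ∀ S : Finset D, (S : Set D) ⊆ G → ∃ s t : D, star s = s ∧ star t = t ∧ s * s = 1 ∧
      t * t = 1 ∧ Commute s t ∧ (∀ k, γ k s = ((k.1 : ℤ) : ℂ) • s) ∧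
      (∀ k, γ k t = ((k.2 : ℤ) : ℂ) • t) ∧ ∀ g ∈ S, Commute s g ∧ Commute t g) :
    Rokhlin γ := by
  classical
  intro F ε hε
  choose x hx hf using fun a : D => Metric.mem_closure_iff.mp (hG a) _ (half_pos hε)
  choose S hS hS' using fun a => Submodule.mem_span_finite_of_mem_span (hx a)
  obtain ⟨s, t, hs, ht, ss, tt, st, γs, γt, hc⟩ := h (F.biUnion S) (by
    rw [coe_biUnion]; exact Set.iUnion₂_subset fun a _ => hS a)
  let p : D → ℤˣ → D := fun s k => (1 / 2 : ℂ) • (1 + ((k : ℤ) : ℂ) • s)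
  have pstar : ∀ s k, star s = s → star (p s k) = p s k := by
    intro s k hs
    simp [p, hs]
  have pmul : ∀ s k l, s * s = 1 → p s k * p s l = if k = l then p s k else 0 := by
    intro s k l ss
    simp only [p, smul_mul_assoc, mul_smul_comm, add_mul, mul_add, one_mul, mul_one, ss]
    rcases Int.units_eq_one_or k with rfl | rfl <;> rcases Int.units_eq_one_or l with rfl | rfl <;>
      simp <;> module
  have psum : ∀ s, ∑ k, p s k = 1 := by
    intro s
    rw [sum_units]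
    simp only [p]; simp; module
  have pc : ∀ s k a, Commute s a → Commute (p s k) a := fun s k a h =>
    ((Commute.one_left a).add_left (h.smul_left _)).smul_left _
  have pst : ∀ k l, Commute (p s k) (p t l) := fun k l => pc _ _ _ (pc _ _ _ st.symm).symm
  have emul : ∀ k l : ℤˣ × ℤˣ, p s k.1 * p t k.2 * (p s l.1 * p t l.2) =
      p s k.1 * p s l.1 * (p t k.2 * p t l.2) := by
    intro k l
    rw [mul_assoc, ← mul_assoc (p t k.2), ← (pst _ _).eq]; simp only [mul_assoc]
  have e1 : ∀ k : ℤˣ × ℤˣ, star (p s k.1 * p t k.2) = p s k.1 * p t k.2 ∧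
      p s k.1 * p t k.2 * (p s k.1 * p t k.2) = p s k.1 * p t k.2 := fun k =>
    ⟨by rw [star_mul, pstar _ _ hs, pstar _ _ ht, (pst _ _).eq],
      by rw [emul, pmul _ _ _ ss, pmul _ _ _ tt]; simp⟩
  refine ⟨fun k => p s k.1 * p t k.2, e1, fun k l hkl => ?_, fun k l => ?_, fun k a ha => ?_, ?_⟩
  · rw [emul, pmul _ _ _ ss, pmul _ _ _ tt]
    by_cases h1 : k.1 = l.1
    · have : k.2 ≠ l.2 := fun h2 => hkl (Prod.ext h1 h2)
      simp [this]
    · simp [h1]
  · have : γ k (p s l.1 * p t l.2) = p s (k * l).1 * p t (k * l).2 := by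
      simp only [p, map_mul, map_smul, map_add, map_one, γs, γt, smul_smul, Prod.fst_mul,
        Prod.snd_mul, Units.val_mul, Int.cast_mul, mul_comm]
    simp only [this, sub_self, norm_zero, hε]
  · set e := p s k.1 * p t k.2 with he
    have ne : ‖e‖ ≤ 1 := IsStarProjection.norm_le e ⟨(e1 k).2, (e1 k).1⟩
    have ex : Commute e (x a) := by
      refine Submodule.span_induction (p := fun y _ => Commute e y) (fun g hg => ?_)
        (Commute.zero_right e) (fun _ _ _ _ => Commute.add_right)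
        (fun r _ _ h => h.smul_right r) (hS' a)
      obtain ⟨c1, c2⟩ := hc g (mem_biUnion.mpr ⟨a, ha, hg⟩)
      exact (pc _ k.1 _ c1).mul_left (pc _ k.2 _ c2)
    have : e * a - a * e = e * (a - x a) - (a - x a) * e := by
      rw [mul_sub, sub_mul, ex.eq]; abel
    have hn := hf a
    rw [dist_eq_norm] at hn
    rw [this]
    calc _ ≤ ‖e‖ * ‖a - x a‖ + ‖a - x a‖ * ‖e‖ :=
          (norm_sub_le _ _).trans (add_le_add (norm_mul_le _ _) (norm_mul_le _ _))
      _ ≤ 1 * ‖a - x a‖ + ‖a - x a‖ * 1 := by gcongr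
      _ < ε := by linarith
  · rw [Fintype.sum_prod_type]
    simp only [← mul_sum, psum, mul_one]

def PA (α : Rk.Action ℤˣ A) : Prop := ∃ A0 : Set A, Dense A0 ∧ ∀ F : Finset A, (F : Set A) ⊆ A0 →
  ∃ v, star v * v = 1 ∧ v * star v = 1 ∧ (∀ k, α k v = ((k : ℤ) : ℂ) • v) ∧ ∀ f ∈ F, Commute v f

def PB (β : Rk.Action ℤˣ B) : Prop := ∃ B0 : Set B, Dense (Submodule.span ℂ B0 : Set B) ∧
  ∀ F : Finset B, (F : Set B) ⊆ B0 → ∃ x z t, star x = x ∧ star z = z ∧ star t = t ∧ x * x = 1 ∧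
    z * z = 1 ∧ t * t = 1 ∧ x * z = -(z * x) ∧ Commute t x ∧ Commute t z ∧
    (∀ k, β k x = ((k : ℤ) : ℂ) • x ∧ β k z = z ∧ β k t = ((k : ℤ) : ℂ) • t) ∧
    ∀ f ∈ F, Commute x f ∧ Commute z f ∧ Commute t f

theorem rok_tens (m : A → B → D) (mul : ∀ a b a' b', m a b * m a' b' = m (a * a') (b * b'))
    (st : ∀ a b, star (m a b) = m (star a) (star b)) (one : m 1 1 = 1)
    (add : ∀ a b b', m a (b + b') = m a b + m a b') (sl : ∀ (r : ℂ) a b, m (r • a) b = r • m a b)
    (sr : ∀ (r : ℂ) a b, m a (r • b) = r • m a b) (cl : ∀ b, Continuous fun a => m a b)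
    (cr : ∀ a, Continuous fun b => m a b)
    (hd : Dense (Submodule.span ℂ {d | ∃ a b, d = m a b} : Set D))
    {α : Rk.Action ℤˣ A} {β : Rk.Action ℤˣ B} {γ : Rk.Action (ℤˣ × ℤˣ) D} (h : IsTensorAction m α β γ)
    (hA : PA α) (hB : PB β) : Rokhlin γ := by
  classical
  obtain ⟨A0, dA, hA⟩ := hA
  obtain ⟨B0, dB, hB⟩ := hB
  refine rok_of γ {d | ∃ a ∈ A0, ∃ b ∈ B0, d = m a b} ?_ fun S hS => ?_
  · set W := (Submodule.span ℂ {d | ∃ a ∈ A0, ∃ b ∈ B0, d = m a b}).topologicalClosure with hW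
    have hc : IsClosed (W : Set D) := Submodule.isClosed_topologicalClosure _
    intro d
    change d ∈ W
    refine closure_minimal (t := (W : Set D)) (Submodule.span_le.mpr ?_) hc (hd d)
    rintro _ ⟨a, b, rfl⟩
    refine closure_minimal (t := {a | m a b ∈ W}) (fun a ha => ?_) (hc.preimage (cl b)) (dA a)
    refine closure_minimal (t := {b | m a b ∈ W}) (fun b hb => ?_) (hc.preimage (cr a)) (dB b)
    refine Submodule.span_induction (p := fun b _ => m a b ∈ W) (fun b hb => ?_) ?_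
      (fun _ _ _ _ h1 h2 => ?_) (fun r _ _ h => ?_) hb
    · exact Submodule.le_topologicalClosure _ (Submodule.subset_span ⟨a, ha, b, hb, rfl⟩)
    · rw [← zero_smul ℂ (0 : B), sr, zero_smul]; exact zero_mem _
    · rw [add]; exact add_mem h1 h2
    · rw [sr]; exact W.smul_mem r h
  choose! fa ha fb hb hab using hS
  obtain ⟨v0, v1, v2, v3, v4⟩ := hA (S.image fa) (by
    rw [coe_image]; rintro _ ⟨d, hd, rfl⟩; exact ha hd)
  obtain ⟨x0, z0, t0, sx, sz, st', xx, zz, tt, xz, tx, tz, hk, hc⟩ := hB (S.image fb) (by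
    rw [coe_image]; rintro _ ⟨d, hd, rfl⟩; exact hb hd)
  have cm : ∀ {a a' b b'}, Commute a a' → Commute b b' → Commute (m a b) (m a' b') :=
    fun h1 h2 => by change _ * _ = _ * _; rw [mul, mul, h1.eq, h2.eq]
  have o1 := Commute.one_left (M := A)
  have o2 := Commute.one_left (M := B)
  set v := m v0 1
  set x := m 1 x0
  set z := m 1 z0
  set t := m 1 t0
  have w1 : star v * v = 1 := by rw [st, mul, v1, star_one, one_mul, one]
  have w2 : v * star v = 1 := by rw [st, mul, v2, star_one, one_mul, one]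
  have i1 : ∀ {b}, b * b = 1 → m 1 b * m 1 b = 1 := fun h => by rw [mul, h, one_mul, one]
  have i2 : ∀ {b}, star b = b → star (m 1 b) = m 1 b := fun h => by rw [st, h, star_one]
  obtain ⟨k1, k2⟩ := sym_alg v x z t w1 w2 (i2 sx) (i2 sz) (i2 st') (i1 xx) (i1 zz) (i1 tt)
    (cm (o1 _).symm (o2 _)) (cm (o1 _).symm (o2 _)) (cm (o1 _).symm (o2 _))
    (by rw [mul, mul, xz, ← neg_one_smul ℂ (z0 * x0), sr, neg_one_smul]) (cm (o1 _) tx)
    (cm (o1 _) tz)
  set s := (v * x * (1 - z) + star v * x * (1 + z)) * t with hs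
  have cs : ∀ y, Commute v y → Commute x y → Commute z y → Commute t y →
      Commute ((1 / 2 : ℂ) • s) y := by
    intro y c1 c2 c3 c4
    have c5 : Commute (star v) y := by
      change _ * _ = _ * _
      calc _ = star v * (y * v) * star v := by rw [mul_assoc, mul_assoc, w2, mul_one]
        _ = _ := by rw [← c1.eq, ← mul_assoc, w1, one_mul]
    exact ((((c1.mul_left c2).mul_left ((Commute.one_left y).sub_left c3)).add_left
      ((c5.mul_left c2).mul_left ((Commute.one_left y).add_left c3))).mul_left c4).smul_left _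
  have g4 : ∀ k, γ k t = ((k.2 : ℤ) : ℂ) • t := fun k => by
    rw [h k.1 k.2, map_one, (hk _).2.2, sr]
  refine ⟨(1 / 2 : ℂ) • s, t, by rw [star_smul, k1]; simp, i2 st', ?_, i1 tt,
    cs _ (cm (o1 _).symm (o2 _)) (cm (o1 _) tx.symm) (cm (o1 _) tz.symm) (Commute.refl _),
    fun k => ?_, g4, fun g hg => ?_⟩
  · rw [smul_mul_smul_comm, k2, ← map_ofNat (algebraMap ℂ D) 4, Algebra.algebraMap_eq_smul_one,
      smul_smul]
    norm_num
  · have g1 : γ k v = ((k.1 : ℤ) : ℂ) • v := by rw [h k.1 k.2, map_one, v3, sl]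
    have g2 : γ k x = ((k.2 : ℤ) : ℂ) • x := by rw [h k.1 k.2, map_one, (hk _).1, sr]
    have g3 : γ k z = z := by rw [h k.1 k.2, map_one, (hk _).2.1]
    simp only [hs, map_smul, map_mul, map_add, map_sub, map_one, map_star, g1, g2, g3, g4,
      star_smul, star_intCast, smul_mul_assoc, mul_smul_comm, ← smul_add, smul_smul]
    congr 1
    rcases Int.units_eq_one_or k.2 with h | h <;> simp [h, mul_comm]
  · obtain ⟨b2, b3, b4⟩ := hc _ (mem_image_of_mem fb hg)
    rw [hab hg]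
    exact ⟨cs _ (cm (v4 _ (mem_image_of_mem fa hg)) (o2 _)) (cm (o1 _) b2) (cm (o1 _) b3)
      (cm (o1 _) b4), cm (o1 _) b4⟩

lemma trp_of {K : Type} [Group K] [Fintype K] {γ : Rk.Action K D} (h : Rokhlin γ) :
    TracialRokhlin γ := by
  intro F ε hε x _ _
  obtain ⟨e, e1, e2, e3, e4, e5⟩ := h F ε hε
  exact ⟨e, e1, e2, e3, e4, 0, 0, by simp, by simp, subset_closure ⟨0, by simp⟩, by simp [e5],
    by simp⟩

end abs

variable {H K L : Type} [NormedAddCommGroup H] [InnerProductSpace ℂ H] [CompleteSpace H]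
  [NormedAddCommGroup K] [InnerProductSpace ℂ K] [CompleteSpace K]
  [NormedAddCommGroup L] [InnerProductSpace ℂ L] [CompleteSpace L]

lemma gen_span {G : Set (L →L[ℂ] L)} (h1 : 1 ∈ G) (hm : ∀ x ∈ G, ∀ y ∈ G, x * y ∈ G)
    (hs : ∀ x ∈ G, star x ∈ G) {x : L →L[ℂ] L} (hx : x ∈ cstarGen G) :
    x ∈ closure (Submodule.span ℂ G : Set (L →L[ℂ] L)) := by
  refine closure_mono ?_ (show x ∈ closure (StarAlgebra.adjoin ℂ G : Set _) from hx)
  intro y hy
  induction hy using StarAlgebra.adjoin_induction with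
  | mem x h => exact Submodule.subset_span h
  | algebraMap r =>
    rw [Algebra.algebraMap_eq_smul_one]
    exact Submodule.smul_mem _ _ (Submodule.subset_span h1)
  | add x y _ _ hx hy => exact add_mem hx hy
  | mul x y _ _ hx hy =>
    refine Submodule.span_induction₂ (p := fun x y _ _ => x * y ∈ Submodule.span ℂ G)
      ?_ ?_ ?_ ?_ ?_ ?_ ?_ hx hy
    · intro x y h h'; exact Submodule.subset_span (hm x h y h')
    · intro y _; simp
    · intro y _; simp
    · intro x y z _ _ _ h1 h2; rw [add_mul]; exact add_mem h1 h2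
    · intro x y z _ _ _ h1 h2; rw [mul_add]; exact add_mem h1 h2
    · intro r x y _ _ h; rw [smul_mul_assoc]; exact Submodule.smul_mem _ _ h
    · intro r x y _ _ h; rw [mul_smul_comm]; exact Submodule.smul_mem _ _ h
  | star x h0 hx =>
    clear h0
    induction hx using Submodule.span_induction with
    | mem x h => exact Submodule.subset_span (hs x h)
    | zero => simp
    | add x y _ _ hx hy => rw [star_add]; exact add_mem hx hy
    | smul a x _ hx => rw [star_smul]; exact Submodule.smul_mem _ _ hx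

lemma span_ind {G : Set (L →L[ℂ] L)} {P : (L →L[ℂ] L) → Prop} (hc : IsClosed {x | P x})
    (hU : ∀ g ∈ G, P g) (h0 : P 0) (hadd : ∀ x y, P x → P y → P (x + y))
    (hs : ∀ (a : ℂ) x, P x → P (a • x)) {x : L →L[ℂ] L}
    (hx : x ∈ closure (Submodule.span ℂ G : Set (L →L[ℂ] L))) : P x :=
  closure_minimal (t := {x | P x}) (fun _ hy => Submodule.span_induction (p := fun y _ => P y) hU
    h0 (fun x y _ _ => hadd x y) (fun a x _ => hs a x) hy) hc hx

theorem sf (D : StarSubalgebra ℂ (L →L[ℂ] L)) (Ω : L)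
    (tr : ∀ x ∈ D, ∀ y ∈ D, ⟪Ω, (x * y) Ω⟫_ℂ = ⟪Ω, (y * x) Ω⟫_ℂ)
    (sep : ∀ x ∈ D, x Ω = 0 → x = 0) : StablyFinite D := by
  intro n M hM
  let τ : (L →L[ℂ] L) → ℂ := fun x => ⟪Ω, x Ω⟫_ℂ
  have τ_add : ∀ x y, τ (x + y) = τ x + τ y := by simp [τ]
  have τ_sum : ∀ (f : Fin n → L →L[ℂ] L), τ (∑ i, f i) = ∑ i, τ (f i) := by simp [τ, inner_sum]
  have τ_star_mul : ∀ x, τ (star x * x) = ((‖x Ω‖ ^ 2 : ℝ) : ℂ) := by
    simp [τ, ContinuousLinearMap.star_eq_adjoint, ContinuousLinearMap.adjoint_inner_right]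
  set P := 1 - M * star M with hP
  have hPP : star P * P = P := by
    simp only [hP, star_sub, star_one, star_mul, star_star, sub_mul, mul_sub, one_mul, mul_one]
    rw [mul_assoc, ← mul_assoc (star M), hM, one_mul]; simp
  have h1 : ∑ i, τ ((M * star M) i i : D) = ∑ i, τ ((star M * M) i i : D) := by
    simp only [Matrix.mul_apply, Matrix.star_apply, AddSubmonoidClass.coe_finset_sum, τ_sum,
      MulMemClass.coe_mul]
    rw [sum_comm]
    refine sum_congr rfl fun i _ => sum_congr rfl fun j _ => tr _ (M j i).2 _ (star (M j i)).2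
  have h2 : ∑ i, τ (P i i : D) = 0 := by
    have : ∀ i, τ (P i i : D) = τ ((star M * M) i i : D) - τ ((M * star M) i i : D) := by
      intro i
      rw [hM, eq_sub_iff_add_eq, ← τ_add, hP]; simp
    simp only [this, sum_sub_distrib, h1, sub_self]
  rw [← hPP] at h2
  simp only [Matrix.mul_apply, Matrix.star_apply, AddSubmonoidClass.coe_finset_sum, τ_sum,
    MulMemClass.coe_mul, StarMemClass.coe_star, τ_star_mul] at h2
  have h3 : ∑ i, ∑ j, ‖(P j i : L →L[ℂ] L) Ω‖ ^ 2 = 0 := by exact_mod_cast h2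
  rw [sum_eq_zero_iff_of_nonneg (fun i _ => sum_nonneg fun j _ => by positivity)] at h3
  have h4 : P = 0 := by
    refine Matrix.ext fun j i => ?_
    have := (sum_eq_zero_iff_of_nonneg (fun j _ => by positivity)).mp (h3 i (mem_univ _)) j
      (mem_univ _)
    exact Subtype.ext (sep _ (P j i).2 (by simpa using this))
  exact (sub_eq_zero.mp h4).symm

end Pool.Agent.H70.Tr
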