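import Pool.Agent.H70.Tr7

namespace Pool.Agent.H70.Tr
open scoped InnerProductSpace CStarAlgebra
open Finset Pool.Agent.H70.Rk Filter Topology

structure TP (H K L : Type) [NormedAddCommGroup H] [InnerProductSpace ℂ H] [CompleteSpace H]
    [NormedAddCommGroup K] [InnerProductSpace ℂ K] [CompleteSpace K]
    [NormedAddCommGroup L] [InnerProductSpace ℂ L] [CompleteSpace L] where
  t : H → K → L
  M : (H →L[ℂ] H) → (K →L[ℂ] K) → (L →L[ℂ] L)
  ht : IsHTensor t
  hM : ∀ a b, IsTens t a b (M a b)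
  mul : ∀ a b a' b', M a b * M a' b' = M (a * a') (b * b')
  st : ∀ a b, star (M a b) = M (star a) (star b)
  one : M 1 1 = 1
  al : ∀ a a' b, M (a + a') b = M a b + M a' b
  ar : ∀ a b b', M a (b + b') = M a b + M a b'
  sl : ∀ (r : ℂ) a b, M (r • a) b = r • M a b
  sr : ∀ (r : ℂ) a b, M a (r • b) = r • M a b
  cl : ∀ b, Continuous fun a => M a b
  cr : ∀ a, Continuous fun b => M a b
  cyc : ∀ (s : Set H) (u : Set K), Dense (Submodule.span ℂ s : Set H) →
    Dense (Submodule.span ℂ u : Set K) →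
    Dense (Submodule.span ℂ {z | ∃ x ∈ s, ∃ y ∈ u, z = t x y} : Set L)

variable {H K L : Type} [NormedAddCommGroup H] [InnerProductSpace ℂ H] [CompleteSpace H]
  [NormedAddCommGroup K] [InnerProductSpace ℂ K] [CompleteSpace K]
  [NormedAddCommGroup L] [InnerProductSpace ℂ L] [CompleteSpace L]

noncomputable def mkTP : TP H K (HT H K) where
  t := tp
  M := tens
  ht := isHTensor
  hM _ _ := isTens_iff.mpr rfl
  mul a b a' b' := tens_mul a a' b b'
  st := star_tens
  one := tens_one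
  al := tens_add_left
  ar := tens_add_right
  sl := tens_smul_left
  sr := tens_smul_right
  cl := tens_cont_left
  cr := tens_cont_right
  cyc s u hs hu := by
    intro z
    set W : Submodule ℂ (HT H K) :=
      (Submodule.span ℂ {z | ∃ x ∈ s, ∃ y ∈ u, z = tp x y}).topologicalClosure with hW
    change z ∈ W
    have hc : IsClosed (W : Set (HT H K)) := Submodule.isClosed_topologicalClosure _
    refine tp_ind (P := fun z => z ∈ W) hc (fun x y => ?_) (fun x y hx hy => add_mem hx hy) z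
    refine closure_minimal (t := {x | tp x y ∈ W}) ?_
      (hc.preimage (tp_cont.comp (Continuous.prodMk_left y))) (hs x)
    intro x hx
    induction hx using Submodule.span_induction with
    | zero => change tp 0 y ∈ W; rw [tp_zero_left]; exact zero_mem _
    | add x x' _ _ h1 h2 => change tp _ y ∈ W; rw [tp_add_left]; exact add_mem h1 h2
    | smul a x _ h1 => change tp _ y ∈ W; rw [tp_smul_left]; exact W.smul_mem _ h1
    | mem x hx =>
      refine closure_minimal (t := {y | tp x y ∈ W}) ?_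
        (hc.preimage (tp_cont.comp (Continuous.prodMk_right _))) (hu y)
      intro y hy
      induction hy using Submodule.span_induction with
      | zero => change tp _ 0 ∈ W; rw [tp_zero_right]; exact zero_mem _
      | add x x' _ _ h1 h2 => change tp _ _ ∈ W; rw [tp_add_right]; exact add_mem h1 h2
      | smul a x _ h1 => change tp _ _ ∈ W; rw [tp_smul_right]; exact W.smul_mem _ h1
      | mem y hy =>
        exact Submodule.le_topologicalClosure _ (Submodule.subset_span ⟨x, hx, y, hy, rfl⟩)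

/-- a covariant representation with a separating trace vector -/
structure Cov {A : Type} [CStarAlgebra A] (α : Rk.Action ℤˣ A) (H : Type) [NormedAddCommGroup H]
    [InnerProductSpace ℂ H] [CompleteSpace H] where
  π : A →⋆ₐ[ℂ] (H →L[ℂ] H)
  w : ℤˣ →* (H →L[ℂ] H)
  Ω : H
  C : Set (H →L[ℂ] H)
  hw : ∀ k, star (w k) = w k⁻¹
  cov : ∀ k a, w k * π a * w k⁻¹ = π (α k a)
  nz : Ω ≠ 0
  tr : ∀ a b, ⟪Ω, π (a * b) Ω⟫_ℂ = ⟪Ω, π (b * a) Ω⟫_ℂ
  cm : ∀ a, ∀ c ∈ C, Commute (π a) c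
  cyc : Dense (Submodule.span ℂ ((fun c : H →L[ℂ] H => c Ω) '' C) : Set H)

lemma Cov.inj {A : Type} [CStarAlgebra A] {α : Rk.Action ℤˣ A} (X : Cov α H)
    (h : IsSimpleAlg A) : Function.Injective X.π := by
  have hc := map_continuous X.π
  rcases h.2 (TwoSidedIdeal.ker X.π) (by
    have : (TwoSidedIdeal.ker X.π : Set A) = X.π ⁻¹' {0} := by
      ext a; simp [TwoSidedIdeal.mem_ker]
    rw [this]; exact isClosed_singleton.preimage hc) with h | h
  · exact (TwoSidedIdeal.ker_eq_bot _).mp h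
  · have : (1 : A) ∈ TwoSidedIdeal.ker X.π := by rw [h]; trivial
    rw [TwoSidedIdeal.mem_ker, map_one] at this
    exact absurd (by simpa using congrArg (fun y : H →L[ℂ] H => y X.Ω) this) X.nz

def Q2 : Prop :=
  ∀ (A B D : Type) [CStarAlgebra A] [CStarAlgebra B] [CStarAlgebra D] (m : A → B → D)
    (G G' : Type) [Group G] [Fintype G] [Group G'] [Fintype G']
    (α : Rk.Action G A) (β : Rk.Action G' B) (γ : Rk.Action (G × G') D),
    IsSimpleAlg A → IsSimpleAlg B → IsMinTensor m → StablyFinite D →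
    IsTensorAction m α β γ → TracialRokhlin γ → TracialRokhlin α ∧ TracialRokhlin β

theorem final2 {A B : Type} [CStarAlgebra A] [CStarAlgebra B] {α : Rk.Action ℤˣ A}
    {β : Rk.Action ℤˣ B} (X : Cov α H) (Y : Cov β K) (T : TP H K L) (sA : IsSimpleAlg A)
    (sB : IsSimpleAlg B) (hA : PA α) (hB : PB β) (h : ¬ TracialRokhlin α) : ¬ Q2 := by
  intro hQ
  let G : Set (L →L[ℂ] L) := {d | ∃ a b, d = T.M (X.π a) (Y.π b)}
  let D := cstarGen G
  haveI hD : IsClosed (D : Set (L →L[ℂ] L)) := StarSubalgebra.isClosed_topologicalClosure _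
  have mem : ∀ a b, T.M (X.π a) (Y.π b) ∈ D := fun a b =>
    StarSubalgebra.le_topologicalClosure _ (StarAlgebra.subset_adjoin ℂ _ ⟨a, b, rfl⟩)
  have gen : ∀ x ∈ D, x ∈ closure (Submodule.span ℂ G : Set (L →L[ℂ] L)) := fun x hx =>
    gen_span (G := G) ⟨1, 1, by rw [map_one, map_one, T.one]⟩
      (by rintro _ ⟨a, b, rfl⟩ _ ⟨a', b', rfl⟩; exact ⟨a * a', b * b', by simp [T.mul]⟩)
      (by rintro _ ⟨a, b, rfl⟩; exact ⟨star a, star b, by rw [T.st, map_star, map_star]⟩) hx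
  let W : ℤˣ × ℤˣ →* (L →L[ℂ] L) :=
    { toFun := fun k => T.M (X.w k.1) (Y.w k.2)
      map_one' := by rw [Prod.fst_one, Prod.snd_one, map_one, map_one, T.one]
      map_mul' := fun k l => by rw [T.mul, Prod.fst_mul, Prod.snd_mul, map_mul, map_mul] }
  have cW : ∀ k a b, W k * T.M (X.π a) (Y.π b) * W k⁻¹ =
      T.M (X.π (α k.1 a)) (Y.π (β k.2 b)) := fun k a b => by
    change T.M _ _ * _ * T.M (X.w k.1⁻¹) (Y.w k.2⁻¹) = _
    rw [T.mul, T.mul, X.cov, Y.cov]
  let γ := act D W (fun k => by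
      change star (T.M _ _) = T.M (X.w k.1⁻¹) (Y.w k.2⁻¹)
      rw [T.st, X.hw, Y.hw]) fun k x hx =>
    span_ind (P := fun x => W k * x * W k⁻¹ ∈ D) (hD.preimage (by fun_prop))
      (by rintro _ ⟨a, b, rfl⟩; rw [cW]; exact mem _ _) (by simp)
      (fun a b h1 h2 => by rw [mul_add, add_mul]; exact add_mem h1 h2)
      (fun a b h => by rw [mul_smul_comm, smul_mul_assoc]; exact D.smul_mem h a) (gen x hx)
  let m : A → B → D := fun a b => ⟨_, mem a b⟩
  have hγ : IsTensorAction m α β γ := fun g h a b => Subtype.ext (cW (g, h) a b)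
  have hd : Dense (Submodule.span ℂ {d | ∃ a b, d = m a b} : Set D) := by
    intro x
    rw [Metric.mem_closure_iff]
    intro ε hε
    obtain ⟨y, hy, h⟩ := Metric.mem_closure_iff.mp (gen _ x.2) ε hε
    obtain ⟨y', hy', rfl⟩ : ∃ y' ∈ Submodule.span ℂ {d | ∃ a b, d = m a b}, y'.1 = y :=
      Submodule.span_induction
        (p := fun y _ => ∃ y' ∈ Submodule.span ℂ {d | ∃ a b, d = m a b}, y'.1 = y)
        (by rintro _ ⟨a, b, rfl⟩; exact ⟨m a b, Submodule.subset_span ⟨a, b, rfl⟩, rfl⟩)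
        ⟨0, zero_mem _, rfl⟩
        (by rintro _ _ _ _ ⟨a, h1, rfl⟩ ⟨b, h2, rfl⟩; exact ⟨a + b, add_mem h1 h2, rfl⟩)
        (by rintro r _ _ ⟨a, h1, rfl⟩; exact ⟨r • a, Submodule.smul_mem _ _ h1, rfl⟩) hy
    exact ⟨y', hy', h⟩
  have hR : Rokhlin γ := rok_tens m (fun a b a' b' => Subtype.ext (by simp [m, T.mul]))
    (fun a b => Subtype.ext (by simp [m, T.st, map_star])) (Subtype.ext (by simp [m, T.one]))
    (fun a b b' => Subtype.ext (by simp [m, T.ar])) (fun r a b => Subtype.ext (by simp [m, T.sl]))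
    (fun r a b => Subtype.ext (by simp [m, T.sr]))
    (fun b => ((T.cl _).comp (map_continuous X.π)).subtype_mk _)
    (fun a => ((T.cr _).comp (map_continuous Y.π)).subtype_mk _) hd hγ hA hB
  refine h (hQ A B D m ℤˣ ℤˣ α β γ sA sB ⟨H, K, L, _, _, ‹_›, _, _, ‹_›, _, _, ‹_›, T.t, X.π, Y.π,
    Subtype.val, T.ht, ⟨X.inj sA, X.π, fun _ => rfl⟩, ⟨Y.inj sB, Y.π, fun _ => rfl⟩,
    ⟨Subtype.val_injective, D.subtype, fun _ => rfl⟩, fun a b => T.hM _ _, hd⟩
    (sf D (T.t X.Ω Y.Ω) (fun x hx y hy => ?_) fun x hx h0 => ?_) hγ (trp_of hR)).1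
  · refine span_ind (P := fun x => ⟪T.t X.Ω Y.Ω, (x * y) (T.t X.Ω Y.Ω)⟫_ℂ =
      ⟪T.t X.Ω Y.Ω, (y * x) (T.t X.Ω Y.Ω)⟫_ℂ) (isClosed_eq (by fun_prop) (by fun_prop)) ?_
      (by simp) (fun a b h1 h2 => by
        simp only [add_mul, mul_add, ContinuousLinearMap.add_apply, inner_add_right, h1, h2])
      (fun r a h => by simp only [smul_mul_assoc, mul_smul_comm, ContinuousLinearMap.smul_apply,
        inner_smul_right, h]) (gen x hx)
    rintro _ ⟨a, b, rfl⟩
    refine span_ind (P := fun y => ⟪T.t X.Ω Y.Ω, (T.M (X.π a) (Y.π b) * y) (T.t X.Ω Y.Ω)⟫_ℂ =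
      ⟪T.t X.Ω Y.Ω, (y * T.M (X.π a) (Y.π b)) (T.t X.Ω Y.Ω)⟫_ℂ)
      (isClosed_eq (by fun_prop) (by fun_prop)) ?_
      (by simp) (fun a b h1 h2 => by
        simp only [add_mul, mul_add, ContinuousLinearMap.add_apply, inner_add_right, h1, h2])
      (fun r a h => by simp only [smul_mul_assoc, mul_smul_comm, ContinuousLinearMap.smul_apply,
        inner_smul_right, h]) (gen y hy)
    rintro _ ⟨a', b', rfl⟩
    rw [T.mul, T.mul, T.hM, T.hM, T.ht.1, T.ht.1, ← map_mul, ← map_mul, ← map_mul, ← map_mul, X.tr,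
      Y.tr]
  · apply ContinuousLinearMap.ext_on (T.cyc _ _ X.cyc Y.cyc)
    rintro _ ⟨_, ⟨c, hc, rfl⟩, _, ⟨c', hc', rfl⟩, rfl⟩
    have : x * T.M c c' = T.M c c' * x :=
      span_ind (P := fun x => x * T.M c c' = T.M c c' * x) (isClosed_eq (by fun_prop) (by fun_prop))
        (by rintro _ ⟨a, b, rfl⟩; rw [T.mul, T.mul, (X.cm a c hc).eq, (Y.cm b c' hc').eq])
        (by simp) (fun a b h1 h2 => by rw [add_mul, mul_add, h1, h2])
        (fun a b h => by rw [smul_mul_assoc, mul_smul_comm, h]) (gen x hx)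
    have := congrArg (fun f : L →L[ℂ] L => f (T.t X.Ω Y.Ω)) this
    simpa [h0, T.hM c c' _ _] using this

end Pool.Agent.H70.Tr
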