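import Pool.Agent.H70.Tr8

namespace Pool.Agent.H70.Tr
open scoped InnerProductSpace CStarAlgebra
open Finset Pool.Agent.H70.Rk Filter Topology

variable {H K E L : Type} [NormedAddCommGroup H] [InnerProductSpace ℂ H] [CompleteSpace H]
  [NormedAddCommGroup K] [InnerProductSpace ℂ K] [CompleteSpace K]
  [NormedAddCommGroup E] [InnerProductSpace ℂ E] [CompleteSpace E]
  [NormedAddCommGroup L] [InnerProductSpace ℂ L] [CompleteSpace L]
  {G : Type} [Group G] {R : Reg G H}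

lemma pa (S : Sys R) [IsClosed (S.A : Set (BB H))] : PA (A := S.A) S.α := by
  classical
  refine ⟨{f | ∃ n, S.In n f.1}, fun f => ?_, fun F hF => ?_⟩
  · rw [Metric.mem_closure_iff]
    intro ε hε
    obtain ⟨n, g, hg, h⟩ := S.A_approx f.2 hε
    exact ⟨⟨g, S.A_mem hg⟩, ⟨n, hg⟩, by rw [Subtype.dist_eq]; rwa [dist_eq_norm]⟩
  · choose! n hn using hF
    obtain ⟨v, hv, v1, v2, v3, v4⟩ := S.exV (F.sup n)
    exact ⟨⟨v, S.A_mem hv⟩, Subtype.ext v1, Subtype.ext v2, fun k => Subtype.ext (v3 k),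
      fun f hf => Subtype.ext (v4 _ ((hn hf).mono (le_sup hf))).eq⟩

lemma covA (S : Sys R) [IsClosed (S.A : Set (BB H))] {B : Type} [CStarAlgebra B]
    {β : Rk.Action ℤˣ B} (Y : Cov β K) (T : TP H K E) (x : B) (x1 : star x = x) (x2 : x * x = 1)
    (x3 : ∀ k, β k x = ((k : ℤ) : ℂ) • x) : Nonempty (Cov (A := S.A) S.α E) := by
  obtain ⟨p, q, p1, q1, pp, qq, pq, qp, s, p2, q2⟩ : ∃ p q : B, star p = p ∧ star q = q ∧
      p * p = p ∧ q * q = q ∧ p * q = 0 ∧ q * p = 0 ∧ p + q = 1 ∧ β (-1) p = q ∧ β (-1) q = p := by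
    refine ⟨(1 / 2 : ℂ) • (1 + x), (1 / 2 : ℂ) • (1 - x), by simp [x1], by simp [x1], ?_, ?_, ?_,
      ?_, by module, by simp [x3, sub_eq_add_neg], by simp [x3]⟩ <;>
    simp only [smul_mul_assoc, mul_smul_comm, add_mul, mul_add, sub_mul, mul_sub, one_mul, mul_one,
      x2] <;> module
  have z : ∀ a, T.M a 0 = 0 := fun a => by rw [← zero_smul ℂ (0 : K →L[ℂ] K), T.sr, zero_smul]
  have z' : ∀ a, T.M 0 a = 0 := fun a => by rw [← zero_smul ℂ (0 : H →L[ℂ] H), T.sl, zero_smul]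
  have o : T.M 1 (Y.π p) + T.M 1 (Y.π q) = 1 := by rw [← T.ar, ← map_add, s, map_one, T.one]
  let π : S.A →⋆ₐ[ℂ] (E →L[ℂ] E) :=
    { toFun := fun f => T.M (f.1 1) (Y.π p) + T.M (f.1 (-1)) (Y.π q)
      map_one' := o
      map_mul' := fun f g => by
        simp only [add_mul, mul_add, T.mul, ← map_mul, pp, qq, pq, qp, map_zero, z, add_zero,
          zero_add]; rfl
      map_zero' := by simp [z']
      map_add' := fun f g => by
        simp only [AddMemClass.coe_add, ContinuousMap.add_apply, T.al]; abel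
      commutes' := fun r => by
        simp only [Algebra.algebraMap_eq_smul_one, ← o, smul_add, ← T.sl]; rfl
      map_star' := fun f => by
        simp only [star_add, T.st, ← map_star, p1, q1]; rfl }
  have hπ : ∀ f, π f = T.M (f.1 1) (Y.π p) + T.M (f.1 (-1)) (Y.π q) := fun _ => rfl
  refine ⟨{ π := π
            w := { toFun := fun k => T.M (S.w k) (Y.w k)
                   map_one' := by rw [map_one, map_one, T.one]
                   map_mul' := fun k l => by rw [T.mul, map_mul, map_mul] }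
            Ω := T.t R.Ω Y.Ω
            C := {d | ∃ g, ∃ c ∈ Y.C, d = T.M (R.V g) c}
            hw := fun k => by simp only [MonoidHom.coe_mk, OneHom.coe_mk, T.st, S.w_star, Y.hw]
            cov := fun k a => ?_, nz := fun h => ?_, tr := fun a b => ?_, cm := ?_, cyc := ?_ }⟩
  · simp only [MonoidHom.coe_mk, OneHom.coe_mk, hπ, mul_add, add_mul, T.mul, Y.cov, S.α_coe,
      S.ac_apply]
    rcases Int.units_eq_one_or k with rfl | rfl
    · simp [ng_one]
    · rw [p2, q2, ng_neg, ng_neg, neg_neg, add_comm]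
  · have := T.ht.1 R.Ω R.Ω Y.Ω Y.Ω
    rw [h] at this
    simp [R.norm_Ω, Y.nz, eq_comm (a := (0 : ℂ))] at this
  · simp only [hπ, ContinuousLinearMap.add_apply, T.hM _ _ _ _, inner_add_right, T.ht.1]
    congr 2 <;> exact (S.A_inM a.2 _).τ_comm (S.A_inM b.2 _)
  · rintro a _ ⟨g, c, hc, rfl⟩
    change _ * _ = _ * _
    simp only [hπ, mul_add, add_mul, T.mul, (S.A_inM a.2 _ g).eq, (Y.cm _ c hc).eq]
  · refine (T.cyc _ _ (Submodule.dense_iff_topologicalClosure_eq_top.mpr R.b.dense_span)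
      Y.cyc).mono (Submodule.span_mono ?_)
    rintro _ ⟨_, ⟨g, rfl⟩, _, ⟨c, hc, rfl⟩, rfl⟩
    exact ⟨_, ⟨g⁻¹, c, hc, rfl⟩, by simp only [T.hM _ _ _ _, R.V_Ω, inv_inv]⟩

theorem exB (b' : HilbertBasis (XX × XX) ℂ K) : ∃ (B : Type) (_ : CStarAlgebra B)
    (β : Rk.Action ℤˣ B), IsSimpleAlg B ∧ PB β ∧ Nonempty (Cov β K) := by
  classical
  obtain ⟨S, hS, w, hw, hU⟩ := heis b' cB cB0 cB1 cB2 xB xB0 xB1 xB2
  haveI := S.closed
  let u : XX × XX → S.alg := fun g => ⟨S.U g, S.U_mem g⟩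
  let β := act S.alg w hw fun k => S.conj_mem _ _ fun g => ⟨_, hU k g⟩
  have hβ : ∀ k g, β k (u g) = xB k g • u g := fun k g => Subtype.ext (hU k g)
  refine ⟨S.alg, inferInstance, β, S.simple (hS ▸ ndB), ⟨Set.range u, fun x => ?_, fun F hF => ?_⟩,
    ⟨{ π := S.alg.subtype, w := w, Ω := S.Ω, C := Set.range S.V, hw := hw, cov := fun _ _ => rfl
       nz := fun h => by simpa [h] using S.tr0
       tr := fun a b => S.τ_comm a.2 b.2
       cm := ?_
       cyc := by rw [← Set.range_comp]; exact S.dense }⟩⟩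
  · rw [Metric.mem_closure_iff]
    intro ε hε
    obtain ⟨F, f, hf⟩ := S.approx x.2 hε
    refine ⟨∑ g ∈ F, f g • u g, Submodule.sum_mem _ fun g _ =>
      Submodule.smul_mem _ _ (Submodule.subset_span ⟨g, rfl⟩), ?_⟩
    rw [dist_eq_norm]
    change ‖x.1 - (∑ g ∈ F, f g • u g : S.alg).1‖ < ε
    simpa [u] using hf
  · choose! g hg using fun a (h : a ∈ F) => hF h
    obtain ⟨n, hn⟩ : ∃ n, ∀ f ∈ F, ∀ m, n ≤ m → (g f).1 m = 0 ∧ (g f).2 m = 0 := by
      refine ⟨(F.biUnion fun f => (g f).1.support ∪ (g f).2.support).sup id + 1,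
        fun f hf m hm => ?_⟩
      by_contra h
      have : m ∈ F.biUnion fun f => (g f).1.support ∪ (g f).2.support := by
        refine mem_biUnion.mpr ⟨f, hf, ?_⟩
        simp only [mem_union, Finsupp.mem_support_iff]; tauto
      have := le_sup (f := id) this
      simp only [id] at this
      omega
    have cm : ∀ {g h}, cB g h = cB h g → Commute (u g) (u h) :=
      fun e => Subtype.ext (S.commute (hS ▸ e)).eq
    have i1 : ∀ {g}, g + g = 0 → cB g g = 1 → u g * u g = 1 :=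
      fun a b => Subtype.ext (S.invol a (hS ▸ b)).1
    have i2 : ∀ {g}, g + g = 0 → cB g g = 1 → star (u g) = u g :=
      fun a b => Subtype.ext (S.invol a (hS ▸ b)).2
    refine ⟨u (Finsupp.single n 1, 0), u (0, Finsupp.single n 1), u (Finsupp.single (n + 1) 1, 0),
      i2 ?_ ?_, i2 ?_ ?_, i2 ?_ ?_, i1 ?_ ?_, i1 ?_ ?_, i1 ?_ ?_, Subtype.ext ?_, cm ?_, cm ?_,
      fun k => ?_, fun f hf => ?_⟩
    iterate 12 simp [single2, cB, pr_zero_left, pr_zero_right, sg_zero]
    · change S.U _ * S.U _ = -(S.U _ * S.U _)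
      rw [S.U_mul, S.U_mul, hS, add_comm]
      simp [cB, pr_zero_left, pr_single_left, sg_zero, sg_one]
    · simp [cB, pr_zero_left]
    · simp [cB, pr_zero_left, pr_single_left, sg_zero]
    · simp [hβ, xB, dg_zero, dg_single, sg_zero, sg_one]
    · rw [← hg f hf]
      refine ⟨cm ?_, cm ?_, cm ?_⟩ <;>
      simp [cB, pr_zero_left, pr_zero_right, pr_single_left, pr_single_right,
        hn f hf n le_rfl, hn f hf (n + 1) (by omega)]
  · rintro a _ ⟨g, rfl⟩
    exact S.ind (P := fun x => x * S.V g = S.V g * x) (isClosed_eq (by fun_prop) (by fun_prop))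
      (fun h => S.comm h g) (by simp) (fun a b h1 h2 => by rw [add_mul, mul_add, h1, h2])
      (fun a b h => by rw [smul_mul_assoc, mul_smul_comm, h]) a.2

theorem main2 (b : HilbertBasis (FP (PG 2000000)) ℂ H) (b' : HilbertBasis (XX × XX) ℂ K)
    (T : TP H K E) (T' : TP E K L) : ¬ Q2 := by
  obtain ⟨Q⟩ := exists_group 2000000 (by norm_num)
  obtain ⟨R, -⟩ := exists_reg b
  obtain ⟨S⟩ := exists_sys R le_rfl Q
  haveI := S.A_closed
  obtain ⟨B, _, β, sB, hB, ⟨Y⟩⟩ := exB b'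
  obtain ⟨_, -, h⟩ := id hB
  obtain ⟨x, _, _, x1, -, -, x2, -, -, -, -, -, x3, -⟩ := h ∅ (by simp)
  obtain ⟨X⟩ := covA S Y T x x1 x2 fun k => (x3 k).1
  exact final2 X Y T' (S.simple Q) sB (pa S) hB (S.not_trp Q)

end Pool.Agent.H70.Tr
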