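import Mathlib

/-! A commutative ring in which `2` has unit stable range one but `4` does not. -/

namespace Pool.Agent.H70.Usr

open Polynomial

theorem red {p : ℂ[X]} {t : ℂ} (hp : p ≠ 0) (ht : p.eval t = 0) {r1 r2 r3 : ℂ[X]}
    (h1 : r1.eval t ≠ 0) (h2 : r2.eval t ≠ 0) (h3 : r3.eval t ≠ 0) (a1 : ℕ) : ∀ a2 a3 : ℕ,
    p ^ a1 * r1 + p ^ a2 * r2 + p ^ a3 * r3 = 0 →
    ∃ n, p ^ n * r1 + r2 + r3 = 0 ∨ p ^ n * r2 + r1 + r3 = 0 ∨ p ^ n * r3 + r1 + r2 = 0 := by
  induction a1 with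
  | zero =>
    rintro (_ | a2) (_ | a3) h
    · exact ⟨0, .inl (by simpa using h)⟩
    · exact ⟨a3 + 1, .inr (.inr (by linear_combination h))⟩
    · exact ⟨a2 + 1, .inr (.inl (by linear_combination h))⟩
    · exact absurd (by simpa [ht] using congrArg (eval t) h) h1
  | succ a1 ih =>
    rintro (_ | a2) (_ | a3) h
    · exact ⟨a1 + 1, .inl (by linear_combination h)⟩
    · exact absurd (by simpa [ht] using congrArg (eval t) h) h2
    · exact absurd (by simpa [ht] using congrArg (eval t) h) h3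
    · exact ih a2 a3 (mul_left_cancel₀ hp (by linear_combination h))

variable {x : ℂ} (hx : x ≠ 0)

theorem q_ne : (C x * X + 2 : ℂ[X]) ≠ 0 := fun h => by simpa using congrArg (eval 0) h

include hx in
theorem k1 {c1 c2 c3 : ℂ} (h1 : c1 ≠ 0) {α β : ℕ}
    (h : (C x * X + 2) ^ β * (C c1 * X ^ α) + C c2 + C c3 = 0) : c1 + c2 + c3 = 0 := by
  cases α with
  | succ α =>
    have e : c2 + c3 = 0 := by simpa using congrArg (eval 0) h
    rw [add_assoc, ← C_add, e, C_0, add_zero] at h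
    exact absurd h (mul_ne_zero (pow_ne_zero _ q_ne)
      (mul_ne_zero (C_ne_zero.2 h1) (pow_ne_zero _ X_ne_zero)))
  | zero =>
    have e' := congrArg (eval (-x⁻¹)) h
    norm_num [hx] at e'
    exact e'

include hx in
theorem k2 {c1 c2 c3 : ℂ} (h1 : c1 ≠ 0) (h2 : c2 ≠ 0) {α β : ℕ}
    (h : (C x * X + 2) ^ β * C c2 + C c1 * X ^ α + C c3 = 0) :
    c1 + c2 + c3 = 0 ∨ c3 + 2 * c2 = 0 := by
  have d := congrArg derivative h
  have e1 := congrArg (eval 0) d
  have e2 := congrArg (eval (-2 * x⁻¹)) d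
  have e3 : x * (-2 * x⁻¹) + 2 = 0 := by field_simp; ring
  simp only [derivative_add, derivative_mul, derivative_pow, derivative_C, derivative_X,
    derivative_ofNat, eval_add, eval_mul, eval_pow, eval_C, eval_X, eval_one, eval_ofNat,
    eval_zero, zero_mul, mul_zero, add_zero, zero_add, mul_one, derivative_zero, e3] at e1 e2
  rcases α with _ | _ | α <;> rcases β with _ | _ | β
  · left; simpa [add_comm] using congrArg (eval 0) h
  · norm_num [h1, h2, hx] at e1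
  · norm_num [h1, h2, hx] at e1
    exact absurd e1 (by norm_cast)
  · norm_num [h1, h2, hx] at e1
  · right
    have := congrArg (eval 0) h
    norm_num at this
    linear_combination this
  · norm_num [h1, h2, hx] at e2
  · norm_num [h1, h2, hx] at e2
    exact absurd e2 (by norm_cast)
  · norm_num [h1, h2, hx] at e1
  · norm_num [h1, h2, hx] at e1
    exact absurd e1 (by norm_cast)

include hx in
theorem two {c1 c2 c3 : ℂ} (h1 : c1 ≠ 0) (h2 : c2 ≠ 0) (h3 : c3 ≠ 0) {n b1 b2 b3 : ℕ}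
    (h : X ^ n * (C c1 * (C x * X + 2) ^ b1) + C c2 * (C x * X + 2) ^ b2 +
      C c3 * (C x * X + 2) ^ b3 = 0) : c1 + c2 + c3 = 0 ∨ c3 + 2 * c2 = 0 ∨ c2 + 2 * c3 = 0 := by
  obtain ⟨m, h | h | h⟩ := red (t := -2 * x⁻¹) (r1 := C c1 * X ^ n) (r2 := C c2) (r3 := C c3)
    (q_ne (x := x)) (by simp [mul_comm x, hx]) (by simp [h1, hx]) (by simpa) (by simpa) b1 b2 b3
    (by linear_combination h)
  · exact .inl (k1 hx h1 h)
  · exact (k2 hx h1 h2 h).imp_right .inl
  · exact (k2 hx h1 h3 h).imp (fun e => by linear_combination e) .inr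

/-- units of a subring -/
def U (A : Subring ℂ) (y : ℂ) : Prop := y ∈ A ∧ y⁻¹ ∈ A ∧ y ≠ 0

/-- the invariant of the tower -/
def P (A : Subring ℂ) : Prop := (A : Set ℂ).Countable ∧ ¬ ∃ u v, U A u ∧ U A v ∧ 1 + v = 4 * u

theorem P.half {A : Subring ℂ} (h : P A) : (2 : ℂ)⁻¹ ∉ A := fun h' =>
  h.2 ⟨2⁻¹, 1, ⟨h', by simp, by simp⟩, ⟨by simp, by simp, by simp⟩, by norm_num⟩

theorem step {A : Subring ℂ} (hA : P A) (x : A) : ∃ A', A ≤ A' ∧ P A' ∧
    ((∃ r ∈ A, ∃ s ∈ A, r * 2 + s * (x : ℂ) = 1) → ∃ u, U A' u ∧ U A' (2 + u * x)) := by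
  by_cases hco : ∃ r ∈ A, ∃ s ∈ A, r * 2 + s * (x : ℂ) = 1
  swap
  · exact ⟨A, le_rfl, hA, fun h => absurd h hco⟩
  obtain ⟨r, hr, s, hs, hrs⟩ := hco
  haveI : Countable A := hA.1
  obtain ⟨z, hz⟩ : ∃ z : ℂ, ¬ IsAlgebraic A z := by
    by_contra h
    push Not at h
    exact not_countable_complex ((Algebraic.countable A ℂ).mono fun z _ => h z)
  have hz' : ∀ f : A[X], aeval z f = 0 → f = 0 := fun f hf => by
    by_contra h
    exact hz ⟨f, h, hf⟩
  have hx : (x : ℂ) ≠ 0 := fun e => hA.half (by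
    rw [show (2 : ℂ)⁻¹ = r by rw [e] at hrs; linear_combination -hrs / 2]; exact hr)
  have ha : ∀ y : A, algebraMap A ℂ y = y := fun _ => rfl
  have hp : z ≠ 0 := fun e => X_ne_zero (hz' _ (by simpa [ha] using e))
  have h2 : ((2 : A) : ℂ) = 2 := rfl
  have hq : x * z + 2 ≠ 0 := fun e => by
    have := congrArg (eval 0) (hz' (C x * X + 2) (by simpa [ha, h2, map_ofNat] using e))
    simp at this
  obtain ⟨g, hgd⟩ : ∃ g : A[X], g = X * (C x * X + 2) := ⟨_, rfl⟩
  have hg : aeval z g = z * (x * z + 2) := by simp [hgd, ha, map_ofNat]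
  have hg' : g.map A.subtype = X * (C (x : ℂ) * X + 2) := by simp [hgd]
  let A' : Subring ℂ :=
    { carrier := {y | ∃ (f : A[X]) (m : ℕ), y * aeval z g ^ m = aeval z f}
      mul_mem' := fun ⟨f, m, h⟩ ⟨f', m', h'⟩ => ⟨f * f', m + m', by
        rw [map_mul, ← h, ← h']; ring⟩
      one_mem' := ⟨1, 0, by simp⟩
      add_mem' := fun ⟨f, m, h⟩ ⟨f', m', h'⟩ => ⟨f * g ^ m' + f' * g ^ m, m + m', by
        simp only [map_add, map_mul, map_pow, ← h, ← h']; ring⟩
      zero_mem' := ⟨0, 0, by simp⟩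
      neg_mem' := fun ⟨f, m, h⟩ => ⟨-f, m, by simp [← h]⟩ }
  have hU : ∀ y, U A' y → ∃ c : A, U A c ∧ ∃ m i j : ℕ,
      y * aeval z g ^ m = aeval z (C c * X ^ i * (C x * X + 2) ^ j) := by
    rintro y ⟨⟨f, m, h⟩, ⟨f', m', h'⟩, h0⟩
    have e : f * f' = g ^ (m + m') := sub_eq_zero.1 (hz' _ (by
      rw [map_sub, map_mul, map_pow, ← h, ← h']; field_simp; ring))
    have e' : f.map A.subtype * f'.map A.subtype =
        (1 * X ^ (m + m')) * (C (x : ℂ) * X + 2) ^ (m + m') := by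
      rw [← Polynomial.map_mul, e, Polynomial.map_pow, hg', mul_pow, one_mul]
    have pq : Prime (C (x : ℂ) * X + 2 : ℂ[X]) := by
      rw [show (C (x : ℂ) * X + 2 : ℂ[X]) = C (x : ℂ) * (X - C (-2 * (x : ℂ)⁻¹)) by
        rw [mul_sub, ← C_mul, show (x : ℂ) * (-2 * (x : ℂ)⁻¹) = -2 by field_simp]
        simp [map_ofNat]]
      exact (prime_isUnit_mul (isUnit_C.2 (by simp [hx]))).2 (prime_X_sub_C _)
    obtain ⟨j, j', b, b', -, e1, e2, e3⟩ := mul_eq_mul_prime_pow pq e'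
    obtain ⟨i, i', u, u', -, e4, rfl, rfl⟩ := mul_eq_mul_prime_pow prime_X e1.symm
    obtain ⟨c, -, rfl⟩ := isUnit_iff.1 (IsUnit.of_mul_eq_one u' e4.symm)
    obtain ⟨c', -, rfl⟩ := isUnit_iff.1 (IsUnit.of_mul_eq_one_right (C c) e4.symm)
    rw [← C_mul, ← C_1, C_inj] at e4
    have key : ∀ (f : A[X]) (c : ℂ) (i j : ℕ),
        f.map A.subtype = C c * X ^ i * (C (x : ℂ) * X + 2) ^ j → c ∈ A := fun f c i j e => by
      have k1 : c * x ^ j ∈ A := by
        have := congrArg leadingCoeff e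
        have l2 : (C (x : ℂ) * X + 2 : ℂ[X]).leadingCoeff = x := leadingCoeff_linear (b := 2) hx
        simp only [leadingCoeff_mul, leadingCoeff_pow, leadingCoeff_C, leadingCoeff_X, l2,
          one_pow, mul_one] at this
        rw [← this, leadingCoeff, coeff_map]
        exact (f.coeff _).2
      have k2 : c * 2 ^ j ∈ A := by
        have := congrArg (coeff · (0 + i)) e
        simp only [coeff_map] at this
        rw [mul_right_comm, coeff_mul_X_pow, coeff_zero_eq_eval_zero] at this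
        have h3 := (f.coeff (0 + i)).2
        simp only [Subring.subtype_apply] at this
        rw [this] at h3
        simpa using h3
      obtain ⟨a, b, hab⟩ := (show IsCoprime (2 : A) x from
        ⟨⟨r, hr⟩, ⟨s, hs⟩, Subtype.ext hrs⟩).pow (m := j) (n := j)
      have h4 := congrArg A.subtype hab
      simp only [map_add, map_mul, map_pow, map_one, Subring.subtype_apply, h2] at h4
      rw [show c = a * (c * 2 ^ j) + b * (c * x ^ j) by linear_combination -c * h4]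
      exact add_mem (mul_mem a.2 k2) (mul_mem b.2 k1)
    have hc : c ≠ 0 := left_ne_zero_of_mul_eq_one e4.symm
    refine ⟨⟨c, key f c i j e2⟩, ⟨key f c i j e2, ?_, hc⟩, m, i, j, ?_⟩
    · rw [← eq_inv_of_mul_eq_one_right e4.symm]
      exact key f' c' i' j' e3
    · rw [h]
      congr 1
      apply map_injective A.subtype A.subtype_injective
      simp [e2]
  refine ⟨A', fun y hy => ⟨C ⟨y, hy⟩, 0, by simp [ha]⟩, ⟨?_, ?_⟩, fun _ => ⟨z,
    ⟨⟨X, 0, by simp⟩, ⟨C x * X + 2, 1, by simp [hg, hp, ha, map_ofNat]⟩, hp⟩, ?_⟩⟩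
  · haveI : Countable A[X] := Cardinal.mk_le_aleph0_iff.1
      (cardinalMk_le_max.trans (max_le Cardinal.mk_le_aleph0 le_rfl))
    refine (Set.countable_range fun t : A[X] × ℕ => aeval z t.1 / aeval z g ^ t.2).mono ?_
    rintro y ⟨f, m, h⟩
    exact ⟨(f, m), by
      dsimp only
      rw [← h, mul_div_cancel_right₀ _ (pow_ne_zero _ (hg ▸ mul_ne_zero hp hq))]⟩
  · rintro ⟨u, v, hu, hv, e⟩
    obtain ⟨c, hc, m, i, j, h⟩ := hU v hv
    obtain ⟨c', hc', m', i', j', h'⟩ := hU u hu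
    have e1 := hz' (g ^ (m + m') + C c * X ^ i * (C x * X + 2) ^ j * g ^ m' -
      C 4 * (C c' * X ^ i' * (C x * X + 2) ^ j') * g ^ m) (by
        rw [map_sub, map_add, map_mul, map_mul _ _ (g ^ m), map_mul _ (C 4), ← h, ← h']
        simp only [map_pow, aeval_C]
        have : algebraMap A ℂ 4 = 4 := rfl
        rw [this]
        linear_combination aeval z g ^ (m + m') * e)
    have e2 := congrArg (Polynomial.map A.subtype) e1
    have h4 : ((4 : A) : ℂ) = 4 := rfl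
    simp only [Polynomial.map_sub, Polynomial.map_add, Polynomial.map_mul, Polynomial.map_pow, hg',
      map_C, map_X, Polynomial.map_ofNat, Polynomial.map_zero, Subring.subtype_apply, h4,
      mul_pow] at e2
    have h5 : -4 * (c' : ℂ) ≠ 0 := mul_ne_zero (by norm_num) hc'.2.2
    have hi : ∀ {s t : ℂ}, U A s → t ∈ A → s + 2 * t ≠ 0 := fun {s t} hs ht e => hA.half (by
      have := hs.2.2
      rw [show (2 : ℂ)⁻¹ = -(t * s⁻¹) by field_simp; linear_combination e]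
      exact neg_mem (mul_mem ht hs.2.1))
    have u1 : U A 1 := ⟨by simp, by simp, by simp⟩
    have m4 : -4 * (c' : ℂ) ∈ A := mul_mem (neg_mem (ofNat_mem A 4)) c'.2
    have m2 : -(c' : ℂ) ∈ A := neg_mem c'.2
    have hs : (1 : ℂ) + c + -4 * c' ≠ 0 := fun e => hA.2 ⟨c', c, hc', hc, by linear_combination e⟩
    obtain ⟨n, k | k | k⟩ := red (t := 0) (r1 := C 1 * (C (x : ℂ) * X + 2) ^ (m + m'))
      (r2 := C (c : ℂ) * (C (x : ℂ) * X + 2) ^ (j + m'))
      (r3 := C (-4 * c' : ℂ) * (C (x : ℂ) * X + 2) ^ (j' + m))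
      X_ne_zero (by simp) (by simp) (by simp [hc.2.2])
      (by simp [hc'.2.2]) (m + m') (i + m') (i' + m) (by
        rw [C_mul, C_neg, C_1]; linear_combination e2)
    · rcases two hx one_ne_zero hc.2.2 h5 k with l | l | l
      exacts [hs l, hi hc m2 (by linear_combination l / 2), hi hc m4 l]
    · rcases two hx hc.2.2 one_ne_zero h5 k with l | l | l
      exacts [hs (by linear_combination l), hi u1 m2 (by linear_combination l / 2), hi u1 m4 l]
    · rcases two hx h5 one_ne_zero hc.2.2 k with l | l | l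
      exacts [hs (by linear_combination l), hi hc u1.1 l, hi u1 c.2 l]
  · rw [add_comm, mul_comm]
    exact ⟨⟨C x * X + 2, 0, by simp [ha, map_ofNat]⟩, ⟨X, 1, by
      simp only [hg, pow_one, aeval_X]
      field_simp⟩, hq⟩

theorem tower : ∃ R : Subring ℂ,
    (∀ x ∈ R, ∀ r ∈ R, ∀ s ∈ R, r * 2 + s * x = 1 → ∃ u, U R u ∧ U R (2 + u * x)) ∧
    ¬ ∃ u v, U R u ∧ U R v ∧ 1 + v = 4 * u := by
  choose nx h1 h2 h3 using fun (A : {A // P A}) (x : A.1) => step A.2 x
  have en : ∀ A : {A // P A}, ∃ f : ℕ → A.1, Function.Surjective f := fun A =>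
    haveI : Countable A.1 := A.2.1
    exists_surjective_nat _
  choose en hen using en
  have P0 : P ⊥ := by
    have hb : ∀ y, U ⊥ y → y = 1 ∨ y = -1 := by
      rintro y ⟨h1, h2, h3⟩
      obtain ⟨a, rfl⟩ := Subring.mem_bot.1 h1
      obtain ⟨b, hb⟩ := Subring.mem_bot.1 h2
      have : a * b = 1 := by
        have : (a : ℂ) * b = 1 := by rw [hb]; field_simp
        exact_mod_cast this
      rcases Int.eq_one_or_neg_one_of_mul_eq_one this with rfl | rfl <;> simp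
    refine ⟨(Set.countable_range (Int.cast : ℤ → ℂ)).mono fun y hy => Subring.mem_bot.1 hy, ?_⟩
    rintro ⟨u, v, hu, hv, e⟩
    rcases hb u hu with rfl | rfl <;> rcases hb v hv with rfl | rfl <;> norm_num at e
  classical
  let F : ℕ → ℕ → {A // P A} := fun n => Nat.rec (fun _ => ⟨⊥, P0⟩)
    (fun n G k => if k ≤ n then G k else
      if h : (en (G n.unpair.1) n.unpair.2 : ℂ) ∈ (G n).1 then ⟨nx (G n) ⟨_, h⟩, h2 _ _⟩ else G n) n
  let A : ℕ → {A // P A} := fun n => F n n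
  have hF : ∀ n k, k ≤ n → F n k = A k := fun n => by
    induction n with
    | zero => intro k hk; obtain rfl : k = 0 := by omega
              rfl
    | succ n ih =>
      intro k hk
      rcases hk.lt_or_eq with hk | rfl
      · exact (if_pos (by omega)).trans (ih k (by omega))
      · rfl
  have hA : ∀ n, A (n + 1) = if h : (en (A n.unpair.1) n.unpair.2 : ℂ) ∈ (A n).1 then
      ⟨nx (A n) ⟨_, h⟩, h2 _ _⟩ else A n := fun n => by
    have : A (n + 1) = if h : (en (F n n.unpair.1) n.unpair.2 : ℂ) ∈ (A n).1 then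
      ⟨nx (A n) ⟨_, h⟩, h2 _ _⟩ else A n := if_neg (by omega)
    rw [this, hF n _ (Nat.unpair_left_le n)]
  have mono : Monotone fun n => (A n).1 := monotone_nat_of_le_succ fun n => by
    rw [hA]
    split_ifs
    exacts [h1 _ _, le_rfl]
  have mem : ∀ x, x ∈ ⨆ n, (A n).1 ↔ ∃ n, x ∈ (A n).1 := fun x =>
    Subring.mem_iSup_of_directed mono.directed_le
  have Um : ∀ {A B : Subring ℂ} {y}, A ≤ B → U A y → U B y := fun h hy => ⟨h hy.1, h hy.2.1, hy.2.2⟩
  refine ⟨⨆ n, (A n).1, fun x hx r hr s hs hrs => ?_, ?_⟩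
  · obtain ⟨i1, hi1⟩ := (mem x).1 hx
    obtain ⟨i2, hi2⟩ := (mem r).1 hr
    obtain ⟨i3, hi3⟩ := (mem s).1 hs
    obtain ⟨i, l1, l2, l3⟩ : ∃ i, i1 ≤ i ∧ i2 ≤ i ∧ i3 ≤ i := ⟨i1 + i2 + i3, by omega⟩
    have hi := mono l1 hi1
    obtain ⟨j, hj⟩ := hen (A i) ⟨x, hi⟩
    have e := hA (Nat.pair i j)
    have e' : (en (A (Nat.pair i j).unpair.1) (Nat.pair i j).unpair.2 : ℂ) = x := by
      rw [Nat.unpair_pair, hj]
    have hm : x ∈ (A (Nat.pair i j)).1 := mono (Nat.left_le_pair i j) hi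
    rw [dif_pos (e' ▸ hm)] at e
    obtain ⟨u, k1, k2⟩ := h3 (A (Nat.pair i j)) ⟨_, e' ▸ hm⟩
      ⟨r, mono (l2.trans (Nat.left_le_pair i j)) hi2, s, mono (l3.trans (Nat.left_le_pair i j)) hi3,
        e' ▸ hrs⟩
    have le : nx (A (Nat.pair i j)) ⟨_, e' ▸ hm⟩ ≤ ⨆ n, (A n).1 :=
      le_iSup_of_le (Nat.pair i j + 1) (by rw [e])
    exact ⟨u, Um le k1, e' ▸ Um le k2⟩
  · rintro ⟨u, v, ⟨a1, a2, a3⟩, ⟨b1, b2, b3⟩, e⟩
    obtain ⟨n1, a1⟩ := (mem _).1 a1
    obtain ⟨n2, a2⟩ := (mem _).1 a2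
    obtain ⟨n3, b1⟩ := (mem _).1 b1
    obtain ⟨n4, b2⟩ := (mem _).1 b2
    exact (A (n1 + n2 + n3 + n4)).2.2 ⟨u, v, ⟨mono (by omega) a1, mono (by omega) a2, a3⟩,
      ⟨mono (by omega) b1, mono (by omega) b2, b3⟩, e⟩

end Pool.Agent.H70.Usr
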