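import Pool.Agent.H70.WuuDefs
import Pool.Agent.H70.SL2

namespace Pool.Agent.H70.Wuu

open Pool.Agent.H70.SL Polynomial

variable {R : Type*} [Ring R]

theorem corner {n m E : R} (hn : IsNilpotent n) (h1 : n * m = E) (h2 : E * m = m) : E = 0 := by
  obtain ⟨k, hk⟩ := hn
  have : ∀ j, n ^ (j + 1) * m ^ (j + 1) = E := fun j => by
    induction j with
    | zero => simpa
    | succ j ih => rw [pow_succ' n, pow_succ m, mul_assoc, ← mul_assoc (n ^ _), ih, h2, h1]
  rw [← this k, pow_succ, hk, zero_mul, zero_mul]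

theorem core (hs : ∀ a : R, a ≠ 0 → ∃ r, a * r * (a * r) = a * r ∧ a * r ≠ 0)
    (hu : ∀ u : R, IsUnit u → IsNilpotent (u - 1) ∨ IsNilpotent (u + 1)) (a : R) :
    a * a = a ∨ a * a = -a := by
  have red : ∀ a : R, a * a = 0 → a = 0 := fun a ha => by
    by_contra h0
    obtain ⟨r, h1, h2⟩ := hs a h0
    have h3 : a * (a * r) = 0 := by rw [← mul_assoc, ha, zero_mul]
    generalize he : a * r = e at *
    have k1 : e * a * ((1 - e) * r * e) = e := by
      calc _ = e * (a * r) * e - e * (a * e) * r * e := by noncomm_ring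
        _ = e := by rw [he, h3, h1, h1]; simp
    have k2 : e * a * e = 0 := by rw [mul_assoc, h3, mul_zero]
    have k3 : e * (e * a) = e * a := by rw [← mul_assoc, h1]
    have k4 : e * ((1 - e) * r * e) = 0 := by rw [← mul_assoc, ← mul_assoc, mul_sub, h1]; simp
    have k5 : (1 - e) * r * e * e = (1 - e) * r * e := by rw [mul_assoc, h1]
    generalize e * a = x at *
    generalize (1 - e) * r * e = y at *
    have l1 : ∀ z, e * (e * z) = e * z := fun z => by rw [← mul_assoc, h1]
    have l2 : ∀ z, x * (y * z) = e * z := fun z => by rw [← mul_assoc, k1]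
    have l3 : ∀ z, x * (e * z) = 0 := fun z => by rw [← mul_assoc, k2, zero_mul]
    have l4 : ∀ z, e * (x * z) = x * z := fun z => by rw [← mul_assoc, k3]
    have l5 : ∀ z, e * (y * z) = 0 := fun z => by rw [← mul_assoc, k4, zero_mul]
    have l6 : ∀ z, y * (e * z) = y * z := fun z => by rw [← mul_assoc, k5]
    have k6 : x * x = 0 := by rw [← l3 x, k3]
    have k7 : y * y = 0 := by rw [← l6, k4, mul_zero]
    have l7 : ∀ z, x * (x * z) = 0 := fun z => by rw [← mul_assoc, k6, zero_mul]
    have l8 : ∀ z, y * (y * z) = 0 := fun z => by rw [← mul_assoc, k7, zero_mul]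
    have key : e + y * x = 0 := by
      rcases hu _ ⟨⟨1 + x + y - y * x, 1 + x + y - e - y * x - y * x,
        by simp [mul_add, add_mul, mul_sub, sub_mul, mul_assoc, *]; abel,
        by simp [mul_add, add_mul, mul_sub, sub_mul, mul_assoc, *]; abel⟩, rfl⟩ with h | h
      · exact corner h (m := e + x + y) (by simp [mul_add, add_mul, mul_sub, sub_mul, mul_assoc, *]; abel)
          (by simp [mul_add, add_mul, mul_assoc, *])
      · exact corner h (m := e - x - y + y * x + y * x)
          (by simp [mul_add, add_mul, mul_sub, sub_mul, mul_assoc, *]; abel)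
          (by simp [mul_add, add_mul, mul_sub, sub_mul, mul_assoc, *])
    exact h2 (by simpa [mul_add, h1, l5] using congrArg (e * ·) key)
  have : IsReduced R := (isReduced_iff_pow_one_lt 2 one_lt_two).2 fun x hx => red x (by rwa [← sq])
  have hu' : ∀ u : R, IsUnit u → u = 1 ∨ u = -1 := fun u h =>
    (hu u h).imp (fun h => sub_eq_zero.1 h.eq_zero) fun h => eq_neg_of_add_eq_zero_left h.eq_zero
  have cen : ∀ e : R, e * e = e → ∀ r, e * r = r * e := fun e he r => by
    have h1 := red (e * r * (1 - e)) (by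
      rw [mul_assoc, ← mul_assoc (1 - e), ← mul_assoc (1 - e), sub_mul, he]; simp)
    have h2 := red ((1 - e) * r * e) (by
      rw [mul_assoc, ← mul_assoc e, ← mul_assoc e, mul_sub, he]; simp)
    rw [mul_sub, mul_one, sub_eq_zero] at h1
    rw [sub_mul, sub_mul, one_mul, sub_eq_zero] at h2
    rw [h1, h2]
  have un : ∀ e b c : R, e * e = e → b * c = e → b * e = e ∨ b * e = -e := fun e b c he h => by
    have h1 : (b * e + (1 - e)) * (c * e + (1 - e)) = 1 := by
      calc _ = b * (e * c) * e + b * (e - e * e) + (c * e - e * c * e) + (1 - e - e + e * e) := by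
            noncomm_ring
        _ = 1 := by simp only [cen e he c, mul_assoc, he, ← mul_assoc b c, h]; simp
    have h2 : ∀ p q : R, p * q = 1 → IsUnit p := fun p q h => ⟨⟨p, q, h, by
      have := cen (q * p) (by rw [mul_assoc, ← mul_assoc p, h, one_mul]) p
      rw [← mul_assoc, h, one_mul] at this
      rw [← mul_one (q * p), ← h, ← mul_assoc, this]⟩, rfl⟩
    exact (hu' _ (h2 _ _ h1)).imp (fun h => by simpa [add_mul, sub_mul, mul_assoc, he] using congrArg (· * e) h)
      fun h => by simpa [add_mul, sub_mul, mul_assoc, he] using congrArg (· * e) h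
  have step : ∀ a : R, a * a ≠ a → (2 : R) ≠ 0 ∧ a * 2 = -2 ∧ (6 : R) = 0 := fun a ha => by
    obtain ⟨r, h1, h2⟩ := hs (a - a * a) fun h => ha (sub_eq_zero.1 h).symm
    generalize he : (a - a * a) * r = e at *
    have h3 := un e a ((1 - a) * r) h1 (by rw [← he]; noncomm_ring)
    have h4 := un e (1 - a) (a * r) h1 (by rw [← he]; noncomm_ring)
    rw [sub_mul, one_mul] at h4
    have h5 : a * e = -e := h3.resolve_left fun h => by simp [h, eq_comm, h2] at h4
    have h6 : e + e + e = 0 := by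
      rw [h5, sub_neg_eq_add] at h4
      exact h4.elim (fun h => absurd (add_eq_left.1 h) h2) fun h => by rw [h, neg_add_cancel]
    have h7 : (2 : R) = -e := by
      rcases hu' (1 - e - e) ⟨⟨1 - e - e, 1 - e - e, by simp [mul_sub, sub_mul, h1],
        by simp [mul_sub, sub_mul, h1]⟩, rfl⟩ with h | h
      · have h8 : e + e = 0 := by rwa [sub_sub, sub_eq_self] at h
        exact absurd (by simpa [h8] using h6) h2
      · have h8 : (2 : R) = e + e := by
          rw [sub_sub, sub_eq_iff_eq_add, eq_neg_add_iff_add_eq] at h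
          rw [← h, one_add_one_eq_two]
        rw [h8, eq_neg_iff_add_eq_zero, h6]
    refine ⟨by simpa [h7], by rw [h7, mul_neg, h5], ?_⟩
    rw [show (6 : R) = 2 + 2 + 2 by norm_num, h7, ← neg_add, ← neg_add, h6, neg_zero]
  refine or_iff_not_imp_left.2 fun h => by_contra fun h' => ?_
  obtain ⟨h1, h2, h3⟩ := step a h
  obtain ⟨-, h4, -⟩ := step (-a) (by rwa [neg_mul_neg])
  rw [neg_mul, h2, neg_neg] at h4
  refine h1 ?_
  rw [show (6 : R) = 2 + 2 + 2 by norm_num, add_assoc, eq_neg_iff_add_eq_zero.1 h4, add_zero] at h3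
  exact h3

theorem snc {a : R} (h : IsNilpotent (a * a - a)) : SNC a := by
  obtain ⟨n, hn⟩ := h.neg
  rw [neg_sub, ← sq] at hn
  have h1 : (a - a ^ 2) ^ (n + 1) = 0 := by rw [pow_succ, hn, zero_mul]
  obtain ⟨q, hq⟩ : (X * (X - C 1) : ℤ[X]) ∣ X - (1 - (1 - X ^ (n + 1)) ^ (n + 1)) :=
    IsCoprime.mul_dvd ⟨1, -1, by simp⟩ (by simp [X_dvd_iff, coeff_zero_eq_eval_zero])
      (dvd_iff_isRoot.2 (by simp))
  have h2 := congrArg (aeval a) hq
  have h3 := (Commute.all (X * (X - C 1)) q).map (aeval a)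
  have h4 := (Commute.all (1 - (1 - X ^ (n + 1)) ^ (n + 1) : ℤ[X]) (X * (X - C 1) * q)).map (aeval a)
  simp only [map_sub, map_mul, map_pow, map_one, aeval_X, mul_sub a, mul_one] at h2 h3 h4
  exact ⟨_, _, isIdempotentElem_one_sub_one_sub_pow_pow a _ h1, h3.isNilpotent_mul_right h, h4,
    by rw [← h2]; simp⟩

theorem main : SWNC R ↔ SemiPotent R ∧ WUU R := by
  have w : ∀ u : R, (∃ n, IsNilpotent n ∧ (u = n + 1 ∨ u = n - 1)) → IsUnit u := by
    rintro _ ⟨n, hn, rfl | rfl⟩
    exacts [hn.isUnit_add_one, hn.isUnit_sub_one]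
  refine ⟨fun h => ⟨fun I hI => ?_, fun u => ⟨fun hu => ?_, w u⟩⟩, fun ⟨h1, h2⟩ a => ?_⟩
  · by_contra hc
    refine hI fun x hx => ?_
    have nil : ∀ y ∈ I, IsNilpotent y := fun y hy => by
      have k : ∀ y ∈ I, SNC y → IsNilpotent y := fun y hy ⟨e, b, he, hb, h1, h2⟩ => by
        obtain ⟨v, hv⟩ := hb.isUnit_one_add
        have h3 : y * (e * ↑v⁻¹) = e := by
          rw [← mul_assoc, Units.mul_inv_eq_iff_eq_mul, hv, h2, add_mul, he.eq, mul_add, mul_one, h1]
        have h4 : e = 0 := by_contra fun h0 => hc ⟨e, h3 ▸ I.smul_mem (.op _) hy, he, h0⟩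
        simpa [h2, h4]
      exact (h y).elim (k y hy) fun h => by simpa using k _ (neg_mem hy) h
    refine mem_jac.2 fun y => ?_
    obtain ⟨k, hk⟩ := nil (x * y) (I.smul_mem (.op y) hx)
    refine (IsNilpotent.isUnit_one_add ⟨k + 1, ?_⟩).exists_left_inv
    rw [pow_succ', mul_assoc, ← mul_pow_mul, hk, zero_mul, mul_zero]
  · have k : ∀ u : R, IsUnit u → SNC u → IsNilpotent (u - 1) := fun u hu ⟨e, b, he, hb, h1, h2⟩ => by
      have h3 : Commute u b := by rw [h2]; exact Commute.add_left h1 (.refl b)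
      have h4 : IsUnit e := by simpa [h2] using hb.neg.isUnit_add_left_of_commute hu h3.symm.neg_left
      simpa [h2, (IsIdempotentElem.iff_eq_one_of_isUnit h4).1 he]
    exact (h u).elim (fun h => ⟨_, k u hu h, by simp⟩) fun h => ⟨_, (k _ hu.neg h).neg, by simp⟩
  · have u1 : ∀ u : R, IsUnit u → IsNilpotent (u - 1) ∨ IsNilpotent (u + 1) := fun u hu => by
      obtain ⟨n, hn, rfl | rfl⟩ := (h2 u).1 hu <;> simp [hn]
    have nil : ∀ j ∈ Ring.jacobson R, IsNilpotent j := fun j hj => by
      refine (u1 _ (unit_jac isUnit_one hj)).elim (by simp) fun h => ?_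
      obtain ⟨k, h3⟩ : ∃ k, (2 : R) ^ k ∈ Ring.jacobson R := by
        obtain ⟨k, hk⟩ := h.map (Ideal.Quotient.mk (Ring.jacobson R))
        rw [map_add, map_add, Ideal.Quotient.eq_zero_iff_mem.2 hj, add_zero, ← map_add,
          one_add_one_eq_two, ← map_pow] at hk
        exact ⟨k, Ideal.Quotient.eq_zero_iff_mem.1 hk⟩
      have h4 : IsNilpotent (2 : R) := by
        refine (u1 _ (unit_jac isUnit_one (Ideal.mul_mem_left _ 2 h3))).elim (fun h => ?_) fun h => ?_
        · rw [add_sub_cancel_left, ← pow_succ'] at h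
          exact h.of_pow
        · rw [add_right_comm, one_add_one_eq_two, ← mul_one_add] at h
          obtain ⟨v, hv⟩ := (unit_jac isUnit_one h3).exists_right_inv
          have := (Commute.mul_left (Commute.ofNat_left 2 v) (Commute.add_left (.one_left v)
            ((Commute.ofNat_left 2 v).pow_left k))).isNilpotent_mul_right h
          rwa [mul_assoc, hv, mul_one] at this
      have := Commute.isNilpotent_sub (Commute.ofNat_right _ 2) h h4
      rwa [show 1 + j + 1 - 2 = j by rw [← one_add_one_eq_two]; abel] at this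
    have := core (R := R ⧸ Ring.jacobson R) (fun a ha => by
      obtain ⟨a, rfl⟩ := Ideal.Quotient.mk_surjective a
      obtain ⟨e, he, h3, h4⟩ := h1 (Submodule.span _ {a}) fun h =>
        ha (Ideal.Quotient.eq_zero_iff_mem.2 (h a (Submodule.mem_span_singleton_self a)))
      obtain ⟨r, rfl⟩ := Submodule.mem_span_singleton.1 he
      refine ⟨Ideal.Quotient.mk _ r.unop, congrArg (Ideal.Quotient.mk _) h3.eq, fun h => h4 ?_⟩
      exact h3.eq_zero_of_isNilpotent (nil _ (Ideal.Quotient.eq_zero_iff_mem.1 h))) (fun u hu => by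
      obtain ⟨u, rfl⟩ := Ideal.Quotient.mk_surjective u
      have h3 : IsUnit u := by
        obtain ⟨v, a⟩ := hu.exists_right_inv
        obtain ⟨v', b⟩ := hu.exists_left_inv
        obtain ⟨v, rfl⟩ := Ideal.Quotient.mk_surjective v
        obtain ⟨v', rfl⟩ := Ideal.Quotient.mk_surjective v'
        obtain ⟨p, hp⟩ := (unit_jac isUnit_one ((Ideal.Quotient.eq (x := u * v) (y := 1)).1 a)).exists_right_inv
        obtain ⟨q, hq⟩ := (unit_jac isUnit_one ((Ideal.Quotient.eq (x := v' * u) (y := 1)).1 b)).exists_left_inv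
        rw [add_sub_cancel, mul_assoc] at hp
        rw [add_sub_cancel, ← mul_assoc] at hq
        exact ⟨⟨u, _, hp, left_inv_eq_right_inv hq hp ▸ hq⟩, rfl⟩
      exact (u1 u h3).imp (fun h => h.map (Ideal.Quotient.mk _))
        fun h => h.map (Ideal.Quotient.mk _)) (Ideal.Quotient.mk _ a)
    refine this.imp (fun h => snc (nil _ (Ideal.Quotient.eq.1 h))) fun h => snc (nil _ ?_)
    rw [neg_mul_neg]
    exact Ideal.Quotient.eq.1 h

end Pool.Agent.H70.Wuu
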