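import Mathlib

/-! Strongly weakly nil-clean, WUU and semi-potent rings. -/

namespace Pool.Agent.H70.Wuu

/-- `a = e + b` with `e` idempotent, `b` nilpotent, `e b = b e`. -/
def SNC {R : Type*} [Ring R] (a : R) : Prop :=
  ∃ e b : R, IsIdempotentElem e ∧ IsNilpotent b ∧ e * b = b * e ∧ a = e + b

def SWNC (R : Type*) [Ring R] : Prop := ∀ a : R, SNC a ∨ SNC (-a)

/-- The units are exactly the elements `n + 1`, `n - 1` with `n` nilpotent. -/
def WUU (R : Type*) [Ring R] : Prop :=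
  ∀ u : R, IsUnit u ↔ ∃ n, IsNilpotent n ∧ (u = n + 1 ∨ u = n - 1)

/-- Every right ideal not inside the Jacobson radical contains a nonzero idempotent. -/
def SemiPotent (R : Type*) [Ring R] : Prop :=
  ∀ I : Submodule Rᵐᵒᵖ R, (¬ ∀ x ∈ I, x ∈ Ring.jacobson R) → ∃ e ∈ I, IsIdempotentElem e ∧ e ≠ 0

end Pool.Agent.H70.Wuu
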